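import Pool.Agent.Strip051.LC.Exact.Dir2

/-! # The density with two tents

`ten κ c s` is the soft threshold of the density `D s κ` at the level `c`; its integrals are at most
`h0 (A - c)^2 / (4 A)`, where `A` is the height of `D s κ`.  `tnt s th` is the case of the height
one: two tents at the ends of the cell with the half widths `th s / 2` inside the cell and
`th (h0 - s) / 2` outside. -/

namespace Pool.Agent.Strip051.LC

open Pool.Agent.StripNear Pool.Agent.StripSquare Pool.Agent.Strip051.Sweep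
open Pool.Agent.Strip051.LC.Line (D D_refl D_add D_low D_high D_abs D_add_int Dd_continuous)

/-- The soft threshold. -/
noncomputable def sft (c u : ℝ) : ℝ := max 0 (u - c) - max 0 (-u - c)

theorem sft_neg (c u : ℝ) : sft c (-u) = -sft c u := by
  unfold sft
  rw [neg_neg]
  ring

theorem sft_cont (c : ℝ) : Continuous (sft c) := by
  unfold sft
  fun_prop

theorem sft_abs {c : ℝ} (hc : 0 ≤ c) (u : ℝ) : |sft c u| ≤ |u| := by
  unfold sft
  rcases le_total 0 u with h | h
  · rw [abs_of_nonneg h, max_eq_left (by linarith : -u - c ≤ 0), sub_zero,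
      abs_of_nonneg (le_max_left _ _)]
    exact max_le h (by linarith)
  · rw [abs_of_nonpos h, max_eq_left (by linarith : u - c ≤ 0), zero_sub, abs_neg,
      abs_of_nonneg (le_max_left _ _)]
    exact max_le (by linarith) (by linarith)

/-- Its antiderivative. -/
noncomputable def sfi (c u : ℝ) : ℝ := max 0 (u - c) ^ 2 / 2 + max 0 (-u - c) ^ 2 / 2

theorem sfi_neg (c u : ℝ) : sfi c (-u) = sfi c u := by
  unfold sfi
  rw [neg_neg]
  ring

theorem sfi_nonneg (c u : ℝ) : 0 ≤ sfi c u := by
  unfold sfi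
  positivity

theorem sfi_le {c u A : ℝ} (hc : 0 ≤ c) (hA : c ≤ A) (h : |u| ≤ A) :
    sfi c u ≤ (A - c) ^ 2 / 2 := by
  have key : ∀ u : ℝ, 0 ≤ u → u ≤ A → sfi c u ≤ (A - c) ^ 2 / 2 := by
    intro u h0 h1
    unfold sfi
    rw [max_eq_left (by linarith : -u - c ≤ 0)]
    have : max 0 (u - c) ^ 2 ≤ (A - c) ^ 2 :=
      pow_le_pow_left₀ (le_max_left _ _) (max_le (by linarith) (by linarith)) 2
    linarith
  rcases le_total 0 u with h0 | h0
  · exact key u h0 (by rwa [abs_of_nonneg h0] at h)
  · rw [← sfi_neg]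
    exact key (-u) (by linarith) (by rwa [abs_of_nonpos h0] at h)

theorem sfi_top {c A : ℝ} (hc : 0 ≤ c) (hA : c ≤ A) : sfi c A = (A - c) ^ 2 / 2 := by
  unfold sfi
  rw [max_eq_right (by linarith : 0 ≤ A - c), max_eq_left (by linarith : -A - c ≤ 0)]
  ring

theorem hasDerivAt_sq_max (u : ℝ) :
    HasDerivAt (fun x : ℝ => max 0 x ^ 2 / 2) (max 0 u) u := by
  rcases lt_trichotomy u 0 with h | h | h
  · have e : (fun x : ℝ => max 0 x ^ 2 / 2) =ᶠ[nhds u] fun _ => 0 := by
      filter_upwards [Iio_mem_nhds h] with x hx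
      rw [max_eq_left (le_of_lt hx)]
      norm_num
    rw [max_eq_left h.le]
    exact (hasDerivAt_const u (0 : ℝ)).congr_of_eventuallyEq e
  · subst h
    rw [max_self]
    have h1 : HasDerivWithinAt (fun x : ℝ => max 0 x ^ 2 / 2) 0 (Set.Iic 0) 0 := by
      refine (hasDerivWithinAt_const (0 : ℝ) (Set.Iic 0) (0 : ℝ)).congr (fun x hx => ?_) ?_
      · rw [max_eq_left hx]
        norm_num
      · norm_num
    have h2 : HasDerivWithinAt (fun x : ℝ => max 0 x ^ 2 / 2) 0 (Set.Ici 0) 0 := by
      have h3 : HasDerivAt (fun x : ℝ => x ^ 2 / 2) 0 0 := by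
        have := (hasDerivAt_pow 2 (0 : ℝ)).div_const 2
        simpa using this
      refine h3.hasDerivWithinAt.congr (fun x hx => ?_) ?_
      · rw [max_eq_right hx]
      · norm_num
    have h3 := h1.union h2
    rw [Set.Iic_union_Ici] at h3
    exact hasDerivWithinAt_univ.1 h3
  · have e : (fun x : ℝ => max 0 x ^ 2 / 2) =ᶠ[nhds u] fun x => x ^ 2 / 2 := by
      filter_upwards [Ioi_mem_nhds h] with x hx
      rw [max_eq_right (le_of_lt hx)]
    rw [max_eq_right h.le]
    have h3 : HasDerivAt (fun x : ℝ => x ^ 2 / 2) u u := by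
      have := (hasDerivAt_pow 2 u).div_const 2
      simpa using this
    exact h3.congr_of_eventuallyEq e

theorem hasDerivAt_sfi (c u : ℝ) : HasDerivAt (sfi c) (sft c u) u := by
  have g1 : HasDerivAt (fun x : ℝ => x - c) 1 u := (hasDerivAt_id' u).sub_const c
  have g2 : HasDerivAt (fun x : ℝ => -x - c) (-1) u := (hasDerivAt_neg' u).sub_const c
  have h1 : HasDerivAt ((fun x : ℝ => max 0 x ^ 2 / 2) ∘ fun x : ℝ => x - c)
      (max 0 (u - c) * 1) u := (hasDerivAt_sq_max (u - c)).comp u g1
  have h2 : HasDerivAt ((fun x : ℝ => max 0 x ^ 2 / 2) ∘ fun x : ℝ => -x - c)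
      (max 0 (-u - c) * (-1)) u := (hasDerivAt_sq_max (-u - c)).comp u g2
  have h3 := h1.add h2
  have e : max 0 (u - c) * 1 + max 0 (-u - c) * (-1) = sft c u := by
    unfold sft
    ring
  rw [e] at h3
  exact h3

/-- The integral of the soft threshold of a linear function. -/
theorem integral_sft (c : ℝ) {σ : ℝ} (hσ : σ ≠ 0) (β a b : ℝ) :
    ∫ x in a..b, sft c (σ * x + β) = (sfi c (σ * b + β) - sfi c (σ * a + β)) / σ := by
  have h : ∀ x ∈ Set.uIcc a b, HasDerivAt (fun x => sfi c (σ * x + β) / σ) (sft c (σ * x + β)) x := by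
    intro x _
    have h1 : HasDerivAt (fun x : ℝ => σ * x + β) σ x := by
      simpa using ((hasDerivAt_id x).const_mul σ).add_const β
    have h2 := (hasDerivAt_sfi c (σ * x + β)).comp x h1
    have h3 := h2.div_const σ
    rw [mul_div_assoc, div_self hσ, mul_one] at h3
    exact h3
  rw [intervalIntegral.integral_eq_sub_of_hasDerivAt h
    (((sft_cont c).comp (by fun_prop)).intervalIntegrable _ _), sub_div]

/-- The density. -/
noncomputable def ten (κ c s x : ℝ) : ℝ := sft c (D s κ x)

section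

variable {κ c s : ℝ}

theorem ten_denOk (hc : 0 ≤ c) (hκ : 0 ≤ κ) (hs0 : 0 ≤ s) (hs1 : s < h0) :
    DenOk (ten κ c s) s where
  cont := (sft_cont c).comp (Dd_continuous h0_pos hs0 hs1.le)
  per x := by
    unfold ten
    rw [D_add]
  mir x := by
    unfold ten
    rw [D_refl κ hs0 hs1, sft_neg]
  bdd := ⟨_, fun x => (sft_abs hc _).trans (D_abs hs0 hs1 hκ x)⟩

theorem ten_osc (hc : 0 ≤ c) (hκ : 0 < κ) (hs0 : 0 < s) (hs1 : s < h0)
    (hcA : c ≤ κ * (s * (h0 - s) / (2 * h0))) (a b : ℝ) : |∫ x in a..b, ten κ c s x| ≤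
      h0 * (κ * (s * (h0 - s) / (2 * h0)) - c) ^ 2 / (4 * (κ * (s * (h0 - s) / (2 * h0)))) := by
  have hh := h0_pos
  have hden := ten_denOk (κ := κ) hc hκ.le hs0.le hs1
  set A := κ * (s * (h0 - s) / (2 * h0)) with hA
  have hsh : 0 < h0 - s := by linarith
  have hA0 : 0 < A := by positivity
  set σ1 := κ * (h0 - s) / h0 with hσ1
  set σ2 := κ * s / h0 with hσ2
  have p1 : 0 < σ1 := by positivity
  have p2 : 0 < σ2 := by positivity
  have hI : ∀ a b, IntervalIntegrable (ten κ c s) MeasureTheory.volume a b := fun a b =>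
    hden.cont.intervalIntegrable a b
  -- the integral over a period
  have hper : Function.Periodic (ten κ c s) h0 := hden.per
  have z0 : ∫ x in (0 : ℝ)..h0, ten κ c s x = 0 := by
    have e1 : ∫ x in (0 : ℝ)..h0, ten κ c s x = ∫ x in (s - h0)..(s - 0), ten κ c s (s - x) := by
      rw [intervalIntegral.integral_comp_sub_left (fun x => ten κ c s x) s]
      congr 1 <;> ring
    have e2 : ∫ x in (s - h0)..(s - 0), ten κ c s (s - x) =
        -∫ x in (s - h0)..(s - 0), ten κ c s x := by
      rw [← intervalIntegral.integral_neg]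
      exact intervalIntegral.integral_congr fun x _ => hden.mir x
    have e3 := hper.intervalIntegral_add_eq (s - h0) 0
    rw [sub_add_cancel, zero_add] at e3
    rw [sub_zero] at e1 e2
    linarith
  set F : ℝ → ℝ := fun x => ∫ u in (0 : ℝ)..x, ten κ c s u with hF
  have Fab : ∀ a b, ∫ x in a..b, ten κ c s x = F b - F a := by
    intro a b
    have := intervalIntegral.integral_add_adjacent_intervals (hI 0 a) (hI a b)
    simp only [hF]
    linarith
  have Fper : Function.Periodic F h0 := by
    intro x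
    have e1 := Fab x (x + h0)
    have e2 := hper.intervalIntegral_add_eq x 0
    rw [zero_add, z0] at e2
    linarith
  have DA : ∀ x, |D s κ x| ≤ A := fun x => D_abs hs0.le hs1 hκ.le x
  -- the cell
  have cell : ∀ x, 0 ≤ x → x ≤ s → F x = (sfi c (D s κ x) - (A - c) ^ 2 / 2) / σ1 := by
    intro x h1 h2
    have e : F x = ∫ u in (0 : ℝ)..x, sft c (σ1 * u + -(σ1 * s / 2)) := by
      refine intervalIntegral.integral_congr fun u hu => ?_
      rw [Set.uIcc_of_le h1] at hu
      change sft c (D s κ u) = _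
      rw [D_low hu.1 (hu.2.trans h2) hs1, hσ1]
      congr 1
      field_simp
      ring
    rw [e, integral_sft c p1.ne']
    have e1 : σ1 * x + -(σ1 * s / 2) = D s κ x := by
      rw [D_low h1 h2 hs1, hσ1]
      field_simp
      ring
    have e2 : σ1 * 0 + -(σ1 * s / 2) = -A := by
      rw [hσ1, hA]
      field_simp
      ring
    rw [e1, e2, sfi_neg, sfi_top hc hcA]
  have Fs : F s = 0 := by
    rw [cell s hs0.le le_rfl, D_low hs0.le le_rfl hs1]
    have : κ * ((h0 - s) / (2 * h0) * (2 * s - s)) = A := by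
      rw [hA]
      ring
    rw [this, sfi_top hc hcA, sub_self, zero_div]
  have gap : ∀ x, s ≤ x → x ≤ h0 → F x = ((A - c) ^ 2 / 2 - sfi c (D s κ x)) / σ2 := by
    intro x h1 h2
    have e0 := Fab s x
    rw [Fs, sub_zero] at e0
    have e : ∫ u in s..x, ten κ c s u =
        ∫ u in s..x, sft c (-σ2 * u + σ2 * (h0 + s) / 2) := by
      refine intervalIntegral.integral_congr fun u hu => ?_
      rw [Set.uIcc_of_le h1] at hu
      change sft c (D s κ u) = _
      rw [D_high hu.1 (hu.2.trans h2) hs0.le, hσ2]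
      congr 1
      field_simp
      ring
    rw [← e0, e, integral_sft c (neg_ne_zero.2 p2.ne')]
    have e1 : -σ2 * x + σ2 * (h0 + s) / 2 = D s κ x := by
      rw [D_high h1 h2 hs0.le, hσ2]
      field_simp
      ring
    have e2 : -σ2 * s + σ2 * (h0 + s) / 2 = A := by
      rw [hσ2, hA]
      field_simp
      ring
    rw [e1, e2, sfi_top hc hcA, div_neg, ← neg_div]
    congr 1
    ring
  -- the range
  have range : ∀ x, -((A - c) ^ 2 / 2 / σ1) ≤ F x ∧ F x ≤ (A - c) ^ 2 / 2 / σ2 := by
    intro x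
    obtain ⟨y, hy, e⟩ := Fper.exists_mem_Ico₀ hh x
    rw [e]
    have n := sfi_nonneg c (D s κ y)
    have l := sfi_le hc hcA (DA y)
    rcases le_total y s with h | h
    · rw [cell y hy.1 h]
      constructor
      · rw [← neg_div]
        exact div_le_div_of_nonneg_right (by linarith) p1.le
      · exact (div_nonpos_of_nonpos_of_nonneg (by linarith) p1.le).trans (by positivity)
    · rw [gap y h hy.2.le]
      constructor
      · exact (neg_nonpos.2 (by positivity)).trans (div_nonneg (by linarith) p2.le)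
      · exact div_le_div_of_nonneg_right (by linarith) p2.le
  rw [Fab, abs_le]
  have r1 := range a
  have r2 := range b
  have tot : (A - c) ^ 2 / 2 / σ1 + (A - c) ^ 2 / 2 / σ2 = h0 * (A - c) ^ 2 / (4 * A) := by
    rw [hσ1, hσ2, hA]
    field_simp
    ring
  constructor <;> linarith

/-- **The density with two tents of the height one.** -/
noncomputable def tnt (s th : ℝ) : ℝ → ℝ :=
  ten (2 * h0 / (s * (h0 - s) * th)) (1 / th - 1) s

theorem tnt_denOk {th : ℝ} (h0t : 0 < th) (ht1 : th ≤ 1) (hs0 : 0 < s) (hs1 : s < h0) :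
    DenOk (tnt s th) s := by
  have hh := h0_pos
  have hsh : 0 < h0 - s := by linarith
  refine ten_denOk ?_ (by positivity) hs0.le hs1
  rw [sub_nonneg, le_div_iff₀ h0t]
  linarith

theorem tnt_osc {th : ℝ} (h0t : 0 < th) (ht1 : th ≤ 1) (hs0 : 0 < s) (hs1 : s < h0) (a b : ℝ) :
    |∫ x in a..b, tnt s th x| ≤ th * h0 / 4 := by
  have hh := h0_pos
  have hsh : 0 < h0 - s := by linarith
  have e : 2 * h0 / (s * (h0 - s) * th) * (s * (h0 - s) / (2 * h0)) = 1 / th := by
    field_simp
  have hc : 0 ≤ 1 / th - 1 := by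
    rw [sub_nonneg, le_div_iff₀ h0t]
    linarith
  have := ten_osc (κ := 2 * h0 / (s * (h0 - s) * th)) hc (by positivity) hs0 hs1
    (by rw [e]; linarith) a b
  rw [e] at this
  refine this.trans (le_of_eq ?_)
  field_simp
  ring

end

end Pool.Agent.Strip051.LC
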