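import Pool.Agent.Strip051.LC.Exact.Dir

/-! # The cost of an edge with the third kernel -/

namespace Pool.Agent.Strip051.LC

open Pool.Agent.StripNear Pool.Agent.StripSquare Pool.Agent.Strip051.Sweep

section

variable {T : Tab} {C : ℝ → ℝ → ℝ} {f : ℝ → ℝ} {N0 n : ℕ} {κ s : ℝ}

theorem Tab.data3_QS {X y z : ℝ} : (T.data3 C f N0 κ s).QS n s X y z =
    (T.data N0 κ s).QS n s X y z + mu n s * C3 C f s X (y - s / 2) (z - s / 2) := by
  unfold Data.QS
  rw [Tab.Q3]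
  rfl

theorem Tab.flat3_QS_short {X y z : ℝ} (h : X ^ 2 + (z - y) ^ 2 ≤ 3) :
    (T.flat3 C f N0 κ s).QS n s X y z =
      (T.data N0 κ s).QS n s X y z + mu n s * C3 C f s X (y - s / 2) (z - s / 2) := by
  rw [← Tab.data3_QS]
  unfold Data.QS Tab.flat3
  exact Data.glue_Q_short (by rw [show z - s / 2 - (y - s / 2) = z - y by ring]; exact h)

theorem Tab.flat3_QS_long {X y z : ℝ} (h : ¬ X ^ 2 + (z - y) ^ 2 ≤ 3) :
    (T.flat3 C f N0 κ s).QS n s X y z = 0 := by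
  unfold Data.QS Tab.flat3
  rw [Data.glue_Q_long (by rw [show z - s / 2 - (y - s / 2) = z - y by ring]; exact h)]
  simp [Data.Q, zeroData]

theorem Tab.flat3_short {p q : Pt} (h : ds p q ≤ 3) :
    ed ((T.flat3 C f N0 κ s).QS n s) p q = ed ((T.data N0 κ s).QS n s) p q +
      mu n s * C3 C f s (q.1 - p.1) (p.2 - s / 2) (q.2 - s / 2) :=
  Tab.flat3_QS_short (by rw [← ds_xz]; exact h)

theorem Tab.flat3_long {p q : Pt} (h : 3 < ds p q) :
    ed ((T.flat3 C f N0 κ s).QS n s) p q = 0 :=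
  Tab.flat3_QS_long (by rw [← ds_xz]; exact not_le.2 h)

/-- The edge function on a long edge. -/
theorem Tab.flat3_FS_long {p q : Pt} (h : 3 < ds p q) :
    FS (T.flat3 C f N0 κ s) n s p q = FQ (n * h0 + s) (fun _ _ _ => 0) p q := by
  unfold FS FQ
  rw [Tab.flat3_long h]
  rfl

/-- **The flux of a short edge of the strip** is bounded by a common majorant of the costs; `K` is a
bound of the integrals of the third density. -/
theorem Tab.flat3_major (T : Tab) (C : ℝ → ℝ → ℝ) (f : ℝ → ℝ) (hn : N0 ≤ n) (hκ : 0 ≤ κ)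
    (hs0 : 0 ≤ s) (hs1 : s < h0) {K : ℝ}
    (hK : ∀ y t : ℝ, 0 ≤ t → t ≤ 2 → |∫ x in y..(y + t), f x| ≤ K) {c : ℝ → ℝ → ℝ}
    (hc : ∀ X t : ℝ, 0 ≤ t → 1 ≤ X ^ 2 + t ^ 2 → X ^ 2 + t ^ 2 ≤ 3 →
      T.costF κ s X t ≤ c X t ∧ T.costN N0 κ s X t + mu N0 s * (|C X t| * K) ≤ c X t)
    {p q : Pt} (hp : In (n * h0 + s) p) (hq : In (n * h0 + s) q) (h1 : 1 ≤ ds p q)
    (h3 : ds p q ≤ 3) :
    |ed ((T.flat3 C f N0 κ s).QS n s) p q| ≤ c (q.1 - p.1) |q.2 - p.2| := by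
  have hg1 := g_gt_half hs0 hs1
  have hN0 : (0 : ℝ) ≤ N0 := Nat.cast_nonneg N0
  have hn0 : (0 : ℝ) ≤ n := Nat.cast_nonneg n
  have hnN : (N0 : ℝ) ≤ n := by exact_mod_cast hn
  have hμ : 0 < mu n s := by
    unfold mu
    positivity
  have hm : 0 < mu N0 s := by
    unfold mu
    positivity
  have hμm : mu n s ≤ mu N0 s := by
    unfold mu
    apply one_div_le_one_div_of_le (by positivity)
    linarith
  have hθ0 : 0 ≤ mu n s / mu N0 s := by positivity
  have hθ1 : 0 ≤ 1 - mu n s / mu N0 s := by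
    rw [sub_nonneg, div_le_one hm]
    exact hμm
  rw [Tab.flat3_short h3]
  have h3' := h3
  rw [ds_xz, ← sq_abs (q.2 - p.2)] at h1 h3
  have hz : |q.2 - p.2| ≤ 2 := by nlinarith [abs_nonneg (q.2 - p.2), sq_nonneg (q.1 - p.1)]
  obtain ⟨a1, a2⟩ := hc (q.1 - p.1) |q.2 - p.2| (abs_nonneg _) h1 h3
  have b1 := T.QS_cost hn hκ hs0 hs1 (q.1 - p.1) hp.1 hq.1 hp.2 hq.2 hz
  have b2 : |C3 C f s (q.1 - p.1) (p.2 - s / 2) (q.2 - s / 2)| ≤
      |C (q.1 - p.1) (|q.2 - p.2|)| * K := by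
    unfold C3
    rw [show q.2 - s / 2 - (p.2 - s / 2) = q.2 - p.2 by ring, abs_mul]
    refine mul_le_mul_of_nonneg_left ?_ (abs_nonneg _)
    have e1 : min (p.2 - s / 2) (q.2 - s / 2) + s / 2 = min p.2 q.2 := by
      rw [← min_add_add_right]
      ring_nf
    have e2 : max (p.2 - s / 2) (q.2 - s / 2) + s / 2 = min p.2 q.2 + |q.2 - p.2| := by
      rw [← max_add_add_right, sub_add_cancel, sub_add_cancel]
      rcases le_total p.2 q.2 with e | e
      · rw [max_eq_right e, min_eq_left e, abs_of_nonneg (by linarith)]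
        ring
      · rw [max_eq_left e, min_eq_right e, abs_of_nonpos (by linarith)]
        ring
    rw [e1, e2]
    exact hK _ _ (abs_nonneg _) hz
  have b3 : |mu n s * C3 C f s (q.1 - p.1) (p.2 - s / 2) (q.2 - s / 2)| ≤
      mu n s / mu N0 s * (mu N0 s * (|C (q.1 - p.1) (|q.2 - p.2|)| * K)) := by
    rw [abs_mul, abs_of_pos hμ]
    have : mu n s / mu N0 s * (mu N0 s * (|C (q.1 - p.1) (|q.2 - p.2|)| * K)) =
        mu n s * (|C (q.1 - p.1) (|q.2 - p.2|)| * K) := by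
      field_simp
    rw [this]
    exact mul_le_mul_of_nonneg_left b2 hμ.le
  have c1 := mul_le_mul_of_nonneg_left a1 hθ1
  have c2 := mul_le_mul_of_nonneg_left a2 hθ0
  refine (abs_add_le _ _).trans ?_
  have e : ed ((T.data N0 κ s).QS n s) p q = (T.data N0 κ s).QS n s (q.1 - p.1) p.2 q.2 := rfl
  rw [e]
  nlinarith

end

end Pool.Agent.Strip051.LC
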