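import Pool.Agent.Strip051.LC.Exact.ExtLong

/-! # Geometry of the cells with long sides, in coordinates

`tall_cr`: a cell with one long side whose vertex has a distance larger than `√3` from the outer
unit apex of the long side has a large area.  `QuadV`: the four short sides of a quadrilateral with
two long diagonals are `A + d`, `B - d`, `d - A`, `-B - d`.  `TwoV`: a cell with two long sides `P`,
`R` and the unit vectors `u`, `v` to the inner apexes of these sides. -/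

namespace Pool.Agent.Strip051.LC

open Pool.Agent.StripNear Pool.Agent.StripSquare Pool.Agent.Strip051.Sweep

/-! ### Coordinates of the apexes -/

theorem ap_sub (p q : Pt) :
    (ap p q).1 - p.1 = (q.1 - p.1) / 2 + rr (q.1 - p.1) (q.2 - p.2) * (q.2 - p.2) ∧
      (ap p q).2 - p.2 = (q.2 - p.2) / 2 - rr (q.1 - p.1) (q.2 - p.2) * (q.1 - p.1) := by
  unfold ap
  constructor
  · simp only
    ring
  · simp only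
    ring

theorem ap_sub' (p q : Pt) :
    (ap q p).1 - p.1 = (q.1 - p.1) / 2 - rr (q.1 - p.1) (q.2 - p.2) * (q.2 - p.2) ∧
      (ap q p).2 - p.2 = (q.2 - p.2) / 2 + rr (q.1 - p.1) (q.2 - p.2) * (q.1 - p.1) := by
  have e : rr (p.1 - q.1) (p.2 - q.2) = rr (q.1 - p.1) (q.2 - p.2) := by
    rw [show p.1 - q.1 = -(q.1 - p.1) by ring, show p.2 - q.2 = -(q.2 - p.2) by ring, rr_neg,
      rr_neg']
  unfold ap
  constructor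
  · simp only
    rw [e]
    ring
  · simp only
    rw [e]
    ring

/-! ### Cells with one long side -/

theorem tall_aux {X T x y ρ : ℝ} (hl3 : 3 < X ^ 2 + T ^ 2) (hρ0 : 0 ≤ ρ)
    (hρ : ρ ^ 2 * (X ^ 2 + T ^ 2) = 1 - (X ^ 2 + T ^ 2) / 4) (hc0 : 0 ≤ X * y - T * x)
    (ha : x ^ 2 + y ^ 2 ≤ 3) (ha' : (x - X) ^ 2 + (y - T) ^ 2 ≤ 3)
    (hb : 3 < (x - (X / 2 + ρ * T)) ^ 2 + (y - (T / 2 - ρ * X)) ^ 2) :
    41 / 20 < X * y - T * x := by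
  obtain ⟨l, hl⟩ : ∃ l, l = X ^ 2 + T ^ 2 := ⟨_, rfl⟩
  obtain ⟨c, hc⟩ : ∃ c, c = X * y - T * x := ⟨_, rfl⟩
  obtain ⟨a, haa⟩ : ∃ a, a = x ^ 2 + y ^ 2 := ⟨_, rfl⟩
  obtain ⟨a', haa'⟩ : ∃ a', a' = (x - X) ^ 2 + (y - T) ^ 2 := ⟨_, rfl⟩
  have e1 : (x - (X / 2 + ρ * T)) ^ 2 + (y - (T / 2 - ρ * X)) ^ 2 =
      (a + a' - l) / 2 + 1 + 2 * ρ * c := by
    have : (x - (X / 2 + ρ * T)) ^ 2 + (y - (T / 2 - ρ * X)) ^ 2 =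
        (a + a' - l) / 2 + (l / 4 + ρ ^ 2 * l) + 2 * ρ * c := by
      rw [hl, hc, haa, haa']
      ring
    rw [this, hl, hρ]
    ring
  have e2 : c ^ 2 = l * ((a + a') / 2) - ((a - a') / 2) ^ 2 - l ^ 2 / 4 := by
    rw [hl, hc, haa, haa']
    ring
  rw [← hl] at hl3 hρ
  rw [← hc] at hc0 ⊢
  rw [← haa] at ha
  rw [← haa'] at ha'
  rw [e1] at hb
  clear e1 hl hc haa haa'
  obtain ⟨t, ht⟩ : ∃ t, t = 3 - (a + a') / 2 := ⟨_, rfl⟩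
  obtain ⟨τ, hτ⟩ : ∃ τ, τ = 1 - l / 2 + 2 * ρ * c := ⟨_, rfl⟩
  have t0 : |(a - a') / 2| ≤ t := by
    rw [abs_le]
    constructor <;> linarith
  have t1 : 0 ≤ t := (abs_nonneg _).trans t0
  have t2 : t < τ := by
    rw [ht, hτ]
    linarith
  have t3 : ((a - a') / 2) ^ 2 ≤ t ^ 2 := by
    rw [← sq_abs]
    exact pow_le_pow_left₀ (abs_nonneg _) t0 2
  have e3 : l * (3 - τ) - τ ^ 2 - l ^ 2 / 4 < c ^ 2 := by
    have : (a + a') / 2 = 3 - t := by rw [ht]; ring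
    rw [e2, this]
    nlinarith
  have e4 : l * (l * (3 - τ) - τ ^ 2 - l ^ 2 / 4) =
      l * (3 * l - 1) - 4 * l * ρ * c - 4 * (ρ ^ 2 * l) * c ^ 2 := by
    rw [hτ]
    ring
  have e5 : l * (3 * l - 1) / 4 < c ^ 2 + l * ρ * c := by
    have h1 := mul_lt_mul_of_pos_left e3 (by linarith : 0 < l)
    rw [e4, hρ] at h1
    nlinarith
  have e6 : l * ρ ≤ 8661 / 10000 := by
    have h1 : (l * ρ) ^ 2 = l * (1 - l / 4) := by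
      rw [← hρ]
      ring
    have h2 : (l * ρ) ^ 2 ≤ (8661 / 10000) ^ 2 := by
      rw [h1]
      nlinarith
    exact le_of_sq_le_sq h2 (by norm_num)
  by_contra hcon
  push Not at hcon
  have h1 : l * ρ * c ≤ 8661 / 10000 * (41 / 20) := by
    have h0 : 0 ≤ l * ρ := by positivity
    exact mul_le_mul e6 hcon hc0 (by norm_num)
  have h2 : c ^ 2 ≤ (41 / 20) ^ 2 := pow_le_pow_left₀ hc0 hcon 2
  nlinarith

/-- A cell with one long side which is not covered by the flip has a large area. -/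
theorem tall_cr {p q r : Pt} (hc : Cel p q r) (h3 : 3 < ds p q) (h1 : ds q r ≤ 3)
    (h2 : ds p r ≤ 3) (hb : 3 < ds (ap p q) r) : 41 / 20 < cr p q r := by
  have hds : ds p q = (q.1 - p.1) ^ 2 + (q.2 - p.2) ^ 2 := rfl
  have h4 := hc.le_four
  rw [hds] at h3 h4
  have hρ := rr_sq (X := q.1 - p.1) (T := q.2 - p.2) (by linarith) h4
  obtain ⟨b1, b2⟩ := ap_sub p q
  refine tall_aux (X := q.1 - p.1) (T := q.2 - p.2) (x := r.1 - p.1) (y := r.2 - p.2) h3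
    (rr_nonneg _ _) hρ hc.cr0 h2 ?_ ?_
  · have : (r.1 - p.1 - (q.1 - p.1)) ^ 2 + (r.2 - p.2 - (q.2 - p.2)) ^ 2 = ds q r := by
      unfold ds
      ring
    rw [this]
    exact h1
  · rw [← b1, ← b2]
    have : (r.1 - p.1 - ((ap p q).1 - p.1)) ^ 2 + (r.2 - p.2 - ((ap p q).2 - p.2)) ^ 2 =
        ds (ap p q) r := by
      unfold ds
      ring
    rw [this]
    exact hb

/-! ### Quadrilaterals with two long diagonals -/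

/-- The sides are `A + d`, `B - d`, `d - A`, `-B - d` and the diagonals `A + B`, `B - A`. -/
structure QuadV (A1 A2 B1 B2 d1 d2 : ℝ) : Prop where
  a1 : 1 ≤ (A1 + d1) ^ 2 + (A2 + d2) ^ 2
  a2 : 1 ≤ (A1 - d1) ^ 2 + (A2 - d2) ^ 2
  b1 : 1 ≤ (B1 + d1) ^ 2 + (B2 + d2) ^ 2
  b2 : 1 ≤ (B1 - d1) ^ 2 + (B2 - d2) ^ 2
  a1' : (A1 + d1) ^ 2 + (A2 + d2) ^ 2 ≤ 3
  a2' : (A1 - d1) ^ 2 + (A2 - d2) ^ 2 ≤ 3
  b1' : (B1 + d1) ^ 2 + (B2 + d2) ^ 2 ≤ 3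
  b2' : (B1 - d1) ^ 2 + (B2 - d2) ^ 2 ≤ 3
  l3 : 3 ≤ (A1 + B1) ^ 2 + (A2 + B2) ^ 2
  l4 : (A1 + B1) ^ 2 + (A2 + B2) ^ 2 ≤ 4
  m3 : 3 ≤ (A1 - B1) ^ 2 + (A2 - B2) ^ 2
  m9 : (A1 - B1) ^ 2 + (A2 - B2) ^ 2 ≤ 9
  c1 : √3 / 2 ≤ (A1 + B1) * (B2 + d2) - (A2 + B2) * (B1 + d1)
  c2 : √3 / 2 ≤ (A1 + B1) * (B2 - d2) - (A2 + B2) * (B1 - d1)

theorem QuadV.dotAB_le {A1 A2 B1 B2 d1 d2 : ℝ} (h : QuadV A1 A2 B1 B2 d1 d2) :
    A1 * B1 + A2 * B2 ≤ 1 / 4 := by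
  nlinarith [h.l4, h.m3]

theorem QuadV.le_dotAB {A1 A2 B1 B2 d1 d2 : ℝ} (h : QuadV A1 A2 B1 B2 d1 d2) :
    -(3 / 2) ≤ A1 * B1 + A2 * B2 := by
  nlinarith [h.l3, h.m9]

/-- If the second diagonal is at most `2`. -/
theorem QuadV.le_dotAB' {A1 A2 B1 B2 d1 d2 : ℝ} (h : QuadV A1 A2 B1 B2 d1 d2)
    (h4 : (A1 - B1) ^ 2 + (A2 - B2) ^ 2 ≤ 4) : -(1 / 4) ≤ A1 * B1 + A2 * B2 := by
  nlinarith [h.l3]

theorem QuadV.dotAd {A1 A2 B1 B2 d1 d2 : ℝ} (h : QuadV A1 A2 B1 B2 d1 d2) :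
    |A1 * d1 + A2 * d2| ≤ 1 / 2 := by
  rw [abs_le]
  constructor <;> nlinarith [h.a1, h.a2, h.a1', h.a2']

theorem QuadV.dotBd {A1 A2 B1 B2 d1 d2 : ℝ} (h : QuadV A1 A2 B1 B2 d1 d2) :
    |B1 * d1 + B2 * d2| ≤ 1 / 2 := by
  rw [abs_le]
  constructor <;> nlinarith [h.b1, h.b2, h.b1', h.b2']

theorem QuadV.le_sum {A1 A2 B1 B2 d1 d2 : ℝ} (h : QuadV A1 A2 B1 B2 d1 d2) :
    3 ≤ A1 ^ 2 + A2 ^ 2 + (B1 ^ 2 + B2 ^ 2) := by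
  nlinarith [h.l3, h.m3]

theorem QuadV.sum_le {A1 A2 B1 B2 d1 d2 : ℝ} (h : QuadV A1 A2 B1 B2 d1 d2) :
    A1 ^ 2 + A2 ^ 2 + (B1 ^ 2 + B2 ^ 2) + 2 * (d1 ^ 2 + d2 ^ 2) ≤ 6 := by
  nlinarith [h.a1', h.a2', h.b1', h.b2']

theorem QuadV.sum_le' {A1 A2 B1 B2 d1 d2 : ℝ} (h : QuadV A1 A2 B1 B2 d1 d2)
    (h4 : (A1 - B1) ^ 2 + (A2 - B2) ^ 2 ≤ 4) : A1 ^ 2 + A2 ^ 2 + (B1 ^ 2 + B2 ^ 2) ≤ 4 := by
  nlinarith [h.l4]

theorem QuadV.A_le {A1 A2 B1 B2 d1 d2 : ℝ} (h : QuadV A1 A2 B1 B2 d1 d2) :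
    A1 ^ 2 + A2 ^ 2 + (d1 ^ 2 + d2 ^ 2) ≤ 3 := by
  nlinarith [h.a1', h.a2']

theorem QuadV.B_le {A1 A2 B1 B2 d1 d2 : ℝ} (h : QuadV A1 A2 B1 B2 d1 d2) :
    B1 ^ 2 + B2 ^ 2 + (d1 ^ 2 + d2 ^ 2) ≤ 3 := by
  nlinarith [h.b1', h.b2']

/-- The four edges of the quadrilateral `p r' q r`. -/
theorem quadV_of {p q r r' : Pt} (h : Cel p q r) (h' : Cel q p r') (h3 : 3 < ds p q)
    (k1 : ds q r ≤ 3) (k2 : ds p r ≤ 3) (k3 : ds q r' ≤ 3) (k4 : ds p r' ≤ 3)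
    (k5 : 3 < ds r r') : ∃ A1 A2 B1 B2 d1 d2 : ℝ, QuadV A1 A2 B1 B2 d1 d2 ∧
      r'.1 - p.1 = A1 + d1 ∧ r'.2 - p.2 = A2 + d2 ∧ q.1 - r'.1 = B1 - d1 ∧
      q.2 - r'.2 = B2 - d2 ∧ r.1 - q.1 = d1 - A1 ∧ r.2 - q.2 = d2 - A2 ∧
      p.1 - r.1 = -B1 - d1 ∧ p.2 - r.2 = -B2 - d2 ∧
      cr p q r + cr q p r' = 2 * (A1 * B2 - A2 * B1) ∧
      cr p r' q + cr p q r = 2 * (A1 * B2 - A2 * B1) := by
  have hw : √3 ^ 2 = 3 := Real.sq_sqrt (by norm_num)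
  have hw0 : 0 ≤ √3 := Real.sqrt_nonneg 3
  have big : ∀ c : ℝ, 0 ≤ c → 3 ≤ 4 * c ^ 2 → √3 / 2 ≤ c := by
    intro c hc0 hc
    refine le_of_sq_le_sq ?_ hc0
    rw [div_pow, hw]
    linarith
  refine ⟨(r'.1 - p.1 - (r.1 - q.1)) / 2, (r'.2 - p.2 - (r.2 - q.2)) / 2,
    (q.1 - r'.1 - (p.1 - r.1)) / 2, (q.2 - r'.2 - (p.2 - r.2)) / 2,
    (r'.1 - p.1 + (r.1 - q.1)) / 2, (r'.2 - p.2 + (r.2 - q.2)) / 2, ?_, by ring, by ring, by ring,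
    by ring, by ring, by ring, by ring, by ring, ?_, ?_⟩
  · have f1 := h.four_cr
    have f2 := h'.four_cr
    have h4 := h.le_four
    have g1 := big _ h.cr0 (by linarith)
    have g2 := big _ h'.cr0 (by rw [ds_comm q p] at f2; linarith)
    have q1 := h.qr
    have q2 := h.pr
    have q3 := h'.qr
    have q4 := h'.pr
    have hm : ds r r' ≤ 9 := by
      -- `|r r'|² ≤ 2 (|p r|² + |p r'|²) - |r + r' - 2 p|²`, and the parallelogram with `q`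
      have e : ds r r' + ds p q + ((r.1 + r'.1 - p.1 - q.1) ^ 2 +
          (r.2 + r'.2 - p.2 - q.2) ^ 2) = ds p r + ds q r + ds p r' + ds q r' := by
        unfold ds
        ring
      nlinarith [sq_nonneg (r.1 + r'.1 - p.1 - q.1), sq_nonneg (r.2 + r'.2 - p.2 - q.2)]
    unfold cr at g1 g2
    unfold ds at h3 k1 k2 k3 k4 k5 h4 q1 q2 q3 q4 hm
    constructor <;> ring_nf at * <;> linarith
  · unfold cr
    ring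
  · unfold cr
    ring

/-! ### Cells with two long sides -/

/-- The long sides `P`, `R` and the inner apexes `u`, `v` (all relative to the common vertex). -/
structure TwoV (P1 P2 R1 R2 u1 u2 v1 v2 : ℝ) : Prop where
  p3 : 3 < P1 ^ 2 + P2 ^ 2
  p4 : P1 ^ 2 + P2 ^ 2 ≤ 4
  r3 : 3 < R1 ^ 2 + R2 ^ 2
  r4 : R1 ^ 2 + R2 ^ 2 ≤ 4
  s1 : 1 ≤ (R1 - P1) ^ 2 + (R2 - P2) ^ 2
  s3 : (R1 - P1) ^ 2 + (R2 - P2) ^ 2 ≤ 3
  cross : 3 / 2 ≤ P1 * R2 - P2 * R1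
  dot_ge : 3 / 2 ≤ P1 * R1 + P2 * R2
  dot_le : P1 * R1 + P2 * R2 ≤ 7 / 2
  ang30 : (P1 * R1 + P2 * R2) ^ 2 ≤ 3 * (P1 * R2 - P2 * R1) ^ 2
  ang60 : (P1 * R2 - P2 * R1) ^ 2 ≤ 3 * (P1 * R1 + P2 * R2) ^ 2
  u : u1 ^ 2 + u2 ^ 2 = 1
  u' : (P1 - u1) ^ 2 + (P2 - u2) ^ 2 = 1
  v : v1 ^ 2 + v2 ^ 2 = 1
  v' : (R1 - v1) ^ 2 + (R2 - v2) ^ 2 = 1
  Pu : 0 ≤ P1 * u2 - P2 * u1
  vR : 0 ≤ v1 * R2 - v2 * R1
  uR : 0 ≤ u1 * R2 - u2 * R1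
  Pv : 0 ≤ P1 * v2 - P2 * v1

theorem two_apex {X T ρ : ℝ} (hl3 : 3 < X ^ 2 + T ^ 2)
    (hρ : ρ ^ 2 * (X ^ 2 + T ^ 2) = 1 - (X ^ 2 + T ^ 2) / 4) {c s : ℝ} (hc0 : 0 ≤ c)
    (h : s ^ 2 ≤ 3 * c ^ 2) : 0 ≤ c / 2 - ρ * s := by
  have h1 : ρ ^ 2 ≤ 1 / 12 := by
    have h2 : ρ ^ 2 * 3 ≤ ρ ^ 2 * (X ^ 2 + T ^ 2) :=
      mul_le_mul_of_nonneg_left hl3.le (sq_nonneg ρ)
    linarith
  have h2 : (ρ * s) ^ 2 ≤ (c / 2) ^ 2 := by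
    rw [mul_pow, div_pow]
    nlinarith [sq_nonneg s]
  have := le_of_sq_le_sq h2 (by positivity)
  linarith

/-- A cell with two long sides. -/
theorem Cel.twoV {p q r : Pt} (h : Cel p q r) (h1 : 3 < ds p q) (h2 : ds q r ≤ 3)
    (h3 : 3 < ds p r) : TwoV (q.1 - p.1) (q.2 - p.2) (r.1 - p.1) (r.2 - p.2)
      ((ap q p).1 - p.1) ((ap q p).2 - p.2) ((ap p r).1 - p.1) ((ap p r).2 - p.2) := by
  have hp4 : ds p q ≤ 4 := h.le_four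
  have hr4 : ds p r ≤ 4 := by
    have := h.rot.rot.le_four
    rwa [ds_comm] at this
  have hs1 := h.qr
  have hrad := h.rad
  have hc0 := h.cr0
  obtain ⟨X, hX⟩ : ∃ X, X = q.1 - p.1 := ⟨_, rfl⟩
  obtain ⟨T, hT⟩ : ∃ T, T = q.2 - p.2 := ⟨_, rfl⟩
  obtain ⟨x, hx⟩ : ∃ x, x = r.1 - p.1 := ⟨_, rfl⟩
  obtain ⟨y, hy⟩ : ∃ y, y = r.2 - p.2 := ⟨_, rfl⟩
  obtain ⟨a1, a2⟩ := ap_sub' p q
  obtain ⟨b1, b2⟩ := ap_sub p r
  have d1 : ds p q = X ^ 2 + T ^ 2 := by rw [hX, hT]; rfl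
  have d2 : ds p r = x ^ 2 + y ^ 2 := by rw [hx, hy]; rfl
  have d3 : ds q r = (x - X) ^ 2 + (y - T) ^ 2 := by
    rw [hX, hT, hx, hy]
    unfold ds
    ring
  have d4 : cr p q r = X * y - T * x := by rw [hX, hT, hx, hy]; rfl
  rw [← hX, ← hT] at a1 a2
  rw [← hx, ← hy] at b1 b2
  rw [a1, a2, b1, b2, ← hX, ← hT, ← hx, ← hy]
  rw [d1] at h1 hp4
  rw [d2] at h3 hr4
  rw [d3] at h2 hs1
  rw [d1, d2, d3, d4] at hrad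
  rw [d4] at hc0
  have hρ0 := rr_nonneg X T
  have hρ := rr_sq (X := X) (T := T) (by linarith) hp4
  have hσ0 := rr_nonneg x y
  have hσ := rr_sq (X := x) (T := y) (by linarith) hr4
  obtain ⟨ρ, hρd⟩ : ∃ ρ, ρ = rr X T := ⟨_, rfl⟩
  obtain ⟨σ, hσd⟩ : ∃ σ, σ = rr x y := ⟨_, rfl⟩
  rw [← hρd] at hρ0 hρ ⊢
  rw [← hσd] at hσ0 hσ ⊢
  -- the scalar product
  have hdot : X * x + T * y = ((X ^ 2 + T ^ 2) + (x ^ 2 + y ^ 2) - ((x - X) ^ 2 + (y - T) ^ 2)) / 2 := by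
    ring
  have hlag : (X ^ 2 + T ^ 2) * (x ^ 2 + y ^ 2) = (X * x + T * y) ^ 2 + (X * y - T * x) ^ 2 := by
    ring
  have hge : 3 / 2 ≤ X * x + T * y := by rw [hdot]; linarith
  have hle : X * x + T * y ≤ 7 / 2 := by rw [hdot]; linarith
  have hprod : 9 ≤ (X ^ 2 + T ^ 2) * (x ^ 2 + y ^ 2) := by nlinarith
  have h30' : (X ^ 2 + T ^ 2) * (x ^ 2 + y ^ 2) ≤ 4 * (X * y - T * x) ^ 2 := by
    have e : (X ^ 2 + T ^ 2) * ((x - X) ^ 2 + (y - T) ^ 2) * (x ^ 2 + y ^ 2) =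
        (X ^ 2 + T ^ 2) * (x ^ 2 + y ^ 2) * ((x - X) ^ 2 + (y - T) ^ 2) := by ring
    rw [e] at hrad
    have h0 : 0 ≤ (X ^ 2 + T ^ 2) * (x ^ 2 + y ^ 2) := by positivity
    calc _ = (X ^ 2 + T ^ 2) * (x ^ 2 + y ^ 2) * 1 := by ring
      _ ≤ (X ^ 2 + T ^ 2) * (x ^ 2 + y ^ 2) * ((x - X) ^ 2 + (y - T) ^ 2) :=
        mul_le_mul_of_nonneg_left hs1 h0
      _ ≤ _ := hrad
  have h30 : (X * x + T * y) ^ 2 ≤ 3 * (X * y - T * x) ^ 2 := by linarith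
  have hcr : 3 / 2 ≤ X * y - T * x := by
    refine le_of_sq_le_sq ?_ hc0
    linarith
  have h60 : (X * y - T * x) ^ 2 ≤ 3 * (X * x + T * y) ^ 2 := by
    have e1 : (X ^ 2 + T ^ 2) / 2 ≤ X * x + T * y := by rw [hdot]; linarith
    have e2 : (x ^ 2 + y ^ 2) / 2 ≤ X * x + T * y := by rw [hdot]; linarith
    have e3 : (X ^ 2 + T ^ 2) / 2 * ((x ^ 2 + y ^ 2) / 2) ≤ (X * x + T * y) * (X * x + T * y) :=
      mul_le_mul e1 e2 (by positivity) (by linarith)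
    nlinarith
  refine ⟨h1, hp4, h3, hr4, hs1, h2, hcr, hge, hle, h30, h60, ?_, ?_, ?_, ?_, ?_, ?_, ?_, ?_⟩
  · linear_combination hρ
  · linear_combination hρ
  · linear_combination hσ
  · linear_combination hσ
  · have e : X * (T / 2 + ρ * X) - T * (X / 2 - ρ * T) = ρ * (X ^ 2 + T ^ 2) := by ring
    rw [e]
    positivity
  · have e : (x / 2 + σ * y) * y - (y / 2 - σ * x) * x = σ * (x ^ 2 + y ^ 2) := by ring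
    rw [e]
    positivity
  · have e : (X / 2 - ρ * T) * y - (T / 2 + ρ * X) * x =
        (X * y - T * x) / 2 - ρ * (X * x + T * y) := by ring
    rw [e]
    exact two_apex h1 hρ hc0 h30
  · have e : X * (y / 2 - σ * x) - T * (x / 2 + σ * y) =
        (X * y - T * x) / 2 - σ * (X * x + T * y) := by ring
    rw [e]
    exact two_apex h3 hσ hc0 h30

end Pool.Agent.Strip051.LC
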