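import Pool.Agent.Strip051.LC.Exact.FamX

/-! # Node curves at arbitrary positions

`gam ρ T`, `0 ≤ ρ ≤ 2`, is the curve which divides the interval from `c1 T` to `W T` in the ratio
`ρ` for `ρ ≤ 1` and the interval from `W T` to `c3 T` in the ratio `ρ - 1` for `1 ≤ ρ`. -/

namespace Pool.Agent.Strip051.LC

open Pool.Agent.StripNear Pool.Agent.StripSquare Pool.Agent.Strip051.Sweep

/-- The curve at the position `ρ`. -/
noncomputable def gam (ρ T : ℝ) : ℝ :=
  if ρ ≤ 1 then c1 T + ρ * (Wc T - c1 T) else Wc T + (ρ - 1) * (c3 T - Wc T)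

theorem gam_zero (T : ℝ) : gam 0 T = c1 T := by
  unfold gam
  rw [if_pos zero_le_one]
  ring

theorem gam_one (T : ℝ) : gam 1 T = Wc T := by
  unfold gam
  rw [if_pos le_rfl]
  ring

theorem gam_two (T : ℝ) : gam 2 T = c3 T := by
  unfold gam
  rw [if_neg (by norm_num)]
  ring

theorem gam_half (T : ℝ) : gam (1 / 2) T = f1 T := by
  unfold gam f1
  rw [if_pos (by norm_num)]
  ring

theorem gam_three_half (T : ℝ) : gam (3 / 2) T = f2 T := by
  unfold gam f2
  rw [if_neg (by norm_num)]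
  ring

theorem gam_low {ρ T : ℝ} (h : ρ ≤ 1) : gam ρ T = c1 T + ρ * (Wc T - c1 T) := if_pos h

theorem gam_high {ρ T : ℝ} (h : 1 ≤ ρ) : gam ρ T = Wc T + (ρ - 1) * (c3 T - Wc T) := by
  rcases h.eq_or_lt with h | h
  · rw [← h, gam_one]
    ring
  · exact if_neg h.not_ge

theorem gam_mono {ρ ρ' T : ℝ} (hT : 0 ≤ T) (h3 : T ^ 2 ≤ 3) (h : ρ ≤ ρ') :
    gam ρ T ≤ gam ρ' T := by
  obtain ⟨-, h1, h2, h4, h5⟩ := order5 hT h3
  have k1 : 0 ≤ Wc T - c1 T := by linarith
  have k2 : 0 ≤ c3 T - Wc T := by linarith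
  rcases le_total ρ' 1 with g1 | g1
  · rw [gam_low (h.trans g1), gam_low g1]
    nlinarith
  · rcases le_total ρ 1 with g2 | g2
    · rw [gam_low g2, gam_high g1]
      nlinarith
    · rw [gam_high g2, gam_high g1]
      nlinarith

theorem gam_lt {ρ ρ' T : ℝ} (h1 : c1 T < Wc T) (h2 : Wc T < c3 T) (h : ρ < ρ') :
    gam ρ T < gam ρ' T := by
  rcases le_total ρ' 1 with g1 | g1
  · rw [gam_low (h.le.trans g1), gam_low g1]
    nlinarith
  · rcases le_total ρ 1 with g2 | g2
    · rw [gam_low g2, gam_high g1]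
      rcases g2.eq_or_lt with g3 | g3
      · nlinarith
      · nlinarith [mul_pos (by linarith : 0 < 1 - ρ) (by linarith : 0 < Wc T - c1 T),
          mul_nonneg (by linarith : 0 ≤ ρ' - 1) (by linarith : 0 ≤ c3 T - Wc T)]
    · rw [gam_high g2, gam_high g1]
      nlinarith

/-- Positions of the node curves. -/
structure Pos (n : ℕ) where
  /-- the positions -/
  ρ : Fin (n + 1) → ℝ
  zero : ρ 0 = 0
  last : ρ (Fin.last n) = 2
  mono : StrictMono ρ

namespace Pos

variable {n : ℕ} (P : Pos n)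

/-- The curve is a node at the height `T`. -/
def dm (j : Fin (n + 1)) (T : ℝ) : Prop :=
  (j = 0 → T < 1) ∧ (j ≠ 0 → P.ρ j ≤ 1 → 0 < T ∧ T ≠ h0) ∧ (j ≠ Fin.last n → T ^ 2 < 3) ∧
    T ^ 2 ≤ 3

theorem pos_of_ne {j : Fin (n + 1)} (h : j ≠ 0) : 0 < P.ρ j := by
  rw [← P.zero]
  exact P.mono (Fin.pos_iff_ne_zero.2 h)

theorem lt_two {j : Fin (n + 1)} (h : j ≠ Fin.last n) : P.ρ j < 2 := by
  rw [← P.last]
  exact P.mono (lt_of_le_of_ne (Fin.le_last j) h)

theorem nonneg (j : Fin (n + 1)) : 0 ≤ P.ρ j := by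
  rw [← P.zero]
  exact P.mono.monotone (Fin.zero_le j)

theorem le_two (j : Fin (n + 1)) : P.ρ j ≤ 2 := by
  rw [← P.last]
  exact P.mono.monotone (Fin.le_last j)

include P in
theorem last_ne : Fin.last n ≠ 0 := by
  intro h
  have h1 := P.last
  rw [h, P.zero] at h1
  norm_num at h1

/-- The curves. -/
noncomputable def cv (j : Fin (n + 1)) (T : ℝ) : ℝ := gam (P.ρ j) T

theorem cv_mono {T : ℝ} (hT : 0 ≤ T) (h3 : T ^ 2 ≤ 3) {i j : Fin (n + 1)} (h : i ≤ j) :
    P.cv i T ≤ P.cv j T := gam_mono hT h3 (P.mono.monotone h)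

theorem cv_zero (T : ℝ) : P.cv 0 T = c1 T := by
  unfold cv
  rw [P.zero, gam_zero]

theorem cv_last (T : ℝ) : P.cv (Fin.last n) T = c3 T := by
  unfold cv
  rw [P.last, gam_two]

theorem low (j : Fin (n + 1)) {T : ℝ} (hT : 0 ≤ T) (h3 : T ^ 2 ≤ 3) : c1 T ≤ P.cv j T := by
  rw [← P.cv_zero]
  exact P.cv_mono hT h3 (Fin.zero_le j)

theorem high (j : Fin (n + 1)) {T : ℝ} (hT : 0 ≤ T) (h3 : T ^ 2 ≤ 3) : P.cv j T ≤ c3 T := by
  rw [← P.cv_last]
  exact P.cv_mono hT h3 (Fin.le_last j)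

/-- Two nodes are different. -/
theorem cv_lt {T : ℝ} (hT : 0 ≤ T) {i j : Fin (n + 1)} (hi : P.dm i T) (hj : P.dm j T)
    (h : i < j) : P.cv i T < P.cv j T := by
  have hil : i ≠ Fin.last n := (lt_of_lt_of_le h (Fin.le_last j)).ne
  have h3 : T ^ 2 < 3 := hi.2.2.1 hil
  have hρ := P.mono h
  have hj0 : j ≠ 0 := (lt_of_le_of_lt (Fin.zero_le i) h).ne'
  by_cases hs : T = 0 ∨ T = h0
  · obtain ⟨s1, s2, s3⟩ := special hs
    have ns : ¬(0 < T ∧ T ≠ h0) := by
      rintro ⟨k1, k2⟩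
      rcases hs with k | k
      · linarith
      · exact k2 k
    have hj1 : 1 < P.ρ j := by
      by_contra hh
      exact ns (hj.2.1 hj0 (not_lt.1 hh))
    unfold cv
    rw [gam_high hj1.le]
    by_cases hi0 : i = 0
    · rw [hi0, P.zero, gam_zero, s2]
      nlinarith
    · have hi1 : 1 < P.ρ i := by
        by_contra hh
        exact ns (hi.2.1 hi0 (not_lt.1 hh))
      rw [gam_high hi1.le]
      nlinarith
  · push Not at hs
    obtain ⟨-, s2, s3⟩ := W_between (lt_of_le_of_ne hT (Ne.symm hs.1)) hs.2 h3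
    exact gam_lt s2 s3 hρ

open Classical in
/-- The lists of nodes. -/
noncomputable def nodes (T : ℝ) : List (ℝ × Fin (n + 1)) :=
  ((List.finRange (n + 1)).filter (fun j => P.dm j T)).map (fun j => (P.cv j T, j))

theorem mem_nodes {T : ℝ} {p : ℝ × Fin (n + 1)} :
    p ∈ P.nodes T ↔ P.dm p.2 T ∧ p.1 = P.cv p.2 T := by
  unfold nodes
  simp only [List.mem_map, List.mem_filter, List.mem_finRange, true_and, decide_eq_true_eq]
  constructor
  · rintro ⟨j, h1, h2⟩
    subst h2
    exact ⟨h1, rfl⟩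
  · rintro ⟨h1, h2⟩
    exact ⟨p.2, h1, by rw [← h2]⟩

theorem dm_last {T : ℝ} (h3 : T ^ 2 ≤ 3) (h : P.ρ (Fin.last n) ≤ 1 → False) :
    P.dm (Fin.last n) T :=
  ⟨fun h1 => absurd h1 P.last_ne, fun _ h2 => absurd h2 h, fun h1 => absurd rfl h1, h3⟩

theorem dm_zero {T : ℝ} (hT : 0 ≤ T) (h : T < 1) : P.dm 0 T := by
  refine ⟨fun _ => h, fun h1 => absurd rfl h1, fun _ => ?_, ?_⟩ <;> nlinarith

theorem isNodes : IsNodes P.nodes := by
  refine ⟨?_, ?_, ?_, ?_, ?_, ?_⟩
  · intro T hT h3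
    apply List.Pairwise.isChain
    unfold nodes
    rw [List.pairwise_map]
    refine List.Pairwise.imp_of_mem ?_ ((List.pairwise_lt_finRange (n + 1)).filter _)
    intro i j hi hj hij
    simp only [List.mem_filter, List.mem_finRange, true_and, decide_eq_true_eq] at hi hj
    exact P.cv_lt hT hi hj hij
  · intro T hT h3 p hp
    rw [mem_nodes] at hp
    rw [hp.2]
    exact (c1_nonneg T).trans (P.low _ hT h3)
  · intro T hT h3 p hp
    rw [mem_nodes] at hp
    rw [hp.2]
    have g1 := P.low p.2 hT h3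
    have g2 := P.high p.2 hT h3
    have g3 := c1_nonneg T
    have g4 := c3_sq h3
    constructor
    · rcases le_or_gt T 1 with h5 | h5
      · have := c1_sq hT h5
        nlinarith
      · nlinarith [sq_nonneg (P.cv p.2 T)]
    · nlinarith
  · intro T hT h3
    refine ⟨(P.cv (Fin.last n) T, Fin.last n), ?_, ?_⟩
    · rw [mem_nodes]
      refine ⟨P.dm_last h3 (fun h => ?_), rfl⟩
      rw [P.last] at h
      norm_num at h
    · simp only
      rw [P.cv_last]
      exact c3_sq h3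
  · intro T hT h1
    refine ⟨(P.cv 0 T, 0), ?_, ?_⟩
    · rw [mem_nodes]
      exact ⟨P.dm_zero hT h1, rfl⟩
    · simp only
      rw [P.cv_zero]
      exact c1_sq hT h1.le
  · intro T hT h3 p hp hz
    rw [mem_nodes] at hp
    by_contra hne
    have h3' : T ^ 2 < 3 := lt_of_le_of_ne h3 hne
    obtain ⟨hd, he⟩ := hp
    rw [he] at hz
    by_cases hp0 : p.2 = 0
    · have h1 := hd.1 hp0
      rw [hp0, P.cv_zero] at hz
      exact (c1_pos hT h1).ne' hz
    · by_cases hs : T = 0 ∨ T = h0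
      · obtain ⟨s1, -, -⟩ := special hs
        have := P.low p.2 hT h3
        linarith
      · push Not at hs
        obtain ⟨-, s2, s3⟩ := W_between (lt_of_le_of_ne hT (Ne.symm hs.1)) hs.2 h3'
        have h4 := gam_lt s2 s3 (P.pos_of_ne hp0)
        rw [gam_zero] at h4
        unfold cv at hz
        linarith [c1_nonneg T]

/-- The conditions on the node values. -/
structure Adm (v : ℝ → Fin (n + 1) → ℝ) : Prop where
  one : ∀ T, 1 ≤ T → v T 0 = 0
  zero : ∀ j, P.ρ j ≤ 1 → v 0 j = v 0 0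
  mid : ∀ j, P.ρ j ≤ 1 → v h0 j = v h0 0
  top : ∀ T j, T ^ 2 = 3 → v T j = 0

variable {P} {v : ℝ → Fin (n + 1) → ℝ}

theorem ker_at_zero (v : ℝ → Fin (n + 1) → ℝ) (T : ℝ) :
    ker P.nodes v (fun _ _ => 0) 0 T = 0 := by
  have := ker_odd (v := v) (B := fun _ _ => 0) P.isNodes (fun _ => rfl) 0 T
  rw [neg_zero] at this
  linarith

/-- The value on a curve, whether it is a node or not. -/
theorem ker_cv (hv : P.Adm v) (j : Fin (n + 1)) {T : ℝ} (hT : 0 ≤ T) (h3 : T ^ 2 ≤ 3) :
    ker P.nodes v (fun _ _ => 0) (P.cv j T) T = v T j := by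
  rcases h3.eq_or_lt with h | h
  · have e : P.cv j T = 0 := le_antisymm ((P.high j hT h3).trans (c3_top h).le)
      ((c1_nonneg T).trans (P.low j hT h3))
    rw [e, ker_at_zero, hv.top T _ h]
  have use : ∀ k : Fin (n + 1), P.dm k T → ker P.nodes v (fun _ _ => 0) (P.cv k T) T = v T k :=
    fun k hk => ker_node P.isNodes hT h (p := (P.cv k T, k)) (by rw [mem_nodes]; exact ⟨hk, rfl⟩)
  by_cases hj : P.dm j T
  · exact use j hj
  · by_cases hj0 : j = 0
    · subst hj0
      have h1 : 1 ≤ T := by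
        by_contra hh
        exact hj (P.dm_zero hT (not_le.1 hh))
      rw [P.cv_zero, c1_zero h1, ker_at_zero, hv.one T h1]
    · have h2 : P.ρ j ≤ 1 ∧ (T = 0 ∨ T = h0) := by
        by_contra hh
        apply hj
        refine ⟨fun k => absurd k hj0, fun _ k => ?_, fun _ => h, h3⟩
        constructor
        · by_contra h4
          exact hh ⟨k, Or.inl (le_antisymm (not_lt.1 h4) hT)⟩
        · intro h4
          exact hh ⟨k, Or.inr h4⟩
      obtain ⟨h4, h5⟩ := h2
      obtain ⟨s1, s2, s3⟩ := special h5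
      have e1 : P.cv j T = P.cv 0 T := by
        rw [P.cv_zero]
        unfold cv
        rw [gam_low h4, s2]
        ring
      have e2 : v T j = v T 0 := by
        rcases h5 with rfl | rfl
        · exact hv.zero j h4
        · exact hv.mid j h4
      have hT1 : T < 1 := by
        rcases h5 with rfl | rfl
        · exact one_pos
        · exact h0_lt_one
      rw [e1, e2]
      exact use 0 (P.dm_zero hT hT1)

/-- The value between two curves. -/
theorem ker_seg (hv : P.Adm v) (i : Fin n) {X T : ℝ} (hT : 0 ≤ T) (h3 : T ^ 2 ≤ 3)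
    (h1 : P.cv i.castSucc T ≤ X) (h2 : X ≤ P.cv i.succ T) :
    ker P.nodes v (fun _ _ => 0) X T = v T i.castSucc + (v T i.succ - v T i.castSucc) *
      ((X - P.cv i.castSucc T) / (P.cv i.succ T - P.cv i.castSucc T)) := by
  have v1 := ker_cv hv i.castSucc hT h3
  have v2 := ker_cv hv i.succ hT h3
  rcases h1.eq_or_lt with g1 | g1
  · rw [← g1, v1, sub_self, zero_div, mul_zero, add_zero]
  rcases h2.eq_or_lt with g2 | g2
  · rw [g2, v2, div_self (by linarith), mul_one]
    ring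
  -- strictly between the curves
  have c0 : 0 ≤ P.cv i.castSucc T := (c1_nonneg T).trans (P.low _ hT h3)
  have hX : 0 < X := by linarith
  have hXc : X < c3 T := lt_of_lt_of_le g2 (P.high _ hT h3)
  have hl3 : X ^ 2 + T ^ 2 ≤ 3 := by
    have := c3_sq h3
    nlinarith [c3_nonneg T]
  have hl1 : 1 ≤ X ^ 2 + T ^ 2 := by
    have g4 := P.low i.castSucc hT h3
    rcases le_or_gt T 1 with h5 | h5
    · have := c1_sq hT h5
      nlinarith [c1_nonneg T]
    · nlinarith
  have eT : |T| = T := abs_of_nonneg hT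
  obtain ⟨a, b, k1, k2, k3, k4, -, α, β, k6⟩ := ker_pieces (v := v) (B := fun _ _ => 0)
    P.isNodes (fun _ => rfl) X T hl1 hl3
  have ha : a ≤ P.cv i.castSucc T := by
    obtain ⟨p, hp, hp'⟩ := k3
    rw [eT, mem_nodes] at hp
    by_contra hh
    push Not at hh
    have e1 : a = P.cv p.2 T := by
      rw [← hp.2, ← hp', abs_of_pos (by linarith)]
    rcases le_or_gt p.2 i.castSucc with h5 | h5
    · have := P.cv_mono hT h3 h5
      linarith
    · have h6 : i.succ ≤ p.2 := Fin.castSucc_lt_iff_succ_le.1 h5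
      have := P.cv_mono hT h3 h6
      linarith
  have hb : P.cv i.succ T ≤ b := by
    obtain ⟨p, hp, hp'⟩ := k4
    rw [eT, mem_nodes] at hp
    by_contra hh
    push Not at hh
    have e1 : b = P.cv p.2 T := by
      rw [← hp.2, ← hp', abs_of_pos (by linarith)]
    rcases le_or_gt p.2 i.castSucc with h5 | h5
    · have := P.cv_mono hT h3 h5
      linarith
    · have h6 : i.succ ≤ p.2 := Fin.castSucc_lt_iff_succ_le.1 h5
      have := P.cv_mono hT h3 h6
      linarith
  have w0 := k6 X k1 k2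
  have w1 := k6 (P.cv i.castSucc T) ha (by linarith)
  have w2 := k6 (P.cv i.succ T) (by linarith) hb
  rw [v1] at w1
  rw [v2] at w2
  rw [w0, w1, w2]
  have hd : P.cv i.succ T - P.cv i.castSucc T ≠ 0 := by
    have : 0 < P.cv i.succ T - P.cv i.castSucc T := by linarith
    exact this.ne'
  field_simp
  ring

/-- An edge at a node. -/
theorem node {X T : ℝ} (hT : 0 ≤ T) (h : NodeAt P.nodes X T) :
    ∃ j, P.dm j T ∧ |X| = P.cv j T := by
  obtain ⟨p, hp, hp'⟩ := h
  rw [abs_of_nonneg hT, mem_nodes] at hp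
  exact ⟨p.2, hp.1, by rw [hp', hp.2]⟩

theorem cover {X T : ℝ} (h1 : c1 T ≤ X) (h2 : X ≤ c3 T) :
    ∃ i : Fin n, P.cv i.castSucc T ≤ X ∧ X ≤ P.cv i.succ T := by
  -- the last curve on the left of `X`
  have key : ∀ m : ℕ, ∀ hm : m < n + 1, P.cv ⟨m, hm⟩ T ≤ X ∨
      ∃ i : Fin n, P.cv i.castSucc T ≤ X ∧ X ≤ P.cv i.succ T := by
    intro m
    induction m with
    | zero =>
      intro hm
      left
      have := P.cv_zero T
      rw [show (⟨0, hm⟩ : Fin (n + 1)) = 0 from rfl, this]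
      exact h1
    | succ m ih =>
      intro hm
      rcases ih (by omega) with h | h
      · rcases le_total (P.cv ⟨m + 1, hm⟩ T) X with h' | h'
        · exact Or.inl h'
        · refine Or.inr ⟨⟨m, by omega⟩, ?_, ?_⟩
          · exact h
          · exact h'
      · exact Or.inr h
  have hn : n ≠ 0 := by
    intro h
    subst h
    exact P.last_ne rfl
  obtain ⟨m, rfl⟩ := Nat.exists_eq_succ_of_ne_zero hn
  rcases key m (by omega) with h | h
  · refine ⟨⟨m, by omega⟩, h, ?_⟩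
    have e : (⟨m, by omega⟩ : Fin (m + 1)).succ = Fin.last (m + 1) := rfl
    rw [e, P.cv_last]
    exact h2
  · exact h

/-- The system of curves. -/
noncomputable def cur (P : Pos n) : Cur n (Fin (n + 1)) where
  nodes := P.nodes
  cv := P.cv
  tg := id
  dm := P.dm
  adm := P.Adm
  isNodes := P.isNodes
  low j _ hT h3 := P.low j hT h3
  high j _ hT h3 := P.high j hT h3
  dm_sq _ _ _ h := h.2.2.2
  node _ _ hT _ h := node hT h
  val _ hv j _ hT h := ker_cv hv j hT h.2.2.2
  cover _ _ _ _ h1 h2 := cover h1 h2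
  seg _ hv i _ _ hT h3 h1 h2 := ker_seg hv i hT h3 h1 h2

end Pos

end Pool.Agent.Strip051.LC
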