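import Pool.Agent.Strip051.LC.Exact.Flat
import Pool.Agent.Strip051.LC.Exact.FamR

/-! # The small triangles from tables without any condition on the unit circle

With zero flux on the long edges only the small triangles are used, so that the value of the kernel
on the unit circle is arbitrary. -/

namespace Pool.Agent.Strip051.LC

open Pool.Agent.StripNear Pool.Agent.StripSquare Pool.Agent.Strip051.Sweep
open Pool.Agent.Strip051.LC.Line (NG)

/-- The small triangles at both vertices, at the near vertex with all levels. -/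
structure FixSm (T : Tab) (Nd : ℝ → ℝ → Prop) (N0 : ℕ) (a κ s : ℝ) : Prop where
  two : 2 ≤ N0
  a0 : 0 ≤ a
  κ0 : 0 ≤ κ
  s0 : 0 ≤ s
  s1 : s < h0
  ok : T.Ok
  even : ∀ X t, Nd X t → Nd (-X) t
  pieces : T.Pieces Nd
  far : Fams Nd (fun X12 X13 t t' =>
    NG κ s (exn X12 X13 t t' + T.farX X12 X13 t t') T.A X12 X13 t t')
  near : Fams Nd (fun X12 X13 t t' => ∀ l, t + t' - (N0 * h0 + s) - a ≤ l → l ≤ a →
    NG κ s (exn X12 X13 t t' + T.levX N0 s l X12 X13 t t') T.B X12 X13 t t')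

section

variable {T : Tab} {Nd : ℝ → ℝ → Prop} {N0 : ℕ} {a κ s : ℝ}

theorem FixLev.sm (h : FixLev T Nd N0 a κ s) : FixSm T Nd N0 a κ s :=
  ⟨h.two, h.a0, h.κ0, h.s0, h.s1, h.ok, h.even, h.pieces, h.far, h.near⟩

theorem FixSm.gpos (h : FixSm T Nd N0 a κ s) : 0 < g s := by linarith [g_gt_half h.s0 h.s1]

theorem FixSm.mu_pos (h : FixSm T Nd N0 a κ s) (n : ℕ) : 0 < mu n s := by
  have := h.gpos
  have hn : (0 : ℝ) ≤ n := Nat.cast_nonneg n
  unfold mu
  positivity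

theorem FixSm.okD (h : FixSm T Nd N0 a κ s) : (T.flat N0 κ s).Ok := h.ok.flat h.κ0 h.s0 h.s1

/-- The far vertex. -/
theorem FixSm.farS (h : FixSm T Nd N0 a κ s) {p q r : Pt} (k0 : 0 ≤ cr p q r)
    (k1 : 1 ≤ ds p q) (k2 : 1 ≤ ds q r) (k3 : 1 ≤ ds p r) (k4 : ds p q ≤ 3) (k5 : ds q r ≤ 3)
    (k6 : ds p r ≤ 3) : 0 ≤ cr p q r / (2 * h0) - 1 / 2 +
      fl ((T.flat N0 κ s).Q 0 (-(1 / 2))) (dn s p) (dn s q) (dn s r) := by
  have e1 : cr (dn s p) (dn s q) (dn s r) = cr p q r := cr_sh (s / 2) p q r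
  have e2 : ∀ a b : Pt, ds (dn s a) (dn s b) = ds a b := fun a b => ds_sh (s / 2) a b
  have := far_tri (N0 := N0) h.κ0 h.s0 h.s1 h.ok h.even h.pieces h.far (dn s p) (dn s q) (dn s r)
    (by rw [e1]; exact k0) (by rw [e2]; exact k1) (by rw [e2]; exact k2) (by rw [e2]; exact k3)
    (by rw [e2]; exact k4) (by rw [e2]; exact k5) (by rw [e2]; exact k6)
  have k := (Data.glue_Tr (S := T.data N0 κ s) (L := zeroData)
    (by rw [e2]; exact k4) (by rw [e2]; exact k5) (by rw [e2]; exact k6)).2 this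
  unfold Data.Tr at k
  rw [e1] at k
  unfold Tab.flat
  linarith

/-- The near vertex at the level `L`. -/
theorem FixSm.level (h : FixSm T Nd N0 a κ s) {p q r : Pt} (k0 : 0 ≤ cr p q r)
    (k1 : 1 ≤ ds p q) (k2 : 1 ≤ ds q r) (k3 : 1 ≤ ds p r) (k4 : ds p q ≤ 3) (k5 : ds q r ≤ 3)
    (k6 : ds p r ≤ 3) {L : ℝ} (l1 : highest p.2 q.2 r.2 - (N0 * h0 + s) - a ≤ L)
    (l2 : L ≤ lowest p.2 q.2 r.2 + a) :
    0 ≤ cr p q r / (2 * h0) - 1 / 2 +
      fl ((T.flat N0 κ s).nr N0 s L) (dn s p) (dn s q) (dn s r) := by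
  have e1 : cr (dn s p) (dn s q) (dn s r) = cr p q r := cr_sh (s / 2) p q r
  have e2 : ∀ a b : Pt, ds (dn s a) (dn s b) = ds a b := fun a b => ds_sh (s / 2) a b
  have := near_tri_level h.κ0 h.s0 h.s1 (h.mu_pos N0).ne' h.ok h.even h.pieces h.near
    (dn s p) (dn s q) (dn s r) (by rw [e1]; exact k0)
    (by rw [e2]; exact k1) (by rw [e2]; exact k2) (by rw [e2]; exact k3) (by rw [e2]; exact k4)
    (by rw [e2]; exact k5) (by rw [e2]; exact k6) (L := L - s / 2)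
    (by rw [highest_dn]; linarith) (by rw [lowest_dn]; linarith)
  rw [show s / 2 + (L - s / 2) = L by ring] at this
  have k := (Data.glue_Tr (S := T.data N0 κ s) (L := zeroData)
    (by rw [e2]; exact k4) (by rw [e2]; exact k5) (by rw [e2]; exact k6)).2 this
  unfold Data.Tr at k
  rw [e1] at k
  unfold Tab.flat Data.nr
  linarith

/-- **All small triangles which leave the strip by at most `a` are good.** -/
theorem FixSm.small (h : FixSm T Nd N0 a κ s) {n : ℕ} (hn : N0 ≤ n) {p q r : Pt}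
    (k0 : 0 ≤ cr p q r) (k1 : 1 ≤ ds p q) (k2 : 1 ≤ ds q r) (k3 : 1 ≤ ds p r)
    (k4 : ds p q ≤ 3) (k5 : ds q r ≤ 3) (k6 : ds p r ≤ 3) (hl : -a ≤ lowest p.2 q.2 r.2)
    (hu : highest p.2 q.2 r.2 ≤ n * h0 + s + a) :
    1 / 2 ≤ cr p q r / (2 * h0) + fl ((T.flat N0 κ s).QS n s) p q r := by
  have hh := h0_pos
  have h2 : (2 : ℝ) ≤ N0 := by exact_mod_cast h.two
  have ha := h.a0
  have hs := h.s0
  set H := (n : ℝ) * h0 + s with hH
  have em : ∀ a b : Pt, ds (mir H a) (mir H b) = ds a b := fun a b => ds_mir H a b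
  have ec := cr_mir H p q r
  have hhi := highest_le k4 k5 k6
  have e2 : 2 * h0 ≤ N0 * h0 + s + 2 * a := by nlinarith
  have f1 := h.farS k0 k1 k2 k3 k4 k5 k6
  have k0' : 0 ≤ cr (mir H r) (mir H q) (mir H p) := by rw [ec]; exact k0
  have k1' : 1 ≤ ds (mir H r) (mir H q) := by rw [em, ds_comm]; exact k2
  have k2' : 1 ≤ ds (mir H q) (mir H p) := by rw [em, ds_comm]; exact k1
  have k3' : 1 ≤ ds (mir H r) (mir H p) := by rw [em, ds_comm]; exact k3
  have k4' : ds (mir H r) (mir H q) ≤ 3 := by rw [em, ds_comm]; exact k5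
  have k5' : ds (mir H q) (mir H p) ≤ 3 := by rw [em, ds_comm]; exact k4
  have k6' : ds (mir H r) (mir H p) ≤ 3 := by rw [em, ds_comm]; exact k6
  have f2 := h.farS k0' k1' k2' k3' k4' k5' k6'
  have n1 := h.level k0 k1 k2 k3 k4 k5 k6 (L := lowest p.2 q.2 r.2 + a) (by linarith) le_rfl
  have n2 := h.level k0' k1' k2' k3' k4' k5' k6'
    (L := lowest (mir H r).2 (mir H q).2 (mir H p).2 + a)
    (by rw [lowest_mir, highest_mir]; linarith) le_rfl
  rw [ec] at f2 n2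
  have := hull3 h.okD hn h.gpos (A := cr p q r / (2 * h0) - 1 / 2) (δ := 0)
    (L := lowest p.2 q.2 r.2 + a) (L' := lowest (mir H r).2 (mir H q).2 (mir H p).2 + a)
    (by linarith) (by rw [lowest_mir]; linarith) f1 f2 n1 n2
  rw [mul_zero] at this
  linarith

/-- All small triangles of the strip. -/
theorem FixSm.inside (h : FixSm T Nd N0 a κ s) {n : ℕ} (hn : N0 ≤ n) {p q r : Pt}
    (hp : In (n * h0 + s) p) (hq : In (n * h0 + s) q) (hr : In (n * h0 + s) r)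
    (k0 : 0 ≤ cr p q r) (k1 : 1 ≤ ds p q) (k2 : 1 ≤ ds q r) (k3 : 1 ≤ ds p r)
    (k4 : ds p q ≤ 3) (k5 : ds q r ≤ 3) (k6 : ds p r ≤ 3) :
    1 / 2 ≤ cr p q r / (2 * h0) + fl ((T.flat N0 κ s).QS n s) p q r := by
  have ha := h.a0
  refine h.small hn k0 k1 k2 k3 k4 k5 k6 ?_ ?_
  · exact (by linarith : -a ≤ 0).trans (lowest_nonneg hp.1 hq.1 hr.1)
  · unfold highest
    exact max_le (by linarith [hp.2]) (max_le (by linarith [hq.2]) (by linarith [hr.2]))

end

/-! ### The certificate from tables -/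

/-- The facts about the tables; no condition on the unit circle. -/
structure CertS {m : ℕ} {ι : Type} (K : Cur m ι) (vA vB vX : ℝ → ι → ℝ) (N0 : ℕ)
    (a κ s : ℝ) : Prop where
  two : 2 ≤ N0
  a0 : 0 ≤ a
  κ0 : 0 ≤ κ
  s0 : 0 ≤ s
  s1 : s < h0
  admA : K.adm vA
  admB : K.adm vB
  admX : K.adm vX
  bdd : ∃ C, ∀ T i, 0 ≤ T → T ^ 2 ≤ 3 → |vA T i| ≤ C ∧ |vB T i| ≤ C ∧ |vX T i| ≤ C
  farA : ∀ j k, j ≤ k → K.AllA (farS κ s vA vX) j k
  farB : ∀ j k, K.AllB (farS κ s vA vX) j k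
  nearA : ∀ j k, j ≤ k → K.AllA (nearL a N0 κ s vB vX) j k
  nearB : ∀ j k, K.AllB (nearL a N0 κ s vB vX) j k

section

variable {m : ℕ} {ι : Type} {K : Cur m ι} {vA vB vX : ℝ → ι → ℝ} {N0 : ℕ} {a κ s : ℝ}

theorem CertS.ok (h : CertS K vA vB vX N0 a κ s) : (tab K.nodes vA vB vX).Ok := by
  obtain ⟨C, hC⟩ := h.bdd
  have hC0 : 0 ≤ C := (abs_nonneg _).trans (hC 0 (K.tg 0) le_rfl (by norm_num)).1
  exact tab_ok K.isNodes hC0 fun t ht h3 p _ => hC t p.2 ht h3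

/-- **The certificate for the small triangles.** -/
theorem CertS.fixSm (h : CertS K vA vB vX N0 a κ s) :
    FixSm (tab K.nodes vA vB vX) (NodeAt K.nodes) N0 a κ s where
  two := h.two
  a0 := h.a0
  κ0 := h.κ0
  s0 := h.s0
  s1 := h.s1
  ok := h.ok
  even := nodeAt_even
  pieces := tab_pieces K.isNodes vA vB vX
  far := far_sym K h.admA h.admX h.farA h.farB
  near := near_level K h.admB h.admX h.nearA h.nearB

end

end Pool.Agent.Strip051.LC
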