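import Pool.Agent.Strip051.LC.Exact.StarFlip

/-! # The conditions at the floor for the small triangles

`StarSmall` is `StarRows` restricted to the triangles with three sides of length at most `√3`. -/

namespace Pool.Agent.Strip051.LC

open Pool.Agent.StripNear Pool.Agent.StripSquare Pool.Agent.Strip051.Sweep

/-- The conditions on the small triangles which have a lower edge at the floor.  `a`, `b` are the
leftmost and the rightmost vertex, `m` is the largest value of `μ`. -/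
structure StarSmall (D : Data) (s m : ℝ) : Prop where
  /-- `c` is above `a b` -/
  upper : ∀ a b c o R, Cell a b c o R → 0 ≤ o.2 → 0 ≤ c.2 → a.1 ≤ c.1 → c.1 ≤ b.1 → FF a b →
    ¬(FF a c ∧ FF c b) → ds a b ≤ 3 → ds b c ≤ 3 → ds a c ≤ 3 →
    (∀ μ, μ = 0 ∨ μ = m → 0 ≤ SF D s μ a b c + WF D s μ a b) ∨
    (FF a c ∧ ∀ μ, μ = 0 ∨ μ = m → 0 ≤ SF D s μ a b c + WF D s μ a b - WF D s μ a c) ∨
    (FF c b ∧ ∀ μ, μ = 0 ∨ μ = m → 0 ≤ SF D s μ a b c + WF D s μ a b - WF D s μ c b)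
  /-- `c` is below `a b`, the left lower edge -/
  lowerL : ∀ a c b o R, Cell a c b o R → 0 ≤ o.2 → 0 ≤ b.2 → a.1 ≤ c.1 → c.1 ≤ b.1 → FF a c →
    ds a c ≤ 3 → ds c b ≤ 3 → ds a b ≤ 3 →
    (∀ μ, μ = 0 ∨ μ = m → 0 ≤ SF D s μ a c b + WF D s μ a c) ∨
    (FF a b ∧ ∀ μ, μ = 0 ∨ μ = m → 0 ≤ SF D s μ a c b + WF D s μ a c - WF D s μ a b)
  /-- `c` is below `a b`, the right lower edge -/
  lowerR : ∀ a c b o R, Cell a c b o R → 0 ≤ o.2 → 0 ≤ a.2 → a.1 ≤ c.1 → c.1 ≤ b.1 → FF c b →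
    ds a c ≤ 3 → ds c b ≤ 3 → ds a b ≤ 3 →
    (∀ μ, μ = 0 ∨ μ = m → 0 ≤ SF D s μ a c b + WF D s μ c b) ∨
    (FF a b ∧ ∀ μ, μ = 0 ∨ μ = m → 0 ≤ SF D s μ a c b + WF D s μ c b - WF D s μ a b)
  /-- `c` is below `a b`, both lower edges -/
  lower2 : ∀ a c b o R, Cell a c b o R → 0 ≤ o.2 → a.1 ≤ c.1 → c.1 ≤ b.1 → FF a c → FF c b →
    ds a c ≤ 3 → ds c b ≤ 3 → ds a b ≤ 3 →
    (∀ μ, μ = 0 ∨ μ = m → 0 ≤ SF D s μ a c b + WF D s μ a c + WF D s μ c b) ∨
    (FF a b ∧ ∀ μ, μ = 0 ∨ μ = m →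
      0 ≤ SF D s μ a c b + WF D s μ a c + WF D s μ c b - WF D s μ a b)

/-- The conditions for all triangles imply those for the small ones. -/
theorem StarRows.small {D : Data} {s m : ℝ} (h : StarRows D s m) : StarSmall D s m :=
  ⟨fun a b c o R k1 k2 k3 k4 k5 k6 k7 _ _ _ => h.upper a b c o R k1 k2 k3 k4 k5 k6 k7,
    fun a c b o R k1 k2 k3 k4 k5 k6 _ _ _ => h.lowerL a c b o R k1 k2 k3 k4 k5 k6,
    fun a c b o R k1 k2 k3 k4 k5 k6 _ _ _ => h.lowerR a c b o R k1 k2 k3 k4 k5 k6,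
    fun a c b o R k1 k2 k3 k4 k5 k6 _ _ _ => h.lower2 a c b o R k1 k2 k3 k4 k5 k6⟩

/-- With nonnegative slacks at the floor the conditions follow from the triangles. -/
theorem starSmall_of_nonneg {D : Data} {s m : ℝ}
    (hS : ∀ μ, μ = 0 ∨ μ = m → ∀ p q r, 0 ≤ p.2 → 0 ≤ q.2 → 0 ≤ r.2 → 0 ≤ cr p q r →
      1 ≤ ds p q → 1 ≤ ds q r → 1 ≤ ds p r → ds p q ≤ 3 → ds q r ≤ 3 → ds p r ≤ 3 →
      0 ≤ SF D s μ p q r)
    (hW : ∀ μ, μ = 0 ∨ μ = m → ∀ a b, FF a b → ds a b ≤ 3 → 0 ≤ WF D s μ a b) :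
    StarSmall D s m := by
  refine ⟨?_, ?_, ?_, ?_⟩
  · intro a b c o R k1 _ k3 _ _ k6 _ k8 k9 k10
    refine Or.inl fun μ hμ => ?_
    have := hS μ hμ a b c k6.p0 k6.q0 k3 k1.cr k1.pq k1.qr k1.pr k8 k9 k10
    have := hW μ hμ a b k6 k8
    linarith
  · intro a c b o R k1 _ k3 _ _ k6 k7 k8 k9
    refine Or.inl fun μ hμ => ?_
    have := hS μ hμ a c b k6.p0 k6.q0 k3 k1.cr k1.pq k1.qr k1.pr k7 k8 k9
    have := hW μ hμ a c k6 k7
    linarith
  · intro a c b o R k1 _ k3 _ _ k6 k7 k8 k9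
    refine Or.inl fun μ hμ => ?_
    have := hS μ hμ a c b k3 k6.p0 k6.q0 k1.cr k1.pq k1.qr k1.pr k7 k8 k9
    have := hW μ hμ c b k6 k8
    linarith
  · intro a c b o R k1 _ _ _ k6 k6' k7 k8 k9
    refine Or.inl fun μ hμ => ?_
    have := hS μ hμ a c b k6.p0 k6.q0 k6'.q0 k1.cr k1.pq k1.qr k1.pr k7 k8 k9
    have := hW μ hμ a c k6 k7
    have := hW μ hμ c b k6' k8
    linarith

/-- The conditions hold for all smaller `μ`. -/
theorem StarSmall.mono {D : Data} {s m : ℝ} (h : StarSmall D s m) {μ : ℝ} (h0 : 0 ≤ μ)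
    (h1 : μ ≤ m) : StarSmall D s μ := by
  have one : ∀ {f : ℝ → ℝ}, (∃ A B : ℝ, ∀ ν, f ν = A + ν * B) →
      (∀ ν, ν = 0 ∨ ν = m → 0 ≤ f ν) → ∀ ν, ν = 0 ∨ ν = μ → 0 ≤ f ν := by
    intro f hf hm ν hν
    obtain ⟨A, B, hAB⟩ := hf
    rcases hν with rfl | rfl
    · exact hm 0 (Or.inl rfl)
    · rw [hAB]
      have e0 := hm 0 (Or.inl rfl)
      have em := hm m (Or.inr rfl)
      rw [hAB] at e0 em
      exact aff_nonneg h0 h1 e0 em
  have add : ∀ {f f' : ℝ → ℝ}, (∃ A B : ℝ, ∀ ν, f ν = A + ν * B) →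
      (∃ A B : ℝ, ∀ ν, f' ν = A + ν * B) → ∃ A B : ℝ, ∀ ν, f ν + f' ν = A + ν * B := by
    intro f f' ⟨A, B, e⟩ ⟨A', B', e'⟩
    exact ⟨A + A', B + B', fun ν => by rw [e, e']; ring⟩
  have sub : ∀ {f f' : ℝ → ℝ}, (∃ A B : ℝ, ∀ ν, f ν = A + ν * B) →
      (∃ A B : ℝ, ∀ ν, f' ν = A + ν * B) → ∃ A B : ℝ, ∀ ν, f ν - f' ν = A + ν * B := by
    intro f f' ⟨A, B, e⟩ ⟨A', B', e'⟩
    exact ⟨A - A', B - B', fun ν => by rw [e, e']; ring⟩
  refine ⟨?_, ?_, ?_, ?_⟩
  · intro a b c o R k1 k2 k3 k4 k5 k6 k7 k8 k9 k10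
    rcases h.upper a b c o R k1 k2 k3 k4 k5 k6 k7 k8 k9 k10 with h2 | ⟨h2, h3⟩ | ⟨h2, h3⟩
    · exact Or.inl (one (add (SF_aff D s a b c) (WF_aff D s a b)) h2)
    · exact Or.inr (Or.inl ⟨h2, one (sub (add (SF_aff D s a b c) (WF_aff D s a b))
        (WF_aff D s a c)) h3⟩)
    · exact Or.inr (Or.inr ⟨h2, one (sub (add (SF_aff D s a b c) (WF_aff D s a b))
        (WF_aff D s c b)) h3⟩)
  · intro a c b o R k1 k2 k3 k4 k5 k6 k7 k8 k9
    rcases h.lowerL a c b o R k1 k2 k3 k4 k5 k6 k7 k8 k9 with h2 | ⟨h2, h3⟩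
    · exact Or.inl (one (add (SF_aff D s a c b) (WF_aff D s a c)) h2)
    · exact Or.inr ⟨h2, one (sub (add (SF_aff D s a c b) (WF_aff D s a c)) (WF_aff D s a b)) h3⟩
  · intro a c b o R k1 k2 k3 k4 k5 k6 k7 k8 k9
    rcases h.lowerR a c b o R k1 k2 k3 k4 k5 k6 k7 k8 k9 with h2 | ⟨h2, h3⟩
    · exact Or.inl (one (add (SF_aff D s a c b) (WF_aff D s c b)) h2)
    · exact Or.inr ⟨h2, one (sub (add (SF_aff D s a c b) (WF_aff D s c b)) (WF_aff D s a b)) h3⟩
  · intro a c b o R k1 k2 k3 k4 k5 k6 k7 k8 k9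
    rcases h.lower2 a c b o R k1 k2 k3 k4 k5 k6 k7 k8 k9 with h2 | ⟨h2, h3⟩
    · exact Or.inl (one (add (add (SF_aff D s a c b) (WF_aff D s a c)) (WF_aff D s c b)) h2)
    · exact Or.inr ⟨h2, one (sub (add (add (SF_aff D s a c b) (WF_aff D s a c))
        (WF_aff D s c b)) (WF_aff D s a b)) h3⟩

/-- The row of one triangle with the centre above the floor. -/
theorem starS_row {w : ℝ} {F : Pt → Pt → ℝ} {D : Data} {s μ : ℝ}
    (hanti : ∀ a b, F b a = -F a b) (hR : StarSmall D s μ)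
    (hW : ∀ a b, wf w F a b = WF D s μ a b)
    (hS : ∀ p q r, F p q + F q r + F r p - 1 / 2 = SF D s μ p q r)
    {p q r o : Pt} {R : ℝ} (hp : 0 ≤ p.2) (hq : 0 ≤ q.2) (hr : 0 ≤ r.2) (ho : 0 ≤ o.2)
    (hc : Cell p q r o R) (k4 : ds p q ≤ 3) (k5 : ds q r ≤ 3) (k6 : ds p r ≤ 3)
    (hT : 1 / 2 ≤ F p q + F q r + F r p) :
    1 / 2 ≤ F p q + F q r + F r p + corr w F p q r := by
  classical
  -- `p` is the leftmost vertex
  have left : ∀ p q r, 0 ≤ p.2 → 0 ≤ q.2 → 0 ≤ r.2 → Cell p q r o R → p.1 ≤ q.1 →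
      p.1 ≤ r.1 → ds p q ≤ 3 → ds q r ≤ 3 → ds p r ≤ 3 → 1 / 2 ≤ F p q + F q r + F r p →
      1 / 2 ≤ F p q + F q r + F r p + corr w F p q r := by
    intro p q r hp hq hr hc h1 h2 k4 k5 k6 hT
    have hSe := hS p q r
    have wmle : ∀ a b, FF a b → wm w F a b ≤ WF D s μ a b := by
      intro a b h
      rw [wm_of h, ← hW]
      exact min_le_right _ _
    have wm0 : ∀ a b, wm w F a b ≤ 0 := fun a b => wm_nonpos a b
    have wmeq : ∀ a b, FF a b → wm w F a b = 0 ∨ wm w F a b = WF D s μ a b := by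
      intro a b h
      rw [wm_of h, ← hW]
      rcases min_choice 0 (w * (b.1 - a.1) - 1 / 2 - F a b) with h' | h'
      · exact Or.inl h'
      · exact Or.inr h'
    have z1 : ∀ a b : Pt, a.1 ≤ b.1 → wm w F b a = 0 := fun a b h =>
      wm_not (fun h' => by have := h'.lt; linarith)
    rcases le_total q.1 r.1 with h3 | h3
    · -- `q` is below `p r`
      have e : corr w F p q r = wm w F p q + wm w F q r - wm w F p r := by
        unfold corr
        rw [z1 p q h1, z1 q r h3, z1 p r h2]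
        ring
      rw [e]
      have t0 := wm0 p r
      have bonus : ∀ x : ℝ, (0 ≤ x ∨ (FF p r ∧ 0 ≤ x - WF D s μ p r)) → 0 ≤ x - wm w F p r := by
        intro x hx
        rcases hx with hx | ⟨h4, hx⟩
        · linarith
        · have := wmle p r h4
          linarith
      by_cases f1 : FF p q
      · by_cases f2 : FF q r
        · rcases wmeq p q f1 with w1 | w1 <;> rcases wmeq q r f2 with w2 | w2
          · rw [w1, w2]
            linarith
          · rw [w1, w2]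
            have := bonus (SF D s μ p q r + WF D s μ q r) (by
              rcases hR.lowerR p q r o R hc ho hp h1 h3 f2 k4 k5 k6 with h4 | ⟨h4, h5⟩
              · exact Or.inl (h4 μ (Or.inr rfl))
              · exact Or.inr ⟨h4, h5 μ (Or.inr rfl)⟩)
            linarith
          · rw [w1, w2]
            have := bonus (SF D s μ p q r + WF D s μ p q) (by
              rcases hR.lowerL p q r o R hc ho hr h1 h3 f1 k4 k5 k6 with h4 | ⟨h4, h5⟩
              · exact Or.inl (h4 μ (Or.inr rfl))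
              · exact Or.inr ⟨h4, h5 μ (Or.inr rfl)⟩)
            linarith
          · rw [w1, w2]
            have := bonus (SF D s μ p q r + WF D s μ p q + WF D s μ q r) (by
              rcases hR.lower2 p q r o R hc ho h1 h3 f1 f2 k4 k5 k6 with h4 | ⟨h4, h5⟩
              · exact Or.inl (h4 μ (Or.inr rfl))
              · exact Or.inr ⟨h4, h5 μ (Or.inr rfl)⟩)
            linarith
        · rw [wm_not f2]
          rcases wmeq p q f1 with w1 | w1
          · rw [w1]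
            linarith
          · rw [w1]
            have := bonus (SF D s μ p q r + WF D s μ p q) (by
              rcases hR.lowerL p q r o R hc ho hr h1 h3 f1 k4 k5 k6 with h4 | ⟨h4, h5⟩
              · exact Or.inl (h4 μ (Or.inr rfl))
              · exact Or.inr ⟨h4, h5 μ (Or.inr rfl)⟩)
            linarith
      · rw [wm_not f1]
        by_cases f2 : FF q r
        · rcases wmeq q r f2 with w2 | w2
          · rw [w2]
            linarith
          · rw [w2]
            have := bonus (SF D s μ p q r + WF D s μ q r) (by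
              rcases hR.lowerR p q r o R hc ho hp h1 h3 f2 k4 k5 k6 with h4 | ⟨h4, h5⟩
              · exact Or.inl (h4 μ (Or.inr rfl))
              · exact Or.inr ⟨h4, h5 μ (Or.inr rfl)⟩)
            linarith
        · rw [wm_not f2]
          linarith
    · -- `r` is above `p q`
      have e : corr w F p q r = wm w F p q - wm w F r q - wm w F p r := by
        unfold corr
        rw [z1 p q h1, z1 r q h3, z1 p r h2]
        ring
      rw [e]
      have t1 := wm0 r q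
      have t2 := wm0 p r
      by_cases f1 : FF p q
      · by_cases f2 : FF p r ∧ FF r q
        · have := row_auto (w := w) hanti f1 f2.1 f2.2 hT
          rw [e] at this
          exact this
        · rcases wmeq p q f1 with w1 | w1
          · rw [w1]
            linarith
          · rw [w1]
            rcases hR.upper p q r o R hc ho hr h2 h3 f1 f2 k4 k5 k6 with h4 | ⟨h4, h5⟩ | ⟨h4, h5⟩
            · have := h4 μ (Or.inr rfl)
              linarith
            · have := h5 μ (Or.inr rfl)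
              have := wmle p r h4
              linarith
            · have := h5 μ (Or.inr rfl)
              have := wmle r q h4
              linarith
      · rw [wm_not f1]
        linarith
  have rotc : ∀ p q r, corr w F q r p = corr w F p q r := by
    intro p q r
    unfold corr
    ring
  rcases le_total p.1 q.1 with h1 | h1
  · rcases le_total p.1 r.1 with h2 | h2
    · exact left p q r hp hq hr hc h1 h2 k4 k5 k6 hT
    · have := left r p q hr hp hq hc.rot.rot h2 (h2.trans h1) (by rwa [ds_comm]) k4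
        (by rwa [ds_comm]) (by linarith)
      rw [← rotc r p q] at this
      linarith
  · rcases le_total q.1 r.1 with h2 | h2
    · have := left q r p hq hr hp hc.rot h2 h1 k5 (by rwa [ds_comm]) (by rwa [ds_comm])
        (by linarith)
      rw [rotc p q r] at this
      linarith
    · have := left r p q hr hp hq hc.rot.rot (h2.trans h1) h2 (by rwa [ds_comm]) k4
        (by rwa [ds_comm]) (by linarith)
      rw [← rotc r p q] at this
      linarith

/-- **The row of every small triangle** with vertices above the floor. -/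
theorem starS_row_small {w : ℝ} {F : Pt → Pt → ℝ} {D : Data} {s μ : ℝ}
    (hanti : ∀ a b, F b a = -F a b) (hR : StarSmall D s μ)
    (hW : ∀ a b, wf w F a b = WF D s μ a b)
    (hS : ∀ p q r, F p q + F q r + F r p - 1 / 2 = SF D s μ p q r)
    {p q r : Pt} (hp : 0 ≤ p.2) (hq : 0 ≤ q.2) (hr : 0 ≤ r.2)
    (hc : Cel p q r) (k4 : ds p q ≤ 3) (k5 : ds q r ≤ 3) (k6 : ds p r ≤ 3)
    (hT : 1 / 2 ≤ F p q + F q r + F r p) :
    1 / 2 ≤ F p q + F q r + F r p + corr w F p q r := by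
  obtain ⟨o, R, h⟩ := cel_center hc
  rcases le_or_gt 0 o.2 with ho | ho
  · exact starS_row hanti hR hW hS hp hq hr ho h k4 k5 k6 hT
  · exact star_row_low hanti hp hq hr ho h hT

end Pool.Agent.Strip051.LC
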