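import Pool.Agent.Strip051.LC.Exact.LongD
import Pool.Agent.Strip051.LC.Exact.LongGeo
import Pool.Agent.Strip051.LC.Exact.StarSmall
import Pool.Agent.Strip051.LC.Exact.Flat3
import Pool.Agent.Strip051.LC.Exact.SmallX

/-! # The cells with long edges from a majorant of the flux

The flux on the long edges is zero.  The flux on a short edge is at most the cost `c`, and at most
`u` for the edges of length one.  The values of the walls differ from the area part by at least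
`-c` as well, by a closed formula.  `CostOK` lists the numerical inequalities for `c` and `u` from
which all cells with long edges follow. -/

namespace Pool.Agent.Strip051.LC

open Pool.Agent.StripNear Pool.Agent.StripSquare Pool.Agent.Strip051.Sweep

/-! ### Functions on the quadrant -/

/-- The value of a function of the quadrant at a vector. -/
def av (c : ℝ → ℝ → ℝ) (X T : ℝ) : ℝ := c |X| |T|

theorem av_neg (c : ℝ → ℝ → ℝ) (X T : ℝ) : av c (-X) (-T) = av c X T := by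
  unfold av
  rw [abs_neg, abs_neg]

theorem av_negL (c : ℝ → ℝ → ℝ) (X T : ℝ) : av c (-X) T = av c X T := by
  unfold av
  rw [abs_neg]

theorem av_negR (c : ℝ → ℝ → ℝ) (X T : ℝ) : av c X (-T) = av c X T := by
  unfold av
  rw [abs_neg]

theorem av_pos (c : ℝ → ℝ → ℝ) {X T : ℝ} (hX : 0 ≤ X) (hT : 0 ≤ T) : av c X T = c X T := by
  unfold av
  rw [abs_of_nonneg hX, abs_of_nonneg hT]

/-- **The numerical conditions** on the costs; `E` is the exact weight per unit length minus the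
area part. -/
structure CostOK (c u rho : ℝ → ℝ → ℝ) (E : ℝ) : Prop where
  short : ∀ X T, 0 ≤ X → 0 ≤ T → 1 ≤ X ^ 2 + T ^ 2 → X ^ 2 + T ^ 2 ≤ 3 → X ^ 2 + T ^ 2 ≤ 2 * X →
    0 ≤ X * (1 / 2 - E + T / (2 * h0)) - 1 / 2 + c X T
  shortU : ∀ X T, 0 ≤ X → 0 ≤ T → X ^ 2 + T ^ 2 = 1 → X ^ 2 + T ^ 2 ≤ 2 * X →
    0 ≤ X * (1 / 2 - E + T / (2 * h0)) - 1 / 2 + u X T
  shortL : ∀ X T, 0 ≤ X → 0 ≤ T → 3 ≤ X ^ 2 + T ^ 2 → X ^ 2 + T ^ 2 ≤ 2 * X →
    0 ≤ X * (1 / 2 - E + T / (2 * h0)) - 1 / 2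
  above : ∀ a b y1 y2 x z, 0 ≤ y1 → 0 ≤ y2 → 0 ≤ z → 0 < a + b →
    a ^ 2 + y1 ^ 2 = b ^ 2 + y2 ^ 2 → a ^ 2 + y1 ^ 2 ≤ 1 → 3 ≤ (a + b) ^ 2 + (y2 - y1) ^ 2 →
    a ^ 2 + y1 ^ 2 ≤ x ^ 2 + z ^ 2 → 1 ≤ (x + a) ^ 2 + (z - y1) ^ 2 →
    (x + a) ^ 2 + (z - y1) ^ 2 ≤ 3 → 1 ≤ (b - x) ^ 2 + (y2 - z) ^ 2 →
    (b - x) ^ 2 + (y2 - z) ^ 2 ≤ 3 → 0 ≤ (a + b) * (z - y1) - (y2 - y1) * (x + a) →
    (a + b) ^ 2 + (y2 - y1) ^ 2 ≤ 4 * ((a + b) * (z - y1) - (y2 - y1) * (x + a)) ^ 2 →
    av c (x + a) (z - y1) + av c (b - x) (y2 - z) ≤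
      (x + a) * (1 / 2 - E + (y1 + z) / (2 * h0)) +
        (b - x) * (1 / 2 - E + (z + y2) / (2 * h0)) - 1
  tall : ∀ X T, 0 ≤ X → 0 ≤ T → 1 ≤ X ^ 2 + T ^ 2 → X ^ 2 + T ^ 2 ≤ 3 → c X T ≤ 1 / 3
  quad : ∀ A1 A2 B1 B2 d1 d2, QuadV A1 A2 B1 B2 d1 d2 →
    av c (A1 + d1) (A2 + d2) + av c (B1 - d1) (B2 - d2) + av c (A1 - d1) (A2 - d2) +
      av c (B1 + d1) (B2 + d2) ≤ 2 * (A1 * B2 - A2 * B1) / (2 * h0) - 1
  rho0 : ∀ X T, 0 ≤ rho X T
  rhoU : ∀ u1 u2 v1 v2, u1 ^ 2 + u2 ^ 2 = 1 → v1 ^ 2 + v2 ^ 2 = 1 →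
    3 ≤ (u1 + v1) ^ 2 + (u2 + v2) ^ 2 →
    av u u1 u2 + av u v1 v2 + |u1 * v2 - u2 * v1| / (2 * h0) - 1 / 2 ≤ av rho (u1 + v1) (u2 + v2)
  two : ∀ P1 P2 R1 R2 u1 u2 v1 v2, TwoV P1 P2 R1 R2 u1 u2 v1 v2 →
    av rho P1 P2 + av rho R1 R2 + av c (R1 - P1) (R2 - P2) ≤
      (P1 * R2 - P2 * R1) / (2 * h0) - 1 / 2

/-- **The conditions are convex.** -/
theorem CostOK.mix {c u rho c' u' rho' : ℝ → ℝ → ℝ} {E E' : ℝ} (h : CostOK c u rho E)
    (h' : CostOK c' u' rho' E') {θ : ℝ} (h0θ : 0 ≤ θ) (h1θ : 0 ≤ 1 - θ) :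
    CostOK (fun X T => (1 - θ) * c X T + θ * c' X T) (fun X T => (1 - θ) * u X T + θ * u' X T)
      (fun X T => (1 - θ) * rho X T + θ * rho' X T) ((1 - θ) * E + θ * E') := by
  have e : ∀ f f' : ℝ → ℝ → ℝ, ∀ X T, av (fun X T => (1 - θ) * f X T + θ * f' X T) X T =
      (1 - θ) * av f X T + θ * av f' X T := fun _ _ _ _ => rfl
  refine ⟨?_, ?_, ?_, ?_, ?_, ?_, ?_, ?_, ?_⟩
  · intro X T k1 k2 k3 k4 k5
    have a1 := mul_nonneg h1θ (h.short X T k1 k2 k3 k4 k5)
    have a2 := mul_nonneg h0θ (h'.short X T k1 k2 k3 k4 k5)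
    linarith
  · intro X T k1 k2 k3 k4
    have a1 := mul_nonneg h1θ (h.shortU X T k1 k2 k3 k4)
    have a2 := mul_nonneg h0θ (h'.shortU X T k1 k2 k3 k4)
    linarith
  · intro X T k1 k2 k3 k4
    have a1 := mul_nonneg h1θ (h.shortL X T k1 k2 k3 k4)
    have a2 := mul_nonneg h0θ (h'.shortL X T k1 k2 k3 k4)
    linarith
  · intro a b y1 y2 x z k1 k2 k3 k4 k5 k6 k7 k8 k9 k10 k11 k12 k13 k14
    have a1 := mul_le_mul_of_nonneg_left
      (h.above a b y1 y2 x z k1 k2 k3 k4 k5 k6 k7 k8 k9 k10 k11 k12 k13 k14) h1θ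
    have a2 := mul_le_mul_of_nonneg_left
      (h'.above a b y1 y2 x z k1 k2 k3 k4 k5 k6 k7 k8 k9 k10 k11 k12 k13 k14) h0θ
    rw [e, e]
    linarith
  · intro X T k1 k2 k3 k4
    have a1 := mul_le_mul_of_nonneg_left (h.tall X T k1 k2 k3 k4) h1θ
    have a2 := mul_le_mul_of_nonneg_left (h'.tall X T k1 k2 k3 k4) h0θ
    linarith
  · intro A1 A2 B1 B2 d1 d2 k
    have a1 := mul_le_mul_of_nonneg_left (h.quad A1 A2 B1 B2 d1 d2 k) h1θ
    have a2 := mul_le_mul_of_nonneg_left (h'.quad A1 A2 B1 B2 d1 d2 k) h0θ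
    rw [e, e, e, e]
    linarith
  · intro X T
    exact add_nonneg (mul_nonneg h1θ (h.rho0 X T)) (mul_nonneg h0θ (h'.rho0 X T))
  · intro u1 u2 v1 v2 k1 k2 k3
    have a1 := mul_le_mul_of_nonneg_left (h.rhoU u1 u2 v1 v2 k1 k2 k3) h1θ
    have a2 := mul_le_mul_of_nonneg_left (h'.rhoU u1 u2 v1 v2 k1 k2 k3) h0θ
    rw [e, e, e]
    linarith
  · intro P1 P2 R1 R2 u1 u2 v1 v2 k
    have a1 := mul_le_mul_of_nonneg_left (h.two P1 P2 R1 R2 u1 u2 v1 v2 k) h1θ
    have a2 := mul_le_mul_of_nonneg_left (h'.two P1 P2 R1 R2 u1 u2 v1 v2 k) h0θ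
    rw [e, e, e]
    linarith

/-! ### The area part -/

/-- The area part of the edge function. -/
noncomputable def Ar (H : ℝ) (p q : Pt) : ℝ := -((q.1 - p.1) * (p.2 + q.2 - H)) / (2 * h0)

theorem Ar_anti (H : ℝ) (p q : Pt) : Ar H q p = -Ar H p q := by
  unfold Ar
  ring

theorem Ar_mir (H : ℝ) (p q : Pt) : Ar H (mir H p) (mir H q) = Ar H q p := by
  unfold Ar mir
  simp only
  ring

theorem Ar_tri (H : ℝ) (p q r : Pt) : Ar H p q + Ar H q r + Ar H r p = cr p q r / (2 * h0) := by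
  unfold Ar cr
  ring

theorem Ar_wall {H w E : ℝ} (hw : w = 1 / 2 - E + H / (2 * h0)) (p q : Pt) :
    w * (q.1 - p.1) - 1 / 2 - Ar H p q =
      (q.1 - p.1) * (1 / 2 - E + (p.2 + q.2) / (2 * h0)) - 1 / 2 := by
  rw [hw]
  unfold Ar
  ring

/-- A pair at the floor is not steep. -/
theorem FF.two_x {a b : Pt} (h : FF a b) :
    (b.1 - a.1) ^ 2 + (b.2 - a.2) ^ 2 ≤ 2 * (b.1 - a.1) := by
  obtain ⟨m, e1, e2⟩ := h.circ
  have hx : 0 < b.1 - a.1 := sub_pos.2 h.lt
  have ha := h.p0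
  have hb := h.q0
  have u1 : -1 ≤ a.1 - m := by nlinarith [sq_nonneg (a.1 - m + 1), sq_nonneg a.2]
  have u2 : b.1 - m ≤ 1 := by nlinarith [sq_nonneg (b.1 - m - 1), sq_nonneg b.2]
  rcases le_total a.2 b.2 with h1 | h1
  · have e3 : (b.1 - a.1) ^ 2 + (b.2 - a.2) ^ 2 =
        -2 * (a.1 - m) * (b.1 - a.1) - 2 * (a.2 * (b.2 - a.2)) := by
      linear_combination -e1
    rw [e3]
    nlinarith [mul_nonneg ha (sub_nonneg.2 h1), mul_nonneg hx.le (by linarith : 0 ≤ a.1 - m + 1)]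
  · have e3 : (b.1 - a.1) ^ 2 + (b.2 - a.2) ^ 2 =
        2 * (b.1 - m) * (b.1 - a.1) - 2 * (b.2 * (a.2 - b.2)) := by
      linear_combination e1
    rw [e3]
    nlinarith [mul_nonneg hb (sub_nonneg.2 h1), mul_nonneg hx.le (by linarith : 0 ≤ 1 - (b.1 - m))]

/-- For a cell above a pair at the floor both other pairs are at the floor, or the third vertex is
outside of the circle around the centre on the floor. -/
theorem FF.out {p q r : Pt} (hff : FF p q) (hr : 0 ≤ r.2) (hc : Cel p q r) {m : ℝ}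
    (e1 : (p.1 - m) ^ 2 + p.2 ^ 2 = (q.1 - m) ^ 2 + q.2 ^ 2) :
    (FF p r ∧ FF r q) ∨ (p.1 - m) ^ 2 + p.2 ^ 2 ≤ (r.1 - m) ^ 2 + r.2 ^ 2 := by
  have hp := hff.p0
  have hq := hff.q0
  have hlt := hff.lt
  obtain ⟨o, R, hC⟩ := cel_center hc
  rcases le_or_gt 0 o.2 with ho | ho
  · right
    have c1 := hC.po
    have c2 := hC.qo
    have c3 := hC.ro
    have hx : 0 < q.1 - p.1 := sub_pos.2 hlt
    unfold ds at c1 c2 c3
    have f1 : (q.1 - p.1) * (o.1 - m) + (q.2 - p.2) * o.2 = 0 := by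
      have h1 : 2 * ((q.1 - p.1) * (o.1 - m) + (q.2 - p.2) * o.2) =
          ((q.1 - m) ^ 2 + q.2 ^ 2) - ((p.1 - m) ^ 2 + p.2 ^ 2) -
            (((o.1 - q.1) ^ 2 + (o.2 - q.2) ^ 2) - ((o.1 - p.1) ^ 2 + (o.2 - p.2) ^ 2)) := by
        ring
      rw [c1, c2, e1] at h1
      linarith
    have f2 : (q.1 - p.1) * ((r.1 - m) ^ 2 + r.2 ^ 2 - ((p.1 - m) ^ 2 + p.2 ^ 2)) =
        2 * (o.2 * cr p q r) := by
      have h1 : (r.1 - m) ^ 2 + r.2 ^ 2 - ((p.1 - m) ^ 2 + p.2 ^ 2) =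
          2 * ((r.1 - p.1) * (o.1 - m) + (r.2 - p.2) * o.2) +
            (((o.1 - r.1) ^ 2 + (o.2 - r.2) ^ 2) - ((o.1 - p.1) ^ 2 + (o.2 - p.2) ^ 2)) := by
        ring
      rw [h1, c1, c3, sub_self, add_zero]
      unfold cr
      linear_combination (2 * (r.1 - p.1)) * f1
    have f3 : 0 ≤ (q.1 - p.1) * ((r.1 - m) ^ 2 + r.2 ^ 2 - ((p.1 - m) ^ 2 + p.2 ^ 2)) := by
      rw [f2]
      have := mul_nonneg ho hc.cr0
      linarith
    have := nonneg_of_mul_nonneg_right f3 hx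
    linarith
  · left
    have d1 : 1 ≤ ds r q := by rw [ds_comm]; exact hC.qr
    rcases le_or_gt r.1 q.1 with c1 | c1
    · rcases le_or_gt p.1 r.1 with c2 | c2
      · have l2 : p.1 < r.1 := lt_of_le_of_ne c2 (low_x_ne hp hr hC.pr hC.po hC.ro ho)
        have l3 : r.1 < q.1 := lt_of_le_of_ne c1 (low_x_ne hr hq d1 hC.ro hC.qo ho)
        exact ⟨low_FF hp hr hC.pr hC.po hC.ro hC.R1 ho l2,
          low_FF hr hq d1 hC.ro hC.qo hC.R1 ho l3⟩
      · exfalso
        have hrp : 1 ≤ ds r p := by rw [ds_comm]; exact hC.pr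
        have hrq : 1 ≤ ds r q := by rw [ds_comm]; exact hC.qr
        exact low_upper hp hrp hC.pq hrq hr hq hC.ro hC.qo hC.po ho c2.le hlt.le
          hC.rot.rot.cr
    · exfalso
      exact low_upper hq hC.pq hC.qr hC.pr hp hr hC.po hC.ro hC.qo ho hlt.le c1.le hC.cr

/-! ### The edge function -/

/-- The hypotheses for the edge function `F` of the strip: on the short edges it differs from the
area part by at most the cost, on the long ones it is the area part. -/
structure CostH (H w : ℝ) (c u rho : ℝ → ℝ → ℝ) (E : ℝ) (F : Pt → Pt → ℝ) : Prop where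
  height : 2 < H
  anti : ∀ a b, F b a = -F a b
  mirror : ∀ a b, F (mir H a) (mir H b) = F b a
  weight : w = 1 / 2 - E + H / (2 * h0)
  ok : CostOK c u rho E
  cost : ∀ a b, In H a → In H b → 1 ≤ ds a b → ds a b ≤ 3 →
    |F a b - Ar H a b| ≤ av c (b.1 - a.1) (b.2 - a.2)
  costU : ∀ a b, In H a → In H b → ds a b = 1 →
    |F a b - Ar H a b| ≤ av u (b.1 - a.1) (b.2 - a.2)
  far : ∀ a b, 3 < ds a b → F a b = Ar H a b
  rows : ∀ p q r, In H p → In H q → In H r → Cel p q r → ds p q ≤ 3 → ds q r ≤ 3 →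
    ds p r ≤ 3 → 1 / 2 ≤ F p q + F q r + F r p + corr w F p q r

section

variable {H w E : ℝ} {c u rho : ℝ → ℝ → ℝ} {F : Pt → Pt → ℝ}

/-- The value of a pair at the floor. -/
theorem wall_ge {K : ℝ} (hw : w = 1 / 2 - E + H / (2 * h0)) {a b : Pt} (h : FF a b)
    (hK : 0 ≤ (b.1 - a.1) * (1 / 2 - E + |b.2 - a.2| / (2 * h0)) - 1 / 2 + K) :
    Ar H a b - K ≤ w * (b.1 - a.1) - 1 / 2 := by
  have hh := h0_pos
  have hx : 0 < b.1 - a.1 := sub_pos.2 h.lt
  have e := Ar_wall hw a b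
  have h1 : |b.2 - a.2| / (2 * h0) ≤ (a.2 + b.2) / (2 * h0) := by
    refine div_le_div_of_nonneg_right ?_ (by linarith)
    rw [abs_le]
    constructor <;> linarith [h.p0, h.q0]
  have h2 := mul_le_mul_of_nonneg_left h1 hx.le
  linarith

/-- The value of a pair changed at the walls. -/
theorem star_cost {K : ℝ} (hanti : ∀ a b, F b a = -F a b) {a b : Pt}
    (hF : |F a b - Ar H a b| ≤ K)
    (h1 : FF a b → Ar H a b - K ≤ w * (b.1 - a.1) - 1 / 2)
    (h2 : FF (mir H b) (mir H a) → Ar H a b - K ≤ w * (a.1 - b.1) - 1 / 2) :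
    Ar H a b - K ≤ star H w F a b := by
  have e := hanti a b
  rw [abs_le] at hF
  unfold star
  split_ifs with c1 c2 c3 c4
  · exact le_min (by linarith) (h1 c1)
  · have := min_le_left (F b a) (w * (a.1 - b.1) - 1 / 2)
    linarith
  · exact le_min (by linarith) (h2 c3)
  · have := min_le_left (F b a) (w * (b.1 - a.1) - 1 / 2)
    linarith
  · linarith

theorem CostH.short (h : CostH H w c u rho E F) {a b : Pt} (ha : In H a) (hb : In H b)
    (k1 : 1 ≤ ds a b) (k3 : ds a b ≤ 3) :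
    Ar H a b - av c (b.1 - a.1) (b.2 - a.2) ≤ Gst H w F a b := by
  rw [Gst_short k3]
  refine star_cost h.anti (h.cost a b ha hb k1 k3) (fun hf => ?_) (fun hf => ?_)
  · refine wall_ge h.weight hf ?_
    have hx : 0 < b.1 - a.1 := sub_pos.2 hf.lt
    have e : av c (b.1 - a.1) (b.2 - a.2) = c (b.1 - a.1) |b.2 - a.2| := by
      unfold av
      rw [abs_of_pos hx]
    rw [e]
    rw [ds_xz] at k1 k3
    have := hf.two_x
    exact h.ok.short _ _ hx.le (abs_nonneg _) (by rwa [sq_abs]) (by rwa [sq_abs])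
      (by rwa [sq_abs])
  · have hx : 0 < a.1 - b.1 := sub_pos.2 hf.lt
    have e0 : ds (mir H b) (mir H a) = ds a b := by rw [ds_mir, ds_comm]
    rw [← e0, ds_xz] at k1 k3
    have e1 : (mir H a).1 - (mir H b).1 = a.1 - b.1 := rfl
    have e2 : (mir H a).2 - (mir H b).2 = b.2 - a.2 := by
      unfold mir
      ring
    have := wall_ge h.weight hf (K := av c (b.1 - a.1) (b.2 - a.2)) (by
      have e : av c (b.1 - a.1) (b.2 - a.2) = c (a.1 - b.1) |b.2 - a.2| := by
        unfold av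
        rw [abs_sub_comm, abs_of_pos hx]
      rw [e, e1, e2]
      have h2 := hf.two_x
      rw [e1, e2] at k1 k3 h2
      exact h.ok.short _ _ hx.le (abs_nonneg _) (by rwa [sq_abs]) (by rwa [sq_abs])
        (by rwa [sq_abs]))
    rwa [e1, Ar_mir] at this

theorem CostH.shortU (h : CostH H w c u rho E F) {a b : Pt} (ha : In H a) (hb : In H b)
    (k1 : ds a b = 1) : Ar H a b - av u (b.1 - a.1) (b.2 - a.2) ≤ Gst H w F a b := by
  rw [Gst_short (by rw [k1]; norm_num)]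
  refine star_cost h.anti (h.costU a b ha hb k1) (fun hf => ?_) (fun hf => ?_)
  · refine wall_ge h.weight hf ?_
    have hx : 0 < b.1 - a.1 := sub_pos.2 hf.lt
    have e : av u (b.1 - a.1) (b.2 - a.2) = u (b.1 - a.1) |b.2 - a.2| := by
      unfold av
      rw [abs_of_pos hx]
    rw [e]
    rw [ds_xz] at k1
    have := hf.two_x
    exact h.ok.shortU _ _ hx.le (abs_nonneg _) (by rwa [sq_abs]) (by rwa [sq_abs])
  · have hx : 0 < a.1 - b.1 := sub_pos.2 hf.lt
    have e0 : ds (mir H b) (mir H a) = ds a b := by rw [ds_mir, ds_comm]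
    rw [← e0, ds_xz] at k1
    have e1 : (mir H a).1 - (mir H b).1 = a.1 - b.1 := rfl
    have e2 : (mir H a).2 - (mir H b).2 = b.2 - a.2 := by
      unfold mir
      ring
    have := wall_ge h.weight hf (K := av u (b.1 - a.1) (b.2 - a.2)) (by
      have e : av u (b.1 - a.1) (b.2 - a.2) = u (a.1 - b.1) |b.2 - a.2| := by
        unfold av
        rw [abs_sub_comm, abs_of_pos hx]
      rw [e, e1, e2]
      have h2 := hf.two_x
      rw [e1, e2] at k1 h2
      exact h.ok.shortU _ _ hx.le (abs_nonneg _) (by rwa [sq_abs]) (by rwa [sq_abs]))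
    rwa [e1, Ar_mir] at this

/-- The value of a long pair with the strip on its left. -/
theorem CostH.long (h : CostH H w c u rho E F) {a b : Pt} (k3 : 3 < ds a b)
    (hw : Wp H a b → Wf H a b) : Ar H a b ≤ Gst H w F a b := by
  rw [Gst_long k3]
  by_cases hW : Wp H a b
  · rcases hw hW with hf | hf
    · have hx : 0 < b.1 - a.1 := sub_pos.2 hf.lt
      rw [ds_xz] at k3
      have h2 := hf.two_x
      have := wall_ge h.weight hf (K := 0) (by
        rw [add_zero]
        exact h.ok.shortL _ _ hx.le (abs_nonneg _) (by rw [sq_abs]; linarith)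
          (by rwa [sq_abs]))
      unfold lg
      rw [if_pos hf]
      linarith
    · have hx : 0 < a.1 - b.1 := sub_pos.2 hf.lt
      have e0 : ds (mir H b) (mir H a) = ds a b := by rw [ds_mir, ds_comm]
      rw [← e0, ds_xz] at k3
      have e1 : (mir H a).1 - (mir H b).1 = a.1 - b.1 := rfl
      have h2 := hf.two_x
      have := wall_ge h.weight hf (K := 0) (by
        rw [add_zero]
        exact h.ok.shortL _ _ (by rw [e1]; exact hx.le) (abs_nonneg _)
          (by rw [sq_abs]; linarith) (by rwa [sq_abs]))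
      rw [e1, Ar_mir] at this
      have n1 : ¬FF a b := fun h' => h'.no_top h.height hf (by tauto)
      have n2 : ¬FF b a := fun h' => h'.no_top h.height hf (by tauto)
      unfold lg
      rw [if_neg n1, if_neg n2, if_pos hf]
      linarith
  · rw [lg_free hW, h.far a b k3]

/-- The value of a long side of a cell with two long sides, the path through the apex on the left
of it. -/
theorem CostH.ev_ge (h : CostH H w c u rho E F) {a b : Pt} (ha : In H a) (hb : In H b)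
    (k3 : 3 < ds a b) (k4 : ds a b ≤ 4) (hw : Wp H a b → Wf H a b) :
    Ar H a b - av rho (b.1 - a.1) (b.2 - a.2) ≤ ev H (Gst H w F) a b := by
  have hG := Gst_anti (H := H) (w := w) h.anti
  have hr0 := h.ok.rho0 |b.1 - a.1| |b.2 - a.2|
  change 0 ≤ av rho (b.1 - a.1) (b.2 - a.2) at hr0
  refine Pool.Agent.Strip051.LC.ev_ge hG ha hb k3 k4 ?_ ?_
  · have := h.long k3 hw
    linarith
  · intro hW
    obtain ⟨b1, b2⟩ := ap_ds (p := b) (q := a) (by rw [ds_comm]; linarith)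
      (by rw [ds_comm]; exact k4)
    have hI : In H (ap b a) := ap_in hb ha b1 b2 (by rw [ds_comm]; exact k3)
      (fun h' => hW h'.symm)
    have e1 := h.shortU ha hI b2
    have e2 := h.shortU hI hb (by rw [ds_comm]; exact b1)
    have e3 := Ar_tri H a (ap b a) b
    have e4 := Ar_anti H a b
    have k := h.ok.rhoU ((ap b a).1 - a.1) ((ap b a).2 - a.2) (b.1 - (ap b a).1)
      (b.2 - (ap b a).2) (by rw [← ds_xz]; exact b2)
      (by rw [← ds_xz, ds_comm]; exact b1) (by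
        rw [show (ap b a).1 - a.1 + (b.1 - (ap b a).1) = b.1 - a.1 by ring,
          show (ap b a).2 - a.2 + (b.2 - (ap b a).2) = b.2 - a.2 by ring, ← ds_xz]
        exact k3.le)
    rw [show (ap b a).1 - a.1 + (b.1 - (ap b a).1) = b.1 - a.1 by ring,
      show (ap b a).2 - a.2 + (b.2 - (ap b a).2) = b.2 - a.2 by ring] at k
    have hcr : cr a (ap b a) b = ((ap b a).1 - a.1) * (b.2 - (ap b a).2) -
        ((ap b a).2 - a.2) * (b.1 - (ap b a).1) := by
      unfold cr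
      ring
    rw [← hcr] at k
    have hh := h0_pos
    have e5 : -(|cr a (ap b a) b| / (2 * h0)) ≤ cr a (ap b a) b / (2 * h0) := by
      rw [← neg_div]
      exact div_le_div_of_nonneg_right (neg_abs_le _) (by linarith)
    linarith

/-- **The certificate for the strip.** -/
theorem CostH.ext (h : CostH H w c u rho E F) : ExtLong H w (Gst H w F) := by
  have hh := h0_pos
  have hG := Gst_anti (H := H) (w := w) h.anti
  have row : ∀ p q r, In H p → In H q → In H r → Cel p q r → ds p q ≤ 3 → ds q r ≤ 3 →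
      ds p r ≤ 3 → 1 / 2 ≤ star H w F p q + star H w F q r + star H w F r p := by
    intro p q r hp hq hr hc k1 k2 k3
    refine star_tri h.height h.anti h.mirror (h.rows p q r hp hq hr hc k1 k2 k3) ?_
    exact h.rows _ _ _ hr.mir hq.mir hp.mir (cel_mir3 hc) (by rw [ds_mir, ds_comm]; exact k2)
      (by rw [ds_mir, ds_comm]; exact k1) (by rw [ds_mir, ds_comm]; exact k3)
  have wall : ∀ p q, FF p q → ds p q ≤ 3 → Gst H w F p q ≤ w * (q.1 - p.1) - 1 / 2 := by
    intro p q hf k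
    rw [Gst_short k]
    unfold star
    rw [if_pos hf]
    exact min_le_right _ _
  refine ⟨hG, Gst_mirror h.height h.mirror, ?_, fun p q _ _ => wall p q, ?_, ?_, ?_, ?_, ?_⟩
  · intro p q r hp hq hr hc k1 k2 k3
    rw [Gst_short k1, Gst_short k2, Gst_short (by rw [ds_comm]; exact k3)]
    exact row p q r hp hq hr hc k1 k2 k3
  · intro p q hp hq hf k
    rw [Gst_long k]
    unfold lg
    rw [if_pos hf]
  · intro p q r hp hq hr hf hc k1 k2 k3
    obtain ⟨m, e1, e2⟩ := hf.circ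
    have a1 := hG r q
    have a2 := hG p r
    have rq3 : ds r q ≤ 3 := by rwa [ds_comm]
    have rq1 : 1 ≤ ds r q := by rw [ds_comm]; exact hc.qr
    rcases hf.out hr.1 hc e1 with ⟨f1, f2⟩ | hout
    · have w1 := wall p r f1 k3
      have w2 := wall r q f2 rq3
      linarith
    · have s1 := h.short hr hp (by rw [ds_comm]; exact hc.pr) (by rw [ds_comm]; exact k3)
      have s2 := h.short hq hr hc.qr k2
      have r1 := Ar_anti H p r
      have r2 := Ar_anti H r q
      have x1 := Ar_wall h.weight p r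
      have x2 := Ar_wall h.weight r q
      have hx : 0 < q.1 - p.1 := sub_pos.2 hf.lt
      have k := h.ok.above (m - p.1) (q.1 - m) p.2 q.2 (r.1 - m) r.2 hf.p0 hf.q0 hr.1
        (by linarith) (by linarith) (by linarith)
        (by rw [ds_xz] at k1; linarith) (by linarith)
        (by have := hc.pr; rw [ds_xz] at this; linarith)
        (by rw [ds_xz] at k3; linarith)
        (by rw [ds_xz] at rq1; linarith)
        (by rw [ds_xz] at rq3; linarith)
        (by have := hc.cr0; unfold cr at this; linarith)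
        (by
          have := hc.four_cr
          rw [ds_xz] at this
          have e : (m - p.1 + (q.1 - m)) * (r.2 - p.2) - (q.2 - p.2) * (r.1 - m + (m - p.1)) =
            cr p q r := by
            unfold cr
            ring
          rw [e]
          linarith)
      have v1 : av c (p.1 - r.1) (p.2 - r.2) = av c (r.1 - m + (m - p.1)) (r.2 - p.2) := by
        rw [← av_neg]
        congr 1 <;> ring
      have v2 : av c (r.1 - q.1) (r.2 - q.2) = av c (q.1 - m - (r.1 - m)) (q.2 - r.2) := by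
        rw [← av_neg]
        congr 1 <;> ring
      have z1 : r.1 - m + (m - p.1) = r.1 - p.1 := by ring
      have z2 : q.1 - m - (r.1 - m) = q.1 - r.1 := by ring
      rw [v1] at s1
      rw [v2] at s2
      rw [z1, z2] at k
      rw [z1] at s1
      rw [z2] at s2
      linarith
  · intro p q r hp hq hr hw hc k1 k2 k3 k4
    have k3' : ds r p ≤ 3 := by rwa [ds_comm]
    have hcr := tall_cr hc k1 k2 k3 k4
    have s1 := h.long k1 (fun h' => absurd h' hw)
    have s2 := h.short hq hr hc.qr k2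
    have s3 := h.short hr hp (by rw [ds_comm]; exact hc.pr) k3'
    have e := Ar_tri H p q r
    have t : ∀ a b : Pt, 1 ≤ ds a b → ds a b ≤ 3 → av c (b.1 - a.1) (b.2 - a.2) ≤ 1 / 3 := by
      intro a b h1 h3
      rw [ds_xz] at h1 h3
      exact h.ok.tall _ _ (abs_nonneg _) (abs_nonneg _) (by rwa [sq_abs, sq_abs])
        (by rwa [sq_abs, sq_abs])
    have t2 := t q r hc.qr k2
    have t3 := t r p (by rw [ds_comm]; exact hc.pr) k3'
    have e2 : 7 / 6 ≤ cr p q r / (2 * h0) := by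
      rw [le_div_iff₀ (by linarith)]
      have h2 : h0 ≤ 87 / 100 := by
        have := h0_sq
        nlinarith
      linarith
    linarith
  · intro p q r r' hp hq hr hr' hw h1 h2 k1 k2 k3 k4 k5 k6
    obtain ⟨A1, A2, B1, B2, d1, d2, hQ, g1, g2, g3, g4, g5, g6, g7, g8, -, g9⟩ :=
      quadV_of h1 h2 k1 k2 k3 k4 k5 k6
    have s1 := h.short hp hr' h2.qr k5
    have s2 := h.short hr' hq (by rw [ds_comm]; exact h2.pr) (by rw [ds_comm]; exact k4)
    have s3 := h.short hq hr h1.qr k2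
    have s4 := h.short hr hp (by rw [ds_comm]; exact h1.pr) (by rw [ds_comm]; exact k3)
    have k := h.ok.quad A1 A2 B1 B2 d1 d2 hQ
    rw [g1, g2] at s1
    rw [g3, g4] at s2
    rw [g5, g6] at s3
    rw [g7, g8] at s4
    have v3 : av c (d1 - A1) (d2 - A2) = av c (A1 - d1) (A2 - d2) := by
      rw [← av_neg]
      congr 1 <;> ring
    have v4 : av c (-B1 - d1) (-B2 - d2) = av c (B1 + d1) (B2 + d2) := by
      rw [← av_neg]
      congr 1 <;> ring
    rw [v3] at s3
    rw [v4] at s4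
    have e1 := Ar_tri H p r' q
    have e2 := Ar_tri H p q r
    have e3 := Ar_anti H p q
    have e4 : cr p r' q / (2 * h0) + cr p q r / (2 * h0) =
        2 * (A1 * B2 - A2 * B1) / (2 * h0) := by
      rw [← add_div, g9]
    linarith
  · intro p q r hp hq hr hc k1 k2 k3 w1 w2
    have k3' : 3 < ds r p := by rwa [ds_comm]
    have l1 := hc.le_four
    have l2 := hc.rot.rot.le_four
    have s0 := h.short hq hr hc.qr k2
    have s1 := h.ev_ge hp hq k1 l1 w1
    have s2 := h.ev_ge hr hp k3' l2 w2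
    have k := h.ok.two _ _ _ _ _ _ _ _ (hc.twoV k1 k2 k3)
    have v1 : av rho (p.1 - r.1) (p.2 - r.2) = av rho (r.1 - p.1) (r.2 - p.2) := by
      rw [← av_neg]
      congr 1 <;> ring
    rw [show r.1 - p.1 - (q.1 - p.1) = r.1 - q.1 by ring,
      show r.2 - p.2 - (q.2 - p.2) = r.2 - q.2 by ring] at k
    rw [v1] at s2
    have e := Ar_tri H p q r
    have e2 : ((q.1 - p.1) * (r.2 - p.2) - (q.2 - p.2) * (r.1 - p.1)) / (2 * h0) =
        cr p q r / (2 * h0) := rfl
    linarith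

end

end Pool.Agent.Strip051.LC
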