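import Pool.Agent.Strip051.LC.Exact.Final
import Pool.Agent.Strip051.LC.NoAcute

/-! # The exact weight for one rest: the bulk part of the certificate

`FixBulk` contains everything except the inequalities at the floor.  By `NoAcute` the far vertex
needs only the small triangles and the reversed rhombus inequality. -/

namespace Pool.Agent.Strip051.LC

open Pool.Agent.StripNear Pool.Agent.StripSquare Pool.Agent.Strip051.Sweep
open Pool.Agent.StripTwo (rowNumber molnar rowNumber_eq)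
open Pool.Agent.Strip051.LC.Line (NG AvC)

/-- The small triangles: the part of the certificate for the rest `s` and all strips with at least
`N0 + 1` full rows which does not contain the cells with a long side at the near vertex. -/
structure FixTri (T : Tab) (Nd : ℝ → ℝ → Prop) (N0 : ℕ) (κ s : ℝ) : Prop where
  κ0 : 0 ≤ κ
  s0 : 0 ≤ s
  s1 : s < h0
  ok : T.Ok
  even : ∀ X t, Nd X t → Nd (-X) t
  pieces : T.Pieces Nd
  far : Fams Nd (fun X12 X13 t t' =>
    NG κ s (exn X12 X13 t t' + T.farX X12 X13 t t') T.A X12 X13 t t')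
  near : Fams Nd (fun X12 X13 t t' =>
    NG κ s (exn X12 X13 t t' + T.nearX N0 s X12 X13 t t') T.B X12 X13 t t')
  rhomb : Rhomb (Qc κ s T.A)

/-- The bulk part of the certificate. -/
structure FixBulk (T : Tab) (Nd : ℝ → ℝ → Prop) (N0 : ℕ) (κ s : ℝ) : Prop
    extends FixTri T Nd N0 κ s where
  /-- the cells with a long side at the near vertex; `p q` is the longest side -/
  long : ∀ p q r : Pt, Cel p q r → 3 < ds p q → ds q r ≤ ds p q → ds p r ≤ ds p q →
    NearTr (T.full N0 κ s) N0 s p q r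

section

variable {T : Tab} {Nd : ℝ → ℝ → Prop} {N0 : ℕ} {κ s : ℝ}

/-- A rotation invariant property of cells from the one for the longest side. -/
theorem cel_longest {P : Pt → Pt → Pt → Prop} (rot : ∀ p q r, P q r p → P p q r)
    (tri : ∀ p q r, 0 ≤ cr p q r → 1 ≤ ds p q → 1 ≤ ds q r → 1 ≤ ds p r →
      ds p q ≤ 3 → ds q r ≤ 3 → ds p r ≤ 3 → P p q r)
    (long : ∀ p q r, Cel p q r → 3 < ds p q → ds q r ≤ ds p q → ds p r ≤ ds p q → P p q r)
    {p q r : Pt} (h : Cel p q r) : P p q r := by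
  have key : ∀ p q r : Pt, Cel p q r → ds q r ≤ ds p q → ds p r ≤ ds p q → P p q r := by
    intro p q r h k1 k2
    rcases le_or_gt (ds p q) 3 with c | c
    · exact tri p q r h.cr0 h.pq h.qr h.pr c (by linarith) (by linarith)
    · exact long p q r h c k1 k2
  rcases le_total (ds q r) (ds p q) with a | a
  · rcases le_total (ds p r) (ds p q) with b | b
    · exact key p q r h a b
    · exact rot _ _ _ (rot _ _ _ (key r p q h.rot.rot (by rw [ds_comm r p]; exact b)
        (by rw [ds_comm r q, ds_comm r p]; linarith)))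
  · rcases le_total (ds p r) (ds q r) with b | b
    · exact rot _ _ _ (key q r p h.rot (by rw [ds_comm r p]; exact b)
        (by rw [ds_comm q p]; exact a))
    · exact rot _ _ _ (rot _ _ _ (key r p q h.rot.rot (by rw [ds_comm r p]; linarith)
        (by rw [ds_comm r q, ds_comm r p]; exact b)))

/-- The reversed isosceles inequality at the far vertex. -/
theorem half_far (hκ : 0 ≤ κ) (hs0 : 0 ≤ s) (hs1 : s < h0) (hT : T.Ok)
    (hR : Rhomb (Qc κ s T.A)) {p q b : Pt} (h1 : ds p b = 1) (h2 : ds q b = 1)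
    (h3 : 3 < ds p q) (h4 : ds p q ≤ 4) (h5 : 0 ≤ cr q p b) :
    cr q p b / (2 * h0) + fl ((T.full N0 κ s).Q 0 (-(1 / 2))) q p b ≤ 1 / 2 := by
  have hU : ∀ X y z, (T.data N0 κ s).Q 0 (-(1 / 2)) (-X) z y =
      -(T.data N0 κ s).Q 0 (-(1 / 2)) X y z := fun X y z =>
    (hT.data hκ hs0 hs1).anti 0 (-(1 / 2)) X y z
  refine half_of_rhomb (U := (T.data N0 κ s).Q 0 (-(1 / 2))) hU (rhomb_far hR) h1 h2 h3 h4 h5
    ?_ ?_ ?_
  · exact Tab.ed_long (by rwa [ds_comm]) (by rwa [ds_comm])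
  · exact Tab.ed_short (by rw [h1]; norm_num)
  · exact Tab.ed_short (by rw [ds_comm, h2]; norm_num)

/-- The small triangles at the far vertex. -/
theorem FixTri.triF (h : FixTri T Nd N0 κ s) (p q r : Pt) (h0 : 0 ≤ cr p q r)
    (h1 : 1 ≤ ds p q) (h2 : 1 ≤ ds q r) (h3 : 1 ≤ ds p r) (h4 : ds p q ≤ 3) (h5 : ds q r ≤ 3)
    (h6 : ds p r ≤ 3) : (T.full N0 κ s).Tr 0 (-(1 / 2)) p q r :=
  (Data.glue_Tr h4 h5 h6).2
    (far_tri h.κ0 h.s0 h.s1 h.ok h.even h.pieces h.far p q r h0 h1 h2 h3 h4 h5 h6)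

/-- The small triangles at the near vertex. -/
theorem FixTri.triN (h : FixTri T Nd N0 κ s) (p q r : Pt) (h0 : 0 ≤ cr p q r)
    (h1 : 1 ≤ ds p q) (h2 : 1 ≤ ds q r) (h3 : 1 ≤ ds p r) (h4 : ds p q ≤ 3) (h5 : ds q r ≤ 3)
    (h6 : ds p r ≤ 3) : NearTr (T.full N0 κ s) N0 s p q r := by
  have hg : 0 < g s := by linarith [g_gt_half h.s0 h.s1]
  have hN0 : (0 : ℝ) ≤ N0 := Nat.cast_nonneg N0
  have hm : mu N0 s ≠ 0 := by
    unfold mu
    positivity
  exact (Data.glue_Tr h4 h5 h6).2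
    (near_tri h.κ0 h.s0 h.s1 hm h.ok h.even h.pieces h.near p q r h0 h1 h2 h3 h4 h5 h6)

/-- Every cell is good at the far vertex. -/
theorem FixTri.cellF (h : FixTri T Nd N0 κ s) {p q r : Pt} (hc : Cel p q r) :
    (T.full N0 κ s).Tr 0 (-(1 / 2)) p q r :=
  cel_good (fun X y z => (h.ok.full h.κ0 h.s0 h.s1).anti 0 (-(1 / 2)) X y z)
    (fun p q r h0 h1 h2 h3 h4 h5 h6 => h.triF p q r h0 h1 h2 h3 h4 h5 h6)
    (fun _ _ _ h1 h2 h3 h4 h5 => half_far h.κ0 h.s0 h.s1 h.ok h.rhomb h1 h2 h3 h4 h5) hc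

/-- Every cell is good at the near vertex. -/
theorem FixBulk.cellN (h : FixBulk T Nd N0 κ s) {p q r : Pt} (hc : Cel p q r) :
    NearTr (T.full N0 κ s) N0 s p q r :=
  cel_longest (P := NearTr (T.full N0 κ s) N0 s) (fun _ _ _ h => h.rot)
    (fun p q r h0 h1 h2 h3 h4 h5 h6 => h.triN p q r h0 h1 h2 h3 h4 h5 h6) h.long hc

theorem Cell.cel {p q r o : Pt} {R : ℝ} (h : Cell p q r o R) : Cel p q r :=
  Cel.of_center h.cr h.pq h.qr h.pr h.po h.qo h.ro h.R1

theorem FixBulk.free (h : FixBulk T Nd N0 κ s) : Free (T.full N0 κ s) N0 s := by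
  refine ⟨fun p q r o R hc _ _ => h.cellF hc.cel, fun p q r o R hc hpq hpr => ?_⟩
  have := h.cellN hc.cel
  unfold NearTr at this
  have e : lowest p.2 q.2 r.2 = p.2 := by
    unfold lowest
    exact min_eq_left (le_min hpq hpr)
  rw [e] at this
  exact this

theorem FixTri.okD (h : FixTri T Nd N0 κ s) : (T.full N0 κ s).Ok :=
  h.ok.full (N0 := N0) h.κ0 h.s0 h.s1

/-- The bulk of the strip. -/
theorem FixBulk.triStrip (h : FixBulk T Nd N0 κ s) {n : ℕ} (hn : N0 ≤ n) :
    TriStrip (T.full N0 κ s) n s :=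
  h.free.triStrip h.okD hn (by linarith [g_gt_half h.s0 h.s1])

/-- **The exact count** from the bulk and the inequalities at the floor. -/
theorem FixBulk.countBound (h : FixBulk T Nd N0 κ s) (hF : FloorAt (T.full N0 κ s) s 0)
    (hN : FloorAt (T.full N0 κ s) s (mu N0 s)) {n : ℕ} (hn : N0 ≤ n) : CountBound n s :=
  countBound_of_tri h.okD h.s0 h.s1 hF hN hn (h.triStrip hn)

end

/-! ### From the count to the density -/

/-- The exact density for one strip, from the exact count. -/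
theorem density_of_countBound {n : ℕ} {s : ℝ} (hs0 : 0 ≤ s) (hs1 : s < h0)
    (h : CountBound n s) {C : Set E2}
    (hC : IsStripPacking (2 + n * Real.sqrt 3 + 2 * s) C) {O : E2} {d : ℝ}
    (hd : HasDensity (2 + n * Real.sqrt 3 + 2 * s) C O d) :
    d ≤ molnar (2 + n * Real.sqrt 3 + 2 * s) := by
  have h3 : 0 < Real.sqrt 3 := Real.sqrt_pos.2 (by norm_num)
  unfold h0 at hs1
  have hw : 2 ≤ 2 + n * Real.sqrt 3 + 2 * s := by
    have : 0 ≤ (n : ℝ) * Real.sqrt 3 := by positivity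
    linarith
  have hr : rowNumber (2 + n * Real.sqrt 3 + 2 * s) = n := rowNumber_eq (by linarith) (by
    have : ((n : ℝ) + 1) * Real.sqrt 3 = n * Real.sqrt 3 + Real.sqrt 3 := by ring
    rw [this]
    linarith)
  have hrest : rest (2 + n * Real.sqrt 3 + 2 * s) = s := by
    unfold rest
    rw [hr]
    ring
  apply le_molnar_of_count hw _ hC hd
  rw [hr, hrest]
  exact h

/-- The exact density for all widths whose rest lies in a set of rests with the exact count. -/
theorem le_molnar_of_counts {N0 : ℕ} {I : Set ℝ}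
    (h : ∀ s, s ∈ I → 0 ≤ s → s < h0 → ∀ n : ℕ, N0 ≤ n → CountBound n s) {w : ℝ} (hw : 2 ≤ w)
    (hN : N0 ≤ rowNumber w) (hr : rest w ∈ I) {C : Set E2} (hC : IsStripPacking w C) {O : E2}
    {d : ℝ} (hd : HasDensity w C O d) : d ≤ molnar w := by
  obtain ⟨r0, r1, -⟩ := rest_spec hw
  exact le_molnar_of_count hw (h _ hr r0 r1 _ hN) hC hd

end Pool.Agent.Strip051.LC
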