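import Pool.Agent.Strip051.LC.Exact.Dir

/-! # One modulus inequality for both vertices

At the near vertex the flux is `E` times the flux of the kernel `A` and the third kernel `C` with a
density whose integrals are bounded by `o`.  `bothV` is one modulus inequality which gives the
direct statements at both vertices; `tnt` is the density with two tents. -/

namespace Pool.Agent.Strip051.LC

open Pool.Agent.StripNear Pool.Agent.StripSquare Pool.Agent.Strip051.Sweep
open Pool.Agent.Strip051.LC.Line (D mn tau D_refl D_add)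

/-! ### The kernel is linear in the values -/

theorem itp_smul {ι : Type*} (E : ℝ) (v : ι → ℝ) : ∀ (L : List (ℝ × ι)) (u : ℝ),
    itp (fun i => E * v i) L u = E * itp v L u
  | [], _ => by simp [itp]
  | [p], _ => by simp [itp]
  | p :: q :: L, u => by
    unfold itp
    split_ifs
    · ring
    · exact itp_smul E v (q :: L) u

theorem itpH_smul {ι : Type*} (E : ℝ) (v : ι → ℝ) (t : ℝ) (L : List (ℝ × ι)) (u : ℝ) :
    itpH (fun i => E * v i) 0 t L u = E * itpH v 0 t L u := by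
  unfold itpH
  split_ifs
  · ring
  · cases L with
    | nil => simp
    | cons p L =>
      simp only
      split_ifs
      · ring
      · exact itp_smul E v (p :: L) u

theorem ker_smul {ι : Type*} {nodes : ℝ → List (ℝ × ι)} (E : ℝ) (v : ℝ → ι → ℝ) (X T : ℝ) :
    ker nodes (fun T i => E * v T i) (fun _ _ => 0) X T =
      E * ker nodes v (fun _ _ => 0) X T := by
  unfold ker itpO
  split_ifs
  · rw [itpH_smul]
    ring
  · rw [itpH_smul]

theorem kf_smul (κ s E : ℝ) (r : ℝ × ℝ × ℝ) (t t' y : ℝ) :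
    kf κ s (E * r.1, E * r.2.1, E * r.2.2) t t' y = E * kf κ s r t t' y := by
  unfold kf
  simp only
  ring

/-! ### Weaker properties -/

namespace Cur

variable {n : ℕ} {ι : Type} {K : Cur n ι}
  {V V' : ℝ → ℝ → ℝ → ℝ → ((ℝ → ι → ℝ) → ℝ × ℝ × ℝ) → Prop} {j k : Fin (n + 1)}

theorem AllA.imp (h : K.AllA V j k) (hV : ∀ X12 X13 t t' w, 0 ≤ t → 0 ≤ t' →
    (t + t') ^ 2 ≤ 3 → V X12 X13 t t' w → V' X12 X13 t t' w) : K.AllA V' j k := by
  have key : ∀ σ σ' ε, K.ExA V j k σ σ' ε → K.ExA V' j k σ σ' ε := by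
    intro σ σ' ε h i t t' hy
    refine hV _ _ _ _ _ hy.1 hy.2.1 ?_ (h i t t' hy)
    have := hy.2.2.2.2.2.2.1
    nlinarith [sq_nonneg (σ * K.cv j t + σ' * K.cv k t')]
  exact ⟨key _ _ _ h.ppp, key _ _ _ h.pmp, key _ _ _ h.pmm, key _ _ _ h.mmm⟩

theorem AllB.imp (h : K.AllB V j k) (hV : ∀ X12 X13 t t' w, 0 ≤ t → 0 ≤ t' →
    (t + t') ^ 2 ≤ 3 → V X12 X13 t t' w → V' X12 X13 t t' w) : K.AllB V' j k := by
  have key : ∀ σ σ' ε, K.ExB V j k σ σ' ε → K.ExB V' j k σ σ' ε := by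
    intro σ σ' ε h i t t' hy
    refine hV _ _ _ _ _ hy.1 hy.2.1 ?_ (h i t t' hy)
    exact K.dm_sq k _ (add_nonneg hy.1 hy.2.1) hy.2.2.2.1
  exact ⟨key _ _ _ h.ppp, key _ _ _ h.ppm, key _ _ _ h.pmm, key _ _ _ h.mmp, key _ _ _ h.mmm⟩

end Cur

/-! ### The bound of the third flux -/

/-- The width of three values. -/
noncomputable def wid (c : ℝ × ℝ × ℝ) : ℝ :=
  max |c.1 - c.2.1| (max |c.1 - c.2.2| |c.2.1 - c.2.2|)

theorem wid_nonneg (c : ℝ × ℝ × ℝ) : 0 ≤ wid c := (abs_nonneg _).trans (le_max_left _ _)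

theorem wid_flip (a b c : ℝ) : wid (-b, -a, -c) = wid (a, b, c) := by
  unfold wid
  simp only
  rw [show -b - -a = a - b by ring, show -b - -c = -(b - c) by ring,
    show -a - -c = -(a - c) by ring, abs_neg, abs_neg, max_comm |b - c|]

/-- Two increments with the weights `α` and `β`. -/
theorem two_incr {α β u v o w : ℝ} (hu : |u| ≤ o) (hv : |v| ≤ o) (huv : |u + v| ≤ o)
    (hα : |α| ≤ w) (hβ : |β| ≤ w) (hαβ : |α - β| ≤ w) : |α * u + β * v| ≤ o * w := by
  rw [abs_le] at hu hv huv hα hβ hαβ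
  obtain ⟨u1, u2⟩ := hu
  obtain ⟨v1, v2⟩ := hv
  obtain ⟨x1, x2⟩ := huv
  obtain ⟨a1, a2⟩ := hα
  obtain ⟨b1, b2⟩ := hβ
  obtain ⟨c1, c2⟩ := hαβ
  have ho : 0 ≤ o := by linarith
  have hw : 0 ≤ w := by linarith
  rw [abs_le]
  rcases le_total 0 α with hα | hα <;> rcases le_total 0 β with hβ | hβ
  · rcases le_total α β with h | h
    · have e : α * u + β * v = α * (u + v) + (β - α) * v := by ring
      rw [e]
      constructor
      · nlinarith [mul_nonneg hα (by linarith : 0 ≤ u + v + o),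
          mul_nonneg (sub_nonneg.2 h) (by linarith : 0 ≤ v + o), mul_nonneg ho (sub_nonneg.2 b2)]
      · nlinarith [mul_nonneg hα (by linarith : 0 ≤ o - (u + v)),
          mul_nonneg (sub_nonneg.2 h) (by linarith : 0 ≤ o - v), mul_nonneg ho (sub_nonneg.2 b2)]
    · have e : α * u + β * v = β * (u + v) + (α - β) * u := by ring
      rw [e]
      constructor
      · nlinarith [mul_nonneg hβ (by linarith : 0 ≤ u + v + o),
          mul_nonneg (sub_nonneg.2 h) (by linarith : 0 ≤ u + o), mul_nonneg ho (sub_nonneg.2 a2)]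
      · nlinarith [mul_nonneg hβ (by linarith : 0 ≤ o - (u + v)),
          mul_nonneg (sub_nonneg.2 h) (by linarith : 0 ≤ o - u), mul_nonneg ho (sub_nonneg.2 a2)]
  · constructor
    · nlinarith [mul_nonneg hα (by linarith : 0 ≤ u + o),
        mul_nonneg (neg_nonneg.2 hβ) (by linarith : 0 ≤ o - v), mul_nonneg ho (sub_nonneg.2 c2)]
    · nlinarith [mul_nonneg hα (by linarith : 0 ≤ o - u),
        mul_nonneg (neg_nonneg.2 hβ) (by linarith : 0 ≤ v + o), mul_nonneg ho (sub_nonneg.2 c2)]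
  · constructor
    · nlinarith [mul_nonneg (neg_nonneg.2 hα) (by linarith : 0 ≤ o - u),
        mul_nonneg hβ (by linarith : 0 ≤ v + o),
        mul_nonneg ho (by linarith : 0 ≤ w - (β - α))]
    · nlinarith [mul_nonneg (neg_nonneg.2 hα) (by linarith : 0 ≤ u + o),
        mul_nonneg hβ (by linarith : 0 ≤ o - v),
        mul_nonneg ho (by linarith : 0 ≤ w - (β - α))]
  · rcases le_total α β with h | h
    · have e : α * u + β * v = β * (u + v) + (α - β) * u := by ring
      rw [e]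
      constructor
      · nlinarith [mul_nonneg (neg_nonneg.2 hβ) (by linarith : 0 ≤ o - (u + v)),
          mul_nonneg (sub_nonneg.2 h) (by linarith : 0 ≤ o - u),
          mul_nonneg ho (by linarith : 0 ≤ w + α)]
      · nlinarith [mul_nonneg (neg_nonneg.2 hβ) (by linarith : 0 ≤ u + v + o),
          mul_nonneg (sub_nonneg.2 h) (by linarith : 0 ≤ u + o),
          mul_nonneg ho (by linarith : 0 ≤ w + α)]
    · have e : α * u + β * v = α * (u + v) + (β - α) * v := by ring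
      rw [e]
      constructor
      · nlinarith [mul_nonneg (neg_nonneg.2 hα) (by linarith : 0 ≤ o - (u + v)),
          mul_nonneg (sub_nonneg.2 h) (by linarith : 0 ≤ o - v),
          mul_nonneg ho (by linarith : 0 ≤ w + β)]
      · nlinarith [mul_nonneg (neg_nonneg.2 hα) (by linarith : 0 ≤ u + v + o),
          mul_nonneg (sub_nonneg.2 h) (by linarith : 0 ≤ v + o),
          mul_nonneg ho (by linarith : 0 ≤ w + β)]

/-- **The third flux** is at most `o` times the width of the three values. -/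
theorem pf_abs {f : ℝ → ℝ} (hf : Continuous f) {o : ℝ} (ho : ∀ a b, |∫ x in a..b, f x| ≤ o)
    (c : ℝ × ℝ × ℝ) (t t' y : ℝ) : |pf f c t t' y| ≤ o * wid c := by
  have e : ∫ x in y..(y + (t + t')), f x =
      (∫ x in y..(y + t), f x) + ∫ x in (y + t)..(y + (t + t')), f x :=
    (intervalIntegral.integral_add_adjacent_intervals (hf.intervalIntegrable _ _)
      (hf.intervalIntegrable _ _)).symm
  have h3 := ho y (y + (t + t'))
  rw [e] at h3
  have e2 : pf f c t t' y = (c.1 - c.2.2) * (∫ x in y..(y + t), f x) +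
      (c.2.1 - c.2.2) * ∫ x in (y + t)..(y + (t + t')), f x := by
    unfold pf
    rw [e]
    ring
  rw [e2]
  refine two_incr (ho _ _) (ho _ _) h3 ?_ ?_ ?_
  · exact (le_max_left _ _).trans (le_max_right _ _)
  · exact (le_max_right _ _).trans (le_max_right _ _)
  · rw [sub_sub_sub_cancel_right]
    exact le_max_left _ _

/-! ### The properties -/

section

variable {ι : Type}

/-- The symmetric direct property at the near vertex, the kernel is `E` times the kernel `A`. -/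
def nearE (a : ℝ) (N0 : ℕ) (κ s E : ℝ) (f : ℝ → ℝ) (vA vX vC : ℝ → ι → ℝ) (X12 X13 t t' : ℝ)
    (w : (ℝ → ι → ℝ) → ℝ × ℝ × ℝ) : Prop :=
  ∀ y, 0 ≤ exn X12 X13 t t' + min (levXV N0 s a t t' (w vX))
    (levXV N0 s a t' t (-(w vX).2.1, -(w vX).1, -(w vX).2.2)) + E * kf κ s (w vA) t t' y +
    mu N0 s * pf f (w vC) t t' y

/-- **One modulus inequality for both vertices.** -/
def bothV (a : ℝ) (N0 : ℕ) (κ s E o : ℝ) (vA vX vC : ℝ → ι → ℝ) (X12 X13 t t' : ℝ)
    (w : (ℝ → ι → ℝ) → ℝ × ℝ × ℝ) : Prop :=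
  ∃ ex, NGV κ s ex t t' (w vA) ∧ ex ≤ exn X12 X13 t t' - |farXV (w vX)| ∧
    E * ex ≤ exn X12 X13 t t' + min (levXV N0 s a t t' (w vX))
      (levXV N0 s a t' t (-(w vX).2.1, -(w vX).1, -(w vX).2.2)) -
        mu N0 s * (o * wid (w vC))

variable {κ s a E o : ℝ} {N0 : ℕ} {f : ℝ → ℝ} {vA vX vC : ℝ → ι → ℝ}

theorem nearE_sym (hs0 : 0 ≤ s) (hs1 : s < h0) (hf : ∀ x, f (s - x) = -f x) :
    Cur.Sym (nearE a N0 κ s E f vA vX vC) := by
  intro X12 X13 t t' w h y
  have := h (s - (y + (t + t')))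
  unfold Cur.flip at this
  simp only [neg_neg] at this
  rw [exn_mirror, min_comm, kf_mirror hs0 hs1, pf_mirror hf] at this
  exact this

theorem bothV_sym : Cur.Sym (bothV a N0 κ s E o vA vX vC) := by
  intro X12 X13 t t' w h
  obtain ⟨ex, h1, h2, h3⟩ := h
  unfold Cur.flip at h1 h2 h3
  simp only [neg_neg] at h2 h3
  have e : farXV (-(w vX).2.1, -(w vX).1, -(w vX).2.2) = -farXV (w vX) := by
    unfold farXV
    ring
  rw [exn_mirror, e, abs_neg] at h2
  rw [exn_mirror, min_comm, wid_flip] at h3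
  exact ⟨ex, h1.mirror, h2, h3⟩

theorem bothV.far {X12 X13 t t' : ℝ} {w : (ℝ → ι → ℝ) → ℝ × ℝ × ℝ}
    (h : bothV a N0 κ s E o vA vX vC X12 X13 t t' w) (hκ : 0 ≤ κ) (hs0 : 0 ≤ s) (hs1 : s < h0)
    (ht : 0 ≤ t) (ht' : 0 ≤ t') (hT : (t + t') ^ 2 ≤ 3) : farD κ s vA vX X12 X13 t t' w := by
  obtain ⟨ex, h1, h2, -⟩ := h
  have hT' : t + t' ≤ 2 * h0 := by
    have := h0_sq
    nlinarith [h0_pos]
  exact fun y => NGV.dir (h1.mono h2) hκ hs0 hs1 ht ht' hT' y

theorem bothV.near {X12 X13 t t' : ℝ} {w : (ℝ → ι → ℝ) → ℝ × ℝ × ℝ}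
    (h : bothV a N0 κ s E o vA vX vC X12 X13 t t' w) (hκ : 0 ≤ κ) (hs0 : 0 ≤ s) (hs1 : s < h0)
    (ht : 0 ≤ t) (ht' : 0 ≤ t') (hT : (t + t') ^ 2 ≤ 3) (hE : 0 ≤ E) (hf : Continuous f)
    (ho : ∀ a b, |∫ x in a..b, f x| ≤ o) : nearE a N0 κ s E f vA vX vC X12 X13 t t' w := by
  obtain ⟨ex, h1, -, h3⟩ := h
  have hT' : t + t' ≤ 2 * h0 := by
    have := h0_sq
    nlinarith [h0_pos]
  have hg : 0 < g s := by linarith [g_gt_half hs0 hs1]
  have hN0 : (0 : ℝ) ≤ N0 := Nat.cast_nonneg N0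
  have hm : 0 < mu N0 s := by
    unfold mu
    positivity
  intro y
  have k1 := mul_nonneg hE (NGV.dir h1 hκ hs0 hs1 ht ht' hT' y)
  have k2 := mul_le_mul_of_nonneg_left (pf_abs hf ho (w vC) t t' y) hm.le
  have k3 := mul_le_mul_of_nonneg_left (neg_abs_le (pf f (w vC) t t' y)) hm.le
  linarith

/-- **The near families**, the kernel is `E` times the kernel `A`. -/
theorem near_dirE {n : ℕ} (K : Cur n ι) (hs0 : 0 ≤ s) (hs1 : s < h0)
    (hf : ∀ x, f (s - x) = -f x) (hA : K.adm vA) (hX : K.adm vX) (hC : K.adm vC)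
    (A : ∀ j k, j ≤ k → K.AllA (nearE a N0 κ s E f vA vX vC) j k)
    (B : ∀ j k, K.AllB (nearE a N0 κ s E f vA vX vC) j k) :
    Fams (NodeAt K.nodes) (fun X12 X13 t t' => ∀ l, t + t' - (N0 * h0 + s) - a ≤ l → l ≤ a →
      ∀ y, 0 ≤ exn X12 X13 t t' +
        (tab K.nodes vA (fun T i => E * vA T i) vX).levX N0 s l X12 X13 t t' +
        kf κ s ((tab K.nodes vA (fun T i => E * vA T i) vX).B X12 t,
          (tab K.nodes vA (fun T i => E * vA T i) vX).B (X13 - X12) t',
          (tab K.nodes vA (fun T i => E * vA T i) vX).B X13 (t + t')) t t' y +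
        mu N0 s * pf f (ker K.nodes vC (fun _ _ => 0) X12 t,
          ker K.nodes vC (fun _ _ => 0) (X13 - X12) t',
          ker K.nodes vC (fun _ _ => 0) X13 (t + t')) t t' y) := by
  have hV : K.Congr (nearE a N0 κ s E f vA vX vC) := by
    intro X12 X13 t t' w w' h hw
    unfold nearE at *
    rwa [← h vA hA, ← h vX hX, ← h vC hC]
  have key := Cur.fams_sym hV (nearE_sym hs0 hs1 hf) A B
  intro X12 X13 t t' a1 a2 a3 a4 a5 a6 a7 a8 a9 a10 l hl1 hl2 y
  have h := key X12 X13 t t' a1 a2 a3 a4 a5 a6 a7 a8 a9 a10 y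
  have e : (tab K.nodes vA (fun T i => E * vA T i) vX).levX N0 s l X12 X13 t t' =
      levXV N0 s l t t' (K.valK X12 X13 t t' vX) := rfl
  have e2 : ((tab K.nodes vA (fun T i => E * vA T i) vX).B X12 t,
      (tab K.nodes vA (fun T i => E * vA T i) vX).B (X13 - X12) t',
      (tab K.nodes vA (fun T i => E * vA T i) vX).B X13 (t + t')) =
      (E * (K.valK X12 X13 t t' vA).1, E * (K.valK X12 X13 t t' vA).2.1,
        E * (K.valK X12 X13 t t' vA).2.2) := by
    unfold tab Cur.valK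
    simp only [ker_smul]
  have e3 : (ker K.nodes vC (fun _ _ => 0) X12 t, ker K.nodes vC (fun _ _ => 0) (X13 - X12) t',
      ker K.nodes vC (fun _ _ => 0) X13 (t + t')) = K.valK X12 X13 t t' vC := rfl
  rw [e, e2, e3, kf_smul]
  linarith [min_le_levXV hl1 hl2 (K.valK X12 X13 t t' vX)]

/-- The facts about the tables: the kernel at the near vertex is `E` times the kernel `A`, the
density `f` of the third kernel has integrals bounded by `o`.  Each family is a statement for both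
vertices, in the direct form. -/
structure CertE {m : ℕ} (K : Cur m ι) (vA vX vC : ℝ → ι → ℝ) (f : ℝ → ℝ) (N0 : ℕ)
    (a κ s E o : ℝ) : Prop where
  two : 2 ≤ N0
  a0 : 0 ≤ a
  κ0 : 0 ≤ κ
  E0 : 0 ≤ E
  s0 : 0 ≤ s
  s1 : s < h0
  admA : K.adm vA
  admX : K.adm vX
  admC : K.adm vC
  den : DenOk f s
  osc : ∀ a b, |∫ x in a..b, f x| ≤ o
  bdd : ∃ C, ∀ T i, 0 ≤ T → T ^ 2 ≤ 3 → |vA T i| ≤ C ∧ |vX T i| ≤ C ∧ |vC T i| ≤ C
  famA : ∀ j k, j ≤ k → K.AllA (fun X12 X13 t t' w => bothV a N0 κ s E o vA vX vC X12 X13 t t' w ∨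
    (farD κ s vA vX X12 X13 t t' w ∧ nearE a N0 κ s E f vA vX vC X12 X13 t t' w)) j k
  famB : ∀ j k, K.AllB (fun X12 X13 t t' w => bothV a N0 κ s E o vA vX vC X12 X13 t t' w ∨
    (farD κ s vA vX X12 X13 t t' w ∧ nearE a N0 κ s E f vA vX vC X12 X13 t t' w)) j k

variable {m : ℕ} {K : Cur m ι}

/-- **The certificate for the small triangles.** -/
theorem CertE.fixDir (h : CertE K vA vX vC f N0 a κ s E o) :
    FixDir (tab K.nodes vA (fun T i => E * vA T i) vX) (ker K.nodes vC fun _ _ => 0) f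
      (NodeAt K.nodes) N0 a κ s := by
  have eqB : (tab K.nodes vA (fun T i => E * vA T i) vX).Ok := by
    obtain ⟨C, hC⟩ := h.bdd
    have hC0 : 0 ≤ C := (abs_nonneg _).trans (hC 0 (K.tg 0) le_rfl (by norm_num)).1
    refine tab_ok (K := max C (E * C)) K.isNodes (hC0.trans (le_max_left _ _))
      fun t ht h3 p _ => ?_
    obtain ⟨c1, c2, -⟩ := hC t p.2 ht h3
    refine ⟨c1.trans (le_max_left _ _), ?_, c2.trans (le_max_left _ _)⟩
    rw [abs_mul, abs_of_nonneg h.E0]
    exact (mul_le_mul_of_nonneg_left c1 h.E0).trans (le_max_right _ _)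
  refine ⟨h.two, h.a0, h.κ0, h.s0, h.s1, eqB,
    ker_odd (v := vC) (B := fun _ _ => 0) K.isNodes (fun _ => rfl), ?_, h.den, nodeAt_even, ?_, ?_,
    ?_⟩
  · obtain ⟨C, hC⟩ := h.bdd
    have hC0 : 0 ≤ C := (abs_nonneg _).trans (hC 0 (K.tg 0) le_rfl (by norm_num)).1
    refine ⟨C, fun X t _ ht => ?_⟩
    refine ker_abs (v := vC) (B := fun _ _ => 0) K.isNodes (fun h p _ => ?_)
      (fun _ => by rwa [abs_zero]) hC0
    exact (hC _ p.2 (abs_nonneg t) (by rwa [sq_abs])).2.2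
  · intro X t ht h1 h2
    obtain ⟨a, b, k1, k2, k3, k4, k5, k6⟩ := K.isNodes.piece h1 h2
    exact ⟨a, b, k1, k2, k3, k4, k5, k6 (vA |t|) (fun _ => 0) rfl,
      k6 (fun i => E * vA |t| i) (fun _ => 0) rfl, k6 (vX |t|) (fun _ => 0) rfl,
      k6 (vC |t|) (fun _ => 0) rfl⟩
  · refine far_dir K (vB := fun T i => E * vA T i) h.s0 h.s1 h.admA h.admX ?_ ?_
    · intro j k hjk
      refine (h.famA j k hjk).imp fun X12 X13 t t' w ht ht' hT hw => ?_
      rcases hw with hw | hw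
      · exact hw.far h.κ0 h.s0 h.s1 ht ht' hT
      · exact hw.1
    · intro j k
      refine (h.famB j k).imp fun X12 X13 t t' w ht ht' hT hw => ?_
      rcases hw with hw | hw
      · exact hw.far h.κ0 h.s0 h.s1 ht ht' hT
      · exact hw.1
  · refine near_dirE K h.s0 h.s1 h.den.mir h.admA h.admX h.admC ?_ ?_
    · intro j k hjk
      refine (h.famA j k hjk).imp fun X12 X13 t t' w ht ht' hT hw => ?_
      rcases hw with hw | hw
      · exact hw.near h.κ0 h.s0 h.s1 ht ht' hT h.E0 h.den.cont h.osc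
      · exact hw.2
    · intro j k
      refine (h.famB j k).imp fun X12 X13 t t' w ht ht' hT hw => ?_
      rcases hw with hw | hw
      · exact hw.near h.κ0 h.s0 h.s1 ht ht' hT h.E0 h.den.cont h.osc
      · exact hw.2

end

end Pool.Agent.Strip051.LC
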