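import Pool.Agent.Strip051.LC.Exact.FloorT

/-! # The inequalities at the floor, for one height

The fields of `WallU` and `WinU` are statements for an interval of heights; here they follow from
the statements for one height and a bound of the growth. -/

namespace Pool.Agent.Strip051.LC

open Pool.Agent.StripNear Pool.Agent.StripSquare Pool.Agent.Strip051.Sweep
open Pool.Agent.Strip051.LC.Line

theorem sft_abs_le {c u A : ℝ} (hc : 0 ≤ c) (hA : c ≤ A) (h : |u| ≤ A) : |sft c u| ≤ A - c := by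
  have key : ∀ u : ℝ, 0 ≤ u → u ≤ A → |sft c u| ≤ A - c := by
    intro u h0 h1
    unfold sft
    rw [max_eq_left (by linarith : -u - c ≤ 0), sub_zero, abs_of_nonneg (le_max_left _ _)]
    exact max_le (by linarith) (by linarith)
  rcases le_total 0 u with h0 | h0
  · exact key u h0 (by rwa [abs_of_nonneg h0] at h)
  · rw [← abs_neg, ← sft_neg]
    exact key (-u) (by linarith) (by rwa [abs_of_nonpos h0] at h)

theorem tnt_abs {s th : ℝ} (h0t : 0 < th) (ht1 : th ≤ 1) (hs0 : 0 < s) (hs1 : s < h0) (x : ℝ) :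
    |tnt s th x| ≤ 1 := by
  have hh := h0_pos
  have hsh : 0 < h0 - s := by linarith
  have hc : 0 ≤ 1 / th - 1 := by
    rw [sub_nonneg, le_div_iff₀ h0t]
    linarith
  have hκ : 0 ≤ 2 * h0 / (s * (h0 - s) * th) := by positivity
  have h1 := D_abs hs0.le hs1 hκ x
  have e : 2 * h0 / (s * (h0 - s) * th) * (s * (h0 - s) / (2 * h0)) = 1 / th := by
    field_simp
  have := sft_abs_le (A := 1 / th) hc (by linarith) (by rw [← e]; exact h1)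
  unfold tnt ten
  linarith

theorem tnt_cont {s th : ℝ} (h0t : 0 < th) (ht1 : th ≤ 1) (hs0 : 0 < s) (hs1 : s < h0) :
    Continuous (tnt s th) :=
  (tnt_denOk h0t ht1 hs0 hs1).cont

section

variable {κ s μ w : ℝ} {R Xi C : ℝ → ℝ → ℝ} {f : ℝ → ℝ} {Nd : ℝ → ℝ → Prop}
  {K X T y0 y1 L r : ℝ}

/-- The growth of the floor function with the slack `c`. -/
def Grow (κ s μ : ℝ) (R Xi C : ℝ → ℝ → ℝ) (K X T c : ℝ) : Prop :=
  MonoT s κ X (tau T) (R X T) (μ / h0 * Xi X T - 2 * μ * |C X T| * K + c)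

/-- A lower bound at one height. -/
def LowU (κ s μ w : ℝ) (R Xi C : ℝ → ℝ → ℝ) (f : ℝ → ℝ) (K X T y0 L r : ℝ) : Prop :=
  ∃ c, 0 ≤ c ∧ Grow κ s μ R Xi C K X T c ∧ L + c * r ≤ UT κ s μ w R Xi C f X y0 (y0 + T)

/-- An upper bound at one height. -/
def UppU (κ s μ w : ℝ) (R Xi C : ℝ → ℝ → ℝ) (f : ℝ → ℝ) (K X T y1 L r : ℝ) : Prop :=
  ∃ c, 0 ≤ c ∧ Grow κ s μ R Xi C K X T c ∧ UT κ s μ w R Xi C f X y1 (y1 + T) + c * r ≤ L

/-- The conditions for the density. -/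
structure DenB (s κ μ : ℝ) (f : ℝ → ℝ) (K : ℝ) : Prop where
  s0 : 0 < s
  s1 : s < h0
  κ0 : 0 ≤ κ
  μ0 : 0 ≤ μ
  cont : Continuous f
  abs : ∀ x, |f x| ≤ K

theorem denB_zero (hs0 : 0 < s) (hs1 : s < h0) (hκ : 0 ≤ κ) (hμ : 0 ≤ μ) :
    DenB s κ μ (fun _ => 0) 0 :=
  ⟨hs0, hs1, hκ, hμ, continuous_const, fun x => by simp⟩

theorem denB_tnt {th : ℝ} (h0t : 0 < th) (ht1 : th ≤ 1) (hs0 : 0 < s) (hs1 : s < h0)
    (hκ : 0 ≤ κ) (hμ : 0 ≤ μ) : DenB s κ μ (tnt s th) 1 :=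
  ⟨hs0, hs1, hκ, hμ, tnt_cont h0t ht1 hs0 hs1, tnt_abs h0t ht1 hs0 hs1⟩

theorem LowU.le (h : LowU κ s μ w R Xi C f K X T y0 L r) (hf : DenB s κ μ f K) {y : ℝ}
    (hT : 0 ≤ T) (h0 : y0 ≤ y) (h1 : y ≤ y0 + r) : L ≤ UT κ s μ w R Xi C f X y (y + T) := by
  obtain ⟨c, c0, hG, hL⟩ := h
  have := UT_up (w := w) hf.s0 hf.s1 hf.κ0 hf.μ0 hf.cont hf.abs hT hG (y := y0) (d := y - y0)
    (by linarith)
  rw [show y0 + (y - y0) = y by ring] at this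
  have := mul_le_mul_of_nonneg_left (show y - y0 ≤ r by linarith) c0
  linarith

/-- Without the slack the bound holds for all larger heights. -/
theorem UT_ge (hf : DenB s κ μ f K) (hG : Grow κ s μ R Xi C K X T 0) {y0 L y : ℝ}
    (hL : L ≤ UT κ s μ w R Xi C f X y0 (y0 + T)) (hT : 0 ≤ T) (h0 : y0 ≤ y) :
    L ≤ UT κ s μ w R Xi C f X y (y + T) := by
  have := UT_up (w := w) hf.s0 hf.s1 hf.κ0 hf.μ0 hf.cont hf.abs hT hG (y := y0) (d := y - y0)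
    (by linarith)
  rw [show y0 + (y - y0) = y by ring] at this
  linarith

theorem UppU.le (h : UppU κ s μ w R Xi C f K X T y1 L r) (hf : DenB s κ μ f K) {y : ℝ}
    (hT : 0 ≤ T) (h0 : y1 - r ≤ y) (h1 : y ≤ y1) : UT κ s μ w R Xi C f X y (y + T) ≤ L := by
  obtain ⟨c, c0, hG, hL⟩ := h
  have := UT_up (w := w) hf.s0 hf.s1 hf.κ0 hf.μ0 hf.cont hf.abs hT hG (y := y) (d := y1 - y)
    (by linarith)
  rw [show y + (y1 - y) = y1 by ring] at this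
  have := mul_le_mul_of_nonneg_left (show y1 - y ≤ r by linarith) c0
  linarith

/-- The inequality `U ≥ 1 / 2` for all heights at least `y0`, either by the growth with the third
kernel or by the growth without it and the oscillation. -/
def Half (κ s μ w : ℝ) (R Xi C : ℝ → ℝ → ℝ) (f : ℝ → ℝ) (K o X T y0 : ℝ) : Prop :=
  (Grow κ s μ R Xi C K X T 0 ∧ 1 / 2 ≤ UT κ s μ w R Xi C f X y0 (y0 + T)) ∨
    (MonoT s κ X (tau T) (R X T) (μ / h0 * Xi X T) ∧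
      1 / 2 + μ * (|C X T| * o) ≤ UF κ s μ w R Xi X y0 (y0 + T))

theorem Half.le {o : ℝ} (h : Half κ s μ w R Xi C f K o X T y0) (hf : DenB s κ μ f K)
    (ho : ∀ a b, |∫ x in a..b, f x| ≤ o) {y : ℝ} (hT : 0 ≤ T) (h0 : y0 ≤ y) :
    1 / 2 ≤ UT κ s μ w R Xi C f X y (y + T) := by
  rcases h with ⟨h1, h2⟩ | ⟨h1, h2⟩
  · exact UT_ge hf h1 h2 hT h0
  · have h3 := (UT_osc (w := w) (κ := κ) (s := s) (R := R) (Xi := Xi) (C := C) hf.μ0 ho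
      (X := X) hT y).1
    have h4 := UT_ge (w := w) (R := R) (Xi := Xi) (C := fun _ _ => 0) (f := fun _ => 0)
      (κ := κ) (denB_zero hf.s0 hf.s1 hf.κ0 hf.μ0) (X := X) (T := T) (y0 := y0)
      (L := 1 / 2 + μ * (|C X T| * o)) (by
        unfold Grow
        simpa using h1) (by rw [UT_none]; exact h2) hT h0
    rw [UT_none] at h4
    linarith

/-- **The list at the floor**, statements for one height. -/
structure WallY (κ s μ w : ℝ) (R Xi C : ℝ → ℝ → ℝ) (f : ℝ → ℝ) (K o : ℝ)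
    (Nd : ℝ → ℝ → Prop) : Prop where
  node : ∀ X T, 0 ≤ T → T ≤ 1 → 0 < X → 1 ≤ X ^ 2 + T ^ 2 → X ^ 2 + T ^ 2 ≤ 3 →
    Nd X T → (T ≤ h0 ∨ 1 - Real.sqrt (1 - T ^ 2) ≤ X) → Half κ s μ w R Xi C f K o X T 0
  steep : ∀ T, h0 ≤ T → T ≤ 1 → Half κ s μ w R Xi C f K o (1 - Real.sqrt (1 - T ^ 2)) T 0

theorem WallY.wall {o : ℝ} (h : WallY κ s μ w R Xi C f K o Nd) (hf : DenB s κ μ f K)
    (ho : ∀ a b, |∫ x in a..b, f x| ≤ o) : WallU (UT κ s μ w R Xi C f) Nd where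
  node X T y hy hT hT1 u0 u1 u3 un ur := (h.node X T hT hT1 u0 u1 u3 un ur).le hf ho hT hy
  steep T y hy ht hT1 := (h.steep T ht hT1).le hf ho (h0_pos.le.trans ht) hy

/-- **The list at the floor with the exceptional window**, statements for one height. -/
structure WinY (κ s μ w : ℝ) (R Xi C : ℝ → ℝ → ℝ) (f : ℝ → ℝ) (K o : ℝ)
    (Nd : ℝ → ℝ → Prop) (D0 : ℝ) (al be : ℝ → ℝ) : Prop where
  al0 : ∀ T, 0 ≤ al T
  be0 : ∀ T, 0 ≤ be T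
  node : ∀ X T, 3 / 100 ≤ T → T ≤ 1 → 0 < X → 1 ≤ X ^ 2 + T ^ 2 → X ^ 2 + T ^ 2 ≤ 3 →
    Nd X T → (T ≤ h0 ∨ 1 - Real.sqrt (1 - T ^ 2) ≤ X) → Half κ s μ w R Xi C f K o X T 0
  steep : ∀ T, h0 ≤ T → T ≤ 1 → Half κ s μ w R Xi C f K o (1 - Real.sqrt (1 - T ^ 2)) T 0
  flat : ∀ X T, 0 ≤ T → T ≤ 3 / 100 → 0 < X → 1 ≤ X ^ 2 + T ^ 2 → X ^ 2 + T ^ 2 ≤ 3 →
    Nd X T → Half κ s μ w R Xi C f K o X T (3 / 100)
  left : ∀ X T, 0 ≤ T → T ≤ 3 / 100 → 0 < X → X ≤ D0 →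
    1 ≤ X ^ 2 + T ^ 2 → X ^ 2 + T ^ 2 ≤ 3 → (Nd X T ∨ X = D0) →
    Half κ s μ w R Xi C f K o X T 0
  high : ∀ X T T', 4 / 5 ≤ T → T ≤ 17 / 10 → T ≤ T' → T' ≤ T + 3 / 100 → 0 ≤ X →
    1 ≤ X ^ 2 + T' ^ 2 → X ^ 2 + T' ^ 2 ≤ 3 → (Nd X T' ∨ X = 0) →
    LowU κ s μ w R Xi C f K X T' 0 (1 / 2 + al T * (X - D0 / 2)) (3 / 50)
  far : ∀ X T T', 22 / 25 ≤ T → T ≤ 67 / 50 → T ≤ T' → T' ≤ T + 3 / 100 → D0 ≤ X →
    1 ≤ X ^ 2 + T' ^ 2 → X ^ 2 + T' ^ 2 ≤ 3 → (Nd X T' ∨ X = D0) →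
    LowU κ s μ w R Xi C f K X T' 0 (1 + be T * (X - D0)) (3 / 50)
  near : ∀ X T T', 22 / 25 ≤ T → T ≤ 67 / 50 → T ≤ T' → T' ≤ T + 3 / 100 → 0 < X →
    X ≤ 2 / 5 → 1 ≤ X ^ 2 + T' ^ 2 → X ^ 2 + T' ^ 2 ≤ 3 → (Nd X T' ∨ X = 2 / 5) →
    UppU κ s μ w R Xi C f K X T' (3 / 50) (be T * X) (3 / 50)

theorem WinY.win {o D0 : ℝ} {al be : ℝ → ℝ} (h : WinY κ s μ w R Xi C f K o Nd D0 al be)
    (hf : DenB s κ μ f K) (ho : ∀ a b, |∫ x in a..b, f x| ≤ o) :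
    WinU (UT κ s μ w R Xi C f) Nd D0 al be where
  al0 := h.al0
  be0 := h.be0
  node X T y hy hT hT1 u0 u1 u3 un ur :=
    (h.node X T hT hT1 u0 u1 u3 un ur).le hf ho (by linarith) hy
  steep T y hy ht hT1 := (h.steep T ht hT1).le hf ho (h0_pos.le.trans ht) hy
  flat X T y hy hT hT1 u0 u1 u3 un := (h.flat X T hT hT1 u0 u1 u3 un).le hf ho hT hy
  left X T y hy _ hT hT1 u0 u1 u2 u3 un := (h.left X T hT hT1 u0 u1 u2 u3 un).le hf ho hT hy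
  high X T T' y hy hy1 t1 t2 t3 t4 u0 u1 u3 un :=
    (h.high X T T' t1 t2 t3 t4 u0 u1 u3 un).le hf (by linarith) hy (by linarith)
  far X T T' y hy hy1 t1 t2 t3 t4 u0 u1 u3 un :=
    (h.far X T T' t1 t2 t3 t4 u0 u1 u3 un).le hf (by linarith) hy (by linarith)
  near X T T' y hy hy1 t1 t2 t3 t4 u0 u1 u2 u3 un :=
    (h.near X T T' t1 t2 t3 t4 u0 u1 u2 u3 un).le hf (by linarith) (by linarith) hy1

end

/-! ### The rows -/

section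

variable {T : Tab} {C : ℝ → ℝ → ℝ} {f : ℝ → ℝ} {Nd : ℝ → ℝ → Prop} {N0 : ℕ} {a κ s K o : ℝ}

theorem mu_nonneg (n : ℕ) (hs0 : 0 ≤ s) (hs1 : s < h0) : 0 ≤ mu n s := by
  have hg : 0 < g s := by linarith [g_gt_half hs0 hs1]
  have hn : (0 : ℝ) ≤ n := Nat.cast_nonneg n
  unfold mu
  positivity

/-- **The rows with two kernels, without the window.** -/
theorem FixSm.rowWallY (h : FixSm T Nd N0 a κ s) (hs : 0 < s)
    (hF : WallY κ s 0 (1 / 2 - we s) T.A T.Xi (fun _ _ => 0) (fun _ => 0) 0 0 Nd)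
    (hN : WallY κ s (mu N0 s) (1 / 2 - we s - mu N0 s * wq s) T.B T.Xi (fun _ _ => 0)
      (fun _ => 0) 0 0 Nd) : RowOK (T.flat N0 κ s) N0 s :=
  h.rowWall (hF.wall (denB_zero hs h.s1 h.κ0 le_rfl) fun a b => by simp)
    (hN.wall (denB_zero hs h.s1 h.κ0 (mu_nonneg N0 hs.le h.s1)) fun a b => by simp)

/-- **The rows with two kernels and the window.** -/
theorem FixSm.rowWinY (h : FixSm T Nd N0 a κ s) (hN3 : 3 ≤ N0) (hs : 0 < s) {D0 D1 : ℝ}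
    {al be al' be' : ℝ → ℝ} (hD0 : 11 / 10 ≤ D0) (hD1 : 11 / 10 ≤ D1)
    (hF : WinY κ s 0 (1 / 2 - we s) T.A T.Xi (fun _ _ => 0) (fun _ => 0) 0 0 Nd D0 al be)
    (hN : WinY κ s (mu N0 s) (1 / 2 - we s - mu N0 s * wq s) T.B T.Xi (fun _ _ => 0)
      (fun _ => 0) 0 0 Nd D1 al' be') : RowOK (T.flat N0 κ s) N0 s :=
  h.rowWin hN3 hD0 hD1 (hF.win (denB_zero hs h.s1 h.κ0 le_rfl) fun a b => by simp)
    (hN.win (denB_zero hs h.s1 h.κ0 (mu_nonneg N0 hs.le h.s1)) fun a b => by simp)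

/-- **The rows with three kernels, without the window.** -/
theorem FixDir.rowWallY (h : FixDir T C f Nd N0 a κ s) (hs : 0 < s) (hK : ∀ x, |f x| ≤ K)
    (ho : ∀ a b, |∫ x in a..b, f x| ≤ o)
    (hF : WallY κ s 0 (1 / 2 - we s) T.A T.Xi C f K o Nd)
    (hN : WallY κ s (mu N0 s) (1 / 2 - we s - mu N0 s * wq s) T.B T.Xi C f K o Nd) :
    RowOK (T.flat3 C f N0 κ s) N0 s :=
  h.rowWall (hF.wall ⟨hs, h.s1, h.κ0, le_rfl, h.den.cont, hK⟩ ho)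
    (hN.wall ⟨hs, h.s1, h.κ0, (h.mu_pos N0).le, h.den.cont, hK⟩ ho)

/-- **The rows with three kernels and the window.** -/
theorem FixDir.rowWinY (h : FixDir T C f Nd N0 a κ s) (hN3 : 3 ≤ N0) (hs : 0 < s)
    (hK : ∀ x, |f x| ≤ K) (ho : ∀ a b, |∫ x in a..b, f x| ≤ o) {D0 D1 : ℝ}
    {al be al' be' : ℝ → ℝ} (hD0 : 11 / 10 ≤ D0) (hD1 : 11 / 10 ≤ D1)
    (hF : WinY κ s 0 (1 / 2 - we s) T.A T.Xi C f K o Nd D0 al be)
    (hN : WinY κ s (mu N0 s) (1 / 2 - we s - mu N0 s * wq s) T.B T.Xi C f K o Nd D1 al' be') :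
    RowOK (T.flat3 C f N0 κ s) N0 s :=
  h.rowWin hN3 hD0 hD1 (hF.win ⟨hs, h.s1, h.κ0, le_rfl, h.den.cont, hK⟩ ho)
    (hN.win ⟨hs, h.s1, h.κ0, (h.mu_pos N0).le, h.den.cont, hK⟩ ho)

end

end Pool.Agent.Strip051.LC
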