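import Pool.Agent.Strip051.LC.Exact.CostNode
import Pool.Agent.Strip051.LC.Exact.FloorY
import Pool.Agent.Strip051.LC.Exact.Dir2
import Pool.Agent.Strip051.LC.Exact.Bulk

/-! # The assembly

`count_of_certS` and `count_of_certE` give the exact count for all `n ≥ 3` at one rest from the
certificate for the small triangles, the rows at the floor and the costs. -/

namespace Pool.Agent.Strip051.LC

open Pool.Agent.StripNear Pool.Agent.StripSquare Pool.Agent.Strip051 Pool.Agent.Strip051.Sweep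
open Pool.Agent.StripTwo (rowNumber molnar)
open Pool.Agent.Strip051.LC.Box

/-- The exact count for all `n ≥ 3` at the rest `s`. -/
def Good (s : ℝ) : Prop := ∀ n : ℕ, 3 ≤ n → CountBound n s

/-- The first curve is the unit circle. -/
def First {m : ℕ} {ι : Type} (K : Cur m ι) : Prop :=
  ∀ T, 0 ≤ T → T < 1 → K.dm 0 T ∧ K.cv 0 T = c1 T

theorem Pos.first {n : ℕ} (P : Pos n) : First P.cur := by
  intro T hT h1
  have e : P.cv 0 T = c1 T := by
    unfold Pos.cv
    rw [P.zero, gam_zero]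
  refine ⟨⟨fun _ => h1, fun h => absurd rfl h, fun _ => ?_, ?_⟩, e⟩
  · nlinarith
  · nlinarith

theorem Pos.Adm.smul {n : ℕ} {P : Pos n} {v : ℝ → Fin (n + 1) → ℝ} (h : P.Adm v) (E : ℝ) :
    P.Adm fun T i => E * v T i where
  one T hT := by rw [h.one T hT, mul_zero]
  zero j hj := by rw [h.zero j hj]
  mid j hj := by rw [h.mid j hj]
  top T j hT := by rw [h.top T j hT, mul_zero]

section

variable {m : ℕ} {ι : Type} {K : Cur m ι} {vA vB vX vC : ℝ → ι → ℝ} {κ s a o E : ℝ}

/-- **The exact count from two kernels.** -/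
theorem count_of_certS (h : CertS K vA vB vX 3 a κ s) (first : First K)
    (rows : RowOK ((tab K.nodes vA vB vX).flat 3 κ s) 3 s) {CF UF RF CN UN RN : List (List Aff)}
    (segF : SegOK K CF (cstF κ s vA vX)) (segN : SegOK K CN (cstN 3 κ s vB vX))
    (uniF : UniOK K UF (cstF κ s vA vX)) (uniN : UniOK K UN (cstN 3 κ s vB vX))
    (okF : CostOK (cbv CF) (cbv UF) (cbv RF) (we s))
    (okN : CostOK (cbv CN) (cbv UN) (cbv RN) (we s + mu 3 s * wq s)) : Good s :=
  fun _ hn => h.fixSm.count le_rfl okF okN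
    (costTab_of h.κ0 h.s0 h.s1 h.admA h.admB h.admX first segF segN uniF uniN) rows hn

/-- **The exact count from three kernels.** -/
theorem count_of_certE {f : ℝ → ℝ} (h : CertE K vA vX vC f 3 a κ s E o) (hB : K.adm fun T i => E * vA T i)
    (first : First K)
    (rows : RowOK ((tab K.nodes vA (fun T i => E * vA T i) vX).flat3
      (ker K.nodes vC fun _ _ => 0) f 3 κ s) 3 s) {CF UF RF CN UN RN : List (List Aff)}
    (segF : SegOK K CF (cstF κ s vA vX))
    (segN : SegOK K CN (cstE 3 κ s o (fun T i => E * vA T i) vX vC))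
    (uniF : UniOK K UF (cstF κ s vA vX))
    (uniN : UniOK K UN (cstE 3 κ s o (fun T i => E * vA T i) vX vC))
    (okF : CostOK (cbv CF) (cbv UF) (cbv RF) (we s))
    (okN : CostOK (cbv CN) (cbv UN) (cbv RN) (we s + mu 3 s * wq s)) : Good s := by
  have ho : 0 ≤ o := (abs_nonneg _).trans (h.osc 0 0)
  exact fun _ hn => h.fixDir.count le_rfl (fun y t _ _ => h.osc _ _) okF okN
    (costTab3_of h.κ0 h.s0 h.s1 ho h.admA hB h.admX h.admC first segF segN uniF uniN) rows hn

end

/-! ### The wall constants -/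

theorem g_tan {s c : ℝ} (hs0 : 0 ≤ s) (hs1 : s < h0) (hc : 0 < c) :
    g s ≤ (1 - s ^ 2 + c ^ 2) / (2 * c) := by
  have h1 : 0 ≤ 1 - s ^ 2 := by
    have := h0_sq
    nlinarith [h0_pos]
  have h2 := Real.sq_sqrt h1
  rw [le_div_iff₀ (by positivity)]
  unfold g
  nlinarith [sq_nonneg (Real.sqrt (1 - s ^ 2) - c)]

/-- The wall constant of the far vertex, `s = h0 x`. -/
theorem we_tan {x c : ℝ} (hx0 : 0 ≤ x) (hx1 : x < 1) (hc : 0 < c) :
    we (h0 * x) ≤ x / 2 + (1 - 3 / 4 * x ^ 2 + c ^ 2) / (2 * c) - 1 := by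
  have hh := h0_pos
  have h1 := g_tan (s := h0 * x) (by positivity) (by nlinarith) hc
  have e : (h0 * x) ^ 2 = 3 / 4 * x ^ 2 := by
    rw [mul_pow, h0_sq]
  rw [e] at h1
  unfold we
  have e2 : h0 * x / (2 * h0) = x / 2 := by field_simp
  rw [e2]
  linarith

/-- The wall constant of the near vertex. -/
theorem wn_eq {x : ℝ} (hx0 : 0 ≤ x) (hx1 : x < 1) :
    we (h0 * x) + mu 3 (h0 * x) * wq (h0 * x) = x / 2 + 2 - 10 / (3 + 2 * g (h0 * x)) := by
  have hh := h0_pos
  have hg := g_gt_half (s := h0 * x) (by positivity) (by nlinarith)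
  have e2 : h0 * x / (2 * h0) = x / 2 := by field_simp
  have h3 : (3 : ℝ) + 2 * g (h0 * x) ≠ 0 := by linarith
  unfold we wq mu
  rw [e2]
  push_cast
  generalize g (h0 * x) = G at *
  rw [div_mul_eq_mul_div, one_mul, eq_sub_iff_add_eq, add_assoc, ← add_div]
  have e4 : (1 - G) * (2 * G - 1) + 10 = (3 + 2 * G) * (3 - G) := by ring
  rw [e4, mul_div_cancel_left₀ _ h3]
  ring

theorem wn_tan {x c m : ℝ} (hx0 : 0 ≤ x) (hx1 : x < 1) (hc : 0 < c) (hm : 0 < m) :
    we (h0 * x) + mu 3 (h0 * x) * wq (h0 * x) ≤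
      x / 2 + 2 - 10 * (2 * m - 3 - (1 - 3 / 4 * x ^ 2 + c ^ 2) / c) / m ^ 2 := by
  have hh := h0_pos
  have hg := g_gt_half (s := h0 * x) (by positivity) (by nlinarith)
  have h1 := g_tan (s := h0 * x) (by positivity) (by nlinarith) hc
  have e : (h0 * x) ^ 2 = 3 / 4 * x ^ 2 := by
    rw [mul_pow, h0_sq]
  rw [e] at h1
  rw [wn_eq hx0 hx1]
  set G := g (h0 * x)
  have hy : 0 < 3 + 2 * G := by linarith
  have h2 : (2 * m - (3 + 2 * G)) / m ^ 2 ≤ 1 / (3 + 2 * G) := by
    rw [div_le_div_iff₀ (by positivity) hy]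
    nlinarith [sq_nonneg (m - (3 + 2 * G))]
  have h3 : (2 * m - 3 - (1 - 3 / 4 * x ^ 2 + c ^ 2) / c) / m ^ 2 ≤
      (2 * m - (3 + 2 * G)) / m ^ 2 := by
    have : (1 - 3 / 4 * x ^ 2 + c ^ 2) / c = 2 * ((1 - 3 / 4 * x ^ 2 + c ^ 2) / (2 * c)) := by
      field_simp
    rw [this]
    exact div_le_div_of_nonneg_right (by linarith) (by positivity)
  have e3 : 10 / (3 + 2 * G) = 10 * (1 / (3 + 2 * G)) := by ring
  rw [e3, mul_div_assoc]
  linarith

/-- The wall constants in the unit of the costs, all rests. -/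
theorem we_le {s : ℝ} (hs0 : 0 ≤ s) (hs1 : s < h0) : 4096 * we s ≤ 634 := by
  have hh := h0_pos
  have e : s = h0 * (s / h0) := by field_simp
  have x0 : 0 ≤ s / h0 := by positivity
  have x1 : s / h0 < 1 := by rwa [div_lt_one hh]
  rw [e]
  set x := s / h0
  have := we_tan x0 x1 (c := 433 / 500) (by norm_num)
  norm_num at this
  nlinarith [sq_nonneg (x - 433 / 750)]

theorem wn_le {s : ℝ} (hs0 : 0 ≤ s) (hs1 : s < h0) :
    4096 * (we s + mu 3 s * wq s) ≤ 724 := by
  have hh := h0_pos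
  have e : s = h0 * (s / h0) := by field_simp
  have x0 : 0 ≤ s / h0 := by positivity
  have x1 : s / h0 < 1 := by rwa [div_lt_one hh]
  rw [e]
  set x := s / h0
  have := wn_tan x0 x1 (c := 8443 / 10000) (m := 46886 / 10000) (by norm_num) (by norm_num)
  norm_num at this
  nlinarith [sq_nonneg (x - 619 / 1000)]

theorem wn_small {s : ℝ} (hs0 : 0 ≤ s) (hs1 : s < h0) : we s + mu 3 s * wq s ≤ 21 / 100 := by
  have := wn_le hs0 hs1
  linarith

theorem we_small {s : ℝ} (hs0 : 0 ≤ s) (hs1 : s < h0) : we s ≤ 21 / 100 := by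
  have := we_le hs0 hs1
  linarith

/-! ### Molnar's bound for all widths -/

/-- **Molnar's bound** for all widths at least `2 + 2 √3`. -/
theorem molnar_from_two (h2 : ∀ s, 0 ≤ s → s < h0 → CountBound 2 s)
    (h3 : ∀ s, 0 ≤ s → s < h0 → Good s) {w : ℝ} (hw : 2 + 2 * Real.sqrt 3 ≤ w) {C : Set E2}
    (hC : IsStripPacking w C) {O : E2} {d : ℝ} (hd : HasDensity w C O d) : d ≤ molnar w := by
  have k3 : 0 < Real.sqrt 3 := Real.sqrt_pos.2 (by norm_num)
  have hw2 : 2 ≤ w := by linarith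
  obtain ⟨r0, r1, -⟩ := rest_spec hw2
  have hr : 2 ≤ rowNumber w := by
    unfold rowNumber
    refine Nat.le_floor ?_
    rw [le_div_iff₀ k3]
    push_cast
    linarith
  refine le_molnar_of_count hw2 ?_ hC hd
  rcases hr.eq_or_lt with h | h
  · rw [← h]
    exact h2 _ r0 r1
  · exact h3 _ r0 r1 _ h

end Pool.Agent.Strip051.LC
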