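import Pool.Agent.Strip051.LC.Exact.Tent

/-! # The near vertex with the third kernel at the tight triangles

The third kernel with the density `tnt s th` is compared with the kernel with the density `D`; the
difference is paid by a part of the value at the steep edge. -/

namespace Pool.Agent.Strip051.LC

open Pool.Agent.StripNear Pool.Agent.StripSquare Pool.Agent.Strip051.Sweep
open Pool.Agent.Strip051.LC.Line (D D_refl D_add D_low D_high D_abs D_add_int D_add_nat
  Dd_continuous mn jn tau)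

/-! ### The difference of the densities as a function of the density -/

section

variable {th u : ℝ}

theorem sft_big (h : 1 / th - 1 ≤ u / th) (ht : 0 < th) (ht1 : th ≤ 1) :
    sft (1 / th - 1) (u / th) = (u - (1 - th)) / th := by
  have h1 : 0 ≤ 1 / th - 1 := by
    rw [sub_nonneg, le_div_iff₀ ht]
    linarith
  unfold sft
  rw [max_eq_right (by linarith), max_eq_left (by linarith)]
  field_simp
  ring

theorem sft_mid (h : u / th ≤ 1 / th - 1) (h' : -(u / th) ≤ 1 / th - 1) :
    sft (1 / th - 1) (u / th) = 0 := by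
  unfold sft
  rw [max_eq_left (by linarith), max_eq_left (by linarith)]
  ring

/-- The difference for a nonnegative density. -/
theorem sft_sub (ht : 0 < th) (ht1 : th ≤ 1) (h0u : 0 ≤ u) (hu : u ≤ 1) :
    sft (1 / th - 1) (u / th) - u ≤ 0 ∧
      -((1 / th - 1) * (1 - u)) ≤ sft (1 / th - 1) (u / th) - u ∧
      -(1 - th) ≤ sft (1 / th - 1) (u / th) - u := by
  have h1 : 0 ≤ 1 / th - 1 := by
    rw [sub_nonneg, le_div_iff₀ ht]
    linarith
  rcases le_total (u / th) (1 / th - 1) with h | h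
  · rw [sft_mid h (by
      have : 0 ≤ u / th := by positivity
      linarith)]
    have h2 : u ≤ 1 - th := by
      have := mul_le_mul_of_nonneg_right h ht.le
      rw [div_mul_cancel₀ _ ht.ne', sub_mul, div_mul_cancel₀ _ ht.ne', one_mul] at this
      exact this
    refine ⟨by linarith, ?_, by linarith⟩
    have h3 : (1 / th - 1) * (1 - u) - u = (1 - th - u) / th := by
      field_simp
      ring
    have h4 : 0 ≤ (1 - th - u) / th := div_nonneg (by linarith) ht.le
    linarith
  · rw [sft_big h ht ht1]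
    have h2 : 1 - th ≤ u := by
      have := mul_le_mul_of_nonneg_right h ht.le
      rw [div_mul_cancel₀ _ ht.ne', sub_mul, div_mul_cancel₀ _ ht.ne', one_mul] at this
      exact this
    have e : (u - (1 - th)) / th - u = -((1 / th - 1) * (1 - u)) := by
      field_simp
      ring
    rw [e]
    have h3 : 0 ≤ (1 / th - 1) * (1 - u) := mul_nonneg h1 (by linarith)
    refine ⟨by linarith, le_rfl, ?_⟩
    have h4 : (1 / th - 1) * (1 - u) ≤ (1 / th - 1) * th :=
      mul_le_mul_of_nonneg_left (by linarith) h1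
    have h5 : (1 / th - 1) * th = 1 - th := by
      field_simp
    linarith

end

/-- The density with the height one. -/
noncomputable def Dh (s x : ℝ) : ℝ := D s (2 * h0 / (s * (h0 - s))) x

/-- The difference of the densities. -/
noncomputable def gd (s th x : ℝ) : ℝ := tnt s th x - Dh s x

section

variable {s th : ℝ}

theorem D_smul (s a κ x : ℝ) : D s (a * κ) x = a * D s κ x := by
  unfold D Line.Dd
  ring

theorem Dh_mul {κ e : ℝ} (hs0 : 0 < s) (hs1 : s < h0) (he : κ * (s * (h0 - s)) = 2 * h0 * e)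
    (x : ℝ) : D s κ x = e * Dh s x := by
  have hp := h0_pos
  have h1 : 0 < h0 - s := by linarith
  unfold Dh
  rw [← D_smul]
  congr 1
  rw [eq_comm, ← mul_div_assoc, div_eq_iff (by positivity)]
  linarith

theorem Dh_abs (hs0 : 0 < s) (hs1 : s < h0) (x : ℝ) : |Dh s x| ≤ 1 := by
  have hp := h0_pos
  have h1 : 0 < h0 - s := by linarith
  have := D_abs (κ := 2 * h0 / (s * (h0 - s))) hs0.le hs1 (by positivity) x
  refine this.trans (le_of_eq ?_)
  field_simp

theorem Dh_refl (hs0 : 0 < s) (hs1 : s < h0) (x : ℝ) : Dh s (s - x) = -Dh s x :=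
  D_refl _ hs0.le hs1 x

theorem Dh_add (x : ℝ) : Dh s (x + h0) = Dh s x := D_add _ _ _

theorem Dh_cont (hs0 : 0 < s) (hs1 : s < h0) : Continuous (Dh s) :=
  Dd_continuous h0_pos hs0.le hs1.le

theorem Dh_low {x : ℝ} (hs0 : 0 < s) (hs1 : s < h0) (h0x : 0 ≤ x) (hx : x ≤ s) :
    Dh s x = 2 * x / s - 1 := by
  have hp := h0_pos
  have h1 : 0 < h0 - s := by linarith
  unfold Dh
  rw [D_low h0x hx hs1]
  field_simp

theorem Dh_high {x : ℝ} (hs0 : 0 < s) (hs1 : s < h0) (h0x : s ≤ x) (hx : x ≤ h0) :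
    Dh s x = 1 - 2 * (x - s) / (h0 - s) := by
  have hp := h0_pos
  have h1 : 0 < h0 - s := by linarith
  unfold Dh
  rw [D_high h0x hx hs0.le]
  field_simp
  ring

theorem tnt_eq (hs0 : 0 < s) (hs1 : s < h0) (ht : 0 < th) (x : ℝ) :
    tnt s th x = sft (1 / th - 1) (Dh s x / th) := by
  have hp := h0_pos
  have h1 : 0 < h0 - s := by linarith
  unfold tnt ten Dh
  congr 1
  rw [show 2 * h0 / (s * (h0 - s) * th) = 1 / th * (2 * h0 / (s * (h0 - s))) by
    field_simp, D_smul]
  ring

theorem gd_cont (hs0 : 0 < s) (hs1 : s < h0) (ht : 0 < th) (ht1 : th ≤ 1) :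
    Continuous (gd s th) :=
  (tnt_denOk ht ht1 hs0 hs1).cont.sub (Dh_cont hs0 hs1)

theorem gd_refl (hs0 : 0 < s) (hs1 : s < h0) (ht : 0 < th) (ht1 : th ≤ 1) (x : ℝ) :
    gd s th (s - x) = -gd s th x := by
  unfold gd
  rw [(tnt_denOk ht ht1 hs0 hs1).mir, Dh_refl hs0 hs1]
  ring

theorem gd_add (hs0 : 0 < s) (hs1 : s < h0) (ht : 0 < th) (ht1 : th ≤ 1) (x : ℝ) :
    gd s th (x + h0) = gd s th x := by
  unfold gd
  rw [(tnt_denOk ht ht1 hs0 hs1).per, Dh_add]

theorem gd_pos {x : ℝ} (hs0 : 0 < s) (hs1 : s < h0) (ht : 0 < th) (ht1 : th ≤ 1)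
    (h : 0 ≤ Dh s x) :
    gd s th x ≤ 0 ∧ -((1 / th - 1) * (1 - Dh s x)) ≤ gd s th x ∧ -(1 - th) ≤ gd s th x := by
  unfold gd
  rw [tnt_eq hs0 hs1 ht]
  exact sft_sub ht ht1 h ((le_abs_self _).trans (Dh_abs hs0 hs1 x))

theorem gd_neg {x : ℝ} (hs0 : 0 < s) (hs1 : s < h0) (ht : 0 < th) (ht1 : th ≤ 1)
    (h : Dh s x ≤ 0) :
    0 ≤ gd s th x ∧ gd s th x ≤ (1 / th - 1) * (1 + Dh s x) ∧ gd s th x ≤ 1 - th := by
  have h1 : 0 ≤ Dh s (s - x) := by
    rw [Dh_refl hs0 hs1]
    linarith
  obtain ⟨a, b, c⟩ := gd_pos hs0 hs1 ht ht1 h1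
  rw [gd_refl hs0 hs1 ht ht1, Dh_refl hs0 hs1] at *
  refine ⟨by linarith, ?_, by linarith⟩
  linarith

theorem gd_abs (hs0 : 0 < s) (hs1 : s < h0) (ht : 0 < th) (ht1 : th ≤ 1) (x : ℝ) :
    |gd s th x| ≤ 1 - th := by
  rcases le_total 0 (Dh s x) with h | h
  · obtain ⟨a, b, c⟩ := gd_pos hs0 hs1 ht ht1 h
    rw [abs_le]
    constructor <;> linarith
  · obtain ⟨a, b, c⟩ := gd_neg hs0 hs1 ht ht1 h
    rw [abs_le]
    constructor <;> linarith

/-- The difference is small where the density is extreme. -/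
theorem gd_top (hs0 : 0 < s) (hs1 : s < h0) (ht : 0 < th) (ht1 : th ≤ 1) (x : ℝ) :
    |gd s th x| ≤ (1 / th - 1) * (1 - Dh s x) := by
  have hc : 0 ≤ 1 / th - 1 := by
    rw [sub_nonneg, le_div_iff₀ ht]
    linarith
  have hD := Dh_abs hs0 hs1 x
  rw [abs_le] at hD
  rcases le_total 0 (Dh s x) with h | h
  · obtain ⟨a, b, c⟩ := gd_pos hs0 hs1 ht ht1 h
    rw [abs_le]
    constructor <;> linarith
  · obtain ⟨a, b, c⟩ := gd_neg hs0 hs1 ht ht1 h
    rw [abs_of_nonneg a]
    refine b.trans (mul_le_mul_of_nonneg_left (by linarith) hc)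

/-- The mirror image. -/
theorem gd_bot (hs0 : 0 < s) (hs1 : s < h0) (ht : 0 < th) (ht1 : th ≤ 1) (x : ℝ) :
    |gd s th x| ≤ (1 / th - 1) * (1 + Dh s x) := by
  have := gd_top hs0 hs1 ht ht1 (s - x)
  rw [gd_refl hs0 hs1 ht ht1, Dh_refl hs0 hs1, abs_neg] at this
  linarith

theorem gd_int (hs0 : 0 < s) (hs1 : s < h0) (ht : 0 < th) (ht1 : th ≤ 1) (a b : ℝ) :
    IntervalIntegrable (gd s th) MeasureTheory.volume a b :=
  (gd_cont hs0 hs1 ht ht1).intervalIntegrable a b

theorem gd_mirror (hs0 : 0 < s) (hs1 : s < h0) (ht : 0 < th) (ht1 : th ≤ 1) (a b : ℝ) :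
    ∫ x in (s - b)..(s - a), gd s th x = -∫ x in a..b, gd s th x := by
  rw [← intervalIntegral.integral_comp_sub_left (fun x => gd s th x) s,
    ← intervalIntegral.integral_neg]
  exact intervalIntegral.integral_congr fun x _ => gd_refl hs0 hs1 ht ht1 x

theorem gd_cell (hs0 : 0 < s) (hs1 : s < h0) (ht : 0 < th) (ht1 : th ≤ 1) :
    ∫ x in (0 : ℝ)..s, gd s th x = 0 := by
  have := gd_mirror hs0 hs1 ht ht1 0 s
  rw [sub_self, sub_zero] at this
  linarith

theorem gd_period (hs0 : 0 < s) (hs1 : s < h0) (ht : 0 < th) (ht1 : th ≤ 1) (a : ℝ) :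
    ∫ x in a..(a + h0), gd s th x = 0 := by
  have hper : Function.Periodic (gd s th) h0 := gd_add hs0 hs1 ht ht1
  have e1 := gd_mirror hs0 hs1 ht ht1 0 h0
  have e2 := hper.intervalIntegral_add_eq (s - h0) 0
  rw [sub_add_cancel, zero_add] at e2
  rw [sub_zero] at e1
  have e3 := hper.intervalIntegral_add_eq a 0
  rw [zero_add] at e3
  linarith

theorem gd_shift (hs0 : 0 < s) (hs1 : s < h0) (ht : 0 < th) (ht1 : th ≤ 1) (a b : ℝ) (n : ℤ) :
    ∫ x in (a + n * h0)..(b + n * h0), gd s th x = ∫ x in a..b, gd s th x := by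
  have hper : Function.Periodic (gd s th) h0 := gd_add hs0 hs1 ht ht1
  rw [← intervalIntegral.integral_comp_add_right (fun x => gd s th x) (n * h0)]
  exact intervalIntegral.integral_congr fun x _ => hper.int_mul n x

/-- The integral over the short edge at the tight phase. -/
theorem gd_phi0 {α : ℝ} (hs0 : 0 < s) (hs1 : s < h0) (ht : 0 < th) (ht1 : th ≤ 1)
    (hα : α ≤ (h0 - s) / 2) (hα' : -s ≤ α) :
    -((1 / th - 1) * (α ^ 2 / s)) ≤ ∫ x in (-α)..s, gd s th x := by
  have hI := gd_int hs0 hs1 ht ht1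
  have hc : 0 ≤ 1 / th - 1 := by
    rw [sub_nonneg, le_div_iff₀ ht]
    linarith
  have e := intervalIntegral.integral_add_adjacent_intervals (hI (-α) 0) (hI 0 s)
  rw [gd_cell hs0 hs1 ht ht1, add_zero] at e
  rw [← e]
  rcases le_total 0 α with h | h
  · have : 0 ≤ ∫ x in (-α)..(0 : ℝ), gd s th x := by
      refine intervalIntegral.integral_nonneg (by linarith) fun x hx => ?_
      refine (gd_neg hs0 hs1 ht ht1 ?_).1
      have h1 : 0 < h0 - s := by linarith
      rw [← Dh_add, Dh_high hs0 hs1 (by linarith [hx.1]) (by linarith [hx.2]), sub_nonpos,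
        le_div_iff₀ h1]
      linarith [hx.1]
    have h2 : 0 ≤ (1 / th - 1) * (α ^ 2 / s) := by positivity
    linarith
  · rw [intervalIntegral.integral_symm, neg_le_neg_iff]
    have e1 : ∫ x in (0 : ℝ)..(-α), (1 / th - 1) * (2 * x / s) =
        (1 / th - 1) * (α ^ 2 / s) := by
      rw [intervalIntegral.integral_const_mul]
      congr 1
      have : ∀ x : ℝ, 2 * x / s = 2 / s * x := fun x => by ring
      simp only [this]
      rw [intervalIntegral.integral_const_mul, integral_id]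
      field_simp
      ring
    rw [← e1]
    refine intervalIntegral.integral_mono_on (by linarith) (hI _ _)
      (Continuous.intervalIntegrable (by fun_prop) _ _) fun x hx => ?_
    refine (le_abs_self _).trans ((gd_bot hs0 hs1 ht ht1 x).trans (le_of_eq ?_))
    rw [Dh_low hs0 hs1 hx.1 (by linarith [hx.2])]
    ring

/-- The integral over the short edge at an arbitrary phase. -/
theorem gd_phi {α v : ℝ} (hs0 : 0 < s) (hs1 : s < h0) (ht : 0 < th) (ht1 : th ≤ 1)
    (hα : α ≤ (h0 - s) / 2) (hα' : -s ≤ α) :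
    -((1 / th - 1) * (α ^ 2 / s) + 2 * (1 - th) * |v|) ≤
      ∫ x in (v - α)..(s + v), gd s th x := by
  have hI := gd_int hs0 hs1 ht ht1
  have h0 := gd_phi0 hs0 hs1 ht ht1 hα hα'
  have e1 := intervalIntegral.integral_add_adjacent_intervals (hI (-α) s) (hI s (s + v))
  have e2 := intervalIntegral.integral_add_adjacent_intervals (hI (-α) (v - α))
    (hI (v - α) (s + v))
  have b1 : |∫ x in s..(s + v), gd s th x| ≤ (1 - th) * |v| := by
    have := intervalIntegral.norm_integral_le_of_norm_le_const (a := s) (b := s + v)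
      (f := gd s th) (C := 1 - th) fun x _ => by
        rw [Real.norm_eq_abs]
        exact gd_abs hs0 hs1 ht ht1 x
    rwa [Real.norm_eq_abs, add_sub_cancel_left] at this
  have b2 : |∫ x in (-α)..(v - α), gd s th x| ≤ (1 - th) * |v| := by
    have := intervalIntegral.norm_integral_le_of_norm_le_const (a := -α) (b := v - α)
      (f := gd s th) (C := 1 - th) fun x _ => by
        rw [Real.norm_eq_abs]
        exact gd_abs hs0 hs1 ht ht1 x
    rwa [Real.norm_eq_abs, show v - α - -α = v by ring] at this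
  rw [abs_le] at b1 b2
  linarith [b1.1, b2.2]

/-- The density near its maximum. -/
theorem Dh_top (hs0 : 0 < s) (hs1 : s < h0) (hs2 : h0 / 2 ≤ s) {z : ℝ} (hz : |z| ≤ h0) :
    2 / s * min |z| (h0 - |z|) ≤ 1 - Dh s (s + z) := by
  have hp := h0_pos
  have h1 : 0 < h0 - s := by linarith
  have k : ∀ w : ℝ, 0 ≤ w → 2 / s * w ≤ 2 * w / (h0 - s) := by
    intro w hw
    rw [div_mul_eq_mul_div]
    exact div_le_div_of_nonneg_left (by linarith) h1 (by linarith)
  have hs' : 0 ≤ 2 / s := by positivity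
  rcases le_total 0 z with h | h
  · rw [abs_of_nonneg h] at hz ⊢
    rcases le_total z (h0 - s) with h2 | h2
    · rw [Dh_high hs0 hs1 (by linarith) (by linarith)]
      refine (mul_le_mul_of_nonneg_left (min_le_left _ _) hs').trans ?_
      refine (k z h).trans (le_of_eq ?_)
      rw [add_sub_cancel_left]
      ring
    · have e : s + z = (s + z - h0) + h0 := by ring
      rw [e, Dh_add, Dh_low hs0 hs1 (by linarith) (by linarith)]
      refine (mul_le_mul_of_nonneg_left (min_le_right _ _) hs').trans (le_of_eq ?_)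
      field_simp
      ring
  · rw [abs_of_nonpos h] at hz ⊢
    rcases le_total (-s) z with h2 | h2
    · rw [Dh_low hs0 hs1 (by linarith) (by linarith)]
      refine (mul_le_mul_of_nonneg_left (min_le_left _ _) hs').trans (le_of_eq ?_)
      field_simp
      ring
    · rw [← Dh_add, Dh_high hs0 hs1 (by linarith) (by linarith)]
      refine (mul_le_mul_of_nonneg_left (min_le_right _ _) hs').trans ?_
      refine (k _ (by linarith)).trans (le_of_eq ?_)
      ring

/-- **The gap on the steep edge** as a function of the phase. -/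
theorem Dh_gap (hs0 : 0 < s) (hs1 : s < h0) (hs2 : h0 / 2 ≤ s) {v β : ℝ} (hv : |v| ≤ h0 / 2)
    (hβ : |β| ≤ h0 / 2) :
    4 / 5 * (|v| / s) ≤ ∫ u in (0 : ℝ)..1, (1 - Dh s (s + v + u * β)) := by
  have hp := h0_pos
  have hc : Continuous fun u : ℝ => 1 - Dh s (s + v + u * β) :=
    continuous_const.sub ((Dh_cont hs0 hs1).comp (by fun_prop))
  have hI : ∀ a b, IntervalIntegrable (fun u : ℝ => 1 - Dh s (s + v + u * β))
    MeasureTheory.volume a b := fun a b => hc.intervalIntegrable a b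
  have hs' : 0 ≤ 2 / s := by positivity
  have hb0 := abs_nonneg β
  have hv0 := abs_nonneg v
  have pt : ∀ u : ℝ, 0 ≤ u → u ≤ 1 → 2 / s * (|v| - u * |β|) ≤ 1 - Dh s (s + v + u * β) ∧
      2 / s * (u * |β| - |v|) ≤ 1 - Dh s (s + v + u * β) := by
    intro u h0u hu1
    have hu : |u * β| = u * |β| := by rw [abs_mul, abs_of_nonneg h0u]
    have hub : u * |β| ≤ |β| := by nlinarith
    have k1 : |v + u * β| ≤ |v| + u * |β| := by
      rw [← hu]
      exact abs_add_le _ _
    have k2 : |v| - u * |β| ≤ |v + u * β| := by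
      have := abs_sub_abs_le_abs_sub v (-(u * β))
      rw [abs_neg, sub_neg_eq_add, hu] at this
      exact this
    have k3 : u * |β| - |v| ≤ |v + u * β| := by
      have := abs_sub_abs_le_abs_sub (u * β) (-v)
      rw [abs_neg, sub_neg_eq_add, hu, add_comm (u * β)] at this
      exact this
    have key := Dh_top hs0 hs1 hs2 (z := v + u * β) (by linarith)
    rw [← add_assoc] at key
    constructor
    · refine (mul_le_mul_of_nonneg_left (le_min k2 (by linarith)) hs').trans key
    · refine (mul_le_mul_of_nonneg_left (le_min k3 (by linarith)) hs').trans key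
  have e := intervalIntegral.integral_add_adjacent_intervals (hI 0 (7 / 10)) (hI (7 / 10) 1)
  rw [← e]
  have i1 : ∫ u in (0 : ℝ)..(7 / 10), 2 / s * (|v| - u * |β|) =
      2 / s * (7 / 10 * |v| - 49 / 200 * |β|) := by
    rw [intervalIntegral.integral_const_mul, intervalIntegral.integral_sub (by simp)
      (Continuous.intervalIntegrable (by fun_prop) _ _), intervalIntegral.integral_mul_const,
      integral_id, intervalIntegral.integral_const]
    simp only [smul_eq_mul]
    ring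
  have i2 : ∫ u in (7 / 10 : ℝ)..1, 2 / s * (u * |β| - |v|) =
      2 / s * (51 / 200 * |β| - 3 / 10 * |v|) := by
    rw [intervalIntegral.integral_const_mul, intervalIntegral.integral_sub
      (Continuous.intervalIntegrable (by fun_prop) _ _) (by simp),
      intervalIntegral.integral_mul_const, integral_id, intervalIntegral.integral_const]
    simp only [smul_eq_mul]
    ring
  have m1 : ∫ u in (0 : ℝ)..(7 / 10), 2 / s * (|v| - u * |β|) ≤
      ∫ u in (0 : ℝ)..(7 / 10), (1 - Dh s (s + v + u * β)) :=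
    intervalIntegral.integral_mono_on (by norm_num)
      (Continuous.intervalIntegrable (by fun_prop) _ _) (hI _ _)
      fun u hu => (pt u hu.1 (by linarith [hu.2])).1
  have m2 : ∫ u in (7 / 10 : ℝ)..1, 2 / s * (u * |β| - |v|) ≤
      ∫ u in (7 / 10 : ℝ)..1, (1 - Dh s (s + v + u * β)) :=
    intervalIntegral.integral_mono_on (by norm_num)
      (Continuous.intervalIntegrable (by fun_prop) _ _) (hI _ _)
      fun u hu => (pt u (by linarith [hu.1]) hu.2).2
  rw [i1] at m1
  rw [i2] at m2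
  have h3 : 0 ≤ 2 / s * |β| := by positivity
  have h4 : 4 / 5 * (|v| / s) = 2 / s * (2 / 5 * |v|) := by
    field_simp
    ring
  rw [h4]
  nlinarith

/-- The integral over the short edge against the gap on the steep edge, all phases. -/
theorem gd_short {t α β b : ℝ} (hs0 : 0 < s) (hs1 : s < h0) (hs2 : h0 / 2 ≤ s) (ht : 0 < th)
    (ht1 : th ≤ 1) (et : t = s + α) (hα : α ≤ (h0 - s) / 2) (hα' : -s ≤ α)
    (hβ : |β| ≤ h0 / 2) :
    -((1 / th - 1) * (α ^ 2 / s) +
      5 / 2 * (1 - th) * s * ∫ u in (0 : ℝ)..1, (1 - Dh s (b + u * β))) ≤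
      ∫ x in (b - t)..b, gd s th x := by
  have hp := h0_pos
  obtain ⟨n, hn⟩ : ∃ n : ℤ, |b - s - n * h0| ≤ h0 / 2 := by
    refine ⟨round ((b - s) / h0), ?_⟩
    have h1 := abs_sub_round ((b - s) / h0)
    have h2 : b - s - (round ((b - s) / h0) : ℤ) * h0 =
        ((b - s) / h0 - (round ((b - s) / h0) : ℤ)) * h0 := by
      field_simp
    rw [h2, abs_mul, abs_of_pos hp]
    nlinarith
  obtain ⟨v, hv⟩ : ∃ v, v = b - s - n * h0 := ⟨_, rfl⟩
  rw [← hv] at hn
  have e1 : ∫ x in (b - t)..b, gd s th x = ∫ x in (v - α)..(s + v), gd s th x := by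
    rw [← gd_shift hs0 hs1 ht ht1 (v - α) (s + v) n]
    congr 1
    · rw [hv, et]
      ring
    · rw [hv]
      ring
  have e2 : ∫ u in (0 : ℝ)..1, (1 - Dh s (b + u * β)) =
      ∫ u in (0 : ℝ)..1, (1 - Dh s (s + v + u * β)) := by
    refine intervalIntegral.integral_congr fun u _ => ?_
    have hper : Function.Periodic (Dh s) h0 := Dh_add
    change 1 - Dh s (b + u * β) = 1 - Dh s (s + v + u * β)
    rw [← hper.int_mul n (s + v + u * β)]
    congr 2
    rw [hv]
    ring
  rw [e1, e2]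
  have k1 := gd_phi (v := v) hs0 hs1 ht ht1 hα hα'
  have k2 := Dh_gap hs0 hs1 hs2 hn hβ
  have k3 : 2 * (1 - th) * |v| ≤
      5 / 2 * (1 - th) * s * ∫ u in (0 : ℝ)..1, (1 - Dh s (s + v + u * β)) := by
    have h1 : 0 ≤ 5 / 2 * (1 - th) * s := by
      have : 0 ≤ 1 - th := by linarith
      positivity
    have := mul_le_mul_of_nonneg_left k2 h1
    refine le_trans (le_of_eq ?_) this
    field_simp
    ring
  linarith

/-- The integral over the steep edge. -/
theorem gd_steep {β b : ℝ} (hs0 : 0 < s) (hs1 : s < h0) (ht : 0 < th) (ht1 : th ≤ 1) :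
    |∫ x in b..(b + β), gd s th x| ≤
      (1 / th - 1) * |β| * ∫ u in (0 : ℝ)..1, (1 - Dh s (b + u * β)) := by
  have hc : 0 ≤ 1 / th - 1 := by
    rw [sub_nonneg, le_div_iff₀ ht]
    linarith
  have e : β * ∫ u in (0 : ℝ)..1, gd s th (b + β * u) = ∫ x in b..(b + β), gd s th x := by
    have := intervalIntegral.smul_integral_comp_add_mul (a := 0) (b := 1) (gd s th) β b
    rw [mul_zero, add_zero, mul_one, smul_eq_mul] at this
    exact this
  rw [← e, abs_mul]
  have hg : Continuous fun u : ℝ => gd s th (b + β * u) :=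
    (gd_cont hs0 hs1 ht ht1).comp (by fun_prop)
  have hD : Continuous fun u : ℝ => 1 - Dh s (b + u * β) :=
    continuous_const.sub ((Dh_cont hs0 hs1).comp (by fun_prop))
  have h1 : |∫ u in (0 : ℝ)..1, gd s th (b + β * u)| ≤
      ∫ u in (0 : ℝ)..1, (1 / th - 1) * (1 - Dh s (b + u * β)) := by
    refine (intervalIntegral.abs_integral_le_integral_abs zero_le_one).trans ?_
    refine intervalIntegral.integral_mono_on zero_le_one (hg.abs.intervalIntegrable _ _)
      ((continuous_const.mul hD).intervalIntegrable _ _) fun u _ => ?_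
    rw [mul_comm β u]
    exact gd_top hs0 hs1 ht ht1 _
  rw [intervalIntegral.integral_const_mul] at h1
  calc |β| * |∫ u in (0 : ℝ)..1, gd s th (b + β * u)|
      ≤ |β| * ((1 / th - 1) * ∫ u in (0 : ℝ)..1, (1 - Dh s (b + u * β))) :=
        mul_le_mul_of_nonneg_left h1 (abs_nonneg _)
    _ = _ := by ring

theorem Dh_period (hs0 : 0 < s) (hs1 : s < h0) (a : ℝ) : ∫ x in a..(a + h0), Dh s x = 0 := by
  have hper : Function.Periodic (Dh s) h0 := Dh_add
  have e1 : ∫ x in (s - h0)..(s - 0), Dh s x = -∫ x in (0 : ℝ)..h0, Dh s x := by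
    rw [← intervalIntegral.integral_comp_sub_left (fun x => Dh s x) s,
      ← intervalIntegral.integral_neg]
    exact intervalIntegral.integral_congr fun x _ => Dh_refl hs0 hs1 x
  have e2 := hper.intervalIntegral_add_eq (s - h0) 0
  rw [sub_add_cancel, zero_add] at e2
  rw [sub_zero] at e1
  have e3 := hper.intervalIntegral_add_eq a 0
  rw [zero_add] at e3
  linarith

theorem int_nat {f : ℝ → ℝ} (hf : Continuous f)
    (h : ∀ a, ∫ x in a..(a + h0), f x = 0) (a b : ℝ) (n : ℕ) :
    ∫ x in a..(b + n * h0), f x = ∫ x in a..b, f x := by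
  induction n with
  | zero => simp
  | succ n ih =>
    have e := intervalIntegral.integral_add_adjacent_intervals
      (hf.intervalIntegrable (μ := MeasureTheory.volume) a (b + n * h0))
      (hf.intervalIntegrable (b + n * h0) (b + n * h0 + h0))
    rw [h, add_zero, ih] at e
    rw [e]
    congr 1
    push_cast
    ring

/-- The mean of the density times the reduced height is the integral over the edge. -/
theorem tau_mn {κ e y T : ℝ} (hs0 : 0 < s) (hs1 : s < h0)
    (he : κ * (s * (h0 - s)) = 2 * h0 * e) :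
    tau T * mn (D s κ) y (y + tau T) = e * ∫ x in y..(y + T), Dh s x := by
  have e1 : ∫ x in y..(y + T), Dh s x = ∫ x in y..(y + tau T), Dh s x := by
    rw [show y + T = y + tau T + jn T * h0 by
      unfold tau
      ring]
    exact int_nat (Dh_cont hs0 hs1) (Dh_period hs0 hs1) _ _ _
  have e2 := intervalIntegral.smul_integral_comp_add_mul (a := 0) (b := 1) (Dh s) (tau T) y
  rw [mul_zero, add_zero, mul_one, smul_eq_mul] at e2
  rw [e1, ← e2, ← mul_assoc, mul_comm e, mul_assoc]
  congr 1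
  unfold mn
  rw [← intervalIntegral.integral_const_mul]
  refine intervalIntegral.integral_congr fun u _ => ?_
  change D s κ (y + u * (y + tau T - y)) = e * Dh s (y + tau T * u)
  rw [Dh_mul hs0 hs1 he]
  congr 2
  ring

theorem mn_Dh {κ e b β : ℝ} (hs0 : 0 < s) (hs1 : s < h0)
    (he : κ * (s * (h0 - s)) = 2 * h0 * e) :
    e - mn (D s κ) b (b + β) = e * ∫ u in (0 : ℝ)..1, (1 - Dh s (b + u * β)) := by
  have hD : IntervalIntegrable (fun u : ℝ => Dh s (b + u * β)) MeasureTheory.volume 0 1 :=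
    ((Dh_cont hs0 hs1).comp (by fun_prop)).intervalIntegrable _ _
  rw [intervalIntegral.integral_sub (by simp) hD, intervalIntegral.integral_const]
  have : mn (D s κ) b (b + β) = e * ∫ u in (0 : ℝ)..1, Dh s (b + u * β) := by
    unfold mn
    rw [← intervalIntegral.integral_const_mul]
    refine intervalIntegral.integral_congr fun u _ => ?_
    change D s κ (b + u * (b + β - b)) = e * Dh s (b + u * β)
    rw [Dh_mul hs0 hs1 he, add_sub_cancel_left]
  rw [this]
  simp only [smul_eq_mul]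
  ring

/-- The flux of the third kernel for an arbitrary density. -/
theorem pf_A {f : ℝ → ℝ} (hf : Continuous f) (c : ℝ × ℝ × ℝ) (t t' y : ℝ) :
    pf f c t t' y = (c.1 - c.2.2) * (∫ x in y..(y + t), f x) +
      (c.2.1 - c.2.2) * ∫ x in (y + t)..(y + (t + t')), f x := by
  have e := intervalIntegral.integral_add_adjacent_intervals
    (hf.intervalIntegrable (μ := MeasureTheory.volume) y (y + t))
    (hf.intervalIntegrable (y + t) (y + (t + t')))
  unfold pf
  rw [← e]
  ring

theorem pf_B {f : ℝ → ℝ} (hf : Continuous f) (c : ℝ × ℝ × ℝ) (t t' y : ℝ) :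
    pf f c t t' y = (c.1 - c.2.1) * (∫ x in y..(y + t), f x) +
      (c.2.1 - c.2.2) * ∫ x in y..(y + (t + t')), f x := by
  have e := intervalIntegral.integral_add_adjacent_intervals
    (hf.intervalIntegrable (μ := MeasureTheory.volume) y (y + t))
    (hf.intervalIntegrable (y + t) (y + (t + t')))
  unfold pf
  rw [← e]
  ring

/-- The coupled kernel values. -/
noncomputable def cpl (E m : ℝ) (r c : ℝ × ℝ × ℝ) (t t' : ℝ) : ℝ × ℝ × ℝ :=
  (E * r.1 + m * c.1 * tau t, E * r.2.1 + m * c.2.1 * tau t',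
    E * r.2.2 + m * c.2.2 * tau (t + t'))

theorem kf_cpl {κ e E μ : ℝ} (hs0 : 0 < s) (hs1 : s < h0) (ht : 0 < th) (ht1 : th ≤ 1)
    (he : κ * (s * (h0 - s)) = 2 * h0 * e) (he0 : 0 < e) (r c : ℝ × ℝ × ℝ) (t t' y : ℝ) :
    E * kf κ s r t t' y + μ * pf (tnt s th) c t t' y =
      kf κ s (cpl E (μ / e) r c t t') t t' y + μ * pf (gd s th) c t t' y := by
  have h1 := tau_mn (y := y) (T := t) hs0 hs1 he
  have h2 := tau_mn (y := y + t) (T := t') hs0 hs1 he
  have h3 := tau_mn (y := y) (T := t + t') hs0 hs1 he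
  have hI : ∀ a b, ∫ x in a..b, gd s th x =
      (∫ x in a..b, tnt s th x) - ∫ x in a..b, Dh s x := by
    intro a b
    unfold gd
    exact intervalIntegral.integral_sub
      ((tnt_denOk ht ht1 hs0 hs1).cont.intervalIntegrable _ _)
      ((Dh_cont hs0 hs1).intervalIntegrable _ _)
  have k1 : μ / e * c.1 * tau t * mn (D s κ) y (y + tau t) =
      μ * c.1 * ∫ x in y..(y + t), Dh s x := by
    rw [mul_assoc, h1]
    field_simp
  have k2 : μ / e * c.2.1 * tau t' * mn (D s κ) (y + t) (y + t + tau t') =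
      μ * c.2.1 * ∫ x in (y + t)..(y + t + t'), Dh s x := by
    rw [mul_assoc, h2]
    field_simp
  have k3 : μ / e * c.2.2 * tau (t + t') * mn (D s κ) y (y + tau (t + t')) =
      μ * c.2.2 * ∫ x in y..(y + (t + t')), Dh s x := by
    rw [mul_assoc, h3]
    field_simp
  rw [add_assoc] at k2
  unfold kf pf cpl
  simp only
  rw [hI, hI, hI]
  rw [add_mul, add_mul, sub_eq_add_neg, k1]
  rw [show y + t + tau t' = y + (t + tau t') by ring] at *
  rw [k2]
  rw [add_mul, k3]
  ring

/-- **The near vertex, family `A`**: the modulus inequality of the coupled kernel with a reduced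
value at the steep edge implies the direct statement for all phases. -/
theorem near_dirA {κ e E μ X η ν α β t t' : ℝ} {r c : ℝ × ℝ × ℝ} (hs0 : 0 < s) (hs1 : s < h0)
    (hs2 : h0 / 2 ≤ s) (ht : 0 < th) (ht1 : th ≤ 1) (hκ : 0 ≤ κ)
    (he : κ * (s * (h0 - s)) = 2 * h0 * e) (he0 : 0 < e) (hμ : 0 ≤ μ) (et : t = s + α)
    (et' : t' = h0 + β) (hα : α ≤ (h0 - s) / 2) (hα' : -s ≤ α) (hβ : |β| < h0 / 2)
    (h0t : 0 ≤ t) (hT : t + t' ≤ 2 * h0) (hδ : c.2.2 ≤ c.1)
    (hη : μ * (c.1 - c.2.2) * ((1 / th - 1) * (α ^ 2 / s)) ≤ η)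
    (hν : μ * (|c.2.1 - c.2.2| * ((1 / th - 1) * |β|) +
      (c.1 - c.2.2) * (5 / 2 * (1 - th) * s)) ≤ e * ν)
    (h : NGV κ s (X - η - e * ν) t t' ((cpl E (μ / e) r c t t').1,
      (cpl E (μ / e) r c t t').2.1 + ν, (cpl E (μ / e) r c t t').2.2)) (y : ℝ) :
    0 ≤ X + E * kf κ s r t t' y + μ * pf (tnt s th) c t t' y := by
  have hp := h0_pos
  obtain ⟨b1, b2⟩ := abs_lt.1 hβ
  have jt : tau t' = β := by
    unfold tau
    rw [show jn t' = 1 by
      unfold jn
      rw [if_neg (by linarith), if_pos (by linarith)], et']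
    push_cast
    ring
  have key := NGV.dir h hκ hs0.le hs1 h0t (by linarith) hT y
  have e0 := kf_cpl (μ := μ) hs0 hs1 ht ht1 he he0 (E := E) r c t t' y
  have e1 : kf κ s ((cpl E (μ / e) r c t t').1, (cpl E (μ / e) r c t t').2.1 + ν,
      (cpl E (μ / e) r c t t').2.2) t t' y =
      kf κ s (cpl E (μ / e) r c t t') t t' y + ν * mn (D s κ) (y + t) (y + t + tau t') := by
    unfold kf
    simp only
    ring
  have e2 := mn_Dh (κ := κ) (b := y + t) (β := β) hs0 hs1 he
  rw [e1, jt] at key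
  obtain ⟨V, hV⟩ : ∃ V, V = ∫ u in (0 : ℝ)..1, (1 - Dh s (y + t + u * β)) := ⟨_, rfl⟩
  rw [← hV] at e2
  have V0 : 0 ≤ V := by
    rw [hV]
    refine intervalIntegral.integral_nonneg zero_le_one fun u _ => ?_
    have := abs_le.1 (Dh_abs hs0 hs1 (y + t + u * β))
    linarith [this.2]
  have g1 := gd_short (b := y + t) hs0 hs1 hs2 ht ht1 et hα hα' hβ.le
  rw [← hV, add_sub_cancel_right] at g1
  have g2 := gd_steep (b := y + t) (β := β) hs0 hs1 ht ht1
  rw [← hV] at g2
  have g3 : ∫ x in (y + t)..(y + (t + t')), gd s th x = ∫ x in (y + t)..(y + t + β), gd s th x := by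
    have := int_nat (gd_cont hs0 hs1 ht ht1) (gd_period hs0 hs1 ht ht1) (y + t) (y + t + β) 1
    rw [← this]
    congr 1
    rw [et']
    push_cast
    ring
  rw [add_assoc, e0, pf_A (gd_cont hs0 hs1 ht ht1), g3]
  have d0 : 0 ≤ c.1 - c.2.2 := by linarith
  have k1 : -(μ * (c.1 - c.2.2) * ((1 / th - 1) * (α ^ 2 / s)) +
      μ * (c.1 - c.2.2) * (5 / 2 * (1 - th) * s * V)) ≤
      μ * ((c.1 - c.2.2) * ∫ x in y..(y + t), gd s th x) := by
    have := mul_le_mul_of_nonneg_left g1 (mul_nonneg hμ d0)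
    linarith
  have k2 : -(μ * (|c.2.1 - c.2.2| * ((1 / th - 1) * |β| * V))) ≤
      μ * ((c.2.1 - c.2.2) * ∫ x in (y + t)..(y + t + β), gd s th x) := by
    rw [← mul_neg]
    refine mul_le_mul_of_nonneg_left ?_ hμ
    rw [neg_le]
    refine (neg_le_abs _).trans ?_
    rw [abs_mul]
    exact mul_le_mul_of_nonneg_left g2 (abs_nonneg _)
  have k3 := mul_le_mul_of_nonneg_right hν V0
  have e3 : mn (D s κ) (y + t) (y + t + β) = e - e * V := by linarith
  rw [e3] at key
  nlinarith only [key, k1, k2, k3, hη]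

/-- **The near vertex, family `B`.** -/
theorem near_dirB {κ e E μ X η ν α β t t' : ℝ} {r c : ℝ × ℝ × ℝ} (hs0 : 0 < s) (hs1 : s < h0)
    (hs2 : h0 / 2 ≤ s) (ht : 0 < th) (ht1 : th ≤ 1) (hκ : 0 ≤ κ)
    (he : κ * (s * (h0 - s)) = 2 * h0 * e) (he0 : 0 < e) (hμ : 0 ≤ μ) (et : t = s + α)
    (et' : t + t' = h0 + β) (hα : α ≤ (h0 - s) / 2) (hα' : -s ≤ α) (hβ : |β| < h0 / 2)
    (h0t : 0 ≤ t) (h0t' : 0 ≤ t') (hδ : c.1 ≤ c.2.1)
    (hη : μ * (c.2.1 - c.1) * ((1 / th - 1) * (α ^ 2 / s)) ≤ η)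
    (hν : μ * (|c.2.1 - c.2.2| * ((1 / th - 1) * |β|) +
      (c.2.1 - c.1) * (5 / 2 * (1 - th) * s)) ≤ e * ν)
    (h : NGV κ s (X - η - e * ν) t t' ((cpl E (μ / e) r c t t').1,
      (cpl E (μ / e) r c t t').2.1, (cpl E (μ / e) r c t t').2.2 + ν)) (y : ℝ) :
    0 ≤ X + E * kf κ s r t t' y + μ * pf (tnt s th) c t t' y := by
  have hp := h0_pos
  obtain ⟨b1, b2⟩ := abs_lt.1 hβ
  have jt : tau (t + t') = β := by
    unfold tau
    rw [show jn (t + t') = 1 by
      unfold jn
      rw [if_neg (by linarith), if_pos (by linarith)], et']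
    push_cast
    ring
  have key := NGV.dir h hκ hs0.le hs1 h0t h0t' (by linarith) y
  have e0 := kf_cpl (μ := μ) hs0 hs1 ht ht1 he he0 (E := E) r c t t' y
  have e1 : kf κ s ((cpl E (μ / e) r c t t').1, (cpl E (μ / e) r c t t').2.1,
      (cpl E (μ / e) r c t t').2.2 + ν) t t' y =
      kf κ s (cpl E (μ / e) r c t t') t t' y - ν * mn (D s κ) y (y + tau (t + t')) := by
    unfold kf
    simp only
    ring
  rw [e1, jt] at key
  have hm : mn (D s κ) y (y + β) = -mn (D s κ) (s - y) (s - y + -β) := by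
    have h1 := Line.mn_mirror (f := D s κ) (fun z => D_refl κ hs0.le hs1 z) y (y + β)
    rw [show s - y + -β = s - (y + β) by ring, h1, neg_neg]
  have e2 := mn_Dh (κ := κ) (b := s - y) (β := -β) hs0 hs1 he
  obtain ⟨V, hV⟩ : ∃ V, V = ∫ u in (0 : ℝ)..1, (1 - Dh s (s - y + u * -β)) := ⟨_, rfl⟩
  rw [← hV] at e2
  have V0 : 0 ≤ V := by
    rw [hV]
    refine intervalIntegral.integral_nonneg zero_le_one fun u _ => ?_
    have := abs_le.1 (Dh_abs hs0 hs1 (s - y + u * -β))
    linarith [this.2]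
  have g1 := gd_short (b := s - y) (β := -β) hs0 hs1 hs2 ht ht1 et hα hα' (by
    rw [abs_neg]
    exact hβ.le)
  rw [← hV] at g1
  have g1' : ∫ x in (s - y - t)..(s - y), gd s th x = -∫ x in y..(y + t), gd s th x := by
    rw [← gd_mirror hs0 hs1 ht ht1]
    congr 1
    ring
  rw [g1'] at g1
  have g2 := gd_steep (b := s - y) (β := -β) hs0 hs1 ht ht1
  rw [← hV, abs_neg] at g2
  have g2' : |∫ x in (s - y)..(s - y + -β), gd s th x| = |∫ x in y..(y + β), gd s th x| := by
    rw [intervalIntegral.integral_symm, abs_neg,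
      show s - y + -β = s - (y + β) by ring, gd_mirror hs0 hs1 ht ht1, abs_neg]
  rw [g2'] at g2
  have g3 : ∫ x in y..(y + (t + t')), gd s th x = ∫ x in y..(y + β), gd s th x := by
    have := int_nat (gd_cont hs0 hs1 ht ht1) (gd_period hs0 hs1 ht ht1) y (y + β) 1
    rw [← this]
    congr 1
    rw [et']
    push_cast
    ring
  rw [add_assoc, e0, pf_B (gd_cont hs0 hs1 ht ht1), g3]
  have d0 : 0 ≤ c.2.1 - c.1 := by linarith
  have k1 : -(μ * (c.2.1 - c.1) * ((1 / th - 1) * (α ^ 2 / s)) +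
      μ * (c.2.1 - c.1) * (5 / 2 * (1 - th) * s * V)) ≤
      μ * ((c.1 - c.2.1) * ∫ x in y..(y + t), gd s th x) := by
    have := mul_le_mul_of_nonneg_left g1 (mul_nonneg hμ d0)
    linarith
  have k2 : -(μ * (|c.2.1 - c.2.2| * ((1 / th - 1) * |β| * V))) ≤
      μ * ((c.2.1 - c.2.2) * ∫ x in y..(y + β), gd s th x) := by
    rw [← mul_neg]
    refine mul_le_mul_of_nonneg_left ?_ hμ
    rw [neg_le]
    refine (neg_le_abs _).trans ?_
    rw [abs_mul]
    exact mul_le_mul_of_nonneg_left g2 (abs_nonneg _)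
  have k3 := mul_le_mul_of_nonneg_right hν V0
  have e3 : mn (D s κ) y (y + β) = -(e - e * V) := by
    rw [hm]
    linarith
  rw [e3] at key
  nlinarith only [key, k1, k2, k3, hη]

end

end Pool.Agent.Strip051.LC
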