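import Pool.Agent.Strip051.LC.Exact.MolU

/-! # The near vertex at the tight triangles: the sharp constant

The integral of the difference of the densities over the short edge is negative only for the phases
beyond the tight one on the steep side; there the gap on the steep edge is large. -/

namespace Pool.Agent.Strip051.LC

open Pool.Agent.StripNear Pool.Agent.StripSquare Pool.Agent.Strip051.Sweep
open Pool.Agent.Strip051.LC.Line (D D_refl D_add D_low D_high D_abs D_add_int D_add_nat
  Dd_continuous mn jn tau)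

section

variable {s th : ℝ}

theorem gd_bd (hs0 : 0 < s) (hs1 : s < h0) (ht : 0 < th) (ht1 : th ≤ 1) {a b : ℝ} (hab : a ≤ b) :
    -((1 - th) * (b - a)) ≤ ∫ x in a..b, gd s th x ∧
      ∫ x in a..b, gd s th x ≤ (1 - th) * (b - a) := by
  have := intervalIntegral.norm_integral_le_of_norm_le_const (a := a) (b := b)
    (f := gd s th) (C := 1 - th) fun x _ => by
      rw [Real.norm_eq_abs]
      exact gd_abs hs0 hs1 ht ht1 x
  rw [Real.norm_eq_abs, abs_of_nonneg (by linarith : 0 ≤ b - a)] at this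
  exact abs_le.1 this

theorem gd_le0 (hs0 : 0 < s) (hs1 : s < h0) (ht : 0 < th) (ht1 : th ≤ 1) {a b : ℝ} (hab : a ≤ b)
    (h : ∀ x, a ≤ x → x ≤ b → 0 ≤ Dh s x) : ∫ x in a..b, gd s th x ≤ 0 := by
  have := intervalIntegral.integral_mono_on (g := fun _ => (0 : ℝ)) hab
    (gd_int hs0 hs1 ht ht1 a b) (by simp) fun x hx => (gd_pos hs0 hs1 ht ht1 (h x hx.1 hx.2)).1
  simpa using this

theorem gd_ge0 (hs0 : 0 < s) (hs1 : s < h0) (ht : 0 < th) (ht1 : th ≤ 1) {a b : ℝ} (hab : a ≤ b)
    (h : ∀ x, a ≤ x → x ≤ b → Dh s x ≤ 0) : 0 ≤ ∫ x in a..b, gd s th x :=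
  intervalIntegral.integral_nonneg hab fun x hx => (gd_neg hs0 hs1 ht ht1 (h x hx.1 hx.2)).1

theorem Dh_half (hs0 : 0 < s) (hs1 : s < h0) {x : ℝ} (h0x : s / 2 ≤ x) (hx : x ≤ s) :
    0 ≤ Dh s x := by
  rw [Dh_low hs0 hs1 (by linarith) hx, sub_nonneg, le_div_iff₀ hs0]
  linarith

theorem Dh_half' (hs0 : 0 < s) (hs1 : s < h0) {x : ℝ} (h0x : 0 ≤ x) (hx : x ≤ s / 2) :
    Dh s x ≤ 0 := by
  rw [Dh_low hs0 hs1 h0x (by linarith), sub_nonpos, div_le_iff₀ hs0]
  linarith

/-- The primitive from zero is nonnegative on the first cell. -/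
theorem gdA (hs0 : 0 < s) (hs1 : s < h0) (ht : 0 < th) (ht1 : th ≤ 1) {w : ℝ} (h0w : 0 ≤ w)
    (hw : w ≤ s) : 0 ≤ ∫ x in (0 : ℝ)..w, gd s th x := by
  have hI := gd_int hs0 hs1 ht ht1
  rcases le_total w (s / 2) with h | h
  · exact gd_ge0 hs0 hs1 ht ht1 h0w fun x hx hx' => Dh_half' hs0 hs1 hx (by linarith)
  · have e := intervalIntegral.integral_add_adjacent_intervals (hI 0 w) (hI w s)
    rw [gd_cell hs0 hs1 ht ht1] at e
    have := gd_le0 hs0 hs1 ht ht1 hw fun x hx hx' => Dh_half hs0 hs1 (by linarith) hx'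
    linarith

/-- The primitive from zero is at most quadratic on the first cell. -/
theorem gdQ (hs0 : 0 < s) (hs1 : s < h0) (ht : 0 < th) (ht1 : th ≤ 1) {w : ℝ} (h0w : 0 ≤ w)
    (hw : w ≤ s) : ∫ x in (0 : ℝ)..w, gd s th x ≤ (1 / th - 1) * (w ^ 2 / s) := by
  have hI := gd_int hs0 hs1 ht ht1
  have h := gd_phi0 (α := -w) hs0 hs1 ht ht1 (by linarith) (by linarith)
  rw [neg_neg, neg_sq] at h
  have e := intervalIntegral.integral_add_adjacent_intervals (hI 0 w) (hI w s)
  rw [gd_cell hs0 hs1 ht ht1] at e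
  linarith

/-- The primitive from `s` is nonpositive on the second cell. -/
theorem gdB (hs0 : 0 < s) (hs1 : s < h0) (ht : 0 < th) (ht1 : th ≤ 1) {w : ℝ} (h0w : s ≤ w)
    (hw : w ≤ h0) : ∫ x in s..w, gd s th x ≤ 0 := by
  have hI := gd_int hs0 hs1 ht ht1
  have h1 : 0 < h0 - s := by linarith
  rcases le_total w ((s + h0) / 2) with h | h
  · refine gd_le0 hs0 hs1 ht ht1 h0w fun x hx hx' => ?_
    rw [Dh_high hs0 hs1 hx (by linarith), sub_nonneg, div_le_iff₀ h1]
    linarith
  · have e := intervalIntegral.integral_add_adjacent_intervals (hI s w) (hI w h0)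
    have e1 := intervalIntegral.integral_add_adjacent_intervals (hI 0 s) (hI s h0)
    have e2 := gd_period hs0 hs1 ht ht1 0
    rw [zero_add] at e2
    rw [gd_cell hs0 hs1 ht ht1, e2] at e1
    have := gd_ge0 hs0 hs1 ht ht1 hw fun x hx hx' => by
      rw [Dh_high hs0 hs1 (by linarith) (by linarith), sub_nonpos, le_div_iff₀ h1]
      linarith
    linarith

/-- The integral up to zero is nonnegative on the cell left of zero. -/
theorem gdC (hs0 : 0 < s) (hs1 : s < h0) (ht : 0 < th) (ht1 : th ≤ 1) {z : ℝ}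
    (hz : -(h0 - s) ≤ z) (hz' : z ≤ 0) : 0 ≤ ∫ x in z..(0 : ℝ), gd s th x := by
  have hI := gd_int hs0 hs1 ht ht1
  have e := gd_shift hs0 hs1 ht ht1 z 0 1
  rw [Int.cast_one, one_mul, zero_add] at e
  rw [← e]
  have e0 := intervalIntegral.integral_add_adjacent_intervals (hI s (z + h0)) (hI (z + h0) h0)
  have e1 := intervalIntegral.integral_add_adjacent_intervals (hI 0 s) (hI s h0)
  have e2 := gd_period hs0 hs1 ht ht1 0
  rw [zero_add] at e2
  rw [gd_cell hs0 hs1 ht ht1, e2] at e1
  have := gdB hs0 hs1 ht ht1 (w := z + h0) (by linarith) (by linarith)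
  linarith

/-- **The short edge beyond the tight phase**, steep side. -/
theorem gdI1 {v α : ℝ} (hs0 : 0 < s) (hs1 : s < h0) (ht : 0 < th) (ht1 : th ≤ 1) (h0v : 0 ≤ v)
    (hv : v ≤ h0 - s) (hs2 : h0 / 2 ≤ s) (hα : α ≤ h0 - s) (hα' : -s ≤ α) :
    -((1 / th - 1) * (α ^ 2 / s) + 2 * (1 - th) * v) ≤ ∫ x in (v - α)..(s + v), gd s th x := by
  have hI := gd_int hs0 hs1 ht ht1
  have hc : 0 ≤ 1 / th - 1 := by
    rw [sub_nonneg, le_div_iff₀ ht]
    linarith
  have q0 : 0 ≤ (1 / th - 1) * (α ^ 2 / s) := by positivity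
  have e1 := intervalIntegral.integral_add_adjacent_intervals (hI (v - α) 0) (hI 0 (s + v))
  have e2 := intervalIntegral.integral_add_adjacent_intervals (hI 0 s) (hI s (s + v))
  rw [gd_cell hs0 hs1 ht ht1] at e2
  have b1 := (gd_bd hs0 hs1 ht ht1 (a := s) (b := s + v) (by linarith)).1
  rw [add_sub_cancel_left] at b1
  have hv1 : 0 ≤ (1 - th) * v := mul_nonneg (by linarith) h0v
  rcases le_total (v - α) 0 with h | h
  · have := gdC hs0 hs1 ht ht1 (z := v - α) (by linarith) h
    linarith
  · have e3 : ∫ x in (v - α)..(0 : ℝ), gd s th x = -∫ x in (0 : ℝ)..(v - α), gd s th x :=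
      intervalIntegral.integral_symm _ _
    rcases le_total 0 α with ha | ha
    · have b2 := (gd_bd hs0 hs1 ht ht1 h).2
      have : (1 - th) * (v - α - 0) ≤ (1 - th) * v :=
        mul_le_mul_of_nonneg_left (by linarith) (by linarith)
      linarith
    · have e4 := intervalIntegral.integral_add_adjacent_intervals (hI 0 (-α)) (hI (-α) (v - α))
      have b2 := (gd_bd hs0 hs1 ht ht1 (a := -α) (b := v - α) (by linarith)).2
      have b3 := gdQ hs0 hs1 ht ht1 (w := -α) (by linarith) (by linarith)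
      rw [neg_sq] at b3
      have : (1 - th) * (v - α - -α) = (1 - th) * v := by ring
      linarith

/-- The short edge before the tight phase. -/
theorem gdI2 {v α : ℝ} (hs0 : 0 < s) (hs1 : s < h0) (ht : 0 < th) (ht1 : th ≤ 1)
    (hv : -s ≤ v) (hv' : v ≤ 0) (hα : α ≤ h0 - s) (hα' : -s ≤ α) :
    -((1 / th - 1) * (α ^ 2 / s)) ≤ ∫ x in (v - α)..(s + v), gd s th x ∨
      v < -(s / 2) ∧ -((1 - th) * (h0 - s - α)) ≤ ∫ x in (v - α)..(s + v), gd s th x := by
  have hI := gd_int hs0 hs1 ht ht1
  have hc : 0 ≤ 1 / th - 1 := by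
    rw [sub_nonneg, le_div_iff₀ ht]
    linarith
  have q0 : 0 ≤ (1 / th - 1) * (α ^ 2 / s) := by positivity
  have e1 := intervalIntegral.integral_add_adjacent_intervals (hI (v - α) 0) (hI 0 (s + v))
  have a1 := gdA hs0 hs1 ht ht1 (w := s + v) (by linarith) (by linarith)
  rcases le_total 0 (v - α) with h | h
  · left
    have e3 : ∫ x in (v - α)..(0 : ℝ), gd s th x = -∫ x in (0 : ℝ)..(v - α), gd s th x :=
      intervalIntegral.integral_symm _ _
    have b3 := gdQ hs0 hs1 ht ht1 (w := v - α) h (by linarith)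
    have b4 : (1 / th - 1) * ((v - α) ^ 2 / s) ≤ (1 / th - 1) * (α ^ 2 / s) := by
      refine mul_le_mul_of_nonneg_left (div_le_div_of_nonneg_right ?_ hs0.le) hc
      nlinarith
    linarith
  · rcases le_total (-(h0 - s)) (v - α) with h2 | h2
    · left
      have := gdC hs0 hs1 ht ht1 h2 h
      linarith
    · have e4 := intervalIntegral.integral_add_adjacent_intervals (hI (v - α) (s + v))
        (hI (s + v) (v - α + h0))
      rw [gd_period hs0 hs1 ht ht1] at e4
      rcases le_or_gt (-(s / 2)) v with h3 | h3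
      · left
        have := gd_le0 hs0 hs1 ht ht1 (a := s + v) (b := v - α + h0) (by linarith)
          fun x hx hx' => Dh_half hs0 hs1 (by linarith) (by linarith)
        linarith
      · right
        refine ⟨h3, ?_⟩
        have := (gd_bd hs0 hs1 ht ht1 (a := s + v) (b := v - α + h0) (by linarith)).2
        have e5 : (1 - th) * (v - α + h0 - (s + v)) = (1 - th) * (h0 - s - α) := by ring
        linarith

theorem lin_int (p q a b : ℝ) :
    ∫ u in a..b, (p + q * u) = (b - a) * p + q * ((b ^ 2 - a ^ 2) / 2) := by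
  rw [intervalIntegral.integral_add (by simp)
    (Continuous.intervalIntegrable (by fun_prop) _ _), intervalIntegral.integral_const_mul,
    integral_id, intervalIntegral.integral_const]
  simp only [smul_eq_mul]

/-- The gap at a phase beyond the tight one, steep side. -/
theorem gapW (hs0 : 0 < s) (hs1 : s < h0) {z : ℝ} (h0z : 0 ≤ z) (hz : z ≤ h0 - s) :
    1 - Dh s (s + z) = 2 * z / (h0 - s) := by
  rw [Dh_high hs0 hs1 (by linarith) (by linarith), add_sub_cancel_left]
  ring

theorem gapV (hs0 : 0 < s) (hs1 : s < h0) {z : ℝ} (h0z : z ≤ 0) (hz : -s ≤ z) :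
    1 - Dh s (s + z) = -(2 * z / s) := by
  rw [Dh_low hs0 hs1 (by linarith) (by linarith)]
  field_simp
  ring

theorem gapU (hs0 : 0 < s) (hs1 : s < h0) {z : ℝ} (h0z : z ≤ -s) (hz : -h0 ≤ z) :
    1 - Dh s (s + z) = 2 * (z + h0) / (h0 - s) := by
  rw [← Dh_add, Dh_high hs0 hs1 (by linarith) (by linarith)]
  ring

theorem gapP (hs0 : 0 < s) (hs1 : s < h0) (z : ℝ) : 0 ≤ 1 - Dh s z := by
  have := abs_le.1 (Dh_abs hs0 hs1 z)
  linarith [this.2]

theorem gapI (s v β : ℝ) (hs0 : 0 < s) (hs1 : s < h0) (a b : ℝ) :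
    IntervalIntegrable (fun u : ℝ => 1 - Dh s (s + v + u * β)) MeasureTheory.volume a b :=
  (continuous_const.sub ((Dh_cont hs0 hs1).comp (by fun_prop))).intervalIntegrable a b

/-- **The gap on the steep edge**, steep side. -/
theorem gap1 {v β l : ℝ} (hs0 : 0 < s) (hs1 : s < h0) (h0v : 0 ≤ v) (hv : v ≤ h0 - s)
    (hβ : |β| ≤ s / 2) (hl0 : 0 < l) (hl : l ^ 2 * h0 = h0 - s) :
    2 * v / (h0 - s) * (l / (1 + l)) ≤ ∫ u in (0 : ℝ)..1, (1 - Dh s (s + v + u * β)) := by
  have hp := h0_pos
  have h1 : 0 < h0 - s := by linarith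
  have hl1 : l < 1 := by
    by_contra h
    push Not at h
    nlinarith [mul_le_mul_of_nonneg_right h hl0.le]
  have hI := gapI s v β hs0 hs1
  rcases le_total 0 β with hb | hb
  · rw [abs_of_nonneg hb] at hβ
    have k : ∫ u in (0 : ℝ)..1, v / (h0 - s) ≤
        ∫ u in (0 : ℝ)..1, (1 - Dh s (s + v + u * β)) := by
      refine intervalIntegral.integral_mono_on zero_le_one (by simp) (hI _ _) fun u hu => ?_
      have u1 : 0 ≤ u * β := mul_nonneg hu.1 hb
      have u2 : u * β ≤ β := by nlinarith [hu.2]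
      rcases le_total (v + u * β) (h0 - s) with h | h
      · rw [add_assoc, gapW hs0 hs1 (by linarith) h]
        exact div_le_div_of_nonneg_right (by linarith) h1.le
      · have e : s + v + u * β = (s + v + u * β - h0) + h0 := by ring
        rw [e, Dh_add, Dh_low hs0 hs1 (by linarith) (by linarith)]
        have k1 : v / (h0 - s) ≤ 1 := by
          rw [div_le_one h1]
          exact hv
        have k2 : 2 * (s + v + u * β - h0) / s ≤ 1 := by
          rw [div_le_one hs0]
          linarith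
        linarith
    rw [intervalIntegral.integral_const, sub_zero, one_smul] at k
    refine le_trans ?_ k
    have k3 : l / (1 + l) ≤ 1 / 2 := by
      rw [div_le_div_iff₀ (by linarith) (by norm_num)]
      linarith
    have k4 : 0 ≤ 2 * v / (h0 - s) := by positivity
    calc 2 * v / (h0 - s) * (l / (1 + l)) ≤ 2 * v / (h0 - s) * (1 / 2) :=
          mul_le_mul_of_nonneg_left k3 k4
      _ = v / (h0 - s) := by ring
  · rw [abs_of_nonpos hb] at hβ
    have pt : ∀ u : ℝ, 0 ≤ u → u ≤ 1 →
        2 * v / (h0 - s) + 2 * β / (h0 - s) * u ≤ 1 - Dh s (s + v + u * β) ∧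
        -(2 * v / s) + -(2 * β / s) * u ≤ 1 - Dh s (s + v + u * β) := by
      intro u hu hu'
      have u1 : u * β ≤ 0 := mul_nonpos_of_nonneg_of_nonpos hu hb
      have u2 : β ≤ u * β := by nlinarith
      rcases le_total 0 (v + u * β) with h | h
      · rw [add_assoc, gapW hs0 hs1 h (by linarith)]
        constructor
        · exact le_of_eq (by ring)
        · have a1 : 0 ≤ 2 * (v + u * β) / (h0 - s) := by positivity
          have a2 : 0 ≤ 2 * (v + u * β) / s := by positivity
          have a3 : -(2 * v / s) + -(2 * β / s) * u = -(2 * (v + u * β) / s) := by ring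
          linarith
      · rw [add_assoc, gapV hs0 hs1 h (by linarith)]
        constructor
        · have a1 : 2 * (v + u * β) / (h0 - s) ≤ 0 :=
            div_nonpos_of_nonpos_of_nonneg (by linarith) h1.le
          have a2 : 2 * (v + u * β) / s ≤ 0 :=
            div_nonpos_of_nonpos_of_nonneg (by linarith) hs0.le
          have a3 : 2 * v / (h0 - s) + 2 * β / (h0 - s) * u = 2 * (v + u * β) / (h0 - s) := by
            ring
          linarith
        · exact le_of_eq (by ring)
    have e := intervalIntegral.integral_add_adjacent_intervals (hI 0 l) (hI l 1)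
    rw [← e]
    have m1 := intervalIntegral.integral_mono_on (a := 0) (b := l) hl0.le
      (Continuous.intervalIntegrable (by fun_prop :
        Continuous fun u : ℝ => 2 * v / (h0 - s) + 2 * β / (h0 - s) * u) _ _) (hI _ _)
      fun u hu => (pt u hu.1 (by linarith [hu.2])).1
    have m2 := intervalIntegral.integral_mono_on (a := l) (b := 1) hl1.le
      (Continuous.intervalIntegrable (by fun_prop :
        Continuous fun u : ℝ => -(2 * v / s) + -(2 * β / s) * u) _ _) (hI _ _)
      fun u hu => (pt u (by linarith [hu.1]) hu.2).2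
    rw [lin_int] at m1 m2
    have hs' : s = (1 - l ^ 2) * h0 := by linarith
    have h3 : 0 < 1 - l := by linarith
    have h4 : 0 < 1 + l := by linarith
    have key : 2 * v / (h0 - s) * (l / (1 + l)) =
        (l - 0) * (2 * v / (h0 - s)) + 2 * β / (h0 - s) * ((l ^ 2 - 0 ^ 2) / 2) +
          ((1 - l) * -(2 * v / s) + -(2 * β / s) * ((1 ^ 2 - l ^ 2) / 2)) := by
      have h5 : h0 - s = l ^ 2 * h0 := hl.symm
      rw [h5, hs', show (1 - l ^ 2) * h0 = (1 - l) * (1 + l) * h0 by ring]
      field_simp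
      ring
    rw [key]
    linarith

/-- The gap far before the tight phase, the steep edge shifted up. -/
theorem gap3a {v β : ℝ} (hs0 : 0 < s) (hs1 : s < h0) (hv : -s ≤ v) (hv' : v ≤ -(s / 2))
    (hb : 0 ≤ β) (hβ : β ≤ s / 2) :
    1 - β / s ≤ ∫ u in (0 : ℝ)..1, (1 - Dh s (s + v + u * β)) := by
  have m := intervalIntegral.integral_mono_on (a := 0) (b := 1) zero_le_one
    (Continuous.intervalIntegrable (by fun_prop :
      Continuous fun u : ℝ => 1 + -(2 * β / s) * u) _ _) (gapI s v β hs0 hs1 _ _)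
    fun u hu => by
      have u1 : 0 ≤ u * β := mul_nonneg hu.1 hb
      have u2 : u * β ≤ β := by nlinarith [hu.2]
      rw [add_assoc, gapV hs0 hs1 (by linarith) (by linarith)]
      have a1 : 1 ≤ -(2 * v / s) := by
        rw [← neg_div, le_div_iff₀ hs0]
        linarith
      have a2 : -(2 * (v + u * β) / s) = -(2 * v / s) + -(2 * β / s) * u := by ring
      linarith
  rw [lin_int] at m
  refine le_trans (le_of_eq ?_) m
  ring

/-- The gap far before the tight phase, the steep edge shifted down. -/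
theorem gap3b {v β : ℝ} (hs0 : 0 < s) (hs1 : s < h0) (hv : -s ≤ v) (hv' : v ≤ -(s / 2))
    (hb : β < 0) : 1 ≤ ∫ u in (0 : ℝ)..1, (1 - Dh s (s + v + u * β)) ∨
      h0 - s ≤ (∫ u in (0 : ℝ)..1, (1 - Dh s (s + v + u * β))) * -β := by
  have hp := h0_pos
  have h1 : 0 < h0 - s := by linarith
  have hI := gapI s v β hs0 hs1
  have hb' : 0 < -β := by linarith
  have one : ∀ z, -s ≤ z → z ≤ -(s / 2) → 1 ≤ 1 - Dh s (s + z) := by
    intro z hz hz'
    rw [gapV hs0 hs1 (by linarith) hz, ← neg_div, le_div_iff₀ hs0]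
    linarith
  rcases le_total (-β) (v + s) with h | h
  · left
    have m := intervalIntegral.integral_mono_on (a := 0) (b := 1) (f := fun _ => (1 : ℝ))
      zero_le_one (by simp) (hI _ _) fun u hu => by
        have u1 : u * β ≤ 0 := mul_nonpos_of_nonneg_of_nonpos hu.1 hb.le
        have u2 : β ≤ u * β := by nlinarith [hu.2]
        rw [add_assoc]
        exact one _ (by linarith) (by linarith)
    rw [intervalIntegral.integral_const, sub_zero, one_smul] at m
    exact m
  · obtain ⟨w, hw⟩ : ∃ w, w = (v + s) / -β := ⟨_, rfl⟩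
    have hw0 : 0 ≤ w := by
      rw [hw]
      exact div_nonneg (by linarith) hb'.le
    have hw1 : w ≤ 1 := by
      rw [hw, div_le_one hb']
      exact h
    have hwb : w * -β = v + s := by
      rw [hw, div_mul_cancel₀ _ hb'.ne']
    have key : ∀ y, w ≤ y → 0 ≤ v + y * β + h0 →
        y ≤ ∫ u in (0 : ℝ)..y, (1 - Dh s (s + v + u * β)) := by
      intro y hy hy'
      have e := intervalIntegral.integral_add_adjacent_intervals (hI 0 w) (hI w y)
      rw [← e]
      have m1 := intervalIntegral.integral_mono_on (a := 0) (b := w) (f := fun _ => (1 : ℝ))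
        hw0 (by simp) (hI _ _) fun u hu => by
          have u1 : u * β ≤ 0 := mul_nonpos_of_nonneg_of_nonpos hu.1 hb.le
          have u2 : w * β ≤ u * β := mul_le_mul_of_nonpos_right hu.2 hb.le
          rw [add_assoc]
          exact one _ (by linarith) (by linarith)
      rw [intervalIntegral.integral_const, sub_zero, smul_eq_mul, mul_one] at m1
      have m2 := intervalIntegral.integral_mono_on (a := w) (b := y) hy
        (Continuous.intervalIntegrable (by fun_prop : Continuous fun u : ℝ =>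
          2 * (v + h0) / (h0 - s) + 2 * β / (h0 - s) * u) _ _) (hI _ _) fun u hu => by
            have u1 : u * β ≤ w * β := mul_le_mul_of_nonpos_right hu.1 hb.le
            have u2 : y * β ≤ u * β := mul_le_mul_of_nonpos_right hu.2 hb.le
            rw [add_assoc, gapU hs0 hs1 (by linarith) (by linarith)]
            exact le_of_eq (by ring)
      rw [lin_int] at m2
      have m3 : (y - w) * (2 * (v + h0) / (h0 - s)) +
          2 * β / (h0 - s) * ((y ^ 2 - w ^ 2) / 2) =
          (y - w) * (((v + w * β + h0) + (v + y * β + h0)) / (h0 - s)) := by ring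
      have m4 : 1 ≤ ((v + w * β + h0) + (v + y * β + h0)) / (h0 - s) := by
        rw [le_div_iff₀ h1]
        linarith
      have m5 : (y - w) * 1 ≤
          (y - w) * (((v + w * β + h0) + (v + y * β + h0)) / (h0 - s)) :=
        mul_le_mul_of_nonneg_left m4 (by linarith)
      linarith
    rcases le_total (-β) (v + h0) with h2 | h2
    · left
      exact key 1 hw1 (by linarith)
    · right
      obtain ⟨y, hy⟩ : ∃ y, y = (v + h0) / -β := ⟨_, rfl⟩
      have hyb : y * -β = v + h0 := by
        rw [hy, div_mul_cancel₀ _ hb'.ne']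
      have hy1 : y ≤ 1 := by
        rw [hy, div_le_one hb']
        exact h2
      have hwy : w ≤ y := by
        rw [hw, hy]
        exact div_le_div_of_nonneg_right (by linarith) hb'.le
      have k1 := key y hwy (by linarith)
      have e := intervalIntegral.integral_add_adjacent_intervals (hI 0 y) (hI y 1)
      have k2 : 0 ≤ ∫ u in y..1, (1 - Dh s (s + v + u * β)) :=
        intervalIntegral.integral_nonneg hy1 fun u _ => gapP hs0 hs1 _
      have k3 : y * -β ≤ (∫ u in (0 : ℝ)..1, (1 - Dh s (s + v + u * β))) * -β :=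
        mul_le_mul_of_nonneg_right (by linarith) hb'.le
      linarith

/-- **The integral over the short edge against the gap on the steep edge**, all phases, with the
sharp constant. -/
theorem gd_short2 {t α β b A B C l : ℝ} (hs0 : 0 < s) (hs1 : s < h0) (hs2 : h0 / 2 ≤ s)
    (ht : 0 < th) (ht1 : th ≤ 1) (et : t = s + α) (hα : α ≤ h0 - s) (hA : -A ≤ α) (hAs : A ≤ s)
    (hβ : |β| ≤ B) (hB : B ≤ s / 2) (hl0 : 0 < l) (hl : l ^ 2 * h0 ≤ h0 - s)
    (h1 : (1 - th) * ((h0 - s) * (1 + 1 / l)) ≤ C)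
    (h2 : (1 - th) * (h0 - s + A) ≤ C * (1 - B / s))
    (h3 : (1 - th) * (h0 - s + A) * B ≤ C * (h0 - s)) :
    -((1 / th - 1) * (α ^ 2 / s) + C * ∫ u in (0 : ℝ)..1, (1 - Dh s (b + u * β))) ≤
      ∫ x in (b - t)..b, gd s th x := by
  have hp := h0_pos
  have hr : 0 < h0 - s := by linarith
  have hC0 : 0 ≤ C := le_trans (mul_nonneg (by linarith) (by positivity)) h1
  have hc : 0 ≤ 1 / th - 1 := by
    rw [sub_nonneg, le_div_iff₀ ht]
    linarith
  have q0 : 0 ≤ (1 / th - 1) * (α ^ 2 / s) := by positivity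
  obtain ⟨n, v, hv, hv1, hv2⟩ : ∃ (n : ℤ) (v : ℝ), v = b - s - n * h0 ∧ -s ≤ v ∧ v ≤ h0 - s := by
    refine ⟨⌊b / h0⌋, _, rfl, ?_, ?_⟩
    · have := Int.floor_le (b / h0)
      rw [le_div_iff₀ hp] at this
      linarith
    · have := Int.lt_floor_add_one (b / h0)
      rw [div_lt_iff₀ hp] at this
      linarith
  have e1 : ∫ x in (b - t)..b, gd s th x = ∫ x in (v - α)..(s + v), gd s th x := by
    rw [← gd_shift hs0 hs1 ht ht1 (v - α) (s + v) n]
    congr 1
    · rw [hv, et]
      ring
    · rw [hv]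
      ring
  have e2 : ∫ u in (0 : ℝ)..1, (1 - Dh s (b + u * β)) =
      ∫ u in (0 : ℝ)..1, (1 - Dh s (s + v + u * β)) := by
    refine intervalIntegral.integral_congr fun u _ => ?_
    have hper : Function.Periodic (Dh s) h0 := Dh_add
    change 1 - Dh s (b + u * β) = 1 - Dh s (s + v + u * β)
    rw [← hper.int_mul n (s + v + u * β)]
    congr 2
    rw [hv]
    ring
  rw [e1, e2]
  obtain ⟨V, hV⟩ : ∃ V, V = ∫ u in (0 : ℝ)..1, (1 - Dh s (s + v + u * β)) := ⟨_, rfl⟩
  have V0 : 0 ≤ V := by
    rw [hV]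
    exact intervalIntegral.integral_nonneg zero_le_one fun u _ => gapP hs0 hs1 _
  rw [← hV]
  have CV : 0 ≤ C * V := mul_nonneg hC0 V0
  rcases le_total 0 v with h | h
  · have k1 := gdI1 (th := th) hs0 hs1 ht ht1 h hv2 hs2 hα (by linarith)
    obtain ⟨m, hm⟩ : ∃ m, m = Real.sqrt ((h0 - s) / h0) := ⟨_, rfl⟩
    have hm0 : 0 < m := by
      rw [hm]
      exact Real.sqrt_pos.2 (by positivity)
    have hm2 : m ^ 2 * h0 = h0 - s := by
      rw [hm, Real.sq_sqrt (by positivity), div_mul_cancel₀ _ hp.ne']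
    have hlm : l ≤ m := by
      refine le_of_sq_le_sq ?_ hm0.le
      nlinarith
    have k2 := gap1 (l := m) (β := β) hs0 hs1 h hv2 (hβ.trans hB) hm0 hm2
    rw [← hV] at k2
    have k3 : (1 - th) * ((h0 - s) * (1 + 1 / m)) ≤ C := by
      refine le_trans ?_ h1
      have : 1 / m ≤ 1 / l := one_div_le_one_div_of_le hl0 hlm
      refine mul_le_mul_of_nonneg_left (mul_le_mul_of_nonneg_left (by linarith) hr.le)
        (by linarith)
    have k4 : 0 ≤ 2 * v / (h0 - s) * (m / (1 + m)) := by positivity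
    have k5 : 2 * (1 - th) * v = (1 - th) * ((h0 - s) * (1 + 1 / m)) *
        (2 * v / (h0 - s) * (m / (1 + m))) := by
      field_simp
      ring
    have k6 : 2 * (1 - th) * v ≤ C * V := by
      rw [k5]
      exact mul_le_mul k3 k2 k4 hC0
    linarith
  · rcases gdI2 (th := th) hs0 hs1 ht ht1 hv1 h hα (by linarith) with k1 | ⟨k0, k1⟩
    · linarith
    · have k2 : (1 - th) * (h0 - s - α) ≤ (1 - th) * (h0 - s + A) :=
        mul_le_mul_of_nonneg_left (by linarith) (by linarith)
      have hB0 : 0 ≤ B := (abs_nonneg β).trans hβ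
      have k3 : (1 - th) * (h0 - s + A) ≤ C * V := by
        rcases le_or_gt 0 β with hb | hb
        · rw [abs_of_nonneg hb] at hβ
          have g := gap3a hs0 hs1 hv1 k0.le hb (hβ.trans hB)
          rw [← hV] at g
          have g2 : β / s ≤ B / s := div_le_div_of_nonneg_right hβ hs0.le
          exact h2.trans (mul_le_mul_of_nonneg_left (by linarith) hC0)
        · rw [abs_of_neg hb] at hβ
          have hBp : 0 < B := by linarith
          rcases gap3b hs0 hs1 hv1 k0.le hb with g | g
          · rw [← hV] at g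
            have g2 : 0 ≤ B / s := by positivity
            exact h2.trans (mul_le_mul_of_nonneg_left (by linarith) hC0)
          · rw [← hV] at g
            have g2 : V * -β ≤ V * B := mul_le_mul_of_nonneg_left hβ V0
            have g3 : C * (h0 - s) ≤ C * (V * B) := mul_le_mul_of_nonneg_left (g.trans g2) hC0
            have g4 : (1 - th) * (h0 - s + A) * B ≤ C * V * B := by linarith
            exact le_of_mul_le_mul_right g4 hBp
      linarith

/-- The integral up to zero over a part of the cell left of zero is at least the integral over a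
shorter part. -/
theorem gdG (hs0 : 0 < s) (hs1 : s < h0) (ht : 0 < th) (ht1 : th ≤ 1) {a z : ℝ} (ha : 0 ≤ a)
    (haz : a ≤ z) (hz : z ≤ h0 - s - a) :
    ∫ x in (-a)..(0 : ℝ), gd s th x ≤ ∫ x in (-z)..(0 : ℝ), gd s th x := by
  have hI := gd_int hs0 hs1 ht ht1
  have h1 : 0 < h0 - s := by linarith
  have neg : ∀ x, -((h0 - s) / 2) ≤ x → x ≤ 0 → Dh s x ≤ 0 := by
    intro x hx hx'
    rw [← Dh_add, Dh_high hs0 hs1 (by linarith) (by linarith), sub_nonpos, le_div_iff₀ h1]
    linarith
  have e := intervalIntegral.integral_add_adjacent_intervals (hI (-z) (-a)) (hI (-a) 0)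
  rcases le_total z ((h0 - s) / 2) with h | h
  · have := gd_ge0 hs0 hs1 ht ht1 (a := -z) (b := -a) (by linarith) fun x hx hx' =>
      neg x (by linarith) (by linarith)
    linarith
  · -- the mirror image about `-(h0 - s)/2`
    have m := gd_mirror hs0 hs1 ht ht1 (s - z + (h0 - s)) (s + (h0 - s) - 0)
    have hz2 : 0 ≤ h0 - s - z := by linarith
    have e2 := intervalIntegral.integral_add_adjacent_intervals (hI (-z) (-(h0 - s - z)))
      (hI (-(h0 - s - z)) 0)
    have hmid : ∫ x in (-z)..(-(h0 - s - z)), gd s th x = 0 := by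
      have m2 := gd_mirror hs0 hs1 ht ht1 (-z) (-(h0 - s - z))
      have e3 := gd_shift hs0 hs1 ht ht1 (-z) (-(h0 - s - z)) 1
      rw [Int.cast_one, one_mul] at e3
      have e4 : s - -(h0 - s - z) = -z + h0 := by ring
      have e5 : s - -z = -(h0 - s - z) + h0 := by ring
      rw [e4, e5, e3] at m2
      linarith
    have e6 := intervalIntegral.integral_add_adjacent_intervals (hI (-(h0 - s - z)) (-a))
      (hI (-a) 0)
    have := gd_ge0 hs0 hs1 ht ht1 (a := -(h0 - s - z)) (b := -a) (by linarith) fun x hx hx' =>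
      neg x (by linarith) (by linarith)
    linarith

/-- The short edge before the tight phase, edge too long: the value at the tight phase survives. -/
theorem gdI3 {v α a : ℝ} (hs0 : 0 < s) (hs1 : s < h0) (ht : 0 < th) (ht1 : th ≤ 1)
    (hv : -s ≤ v) (hv' : v ≤ 0) (ha : 0 ≤ a) (haα : a ≤ α) (hα : α ≤ h0 - s - a) :
    ∫ x in (-a)..(0 : ℝ), gd s th x ≤ ∫ x in (v - α)..(s + v), gd s th x ∨
      (h0 - s - a - α < -v ∧ 0 ≤ ∫ x in (v - α)..(s + v), gd s th x) ∨
      v < -(s / 2) ∧ -((1 - th) * (h0 - s - α)) ≤ ∫ x in (v - α)..(s + v), gd s th x := by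
  have hI := gd_int hs0 hs1 ht ht1
  have e1 := intervalIntegral.integral_add_adjacent_intervals (hI (v - α) 0) (hI 0 (s + v))
  have a1 := gdA hs0 hs1 ht ht1 (w := s + v) (by linarith) (by linarith)
  rcases le_or_gt (-v) (h0 - s - a - α) with h | h
  · left
    have := gdG hs0 hs1 ht ht1 (a := a) (z := -v + α) ha (by linarith) (by linarith)
    rw [show -(-v + α) = v - α by ring] at this
    linarith
  · right
    rcases le_total (-(h0 - s)) (v - α) with h2 | h2
    · left
      have := gdC hs0 hs1 ht ht1 h2 (by linarith)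
      exact ⟨h, by linarith⟩
    · have e4 := intervalIntegral.integral_add_adjacent_intervals (hI (v - α) (s + v))
        (hI (s + v) (v - α + h0))
      rw [gd_period hs0 hs1 ht ht1] at e4
      rcases le_or_gt (-(s / 2)) v with h3 | h3
      · left
        have := gd_le0 hs0 hs1 ht ht1 (a := s + v) (b := v - α + h0) (by linarith)
          fun x hx hx' => Dh_half hs0 hs1 (by linarith) (by linarith)
        exact ⟨h, by linarith⟩
      · right
        refine ⟨h3, ?_⟩
        have := (gd_bd hs0 hs1 ht ht1 (a := s + v) (b := v - α + h0) (by linarith)).2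
        have e5 : (1 - th) * (v - α + h0 - (s + v)) = (1 - th) * (h0 - s - α) := by ring
        linarith

/-- The short edge beyond the tight phase, steep side, edge too long. -/
theorem gdI4 {v α a : ℝ} (hs0 : 0 < s) (hs1 : s < h0) (ht : 0 < th) (ht1 : th ≤ 1) (h0v : 0 ≤ v)
    (hv : v ≤ h0 - s) (ha : 0 ≤ a) (haα : a ≤ α) (hα : α ≤ h0 - s - a) :
    (∫ x in (-a)..(0 : ℝ), gd s th x) - 2 * (1 - th) * v ≤
      ∫ x in (v - α)..(s + v), gd s th x := by
  have hI := gd_int hs0 hs1 ht ht1
  have e1 := intervalIntegral.integral_add_adjacent_intervals (hI (v - α) 0) (hI 0 (s + v))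
  have e2 := intervalIntegral.integral_add_adjacent_intervals (hI 0 s) (hI s (s + v))
  rw [gd_cell hs0 hs1 ht ht1] at e2
  have b1 := (gd_bd hs0 hs1 ht ht1 (a := s) (b := s + v) (by linarith)).1
  rw [add_sub_cancel_left] at b1
  have g := gdG hs0 hs1 ht ht1 (a := a) (z := α) ha haα (by linarith)
  rcases le_total (v - α) 0 with h | h
  · have e3 := intervalIntegral.integral_add_adjacent_intervals (hI (-α) (v - α)) (hI (v - α) 0)
    have b2 := (gd_bd hs0 hs1 ht ht1 (a := -α) (b := v - α) (by linarith)).2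
    have : (1 - th) * (v - α - -α) = (1 - th) * v := by ring
    linarith
  · have e3 : ∫ x in (v - α)..(0 : ℝ), gd s th x = -∫ x in (0 : ℝ)..(v - α), gd s th x :=
      intervalIntegral.integral_symm _ _
    have b2 := (gd_bd hs0 hs1 ht ht1 h).2
    have b3 := (gd_bd hs0 hs1 ht ht1 (a := -α) (b := 0) (by linarith)).2
    have : (1 - th) * (v - α - 0) + (1 - th) * (0 - -α) = (1 - th) * v := by ring
    linarith

/-- A lower bound for the value at the tight phase. -/
theorem gain_low (hs0 : 0 < s) (hs1 : s < h0) (ht : 0 < th) (ht1 : th ≤ 1) {a : ℝ} (ha : 0 ≤ a)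
    (ha' : a ≤ (h0 - s) / 2) : a - a ^ 2 / (h0 - s) - th * (h0 - s) / 4 ≤
      ∫ x in (-a)..(0 : ℝ), gd s th x := by
  have hI := gd_int hs0 hs1 ht ht1
  have h1 : 0 < h0 - s := by linarith
  have hD : ∀ x, -((h0 - s) / 2) ≤ x → x ≤ 0 → Dh s x = -1 + -(2 / (h0 - s)) * x := by
    intro x hx hx'
    rw [← Dh_add, Dh_high hs0 hs1 (by linarith) (by linarith)]
    field_simp
    ring
  have pt : ∀ x, -((h0 - s) / 2) ≤ x → x ≤ 0 →
      1 + 2 / (h0 - s) * x - max 0 (1 + 2 / (th * (h0 - s)) * x) ≤ gd s th x := by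
    intro x hx hx'
    have hx2 : 0 ≤ -x := by linarith
    have d0 : 0 ≤ 2 / (h0 - s) * -x := by positivity
    have d1 : 2 / (h0 - s) * -x ≤ 1 := by
      rw [div_mul_eq_mul_div, div_le_one h1]
      linarith
    unfold gd
    rw [tnt_eq hs0 hs1 ht, hD x hx hx']
    have k : (-1 + -(2 / (h0 - s)) * x) / th ≤ 0 :=
      div_nonpos_of_nonpos_of_nonneg (by linarith) ht.le
    have hc : 0 ≤ 1 / th - 1 := by
      rw [sub_nonneg, le_div_iff₀ ht]
      linarith
    have e : -((-1 + -(2 / (h0 - s)) * x) / th) - (1 / th - 1) =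
        1 + 2 / (th * (h0 - s)) * x := by
      field_simp
      ring
    have m0 : max 0 ((-1 + -(2 / (h0 - s)) * x) / th - (1 / th - 1)) = 0 :=
      max_eq_left (by linarith)
    unfold sft
    rw [m0, e]
    linarith
  have g := intervalIntegral.integral_mono_on (a := -a) (b := 0) (by linarith)
    (Continuous.intervalIntegrable (by fun_prop : Continuous fun x : ℝ =>
      1 + 2 / (h0 - s) * x - max 0 (1 + 2 / (th * (h0 - s)) * x)) _ _) (hI _ _)
    fun x hx => pt x (by linarith [hx.1]) hx.2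
  refine le_trans ?_ g
  have hc1 : Continuous fun x : ℝ => 1 + 2 / (h0 - s) * x := by fun_prop
  have hc2 : Continuous fun x : ℝ => max 0 (1 + 2 / (th * (h0 - s)) * x) := by fun_prop
  rw [intervalIntegral.integral_sub (hc1.intervalIntegrable _ _) (hc2.intervalIntegrable _ _),
    lin_int]
  have m : ∫ x in (-a)..(0 : ℝ), max 0 (1 + 2 / (th * (h0 - s)) * x) ≤ th * (h0 - s) / 4 := by
    have hr : 0 < th * (h0 - s) := by positivity
    obtain ⟨c, hc⟩ : ∃ c, c = max a (th * (h0 - s) / 2) := ⟨_, rfl⟩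
    have hI2 : ∀ p q, IntervalIntegrable (fun x : ℝ => max 0 (1 + 2 / (th * (h0 - s)) * x))
      MeasureTheory.volume p q := fun p q => hc2.intervalIntegrable p q
    have e1 := intervalIntegral.integral_add_adjacent_intervals (hI2 (-c) (-a)) (hI2 (-a) 0)
    have p1 : 0 ≤ ∫ x in (-c)..(-a), max 0 (1 + 2 / (th * (h0 - s)) * x) :=
      intervalIntegral.integral_nonneg (by
        have := le_max_left a (th * (h0 - s) / 2)
        linarith) fun x _ => le_max_left _ _
    have hc3 : th * (h0 - s) / 2 ≤ c := by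
      rw [hc]
      exact le_max_right _ _
    have e2 := intervalIntegral.integral_add_adjacent_intervals (hI2 (-c) (-(th * (h0 - s) / 2)))
      (hI2 (-(th * (h0 - s) / 2)) 0)
    have p2 : ∫ x in (-c)..(-(th * (h0 - s) / 2)), max 0 (1 + 2 / (th * (h0 - s)) * x) = 0 := by
      have : ∫ x in (-c)..(-(th * (h0 - s) / 2)), max 0 (1 + 2 / (th * (h0 - s)) * x) =
          ∫ x in (-c)..(-(th * (h0 - s) / 2)), (0 : ℝ) := by
        refine intervalIntegral.integral_congr fun x hx => ?_
        rw [Set.uIcc_of_le (by linarith)] at hx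
        refine max_eq_left ?_
        have : 2 / (th * (h0 - s)) * x ≤ 2 / (th * (h0 - s)) * -(th * (h0 - s) / 2) :=
          mul_le_mul_of_nonneg_left hx.2 (by positivity)
        have e : 2 / (th * (h0 - s)) * -(th * (h0 - s) / 2) = -1 := by
          field_simp
        linarith
      rw [this]
      simp
    have p3 : ∫ x in (-(th * (h0 - s) / 2))..(0 : ℝ), max 0 (1 + 2 / (th * (h0 - s)) * x) =
        th * (h0 - s) / 4 := by
      have : ∫ x in (-(th * (h0 - s) / 2))..(0 : ℝ), max 0 (1 + 2 / (th * (h0 - s)) * x) =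
          ∫ x in (-(th * (h0 - s) / 2))..(0 : ℝ), (1 + 2 / (th * (h0 - s)) * x) := by
        refine intervalIntegral.integral_congr fun x hx => ?_
        rw [Set.uIcc_of_le (by linarith)] at hx
        refine max_eq_right ?_
        have : 2 / (th * (h0 - s)) * -(th * (h0 - s) / 2) ≤ 2 / (th * (h0 - s)) * x :=
          mul_le_mul_of_nonneg_left hx.1 (by positivity)
        have e : 2 / (th * (h0 - s)) * -(th * (h0 - s) / 2) = -1 := by
          field_simp
        linarith
      rw [this, lin_int]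
      field_simp
      ring
    linarith
  have e : (0 - -a) * 1 + 2 / (h0 - s) * ((0 ^ 2 - (-a) ^ 2) / 2) = a - a ^ 2 / (h0 - s) := by
    field_simp
    ring
  linarith

/-- **The integral over the short edge against the gap on the steep edge**, edge too long: the
value at the tight phase survives. -/
theorem gd_short3 {t α β b a g B C l : ℝ} (hs0 : 0 < s) (hs1 : s < h0) (hs2 : h0 / 2 ≤ s)
    (ht : 0 < th) (ht1 : th ≤ 1) (et : t = s + α) (ha : 0 ≤ a) (haα : a ≤ α)
    (hα : α ≤ h0 - s - a) (hg0 : 0 ≤ g) (hg : g ≤ ∫ x in (-a)..(0 : ℝ), gd s th x)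
    (hβ : |β| ≤ B) (hB : B ≤ s / 2) (hl0 : 0 < l) (hl : l ^ 2 * h0 ≤ h0 - s)
    (h1 : (1 - th) * ((h0 - s) * (1 + 1 / l)) ≤ C)
    (h2 : (1 - th) * (h0 - s) + g ≤ C * (1 - B / s))
    (h3 : ((1 - th) * (h0 - s) + g) * B ≤ C * (h0 - s))
    (h4 : g * s ≤ C * (4 / 5 * (h0 - s - a - α))) :
    g - C * ∫ u in (0 : ℝ)..1, (1 - Dh s (b + u * β)) ≤ ∫ x in (b - t)..b, gd s th x := by
  have hp := h0_pos
  have hr : 0 < h0 - s := by linarith
  have hC0 : 0 ≤ C := le_trans (mul_nonneg (by linarith) (by positivity)) h1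
  obtain ⟨n, v, hv, hv1, hv2⟩ : ∃ (n : ℤ) (v : ℝ), v = b - s - n * h0 ∧ -s ≤ v ∧ v ≤ h0 - s := by
    refine ⟨⌊b / h0⌋, _, rfl, ?_, ?_⟩
    · have := Int.floor_le (b / h0)
      rw [le_div_iff₀ hp] at this
      linarith
    · have := Int.lt_floor_add_one (b / h0)
      rw [div_lt_iff₀ hp] at this
      linarith
  have e1 : ∫ x in (b - t)..b, gd s th x = ∫ x in (v - α)..(s + v), gd s th x := by
    rw [← gd_shift hs0 hs1 ht ht1 (v - α) (s + v) n]
    congr 1
    · rw [hv, et]
      ring
    · rw [hv]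
      ring
  have e2 : ∫ u in (0 : ℝ)..1, (1 - Dh s (b + u * β)) =
      ∫ u in (0 : ℝ)..1, (1 - Dh s (s + v + u * β)) := by
    refine intervalIntegral.integral_congr fun u _ => ?_
    have hper : Function.Periodic (Dh s) h0 := Dh_add
    change 1 - Dh s (b + u * β) = 1 - Dh s (s + v + u * β)
    rw [← hper.int_mul n (s + v + u * β)]
    congr 2
    rw [hv]
    ring
  rw [e1, e2]
  obtain ⟨V, hV⟩ : ∃ V, V = ∫ u in (0 : ℝ)..1, (1 - Dh s (s + v + u * β)) := ⟨_, rfl⟩
  have V0 : 0 ≤ V := by
    rw [hV]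
    exact intervalIntegral.integral_nonneg zero_le_one fun u _ => gapP hs0 hs1 _
  rw [← hV]
  have CV : 0 ≤ C * V := mul_nonneg hC0 V0
  have hB0 : 0 ≤ B := (abs_nonneg β).trans hβ
  rcases le_total 0 v with h | h
  · have k1 := gdI4 (th := th) hs0 hs1 ht ht1 h hv2 ha haα hα
    obtain ⟨m, hm⟩ : ∃ m, m = Real.sqrt ((h0 - s) / h0) := ⟨_, rfl⟩
    have hm0 : 0 < m := by
      rw [hm]
      exact Real.sqrt_pos.2 (by positivity)
    have hm2 : m ^ 2 * h0 = h0 - s := by
      rw [hm, Real.sq_sqrt (by positivity), div_mul_cancel₀ _ hp.ne']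
    have hlm : l ≤ m := by
      refine le_of_sq_le_sq ?_ hm0.le
      nlinarith
    have k2 := gap1 (l := m) (β := β) hs0 hs1 h hv2 (hβ.trans hB) hm0 hm2
    rw [← hV] at k2
    have k3 : (1 - th) * ((h0 - s) * (1 + 1 / m)) ≤ C := by
      refine le_trans ?_ h1
      have : 1 / m ≤ 1 / l := one_div_le_one_div_of_le hl0 hlm
      refine mul_le_mul_of_nonneg_left (mul_le_mul_of_nonneg_left (by linarith) hr.le)
        (by linarith)
    have k4 : 0 ≤ 2 * v / (h0 - s) * (m / (1 + m)) := by positivity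
    have k5 : 2 * (1 - th) * v = (1 - th) * ((h0 - s) * (1 + 1 / m)) *
        (2 * v / (h0 - s) * (m / (1 + m))) := by
      field_simp
      ring
    have k6 : 2 * (1 - th) * v ≤ C * V := by
      rw [k5]
      exact mul_le_mul k3 k2 k4 hC0
    linarith
  · rcases gdI3 (th := th) hs0 hs1 ht ht1 hv1 h ha haα hα with k1 | ⟨k0, k1⟩ | ⟨k0, k1⟩
    · linarith
    · have k3 : g ≤ C * V := by
        rcases le_or_gt (-(h0 / 2)) v with h5 | h5
        · have g1 := Dh_gap hs0 hs1 hs2 (v := v) (β := β) (by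
            rw [abs_of_nonpos h]
            linarith) (hβ.trans (by linarith))
          rw [← hV, abs_of_nonpos h] at g1
          have g2 : 4 / 5 * (h0 - s - a - α) ≤ V * s := by
            have : 4 / 5 * (-v / s) * s ≤ V * s := mul_le_mul_of_nonneg_right g1 hs0.le
            have e : 4 / 5 * (-v / s) * s = 4 / 5 * -v := by
              field_simp
            linarith
          have g3 : g * s ≤ C * V * s := by
            have := mul_le_mul_of_nonneg_left g2 hC0
            linarith
          exact le_of_mul_le_mul_right g3 hs0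
        · rcases le_or_gt 0 β with hb | hb
          · rw [abs_of_nonneg hb] at hβ
            have g1 := gap3a hs0 hs1 hv1 (by linarith) hb (hβ.trans hB)
            rw [← hV] at g1
            have g2 : β / s ≤ B / s := div_le_div_of_nonneg_right hβ hs0.le
            have g3 : 0 ≤ (1 - th) * (h0 - s) := mul_nonneg (by linarith) hr.le
            have g4 : C * (1 - B / s) ≤ C * V := mul_le_mul_of_nonneg_left (by linarith) hC0
            linarith
          · rw [abs_of_neg hb] at hβ
            have hBp : 0 < B := by linarith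
            have g3 : 0 ≤ (1 - th) * (h0 - s) := mul_nonneg (by linarith) hr.le
            rcases gap3b hs0 hs1 hv1 (by linarith) hb with g1 | g1
            · rw [← hV] at g1
              have g2 : 0 ≤ B / s := by positivity
              have g4 : C * (1 - B / s) ≤ C * V := mul_le_mul_of_nonneg_left (by linarith) hC0
              linarith
            · rw [← hV] at g1
              have g2 : V * -β ≤ V * B := mul_le_mul_of_nonneg_left hβ V0
              have g4 : C * (h0 - s) ≤ C * (V * B) := mul_le_mul_of_nonneg_left (g1.trans g2) hC0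
              have g5 : g * B ≤ C * V * B := by nlinarith
              exact le_of_mul_le_mul_right g5 hBp
      linarith
    · have hα0 : 0 ≤ α := ha.trans haα
      have k2 : (1 - th) * (h0 - s - α) ≤ (1 - th) * (h0 - s) :=
        mul_le_mul_of_nonneg_left (by linarith) (by linarith)
      have k3 : (1 - th) * (h0 - s) + g ≤ C * V := by
        rcases le_or_gt 0 β with hb | hb
        · rw [abs_of_nonneg hb] at hβ
          have g1 := gap3a hs0 hs1 hv1 k0.le hb (hβ.trans hB)
          rw [← hV] at g1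
          have g2 : β / s ≤ B / s := div_le_div_of_nonneg_right hβ hs0.le
          exact h2.trans (mul_le_mul_of_nonneg_left (by linarith) hC0)
        · rw [abs_of_neg hb] at hβ
          have hBp : 0 < B := by linarith
          rcases gap3b hs0 hs1 hv1 k0.le hb with g1 | g1
          · rw [← hV] at g1
            have g2 : 0 ≤ B / s := by positivity
            exact h2.trans (mul_le_mul_of_nonneg_left (by linarith) hC0)
          · rw [← hV] at g1
            have g2 : V * -β ≤ V * B := mul_le_mul_of_nonneg_left hβ V0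
            have g3 : C * (h0 - s) ≤ C * (V * B) := mul_le_mul_of_nonneg_left (g1.trans g2) hC0
            have g4 : ((1 - th) * (h0 - s) + g) * B ≤ C * V * B := by linarith
            exact le_of_mul_le_mul_right g4 hBp
      linarith

/-- **The near vertex, family `A`**, with an arbitrary bound `g - C * gap` of the short edge. -/
theorem near_dirA2 {κ e E μ X η ν β t t' g C : ℝ} {r c : ℝ × ℝ × ℝ} (hs0 : 0 < s) (hs1 : s < h0)
    (ht : 0 < th) (ht1 : th ≤ 1) (hκ : 0 ≤ κ)
    (he : κ * (s * (h0 - s)) = 2 * h0 * e) (he0 : 0 < e) (hμ : 0 ≤ μ)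
    (et' : t' = h0 + β) (hβ : |β| < h0 / 2)
    (h0t : 0 ≤ t) (hT : t + t' ≤ 2 * h0) (hδ : c.2.2 ≤ c.1)
    (hS : ∀ b, g - C * (∫ u in (0 : ℝ)..1, (1 - Dh s (b + u * β))) ≤
      ∫ x in (b - t)..b, gd s th x)
    (hη : -(μ * (c.1 - c.2.2) * g) ≤ η)
    (hν : μ * (|c.2.1 - c.2.2| * ((1 / th - 1) * |β|) + (c.1 - c.2.2) * C) ≤ e * ν)
    (h : NGV κ s (X - η - e * ν) t t' ((cpl E (μ / e) r c t t').1,
      (cpl E (μ / e) r c t t').2.1 + ν, (cpl E (μ / e) r c t t').2.2)) (y : ℝ) :
    0 ≤ X + E * kf κ s r t t' y + μ * pf (tnt s th) c t t' y := by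
  have hp := h0_pos
  obtain ⟨b1, b2⟩ := abs_lt.1 hβ
  have jt : tau t' = β := by
    unfold tau
    rw [show jn t' = 1 by
      unfold jn
      rw [if_neg (by linarith), if_pos (by linarith)], et']
    push_cast
    ring
  have key := NGV.dir h hκ hs0.le hs1 h0t (by linarith) hT y
  have e0 := kf_cpl (μ := μ) hs0 hs1 ht ht1 he he0 (E := E) r c t t' y
  have e1 : kf κ s ((cpl E (μ / e) r c t t').1, (cpl E (μ / e) r c t t').2.1 + ν,
      (cpl E (μ / e) r c t t').2.2) t t' y =
      kf κ s (cpl E (μ / e) r c t t') t t' y + ν * mn (D s κ) (y + t) (y + t + tau t') := by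
    unfold kf
    simp only
    ring
  have e2 := mn_Dh (κ := κ) (b := y + t) (β := β) hs0 hs1 he
  rw [e1, jt] at key
  obtain ⟨V, hV⟩ : ∃ V, V = ∫ u in (0 : ℝ)..1, (1 - Dh s (y + t + u * β)) := ⟨_, rfl⟩
  rw [← hV] at e2
  have V0 : 0 ≤ V := by
    rw [hV]
    refine intervalIntegral.integral_nonneg zero_le_one fun u _ => ?_
    have := abs_le.1 (Dh_abs hs0 hs1 (y + t + u * β))
    linarith [this.2]
  have g1 := hS (y + t)
  rw [← hV, add_sub_cancel_right] at g1
  have g2 := gd_steep (b := y + t) (β := β) hs0 hs1 ht ht1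
  rw [← hV] at g2
  have g3 : ∫ x in (y + t)..(y + (t + t')), gd s th x = ∫ x in (y + t)..(y + t + β), gd s th x := by
    have := int_nat (gd_cont hs0 hs1 ht ht1) (gd_period hs0 hs1 ht ht1) (y + t) (y + t + β) 1
    rw [← this]
    congr 1
    rw [et']
    push_cast
    ring
  rw [add_assoc, e0, pf_A (gd_cont hs0 hs1 ht ht1), g3]
  have d0 : 0 ≤ c.1 - c.2.2 := by linarith
  have k1 : μ * (c.1 - c.2.2) * g - μ * (c.1 - c.2.2) * (C * V) ≤
      μ * ((c.1 - c.2.2) * ∫ x in y..(y + t), gd s th x) := by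
    have := mul_le_mul_of_nonneg_left g1 (mul_nonneg hμ d0)
    linarith
  have k2 : -(μ * (|c.2.1 - c.2.2| * ((1 / th - 1) * |β| * V))) ≤
      μ * ((c.2.1 - c.2.2) * ∫ x in (y + t)..(y + t + β), gd s th x) := by
    rw [← mul_neg]
    refine mul_le_mul_of_nonneg_left ?_ hμ
    rw [neg_le]
    refine (neg_le_abs _).trans ?_
    rw [abs_mul]
    exact mul_le_mul_of_nonneg_left g2 (abs_nonneg _)
  have k3 := mul_le_mul_of_nonneg_right hν V0
  have e3 : mn (D s κ) (y + t) (y + t + β) = e - e * V := by linarith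
  rw [e3] at key
  nlinarith only [key, k1, k2, k3, hη]

/-- **The near vertex, family `B`**, with an arbitrary bound `g - C * gap` of the short edge. -/
theorem near_dirB2 {κ e E μ X η ν β t t' g C : ℝ} {r c : ℝ × ℝ × ℝ} (hs0 : 0 < s) (hs1 : s < h0)
    (ht : 0 < th) (ht1 : th ≤ 1) (hκ : 0 ≤ κ)
    (he : κ * (s * (h0 - s)) = 2 * h0 * e) (he0 : 0 < e) (hμ : 0 ≤ μ)
    (et' : t + t' = h0 + β) (hβ : |β| < h0 / 2)
    (h0t : 0 ≤ t) (h0t' : 0 ≤ t') (hδ : c.1 ≤ c.2.1)
    (hS : ∀ b, g - C * (∫ u in (0 : ℝ)..1, (1 - Dh s (b + u * -β))) ≤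
      ∫ x in (b - t)..b, gd s th x)
    (hη : -(μ * (c.2.1 - c.1) * g) ≤ η)
    (hν : μ * (|c.2.1 - c.2.2| * ((1 / th - 1) * |β|) + (c.2.1 - c.1) * C) ≤ e * ν)
    (h : NGV κ s (X - η - e * ν) t t' ((cpl E (μ / e) r c t t').1,
      (cpl E (μ / e) r c t t').2.1, (cpl E (μ / e) r c t t').2.2 + ν)) (y : ℝ) :
    0 ≤ X + E * kf κ s r t t' y + μ * pf (tnt s th) c t t' y := by
  have hp := h0_pos
  obtain ⟨b1, b2⟩ := abs_lt.1 hβ
  have jt : tau (t + t') = β := by
    unfold tau
    rw [show jn (t + t') = 1 by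
      unfold jn
      rw [if_neg (by linarith), if_pos (by linarith)], et']
    push_cast
    ring
  have key := NGV.dir h hκ hs0.le hs1 h0t h0t' (by linarith) y
  have e0 := kf_cpl (μ := μ) hs0 hs1 ht ht1 he he0 (E := E) r c t t' y
  have e1 : kf κ s ((cpl E (μ / e) r c t t').1, (cpl E (μ / e) r c t t').2.1,
      (cpl E (μ / e) r c t t').2.2 + ν) t t' y =
      kf κ s (cpl E (μ / e) r c t t') t t' y - ν * mn (D s κ) y (y + tau (t + t')) := by
    unfold kf
    simp only
    ring
  rw [e1, jt] at key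
  have hm : mn (D s κ) y (y + β) = -mn (D s κ) (s - y) (s - y + -β) := by
    have h1 := Line.mn_mirror (f := D s κ) (fun z => D_refl κ hs0.le hs1 z) y (y + β)
    rw [show s - y + -β = s - (y + β) by ring, h1, neg_neg]
  have e2 := mn_Dh (κ := κ) (b := s - y) (β := -β) hs0 hs1 he
  obtain ⟨V, hV⟩ : ∃ V, V = ∫ u in (0 : ℝ)..1, (1 - Dh s (s - y + u * -β)) := ⟨_, rfl⟩
  rw [← hV] at e2
  have V0 : 0 ≤ V := by
    rw [hV]
    refine intervalIntegral.integral_nonneg zero_le_one fun u _ => ?_
    have := abs_le.1 (Dh_abs hs0 hs1 (s - y + u * -β))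
    linarith [this.2]
  have g1 := hS (s - y)
  have g1' : ∫ x in (s - y - t)..(s - y), gd s th x = -∫ x in y..(y + t), gd s th x := by
    rw [← gd_mirror hs0 hs1 ht ht1]
    congr 1
    ring
  rw [← hV, g1'] at g1
  have g2 := gd_steep (b := s - y) (β := -β) hs0 hs1 ht ht1
  rw [← hV, abs_neg] at g2
  have g2' : |∫ x in (s - y)..(s - y + -β), gd s th x| = |∫ x in y..(y + β), gd s th x| := by
    rw [intervalIntegral.integral_symm, abs_neg,
      show s - y + -β = s - (y + β) by ring, gd_mirror hs0 hs1 ht ht1, abs_neg]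
  rw [g2'] at g2
  have g3 : ∫ x in y..(y + (t + t')), gd s th x = ∫ x in y..(y + β), gd s th x := by
    have := int_nat (gd_cont hs0 hs1 ht ht1) (gd_period hs0 hs1 ht ht1) y (y + β) 1
    rw [← this]
    congr 1
    rw [et']
    push_cast
    ring
  rw [add_assoc, e0, pf_B (gd_cont hs0 hs1 ht ht1), g3]
  have d0 : 0 ≤ c.2.1 - c.1 := by linarith
  have k1 : μ * (c.2.1 - c.1) * g - μ * (c.2.1 - c.1) * (C * V) ≤
      μ * ((c.1 - c.2.1) * ∫ x in y..(y + t), gd s th x) := by
    have := mul_le_mul_of_nonneg_left g1 (mul_nonneg hμ d0)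
    linarith
  have k2 : -(μ * (|c.2.1 - c.2.2| * ((1 / th - 1) * |β| * V))) ≤
      μ * ((c.2.1 - c.2.2) * ∫ x in y..(y + β), gd s th x) := by
    rw [← mul_neg]
    refine mul_le_mul_of_nonneg_left ?_ hμ
    rw [neg_le]
    refine (neg_le_abs _).trans ?_
    rw [abs_mul]
    exact mul_le_mul_of_nonneg_left g2 (abs_nonneg _)
  have k3 := mul_le_mul_of_nonneg_right hν V0
  have e3 : mn (D s κ) y (y + β) = -(e - e * V) := by
    rw [hm]
    linarith
  rw [e3] at key
  nlinarith only [key, k1, k2, k3, hη]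

end

end Pool.Agent.Strip051.LC
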