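import Pool.Agent.Strip051.LC.Exact.MolN4

/-! # The tight triangles: a weaker bound of the correction

The nodes of `MolN4` with the correction bounded by what the two polynomials
`mF1`, `mF2` need (predicate `DyOk`) in place of `1 / 2`. -/

set_option linter.unusedVariables false

namespace Pool.Agent.Strip051.LC.MolN

open Pool.Agent.StripNear Pool.Agent.StripSquare Pool.Agent.Strip051.Sweep
open Pool.Agent.Strip051.LC
open Pool.Agent.Strip051.LC.Line (tau)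

/-- The two polynomials at the half angles of `x`, `y` with the correction `δ`. -/
def DyOk (x y δ : ℝ) : Prop :=
  0 ≤ mF1 (mA x (√(1 - 3 / 4 * x ^ 2))) (mA y (√(1 - 3 / 4 * y ^ 2)))
      (1 + (2 * √(1 - 3 / 4 * x ^ 2) + 3)⁻¹ * (3 / 4 * x + 3 / 2 * (1 - √(1 - 3 / 4 * x ^ 2))))
      (2 * √(1 - 3 / 4 * x ^ 2) + 3)⁻¹ δ ∧
    0 ≤ mF2 (mA x (√(1 - 3 / 4 * x ^ 2))) (mA y (√(1 - 3 / 4 * y ^ 2)))
      (1 + (2 * √(1 - 3 / 4 * x ^ 2) + 3)⁻¹ * (3 / 4 * x + 3 / 2 * (1 - √(1 - 3 / 4 * x ^ 2))))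
      (2 * √(1 - 3 / 4 * x ^ 2) + 3)⁻¹ δ

/-- `mF1` for `b ≤ 9 / 10` and a correction up to `63 / 50`. -/
theorem mF1_nonneg9 {a b m μ δ : ℝ} (ha : 0 < a) (ha1 : a < 1) (hb : 0 < b) (hb1 : b ≤ 9 / 10) (hm : 1 ≤ m)
    (hμ : 0 ≤ μ) (hμ1 : μ ≤ 1 / 4) (hδ : δ ≤ 63 / 50) : 0 ≤ mF1 a b m μ δ := by
  have h1 : 0 ≤ 1 - a := by linarith
  have h2 : 0 ≤ 9 / 10 - b := by linarith
  have t5 : 0 ≤ (3 - a * b) * (3 - b ^ 2) := mul_nonneg (by nlinarith) (by nlinarith)
  have t6 : δ * ((3 - a * b) * (3 - b ^ 2)) ≤ 63 / 50 * ((3 - a * b) * (3 - b ^ 2)) :=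
    mul_le_mul_of_nonneg_right hδ t5
  have t0 : 0 ≤ 9 * (3 - b ^ 2 - 2 * a * b) * (3 + b ^ 2) := by
    have : 0 ≤ 3 - b ^ 2 - 2 * a * b := by nlinarith
    positivity
  have t1 : 9 * (3 - b ^ 2 - 2 * a * b) * (3 + b ^ 2) ≤ m * (9 * (3 - b ^ 2 - 2 * a * b) * (3 + b ^ 2)) := by
    nlinarith
  -- at `a = 1` and the slope in `1 - a`
  have key : 0 ≤ 9 * (3 - b ^ 2 - 2 * a * b) * (3 + b ^ 2) + 1 / 4 * (3 * b) *
      (27 + 27 * b - 9 * b ^ 2 - 9 * b ^ 3 - 18 * a * b ^ 2 + 6 * a * b ^ 3 -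
        8 * (63 / 50) * ((3 - a * b) * (3 - b ^ 2))) := by
    have e : 9 * (3 - b ^ 2 - 2 * a * b) * (3 + b ^ 2) + 1 / 4 * (3 * b) *
      (27 + 27 * b - 9 * b ^ 2 - 9 * b ^ 3 - 18 * a * b ^ 2 + 6 * a * b ^ 3 -
        8 * (63 / 50) * ((3 - a * b) * (3 - b ^ 2))) =
        (9 * (3 - b ^ 2 - 2 * b) * (3 + b ^ 2) + 1 / 4 * (3 * b) *
      (27 + 27 * b - 9 * b ^ 2 - 9 * b ^ 3 - 18 * b ^ 2 + 6 * b ^ 3 -
        8 * (63 / 50) * ((3 - b) * (3 - b ^ 2)))) + (1 - a) * (b * (18 * (3 + b ^ 2) +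
        3 / 4 * (18 * b ^ 2 - 6 * b ^ 3 - 8 * (63 / 50) * (b * (3 - b ^ 2))))) := by ring
    rw [e]
    have g1 : 0 ≤ 9 * (3 - b ^ 2 - 2 * b) * (3 + b ^ 2) + 1 / 4 * (3 * b) *
      (27 + 27 * b - 9 * b ^ 2 - 9 * b ^ 3 - 18 * b ^ 2 + 6 * b ^ 3 -
        8 * (63 / 50) * ((3 - b) * (3 - b ^ 2))) := by
      have e2 : 9 * (3 - b ^ 2 - 2 * b) * (3 + b ^ 2) + 1 / 4 * (3 * b) *
      (27 + 27 * b - 9 * b ^ 2 - 9 * b ^ 3 - 18 * b ^ 2 + 6 * b ^ 3 -
        8 * (63 / 50) * ((3 - b) * (3 - b ^ 2))) = 81 - 10179 / 100 * b + 4293 / 100 * b ^ 2 - 1557 / 100 * b ^ 3 - 1881 / 100 * b ^ 4 := by ring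
      rw [e2]
      have k1 : 0 ≤ (9 / 10 - b) * (89 - 14 * b + 32 * b ^ 2 + 1881 / 100 * b ^ 3) :=
        mul_nonneg h2 (by nlinarith [sq_nonneg b, mul_nonneg hb.le (sq_nonneg b)])
      nlinarith [mul_nonneg h2 hb.le, mul_nonneg h2 (sq_nonneg b)]
    have g2 : 0 ≤ 18 * (3 + b ^ 2) +
        3 / 4 * (18 * b ^ 2 - 6 * b ^ 3 - 8 * (63 / 50) * (b * (3 - b ^ 2))) := by
      nlinarith [mul_nonneg hb.le (sq_nonneg b)]
    have g3 : 0 ≤ (1 - a) * (b * (18 * (3 + b ^ 2) +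
        3 / 4 * (18 * b ^ 2 - 6 * b ^ 3 - 8 * (63 / 50) * (b * (3 - b ^ 2))))) :=
      mul_nonneg h1 (mul_nonneg hb.le g2)
    linarith
  set Z := 27 + 27 * b - 9 * b ^ 2 - 9 * b ^ 3 - 18 * a * b ^ 2 + 6 * a * b ^ 3 -
      8 * (63 / 50) * ((3 - a * b) * (3 - b ^ 2)) with hZ
  set Z' := 27 + 27 * b - 9 * b ^ 2 - 9 * b ^ 3 - 18 * a * b ^ 2 + 6 * a * b ^ 3 -
      8 * δ * ((3 - a * b) * (3 - b ^ 2)) with hZ'
  have hZZ : Z ≤ Z' := by
    rw [hZ, hZ']
    linarith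
  have hμb : 0 ≤ μ * (3 * b) := by positivity
  have k1 : μ * (3 * b * Z) ≤ μ * (3 * b * Z') := by nlinarith [mul_le_mul_of_nonneg_left hZZ hμb]
  have k2 : 0 ≤ 9 * (3 - b ^ 2 - 2 * a * b) * (3 + b ^ 2) + μ * (3 * b * Z) := by
    rcases le_total 0 Z with h | h
    · have : 0 ≤ μ * (3 * b * Z) := by positivity
      linarith
    · have : 1 / 4 * (3 * b) * Z ≤ μ * (3 * b * Z) := by
        nlinarith [mul_nonneg (sub_nonneg.2 hμ1) (mul_nonneg (by positivity : (0:ℝ) ≤ 3 * b) (neg_nonneg.2 h))]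
      linarith
  unfold mF1
  rw [← hZ']
  linarith

/-- The half angle of a height below `118 / 125`. -/
theorem mA_le9 {y : ℝ} (h0 : 0 < y) (h1 : y ≤ 118 / 125) : mA y (√(1 - 3 / 4 * y ^ 2)) ≤ 9 / 10 := by
  have hc : 0 < √(1 - 3 / 4 * y ^ 2) := cn_pos h0 (by linarith)
  have hs : √(1 - 3 / 4 * y ^ 2) ^ 2 = 1 - 3 / 4 * y ^ 2 := cn_sq h0 (by linarith)
  unfold mA
  rw [← mul_div_assoc, div_le_iff₀ (by linarith)]
  have : 5 / 3 * y - 1 ≤ √(1 - 3 / 4 * y ^ 2) := by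
    by_contra h
    push Not at h
    nlinarith
  linarith

theorem dyOk_of_half {x y δ : ℝ} (h0 : 0 < x) (h1 : x < 1) (h2 : 0 < y) (h3 : y < 1) (hδ : |δ| ≤ 1 / 2) :
    DyOk x y δ := by
  have hcx := cn_sq h0 h1
  have pcx := cn_pos h0 h1
  have hcy := cn_sq h2 h3
  have pcy := cn_pos h2 h3
  have hm := mol_mu_le h0 h1 pcx hcx
  have hx1 : √(1 - 3 / 4 * x ^ 2) ≤ 1 := by nlinarith [sq_nonneg x]
  obtain ⟨p0, p1, -⟩ := mol_par' h0 h1 pcx hcx
  obtain ⟨q0, q1, -⟩ := mol_par' h2 h3 pcy hcy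
  have m0 : 0 ≤ (2 * √(1 - 3 / 4 * x ^ 2) + 3)⁻¹ := by positivity
  have m1 : (2 * √(1 - 3 / 4 * x ^ 2) + 3)⁻¹ ≤ 1 / 4 := by
    rw [inv_le_comm₀ (by linarith) (by norm_num)]
    linarith
  have m2 : 1 ≤ 1 + (2 * √(1 - 3 / 4 * x ^ 2) + 3)⁻¹ * (3 / 4 * x + 3 / 2 * (1 - √(1 - 3 / 4 * x ^ 2))) := by
    have := mul_nonneg m0 (show 0 ≤ 3 / 4 * x + 3 / 2 * (1 - √(1 - 3 / 4 * x ^ 2)) by linarith)
    linarith
  exact ⟨mF1_nonneg p0 p1 q0 q1 m2 m0 m1 (abs_le.1 hδ).2, mF2_nonneg p0 p1 q0 q1 m2 m0 m1 (abs_le.1 hδ).1⟩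

theorem dyOk_of9 {x y δ : ℝ} (h0 : 0 < x) (h1 : x < 1) (h2 : 0 < y) (h3 : y ≤ 118 / 125) (hδ : -(1 / 2) ≤ δ)
    (hδ' : δ ≤ 63 / 50) : DyOk x y δ := by
  have h4 : y < 1 := by linarith
  have hcx := cn_sq h0 h1
  have pcx := cn_pos h0 h1
  have hcy := cn_sq h2 h4
  have pcy := cn_pos h2 h4
  have hm := mol_mu_le h0 h1 pcx hcx
  have hx1 : √(1 - 3 / 4 * x ^ 2) ≤ 1 := by nlinarith [sq_nonneg x]
  obtain ⟨p0, p1, -⟩ := mol_par' h0 h1 pcx hcx
  obtain ⟨q0, q1, -⟩ := mol_par' h2 h4 pcy hcy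
  have m0 : 0 ≤ (2 * √(1 - 3 / 4 * x ^ 2) + 3)⁻¹ := by positivity
  have m1 : (2 * √(1 - 3 / 4 * x ^ 2) + 3)⁻¹ ≤ 1 / 4 := by
    rw [inv_le_comm₀ (by linarith) (by norm_num)]
    linarith
  have m2 : 1 ≤ 1 + (2 * √(1 - 3 / 4 * x ^ 2) + 3)⁻¹ * (3 / 4 * x + 3 / 2 * (1 - √(1 - 3 / 4 * x ^ 2))) := by
    have := mul_nonneg m0 (show 0 ≤ 3 / 4 * x + 3 / 2 * (1 - √(1 - 3 / 4 * x ^ 2)) by linarith)
    linarith
  exact ⟨mF1_nonneg9 p0 p1 q0 (mA_le9 h2 h3) m2 m0 m1 hδ', mF2_nonneg p0 p1 q0 q1 m2 m0 m1 hδ⟩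

theorem mol_A1_nonneg' {x y e ey cx cy a b m μ δ F1 k A1 : ℝ} (hx0 : 0 < x) (hx1 : x < 1) (hy0 : 0 < y) (hy1 : y < 1) (hcx : 0 < cx)
    (hcy : 0 < cy) (h1 : cx ^ 2 = 1 - 3 / 4 * x ^ 2) (h2 : cy ^ 2 = 1 - 3 / 4 * y ^ 2)
    (ha : a = mA x cx) (hb : b = mA y cy) (hm : 1 ≤ m) (hμ : 0 ≤ μ) (hμ1 : μ ≤ 1 / 4)
    (hFF : 0 ≤ mF1 a b m μ δ) (he : 0 ≤ e) (hey : 0 ≤ ey) (hF : F1 = mF1 a b m μ δ)
    (hk : k = e * ey * ((3 + a ^ 2) * (3 + b ^ 2)) / ((3 - b ^ 2) * (3 - a * b) ^ 2))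
    (hA : A1 = k * F1 / (64 * (a * b ^ 2))) : 0 ≤ A1 := by
  obtain ⟨p0, p1, -⟩ := mol_par' hx0 hx1 hcx h1
  obtain ⟨q0, q1, -⟩ := mol_par' hy0 hy1 hcy h2
  rw [← ha] at p0 p1
  rw [← hb] at q0 q1
  have h3 : 0 < 3 - b ^ 2 := by nlinarith
  have h6 := hFF
  rw [hA, hk, hF]
  positivity

theorem mol_A2_nonneg' {x y e ey cx cy a b m μ δ F2 k A2 : ℝ} (hx0 : 0 < x) (hx1 : x < 1) (hy0 : 0 < y) (hy1 : y < 1) (hcx : 0 < cx)
    (hcy : 0 < cy) (h1 : cx ^ 2 = 1 - 3 / 4 * x ^ 2) (h2 : cy ^ 2 = 1 - 3 / 4 * y ^ 2)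
    (ha : a = mA x cx) (hb : b = mA y cy) (hm : 1 ≤ m) (hμ : 0 ≤ μ) (hμ1 : μ ≤ 1 / 4)
    (hFF : 0 ≤ mF2 a b m μ δ) (he : 0 ≤ e) (hey : 0 ≤ ey) (hF : F2 = mF2 a b m μ δ)
    (hk : k = e * ey * ((3 + a ^ 2) * (3 + b ^ 2)) / ((3 - b ^ 2) * (3 - a * b) ^ 2))
    (hA : A2 = k * F2 / (32 * ((1 - b) ^ 2 * (1 - a)))) : 0 ≤ A2 := by
  obtain ⟨p0, p1, -⟩ := mol_par' hx0 hx1 hcx h1
  obtain ⟨q0, q1, -⟩ := mol_par' hy0 hy1 hcy h2
  rw [← ha] at p0 p1
  rw [← hb] at q0 q1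
  have h3 : 0 < 3 - b ^ 2 := by nlinarith
  have h7 : 0 < 1 - a := by linarith
  have h8 : 0 < 1 - b := by linarith
  have h6 := hFF
  rw [hA, hk, hF]
  positivity

theorem nn1A1' (T : MolP) {u b x : ℝ} (h : DomA u b x) (hd : DyOk x (n3 T u b x) T.dy) : 0 ≤ n859 T u b x := by
  have hcx : (n8 T u b x) ^ 2 = 1 - 3 / 4 * x ^ 2 := cn_sq h.x0 h.x1
  have hcy : (n12 T u b x) ^ 2 = 1 - 3 / 4 * (n3 T u b x) ^ 2 := cn_sq (y := n3 T u b x) h.y0 h.y1
  have pcx : 0 < (n8 T u b x) := cn_pos h.x0 h.x1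
  have pcy : 0 < (n12 T u b x) := cn_pos (y := n3 T u b x) h.y0 h.y1
  have hmu : 0 ≤ (n599 T u b x) := by
    simp only [n599]
    positivity
  have hmu1 : (n599 T u b x) ≤ 1 / 4 := by
    have := mol_mu_le h.x0 h.x1 pcx hcx
    simp only [n599]
    rw [inv_le_comm₀ (by linarith) (by norm_num)]
    linarith
  have hm : 1 ≤ (n662 T u b x) := by
    have hc1 : (n8 T u b x) ≤ 1 := by nlinarith [sq_nonneg x]
    have hx := h.x0
    have h3 : 0 ≤ (n599 T u b x) * (3 / 4 * x + 3 / 2 * (1 - (n8 T u b x))) := mul_nonneg hmu (by linarith)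
    have h4 : (n662 T u b x) = 1 + (n599 T u b x) * (3 / 4 * x + 3 / 2 * (1 - (n8 T u b x))) := by
      simp only [n662, n660]
      all_goals ring
    rw [h4]
    linarith
  have pe : 0 ≤ (n15 T u b x) := by
    have := (cn_e h.x0 h.x1).le
    refine this.trans (le_of_eq ?_)
    simp only [n15, n8]
    all_goals ring
  have pey : 0 ≤ (n64 T u b x) := by
    have := (cn_e (y := n3 T u b x) h.y0 h.y1).le
    refine this.trans (le_of_eq ?_)
    simp only [n64, n60, n12]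
    all_goals ring
  refine mol_A1_nonneg' (x := x) (y := n3 T u b x) (cx := n8 T u b x) (cy := n12 T u b x) (e := n15 T u b x) (ey := n64 T u b x)
    (μ := n599 T u b x) (m := n662 T u b x) (δ := T.dy) (a := n244 T u b x) (b := n248 T u b x) (k := n263 T u b x) (F1 := n838 T u b x) (A1 := n859 T u b x) h.x0 h.x1
    h.y0 h.y1 pcx pcy hcx hcy ?_ ?_ hm hmu hmu1 ?_ pe pey ?_ ?_ ?_
  · simp only [n244]
    unfold mA
    ring
  · simp only [n248]
    unfold mA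
    ring
  · refine hd.1.trans (le_of_eq ?_)
    unfold mF1 mA
    simp only [n8, n12, n244, n248, n599, n660, n662]
    ring
  · simp only [n838, n833, n267, n259, n258, n255, n251, n250]
    unfold mF1
    ring
  · simp only [n263, n259, n258, n255, n251, n250]
    all_goals ring
  · simp only [n859, n283, n273, n251]
    all_goals ring

theorem nn1A2' (T : MolP) {u b x : ℝ} (h : DomA u b x) (hd : DyOk x (n3 T u b x) T.dy) : 0 ≤ n861 T u b x := by
  have hcx : (n8 T u b x) ^ 2 = 1 - 3 / 4 * x ^ 2 := cn_sq h.x0 h.x1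
  have hcy : (n12 T u b x) ^ 2 = 1 - 3 / 4 * (n3 T u b x) ^ 2 := cn_sq (y := n3 T u b x) h.y0 h.y1
  have pcx : 0 < (n8 T u b x) := cn_pos h.x0 h.x1
  have pcy : 0 < (n12 T u b x) := cn_pos (y := n3 T u b x) h.y0 h.y1
  have hmu : 0 ≤ (n599 T u b x) := by
    simp only [n599]
    positivity
  have hmu1 : (n599 T u b x) ≤ 1 / 4 := by
    have := mol_mu_le h.x0 h.x1 pcx hcx
    simp only [n599]
    rw [inv_le_comm₀ (by linarith) (by norm_num)]
    linarith
  have hm : 1 ≤ (n662 T u b x) := by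
    have hc1 : (n8 T u b x) ≤ 1 := by nlinarith [sq_nonneg x]
    have hx := h.x0
    have h3 : 0 ≤ (n599 T u b x) * (3 / 4 * x + 3 / 2 * (1 - (n8 T u b x))) := mul_nonneg hmu (by linarith)
    have h4 : (n662 T u b x) = 1 + (n599 T u b x) * (3 / 4 * x + 3 / 2 * (1 - (n8 T u b x))) := by
      simp only [n662, n660]
      all_goals ring
    rw [h4]
    linarith
  have pe : 0 ≤ (n15 T u b x) := by
    have := (cn_e h.x0 h.x1).le
    refine this.trans (le_of_eq ?_)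
    simp only [n15, n8]
    all_goals ring
  have pey : 0 ≤ (n64 T u b x) := by
    have := (cn_e (y := n3 T u b x) h.y0 h.y1).le
    refine this.trans (le_of_eq ?_)
    simp only [n64, n60, n12]
    all_goals ring
  refine mol_A2_nonneg' (x := x) (y := n3 T u b x) (cx := n8 T u b x) (cy := n12 T u b x) (e := n15 T u b x) (ey := n64 T u b x)
    (μ := n599 T u b x) (m := n662 T u b x) (δ := T.dy) (a := n244 T u b x) (b := n248 T u b x) (k := n263 T u b x) (F2 := n857 T u b x) (A2 := n861 T u b x) h.x0 h.x1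
    h.y0 h.y1 pcx pcy hcx hcy ?_ ?_ hm hmu hmu1 ?_ pe pey ?_ ?_ ?_
  · simp only [n244]
    unfold mA
    ring
  · simp only [n248]
    unfold mA
    ring
  · refine hd.2.trans (le_of_eq ?_)
    unfold mF2 mA
    simp only [n8, n12, n244, n248, n599, n660, n662]
    ring
  · simp only [n857, n833, n286, n280, n273, n259, n258, n255, n251, n250]
    unfold mF2
    ring
  · simp only [n263, n259, n258, n255, n251, n250]
    all_goals ring
  · simp only [n861, n291, n286]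
    all_goals ring

theorem nn1B1' (T : MolP) {u b x : ℝ} (h : DomB u b x) (hd : DyOk x (n3 T u b x) T.dy) : 0 ≤ n859 T u b x := by
  have hcx : (n8 T u b x) ^ 2 = 1 - 3 / 4 * x ^ 2 := cn_sq h.x0 h.x1
  have hcy : (n12 T u b x) ^ 2 = 1 - 3 / 4 * (n3 T u b x) ^ 2 := cn_sq (y := n3 T u b x) h.y0 h.y1
  have pcx : 0 < (n8 T u b x) := cn_pos h.x0 h.x1
  have pcy : 0 < (n12 T u b x) := cn_pos (y := n3 T u b x) h.y0 h.y1
  have hmu : 0 ≤ (n599 T u b x) := by
    simp only [n599]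
    positivity
  have hmu1 : (n599 T u b x) ≤ 1 / 4 := by
    have := mol_mu_le h.x0 h.x1 pcx hcx
    simp only [n599]
    rw [inv_le_comm₀ (by linarith) (by norm_num)]
    linarith
  have hm : 1 ≤ (n662 T u b x) := by
    have hc1 : (n8 T u b x) ≤ 1 := by nlinarith [sq_nonneg x]
    have hx := h.x0
    have h3 : 0 ≤ (n599 T u b x) * (3 / 4 * x + 3 / 2 * (1 - (n8 T u b x))) := mul_nonneg hmu (by linarith)
    have h4 : (n662 T u b x) = 1 + (n599 T u b x) * (3 / 4 * x + 3 / 2 * (1 - (n8 T u b x))) := by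
      simp only [n662, n660]
      all_goals ring
    rw [h4]
    linarith
  have pe : 0 ≤ (n15 T u b x) := by
    have := (cn_e h.x0 h.x1).le
    refine this.trans (le_of_eq ?_)
    simp only [n15, n8]
    all_goals ring
  have pey : 0 ≤ (n64 T u b x) := by
    have := (cn_e (y := n3 T u b x) h.y0 h.y1).le
    refine this.trans (le_of_eq ?_)
    simp only [n64, n60, n12]
    all_goals ring
  refine mol_A1_nonneg' (x := x) (y := n3 T u b x) (cx := n8 T u b x) (cy := n12 T u b x) (e := n15 T u b x) (ey := n64 T u b x)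
    (μ := n599 T u b x) (m := n662 T u b x) (δ := T.dy) (a := n244 T u b x) (b := n248 T u b x) (k := n263 T u b x) (F1 := n838 T u b x) (A1 := n859 T u b x) h.x0 h.x1
    h.y0 h.y1 pcx pcy hcx hcy ?_ ?_ hm hmu hmu1 ?_ pe pey ?_ ?_ ?_
  · simp only [n244]
    unfold mA
    ring
  · simp only [n248]
    unfold mA
    ring
  · refine hd.1.trans (le_of_eq ?_)
    unfold mF1 mA
    simp only [n8, n12, n244, n248, n599, n660, n662]
    ring
  · simp only [n838, n833, n267, n259, n258, n255, n251, n250]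
    unfold mF1
    ring
  · simp only [n263, n259, n258, n255, n251, n250]
    all_goals ring
  · simp only [n859, n283, n273, n251]
    all_goals ring

theorem nn1B2' (T : MolP) {u b x : ℝ} (h : DomB u b x) (hd : DyOk x (n3 T u b x) T.dy) : 0 ≤ n861 T u b x := by
  have hcx : (n8 T u b x) ^ 2 = 1 - 3 / 4 * x ^ 2 := cn_sq h.x0 h.x1
  have hcy : (n12 T u b x) ^ 2 = 1 - 3 / 4 * (n3 T u b x) ^ 2 := cn_sq (y := n3 T u b x) h.y0 h.y1
  have pcx : 0 < (n8 T u b x) := cn_pos h.x0 h.x1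
  have pcy : 0 < (n12 T u b x) := cn_pos (y := n3 T u b x) h.y0 h.y1
  have hmu : 0 ≤ (n599 T u b x) := by
    simp only [n599]
    positivity
  have hmu1 : (n599 T u b x) ≤ 1 / 4 := by
    have := mol_mu_le h.x0 h.x1 pcx hcx
    simp only [n599]
    rw [inv_le_comm₀ (by linarith) (by norm_num)]
    linarith
  have hm : 1 ≤ (n662 T u b x) := by
    have hc1 : (n8 T u b x) ≤ 1 := by nlinarith [sq_nonneg x]
    have hx := h.x0
    have h3 : 0 ≤ (n599 T u b x) * (3 / 4 * x + 3 / 2 * (1 - (n8 T u b x))) := mul_nonneg hmu (by linarith)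
    have h4 : (n662 T u b x) = 1 + (n599 T u b x) * (3 / 4 * x + 3 / 2 * (1 - (n8 T u b x))) := by
      simp only [n662, n660]
      all_goals ring
    rw [h4]
    linarith
  have pe : 0 ≤ (n15 T u b x) := by
    have := (cn_e h.x0 h.x1).le
    refine this.trans (le_of_eq ?_)
    simp only [n15, n8]
    all_goals ring
  have pey : 0 ≤ (n64 T u b x) := by
    have := (cn_e (y := n3 T u b x) h.y0 h.y1).le
    refine this.trans (le_of_eq ?_)
    simp only [n64, n60, n12]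
    all_goals ring
  refine mol_A2_nonneg' (x := x) (y := n3 T u b x) (cx := n8 T u b x) (cy := n12 T u b x) (e := n15 T u b x) (ey := n64 T u b x)
    (μ := n599 T u b x) (m := n662 T u b x) (δ := T.dy) (a := n244 T u b x) (b := n248 T u b x) (k := n263 T u b x) (F2 := n857 T u b x) (A2 := n861 T u b x) h.x0 h.x1
    h.y0 h.y1 pcx pcy hcx hcy ?_ ?_ hm hmu hmu1 ?_ pe pey ?_ ?_ ?_
  · simp only [n244]
    unfold mA
    ring
  · simp only [n248]
    unfold mA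
    ring
  · refine hd.2.trans (le_of_eq ?_)
    unfold mF2 mA
    simp only [n8, n12, n244, n248, n599, n660, n662]
    ring
  · simp only [n857, n833, n286, n280, n273, n259, n258, n255, n251, n250]
    unfold mF2
    ring
  · simp only [n263, n259, n258, n255, n251, n250]
    all_goals ring
  · simp only [n861, n291, n286]
    all_goals ring

theorem ch1Ap' (T : MolP) {u b x κ τ1 τ3 : ℝ} (h : DomA u b x) (hb : 0 ≤ b)
    (hκ : κ * h0 * (x * (1 - x)) = 2 * (n15 T u b x)) (hd : DyOk x (n3 T u b x) T.dy) (hP : 0 < n752 T u b x) (hQ : 0 < n779 T u b x)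
    (tN : 0 < -(n866 T u b x) ∨ 0 < n798 T u b x ∨ 0 < n870 T u b x) (tM : 0 < n866 T u b x ∨ 0 < n817 T u b x ∨ 0 < n874 T u b x)
    (t1 : tau (h0 * (n3 T u b x)) = h0 * τ1) (t3 : tau (h0 * (n3 T u b x) + (h0 + h0 * b)) = h0 * τ3) :
    NGV κ (h0 * x) ((n654 T u b x) + b * (n656 T u b x)) (h0 * (n3 T u b x)) (h0 + h0 * b)
      ((n730 T u b x) * τ1, -(n748 T u b x), (n739 T u b x) * τ3) := by
  have eNT : n870 T u b x = u ^ 2 * ((n859 T u b x) * (1 / 2 * (n662 T u b x))) + b * (n798 T u b x) := by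
    simp only [n870, n868, n298]
    all_goals ring
  have eMT : n874 T u b x = u ^ 2 * ((n861 T u b x) * ((1 - (n3 T u b x)) * (1 / 2 * (n662 T u b x)))) + b * (n817 T u b x) := by
    simp only [n874, n872, n781, n298, n169]
    all_goals ring
  rw [eNT] at tN
  rw [eMT] at tM
  have hr : 0 ≤ (1 / 2 * (n662 T u b x)) := by
    have pcx : 0 < (n8 T u b x) := cn_pos h.x0 h.x1
    have hcx : (n8 T u b x) ^ 2 = 1 - 3 / 4 * x ^ 2 := cn_sq h.x0 h.x1
    have hc1 : (n8 T u b x) ≤ 1 := by nlinarith [sq_nonneg x]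
    have hmu : 0 ≤ (n599 T u b x) := by
      simp only [n599]
      positivity
    have hx := h.x0
    have h3 : 0 ≤ (n599 T u b x) * (3 / 4 * x + 3 / 2 * (1 - (n8 T u b x))) := mul_nonneg hmu (by linarith)
    have h4 : (1 / 2 * (n662 T u b x)) = 1 / 2 * (1 + (n599 T u b x) * (3 / 4 * x + 3 / 2 * (1 - (n8 T u b x)))) := by
      simp only [n662, n660]
      all_goals ring
    rw [h4]
    linarith
  refine chA_nonneg (κ := κ) (x := x) (e := n15 T u b x) (y := n3 T u b x) (β := b) (K1 := n730 T u b x) (K10 := n728 T u b x) (K11 := n729 T u b x)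
    (K30 := n737 T u b x) (K31 := n738 T u b x) (K3 := n739 T u b x) (ρ0 := 1 / 2 * (n662 T u b x)) (ρ1 := n747 T u b x) (ρ := n748 T u b x) (E0 := n654 T u b x) (E1 := n656 T u b x) (P := n752 T u b x)
    (R := n766 T u b x) (Q := n779 T u b x) (P0 := n755 T u b x) (P1 := n760 T u b x) (R1 := n764 T u b x) (Q1 := n773 T u b x) (A1 := n859 T u b x) (A2 := n861 T u b x)
    (N1 := n798 T u b x) (M1 := n817 T u b x) (u := u) (wd := n866 T u b x) (τ1 := τ1) (τ3 := τ3) h.x0 h.x1 hκ hb (by linarith [h.b1]) h.p1 h.y0 h.y1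
    (J85 T (u := u) (b := b) (x := x) h) (J89 T (u := u) (b := b) (x := x))
    (J65 T (u := u) (b := b) (x := x)) ?_ ?_ ?_ ?_ ?_ ?_ ?_ hP hQ ?_ ?_ (val1A T h) (nn1A1' T h hd) (nn1A2' T h hd) hr ?_
    tN tM t1 t3
  · simp only [n752, n751, n749, n172, n169]
    all_goals ring
  · simp only [n764, n762, n761, n751, n172, n169]
    all_goals ring
  · simp only [n766]
    all_goals ring
  · simp only [n779, n774]
    all_goals ring
  · simp only [n755, n754, n169]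
    all_goals ring
  · simp only [n760, n759, n757, n169]
    all_goals ring
  · simp only [n773, n772]
    all_goals ring
  · simp only [n798, n784, n782, n781, n780, n770, n767, n766, n205, n169]
    unfold mol
    ring
  · simp only [n817, n803, n801, n800, n799, n781, n780, n775, n774, n770, n766, n224, n205, n169]
    unfold mol
    ring
  · simp only [n866, n862]
    all_goals ring

theorem ch1Am' (T : MolP) {u b x κ τ1 τ3 : ℝ} (h : DomA u b x) (hb : b < 0)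
    (hκ : κ * h0 * (x * (1 - x)) = 2 * (n15 T u b x)) (hd : DyOk x (n3 T u b x) T.dy) (hP : 0 < n752 T u b x) (hQ : 0 < n893 T u b x)
    (tN : 0 < -(n933 T u b x) ∨ 0 < -(n913 T u b x) ∨ 0 < n937 T u b x) (tM : 0 < n933 T u b x ∨ 0 < -(n929 T u b x) ∨ 0 < n939 T u b x)
    (t1 : tau (h0 * (n3 T u b x)) = h0 * τ1) (t3 : tau (h0 * (n3 T u b x) + (h0 + h0 * b)) = h0 * τ3) :
    NGV κ (h0 * x) ((n654 T u b x) + b * (n877 T u b x)) (h0 * (n3 T u b x)) (h0 + h0 * b)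
      ((n730 T u b x) * τ1, -(n748 T u b x), (n739 T u b x) * τ3) := by
  have eNT : n937 T u b x = u ^ 2 * ((n859 T u b x) * (1 / 2 * (n662 T u b x))) + b * (n913 T u b x) := by
    simp only [n937, n868, n298]
    all_goals ring
  have eMT : n939 T u b x = u ^ 2 * ((n861 T u b x) * ((1 - (n3 T u b x)) * (1 / 2 * (n662 T u b x)))) + b * (n929 T u b x) := by
    simp only [n939, n872, n781, n298, n169]
    all_goals ring
  rw [eNT] at tN
  rw [eMT] at tM
  have hr : 0 ≤ (1 / 2 * (n662 T u b x)) := by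
    have pcx : 0 < (n8 T u b x) := cn_pos h.x0 h.x1
    have hcx : (n8 T u b x) ^ 2 = 1 - 3 / 4 * x ^ 2 := cn_sq h.x0 h.x1
    have hc1 : (n8 T u b x) ≤ 1 := by nlinarith [sq_nonneg x]
    have hmu : 0 ≤ (n599 T u b x) := by
      simp only [n599]
      positivity
    have hx := h.x0
    have h3 : 0 ≤ (n599 T u b x) * (3 / 4 * x + 3 / 2 * (1 - (n8 T u b x))) := mul_nonneg hmu (by linarith)
    have h4 : (1 / 2 * (n662 T u b x)) = 1 / 2 * (1 + (n599 T u b x) * (3 / 4 * x + 3 / 2 * (1 - (n8 T u b x)))) := by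
      simp only [n662, n660]
      all_goals ring
    rw [h4]
    linarith
  refine chA_neg (κ := κ) (x := x) (e := n15 T u b x) (y := n3 T u b x) (β := b) (K1 := n730 T u b x) (K10 := n728 T u b x) (K11 := n729 T u b x)
    (K30 := n737 T u b x) (K31 := n738 T u b x) (K3 := n739 T u b x) (ρ0 := 1 / 2 * (n662 T u b x)) (ρ1 := n747 T u b x) (ρ := n748 T u b x) (E0 := n654 T u b x) (E1 := n877 T u b x) (P := n752 T u b x)
    (R := n883 T u b x) (Q := n893 T u b x) (P0 := n755 T u b x) (P1 := n760 T u b x) (R1 := n881 T u b x) (Q1 := n891 T u b x) (A1 := n859 T u b x) (A2 := n861 T u b x)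
    (N1 := n913 T u b x) (M1 := n929 T u b x) (u := u) (wd := n933 T u b x) (τ1 := τ1) (τ3 := τ3) h.x0 h.x1 hκ hb (by linarith [h.b0]) h.p0 h.y1
    (J85 T (u := u) (b := b) (x := x) h) (J89 T (u := u) (b := b) (x := x))
    (J65 T (u := u) (b := b) (x := x)) ?_ ?_ ?_ ?_ ?_ ?_ ?_ hP hQ ?_ ?_ (val1A T h) (nn1A1' T h hd) (nn1A2' T h hd) hr ?_
    tN tM t1 t3
  · simp only [n752, n751, n749, n172, n169]
    all_goals ring
  · simp only [n881, n879, n878, n749, n169, n30]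
    all_goals ring
  · simp only [n883]
    all_goals ring
  · simp only [n893, n30]
    all_goals ring
  · simp only [n755, n754, n169]
    all_goals ring
  · simp only [n760, n759, n757, n169]
    all_goals ring
  · simp only [n891, n772]
    all_goals ring
  · simp only [n913, n899, n887, n884, n883, n782, n781, n780, n772, n316, n315, n205, n169]
    unfold mol
    ring
  · simp only [n929, n915, n894, n887, n883, n801, n800, n799, n781, n780, n224, n205, n169]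
    unfold mol
    ring
  · simp only [n933, n862, n30]
    all_goals ring

theorem ch1Bp' (T : MolP) {u b x κ τ1 τ3 : ℝ} (h : DomB u b x) (hb : 0 ≤ b)
    (hκ : κ * h0 * (x * (1 - x)) = 2 * (n15 T u b x)) (hd : DyOk x (n3 T u b x) T.dy) (hP : 0 < n1047 T u b x) (hQ : 0 < n1070 T u b x)
    (tN : 0 < -(n1115 T u b x) ∨ 0 < n1092 T u b x ∨ 0 < n1117 T u b x) (tM : 0 < n1115 T u b x ∨ 0 < n1110 T u b x ∨ 0 < n1119 T u b x)
    (t1 : tau (h0 * (n3 T u b x)) = h0 * τ1) (t3 : tau (h0 + h0 * b - h0 * (n3 T u b x)) = h0 * τ3) :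
    NGV κ (h0 * x) ((n654 T u b x) + b * (n990 T u b x)) (h0 * (n3 T u b x)) (h0 + h0 * b - h0 * (n3 T u b x))
      ((n730 T u b x) * τ1, (n1044 T u b x) * τ3, -(n748 T u b x)) := by
  have eNT : n1117 T u b x = u ^ 2 * ((n859 T u b x) * (1 / 2 * (n662 T u b x))) + b * (n1092 T u b x) := by
    simp only [n1117, n868, n298]
    all_goals ring
  have eMT : n1119 T u b x = u ^ 2 * ((n861 T u b x) * ((1 - (n3 T u b x)) * (1 / 2 * (n662 T u b x)))) + b * (n1110 T u b x) := by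
    simp only [n1119, n872, n781, n298, n169]
    all_goals ring
  rw [eNT] at tN
  rw [eMT] at tM
  have hr : 0 ≤ (1 / 2 * (n662 T u b x)) := by
    have pcx : 0 < (n8 T u b x) := cn_pos h.x0 h.x1
    have hcx : (n8 T u b x) ^ 2 = 1 - 3 / 4 * x ^ 2 := cn_sq h.x0 h.x1
    have hc1 : (n8 T u b x) ≤ 1 := by nlinarith [sq_nonneg x]
    have hmu : 0 ≤ (n599 T u b x) := by
      simp only [n599]
      positivity
    have hx := h.x0
    have h3 : 0 ≤ (n599 T u b x) * (3 / 4 * x + 3 / 2 * (1 - (n8 T u b x))) := mul_nonneg hmu (by linarith)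
    have h4 : (1 / 2 * (n662 T u b x)) = 1 / 2 * (1 + (n599 T u b x) * (3 / 4 * x + 3 / 2 * (1 - (n8 T u b x)))) := by
      simp only [n662, n660]
      all_goals ring
    rw [h4]
    linarith
  refine chB_nonneg (κ := κ) (x := x) (e := n15 T u b x) (y := n3 T u b x) (β := b) (K1 := n730 T u b x) (K10 := n728 T u b x) (K11 := n729 T u b x)
    (K30 := n1042 T u b x) (K31 := n1043 T u b x) (K3 := n1044 T u b x) (ρ0 := 1 / 2 * (n662 T u b x)) (ρ1 := n747 T u b x) (ρ := n748 T u b x) (E0 := n654 T u b x) (E1 := n990 T u b x) (P := n1047 T u b x)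
    (R := n1059 T u b x) (Q := n1070 T u b x) (P0 := n1050 T u b x) (P1 := n1054 T u b x) (R1 := n1057 T u b x) (Q1 := n1068 T u b x) (A1 := n859 T u b x) (A2 := n861 T u b x)
    (N1 := n1092 T u b x) (M1 := n1110 T u b x) (u := u) (wd := n1115 T u b x) (τ1 := τ1) (τ3 := τ3) h.x0 h.x1 hκ hb (by linarith [h.b1]) h.p0 h.y1
    (J129 T (u := u) (b := b) (x := x) h) (J89 T (u := u) (b := b) (x := x))
    (J65 T (u := u) (b := b) (x := x)) ?_ ?_ ?_ ?_ ?_ ?_ ?_ hP hQ ?_ ?_ (val1B T h) (nn1B1' T h hd) (nn1B2' T h hd) hr ?_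
    tN tM t1 t3
  · simp only [n1047, n1046, n749, n460, n169]
    all_goals ring
  · simp only [n1057, n1055, n878, n749, n372, n169]
    all_goals ring
  · simp only [n1059]
    all_goals ring
  · simp only [n1070, n372]
    all_goals ring
  · simp only [n1050, n1049, n169]
    all_goals ring
  · simp only [n1054, n1051, n759, n169]
    all_goals ring
  · simp only [n1068, n1061]
    all_goals ring
  · simp only [n1092, n1078, n1076, n1075, n1064, n1061, n1060, n1059, n781, n477, n315, n205, n169]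
    unfold mol
    ring
  · simp only [n1110, n1096, n1094, n1093, n1075, n1071, n1064, n1059, n800, n781, n224, n205, n169]
    unfold mol
    ring
  · simp only [n1115, n1111, n372]
    all_goals ring

theorem ch1Bm' (T : MolP) {u b x κ τ1 τ3 : ℝ} (h : DomB u b x) (hb : b < 0)
    (hκ : κ * h0 * (x * (1 - x)) = 2 * (n15 T u b x)) (hd : DyOk x (n3 T u b x) T.dy) (hP : 0 < n1047 T u b x) (hQ : 0 < n1134 T u b x)
    (tN : 0 < -(n1176 T u b x) ∨ 0 < -(n1156 T u b x) ∨ 0 < n1180 T u b x) (tM : 0 < n1176 T u b x ∨ 0 < -(n1172 T u b x) ∨ 0 < n1182 T u b x)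
    (t1 : tau (h0 * (n3 T u b x)) = h0 * τ1) (t3 : tau (h0 + h0 * b - h0 * (n3 T u b x)) = h0 * τ3) :
    NGV κ (h0 * x) ((n654 T u b x) + b * (n1122 T u b x)) (h0 * (n3 T u b x)) (h0 + h0 * b - h0 * (n3 T u b x))
      ((n730 T u b x) * τ1, (n1044 T u b x) * τ3, -(n748 T u b x)) := by
  have eNT : n1180 T u b x = u ^ 2 * ((n859 T u b x) * (1 / 2 * (n662 T u b x))) + b * (n1156 T u b x) := by
    simp only [n1180, n868, n298]
    all_goals ring
  have eMT : n1182 T u b x = u ^ 2 * ((n861 T u b x) * ((1 - (n3 T u b x)) * (1 / 2 * (n662 T u b x)))) + b * (n1172 T u b x) := by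
    simp only [n1182, n872, n781, n298, n169]
    all_goals ring
  rw [eNT] at tN
  rw [eMT] at tM
  have hyb : n3 T u b x < 1 + b := by
    have := h.p1
    simp only [n3]
    linarith
  have hr : 0 ≤ (1 / 2 * (n662 T u b x)) := by
    have pcx : 0 < (n8 T u b x) := cn_pos h.x0 h.x1
    have hcx : (n8 T u b x) ^ 2 = 1 - 3 / 4 * x ^ 2 := cn_sq h.x0 h.x1
    have hc1 : (n8 T u b x) ≤ 1 := by nlinarith [sq_nonneg x]
    have hmu : 0 ≤ (n599 T u b x) := by
      simp only [n599]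
      positivity
    have hx := h.x0
    have h3 : 0 ≤ (n599 T u b x) * (3 / 4 * x + 3 / 2 * (1 - (n8 T u b x))) := mul_nonneg hmu (by linarith)
    have h4 : (1 / 2 * (n662 T u b x)) = 1 / 2 * (1 + (n599 T u b x) * (3 / 4 * x + 3 / 2 * (1 - (n8 T u b x)))) := by
      simp only [n662, n660]
      all_goals ring
    rw [h4]
    linarith
  refine chB_neg (κ := κ) (x := x) (e := n15 T u b x) (y := n3 T u b x) (β := b) (K1 := n730 T u b x) (K10 := n728 T u b x) (K11 := n729 T u b x)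
    (K30 := n1042 T u b x) (K31 := n1043 T u b x) (K3 := n1044 T u b x) (ρ0 := 1 / 2 * (n662 T u b x)) (ρ1 := n747 T u b x) (ρ := n748 T u b x) (E0 := n654 T u b x) (E1 := n1122 T u b x) (P := n1047 T u b x)
    (R := n1126 T u b x) (Q := n1134 T u b x) (P0 := n1050 T u b x) (P1 := n1054 T u b x) (R1 := n1124 T u b x) (Q1 := n1132 T u b x) (A1 := n859 T u b x) (A2 := n861 T u b x)
    (N1 := n1156 T u b x) (M1 := n1172 T u b x) (u := u) (wd := n1176 T u b x) (τ1 := τ1) (τ3 := τ3) h.x0 h.x1 hκ hb (by linarith [h.b0]) hyb h.y0 h.y1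
    (J129 T (u := u) (b := b) (x := x) h) (J89 T (u := u) (b := b) (x := x))
    (J65 T (u := u) (b := b) (x := x)) ?_ ?_ ?_ ?_ ?_ ?_ ?_ hP hQ ?_ ?_ (val1B T h) (nn1B1' T h hd) (nn1B2' T h hd) hr ?_
    tN tM t1 t3
  · simp only [n1047, n1046, n749, n460, n169]
    all_goals ring
  · simp only [n1124, n1046, n762, n761, n460, n169]
    all_goals ring
  · simp only [n1126]
    all_goals ring
  · simp only [n1134]
    all_goals ring
  · simp only [n1050, n1049, n169]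
    all_goals ring
  · simp only [n1054, n1051, n759, n169]
    all_goals ring
  · simp only [n1132, n1061]
    all_goals ring
  · simp only [n1156, n1142, n1130, n1127, n1126, n1076, n1075, n781, n205, n169]
    unfold mol
    ring
  · simp only [n1172, n1158, n1136, n1130, n1126, n1094, n1093, n1075, n800, n781, n224, n205, n169]
    unfold mol
    ring
  · simp only [n1176, n1111]
    all_goals ring

end Pool.Agent.Strip051.LC.MolN
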