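import Pool.Agent.Strip051.LC.Exact.MolU3

/-! # The near vertex at the tight triangles: the other sign, short second cell

The case of `gd_up` in which the short edge starts beyond the end of the first cell. -/

namespace Pool.Agent.Strip051.LC

open Pool.Agent.StripNear Pool.Agent.StripSquare Pool.Agent.Strip051.Sweep
open Pool.Agent.Strip051.LC.Line (D D_refl D_add D_low D_high D_abs D_add_int D_add_nat
  Dd_continuous mn jn tau)

section

variable {s th : ℝ}

/-- The integral over a part of the second cell. -/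
theorem upX {a b : ℝ} (hs0 : 0 < s) (hs1 : s < h0) (ht : 0 < th) (ht1 : th ≤ 1) (ha : s ≤ a)
    (ha' : a ≤ h0) (hb : s ≤ b) (hb' : b ≤ h0) :
    ∫ x in a..b, gd s th x ≤ (1 - th) * (h0 - s) / 4 := by
  have hI := gd_int hs0 hs1 ht ht1
  have e1 := intervalIntegral.integral_add_adjacent_intervals (hI 0 s) (hI s h0)
  rw [gd_cell hs0 hs1 ht ht1] at e1
  have e2 := gd_period hs0 hs1 ht ht1 0
  rw [zero_add] at e2
  have e3 := intervalIntegral.integral_add_adjacent_intervals (hI s b) (hI b h0)
  have e4 := intervalIntegral.integral_add_adjacent_intervals (hI a b) (hI b h0)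
  have e5 := gdB hs0 hs1 ht ht1 hb hb'
  have e6 := (upB (a := h0 - a) hs0 hs1 ht ht1 (by linarith)).2.2 (by linarith)
  have e7 := gd_shift hs0 hs1 ht ht1 a h0 (-1)
  rw [show a + ((-1 : ℤ) : ℝ) * h0 = -(h0 - a) by push_cast; ring,
    show h0 + ((-1 : ℤ) : ℝ) * h0 = 0 by push_cast; ring] at e7
  linarith

/-- The gap on the steep edge far beyond the tight phase. -/
theorem gapX {v β : ℝ} (hs0 : 0 < s) (hs1 : s < h0) (hs2 : h0 / 2 ≤ s) (hv : 5 / 16 * h0 ≤ v)
    (hv' : v ≤ h0 - s) (hβ : |β| ≤ h0 / 8) :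
    1 ≤ ∫ u in (0 : ℝ)..1, (1 - Dh s (s + v + u * β)) := by
  have hp := h0_pos
  have h1 : 0 < h0 - s := by linarith
  obtain ⟨b1, b2⟩ := abs_le.1 hβ
  rcases le_total β 0 with hb | hb
  · have m := intervalIntegral.integral_mono_on (a := 0) (b := 1) zero_le_one
      (Continuous.intervalIntegrable (by fun_prop :
        Continuous fun u : ℝ => 2 * v / (h0 - s) + 2 * β / (h0 - s) * u) _ _)
      (gapI s v β hs0 hs1 0 1) fun u hu => by
        have u1 : u * β ≤ 0 := mul_nonpos_of_nonneg_of_nonpos hu.1 hb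
        have u2 : β ≤ u * β := by nlinarith [hu.2]
        rw [add_assoc, gapW hs0 hs1 (by linarith) (by linarith)]
        exact le_of_eq (by ring)
    rw [lin_int] at m
    refine le_trans ?_ m
    have e : (1 - 0) * (2 * v / (h0 - s)) + 2 * β / (h0 - s) * ((1 ^ 2 - 0 ^ 2) / 2) =
        (2 * v + β) / (h0 - s) := by
      field_simp
      ring
    rw [e, le_div_iff₀ h1]
    linarith
  · have m := intervalIntegral.integral_mono_on (a := 0) (b := 1) (f := fun _ => (1 : ℝ))
      zero_le_one (by simp) (gapI s v β hs0 hs1 0 1) fun u hu => by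
        have u1 : 0 ≤ u * β := mul_nonneg hu.1 hb
        have u2 : u * β ≤ β := by nlinarith [hu.2]
        rcases le_total (v + u * β) (h0 - s) with h | h
        · rw [add_assoc, gapW hs0 hs1 (by linarith) h, le_div_iff₀ h1]
          linarith
        · have e : Dh s (s + v + u * β) = Dh s (s + (v + u * β - h0)) := by
            rw [← Dh_add (x := s + (v + u * β - h0))]
            congr 1
            ring
          rw [e, gapV hs0 hs1 (by linarith) (by linarith), ← neg_div, le_div_iff₀ hs0]
          linarith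
    rw [intervalIntegral.integral_const, sub_zero, one_smul] at m
    exact m

/-- **The integral over the short edge from above**, all phases, also for a short edge which is
shorter than the second cell. -/
theorem gd_up2 {t α β b G C L l : ℝ} (hs0 : 0 < s) (hs1 : s < h0) (hs2 : h0 / 2 ≤ s)
    (ht : 0 < th) (ht1 : th ≤ 1) (et : t = s + α) (hα : α ≤ h0 - s)
    (hα' : h0 - s - α ≤ s ∨ -(3 / 16 * h0) ≤ α)
    (hβ : |β| ≤ h0 - s) (hβ2 : |β| ≤ s / 2) (hβ3 : |β| ≤ h0 / 8)
    (hL0 : (1 - th) * (4 * th * s + (h0 - s)) ≤ 4 * th * s * L)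
    (hL1 : (1 - th) * (th * s + (h0 - s)) ≤ 2 * th * s * L) (hG0 : 0 ≤ G)
    (hG : ∀ a, 0 ≤ a → a ≤ α → ∫ x in (-a)..(0 : ℝ), gd s th x ≤ G) (hl0 : 0 ≤ l)
    (hl : h0 ≤ l ^ 2 * s) (hC : L * s / 2 ≤ C) (hC' : 0 < β → L * s / 2 * (1 + l) ≤ C) :
    ∫ x in (b - t)..b, gd s th x ≤ G + C * ∫ u in (0 : ℝ)..1, (1 - Dh s (b + u * β)) := by
  rcases hα' with hα' | hα'
  · exact gd_up hs0 hs1 hs2 ht ht1 et hα hα' hβ hβ2 hL0 hL1 hG0 hG hl0 hl hC hC'
  have hp := h0_pos
  have hr : 0 < h0 - s := by linarith
  have t1 : 0 ≤ 1 - th := by linarith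
  have hL : 1 - th ≤ L := by
    have h4 : 0 < th * s := by positivity
    have : (1 - th) * (4 * (th * s)) ≤ L * (4 * (th * s)) := by nlinarith [mul_nonneg t1 hr.le]
    exact le_of_mul_le_mul_right this (by positivity)
  have L0 : 0 ≤ L := by linarith
  have C0 : 0 ≤ C := le_trans (by positivity) hC
  obtain ⟨n, v, hv, hv1, hv2⟩ : ∃ (n : ℤ) (v : ℝ), v = b - s - n * h0 ∧ -s ≤ v ∧ v ≤ h0 - s := by
    refine ⟨⌊b / h0⌋, _, rfl, ?_, ?_⟩
    · have := Int.floor_le (b / h0)
      rw [le_div_iff₀ hp] at this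
      linarith
    · have := Int.lt_floor_add_one (b / h0)
      rw [div_lt_iff₀ hp] at this
      linarith
  have e1 : ∫ x in (b - t)..b, gd s th x = ∫ x in (v - α)..(s + v), gd s th x := by
    rw [← gd_shift hs0 hs1 ht ht1 (v - α) (s + v) n]
    congr 1
    · rw [hv, et]
      ring
    · rw [hv]
      ring
  have e2 : ∫ u in (0 : ℝ)..1, (1 - Dh s (b + u * β)) =
      ∫ u in (0 : ℝ)..1, (1 - Dh s (s + v + u * β)) := by
    refine intervalIntegral.integral_congr fun u _ => ?_
    have hper : Function.Periodic (Dh s) h0 := Dh_add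
    change 1 - Dh s (b + u * β) = 1 - Dh s (s + v + u * β)
    rw [← hper.int_mul n (s + v + u * β)]
    congr 2
    rw [hv]
    ring
  rw [e1, e2]
  obtain ⟨V, hV⟩ : ∃ V, V = ∫ u in (0 : ℝ)..1, (1 - Dh s (s + v + u * β)) := ⟨_, rfl⟩
  have V0 : 0 ≤ V := by
    rw [hV]
    exact intervalIntegral.integral_nonneg zero_le_one fun u _ => gapP hs0 hs1 _
  have CV := mul_nonneg C0 V0
  rcases le_total 0 v with h | h
  · have hI := gd_int hs0 hs1 ht ht1
    rcases le_total (v - α) s with h5 | h5
    · rw [← hV]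
      have e3 := intervalIntegral.integral_add_adjacent_intervals (hI (v - α) s) (hI s (s + v))
      have k := gdB hs0 hs1 ht ht1 (w := s + v) (by linarith) (by linarith)
      rcases le_total v α with h6 | h6
      · have e4 := intervalIntegral.integral_add_adjacent_intervals (hI (v - α) 0) (hI 0 s)
        rw [gd_cell hs0 hs1 ht ht1] at e4
        have := hG (α - v) (by linarith) (by linarith)
        rw [neg_sub] at this
        linarith
      · have e4 := intervalIntegral.integral_add_adjacent_intervals (hI 0 (v - α)) (hI (v - α) s)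
        rw [gd_cell hs0 hs1 ht ht1] at e4
        have := gdA hs0 hs1 ht ht1 (w := v - α) (by linarith) (by linarith)
        linarith
    · have k := upX (a := v - α) (b := s + v) hs0 hs1 ht ht1 h5 (by linarith) (by linarith)
        (by linarith)
      have g := gapX (v := v) (β := β) hs0 hs1 hs2 (by linarith) hv2 hβ3
      rw [← hV] at g ⊢
      have a : (1 - th) * (h0 - s) / 4 ≤ L * s / 2 := by
        have a1 : (1 - th) * s ≤ L * s := mul_le_mul_of_nonneg_right hL hs0.le
        have a2 : (1 - th) * (h0 - s) ≤ (1 - th) * s :=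
          mul_le_mul_of_nonneg_left (by linarith) t1
        have a3 : 0 ≤ (1 - th) * s := mul_nonneg t1 hs0.le
        linarith
      have : C * 1 ≤ C * V := mul_le_mul_of_nonneg_left g C0
      linarith
  · rw [← hV]
    obtain ⟨w, hw⟩ : ∃ w, w = -v := ⟨_, rfl⟩
    have hw0 : 0 ≤ w := by linarith
    have hws : w ≤ s := by linarith
    have hwv : v = -w := by linarith
    obtain ⟨k1, k2⟩ := upV (w := w) (α := α) (L := L) (G := G) hs0 hs1 hs2 ht ht1 hL0 hL1 hG0
      (fun h => hG α h le_rfl) hw0 hws hα (by linarith)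
    rw [hwv] at hV ⊢
    rw [show s + -w = s - w by ring] at *
    rcases le_or_gt β 0 with hb | hb
    · rw [abs_of_nonpos hb] at hβ hβ2
      obtain ⟨g1, g2⟩ := gapN2 (w := w) (β := β) hs0 hs1 hw0 hws hb hβ hβ2
      rw [show s + -w = s - w by ring, ← hV] at g1 g2
      rcases le_total w (s / 2) with h3 | h3
      · have g := g1 h3
        rw [div_le_iff₀ hs0] at g
        have : L * w ≤ C * V := by
          calc L * w = L * (2 * w) / 2 := by ring
            _ ≤ L * (V * s) / 2 := by
              have := mul_le_mul_of_nonneg_left g L0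
              linarith
            _ = L * s / 2 * V := by ring
            _ ≤ C * V := mul_le_mul_of_nonneg_right hC V0
        linarith
      · have g := g2 h3
        have a : (1 - th) * h0 / 4 ≤ L * s / 2 := by
          have a1 : (1 - th) * (h0 / 2) ≤ L * s :=
            le_trans (mul_le_mul_of_nonneg_left hs2 t1) (mul_le_mul_of_nonneg_right hL hs0.le)
          linarith
        have : C * 1 ≤ C * V := mul_le_mul_of_nonneg_left g C0
        linarith
    · rw [abs_of_pos hb] at hβ hβ2
      have g := gapN1 (w := w) (β := β) (l := l) hs0 hs1 hw0 hws hb.le hβ hl0 hl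
      rw [show s + -w = s - w by ring, ← hV, div_le_iff₀ hs0] at g
      have : L * w ≤ C * V := by
        calc L * w = L * (2 * w) / 2 := by ring
          _ ≤ L * ((1 + l) * V * s) / 2 := by
            have := mul_le_mul_of_nonneg_left g L0
            linarith
          _ = L * s / 2 * (1 + l) * V := by ring
          _ ≤ C * V := mul_le_mul_of_nonneg_right (hC' hb) V0
      linarith

end

end Pool.Agent.Strip051.LC
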