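import Pool.Agent.Strip051.LC.Exact.Assemble

/-! # The certificate with two kernels in the direct form

`CertT` lists the statements for all phases; boxes may prove them through the modulus inequality
(`NGV.dir`), large excesses are trivial (`far_crude`, `near_crude`). -/

namespace Pool.Agent.Strip051.LC

open Pool.Agent.StripNear Pool.Agent.StripSquare Pool.Agent.Strip051 Pool.Agent.Strip051.Sweep
open Pool.Agent.Strip051.LC.Box

section

variable {ι : Type}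

/-- The symmetric direct property at the near vertex, two kernels. -/
def nearT (a : ℝ) (N0 : ℕ) (κ s : ℝ) (vB vX : ℝ → ι → ℝ) (X12 X13 t t' : ℝ)
    (w : (ℝ → ι → ℝ) → ℝ × ℝ × ℝ) : Prop :=
  ∀ y, 0 ≤ exn X12 X13 t t' + min (levXV N0 s a t t' (w vX))
    (levXV N0 s a t' t (-(w vX).2.1, -(w vX).1, -(w vX).2.2)) + kf κ s (w vB) t t' y

/-- The facts about the tables, in the direct form. -/
structure CertT {m : ℕ} (K : Cur m ι) (vA vB vX : ℝ → ι → ℝ) (N0 : ℕ) (a κ s : ℝ) : Prop where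
  two : 2 ≤ N0
  a0 : 0 ≤ a
  κ0 : 0 ≤ κ
  s0 : 0 ≤ s
  s1 : s < h0
  admA : K.adm vA
  admB : K.adm vB
  admX : K.adm vX
  adm0 : K.adm fun _ _ => 0
  bdd : ∃ C, ∀ T i, 0 ≤ T → T ^ 2 ≤ 3 → |vA T i| ≤ C ∧ |vB T i| ≤ C ∧ |vX T i| ≤ C
  farA : ∀ j k, j ≤ k → K.AllA (farD κ s vA vX) j k
  farB : ∀ j k, K.AllB (farD κ s vA vX) j k
  nearA : ∀ j k, j ≤ k → K.AllA (nearT a N0 κ s vB vX) j k
  nearB : ∀ j k, K.AllB (nearT a N0 κ s vB vX) j k

variable {m : ℕ} {K : Cur m ι} {vA vB vX : ℝ → ι → ℝ} {N0 : ℕ} {a κ s : ℝ}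

theorem pf_zero_den (c : ℝ × ℝ × ℝ) (t t' y : ℝ) : pf (fun _ => 0) c t t' y = 0 := by
  unfold pf
  simp

theorem CertT.certD (h : CertT K vA vB vX N0 a κ s) :
    CertD K vA vB vX (fun _ _ => 0) (fun _ => 0) N0 a κ s where
  two := h.two
  a0 := h.a0
  κ0 := h.κ0
  s0 := h.s0
  s1 := h.s1
  admA := h.admA
  admB := h.admB
  admX := h.admX
  admC := h.adm0
  den := denOk_zero s
  bdd := h.bdd
  bddC := ⟨0, fun _ _ _ _ => by simp⟩
  farA := h.farA
  farB := h.farB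
  nearA j k hjk := (h.nearA j k hjk).imp fun X12 X13 t t' w _ _ _ hw y => by
    have := hw y
    rw [pf_zero_den, mul_zero, add_zero]
    exact this
  nearB j k := (h.nearB j k).imp fun X12 X13 t t' w _ _ _ hw y => by
    have := hw y
    rw [pf_zero_den, mul_zero, add_zero]
    exact this

/-- The kernel without values. -/
theorem ker_zero_val {nodes : ℝ → List (ℝ × ι)} (hN : IsNodes nodes) (X T : ℝ) :
    ker nodes (fun _ _ => (0 : ℝ)) (fun _ _ => 0) X T = 0 := by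
  have h : |ker nodes (fun _ _ => (0 : ℝ)) (fun _ _ => 0) X T| ≤ 0 :=
    ker_abs (v := fun _ _ => 0) (B := fun _ _ => 0) hN (fun _ _ _ => by simp) (fun _ => by simp)
      le_rfl
  exact abs_nonpos_iff.1 h

/-- **The exact count from two kernels in the direct form.** -/
theorem count_of_certT (h : CertT K vA vB vX 3 a κ s) (first : First K)
    (rows : RowOK ((tab K.nodes vA vB vX).flat3 (ker K.nodes (fun _ _ => 0) fun _ _ => 0)
      (fun _ => 0) 3 κ s) 3 s) {CF UF RF CN UN RN : List (List Aff)}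
    (segF : SegOK K CF (cstF κ s vA vX)) (segN : SegOK K CN (cstN 3 κ s vB vX))
    (uniF : UniOK K UF (cstF κ s vA vX)) (uniN : UniOK K UN (cstN 3 κ s vB vX))
    (okF : CostOK (cbv CF) (cbv UF) (cbv RF) (we s))
    (okN : CostOK (cbv CN) (cbv UN) (cbv RN) (we s + mu 3 s * wq s)) : Good s := by
  have e : cstE 3 κ s 0 vB vX (fun _ _ => (0 : ℝ)) = cstN 3 κ s vB vX := by
    funext T i
    unfold cstE cstN
    simp
  exact fun _ hn => h.certD.fixDir.count le_rfl (K := 0) (fun y t _ _ => by simp) okF okN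
    (costTab3_of h.κ0 h.s0 h.s1 le_rfl h.admA h.admB h.admX h.adm0 first segF
      (by rw [e]; exact segN) uniF (by rw [e]; exact uniN)) rows hn

/-- **The rows at the floor.** -/
theorem CertT.rowWallY (h : CertT K vA vB vX N0 a κ s) (hs : 0 < s)
    (hF : WallY κ s 0 (1 / 2 - we s) (tab K.nodes vA vB vX).A (tab K.nodes vA vB vX).Xi
      (fun _ _ => 0) (fun _ => 0) 0 0 (NodeAt K.nodes))
    (hN : WallY κ s (mu N0 s) (1 / 2 - we s - mu N0 s * wq s) (tab K.nodes vA vB vX).B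
      (tab K.nodes vA vB vX).Xi (fun _ _ => 0) (fun _ => 0) 0 0 (NodeAt K.nodes)) :
    RowOK ((tab K.nodes vA vB vX).flat3 (ker K.nodes (fun _ _ => 0) fun _ _ => 0)
      (fun _ => 0) N0 κ s) N0 s := by
  have e : (ker K.nodes (fun _ _ => (0 : ℝ)) fun _ _ => 0) = fun _ _ => 0 := by
    funext X T
    exact ker_zero_val K.isNodes X T
  have h2 := h.certD.fixDir
  rw [e] at h2 ⊢
  exact h2.rowWallY hs (K := 0) (o := 0) (fun x => by simp) (fun a b => by simp) hF hN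

/-! ### Large excesses -/

theorem kf_abs (hs0 : 0 ≤ s) (hs1 : s < h0) (hκ : 0 ≤ κ) (r : ℝ × ℝ × ℝ) (t t' y : ℝ) :
    |kf κ s r t t' y| ≤ amp κ s * (|r.1| + |r.2.1| + |r.2.2|) := by
  have hb : ∀ a b : ℝ, |Line.mn (Line.D s κ) a b| ≤ amp κ s := fun a b =>
    Line.mn_abs (fun z => Line.D_abs hs0 hs1 hκ z) a b
  have key : ∀ u a b : ℝ, |u * Line.mn (Line.D s κ) a b| ≤ amp κ s * |u| := fun u a b => by
    rw [abs_mul, mul_comm]
    exact mul_le_mul_of_nonneg_right (hb a b) (abs_nonneg u)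
  unfold kf
  refine (abs_sub _ _).trans ?_
  have h1 := abs_add_le (r.1 * Line.mn (Line.D s κ) y (y + Line.tau t))
    (r.2.1 * Line.mn (Line.D s κ) (y + t) (y + t + Line.tau t'))
  have h2 := key r.1 y (y + Line.tau t)
  have h3 := key r.2.1 (y + t) (y + t + Line.tau t')
  have h4 := key r.2.2 y (y + Line.tau (t + t'))
  linarith

theorem far_crude (hs0 : 0 ≤ s) (hs1 : s < h0) (hκ : 0 ≤ κ) {X12 X13 t t' : ℝ}
    {w : (ℝ → ι → ℝ) → ℝ × ℝ × ℝ}
    (h : |farXV (w vX)| + amp κ s * (|(w vA).1| + |(w vA).2.1| + |(w vA).2.2|) ≤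
      exn X12 X13 t t') : farD κ s vA vX X12 X13 t t' w := by
  intro y
  have := (abs_le.1 (kf_abs hs0 hs1 hκ (w vA) t t' y)).1
  linarith

theorem near_crude (hs0 : 0 ≤ s) (hs1 : s < h0) (hκ : 0 ≤ κ) {X12 X13 t t' : ℝ}
    {w : (ℝ → ι → ℝ) → ℝ × ℝ × ℝ}
    (h : amp κ s * (|(w vB).1| + |(w vB).2.1| + |(w vB).2.2|) ≤
      exn X12 X13 t t' + min (levXV N0 s a t t' (w vX))
        (levXV N0 s a t' t (-(w vX).2.1, -(w vX).1, -(w vX).2.2))) :
    nearT a N0 κ s vB vX X12 X13 t t' w := by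
  intro y
  have := (abs_le.1 (kf_abs hs0 hs1 hκ (w vB) t t' y)).1
  linarith

end

/-! ### The excess and the lengths of the sides -/

/-- **The excess is bounded below by the length of every side.** -/
theorem exn_side {u1 u2 v1 v2 : ℝ} (hc : 0 ≤ u1 * v2 - u2 * v1)
    (a1 : 1 ≤ u1 ^ 2 + u2 ^ 2) (a3 : u1 ^ 2 + u2 ^ 2 ≤ 3) (b1 : 1 ≤ v1 ^ 2 + v2 ^ 2)
    (b3 : v1 ^ 2 + v2 ^ 2 ≤ 3) (c1' : 1 ≤ (u1 + v1) ^ 2 + (u2 + v2) ^ 2)
    (c3' : (u1 + v1) ^ 2 + (u2 + v2) ^ 2 ≤ 3) :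
    3 + (u1 ^ 2 + u2 ^ 2 - 1) * (3 - (u1 ^ 2 + u2 ^ 2)) ≤ 4 * (u1 * v2 - u2 * v1) ^ 2 := by
  set p := u1 ^ 2 + u2 ^ 2 with hp
  set q := v1 ^ 2 + v2 ^ 2 with hq
  set r := (u1 + v1) ^ 2 + (u2 + v2) ^ 2 with hr
  have e : 4 * (u1 * v2 - u2 * v1) ^ 2 =
      2 * (p * q + q * r + r * p) - (p ^ 2 + q ^ 2 + r ^ 2) := by
    rw [hp, hq, hr]
    ring
  rw [e]
  -- concave in `q` and in `r`, minimal at the corners
  have k1 := mul_nonneg (sub_nonneg.2 b1) (sub_nonneg.2 b3)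
  have k2 := mul_nonneg (sub_nonneg.2 c1') (sub_nonneg.2 c3')
  have k3 := mul_nonneg (sub_nonneg.2 a1) (sub_nonneg.2 b1)
  have k4 := mul_nonneg (sub_nonneg.2 a1) (sub_nonneg.2 c1')
  have k5 := mul_nonneg (sub_nonneg.2 b1) (sub_nonneg.2 c1')
  nlinarith

end Pool.Agent.Strip051.LC
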