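import Pool.Agent.Strip051.LC.Exact.FamQ
import Pool.Agent.Strip051.LC.Exact.CertT

/-! # Curves at positions which depend on the height: first curve, multiples, interpolated values -/

namespace Pool.Agent.Strip051.LC

open Pool.Agent.StripNear Pool.Agent.StripSquare Pool.Agent.Strip051.Sweep

namespace PosQ

variable {n : ℕ} {P : PosQ n} {v : ℝ → Fin (n + 1) → ℝ}

theorem first (P : PosQ n) : First P.cur := fun _ hT h1 => ⟨P.dm_zero hT h1, P.cv_zero _⟩

theorem Adm.smul (hv : P.Adm v) (E : ℝ) : P.Adm fun T i => E * v T i where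
  one T hT := by rw [hv.one T hT, mul_zero]
  zero j hj := by rw [hv.zero j hj]
  mid j hj := by rw [hv.mid j hj]
  top T j hT h := by rw [hv.top T j hT h, mul_zero]
  vir T j hT h3 hr := by
    rw [hv.vir T j hT h3 hr]
    exact (ker_smul E v _ _).symm

/-- The interpolated value between two nodes. -/
theorem vir_between {i j k : Fin (n + 1)} {T : ℝ} (hT : 0 ≤ T) (h3 : T ^ 2 < 3)
    (hi : P.dm i T) (hk : P.dm k T) (hn : ∀ l, P.dm l T → l ≤ i ∨ k ≤ l)
    (hij : i ≤ j) (hjk : j ≤ k)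
    (h : v T j = v T i + (v T k - v T i) * ((P.cv j T - P.cv i T) / (P.cv k T - P.cv i T))) :
    v T j = ker P.nodes v (fun _ _ => 0) (P.cv j T) T := by
  rw [ker_between v hT h3.le hn (P.cv_mono hT h3.le hij) (P.cv_mono hT h3.le hjk),
    ker_dm v hT h3 hi, ker_dm v hT h3 hk]
  exact h

/-- The interpolated value between the vertical axis and the first node, above the height `1`. -/
theorem vir_first {j k : Fin (n + 1)} {T : ℝ} (hT : 1 ≤ T) (h3 : T ^ 2 < 3)
    (hk : P.dm k T) (hn : ∀ l, P.dm l T → k ≤ l) (hjk : j ≤ k)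
    (h : v T j = v T k * (P.cv j T / P.cv k T)) :
    v T j = ker P.nodes v (fun _ _ => 0) (P.cv j T) T := by
  have hT0 : 0 ≤ T := by linarith
  have e0 : P.cv 0 T = 0 := by rw [P.cv_zero, c1_zero hT]
  rw [ker_between v hT0 h3.le (i := 0) (fun l hl => Or.inr (hn l hl))
    (P.cv_mono hT0 h3.le (Fin.zero_le j)) (P.cv_mono hT0 h3.le hjk), e0, ker_at_zero,
    ker_dm v hT0 h3 hk, h]
  ring

/-- A curve which coincides with a node. -/
theorem vir_eq {i j : Fin (n + 1)} {T : ℝ} (hT : 0 ≤ T) (h3 : T ^ 2 < 3) (hi : P.dm i T)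
    (hc : P.cv j T = P.cv i T) (h : v T j = v T i) :
    v T j = ker P.nodes v (fun _ _ => 0) (P.cv j T) T := by
  rw [hc, ker_dm v hT h3 hi]
  exact h

end PosQ

end Pool.Agent.Strip051.LC
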