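import Pool.Agent.Strip051.LC.Exact.Strip

/-! # The exact weight: reduction to finitely many parameters

The flux for the strip with `n + 1` full rows is `R0 + μ R1 - τ R2` with `μ = 1 / (n + 2 c)` and
`τ = μ (k - n / 2)`, where the heights are measured from the centre of the cell number `k`.  The
triangle inequality is affine in `k` and, for `k = 0`, affine in `μ`.  With the mirror symmetry it
is enough to check it for triangles near the floor, at the vertices `(0, -1/2)` and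
`(m, -m N0 / 2)`, where `m = 1 / (N0 + 2 c)`. -/

namespace Pool.Agent.Strip051.LC

open Pool.Agent.StripNear Pool.Agent.StripSquare Pool.Agent.Strip051.Sweep

/-- Three fluxes; the heights are measured from the centre of a cell. -/
structure Data where
  /-- the main part -/
  R0 : ℝ → ℝ → ℝ → ℝ
  /-- the coefficient of `μ` -/
  R1 : ℝ → ℝ → ℝ → ℝ
  /-- the coefficient of `-τ` -/
  R2 : ℝ → ℝ → ℝ → ℝ

/-- The symmetries. -/
structure Data.Ok (D : Data) : Prop where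
  anti0 : ∀ X y z, D.R0 (-X) z y = -D.R0 X y z
  anti1 : ∀ X y z, D.R1 (-X) z y = -D.R1 X y z
  anti2 : ∀ X y z, D.R2 (-X) z y = -D.R2 X y z
  per0 : ∀ X y z, D.R0 X (y + h0) (z + h0) = D.R0 X y z
  per1 : ∀ X y z, D.R1 X (y + h0) (z + h0) = D.R1 X y z - D.R2 X y z
  per2 : ∀ X y z, D.R2 X (y + h0) (z + h0) = D.R2 X y z
  mir0 : ∀ X y z, D.R0 X (-y) (-z) = -D.R0 X y z
  mir1 : ∀ X y z, D.R1 X (-y) (-z) = -D.R1 X y z
  mir2 : ∀ X y z, D.R2 X (-y) (-z) = D.R2 X y z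
  bdd : ∀ M : ℝ, ∃ K : ℝ, ∀ X y z : ℝ, |X| ≤ 2 → |y| ≤ M → |z| ≤ M →
    |D.R0 X y z| ≤ K ∧ |D.R1 X y z| ≤ K ∧ |D.R2 X y z| ≤ K

/-- The flux for the parameters `μ`, `τ`. -/
def Data.Q (D : Data) (μ τ X y z : ℝ) : ℝ := D.R0 X y z + μ * D.R1 X y z - τ * D.R2 X y z

/-- The triangle inequality for the parameters `μ`, `τ`. -/
def Data.Tr (D : Data) (μ τ : ℝ) (p q r : Pt) : Prop :=
  1 / 2 ≤ cr p q r / (2 * h0) + fl (D.Q μ τ) p q r

/-- A positively oriented triangle with sides at least one and circumradius at most one. -/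
structure Cell (p q r o : Pt) (R : ℝ) : Prop where
  cr : 0 ≤ cr p q r
  pq : 1 ≤ ds p q
  qr : 1 ≤ ds q r
  pr : 1 ≤ ds p r
  po : ds p o = R
  qo : ds q o = R
  ro : ds r o = R
  R1 : R ≤ 1

/-- The inequalities for triangles at the two vertices `(μ, τ) = (0, -1/2)` and
`(m, -m N0 / 2)`, `m = 1 / (N0 + 2 g s)`; only for triangles the lowest point of which has a
distance at most `h0` from the floor. -/
structure Verts (D : Data) (N0 : ℕ) (s : ℝ) : Prop where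
  far : ∀ p q r o R, Cell p q r o R → p.2 ≤ q.2 → p.2 ≤ r.2 → -(s / 2) ≤ p.2 →
    p.2 ≤ h0 - s / 2 → D.Tr 0 (-(1 / 2)) p q r
  near : ∀ p q r o R, Cell p q r o R → p.2 ≤ q.2 → p.2 ≤ r.2 → -(s / 2) ≤ p.2 →
    p.2 ≤ h0 - s / 2 → D.Tr (1 / (N0 + 2 * g s)) (-(1 / (N0 + 2 * g s) * (N0 / 2))) p q r

/-- The wall deficit of the leading order. -/
noncomputable def we (s : ℝ) : ℝ := s / (2 * h0) + g s - 1

/-- The wall deficit of the second order. -/
noncomputable def wq (s : ℝ) : ℝ := (1 - g s) * (2 * g s - 1)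

/-- A point, with the height measured from the centre of the lowest cell. -/
noncomputable def dn (s : ℝ) (p : Pt) : Pt := (p.1, p.2 - s / 2)

/-- The inequality at the floor, for one value of `μ`. -/
def FloorAt (D : Data) (s μ : ℝ) : Prop :=
  ∀ (p q : Pt) (m : ℝ), p.1 ≤ q.1 → 0 ≤ p.2 → 0 ≤ q.2 → 1 ≤ ds p q →
    (p.1 - m) ^ 2 + p.2 ^ 2 = (q.1 - m) ^ 2 + q.2 ^ 2 → (p.1 - m) ^ 2 + p.2 ^ 2 ≤ 1 →
    1 / 2 ≤ (q.1 - p.1) * (1 / 2 - we s - μ * wq s + (p.2 + q.2) / (2 * h0)) -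
      ed (D.Q μ (-(1 / 2 - g s * μ))) (dn s p) (dn s q)

/-! ### Symmetries of the flux -/

theorem Data.Ok.per0' {D : Data} (hD : D.Ok) (k : ℕ) (X y z : ℝ) :
    D.R0 X (y + k * h0) (z + k * h0) = D.R0 X y z := by
  induction k with
  | zero => simp
  | succ k ih =>
    have := hD.per0 X (y + k * h0) (z + k * h0)
    rw [ih] at this
    rw [← this]
    push_cast
    congr 1 <;> ring

theorem Data.Ok.per2' {D : Data} (hD : D.Ok) (k : ℕ) (X y z : ℝ) :
    D.R2 X (y + k * h0) (z + k * h0) = D.R2 X y z := by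
  induction k with
  | zero => simp
  | succ k ih =>
    have := hD.per2 X (y + k * h0) (z + k * h0)
    rw [ih] at this
    rw [← this]
    push_cast
    congr 1 <;> ring

theorem Data.Ok.per1' {D : Data} (hD : D.Ok) (k : ℕ) (X y z : ℝ) :
    D.R1 X (y + k * h0) (z + k * h0) = D.R1 X y z - k * D.R2 X y z := by
  induction k with
  | zero => simp
  | succ k ih =>
    have h1 := hD.per1 X (y + k * h0) (z + k * h0)
    rw [ih, hD.per2'] at h1
    have e1 : y + (((k + 1 : ℕ) : ℝ)) * h0 = y + k * h0 + h0 := by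
      push_cast
      ring
    have e2 : z + (((k + 1 : ℕ) : ℝ)) * h0 = z + k * h0 + h0 := by
      push_cast
      ring
    rw [e1, e2, h1]
    push_cast
    ring

theorem Data.Ok.shift {D : Data} (hD : D.Ok) (μ τ : ℝ) (k : ℕ) (X y z : ℝ) :
    D.Q μ τ X (y + k * h0) (z + k * h0) = D.Q μ (τ + μ * k) X y z := by
  unfold Data.Q
  rw [hD.per0', hD.per1', hD.per2']
  ring

theorem Data.Ok.anti {D : Data} (hD : D.Ok) (μ τ X y z : ℝ) :
    D.Q μ τ (-X) z y = -D.Q μ τ X y z := by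
  unfold Data.Q
  rw [hD.anti0, hD.anti1, hD.anti2]
  ring

theorem Data.Ok.flip {D : Data} (hD : D.Ok) (μ τ X y z : ℝ) :
    D.Q μ τ X (-y) (-z) = -D.Q μ (-τ) X y z := by
  unfold Data.Q
  rw [hD.mir0, hD.mir1, hD.mir2]
  ring

/-- The flux in the strip. -/
noncomputable def Data.QS (D : Data) (n : ℕ) (s X y z : ℝ) : ℝ :=
  D.Q (1 / (n + 2 * g s)) (-(1 / (n + 2 * g s) * (n / 2))) X (y - s / 2) (z - s / 2)

theorem Data.Ok.QS_anti {D : Data} (hD : D.Ok) (n : ℕ) (s X y z : ℝ) :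
    D.QS n s (-X) z y = -D.QS n s X y z := hD.anti _ _ _ _ _

theorem Data.Ok.QS_mirror {D : Data} (hD : D.Ok) (n : ℕ) (s X y z : ℝ) :
    D.QS n s X (n * h0 + s - y) (n * h0 + s - z) = -D.QS n s X y z := by
  unfold Data.QS
  rw [show (n : ℝ) * h0 + s - y - s / 2 = -(y - s / 2) + n * h0 by ring,
    show (n : ℝ) * h0 + s - z - s / 2 = -(z - s / 2) + n * h0 by ring, hD.shift, hD.flip]
  congr 2
  ring

theorem Data.QS_shift {D : Data} (hD : D.Ok) (n k : ℕ) (s X y z : ℝ) :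
    D.QS n s X y z = D.Q (1 / (n + 2 * g s)) (1 / (n + 2 * g s) * (k - n / 2)) X
      (y - s / 2 - k * h0) (z - s / 2 - k * h0) := by
  unfold Data.QS
  have h1 := hD.shift (1 / (n + 2 * g s)) (-(1 / (n + 2 * g s) * (n / 2))) k X
    (y - s / 2 - k * h0) (z - s / 2 - k * h0)
  rw [sub_add_cancel, sub_add_cancel] at h1
  rw [h1]
  congr 1
  ring

theorem Data.Q_fl (D : Data) (μ τ : ℝ) (p q r : Pt) :
    fl (D.Q μ τ) p q r = fl D.R0 p q r + μ * fl D.R1 p q r - τ * fl D.R2 p q r := by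
  unfold fl ed Data.Q
  ring

/-- reflection in the line `y = 0` -/
def neg (p : Pt) : Pt := (p.1, -p.2)

theorem neg_neg' (p : Pt) : neg (neg p) = p := by
  unfold neg
  simp

theorem ds_neg (p q : Pt) : ds (neg p) (neg q) = ds p q := by
  unfold ds neg
  ring

theorem cr_neg (p q r : Pt) : cr (neg r) (neg q) (neg p) = cr p q r := by
  unfold cr neg
  ring

theorem Cell.neg {p q r o : Pt} {R : ℝ} (h : Cell p q r o R) :
    Cell (neg r) (neg q) (neg p) (neg o) R := by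
  obtain ⟨h1, h2, h3, h4, h5, h6, h7, h8⟩ := h
  refine ⟨by rw [cr_neg]; exact h1, by rw [ds_neg, ds_comm]; exact h3,
    by rw [ds_neg, ds_comm]; exact h2, by rw [ds_neg, ds_comm]; exact h4, by rw [ds_neg]; exact h7,
    by rw [ds_neg]; exact h6, by rw [ds_neg]; exact h5, h8⟩

theorem Cell.rot {p q r o : Pt} {R : ℝ} (h : Cell p q r o R) : Cell q r p o R := by
  obtain ⟨h1, h2, h3, h4, h5, h6, h7, h8⟩ := h
  exact ⟨by rw [cr_rot]; exact h1, h3, by rw [ds_comm]; exact h4, by rw [ds_comm]; exact h2, h6,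
    h7, h5, h8⟩

theorem fl_rot (Q : ℝ → ℝ → ℝ → ℝ) (p q r : Pt) : fl Q q r p = fl Q p q r := by
  unfold fl
  ring

theorem Data.Tr.rot {D : Data} {μ τ : ℝ} {p q r : Pt} (h : D.Tr μ τ q r p) : D.Tr μ τ p q r := by
  unfold Data.Tr at *
  rw [cr_rot, fl_rot] at h
  exact h

theorem Data.Ok.fl0_neg {D : Data} (hD : D.Ok) (p q r : Pt) :
    fl D.R0 (neg r) (neg q) (neg p) = fl D.R0 p q r := by
  unfold fl ed neg
  simp only
  rw [hD.mir0, hD.mir0, hD.mir0]
  have a1 := hD.anti0 (q.1 - p.1) p.2 q.2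
  have a2 := hD.anti0 (r.1 - q.1) q.2 r.2
  have a3 := hD.anti0 (p.1 - r.1) r.2 p.2
  rw [neg_sub] at a1 a2 a3
  rw [a1, a2, a3]
  ring

theorem Data.Ok.fl2_neg {D : Data} (hD : D.Ok) (p q r : Pt) :
    fl D.R2 (neg r) (neg q) (neg p) = -fl D.R2 p q r := by
  unfold fl ed neg
  simp only
  rw [hD.mir2, hD.mir2, hD.mir2]
  have a1 := hD.anti2 (q.1 - p.1) p.2 q.2
  have a2 := hD.anti2 (r.1 - q.1) q.2 r.2
  have a3 := hD.anti2 (p.1 - r.1) r.2 p.2
  rw [neg_sub] at a1 a2 a3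
  rw [a1, a2, a3]
  ring

/-- The affine interpolation between the vertices. -/
theorem hull {A B C μ c N n : ℝ} (hN : 0 < N + 2 * c) (hμ : 0 ≤ μ) (hμ1 : μ * (n + 2 * c) = 1)
    (hn : N ≤ n) (v0 : 0 ≤ A + 1 / 2 * C)
    (v1 : 0 ≤ A + 1 / (N + 2 * c) * B + 1 / (N + 2 * c) * (N / 2) * C) :
    0 ≤ A + μ * B + μ * (n / 2) * C := by
  set m := 1 / (N + 2 * c) with hm
  set θ := μ * (N + 2 * c) with hθ
  have hθ0 : 0 ≤ θ := by positivity
  have hθ1 : θ ≤ 1 := by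
    rw [← hμ1, hθ]
    exact mul_le_mul_of_nonneg_left (by linarith) hμ
  have hmθ : m * θ = μ := by
    rw [hm, hθ]
    field_simp
  have e1 : 0 ≤ (1 - θ) * (A + 1 / 2 * C) + θ * (A + m * B + m * (N / 2) * C) :=
    add_nonneg (mul_nonneg (by linarith) v0) (mul_nonneg hθ0 v1)
  have e2 : (1 - θ) * (A + 1 / 2 * C) + θ * (A + m * B + m * (N / 2) * C) =
      A + (m * θ) * B + ((1 - θ) / 2 + (m * θ) * (N / 2)) * C := by ring
  rw [e2, hmθ] at e1
  have e3 : (1 - θ) / 2 + μ * (N / 2) = μ * (n / 2) := by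
    rw [hθ]
    linear_combination (-(1 / 2) : ℝ) * hμ1
  rw [e3] at e1
  exact e1

end Pool.Agent.Strip051.LC
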