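import Pool.Agent.Strip051.LC.Exact.WallUnit
import Pool.Agent.Strip051.LC.Exact.Vertex
import Pool.Agent.Strip051.LC.Line.WallRed

/-! # Unit pairs at the floor in terms of the height difference

`T` is the height difference of a unit edge, `g T` its horizontal displacement.  The kernel on the
unit circle times the pole factor is `rU T`, the second kernel is `kU T`, the third function is
`wq T`. -/

namespace Pool.Agent.Strip051.LC.Exact

open Pool.Agent.StripNear Pool.Agent.StripSquare Pool.Agent.Strip051.Sweep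
  Pool.Agent.Strip051.LC.Line

/-- The kernel on the unit circle times the pole factor. -/
noncomputable def rU (T : ℝ) : ℝ :=
  if T < h0 / 2 then (g T - 2 * h0 * T) * (1 + g T) / (1 + g T - 2 * h0 * T)
  else (2 * h0 * T - g T) * (2 * h0 * (1 + g T) - T) / (4 * T)

/-- The quotient `q / e`. -/
noncomputable def gU (T : ℝ) : ℝ := h0 * T + 3 / 2 * (1 - g T)

/-- The second kernel on the unit circle. -/
noncomputable def kU (T : ℝ) : ℝ := h0 + 2 * T + T / g T * gU T

/-- The factor of the two-slope density with the amplitude `we s`. -/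
noncomputable def kE (s : ℝ) : ℝ := 2 * h0 * we s / (s * (h0 - s))

/-- The half angle. -/
noncomputable def hf (T : ℝ) : ℝ := 2 * h0 * T / (1 + g T)

section

variable {T : ℝ}

theorem g_half (hT0 : 0 ≤ T) (hT : T ≤ 9 / 20) : 178 / 200 ≤ g T := by
  unfold g
  apply Real.le_sqrt_of_sq_le
  nlinarith

theorem g_pt (hT0 : 0 ≤ T) (hT : T ≤ 9 / 20) : g T ^ 2 = 1 - T ^ 2 :=
  g_sq (by nlinarith)

theorem fa_hf (hT0 : 0 ≤ T) (hT : T ≤ 9 / 20) : fa (hf T) = 2 / (1 + g T) := by
  have h1 := g_half hT0 hT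
  have h2 := g_pt hT0 hT
  have h3 : (1 + g T) ≠ 0 := by linarith
  unfold fa hf
  field_simp
  nlinarith [h0_sq]

theorem fU_hf (hT0 : 0 ≤ T) (hT : T ≤ 9 / 20) : fU (hf T) = 2 * h0 * T := by
  have h1 := g_half hT0 hT
  have h3 : (1 + g T) ≠ 0 := by linarith
  unfold fU
  rw [fa_hf hT0 hT]
  unfold hf
  field_simp

theorem fC_hf (hT0 : 0 ≤ T) (hT : T ≤ 9 / 20) : fC (hf T) = g T := by
  have h1 := g_half hT0 hT
  have h2 := g_pt hT0 hT
  have h3 : (1 + g T) ≠ 0 := by linarith
  unfold fC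
  rw [fa_hf hT0 hT]
  unfold hf
  field_simp
  nlinarith [h0_sq]

theorem fE_hf (hT0 : 0 ≤ T) (hT : T ≤ 9 / 20) : fE (hf T) = we T := by
  have h1 := g_half hT0 hT
  have h2 := g_pt hT0 hT
  have h3 : (1 + g T) ≠ 0 := by linarith
  have hp := h0_pos
  unfold fE
  rw [fa_hf hT0 hT]
  unfold hf we
  have e : T / (2 * h0) = 2 * h0 * T / 3 := by
    rw [div_eq_div_iff (by positivity) (by norm_num)]
    nlinarith [h0_sq]
  rw [e]
  field_simp
  nlinarith [h0_sq]

theorem fG_hf (hT0 : 0 ≤ T) (hT : T ≤ 9 / 20) : fG (hf T) = gU T := by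
  have h1 := g_half hT0 hT
  have h2 := g_pt hT0 hT
  have h3 : (1 + g T) ≠ 0 := by linarith
  unfold fG
  rw [fa_hf hT0 hT]
  unfold hf gU
  field_simp
  nlinarith [h0_sq]

theorem fQ_hf (hT0 : 0 ≤ T) (hT : T ≤ 9 / 20) : fQ (hf T) = wq T := by
  have h2 := g_pt hT0 hT
  have hp := h0_pos
  unfold fQ
  rw [fE_hf hT0 hT, fG_hf hT0 hT]
  unfold we gU wq
  have e : T / (2 * h0) = 2 * h0 * T / 3 := by
    rw [div_eq_div_iff (by positivity) (by norm_num)]
    nlinarith [h0_sq]
  rw [e]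
  have e2 : (2 * h0 * T / 3 + g T - 1) * (h0 * T + 3 / 2 * (1 - g T)) =
      2 / 3 * h0 ^ 2 * T ^ 2 - 3 / 2 * (1 - g T) ^ 2 := by ring
  rw [e2, h0_sq, show T ^ 2 = 1 - g T ^ 2 by linarith]
  ring

theorem fK_hf (hT0 : 0 ≤ T) (hT : T ≤ 9 / 20) : fK (hf T) = 2 * h0 * kU T := by
  have h1 := g_half hT0 hT
  have h2 := g_pt hT0 hT
  have h3 : (1 + g T) ≠ 0 := by linarith
  have h4 : g T ≠ 0 := by linarith
  have hp := h0_pos
  have e1 : 1 - hf T ^ 2 / 3 = g T * (2 / (1 + g T)) := by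
    have := fC_hf hT0 hT
    unfold fC at this
    rw [fa_hf hT0 hT] at this
    rw [div_eq_iff (by positivity)] at this
    exact this
  unfold fK
  rw [fG_hf hT0 hT, fa_hf hT0 hT, e1]
  have e2 : 1 + 2 * hf T - hf T ^ 2 / 3 = g T * (2 / (1 + g T)) + 2 * hf T := by
    rw [← e1]
    ring
  rw [e2]
  unfold hf kU gU
  field_simp
  nlinarith [h0_sq]

/-- The kernel `κ` on the unit circle. -/
noncomputable def kap1 (T : ℝ) : ℝ := 2 * h0 * fκ (hf T)

theorem fκ_hf (hT0 : 0 < T) (hT : T ≤ 9 / 20) :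
    kap1 T = (g T - 2 * h0 * T) * (1 + g T) / (T * (1 + g T - 2 * h0 * T)) := by
  have h1 := g_half hT0.le hT
  have h2 := g_pt hT0.le hT
  have h3 : (1 + g T) ≠ 0 := by linarith
  have hp := h0_pos
  have hp1 : h0 < 9 / 10 := by nlinarith [h0_sq]
  have h5 : 0 < 1 + g T - 2 * h0 * T := by nlinarith
  have e1 : 1 - hf T ^ 2 / 3 = g T * (2 / (1 + g T)) := by
    have := fC_hf hT0.le hT
    unfold fC at this
    rw [fa_hf hT0.le hT, div_eq_iff (by positivity)] at this
    exact this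
  have e2 : 1 - 2 * hf T - hf T ^ 2 / 3 = g T * (2 / (1 + g T)) - 2 * hf T := by
    rw [← e1]
    ring
  unfold kap1 fκ
  rw [e2]
  have e3 : g T * (2 / (1 + g T)) - 2 * hf T = 2 * (g T - 2 * h0 * T) / (1 + g T) := by
    unfold hf
    field_simp
  have e4 : 2 * hf T * (1 - hf T) =
      4 * h0 * T * (1 + g T - 2 * h0 * T) / (1 + g T) ^ 2 := by
    unfold hf
    field_simp
    ring
  rw [e3, e4]
  field_simp
  ring

theorem jn_low (hT : T < h0 / 2) : jn T = 0 := by
  unfold jn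
  rw [if_pos hT]

theorem jn_mid (h1 : h0 / 2 ≤ T) (h2 : T < 3 * h0 / 2) : jn T = 1 := by
  unfold jn
  rw [if_neg (not_lt.2 h1), if_pos h2]

theorem tau_low (hT : T < h0 / 2) : tau T = T := by
  unfold tau
  rw [jn_low hT]
  simp

theorem tau_mid (h1 : h0 / 2 ≤ T) (h2 : T < 3 * h0 / 2) : tau T = T - h0 := by
  unfold tau
  rw [jn_mid h1 h2]
  simp

/-- The kernel and the pole factor. -/
theorem rU_eq (hT0 : 0 < T) (hT : T ≤ 9 / 20) : rU T = tau T * kap1 T := by
  have h1 := g_half hT0.le hT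
  have h2 := g_pt hT0.le hT
  have h3 : (1 + g T) ≠ 0 := by linarith
  have hp := h0_pos
  have hp1 : h0 < 9 / 10 := by nlinarith [h0_sq]
  have hp2 : 4 / 5 < h0 := by nlinarith [h0_sq]
  have h5 : 0 < 1 + g T - 2 * h0 * T := by nlinarith
  rw [fκ_hf hT0 hT]
  unfold rU
  rcases lt_or_ge T (h0 / 2) with h | h
  · rw [if_pos h, tau_low h]
    field_simp
  · rw [if_neg (not_lt.2 h), tau_mid h (by linarith)]
    rw [div_eq_iff (by positivity), mul_div_assoc', div_mul_eq_mul_div,
      eq_div_iff (by positivity)]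
    have key : (2 * h0 * (1 + g T) - T) * (1 + g T - 2 * h0 * T) =
        4 * (h0 - T) * (1 + g T) := by
      have e : (2 * h0 * (1 + g T) - T) * (1 + g T - 2 * h0 * T) =
          2 * h0 * (1 + g T) ^ 2 - 4 * h0 ^ 2 * T * (1 + g T) - T * (1 + g T) +
            2 * h0 * T ^ 2 := by ring
      rw [e, h0_sq, show T ^ 2 = 1 - g T ^ 2 by linarith]
      ring
    calc (2 * h0 * T - g T) * (2 * h0 * (1 + g T) - T) * (T * (1 + g T - 2 * h0 * T)) =
        (2 * h0 * T - g T) * T * ((2 * h0 * (1 + g T) - T) * (1 + g T - 2 * h0 * T)) := by ring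
      _ = (2 * h0 * T - g T) * T * (4 * (h0 - T) * (1 + g T)) := by rw [key]
      _ = _ := by ring

/-- The pole factor times the mean is the integral. -/
theorem tau_mn {s : ℝ} (κ : ℝ) (hs0 : 0 ≤ s) (hs1 : s < h0) (T : ℝ) :
    tau T * mn (D s κ) 0 (tau T) = T * mn (D s κ) 0 T := by
  have h1 := mul_mn (D s κ) 0 (tau T)
  have h2 := mul_mn (D s κ) 0 T
  rw [sub_zero] at h1 h2
  rw [h1, h2]
  have key : ∀ k : ℕ, ∫ x in (0 : ℝ)..(T - k * h0), D s κ x = ∫ x in (0 : ℝ)..T, D s κ x := by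
    intro k
    induction k with
    | zero => simp
    | succ k ih =>
      rw [← ih]
      have h3 := D_integral κ hs0 hs1 (T - (k + 1 : ℕ) * h0)
      have h4 := intervalIntegral.integral_add_adjacent_intervals
        (D_integrable κ hs0 0 (T - (k + 1 : ℕ) * h0))
        (D_integrable κ hs0 (T - (k + 1 : ℕ) * h0) (T - (k + 1 : ℕ) * h0 + h0))
      rw [h3, add_zero] at h4
      rw [h4]
      congr 1
      push_cast
      ring
  exact key (jn T)

theorem int_low {s : ℝ} (hs0 : 0 < s) (hs1 : s < h0) (hT0 : 0 ≤ T) (hTs : T ≤ s) :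
    T * mn (D s (kE s)) 0 T = -(we s * (T * (s - T) / s)) := by
  have hp := h0_pos
  have h1 : h0 - s ≠ 0 := by linarith
  rw [mn_low hs1 hT0 hTs]
  unfold kE
  field_simp
  ring

theorem int_high {s : ℝ} (hs0 : 0 < s) (hs1 : s < h0) (hsT : s ≤ T) (hT : T ≤ h0) :
    T * mn (D s (kE s)) 0 T = we s * ((T - s) * (h0 - T) / (h0 - s)) := by
  have hp := h0_pos
  have h1 : h0 - s ≠ 0 := by linarith
  have h2 : 0 < T := by linarith
  rw [mn_high hs0.le hs1 hsT hT h2]
  unfold kE
  field_simp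

/-- The coefficient of the density in the flux of a unit edge. -/
noncomputable def AU (s μ T : ℝ) : ℝ := (1 + μ * gU s) * rU T + μ * (tau T * kU T)

/-- The rest of the flux. -/
noncomputable def BU (s μ T : ℝ) : ℝ := (1 / 2 - g s * μ) * wq T - μ * wq T * (T - s) / (2 * h0)

theorem wq_eq {s : ℝ} (hs0 : 0 ≤ s) (hs : s ≤ 9 / 20) : wq s = we s * gU s := by
  rw [← fQ_hf hs0 hs, ← fE_hf hs0 hs, ← fG_hf hs0 hs]
  rfl

/-- The slack in terms of `fW`. -/
theorem S0_eq {s μ v : ℝ} (hs0 : 0 < s) (hs : s ≤ 9 / 20) (hT0 : 0 < T) (hT : T ≤ 9 / 20)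
    (hv : T * mn (D s (kE s)) 0 T = -(we s * v)) :
    S0 s (kE s) (1 / 2 - we s - μ * wq s) (g T) T (AU s μ T) (BU s μ T) =
      fW (hf T) (hf s) μ (2 * h0 * v) := by
  have hp := h0_pos
  have hp2 : 4 / 5 < h0 := by nlinarith [h0_sq]
  have e0 : AU s μ T * mn (D s (kE s)) 0 (tau T) =
      -(((1 + μ * gU s) * kap1 T + μ * kU T) * (we s * v)) := by
    unfold AU
    rw [rU_eq hT0 hT]
    have := tau_mn (kE s) hs0.le (by linarith : s < h0) T
    rw [hv] at this
    calc _ = ((1 + μ * gU s) * kap1 T + μ * kU T) * (tau T * mn (D s (kE s)) 0 (tau T)) := by ring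
      _ = _ := by rw [this]; ring
  have e1 : ∀ x : ℝ, x / (2 * h0) = 2 * h0 * x / 3 := by
    intro x
    rw [div_eq_div_iff (by positivity) (by norm_num),
      show 2 * h0 * x * (2 * h0) = 4 * h0 ^ 2 * x by ring, h0_sq]
    ring
  unfold S0
  rw [e0]
  unfold fW
  rw [fC_hf hT0.le hT, fC_hf hs0.le hs, fE_hf hT0.le hT, fE_hf hs0.le hs, fQ_hf hT0.le hT,
    fQ_hf hs0.le hs, fU_hf hT0.le hT, fU_hf hs0.le hs, fK_hf hT0.le hT]
  have e2 : fκ (hf T) * we s * (2 * h0 * v) = kap1 T * (we s * v) := by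
    unfold kap1
    ring
  have e3 : 2 * h0 * v * (fκ (hf T) * wq s + 2 * h0 * kU T * we s / 3) =
      kap1 T * gU s * (we s * v) + kU T * (we s * v) := by
    have : 2 * h0 * v * (fκ (hf T) * wq s + 2 * h0 * kU T * we s / 3) =
        (2 * h0 * fκ (hf T)) * wq s * v + 4 * h0 ^ 2 / 3 * (kU T * (we s * v)) := by ring
    rw [this, h0_sq, wq_eq hs0.le hs]
    unfold kap1
    ring
  rw [e2, e3]
  unfold BU
  rw [e1 T, e1 (μ * wq T * (T - s))]
  have e4 : we T = 2 * h0 * T / 3 + g T - 1 := by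
    unfold we
    rw [e1 T]
  rw [e4]
  unfold wq
  ring

theorem hf_nonneg (hT0 : 0 ≤ T) : 0 ≤ hf T := by
  have hp := h0_pos
  have := g_nonneg T
  unfold hf
  positivity

theorem hf_le (hT0 : 0 ≤ T) (hT : T ≤ 9 / 20) : hf T ≤ 52 / 125 := by
  have h1 := g_half hT0 hT
  have hp := h0_pos
  have hp1 : h0 < 8661 / 10000 := by nlinarith [h0_sq]
  unfold hf
  rw [div_le_iff₀ (by linarith)]
  nlinarith

theorem hf_mono {s : ℝ} (hT0 : 0 ≤ T) (hTs : T ≤ s) (hs : s ≤ 9 / 20) : hf T ≤ hf s := by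
  have h1 := g_half hT0 (hTs.trans hs)
  have h2 := g_half (hT0.trans hTs) hs
  have h3 := g_pt hT0 (hTs.trans hs)
  have h4 := g_pt (hT0.trans hTs) hs
  have hp := h0_pos
  have h5 : g s ≤ g T := by nlinarith
  unfold hf
  rw [div_le_div_iff₀ (by linarith) (by linarith)]
  have : T * (1 + g s) ≤ s * (1 + g T) := mul_le_mul hTs (by linarith) (by linarith) (by linarith)
  nlinarith

theorem we_zero : we 0 = 0 := by
  unfold we
  rw [g_zero]
  simp

theorem D_zero (κ x : ℝ) : D 0 κ x = 0 := by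
  unfold D Dd Pp
  have h1 := floor_bounds h0_pos x
  rw [min_eq_right h1.1]
  simp

/-- **Unit pairs at the floor**, neighbours up to the height `9/20`. -/
theorem unit_floor {s μ : ℝ} (hs0 : 0 ≤ s) (hs : s ≤ 9 / 20) (hT0 : 0 ≤ T) (hT : T ≤ 9 / 20)
    (hμ : 0 ≤ μ) (hμ' : μ * (2 + 2 * g s) ≤ 1) :
    0 ≤ S0 s (kE s) (1 / 2 - we s - μ * wq s) (g T) T (AU s μ T) (BU s μ T) := by
  have hp := h0_pos
  have hp2 : 4 / 5 < h0 := by nlinarith [h0_sq]
  have hs1 : s < h0 := by linarith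
  rcases hT0.eq_or_lt with h | hT0'
  · -- the horizontal pair
    subst h
    have e1 : tau 0 = 0 := tau_low (by linarith)
    have e2 : rU 0 = 1 := by
      unfold rU
      rw [if_pos (by linarith), g_zero]
      norm_num
    have e3 : wq 0 = 0 := by
      unfold wq
      rw [g_zero]
      ring
    unfold S0 AU BU
    rw [e1, e2, e3, g_zero, mn_self, D_low le_rfl hs0 hs1]
    rcases hs0.eq_or_lt with h' | hs0'
    · subst h'
      rw [we_zero, e3]
      simp
    · have h3 : h0 - s ≠ 0 := by linarith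
      have e4 : kE s * ((h0 - s) / (2 * h0) * (2 * 0 - s)) = -we s := by
        unfold kE
        field_simp
        ring
      rw [e4, wq_eq hs0 hs]
      apply le_of_eq
      ring
  rcases hs0.eq_or_lt with h | hs0'
  · -- no rest
    subst h
    have e : mn (D 0 (kE 0)) 0 (tau T) = 0 := by
      have : D 0 (kE 0) = fun _ => 0 := by
        funext x
        exact D_zero _ _
      rw [this]
      unfold mn
      simp
    unfold S0
    rw [e, we_zero]
    unfold BU
    have h1 := g_half hT0 hT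
    have h2 : 0 ≤ wq T := by
      unfold wq
      exact mul_nonneg (by linarith [g_le_one T]) (by linarith)
    have h3 : 0 ≤ we T := by
      rw [← fE_hf hT0 hT]
      unfold fE
      have a1 := hf_nonneg hT0
      have a2 := hf_le hT0 hT
      have a3 := fa_pos (hf T)
      apply div_nonneg _ a3.le
      nlinarith
    have h4 : g T * (1 / 2 - 0 - μ * wq 0 + T / (2 * h0)) - AU 0 μ T * 0 -
        ((1 / 2 - g 0 * μ) * wq T - μ * wq T * (T - 0) / (2 * h0)) - 1 / 2 =
        g T * we T + μ * wq T + μ * wq T * T / (2 * h0) := by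
      rw [g_zero]
      have : wq 0 = 0 := by
        unfold wq
        rw [g_zero]
        ring
      rw [this]
      unfold wq we
      ring
    rw [h4]
    have := mul_nonneg (by linarith : 0 ≤ g T) h3
    positivity
  -- the two cases
  have hμ4 : 4 * μ ≤ fa (hf s) := by
    rw [fa_hf hs0 hs, le_div_iff₀ (by have := g_half hs0 hs; linarith)]
    linarith
  rcases le_total T s with h | h
  · rw [S0_eq (v := T * (s - T) / s) hs0' hs hT0' hT (int_low hs0' hs1 hT0 h)]
    have hhp : 0 < hf T := by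
      have := g_half hT0 hT
      unfold hf
      positivity
    have key := fW_low (μ := μ) hhp (hf_mono hT0 h hs) (hf_le hs0 hs) hμ hμ4
    rw [fU_hf hT0 hT, fU_hf hs0 hs] at key
    have e : 2 * h0 * T * (2 * h0 * s - 2 * h0 * T) / (2 * h0 * s) =
        2 * h0 * (T * (s - T) / s) := by
      field_simp
    rw [e] at key
    exact key
  · rw [S0_eq (v := -((T - s) * (h0 - T) / (h0 - s))) hs0' hs hT0' hT (by
      rw [int_high hs0' hs1 h (by linarith)]; ring)]
    have hhp : 0 < hf s := by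
      have := g_half hs0 hs
      unfold hf
      positivity
    have h5 : 0 < h0 - s := by linarith
    have key := fW_high (μ := μ) (ρ := (h0 - T) / (h0 - s)) hhp (hf_mono hs0 h hT)
      (hf_le hT0 hT) hμ hμ4 (by rw [div_le_one h5]; linarith)
    rw [fU_hf hT0 hT, fU_hf hs0 hs] at key
    have e : -((h0 - T) / (h0 - s) * (2 * h0 * T - 2 * h0 * s)) =
        2 * h0 * -((T - s) * (h0 - T) / (h0 - s)) := by
      field_simp
    rw [e] at key
    exact key

end

end Pool.Agent.Strip051.LC.Exact
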