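import Pool.Agent.Strip051.LC.Exact.CertT

/-! # The gauge

The flux of the kernel around a triangle does not change if a multiple of the signed distances to
the multiples of `h0` is subtracted from the three values: the integral of the density over a
period vanishes. -/

namespace Pool.Agent.Strip051.LC

open Pool.Agent.StripNear Pool.Agent.StripSquare Pool.Agent.Strip051 Pool.Agent.Strip051.Sweep
open Pool.Agent.Strip051.LC.Line (mn jn tau D D_integral D_integrable mul_mn)

section

variable {ι : Type} {κ s : ℝ}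

/-- The integral of the density over several periods. -/
theorem int_periods (κ : ℝ) (hs0 : 0 ≤ s) (hs1 : s < h0) (n : ℕ) (a : ℝ) :
    ∫ x in a..(a + n * h0), D s κ x = 0 := by
  induction n with
  | zero => simp
  | succ n ih =>
    rw [← intervalIntegral.integral_add_adjacent_intervals (b := a + n * h0)
      (D_integrable κ hs0 _ _) (D_integrable κ hs0 _ _), ih, zero_add,
      show a + ((n + 1 : ℕ) : ℝ) * h0 = a + n * h0 + h0 by push_cast; ring]
    exact D_integral κ hs0 hs1 _

/-- The mean over the short arc times its signed length is the integral over the long one. -/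
private theorem tau_mn (κ : ℝ) (hs0 : 0 ≤ s) (hs1 : s < h0) (y T : ℝ) :
    tau T * mn (D s κ) y (y + tau T) = ∫ x in y..(y + T), D s κ x := by
  have h := mul_mn (D s κ) y (y + tau T)
  rw [add_sub_cancel_left] at h
  rw [h]
  have e : (∫ x in y..(y + tau T), D s κ x) + ∫ x in (y + tau T)..(y + T), D s κ x =
      ∫ x in y..(y + T), D s κ x :=
    intervalIntegral.integral_add_adjacent_intervals (D_integrable κ hs0 _ _)
      (D_integrable κ hs0 _ _)
  have e2 : ∫ x in (y + tau T)..(y + T), D s κ x = 0 := by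
    have e3 : y + T = y + tau T + jn T * h0 := by
      unfold tau
      ring
    rw [e3]
    exact int_periods κ hs0 hs1 _ _
  rw [← e, e2, add_zero]

/-- **The gauge.** -/
theorem kf_gauge (κ : ℝ) (hs0 : 0 ≤ s) (hs1 : s < h0) (k : ℝ) (r : ℝ × ℝ × ℝ) (t t' y : ℝ) :
    kf κ s (r.1 - k * tau t, r.2.1 - k * tau t', r.2.2 - k * tau (t + t')) t t' y =
      kf κ s r t t' y := by
  have h1 := tau_mn κ hs0 hs1 y t
  have h2 := tau_mn κ hs0 hs1 (y + t) t'
  have h3 := tau_mn κ hs0 hs1 y (t + t')
  have h4 : (∫ x in y..(y + t), D s κ x) + ∫ x in (y + t)..(y + t + t'), D s κ x =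
      ∫ x in y..(y + (t + t')), D s κ x := by
    rw [← add_assoc]
    exact intervalIntegral.integral_add_adjacent_intervals (D_integrable κ hs0 _ _)
      (D_integrable κ hs0 _ _)
  unfold kf
  simp only
  linear_combination (-k) * h1 + (-k) * h2 + k * h3 + (-k) * h4

variable {vA vB vX : ℝ → ι → ℝ} {N0 : ℕ} {a : ℝ}

/-- The crude criterion at the far vertex after subtracting a gauge. -/
theorem far_crude_gauge (hs0 : 0 ≤ s) (hs1 : s < h0) (hκ : 0 ≤ κ) (k : ℝ) {X12 X13 t t' : ℝ}
    {w : (ℝ → ι → ℝ) → ℝ × ℝ × ℝ}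
    (h : |farXV (w vX)| + amp κ s * (|(w vA).1 - k * tau t| + |(w vA).2.1 - k * tau t'| +
      |(w vA).2.2 - k * tau (t + t')|) ≤ exn X12 X13 t t') :
    farD κ s vA vX X12 X13 t t' w := by
  intro y
  rw [← kf_gauge κ hs0 hs1 k]
  have := (abs_le.1 (kf_abs hs0 hs1 hκ ((w vA).1 - k * tau t, (w vA).2.1 - k * tau t',
    (w vA).2.2 - k * tau (t + t')) t t' y)).1
  simp only at this
  linarith

/-- The crude criterion at the near vertex after subtracting a gauge. -/
theorem near_crude_gauge (hs0 : 0 ≤ s) (hs1 : s < h0) (hκ : 0 ≤ κ) (k : ℝ) {X12 X13 t t' : ℝ}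
    {w : (ℝ → ι → ℝ) → ℝ × ℝ × ℝ}
    (h : amp κ s * (|(w vB).1 - k * tau t| + |(w vB).2.1 - k * tau t'| +
      |(w vB).2.2 - k * tau (t + t')|) ≤ exn X12 X13 t t' + min (levXV N0 s a t t' (w vX))
        (levXV N0 s a t' t (-(w vX).2.1, -(w vX).1, -(w vX).2.2))) :
    nearT a N0 κ s vB vX X12 X13 t t' w := by
  intro y
  rw [← kf_gauge κ hs0 hs1 k]
  have := (abs_le.1 (kf_abs hs0 hs1 hκ ((w vB).1 - k * tau t, (w vB).2.1 - k * tau t',
    (w vB).2.2 - k * tau (t + t')) t t' y)).1
  simp only at this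
  linarith

end

end Pool.Agent.Strip051.LC
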