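import Pool.Agent.Strip051.LC.Exact.FloorU
import Pool.Agent.Strip051.LC.Exact.Flat3

/-! # The floor functions of the tables

`UT` is the floor function of a vertex with a third kernel (`UT_none`: without it).  `UT_up` is its
growth with the height from `MonoT`, the sharper form of `MonoAt`.  The final theorems are
`FixSm.rowWall`, `FixSm.rowWin`, `FixDir.rowWall`, `FixDir.rowWin`. -/

namespace Pool.Agent.Strip051.LC

open Pool.Agent.StripNear Pool.Agent.StripSquare Pool.Agent.Strip051.Sweep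
open Pool.Agent.Strip051.LC.Line

/-! ### The growth of the mean of the density -/

theorem mn_incr {s κ : ℝ} (hs0 : 0 ≤ s) (hs1 : s < h0) (hκ : 0 ≤ κ) {d : ℝ} (hd : 0 ≤ d)
    (y t : ℝ) : |t| * |mn (D s κ) (y + d) (y + d + t) - mn (D s κ) y (y + t)| ≤
      κ * (s * (h0 - s) / h0) * d := by
  have hD : Continuous (D s κ) := Dd_continuous h0_pos hs0 hs1.le
  have hi : ∀ a b : ℝ, IntervalIntegrable (D s κ) MeasureTheory.volume a b := fun a b =>
    hD.intervalIntegrable a b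
  have e1 := mul_mn (D s κ) (y + d) (y + d + t)
  have e2 := mul_mn (D s κ) y (y + t)
  rw [add_sub_cancel_left] at e1 e2
  rw [← abs_mul, mul_sub, e1, e2]
  have e3 : (∫ x in (y + d)..(y + d + t), D s κ x) - ∫ x in y..(y + t), D s κ x =
      (∫ x in (y + t)..(y + t + d), D s κ x) - ∫ x in y..(y + d), D s κ x := by
    have a1 := intervalIntegral.integral_add_adjacent_intervals (hi y (y + d)) (hi (y + d) (y + d + t))
    have a2 := intervalIntegral.integral_add_adjacent_intervals (hi y (y + t)) (hi (y + t) (y + t + d))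
    rw [show y + d + t = y + t + d by ring] at *
    linarith
  rw [e3]
  have hb : ∀ a : ℝ, |∫ x in a..(a + d), D s κ x| ≤ κ * (s * (h0 - s) / (2 * h0)) * d := by
    intro a
    have := intervalIntegral.norm_integral_le_of_norm_le_const (a := a) (b := a + d)
      (f := D s κ) (C := κ * (s * (h0 - s) / (2 * h0))) fun x _ => by
        rw [Real.norm_eq_abs]
        exact D_abs hs0 hs1 hκ x
    rwa [Real.norm_eq_abs, add_sub_cancel_left, abs_of_nonneg hd] at this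
  have hh := h0_pos
  have e4 : κ * (s * (h0 - s) / h0) * d = κ * (s * (h0 - s) / (2 * h0)) * d +
      κ * (s * (h0 - s) / (2 * h0)) * d := by
    field_simp
    ring
  rw [e4]
  exact (abs_sub _ _).trans (add_le_add (hb _) (hb _))

theorem mn_slope3 {s κ : ℝ} (hs0 : 0 < s) (hs1 : s < h0) (hκ : 0 ≤ κ) {d : ℝ} (hd : 0 ≤ d)
    (y t : ℝ) :
    -(κ * s * (h0 - s) / (h0 * max (h0 - s) |t|) * d) ≤
        mn (D s κ) (y + d) (y + d + t) - mn (D s κ) y (y + t) ∧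
      mn (D s κ) (y + d) (y + d + t) - mn (D s κ) y (y + t) ≤
        κ * s * (h0 - s) / (h0 * max s |t|) * d := by
  have hh := h0_pos
  have hsh : 0 < h0 - s := by linarith
  obtain ⟨a1, a2⟩ := mn_slope2 hs0.le hs1 hκ hd y t
  have b := mn_incr hs0.le hs1 hκ hd y t
  set M := mn (D s κ) (y + d) (y + d + t) - mn (D s κ) y (y + t)
  constructor
  · rcases le_total |t| (h0 - s) with h | h
    · rw [max_eq_left h]
      have : κ * s * (h0 - s) / (h0 * (h0 - s)) * d = κ * s / h0 * d := by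
        field_simp
      rw [this]
      exact a1
    · rw [max_eq_right h]
      have ht : 0 < |t| := by linarith
      have : κ * s * (h0 - s) / (h0 * |t|) * d = κ * (s * (h0 - s) / h0) * d / |t| := by
        field_simp
      rw [this, neg_le]
      rw [le_div_iff₀ ht]
      have := neg_abs_le M
      nlinarith
  · rcases le_total |t| s with h | h
    · rw [max_eq_left h]
      have : κ * s * (h0 - s) / (h0 * s) * d = κ * (h0 - s) / h0 * d := by
        field_simp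
      rw [this]
      exact a2
    · rw [max_eq_right h]
      have ht : 0 < |t| := by linarith
      have : κ * s * (h0 - s) / (h0 * |t|) * d = κ * (s * (h0 - s) / h0) * d / |t| := by
        field_simp
      rw [this, le_div_iff₀ ht]
      have := le_abs_self M
      nlinarith

/-- The sharper form of `MonoAt`; `t` is the length of the interval of the mean. -/
def MonoT (s κ X t A C : ℝ) : Prop :=
  κ * s * (h0 - s) * (max A 0 / max s |t| + max (-A) 0 / max (h0 - s) |t|) ≤ X + h0 * C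

theorem MonoAt.monoT {s κ X A C : ℝ} (h : MonoAt s κ X A C) (hs0 : 0 < s) (hs1 : s < h0)
    (hκ : 0 ≤ κ) (t : ℝ) : MonoT s κ X t A C := by
  have hsh : 0 < h0 - s := by linarith
  have a1 : 0 ≤ max A 0 := le_max_right _ _
  have a2 : 0 ≤ max (-A) 0 := le_max_right _ _
  have b1 : max A 0 / max s |t| ≤ max A 0 / s :=
    div_le_div_of_nonneg_left a1 hs0 (le_max_left _ _)
  have b2 : max (-A) 0 / max (h0 - s) |t| ≤ max (-A) 0 / (h0 - s) :=
    div_le_div_of_nonneg_left a2 hsh (le_max_left _ _)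
  unfold MonoAt at h
  unfold MonoT
  have c0 : 0 ≤ κ * s * (h0 - s) := by positivity
  have c1 := mul_le_mul_of_nonneg_left (add_le_add b1 b2) c0
  have c2 : κ * s * (h0 - s) * (max A 0 / s + max (-A) 0 / (h0 - s)) =
      κ * (h0 - s) * max A 0 + κ * s * max (-A) 0 := by
    field_simp
  linarith

theorem slack_mono3 {s κ : ℝ} (hs0 : 0 < s) (hs1 : s < h0) (hκ : 0 ≤ κ) {X t A C : ℝ}
    (hM : MonoT s κ X t A C) {d : ℝ} (hd : 0 ≤ d) (y : ℝ) :
    A * mn (D s κ) (y + d) (y + d + t) ≤ A * mn (D s κ) y (y + t) + (X / h0 + C) * d := by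
  have hp := h0_pos
  have hsh : 0 < h0 - s := by linarith
  obtain ⟨h1, h2⟩ := mn_slope3 hs0 hs1 hκ hd y t
  set M := mn (D s κ) (y + d) (y + d + t) - mn (D s κ) y (y + t) with hMd
  have e : A * mn (D s κ) (y + d) (y + d + t) = A * mn (D s κ) y (y + t) + A * M := by
    rw [hMd]
    ring
  rw [e]
  have a1 : 0 ≤ max A 0 := le_max_right _ _
  have a2 : 0 ≤ max (-A) 0 := le_max_right _ _
  have m1 : 0 < max s |t| := lt_of_lt_of_le hs0 (le_max_left _ _)
  have m2 : 0 < max (h0 - s) |t| := lt_of_lt_of_le hsh (le_max_left _ _)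
  have b1 : max A 0 * M ≤ max A 0 * (κ * s * (h0 - s) / (h0 * max s |t|) * d) :=
    mul_le_mul_of_nonneg_left h2 a1
  have b2 : max (-A) 0 * -(κ * s * (h0 - s) / (h0 * max (h0 - s) |t|) * d) ≤ max (-A) 0 * M :=
    mul_le_mul_of_nonneg_left h1 a2
  have hA : A * M = max A 0 * M - max (-A) 0 * M := by
    rcases le_total 0 A with h | h
    · rw [max_eq_left h, max_eq_right (by linarith)]; ring
    · rw [max_eq_right h, max_eq_left (by linarith)]; ring
  have e4 : κ * s * (h0 - s) * (max A 0 / max s |t| + max (-A) 0 / max (h0 - s) |t|) / h0 * d =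
      max A 0 * (κ * s * (h0 - s) / (h0 * max s |t|) * d) -
        max (-A) 0 * -(κ * s * (h0 - s) / (h0 * max (h0 - s) |t|) * d) := by
    field_simp
    ring
  have b4 : κ * s * (h0 - s) * (max A 0 / max s |t| + max (-A) 0 / max (h0 - s) |t|) / h0 ≤
      X / h0 + C := by
    unfold MonoT at hM
    rw [div_le_iff₀ hp]
    have : (X / h0 + C) * h0 = X + h0 * C := by
      field_simp
    linarith
  have := mul_le_mul_of_nonneg_right b4 hd
  rw [hA]
  linarith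

/-! ### The floor function with a third kernel -/

section

variable {κ s μ w : ℝ} {R Xi C : ℝ → ℝ → ℝ} {f : ℝ → ℝ} {Nd : ℝ → ℝ → Prop}

/-- The floor function of a vertex with a third kernel. -/
noncomputable def UT (κ s μ w : ℝ) (R Xi C : ℝ → ℝ → ℝ) (f : ℝ → ℝ) (X y z : ℝ) : ℝ :=
  UF κ s μ w R Xi X y z - μ * (C X |z - y| * ∫ x in (min y z)..(max y z), f x)

theorem UT_none (X y z : ℝ) : UT κ s μ w R Xi (fun _ _ => 0) f X y z = UF κ s μ w R Xi X y z := by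
  unfold UT
  ring

theorem UT_nf {X T y : ℝ} (hT : 0 ≤ T) : UT κ s μ w R Xi C f X y (y + T) =
    X * (w + (2 * y + T) / (2 * h0)) - (R X T * mn (D s κ) y (y + tau T) +
      (1 / 2 - g s * μ) * Xi X T - μ * ((2 * y + T - s) / (2 * h0)) * Xi X T) -
      μ * (C X T * ∫ x in y..(y + T), f x) := by
  unfold UT UF
  rw [add_sub_cancel_left, abs_of_nonneg hT, min_eq_left (by linarith), max_eq_right (by linarith),
    Qd_up R _ _ hT, show y + (y + T) = 2 * y + T by ring]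

/-- The three kernels are piecewise affine with the nodes `Nd`. -/
def PiecesT (R Xi C : ℝ → ℝ → ℝ) (Nd : ℝ → ℝ → Prop) : Prop :=
  ∀ X T : ℝ, 0 ≤ T → 1 ≤ X ^ 2 + T ^ 2 → X ^ 2 + T ^ 2 ≤ 3 →
    ∃ a b : ℝ, a ≤ X ∧ X ≤ b ∧ Nd a T ∧ Nd b T ∧
      (∀ u, a ≤ u → u ≤ b → 1 ≤ u ^ 2 + T ^ 2 ∧ u ^ 2 + T ^ 2 ≤ 3) ∧
      (∃ α β : ℝ, ∀ u, a ≤ u → u ≤ b → R u T = α * u + β) ∧
      (∃ α β : ℝ, ∀ u, a ≤ u → u ≤ b → Xi u T = α * u + β) ∧
      (∃ α β : ℝ, ∀ u, a ≤ u → u ≤ b → C u T = α * u + β)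

theorem edgeU_UT (hR : ∀ X T, R (-X) T = -R X T) (hXi : ∀ X T, Xi (-X) T = -Xi X T)
    (hC : ∀ X T, C (-X) T = -C X T) (hP : PiecesT R Xi C Nd) :
    EdgeU (UT κ s μ w R Xi C f) Nd := by
  have z : ∀ {F : ℝ → ℝ → ℝ}, (∀ X T, F (-X) T = -F X T) → ∀ T, F 0 T = 0 := by
    intro F hF T
    have := hF 0 T
    rw [neg_zero] at this
    linarith
  refine ⟨?_, ?_, ?_⟩
  · intro X y z
    unfold UT
    rw [UF_comm, abs_sub_comm, min_comm, max_comm]
  · intro y z'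
    unfold UT UF Qd
    rw [z hR, z hXi, z hC]
    ring
  · intro X T hT h1 h3
    obtain ⟨a, b, a1, a2, a3, a4, a5, ⟨α, β, a6⟩, ⟨α', β', a7⟩, ⟨α'', β'', a8⟩⟩ := hP X T hT h1 h3
    refine ⟨a, b, a1, a2, a3, a4, a5, fun y => ?_⟩
    refine ⟨(w + (2 * y + T) / (2 * h0)) - (α * mn (D s κ) y (y + tau T) +
      (1 / 2 - g s * μ) * α' - μ * ((2 * y + T - s) / (2 * h0)) * α') -
      μ * (α'' * ∫ x in y..(y + T), f x), -(β * mn (D s κ) y (y + tau T) +
      (1 / 2 - g s * μ) * β' - μ * ((2 * y + T - s) / (2 * h0)) * β') -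
      μ * (β'' * ∫ x in y..(y + T), f x), fun u u1 u2 => ?_⟩
    rw [UT_nf hT, a6 u u1 u2, a7 u u1 u2, a8 u u1 u2]
    ring

/-- **The floor function grows with the height**, up to `c` per unit of height. -/
theorem UT_up (hs0 : 0 < s) (hs1 : s < h0) (hκ : 0 ≤ κ) (hμ : 0 ≤ μ) (hf : Continuous f) {K : ℝ}
    (hK : ∀ x, |f x| ≤ K) {X T c : ℝ} (hT : 0 ≤ T)
    (hM : MonoT s κ X (tau T) (R X T) (μ / h0 * Xi X T - 2 * μ * |C X T| * K + c)) {y d : ℝ}
    (hd : 0 ≤ d) :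
    UT κ s μ w R Xi C f X y (y + T) ≤ UT κ s μ w R Xi C f X (y + d) (y + d + T) + c * d := by
  have hp := h0_pos
  have key := slack_mono3 hs0 hs1 hκ hM hd y
  rw [UT_nf hT, UT_nf hT]
  set m1 := mn (D s κ) (y + d) (y + d + tau T)
  set m0 := mn (D s κ) y (y + tau T)
  have hi : ∀ a b : ℝ, IntervalIntegrable f MeasureTheory.volume a b := fun a b =>
    hf.intervalIntegrable a b
  have e3 : (∫ x in (y + d)..(y + d + T), f x) - ∫ x in y..(y + T), f x =
      (∫ x in (y + T)..(y + T + d), f x) - ∫ x in y..(y + d), f x := by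
    have a1 := intervalIntegral.integral_add_adjacent_intervals (hi y (y + d)) (hi (y + d) (y + d + T))
    have a2 := intervalIntegral.integral_add_adjacent_intervals (hi y (y + T)) (hi (y + T) (y + T + d))
    rw [show y + d + T = y + T + d by ring] at *
    linarith
  have hb : ∀ a : ℝ, |∫ x in a..(a + d), f x| ≤ K * d := by
    intro a
    have := intervalIntegral.norm_integral_le_of_norm_le_const (a := a) (b := a + d)
      (f := f) (C := K) fun x _ => by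
        rw [Real.norm_eq_abs]
        exact hK x
    rwa [Real.norm_eq_abs, add_sub_cancel_left, abs_of_nonneg hd] at this
  have e4 : |(∫ x in (y + d)..(y + d + T), f x) - ∫ x in y..(y + T), f x| ≤ 2 * K * d := by
    rw [e3]
    exact (abs_sub _ _).trans (by linarith [hb (y + T), hb y])
  set I1 := ∫ x in (y + d)..(y + d + T), f x
  set I0 := ∫ x in y..(y + T), f x
  have e5 : μ * (C X T * (I1 - I0)) ≤ 2 * μ * |C X T| * K * d := by
    have : C X T * (I1 - I0) ≤ |C X T| * (2 * K * d) := by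
      refine (le_abs_self _).trans ?_
      rw [abs_mul]
      exact mul_le_mul_of_nonneg_left e4 (abs_nonneg _)
    have := mul_le_mul_of_nonneg_left this hμ
    linarith
  have e6 : X * (w + (2 * (y + d) + T) / (2 * h0)) = X * (w + (2 * y + T) / (2 * h0)) +
      X / h0 * d := by
    field_simp
    ring
  have e7 : μ * ((2 * (y + d) + T - s) / (2 * h0)) * Xi X T =
      μ * ((2 * y + T - s) / (2 * h0)) * Xi X T + μ / h0 * Xi X T * d := by
    field_simp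
    ring
  rw [e6, e7]
  have e8 : (X / h0 + (μ / h0 * Xi X T - 2 * μ * |C X T| * K + c)) * d = X / h0 * d +
      μ / h0 * Xi X T * d - 2 * μ * |C X T| * K * d + c * d := by ring
  rw [e8] at key
  have e9 : μ * (C X T * (I1 - I0)) = μ * (C X T * I1) - μ * (C X T * I0) := by ring
  linarith

/-- The third kernel is bounded by its oscillation. -/
theorem UT_osc {o : ℝ} (hμ : 0 ≤ μ) (ho : ∀ a b, |∫ x in a..b, f x| ≤ o) {X T : ℝ} (hT : 0 ≤ T)
    (y : ℝ) :
    UF κ s μ w R Xi X y (y + T) - μ * (|C X T| * o) ≤ UT κ s μ w R Xi C f X y (y + T) ∧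
      UT κ s μ w R Xi C f X y (y + T) ≤ UF κ s μ w R Xi X y (y + T) + μ * (|C X T| * o) := by
  unfold UT
  rw [add_sub_cancel_left, abs_of_nonneg hT, min_eq_left (by linarith), max_eq_right (by linarith)]
  have h1 : |C X T * ∫ x in y..(y + T), f x| ≤ |C X T| * o := by
    rw [abs_mul]
    exact mul_le_mul_of_nonneg_left (ho _ _) (abs_nonneg _)
  have h2 := abs_le.1 h1
  have h3 := mul_le_mul_of_nonneg_left h2.1 hμ
  have h4 := mul_le_mul_of_nonneg_left h2.2 hμ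
  constructor <;> linarith

/-- The floor function on the floor. -/
theorem UF_zero {X T : ℝ} (hT : 0 ≤ T) :
    UF κ s μ w R Xi X 0 (0 + T) = S0 s κ w X T (R X T) (BF s μ Xi X T) + 1 / 2 := by
  rw [← UT_none (f := fun _ => 0), UT_nf hT]
  unfold S0 BF
  rw [mul_zero, zero_add, zero_add]
  ring

end

/-! ### The slacks of the tables -/

section

variable {T : Tab} {C : ℝ → ℝ → ℝ} {f : ℝ → ℝ} {Nd : ℝ → ℝ → Prop} {N0 : ℕ} {a κ s : ℝ}

theorem C3_dn (X y z : ℝ) : C3 C f s X (y - s / 2) (z - s / 2) =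
    C X |z - y| * ∫ x in (min y z)..(max y z), f x := by
  unfold C3
  rw [show z - s / 2 - (y - s / 2) = z - y by ring, ← min_add_add_right, ← max_add_add_right,
    sub_add_cancel, sub_add_cancel]

/-- The far slack. -/
theorem WF_far3 {p q : Pt} (k : ds p q ≤ 3) : WF (T.flat3 C f N0 κ s) s 0 p q + 1 / 2 =
    UT κ s 0 (1 / 2 - we s) T.A T.Xi C f (q.1 - p.1) p.2 q.2 := by
  rw [ds_xz] at k
  have e : ed ((T.flat3 C f N0 κ s).Q 0 (-(1 / 2 - g s * 0))) (dn s p) (dn s q) =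
      Qd T.A (D s κ) (q.1 - p.1) p.2 q.2 + 1 / 2 * T.Xi (q.1 - p.1) |q.2 - p.2| := by
    unfold ed Tab.flat3 dn
    simp only
    rw [Data.glue_Q_short (by rw [show q.2 - s / 2 - (p.2 - s / 2) = q.2 - p.2 by ring]; exact k),
      mul_zero, sub_zero, Tab.Q3, Tab.Q_far, Qc_dn,
      show q.2 - s / 2 - (p.2 - s / 2) = q.2 - p.2 by ring]
    ring
  unfold WF
  rw [e]
  unfold UT UF
  ring

/-- The near slack. -/
theorem WF_near3 (hs0 : 0 ≤ s) (hs1 : s < h0) {p q : Pt} (k : ds p q ≤ 3) :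
    WF (T.flat3 C f N0 κ s) s (mu N0 s) p q + 1 / 2 =
      UT κ s (mu N0 s) (1 / 2 - we s - mu N0 s * wq s) T.B T.Xi C f (q.1 - p.1) p.2 q.2 := by
  have hg : 0 < g s := by linarith [g_gt_half hs0 hs1]
  have hN0 : (0 : ℝ) ≤ N0 := Nat.cast_nonneg N0
  have hm : mu N0 s ≠ 0 := by
    unfold mu
    positivity
  rw [ds_xz] at k
  have e : ed ((T.flat3 C f N0 κ s).Q (mu N0 s) (-(1 / 2 - g s * mu N0 s))) (dn s p) (dn s q) =
      Qd T.B (D s κ) (q.1 - p.1) p.2 q.2 + (1 / 2 - g s * mu N0 s) * T.Xi (q.1 - p.1) |q.2 - p.2| -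
        mu N0 s * ((p.2 + q.2 - s) / (2 * h0)) * T.Xi (q.1 - p.1) |q.2 - p.2| +
        mu N0 s * (C (q.1 - p.1) |q.2 - p.2| * ∫ x in (min p.2 q.2)..(max p.2 q.2), f x) := by
    unfold ed Tab.flat3 dn
    simp only
    rw [Data.glue_Q_short (by rw [show q.2 - s / 2 - (p.2 - s / 2) = q.2 - p.2 by ring]; exact k),
      Tab.Q3, C3_dn]
    unfold Data.Q Tab.data
    simp only
    rw [Qc_dn, Qc_dn, show q.2 - s / 2 - (p.2 - s / 2) = q.2 - p.2 by ring]
    field_simp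
    ring
  unfold WF
  rw [e]
  unfold UT UF
  ring

/-- The far slack, two kernels. -/
theorem WF_far2 {p q : Pt} (k : ds p q ≤ 3) : WF (T.flat N0 κ s) s 0 p q + 1 / 2 =
    UT κ s 0 (1 / 2 - we s) T.A T.Xi (fun _ _ => 0) (fun _ => 0) (q.1 - p.1) p.2 q.2 := by
  rw [ds_xz] at k
  have e : ed ((T.flat N0 κ s).Q 0 (-(1 / 2 - g s * 0))) (dn s p) (dn s q) =
      Qd T.A (D s κ) (q.1 - p.1) p.2 q.2 + 1 / 2 * T.Xi (q.1 - p.1) |q.2 - p.2| := by
    unfold ed Tab.flat dn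
    simp only
    rw [Data.glue_Q_short (by rw [show q.2 - s / 2 - (p.2 - s / 2) = q.2 - p.2 by ring]; exact k),
      mul_zero, sub_zero, Tab.Q_far, Qc_dn,
      show q.2 - s / 2 - (p.2 - s / 2) = q.2 - p.2 by ring]
  unfold WF
  rw [e]
  unfold UT UF
  ring

/-- The near slack, two kernels. -/
theorem WF_near2 (hs0 : 0 ≤ s) (hs1 : s < h0) {p q : Pt} (k : ds p q ≤ 3) :
    WF (T.flat N0 κ s) s (mu N0 s) p q + 1 / 2 =
      UT κ s (mu N0 s) (1 / 2 - we s - mu N0 s * wq s) T.B T.Xi (fun _ _ => 0) (fun _ => 0)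
        (q.1 - p.1) p.2 q.2 := by
  have hg : 0 < g s := by linarith [g_gt_half hs0 hs1]
  have hN0 : (0 : ℝ) ≤ N0 := Nat.cast_nonneg N0
  have hm : mu N0 s ≠ 0 := by
    unfold mu
    positivity
  rw [ds_xz] at k
  have e : ed ((T.flat N0 κ s).Q (mu N0 s) (-(1 / 2 - g s * mu N0 s))) (dn s p) (dn s q) =
      Qd T.B (D s κ) (q.1 - p.1) p.2 q.2 + (1 / 2 - g s * mu N0 s) * T.Xi (q.1 - p.1) |q.2 - p.2| -
        mu N0 s * ((p.2 + q.2 - s) / (2 * h0)) * T.Xi (q.1 - p.1) |q.2 - p.2| := by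
    unfold ed Tab.flat dn
    simp only
    rw [Data.glue_Q_short (by rw [show q.2 - s / 2 - (p.2 - s / 2) = q.2 - p.2 by ring]; exact k)]
    unfold Data.Q Tab.data
    simp only
    rw [Qc_dn, Qc_dn, show q.2 - s / 2 - (p.2 - s / 2) = q.2 - p.2 by ring]
    field_simp
    ring
  unfold WF
  rw [e]
  unfold UT UF
  ring

/-! ### The rows -/

theorem near_floor_level {n : ℕ} (hg : 0 < g s) :
    -(mu n s * (n / 2 + 0 / h0)) = -(1 / 2 - g s * mu n s) := by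
  have := mu_mul n hg
  linear_combination (-(1 / 2) : ℝ) * this

theorem three_le {N0 : ℕ} (hN3 : 3 ≤ N0) (hs0 : 0 ≤ s) {x y z : ℝ} (hx : x ≤ 3 * h0)
    (hy : y ≤ 3 * h0) (hz : z ≤ 3 * h0) : highest x y z ≤ N0 * h0 + s := by
  have hh := h0_pos
  have h3 : (3 : ℝ) ≤ N0 := by exact_mod_cast hN3
  have : 3 * h0 ≤ N0 * h0 := mul_le_mul_of_nonneg_right h3 hh.le
  unfold highest
  exact max_le (by linarith) (max_le (by linarith) (by linarith))

theorem FixSm.tri0 (h : FixSm T Nd N0 a κ s) (p q r : Pt) (k0 : 0 ≤ cr p q r)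
    (k1 : 1 ≤ ds p q) (k2 : 1 ≤ ds q r) (k3 : 1 ≤ ds p r) (k4 : ds p q ≤ 3) (k5 : ds q r ≤ 3)
    (k6 : ds p r ≤ 3) : 0 ≤ SF (T.flat N0 κ s) s 0 p q r := by
  have := h.farS k0 k1 k2 k3 k4 k5 k6
  unfold SF
  rwa [mul_zero, sub_zero]

theorem FixSm.triN (h : FixSm T Nd N0 a κ s) (hN3 : 3 ≤ N0) (p q r : Pt) (hp : 0 ≤ p.2)
    (hq : 0 ≤ q.2) (hr : 0 ≤ r.2) (k0 : 0 ≤ cr p q r)
    (k1 : 1 ≤ ds p q) (k2 : 1 ≤ ds q r) (k3 : 1 ≤ ds p r) (k4 : ds p q ≤ 3) (k5 : ds q r ≤ 3)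
    (k6 : ds p r ≤ 3) (hp' : p.2 ≤ 3 * h0) (hq' : q.2 ≤ 3 * h0) (hr' : r.2 ≤ 3 * h0) :
    0 ≤ SF (T.flat N0 κ s) s (mu N0 s) p q r := by
  have ha := h.a0
  have hl := lowest_nonneg hp hq hr
  have := h.level k0 k1 k2 k3 k4 k5 k6 (L := 0)
    (by linarith [three_le hN3 h.s0 hp' hq' hr']) (by linarith)
  unfold Data.nr at this
  rw [near_floor_level h.gpos] at this
  unfold SF
  exact this

theorem FixDir.tri0 (h : FixDir T C f Nd N0 a κ s) (p q r : Pt) (k0 : 0 ≤ cr p q r)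
    (k1 : 1 ≤ ds p q) (k2 : 1 ≤ ds q r) (k3 : 1 ≤ ds p r) (k4 : ds p q ≤ 3) (k5 : ds q r ≤ 3)
    (k6 : ds p r ≤ 3) : 0 ≤ SF (T.flat3 C f N0 κ s) s 0 p q r := by
  have := h.farS k0 k1 k2 k3 k4 k5 k6
  unfold SF
  rwa [mul_zero, sub_zero]

theorem FixDir.triN (h : FixDir T C f Nd N0 a κ s) (hN3 : 3 ≤ N0) (p q r : Pt) (hp : 0 ≤ p.2)
    (hq : 0 ≤ q.2) (hr : 0 ≤ r.2) (k0 : 0 ≤ cr p q r)
    (k1 : 1 ≤ ds p q) (k2 : 1 ≤ ds q r) (k3 : 1 ≤ ds p r) (k4 : ds p q ≤ 3) (k5 : ds q r ≤ 3)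
    (k6 : ds p r ≤ 3) (hp' : p.2 ≤ 3 * h0) (hq' : q.2 ≤ 3 * h0) (hr' : r.2 ≤ 3 * h0) :
    0 ≤ SF (T.flat3 C f N0 κ s) s (mu N0 s) p q r := by
  have ha := h.a0
  have hl := lowest_nonneg hp hq hr
  have := h.level k0 k1 k2 k3 k4 k5 k6 (L := 0)
    (by linarith [three_le hN3 h.s0 hp' hq' hr']) (by linarith)
  unfold Data.nr at this
  rw [near_floor_level h.gpos] at this
  unfold SF
  exact this

/-- The floor function of the far vertex. -/
noncomputable def U0 (T : Tab) (C : ℝ → ℝ → ℝ) (f : ℝ → ℝ) (κ s : ℝ) : ℝ → ℝ → ℝ → ℝ :=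
  UT κ s 0 (1 / 2 - we s) T.A T.Xi C f

/-- The floor function of the near vertex. -/
noncomputable def UN (T : Tab) (C : ℝ → ℝ → ℝ) (f : ℝ → ℝ) (N0 : ℕ) (κ s : ℝ) : ℝ → ℝ → ℝ → ℝ :=
  UT κ s (mu N0 s) (1 / 2 - we s - mu N0 s * wq s) T.B T.Xi C f

theorem edgeU0 (hT : T.Ok) (hC : ∀ X t, C (-X) t = -C X t) (hP : Pieces3 T C Nd) :
    EdgeU (U0 T C f κ s) Nd := by
  refine edgeU_UT hT.oddA hT.oddX hC ?_
  intro X t h1 h2 h3
  obtain ⟨a, b, a1, a2, a3, a4, a5, a6, -, a7, a8⟩ := hP X t h1 h2 h3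
  exact ⟨a, b, a1, a2, a3, a4, a5, a6, a7, a8⟩

theorem edgeUN (hT : T.Ok) (hC : ∀ X t, C (-X) t = -C X t) (hP : Pieces3 T C Nd) :
    EdgeU (UN T C f N0 κ s) Nd := by
  refine edgeU_UT hT.oddB hT.oddX hC ?_
  intro X t h1 h2 h3
  obtain ⟨a, b, a1, a2, a3, a4, a5, -, a6, a7, a8⟩ := hP X t h1 h2 h3
  exact ⟨a, b, a1, a2, a3, a4, a5, a6, a7, a8⟩

theorem pieces3_zero (hP : T.Pieces Nd) : Pieces3 T (fun _ _ => 0) Nd := by
  intro X t h1 h2 h3
  obtain ⟨a, b, a1, a2, a3, a4, a5, a6, a7, a8⟩ := hP X t h1 h2 h3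
  exact ⟨a, b, a1, a2, a3, a4, a5, a6, a7, a8, 0, 0, fun u _ _ => by ring⟩

/-- **The rows with two kernels, without the window.** -/
theorem FixSm.rowWall (h : FixSm T Nd N0 a κ s)
    (hF : WallU (U0 T (fun _ _ => 0) (fun _ => 0) κ s) Nd)
    (hN : WallU (UN T (fun _ _ => 0) (fun _ => 0) N0 κ s) Nd) : RowOK (T.flat N0 κ s) N0 s := by
  have hz : ∀ X t : ℝ, (fun _ _ : ℝ => (0 : ℝ)) (-X) t = -(fun _ _ : ℝ => (0 : ℝ)) X t :=
    fun X t => by ring
  refine Or.inl fun p q hf k => ⟨?_, ?_⟩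
  · have h1 := hF.pair (edgeU0 h.ok hz (pieces3_zero h.pieces)) hf k
    have h2 := WF_far2 (T := T) (N0 := N0) (κ := κ) (s := s) k
    unfold U0 at h1
    linarith
  · have h1 := hN.pair (edgeUN h.ok hz (pieces3_zero h.pieces)) hf k
    have h2 := WF_near2 (T := T) (N0 := N0) (κ := κ) h.s0 h.s1 k
    unfold UN at h1
    linarith

/-- **The rows with two kernels and the window.** -/
theorem FixSm.rowWin (h : FixSm T Nd N0 a κ s) (hN3 : 3 ≤ N0) {D0 D1 : ℝ} {al be al' be' : ℝ → ℝ}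
    (hD0 : 11 / 10 ≤ D0) (hD1 : 11 / 10 ≤ D1)
    (hF : WinU (U0 T (fun _ _ => 0) (fun _ => 0) κ s) Nd D0 al be)
    (hN : WinU (UN T (fun _ _ => 0) (fun _ => 0) N0 κ s) Nd D1 al' be') :
    RowOK (T.flat N0 κ s) N0 s := by
  have hz : ∀ X t : ℝ, (fun _ _ : ℝ => (0 : ℝ)) (-X) t = -(fun _ _ : ℝ => (0 : ℝ)) X t :=
    fun X t => by ring
  refine Or.inr (starSmall_of_win h.okD hD0 hD1
    (hF.winV (edgeU0 h.ok hz (pieces3_zero h.pieces)) (fun p q k => WF_far2 k) ?_)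
    (hN.winV (edgeUN h.ok hz (pieces3_zero h.pieces)) (fun p q k => WF_near2 h.s0 h.s1 k) ?_))
  · intro p q r _ _ _ k0 k1 k2 k3 k4 k5 k6 _ _ _
    exact h.tri0 p q r k0 k1 k2 k3 k4 k5 k6
  · intro p q r hp hq hr k0 k1 k2 k3 k4 k5 k6 l1 l2 l3
    exact h.triN hN3 p q r hp hq hr k0 k1 k2 k3 k4 k5 k6 l1 l2 l3

/-- **The rows with three kernels, without the window.** -/
theorem FixDir.rowWall (h : FixDir T C f Nd N0 a κ s) (hF : WallU (U0 T C f κ s) Nd)
    (hN : WallU (UN T C f N0 κ s) Nd) : RowOK (T.flat3 C f N0 κ s) N0 s := by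
  refine Or.inl fun p q hf k => ⟨?_, ?_⟩
  · have h1 := hF.pair (edgeU0 h.ok h.oddC h.pieces) hf k
    have h2 := WF_far3 (T := T) (C := C) (f := f) (N0 := N0) (κ := κ) (s := s) k
    unfold U0 at h1
    linarith
  · have h1 := hN.pair (edgeUN h.ok h.oddC h.pieces) hf k
    have h2 := WF_near3 (T := T) (C := C) (f := f) (N0 := N0) (κ := κ) h.s0 h.s1 k
    unfold UN at h1
    linarith

/-- **The rows with three kernels and the window.** -/
theorem FixDir.rowWin (h : FixDir T C f Nd N0 a κ s) (hN3 : 3 ≤ N0) {D0 D1 : ℝ}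
    {al be al' be' : ℝ → ℝ} (hD0 : 11 / 10 ≤ D0) (hD1 : 11 / 10 ≤ D1)
    (hF : WinU (U0 T C f κ s) Nd D0 al be) (hN : WinU (UN T C f N0 κ s) Nd D1 al' be') :
    RowOK (T.flat3 C f N0 κ s) N0 s := by
  refine Or.inr (starSmall_of_win h.okD hD0 hD1
    (hF.winV (edgeU0 h.ok h.oddC h.pieces) (fun p q k => WF_far3 k) ?_)
    (hN.winV (edgeUN h.ok h.oddC h.pieces) (fun p q k => WF_near3 h.s0 h.s1 k) ?_))
  · intro p q r _ _ _ k0 k1 k2 k3 k4 k5 k6 _ _ _
    exact h.tri0 p q r k0 k1 k2 k3 k4 k5 k6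
  · intro p q r hp hq hr k0 k1 k2 k3 k4 k5 k6 l1 l2 l3
    exact h.triN hN3 p q r hp hq hr k0 k1 k2 k3 k4 k5 k6 l1 l2 l3

end

end Pool.Agent.Strip051.LC
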