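import Pool.Agent.Strip051.LC.Exact.Mod
import Pool.Agent.Strip051.LC.Exact.CornerPhi

/-! # The exact weight for one rest `s`: tables

`A` is the kernel at the far vertex, `B` the kernel at the near vertex, `Xi` the coefficient of the
level; all three are functions of the horizontal displacement `X` and of the height difference
`T ≥ 0`, odd in `X`, and the kernels are multiplied by the distance of `T` to the nearest multiple
of `h0`. -/

namespace Pool.Agent.Strip051.LC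

open Pool.Agent.StripNear Pool.Agent.StripSquare Pool.Agent.Strip051.Sweep
open Pool.Agent.Strip051.LC.Line (Qd D mn jn tau mn_shift D_add D_refl D_abs Qd_anti Qd_comm
  Qd_mirror Qd_abs NG ng_slack Node Two rx D_add_nat cr_rx ds_rx ds_symm)

/-! ### The flux of a kernel -/

/-- The flux of the kernel `R`; the heights are measured from the centre of a cell. -/
noncomputable def Qc (κ s : ℝ) (R : ℝ → ℝ → ℝ) (X y z : ℝ) : ℝ :=
  Qd R (D s κ) X (y + s / 2) (z + s / 2)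

variable {κ s : ℝ} {R : ℝ → ℝ → ℝ}

theorem Qc_anti (hR : ∀ X T, R (-X) T = -R X T) (X y z : ℝ) :
    Qc κ s R (-X) z y = -Qc κ s R X y z := Qd_anti hR _ _ _ _

theorem Qc_comm (X y z : ℝ) : Qc κ s R X z y = Qc κ s R X y z := Qd_comm _ _ _ _ _

theorem Qc_per (X y z : ℝ) : Qc κ s R X (y + h0) (z + h0) = Qc κ s R X y z := by
  unfold Qc Qd
  have e1 : z + h0 + s / 2 - (y + h0 + s / 2) = z + s / 2 - (y + s / 2) := by ring
  have e2 : min (y + h0 + s / 2) (z + h0 + s / 2) = min (y + s / 2) (z + s / 2) + h0 := by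
    rw [← min_add_add_right]
    congr 1 <;> ring
  have e3 : max (y + h0 + s / 2) (z + h0 + s / 2) - jn |z + s / 2 - (y + s / 2)| * h0 =
      max (y + s / 2) (z + s / 2) - jn |z + s / 2 - (y + s / 2)| * h0 + h0 := by
    rw [show y + h0 + s / 2 = y + s / 2 + h0 by ring, show z + h0 + s / 2 = z + s / 2 + h0 by ring,
      max_add_add_right]
    ring
  rw [e1, e2, e3, mn_shift (fun x => D_add s κ x)]

theorem Qc_mir (hs0 : 0 ≤ s) (hs1 : s < h0) (X y z : ℝ) :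
    Qc κ s R X (-y) (-z) = -Qc κ s R X y z := by
  unfold Qc
  rw [← Qd_mirror (D := D s κ) (H := s) (fun x => D_refl κ hs0 hs1 x)
    (fun x k => D_add_nat s κ x k)]
  congr 1 <;> ring

theorem Qc_abs {K : ℝ} (hκ : 0 ≤ κ) (hs0 : 0 ≤ s) (hs1 : s < h0)
    (hR : ∀ X T, |X| ≤ 2 → 0 ≤ T → |R X T| ≤ K) {X : ℝ} (hX : |X| ≤ 2) (y z : ℝ) :
    |Qc κ s R X y z| ≤ K * (κ * (s * (h0 - s) / (2 * h0))) :=
  Qd_abs hR (fun x => D_abs hs0 hs1 hκ x) hX _ _

/-! ### The tables -/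

/-- The tables. -/
structure Tab where
  /-- the kernel at the far vertex -/
  A : ℝ → ℝ → ℝ
  /-- the kernel at the near vertex -/
  B : ℝ → ℝ → ℝ
  /-- the coefficient of the level -/
  Xi : ℝ → ℝ → ℝ

/-- The tables are odd and bounded. -/
structure Tab.Ok (T : Tab) : Prop where
  oddA : ∀ X t, T.A (-X) t = -T.A X t
  oddB : ∀ X t, T.B (-X) t = -T.B X t
  oddX : ∀ X t, T.Xi (-X) t = -T.Xi X t
  bdd : ∃ K, ∀ X t, |X| ≤ 2 → 0 ≤ t → |T.A X t| ≤ K ∧ |T.B X t| ≤ K ∧ |T.Xi X t| ≤ K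

/-- The value of `μ` at the near vertex. -/
noncomputable def mu (N0 : ℕ) (s : ℝ) : ℝ := 1 / (N0 + 2 * g s)

/-- The three fluxes of the tables. -/
noncomputable def Tab.data (T : Tab) (N0 : ℕ) (κ s : ℝ) : Data where
  R0 X y z := Qc κ s T.A X y z
  R1 X y z := (Qc κ s T.B X y z - Qc κ s T.A X y z) / mu N0 s -
    (y + z) / (2 * h0) * T.Xi X |z - y|
  R2 X y z := T.Xi X |z - y|

theorem Tab.Ok.data {T : Tab} (hT : T.Ok) {N0 : ℕ} (hκ : 0 ≤ κ) (hs0 : 0 ≤ s) (hs1 : s < h0) :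
    (T.data N0 κ s).Ok := by
  have hh := h0_pos
  have e1 : ∀ y z : ℝ, |z + h0 - (y + h0)| = |z - y| := fun y z => by
    rw [show z + h0 - (y + h0) = z - y by ring]
  have e2 : ∀ y z : ℝ, |-z - -y| = |z - y| := fun y z => by
    rw [show -z - -y = -(z - y) by ring, abs_neg]
  refine ⟨?_, ?_, ?_, ?_, ?_, ?_, ?_, ?_, ?_, ?_⟩
  · intro X y z
    exact Qc_anti hT.oddA X y z
  · intro X y z
    simp only [Tab.data]
    rw [Qc_anti hT.oddA, Qc_anti hT.oddB, hT.oddX, abs_sub_comm y z]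
    ring
  · intro X y z
    simp only [Tab.data]
    rw [hT.oddX, abs_sub_comm y z]
  · intro X y z
    exact Qc_per X y z
  · intro X y z
    simp only [Tab.data]
    rw [Qc_per, Qc_per, e1]
    field_simp
    ring
  · intro X y z
    simp only [Tab.data]
    rw [e1]
  · intro X y z
    exact Qc_mir hs0 hs1 X y z
  · intro X y z
    simp only [Tab.data]
    rw [Qc_mir hs0 hs1, Qc_mir hs0 hs1, e2]
    ring
  · intro X y z
    simp only [Tab.data]
    rw [e2]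
  · intro M
    obtain ⟨K, hK⟩ := hT.bdd
    have hK0 : 0 ≤ K := (abs_nonneg _).trans (hK 0 0 (by simp) le_rfl).1
    set E := κ * (s * (h0 - s) / (2 * h0)) with hE
    have hE0 : 0 ≤ E := by
      have : 0 ≤ h0 - s := by linarith
      positivity
    refine ⟨K * E + (K * E + K * E) / |mu N0 s| + |M| / h0 * K + K, ?_⟩
    intro X y z hX hy hz
    have hA := Qc_abs hκ hs0 hs1 (fun X t hX ht => (hK X t hX ht).1) hX y z
    have hB := Qc_abs hκ hs0 hs1 (fun X t hX ht => (hK X t hX ht).2.1) hX y z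
    have hXi := (hK X |z - y| hX (abs_nonneg _)).2.2
    rw [← hE] at hA hB
    have p1 : 0 ≤ K * E := by positivity
    have p2 : 0 ≤ (K * E + K * E) / |mu N0 s| := by positivity
    have p3 : 0 ≤ |M| / h0 * K := by positivity
    refine ⟨by simp only [Tab.data]; linarith, ?_, by simp only [Tab.data]; linarith⟩
    simp only [Tab.data]
    have q1 : |(Qc κ s T.B X y z - Qc κ s T.A X y z) / mu N0 s| ≤
        (K * E + K * E) / |mu N0 s| := by
      rw [abs_div]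
      exact div_le_div_of_nonneg_right ((abs_sub _ _).trans (add_le_add hB hA)) (abs_nonneg _)
    have q2 : |(y + z) / (2 * h0) * T.Xi X (|z - y|)| ≤ |M| / h0 * K := by
      rw [abs_mul]
      refine mul_le_mul ?_ hXi (abs_nonneg _) (by positivity)
      rw [abs_div, abs_of_pos (by linarith : 0 < 2 * h0), div_le_div_iff₀ (by linarith) hh]
      have : |y + z| ≤ 2 * |M| := by
        have h1 : M ≤ |M| := le_abs_self M
        exact (abs_add_le _ _).trans (by linarith)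
      nlinarith
    exact (abs_sub _ _).trans (by linarith)

/-! ### Short and long edges -/

/-- Different data for the edges of length at most `√3` and for the longer ones. -/
noncomputable def Data.glue (S L : Data) : Data where
  R0 X y z := if X ^ 2 + (z - y) ^ 2 ≤ 3 then S.R0 X y z else L.R0 X y z
  R1 X y z := if X ^ 2 + (z - y) ^ 2 ≤ 3 then S.R1 X y z else L.R1 X y z
  R2 X y z := if X ^ 2 + (z - y) ^ 2 ≤ 3 then S.R2 X y z else L.R2 X y z

theorem Data.Ok.glue {S L : Data} (hS : S.Ok) (hL : L.Ok) : (S.glue L).Ok := by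
  have c1 : ∀ X y z : ℝ, (-X) ^ 2 + (y - z) ^ 2 = X ^ 2 + (z - y) ^ 2 := fun X y z => by ring
  have c2 : ∀ X y z : ℝ, X ^ 2 + (z + h0 - (y + h0)) ^ 2 = X ^ 2 + (z - y) ^ 2 := fun X y z => by
    ring
  have c3 : ∀ X y z : ℝ, X ^ 2 + (-z - -y) ^ 2 = X ^ 2 + (z - y) ^ 2 := fun X y z => by ring
  refine ⟨?_, ?_, ?_, ?_, ?_, ?_, ?_, ?_, ?_, ?_⟩
  · intro X y z
    simp only [Data.glue]
    rw [c1, hS.anti0, hL.anti0]
    split_ifs <;> rfl
  · intro X y z
    simp only [Data.glue]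
    rw [c1, hS.anti1, hL.anti1]
    split_ifs <;> rfl
  · intro X y z
    simp only [Data.glue]
    rw [c1, hS.anti2, hL.anti2]
    split_ifs <;> rfl
  · intro X y z
    simp only [Data.glue]
    rw [c2, hS.per0, hL.per0]
  · intro X y z
    simp only [Data.glue]
    rw [c2, hS.per1, hL.per1]
    split_ifs <;> rfl
  · intro X y z
    simp only [Data.glue]
    rw [c2, hS.per2, hL.per2]
  · intro X y z
    simp only [Data.glue]
    rw [c3, hS.mir0, hL.mir0]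
    split_ifs <;> rfl
  · intro X y z
    simp only [Data.glue]
    rw [c3, hS.mir1, hL.mir1]
    split_ifs <;> rfl
  · intro X y z
    simp only [Data.glue]
    rw [c3, hS.mir2, hL.mir2]
  · intro M
    obtain ⟨K1, h1⟩ := hS.bdd M
    obtain ⟨K2, h2⟩ := hL.bdd M
    refine ⟨max K1 K2, ?_⟩
    intro X y z hX hy hz
    obtain ⟨a1, a2, a3⟩ := h1 X y z hX hy hz
    obtain ⟨b1, b2, b3⟩ := h2 X y z hX hy hz
    simp only [Data.glue]
    have m1 := le_max_left K1 K2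
    have m2 := le_max_right K1 K2
    refine ⟨?_, ?_, ?_⟩ <;> split_ifs <;> linarith

theorem Data.glue_Q_short {S L : Data} {μ τ X y z : ℝ} (h : X ^ 2 + (z - y) ^ 2 ≤ 3) :
    (S.glue L).Q μ τ X y z = S.Q μ τ X y z := by
  unfold Data.Q Data.glue
  simp only [if_pos h]

theorem Data.glue_Q_long {S L : Data} {μ τ X y z : ℝ} (h : ¬ X ^ 2 + (z - y) ^ 2 ≤ 3) :
    (S.glue L).Q μ τ X y z = L.Q μ τ X y z := by
  unfold Data.Q Data.glue
  simp only [if_neg h]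

/-- For a triangle with short sides the long data do not matter. -/
theorem Data.glue_Tr {S L : Data} {μ τ : ℝ} {p q r : Pt} (h1 : ds p q ≤ 3) (h2 : ds q r ≤ 3)
    (h3 : ds p r ≤ 3) : (S.glue L).Tr μ τ p q r ↔ S.Tr μ τ p q r := by
  have e1 : ed ((S.glue L).Q μ τ) p q = ed (S.Q μ τ) p q := Data.glue_Q_short h1
  have e2 : ed ((S.glue L).Q μ τ) q r = ed (S.Q μ τ) q r := Data.glue_Q_short h2
  have e3 : ed ((S.glue L).Q μ τ) r p = ed (S.Q μ τ) r p := Data.glue_Q_short (by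
    unfold ds at h3
    linarith [(by ring : (p.1 - r.1) ^ 2 + (p.2 - r.2) ^ 2 = (r.1 - p.1) ^ 2 + (r.2 - p.2) ^ 2)])
  unfold Data.Tr fl
  rw [e1, e2, e3]

/-! ### The two vertices -/

/-- The flux at the far vertex. -/
theorem Tab.Q_far (T : Tab) (N0 : ℕ) (κ s X y z : ℝ) :
    (T.data N0 κ s).Q 0 (-(1 / 2)) X y z = Qc κ s T.A X y z + 1 / 2 * T.Xi X |z - y| := by
  unfold Data.Q Tab.data
  simp only
  ring

/-- The flux at the near vertex, `L` is the height of the lowest vertex. -/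
theorem Tab.Q_near (T : Tab) {N0 : ℕ} {κ s : ℝ} (hm : mu N0 s ≠ 0) (L X y z : ℝ) :
    (T.data N0 κ s).Q (mu N0 s) (-(mu N0 s * (N0 / 2 + (s / 2 + L) / h0))) X y z =
      Qc κ s T.B X y z +
        mu N0 s * ((N0 + s / h0) / 2 + (2 * L - (y + z)) / (2 * h0)) * T.Xi X |z - y| := by
  have hh := h0_pos
  unfold Data.Q Tab.data
  simp only
  field_simp
  ring

/-! ### Normal form -/

/-- A property which is invariant under rotations and the reflection in a vertical line follows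
for all triangles with two nodes from the normal form. -/
theorem nf_all {T : Pt → Pt → Pt → Prop} {Nd : ℝ → ℝ → Prop} (hrot : ∀ p q r, T q r p → T p q r)
    (hmir : ∀ p q r, T (rx p) (rx r) (rx q) → T p q r) (hNd : ∀ X t, Nd X t → Nd (-X) t)
    (hbase : ∀ p q r : Pt, p.2 ≤ q.2 → q.2 ≤ r.2 → 0 ≤ cr p q r → 1 ≤ ds p q → 1 ≤ ds q r →
      1 ≤ ds p r → ds p q ≤ 3 → ds q r ≤ 3 → ds p r ≤ 3 → Two Nd p q r → T p q r)
    {p q r : Pt} (h0c : 0 ≤ cr p q r) (a1 : 1 ≤ ds p q) (a2 : 1 ≤ ds q r) (a3 : 1 ≤ ds p r)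
    (b1 : ds p q ≤ 3) (b2 : ds q r ≤ 3) (b3 : ds p r ≤ 3) (hN : Two Nd p q r) : T p q r := by
  have hflip : ∀ a b : Pt, Node Nd (b.1 - a.1) a.2 b.2 → Node Nd (a.1 - b.1) b.2 a.2 := by
    intro a b h
    unfold Node at *
    rw [abs_sub_comm, show a.1 - b.1 = -(b.1 - a.1) by ring]
    exact hNd _ _ h
  -- the lowest vertex is the first one
  have low : ∀ p q r : Pt, p.2 ≤ q.2 → p.2 ≤ r.2 → 0 ≤ cr p q r → 1 ≤ ds p q → 1 ≤ ds q r →
      1 ≤ ds p r → ds p q ≤ 3 → ds q r ≤ 3 → ds p r ≤ 3 → Two Nd p q r → T p q r := by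
    intro p q r h1 h2 h0c a1 a2 a3 b1 b2 b3 hN
    rcases le_total q.2 r.2 with h3 | h3
    · exact hbase p q r h1 h3 h0c a1 a2 a3 b1 b2 b3 hN
    · apply hmir
      apply hbase (rx p) (rx r) (rx q) h2 h3
      · rw [cr_rx]
        have : cr p r q = -cr p q r := by
          unfold cr
          ring
        rw [this]
        linarith
      · rwa [ds_rx]
      · rwa [ds_rx, ds_symm]
      · rwa [ds_rx]
      · rwa [ds_rx]
      · rwa [ds_rx, ds_symm]
      · rwa [ds_rx]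
      · have hrx : ∀ a b : Pt, Node Nd (b.1 - a.1) a.2 b.2 →
            Node Nd ((rx b).1 - (rx a).1) (rx a).2 (rx b).2 := by
          intro a b h
          unfold Node rx at *
          simp only
          rw [show -b.1 - -a.1 = -(b.1 - a.1) by ring]
          exact hNd _ _ h
        unfold Two
        rcases hN with ⟨h4, h5⟩ | ⟨h4, h5⟩ | ⟨h4, h5⟩
        · exact Or.inr (Or.inr ⟨hrx _ _ (hflip _ _ h5), hrx _ _ h4⟩)
        · exact Or.inr (Or.inl ⟨hrx _ _ h5, hrx _ _ h4⟩)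
        · exact Or.inl ⟨hrx _ _ h5, hrx _ _ (hflip _ _ h4)⟩
  have hrt : ∀ p q r : Pt, Two Nd p q r → Two Nd q r p := by
    intro p q r h
    rcases h with ⟨h4, h5⟩ | ⟨h4, h5⟩ | ⟨h4, h5⟩
    · exact Or.inr (Or.inl ⟨h5, hflip _ _ h4⟩)
    · exact Or.inr (Or.inr ⟨hflip _ _ h5, hflip _ _ h4⟩)
    · exact Or.inl ⟨h4, hflip _ _ h5⟩
  have hcr : ∀ p q r : Pt, cr p q r = cr q r p := by
    intro p q r
    unfold cr
    ring
  rcases le_total p.2 q.2 with h1 | h1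
  · rcases le_total p.2 r.2 with h2 | h2
    · exact low p q r h1 h2 h0c a1 a2 a3 b1 b2 b3 hN
    · -- `r` is the lowest vertex
      apply hrot
      apply hrot
      exact low r p q h2 (h2.trans h1) (by rw [hcr]; exact h0c) (by rwa [ds_symm]) a1
        (by rwa [ds_symm]) (by rwa [ds_symm]) b1 (by rwa [ds_symm]) (hrt _ _ _ (hrt _ _ _ hN))
  · rcases le_total q.2 r.2 with h2 | h2
    · -- `q` is the lowest vertex
      apply hrot
      exact low q r p h2 h1 (by rw [← hcr]; exact h0c) a2 (by rwa [ds_symm]) (by rwa [ds_symm])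
        b2 (by rwa [ds_symm]) (by rwa [ds_symm]) (hrt _ _ _ hN)
    · apply hrot
      apply hrot
      exact low r p q (h2.trans h1) h2 (by rw [hcr]; exact h0c) (by rwa [ds_symm]) a1
        (by rwa [ds_symm]) (by rwa [ds_symm]) b1 (by rwa [ds_symm]) (hrt _ _ _ (hrt _ _ _ hN))

/-- A flux which is symmetric in the heights. -/
theorem Tr_mirror {Q : ℝ → ℝ → ℝ → ℝ} (hcomm : ∀ X y z, Q X z y = Q X y z) {p q r : Pt}
    (h : 1 / 2 ≤ cr (rx p) (rx r) (rx q) / (2 * h0) + fl Q (rx p) (rx r) (rx q)) :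
    1 / 2 ≤ cr p q r / (2 * h0) + fl Q p q r := by
  have e1 : cr (rx p) (rx r) (rx q) = cr p q r := by
    rw [cr_rx]
    unfold cr
    ring
  have e2 : ∀ a b : Pt, ed Q (rx a) (rx b) = ed Q b a := by
    intro a b
    unfold ed rx
    simp only
    rw [show -b.1 - -a.1 = a.1 - b.1 by ring]
    exact (hcomm _ _ _).symm
  have e3 : fl Q (rx p) (rx r) (rx q) = fl Q p q r := by
    unfold fl
    rw [e2, e2, e2]
    ring
  rwa [e1, e3] at h

/-- The excess of the triangle in normal form. -/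
noncomputable def exn (X12 X13 t t' : ℝ) : ℝ := (X12 * (t + t') - X13 * t) / (2 * h0) - 1 / 2

/-- The level term at the far vertex. -/
noncomputable def Tab.farX (T : Tab) (X12 X13 t t' : ℝ) : ℝ :=
  1 / 2 * (T.Xi X12 t + T.Xi (X13 - X12) t' - T.Xi X13 (t + t'))

/-- The level term at the near vertex. -/
noncomputable def Tab.nearX (T : Tab) (N0 : ℕ) (s X12 X13 t t' : ℝ) : ℝ :=
  mu N0 s * ((N0 + s / h0) / 2 * (T.Xi X12 t + T.Xi (X13 - X12) t' - T.Xi X13 (t + t')) -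
    (t * T.Xi X12 t + (2 * t + t') * T.Xi (X13 - X12) t' - (t + t') * T.Xi X13 (t + t')) / (2 * h0))

/-- The triangles in normal form with two nodes. -/
def Fams (Nd : ℝ → ℝ → Prop) (P : ℝ → ℝ → ℝ → ℝ → Prop) : Prop :=
  ∀ X12 X13 t t' : ℝ, 0 ≤ t → 0 ≤ t' → 0 ≤ X12 * (t + t') - X13 * t →
    1 ≤ X12 ^ 2 + t ^ 2 → X12 ^ 2 + t ^ 2 ≤ 3 →
    1 ≤ (X13 - X12) ^ 2 + t' ^ 2 → (X13 - X12) ^ 2 + t' ^ 2 ≤ 3 →
    1 ≤ X13 ^ 2 + (t + t') ^ 2 → X13 ^ 2 + (t + t') ^ 2 ≤ 3 →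
    (Nd X12 t ∧ Nd (X13 - X12) t' ∨ Nd X12 t ∧ Nd X13 (t + t') ∨
      Nd (X13 - X12) t' ∧ Nd X13 (t + t')) → P X12 X13 t t'

/-- The tables are piecewise affine in the displacement, with common nodes. -/
def Tab.Pieces (T : Tab) (Nd : ℝ → ℝ → Prop) : Prop :=
  ∀ X t : ℝ, 0 ≤ t → 1 ≤ X ^ 2 + t ^ 2 → X ^ 2 + t ^ 2 ≤ 3 →
    ∃ a b : ℝ, a ≤ X ∧ X ≤ b ∧ Nd a t ∧ Nd b t ∧
      (∀ u, a ≤ u → u ≤ b → 1 ≤ u ^ 2 + t ^ 2 ∧ u ^ 2 + t ^ 2 ≤ 3) ∧
      (∃ α β : ℝ, ∀ u, a ≤ u → u ≤ b → T.A u t = α * u + β) ∧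
      (∃ α β : ℝ, ∀ u, a ≤ u → u ≤ b → T.B u t = α * u + β) ∧
      (∃ α β : ℝ, ∀ u, a ≤ u → u ≤ b → T.Xi u t = α * u + β)

section

variable {T : Tab} {N0 : ℕ} {Nd : ℝ → ℝ → Prop}

/-- the geometry of the normal form -/
theorem nf_base (P : ℝ → ℝ → ℝ → ℝ → Prop) (hF : Fams Nd P) {p q r : Pt} (h1 : p.2 ≤ q.2)
    (h2 : q.2 ≤ r.2) (h0c : 0 ≤ cr p q r)
    (a1 : 1 ≤ ds p q) (a2 : 1 ≤ ds q r) (a3 : 1 ≤ ds p r) (b1 : ds p q ≤ 3) (b2 : ds q r ≤ 3)
    (b3 : ds p r ≤ 3) (hN : Two Nd p q r) :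
    P (q.1 - p.1) (r.1 - p.1) (q.2 - p.2) (r.2 - q.2) ∧ r.2 - p.2 ≤ 2 * h0 := by
  have hh := h0_sq
  have hp := h0_pos
  unfold ds at a1 a2 a3 b1 b2 b3
  have e12 : |q.2 - p.2| = q.2 - p.2 := abs_of_nonneg (by linarith)
  have e23 : |r.2 - q.2| = r.2 - q.2 := abs_of_nonneg (by linarith)
  have e13 : |r.2 - p.2| = r.2 - p.2 := abs_of_nonneg (by linarith)
  unfold Two Node at hN
  rw [e12, e23, e13] at hN
  refine ⟨hF _ _ _ _ (by linarith) (by linarith)
      (by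
        unfold cr at h0c
        nlinarith)
      (by nlinarith) (by nlinarith) (by nlinarith) (by nlinarith) (by nlinarith) (by nlinarith)
      (by
        rw [show r.1 - p.1 - (q.1 - p.1) = r.1 - q.1 by ring,
          show q.2 - p.2 + (r.2 - q.2) = r.2 - p.2 by ring]
        exact hN), by nlinarith⟩

/-- **The far vertex**: triangles with short sides. -/
theorem far_tri (hκ : 0 ≤ κ) (hs0 : 0 ≤ s) (hs1 : s < h0) (hT : T.Ok)
    (hNd : ∀ X t, Nd X t → Nd (-X) t) (hP : T.Pieces Nd)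
    (hF : Fams Nd (fun X12 X13 t t' =>
      NG κ s (exn X12 X13 t t' + T.farX X12 X13 t t') T.A X12 X13 t t')) :
    ∀ p q r : Pt, 0 ≤ cr p q r → 1 ≤ ds p q → 1 ≤ ds q r → 1 ≤ ds p r → ds p q ≤ 3 →
      ds q r ≤ 3 → ds p r ≤ 3 → (T.data N0 κ s).Tr 0 (-(1 / 2)) p q r := by
  have hcomm : ∀ X y z, (T.data N0 κ s).Q 0 (-(1 / 2)) X z y =
      (T.data N0 κ s).Q 0 (-(1 / 2)) X y z := by
    intro X y z
    rw [Tab.Q_far, Tab.Q_far, Qc_comm, abs_sub_comm]
  apply bulk_tri_of_corners (N := Node Nd)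
  · intro X y z h1 h2
    obtain ⟨a, b, h3, h4, h5, h6, h7, ⟨α, β, h8⟩, -, ⟨γ, δ, h9⟩⟩ := hP X |z - y| (abs_nonneg _)
      (by rwa [sq_abs]) (by rwa [sq_abs])
    have e : |z + s / 2 - (y + s / 2)| = |z - y| := by
      rw [show z + s / 2 - (y + s / 2) = z - y by ring]
    refine ⟨a, b, h3, h4, h5, h6, ?_, α * mn (D s κ) (min (y + s / 2) (z + s / 2))
      (max (y + s / 2) (z + s / 2) - jn |z - y| * h0) + 1 / 2 * γ,
      β * mn (D s κ) (min (y + s / 2) (z + s / 2))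
      (max (y + s / 2) (z + s / 2) - jn |z - y| * h0) + 1 / 2 * δ, ?_⟩
    · intro u h9 h10
      have := h7 u h9 h10
      rwa [sq_abs] at this
    · intro u k1 k2
      rw [Tab.Q_far]
      unfold Qc Qd
      rw [e, h8 u k1 k2, h9 u k1 k2]
      ring
  · intro p q r h0c a1 a2 a3 b1 b2 b3 n1 n2
    refine nf_all (T := fun p q r => (T.data N0 κ s).Tr 0 (-(1 / 2)) p q r) (Nd := Nd)
      (fun _ _ _ h => h.rot) (fun _ _ _ h => Tr_mirror hcomm h) hNd ?_ h0c a1 a2 a3 b1 b2 b3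
      (Or.inl ⟨n1, n2⟩)
    intro p q r h1 h2 h0c a1 a2 a3 b1 b2 b3 hN
    obtain ⟨hn, hle⟩ := nf_base _ hF h1 h2 h0c a1 a2 a3 b1 b2 b3 hN
    have key := ng_slack hκ hs0 hs1 (by linarith : (0 : ℝ) ≤ q.2 - p.2)
      (by linarith : (0 : ℝ) ≤ r.2 - q.2) (by linarith) hn (p.2 + s / 2)
    have e12 : |q.2 - p.2| = q.2 - p.2 := abs_of_nonneg (by linarith)
    have e23 : |r.2 - q.2| = r.2 - q.2 := abs_of_nonneg (by linarith)
    have e13 : |p.2 - r.2| = r.2 - p.2 := by rw [abs_sub_comm]; exact abs_of_nonneg (by linarith)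
    rw [show p.2 + s / 2 + (q.2 - p.2) = q.2 + s / 2 by ring,
      show q.2 + s / 2 + (r.2 - q.2) = r.2 + s / 2 by ring,
      show p.2 + s / 2 + (q.2 - p.2 + (r.2 - q.2)) = r.2 + s / 2 by ring,
      show r.1 - p.1 - (q.1 - p.1) = r.1 - q.1 by ring] at key
    unfold Data.Tr fl ed
    rw [Tab.Q_far, Tab.Q_far, Tab.Q_far, e12, e23, e13]
    have o1 : Qc κ s T.A (p.1 - r.1) r.2 p.2 = -Qc κ s T.A (r.1 - p.1) p.2 r.2 := by
      rw [← Qc_anti hT.oddA]
      congr 1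
      ring
    have o2 : T.Xi (p.1 - r.1) (r.2 - p.2) = -T.Xi (r.1 - p.1) (r.2 - p.2) := by
      rw [← hT.oddX]
      congr 1
      ring
    rw [o1, o2]
    unfold exn Tab.farX at key
    have e' : cr p q r = (q.1 - p.1) * (q.2 - p.2 + (r.2 - q.2)) - (r.1 - p.1) * (q.2 - p.2) := by
      unfold cr
      ring
    have o3 : q.2 - p.2 + (r.2 - q.2) = r.2 - p.2 := by ring
    rw [show r.1 - p.1 - (q.1 - p.1) = r.1 - q.1 by ring, o3] at key
    rw [e', o3]
    unfold Qc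
    linarith

/-- **The near vertex**: triangles with short sides. -/
theorem near_tri (hκ : 0 ≤ κ) (hs0 : 0 ≤ s) (hs1 : s < h0) (hm : mu N0 s ≠ 0) (hT : T.Ok)
    (hNd : ∀ X t, Nd X t → Nd (-X) t) (hP : T.Pieces Nd)
    (hF : Fams Nd (fun X12 X13 t t' =>
      NG κ s (exn X12 X13 t t' + T.nearX N0 s X12 X13 t t') T.B X12 X13 t t')) :
    ∀ p q r : Pt, 0 ≤ cr p q r → 1 ≤ ds p q → 1 ≤ ds q r → 1 ≤ ds p r → ds p q ≤ 3 →
      ds q r ≤ 3 → ds p r ≤ 3 → NearTr (T.data N0 κ s) N0 s p q r := by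
  intro p q r h0c a1 a2 a3 b1 b2 b3
  set L := lowest p.2 q.2 r.2 with hL
  have hcomm : ∀ X y z, (T.data N0 κ s).Q (mu N0 s)
      (-(mu N0 s * (N0 / 2 + (s / 2 + L) / h0))) X z y =
      (T.data N0 κ s).Q (mu N0 s) (-(mu N0 s * (N0 / 2 + (s / 2 + L) / h0))) X y z := by
    intro X y z
    rw [Tab.Q_near _ hm, Tab.Q_near _ hm, Qc_comm, abs_sub_comm, add_comm z y]
  refine bulk_tri_of_corners' (N := Node Nd) (Φ := fun a b c => lowest a b c = L)
    (Q := (T.data N0 κ s).Q (mu N0 s) (-(mu N0 s * (N0 / 2 + (s / 2 + L) / h0))))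
    (fun a b c h => by rw [lowest_rot]; exact h) ?_ ?_ p q r h0c a1 a2 a3 b1 b2 b3 rfl
  · intro X y z h1 h2
    obtain ⟨a, b, h3, h4, h5, h6, h7, -, ⟨α, β, h8⟩, ⟨γ, δ, h9⟩⟩ := hP X |z - y| (abs_nonneg _)
      (by rwa [sq_abs]) (by rwa [sq_abs])
    have e : |z + s / 2 - (y + s / 2)| = |z - y| := by
      rw [show z + s / 2 - (y + s / 2) = z - y by ring]
    refine ⟨a, b, h3, h4, h5, h6, ?_, α * mn (D s κ) (min (y + s / 2) (z + s / 2))
      (max (y + s / 2) (z + s / 2) - jn |z - y| * h0) +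
        mu N0 s * ((N0 + s / h0) / 2 + (2 * L - (y + z)) / (2 * h0)) * γ,
      β * mn (D s κ) (min (y + s / 2) (z + s / 2))
      (max (y + s / 2) (z + s / 2) - jn |z - y| * h0) +
        mu N0 s * ((N0 + s / h0) / 2 + (2 * L - (y + z)) / (2 * h0)) * δ, ?_⟩
    · intro u h9 h10
      have := h7 u h9 h10
      rwa [sq_abs] at this
    · intro u k1 k2
      rw [Tab.Q_near _ hm]
      unfold Qc Qd
      rw [e, h8 u k1 k2, h9 u k1 k2]
      ring
  clear a1 a2 a3 b1 b2 b3 h0c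
  intro p q r h0c a1 a2 a3 b1 b2 b3 n1 n2 hlow
  refine nf_all (T := fun p q r => lowest p.2 q.2 r.2 = L →
    (T.data N0 κ s).Tr (mu N0 s) (-(mu N0 s * (N0 / 2 + (s / 2 + L) / h0))) p q r) (Nd := Nd)
    (fun p q r h hl => (h (by rw [lowest_rot]; exact hl)).rot)
    (fun p q r h hl => Tr_mirror hcomm (h (by
      have : lowest (rx p).2 (rx r).2 (rx q).2 = lowest p.2 q.2 r.2 := by
        unfold rx lowest
        simp only
        rw [min_comm r.2 q.2]
      rw [this]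
      exact hl))) hNd ?_ h0c a1 a2 a3 b1 b2 b3 (Or.inl ⟨n1, n2⟩) hlow
  intro p q r h1 h2 h0c a1 a2 a3 b1 b2 b3 hN hl
  have hp : lowest p.2 q.2 r.2 = p.2 := by
    unfold lowest
    exact min_eq_left (le_min h1 (h1.trans h2))
  have hLp : L = p.2 := by rw [← hl, hp]
  obtain ⟨hn, hle⟩ := nf_base _ hF h1 h2 h0c a1 a2 a3 b1 b2 b3 hN
  have key := ng_slack hκ hs0 hs1 (by linarith : (0 : ℝ) ≤ q.2 - p.2)
    (by linarith : (0 : ℝ) ≤ r.2 - q.2) (by linarith) hn (p.2 + s / 2)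
  have e12 : |q.2 - p.2| = q.2 - p.2 := abs_of_nonneg (by linarith)
  have e23 : |r.2 - q.2| = r.2 - q.2 := abs_of_nonneg (by linarith)
  have e13 : |p.2 - r.2| = r.2 - p.2 := by rw [abs_sub_comm]; exact abs_of_nonneg (by linarith)
  rw [show p.2 + s / 2 + (q.2 - p.2) = q.2 + s / 2 by ring,
    show q.2 + s / 2 + (r.2 - q.2) = r.2 + s / 2 by ring,
    show p.2 + s / 2 + (q.2 - p.2 + (r.2 - q.2)) = r.2 + s / 2 by ring,
    show r.1 - p.1 - (q.1 - p.1) = r.1 - q.1 by ring] at key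
  unfold Data.Tr fl ed
  rw [Tab.Q_near _ hm, Tab.Q_near _ hm, Tab.Q_near _ hm, e12, e23, e13, hLp]
  have o1 : Qc κ s T.B (p.1 - r.1) r.2 p.2 = -Qc κ s T.B (r.1 - p.1) p.2 r.2 := by
    rw [← Qc_anti hT.oddB]
    congr 1
    ring
  have o2 : T.Xi (p.1 - r.1) (r.2 - p.2) = -T.Xi (r.1 - p.1) (r.2 - p.2) := by
    rw [← hT.oddX]
    congr 1
    ring
  rw [o1, o2]
  unfold exn Tab.nearX at key
  have e' : cr p q r = (q.1 - p.1) * (q.2 - p.2 + (r.2 - q.2)) - (r.1 - p.1) * (q.2 - p.2) := by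
    unfold cr
    ring
  have o3 : q.2 - p.2 + (r.2 - q.2) = r.2 - p.2 := by ring
  rw [show r.1 - p.1 - (q.1 - p.1) = r.1 - q.1 by ring, o3] at key
  rw [e', o3]
  unfold Qc
  have k1 : mu N0 s * ((N0 + s / h0) / 2 + (2 * p.2 - (p.2 + q.2)) / (2 * h0)) =
      mu N0 s * ((N0 + s / h0) / 2) - mu N0 s * ((q.2 - p.2) / (2 * h0)) := by ring
  have k2 : mu N0 s * ((N0 + s / h0) / 2 + (2 * p.2 - (q.2 + r.2)) / (2 * h0)) =
      mu N0 s * ((N0 + s / h0) / 2) -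
        mu N0 s * ((2 * (q.2 - p.2) + (r.2 - q.2)) / (2 * h0)) := by ring
  have k3 : mu N0 s * ((N0 + s / h0) / 2 + (2 * p.2 - (r.2 + p.2)) / (2 * h0)) =
      mu N0 s * ((N0 + s / h0) / 2) - mu N0 s * ((r.2 - p.2) / (2 * h0)) := by ring
  rw [k1, k2, k3]
  refine le_trans (by norm_num : (1 / 2 : ℝ) ≤ 0 + 1 / 2) (le_trans (add_le_add_left key _) ?_)
  apply le_of_eq
  ring

end

end Pool.Agent.Strip051.LC
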