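import Pool.Agent.Strip051.LC.Exact.FixLev
import Pool.Agent.Strip051.LC.Exact.FamR
import Pool.Agent.Strip051.LC.Half.Main

/-! # The certificate from tables on node curves

`CertX` lists the facts about the tables `vA`, `vB`, `vX` on a system of node curves: bounds, the
closed form of `vA` on the unit circle and the explicit family statements.  `CertX.fixLev` is the
certificate for the small triangles. -/

namespace Pool.Agent.Strip051.LC

open Pool.Agent.StripNear Pool.Agent.StripSquare Pool.Agent.Strip051.Sweep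
open Pool.Agent.Strip051.LC.Half (UnitKer unitKer_of rhomb_we)
open Pool.Agent.Strip051.LC.Line (A1u)

/-- The facts about the tables. -/
structure CertX {m : ℕ} {ι : Type} (K : Cur m ι) (vA vB vX : ℝ → ι → ℝ) (N0 : ℕ)
    (a κ s c : ℝ) : Prop where
  two : 2 ≤ N0
  a0 : 0 ≤ a
  κ0 : 0 ≤ κ
  c0 : 0 ≤ c
  s0 : 0 < s
  s1 : s < h0
  /-- the first curve is the unit circle -/
  first : ∀ T, 0 ≤ T → T < 1 → K.dm 0 T ∧ K.cv 0 T = c1 T
  admA : K.adm vA
  admB : K.adm vB
  admX : K.adm vX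
  bdd : ∃ C, ∀ T i, 0 ≤ T → T ^ 2 ≤ 3 → |vA T i| ≤ C ∧ |vB T i| ≤ C ∧ |vX T i| ≤ C
  unit : ∀ T, 0 ≤ T → T < 1 → vA T (K.tg 0) = c * A1u T
  amp : c * κ * (s * (h0 - s)) ≤ 2 * h0 * we s
  farA : ∀ j k, j ≤ k → K.AllA (farS κ s vA vX) j k
  farB : ∀ j k, K.AllB (farS κ s vA vX) j k
  nearA : ∀ j k, j ≤ k → K.AllA (nearL a N0 κ s vB vX) j k
  nearB : ∀ j k, K.AllB (nearL a N0 κ s vB vX) j k

section

variable {m : ℕ} {ι : Type} {K : Cur m ι} {vA vB vX : ℝ → ι → ℝ} {N0 : ℕ} {a κ s c : ℝ}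

/-- The kernel on the unit circle. -/
theorem CertX.unitKer (h : CertX K vA vB vX N0 a κ s c) :
    UnitKer (ker K.nodes vA fun _ _ => 0) c := by
  refine unitKer_of (ker_odd K.isNodes fun _ => rfl) ?_
  intro X T hX hT h1
  have hT1 : T < 1 := by nlinarith
  obtain ⟨d1, d2⟩ := h.first T hT hT1
  have e : X = K.cv 0 T := by
    rw [d2]
    have := c1_sq hT hT1.le
    have h0 := c1_nonneg T
    nlinarith
  have := K.val vA h.admA 0 T hT d1
  rw [← e] at this
  rw [this, h.unit T hT hT1]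

theorem CertX.ok (h : CertX K vA vB vX N0 a κ s c) : (tab K.nodes vA vB vX).Ok := by
  obtain ⟨C, hC⟩ := h.bdd
  have hC0 : 0 ≤ C := (abs_nonneg _).trans (hC 0 (K.tg 0) le_rfl (by norm_num)).1
  exact tab_ok K.isNodes hC0 fun t ht h3 p _ => hC t p.2 ht h3

/-- **The certificate for the small triangles.** -/
theorem CertX.fixLev (h : CertX K vA vB vX N0 a κ s c) :
    FixLev (tab K.nodes vA vB vX) (NodeAt K.nodes) N0 a κ s where
  two := h.two
  a0 := h.a0
  κ0 := h.κ0
  s0 := h.s0.le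
  s1 := h.s1
  ok := h.ok
  even := nodeAt_even
  pieces := tab_pieces K.isNodes vA vB vX
  far := far_sym K h.admA h.admX h.farA h.farB
  near := near_level K h.admB h.admX h.nearA h.nearB
  rhomb := rhomb_we h.unitKer h.s0 h.s1 h.c0 h.κ0 h.amp

end

end Pool.Agent.Strip051.LC
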