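import Pool.Agent.Strip051.LC.Exact.Main

/-! # The exact weight: the three classes of triangles

All sides at most `√3`; a side in `[√3, 2]` and no obtuse angle; a side in `[√3, 2]` and an obtuse
angle (then the apex `b` of the isosceles triangle with unit sides on the other side of the long
side is at least one away from the third vertex). -/

namespace Pool.Agent.Strip051.LC

open Pool.Agent.StripNear Pool.Agent.StripSquare Pool.Agent.Strip051.Sweep

/-- The height condition: all points above the floor, the lowest one at distance at most `h0`. -/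
def Ph (s y1 y2 y3 : ℝ) : Prop :=
  (-(s / 2) ≤ y1 ∧ -(s / 2) ≤ y2 ∧ -(s / 2) ≤ y3) ∧
  (y1 ≤ h0 - s / 2 ∨ y2 ≤ h0 - s / 2 ∨ y3 ≤ h0 - s / 2)

theorem Ph.rot {s y1 y2 y3 : ℝ} (h : Ph s y1 y2 y3) : Ph s y2 y3 y1 := by
  unfold Ph at *
  tauto

/-- A property of triangles for the three classes. -/
structure Classes (T : Pt → Pt → Pt → Prop) : Prop where
  rot : ∀ p q r, T q r p → T p q r
  tri : ∀ p q r, 0 ≤ cr p q r → 1 ≤ ds p q → 1 ≤ ds q r → 1 ≤ ds p r →
    ds p q ≤ 3 → ds q r ≤ 3 → ds p r ≤ 3 → T p q r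
  acute : ∀ p q r, 0 ≤ cr p q r → 1 ≤ ds p r → 1 ≤ ds q r → 3 ≤ ds p q →
    ds p q ≤ 4 → ds p r ≤ ds p q → ds q r ≤ ds p q → ds p q ≤ ds p r + ds q r → T p q r
  obt : ∀ p q r b, 0 ≤ cr p q r → 1 ≤ ds p r → 1 ≤ ds q r → 3 ≤ ds p q →
    ds p q ≤ 4 → ds p r + ds q r ≤ ds p q → ds p b = 1 → ds q b = 1 → 0 ≤ cr q p b →
    1 ≤ ds b r → ds b r ≤ 3 → 0 ≤ cr b q r → 0 ≤ cr p b r → T p q r

/-- The geometry of an obtuse triangle with a long side. -/
theorem obtuse_apex {p q r o : Pt} {R : ℝ} (h1 : 1 ≤ ds p r)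
    (h2 : 1 ≤ ds q r) (h3 : 3 ≤ ds p q) (h4 : ds p q ≤ 4) (h7 : ds p r + ds q r ≤ ds p q)
    (hop : ds p o = R) (hoq : ds q o = R) (hor : ds r o = R) (hR : R ≤ 1)
    (hcr : 0 ≤ cr p q r) : ∃ b, ds p b = 1 ∧ ds q b = 1 ∧ 0 ≤ cr q p b ∧ 1 ≤ ds b r ∧
      ds b r ≤ 3 ∧ 0 ≤ cr b q r ∧ 0 ≤ cr p b r := by
  have h0 : 0 < ds p q := by linarith
  obtain ⟨b, ρ, hρ, hρ2, hw1, hw2⟩ := exists_apex h3 h4
  have hds : ds p q = (q.1 - p.1) ^ 2 + (q.2 - p.2) ^ 2 := rfl
  have hb1 : b.1 = p.1 + ((q.1 - p.1) / 2 + ρ * (q.2 - p.2)) := by linarith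
  have hb2 : b.2 = p.2 + ((q.2 - p.2) / 2 - ρ * (q.1 - p.1)) := by linarith
  have hpb : ds p b = 1 := by
    have e : ds p b = ds p q / 4 + ρ ^ 2 * ds p q := by
      rw [hds]
      unfold ds
      rw [hw1, hw2]
      ring
    rw [e]
    linarith
  have hqb : ds q b = 1 := by
    have e : ds q b = ds p q / 4 + ρ ^ 2 * ds p q := by
      rw [hds]
      unfold ds
      rw [hb1, hb2]
      ring
    rw [e]
    linarith
  have hdv : (q.1 - p.1) * (r.1 - p.1) + (q.2 - p.2) * (r.2 - p.2) =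
      (ds p r + ds p q - ds q r) / 2 := by
    unfold ds
    ring
  have hbr : ds b r = 1 - (ds p q - ds p r - ds q r) / 2 + 2 * ρ * cr p q r := by
    have e1 : ds b r = ds p r + ds p b - 2 * ((r.1 - p.1) * (b.1 - p.1) +
        (r.2 - p.2) * (b.2 - p.2)) := by
      unfold ds
      ring
    have e2 : (r.1 - p.1) * (b.1 - p.1) + (r.2 - p.2) * (b.2 - p.2) =
        ((q.1 - p.1) * (r.1 - p.1) + (q.2 - p.2) * (r.2 - p.2)) / 2 - ρ * cr p q r := by
      rw [hw1, hw2]
      unfold cr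
      ring
    rw [e1, e2, hdv, hpb]
    ring
  -- the circumcentre
  have hv : (q.1 - p.1) * (o.1 - p.1) + (q.2 - p.2) * (o.2 - p.2) = ds p q / 2 := by
    have : ds p o - ds q o = 0 := by rw [hop, hoq]; ring
    unfold ds at this ⊢
    linarith
  have ha : 2 * ((r.1 - p.1) * (o.1 - p.1) + (r.2 - p.2) * (o.2 - p.2)) = ds p r := by
    have : ds p o - ds r o = 0 := by rw [hop, hor]; ring
    unfold ds at this ⊢
    linarith
  have hbr1 : 1 ≤ ds b r := by
    set K : ℝ := (q.1 - p.1) * (o.2 - p.2) - (q.2 - p.2) * (o.1 - p.1) with hK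
    have k1 : K ^ 2 = ds p q * R - (ds p q / 2) ^ 2 := by
      rw [← hv, ← hop, hK]
      unfold ds
      ring
    have k2 : K ^ 2 ≤ (ρ * ds p q) ^ 2 := by
      rw [k1]
      nlinarith
    have k3 : -(ρ * ds p q) ≤ K := by
      have := abs_le_of_sq_le_sq k2 (mul_nonneg hρ h0.le)
      exact (abs_le.1 this).1
    have k4 : ds p q * (ds p r + ds q r - ds p q) = 4 * K * cr p q r := by
      have e1 : ds p q * ((r.1 - p.1) * (o.1 - p.1) + (r.2 - p.2) * (o.2 - p.2)) =
          ((q.1 - p.1) * (r.1 - p.1) + (q.2 - p.2) * (r.2 - p.2)) *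
          ((q.1 - p.1) * (o.1 - p.1) + (q.2 - p.2) * (o.2 - p.2)) + K * cr p q r := by
        rw [hK]
        unfold ds cr
        ring
      rw [hv, hdv] at e1
      linear_combination 4 * e1 - 2 * ds p q * ha
    have k5 : 0 ≤ ds p q * (ds b r - 1) := by
      have e2 : ds p q * (ds b r - 1) = 2 * (K + ρ * ds p q) * cr p q r := by
        rw [hbr]
        linear_combination (1 / 2 : ℝ) * k4
      rw [e2]
      have k6 : 0 ≤ K + ρ * ds p q := by linarith
      positivity
    have k7 := nonneg_of_mul_nonneg_right k5 h0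
    linarith
  have hbr3 : ds b r ≤ 3 := by
    have k1 : (ρ * cr p q r) ^ 2 ≤ 1 := by
      have e1 : cr p q r ^ 2 ≤ ds p r * ds p q := by
        rw [cr_sq]
        nlinarith [sq_nonneg ((ds p r + ds p q - ds q r) / 2)]
      have e2 : (ρ * cr p q r) ^ 2 ≤ ρ ^ 2 * (ds p r * ds p q) := by
        rw [mul_pow]
        exact mul_le_mul_of_nonneg_left e1 (sq_nonneg ρ)
      have e3 : ρ ^ 2 * (ds p r * ds p q) = ds p r * (1 - ds p q / 4) := by
        rw [← hρ2]
        ring
      rw [e3] at e2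
      nlinarith
    have k2 : ρ * cr p q r ≤ 1 := by nlinarith
    rw [hbr]
    linarith
  have e4 : cr p b r = cr p q r / 2 + ρ * ((ds p r + ds p q - ds q r) / 2) := by
    rw [← hdv]
    unfold cr
    rw [hb1, hb2]
    ring
  have e5 : cr b q r = cr p q r / 2 + ρ * (ds p q - (ds p r + ds p q - ds q r) / 2) := by
    rw [← hdv, hds]
    unfold cr
    rw [hb1, hb2]
    ring
  have p1 : 0 ≤ cr p b r := by
    rw [e4]
    have : 0 ≤ ρ * ((ds p r + ds p q - ds q r) / 2) := mul_nonneg hρ (by linarith)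
    linarith
  have p3 : 0 ≤ cr b q r := by
    rw [e5]
    have : 0 ≤ ρ * (ds p q - (ds p r + ds p q - ds q r) / 2) := mul_nonneg hρ (by linarith)
    linarith
  have e6 : cr q p b = ρ * ds p q := by
    rw [hds]
    unfold cr
    rw [hb1, hb2]
    ring
  exact ⟨b, hpb, hqb, by rw [e6]; positivity, hbr1, hbr3, p3, p1⟩

/-- From the three classes to all cells. -/
theorem Classes.good {T : Pt → Pt → Pt → Prop} (hC : Classes T) {p q r o : Pt} {R : ℝ}
    (h : Cell p q r o R) : T p q r := by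
  obtain ⟨hcr, h1, h2, h3, hop, hoq, hor, hR⟩ := h
  have diam : ∀ a b : Pt, ds a o = R → ds b o = R → ds a b ≤ 4 := by
    intro a b ha hb
    have e : ds a b ≤ 2 * ds a o + 2 * ds b o := by
      unfold ds
      nlinarith [sq_nonneg ((o.1 - a.1) + (o.1 - b.1)), sq_nonneg ((o.2 - a.2) + (o.2 - b.2))]
    rw [ha, hb] at e
    linarith
  have key : ∀ p q r : Pt, 0 ≤ cr p q r → 1 ≤ ds q r → 1 ≤ ds p r → ds p o = R →
      ds q o = R → ds r o = R → 1 ≤ ds p q → ds q r ≤ ds p q → ds p r ≤ ds p q → T p q r := by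
    intro p q r k0 k1 k2 k3 k4 k5 kpq k6 k7
    have k8 := diam p q k3 k4
    rcases le_total (ds p q) 3 with c | c
    · exact hC.tri p q r k0 kpq k1 k2 c (by linarith) (by linarith)
    rcases le_total (ds p q) (ds p r + ds q r) with c' | c'
    · exact hC.acute p q r k0 k2 k1 c k8 k7 k6 c'
    · obtain ⟨b, b1, b2, b3, b4, b5, b6, b7⟩ := obtuse_apex k2 k1 c k8 c' k3 k4 k5 hR k0
      exact hC.obt p q r b k0 k2 k1 c k8 c' b1 b2 b3 b4 b5 b6 b7
  rcases le_total (ds q r) (ds p q) with a | a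
  · rcases le_total (ds p r) (ds p q) with b | b
    · exact key p q r hcr h2 h3 hop hoq hor h1 a b
    · have := key r p q (by rw [← cr_rot]; exact hcr) h1
        (by rw [ds_comm]; exact h2) hor hop hoq (by rw [ds_comm]; exact h3)
        (by rw [ds_comm r p]; exact b) (by rw [ds_comm r q, ds_comm r p]; linarith)
      exact hC.rot _ _ _ (hC.rot _ _ _ this)
  · rcases le_total (ds p r) (ds q r) with b | b
    · exact hC.rot _ _ _ (key q r p (by rw [cr_rot]; exact hcr) (by rw [ds_comm]; exact h3)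
        (by rw [ds_comm]; exact h1) hoq hor hop h2
        (by rw [ds_comm r p]; exact b) (by rw [ds_comm q p]; exact a))
    · have := key r p q (by rw [← cr_rot]; exact hcr) h1
        (by rw [ds_comm]; exact h2) hor hop hoq (by rw [ds_comm]; exact h3)
        (by rw [ds_comm r p]; linarith) (by rw [ds_comm r q, ds_comm r p]; exact b)
      exact hC.rot _ _ _ (hC.rot _ _ _ this)

/-- The level of the lowest of three heights. -/
noncomputable def lowest (y1 y2 y3 : ℝ) : ℝ := min y1 (min y2 y3)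

theorem lowest_rot (y1 y2 y3 : ℝ) : lowest y2 y3 y1 = lowest y1 y2 y3 := by
  unfold lowest
  rw [← min_assoc, min_comm]

/-- The triangle inequality at the near vertex, the level is moved to the floor. -/
def NearTr (D : Data) (N0 : ℕ) (s : ℝ) (p q r : Pt) : Prop :=
  D.Tr (1 / (N0 + 2 * g s))
    (-(1 / (N0 + 2 * g s) * (N0 / 2 + (s / 2 + lowest p.2 q.2 r.2) / h0))) p q r

theorem NearTr.rot {D : Data} {N0 : ℕ} {s : ℝ} {p q r : Pt} (h : NearTr D N0 s q r p) :
    NearTr D N0 s p q r := by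
  unfold NearTr at *
  rw [lowest_rot] at h
  exact h.rot

/-- The phase-free vertices from the classes. -/
theorem free_of_classes {D : Data} {N0 : ℕ} {s : ℝ} (h0 : Classes (D.Tr 0 (-(1 / 2))))
    (h1 : Classes (NearTr D N0 s)) : Free D N0 s := by
  refine ⟨fun p q r o R hc _ _ => h0.good hc, fun p q r o R hc hpq hpr => ?_⟩
  have := h1.good hc
  unfold NearTr at this
  have e : lowest p.2 q.2 r.2 = p.2 := by
    unfold lowest
    exact min_eq_left (le_min hpq hpr)
  rw [e] at this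
  exact this

/-- The vertices from the classes. -/
theorem verts_of_classes {D : Data} {N0 : ℕ} {s : ℝ}
    (h0 : Classes (fun p q r => Ph s p.2 q.2 r.2 → D.Tr 0 (-(1 / 2)) p q r))
    (h1 : Classes (fun p q r => Ph s p.2 q.2 r.2 →
      D.Tr (1 / (N0 + 2 * g s)) (-(1 / (N0 + 2 * g s) * (N0 / 2))) p q r)) :
    Verts D N0 s :=
  ⟨fun p q r o R hc hpq hpr hp1 hp2 => h0.good hc ⟨⟨hp1, by linarith, by linarith⟩, Or.inl hp2⟩,
    fun p q r o R hc hpq hpr hp1 hp2 => h1.good hc
      ⟨⟨hp1, by linarith, by linarith⟩, Or.inl hp2⟩⟩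

/-- If the reversed isosceles inequality holds, the obtuse class follows from the small triangles
with one unit side. -/
theorem obt_of_half {D : Data} (hD : D.Ok) {μ τ : ℝ} {p q r b : Pt}
    (g1 : D.Tr μ τ b q r) (g2 : D.Tr μ τ p b r)
    (g3 : cr q p b / (2 * h0) + fl (D.Q μ τ) q p b ≤ 1 / 2) : D.Tr μ τ p q r := by
  unfold Data.Tr at *
  have a1 := hD.anti μ τ (r.1 - b.1) b.2 r.2
  have a2 := hD.anti μ τ (q.1 - p.1) p.2 q.2
  have a3 := hD.anti μ τ (b.1 - p.1) p.2 b.2
  have a4 := hD.anti μ τ (q.1 - b.1) b.2 q.2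
  rw [neg_sub] at a1 a2 a3 a4
  have e1 : cr p q r = cr b q r + cr p b r - cr q p b := by
    unfold cr
    ring
  unfold fl ed at *
  rw [e1]
  have e2 : (cr b q r + cr p b r - cr q p b) / (2 * h0) =
      cr b q r / (2 * h0) + cr p b r / (2 * h0) - cr q p b / (2 * h0) := by ring
  rw [e2]
  linarith

end Pool.Agent.Strip051.LC
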