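import Pool.Agent.Strip051.LC.Corner
import Pool.Agent.Strip051.LC.Exact.Classes

/-! # Corner triangles for the exact weight

At the near vertex the flux depends on the level of the lowest vertex of the triangle, which does
not change when the vertices are moved horizontally. -/

namespace Pool.Agent.Strip051.LC

open Pool.Agent.StripNear Pool.Agent.StripSquare Pool.Agent.Strip051.Sweep

/-- **Corner lemma** for triangles with given heights. -/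
theorem tri_of_corners_fix {y1 y2 y3 : ℝ} {g : ℝ → ℝ → ℝ → ℝ} {N : ℝ → ℝ → ℝ → Prop} (hP : Pieces g N)
    (hc : ∀ p q r : Pt, (p.2 = y1 ∧ q.2 = y2 ∧ r.2 = y3) ∨ (p.2 = y2 ∧ q.2 = y3 ∧ r.2 = y1) ∨
        (p.2 = y3 ∧ q.2 = y1 ∧ r.2 = y2) → 0 ≤ cr p q r → 1 ≤ ds p q → 1 ≤ ds q r → 1 ≤ ds p r → ds p q ≤ 3 →
      ds q r ≤ 3 → ds p r ≤ 3 → N p.2 q.2 (q.1 - p.1) → N q.2 r.2 (r.1 - q.1) →
      1 / 2 ≤ g p.2 q.2 (q.1 - p.1) + g q.2 r.2 (r.1 - q.1) + g r.2 p.2 (p.1 - r.1)) :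
    ∀ p q r : Pt, p.2 = y1 → q.2 = y2 → r.2 = y3 →
      0 ≤ cr p q r → 1 ≤ ds p q → 1 ≤ ds q r → 1 ≤ ds p r → ds p q ≤ 3 →
      ds q r ≤ 3 → ds p r ≤ 3 →
      1 / 2 ≤ g p.2 q.2 (q.1 - p.1) + g q.2 r.2 (r.1 - q.1) + g r.2 p.2 (p.1 - r.1) := by
  rintro ⟨p1, y1'⟩ ⟨q1, y2'⟩ ⟨r1, y3'⟩ hy1 hy2 hy3 h0 h1 h2 h3 h1' h2' h3'
  simp only at hy1 hy2 hy3
  subst hy1 hy2 hy3
  unfold ds at h1 h2 h3 h1' h2' h3'
  unfold cr at h0
  simp only at h0 h1 h2 h3 h1' h2' h3' ⊢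
  obtain ⟨a1, b1, ha1, hb1, na1, nb1, c1, α1, β1, e1⟩ := hP y1' y2' (q1 - p1) h1 h1'
  obtain ⟨a2, b2, ha2, hb2, na2, nb2, c2, α2, β2, e2⟩ := hP y2' y3' (r1 - q1) h2 h2'
  obtain ⟨a3, b3, ha3, hb3, na3, nb3, c3, α3, β3, e3⟩ := hP y3' y1' (p1 - r1)
    (by linarith [h3, (by ring : (p1 - r1) ^ 2 + (y1' - y3') ^ 2 = (r1 - p1) ^ 2 + (y3' - y1') ^ 2)])
    (by linarith [h3', (by ring : (p1 - r1) ^ 2 + (y1' - y3') ^ 2 = (r1 - p1) ^ 2 + (y3' - y1') ^ 2)])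
  rw [e1 _ ha1 hb1, e2 _ ha2 hb2, e3 _ ha3 hb3]
  -- the orientation is the same on the whole polygon
  have orient : ∀ u1 u2 u3 : ℝ, a1 ≤ u1 → u1 ≤ b1 → a2 ≤ u2 → u2 ≤ b2 → a3 ≤ u3 → u3 ≤ b3 →
      u1 + u2 + u3 = 0 → 0 ≤ u1 * (y3' - y2') - (y2' - y1') * u2 := by
    intro u1 u2 u3 k1 k1' k2 k2' k3 k3' k0
    by_contra hneg
    push Not at hneg
    set x1 := q1 - p1 with hx1
    set x2 := r1 - q1 with hx2
    have hx0 : 0 ≤ x1 * (y3' - y2') - (y2' - y1') * x2 := by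
      have : (q1 - p1) * (y3' - y1') - (y2' - y1') * (r1 - p1) =
          x1 * (y3' - y2') - (y2' - y1') * x2 := by rw [hx1, hx2]; ring
      linarith
    set X := x1 * (y3' - y2') - (y2' - y1') * x2 with hX
    set U := u1 * (y3' - y2') - (y2' - y1') * u2 with hU
    have hXU : 0 < X - U := by linarith
    obtain ⟨s, hs0, hs1, hs⟩ : ∃ s : ℝ, 0 ≤ s ∧ s ≤ 1 ∧ (1 - s) * X + s * U = 0 := by
      refine ⟨X / (X - U), by positivity, ?_, ?_⟩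
      · rw [div_le_one hXU]
        linarith
      · field_simp
        ring
    have conv : ∀ {a b x u : ℝ}, a ≤ x → x ≤ b → a ≤ u → u ≤ b →
        a ≤ (1 - s) * x + s * u ∧ (1 - s) * x + s * u ≤ b := by
      intro a b x u w1 w2 w3 w4
      constructor
      · nlinarith [mul_nonneg (sub_nonneg.2 hs1) (sub_nonneg.2 w1), mul_nonneg hs0 (sub_nonneg.2 w3)]
      · nlinarith [mul_nonneg (sub_nonneg.2 hs1) (sub_nonneg.2 w2), mul_nonneg hs0 (sub_nonneg.2 w4)]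
    obtain ⟨d1, d1'⟩ := conv ha1 hb1 k1 k1'
    obtain ⟨d2, d2'⟩ := conv ha2 hb2 k2 k2'
    obtain ⟨d3, d3'⟩ := conv ha3 hb3 k3 k3'
    obtain ⟨f1, f1'⟩ := c1 _ d1 d1'
    obtain ⟨f2, f2'⟩ := c2 _ d2 d2'
    obtain ⟨f3, f3'⟩ := c3 _ d3 d3'
    set v1 := (1 - s) * x1 + s * u1 with hv1
    set v2 := (1 - s) * x2 + s * u2 with hv2
    set v3 := (1 - s) * (p1 - r1) + s * u3 with hv3
    have hv : v3 = -(v1 + v2) := by
      rw [hv1, hv2, hv3, hx1, hx2]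
      have : u3 = -(u1 + u2) := by linarith
      rw [this]
      ring
    refine cr_ne_zero f3 f1 f2 f3' f1' f2' (k := v1 * (y3' - y2') - (y2' - y1') * v2) ?_ ?_
    · rw [hv]
      ring
    · rw [hv1, hv2]
      rw [hX, hU] at hs
      linear_combination hs
  have main := three (α1 := α1) (α2 := α2) (α3 := α3) (c := 1 / 2 - β1 - β2 - β3) ha1 hb1 ha2 hb2
    ha3 hb3 (by ring) ?_
  · linarith
  intro u1 u2 u3 k1 k1' k2 k2' k3 k3' k0 kk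
  have o := orient u1 u2 u3 k1 k1' k2 k2' k3 k3' k0
  obtain ⟨f1, f1'⟩ := c1 _ k1 k1'
  obtain ⟨f2, f2'⟩ := c2 _ k2 k2'
  obtain ⟨f3, f3'⟩ := c3 _ k3 k3'
  have g1 := e1 _ k1 k1'
  have g2 := e2 _ k2 k2'
  have g3 := e3 _ k3 k3'
  have hu3 : u3 = -(u1 + u2) := by linarith
  have goal1 : N y1' y2' u1 → N y2' y3' u2 → 1 / 2 ≤ g y1' y2' u1 + g y2' y3' u2 + g y3' y1' u3 := by
    intro n1 n2
    have := hc (0, y1') (u1, y2') (u1 + u2, y3') (Or.inl ⟨rfl, rfl, rfl⟩)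
    unfold cr ds at this
    simp only [sub_zero, add_sub_cancel_left, zero_sub] at this
    rw [hu3]
    refine this ?_ f1 f2 ?_ f1' f2' ?_ n1 n2
    · linarith [(by ring : u1 * (y3' - y1') - (y2' - y1') * (u1 + u2) =
        u1 * (y3' - y2') - (y2' - y1') * u2)]
    · rw [hu3] at f3
      linarith [(by ring : (-(u1 + u2)) ^ 2 + (y1' - y3') ^ 2 = (u1 + u2) ^ 2 + (y3' - y1') ^ 2)]
    · rw [hu3] at f3'
      linarith [(by ring : (-(u1 + u2)) ^ 2 + (y1' - y3') ^ 2 = (u1 + u2) ^ 2 + (y3' - y1') ^ 2)]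
  have goal2 : N y2' y3' u2 → N y3' y1' u3 → 1 / 2 ≤ g y1' y2' u1 + g y2' y3' u2 + g y3' y1' u3 := by
    intro n1 n2
    have := hc (0, y2') (u2, y3') (u2 + u3, y1') (Or.inr (Or.inl ⟨rfl, rfl, rfl⟩))
    unfold cr ds at this
    simp only [sub_zero, add_sub_cancel_left, zero_sub] at this
    have hu1 : u1 = -(u2 + u3) := by linarith
    have h := this ?_ f2 f3 ?_ f2' f3' ?_ n1 n2
    · rw [← hu1] at h
      linarith
    · rw [hu1] at o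
      linarith [(by ring : u2 * (y1' - y2') - (y3' - y2') * (u2 + u3) =
        -(u2 + u3) * (y3' - y2') - (y2' - y1') * u2)]
    · rw [hu1] at f1
      linarith [(by ring : (-(u2 + u3)) ^ 2 + (y2' - y1') ^ 2 = (u2 + u3) ^ 2 + (y1' - y2') ^ 2)]
    · rw [hu1] at f1'
      linarith [(by ring : (-(u2 + u3)) ^ 2 + (y2' - y1') ^ 2 = (u2 + u3) ^ 2 + (y1' - y2') ^ 2)]
  have goal3 : N y3' y1' u3 → N y1' y2' u1 → 1 / 2 ≤ g y1' y2' u1 + g y2' y3' u2 + g y3' y1' u3 := by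
    intro n1 n2
    have := hc (0, y3') (u3, y1') (u3 + u1, y2') (Or.inr (Or.inr ⟨rfl, rfl, rfl⟩))
    unfold cr ds at this
    simp only [sub_zero, add_sub_cancel_left, zero_sub] at this
    have hu2 : u2 = -(u3 + u1) := by linarith
    have h := this ?_ f3 f1 ?_ f3' f1' ?_ n1 n2
    · rw [← hu2] at h
      linarith
    · rw [hu2] at o
      linarith [(by ring : u3 * (y2' - y3') - (y1' - y3') * (u3 + u1) =
        u1 * (y3' - y2') - (y2' - y1') * -(u3 + u1))]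
    · rw [hu2] at f2
      linarith [(by ring : (-(u3 + u1)) ^ 2 + (y3' - y2') ^ 2 = (u3 + u1) ^ 2 + (y2' - y3') ^ 2)]
    · rw [hu2] at f2'
      linarith [(by ring : (-(u3 + u1)) ^ 2 + (y3' - y2') ^ 2 = (u3 + u1) ^ 2 + (y2' - y3') ^ 2)]
  have fin : 1 / 2 ≤ g y1' y2' u1 + g y2' y3' u2 + g y3' y1' u3 := by
    rcases kk with ⟨m1, m2⟩ | ⟨m1, m2⟩ | ⟨m1, m2⟩
    · refine goal1 ?_ ?_
      · rcases m1 with rfl | rfl
        · exact na1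
        · exact nb1
      · rcases m2 with rfl | rfl
        · exact na2
        · exact nb2
    · refine goal2 ?_ ?_
      · rcases m1 with rfl | rfl
        · exact na2
        · exact nb2
      · rcases m2 with rfl | rfl
        · exact na3
        · exact nb3
    · refine goal3 ?_ ?_
      · rcases m1 with rfl | rfl
        · exact na3
        · exact nb3
      · rcases m2 with rfl | rfl
        · exact na1
        · exact nb1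
  linarith

/-- **Corner lemma** for a flux which depends on the three heights. -/
theorem tri_of_corners_par {Q : ℝ → ℝ → ℝ → ℝ → ℝ → ℝ → ℝ} {N : ℝ → ℝ → ℝ → Prop}
    (hrot : ∀ y1 y2 y3, Q y2 y3 y1 = Q y1 y2 y3) (hP : ∀ y1 y2 y3, QPieces (Q y1 y2 y3) N)
    (hc : ∀ p q r : Pt, 0 ≤ cr p q r → 1 ≤ ds p q → 1 ≤ ds q r → 1 ≤ ds p r → ds p q ≤ 3 →
      ds q r ≤ 3 → ds p r ≤ 3 → N (q.1 - p.1) p.2 q.2 → N (r.1 - q.1) q.2 r.2 →
      1 / 2 ≤ cr p q r / (2 * h0) + fl (Q p.2 q.2 r.2) p q r) :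
    ∀ p q r : Pt, 0 ≤ cr p q r → 1 ≤ ds p q → 1 ≤ ds q r → 1 ≤ ds p r → ds p q ≤ 3 →
      ds q r ≤ 3 → ds p r ≤ 3 → 1 / 2 ≤ cr p q r / (2 * h0) + fl (Q p.2 q.2 r.2) p q r := by
  have key : ∀ (q0 : ℝ → ℝ → ℝ → ℝ) (p q r : Pt), cr p q r / (2 * h0) + fl q0 p q r =
      (-((q.1 - p.1) * (p.2 + q.2)) / (2 * h0) + q0 (q.1 - p.1) p.2 q.2) +
      (-((r.1 - q.1) * (q.2 + r.2)) / (2 * h0) + q0 (r.1 - q.1) q.2 r.2) +
      (-((p.1 - r.1) * (r.2 + p.2)) / (2 * h0) + q0 (p.1 - r.1) r.2 p.2) := by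
    intro q0 p q r
    unfold fl ed cr
    ring
  intro p q r h0' h1 h2 h3 h4 h5 h6
  rw [key]
  refine tri_of_corners_fix (y1 := p.2) (y2 := q.2) (y3 := r.2)
    (g := fun y z X => -(X * (y + z)) / (2 * h0) + Q p.2 q.2 r.2 X y z)
    (N := fun y z X => N X y z) ?_ ?_ p q r rfl rfl rfl h0' h1 h2 h3 h4 h5 h6
  · intro y z X h1 h2
    obtain ⟨a, b, h3, h4, h5, h6, h7, α, β, h8⟩ := hP p.2 q.2 r.2 X y z h1 h2
    refine ⟨a, b, h3, h4, h5, h6, h7, α - (y + z) / (2 * h0), β, fun u k1 k2 => ?_⟩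
    simp only
    rw [h8 u k1 k2]
    ring
  · intro p' q' r' hh k0 k1 k2 k3 k4 k5 k6 n1 n2
    have e := hc p' q' r' k0 k1 k2 k3 k4 k5 k6 n1 n2
    have e2 : Q p'.2 q'.2 r'.2 = Q p.2 q.2 r.2 := by
      rcases hh with ⟨g1, g2, g3⟩ | ⟨g1, g2, g3⟩ | ⟨g1, g2, g3⟩
      · rw [g1, g2, g3]
      · rw [g1, g2, g3, hrot]
      · rw [g1, g2, g3, ← hrot]
    rw [e2, key] at e
    exact e

/-- The class of the small triangles at the near vertex. -/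
theorem near_tri_of_corners {D : Data} {N0 : ℕ} {s : ℝ} {N : ℝ → ℝ → ℝ → Prop}
    (hP : ∀ τ, QPieces (D.Q (1 / (N0 + 2 * g s)) τ) N)
    (hc : ∀ p q r : Pt, 0 ≤ cr p q r → 1 ≤ ds p q → 1 ≤ ds q r → 1 ≤ ds p r → ds p q ≤ 3 →
      ds q r ≤ 3 → ds p r ≤ 3 → N (q.1 - p.1) p.2 q.2 → N (r.1 - q.1) q.2 r.2 →
      NearTr D N0 s p q r) :
    ∀ p q r : Pt, 0 ≤ cr p q r → 1 ≤ ds p q → 1 ≤ ds q r → 1 ≤ ds p r → ds p q ≤ 3 →
      ds q r ≤ 3 → ds p r ≤ 3 → NearTr D N0 s p q r :=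
  tri_of_corners_par (Q := fun y1 y2 y3 => D.Q (1 / (N0 + 2 * g s))
    (-(1 / (N0 + 2 * g s) * (N0 / 2 + (s / 2 + lowest y1 y2 y3) / h0))))
    (fun y1 y2 y3 => by simp only [lowest_rot]) (fun _ _ _ => hP _) hc

/-- The class of the small triangles at a vertex with fixed parameters. -/
theorem tr_tri_of_corners {D : Data} {μ τ : ℝ} {N : ℝ → ℝ → ℝ → Prop}
    (hP : QPieces (D.Q μ τ) N)
    (hc : ∀ p q r : Pt, 0 ≤ cr p q r → 1 ≤ ds p q → 1 ≤ ds q r → 1 ≤ ds p r → ds p q ≤ 3 →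
      ds q r ≤ 3 → ds p r ≤ 3 → N (q.1 - p.1) p.2 q.2 → N (r.1 - q.1) q.2 r.2 →
      D.Tr μ τ p q r) :
    ∀ p q r : Pt, 0 ≤ cr p q r → 1 ≤ ds p q → 1 ≤ ds q r → 1 ≤ ds p r → ds p q ≤ 3 →
      ds q r ≤ 3 → ds p r ≤ 3 → D.Tr μ τ p q r :=
  bulk_tri_of_corners hP hc

end Pool.Agent.Strip051.LC
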