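import Pool.Agent.Strip051.LC.Exact.FixLev
import Pool.Agent.Strip051.LC.Line.WallRed

/-! # Bounds for the flux of an edge

The mean of the two-slope density over an interval of length `t` is at most `E (1 - t / h0)`, where
`E` is the amplitude.  This gives a bound for the flux of an edge in the strip which does not
depend on its position. -/

namespace Pool.Agent.Strip051.LC

open Pool.Agent.StripNear Pool.Agent.StripSquare Pool.Agent.Strip051.Sweep
open Pool.Agent.Strip051.LC.Line (Qd D mn jn mul_mn mn_low mn_high mn_self mn_symm mn_shift D_add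
  D_add_int D_refl D_abs D_integrable D_integral mn_mirror)

/-- The amplitude of the density. -/
noncomputable def amp (κ s : ℝ) : ℝ := κ * (s * (h0 - s) / (2 * h0))

theorem amp_nonneg {κ s : ℝ} (hκ : 0 ≤ κ) (hs0 : 0 ≤ s) (hs1 : s < h0) : 0 ≤ amp κ s := by
  have hp := h0_pos
  have : 0 ≤ h0 - s := by linarith
  unfold amp
  positivity

/-- The primitive on the cell. -/
theorem prim_low {κ s x : ℝ} (hs1 : s < h0) (hx : 0 ≤ x) (hxs : x ≤ s) :
    ∫ z in (0 : ℝ)..x, D s κ z = κ / (2 * h0) * ((h0 - s) * (x * (x - s))) := by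
  have hp := h0_pos
  have h := mul_mn (D s κ) 0 x
  rw [mn_low hs1 hx hxs] at h
  rw [← h]
  field_simp
  ring

/-- The primitive on the gap. -/
theorem prim_high {κ s x : ℝ} (hs0 : 0 ≤ s) (hs1 : s < h0) (hxs : s ≤ x) (hx : x ≤ h0) :
    ∫ z in (0 : ℝ)..x, D s κ z = κ / (2 * h0) * (s * ((x - s) * (h0 - x))) := by
  have hp := h0_pos
  rcases (hs0.trans hxs).eq_or_lt with h | h
  · have : s = 0 := by linarith
    subst this
    rw [← h]
    simp
  · have h' := mul_mn (D s κ) 0 x
    rw [mn_high hs0 hs1 hxs hx h] at h'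
    rw [← h']
    field_simp
    ring

theorem prim_per {κ s : ℝ} (hs0 : 0 ≤ s) (hs1 : s < h0) (x : ℝ) :
    ∫ z in (0 : ℝ)..(x + h0), D s κ z = ∫ z in (0 : ℝ)..x, D s κ z := by
  rw [← intervalIntegral.integral_add_adjacent_intervals (b := x) (D_integrable κ hs0 _ _)
    (D_integrable κ hs0 _ _), D_integral κ hs0 hs1 x, add_zero]

/-- The increments of the primitive. -/
theorem prim_inc {κ s : ℝ} (hs0 : 0 ≤ s) (hs1 : s < h0) (hκ : 0 ≤ κ) {a t : ℝ} (ha : 0 ≤ a)
    (ha1 : a ≤ h0) (ht : 0 ≤ t) (ht1 : t ≤ h0) :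
    ∫ z in a..(a + t), D s κ z ≤ κ / (2 * h0) * (s * (h0 - s) * (t * (1 - t / h0))) := by
  have hp := h0_pos
  have hk : 0 ≤ κ / (2 * h0) := by positivity
  have e : ∫ z in a..(a + t), D s κ z =
      (∫ z in (0 : ℝ)..(a + t), D s κ z) - ∫ z in (0 : ℝ)..a, D s κ z := by
    rw [← intervalIntegral.integral_add_adjacent_intervals (b := a) (D_integrable κ hs0 0 a)
      (D_integrable κ hs0 a (a + t))]
    ring
  have hq : t * (1 - t / h0) = t * (h0 - t) / h0 := by
    field_simp
  rw [e, hq, mul_div_assoc']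
  rcases le_or_gt (a + t) h0 with c | c
  · rcases le_or_gt (a + t) s with d | d
    · rw [prim_low hs1 (by linarith) d, prim_low hs1 ha (by linarith), ← mul_sub]
      refine mul_le_mul_of_nonneg_left ?_ hk
      rw [le_div_iff₀ hp]
      nlinarith [mul_nonneg (mul_nonneg ht (sub_nonneg.2 hs1.le)) (by linarith : 0 ≤ s - a - t),
        mul_nonneg (mul_nonneg (mul_nonneg ht ht) (sub_nonneg.2 hs1.le)) (sub_nonneg.2 hs1.le)]
    · rcases le_or_gt a s with f | f
      · rw [prim_high hs0 hs1 d.le c, prim_low hs1 ha f, ← mul_sub]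
        refine mul_le_mul_of_nonneg_left ?_ hk
        rw [le_div_iff₀ hp]
        nlinarith [sq_nonneg (s * (a + t - s) - (h0 - s) * (s - a))]
      · rw [prim_high hs0 hs1 d.le c, prim_high hs0 hs1 f.le ha1, ← mul_sub]
        refine mul_le_mul_of_nonneg_left ?_ hk
        rw [le_div_iff₀ hp]
        nlinarith [mul_nonneg (mul_nonneg ht hs0) (by linarith : 0 ≤ a - s),
          mul_nonneg (mul_nonneg (mul_nonneg ht ht) hs0) hs0]
  · have e2 : (∫ z in (0 : ℝ)..(a + t), D s κ z) = ∫ z in (0 : ℝ)..(a + t - h0), D s κ z := by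
      rw [← prim_per hs0 hs1 (a + t - h0), sub_add_cancel]
    rw [e2]
    rcases le_or_gt a s with f | f
    · rw [prim_low hs1 (by linarith) (by linarith), prim_low hs1 ha f, ← mul_sub]
      refine mul_le_mul_of_nonneg_left ?_ hk
      rw [le_div_iff₀ hp]
      nlinarith [mul_nonneg (mul_nonneg (sub_nonneg.2 ht1) (sub_nonneg.2 hs1.le))
        (by linarith : 0 ≤ a + t - h0), mul_nonneg (mul_nonneg (sub_nonneg.2 ht1)
        (sub_nonneg.2 ht1)) (mul_nonneg (sub_nonneg.2 hs1.le) (sub_nonneg.2 hs1.le))]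
    · rcases le_or_gt (a + t - h0) s with g | g
      · rw [prim_low hs1 (by linarith) g, prim_high hs0 hs1 f.le ha1, ← mul_sub]
        refine mul_le_mul_of_nonneg_left ?_ hk
        have h1 : 0 ≤ s * ((a - s) * (h0 - a)) :=
          mul_nonneg hs0 (mul_nonneg (by linarith) (by linarith))
        have h2 : (h0 - s) * ((a + t - h0) * (a + t - h0 - s)) ≤ 0 := by
          have := mul_nonneg (by linarith : 0 ≤ h0 - s) (mul_nonneg (by linarith :
            0 ≤ a + t - h0) (by linarith : 0 ≤ s - (a + t - h0)))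
          nlinarith
        have h3 : 0 ≤ s * (h0 - s) * (t * (h0 - t)) / h0 := by
          have a1 : 0 ≤ h0 - s := by linarith
          have a2 : 0 ≤ h0 - t := by linarith
          positivity
        linarith
      · rw [prim_high hs0 hs1 g.le (by linarith), prim_high hs0 hs1 f.le ha1, ← mul_sub]
        refine mul_le_mul_of_nonneg_left ?_ hk
        rw [le_div_iff₀ hp]
        nlinarith [mul_nonneg (mul_nonneg (sub_nonneg.2 ht1) hs0)
          (by linarith : 0 ≤ h0 - a), mul_nonneg (mul_nonneg (sub_nonneg.2 ht1)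
          (sub_nonneg.2 ht1)) (mul_nonneg hs0 hs0)]

/-- The mean of the density over an interval of length `t`, from above. -/
theorem mn_le_amp {κ s : ℝ} (hs0 : 0 ≤ s) (hs1 : s < h0) (hκ : 0 ≤ κ) (a : ℝ) {t : ℝ}
    (ht : 0 < t) (ht1 : t ≤ h0) : mn (D s κ) a (a + t) ≤ amp κ s * (1 - t / h0) := by
  have hp := h0_pos
  set k : ℤ := ⌊a / h0⌋ with hk
  have k1 : (k : ℝ) * h0 ≤ a := by
    have := Int.floor_le (a / h0)
    rwa [le_div_iff₀ hp] at this
  have k2 : a < ((k : ℝ) + 1) * h0 := by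
    have := Int.lt_floor_add_one (a / h0)
    rwa [div_lt_iff₀ hp] at this
  have e : mn (D s κ) a (a + t) = mn (D s κ) (a - k * h0) (a - k * h0 + t) := by
    have := mn_shift (f := D s κ) (c := k * h0) (fun z => D_add_int s κ z k) (a - k * h0)
      (a - k * h0 + t)
    rw [← this]
    congr 1 <;> ring
  rw [e]
  have h := prim_inc hs0 hs1 hκ (a := a - k * h0) (t := t) (by linarith) (by linarith) ht.le ht1
  have h2 := mul_mn (D s κ) (a - k * h0) (a - k * h0 + t)
  rw [add_sub_cancel_left] at h2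
  rw [← h2] at h
  have h3 : κ / (2 * h0) * (s * (h0 - s) * (t * (1 - t / h0))) =
      t * (amp κ s * (1 - t / h0)) := by
    unfold amp
    field_simp
  rw [h3] at h
  exact le_of_mul_le_mul_left h ht

/-- **The mean of the density over an interval of length `|t|`.** -/
theorem mn_abs_amp {κ s : ℝ} (hs0 : 0 ≤ s) (hs1 : s < h0) (hκ : 0 ≤ κ) (a b : ℝ)
    (h : |b - a| ≤ h0) : |mn (D s κ) a b| ≤ amp κ s * (1 - |b - a| / h0) := by
  have hp := h0_pos
  have key : ∀ a b : ℝ, a < b → b - a ≤ h0 → |mn (D s κ) a b| ≤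
      amp κ s * (1 - (b - a) / h0) := by
    intro a b hab hb
    have h1 := mn_le_amp hs0 hs1 hκ a (t := b - a) (by linarith) hb
    rw [add_sub_cancel] at h1
    have h2 := mn_le_amp hs0 hs1 hκ (s - b) (t := b - a) (by linarith) hb
    have e : mn (D s κ) (s - b) (s - b + (b - a)) = -mn (D s κ) a b := by
      rw [show s - b + (b - a) = s - a by ring, mn_mirror (fun z => D_refl κ hs0 hs1 z),
        mn_symm]
    rw [e] at h2
    rw [abs_le]
    constructor <;> linarith
  rcases lt_trichotomy a b with c | c | c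
  · rw [abs_of_pos (by linarith : 0 < b - a)] at h ⊢
    exact key a b c h
  · subst c
    rw [mn_self, sub_self, abs_zero, zero_div, sub_zero, mul_one]
    exact D_abs hs0 hs1 hκ a
  · rw [abs_of_neg (by linarith : b - a < 0)] at h ⊢
    rw [mn_symm]
    have := key b a c (by linarith)
    rwa [show -(b - a) = a - b by ring]

/-- The distance of `T` to the nearest multiple of `h0`. -/
noncomputable def dst (T : ℝ) : ℝ := |T - jn T * h0|

theorem dst_le {T : ℝ} (h0T : 0 ≤ T) (hT : T ≤ 2) : dst T ≤ h0 / 2 := by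
  have hp := h0_pos
  have h2 : (4 : ℝ) / 5 < h0 := by
    have := h0_sq
    nlinarith
  unfold dst jn
  rw [abs_le]
  split_ifs with c1 c2
  · push_cast
    constructor <;> linarith
  · push_cast
    constructor <;> linarith
  · push_cast
    constructor <;> linarith

/-- **The flux of a kernel.** -/
theorem Qc_cost {κ s : ℝ} (hs0 : 0 ≤ s) (hs1 : s < h0) (hκ : 0 ≤ κ) (R : ℝ → ℝ → ℝ)
    (X : ℝ) {y z : ℝ} (h : |z - y| ≤ 2) :
    |Qc κ s R X y z| ≤ amp κ s * (1 - dst |z - y| / h0) * |R X (|z - y|)| := by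
  have hp := h0_pos
  have e1 : z + s / 2 - (y + s / 2) = z - y := by ring
  unfold Qc Qd
  rw [e1, abs_mul, mul_comm]
  refine mul_le_mul_of_nonneg_right ?_ (abs_nonneg _)
  have e2 : max (y + s / 2) (z + s / 2) - min (y + s / 2) (z + s / 2) = |z - y| := by
    rw [max_sub_min_eq_abs', ← e1, abs_sub_comm]
  have e3 : |max (y + s / 2) (z + s / 2) - jn |z - y| * h0 - min (y + s / 2) (z + s / 2)| =
      dst |z - y| := by
    unfold dst
    congr 1
    linarith
  have hd := dst_le (abs_nonneg (z - y)) h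
  have := mn_abs_amp hs0 hs1 hκ (min (y + s / 2) (z + s / 2))
    (max (y + s / 2) (z + s / 2) - jn |z - y| * h0) (by rw [e3]; linarith)
  rwa [e3] at this

/-! ### The cost of an edge -/

/-- The cost at the far vertex. -/
noncomputable def Tab.costF (T : Tab) (κ s X t : ℝ) : ℝ :=
  amp κ s * (1 - dst t / h0) * |T.A X t| + 1 / 2 * |T.Xi X t|

/-- The cost at the near vertex. -/
noncomputable def Tab.costN (T : Tab) (N0 : ℕ) (κ s X t : ℝ) : ℝ :=
  amp κ s * (1 - dst t / h0) * |T.B X t| + mu N0 s * (N0 + s / h0) / 2 * |T.Xi X t|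

/-- The flux in the strip from the two vertices. -/
theorem Tab.QS_eq (T : Tab) {N0 n : ℕ} {κ s : ℝ} (hg : 0 < g s) (X y z : ℝ) :
    (T.data N0 κ s).QS n s X y z =
      (1 - mu n s / mu N0 s) * Qc κ s T.A X (y - s / 2) (z - s / 2) +
        mu n s / mu N0 s * Qc κ s T.B X (y - s / 2) (z - s / 2) +
        mu n s * ((n * h0 + s - (y + z)) / (2 * h0)) * T.Xi X |z - y| := by
  have hh := h0_pos
  have hN0 : (0 : ℝ) ≤ N0 := Nat.cast_nonneg N0
  have hn0 : (0 : ℝ) ≤ n := Nat.cast_nonneg n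
  have hm : mu N0 s ≠ 0 := by
    unfold mu
    positivity
  have e : z - s / 2 - (y - s / 2) = z - y := by ring
  unfold Data.QS Data.Q Tab.data
  simp only
  rw [e, show (1 : ℝ) / (n + 2 * g s) = mu n s from rfl]
  field_simp
  ring

/-- **The flux of an edge in the strip.** -/
theorem Tab.QS_cost (T : Tab) {N0 n : ℕ} (hn : N0 ≤ n) {κ s : ℝ} (hκ : 0 ≤ κ) (hs0 : 0 ≤ s)
    (hs1 : s < h0) (X : ℝ) {y z : ℝ} (hy : 0 ≤ y) (hz : 0 ≤ z) (hy1 : y ≤ n * h0 + s)
    (hz1 : z ≤ n * h0 + s) (h : |z - y| ≤ 2) :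
    |(T.data N0 κ s).QS n s X y z| ≤ (1 - mu n s / mu N0 s) * T.costF κ s X |z - y| +
      mu n s / mu N0 s * T.costN N0 κ s X |z - y| := by
  have hh := h0_pos
  have hg1 := g_gt_half hs0 hs1
  have hg : 0 < g s := by linarith
  have hN0 : (0 : ℝ) ≤ N0 := Nat.cast_nonneg N0
  have hn0 : (0 : ℝ) ≤ n := Nat.cast_nonneg n
  have hnN : (N0 : ℝ) ≤ n := by exact_mod_cast hn
  have hμ : 0 < mu n s := by
    unfold mu
    positivity
  have hm : 0 < mu N0 s := by
    unfold mu
    positivity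
  have hμm : mu n s ≤ mu N0 s := by
    unfold mu
    apply one_div_le_one_div_of_le (by positivity)
    linarith
  have hθ0 : 0 ≤ mu n s / mu N0 s := by positivity
  have hθ1 : 0 ≤ 1 - mu n s / mu N0 s := by
    rw [sub_nonneg, div_le_one hm]
    exact hμm
  have e1 : z - s / 2 - (y - s / 2) = z - y := by ring
  have hA := Qc_cost hs0 hs1 hκ T.A X (y := y - s / 2) (z := z - s / 2) (by rw [e1]; exact h)
  have hB := Qc_cost hs0 hs1 hκ T.B X (y := y - s / 2) (z := z - s / 2) (by rw [e1]; exact h)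
  rw [e1] at hA hB
  rw [T.QS_eq hg]
  have hL : |mu n s * ((n * h0 + s - (y + z)) / (2 * h0)) * T.Xi X (|z - y|)| ≤
      ((1 - mu n s / mu N0 s) * (1 / 2) +
        mu n s / mu N0 s * (mu N0 s * (N0 + s / h0) / 2)) * |T.Xi X (|z - y|)| := by
    rw [abs_mul]
    refine mul_le_mul_of_nonneg_right ?_ (abs_nonneg _)
    have e2 : (1 - mu n s / mu N0 s) * (1 / 2) +
        mu n s / mu N0 s * (mu N0 s * (N0 + s / h0) / 2) = mu n s * ((n * h0 + s) / (2 * h0)) := by
      unfold mu
      field_simp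
      ring
    rw [e2, abs_mul, abs_of_pos hμ]
    refine mul_le_mul_of_nonneg_left ?_ hμ.le
    rw [abs_div, abs_of_pos (by linarith : 0 < 2 * h0)]
    refine div_le_div_of_nonneg_right ?_ (by linarith)
    rw [abs_le]
    constructor <;> linarith
  have hA' := mul_le_mul_of_nonneg_left hA hθ1
  have hB' := mul_le_mul_of_nonneg_left hB hθ0
  have t1 := abs_add_le ((1 - mu n s / mu N0 s) * Qc κ s T.A X (y - s / 2) (z - s / 2) +
    mu n s / mu N0 s * Qc κ s T.B X (y - s / 2) (z - s / 2))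
    (mu n s * ((n * h0 + s - (y + z)) / (2 * h0)) * T.Xi X (|z - y|))
  have t2 := abs_add_le ((1 - mu n s / mu N0 s) * Qc κ s T.A X (y - s / 2) (z - s / 2))
    (mu n s / mu N0 s * Qc κ s T.B X (y - s / 2) (z - s / 2))
  rw [abs_mul, abs_mul, abs_of_nonneg hθ1, abs_of_nonneg hθ0] at t2
  unfold Tab.costF Tab.costN
  nlinarith

/-- One majorant for both vertices. -/
theorem Tab.QS_major (T : Tab) {N0 n : ℕ} (hn : N0 ≤ n) {κ s : ℝ} (hκ : 0 ≤ κ) (hs0 : 0 ≤ s)
    (hs1 : s < h0) {X y z c : ℝ} (hF : T.costF κ s X |z - y| ≤ c)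
    (hN : T.costN N0 κ s X |z - y| ≤ c) (hy : 0 ≤ y) (hz : 0 ≤ z) (hy1 : y ≤ n * h0 + s)
    (hz1 : z ≤ n * h0 + s) (h : |z - y| ≤ 2) : |(T.data N0 κ s).QS n s X y z| ≤ c := by
  have hg1 := g_gt_half hs0 hs1
  have hN0 : (0 : ℝ) ≤ N0 := Nat.cast_nonneg N0
  have hn0 : (0 : ℝ) ≤ n := Nat.cast_nonneg n
  have hnN : (N0 : ℝ) ≤ n := by exact_mod_cast hn
  have hμ : 0 < mu n s := by
    unfold mu
    positivity
  have hm : 0 < mu N0 s := by
    unfold mu
    positivity
  have hμm : mu n s ≤ mu N0 s := by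
    unfold mu
    apply one_div_le_one_div_of_le (by positivity)
    linarith
  have hθ0 : 0 ≤ mu n s / mu N0 s := by positivity
  have hθ1 : 0 ≤ 1 - mu n s / mu N0 s := by
    rw [sub_nonneg, div_le_one hm]
    exact hμm
  have h1 := T.QS_cost hn hκ hs0 hs1 X hy hz hy1 hz1 h
  have h2 := mul_le_mul_of_nonneg_left hF hθ1
  have h3 := mul_le_mul_of_nonneg_left hN hθ0
  nlinarith

end Pool.Agent.Strip051.LC
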