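import Pool.Agent.Strip051.LC.Exact.Final
import Pool.Agent.Strip051.LC.Line.WallRed

/-! # The floor inequalities of a certificate for one rest

The inequality at the floor follows from inequalities for pairs with the lower disc on the floor:
at the nodes, on the steep curve, and for the long pairs. -/

namespace Pool.Agent.Strip051.LC

open Pool.Agent.StripNear Pool.Agent.StripSquare Pool.Agent.Strip051.Sweep
open Pool.Agent.Strip051.LC.Line

section

variable {κ s μ w : ℝ} {R Xi : ℝ → ℝ → ℝ}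

/-- The floor function of a pair with the horizontal displacement `X` and the heights `y`, `z`. -/
noncomputable def UF (κ s μ w : ℝ) (R Xi : ℝ → ℝ → ℝ) (X y z : ℝ) : ℝ :=
  X * (w + (y + z) / (2 * h0)) - (Qd R (D s κ) X y z + (1 / 2 - g s * μ) * Xi X |z - y| -
    μ * ((y + z - s) / (2 * h0)) * Xi X |z - y|)

theorem UF_comm (X y z : ℝ) : UF κ s μ w R Xi X z y = UF κ s μ w R Xi X y z := by
  unfold UF
  rw [Qd_comm, abs_sub_comm, add_comm z y]

/-- The general form of `mn_slope`. -/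
theorem mn_slope2 (hs0 : 0 ≤ s) (hs1 : s < h0) (hκ : 0 ≤ κ) {d : ℝ} (hd : 0 ≤ d)
    (y t : ℝ) :
    -(κ * s / h0 * d) ≤ mn (D s κ) (y + d) (y + d + t) - mn (D s κ) y (y + t) ∧
      mn (D s κ) (y + d) (y + d + t) - mn (D s κ) y (y + t) ≤ κ * (h0 - s) / h0 * d := by
  have hp := h0_pos
  have hD : Continuous (D s κ) := Dd_continuous hp hs0 hs1.le
  have e : mn (D s κ) (y + d) (y + d + t) - mn (D s κ) y (y + t) =
      ∫ u in (0 : ℝ)..1, (D s κ (y + u * t + d) - D s κ (y + u * t)) := by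
    unfold mn
    rw [← intervalIntegral.integral_sub]
    · congr 1
      funext u
      rw [show y + d + u * (y + d + t - (y + d)) = y + u * t + d by ring,
        show y + u * (y + t - y) = y + u * t by ring]
    · exact Continuous.intervalIntegrable (hD.comp (by fun_prop)) _ _
    · exact Continuous.intervalIntegrable (hD.comp (by fun_prop)) _ _
  have hI : IntervalIntegrable (fun u => D s κ (y + u * t + d) - D s κ (y + u * t))
      MeasureTheory.volume 0 1 :=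
    Continuous.intervalIntegrable ((hD.comp (by fun_prop)).sub (hD.comp (by fun_prop))) _ _
  rw [e]
  have hs : ∀ u : ℝ, -(κ * s / h0 * d) ≤ D s κ (y + u * t + d) - D s κ (y + u * t) ∧
      D s κ (y + u * t + d) - D s κ (y + u * t) ≤ κ * (h0 - s) / h0 * d := by
    intro u
    have := D_slope hs0 hs1 hκ (x := y + u * t) (y := y + u * t + d) (by linarith)
    rw [show y + u * t + d - (y + u * t) = d by ring] at this
    exact this
  constructor
  · have h := intervalIntegral.integral_mono_on (μ := MeasureTheory.volume) (a := 0) (b := 1)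
      (by norm_num) (f := fun _ => -(κ * s / h0 * d))
      (g := fun u => D s κ (y + u * t + d) - D s κ (y + u * t)) (by simp) hI (fun u _ => (hs u).1)
    simpa using h
  · have h := intervalIntegral.integral_mono_on (μ := MeasureTheory.volume) (a := 0) (b := 1)
      (by norm_num) (f := fun u => D s κ (y + u * t + d) - D s κ (y + u * t))
      (g := fun _ => κ * (h0 - s) / h0 * d) hI (by simp) (fun u _ => (hs u).2)
    simpa using h

/-- The general form of `slack_mono`. -/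
theorem slack_mono2 (hs0 : 0 ≤ s) (hs1 : s < h0) (hκ : 0 ≤ κ) {X A C : ℝ}
    (hM : MonoAt s κ X A C) {d : ℝ} (hd : 0 ≤ d) (y t : ℝ) :
    A * mn (D s κ) (y + d) (y + d + t) ≤ A * mn (D s κ) y (y + t) + (X / h0 + C) * d := by
  have hp := h0_pos
  obtain ⟨h1, h2⟩ := mn_slope2 hs0 hs1 hκ hd y t
  set M := mn (D s κ) (y + d) (y + d + t) - mn (D s κ) y (y + t) with hMd
  have e : A * mn (D s κ) (y + d) (y + d + t) = A * mn (D s κ) y (y + t) + A * M := by
    rw [hMd]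
    ring
  rw [e]
  have hA : A = max A 0 - max (-A) 0 := by
    rcases le_total 0 A with h | h
    · rw [max_eq_left h, max_eq_right (by linarith)]; ring
    · rw [max_eq_right h, max_eq_left (by linarith)]; ring
  have a1 : 0 ≤ max A 0 := le_max_right _ _
  have a2 : 0 ≤ max (-A) 0 := le_max_right _ _
  have b1 : max A 0 * M ≤ max A 0 * (κ * (h0 - s) / h0 * d) := mul_le_mul_of_nonneg_left h2 a1
  have b2 : max (-A) 0 * -(κ * s / h0 * d) ≤ max (-A) 0 * M := mul_le_mul_of_nonneg_left h1 a2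
  have b3 : A * M ≤ (κ * (h0 - s) * max A 0 + κ * s * max (-A) 0) / h0 * d := by
    have e3 : A * M = max A 0 * M - max (-A) 0 * M := by
      nth_rewrite 1 [hA]
      ring
    have e4 : (κ * (h0 - s) * max A 0 + κ * s * max (-A) 0) / h0 * d =
        max A 0 * (κ * (h0 - s) / h0 * d) - max (-A) 0 * -(κ * s / h0 * d) := by
      field_simp
      ring
    rw [e3, e4]
    linarith
  have b4 : (κ * (h0 - s) * max A 0 + κ * s * max (-A) 0) / h0 ≤ X / h0 + C := by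
    unfold MonoAt at hM
    rw [div_le_iff₀ hp]
    have : (X / h0 + C) * h0 = X + h0 * C := by
      field_simp
    linarith
  have := mul_le_mul_of_nonneg_right b4 hd
  linarith

/-- The floor function grows with the height. -/
theorem UF_up (hs0 : 0 ≤ s) (hs1 : s < h0) (hκ : 0 ≤ κ) {X y z : ℝ}
    (hM : MonoAt s κ X (R X |z - y|) (μ / h0 * Xi X |z - y|)) {d : ℝ} (hd : 0 ≤ d) :
    UF κ s μ w R Xi X y z ≤ UF κ s μ w R Xi X (y + d) (z + d) := by
  have hp := h0_pos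
  have e1 : z + d - (y + d) = z - y := by ring
  have e2 : min (y + d) (z + d) = min y z + d := min_add_add_right _ _ _
  have e3 : max (y + d) (z + d) = max y z + d := max_add_add_right _ _ _
  have key := slack_mono2 hs0 hs1 hκ hM hd (min y z) (max y z - jn |z - y| * h0 - min y z)
  unfold UF Qd
  rw [e1, e2, e3]
  have e4 : min y z + d + (max y z - jn |z - y| * h0 - min y z) =
      max y z + d - jn |z - y| * h0 := by ring
  have e5 : min y z + (max y z - jn |z - y| * h0 - min y z) = max y z - jn |z - y| * h0 := by ring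
  rw [e4, e5] at key
  set m1 := mn (D s κ) (min y z + d) (max y z + d - jn |z - y| * h0)
  set m0 := mn (D s κ) (min y z) (max y z - jn |z - y| * h0)
  set r := R X |z - y|
  set x := Xi X |z - y|
  have e6 : X * (w + (y + d + (z + d)) / (2 * h0)) = X * (w + (y + z) / (2 * h0)) + X / h0 * d := by
    field_simp
    ring
  have e7 : μ * ((y + d + (z + d) - s) / (2 * h0)) * x =
      μ * ((y + z - s) / (2 * h0)) * x + μ / h0 * x * d := by
    field_simp
    ring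
  rw [e6, e7]
  have e8 : (X / h0 + μ / h0 * x) * d = X / h0 * d + μ / h0 * x * d := by ring
  rw [e8] at key
  linarith

/-- `MonoAt` between two nodes. -/
theorem mono_between (hs0 : 0 ≤ s) (hs1 : s < h0) (hκ : 0 ≤ κ) {a b X α β α' β' : ℝ} (h1 : a ≤ X)
    (h2 : X ≤ b) (ha : MonoAt s κ a (α * a + β) (α' * a + β'))
    (hb : MonoAt s κ b (α * b + β) (α' * b + β')) :
    MonoAt s κ X (α * X + β) (α' * X + β') := by
  have hp := h0_pos
  rcases (h1.trans h2).eq_or_lt with h | h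
  · have : X = a := by linarith
    rw [this]
    exact ha
  unfold MonoAt at *
  have hba : 0 < b - a := by linarith
  set l := (X - a) / (b - a) with hl
  have l0 : 0 ≤ l := div_nonneg (by linarith) hba.le
  have l1 : l ≤ 1 := by
    rw [hl, div_le_one hba]
    linarith
  have hX : X = (1 - l) * a + l * b := by
    rw [hl]
    field_simp
    ring
  have hmax : ∀ u v : ℝ, max ((1 - l) * u + l * v) 0 ≤ (1 - l) * max u 0 + l * max v 0 := by
    intro u v
    have m1 : 0 ≤ 1 - l := by linarith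
    apply max_le
    · exact add_le_add (mul_le_mul_of_nonneg_left (le_max_left _ _) m1)
        (mul_le_mul_of_nonneg_left (le_max_left _ _) l0)
    · exact add_nonneg (mul_nonneg m1 (le_max_right _ _)) (mul_nonneg l0 (le_max_right _ _))
  have e1 : α * X + β = (1 - l) * (α * a + β) + l * (α * b + β) := by
    rw [hX]
    ring
  have e2 : -(α * X + β) = (1 - l) * -(α * a + β) + l * -(α * b + β) := by
    rw [e1]
    ring
  have e3 : X + h0 * (α' * X + β') =
      (1 - l) * (a + h0 * (α' * a + β')) + l * (b + h0 * (α' * b + β')) := by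
    rw [hX]
    ring
  have c1 : 0 ≤ κ * (h0 - s) := mul_nonneg hκ (by linarith)
  have c2 : 0 ≤ κ * s := mul_nonneg hκ hs0
  have k1 := hmax (α * a + β) (α * b + β)
  have k2 := hmax (-(α * a + β)) (-(α * b + β))
  rw [← e1] at k1
  rw [← e2] at k2
  rw [e3]
  have k3 := mul_le_mul_of_nonneg_left k1 c1
  have k4 := mul_le_mul_of_nonneg_left k2 c2
  have k5 := mul_le_mul_of_nonneg_left ha (by linarith : 0 ≤ 1 - l)
  have k6 := mul_le_mul_of_nonneg_left hb l0
  calc κ * (h0 - s) * max (α * X + β) 0 + κ * s * max (-(α * X + β)) 0 ≤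
      κ * (h0 - s) * ((1 - l) * max (α * a + β) 0 + l * max (α * b + β) 0) +
      κ * s * ((1 - l) * max (-(α * a + β)) 0 + l * max (-(α * b + β)) 0) := add_le_add k3 k4
    _ = (1 - l) * (κ * (h0 - s) * max (α * a + β) 0 + κ * s * max (-(α * a + β)) 0) +
      l * (κ * (h0 - s) * max (α * b + β) 0 + κ * s * max (-(α * b + β)) 0) := by ring
    _ ≤ _ := add_le_add k5 k6

/-- The kernels are piecewise affine with the nodes `Nd`. -/
def PiecesF (R Xi : ℝ → ℝ → ℝ) (Nd : ℝ → ℝ → Prop) : Prop :=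
  ∀ X T : ℝ, 0 ≤ T → 1 ≤ X ^ 2 + T ^ 2 → X ^ 2 + T ^ 2 ≤ 3 →
    ∃ a b : ℝ, a ≤ X ∧ X ≤ b ∧ Nd a T ∧ Nd b T ∧
      (∀ u, a ≤ u → u ≤ b → 1 ≤ u ^ 2 + T ^ 2 ∧ u ^ 2 + T ^ 2 ≤ 3) ∧
      ∃ α β α' β' : ℝ, ∀ u, a ≤ u → u ≤ b → R u T = α * u + β ∧ Xi u T = α' * u + β'

/-- The part of the flux without density, for the lower disc on the floor. -/
noncomputable def BF (s μ : ℝ) (Xi : ℝ → ℝ → ℝ) (X T : ℝ) : ℝ :=
  ((1 / 2 - g s * μ) - μ * (T - s) / (2 * h0)) * Xi X T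

/-- The inequalities at the floor which have to be checked, for one vertex. -/
structure FloorC (κ s μ w : ℝ) (R Xi : ℝ → ℝ → ℝ) (Nd : ℝ → ℝ → Prop) : Prop where
  mono : ∀ X T, 0 ≤ T → T ≤ 1 → 0 < X → 1 ≤ X ^ 2 + T ^ 2 → X ^ 2 + T ^ 2 ≤ 3 → Nd X T →
    MonoAt s κ X (R X T) (μ / h0 * Xi X T)
  top : MonoAt s κ 1 (R 1 1) (μ / h0 * Xi 1 1)
  node : ∀ X T, 0 ≤ T → T ≤ 1 → 0 < X → 1 ≤ X ^ 2 + T ^ 2 → X ^ 2 + T ^ 2 ≤ 3 → Nd X T →
    (T ≤ h0 ∨ 1 - Real.sqrt (1 - T ^ 2) ≤ X) → 0 ≤ S0 s κ w X T (R X T) (BF s μ Xi X T)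
  steep : ∀ T, h0 ≤ T → T ≤ 1 → 0 ≤ S0 s κ w (1 - Real.sqrt (1 - T ^ 2)) T
    (R (1 - Real.sqrt (1 - T ^ 2)) T) (BF s μ Xi (1 - Real.sqrt (1 - T ^ 2)) T)
  long : ∀ X T, 0 ≤ T → 3 < X ^ 2 + T ^ 2 → X ^ 2 + T ^ 2 ≤ 2 * X →
    1 / 2 ≤ Av (UF κ s μ w R Xi) X 0 T

theorem FloorC.slack {Nd : ℝ → ℝ → Prop} (h : FloorC κ s μ w R Xi Nd) (hP : PiecesF R Xi Nd)
    {X T : ℝ} (hT : 0 ≤ T) (h1 : 1 ≤ X ^ 2 + T ^ 2) (h2 : X ^ 2 + T ^ 2 ≤ 2 * X)
    (h3 : X ^ 2 + T ^ 2 ≤ 3) : 0 ≤ S0 s κ w X T (R X T) (BF s μ Xi X T) := by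
  have hX : 1 / 2 ≤ X := by linarith
  have hT1 : T ^ 2 ≤ 1 := by nlinarith [sq_nonneg (X - 1)]
  have hT1' : T ≤ 1 := by nlinarith
  obtain ⟨a, b, h4, h5, h6, h7, h8, α, β, α', β', h9⟩ := hP X T hT h1 h3
  have hb := h8 b (h4.trans h5) le_rfl
  have hb0 : 0 < b := by linarith
  have hr := Real.sqrt_nonneg (1 - T ^ 2)
  have hr2 := Real.sq_sqrt (show 0 ≤ 1 - T ^ 2 by linarith)
  set r := Real.sqrt (1 - T ^ 2) with hrd
  have hlo : 1 - r ≤ X := by
    rcases le_total 1 X with h | h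
    · linarith
    · have : (1 - X) ^ 2 ≤ r ^ 2 := by rw [hr2]; nlinarith
      have := abs_le_of_sq_le_sq' this hr
      linarith [this.2]
  set M := mn (D s κ) 0 (tau T) with hM
  set c := (1 / 2 - g s * μ) - μ * (T - s) / (2 * h0) with hc
  have hA : ∀ u, a ≤ u → u ≤ b → S0 s κ w u T (R u T) (BF s μ Xi u T) =
      (w + T / (2 * h0) - α * M - c * α') * u + (-(β * M) - c * β' - 1 / 2) := by
    intro u hu1 hu2
    obtain ⟨e1, e2⟩ := h9 u hu1 hu2
    unfold S0 BF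
    rw [e1, e2, ← hM, ← hc]
    ring
  have hbS : 0 ≤ S0 s κ w b T (R b T) (BF s μ Xi b T) :=
    h.node b T hT hT1' hb0 hb.1 hb.2 h7 (Or.inr (hlo.trans h5))
  rw [hA X h4 h5]
  rw [hA b (h4.trans h5) le_rfl] at hbS
  have ha1 := h8 a le_rfl (h4.trans h5)
  rcases le_or_gt T h0 with h10 | h10
  · have ha0 : 0 < a := by
      by_contra hneg
      have h11 := h8 0 (not_lt.1 hneg) (by linarith)
      have h12 := h0_sq
      have hp := h0_pos
      nlinarith [h11.1]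
    have haS := h.node a T hT hT1' ha0 ha1.1 ha1.2 h6 (Or.inl h10)
    rw [hA a le_rfl (h4.trans h5)] at haS
    exact affine_nonneg h4 h5 haS hbS
  · rcases le_total a (1 - r) with h11 | h11
    · have h12 := h.steep T h10.le hT1'
      rw [← hrd, hA (1 - r) h11 (hlo.trans h5)] at h12
      exact affine_nonneg hlo h5 h12 hbS
    · rcases lt_or_ge 0 a with h12 | h12
      · have haS := h.node a T hT hT1' h12 ha1.1 ha1.2 h6 (Or.inr h11)
        rw [hA a le_rfl (h4.trans h5)] at haS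
        exact affine_nonneg h4 h5 haS hbS
      · have h13 : 1 ≤ r := by linarith
        have hp := h0_pos
        nlinarith [h0_sq]

theorem FloorC.monoAll {Nd : ℝ → ℝ → Prop} (h : FloorC κ s μ w R Xi Nd) (hP : PiecesF R Xi Nd)
    (hs0 : 0 ≤ s) (hs1 : s < h0) (hκ : 0 ≤ κ)
    {X T : ℝ} (hT : 0 ≤ T) (h1 : 1 ≤ X ^ 2 + T ^ 2) (h2 : X ^ 2 + T ^ 2 ≤ 2 * X)
    (h3 : X ^ 2 + T ^ 2 ≤ 3) : MonoAt s κ X (R X T) (μ / h0 * Xi X T) := by
  have hX : 1 / 2 ≤ X := by linarith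
  have hT1 : T ^ 2 ≤ 1 := by nlinarith [sq_nonneg (X - 1)]
  have hT1' : T ≤ 1 := by nlinarith
  rcases hT1'.eq_or_lt with ht | ht
  · -- the top
    have : X = 1 := by
      subst ht
      nlinarith [sq_nonneg (X - 1)]
    subst this
    subst ht
    exact h.top
  obtain ⟨a, b, h4, h5, h6, h7, h8, α, β, α', β', h9⟩ := hP X T hT h1 h3
  have hb := h8 b (h4.trans h5) le_rfl
  have hb0 : 0 < b := by linarith
  have ha1 := h8 a le_rfl (h4.trans h5)
  have ha0 : 0 < a := by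
    by_contra hneg
    have h11 := h8 0 (not_lt.1 hneg) (by linarith)
    nlinarith [h11.1]
  have ma := h.mono a T hT hT1' ha0 ha1.1 ha1.2 h6
  have mb := h.mono b T hT hT1' hb0 hb.1 hb.2 h7
  obtain ⟨a1, a2⟩ := h9 a le_rfl (h4.trans h5)
  obtain ⟨b1, b2⟩ := h9 b (h4.trans h5) le_rfl
  obtain ⟨x1, x2⟩ := h9 X h4 h5
  rw [a1, a2] at ma
  rw [b1, b2] at mb
  rw [x1, x2]
  have e : ∀ u : ℝ, μ / h0 * (α' * u + β') = μ / h0 * α' * u + μ / h0 * β' := fun u => by ring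
  rw [e] at ma mb ⊢
  exact mono_between hs0 hs1 hκ h4 h5 ma mb

/-- Short pairs. -/
theorem FloorC.short {Nd : ℝ → ℝ → Prop} (h : FloorC κ s μ w R Xi Nd) (hP : PiecesF R Xi Nd)
    (hs0 : 0 ≤ s) (hs1 : s < h0) (hκ : 0 ≤ κ) {X y z : ℝ} (hy : 0 ≤ y) (hz : 0 ≤ z)
    (h1 : 1 ≤ X ^ 2 + |z - y| ^ 2) (h2 : X ^ 2 + |z - y| ^ 2 ≤ 2 * X)
    (h3 : X ^ 2 + |z - y| ^ 2 ≤ 3) : 1 / 2 ≤ UF κ s μ w R Xi X y z := by
  have hp := h0_pos
  have main : ∀ y T : ℝ, 0 ≤ y → 0 ≤ T → 1 ≤ X ^ 2 + T ^ 2 → X ^ 2 + T ^ 2 ≤ 2 * X →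
      X ^ 2 + T ^ 2 ≤ 3 → 1 / 2 ≤ UF κ s μ w R Xi X y (y + T) := by
    intro y T hy hT h1 h2 h3
    have hM := h.monoAll hP hs0 hs1 hκ hT h1 h2 h3
    have hS := h.slack hP hT h1 h2 h3
    have e : |T - 0| = T := by rw [sub_zero, abs_of_nonneg hT]
    have up := UF_up (κ := κ) (s := s) (μ := μ) (w := w) (R := R) (Xi := Xi) (X := X) (y := 0)
      (z := T) hs0 hs1 hκ (by rw [e]; exact hM) hy
    rw [zero_add, add_comm T y] at up
    refine le_trans ?_ up
    unfold S0 BF at hS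
    unfold UF
    rw [e]
    have e2 : Qd R (D s κ) X 0 T = R X T * mn (D s κ) 0 (tau T) := by
      have := Qd_up R (D s κ) X (y := 0) hT
      rw [zero_add, zero_add] at this
      exact this
    rw [e2, zero_add]
    have e3 : ((1 / 2 - g s * μ) - μ * (T - s) / (2 * h0)) * Xi X T =
        (1 / 2 - g s * μ) * Xi X T - μ * ((T - s) / (2 * h0)) * Xi X T := by ring
    rw [e3] at hS
    linarith
  rcases le_total y z with h4 | h4
  · rw [abs_of_nonneg (by linarith : 0 ≤ z - y)] at h1 h2 h3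
    have := main y (z - y) hy (by linarith) h1 h2 h3
    rwa [show y + (z - y) = z by ring] at this
  · rw [abs_of_nonpos (by linarith : z - y ≤ 0)] at h1 h2 h3
    have := main z (-(z - y)) hz (by linarith) h1 h2 h3
    rw [show z + -(z - y) = y by ring, UF_comm] at this
    exact this

/-- The unit steps of a long pair at the floor. -/
theorem long_steps {X T : ℝ} (hT : 0 ≤ T) (h3 : 3 < X ^ 2 + T ^ 2)
    (h2 : X ^ 2 + T ^ 2 ≤ 2 * X) :
    (1 / 2 ≤ X / 2 - rr X T * T ∧ (X / 2 - rr X T * T) ^ 2 + (T / 2 + rr X T * X) ^ 2 = 1) ∧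
      (1 / 2 ≤ X / 2 + rr X T * T ∧ (X / 2 + rr X T * T) ^ 2 + (T / 2 - rr X T * X) ^ 2 = 1) := by
  have hX0 : 0 < X := by nlinarith
  have hX2 : X ≤ 2 := by nlinarith [sq_nonneg T]
  have hq := rr_sq (X := X) (T := T) (by linarith) (by linarith)
  have hr := rr_nonneg X T
  set r := rr X T with hrd
  set ρ := X ^ 2 + T ^ 2 with hρ
  have u1 : (X / 2 - r * T) ^ 2 + (T / 2 + r * X) ^ 2 = 1 := by
    have : (X / 2 - r * T) ^ 2 + (T / 2 + r * X) ^ 2 = ρ / 4 + r ^ 2 * ρ := by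
      rw [hρ]
      ring
    rw [this, hq]
    ring
  have u2 : (X / 2 + r * T) ^ 2 + (T / 2 - r * X) ^ 2 = 1 := by
    have : (X / 2 + r * T) ^ 2 + (T / 2 - r * X) ^ 2 = ρ / 4 + r ^ 2 * ρ := by
      rw [hρ]
      ring
    rw [this, hq]
    ring
  have hrT : 0 ≤ r * T := mul_nonneg hr hT
  have key : (2 * (r * T)) ^ 2 ≤ (X - 1) ^ 2 := by
    have k1 : (2 * (r * T)) ^ 2 * ρ = (4 - ρ) * T ^ 2 := by
      have : (2 * (r * T)) ^ 2 * ρ = 4 * (r ^ 2 * ρ) * T ^ 2 := by ring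
      rw [this, hq]
      ring
    have k2 : (4 - ρ) * T ^ 2 ≤ (X - 1) ^ 2 * ρ := by
      have hT2 : T ^ 2 = ρ - X ^ 2 := by
        rw [hρ]
        ring
      rw [hT2]
      nlinarith [mul_nonneg (sub_nonneg.2 h2) (by linarith : (0 : ℝ) ≤ 2 * X),
        mul_nonneg (by linarith : (0 : ℝ) ≤ ρ) (by linarith : (0 : ℝ) ≤ ρ - 3)]
    have hρ0 : 0 < ρ := by linarith
    rw [← k1] at k2
    exact le_of_mul_le_mul_right k2 hρ0
  have hX1 : 1 ≤ X := by linarith
  have := abs_le_of_sq_le_sq' key (by linarith)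
  exact ⟨⟨by linarith [this.2], u1⟩, ⟨by linarith, u2⟩⟩

/-- Long pairs. -/
theorem FloorC.longPair {Nd : ℝ → ℝ → Prop} (h : FloorC κ s μ w R Xi Nd) (hP : PiecesF R Xi Nd)
    (hs0 : 0 ≤ s) (hs1 : s < h0) (hκ : 0 ≤ κ) {X y z : ℝ} (hy : 0 ≤ y) (hz : 0 ≤ z)
    (h3 : 3 < X ^ 2 + |z - y| ^ 2) (h2 : X ^ 2 + |z - y| ^ 2 ≤ 2 * X) :
    1 / 2 ≤ Av (UF κ s μ w R Xi) X y z := by
  have hp := h0_pos
  have unit : ∀ X' T' : ℝ, 1 / 2 ≤ X' → X' ^ 2 + T' ^ 2 = 1 →
      MonoAt s κ X' (R X' |T'|) (μ / h0 * Xi X' |T'|) := by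
    intro X' T' k1 k2
    exact h.monoAll hP hs0 hs1 hκ (abs_nonneg _) (by rw [sq_abs]; linarith)
      (by rw [sq_abs]; linarith) (by rw [sq_abs]; linarith)
  have main : ∀ y T : ℝ, 0 ≤ y → 0 ≤ T → 3 < X ^ 2 + T ^ 2 → X ^ 2 + T ^ 2 ≤ 2 * X →
      1 / 2 ≤ Av (UF κ s μ w R Xi) X y (y + T) := by
    intro y T hy hT h3 h2
    refine (h.long X T hT h3 h2).trans ?_
    obtain ⟨⟨a1, a2⟩, ⟨b1, b2⟩⟩ := long_steps hT h3 h2
    unfold Av
    rw [sub_zero, zero_add, add_sub_cancel_left]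
    set r := rr X T
    have c1 : (y + (y + T)) / 2 + r * X = T / 2 + r * X + y := by ring
    have c2 : (y + (y + T)) / 2 - r * X = T / 2 - r * X + y := by ring
    rw [c1, c2]
    have d1 := UF_up (κ := κ) (s := s) (μ := μ) (w := w) (R := R) (Xi := Xi)
      (X := X / 2 - r * T) (y := 0) (z := T / 2 + r * X) hs0 hs1 hκ (by
        rw [sub_zero]; exact unit _ _ a1 a2) hy
    have d2 := UF_up (κ := κ) (s := s) (μ := μ) (w := w) (R := R) (Xi := Xi)
      (X := X / 2 + r * T) (y := T / 2 + r * X) (z := T) hs0 hs1 hκ (by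
        rw [show T - (T / 2 + r * X) = T / 2 - r * X by ring]; exact unit _ _ b1 b2) hy
    have d3 := UF_up (κ := κ) (s := s) (μ := μ) (w := w) (R := R) (Xi := Xi)
      (X := X / 2 + r * T) (y := 0) (z := T / 2 - r * X) hs0 hs1 hκ (by
        rw [sub_zero]; exact unit _ _ b1 b2) hy
    have d4 := UF_up (κ := κ) (s := s) (μ := μ) (w := w) (R := R) (Xi := Xi)
      (X := X / 2 - r * T) (y := T / 2 - r * X) (z := T) hs0 hs1 hκ (by
        rw [show T - (T / 2 - r * X) = T / 2 + r * X by ring]; exact unit _ _ a1 a2) hy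
    rw [zero_add] at d1 d3
    rw [add_comm T y] at d2 d4
    linarith
  rcases le_total y z with h4 | h4
  · rw [abs_of_nonneg (by linarith : 0 ≤ z - y)] at h2 h3
    have := main y (z - y) hy (by linarith) h3 h2
    rwa [show y + (z - y) = z by ring] at this
  · rw [abs_of_nonpos (by linarith : z - y ≤ 0)] at h2 h3
    have := main z (-(z - y)) hz (by linarith) h3 h2
    rw [show z + -(z - y) = y by ring] at this
    have hc : Av (UF κ s μ w R Xi) X z y = Av (UF κ s μ w R Xi) X y z := by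
      unfold Av
      have e : rr X (y - z) = rr X (z - y) := by
        rw [show y - z = -(z - y) by ring, rr_neg']
      rw [e]
      set r := rr X (z - y)
      rw [show X / 2 - r * (y - z) = X / 2 + r * (z - y) by ring,
        show X / 2 + r * (y - z) = X / 2 - r * (z - y) by ring, add_comm z y]
      rw [UF_comm (X / 2 + r * (z - y)) z, UF_comm (X / 2 - r * (z - y)) _ y,
        UF_comm (X / 2 - r * (z - y)) z, UF_comm (X / 2 + r * (z - y)) _ y]
      ring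
    rwa [hc] at this

end

/-! ### The floor inequalities of the certificate -/

/-- The two-apex average of the floor function. -/
theorem Av_floor (Q : ℝ → ℝ → ℝ → ℝ) (w c X y z : ℝ) :
    Av (fun X y z => X * (w + (y + z) / (2 * h0)) - Q X (y - c) (z - c)) X y z =
      X * (w + (y + z) / (2 * h0)) - Av Q X (y - c) (z - c) := by
  have hp := h0_pos
  unfold Av
  rw [show z - c - (y - c) = z - y by ring]
  set r := rr X (z - y)
  rw [show (y - c + (z - c)) / 2 + r * X = (y + z) / 2 + r * X - c by ring,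
    show (y - c + (z - c)) / 2 - r * X = (y + z) / 2 - r * X - c by ring]
  field_simp
  ring

theorem Qc_dn (κ s : ℝ) (R : ℝ → ℝ → ℝ) (X y z : ℝ) :
    Qc κ s R X (y - s / 2) (z - s / 2) = Qd R (D s κ) X y z := by
  unfold Qc
  rw [sub_add_cancel, sub_add_cancel]

/-- The floor inequality for a vertex with the kernel `R`. -/
theorem floorAt_of {T : Tab} {N0 : ℕ} {κ s μ : ℝ} (hs0 : 0 ≤ s) (hs1 : s < h0) (hκ : 0 ≤ κ)
    {R : ℝ → ℝ → ℝ} {Nd : ℝ → ℝ → Prop}
    (hQ : ∀ X y z, (T.data N0 κ s).Q μ (-(1 / 2 - g s * μ)) X (y - s / 2) (z - s / 2) =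
      Qd R (D s κ) X y z + (1 / 2 - g s * μ) * T.Xi X |z - y| -
        μ * ((y + z - s) / (2 * h0)) * T.Xi X |z - y|)
    (hP : PiecesF R T.Xi Nd) (h : FloorC κ s μ (1 / 2 - we s - μ * wq s) R T.Xi Nd) :
    FloorAt (T.full N0 κ s) s μ := by
  intro p q m k1 k2 k3 k4 k5 k6
  obtain ⟨g1, g2, g3⟩ := floor_geo k1 k2 k3 k4 k5 k6
  set w := 1 / 2 - we s - μ * wq s with hw
  have hds : ds (dn s p) (dn s q) = (q.1 - p.1) ^ 2 + |q.2 - p.2| ^ 2 := by
    unfold ds dn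
    rw [sq_abs]
    ring
  have hUF : UF κ s μ w R T.Xi = fun X y z => X * (w + (y + z) / (2 * h0)) -
      (T.data N0 κ s).Q μ (-(1 / 2 - g s * μ)) X (y - s / 2) (z - s / 2) := by
    funext X y z
    rw [hQ]
    unfold UF
    ring
  rcases le_or_gt ((q.1 - p.1) ^ 2 + |q.2 - p.2| ^ 2) 3 with h3 | h3
  · rw [Tab.ed_short (by rw [hds]; exact h3)]
    have key := h.short hP hs0 hs1 hκ k2 k3 g2 g3 h3
    rw [hUF] at key
    unfold ed dn
    exact key
  · have h4 : (q.1 - p.1) ^ 2 + |q.2 - p.2| ^ 2 ≤ 4 := by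
      have : q.1 - p.1 ≤ 2 := by nlinarith [sq_nonneg |q.2 - p.2|]
      linarith
    rw [Tab.ed_long (by rw [hds]; exact h3) (by rw [hds]; exact h4)]
    have key := h.longPair hP hs0 hs1 hκ k2 k3 h3 g3
    rw [hUF, Av_floor] at key
    unfold dn
    exact key

/-- `floorF`. -/
theorem floorF_of {T : Tab} {N0 : ℕ} {κ s : ℝ} (hs0 : 0 ≤ s) (hs1 : s < h0) (hκ : 0 ≤ κ)
    {Nd : ℝ → ℝ → Prop} (hP : T.Pieces Nd) (h : FloorC κ s 0 (1 / 2 - we s) T.A T.Xi Nd) :
    FloorAt (T.full N0 κ s) s 0 := by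
  refine floorAt_of (R := T.A) (Nd := Nd) hs0 hs1 hκ ?_ ?_ ?_
  · intro X y z
    have e : -(1 / 2 - g s * 0) = -(1 / 2 : ℝ) := by ring
    rw [e, Tab.Q_far, Qc_dn, show z - s / 2 - (y - s / 2) = z - y by ring]
    ring
  · intro X t h1 h2 h3
    obtain ⟨a, b, a1, a2, a3, a4, a5, ⟨α, β, a6⟩, -, ⟨α', β', a7⟩⟩ := hP X t h1 h2 h3
    exact ⟨a, b, a1, a2, a3, a4, a5, α, β, α', β', fun u u1 u2 => ⟨a6 u u1 u2, a7 u u1 u2⟩⟩
  · rw [zero_mul, sub_zero]
    exact h

/-- `floorN`. -/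
theorem floorN_of {T : Tab} {N0 : ℕ} {κ s : ℝ} (hs0 : 0 ≤ s) (hs1 : s < h0) (hκ : 0 ≤ κ)
    {Nd : ℝ → ℝ → Prop} (hP : T.Pieces Nd)
    (h : FloorC κ s (mu N0 s) (1 / 2 - we s - mu N0 s * wq s) T.B T.Xi Nd) :
    FloorAt (T.full N0 κ s) s (mu N0 s) := by
  have hg : 0 < g s := by linarith [g_gt_half hs0 hs1]
  have hN0 : (0 : ℝ) ≤ N0 := Nat.cast_nonneg N0
  have hm : mu N0 s ≠ 0 := by
    unfold mu
    positivity
  refine floorAt_of (R := T.B) (Nd := Nd) hs0 hs1 hκ ?_ ?_ h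
  · intro X y z
    unfold Data.Q Tab.data
    simp only
    rw [Qc_dn, Qc_dn, show z - s / 2 - (y - s / 2) = z - y by ring]
    field_simp
    ring
  · intro X t h1 h2 h3
    obtain ⟨a, b, a1, a2, a3, a4, a5, -, ⟨α, β, a6⟩, ⟨α', β', a7⟩⟩ := hP X t h1 h2 h3
    exact ⟨a, b, a1, a2, a3, a4, a5, α, β, α', β', fun u u1 u2 => ⟨a6 u u1 u2, a7 u u1 u2⟩⟩

end Pool.Agent.Strip051.LC
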