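import Pool.Agent.Strip051.LC.Exact.SmallX

/-! # Direct statements for all phases, and a third kernel

`tri_dir` is the reduction of the small triangles to the triangles with two nodes for an arbitrary
flux.  The third kernel `C` with the density `f` is a further term of the order `mu`. -/

namespace Pool.Agent.Strip051.LC

open Pool.Agent.StripNear Pool.Agent.StripSquare Pool.Agent.Strip051.Sweep
open Pool.Agent.Strip051.LC.Line (Qd D mn jn tau NG ng_slack Node Two rx cr_rx Qd_up mn_symm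
  mn_shift mn_mirror D_refl D_add_nat)

/-! ### The reduction for an arbitrary flux -/

/-- **Small triangles from the triangles with two nodes**, for all phases. -/
theorem tri_dir {Q : ℝ → ℝ → ℝ → ℝ} {Φ : ℝ → ℝ → ℝ → Prop} {Nd : ℝ → ℝ → Prop}
    (anti : ∀ X y z, Q (-X) z y = -Q X y z) (comm : ∀ X y z, Q X z y = Q X y z)
    (hNd : ∀ X t, Nd X t → Nd (-X) t) (hΦr : ∀ a b c, Φ a b c → Φ b c a)
    (hΦs : ∀ a b c, Φ a b c → Φ a c b) (hP : QPieces Q (Node Nd))
    (hF : Fams Nd (fun X12 X13 t t' => ∀ y, Φ y (y + t) (y + (t + t')) →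
      0 ≤ exn X12 X13 t t' + (Q X12 y (y + t) + Q (X13 - X12) (y + t) (y + (t + t')) -
        Q X13 y (y + (t + t'))))) :
    ∀ p q r : Pt, 0 ≤ cr p q r → 1 ≤ ds p q → 1 ≤ ds q r → 1 ≤ ds p r → ds p q ≤ 3 →
      ds q r ≤ 3 → ds p r ≤ 3 → Φ p.2 q.2 r.2 → 1 / 2 ≤ cr p q r / (2 * h0) + fl Q p q r := by
  refine bulk_tri_of_corners' (N := Node Nd) (Φ := Φ) (Q := Q) hΦr hP ?_
  intro p q r h0c a1 a2 a3 b1 b2 b3 n1 n2 hφ
  refine nf_all (T := fun p q r => Φ p.2 q.2 r.2 → 1 / 2 ≤ cr p q r / (2 * h0) + fl Q p q r)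
    (Nd := Nd) ?_ ?_ hNd ?_ h0c a1 a2 a3 b1 b2 b3 (Or.inl ⟨n1, n2⟩) hφ
  · intro p q r h hφ
    have := h (hΦr _ _ _ hφ)
    rwa [cr_rot, fl_rot] at this
  · intro p q r h hφ
    exact Tr_mirror comm (h (hΦs _ _ _ hφ))
  · intro p q r h1 h2 h0c a1 a2 a3 b1 b2 b3 hN hφ
    obtain ⟨hn, -⟩ := nf_base _ hF h1 h2 h0c a1 a2 a3 b1 b2 b3 hN
    have key := hn p.2 (by
      rw [show p.2 + (q.2 - p.2) = q.2 by ring,
        show p.2 + (q.2 - p.2 + (r.2 - q.2)) = r.2 by ring]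
      exact hφ)
    rw [show p.2 + (q.2 - p.2) = q.2 by ring,
      show p.2 + (q.2 - p.2 + (r.2 - q.2)) = r.2 by ring,
      show r.1 - p.1 - (q.1 - p.1) = r.1 - q.1 by ring] at key
    have e1 : Q (p.1 - r.1) r.2 p.2 = -Q (r.1 - p.1) p.2 r.2 := by
      rw [← anti]
      congr 1
      ring
    have e2 : cr p q r = (q.1 - p.1) * (q.2 - p.2 + (r.2 - q.2)) - (r.1 - p.1) * (q.2 - p.2) := by
      unfold cr
      ring
    unfold exn at key
    unfold fl ed
    rw [e1, e2]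
    linarith

/-! ### The flux of the kernel in normal form -/

/-- The flux of the kernel around a triangle in normal form, `y` is the phase. -/
noncomputable def kf (κ s : ℝ) (r : ℝ × ℝ × ℝ) (t t' y : ℝ) : ℝ :=
  r.1 * mn (D s κ) y (y + tau t) + r.2.1 * mn (D s κ) (y + t) (y + t + tau t') -
    r.2.2 * mn (D s κ) y (y + tau (t + t'))

/-- The flux of the third kernel around a triangle in normal form. -/
noncomputable def pf (f : ℝ → ℝ) (c : ℝ × ℝ × ℝ) (t t' y : ℝ) : ℝ :=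
  c.1 * (∫ x in y..(y + t), f x) + c.2.1 * (∫ x in (y + t)..(y + (t + t')), f x) -
    c.2.2 * ∫ x in y..(y + (t + t')), f x

/-- The modulus inequality implies the direct statement. -/
theorem NGV.dir {κ s ex t t' : ℝ} {r : ℝ × ℝ × ℝ} (h : NGV κ s ex t t' r) (hκ : 0 ≤ κ)
    (hs0 : 0 ≤ s) (hs1 : s < h0) (ht : 0 ≤ t) (ht' : 0 ≤ t') (hT : t + t' ≤ 2 * h0) (y : ℝ) :
    0 ≤ ex + kf κ s r t t' y := by
  set R : ℝ → ℝ → ℝ := fun X _ => if X = 1 then r.1 else if X = 2 then r.2.1 else r.2.2 with hR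
  have r1 : ∀ u, R 1 u = r.1 := fun u => by simp [hR]
  have r2 : ∀ u, R (3 - 1) u = r.2.1 := fun u => by norm_num [hR]
  have r3 : ∀ u, R 3 u = r.2.2 := fun u => by norm_num [hR]
  have key : NG κ s ex R 1 3 t t' := by
    rcases h with ⟨a, b, c, d⟩ | ⟨a, b, c, d⟩ | ⟨a, b, c, d, e⟩ | ⟨a, b, c, d, e⟩ |
      ⟨a, b, c, d, e⟩ | ⟨a, b, c, d, e⟩ | ⟨a, b⟩ | ⟨a, b⟩
    · exact .pp a b c (by simpa only [r1, r2, r3] using d)
    · exact .nn a b c (by simpa only [r1, r2, r3] using d)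
    · exact .pnp a b c d (by simpa only [r1, r2, r3] using e)
    · exact .pnn a b c d (by simpa only [r1, r2, r3] using e)
    · exact .npp a b c d (by simpa only [r1, r2, r3] using e)
    · exact .npn a b c d (by simpa only [r1, r2, r3] using e)
    · exact .up a (by simpa only [r1, r2, r3] using b)
    · exact .dn a (by simpa only [r1, r2, r3] using b)
  have := ng_slack hκ hs0 hs1 ht ht' hT key y
  rw [Qd_up R _ _ ht, Qd_up R _ _ ht', Qd_up R _ _ (by linarith), r1 t, r2 t', r3 (t + t')]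
    at this
  exact this

theorem kf_mirror {κ s : ℝ} (hs0 : 0 ≤ s) (hs1 : s < h0) (a b c t t' y : ℝ) :
    kf κ s (-b, -a, -c) t' t (s - (y + (t + t'))) = kf κ s (a, b, c) t t' y := by
  have hm : ∀ A B : ℝ, mn (D s κ) (s - A) (s - B) = -mn (D s κ) A B := fun A B =>
    mn_mirror (fun z => D_refl κ hs0 hs1 z) A B
  have hsh : ∀ (k : ℕ) (A B : ℝ), mn (D s κ) (A + k * h0) (B + k * h0) = mn (D s κ) A B :=
    fun k A B => mn_shift (fun x => D_add_nat s κ x k) A B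
  have e1 : mn (D s κ) (s - (y + (t + t'))) (s - (y + (t + t')) + tau t') =
      -mn (D s κ) (y + t) (y + t + tau t') := by
    rw [show s - (y + (t + t')) + tau t' = s - (y + (t + t') - tau t') by ring, hm, mn_symm,
      ← hsh (jn t') (y + t) (y + t + tau t')]
    unfold tau
    congr 2 <;> ring
  have e2 : mn (D s κ) (s - (y + (t + t')) + t') (s - (y + (t + t')) + t' + tau t) =
      -mn (D s κ) y (y + tau t) := by
    rw [show s - (y + (t + t')) + t' = s - (y + t) by ring,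
      show s - (y + t) + tau t = s - (y + t - tau t) by ring, hm, mn_symm,
      ← hsh (jn t) y (y + tau t)]
    unfold tau
    congr 2 <;> ring
  have e3 : mn (D s κ) (s - (y + (t + t'))) (s - (y + (t + t')) + tau (t' + t)) =
      -mn (D s κ) y (y + tau (t + t')) := by
    rw [add_comm t' t, show s - (y + (t + t')) + tau (t + t') =
      s - (y + (t + t') - tau (t + t')) by ring, hm, mn_symm,
      ← hsh (jn (t + t')) y (y + tau (t + t'))]
    unfold tau
    congr 2 <;> ring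
  unfold kf
  simp only
  rw [e1, e2, e3]
  ring

theorem pf_mirror {f : ℝ → ℝ} {s : ℝ} (hf : ∀ x, f (s - x) = -f x) (a b c t t' y : ℝ) :
    pf f (-b, -a, -c) t' t (s - (y + (t + t'))) = pf f (a, b, c) t t' y := by
  have key : ∀ A B : ℝ, ∫ x in (s - B)..(s - A), f x = -∫ x in A..B, f x := by
    intro A B
    rw [← intervalIntegral.integral_comp_sub_left (fun x => f x) s,
      ← intervalIntegral.integral_neg]
    exact intervalIntegral.integral_congr fun x _ => hf x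
  unfold pf
  simp only
  rw [show s - (y + (t + t')) + t' = s - (y + t) by ring,
    show s - (y + (t + t')) + (t' + t) = s - y by ring, key, key, key]
  ring

/-! ### The third kernel -/

/-- The properties of the third density. -/
structure DenOk (f : ℝ → ℝ) (s : ℝ) : Prop where
  cont : Continuous f
  per : ∀ x, f (x + h0) = f x
  mir : ∀ x, f (s - x) = -f x
  bdd : ∃ K, ∀ x, |f x| ≤ K

theorem denOk_zero (s : ℝ) : DenOk (fun _ => 0) s :=
  ⟨continuous_const, fun _ => rfl, fun _ => neg_zero.symm, 0, fun _ => by simp⟩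

/-- The flux of the third kernel; the heights are measured from the centre of a cell. -/
noncomputable def C3 (C : ℝ → ℝ → ℝ) (f : ℝ → ℝ) (s X y z : ℝ) : ℝ :=
  C X |z - y| * ∫ x in (min y z + s / 2)..(max y z + s / 2), f x

section

variable {C : ℝ → ℝ → ℝ} {f : ℝ → ℝ} {s : ℝ}

theorem C3_comm (X y z : ℝ) : C3 C f s X z y = C3 C f s X y z := by
  unfold C3
  rw [abs_sub_comm, min_comm, max_comm]

theorem C3_anti (hC : ∀ X t, C (-X) t = -C X t) (X y z : ℝ) :
    C3 C f s (-X) z y = -C3 C f s X y z := by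
  rw [C3_comm]
  unfold C3
  rw [hC]
  ring

theorem C3_per (hf : DenOk f s) (X y z : ℝ) : C3 C f s X (y + h0) (z + h0) = C3 C f s X y z := by
  unfold C3
  rw [show z + h0 - (y + h0) = z - y by ring, min_add_add_right, max_add_add_right,
    show min y z + h0 + s / 2 = min y z + s / 2 + h0 by ring,
    show max y z + h0 + s / 2 = max y z + s / 2 + h0 by ring,
    ← intervalIntegral.integral_comp_add_right (fun x => f x) h0]
  congr 1
  exact intervalIntegral.integral_congr fun x _ => hf.per x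

theorem C3_mir (hf : DenOk f s) (X y z : ℝ) : C3 C f s X (-y) (-z) = -C3 C f s X y z := by
  unfold C3
  have e1 : |-z - -y| = |z - y| := by
    rw [show -z - -y = -(z - y) by ring, abs_neg]
  have e2 : min (-y) (-z) + s / 2 = s - (max y z + s / 2) := by
    rw [min_neg_neg]
    ring
  have e3 : max (-y) (-z) + s / 2 = s - (min y z + s / 2) := by
    rw [max_neg_neg]
    ring
  rw [e1, e2, e3, ← intervalIntegral.integral_comp_sub_left (fun x => f x) s]
  have : ∫ x in (min y z + s / 2)..(max y z + s / 2), f (s - x) =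
      -∫ x in (min y z + s / 2)..(max y z + s / 2), f x := by
    rw [← intervalIntegral.integral_neg]
    exact intervalIntegral.integral_congr fun x _ => hf.mir x
  rw [this]
  ring

theorem C3_abs {K K' : ℝ} (hK : ∀ x, |f x| ≤ K) (X y z : ℝ) (hC : |C X (|z - y|)| ≤ K') :
    |C3 C f s X y z| ≤ K' * (K * |z - y|) := by
  unfold C3
  rw [abs_mul]
  have h1 : ‖∫ x in (min y z + s / 2)..(max y z + s / 2), f x‖ ≤
      K * |max y z + s / 2 - (min y z + s / 2)| :=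
    intervalIntegral.norm_integral_le_of_norm_le_const fun x _ => by
      rw [Real.norm_eq_abs]
      exact hK x
  rw [Real.norm_eq_abs, show max y z + s / 2 - (min y z + s / 2) = max y z - min y z by ring,
    max_sub_min_eq_abs', abs_abs, abs_sub_comm y z] at h1
  exact mul_le_mul hC h1 (abs_nonneg _) ((abs_nonneg _).trans hC)

/-- The flux of the third kernel around a triangle in normal form. -/
theorem C3_nf {X y t : ℝ} (ht : 0 ≤ t) :
    C3 C f s X (y - s / 2) (y + t - s / 2) = C X t * ∫ x in y..(y + t), f x := by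
  unfold C3
  rw [show y + t - s / 2 - (y - s / 2) = t by ring, abs_of_nonneg ht, min_eq_left (by linarith),
    max_eq_right (by linarith), sub_add_cancel, sub_add_cancel]

end

/-- The tables with a third kernel. -/
noncomputable def Tab.data3 (T : Tab) (C : ℝ → ℝ → ℝ) (f : ℝ → ℝ) (N0 : ℕ) (κ s : ℝ) : Data where
  R0 X y z := (T.data N0 κ s).R0 X y z
  R1 X y z := (T.data N0 κ s).R1 X y z + C3 C f s X y z
  R2 X y z := (T.data N0 κ s).R2 X y z

theorem Tab.Ok.data3 {T : Tab} (hT : T.Ok) {C : ℝ → ℝ → ℝ} {f : ℝ → ℝ} {N0 : ℕ} {κ s : ℝ}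
    (hκ : 0 ≤ κ) (hs0 : 0 ≤ s) (hs1 : s < h0) (hC : ∀ X t, C (-X) t = -C X t)
    (hCb : ∃ K, ∀ X t, |X| ≤ 2 → 0 ≤ t → |C X t| ≤ K) (hf : DenOk f s) :
    (T.data3 C f N0 κ s).Ok := by
  have hD := hT.data (N0 := N0) hκ hs0 hs1
  refine ⟨hD.anti0, ?_, hD.anti2, hD.per0, ?_, hD.per2, hD.mir0, ?_, hD.mir2, ?_⟩
  · intro X y z
    simp only [Tab.data3]
    rw [hD.anti1, C3_anti hC]
    ring
  · intro X y z
    simp only [Tab.data3]
    rw [hD.per1, C3_per hf]
    ring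
  · intro X y z
    simp only [Tab.data3]
    rw [hD.mir1, C3_mir hf]
    ring
  · intro M
    obtain ⟨K1, h1⟩ := hD.bdd M
    obtain ⟨K2, h2⟩ := hCb
    obtain ⟨K3, h3⟩ := hf.bdd
    have hK2 : 0 ≤ K2 := (abs_nonneg _).trans (h2 0 0 (by simp) le_rfl)
    have hK3 : 0 ≤ K3 := (abs_nonneg _).trans (h3 0)
    have hM : 0 ≤ 2 * |M| := by positivity
    have hp : 0 ≤ K2 * (K3 * (2 * |M|)) := by positivity
    refine ⟨K1 + K2 * (K3 * (2 * |M|)), ?_⟩
    intro X y z hX hy hz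
    obtain ⟨a1, a2, a3⟩ := h1 X y z hX hy hz
    have b := C3_abs (s := s) h3 X y z (h2 X |z - y| hX (abs_nonneg _))
    have c : |z - y| ≤ 2 * |M| := by
      have h1 : M ≤ |M| := le_abs_self M
      exact (abs_sub _ _).trans (by linarith)
    have d : K2 * (K3 * |z - y|) ≤ K2 * (K3 * (2 * |M|)) :=
      mul_le_mul_of_nonneg_left (mul_le_mul_of_nonneg_left c hK3) hK2
    simp only [Tab.data3]
    refine ⟨by linarith, ?_, by linarith⟩
    exact (abs_add_le _ _).trans (by linarith)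

theorem Tab.Q3 (T : Tab) (C : ℝ → ℝ → ℝ) (f : ℝ → ℝ) (N0 : ℕ) (κ s μ τ X y z : ℝ) :
    (T.data3 C f N0 κ s).Q μ τ X y z = (T.data N0 κ s).Q μ τ X y z + μ * C3 C f s X y z := by
  unfold Data.Q Tab.data3
  simp only
  ring

/-! ### The certificate -/

/-- The tables and the third kernel are piecewise affine, with common nodes. -/
def Pieces3 (T : Tab) (C : ℝ → ℝ → ℝ) (Nd : ℝ → ℝ → Prop) : Prop :=
  ∀ X t : ℝ, 0 ≤ t → 1 ≤ X ^ 2 + t ^ 2 → X ^ 2 + t ^ 2 ≤ 3 →
    ∃ a b : ℝ, a ≤ X ∧ X ≤ b ∧ Nd a t ∧ Nd b t ∧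
      (∀ u, a ≤ u → u ≤ b → 1 ≤ u ^ 2 + t ^ 2 ∧ u ^ 2 + t ^ 2 ≤ 3) ∧
      (∃ α β : ℝ, ∀ u, a ≤ u → u ≤ b → T.A u t = α * u + β) ∧
      (∃ α β : ℝ, ∀ u, a ≤ u → u ≤ b → T.B u t = α * u + β) ∧
      (∃ α β : ℝ, ∀ u, a ≤ u → u ≤ b → T.Xi u t = α * u + β) ∧
      (∃ α β : ℝ, ∀ u, a ≤ u → u ≤ b → C u t = α * u + β)

/-- The certificate for the small triangles in the direct form. -/
structure FixDir (T : Tab) (C : ℝ → ℝ → ℝ) (f : ℝ → ℝ) (Nd : ℝ → ℝ → Prop) (N0 : ℕ)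
    (a κ s : ℝ) : Prop where
  two : 2 ≤ N0
  a0 : 0 ≤ a
  κ0 : 0 ≤ κ
  s0 : 0 ≤ s
  s1 : s < h0
  ok : T.Ok
  oddC : ∀ X t, C (-X) t = -C X t
  bddC : ∃ K, ∀ X t, |X| ≤ 2 → 0 ≤ t → |C X t| ≤ K
  den : DenOk f s
  even : ∀ X t, Nd X t → Nd (-X) t
  pieces : Pieces3 T C Nd
  far : Fams Nd (fun X12 X13 t t' => ∀ y, 0 ≤ exn X12 X13 t t' + T.farX X12 X13 t t' +
    kf κ s (T.A X12 t, T.A (X13 - X12) t', T.A X13 (t + t')) t t' y)
  near : Fams Nd (fun X12 X13 t t' => ∀ l, t + t' - (N0 * h0 + s) - a ≤ l → l ≤ a → ∀ y,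
    0 ≤ exn X12 X13 t t' + T.levX N0 s l X12 X13 t t' +
      kf κ s (T.B X12 t, T.B (X13 - X12) t', T.B X13 (t + t')) t t' y +
      mu N0 s * pf f (C X12 t, C (X13 - X12) t', C X13 (t + t')) t t' y)

/-- The tables with a third kernel and zero flux on the long edges. -/
noncomputable def Tab.flat3 (T : Tab) (C : ℝ → ℝ → ℝ) (f : ℝ → ℝ) (N0 : ℕ) (κ s : ℝ) : Data :=
  (T.data3 C f N0 κ s).glue zeroData

section

variable {T : Tab} {C : ℝ → ℝ → ℝ} {f : ℝ → ℝ} {Nd : ℝ → ℝ → Prop} {N0 : ℕ} {a κ s : ℝ}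

theorem FixDir.gpos (h : FixDir T C f Nd N0 a κ s) : 0 < g s := by
  linarith [g_gt_half h.s0 h.s1]

theorem FixDir.mu_pos (h : FixDir T C f Nd N0 a κ s) (n : ℕ) : 0 < mu n s := by
  have := h.gpos
  have hn : (0 : ℝ) ≤ n := Nat.cast_nonneg n
  unfold mu
  positivity

theorem FixDir.ok3 (h : FixDir T C f Nd N0 a κ s) : (T.data3 C f N0 κ s).Ok :=
  h.ok.data3 h.κ0 h.s0 h.s1 h.oddC h.bddC h.den

theorem FixDir.okD (h : FixDir T C f Nd N0 a κ s) : (T.flat3 C f N0 κ s).Ok :=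
  h.ok3.glue zeroData_ok

theorem Qc_nf {κ s : ℝ} {R : ℝ → ℝ → ℝ} {X y t : ℝ} (ht : 0 ≤ t) :
    Qc κ s R X (y - s / 2) (y + t - s / 2) = R X t * mn (D s κ) y (y + tau t) := by
  unfold Qc
  rw [sub_add_cancel, sub_add_cancel, Qd_up R _ _ ht]

/-- The far vertex. -/
theorem FixDir.far_tri (h : FixDir T C f Nd N0 a κ s) (p q r : Pt) (h0c : 0 ≤ cr p q r)
    (a1 : 1 ≤ ds p q) (a2 : 1 ≤ ds q r) (a3 : 1 ≤ ds p r) (b1 : ds p q ≤ 3) (b2 : ds q r ≤ 3)
    (b3 : ds p r ≤ 3) : (T.data3 C f N0 κ s).Tr 0 (-(1 / 2)) p q r := by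
  have e0 : ∀ X y z, (T.data3 C f N0 κ s).Q 0 (-(1 / 2)) X y z =
      Qc κ s T.A X y z + 1 / 2 * T.Xi X |z - y| := by
    intro X y z
    rw [Tab.Q3, Tab.Q_far]
    ring
  refine tri_dir (Φ := fun _ _ _ => True) (h.ok3.anti 0 (-(1 / 2))) ?_ h.even
    (fun _ _ _ _ => trivial) (fun _ _ _ _ => trivial) ?_ ?_ p q r h0c a1 a2 a3 b1 b2 b3 trivial
  · intro X y z
    rw [e0, e0, Qc_comm, abs_sub_comm]
  · intro X y z h1 h2
    obtain ⟨a, b, h3, h4, h5, h6, h7, ⟨α, β, h8⟩, -, ⟨γ, δ, h9⟩, -⟩ := h.pieces X |z - y|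
      (abs_nonneg _) (by rwa [sq_abs]) (by rwa [sq_abs])
    have e : |z + s / 2 - (y + s / 2)| = |z - y| := by
      rw [show z + s / 2 - (y + s / 2) = z - y by ring]
    refine ⟨a, b, h3, h4, h5, h6, ?_, α * mn (D s κ) (min (y + s / 2) (z + s / 2))
      (max (y + s / 2) (z + s / 2) - jn |z - y| * h0) + 1 / 2 * γ,
      β * mn (D s κ) (min (y + s / 2) (z + s / 2))
      (max (y + s / 2) (z + s / 2) - jn |z - y| * h0) + 1 / 2 * δ, ?_⟩
    · intro u h9 h10
      have := h7 u h9 h10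
      rwa [sq_abs] at this
    · intro u k1 k2
      rw [e0]
      unfold Qc Qd
      rw [e, h8 u k1 k2, h9 u k1 k2]
      ring
  · intro X12 X13 t t' ht ht' k1 k2 k3 k4 k5 k6 k7 k8 y _
    have key := h.far X12 X13 t t' ht ht' k1 k2 k3 k4 k5 k6 k7 k8 (y + s / 2)
    have q1 := Qc_nf (κ := κ) (s := s) (R := T.A) (X := X12) (y := y + s / 2) ht
    have q2 := Qc_nf (κ := κ) (s := s) (R := T.A) (X := X13 - X12) (y := y + s / 2 + t) ht'
    have q3 := Qc_nf (κ := κ) (s := s) (R := T.A) (X := X13) (y := y + s / 2)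
      (add_nonneg ht ht')
    rw [show y + s / 2 - s / 2 = y by ring, show y + s / 2 + t - s / 2 = y + t by ring] at q1
    rw [show y + s / 2 + t - s / 2 = y + t by ring,
      show y + s / 2 + t + t' - s / 2 = y + (t + t') by ring] at q2
    rw [show y + s / 2 - s / 2 = y by ring,
      show y + s / 2 + (t + t') - s / 2 = y + (t + t') by ring] at q3
    rw [e0, e0, e0, q1, q2, q3, show y + t - y = t by ring,
      show y + (t + t') - (y + t) = t' by ring, show y + (t + t') - y = t + t' by ring,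
      abs_of_nonneg ht, abs_of_nonneg ht', abs_of_nonneg (add_nonneg ht ht')]
    unfold kf Tab.farX at key
    simp only at key
    linarith

/-- The near vertex at the level `L`. -/
theorem FixDir.near_tri (h : FixDir T C f Nd N0 a κ s) (p q r : Pt) (h0c : 0 ≤ cr p q r)
    (a1 : 1 ≤ ds p q) (a2 : 1 ≤ ds q r) (a3 : 1 ≤ ds p r) (b1 : ds p q ≤ 3) (b2 : ds q r ≤ 3)
    (b3 : ds p r ≤ 3) {L : ℝ} (hL1 : highest p.2 q.2 r.2 - (N0 * h0 + s) - a ≤ L)
    (hL2 : L ≤ lowest p.2 q.2 r.2 + a) :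
    (T.data3 C f N0 κ s).Tr (mu N0 s) (-(mu N0 s * (N0 / 2 + (s / 2 + L) / h0))) p q r := by
  have hm := (h.mu_pos N0).ne'
  set τ := -(mu N0 s * (N0 / 2 + (s / 2 + L) / h0)) with hτ
  have e0 : ∀ X y z, (T.data3 C f N0 κ s).Q (mu N0 s) τ X y z =
      Qc κ s T.B X y z +
        mu N0 s * ((N0 + s / h0) / 2 + (2 * L - (y + z)) / (2 * h0)) * T.Xi X |z - y| +
        mu N0 s * C3 C f s X y z := by
    intro X y z
    rw [Tab.Q3, hτ, Tab.Q_near _ hm]
  refine tri_dir (Φ := fun a' b' c' => highest a' b' c' - (N0 * h0 + s) - a ≤ L ∧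
      L ≤ lowest a' b' c' + a) (h.ok3.anti (mu N0 s) τ) ?_ h.even ?_ ?_ ?_ ?_ p q r h0c a1 a2 a3
    b1 b2 b3 ⟨hL1, hL2⟩
  · intro X y z
    rw [e0, e0, Qc_comm, abs_sub_comm, add_comm z y, C3_comm]
  · intro a b c h
    rwa [lowest_rot, highest_rot]
  · intro a' b' c' h'
    have e1 : highest a' c' b' = highest a' b' c' := by
      unfold highest
      rw [max_comm c' b']
    have e2 : lowest a' c' b' = lowest a' b' c' := by
      unfold lowest
      rw [min_comm c' b']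
    rwa [e1, e2]
  · intro X y z h1 h2
    obtain ⟨a, b, h3, h4, h5, h6, h7, -, ⟨α, β, h8⟩, ⟨γ, δ, h9⟩, ⟨ζ, η, h10⟩⟩ :=
      h.pieces X |z - y| (abs_nonneg _) (by rwa [sq_abs]) (by rwa [sq_abs])
    have e : |z + s / 2 - (y + s / 2)| = |z - y| := by
      rw [show z + s / 2 - (y + s / 2) = z - y by ring]
    refine ⟨a, b, h3, h4, h5, h6, ?_, α * mn (D s κ) (min (y + s / 2) (z + s / 2))
      (max (y + s / 2) (z + s / 2) - jn |z - y| * h0) +
        mu N0 s * ((N0 + s / h0) / 2 + (2 * L - (y + z)) / (2 * h0)) * γ +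
        mu N0 s * (ζ * ∫ x in (min y z + s / 2)..(max y z + s / 2), f x),
      β * mn (D s κ) (min (y + s / 2) (z + s / 2))
      (max (y + s / 2) (z + s / 2) - jn |z - y| * h0) +
        mu N0 s * ((N0 + s / h0) / 2 + (2 * L - (y + z)) / (2 * h0)) * δ +
        mu N0 s * (η * ∫ x in (min y z + s / 2)..(max y z + s / 2), f x), ?_⟩
    · intro u h9 h10
      have := h7 u h9 h10
      rwa [sq_abs] at this
    · intro u k1 k2
      rw [e0]
      unfold Qc Qd C3
      rw [e, h8 u k1 k2, h9 u k1 k2, h10 u k1 k2]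
      ring
  · intro X12 X13 t t' ht ht' k1 k2 k3 k4 k5 k6 k7 k8 y hφ
    have hlo : lowest y (y + t) (y + (t + t')) = y := by
      unfold lowest
      exact min_eq_left (le_min (by linarith) (by linarith))
    have hhi : highest y (y + t) (y + (t + t')) = y + (t + t') := by
      unfold highest
      rw [max_eq_right (by linarith : y + t ≤ y + (t + t'))]
      exact max_eq_right (by linarith)
    rw [hlo, hhi] at hφ
    have key := h.near X12 X13 t t' ht ht' k1 k2 k3 k4 k5 k6 k7 k8 (L - y) (by linarith [hφ.1])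
      (by linarith [hφ.2]) (y + s / 2)
    have q1 := Qc_nf (κ := κ) (s := s) (R := T.B) (X := X12) (y := y + s / 2) ht
    have q2 := Qc_nf (κ := κ) (s := s) (R := T.B) (X := X13 - X12) (y := y + s / 2 + t) ht'
    have q3 := Qc_nf (κ := κ) (s := s) (R := T.B) (X := X13) (y := y + s / 2)
      (add_nonneg ht ht')
    have p1 := C3_nf (C := C) (f := f) (s := s) (X := X12) (y := y + s / 2) ht
    have p2 := C3_nf (C := C) (f := f) (s := s) (X := X13 - X12) (y := y + s / 2 + t) ht'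
    have p3 := C3_nf (C := C) (f := f) (s := s) (X := X13) (y := y + s / 2)
      (add_nonneg ht ht')
    have w1 : y + s / 2 - s / 2 = y := by ring
    have w2 : y + s / 2 + t - s / 2 = y + t := by ring
    have w3 : y + s / 2 + t + t' - s / 2 = y + (t + t') := by ring
    have w4 : y + s / 2 + (t + t') - s / 2 = y + (t + t') := by ring
    have w5 : y + s / 2 + t + t' = y + s / 2 + (t + t') := by ring
    rw [w1, w2] at q1 p1
    rw [w2, w3] at q2 p2
    rw [w1, w4] at q3 p3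
    rw [w5] at p2
    rw [e0, e0, e0, q1, q2, q3, p1, p2, p3, show y + t - y = t by ring,
      show y + (t + t') - (y + t) = t' by ring, show y + (t + t') - y = t + t' by ring,
      abs_of_nonneg ht, abs_of_nonneg ht', abs_of_nonneg (add_nonneg ht ht')]
    unfold kf pf Tab.levX levXV at key
    simp only at key
    have k1 : mu N0 s * ((N0 + s / h0) / 2 + (2 * L - (y + (y + t))) / (2 * h0)) =
        mu N0 s * ((N0 + s / h0) / 2 + (L - y) / h0) - mu N0 s * (t / (2 * h0)) := by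
      ring
    have k2 : mu N0 s * ((N0 + s / h0) / 2 + (2 * L - (y + t + (y + (t + t')))) / (2 * h0)) =
        mu N0 s * ((N0 + s / h0) / 2 + (L - y) / h0) -
          mu N0 s * ((2 * t + t') / (2 * h0)) := by ring
    have k3 : mu N0 s * ((N0 + s / h0) / 2 + (2 * L - (y + (y + (t + t')))) / (2 * h0)) =
        mu N0 s * ((N0 + s / h0) / 2 + (L - y) / h0) - mu N0 s * ((t + t') / (2 * h0)) := by
      ring
    rw [k1, k2, k3]
    refine le_trans key (le_of_eq ?_)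
    ring

theorem FixDir.farS (h : FixDir T C f Nd N0 a κ s) {p q r : Pt} (k0 : 0 ≤ cr p q r)
    (k1 : 1 ≤ ds p q) (k2 : 1 ≤ ds q r) (k3 : 1 ≤ ds p r) (k4 : ds p q ≤ 3) (k5 : ds q r ≤ 3)
    (k6 : ds p r ≤ 3) : 0 ≤ cr p q r / (2 * h0) - 1 / 2 +
      fl ((T.flat3 C f N0 κ s).Q 0 (-(1 / 2))) (dn s p) (dn s q) (dn s r) := by
  have e1 : cr (dn s p) (dn s q) (dn s r) = cr p q r := cr_sh (s / 2) p q r
  have e2 : ∀ a b : Pt, ds (dn s a) (dn s b) = ds a b := fun a b => ds_sh (s / 2) a b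
  have := h.far_tri (dn s p) (dn s q) (dn s r)
    (by rw [e1]; exact k0) (by rw [e2]; exact k1) (by rw [e2]; exact k2) (by rw [e2]; exact k3)
    (by rw [e2]; exact k4) (by rw [e2]; exact k5) (by rw [e2]; exact k6)
  have k := (Data.glue_Tr (S := T.data3 C f N0 κ s) (L := zeroData)
    (by rw [e2]; exact k4) (by rw [e2]; exact k5) (by rw [e2]; exact k6)).2 this
  unfold Data.Tr at k
  rw [e1] at k
  unfold Tab.flat3
  linarith

theorem FixDir.level (h : FixDir T C f Nd N0 a κ s) {p q r : Pt} (k0 : 0 ≤ cr p q r)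
    (k1 : 1 ≤ ds p q) (k2 : 1 ≤ ds q r) (k3 : 1 ≤ ds p r) (k4 : ds p q ≤ 3) (k5 : ds q r ≤ 3)
    (k6 : ds p r ≤ 3) {L : ℝ} (l1 : highest p.2 q.2 r.2 - (N0 * h0 + s) - a ≤ L)
    (l2 : L ≤ lowest p.2 q.2 r.2 + a) :
    0 ≤ cr p q r / (2 * h0) - 1 / 2 +
      fl ((T.flat3 C f N0 κ s).nr N0 s L) (dn s p) (dn s q) (dn s r) := by
  have e1 : cr (dn s p) (dn s q) (dn s r) = cr p q r := cr_sh (s / 2) p q r
  have e2 : ∀ a b : Pt, ds (dn s a) (dn s b) = ds a b := fun a b => ds_sh (s / 2) a b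
  have := h.near_tri (dn s p) (dn s q) (dn s r) (by rw [e1]; exact k0)
    (by rw [e2]; exact k1) (by rw [e2]; exact k2) (by rw [e2]; exact k3) (by rw [e2]; exact k4)
    (by rw [e2]; exact k5) (by rw [e2]; exact k6) (L := L - s / 2)
    (by rw [highest_dn]; linarith) (by rw [lowest_dn]; linarith)
  rw [show s / 2 + (L - s / 2) = L by ring] at this
  have k := (Data.glue_Tr (S := T.data3 C f N0 κ s) (L := zeroData)
    (by rw [e2]; exact k4) (by rw [e2]; exact k5) (by rw [e2]; exact k6)).2 this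
  unfold Data.Tr at k
  rw [e1] at k
  unfold Tab.flat3 Data.nr
  linarith

/-- **All small triangles which leave the strip by at most `a` are good.** -/
theorem FixDir.small (h : FixDir T C f Nd N0 a κ s) {n : ℕ} (hn : N0 ≤ n) {p q r : Pt}
    (k0 : 0 ≤ cr p q r) (k1 : 1 ≤ ds p q) (k2 : 1 ≤ ds q r) (k3 : 1 ≤ ds p r)
    (k4 : ds p q ≤ 3) (k5 : ds q r ≤ 3) (k6 : ds p r ≤ 3) (hl : -a ≤ lowest p.2 q.2 r.2)
    (hu : highest p.2 q.2 r.2 ≤ n * h0 + s + a) :
    1 / 2 ≤ cr p q r / (2 * h0) + fl ((T.flat3 C f N0 κ s).QS n s) p q r := by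
  have hh := h0_pos
  have h2 : (2 : ℝ) ≤ N0 := by exact_mod_cast h.two
  have ha := h.a0
  have hs := h.s0
  set H := (n : ℝ) * h0 + s with hH
  have em : ∀ a b : Pt, ds (mir H a) (mir H b) = ds a b := fun a b => ds_mir H a b
  have ec := cr_mir H p q r
  have hhi := highest_le k4 k5 k6
  have e2 : 2 * h0 ≤ N0 * h0 + s + 2 * a := by nlinarith
  have f1 := h.farS k0 k1 k2 k3 k4 k5 k6
  have k0' : 0 ≤ cr (mir H r) (mir H q) (mir H p) := by rw [ec]; exact k0
  have k1' : 1 ≤ ds (mir H r) (mir H q) := by rw [em, ds_comm]; exact k2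
  have k2' : 1 ≤ ds (mir H q) (mir H p) := by rw [em, ds_comm]; exact k1
  have k3' : 1 ≤ ds (mir H r) (mir H p) := by rw [em, ds_comm]; exact k3
  have k4' : ds (mir H r) (mir H q) ≤ 3 := by rw [em, ds_comm]; exact k5
  have k5' : ds (mir H q) (mir H p) ≤ 3 := by rw [em, ds_comm]; exact k4
  have k6' : ds (mir H r) (mir H p) ≤ 3 := by rw [em, ds_comm]; exact k6
  have f2 := h.farS k0' k1' k2' k3' k4' k5' k6'
  have n1 := h.level k0 k1 k2 k3 k4 k5 k6 (L := lowest p.2 q.2 r.2 + a) (by linarith) le_rfl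
  have n2 := h.level k0' k1' k2' k3' k4' k5' k6'
    (L := lowest (mir H r).2 (mir H q).2 (mir H p).2 + a)
    (by rw [lowest_mir, highest_mir]; linarith) le_rfl
  rw [ec] at f2 n2
  have := hull3 h.okD hn h.gpos (A := cr p q r / (2 * h0) - 1 / 2) (δ := 0)
    (L := lowest p.2 q.2 r.2 + a) (L' := lowest (mir H r).2 (mir H q).2 (mir H p).2 + a)
    (by linarith) (by rw [lowest_mir]; linarith) f1 f2 n1 n2
  rw [mul_zero] at this
  linarith

end

/-! ### The explicit families -/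

section

variable {ι : Type}

/-- The symmetric direct property at the far vertex. -/
def farD (κ s : ℝ) (vA vX : ℝ → ι → ℝ) (X12 X13 t t' : ℝ)
    (w : (ℝ → ι → ℝ) → ℝ × ℝ × ℝ) : Prop :=
  ∀ y, 0 ≤ exn X12 X13 t t' - |farXV (w vX)| + kf κ s (w vA) t t' y

/-- The symmetric direct property at the near vertex with the level `a`. -/
def nearD (a : ℝ) (N0 : ℕ) (κ s : ℝ) (f : ℝ → ℝ) (vB vX vC : ℝ → ι → ℝ) (X12 X13 t t' : ℝ)
    (w : (ℝ → ι → ℝ) → ℝ × ℝ × ℝ) : Prop :=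
  ∀ y, 0 ≤ exn X12 X13 t t' + min (levXV N0 s a t t' (w vX))
    (levXV N0 s a t' t (-(w vX).2.1, -(w vX).1, -(w vX).2.2)) + kf κ s (w vB) t t' y +
    mu N0 s * pf f (w vC) t t' y

variable {κ s a : ℝ} {N0 : ℕ} {f : ℝ → ℝ} {vA vB vX vC : ℝ → ι → ℝ}

theorem farD_sym (hs0 : 0 ≤ s) (hs1 : s < h0) : Cur.Sym (farD κ s vA vX) := by
  intro X12 X13 t t' w h y
  have e : farXV (-(w vX).2.1, -(w vX).1, -(w vX).2.2) = -farXV (w vX) := by
    unfold farXV
    ring
  have := h (s - (y + (t + t')))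
  unfold Cur.flip at this
  rw [exn_mirror, e, abs_neg, kf_mirror hs0 hs1] at this
  exact this

theorem nearD_sym (hs0 : 0 ≤ s) (hs1 : s < h0) (hf : ∀ x, f (s - x) = -f x) :
    Cur.Sym (nearD a N0 κ s f vB vX vC) := by
  intro X12 X13 t t' w h y
  have := h (s - (y + (t + t')))
  unfold Cur.flip at this
  simp only [neg_neg] at this
  rw [exn_mirror, min_comm, kf_mirror hs0 hs1, pf_mirror hf] at this
  exact this

/-- The modulus inequality implies the direct property. -/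
theorem farS.dir {X12 X13 t t' : ℝ} {w : (ℝ → ι → ℝ) → ℝ × ℝ × ℝ}
    (h : farS κ s vA vX X12 X13 t t' w) (hκ : 0 ≤ κ) (hs0 : 0 ≤ s) (hs1 : s < h0)
    (ht : 0 ≤ t) (ht' : 0 ≤ t') (hT : t + t' ≤ 2 * h0) : farD κ s vA vX X12 X13 t t' w :=
  fun y => NGV.dir h hκ hs0 hs1 ht ht' hT y

/-- The modulus inequality with the loss `amp` implies the direct property with the third term. -/
theorem nearL.dir {X12 X13 t t' A : ℝ} {w : (ℝ → ι → ℝ) → ℝ × ℝ × ℝ}
    (h : NGV κ s (exn X12 X13 t t' + min (levXV N0 s a t t' (w vX))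
      (levXV N0 s a t' t (-(w vX).2.1, -(w vX).1, -(w vX).2.2)) - A) t t' (w vB))
    (hA : ∀ y, -A ≤ mu N0 s * pf f (w vC) t t' y) (hκ : 0 ≤ κ) (hs0 : 0 ≤ s) (hs1 : s < h0)
    (ht : 0 ≤ t) (ht' : 0 ≤ t') (hT : t + t' ≤ 2 * h0) :
    nearD a N0 κ s f vB vX vC X12 X13 t t' w := by
  intro y
  have h1 := h.dir hκ hs0 hs1 ht ht' hT y
  have h2 := hA y
  linarith

/-- **The far families in the direct form.** -/
theorem far_dir {n : ℕ} (K : Cur n ι) (hs0 : 0 ≤ s) (hs1 : s < h0) (hA : K.adm vA)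
    (hX : K.adm vX) (A : ∀ j k, j ≤ k → K.AllA (farD κ s vA vX) j k)
    (B : ∀ j k, K.AllB (farD κ s vA vX) j k) :
    Fams (NodeAt K.nodes) (fun X12 X13 t t' => ∀ y, 0 ≤ exn X12 X13 t t' +
      (tab K.nodes vA vB vX).farX X12 X13 t t' + kf κ s ((tab K.nodes vA vB vX).A X12 t,
        (tab K.nodes vA vB vX).A (X13 - X12) t', (tab K.nodes vA vB vX).A X13 (t + t')) t t'
        y) := by
  have hV : K.Congr (farD κ s vA vX) := by
    intro X12 X13 t t' w w' h hw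
    unfold farD at *
    rwa [← h vA hA, ← h vX hX]
  have key := Cur.fams_sym hV (farD_sym hs0 hs1) A B
  intro X12 X13 t t' a1 a2 a3 a4 a5 a6 a7 a8 a9 a10 y
  have h := key X12 X13 t t' a1 a2 a3 a4 a5 a6 a7 a8 a9 a10 y
  have e : (tab K.nodes vA vB vX).farX X12 X13 t t' = farXV (K.valK X12 X13 t t' vX) := rfl
  have e2 : ((tab K.nodes vA vB vX).A X12 t, (tab K.nodes vA vB vX).A (X13 - X12) t',
      (tab K.nodes vA vB vX).A X13 (t + t')) = K.valK X12 X13 t t' vA := rfl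
  rw [e, e2]
  linarith [neg_abs_le (farXV (K.valK X12 X13 t t' vX))]

/-- **The near families in the direct form.** -/
theorem near_dir {n : ℕ} (K : Cur n ι) (hs0 : 0 ≤ s) (hs1 : s < h0) (hf : ∀ x, f (s - x) = -f x)
    (hB : K.adm vB) (hX : K.adm vX) (hC : K.adm vC)
    (A : ∀ j k, j ≤ k → K.AllA (nearD a N0 κ s f vB vX vC) j k)
    (B : ∀ j k, K.AllB (nearD a N0 κ s f vB vX vC) j k) :
    Fams (NodeAt K.nodes) (fun X12 X13 t t' => ∀ l, t + t' - (N0 * h0 + s) - a ≤ l → l ≤ a →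
      ∀ y, 0 ≤ exn X12 X13 t t' + (tab K.nodes vA vB vX).levX N0 s l X12 X13 t t' +
        kf κ s ((tab K.nodes vA vB vX).B X12 t, (tab K.nodes vA vB vX).B (X13 - X12) t',
          (tab K.nodes vA vB vX).B X13 (t + t')) t t' y +
        mu N0 s * pf f (ker K.nodes vC (fun _ _ => 0) X12 t,
          ker K.nodes vC (fun _ _ => 0) (X13 - X12) t',
          ker K.nodes vC (fun _ _ => 0) X13 (t + t')) t t' y) := by
  have hV : K.Congr (nearD a N0 κ s f vB vX vC) := by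
    intro X12 X13 t t' w w' h hw
    unfold nearD at *
    rwa [← h vB hB, ← h vX hX, ← h vC hC]
  have key := Cur.fams_sym hV (nearD_sym hs0 hs1 hf) A B
  intro X12 X13 t t' a1 a2 a3 a4 a5 a6 a7 a8 a9 a10 l hl1 hl2 y
  have h := key X12 X13 t t' a1 a2 a3 a4 a5 a6 a7 a8 a9 a10 y
  have e : (tab K.nodes vA vB vX).levX N0 s l X12 X13 t t' =
      levXV N0 s l t t' (K.valK X12 X13 t t' vX) := rfl
  have e2 : ((tab K.nodes vA vB vX).B X12 t, (tab K.nodes vA vB vX).B (X13 - X12) t',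
      (tab K.nodes vA vB vX).B X13 (t + t')) = K.valK X12 X13 t t' vB := rfl
  have e3 : (ker K.nodes vC (fun _ _ => 0) X12 t, ker K.nodes vC (fun _ _ => 0) (X13 - X12) t',
      ker K.nodes vC (fun _ _ => 0) X13 (t + t')) = K.valK X12 X13 t t' vC := rfl
  rw [e, e2, e3]
  linarith [min_le_levXV hl1 hl2 (K.valK X12 X13 t t' vX)]

/-- The facts about the tables, in the direct form, with a third kernel. -/
structure CertD {m : ℕ} (K : Cur m ι) (vA vB vX vC : ℝ → ι → ℝ) (f : ℝ → ℝ) (N0 : ℕ)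
    (a κ s : ℝ) : Prop where
  two : 2 ≤ N0
  a0 : 0 ≤ a
  κ0 : 0 ≤ κ
  s0 : 0 ≤ s
  s1 : s < h0
  admA : K.adm vA
  admB : K.adm vB
  admX : K.adm vX
  admC : K.adm vC
  den : DenOk f s
  bdd : ∃ C, ∀ T i, 0 ≤ T → T ^ 2 ≤ 3 → |vA T i| ≤ C ∧ |vB T i| ≤ C ∧ |vX T i| ≤ C
  bddC : ∃ C, ∀ T i, 0 ≤ T → T ^ 2 ≤ 3 → |vC T i| ≤ C
  farA : ∀ j k, j ≤ k → K.AllA (farD κ s vA vX) j k
  farB : ∀ j k, K.AllB (farD κ s vA vX) j k
  nearA : ∀ j k, j ≤ k → K.AllA (nearD a N0 κ s f vB vX vC) j k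
  nearB : ∀ j k, K.AllB (nearD a N0 κ s f vB vX vC) j k

variable {m : ℕ} {K : Cur m ι}

theorem CertD.ok (h : CertD K vA vB vX vC f N0 a κ s) : (tab K.nodes vA vB vX).Ok := by
  obtain ⟨C, hC⟩ := h.bdd
  have hC0 : 0 ≤ C := (abs_nonneg _).trans (hC 0 (K.tg 0) le_rfl (by norm_num)).1
  exact tab_ok K.isNodes hC0 fun t ht h3 p _ => hC t p.2 ht h3

/-- **The certificate for the small triangles.** -/
theorem CertD.fixDir (h : CertD K vA vB vX vC f N0 a κ s) :
    FixDir (tab K.nodes vA vB vX) (ker K.nodes vC fun _ _ => 0) f (NodeAt K.nodes) N0 a κ s where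
  two := h.two
  a0 := h.a0
  κ0 := h.κ0
  s0 := h.s0
  s1 := h.s1
  ok := h.ok
  oddC := ker_odd (v := vC) (B := fun _ _ => 0) K.isNodes (fun _ => rfl)
  bddC := by
    obtain ⟨C, hC⟩ := h.bddC
    have hC0 : 0 ≤ C := (abs_nonneg _).trans (hC 0 (K.tg 0) le_rfl (by norm_num))
    refine ⟨C, fun X t _ ht => ?_⟩
    refine ker_abs (v := vC) (B := fun _ _ => 0) K.isNodes (fun h p _ => ?_)
      (fun _ => by rwa [abs_zero]) hC0
    exact hC _ p.2 (abs_nonneg t) (by rwa [sq_abs])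
  den := h.den
  even := nodeAt_even
  pieces := by
    intro X t ht h1 h2
    obtain ⟨a, b, k1, k2, k3, k4, k5, k6⟩ := K.isNodes.piece h1 h2
    exact ⟨a, b, k1, k2, k3, k4, k5, k6 (vA |t|) (fun _ => 0) rfl,
      k6 (vB |t|) (fun _ => 0) rfl, k6 (vX |t|) (fun _ => 0) rfl, k6 (vC |t|) (fun _ => 0) rfl⟩
  far := far_dir K h.s0 h.s1 h.admA h.admX h.farA h.farB
  near := near_dir K h.s0 h.s1 h.den.mir h.admB h.admX h.admC h.nearA h.nearB

end

end Pool.Agent.Strip051.LC
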