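import Pool.Agent.Strip051.LC.Exact.LongD
import Pool.Agent.Strip051.LC.Exact.Dir

/-! # From the small triangles to the count

`FixSm.smallD` and `FixDir.smallD` give the hypothesis `SmallD`; `longS_of_wall` and
`longS_of_star` are `longD_of_wall` and `longD_of_star` for the tables with two kernels. -/

namespace Pool.Agent.Strip051.LC

open Pool.Agent.StripNear Pool.Agent.StripSquare Pool.Agent.Strip051.Sweep

theorem FixSm.smallD {T : Tab} {Nd : ℝ → ℝ → Prop} {N0 : ℕ} {a κ s : ℝ}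
    (h : FixSm T Nd N0 a κ s) {n : ℕ} (hn : N0 ≤ n) : SmallD (T.flat N0 κ s) n a s :=
  ⟨h.okD, h.gpos, h.a0, fun k0 k1 k2 k3 k4 k5 k6 hl hu => h.small hn k0 k1 k2 k3 k4 k5 k6 hl hu⟩

theorem FixDir.smallD {T : Tab} {C : ℝ → ℝ → ℝ} {f : ℝ → ℝ} {Nd : ℝ → ℝ → Prop} {N0 : ℕ}
    {a κ s : ℝ} (h : FixDir T C f Nd N0 a κ s) {n : ℕ} (hn : N0 ≤ n) :
    SmallD (T.flat3 C f N0 κ s) n a s :=
  ⟨h.okD, h.gpos, h.a0, fun k0 k1 k2 k3 k4 k5 k6 hl hu => h.small hn k0 k1 k2 k3 k4 k5 k6 hl hu⟩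

section

variable {s : ℝ} {n : ℕ}

/-- **The case of nonnegative slacks at the floor.** -/
theorem longS_of_wall {T : Tab} {Nd : ℝ → ℝ → Prop} {N0 : ℕ} {a κ : ℝ}
    (h : FixSm T Nd N0 a κ s) (ha : 1 / 2 ≤ a) (hn : N0 ≤ n) (hH : 2 < n * h0 + s)
    (wall : ∀ p q, In (n * h0 + s) p → In (n * h0 + s) q → FF p q → ds p q ≤ 3 →
      0 ≤ WF (T.flat N0 κ s) s (mu n s) p q)
    (wallL : ∀ p q, In (n * h0 + s) p → In (n * h0 + s) q → FF p q → 3 < ds p q →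
      0 ≤ WF (T.flat N0 κ s) s (mu n s) p q)
    (Wb : ∀ p q, In (n * h0 + s) p → In (n * h0 + s) q → FF p q → 3 < ds p q → ds p q ≤ 4 →
      FS (T.flat N0 κ s) n s p (ap p q) + FS (T.flat N0 κ s) n s (ap p q) q ≤
        wS n s * (q.1 - p.1))
    (tall : ∀ p q r, In (n * h0 + s) p → In (n * h0 + s) q → In (n * h0 + s) r → Cel p q r →
      3 < ds p q → ds q r ≤ 3 → ds p r ≤ 3 → 3 < ds (ap p q) r →
      1 / 2 ≤ FS (T.flat N0 κ s) n s p q + FS (T.flat N0 κ s) n s q r +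
        FS (T.flat N0 κ s) n s r p)
    (quad : ∀ p q r r', In (n * h0 + s) p → In (n * h0 + s) q → In (n * h0 + s) r →
      In (n * h0 + s) r' → Cel p q r → Cel q p r' → 3 < ds p q → ds q r ≤ 3 → ds p r ≤ 3 →
      ds q r' ≤ 3 → ds p r' ≤ 3 → 3 < ds r r' → 1 ≤ FS (T.flat N0 κ s) n s p r' +
        FS (T.flat N0 κ s) n s r' q + FS (T.flat N0 κ s) n s q r + FS (T.flat N0 κ s) n s r p)
    (two00 : ∀ p q r, In (n * h0 + s) p → In (n * h0 + s) q → In (n * h0 + s) r → Cel p q r →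
      3 < ds p q → ds q r ≤ 3 → 3 < ds p r → 1 / 2 ≤ FS (T.flat N0 κ s) n s p q +
        FS (T.flat N0 κ s) n s q r + FS (T.flat N0 κ s) n s r p)
    (two10 : ∀ p q r, In (n * h0 + s) p → In (n * h0 + s) q → In (n * h0 + s) r → Cel p q r →
      3 < ds p q → ds q r ≤ 3 → 3 < ds p r → In (n * h0 + s) (ap q p) →
      0 ≤ FS (T.flat N0 κ s) n s p (ap q p) + FS (T.flat N0 κ s) n s (ap q p) q +
        FS (T.flat N0 κ s) n s q r + FS (T.flat N0 κ s) n s r p)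
    (two01 : ∀ p q r, In (n * h0 + s) p → In (n * h0 + s) q → In (n * h0 + s) r → Cel p q r →
      3 < ds p q → ds q r ≤ 3 → 3 < ds p r → In (n * h0 + s) (ap p r) →
      0 ≤ FS (T.flat N0 κ s) n s p q + FS (T.flat N0 κ s) n s q r +
        (FS (T.flat N0 κ s) n s r (ap p r) + FS (T.flat N0 κ s) n s (ap p r) p))
    (two11 : ∀ p q r, In (n * h0 + s) p → In (n * h0 + s) q → In (n * h0 + s) r → Cel p q r →
      3 < ds p q → ds q r ≤ 3 → 3 < ds p r → In (n * h0 + s) (ap q p) →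
      In (n * h0 + s) (ap p r) →
      0 ≤ 1 / 2 + FS (T.flat N0 κ s) n s p (ap q p) + FS (T.flat N0 κ s) n s (ap q p) q +
        FS (T.flat N0 κ s) n s q r +
        (FS (T.flat N0 κ s) n s r (ap p r) + FS (T.flat N0 κ s) n s (ap p r) p)) :
    LongS (n * h0 + s) (wS n s) 0 (FS (T.flat N0 κ s) n s) :=
  longD_of_wall (h.smallD hn) ha hH wall wallL Wb tall quad two00 two10 two01 two11

/-- **The general case**, with the modification at the floor. -/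
theorem longS_of_star {T : Tab} {Nd : ℝ → ℝ → Prop} {N0 : ℕ} {a κ : ℝ}
    (h : FixSm T Nd N0 a κ s) (hn : N0 ≤ n) (hH : 2 < n * h0 + s)
    (hR : StarRows (T.flat N0 κ s) s (mu N0 s)) {ω : ℝ} (hω : 0 ≤ ω)
    (low : ∀ a b, FF a b → ds a b ≤ 3 → -ω ≤ WF (T.flat N0 κ s) s 0 a b ∧
      -ω ≤ WF (T.flat N0 κ s) s (mu N0 s) a b)
    (lowL : ∀ a b, FF a b → 3 < ds a b → 0 ≤ WF (T.flat N0 κ s) s 0 a b ∧
      0 ≤ WF (T.flat N0 κ s) s (mu N0 s) a b)
    (tall : ∀ p q r, In (n * h0 + s) p → In (n * h0 + s) q → In (n * h0 + s) r → Cel p q r →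
      3 < ds p q → ds q r ≤ 3 → ds p r ≤ 3 → 3 < ds (ap p q) r →
      1 / 2 + 2 * ω ≤ FS (T.flat N0 κ s) n s p q + FS (T.flat N0 κ s) n s q r +
        FS (T.flat N0 κ s) n s r p)
    (quad : ∀ p q r r', In (n * h0 + s) p → In (n * h0 + s) q → In (n * h0 + s) r →
      In (n * h0 + s) r' → Cel p q r → Cel q p r' → 3 < ds p q → ds q r ≤ 3 → ds p r ≤ 3 →
      ds q r' ≤ 3 → ds p r' ≤ 3 → 3 < ds r r' → 1 + 4 * ω ≤ FS (T.flat N0 κ s) n s p r' +
        FS (T.flat N0 κ s) n s r' q + FS (T.flat N0 κ s) n s q r + FS (T.flat N0 κ s) n s r p)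
    (two00 : ∀ p q r, In (n * h0 + s) p → In (n * h0 + s) q → In (n * h0 + s) r → Cel p q r →
      3 < ds p q → ds q r ≤ 3 → 3 < ds p r → 1 / 2 + ls (n * h0 + s) ω q r ≤
        FS (T.flat N0 κ s) n s p q + FS (T.flat N0 κ s) n s q r + FS (T.flat N0 κ s) n s r p)
    (two10 : ∀ p q r, In (n * h0 + s) p → In (n * h0 + s) q → In (n * h0 + s) r → Cel p q r →
      3 < ds p q → ds q r ≤ 3 → 3 < ds p r → ¬Wp (n * h0 + s) p q → In (n * h0 + s) (ap q p) →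
      1 / 2 + ls (n * h0 + s) ω q r ≤ iv (n * h0 + s) ω (FS (T.flat N0 κ s) n s) p q +
        FS (T.flat N0 κ s) n s q r + FS (T.flat N0 κ s) n s r p)
    (two01 : ∀ p q r, In (n * h0 + s) p → In (n * h0 + s) q → In (n * h0 + s) r → Cel p q r →
      3 < ds p q → ds q r ≤ 3 → 3 < ds p r → ¬Wp (n * h0 + s) r p → In (n * h0 + s) (ap p r) →
      1 / 2 + ls (n * h0 + s) ω q r ≤ FS (T.flat N0 κ s) n s p q + FS (T.flat N0 κ s) n s q r +
        iv (n * h0 + s) ω (FS (T.flat N0 κ s) n s) r p)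
    (two11 : ∀ p q r, In (n * h0 + s) p → In (n * h0 + s) q → In (n * h0 + s) r → Cel p q r →
      3 < ds p q → ds q r ≤ 3 → 3 < ds p r → ¬Wp (n * h0 + s) p q → ¬Wp (n * h0 + s) r p →
      In (n * h0 + s) (ap q p) → In (n * h0 + s) (ap p r) →
      1 / 2 + ls (n * h0 + s) ω q r ≤ iv (n * h0 + s) ω (FS (T.flat N0 κ s) n s) p q +
        FS (T.flat N0 κ s) n s q r + iv (n * h0 + s) ω (FS (T.flat N0 κ s) n s) r p) :
    LongS (n * h0 + s) (wS n s) ω (FS (T.flat N0 κ s) n s) :=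
  longD_of_star (h.smallD hn) hn hH hR hω low lowL tall quad two00 two10 two01 two11

end

end Pool.Agent.Strip051.LC
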