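import Pool.Agent.Strip051.LC.Exact.LongCost
import Pool.Agent.Strip051.LC.Exact.LongFix
import Pool.Agent.Strip051.LC.Exact.FloorTab

/-! # The exact count from the tables and the costs

`countBound_of_cost` is the general theorem; `FixSm.countWall`, `FixSm.countStar`,
`FixDir.countWall`, `FixDir.countStar` are the theorems for the tables. -/

namespace Pool.Agent.Strip051.LC

open Pool.Agent.StripNear Pool.Agent.StripSquare Pool.Agent.Strip051.Sweep

section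

variable {D : Data} {n : ℕ} {s : ℝ}

/-- The exact count from the certificate for the strip. -/
theorem countBound_of_extLong (hD : D.Ok) (hs0 : 0 ≤ s) (hs1 : s < h0)
    (h : ExtLong (n * h0 + s) (wS n s) (Gst (n * h0 + s) (wS n s) (FS D n s))) :
    CountBound n s := by
  have hg : 0 < g s := by linarith [g_gt_half hs0 hs1]
  obtain ⟨K, hK0, hK⟩ := FS_bdd hD n s hs0 hg
  have hw0 := wS_nonneg n hg
  have hGK : ∀ a b : Pt, |a.1 - b.1| ≤ 2 → In (n * h0 + s) a → In (n * h0 + s) b →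
      |Gst (n * h0 + s) (wS n s) (FS D n s) a b| ≤ K + (2 * wS n s + 1 / 2) := by
    intro a b hab ha hb
    have hba : |b.1 - a.1| ≤ 2 := by rwa [abs_sub_comm]
    have hl : ∀ x : ℝ, |x| ≤ 2 → |wS n s * x - 1 / 2| ≤ K + (2 * wS n s + 1 / 2) := by
      intro x hx
      have h3 : |wS n s * x| ≤ wS n s * 2 := by
        rw [abs_mul, abs_of_nonneg hw0]
        exact mul_le_mul_of_nonneg_left hx hw0
      rw [abs_le] at h3 ⊢
      constructor <;> linarith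
    exact Gst_abs (K := K) (hK a b hab ha hb) (hK b a hba hb ha) (hl _ hba) (hl _ hab)
      (by linarith)
  have hB0 : 0 ≤ K + (2 * wS n s + 1 / 2) := by positivity
  refine h.symH.countBound hs0 hs1 (wS_eq n hg)
    (K := K + (2 * wS n s + 1 / 2) + 3 * (K + (2 * wS n s + 1 / 2))) ?_ (by positivity)
  intro a b hab ha0 haH hb0 hbH
  exact h.ext.bdd (fun p q => dl_le hB0 hGK p q) (hGK a b hab ⟨ha0, haH⟩ ⟨hb0, hbH⟩)

theorem wS_split (n : ℕ) {s : ℝ} (hg : 0 < g s) :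
    wS n s = 1 / 2 - (we s + mu n s * wq s) + (n * h0 + s) / (2 * h0) := by
  have hh := h0_pos
  have e := mu_mul n hg
  have e3 : ((n : ℝ) * h0 + s) / (2 * h0) = n / 2 + s / (2 * h0) := by
    field_simp
  rw [e3]
  unfold wS we wq
  linear_combination ((n + 3 - 2 * g s) / 2 : ℝ) * e

theorem FS_ar (D : Data) (n : ℕ) (s : ℝ) (p q : Pt) :
    FS D n s p q = Ar (n * h0 + s) p q + ed (D.QS n s) p q := rfl

/-- The row of the small triangles of the strip: with nonnegative slacks at the floor or with the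
conditions `StarSmall`. -/
def RowOK (D : Data) (N0 : ℕ) (s : ℝ) : Prop :=
  (∀ a b, FF a b → ds a b ≤ 3 → 0 ≤ WF D s 0 a b ∧ 0 ≤ WF D s (mu N0 s) a b) ∨
    StarSmall D s (mu N0 s)

/-- **The general theorem.** -/
theorem countBound_of_cost {N0 : ℕ} {a : ℝ} (S : SmallD D n a s) (hn : N0 ≤ n) (hs0 : 0 ≤ s)
    (hs1 : s < h0) (hH : 2 < n * h0 + s) (long0 : ∀ p q, 3 < ds p q → ed (D.QS n s) p q = 0)
    {cF uF rF cN uN rN : ℝ → ℝ → ℝ} (hF : CostOK cF uF rF (we s))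
    (hN : CostOK cN uN rN (we s + mu N0 s * wq s))
    (cost : ∀ p q, In (n * h0 + s) p → In (n * h0 + s) q → 1 ≤ ds p q → ds p q ≤ 3 →
      |ed (D.QS n s) p q| ≤ (1 - mu n s / mu N0 s) * av cF (q.1 - p.1) (q.2 - p.2) +
        mu n s / mu N0 s * av cN (q.1 - p.1) (q.2 - p.2))
    (costU : ∀ p q, In (n * h0 + s) p → In (n * h0 + s) q → ds p q = 1 →
      |ed (D.QS n s) p q| ≤ (1 - mu n s / mu N0 s) * av uF (q.1 - p.1) (q.2 - p.2) +
        mu n s / mu N0 s * av uN (q.1 - p.1) (q.2 - p.2))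
    (rows : RowOK D N0 s) : CountBound n s := by
  have hh := h0_pos
  have hg : 0 < g s := by linarith [g_gt_half hs0 hs1]
  have hN0 : (0 : ℝ) ≤ N0 := Nat.cast_nonneg N0
  have hn0 : (0 : ℝ) ≤ n := Nat.cast_nonneg n
  have hnN : (N0 : ℝ) ≤ n := by exact_mod_cast hn
  have hμ : 0 < mu n s := by
    unfold mu
    positivity
  have hm : 0 < mu N0 s := by
    unfold mu
    positivity
  have hμm : mu n s ≤ mu N0 s := by
    unfold mu
    apply one_div_le_one_div_of_le (by positivity)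
    linarith
  have hθ0 : 0 ≤ mu n s / mu N0 s := by positivity
  have hθ1 : 0 ≤ 1 - mu n s / mu N0 s := by
    rw [sub_nonneg, div_le_one hm]
    exact hμm
  have hok := hF.mix hN hθ0 hθ1
  have hE : (1 - mu n s / mu N0 s) * we s + mu n s / mu N0 s * (we s + mu N0 s * wq s) =
      we s + mu n s * wq s := by
    field_simp
    ring
  rw [hE] at hok
  have wall : (∀ a b, FF a b → ds a b ≤ 3 → 0 ≤ WF D s 0 a b ∧ 0 ≤ WF D s (mu N0 s) a b) →
      ∀ a b, FF a b → ds a b ≤ 3 → 0 ≤ wf (wS n s) (FS D n s) a b := by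
    intro hw a b hf k
    rw [FS_wf n hg]
    obtain ⟨A, B, hAB⟩ := WF_aff D s a b
    obtain ⟨e0, em⟩ := hw a b hf k
    rw [hAB] at e0 em ⊢
    exact aff_nonneg hμ.le hμm e0 em
  refine countBound_of_extLong S.ok hs0 hs1 (CostH.ext (E := we s + mu n s * wq s)
    ⟨hH, FS_anti S.ok n s, FS_mir S.ok n s, wS_split n hg, hok, ?_, ?_, ?_, ?_⟩)
  · intro p q hp hq k1 k3
    rw [FS_ar, add_sub_cancel_left]
    exact cost p q hp hq k1 k3
  · intro p q hp hq k1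
    rw [FS_ar, add_sub_cancel_left]
    exact costU p q hp hq k1
  · intro p q k
    rw [FS_ar, long0 p q k, add_zero]
  · intro p q r hp hq hr hc k1 k2 k3
    rcases rows with hw | hR
    · rw [corr_zero, add_zero, FS_tri]
      · exact S.inside hp hq hr hc.cr0 hc.pq hc.qr hc.pr k1 k2 k3
      · intro a b ha hb hf
        refine wall hw a b hf ?_
        rcases ha with rfl | rfl | rfl <;> rcases hb with rfl | rfl | rfl <;>
          first
          | assumption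
          | (rw [ds_comm]; assumption)
          | exact absurd hf.lt (lt_irrefl _)
    · refine starS_row_small (FS_anti S.ok n s) (hR.mono hμ.le hμm) (FS_wf n hg) (FS_sf n hg)
        hp.1 hq.1 hr.1 hc k1 k2 k3 ?_
      rw [FS_tri]
      exact S.inside hp hq hr hc.cr0 hc.pq hc.qr hc.pr k1 k2 k3

end

/-! ### The tables -/

section

variable {T : Tab} {Nd : ℝ → ℝ → Prop} {N0 : ℕ} {a κ s : ℝ} {cF uF rF cN uN rN : ℝ → ℝ → ℝ}

theorem Tab.Ok.costF_abs (h : T.Ok) (X t : ℝ) : T.costF κ s |X| t = T.costF κ s X t := by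
  unfold Tab.costF
  rcases abs_cases X with ⟨e, -⟩ | ⟨e, -⟩ <;> rw [e]
  rw [h.oddA, h.oddX, abs_neg, abs_neg]

theorem Tab.Ok.costN_abs (h : T.Ok) (X t : ℝ) : T.costN N0 κ s |X| t = T.costN N0 κ s X t := by
  unfold Tab.costN
  rcases abs_cases X with ⟨e, -⟩ | ⟨e, -⟩ <;> rw [e]
  rw [h.oddB, h.oddX, abs_neg, abs_neg]

/-- The costs of the tables are bounded by `cF`, `cN` on the short edges and by `uF`, `uN` on the
unit edges. -/
structure CostTab (T : Tab) (N0 : ℕ) (κ s : ℝ) (cF uF cN uN : ℝ → ℝ → ℝ) : Prop where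
  cF : ∀ X t, 0 ≤ X → 0 ≤ t → 1 ≤ X ^ 2 + t ^ 2 → X ^ 2 + t ^ 2 ≤ 3 → T.costF κ s X t ≤ cF X t
  cN : ∀ X t, 0 ≤ X → 0 ≤ t → 1 ≤ X ^ 2 + t ^ 2 → X ^ 2 + t ^ 2 ≤ 3 → T.costN N0 κ s X t ≤ cN X t
  uF : ∀ X t, 0 ≤ X → 0 ≤ t → X ^ 2 + t ^ 2 = 1 → T.costF κ s X t ≤ uF X t
  uN : ∀ X t, 0 ≤ X → 0 ≤ t → X ^ 2 + t ^ 2 = 1 → T.costN N0 κ s X t ≤ uN X t

/-- **The exact count from two kernels**, all `n ≥ N0`. -/
theorem FixSm.count (h : FixSm T Nd N0 a κ s) (hN3 : 3 ≤ N0)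
    (hF : CostOK cF uF rF (we s)) (hN : CostOK cN uN rN (we s + mu N0 s * wq s))
    (hc : CostTab T N0 κ s cF uF cN uN) (rows : RowOK (T.flat N0 κ s) N0 s) {n : ℕ}
    (hn : N0 ≤ n) : CountBound n s := by
  have hh := h0_pos
  have hH : 2 < n * h0 + s := by
    have h1 : (3 : ℝ) ≤ n := by exact_mod_cast hN3.trans hn
    have h2 : (4 : ℝ) / 5 < h0 := by
      have := h0_sq
      nlinarith
    have := h.s0
    nlinarith
  have hg : 0 < g s := h.gpos
  have hN0' : (0 : ℝ) ≤ N0 := Nat.cast_nonneg N0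
  have hn0 : (0 : ℝ) ≤ n := Nat.cast_nonneg n
  have hnN : (N0 : ℝ) ≤ n := by exact_mod_cast hn
  have hμ := h.mu_pos n
  have hm := h.mu_pos N0
  have hμm : mu n s ≤ mu N0 s := by
    unfold mu
    apply one_div_le_one_div_of_le (by positivity)
    linarith
  have hθ0 : 0 ≤ mu n s / mu N0 s := by positivity
  have hθ1 : 0 ≤ 1 - mu n s / mu N0 s := by
    rw [sub_nonneg, div_le_one hm]
    exact hμm
  have key : ∀ p q : Pt, In (n * h0 + s) p → In (n * h0 + s) q → ds p q ≤ 3 →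
      |ed ((T.flat N0 κ s).QS n s) p q| ≤
        (1 - mu n s / mu N0 s) * T.costF κ s |q.1 - p.1| |q.2 - p.2| +
        mu n s / mu N0 s * T.costN N0 κ s |q.1 - p.1| |q.2 - p.2| := by
    intro p q hp hq k3
    rw [Tab.flat_short k3, h.ok.costF_abs, h.ok.costN_abs]
    rw [ds_xz, ← sq_abs (q.2 - p.2)] at k3
    exact T.QS_cost hn h.κ0 h.s0 h.s1 (q.1 - p.1) hp.1 hq.1 hp.2 hq.2
      (by nlinarith [abs_nonneg (q.2 - p.2), sq_nonneg (q.1 - p.1)])
  refine countBound_of_cost (h.smallD hn) hn h.s0 h.s1 hH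
    (fun p q k => Tab.flat_long k) hF hN ?_ ?_ rows
  · intro p q hp hq k1 k3
    refine (key p q hp hq k3).trans ?_
    rw [ds_xz] at k1 k3
    have e1 := hc.cF _ _ (abs_nonneg (q.1 - p.1)) (abs_nonneg (q.2 - p.2))
      (by rwa [sq_abs, sq_abs]) (by rwa [sq_abs, sq_abs])
    have e2 := hc.cN _ _ (abs_nonneg (q.1 - p.1)) (abs_nonneg (q.2 - p.2))
      (by rwa [sq_abs, sq_abs]) (by rwa [sq_abs, sq_abs])
    exact add_le_add (mul_le_mul_of_nonneg_left e1 hθ1) (mul_le_mul_of_nonneg_left e2 hθ0)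
  · intro p q hp hq k1
    refine (key p q hp hq (by rw [k1]; norm_num)).trans ?_
    rw [ds_xz] at k1
    have e1 := hc.uF _ _ (abs_nonneg (q.1 - p.1)) (abs_nonneg (q.2 - p.2))
      (by rwa [sq_abs, sq_abs])
    have e2 := hc.uN _ _ (abs_nonneg (q.1 - p.1)) (abs_nonneg (q.2 - p.2))
      (by rwa [sq_abs, sq_abs])
    exact add_le_add (mul_le_mul_of_nonneg_left e1 hθ1) (mul_le_mul_of_nonneg_left e2 hθ0)

/-- The slacks of the short pairs at the floor from `FloorAt`. -/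
theorem WF_of_floorAt {μ : ℝ} (h : FloorAt (T.full N0 κ s) s μ) {p q : Pt} (hf : FF p q)
    (k : ds p q ≤ 3) : 0 ≤ WF (T.flat N0 κ s) s μ p q := by
  obtain ⟨m, e1, e2⟩ := hf.circ
  have := h p q m hf.lt.le hf.p0 hf.q0 hf.sep e1 e2
  have e : ed ((T.flat N0 κ s).Q μ (-(1 / 2 - g s * μ))) (dn s p) (dn s q) =
      ed ((T.full N0 κ s).Q μ (-(1 / 2 - g s * μ))) (dn s p) (dn s q) := by
    unfold ed Tab.flat Tab.full
    have e3 : ((dn s q).1 - (dn s p).1) ^ 2 + ((dn s q).2 - (dn s p).2) ^ 2 ≤ 3 := by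
      have e4 : ds (dn s p) (dn s q) = ds p q := ds_sh (s / 2) p q
      rw [← ds_xz, e4]
      exact k
    rw [Data.glue_Q_short e3, Data.glue_Q_short e3]
  unfold WF
  rw [e]
  linarith

/-- The wall form of the rows from `FloorAt`. -/
theorem rowOK_of_floorAt (hF : FloorAt (T.full N0 κ s) s 0)
    (hN : FloorAt (T.full N0 κ s) s (mu N0 s)) : RowOK (T.flat N0 κ s) N0 s :=
  Or.inl fun _ _ hf k => ⟨WF_of_floorAt hF hf k, WF_of_floorAt hN hf k⟩

/-- The wall form of the rows from the tables at the floor. -/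
theorem rowOK_of_floorC (hs0 : 0 ≤ s) (hs1 : s < h0) (hκ : 0 ≤ κ) {Nd : ℝ → ℝ → Prop}
    (hP : T.Pieces Nd) (hF : FloorC κ s 0 (1 / 2 - we s) T.A T.Xi Nd)
    (hN : FloorC κ s (mu N0 s) (1 / 2 - we s - mu N0 s * wq s) T.B T.Xi Nd) :
    RowOK (T.flat N0 κ s) N0 s :=
  rowOK_of_floorAt (floorF_of hs0 hs1 hκ hP hF) (floorN_of hs0 hs1 hκ hP hN)

variable {C : ℝ → ℝ → ℝ} {f : ℝ → ℝ} {K : ℝ}

/-- The costs of the tables with a third kernel. -/
structure CostTab3 (T : Tab) (C : ℝ → ℝ → ℝ) (K : ℝ) (N0 : ℕ) (κ s : ℝ)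
    (cF uF cN uN : ℝ → ℝ → ℝ) : Prop where
  cF : ∀ X t, 0 ≤ X → 0 ≤ t → 1 ≤ X ^ 2 + t ^ 2 → X ^ 2 + t ^ 2 ≤ 3 → T.costF κ s X t ≤ cF X t
  cN : ∀ X t, 0 ≤ X → 0 ≤ t → 1 ≤ X ^ 2 + t ^ 2 → X ^ 2 + t ^ 2 ≤ 3 →
    T.costN N0 κ s X t + mu N0 s * (|C X t| * K) ≤ cN X t
  uF : ∀ X t, 0 ≤ X → 0 ≤ t → X ^ 2 + t ^ 2 = 1 → T.costF κ s X t ≤ uF X t
  uN : ∀ X t, 0 ≤ X → 0 ≤ t → X ^ 2 + t ^ 2 = 1 →
    T.costN N0 κ s X t + mu N0 s * (|C X t| * K) ≤ uN X t

/-- The flux of an edge with the third kernel, with the two costs. -/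
theorem Tab.flat3_cost (T : Tab) (C : ℝ → ℝ → ℝ) (f : ℝ → ℝ) {n : ℕ} (hn : N0 ≤ n) (hκ : 0 ≤ κ)
    (hs0 : 0 ≤ s) (hs1 : s < h0)
    (hK : ∀ y t : ℝ, 0 ≤ t → t ≤ 2 → |∫ x in y..(y + t), f x| ≤ K)
    {p q : Pt} (hp : In (n * h0 + s) p) (hq : In (n * h0 + s) q) (h3 : ds p q ≤ 3) :
    |ed ((T.flat3 C f N0 κ s).QS n s) p q| ≤
      (1 - mu n s / mu N0 s) * T.costF κ s (q.1 - p.1) |q.2 - p.2| +
        mu n s / mu N0 s * (T.costN N0 κ s (q.1 - p.1) |q.2 - p.2| +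
          mu N0 s * (|C (q.1 - p.1) (|q.2 - p.2|)| * K)) := by
  have hg1 := g_gt_half hs0 hs1
  have hN0 : (0 : ℝ) ≤ N0 := Nat.cast_nonneg N0
  have hn0 : (0 : ℝ) ≤ n := Nat.cast_nonneg n
  have hμ : 0 < mu n s := by
    unfold mu
    positivity
  have hm : 0 < mu N0 s := by
    unfold mu
    positivity
  rw [Tab.flat3_short h3]
  rw [ds_xz, ← sq_abs (q.2 - p.2)] at h3
  have hz : |q.2 - p.2| ≤ 2 := by nlinarith [abs_nonneg (q.2 - p.2), sq_nonneg (q.1 - p.1)]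
  have b1 := T.QS_cost hn hκ hs0 hs1 (q.1 - p.1) hp.1 hq.1 hp.2 hq.2 hz
  have b2 : |C3 C f s (q.1 - p.1) (p.2 - s / 2) (q.2 - s / 2)| ≤
      |C (q.1 - p.1) (|q.2 - p.2|)| * K := by
    unfold C3
    rw [show q.2 - s / 2 - (p.2 - s / 2) = q.2 - p.2 by ring, abs_mul]
    refine mul_le_mul_of_nonneg_left ?_ (abs_nonneg _)
    have e1 : min (p.2 - s / 2) (q.2 - s / 2) + s / 2 = min p.2 q.2 := by
      rw [← min_add_add_right]
      ring_nf
    have e2 : max (p.2 - s / 2) (q.2 - s / 2) + s / 2 = min p.2 q.2 + |q.2 - p.2| := by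
      rw [← max_add_add_right, sub_add_cancel, sub_add_cancel]
      rcases le_total p.2 q.2 with e | e
      · rw [max_eq_right e, min_eq_left e, abs_of_nonneg (by linarith)]
        ring
      · rw [max_eq_left e, min_eq_right e, abs_of_nonpos (by linarith)]
        ring
    rw [e1, e2]
    exact hK _ _ (abs_nonneg _) hz
  have b3 : |mu n s * C3 C f s (q.1 - p.1) (p.2 - s / 2) (q.2 - s / 2)| ≤
      mu n s / mu N0 s * (mu N0 s * (|C (q.1 - p.1) (|q.2 - p.2|)| * K)) := by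
    rw [abs_mul, abs_of_pos hμ]
    have : mu n s / mu N0 s * (mu N0 s * (|C (q.1 - p.1) (|q.2 - p.2|)| * K)) =
        mu n s * (|C (q.1 - p.1) (|q.2 - p.2|)| * K) := by
      field_simp
    rw [this]
    exact mul_le_mul_of_nonneg_left b2 hμ.le
  refine (abs_add_le _ _).trans ?_
  have e : ed ((T.data N0 κ s).QS n s) p q = (T.data N0 κ s).QS n s (q.1 - p.1) p.2 q.2 := rfl
  rw [e]
  linarith

/-- **The exact count from three kernels**, all `n ≥ N0`. -/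
theorem FixDir.count (h : FixDir T C f Nd N0 a κ s) (hN3 : 3 ≤ N0)
    (hK : ∀ y t : ℝ, 0 ≤ t → t ≤ 2 → |∫ x in y..(y + t), f x| ≤ K)
    (hF : CostOK cF uF rF (we s)) (hN : CostOK cN uN rN (we s + mu N0 s * wq s))
    (hc : CostTab3 T C K N0 κ s cF uF cN uN) (rows : RowOK (T.flat3 C f N0 κ s) N0 s) {n : ℕ}
    (hn : N0 ≤ n) : CountBound n s := by
  have hh := h0_pos
  have hH : 2 < n * h0 + s := by
    have h1 : (3 : ℝ) ≤ n := by exact_mod_cast hN3.trans hn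
    have h2 : (4 : ℝ) / 5 < h0 := by
      have := h0_sq
      nlinarith
    have := h.s0
    nlinarith
  have hg : 0 < g s := h.gpos
  have hN0' : (0 : ℝ) ≤ N0 := Nat.cast_nonneg N0
  have hn0 : (0 : ℝ) ≤ n := Nat.cast_nonneg n
  have hnN : (N0 : ℝ) ≤ n := by exact_mod_cast hn
  have hμ := h.mu_pos n
  have hm := h.mu_pos N0
  have hμm : mu n s ≤ mu N0 s := by
    unfold mu
    apply one_div_le_one_div_of_le (by positivity)
    linarith
  have hθ0 : 0 ≤ mu n s / mu N0 s := by positivity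
  have hθ1 : 0 ≤ 1 - mu n s / mu N0 s := by
    rw [sub_nonneg, div_le_one hm]
    exact hμm
  have eC : ∀ X t, |C |X| t| = |C X t| := by
    intro X t
    rcases abs_cases X with ⟨e, -⟩ | ⟨e, -⟩ <;> rw [e]
    rw [h.oddC, abs_neg]
  have key : ∀ p q : Pt, In (n * h0 + s) p → In (n * h0 + s) q → ds p q ≤ 3 →
      |ed ((T.flat3 C f N0 κ s).QS n s) p q| ≤
        (1 - mu n s / mu N0 s) * T.costF κ s |q.1 - p.1| |q.2 - p.2| +
        mu n s / mu N0 s * (T.costN N0 κ s |q.1 - p.1| |q.2 - p.2| +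
          mu N0 s * (|C (|q.1 - p.1|) (|q.2 - p.2|)| * K)) := by
    intro p q hp hq k3
    rw [h.ok.costF_abs, h.ok.costN_abs, eC]
    exact T.flat3_cost C f hn h.κ0 h.s0 h.s1 hK hp hq k3
  refine countBound_of_cost (h.smallD hn) hn h.s0 h.s1 hH
    (fun p q k => Tab.flat3_long k) hF hN ?_ ?_ rows
  · intro p q hp hq k1 k3
    refine (key p q hp hq k3).trans ?_
    rw [ds_xz] at k1 k3
    have e1 := hc.cF _ _ (abs_nonneg (q.1 - p.1)) (abs_nonneg (q.2 - p.2))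
      (by rwa [sq_abs, sq_abs]) (by rwa [sq_abs, sq_abs])
    have e2 := hc.cN _ _ (abs_nonneg (q.1 - p.1)) (abs_nonneg (q.2 - p.2))
      (by rwa [sq_abs, sq_abs]) (by rwa [sq_abs, sq_abs])
    exact add_le_add (mul_le_mul_of_nonneg_left e1 hθ1) (mul_le_mul_of_nonneg_left e2 hθ0)
  · intro p q hp hq k1
    refine (key p q hp hq (by rw [k1]; norm_num)).trans ?_
    rw [ds_xz] at k1
    have e1 := hc.uF _ _ (abs_nonneg (q.1 - p.1)) (abs_nonneg (q.2 - p.2))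
      (by rwa [sq_abs, sq_abs])
    have e2 := hc.uN _ _ (abs_nonneg (q.1 - p.1)) (abs_nonneg (q.2 - p.2))
      (by rwa [sq_abs, sq_abs])
    exact add_le_add (mul_le_mul_of_nonneg_left e1 hθ1) (mul_le_mul_of_nonneg_left e2 hθ0)

end

end Pool.Agent.Strip051.LC
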