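import Pool.Agent.Strip051.LC.Exact.CertX
import Pool.Agent.Strip051.LC.Exact.LongMain
import Pool.Agent.Strip051.LC.Box.Cost

/-! # The costs of the tables from the node curves

The costs of the edges are convex in the horizontal displacement between two adjacent node curves;
so they are bounded by `cbv C` if for every segment one concave piece of `C` bounds the two values at
the ends. -/

namespace Pool.Agent.Strip051.LC

open Pool.Agent.StripNear Pool.Agent.StripSquare Pool.Agent.Strip051.Sweep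
open Pool.Agent.Strip051.LC.Box

/-- The minimum of affine functions is concave. -/
theorem mnv_concave {F : List Aff} (hF : F ≠ []) {X0 X1 T l : ℝ} (l0 : 0 ≤ l) (l1 : l ≤ 1) :
    (1 - l) * mnv F X0 T + l * mnv F X1 T ≤ mnv F ((1 - l) * X0 + l * X1) T := by
  refine le_mnv hF fun f hf => ?_
  have h0 := mul_le_mul_of_nonneg_left (mnv_le hf X0 T) (show 0 ≤ 1 - l by linarith)
  have h1 := mul_le_mul_of_nonneg_left (mnv_le hf X1 T) l0
  have e : affv f ((1 - l) * X0 + l * X1) T = (1 - l) * affv f X0 T + l * affv f X1 T := by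
    unfold affv
    ring
  rw [e]
  linarith

section

variable {n : ℕ} {ι : Type} {K : Cur n ι}

/-- **One segment**: the two values at the ends are bounded by one concave piece. -/
def SegOK (K : Cur n ι) (C : List (List Aff)) (cst : ℝ → ι → ℝ) : Prop :=
  ∀ (i : Fin n) (T : ℝ), 0 ≤ T → T ^ 2 ≤ 3 → K.cv i.castSucc T ≤ K.cv i.succ T →
    ∃ F ∈ C, F ≠ [] ∧ cst T (K.tg i.castSucc) ≤ mnv F (K.cv i.castSucc T) T ∧
      cst T (K.tg i.succ) ≤ mnv F (K.cv i.succ T) T

/-- A convex function of the values. -/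
structure CvxV (φ : ℝ → ℝ → ℝ → ℝ → ℝ) : Prop where
  zero : ∀ T, φ T 0 0 0 = 0
  pos : ∀ T a b c, 0 ≤ T → T ^ 2 ≤ 3 → 0 ≤ φ T a b c
  cvx : ∀ T a b c a' b' c' l, 0 ≤ T → T ^ 2 ≤ 3 → 0 ≤ l → l ≤ 1 →
    φ T (a + (a' - a) * l) (b + (b' - b) * l) (c + (c' - c) * l) ≤
      (1 - l) * φ T a b c + l * φ T a' b' c'

theorem cvx_abs {p : ℝ → ℝ} {q r : ℝ} (hp : ∀ T, 0 ≤ T → T ^ 2 ≤ 3 → 0 ≤ p T) (hq : 0 ≤ q)
    (hr : 0 ≤ r) : CvxV fun T a b c => p T * |a| + q * |b| + r * |c| := by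
  refine ⟨fun T => by simp, fun T a b c hT h3 => ?_, fun T a b c a' b' c' l hT h3 l0 l1 => ?_⟩
  · have := hp T hT h3
    positivity
  have key : ∀ a a' : ℝ, |a + (a' - a) * l| ≤ (1 - l) * |a| + l * |a'| := by
    intro a a'
    rw [show a + (a' - a) * l = (1 - l) * a + l * a' by ring]
    refine (abs_add_le _ _).trans ?_
    rw [abs_mul, abs_mul, abs_of_nonneg l0, abs_of_nonneg (show 0 ≤ 1 - l by linarith)]
  have h1 := mul_le_mul_of_nonneg_left (key a a') (hp T hT h3)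
  have h2 := mul_le_mul_of_nonneg_left (key b b') hq
  have h3 := mul_le_mul_of_nonneg_left (key c c') hr
  linarith

/-- **The bound of the cost** for all short pairs. -/
theorem SegOK.bound {C : List (List Aff)} {vA vB vC : ℝ → ι → ℝ}
    {φ : ℝ → ℝ → ℝ → ℝ → ℝ} (hφ : CvxV φ) (hA : K.adm vA) (hB : K.adm vB) (hC : K.adm vC)
    (h : SegOK K C fun T i => φ T (vA T i) (vB T i) (vC T i)) {X T : ℝ} (hX : 0 ≤ X)
    (hT : 0 ≤ T) (h1 : 1 ≤ X ^ 2 + T ^ 2) (h3 : X ^ 2 + T ^ 2 ≤ 3) :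
    φ T (ker K.nodes vA (fun _ _ => 0) X T) (ker K.nodes vB (fun _ _ => 0) X T)
      (ker K.nodes vC (fun _ _ => 0) X T) ≤ cbv C X T := by
  have hT3 : T ^ 2 ≤ 3 := by nlinarith
  have g1 : c1 T ≤ X := by
    refine Real.sqrt_le_iff.2 ⟨hX, by linarith⟩
  have g3 : X ≤ c3 T := Real.le_sqrt_of_sq_le (by linarith)
  obtain ⟨i, i1, i2⟩ := K.cover X T hT hT3 g1 g3
  obtain ⟨F, hF, hne, f1, f2⟩ := h i T hT hT3 (i1.trans i2)
  set l := (X - K.cv i.castSucc T) / (K.cv i.succ T - K.cv i.castSucc T) with hl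
  have l0 : 0 ≤ l := div_nonneg (by linarith) (by linarith)
  have l1 : l ≤ 1 := div_le_one_of_le₀ (by linarith) (by linarith)
  have eX : (1 - l) * K.cv i.castSucc T + l * K.cv i.succ T = X := by
    rcases (i1.trans i2).eq_or_lt with h9 | h9
    · have : X = K.cv i.castSucc T := le_antisymm (by rw [h9]; exact i2) i1
      rw [← h9, this]
      ring
    · have h10 : K.cv i.succ T - K.cv i.castSucc T ≠ 0 := by linarith
      rw [hl]
      field_simp
      ring
  rw [K.seg vA hA i X T hT hT3 i1 i2, K.seg vB hB i X T hT hT3 i1 i2,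
    K.seg vC hC i X T hT hT3 i1 i2, ← hl]
  have k1 := hφ.cvx T (vA T (K.tg i.castSucc)) (vB T (K.tg i.castSucc)) (vC T (K.tg i.castSucc))
    (vA T (K.tg i.succ)) (vB T (K.tg i.succ)) (vC T (K.tg i.succ)) l hT hT3 l0 l1
  refine k1.trans ?_
  have k2 := mul_le_mul_of_nonneg_left f1 (show 0 ≤ 1 - l by linarith)
  have k3 := mul_le_mul_of_nonneg_left f2 l0
  have k4 := mnv_concave hne (X0 := K.cv i.castSucc T) (X1 := K.cv i.succ T) (T := T) l0 l1
  rw [eX] at k4
  have k5 := le_cbv hF X T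
  linarith

/-- **The bound of the cost** of the unit edges. -/
theorem unit_bound {U : List (List Aff)} {vA vB vC : ℝ → ι → ℝ} {φ : ℝ → ℝ → ℝ → ℝ → ℝ}
    (hφ : CvxV φ) (hA : K.adm vA) (hB : K.adm vB) (hC : K.adm vC)
    (first : ∀ T, 0 ≤ T → T < 1 → K.dm 0 T ∧ K.cv 0 T = c1 T)
    (h : ∀ T, 0 ≤ T → T ≤ 1 →
      φ T (vA T (K.tg 0)) (vB T (K.tg 0)) (vC T (K.tg 0)) ≤ cbv U (c1 T) T) {X T : ℝ}
    (hX : 0 ≤ X) (hT : 0 ≤ T) (h1 : X ^ 2 + T ^ 2 = 1) :
    φ T (ker K.nodes vA (fun _ _ => 0) X T) (ker K.nodes vB (fun _ _ => 0) X T)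
      (ker K.nodes vC (fun _ _ => 0) X T) ≤ cbv U X T := by
  have hT1 : T ≤ 1 := by nlinarith
  have e1 : c1 T = X := by
    have h2 := c1_sq hT hT1
    have h3 := c1_nonneg T
    nlinarith
  rcases hT1.lt_or_eq with hlt | heq
  · obtain ⟨d1, d2⟩ := first T hT hlt
    have kA := K.val vA hA 0 T hT d1
    have kB := K.val vB hB 0 T hT d1
    have kC := K.val vC hC 0 T hT d1
    rw [d2, e1] at kA kB kC
    rw [kA, kB, kC]
    have := h T hT hT1
    rwa [e1] at this
  · have hX0 : X = 0 := by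
      rw [heq] at h1
      nlinarith
    have z : ∀ v : ℝ → ι → ℝ, ker K.nodes v (fun _ _ => 0) 0 T = 0 := by
      intro v
      have := ker_odd (v := v) (B := fun _ _ => 0) K.isNodes (fun _ => rfl) 0 T
      rw [neg_zero] at this
      linarith
    rw [hX0, z, z, z, hφ.zero]
    have h2 := h T hT hT1
    rw [e1, hX0] at h2
    exact (hφ.pos T _ _ _ hT (by rw [heq]; norm_num)).trans h2

end

/-! ### The structures of the costs -/

section

variable {m : ℕ} {ι : Type} {K : Cur m ι} {vA vB vX vC : ℝ → ι → ℝ} {N0 : ℕ} {κ s o E : ℝ}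

/-- The factor of the flux of a mean. -/
noncomputable def fdst (κ s T : ℝ) : ℝ := amp κ s * (1 - dst T / h0)

theorem fdst_nonneg (hκ : 0 ≤ κ) (hs0 : 0 ≤ s) (hs1 : s < h0) {T : ℝ} (hT : 0 ≤ T)
    (h3 : T ^ 2 ≤ 3) : 0 ≤ fdst κ s T := by
  have hh := h0_pos
  have h2 := dst_le hT (by nlinarith)
  refine mul_nonneg (amp_nonneg hκ hs0 hs1) ?_
  rw [sub_nonneg, div_le_one hh]
  linarith

/-- The costs on the node curves, far. -/
noncomputable def cstF (κ s : ℝ) (vA vX : ℝ → ι → ℝ) (T : ℝ) (i : ι) : ℝ :=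
  fdst κ s T * |vA T i| + 1 / 2 * |vX T i|

/-- The costs on the node curves, near. -/
noncomputable def cstN (N0 : ℕ) (κ s : ℝ) (vB vX : ℝ → ι → ℝ) (T : ℝ) (i : ι) : ℝ :=
  fdst κ s T * |vB T i| + mu N0 s * (N0 + s / h0) / 2 * |vX T i|

/-- The costs on the node curves, near, with the third kernel; `o` bounds the integrals. -/
noncomputable def cstE (N0 : ℕ) (κ s o : ℝ) (vB vX vC : ℝ → ι → ℝ) (T : ℝ) (i : ι) : ℝ :=
  fdst κ s T * |vB T i| + mu N0 s * (N0 + s / h0) / 2 * |vX T i| + mu N0 s * o * |vC T i|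

/-- The conditions for the unit edges. -/
def UniOK (K : Cur m ι) (U : List (List Aff)) (cst : ℝ → ι → ℝ) : Prop :=
  ∀ T, 0 ≤ T → T ≤ 1 → cst T (K.tg 0) ≤ cbv U (c1 T) T

theorem mu_nonneg' (n : ℕ) (hs0 : 0 ≤ s) (hs1 : s < h0) : 0 ≤ mu n s := by
  have hg : 0 < g s := by linarith [g_gt_half hs0 hs1]
  have hn : (0 : ℝ) ≤ n := Nat.cast_nonneg n
  unfold mu
  positivity

/-- The level weight is nonnegative. -/
theorem muw_nonneg (hs0 : 0 ≤ s) (hs1 : s < h0) : 0 ≤ mu N0 s * (N0 + s / h0) / 2 := by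
  have hh := h0_pos
  have hg : 0 < g s := by linarith [g_gt_half hs0 hs1]
  have hn : (0 : ℝ) ≤ N0 := Nat.cast_nonneg N0
  unfold mu
  positivity

/-- **The costs of two kernels** from the node curves. -/
theorem costTab_of (hκ : 0 ≤ κ) (hs0 : 0 ≤ s) (hs1 : s < h0) (hA : K.adm vA) (hB : K.adm vB)
    (hX : K.adm vX) (first : ∀ T, 0 ≤ T → T < 1 → K.dm 0 T ∧ K.cv 0 T = c1 T)
    {CF UF CN UN : List (List Aff)} (h1 : SegOK K CF (cstF κ s vA vX))
    (h2 : SegOK K CN (cstN N0 κ s vB vX)) (h3 : UniOK K UF (cstF κ s vA vX))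
    (h4 : UniOK K UN (cstN N0 κ s vB vX)) :
    CostTab (tab K.nodes vA vB vX) N0 κ s (cbv CF) (cbv UF) (cbv CN) (cbv UN) := by
  have cF : CvxV fun T a b c => fdst κ s T * |a| + 1 / 2 * |b| + 0 * |c| :=
    cvx_abs (fun T hT h3 => fdst_nonneg hκ hs0 hs1 hT h3) (by norm_num) le_rfl
  have cN : CvxV fun T a b c => fdst κ s T * |a| + mu N0 s * (N0 + s / h0) / 2 * |b| + 0 * |c| :=
    cvx_abs (fun T hT h3 => fdst_nonneg hκ hs0 hs1 hT h3) (muw_nonneg hs0 hs1) le_rfl
  refine ⟨fun X T x0 t0 k1 k3 => ?_, fun X T x0 t0 k1 k3 => ?_, fun X T x0 t0 k1 => ?_,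
    fun X T x0 t0 k1 => ?_⟩
  · have := SegOK.bound cF hA hX hX (C := CF) (by
      unfold cstF at h1
      simpa using h1) x0 t0 k1 k3
    simpa [Tab.costF, fdst, tab] using this
  · have := SegOK.bound cN hB hX hX (C := CN) (by
      unfold cstN at h2
      simpa using h2) x0 t0 k1 k3
    simpa [Tab.costN, fdst, tab] using this
  · have := unit_bound cF hA hX hX first (U := UF) (fun T hT hT1 => by
      have := h3 T hT hT1
      unfold cstF at this
      simpa using this) x0 t0 k1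
    simpa [Tab.costF, fdst, tab] using this
  · have := unit_bound cN hB hX hX first (U := UN) (fun T hT hT1 => by
      have := h4 T hT hT1
      unfold cstN at this
      simpa using this) x0 t0 k1
    simpa [Tab.costN, fdst, tab] using this

/-- **The costs of three kernels** from the node curves. -/
theorem costTab3_of (hκ : 0 ≤ κ) (hs0 : 0 ≤ s) (hs1 : s < h0) (ho : 0 ≤ o) (hA : K.adm vA)
    (hB : K.adm vB) (hX : K.adm vX) (hC : K.adm vC)
    (first : ∀ T, 0 ≤ T → T < 1 → K.dm 0 T ∧ K.cv 0 T = c1 T)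
    {CF UF CN UN : List (List Aff)} (h1 : SegOK K CF (cstF κ s vA vX))
    (h2 : SegOK K CN (cstE N0 κ s o vB vX vC)) (h3 : UniOK K UF (cstF κ s vA vX))
    (h4 : UniOK K UN (cstE N0 κ s o vB vX vC)) :
    CostTab3 (tab K.nodes vA vB vX) (ker K.nodes vC fun _ _ => 0) o N0 κ s
      (cbv CF) (cbv UF) (cbv CN) (cbv UN) := by
  have hm := mu_nonneg' N0 hs0 hs1
  have cF : CvxV fun T a b c => fdst κ s T * |a| + 1 / 2 * |b| + 0 * |c| :=
    cvx_abs (fun T hT h3 => fdst_nonneg hκ hs0 hs1 hT h3) (by norm_num) le_rfl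
  have cN : CvxV fun T a b c =>
      fdst κ s T * |a| + mu N0 s * (N0 + s / h0) / 2 * |b| + mu N0 s * o * |c| :=
    cvx_abs (fun T hT h3 => fdst_nonneg hκ hs0 hs1 hT h3) (muw_nonneg hs0 hs1)
      (mul_nonneg hm ho)
  refine ⟨fun X T x0 t0 k1 k3 => ?_, fun X T x0 t0 k1 k3 => ?_, fun X T x0 t0 k1 => ?_,
    fun X T x0 t0 k1 => ?_⟩
  · have := SegOK.bound cF hA hX hX (C := CF) (by
      unfold cstF at h1
      simpa using h1) x0 t0 k1 k3
    simpa [Tab.costF, fdst, tab] using this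
  · have := SegOK.bound cN hB hX hC (C := CN) h2 x0 t0 k1 k3
    unfold Tab.costN tab
    unfold fdst at this
    refine (le_of_eq ?_).trans this
    ring
  · have := unit_bound cF hA hX hX first (U := UF) (fun T hT hT1 => by
      have := h3 T hT hT1
      unfold cstF at this
      simpa using this) x0 t0 k1
    simpa [Tab.costF, fdst, tab] using this
  · have := unit_bound cN hB hX hC first (U := UN) (fun T hT hT1 => h4 T hT hT1) x0 t0 k1
    unfold Tab.costN tab
    unfold fdst at this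
    refine (le_of_eq ?_).trans this
    ring

end

end Pool.Agent.Strip051.LC
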