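import Pool.Agent.Strip051.LC.Exact.StarFlip2
import Pool.Agent.Strip051.LC.Apex

/-! # Long edges without loss at the walls

A long pair at the floor is one whose lower unit apex is at or below the floor.  There is no cell of
the strip below it, so the value on it can be raised up to the wall.  For the other long pairs the
outer unit apex lies in the strip, so that the cells with one long side follow from the small cells
of the strip. -/

namespace Pool.Agent.Strip051.LC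

open Pool.Agent.StripNear Pool.Agent.StripSquare Pool.Agent.Strip051.Sweep

/-! ### Geometry -/

/-- The unit apex on the right of the directed line `p q`. -/
noncomputable def ap (p q : Pt) : Pt :=
  ((p.1 + q.1) / 2 + rr (q.1 - p.1) (q.2 - p.2) * (q.2 - p.2),
    (p.2 + q.2) / 2 - rr (q.1 - p.1) (q.2 - p.2) * (q.1 - p.1))

theorem ap_eq {p q b : Pt} (h1 : ds p b = 1) (h2 : ds q b = 1) (h3 : 0 < ds p q)
    (h4 : ds p q ≤ 4) (h5 : 0 ≤ cr q p b) : b = ap p q := by
  obtain ⟨e1, e2⟩ := apex_eq h1 h2 h3 h4 h5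
  have e : rr (p.1 - q.1) (p.2 - q.2) = rr (q.1 - p.1) (q.2 - p.2) := by
    rw [show p.1 - q.1 = -(q.1 - p.1) by ring, show p.2 - q.2 = -(q.2 - p.2) by ring, rr_neg,
      rr_neg']
  rw [e] at e1 e2
  refine Prod.ext ?_ ?_
  · unfold ap
    simp only
    rw [e1]
    ring
  · unfold ap
    simp only
    rw [e2]
    ring

theorem ap_ds {p q : Pt} (h3 : 0 < ds p q) (h4 : ds p q ≤ 4) :
    ds p (ap p q) = 1 ∧ ds q (ap p q) = 1 := by
  have hds : ds p q = (q.1 - p.1) ^ 2 + (q.2 - p.2) ^ 2 := by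
    unfold ds
    ring
  rw [hds] at h3 h4
  have h := rr_sq h3 h4
  unfold ap ds
  constructor
  · simp only
    linear_combination h
  · simp only
    linear_combination h

/-- The apex below the floor: a pair at the floor. -/
theorem FF.of_apex {p q b : Pt} (hp : 0 ≤ p.2) (hq : 0 ≤ q.2) (h1 : ds p b = 1)
    (h2 : ds q b = 1) (h3 : 3 < ds p q) (hb : b.2 < 0) : FF p q ∨ FF q p := by
  -- the middle `M` and the vector `e` from it to `b`
  obtain ⟨M1, hM1⟩ : ∃ M1, M1 = (p.1 + q.1) / 2 := ⟨_, rfl⟩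
  obtain ⟨M2, hM2⟩ : ∃ M2, M2 = (p.2 + q.2) / 2 := ⟨_, rfl⟩
  obtain ⟨e1, he1⟩ : ∃ e1, e1 = b.1 - M1 := ⟨_, rfl⟩
  obtain ⟨e2, he2⟩ : ∃ e2, e2 = b.2 - M2 := ⟨_, rfl⟩
  obtain ⟨u, hu⟩ : ∃ u, u = (q.1 - p.1) / 2 := ⟨_, rfl⟩
  obtain ⟨v, hv⟩ : ∃ v, v = (q.2 - p.2) / 2 := ⟨_, rfl⟩
  have p1 : p.1 = M1 - u := by rw [hM1, hu]; ring
  have p2 : p.2 = M2 - v := by rw [hM2, hv]; ring
  have q1 : q.1 = M1 + u := by rw [hM1, hu]; ring
  have q2 : q.2 = M2 + v := by rw [hM2, hv]; ring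
  have b1 : b.1 = M1 + e1 := by rw [he1]; ring
  have b2 : b.2 = M2 + e2 := by rw [he2]; ring
  have hM0 : 0 ≤ M2 := by linarith
  unfold ds at h1 h2 h3
  rw [p1, p2, b1, b2] at h1
  rw [q1, q2, b1, b2] at h2
  rw [p1, p2, q1, q2] at h3
  have k1 : e1 * u + e2 * v = 0 := by linarith
  have k2 : e1 ^ 2 + e2 ^ 2 + (u ^ 2 + v ^ 2) = 1 := by linarith
  have k3 : 3 < 4 * (u ^ 2 + v ^ 2) := by linarith
  have he : e2 < 0 := by linarith
  obtain ⟨ν, hν⟩ : ∃ ν, ν = M2 / (M2 - b.2) := ⟨_, rfl⟩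
  have hpos : 0 < M2 - b.2 := by linarith
  have ν0 : 0 ≤ ν := by rw [hν]; positivity
  have ν1 : ν ≤ 1 := by
    rw [hν, div_le_one hpos]
    linarith
  have ν2 : M2 + ν * e2 = 0 := by
    have : e2 = -(M2 - b.2) := by rw [b2]; ring
    rw [this, hν]
    field_simp
    ring
  have hsep : 1 ≤ ds p q := by
    unfold ds
    rw [p1, p2, q1, q2]
    linarith
  have key : (M1 - u - (M1 + ν * e1)) ^ 2 + (M2 - v) ^ 2 ≤ 1 := by
    have e : M2 - v = -(v + ν * e2) := by linarith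
    rw [e]
    have h5 : ν ^ 2 * (e1 ^ 2 + e2 ^ 2) ≤ e1 ^ 2 + e2 ^ 2 := by
      have : ν ^ 2 ≤ 1 := by nlinarith
      nlinarith [sq_nonneg e1, sq_nonneg e2]
    nlinarith
  have hcirc : (M1 - u - (M1 + ν * e1)) ^ 2 + (M2 - v) ^ 2 =
      (M1 + u - (M1 + ν * e1)) ^ 2 + (M2 + v) ^ 2 := by
    have e : M2 = -(ν * e2) := by linarith
    rw [e]
    linear_combination (4 * ν) * k1
  have hu0 : u ≠ 0 := by
    intro h
    rw [h] at k1 k3
    have hv0 : v = 0 := by
      have : e2 * v = 0 := by linarith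
      rcases mul_eq_zero.1 this with h' | h'
      · linarith
      · exact h'
    rw [hv0] at k3
    norm_num at k3
  rcases lt_or_gt_of_ne hu0 with h | h
  · right
    refine ⟨by rw [p1, q1]; linarith, hq, hp, by rw [ds_comm]; exact hsep, M1 + ν * e1, ?_, ?_⟩
    · rw [p1, p2, q1, q2]
      exact hcirc.symm
    · rw [q1, q2, ← hcirc]
      exact key
  · left
    refine ⟨by rw [p1, q1]; linarith, hp, hq, hsep, M1 + ν * e1, ?_, ?_⟩
    · rw [p1, p2, q1, q2]
      exact hcirc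
    · rw [p1, p2]
      exact key

theorem below_aux {X T c y u v : ℝ} (hX : 0 < X) (hy : 0 ≤ y) (hb : 0 ≤ y + T)
    (h3 : 3 < X ^ 2 + T ^ 2) (e1 : X * c - T * y = (X ^ 2 + T ^ 2) / 2)
    (e2 : c ^ 2 + y ^ 2 ≤ 1) (s1 : 1 ≤ u ^ 2 + v ^ 2) (s1' : u ^ 2 + v ^ 2 ≤ 4)
    (s2 : 1 ≤ (u - X) ^ 2 + (v - T) ^ 2) (s2' : (u - X) ^ 2 + (v - T) ^ 2 ≤ 4)
    (s4 : X ^ 2 + T ^ 2 ≤ 4 * (T * u - X * v) ^ 2) (s5 : 0 ≤ T * u - X * v) : y + v < 0 := by
  obtain ⟨L, hLd⟩ : ∃ L, L = X ^ 2 + T ^ 2 := ⟨_, rfl⟩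
  obtain ⟨P, hP⟩ : ∃ P, P = X * u + T * v := ⟨_, rfl⟩
  obtain ⟨k, hk⟩ : ∃ k, k = T * u - X * v := ⟨_, rfl⟩
  obtain ⟨κ, hκ⟩ : ∃ κ, κ = T * c + X * y := ⟨_, rfl⟩
  rw [← hk] at s4 s5
  rw [← hLd] at h3 s4 e1
  have f1 : L * v = T * P - X * k := by rw [hLd, hP, hk]; ring
  have f2 : L * y = X * κ - T * (L / 2) := by rw [← e1, hLd, hκ]; ring
  have f3 : κ ^ 2 ≤ L - L ^ 2 / 4 := by
    have g1 : (L / 2) ^ 2 + κ ^ 2 = L * (c ^ 2 + y ^ 2) := by
      rw [← e1, hLd, hκ]
      ring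
    have g2 : L * (c ^ 2 + y ^ 2) ≤ L * 1 := mul_le_mul_of_nonneg_left e2 (by linarith)
    linarith
  have f4 : L * (u ^ 2 + v ^ 2) = P ^ 2 + k ^ 2 := by rw [hLd, hP, hk]; ring
  have f5 : (u - X) ^ 2 + (v - T) ^ 2 = u ^ 2 + v ^ 2 + L - 2 * P := by rw [hLd, hP]; ring
  rw [f5] at s2 s2'
  have hL0 : 0 < L := by linarith
  clear f5 hk hP hκ e1 e2 hLd
  have P0 : 0 ≤ P := by linarith
  have P1 : P ≤ L := by linarith
  have t1 : 0 ≤ X * κ - T * (L / 2) := by rw [← f2]; positivity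
  have t2 : 0 ≤ X * κ + T * (L / 2) := by
    have : X * κ + T * (L / 2) = L * (y + T) := by linarith
    rw [this]
    exact mul_nonneg hL0.le hb
  have κ0 : 0 ≤ κ := by
    have : 0 ≤ X * κ := by linarith
    exact nonneg_of_mul_nonneg_right this hX
  obtain ⟨z, hz⟩ : ∃ z, z = P - L / 2 := ⟨_, rfl⟩
  obtain ⟨q, hq⟩ : ∃ q, q = 2 * |z| / L := ⟨_, rfl⟩
  have q0 : 0 ≤ q := by rw [hq]; positivity
  have zL : |z| ≤ L / 2 := by
    rw [abs_le, hz]
    constructor <;> linarith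
  have q1 : q ≤ 1 := by
    rw [hq, div_le_one hL0]
    linarith
  have qz : |z| = q * L / 2 := by
    rw [hq]
    field_simp
  -- `k² > κ² (1 + q)²`
  have g1 : L - (L / 2) ^ 2 * (1 - q) ^ 2 ≤ k ^ 2 := by
    have g2 : L ≤ P ^ 2 + k ^ 2 := by
      have := mul_le_mul_of_nonneg_left s1 hL0.le
      linarith
    have g3 : L ≤ (L - P) ^ 2 + k ^ 2 := by
      have h1 := mul_le_mul_of_nonneg_left s2 hL0.le
      have h2 : L * (u ^ 2 + v ^ 2 + L - 2 * P) = L * (u ^ 2 + v ^ 2) + (L ^ 2 - 2 * L * P) := by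
        ring
      rw [h2, f4] at h1
      have h3 : P ^ 2 + k ^ 2 + (L ^ 2 - 2 * L * P) = (L - P) ^ 2 + k ^ 2 := by ring
      linarith
    have g4 : L ≤ (L / 2 - |z|) ^ 2 + k ^ 2 := by
      rcases abs_cases z with ⟨h5, -⟩ | ⟨h5, -⟩
      · rw [h5, hz]
        linarith [(by ring : (L / 2 - (P - L / 2)) ^ 2 = (L - P) ^ 2)]
      · rw [h5, hz]
        linarith [(by ring : (L / 2 - -(P - L / 2)) ^ 2 = P ^ 2)]
    rw [qz] at g4
    linarith [(by ring : (L / 2 - q * L / 2) ^ 2 = (L / 2) ^ 2 * (1 - q) ^ 2)]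
  have g5 : (κ * (1 + q)) ^ 2 < k ^ 2 := by
    have g6 : (κ * (1 + q)) ^ 2 ≤ (L - L ^ 2 / 4) * (1 + q) ^ 2 := by
      rw [mul_pow]
      exact mul_le_mul_of_nonneg_right f3 (sq_nonneg _)
    rcases q0.eq_or_lt with h5 | h5
    · rw [← h5, add_zero, mul_one] at g6 ⊢
      have h6 : 0 < (L - 1) * (L - 3) := mul_pos (by linarith) (by linarith)
      have h7 : (L - 1) * (L - 3) = L ^ 2 - 4 * L + 3 := by ring
      linarith
    · have g7 : (L - L ^ 2 / 4) * (1 + q) ^ 2 < L - (L / 2) ^ 2 * (1 - q) ^ 2 := by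
        have h6 : L - (L / 2) ^ 2 * (1 - q) ^ 2 - (L - L ^ 2 / 4) * (1 + q) ^ 2 =
          L * q * (L - 2 - q) := by ring
        have h7 : 0 < L * q * (L - 2 - q) := mul_pos (mul_pos hL0 h5) (by linarith)
        linarith
      linarith
  have g8 : κ * (1 + q) < k := lt_of_pow_lt_pow_left₀ 2 s5 g5
  -- the height
  have g9 : L * (y + v) = X * (κ - k) + T * z := by
    rw [hz]
    linarith
  have g10 : T * z ≤ X * κ * q := by
    have a1 : |T| * (L / 2) ≤ X * κ := by
      rcases abs_cases T with ⟨h5, -⟩ | ⟨h5, -⟩ <;> rw [h5] <;> linarith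
    have a2 : T * z ≤ |T| * |z| := (le_abs_self _).trans (abs_mul T z).le
    have a3 : |T| * |z| = |T| * (L / 2) * q := by rw [qz]; ring
    have a4 : |T| * (L / 2) * q ≤ X * κ * q := mul_le_mul_of_nonneg_right a1 q0
    linarith
  have g11 : L * (y + v) < 0 := by
    have h6 : X * (κ * (1 + q) - k) < 0 := mul_neg_of_pos_of_neg hX (by linarith)
    have h7 : X * (κ * (1 + q) - k) = X * (κ - k) + X * κ * q := by ring
    linarith
  by_contra hcon
  push Not at hcon
  have := mul_nonneg hL0.le hcon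
  linarith

/-- **No cell of the strip lies below a long pair at the floor.** -/
theorem FF.below {a b r : Pt} (h : FF a b) (h3 : 3 < ds a b) (hc : Cel b a r) : r.2 < 0 := by
  obtain ⟨m, e1, e2⟩ := h.circ
  have s1 := hc.qr
  have s2 := hc.pr
  have s3 : ds b r ≤ 4 := by
    have := hc.rot.rot.le_four
    rwa [ds_comm] at this
  have s3' : ds a r ≤ 4 := hc.rot.le_four
  have s4 := hc.four_cr
  have s5 := hc.cr0
  rw [ds_comm b a] at s4
  have hL : ds a b = (b.1 - a.1) ^ 2 + (b.2 - a.2) ^ 2 := by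
    unfold ds
    ring
  have d1 : ds a r = (r.1 - a.1) ^ 2 + (r.2 - a.2) ^ 2 := by
    unfold ds
    ring
  have d2 : ds b r = (r.1 - a.1 - (b.1 - a.1)) ^ 2 + (r.2 - a.2 - (b.2 - a.2)) ^ 2 := by
    unfold ds
    ring
  have d3 : cr b a r = (b.2 - a.2) * (r.1 - a.1) - (b.1 - a.1) * (r.2 - a.2) := by
    unfold cr
    ring
  rw [hL] at h3 s4
  rw [d1] at s1 s3'
  rw [d2] at s2 s3
  rw [d3] at s4 s5
  have := below_aux (c := m - a.1) (sub_pos.2 h.lt) h.p0 (by linarith [h.q0]) h3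
    (by linarith) (by linarith) s1 s3' s2 s3 s4 s5
  linarith

/-! ### The extension -/

/-- A pair at the floor or at the ceiling, in some direction. -/
def Wp (H : ℝ) (p q : Pt) : Prop :=
  FF p q ∨ FF q p ∨ FF (mir H q) (mir H p) ∨ FF (mir H p) (mir H q)

/-- A pair at the floor or at the ceiling with the strip on the left of it. -/
def Wf (H : ℝ) (p q : Pt) : Prop := FF p q ∨ FF (mir H q) (mir H p)

theorem Wp.symm {H : ℝ} {p q : Pt} (h : Wp H p q) : Wp H q p := by
  unfold Wp at *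
  tauto

theorem Wf.wp {H : ℝ} {p q : Pt} (h : Wf H p q) : Wp H p q := by
  unfold Wp Wf at *
  tauto

/-- A long pair which is not at a wall has its apexes in the strip. -/
theorem ap_in {H : ℝ} {p q b : Pt} (hp : In H p) (hq : In H q) (h1 : ds p b = 1)
    (h2 : ds q b = 1) (h3 : 3 < ds p q) (hw : ¬Wp H p q) : In H b := by
  constructor
  · by_contra hcon
    push Not at hcon
    rcases FF.of_apex hp.1 hq.1 h1 h2 h3 hcon with h | h
    · exact hw (Or.inl h)
    · exact hw (Or.inr (Or.inl h))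
  · by_contra hcon
    push Not at hcon
    rcases FF.of_apex (b := mir H b) hp.mir.1 hq.mir.1 (by rw [ds_mir]; exact h1)
      (by rw [ds_mir]; exact h2) (by rw [ds_mir]; exact h3)
      (by unfold mir; simp only; linarith) with h | h
    · exact hw (Or.inr (Or.inr (Or.inr h)))
    · exact hw (Or.inr (Or.inr (Or.inl h)))

/-- The cell of a long pair at a wall lies on the inner side. -/
theorem Wp.forward {H : ℝ} {p q r : Pt} (hr : In H r) (h3 : 3 < ds p q) (hc : Cel p q r)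
    (hw : Wp H p q) : Wf H p q := by
  rcases hw with h | h | h | h
  · exact Or.inl h
  · exact absurd (h.below (by rwa [ds_comm]) hc) (not_lt.2 hr.1)
  · exact Or.inr h
  · exfalso
    have := h.below (by rw [ds_mir]; exact h3) (r := mir H r) (cel_mir hc)
    exact absurd this (not_lt.2 hr.mir.1)

open Classical in
/-- The defect of the cells on the left of `p q`: the path through the unit apex on the right. -/
noncomputable def dl (H : ℝ) (G : Pt → Pt → ℝ) (p q : Pt) : ℝ :=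
  if In H p ∧ In H q ∧ 3 < ds p q ∧ ds p q ≤ 4 ∧ ¬Wp H p q then
    max 0 (G p (ap p q) + G (ap p q) q - 1 / 2 - G p q) else 0

/-- The value of a long side of a cell with two long sides. -/
noncomputable def ev (H : ℝ) (G : Pt → Pt → ℝ) (p q : Pt) : ℝ := G p q - dl H G q p

theorem dl_nonneg (H : ℝ) (G : Pt → Pt → ℝ) (p q : Pt) : 0 ≤ dl H G p q := by
  unfold dl
  split_ifs
  · exact le_max_left _ _
  · exact le_rfl

theorem dl_wall {H : ℝ} {G : Pt → Pt → ℝ} {p q : Pt} (h : Wp H p q) : dl H G p q = 0 := by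
  unfold dl
  rw [if_neg]
  rintro ⟨-, -, -, -, h'⟩
  exact h' h

theorem ev_wall {H : ℝ} {G : Pt → Pt → ℝ} {p q : Pt} (h : Wp H p q) : ev H G p q = G p q := by
  unfold ev
  rw [dl_wall h.symm, sub_zero]

/-- The value is the smaller one of the value of the side and of the path through the apex. -/
theorem ev_free {H : ℝ} {G : Pt → Pt → ℝ} (hG : ∀ a b, G b a = -G a b) {p q : Pt} (hp : In H p)
    (hq : In H q) (h3 : 3 < ds p q) (h4 : ds p q ≤ 4) (h : ¬Wp H p q) :
    ev H G p q = min (G p q) (1 / 2 + G p (ap q p) + G (ap q p) q) := by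
  unfold ev dl
  rw [if_pos ⟨hq, hp, by rwa [ds_comm], by rwa [ds_comm], fun h' => h h'.symm⟩]
  have a1 := hG p q
  have a2 := hG p (ap q p)
  have a3 := hG (ap q p) q
  rcases le_total (G q (ap q p) + G (ap q p) p - 1 / 2 - G q p) 0 with c | c
  · rw [max_eq_left c, min_eq_left (by linarith), sub_zero]
  · rw [max_eq_right c, min_eq_right (by linarith)]
    linarith

theorem ev_ge {H : ℝ} {G : Pt → Pt → ℝ} (hG : ∀ a b, G b a = -G a b) {p q : Pt} (hp : In H p)
    (hq : In H q) (h3 : 3 < ds p q) (h4 : ds p q ≤ 4) {x : ℝ} (h1 : x ≤ G p q)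
    (h2 : ¬Wp H p q → x ≤ 1 / 2 + G p (ap q p) + G (ap q p) q) : x ≤ ev H G p q := by
  by_cases hw : Wp H p q
  · rwa [ev_wall hw]
  · rw [ev_free hG hp hq h3 h4 hw]
    exact le_min h1 (h2 hw)

/-- **The hypotheses**: an edge function `G` which is good on the small cells of the strip, at most
the wall on the short pairs at the floor and equal to the wall on the long ones. -/
structure ExtLong (H w : ℝ) (G : Pt → Pt → ℝ) : Prop where
  anti : ∀ a b, G b a = -G a b
  mirror : ∀ a b, G (mir H a) (mir H b) = G b a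
  rows : ∀ p q r, In H p → In H q → In H r → Cel p q r → ds p q ≤ 3 → ds q r ≤ 3 →
    ds p r ≤ 3 → 1 / 2 ≤ G p q + G q r + G r p
  wall : ∀ p q, In H p → In H q → FF p q → ds p q ≤ 3 → G p q ≤ w * (q.1 - p.1) - 1 / 2
  long : ∀ p q, In H p → In H q → FF p q → 3 < ds p q → G p q = w * (q.1 - p.1) - 1 / 2
  /-- the cells with one long side on a long pair at the floor -/
  above : ∀ p q r, In H p → In H q → In H r → FF p q → Cel p q r → 3 < ds p q → ds q r ≤ 3 →
    ds p r ≤ 3 → 1 ≤ w * (q.1 - p.1) + G q r + G r p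
  /-- the high cells with one long side -/
  tall : ∀ p q r, In H p → In H q → In H r → ¬Wp H p q → Cel p q r → 3 < ds p q → ds q r ≤ 3 →
    ds p r ≤ 3 → 3 < ds (ap p q) r → 1 / 2 ≤ G p q + G q r + G r p
  /-- the quadrilaterals with two long diagonals -/
  quad : ∀ p q r r', In H p → In H q → In H r → In H r' → ¬Wp H p q → Cel p q r →
    Cel q p r' → 3 < ds p q → ds q r ≤ 3 → ds p r ≤ 3 → ds q r' ≤ 3 → ds p r' ≤ 3 →
    3 < ds r r' → 1 ≤ G p r' + G r' q + G q r + G r p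
  /-- the cells with two long sides -/
  two : ∀ p q r, In H p → In H q → In H r → Cel p q r → 3 < ds p q → ds q r ≤ 3 →
    3 < ds p r → (Wp H p q → Wf H p q) → (Wp H r p → Wf H r p) →
    1 / 2 ≤ ev H G p q + G q r + ev H G r p

section

variable {H w : ℝ} {G : Pt → Pt → ℝ}

/-- The cells with one long side. -/
theorem ExtLong.one (h : ExtLong H w G) {p q r : Pt} (hp : In H p) (hq : In H q) (hr : In H r)
    (hc : Cel p q r) (k1 : 3 < ds p q) (k2 : ds q r ≤ 3) (k3 : ds p r ≤ 3) :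
    1 / 2 - dl H G p q ≤ G p q + G q r + G r p := by
  by_cases hw : Wp H p q
  · rw [dl_wall hw, sub_zero]
    rcases hw.forward hr k1 hc with hf | hf
    · have e1 := h.above p q r hp hq hr hf hc k1 k2 k3
      have e2 := h.long p q hp hq hf k1
      linarith
    · have e1 := h.above (mir H q) (mir H p) (mir H r) hq.mir hp.mir hr.mir hf (cel_mir hc)
        (by rw [ds_mir, ds_comm]; exact k1) (by rw [ds_mir]; exact k3)
        (by rw [ds_mir]; exact k2)
      have e2 := h.long (mir H q) (mir H p) hq.mir hp.mir hf (by rw [ds_mir, ds_comm]; exact k1)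
      rw [h.mirror] at e1 e2
      rw [h.mirror] at e1
      linarith
  · have k4 := hc.le_four
    obtain ⟨b, b1, b2, b3, g1, g2⟩ := hc.step k1
    have hb : b = ap p q := ap_eq b1 b2 (by linarith) k4 b3
    have hbI : In H b := ap_in hp hq b1 b2 k1 hw
    rcases le_or_gt (ds b r) 3 with c | c
    · have e1 := h.rows p b r hp hbI hr g1 (by rw [b1]; norm_num) c k3
      have e2 := h.rows b q r hbI hq hr g2 (by rw [ds_comm, b2]; norm_num) k2 c
      have e3 := h.anti b r
      have e4 : G p b + G b q - 1 / 2 - G p q ≤ dl H G p q := by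
        unfold dl
        rw [if_pos ⟨hp, hq, k1, k4, hw⟩, ← hb]
        exact le_max_right _ _
      linarith
    · have e1 := h.tall p q r hp hq hr hw hc k1 k2 k3 (by rw [← hb]; exact c)
      have e2 := dl_nonneg H G p q
      linarith

/-- **The edge function can be extended by flips.** -/
theorem ExtLong.ext (h : ExtLong H w G) : Ext (In H) G (dl H G) := by
  refine ⟨h.anti, ?_, ?_, ?_, ?_, dl_nonneg H G⟩
  · intro p q r hp hq hr k0 k1 k2 k3 k4 k5 k6
    exact h.rows p q r hp hq hr (cel_of_small k0 k1 k2 k3 k4 k5 k6) k4 k5 k6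
  · intro p q r r' hp hq hr hr' h1 h2 k1 k2 k3 k4 k5 k6
    refine h.quad p q r r' hp hq hr hr' ?_ h1 h2 k1 k2 k3 k4 k5 k6
    intro hw
    have f1 := hw.forward hr k1 h1
    have f2 := hw.symm.forward hr' (by rwa [ds_comm]) h2
    rcases f1 with f1 | f1
    · exact absurd (f1.below k1 h2) (not_lt.2 hr'.1)
    · have := f1.below (by rw [ds_mir, ds_comm]; exact k1) (r := mir H r') (cel_mir h2)
      exact absurd this (not_lt.2 hr'.mir.1)
  · intro p q r hp hq hr hc k1 k2 k3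
    exact h.one hp hq hr hc k1 k2 k3
  · intro p q r hp hq hr hc k1 k2 k3
    have e := h.two p q r hp hq hr hc k1 k2 k3 (fun hw => hw.forward hr k1 hc)
      (fun hw => hw.forward hq (by rw [ds_comm]; exact k3) hc.rot.rot)
    have a1 := h.anti p r
    unfold ev at e
    linarith

/-- **The certificate for the strip.** -/
theorem ExtLong.symH (h : ExtLong H w G) : SymH H w (FE (In H) G) := by
  refine h.ext.symH h.mirror ?_ ?_
  · intro p q m k1 hp hq k2 k3 k4 k5
    have := h.wall p q hp hq (FF.of_wall k1 hp.1 hq.1 k2 k4 k5) k3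
    have e := h.anti p q
    linarith
  · intro p q m k1 hp hq k2 k4 k5
    have hff := FF.of_wall k1 hp.1 hq.1 (by linarith) k4 k5
    have := h.long p q hp hq hff k2
    have e := h.anti p q
    rw [dl_wall (Or.inl hff)]
    linarith

/-- The defects are bounded. -/
theorem dl_le {K : ℝ} (hK0 : 0 ≤ K)
    (hK : ∀ a b : Pt, |a.1 - b.1| ≤ 2 → In H a → In H b → |G a b| ≤ K) (p q : Pt) :
    dl H G p q ≤ 3 * K := by
  unfold dl
  split_ifs with c
  · obtain ⟨hp, hq, k3, k4, hw⟩ := c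
    obtain ⟨b1, b2⟩ := ap_ds (by linarith) k4
    have hb : In H (ap p q) := ap_in hp hq b1 b2 k3 hw
    have hx : ∀ a b : Pt, ds a b ≤ 4 → |a.1 - b.1| ≤ 2 := by
      intro a b h
      unfold ds at h
      rw [abs_le]
      constructor <;> nlinarith [sq_nonneg (b.2 - a.2)]
    have e1 := hK p (ap p q) (hx _ _ (by rw [b1]; norm_num)) hp hb
    have e2 := hK (ap p q) q (hx _ _ (by rw [ds_comm, b2]; norm_num)) hb hq
    have e3 := hK p q (hx _ _ k4) hp hq
    rw [abs_le] at e1 e2 e3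
    refine max_le (by linarith) (by linarith)
  · linarith

end

end Pool.Agent.Strip051.LC
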