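import Pool.Agent.Strip051.LC.Exact.FamV

/-! # Families of triangles for a general system of node curves

`Cur n ι` is a system of `n + 1` node curves between the circles of radius `1` and `√3`; the kernel
`ker nodes v 0` is the linear interpolation between consecutive curves. -/

namespace Pool.Agent.Strip051.LC

open Pool.Agent.StripNear Pool.Agent.StripSquare Pool.Agent.Strip051.Sweep
open Pool.Agent.Strip051.LC.Line (NG MoN MoW Mo jn tau)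

/-- A system of node curves. -/
structure Cur (n : ℕ) (ι : Type) where
  /-- the lists of nodes -/
  nodes : ℝ → List (ℝ × ι)
  /-- the curves -/
  cv : Fin (n + 1) → ℝ → ℝ
  /-- the tags -/
  tg : Fin (n + 1) → ι
  /-- the heights where the curve is a node -/
  dm : Fin (n + 1) → ℝ → Prop
  /-- the admissible tables -/
  adm : (ℝ → ι → ℝ) → Prop
  isNodes : IsNodes nodes
  low : ∀ j T, 0 ≤ T → T ^ 2 ≤ 3 → c1 T ≤ cv j T
  high : ∀ j T, 0 ≤ T → T ^ 2 ≤ 3 → cv j T ≤ c3 T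
  dm_sq : ∀ j T, 0 ≤ T → dm j T → T ^ 2 ≤ 3
  node : ∀ X T, 0 ≤ T → X ^ 2 + T ^ 2 ≤ 3 → NodeAt nodes X T → ∃ j, dm j T ∧ |X| = cv j T
  val : ∀ v, adm v → ∀ j T, 0 ≤ T → dm j T →
    ker nodes v (fun _ _ => 0) (cv j T) T = v T (tg j)
  cover : ∀ X T, 0 ≤ T → T ^ 2 ≤ 3 → c1 T ≤ X → X ≤ c3 T →
    ∃ i : Fin n, cv i.castSucc T ≤ X ∧ X ≤ cv i.succ T
  seg : ∀ v, adm v → ∀ (i : Fin n) (X T : ℝ), 0 ≤ T → T ^ 2 ≤ 3 → cv i.castSucc T ≤ X →
    X ≤ cv i.succ T → ker nodes v (fun _ _ => 0) X T = v T (tg i.castSucc) +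
      (v T (tg i.succ) - v T (tg i.castSucc)) *
        ((X - cv i.castSucc T) / (cv i.succ T - cv i.castSucc T))

namespace Cur

variable {n : ℕ} {ι : Type} (K : Cur n ι)

theorem nonneg (j : Fin (n + 1)) {T : ℝ} (hT : 0 ≤ T) (h3 : T ^ 2 ≤ 3) : 0 ≤ K.cv j T :=
  (c1_nonneg T).trans (K.low j T hT h3)

/-- The node edges have lengths between `1` and `√3`. -/
theorem len {j : Fin (n + 1)} {T : ℝ} (hT : 0 ≤ T) (h : K.dm j T) :
    1 ≤ K.cv j T ^ 2 + T ^ 2 ∧ K.cv j T ^ 2 + T ^ 2 ≤ 3 := by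
  have h3 := K.dm_sq j T hT h
  have g1 := K.low j T hT h3
  have g2 := K.high j T hT h3
  have g3 := c1_nonneg T
  have g4 := c3_sq h3
  constructor
  · rcases le_or_gt T 1 with h5 | h5
    · have := c1_sq hT h5
      nlinarith
    · nlinarith [sq_nonneg (K.cv j T)]
  · nlinarith

/-- The linear interpolation between the curves `i` and `i + 1`. -/
noncomputable def lin (v : ℝ → ι → ℝ) (i : Fin n) (X T : ℝ) : ℝ :=
  v T (K.tg i.castSucc) + (v T (K.tg i.succ) - v T (K.tg i.castSucc)) *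
    ((X - K.cv i.castSucc T) / (K.cv i.succ T - K.cv i.castSucc T))

theorem ker_neg (v : ℝ → ι → ℝ) (X T : ℝ) :
    ker K.nodes v (fun _ _ => 0) (-X) T = -ker K.nodes v (fun _ _ => 0) X T :=
  ker_odd K.isNodes (fun _ => rfl) X T

/-- The value at a node. -/
theorem ker_cv {v : ℝ → ι → ℝ} (hv : K.adm v) {σ : ℝ} (hσ : σ = 1 ∨ σ = -1) {j : Fin (n + 1)}
    {T : ℝ} (hT : 0 ≤ T) (h : K.dm j T) :
    ker K.nodes v (fun _ _ => 0) (σ * K.cv j T) T = σ * v T (K.tg j) := by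
  have pos := K.val v hv j T hT h
  rcases hσ with rfl | rfl
  · rw [one_mul, one_mul, pos]
  · rw [neg_one_mul, ker_neg, pos]
    ring

/-- The value between two nodes. -/
theorem ker_lin {v : ℝ → ι → ℝ} (hv : K.adm v) {σ : ℝ} (hσ : σ = 1 ∨ σ = -1) {i : Fin n}
    {X T : ℝ} (hT : 0 ≤ T) (h3 : T ^ 2 ≤ 3) (h1 : K.cv i.castSucc T ≤ σ * X)
    (h2 : σ * X ≤ K.cv i.succ T) :
    ker K.nodes v (fun _ _ => 0) X T = σ * K.lin v i (σ * X) T := by
  have key := K.seg v hv i (σ * X) T hT h3 h1 h2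
  unfold lin
  rw [← key]
  rcases hσ with rfl | rfl
  · rw [one_mul, one_mul]
  · rw [neg_one_mul, neg_one_mul, ker_neg, neg_neg]

theorem seg_pos {X T : ℝ} (hT : 0 ≤ T) (hX : 0 ≤ X) (h1 : 1 ≤ X ^ 2 + T ^ 2)
    (h3 : X ^ 2 + T ^ 2 ≤ 3) :
    ∃ i : Fin n, K.cv i.castSucc T ≤ 1 * X ∧ 1 * X ≤ K.cv i.succ T := by
  have hT3 : T ^ 2 ≤ 3 := by nlinarith [sq_nonneg X]
  have g1 : c1 T ≤ X := by
    rcases le_or_gt T 1 with h | h
    · have := c1_sq hT h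
      nlinarith [c1_nonneg T]
    · rw [c1_zero h.le]
      exact hX
  have g3 : X ≤ c3 T := by
    have := c3_sq hT3
    nlinarith [c3_nonneg T]
  obtain ⟨i, h4, h5⟩ := K.cover X T hT hT3 g1 g3
  exact ⟨i, by rwa [one_mul], by rwa [one_mul]⟩

theorem seg_neg {X T : ℝ} (hT : 0 ≤ T) (hX : X ≤ 0) (h1 : 1 ≤ X ^ 2 + T ^ 2)
    (h3 : X ^ 2 + T ^ 2 ≤ 3) :
    ∃ i : Fin n, K.cv i.castSucc T ≤ -1 * X ∧ -1 * X ≤ K.cv i.succ T := by
  obtain ⟨i, h4, h5⟩ := K.seg_pos (X := -X) hT (by linarith) (by rwa [neg_sq])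
    (by rwa [neg_sq])
  exact ⟨i, by linarith, by linarith⟩

theorem horizontal {j : Fin (n + 1)} : 1 ≤ K.cv j 0 ∧ K.cv j 0 < 2 := by
  have h1 := K.low j 0 le_rfl (by norm_num)
  have h2 := K.high j 0 le_rfl (by norm_num)
  have h3 := c3_sq (t := 0) (by norm_num)
  rw [c1_zero'] at h1
  exact ⟨h1, by nlinarith [c3_nonneg 0]⟩

/-! ### Hypotheses and values -/

/-- The hypotheses of the family `A` (nodes on the sides bottom-middle and middle-top): `ε`, `i` are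
the sign and the piece of the third side. -/
def HypA (j k : Fin (n + 1)) (σ σ' ε : ℝ) (i : Fin n) (t t' : ℝ) : Prop :=
  0 ≤ t ∧ 0 ≤ t' ∧ K.dm j t ∧ K.dm k t' ∧ 0 ≤ σ * K.cv j t * t' - σ' * K.cv k t' * t ∧
    1 ≤ (σ * K.cv j t + σ' * K.cv k t') ^ 2 + (t + t') ^ 2 ∧
    (σ * K.cv j t + σ' * K.cv k t') ^ 2 + (t + t') ^ 2 ≤ 3 ∧
    K.cv i.castSucc (t + t') ≤ ε * (σ * K.cv j t + σ' * K.cv k t') ∧
    ε * (σ * K.cv j t + σ' * K.cv k t') ≤ K.cv i.succ (t + t')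

/-- The hypotheses of the family `B` (nodes on the sides bottom-middle and bottom-top). -/
def HypB (j k : Fin (n + 1)) (σ σ' ε : ℝ) (i : Fin n) (t t' : ℝ) : Prop :=
  0 ≤ t ∧ 0 ≤ t' ∧ K.dm j t ∧ K.dm k (t + t') ∧
    0 ≤ σ * K.cv j t * (t + t') - σ' * K.cv k (t + t') * t ∧
    1 ≤ (σ' * K.cv k (t + t') - σ * K.cv j t) ^ 2 + t' ^ 2 ∧
    (σ' * K.cv k (t + t') - σ * K.cv j t) ^ 2 + t' ^ 2 ≤ 3 ∧
    K.cv i.castSucc t' ≤ ε * (σ' * K.cv k (t + t') - σ * K.cv j t) ∧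
    ε * (σ' * K.cv k (t + t') - σ * K.cv j t) ≤ K.cv i.succ t'

/-- The hypotheses of the family `C` (nodes on the sides middle-top and bottom-top). -/
def HypC (j k : Fin (n + 1)) (σ σ' ε : ℝ) (i : Fin n) (t t' : ℝ) : Prop :=
  0 ≤ t ∧ 0 ≤ t' ∧ K.dm j t' ∧ K.dm k (t + t') ∧
    0 ≤ σ' * K.cv k (t + t') * t' - σ * K.cv j t' * (t + t') ∧
    1 ≤ (σ' * K.cv k (t + t') - σ * K.cv j t') ^ 2 + t ^ 2 ∧
    (σ' * K.cv k (t + t') - σ * K.cv j t') ^ 2 + t ^ 2 ≤ 3 ∧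
    K.cv i.castSucc t ≤ ε * (σ' * K.cv k (t + t') - σ * K.cv j t') ∧
    ε * (σ' * K.cv k (t + t') - σ * K.cv j t') ≤ K.cv i.succ t

/-- The values of a table on the three sides, family `A`. -/
noncomputable def valA (j k : Fin (n + 1)) (σ σ' ε : ℝ) (i : Fin n) (t t' : ℝ)
    (v : ℝ → ι → ℝ) : ℝ × ℝ × ℝ :=
  (σ * v t (K.tg j), σ' * v t' (K.tg k),
    ε * K.lin v i (ε * (σ * K.cv j t + σ' * K.cv k t')) (t + t'))

/-- The values of a table on the three sides, family `B`. -/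
noncomputable def valB (j k : Fin (n + 1)) (σ σ' ε : ℝ) (i : Fin n) (t t' : ℝ)
    (v : ℝ → ι → ℝ) : ℝ × ℝ × ℝ :=
  (σ * v t (K.tg j), ε * K.lin v i (ε * (σ' * K.cv k (t + t') - σ * K.cv j t)) t',
    σ' * v (t + t') (K.tg k))

/-- The values of a table on the three sides, family `C`. -/
noncomputable def valC (j k : Fin (n + 1)) (σ σ' ε : ℝ) (i : Fin n) (t t' : ℝ)
    (v : ℝ → ι → ℝ) : ℝ × ℝ × ℝ :=
  (ε * K.lin v i (ε * (σ' * K.cv k (t + t') - σ * K.cv j t')) t, σ * v t' (K.tg j),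
    σ' * v (t + t') (K.tg k))

/-- The values of the kernel on the three sides of the normal form. -/
noncomputable def valK (X12 X13 t t' : ℝ) (v : ℝ → ι → ℝ) : ℝ × ℝ × ℝ :=
  (ker K.nodes v (fun _ _ => 0) X12 t, ker K.nodes v (fun _ _ => 0) (X13 - X12) t',
    ker K.nodes v (fun _ _ => 0) X13 (t + t'))

section

variable {K} {j k : Fin (n + 1)} {σ σ' ε : ℝ} {i : Fin n} {t t' : ℝ} {v : ℝ → ι → ℝ}

theorem valK_A (hv : K.adm v) (hσ : σ = 1 ∨ σ = -1) (hσ' : σ' = 1 ∨ σ' = -1)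
    (hε : ε = 1 ∨ ε = -1) (h : K.HypA j k σ σ' ε i t t') :
    K.valK (σ * K.cv j t) (σ * K.cv j t + σ' * K.cv k t') t t' v =
      K.valA j k σ σ' ε i t t' v := by
  obtain ⟨h1, h2, h3, h4, -, -, h7, h8, h9⟩ := h
  have hT : 0 ≤ t + t' := by linarith
  have hT3 : (t + t') ^ 2 ≤ 3 := by nlinarith [sq_nonneg (σ * K.cv j t + σ' * K.cv k t')]
  unfold valK valA
  rw [K.ker_cv hv hσ h1 h3, add_sub_cancel_left, K.ker_cv hv hσ' h2 h4,
    K.ker_lin hv hε hT hT3 h8 h9]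

theorem valK_B (hv : K.adm v) (hσ : σ = 1 ∨ σ = -1) (hσ' : σ' = 1 ∨ σ' = -1)
    (hε : ε = 1 ∨ ε = -1) (h : K.HypB j k σ σ' ε i t t') :
    K.valK (σ * K.cv j t) (σ' * K.cv k (t + t')) t t' v = K.valB j k σ σ' ε i t t' v := by
  obtain ⟨h1, h2, h3, h4, -, -, h7, h8, h9⟩ := h
  have hT : 0 ≤ t + t' := by linarith
  have hT3 : t' ^ 2 ≤ 3 := by nlinarith [sq_nonneg (σ' * K.cv k (t + t') - σ * K.cv j t)]
  unfold valK valB
  rw [K.ker_cv hv hσ h1 h3, K.ker_cv hv hσ' hT h4, K.ker_lin hv hε h2 hT3 h8 h9]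

theorem valK_C (hv : K.adm v) (hσ : σ = 1 ∨ σ = -1) (hσ' : σ' = 1 ∨ σ' = -1)
    (hε : ε = 1 ∨ ε = -1) (h : K.HypC j k σ σ' ε i t t') :
    K.valK (σ' * K.cv k (t + t') - σ * K.cv j t') (σ' * K.cv k (t + t')) t t' v =
      K.valC j k σ σ' ε i t t' v := by
  obtain ⟨h1, h2, h3, h4, -, -, h7, h8, h9⟩ := h
  have hT : 0 ≤ t + t' := by linarith
  have hT3 : t ^ 2 ≤ 3 := by nlinarith [sq_nonneg (σ' * K.cv k (t + t') - σ * K.cv j t')]
  unfold valK valC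
  rw [sub_sub_cancel, K.ker_cv hv hσ h2 h3, K.ker_cv hv hσ' hT h4, K.ker_lin hv hε h1 hT3 h8 h9]

end

/-- The explicit statement of the family `A`. -/
def ExA (V : ℝ → ℝ → ℝ → ℝ → ((ℝ → ι → ℝ) → ℝ × ℝ × ℝ) → Prop) (j k : Fin (n + 1))
    (σ σ' ε : ℝ) : Prop :=
  ∀ (i : Fin n) (t t' : ℝ), K.HypA j k σ σ' ε i t t' →
    V (σ * K.cv j t) (σ * K.cv j t + σ' * K.cv k t') t t' (K.valA j k σ σ' ε i t t')

/-- The explicit statement of the family `B`. -/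
def ExB (V : ℝ → ℝ → ℝ → ℝ → ((ℝ → ι → ℝ) → ℝ × ℝ × ℝ) → Prop) (j k : Fin (n + 1))
    (σ σ' ε : ℝ) : Prop :=
  ∀ (i : Fin n) (t t' : ℝ), K.HypB j k σ σ' ε i t t' →
    V (σ * K.cv j t) (σ' * K.cv k (t + t')) t t' (K.valB j k σ σ' ε i t t')

/-- The explicit statement of the family `C`. -/
def ExC (V : ℝ → ℝ → ℝ → ℝ → ((ℝ → ι → ℝ) → ℝ × ℝ × ℝ) → Prop) (j k : Fin (n + 1))
    (σ σ' ε : ℝ) : Prop :=
  ∀ (i : Fin n) (t t' : ℝ), K.HypC j k σ σ' ε i t t' →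
    V (σ' * K.cv k (t + t') - σ * K.cv j t') (σ' * K.cv k (t + t')) t t'
      (K.valC j k σ σ' ε i t t')

/-- The property only depends on the values of the admissible tables. -/
def Congr (V : ℝ → ℝ → ℝ → ℝ → ((ℝ → ι → ℝ) → ℝ × ℝ × ℝ) → Prop) : Prop :=
  ∀ (X12 X13 t t' : ℝ) (w w' : (ℝ → ι → ℝ) → ℝ × ℝ × ℝ), (∀ v, K.adm v → w v = w' v) →
    V X12 X13 t t' w → V X12 X13 t t' w'

/-- The reflection in a horizontal line: the values of an odd table. -/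
def flip (w : (ℝ → ι → ℝ) → ℝ × ℝ × ℝ) (v : ℝ → ι → ℝ) : ℝ × ℝ × ℝ :=
  (-(w v).2.1, -(w v).1, -(w v).2.2)

/-- The property is symmetric with respect to horizontal lines. -/
def Sym (V : ℝ → ℝ → ℝ → ℝ → ((ℝ → ι → ℝ) → ℝ × ℝ × ℝ) → Prop) : Prop :=
  ∀ (X12 X13 t t' : ℝ) (w : (ℝ → ι → ℝ) → ℝ × ℝ × ℝ),
    V (X12 - X13) (-X13) t' t (flip w) → V X12 X13 t t' w

/-- All sign patterns of the family `A`. -/
structure AllA (V : ℝ → ℝ → ℝ → ℝ → ((ℝ → ι → ℝ) → ℝ × ℝ × ℝ) → Prop)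
    (j k : Fin (n + 1)) : Prop where
  ppp : K.ExA V j k 1 1 1
  pmp : K.ExA V j k 1 (-1) 1
  pmm : K.ExA V j k 1 (-1) (-1)
  mmm : K.ExA V j k (-1) (-1) (-1)

/-- All sign patterns of the family `B`. -/
structure AllB (V : ℝ → ℝ → ℝ → ℝ → ((ℝ → ι → ℝ) → ℝ × ℝ × ℝ) → Prop)
    (j k : Fin (n + 1)) : Prop where
  ppp : K.ExB V j k 1 1 1
  ppm : K.ExB V j k 1 1 (-1)
  pmm : K.ExB V j k 1 (-1) (-1)
  mmp : K.ExB V j k (-1) (-1) 1
  mmm : K.ExB V j k (-1) (-1) (-1)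

/-- All sign patterns of the family `C`. -/
structure AllC (V : ℝ → ℝ → ℝ → ℝ → ((ℝ → ι → ℝ) → ℝ × ℝ × ℝ) → Prop)
    (j k : Fin (n + 1)) : Prop where
  ppp : K.ExC V j k 1 1 1
  ppm : K.ExC V j k 1 1 (-1)
  mpp : K.ExC V j k (-1) 1 1
  mmp : K.ExC V j k (-1) (-1) 1
  mmm : K.ExC V j k (-1) (-1) (-1)

section

variable {K} {V : ℝ → ℝ → ℝ → ℝ → ((ℝ → ι → ℝ) → ℝ × ℝ × ℝ) → Prop} {j k : Fin (n + 1)}

/-- Two nodes on the short sides. -/
theorem AllA.use (hV : K.Congr V) (h : K.AllA V j k) {X12 X23 t t' : ℝ} (ht : 0 ≤ t)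
    (ht' : 0 ≤ t') (hj : K.dm j t) (hk : K.dm k t') (e1 : |X12| = K.cv j t)
    (e2 : |X23| = K.cv k t') (hc : 0 ≤ X12 * t' - X23 * t)
    (h1 : 1 ≤ (X12 + X23) ^ 2 + (t + t') ^ 2) (h3 : (X12 + X23) ^ 2 + (t + t') ^ 2 ≤ 3) :
    V X12 (X12 + X23) t t' (K.valK X12 (X12 + X23) t t') := by
  have hp : (1 : ℝ) = 1 ∨ (1 : ℝ) = -1 := Or.inl rfl
  have hm : (-1 : ℝ) = 1 ∨ (-1 : ℝ) = -1 := Or.inr rfl
  have hT : 0 ≤ t + t' := by linarith
  have c1 := K.nonneg j ht (K.dm_sq j t ht hj)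
  have c2 := K.nonneg k ht' (K.dm_sq k t' ht' hk)
  have use : ∀ σ σ' ε : ℝ, (σ = 1 ∨ σ = -1) → (σ' = 1 ∨ σ' = -1) → (ε = 1 ∨ ε = -1) →
      K.ExA V j k σ σ' ε → X12 = σ * K.cv j t → X23 = σ' * K.cv k t' →
      (∃ i : Fin n, K.cv i.castSucc (t + t') ≤ ε * (X12 + X23) ∧
        ε * (X12 + X23) ≤ K.cv i.succ (t + t')) →
      V X12 (X12 + X23) t t' (K.valK X12 (X12 + X23) t t') := by
    rintro σ σ' ε hσ hσ' hε hE g1 g2 ⟨i, g3, g4⟩
    rw [g1, g2] at hc h1 h3 g3 g4 ⊢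
    have hy : K.HypA j k σ σ' ε i t t' := ⟨ht, ht', hj, hk, hc, h1, h3, g3, g4⟩
    exact hV _ _ _ _ _ _ (fun v hv => (valK_A hv hσ hσ' hε hy).symm) (hE i t t' hy)
  rcases abs_eq_sgn e1 with ⟨s1, g1⟩ | ⟨s1, g1⟩ <;> rcases abs_eq_sgn e2 with ⟨s2, g2⟩ | ⟨s2, g2⟩
  · exact use _ _ _ hp hp hp h.ppp g1 g2 (K.seg_pos hT (by linarith) h1 h3)
  · rcases le_total 0 (X12 + X23) with hX | hX
    · exact use _ _ _ hp hm hp h.pmp g1 g2 (K.seg_pos hT hX h1 h3)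
    · exact use _ _ _ hp hm hm h.pmm g1 g2 (K.seg_neg hT hX h1 h3)
  · -- only degenerate triangles
    have z1 : X12 * t' = 0 := le_antisymm (mul_nonpos_of_nonpos_of_nonneg s1 ht') (by
      nlinarith [mul_nonneg s2 ht])
    have z2 : X23 * t = 0 := le_antisymm (by linarith) (mul_nonneg s2 ht)
    rcases mul_eq_zero.1 z1 with h' | h'
    · have : K.cv j t = 0 := by rw [← e1, h', abs_zero]
      exact use _ _ _ hp hp hp h.ppp (by rw [h', this]; ring) g2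
        (K.seg_pos hT (by rw [h']; linarith) h1 h3)
    · exfalso
      subst h'
      obtain ⟨r1, r2⟩ := K.horizontal (j := k)
      have hX : 0 < X23 := by linarith
      have ht0 : t = 0 := by
        rcases mul_eq_zero.1 z2 with h | h
        · linarith
        · exact h
      subst ht0
      obtain ⟨r3, r4⟩ := K.horizontal (j := j)
      nlinarith
  · exact use _ _ _ hm hm hm h.mmm g1 g2 (K.seg_neg hT (by linarith) h1 h3)

/-- Two nodes on the sides at the bottom. -/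
theorem AllB.use (hV : K.Congr V) (h : K.AllB V j k) {X12 X13 t t' : ℝ} (ht : 0 ≤ t)
    (ht' : 0 ≤ t') (hj : K.dm j t) (hk : K.dm k (t + t')) (e1 : |X12| = K.cv j t)
    (e2 : |X13| = K.cv k (t + t')) (hc : 0 ≤ X12 * (t + t') - X13 * t)
    (h1 : 1 ≤ (X13 - X12) ^ 2 + t' ^ 2) (h3 : (X13 - X12) ^ 2 + t' ^ 2 ≤ 3) :
    V X12 X13 t t' (K.valK X12 X13 t t') := by
  have hp : (1 : ℝ) = 1 ∨ (1 : ℝ) = -1 := Or.inl rfl
  have hm : (-1 : ℝ) = 1 ∨ (-1 : ℝ) = -1 := Or.inr rfl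
  have hT : 0 ≤ t + t' := by linarith
  have c1 := K.nonneg j ht (K.dm_sq j t ht hj)
  have c2 := K.nonneg k hT (K.dm_sq k _ hT hk)
  have use : ∀ σ σ' ε : ℝ, (σ = 1 ∨ σ = -1) → (σ' = 1 ∨ σ' = -1) → (ε = 1 ∨ ε = -1) →
      K.ExB V j k σ σ' ε → X12 = σ * K.cv j t → X13 = σ' * K.cv k (t + t') →
      (∃ i : Fin n, K.cv i.castSucc t' ≤ ε * (X13 - X12) ∧
        ε * (X13 - X12) ≤ K.cv i.succ t') → V X12 X13 t t' (K.valK X12 X13 t t') := by
    rintro σ σ' ε hσ hσ' hε hE g1 g2 ⟨i, g3, g4⟩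
    rw [g1, g2] at hc h1 h3 g3 g4 ⊢
    have hy : K.HypB j k σ σ' ε i t t' := ⟨ht, ht', hj, hk, hc, h1, h3, g3, g4⟩
    exact hV _ _ _ _ _ _ (fun v hv => (valK_B hv hσ hσ' hε hy).symm) (hE i t t' hy)
  rcases abs_eq_sgn e1 with ⟨s1, g1⟩ | ⟨s1, g1⟩ <;> rcases abs_eq_sgn e2 with ⟨s2, g2⟩ | ⟨s2, g2⟩
  · rcases le_total 0 (X13 - X12) with hX | hX
    · exact use _ _ _ hp hp hp h.ppp g1 g2 (K.seg_pos ht' hX h1 h3)
    · exact use _ _ _ hp hp hm h.ppm g1 g2 (K.seg_neg ht' hX h1 h3)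
  · exact use _ _ _ hp hm hm h.pmm g1 g2 (K.seg_neg ht' (by linarith) h1 h3)
  · -- only degenerate triangles
    have z1 : X12 * (t + t') = 0 := le_antisymm (mul_nonpos_of_nonpos_of_nonneg s1 hT) (by
      nlinarith [mul_nonneg s2 ht])
    rcases mul_eq_zero.1 z1 with h' | h'
    · have : K.cv j t = 0 := by rw [← e1, h', abs_zero]
      exact use _ _ _ hp hp hp h.ppp (by rw [h', this]; ring) g2
        (K.seg_pos ht' (by rw [h']; linarith) h1 h3)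
    · exfalso
      have ht0 : t = 0 := by linarith
      have ht0' : t' = 0 := by linarith
      subst ht0
      subst ht0'
      rw [add_zero] at e2
      obtain ⟨r1, r2⟩ := K.horizontal (j := k)
      obtain ⟨r3, r4⟩ := K.horizontal (j := j)
      rw [abs_of_nonneg s2] at e2
      rw [abs_of_nonpos s1] at e1
      nlinarith
  · rcases le_total 0 (X13 - X12) with hX | hX
    · exact use _ _ _ hm hm hp h.mmp g1 g2 (K.seg_pos ht' hX h1 h3)
    · exact use _ _ _ hm hm hm h.mmm g1 g2 (K.seg_neg ht' hX h1 h3)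

/-- Two nodes on the sides at the top. -/
theorem AllC.use (hV : K.Congr V) (h : K.AllC V j k) {X12 X13 t t' : ℝ} (ht : 0 ≤ t)
    (ht' : 0 ≤ t') (hj : K.dm j t') (hk : K.dm k (t + t')) (e1 : |X13 - X12| = K.cv j t')
    (e2 : |X13| = K.cv k (t + t')) (hc : 0 ≤ X12 * (t + t') - X13 * t)
    (h1 : 1 ≤ X12 ^ 2 + t ^ 2) (h3 : X12 ^ 2 + t ^ 2 ≤ 3) :
    V X12 X13 t t' (K.valK X12 X13 t t') := by
  have hp : (1 : ℝ) = 1 ∨ (1 : ℝ) = -1 := Or.inl rfl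
  have hm : (-1 : ℝ) = 1 ∨ (-1 : ℝ) = -1 := Or.inr rfl
  have hT : 0 ≤ t + t' := by linarith
  have c1 := K.nonneg j ht' (K.dm_sq j t' ht' hj)
  have c2 := K.nonneg k hT (K.dm_sq k _ hT hk)
  have hc' : 0 ≤ X13 * t' - (X13 - X12) * (t + t') := by nlinarith
  have use : ∀ σ σ' ε : ℝ, (σ = 1 ∨ σ = -1) → (σ' = 1 ∨ σ' = -1) → (ε = 1 ∨ ε = -1) →
      K.ExC V j k σ σ' ε → X13 - X12 = σ * K.cv j t' → X13 = σ' * K.cv k (t + t') →
      (∃ i : Fin n, K.cv i.castSucc t ≤ ε * X12 ∧ ε * X12 ≤ K.cv i.succ t) →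
      V X12 X13 t t' (K.valK X12 X13 t t') := by
    rintro σ σ' ε hσ hσ' hε hE g1 g2 ⟨i, g4, g5⟩
    have g3 : X12 = σ' * K.cv k (t + t') - σ * K.cv j t' := by linarith
    rw [g1] at hc'
    rw [g2] at hc' ⊢
    rw [g3] at h1 h3 g4 g5 ⊢
    have hy : K.HypC j k σ σ' ε i t t' := ⟨ht, ht', hj, hk, hc', h1, h3, g4, g5⟩
    exact hV _ _ _ _ _ _ (fun v hv => (valK_C hv hσ hσ' hε hy).symm) (hE i t t' hy)
  rcases abs_eq_sgn e1 with ⟨s1, g1⟩ | ⟨s1, g1⟩ <;> rcases abs_eq_sgn e2 with ⟨s2, g2⟩ | ⟨s2, g2⟩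
  · rcases le_total 0 X12 with hX | hX
    · exact use _ _ _ hp hp hp h.ppp g1 g2 (K.seg_pos ht hX h1 h3)
    · exact use _ _ _ hp hp hm h.ppm g1 g2 (K.seg_neg ht hX h1 h3)
  · -- only degenerate triangles
    have z1 : (X13 - X12) * (t + t') = 0 := le_antisymm (by
      nlinarith [mul_nonpos_of_nonpos_of_nonneg s2 ht']) (mul_nonneg s1 hT)
    rcases mul_eq_zero.1 z1 with h' | h'
    · have : K.cv j t' = 0 := by rw [← e1, h', abs_zero]
      exact use _ _ _ hm hm hm h.mmm (by rw [h', this]; ring) g2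
        (K.seg_neg ht (by linarith) h1 h3)
    · exfalso
      have ht0 : t = 0 := by linarith
      have ht0' : t' = 0 := by linarith
      subst ht0
      subst ht0'
      rw [add_zero] at e2
      obtain ⟨r1, r2⟩ := K.horizontal (j := k)
      obtain ⟨r3, r4⟩ := K.horizontal (j := j)
      rw [abs_of_nonneg s1] at e1
      rw [abs_of_nonpos s2] at e2
      nlinarith
  · exact use _ _ _ hm hp hp h.mpp g1 g2 (K.seg_pos ht (by linarith) h1 h3)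
  · rcases le_total 0 X12 with hX | hX
    · exact use _ _ _ hm hm hp h.mmp g1 g2 (K.seg_pos ht hX h1 h3)
    · exact use _ _ _ hm hm hm h.mmm g1 g2 (K.seg_neg ht hX h1 h3)

/-- **All families from the explicit statements.** -/
theorem fams (hV : K.Congr V) (A : ∀ j k, K.AllA V j k) (B : ∀ j k, K.AllB V j k)
    (C : ∀ j k, K.AllC V j k) :
    Fams (NodeAt K.nodes) (fun X12 X13 t t' => V X12 X13 t t' (K.valK X12 X13 t t')) := by
  intro X12 X13 t t' ht ht' hc a1 a2 b1 b2 c1 c2 hN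
  have hT : 0 ≤ t + t' := by linarith
  rcases hN with ⟨n1, n2⟩ | ⟨n1, n2⟩ | ⟨n1, n2⟩
  · obtain ⟨j, hj, ej⟩ := K.node _ _ ht a2 n1
    obtain ⟨k, hk, ek⟩ := K.node _ _ ht' b2 n2
    have := (A j k).use hV ht ht' hj hk ej ek (by nlinarith)
      (by rw [show X12 + (X13 - X12) = X13 by ring]; exact c1)
      (by rw [show X12 + (X13 - X12) = X13 by ring]; exact c2)
    rwa [show X12 + (X13 - X12) = X13 by ring] at this
  · obtain ⟨j, hj, ej⟩ := K.node _ _ ht a2 n1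
    obtain ⟨k, hk, ek⟩ := K.node _ _ hT c2 n2
    exact (B j k).use hV ht ht' hj hk ej ek hc b1 b2
  · obtain ⟨j, hj, ej⟩ := K.node _ _ ht' b2 n1
    obtain ⟨k, hk, ek⟩ := K.node _ _ hT c2 n2
    exact (C j k).use hV ht ht' hj hk ej ek hc a1 a2

/-- The values of the kernel under the reflection in a horizontal line. -/
theorem valK_flip (X12 X13 t t' : ℝ) :
    K.valK (X12 - X13) (-X13) t' t = flip (K.valK X12 X13 t t') := by
  funext v
  unfold valK flip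
  simp only
  rw [← K.ker_neg v (X13 - X12) t', ← K.ker_neg v X12 t, ← K.ker_neg v X13 (t + t'),
    show -(X13 - X12) = X12 - X13 by ring, show -X13 - (X12 - X13) = -X12 by ring,
    add_comm t' t]

/-- **All families of a symmetric property**: the family `A` for `j ≤ k`, the family `B`. -/
theorem fams_sym (hV : K.Congr V) (hS : Sym V) (A : ∀ j k, j ≤ k → K.AllA V j k)
    (B : ∀ j k, K.AllB V j k) :
    Fams (NodeAt K.nodes) (fun X12 X13 t t' => V X12 X13 t t' (K.valK X12 X13 t t')) := by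
  intro X12 X13 t t' ht ht' hc a1 a2 b1 b2 c1 c2 hN
  have hT : 0 ≤ t + t' := by linarith
  have mir : V (X12 - X13) (-X13) t' t (K.valK (X12 - X13) (-X13) t' t) →
      V X12 X13 t t' (K.valK X12 X13 t t') := by
    intro h
    rw [valK_flip] at h
    exact hS _ _ _ _ _ h
  rcases hN with ⟨n1, n2⟩ | ⟨n1, n2⟩ | ⟨n1, n2⟩
  · obtain ⟨j, hj, ej⟩ := K.node _ _ ht a2 n1
    obtain ⟨k, hk, ek⟩ := K.node _ _ ht' b2 n2
    rcases le_total j k with hjk | hjk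
    · have := (A j k hjk).use hV ht ht' hj hk ej ek (by nlinarith)
        (by rw [show X12 + (X13 - X12) = X13 by ring]; exact c1)
        (by rw [show X12 + (X13 - X12) = X13 by ring]; exact c2)
      rwa [show X12 + (X13 - X12) = X13 by ring] at this
    · apply mir
      have := (A k j hjk).use hV (X12 := X12 - X13) (X23 := -X12) ht' ht hk hj
        (by rw [← ek, abs_sub_comm]) (by rw [← ej, abs_neg]) (by nlinarith)
        (by rw [show X12 - X13 + -X12 = -X13 by ring, neg_sq, add_comm t' t]; exact c1)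
        (by rw [show X12 - X13 + -X12 = -X13 by ring, neg_sq, add_comm t' t]; exact c2)
      rwa [show X12 - X13 + -X12 = -X13 by ring] at this
  · obtain ⟨j, hj, ej⟩ := K.node _ _ ht a2 n1
    obtain ⟨k, hk, ek⟩ := K.node _ _ hT c2 n2
    exact (B j k).use hV ht ht' hj hk ej ek hc b1 b2
  · obtain ⟨j, hj, ej⟩ := K.node _ _ ht' b2 n1
    obtain ⟨k, hk, ek⟩ := K.node _ _ hT c2 n2
    apply mir
    refine (B j k).use hV ht' ht hj (by rwa [add_comm]) (by rw [← ej, abs_sub_comm])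
      (by rw [abs_neg, add_comm t' t]; exact ek) (by nlinarith) ?_ ?_
    · rw [show -X13 - (X12 - X13) = -X12 by ring, neg_sq]
      exact a1
    · rw [show -X13 - (X12 - X13) = -X12 by ring, neg_sq]
      exact a2

end

end Cur

end Pool.Agent.Strip051.LC
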