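import Pool.Agent.Strip051.LC.Exact.FamR

/-! # Node curves at positions which depend on the height

`PosQ n` is a system of positions for every height `T`, and a set of curves which are nodes at the
height `T` (`real`); the other curves are only marks, the kernels are affine there. -/

namespace Pool.Agent.Strip051.LC

open Pool.Agent.StripNear Pool.Agent.StripSquare Pool.Agent.Strip051.Sweep

/-- Positions which depend on the height. -/
structure PosQ (n : ℕ) where
  /-- the positions at the height `T` -/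
  Q : ℝ → Pos n
  /-- the curves which are nodes -/
  real : Fin (n + 1) → ℝ → Prop
  real0 : ∀ T, real 0 T
  realL : ∀ T, real (Fin.last n) T

namespace PosQ

variable {n : ℕ} (P : PosQ n)

/-- The curves. -/
noncomputable def cv (j : Fin (n + 1)) (T : ℝ) : ℝ := (P.Q T).cv j T

/-- The curve is a node at the height `T`. -/
def dm (j : Fin (n + 1)) (T : ℝ) : Prop := (P.Q T).dm j T ∧ P.real j T

theorem cv_mono {T : ℝ} (hT : 0 ≤ T) (h3 : T ^ 2 ≤ 3) {i j : Fin (n + 1)} (h : i ≤ j) :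
    P.cv i T ≤ P.cv j T := (P.Q T).cv_mono hT h3 h

theorem cv_zero (T : ℝ) : P.cv 0 T = c1 T := (P.Q T).cv_zero T

theorem cv_last (T : ℝ) : P.cv (Fin.last n) T = c3 T := (P.Q T).cv_last T

theorem low (j : Fin (n + 1)) {T : ℝ} (hT : 0 ≤ T) (h3 : T ^ 2 ≤ 3) : c1 T ≤ P.cv j T :=
  (P.Q T).low j hT h3

theorem high (j : Fin (n + 1)) {T : ℝ} (hT : 0 ≤ T) (h3 : T ^ 2 ≤ 3) : P.cv j T ≤ c3 T :=
  (P.Q T).high j hT h3

open Classical in
/-- The lists of nodes. -/
noncomputable def nodes (T : ℝ) : List (ℝ × Fin (n + 1)) :=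
  ((List.finRange (n + 1)).filter (fun j => P.dm j T)).map (fun j => (P.cv j T, j))

theorem mem_nodes {T : ℝ} {p : ℝ × Fin (n + 1)} :
    p ∈ P.nodes T ↔ P.dm p.2 T ∧ p.1 = P.cv p.2 T := by
  unfold nodes
  simp only [List.mem_map, List.mem_filter, List.mem_finRange, true_and, decide_eq_true_eq]
  constructor
  · rintro ⟨j, h1, h2⟩
    subst h2
    exact ⟨h1, rfl⟩
  · rintro ⟨h1, h2⟩
    exact ⟨p.2, h1, by rw [← h2]⟩

theorem mem_full {T : ℝ} {p : ℝ × Fin (n + 1)} (h : p ∈ P.nodes T) : p ∈ (P.Q T).nodes T := by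
  rw [mem_nodes] at h
  rw [Pos.mem_nodes]
  exact ⟨h.1.1, h.2⟩

theorem dm_last {T : ℝ} (h3 : T ^ 2 ≤ 3) : P.dm (Fin.last n) T := by
  refine ⟨(P.Q T).dm_last h3 (fun h => ?_), P.realL T⟩
  rw [(P.Q T).last] at h
  norm_num at h

theorem dm_zero {T : ℝ} (hT : 0 ≤ T) (h : T < 1) : P.dm 0 T :=
  ⟨(P.Q T).dm_zero hT h, P.real0 T⟩

theorem isNodes : IsNodes P.nodes := by
  refine ⟨?_, ?_, ?_, ?_, ?_, ?_⟩
  · intro T hT h3
    apply List.Pairwise.isChain
    unfold nodes
    rw [List.pairwise_map]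
    refine List.Pairwise.imp_of_mem ?_ ((List.pairwise_lt_finRange (n + 1)).filter _)
    intro i j hi hj hij
    simp only [List.mem_filter, List.mem_finRange, true_and, decide_eq_true_eq] at hi hj
    exact (P.Q T).cv_lt hT hi.1 hj.1 hij
  · intro T hT h3 p hp
    exact (P.Q T).isNodes.nonneg T hT h3 p (P.mem_full hp)
  · intro T hT h3 p hp
    exact (P.Q T).isNodes.ann T hT h3 p (P.mem_full hp)
  · intro T hT h3
    refine ⟨(P.cv (Fin.last n) T, Fin.last n), ?_, ?_⟩
    · rw [mem_nodes]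
      exact ⟨P.dm_last h3, rfl⟩
    · simp only
      rw [P.cv_last]
      exact c3_sq h3
  · intro T hT h1
    refine ⟨(P.cv 0 T, 0), ?_, ?_⟩
    · rw [mem_nodes]
      exact ⟨P.dm_zero hT h1, rfl⟩
    · simp only
      rw [P.cv_zero]
      exact c1_sq hT h1.le
  · intro T hT h3 p hp hz
    exact (P.Q T).isNodes.zero T hT h3 p (P.mem_full hp) hz

/-- The conditions on the node values; the last one is about the curves which are not nodes. -/
structure Adm (v : ℝ → Fin (n + 1) → ℝ) : Prop where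
  one : ∀ T, 1 ≤ T → v T 0 = 0
  zero : ∀ j, (P.Q 0).ρ j ≤ 1 → v 0 j = v 0 0
  mid : ∀ j, (P.Q h0).ρ j ≤ 1 → v h0 j = v h0 0
  top : ∀ T j, 0 ≤ T → T ^ 2 = 3 → v T j = 0
  vir : ∀ T j, 0 ≤ T → T ^ 2 < 3 → ¬P.real j T →
    v T j = ker P.nodes v (fun _ _ => 0) (P.cv j T) T

variable {P} {v : ℝ → Fin (n + 1) → ℝ}

theorem ker_at_zero (v : ℝ → Fin (n + 1) → ℝ) (T : ℝ) :
    ker P.nodes v (fun _ _ => 0) 0 T = 0 := by
  have := ker_odd (v := v) (B := fun _ _ => 0) P.isNodes (fun _ => rfl) 0 T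
  rw [neg_zero] at this
  linarith

/-- The value at a node. -/
theorem ker_dm (v : ℝ → Fin (n + 1) → ℝ) {j : Fin (n + 1)} {T : ℝ} (hT : 0 ≤ T)
    (h3 : T ^ 2 < 3) (hj : P.dm j T) : ker P.nodes v (fun _ _ => 0) (P.cv j T) T = v T j :=
  ker_node P.isNodes hT h3 (p := (P.cv j T, j)) (by rw [mem_nodes]; exact ⟨hj, rfl⟩)

/-- The value on a curve, whether it is a node or not. -/
theorem ker_cv (hv : P.Adm v) (j : Fin (n + 1)) {T : ℝ} (hT : 0 ≤ T) (h3 : T ^ 2 ≤ 3) :
    ker P.nodes v (fun _ _ => 0) (P.cv j T) T = v T j := by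
  rcases h3.eq_or_lt with h | h
  · have e : P.cv j T = 0 := le_antisymm ((P.high j hT h3).trans (c3_top h).le)
      ((c1_nonneg T).trans (P.low j hT h3))
    rw [e, ker_at_zero, hv.top T _ hT h]
  have use : ∀ k : Fin (n + 1), P.dm k T → ker P.nodes v (fun _ _ => 0) (P.cv k T) T = v T k :=
    fun k hk => ker_node P.isNodes hT h (p := (P.cv k T, k)) (by rw [mem_nodes]; exact ⟨hk, rfl⟩)
  by_cases hj : P.dm j T
  · exact use j hj
  · by_cases hr : P.real j T
    · have hj' : ¬(P.Q T).dm j T := fun h' => hj ⟨h', hr⟩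
      by_cases hj0 : j = 0
      · subst hj0
        have h1 : 1 ≤ T := by
          by_contra hh
          exact hj (P.dm_zero hT (not_le.1 hh))
        rw [P.cv_zero, c1_zero h1, ker_at_zero, hv.one T h1]
      · have h2 : (P.Q T).ρ j ≤ 1 ∧ (T = 0 ∨ T = h0) := by
          by_contra hh
          apply hj'
          refine ⟨fun k => absurd k hj0, fun _ k => ?_, fun _ => h, h3⟩
          constructor
          · by_contra h4
            exact hh ⟨k, Or.inl (le_antisymm (not_lt.1 h4) hT)⟩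
          · intro h4
            exact hh ⟨k, Or.inr h4⟩
        obtain ⟨h4, h5⟩ := h2
        obtain ⟨s1, s2, s3⟩ := special h5
        have e1 : P.cv j T = P.cv 0 T := by
          rw [P.cv_zero]
          unfold cv Pos.cv
          rw [gam_low h4, s2]
          ring
        have e2 : v T j = v T 0 := by
          rcases h5 with rfl | rfl
          · exact hv.zero j h4
          · exact hv.mid j h4
        have hT1 : T < 1 := by
          rcases h5 with rfl | rfl
          · exact one_pos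
          · exact h0_lt_one
        rw [e1, e2]
        exact use 0 (P.dm_zero hT hT1)
    · exact (hv.vir T j hT h hr).symm

/-- The kernel is affine between two curves without a node between them. -/
theorem affine (v : ℝ → Fin (n + 1) → ℝ) {i j : Fin (n + 1)} {T : ℝ} (hT : 0 ≤ T)
    (h3 : T ^ 2 ≤ 3) (hc : P.cv i T < P.cv j T) (hn : ∀ k, P.dm k T → k ≤ i ∨ j ≤ k) :
    ∃ α β : ℝ, ∀ u, P.cv i T ≤ u → u ≤ P.cv j T →
      ker P.nodes v (fun _ _ => 0) u T = α * u + β := by
  -- the middle point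
  set X := (P.cv i T + P.cv j T) / 2 with hXd
  have g1 : P.cv i T < X := by linarith
  have g2 : X < P.cv j T := by linarith
  have c0 : 0 ≤ P.cv i T := (c1_nonneg T).trans (P.low _ hT h3)
  have hX : 0 < X := by linarith
  have hXc : X < c3 T := lt_of_lt_of_le g2 (P.high _ hT h3)
  have hl3 : X ^ 2 + T ^ 2 ≤ 3 := by
    have := c3_sq h3
    nlinarith [c3_nonneg T]
  have hl1 : 1 ≤ X ^ 2 + T ^ 2 := by
    have g4 := P.low i hT h3
    rcases le_or_gt T 1 with h5 | h5
    · have := c1_sq hT h5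
      nlinarith [c1_nonneg T]
    · nlinarith
  have eT : |T| = T := abs_of_nonneg hT
  obtain ⟨a, b, k1, k2, k3, k4, -, α, β, k6⟩ := ker_pieces (v := v) (B := fun _ _ => 0)
    P.isNodes (fun _ => rfl) X T hl1 hl3
  have ha : a ≤ P.cv i T := by
    obtain ⟨p, hp, hp'⟩ := k3
    rw [eT, mem_nodes] at hp
    by_contra hh
    push Not at hh
    have e1 : a = P.cv p.2 T := by
      rw [← hp.2, ← hp', abs_of_pos (by linarith)]
    rcases hn p.2 hp.1 with h5 | h5
    · have := P.cv_mono hT h3 h5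
      linarith
    · have := P.cv_mono hT h3 h5
      linarith
  have hb : P.cv j T ≤ b := by
    obtain ⟨p, hp, hp'⟩ := k4
    rw [eT, mem_nodes] at hp
    by_contra hh
    push Not at hh
    have e1 : b = P.cv p.2 T := by
      rw [← hp.2, ← hp', abs_of_pos (by linarith)]
    rcases hn p.2 hp.1 with h5 | h5
    · have := P.cv_mono hT h3 h5
      linarith
    · have := P.cv_mono hT h3 h5
      linarith
  exact ⟨α, β, fun u u1 u2 => k6 u (ha.trans u1) (u2.trans hb)⟩

/-- The value between two curves without a node between them. -/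
theorem ker_between (v : ℝ → Fin (n + 1) → ℝ) {i j : Fin (n + 1)} {X T : ℝ} (hT : 0 ≤ T)
    (h3 : T ^ 2 ≤ 3) (hn : ∀ k, P.dm k T → k ≤ i ∨ j ≤ k) (h1 : P.cv i T ≤ X)
    (h2 : X ≤ P.cv j T) :
    ker P.nodes v (fun _ _ => 0) X T = ker P.nodes v (fun _ _ => 0) (P.cv i T) T +
      (ker P.nodes v (fun _ _ => 0) (P.cv j T) T - ker P.nodes v (fun _ _ => 0) (P.cv i T) T) *
        ((X - P.cv i T) / (P.cv j T - P.cv i T)) := by
  rcases (h1.trans h2).eq_or_lt with h | h
  · have e : X = P.cv i T := le_antisymm (by rw [h]; exact h2) h1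
    rw [e, sub_self, zero_div, mul_zero, add_zero]
  · obtain ⟨α, β, k⟩ := affine v hT h3 h hn
    rw [k X h1 h2, k _ le_rfl h.le, k _ h.le le_rfl]
    have : P.cv j T - P.cv i T ≠ 0 := by linarith
    field_simp
    ring

theorem ker_seg (hv : P.Adm v) (i : Fin n) {X T : ℝ} (hT : 0 ≤ T) (h3 : T ^ 2 ≤ 3)
    (h1 : P.cv i.castSucc T ≤ X) (h2 : X ≤ P.cv i.succ T) :
    ker P.nodes v (fun _ _ => 0) X T = v T i.castSucc + (v T i.succ - v T i.castSucc) *
      ((X - P.cv i.castSucc T) / (P.cv i.succ T - P.cv i.castSucc T)) := by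
  rw [ker_between v hT h3 (fun k _ => ?_) h1 h2, ker_cv hv _ hT h3, ker_cv hv _ hT h3]
  rcases le_or_gt k i.castSucc with h5 | h5
  · exact Or.inl h5
  · exact Or.inr (Fin.castSucc_lt_iff_succ_le.1 h5)

/-- The system of curves. -/
noncomputable def cur (P : PosQ n) : Cur n (Fin (n + 1)) where
  nodes := P.nodes
  cv := P.cv
  tg := id
  dm := P.dm
  adm := P.Adm
  isNodes := P.isNodes
  low j _ hT h3 := P.low j hT h3
  high j _ hT h3 := P.high j hT h3
  dm_sq _ _ _ h := h.1.2.2.2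
  node X T hT _ h := by
    obtain ⟨p, hp, hp'⟩ := h
    rw [abs_of_nonneg hT, mem_nodes] at hp
    exact ⟨p.2, hp.1, by rw [hp', hp.2]⟩
  val _ hv j _ hT h := ker_cv hv j hT h.1.2.2.2
  cover X T _ _ h1 h2 := (P.Q T).cur.cover X T (by assumption) (by assumption) h1 h2
  seg _ hv i _ _ hT h3 h1 h2 := ker_seg hv i hT h3 h1 h2

end PosQ

end Pool.Agent.Strip051.LC
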