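import Pool.Agent.Strip051.LC.Exact.FamW

/-! # The families with explicit values

The values of the kernel on the three sides are written out; the third side is given by its sign
`ε` and its piece `i`. -/

namespace Pool.Agent.Strip051.LC

open Pool.Agent.StripNear Pool.Agent.StripSquare Pool.Agent.Strip051.Sweep
open Pool.Agent.Strip051.LC.Line (NF NG StarN StarW MoN MoW exc jn tau Families)

/-! ### The pieces of the third side -/

theorem seg_pos {X T : ℝ} (hT : 0 ≤ T) (hX : 0 ≤ X) (h1 : 1 ≤ X ^ 2 + T ^ 2)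
    (h3 : X ^ 2 + T ^ 2 ≤ 3) :
    ∃ i : Fin 3, cv i.castSucc T ≤ 1 * X ∧ 1 * X ≤ cv i.succ T := by
  obtain ⟨σ, hσ, i, h4, h5⟩ := seg_cases hT h1 h3
  rcases hσ with rfl | rfl
  · exact ⟨i, h4, h5⟩
  · have hT3 : T ^ 2 ≤ 3 := by nlinarith [sq_nonneg X]
    have g1 := cv_nonneg i.castSucc hT hT3
    have : X = 0 := by linarith
    subst this
    exact ⟨i, by linarith, by linarith [cv_nonneg i.succ hT hT3]⟩

theorem seg_neg {X T : ℝ} (hT : 0 ≤ T) (hX : X ≤ 0) (h1 : 1 ≤ X ^ 2 + T ^ 2)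
    (h3 : X ^ 2 + T ^ 2 ≤ 3) :
    ∃ i : Fin 3, cv i.castSucc T ≤ -1 * X ∧ -1 * X ≤ cv i.succ T := by
  obtain ⟨i, h4, h5⟩ := seg_pos (X := -X) hT (by linarith) (by rwa [neg_sq]) (by rwa [neg_sq])
  exact ⟨i, by linarith, by linarith⟩

/-- The hypotheses of the family `A`: `ε`, `i` are the sign and the piece of the third side. -/
def HypA (j k : Fin 4) (σ σ' ε : ℝ) (i : Fin 3) (t t' : ℝ) : Prop :=
  0 ≤ t ∧ 0 ≤ t' ∧ dm j t ∧ dm k t' ∧ 0 ≤ σ * cv j t * t' - σ' * cv k t' * t ∧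
    1 ≤ (σ * cv j t + σ' * cv k t') ^ 2 + (t + t') ^ 2 ∧
    (σ * cv j t + σ' * cv k t') ^ 2 + (t + t') ^ 2 ≤ 3 ∧
    cv i.castSucc (t + t') ≤ ε * (σ * cv j t + σ' * cv k t') ∧
    ε * (σ * cv j t + σ' * cv k t') ≤ cv i.succ (t + t')

/-- The hypotheses of the family `B`. -/
def HypB (j k : Fin 4) (σ σ' ε : ℝ) (i : Fin 3) (t t' : ℝ) : Prop :=
  0 ≤ t ∧ 0 ≤ t' ∧ dm j t ∧ dm k (t + t') ∧
    0 ≤ σ * cv j t * (t + t') - σ' * cv k (t + t') * t ∧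
    1 ≤ (σ' * cv k (t + t') - σ * cv j t) ^ 2 + t' ^ 2 ∧
    (σ' * cv k (t + t') - σ * cv j t) ^ 2 + t' ^ 2 ≤ 3 ∧
    cv i.castSucc t' ≤ ε * (σ' * cv k (t + t') - σ * cv j t) ∧
    ε * (σ' * cv k (t + t') - σ * cv j t) ≤ cv i.succ t'

/-- The hypotheses of the family `C`. -/
def HypC (j k : Fin 4) (σ σ' ε : ℝ) (i : Fin 3) (t t' : ℝ) : Prop :=
  0 ≤ t ∧ 0 ≤ t' ∧ dm j t' ∧ dm k (t + t') ∧
    0 ≤ σ' * cv k (t + t') * t' - σ * cv j t' * (t + t') ∧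
    1 ≤ (σ' * cv k (t + t') - σ * cv j t') ^ 2 + t ^ 2 ∧
    (σ' * cv k (t + t') - σ * cv j t') ^ 2 + t ^ 2 ≤ 3 ∧
    cv i.castSucc t ≤ ε * (σ' * cv k (t + t') - σ * cv j t') ∧
    ε * (σ' * cv k (t + t') - σ * cv j t') ≤ cv i.succ t

/-- The values of a table on the three sides, family `A`. -/
noncomputable def valA (j k : Fin 4) (σ σ' ε : ℝ) (i : Fin 3) (t t' : ℝ)
    (v : ℝ → Fin 5 → ℝ) : ℝ × ℝ × ℝ :=
  (σ * v t (tg j), σ' * v t' (tg k),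
    ε * segW v i (ε * (σ * cv j t + σ' * cv k t')) (t + t'))

/-- The values of a table on the three sides, family `B`. -/
noncomputable def valB (j k : Fin 4) (σ σ' ε : ℝ) (i : Fin 3) (t t' : ℝ)
    (v : ℝ → Fin 5 → ℝ) : ℝ × ℝ × ℝ :=
  (σ * v t (tg j), ε * segW v i (ε * (σ' * cv k (t + t') - σ * cv j t)) t',
    σ' * v (t + t') (tg k))

/-- The values of a table on the three sides, family `C`. -/
noncomputable def valC (j k : Fin 4) (σ σ' ε : ℝ) (i : Fin 3) (t t' : ℝ)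
    (v : ℝ → Fin 5 → ℝ) : ℝ × ℝ × ℝ :=
  (ε * segW v i (ε * (σ' * cv k (t + t') - σ * cv j t')) t, σ * v t' (tg j),
    σ' * v (t + t') (tg k))

/-- The values of the kernel on the three sides of the normal form. -/
noncomputable def valK (X12 X13 t t' : ℝ) (v : ℝ → Fin 5 → ℝ) : ℝ × ℝ × ℝ :=
  (ker (nodesW false) v (fun _ _ => 0) X12 t, ker (nodesW false) v (fun _ _ => 0) (X13 - X12) t',
    ker (nodesW false) v (fun _ _ => 0) X13 (t + t'))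

section

variable {j k : Fin 4} {σ σ' ε : ℝ} {i : Fin 3} {t t' : ℝ} {v : ℝ → Fin 5 → ℝ}

theorem valK_A (hv : TabW v) (hσ : σ = 1 ∨ σ = -1) (hσ' : σ' = 1 ∨ σ' = -1)
    (hε : ε = 1 ∨ ε = -1) (h : HypA j k σ σ' ε i t t') :
    valK (σ * cv j t) (σ * cv j t + σ' * cv k t') t t' v = valA j k σ σ' ε i t t' v := by
  obtain ⟨h1, h2, h3, h4, -, -, h7, h8, h9⟩ := h
  have hT : 0 ≤ t + t' := by linarith
  have hT3 : (t + t') ^ 2 ≤ 3 := by nlinarith [sq_nonneg (σ * cv j t + σ' * cv k t')]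
  unfold valK valA
  rw [kerW_node hv hσ h1 h3, add_sub_cancel_left, kerW_node hv hσ' h2 h4,
    kerW_seg hv hε hT hT3 h8 h9]

theorem valK_B (hv : TabW v) (hσ : σ = 1 ∨ σ = -1) (hσ' : σ' = 1 ∨ σ' = -1)
    (hε : ε = 1 ∨ ε = -1) (h : HypB j k σ σ' ε i t t') :
    valK (σ * cv j t) (σ' * cv k (t + t')) t t' v = valB j k σ σ' ε i t t' v := by
  obtain ⟨h1, h2, h3, h4, -, -, h7, h8, h9⟩ := h
  have hT : 0 ≤ t + t' := by linarith
  have hT3 : t' ^ 2 ≤ 3 := by nlinarith [sq_nonneg (σ' * cv k (t + t') - σ * cv j t)]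
  unfold valK valB
  rw [kerW_node hv hσ h1 h3, kerW_node hv hσ' hT h4, kerW_seg hv hε h2 hT3 h8 h9]

theorem valK_C (hv : TabW v) (hσ : σ = 1 ∨ σ = -1) (hσ' : σ' = 1 ∨ σ' = -1)
    (hε : ε = 1 ∨ ε = -1) (h : HypC j k σ σ' ε i t t') :
    valK (σ' * cv k (t + t') - σ * cv j t') (σ' * cv k (t + t')) t t' v =
      valC j k σ σ' ε i t t' v := by
  obtain ⟨h1, h2, h3, h4, -, -, h7, h8, h9⟩ := h
  have hT : 0 ≤ t + t' := by linarith
  have hT3 : t ^ 2 ≤ 3 := by nlinarith [sq_nonneg (σ' * cv k (t + t') - σ * cv j t')]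
  unfold valK valC
  rw [sub_sub_cancel, kerW_node hv hσ h2 h3, kerW_node hv hσ' hT h4,
    kerW_seg hv hε h1 hT3 h8 h9]

end

/-- A property of the normal form and of the values of all tables. -/
abbrev VProp := ℝ → ℝ → ℝ → ℝ → ((ℝ → Fin 5 → ℝ) → ℝ × ℝ × ℝ) → Prop

/-- The explicit statement of the family `A`. -/
def ExA (V : VProp) (j k : Fin 4) (σ σ' ε : ℝ) : Prop :=
  ∀ (i : Fin 3) (t t' : ℝ), HypA j k σ σ' ε i t t' →
    V (σ * cv j t) (σ * cv j t + σ' * cv k t') t t' (valA j k σ σ' ε i t t')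

/-- The explicit statement of the family `B`. -/
def ExB (V : VProp) (j k : Fin 4) (σ σ' ε : ℝ) : Prop :=
  ∀ (i : Fin 3) (t t' : ℝ), HypB j k σ σ' ε i t t' →
    V (σ * cv j t) (σ' * cv k (t + t')) t t' (valB j k σ σ' ε i t t')

/-- The explicit statement of the family `C`. -/
def ExC (V : VProp) (j k : Fin 4) (σ σ' ε : ℝ) : Prop :=
  ∀ (i : Fin 3) (t t' : ℝ), HypC j k σ σ' ε i t t' →
    V (σ' * cv k (t + t') - σ * cv j t') (σ' * cv k (t + t')) t t' (valC j k σ σ' ε i t t')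

/-- The property only depends on the values of the admissible tables. -/
def VCongr (V : VProp) : Prop :=
  ∀ (X12 X13 t t' : ℝ) (w w' : (ℝ → Fin 5 → ℝ) → ℝ × ℝ × ℝ), (∀ v, TabW v → w v = w' v) →
    V X12 X13 t t' w → V X12 X13 t t' w'

/-- The property of the normal form. -/
def VProp.nf (V : VProp) (X12 X13 t t' : ℝ) : Prop := V X12 X13 t t' (valK X12 X13 t t')

section

variable {V : VProp} {j k : Fin 4} {σ σ' : ℝ}

theorem famA_of_ex (hV : VCongr V) (hσ : σ = 1 ∨ σ = -1) (hσ' : σ' = 1 ∨ σ' = -1)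
    (h : ∀ t t' : ℝ, 0 ≤ t → 0 ≤ t' → dm j t → dm k t' →
      0 ≤ σ * cv j t * t' - σ' * cv k t' * t →
      1 ≤ (σ * cv j t + σ' * cv k t') ^ 2 + (t + t') ^ 2 →
      (σ * cv j t + σ' * cv k t') ^ 2 + (t + t') ^ 2 ≤ 3 →
      ∃ ε : ℝ, (ε = 1 ∨ ε = -1) ∧ ExA V j k σ σ' ε ∧ ∃ i : Fin 3,
        cv i.castSucc (t + t') ≤ ε * (σ * cv j t + σ' * cv k t') ∧
        ε * (σ * cv j t + σ' * cv k t') ≤ cv i.succ (t + t')) : FamWA V.nf j k σ σ' := by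
  intro t t' h1 h2 h3 h4 h5 h6 h7
  obtain ⟨ε, hε, hE, i, h8, h9⟩ := h t t' h1 h2 h3 h4 h5 h6 h7
  have hy : HypA j k σ σ' ε i t t' := ⟨h1, h2, h3, h4, h5, h6, h7, h8, h9⟩
  exact hV _ _ _ _ _ _ (fun v hv => (valK_A hv hσ hσ' hε hy).symm) (hE i t t' hy)

theorem famB_of_ex (hV : VCongr V) (hσ : σ = 1 ∨ σ = -1) (hσ' : σ' = 1 ∨ σ' = -1)
    (h : ∀ t t' : ℝ, 0 ≤ t → 0 ≤ t' → dm j t → dm k (t + t') →
      0 ≤ σ * cv j t * (t + t') - σ' * cv k (t + t') * t →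
      1 ≤ (σ' * cv k (t + t') - σ * cv j t) ^ 2 + t' ^ 2 →
      (σ' * cv k (t + t') - σ * cv j t) ^ 2 + t' ^ 2 ≤ 3 →
      ∃ ε : ℝ, (ε = 1 ∨ ε = -1) ∧ ExB V j k σ σ' ε ∧ ∃ i : Fin 3,
        cv i.castSucc t' ≤ ε * (σ' * cv k (t + t') - σ * cv j t) ∧
        ε * (σ' * cv k (t + t') - σ * cv j t) ≤ cv i.succ t') : FamWB V.nf j k σ σ' := by
  intro t t' h1 h2 h3 h4 h5 h6 h7
  obtain ⟨ε, hε, hE, i, h8, h9⟩ := h t t' h1 h2 h3 h4 h5 h6 h7
  have hy : HypB j k σ σ' ε i t t' := ⟨h1, h2, h3, h4, h5, h6, h7, h8, h9⟩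
  exact hV _ _ _ _ _ _ (fun v hv => (valK_B hv hσ hσ' hε hy).symm) (hE i t t' hy)

theorem famC_of_ex (hV : VCongr V) (hσ : σ = 1 ∨ σ = -1) (hσ' : σ' = 1 ∨ σ' = -1)
    (h : ∀ t t' : ℝ, 0 ≤ t → 0 ≤ t' → dm j t' → dm k (t + t') →
      0 ≤ σ' * cv k (t + t') * t' - σ * cv j t' * (t + t') →
      1 ≤ (σ' * cv k (t + t') - σ * cv j t') ^ 2 + t ^ 2 →
      (σ' * cv k (t + t') - σ * cv j t') ^ 2 + t ^ 2 ≤ 3 →
      ∃ ε : ℝ, (ε = 1 ∨ ε = -1) ∧ ExC V j k σ σ' ε ∧ ∃ i : Fin 3,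
        cv i.castSucc t ≤ ε * (σ' * cv k (t + t') - σ * cv j t') ∧
        ε * (σ' * cv k (t + t') - σ * cv j t') ≤ cv i.succ t) : FamWC V.nf j k σ σ' := by
  intro t t' h1 h2 h3 h4 h5 h6 h7
  obtain ⟨ε, hε, hE, i, h8, h9⟩ := h t t' h1 h2 h3 h4 h5 h6 h7
  have hy : HypC j k σ σ' ε i t t' := ⟨h1, h2, h3, h4, h5, h6, h7, h8, h9⟩
  exact hV _ _ _ _ _ _ (fun v hv => (valK_C hv hσ hσ' hε hy).symm) (hE i t t' hy)

end

/-- All sign patterns of the family `A`. -/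
structure AllA (V : VProp) (j k : Fin 4) : Prop where
  ppp : ExA V j k 1 1 1
  pmp : ExA V j k 1 (-1) 1
  pmm : ExA V j k 1 (-1) (-1)
  mmm : ExA V j k (-1) (-1) (-1)

/-- All sign patterns of the family `B`. -/
structure AllB (V : VProp) (j k : Fin 4) : Prop where
  ppp : ExB V j k 1 1 1
  ppm : ExB V j k 1 1 (-1)
  pmm : ExB V j k 1 (-1) (-1)
  mmp : ExB V j k (-1) (-1) 1
  mmm : ExB V j k (-1) (-1) (-1)

/-- All sign patterns of the family `C`. -/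
structure AllC (V : VProp) (j k : Fin 4) : Prop where
  ppp : ExC V j k 1 1 1
  ppm : ExC V j k 1 1 (-1)
  mpp : ExC V j k (-1) 1 1
  mmp : ExC V j k (-1) (-1) 1
  mmm : ExC V j k (-1) (-1) (-1)

section

variable {V : VProp} {j k : Fin 4}

theorem AllA.fam (hV : VCongr V) (h : AllA V j k) :
    FamWA V.nf j k 1 1 ∧ FamWA V.nf j k 1 (-1) ∧ FamWA V.nf j k (-1) (-1) := by
  have hp : (1 : ℝ) = 1 ∨ (1 : ℝ) = -1 := Or.inl rfl
  have hm : (-1 : ℝ) = 1 ∨ (-1 : ℝ) = -1 := Or.inr rfl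
  refine ⟨famA_of_ex hV hp hp ?_, famA_of_ex hV hp hm ?_, famA_of_ex hV hm hm ?_⟩ <;>
    intro t t' h1 h2 h3 h4 h5 h6 h7
  all_goals
    have c1 := cv_nonneg j h1 (dm_sq h1 h3)
    have c2 := cv_nonneg k h2 (dm_sq h2 h4)
    have hT : 0 ≤ t + t' := by linarith
  · exact ⟨1, hp, h.ppp, seg_pos hT (by linarith) h6 h7⟩
  · rcases le_total 0 (1 * cv j t + -1 * cv k t') with hX | hX
    · exact ⟨1, hp, h.pmp, seg_pos hT hX h6 h7⟩
    · exact ⟨-1, hm, h.pmm, seg_neg hT hX h6 h7⟩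
  · exact ⟨-1, hm, h.mmm, seg_neg hT (by linarith) h6 h7⟩

theorem AllB.fam (hV : VCongr V) (h : AllB V j k) :
    FamWB V.nf j k 1 1 ∧ FamWB V.nf j k 1 (-1) ∧ FamWB V.nf j k (-1) (-1) := by
  have hp : (1 : ℝ) = 1 ∨ (1 : ℝ) = -1 := Or.inl rfl
  have hm : (-1 : ℝ) = 1 ∨ (-1 : ℝ) = -1 := Or.inr rfl
  refine ⟨famB_of_ex hV hp hp ?_, famB_of_ex hV hp hm ?_, famB_of_ex hV hm hm ?_⟩ <;>
    intro t t' h1 h2 h3 h4 h5 h6 h7
  all_goals
    have hT : 0 ≤ t + t' := by linarith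
    have c1 := cv_nonneg j h1 (dm_sq h1 h3)
    have c2 := cv_nonneg k hT (dm_sq hT h4)
  · rcases le_total 0 (1 * cv k (t + t') - 1 * cv j t) with hX | hX
    · exact ⟨1, hp, h.ppp, seg_pos h2 hX h6 h7⟩
    · exact ⟨-1, hm, h.ppm, seg_neg h2 hX h6 h7⟩
  · exact ⟨-1, hm, h.pmm, seg_neg h2 (by linarith) h6 h7⟩
  · rcases le_total 0 (-1 * cv k (t + t') - -1 * cv j t) with hX | hX
    · exact ⟨1, hp, h.mmp, seg_pos h2 hX h6 h7⟩
    · exact ⟨-1, hm, h.mmm, seg_neg h2 hX h6 h7⟩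

theorem AllC.fam (hV : VCongr V) (h : AllC V j k) :
    FamWC V.nf j k 1 1 ∧ FamWC V.nf j k (-1) 1 ∧ FamWC V.nf j k (-1) (-1) := by
  have hp : (1 : ℝ) = 1 ∨ (1 : ℝ) = -1 := Or.inl rfl
  have hm : (-1 : ℝ) = 1 ∨ (-1 : ℝ) = -1 := Or.inr rfl
  refine ⟨famC_of_ex hV hp hp ?_, famC_of_ex hV hm hp ?_, famC_of_ex hV hm hm ?_⟩ <;>
    intro t t' h1 h2 h3 h4 h5 h6 h7
  all_goals
    have hT : 0 ≤ t + t' := by linarith
    have c1 := cv_nonneg j h2 (dm_sq h2 h3)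
    have c2 := cv_nonneg k hT (dm_sq hT h4)
  · rcases le_total 0 (1 * cv k (t + t') - 1 * cv j t') with hX | hX
    · exact ⟨1, hp, h.ppp, seg_pos h1 hX h6 h7⟩
    · exact ⟨-1, hm, h.ppm, seg_neg h1 hX h6 h7⟩
  · exact ⟨1, hp, h.mpp, seg_pos h1 (by linarith) h6 h7⟩
  · rcases le_total 0 (-1 * cv k (t + t') - -1 * cv j t') with hX | hX
    · exact ⟨1, hp, h.mmp, seg_pos h1 hX h6 h7⟩
    · exact ⟨-1, hm, h.mmm, seg_neg h1 hX h6 h7⟩

/-- **All families from the explicit statements.** -/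
theorem fams_explicit (hV : VCongr V) (A : ∀ j k, AllA V j k) (B : ∀ j k, AllB V j k)
    (C : ∀ j k, AllC V j k) : Fams (NodeAt (nodesW false)) V.nf :=
  fams_of (fun j k => (A j k).fam hV) (fun j k => (B j k).fam hV) (fun j k => (C j k).fam hV)

end

/-! ### The line form -/

/-- The star inequality in normal form with the values of the kernel. -/
inductive NFV (θ X12 X13 t t' : ℝ) (r : ℝ × ℝ × ℝ) : Prop
  | pp (hj : jn (t + t') = jn t + jn t') (h1 : 0 ≤ tau t) (h2 : 0 ≤ tau t')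
      (h : StarN θ (exc X12 X13 t t') (tau t) (tau t') (-r.1) (-r.2.1) (-r.2.2))
  | nn (hj : jn (t + t') = jn t + jn t') (h1 : tau t ≤ 0) (h2 : tau t' ≤ 0)
      (h : StarN θ (exc X12 X13 t t') (-tau t') (-tau t) (-r.2.1) (-r.1) (-r.2.2))
  | pnp (hj : jn (t + t') = jn t + jn t') (h1 : 0 ≤ tau t) (h2 : tau t' ≤ 0)
      (h3 : 0 ≤ tau (t + t'))
      (h : StarN θ (exc X12 X13 t t') (tau (t + t')) (-tau t') r.2.2 (-r.2.1) r.1)
  | pnn (hj : jn (t + t') = jn t + jn t') (h1 : 0 ≤ tau t) (h2 : tau t' ≤ 0)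
      (h3 : tau (t + t') ≤ 0)
      (h : StarN θ (exc X12 X13 t t') (-tau (t + t')) (tau t) r.2.2 (-r.1) r.2.1)
  | npp (hj : jn (t + t') = jn t + jn t') (h1 : tau t ≤ 0) (h2 : 0 ≤ tau t')
      (h3 : 0 ≤ tau (t + t'))
      (h : StarN θ (exc X12 X13 t t') (-tau t) (tau (t + t')) (-r.1) r.2.2 r.2.1)
  | npn (hj : jn (t + t') = jn t + jn t') (h1 : tau t ≤ 0) (h2 : 0 ≤ tau t')
      (h3 : tau (t + t') ≤ 0)
      (h : StarN θ (exc X12 X13 t t') (tau t') (-tau (t + t')) (-r.2.1) r.2.2 r.1)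
  | up (hj : jn (t + t') = jn t + jn t' + 1)
      (h : StarW θ (exc X12 X13 t t') (tau t) (tau t') (-tau (t + t')) (-r.1) (-r.2.1) r.2.2)
  | dn (hj : jn (t + t') + 1 = jn t + jn t')
      (h : StarW θ (exc X12 X13 t t') (tau (t + t')) (-tau t') (-tau t) r.2.2 (-r.2.1) (-r.1))

/-- The property of the line form. -/
def lineV (θ : ℝ) (v : ℝ → Fin 5 → ℝ) : VProp := fun X12 X13 t t' w => NFV θ X12 X13 t t' (w v)

theorem lineV_congr {θ : ℝ} {v : ℝ → Fin 5 → ℝ} (hv : TabW v) : VCongr (lineV θ v) := by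
  intro X12 X13 t t' w w' h hw
  unfold lineV at *
  rwa [← h v hv]

theorem lineV_nf {θ : ℝ} {v : ℝ → Fin 5 → ℝ} {X12 X13 t t' : ℝ}
    (h : (lineV θ v).nf X12 X13 t t') :
    NF θ (ker (nodesW false) v fun _ _ => 0) X12 X13 t t' := by
  rcases h with ⟨a, b, c, d⟩ | ⟨a, b, c, d⟩ | ⟨a, b, c, d, e⟩ | ⟨a, b, c, d, e⟩ | ⟨a, b, c, d, e⟩ |
    ⟨a, b, c, d, e⟩ | ⟨a, b⟩ | ⟨a, b⟩
  exacts [.pp a b c d, .nn a b c d, .pnp a b c d e, .pnn a b c d e, .npp a b c d e,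
    .npn a b c d e, .up a b, .dn a b]

theorem nf_lineV {θ : ℝ} {v : ℝ → Fin 5 → ℝ} {X12 X13 t t' : ℝ}
    (h : NF θ (ker (nodesW false) v fun _ _ => 0) X12 X13 t t') :
    (lineV θ v).nf X12 X13 t t' := by
  rcases h with ⟨a, b, c, d⟩ | ⟨a, b, c, d⟩ | ⟨a, b, c, d, e⟩ | ⟨a, b, c, d, e⟩ | ⟨a, b, c, d, e⟩ |
    ⟨a, b, c, d, e⟩ | ⟨a, b⟩ | ⟨a, b⟩
  exacts [.pp a b c d, .nn a b c d, .pnp a b c d e, .pnn a b c d e, .npp a b c d e,
    .npn a b c d e, .up a b, .dn a b]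

/-- **The line form from the explicit statements**: ten pairs for `A`, sixteen for `B`. -/
theorem line_explicit {θ : ℝ} {v : ℝ → Fin 5 → ℝ} (hv : TabW v)
    (A : ∀ j k, j ≤ k → AllA (lineV θ v) j k) (B : ∀ j k, AllB (lineV θ v) j k) :
    Families θ (ker (nodesW false) v fun _ _ => 0) (NodeAt (nodesW false)) := by
  have hV := lineV_congr (θ := θ) hv
  have key : Fams (NodeAt (nodesW false)) (lineV θ v).nf :=
    fams_of_mirror (fun X12 X13 t t' h =>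
      nf_lineV ((lineV_nf h).mirror (ker_odd (isNodesW false) fun _ => rfl)))
      (fun j k h => (A j k h).fam hV) (fun j k => (B j k).fam hV)
  intro X12 X13 t t' a1 a2 a3 a4 a5 a6 a7 a8 a9 a10
  exact lineV_nf (key X12 X13 t t' a1 a2 a3 a4 a5 a6 a7 a8 a9 a10)

/-! ### The exact weight for one rest -/

/-- The modulus inequality in normal form with the values of the kernel. -/
inductive NGV (κ s ex t t' : ℝ) (r : ℝ × ℝ × ℝ) : Prop
  | pp (hj : jn (t + t') = jn t + jn t') (h1 : 0 ≤ tau t) (h2 : 0 ≤ tau t')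
      (h : MoN κ s ex (tau t) (tau t') (-r.1) (-r.2.1) (-r.2.2))
  | nn (hj : jn (t + t') = jn t + jn t') (h1 : tau t ≤ 0) (h2 : tau t' ≤ 0)
      (h : MoN κ s ex (-tau t') (-tau t) (-r.2.1) (-r.1) (-r.2.2))
  | pnp (hj : jn (t + t') = jn t + jn t') (h1 : 0 ≤ tau t) (h2 : tau t' ≤ 0)
      (h3 : 0 ≤ tau (t + t'))
      (h : MoN κ s ex (tau (t + t')) (-tau t') r.2.2 (-r.2.1) r.1)
  | pnn (hj : jn (t + t') = jn t + jn t') (h1 : 0 ≤ tau t) (h2 : tau t' ≤ 0)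
      (h3 : tau (t + t') ≤ 0)
      (h : MoN κ s ex (-tau (t + t')) (tau t) r.2.2 (-r.1) r.2.1)
  | npp (hj : jn (t + t') = jn t + jn t') (h1 : tau t ≤ 0) (h2 : 0 ≤ tau t')
      (h3 : 0 ≤ tau (t + t'))
      (h : MoN κ s ex (-tau t) (tau (t + t')) (-r.1) r.2.2 r.2.1)
  | npn (hj : jn (t + t') = jn t + jn t') (h1 : tau t ≤ 0) (h2 : 0 ≤ tau t')
      (h3 : tau (t + t') ≤ 0)
      (h : MoN κ s ex (tau t') (-tau (t + t')) (-r.2.1) r.2.2 r.1)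
  | up (hj : jn (t + t') = jn t + jn t' + 1)
      (h : MoW κ s ex (tau t) (tau t') (-tau (t + t')) (-r.1) (-r.2.1) r.2.2)
  | dn (hj : jn (t + t') + 1 = jn t + jn t')
      (h : MoW κ s ex (tau (t + t')) (-tau t') (-tau t) r.2.2 (-r.2.1) (-r.1))

/-- The level term at the far vertex. -/
noncomputable def farXV (x : ℝ × ℝ × ℝ) : ℝ := 1 / 2 * (x.1 + x.2.1 - x.2.2)

/-- The level term at the near vertex. -/
noncomputable def nearXV (N0 : ℕ) (s t t' : ℝ) (x : ℝ × ℝ × ℝ) : ℝ :=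
  mu N0 s * ((N0 + s / h0) / 2 * (x.1 + x.2.1 - x.2.2) -
    (t * x.1 + (2 * t + t') * x.2.1 - (t + t') * x.2.2) / (2 * h0))

/-- The property at the far vertex. -/
def farV (κ s : ℝ) (vA vX : ℝ → Fin 5 → ℝ) : VProp := fun X12 X13 t t' w =>
  NGV κ s (exn X12 X13 t t' + farXV (w vX)) t t' (w vA)

/-- The property at the near vertex. -/
def nearV (N0 : ℕ) (κ s : ℝ) (vB vX : ℝ → Fin 5 → ℝ) : VProp := fun X12 X13 t t' w =>
  NGV κ s (exn X12 X13 t t' + nearXV N0 s t t' (w vX)) t t' (w vB)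

section

variable {κ s : ℝ} {vA vB vX : ℝ → Fin 5 → ℝ} {N0 : ℕ}

theorem farV_congr (hA : TabW vA) (hX : TabW vX) : VCongr (farV κ s vA vX) := by
  intro X12 X13 t t' w w' h hw
  unfold farV at *
  rwa [← h vA hA, ← h vX hX]

theorem nearV_congr (hB : TabW vB) (hX : TabW vX) : VCongr (nearV N0 κ s vB vX) := by
  intro X12 X13 t t' w w' h hw
  unfold nearV at *
  rwa [← h vB hB, ← h vX hX]

/-- **The field `far`** of the certificate from the explicit statements. -/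
theorem far_explicit (hA : TabW vA) (hX : TabW vX) (A : ∀ j k, AllA (farV κ s vA vX) j k)
    (B : ∀ j k, AllB (farV κ s vA vX) j k) (C : ∀ j k, AllC (farV κ s vA vX) j k) :
    Fams (NodeAt (nodesW false)) (fun X12 X13 t t' =>
      NG κ s (exn X12 X13 t t' + (tab (nodesW false) vA vB vX).farX X12 X13 t t')
        (tab (nodesW false) vA vB vX).A X12 X13 t t') := by
  have key := fams_explicit (farV_congr (κ := κ) (s := s) hA hX) A B C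
  intro X12 X13 t t' a1 a2 a3 a4 a5 a6 a7 a8 a9 a10
  have h := key X12 X13 t t' a1 a2 a3 a4 a5 a6 a7 a8 a9 a10
  rcases h with ⟨a, b, c, d⟩ | ⟨a, b, c, d⟩ | ⟨a, b, c, d, e⟩ | ⟨a, b, c, d, e⟩ | ⟨a, b, c, d, e⟩ |
    ⟨a, b, c, d, e⟩ | ⟨a, b⟩ | ⟨a, b⟩
  exacts [.pp a b c d, .nn a b c d, .pnp a b c d e, .pnn a b c d e, .npp a b c d e,
    .npn a b c d e, .up a b, .dn a b]

/-- **The field `near`** of the certificate from the explicit statements. -/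
theorem near_explicit (hB : TabW vB) (hX : TabW vX) (A : ∀ j k, AllA (nearV N0 κ s vB vX) j k)
    (B : ∀ j k, AllB (nearV N0 κ s vB vX) j k) (C : ∀ j k, AllC (nearV N0 κ s vB vX) j k) :
    Fams (NodeAt (nodesW false)) (fun X12 X13 t t' =>
      NG κ s (exn X12 X13 t t' + (tab (nodesW false) vA vB vX).nearX N0 s X12 X13 t t')
        (tab (nodesW false) vA vB vX).B X12 X13 t t') := by
  have key := fams_explicit (nearV_congr (N0 := N0) (κ := κ) (s := s) hB hX) A B C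
  intro X12 X13 t t' a1 a2 a3 a4 a5 a6 a7 a8 a9 a10
  have h := key X12 X13 t t' a1 a2 a3 a4 a5 a6 a7 a8 a9 a10
  rcases h with ⟨a, b, c, d⟩ | ⟨a, b, c, d⟩ | ⟨a, b, c, d, e⟩ | ⟨a, b, c, d, e⟩ | ⟨a, b, c, d, e⟩ |
    ⟨a, b, c, d, e⟩ | ⟨a, b⟩ | ⟨a, b⟩
  exacts [.pp a b c d, .nn a b c d, .pnp a b c d e, .pnn a b c d e, .npp a b c d e,
    .npn a b c d e, .up a b, .dn a b]

end

end Pool.Agent.Strip051.LC
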