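import Pool.Agent.Strip051.LC.Exact.Fixed
import Pool.Agent.Strip051.LC.Line.Long
import Pool.Agent.Strip051.LC.Pieces

/-! # The exact weight for one rest: the certificate

The flux of an edge longer than `√3` is the average over its two apexes. -/

namespace Pool.Agent.Strip051.LC

open Pool.Agent.StripNear Pool.Agent.StripSquare Pool.Agent.Strip051.Sweep
open Pool.Agent.StripTwo (rowNumber molnar rowNumber_eq)
open Pool.Agent.Strip051.LC.Line (NG AvC)

/-! ### Long edges -/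

/-- The two-apex averages. -/
noncomputable def Data.apex (S : Data) : Data where
  R0 := AvC S.R0
  R1 := AvC S.R1
  R2 := AvC S.R2

theorem AvC_anti {U : ℝ → ℝ → ℝ → ℝ} (hU : ∀ X y z, U (-X) z y = -U X y z) (X y z : ℝ) :
    AvC U (-X) z y = -AvC U X y z := by
  unfold AvC
  rw [neg_sq, show (y - z) ^ 2 = (z - y) ^ 2 by ring, Av_anti hU]
  split_ifs
  · rfl
  · exact neg_zero.symm

theorem AvC_shift {U V : ℝ → ℝ → ℝ → ℝ} {c : ℝ}
    (hU : ∀ X y z, U X (y + c) (z + c) = U X y z - V X y z) (X y z : ℝ) :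
    AvC U X (y + c) (z + c) = AvC U X y z - AvC V X y z := by
  unfold AvC
  rw [show z + c - (y + c) = z - y by ring]
  split_ifs
  · unfold Av
    rw [show z + c - (y + c) = z - y by ring]
    set r := rr X (z - y)
    rw [show (y + c + (z + c)) / 2 + r * X = (y + z) / 2 + r * X + c by ring,
      show (y + c + (z + c)) / 2 - r * X = (y + z) / 2 - r * X + c by ring]
    simp only [hU]
    ring
  · ring

theorem AvC_mir {U : ℝ → ℝ → ℝ → ℝ} {c : ℝ} (hU : ∀ X y z, U X (-y) (-z) = c * U X y z)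
    (X y z : ℝ) : AvC U X (-y) (-z) = c * AvC U X y z := by
  unfold AvC
  rw [show (-z - -y) ^ 2 = (z - y) ^ 2 by ring]
  split_ifs
  · unfold Av
    have e : rr X (-z - -y) = rr X (z - y) := by
      rw [show -z - -y = -(z - y) by ring, rr_neg']
    rw [e]
    set r := rr X (z - y)
    rw [show X / 2 - r * (-z - -y) = X / 2 + r * (z - y) by ring,
      show X / 2 + r * (-z - -y) = X / 2 - r * (z - y) by ring,
      show (-y + -z) / 2 + r * X = -((y + z) / 2 - r * X) by ring,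
      show (-y + -z) / 2 - r * X = -((y + z) / 2 + r * X) by ring]
    simp only [hU]
    ring
  · ring

theorem AvC_comm {U : ℝ → ℝ → ℝ → ℝ} (hU : ∀ X y z, U X z y = U X y z) (X y z : ℝ) :
    AvC U X z y = AvC U X y z := by
  unfold AvC
  rw [show (y - z) ^ 2 = (z - y) ^ 2 by ring]
  split_ifs
  · unfold Av
    have e : rr X (y - z) = rr X (z - y) := by
      rw [show y - z = -(z - y) by ring, rr_neg']
    rw [e]
    set r := rr X (z - y)
    rw [show X / 2 - r * (y - z) = X / 2 + r * (z - y) by ring,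
      show X / 2 + r * (y - z) = X / 2 - r * (z - y) by ring,
      show (z + y) / 2 + r * X = (y + z) / 2 + r * X by ring,
      show (z + y) / 2 - r * X = (y + z) / 2 - r * X by ring]
    rw [hU (X / 2 + r * (z - y)) ((y + z) / 2 + r * X) z,
      hU (X / 2 - r * (z - y)) y ((y + z) / 2 + r * X),
      hU (X / 2 - r * (z - y)) ((y + z) / 2 - r * X) z,
      hU (X / 2 + r * (z - y)) y ((y + z) / 2 - r * X)]
    ring
  · rfl

theorem AvC_abs {U : ℝ → ℝ → ℝ → ℝ} {K M : ℝ}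
    (hU : ∀ X y z, |X| ≤ 2 → |y| ≤ M + 1 → |z| ≤ M + 1 → |U X y z| ≤ K) (hK : 0 ≤ K)
    {X y z : ℝ} (hy : |y| ≤ M) (hz : |z| ≤ M) : |AvC U X y z| ≤ 2 * K := by
  unfold AvC
  split_ifs with h
  · obtain ⟨h3, h4⟩ := h
    have h0 : 0 < X ^ 2 + (z - y) ^ 2 := by linarith
    obtain ⟨h1, h2⟩ := apex_abs h0 h4
    have hr := rr_sq h0 h4
    set r := rr X (z - y)
    have s1 : |(z - y) / 2 + r * X| ≤ 1 := by
      rw [← sq_le_one_iff_abs_le_one]
      nlinarith [sq_nonneg (X / 2 - r * (z - y))]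
    have s2 : |(z - y) / 2 - r * X| ≤ 1 := by
      rw [← sq_le_one_iff_abs_le_one]
      nlinarith [sq_nonneg (X / 2 + r * (z - y))]
    have t1 : |(y + z) / 2 + r * X| ≤ M + 1 := by
      have : (y + z) / 2 + r * X = y + ((z - y) / 2 + r * X) := by ring
      rw [this]
      exact (abs_add_le _ _).trans (add_le_add hy s1)
    have t2 : |(y + z) / 2 - r * X| ≤ M + 1 := by
      have : (y + z) / 2 - r * X = y + ((z - y) / 2 - r * X) := by ring
      rw [this]
      exact (abs_add_le _ _).trans (add_le_add hy s2)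
    have h3 := hU _ y ((y + z) / 2 + r * X) (h1.trans one_le_two) (by linarith) t1
    have h5 := hU _ ((y + z) / 2 + r * X) z (h2.trans one_le_two) t1 (by linarith)
    have h6 := hU _ y ((y + z) / 2 - r * X) (h2.trans one_le_two) (by linarith) t2
    have h7 := hU _ ((y + z) / 2 - r * X) z (h1.trans one_le_two) t2 (by linarith)
    unfold Av
    rw [abs_le] at *
    constructor <;> linarith
  · rw [abs_zero]
    positivity

theorem Data.Ok.apex {S : Data} (hS : S.Ok) : S.apex.Ok := by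
  refine ⟨AvC_anti hS.anti0, AvC_anti hS.anti1, AvC_anti hS.anti2, ?_, AvC_shift hS.per1, ?_, ?_,
    ?_, ?_, ?_⟩
  · intro X y z
    have := AvC_shift (U := S.R0) (V := fun _ _ _ => 0) (c := h0)
      (fun X y z => by rw [hS.per0, sub_zero]) X y z
    have e : AvC (fun _ _ _ => (0 : ℝ)) X y z = 0 := by
      unfold AvC Av
      simp
    rw [e, sub_zero] at this
    exact this
  · intro X y z
    have := AvC_shift (U := S.R2) (V := fun _ _ _ => 0) (c := h0)
      (fun X y z => by rw [hS.per2, sub_zero]) X y z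
    have e : AvC (fun _ _ _ => (0 : ℝ)) X y z = 0 := by
      unfold AvC Av
      simp
    rw [e, sub_zero] at this
    exact this
  · intro X y z
    have := AvC_mir (U := S.R0) (c := -1) (fun X y z => by rw [hS.mir0]; ring) X y z
    rw [neg_one_mul] at this
    exact this
  · intro X y z
    have := AvC_mir (U := S.R1) (c := -1) (fun X y z => by rw [hS.mir1]; ring) X y z
    rw [neg_one_mul] at this
    exact this
  · intro X y z
    have := AvC_mir (U := S.R2) (c := 1) (fun X y z => by rw [hS.mir2]; ring) X y z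
    rw [one_mul] at this
    exact this
  · intro M
    obtain ⟨K, hK⟩ := hS.bdd (|M| + 1)
    have hM : M ≤ |M| := le_abs_self M
    have hK0 : 0 ≤ K := (abs_nonneg _).trans (hK 0 0 0 (by simp)
      (by rw [abs_zero]; positivity) (by rw [abs_zero]; positivity)).1
    refine ⟨2 * K, fun X y z hX hy hz => ⟨?_, ?_, ?_⟩⟩
    · exact AvC_abs (M := |M|) (fun X y z a b c => (hK X y z a b c).1) hK0 (hy.trans hM)
        (hz.trans hM)
    · exact AvC_abs (M := |M|) (fun X y z a b c => (hK X y z a b c).2.1) hK0 (hy.trans hM)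
        (hz.trans hM)
    · exact AvC_abs (M := |M|) (fun X y z a b c => (hK X y z a b c).2.2) hK0 (hy.trans hM)
        (hz.trans hM)

theorem Data.apex_Q (S : Data) (μ τ X y z : ℝ) :
    S.apex.Q μ τ X y z = AvC (S.Q μ τ) X y z := by
  unfold Data.Q Data.apex AvC
  simp only
  split_ifs
  · unfold Av
    ring
  · ring

/-- The data of a certificate. -/
noncomputable def Tab.full (T : Tab) (N0 : ℕ) (κ s : ℝ) : Data :=
  (T.data N0 κ s).glue (T.data N0 κ s).apex

theorem Tab.Ok.full {T : Tab} (hT : T.Ok) {N0 : ℕ} {κ s : ℝ} (hκ : 0 ≤ κ) (hs0 : 0 ≤ s)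
    (hs1 : s < h0) : (T.full N0 κ s).Ok :=
  Data.Ok.glue (hT.data hκ hs0 hs1) (hT.data hκ hs0 hs1).apex

theorem Tab.ed_short {T : Tab} {N0 : ℕ} {κ s μ τ : ℝ} {p q : Pt} (h : ds p q ≤ 3) :
    ed ((T.full N0 κ s).Q μ τ) p q = ed ((T.data N0 κ s).Q μ τ) p q := Data.glue_Q_short h

theorem Tab.ed_long {T : Tab} {N0 : ℕ} {κ s μ τ : ℝ} {p q : Pt} (h3 : 3 < ds p q)
    (h4 : ds p q ≤ 4) :
    ed ((T.full N0 κ s).Q μ τ) p q = Av ((T.data N0 κ s).Q μ τ) (q.1 - p.1) p.2 q.2 := by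
  unfold ed Tab.full
  rw [Data.glue_Q_long (not_le.2 h3), Data.apex_Q]
  unfold AvC
  exact if_pos ⟨h3, h4⟩

/-! ### The classes with strict inequalities -/

theorem classes_strict {P : Pt → Pt → Pt → Prop} (rot : ∀ p q r, P q r p → P p q r)
    (tri : ∀ p q r, 0 ≤ cr p q r → 1 ≤ ds p q → 1 ≤ ds q r → 1 ≤ ds p r →
      ds p q ≤ 3 → ds q r ≤ 3 → ds p r ≤ 3 → P p q r)
    (acute : ∀ p q r, 0 ≤ cr p q r → 1 ≤ ds p r → 1 ≤ ds q r → 3 < ds p q →
      ds p q ≤ 4 → ds p r ≤ ds p q → ds q r ≤ ds p q → ds p q ≤ ds p r + ds q r → P p q r)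
    (obt : ∀ p q r b, 0 ≤ cr p q r → 1 ≤ ds p r → 1 ≤ ds q r → 3 < ds p q →
      ds p q ≤ 4 → ds p r + ds q r ≤ ds p q → ds p b = 1 → ds q b = 1 → 0 ≤ cr q p b →
      1 ≤ ds b r → ds b r ≤ 3 → 0 ≤ cr b q r → 0 ≤ cr p b r → P p q r) : Classes P := by
  refine ⟨rot, tri, ?_, ?_⟩
  · intro p q r h0 h1 h2 h3 h4 h5 h6 h7
    rcases h3.eq_or_lt with h | h
    · exact tri p q r h0 (by linarith) h2 h1 h.ge (by linarith) (by linarith)
    · exact acute p q r h0 h1 h2 h h4 h5 h6 h7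
  · intro p q r b h0 h1 h2 h3 h4 h5 h6 h7 h8 h9 h10 h11 h12
    rcases h3.eq_or_lt with h | h
    · exact tri p q r h0 (by linarith) h2 h1 h.ge (by linarith) (by linarith)
    · exact obt p q r b h0 h1 h2 h h4 h5 h6 h7 h8 h9 h10 h11 h12

/-! ### The certificate -/

/-- The certificate for the rest `s` and all strips with at least `N0 + 1` full rows. -/
structure FixCert (T : Tab) (Nd : ℝ → ℝ → Prop) (N0 : ℕ) (κ s : ℝ) : Prop where
  κ0 : 0 ≤ κ
  s0 : 0 ≤ s
  s1 : s < h0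
  ok : T.Ok
  even : ∀ X t, Nd X t → Nd (-X) t
  pieces : T.Pieces Nd
  far : Fams Nd (fun X12 X13 t t' =>
    NG κ s (exn X12 X13 t t' + T.farX X12 X13 t t') T.A X12 X13 t t')
  near : Fams Nd (fun X12 X13 t t' =>
    NG κ s (exn X12 X13 t t' + T.nearX N0 s X12 X13 t t') T.B X12 X13 t t')
  rhomb : Rhomb (Qc κ s T.A)
  acuteF : ∀ p q r : Pt, 0 ≤ cr p q r → 1 ≤ ds p r → 1 ≤ ds q r → 3 < ds p q → ds p q ≤ 4 →
    ds p r ≤ ds p q → ds q r ≤ ds p q → ds p q ≤ ds p r + ds q r →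
    (T.full N0 κ s).Tr 0 (-(1 / 2)) p q r
  acuteN : ∀ p q r : Pt, 0 ≤ cr p q r → 1 ≤ ds p r → 1 ≤ ds q r → 3 < ds p q → ds p q ≤ 4 →
    ds p r ≤ ds p q → ds q r ≤ ds p q → ds p q ≤ ds p r + ds q r →
    NearTr (T.full N0 κ s) N0 s p q r
  obtN : ∀ p q r b : Pt, 0 ≤ cr p q r → 1 ≤ ds p r → 1 ≤ ds q r → 3 < ds p q →
    ds p q ≤ 4 → ds p r + ds q r ≤ ds p q → ds p b = 1 → ds q b = 1 → 0 ≤ cr q p b →
    1 ≤ ds b r → ds b r ≤ 3 → 0 ≤ cr b q r → 0 ≤ cr p b r → NearTr (T.full N0 κ s) N0 s p q r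
  floorF : FloorAt (T.full N0 κ s) s 0
  floorN : FloorAt (T.full N0 κ s) s (mu N0 s)

section

variable {T : Tab} {Nd : ℝ → ℝ → Prop} {N0 : ℕ} {κ s : ℝ}

/-- The reversed rhombus inequality at the far vertex does not contain the levels. -/
theorem rhomb_far (h : Rhomb (Qc κ s T.A)) : Rhomb ((T.data N0 κ s).Q 0 (-(1 / 2))) := by
  intro y X1 Y1 X2 Y2 h1 h2 h3 h4
  have key := h y X1 Y1 X2 Y2 h1 h2 h3 h4
  rw [Tab.Q_far, Tab.Q_far, Tab.Q_far, Tab.Q_far]
  have e1 : y + Y1 - y = Y1 := by ring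
  have e2 : y + Y1 + Y2 - (y + Y1) = Y2 := by ring
  have e3 : y + Y2 - y = Y2 := by ring
  have e4 : y + Y1 + Y2 - (y + Y2) = Y1 := by ring
  rw [e1, e2, e3, e4]
  linarith

theorem FixCert.free (h : FixCert T Nd N0 κ s) : Free (T.full N0 κ s) N0 s := by
  have hg : 0 < g s := by linarith [g_gt_half h.s0 h.s1]
  have hN0 : (0 : ℝ) ≤ N0 := Nat.cast_nonneg N0
  have hm : mu N0 s ≠ 0 := by
    unfold mu
    positivity
  have hok := h.ok.full (N0 := N0) h.κ0 h.s0 h.s1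
  have triF : ∀ p q r : Pt, 0 ≤ cr p q r → 1 ≤ ds p q → 1 ≤ ds q r → 1 ≤ ds p r → ds p q ≤ 3 →
      ds q r ≤ 3 → ds p r ≤ 3 → (T.full N0 κ s).Tr 0 (-(1 / 2)) p q r := by
    intro p q r h0 h1 h2 h3 h4 h5 h6
    exact (Data.glue_Tr h4 h5 h6).2
      (far_tri h.κ0 h.s0 h.s1 h.ok h.even h.pieces h.far p q r h0 h1 h2 h3 h4 h5 h6)
  refine free_of_classes (classes_strict (fun _ _ _ h => h.rot) triF h.acuteF ?_)
    (classes_strict (fun _ _ _ h => h.rot) ?_ h.acuteN h.obtN)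
  · intro p q r b k0 k1 k2 k3 k4 k5 k6 k7 k8 k9 k10 k11 k12
    have qb : ds b q = 1 := by rw [ds_comm]; exact k7
    have g1 := triF b q r k11 (by rw [qb]) k2 k9 (by rw [qb]; norm_num) (by linarith) k10
    have g2 := triF p b r k12 (by rw [k6]) k9 k1 (by rw [k6]; norm_num) k10 (by linarith)
    refine obt_of_half hok g1 g2 ?_
    have hU : ∀ X y z, (T.data N0 κ s).Q 0 (-(1 / 2)) (-X) z y =
        -(T.data N0 κ s).Q 0 (-(1 / 2)) X y z := fun X y z =>
      (h.ok.data h.κ0 h.s0 h.s1).anti 0 (-(1 / 2)) X y z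
    refine half_of_rhomb (U := (T.data N0 κ s).Q 0 (-(1 / 2))) hU (rhomb_far h.rhomb) k6 k7 k3 k4
      k8 ?_ ?_ ?_
    · exact Tab.ed_long (by rwa [ds_comm]) (by rwa [ds_comm])
    · exact Tab.ed_short (by rw [k6]; norm_num)
    · exact Tab.ed_short (by rw [qb]; norm_num)
  · intro p q r h0 h1 h2 h3 h4 h5 h6
    exact (Data.glue_Tr h4 h5 h6).2
      (near_tri h.κ0 h.s0 h.s1 hm h.ok h.even h.pieces h.near p q r h0 h1 h2 h3 h4 h5 h6)

/-- **The exact count** from the certificate. -/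
theorem FixCert.countBound (h : FixCert T Nd N0 κ s) {n : ℕ} (hn : N0 ≤ n) : CountBound n s := by
  have hg : 0 < g s := by linarith [g_gt_half h.s0 h.s1]
  have hok := h.ok.full (N0 := N0) h.κ0 h.s0 h.s1
  exact countBound_of_tri hok h.s0 h.s1 h.floorF h.floorN hn (h.free.triStrip hok hn hg)

/-- **The exact density** for all widths with the rest `s`. -/
theorem FixCert.density (h : FixCert T Nd N0 κ s) {n : ℕ} (hn : N0 ≤ n) {C : Set E2}
    (hC : IsStripPacking (2 + n * Real.sqrt 3 + 2 * s) C) {O : E2} {d : ℝ}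
    (hd : HasDensity (2 + n * Real.sqrt 3 + 2 * s) C O d) :
    d ≤ molnar (2 + n * Real.sqrt 3 + 2 * s) := by
  have h3 : 0 < Real.sqrt 3 := Real.sqrt_pos.2 (by norm_num)
  have hs0 := h.s0
  have hs1 := h.s1
  unfold h0 at hs1
  have hw : 2 ≤ 2 + n * Real.sqrt 3 + 2 * s := by
    have : 0 ≤ (n : ℝ) * Real.sqrt 3 := by positivity
    linarith
  have hr : rowNumber (2 + n * Real.sqrt 3 + 2 * s) = n := rowNumber_eq (by linarith) (by
    have : ((n : ℝ) + 1) * Real.sqrt 3 = n * Real.sqrt 3 + Real.sqrt 3 := by ring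
    rw [this]
    linarith)
  have hrest : rest (2 + n * Real.sqrt 3 + 2 * s) = s := by
    unfold rest
    rw [hr]
    ring
  apply le_molnar_of_count hw _ hC hd
  rw [hr, hrest]
  exact h.countBound hn

end

/-! ### Tables on node curves -/

/-- The tables given by their values on the node curves. -/
noncomputable def tab {ι : Type*} (nodes : ℝ → List (ℝ × ι)) (vA vB vX : ℝ → ι → ℝ) : Tab where
  A := ker nodes vA (fun _ _ => 0)
  B := ker nodes vB (fun _ _ => 0)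
  Xi := ker nodes vX (fun _ _ => 0)

theorem tab_ok {ι : Type*} {nodes : ℝ → List (ℝ × ι)} (hN : IsNodes nodes)
    {vA vB vX : ℝ → ι → ℝ} {K : ℝ} (hK : 0 ≤ K)
    (hv : ∀ t, 0 ≤ t → t ^ 2 ≤ 3 → ∀ p ∈ nodes t, |vA t p.2| ≤ K ∧ |vB t p.2| ≤ K ∧
      |vX t p.2| ≤ K) : (tab nodes vA vB vX).Ok := by
  refine ⟨ker_odd (v := vA) (B := fun _ _ => 0) hN (fun _ => rfl),
    ker_odd (v := vB) (B := fun _ _ => 0) hN (fun _ => rfl),
    ker_odd (v := vX) (B := fun _ _ => 0) hN (fun _ => rfl), K, fun X t _ ht => ⟨?_, ?_, ?_⟩⟩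
  · refine ker_abs (v := vA) (B := fun _ _ => 0) hN (fun h p hp => ?_)
      (fun _ => by rwa [abs_zero]) hK
    exact (hv _ (abs_nonneg t) (by rwa [sq_abs]) p hp).1
  · refine ker_abs (v := vB) (B := fun _ _ => 0) hN (fun h p hp => ?_)
      (fun _ => by rwa [abs_zero]) hK
    exact (hv _ (abs_nonneg t) (by rwa [sq_abs]) p hp).2.1
  · refine ker_abs (v := vX) (B := fun _ _ => 0) hN (fun h p hp => ?_)
      (fun _ => by rwa [abs_zero]) hK
    exact (hv _ (abs_nonneg t) (by rwa [sq_abs]) p hp).2.2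

theorem tab_pieces {ι : Type*} {nodes : ℝ → List (ℝ × ι)} (hN : IsNodes nodes)
    (vA vB vX : ℝ → ι → ℝ) : (tab nodes vA vB vX).Pieces (NodeAt nodes) := by
  intro X t ht h1 h2
  obtain ⟨a, b, k1, k2, k3, k4, k5, k6⟩ := hN.piece h1 h2
  exact ⟨a, b, k1, k2, k3, k4, k5, k6 (vA |t|) (fun _ => 0) rfl, k6 (vB |t|) (fun _ => 0) rfl,
    k6 (vX |t|) (fun _ => 0) rfl⟩

end Pool.Agent.Strip051.LC
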