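import Pool.Agent.Strip051.LC.Exact.NodesW
import Pool.Agent.Strip051.LC.Exact.Final
import Pool.Agent.Strip051.LC.Line.Sym

/-! # The kernel on the node curves `c1 | f1 | f2 | c3` and the families of triangles

The kernel `ker (nodesW false) v 0` is evaluated in closed form, and the triangles with two nodes
are listed: the heights `t`, `t'` are the coordinates, the horizontal displacements of the two node
edges are `± cv j t`, `± cv k t'`. -/

namespace Pool.Agent.Strip051.LC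

open Pool.Agent.StripNear Pool.Agent.StripSquare Pool.Agent.Strip051.Sweep

/-- The node curves (without `W`). -/
noncomputable def cv : Fin 4 → ℝ → ℝ
  | 0 => c1
  | 1 => f1
  | 2 => f2
  | 3 => c3

/-- The tag of the node curve in `nodesW`. -/
def tg : Fin 4 → Fin 5
  | 0 => 0
  | 1 => 1
  | 2 => 3
  | 3 => 4

/-- The heights for which the curve is a node. -/
def dm : Fin 4 → ℝ → Prop
  | 0, t => t < 1
  | 1, t => 0 < t ∧ t ≠ h0 ∧ t ^ 2 < 3
  | 2, t => t ^ 2 < 3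
  | 3, t => t ^ 2 ≤ 3

@[simp] theorem cv_zero : cv 0 = c1 := rfl
@[simp] theorem cv_one : cv 1 = f1 := rfl
@[simp] theorem cv_two : cv 2 = f2 := rfl
@[simp] theorem cv_three : cv 3 = c3 := rfl
@[simp] theorem tg_zero : tg 0 = 0 := rfl
@[simp] theorem tg_one : tg 1 = 1 := rfl
@[simp] theorem tg_two : tg 2 = 3 := rfl
@[simp] theorem tg_three : tg 3 = 4 := rfl

theorem h0_lt_one : h0 < 1 := by nlinarith [h0_sq', h0_pos]

theorem c3_top {T : ℝ} (h : T ^ 2 = 3) : c3 T = 0 := by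
  unfold c3
  rw [h, sub_self, Real.sqrt_zero]

theorem W_top {T : ℝ} (hT : 0 ≤ T) (h : T ^ 2 = 3) : Wc T = 0 := by
  have hh := h0_pos
  have hq := h0_sq'
  have e : T = 2 * h0 := by nlinarith
  unfold Wc
  rw [if_neg (by linarith), show (1 : ℝ) - (T - h0) ^ 2 = (1 / 2) ^ 2 by rw [e]; nlinarith,
    Real.sqrt_sq (by norm_num)]
  ring

/-- The order of the curves. -/
theorem order {T : ℝ} (hT : 0 ≤ T) (h3 : T ^ 2 ≤ 3) :
    0 ≤ c1 T ∧ c1 T ≤ f1 T ∧ f1 T ≤ f2 T ∧ f2 T ≤ c3 T := by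
  have hW : c1 T ≤ Wc T ∧ Wc T ≤ c3 T := by
    rcases h3.eq_or_lt with h | h
    · rw [W_top hT h, c3_top h, c1_zero (by nlinarith)]
      exact ⟨le_rfl, le_rfl⟩
    · by_cases hs : T = 0 ∨ T = h0
      · obtain ⟨-, s2, s3⟩ := special hs
        exact ⟨s2.le, s3.le⟩
      · push Not at hs
        obtain ⟨-, s2, s3⟩ := W_between (lt_of_le_of_ne hT (Ne.symm hs.1)) hs.2 h
        exact ⟨s2.le, s3.le⟩
  unfold f1 f2
  exact ⟨c1_nonneg T, by linarith [hW.1], by linarith [hW.1, hW.2], by linarith [hW.2]⟩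

theorem cv_nonneg (j : Fin 4) {T : ℝ} (hT : 0 ≤ T) (h3 : T ^ 2 ≤ 3) : 0 ≤ cv j T := by
  obtain ⟨h1, h2, h3, h4⟩ := order hT h3
  fin_cases j <;> simp <;> linarith

theorem dm_sq {j : Fin 4} {T : ℝ} (hT : 0 ≤ T) (h : dm j T) : T ^ 2 ≤ 3 := by
  fin_cases j <;> simp only [dm] at h
  · have : T < 1 := h
    nlinarith
  · exact h.2.2.le
  · exact h.le
  · exact h

theorem cv_le_c3 (j : Fin 4) {T : ℝ} (hT : 0 ≤ T) (h3 : T ^ 2 ≤ 3) : cv j T ≤ c3 T := by
  obtain ⟨h1, h2, h3, h4⟩ := order hT h3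
  fin_cases j <;> simp <;> linarith

theorem c1_le_cv (j : Fin 4) {T : ℝ} (hT : 0 ≤ T) (h3 : T ^ 2 ≤ 3) : c1 T ≤ cv j T := by
  obtain ⟨h1, h2, h3, h4⟩ := order hT h3
  fin_cases j <;> simp <;> linarith

/-- The node edges have lengths between `1` and `√3`. -/
theorem cv_len {j : Fin 4} {T : ℝ} (hT : 0 ≤ T) (h : dm j T) :
    1 ≤ cv j T ^ 2 + T ^ 2 ∧ cv j T ^ 2 + T ^ 2 ≤ 3 := by
  have h3 := dm_sq hT h
  have g1 := c1_le_cv j hT h3
  have g2 := cv_le_c3 j hT h3
  have g3 := c1_nonneg T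
  have g4 := c3_sq h3
  constructor
  · rcases le_or_gt T 1 with h5 | h5
    · have := c1_sq hT h5
      nlinarith
    · nlinarith [sq_nonneg (cv j T)]
  · nlinarith

/-! ### The nodes -/

theorem mem_nodesW {j : Fin 4} {T : ℝ} (h : dm j T) (h3 : T ^ 2 < 3) :
    (cv j T, tg j) ∈ nodesW false T := by
  have hh := h0_lt_one
  have hp := h0_pos
  unfold nodesW
  rw [if_neg (by linarith)]
  fin_cases j <;> simp only [dm] at h <;> simp
  · split_ifs <;> simp_all
  · obtain ⟨k1, k2, k3⟩ := h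
    rw [if_neg (by
      push Not
      exact ⟨k1.ne', k2⟩)]
    simp
  · split_ifs <;> simp
  · split_ifs <;> simp

/-- An edge at a node. -/
theorem nodeAtW' {X T : ℝ} (hT : 0 ≤ T) (h3 : X ^ 2 + T ^ 2 ≤ 3)
    (h : NodeAt (nodesW false) X T) : ∃ j : Fin 4, dm j T ∧ |X| = cv j T := by
  have e : |T| = T := abs_of_nonneg hT
  have hT3 : T ^ 2 ≤ 3 := by nlinarith [sq_nonneg X]
  have key := nodeAtW h
  rw [e] at key
  rcases hT3.eq_or_lt with h1 | h1
  · refine ⟨3, h1.le, ?_⟩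
    have : X ^ 2 = 0 := by nlinarith [sq_nonneg X]
    have hX : X = 0 := by simpa using this
    simp [hX, c3_top h1]
  · rcases key with ⟨k1, k2⟩ | ⟨k1, k2, k3⟩ | ⟨k0, -⟩ | k1 | k1
    · exact ⟨0, k2, k1⟩
    · exact ⟨1, ⟨k2, k3, h1⟩, k1⟩
    · cases k0
    · exact ⟨2, h1, k1⟩
    · exact ⟨3, h1.le, k1⟩

/-! ### The kernel -/

/-- The conditions on the node values: no node `c1` beyond the height `1`; at the heights `0` and
`h0` the curves `c1` and `f1` meet. -/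
structure TabW (v : ℝ → Fin 5 → ℝ) : Prop where
  one : ∀ T, 1 ≤ T → v T 0 = 0
  zero : v 0 1 = v 0 0
  mid : v h0 1 = v h0 0
  top : ∀ T i, T ^ 2 = 3 → v T i = 0

variable {v : ℝ → Fin 5 → ℝ}

theorem kerW_zero (v : ℝ → Fin 5 → ℝ) (T : ℝ) : ker (nodesW false) v (fun _ _ => 0) 0 T = 0 := by
  have := ker_odd (v := v) (B := fun _ _ => 0) (isNodesW false) (fun _ => rfl) 0 T
  rw [neg_zero] at this
  linarith

theorem sgn_cases {σ : ℝ} (h : σ = 1 ∨ σ = -1) : σ ^ 2 = 1 := by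
  rcases h with rfl | rfl <;> norm_num

/-- The value at a node. -/
theorem kerW_node (hv : TabW v) {σ : ℝ} (hσ : σ = 1 ∨ σ = -1) {j : Fin 4} {T : ℝ} (hT : 0 ≤ T)
    (h : dm j T) : ker (nodesW false) v (fun _ _ => 0) (σ * cv j T) T = σ * v T (tg j) := by
  have h3 := dm_sq hT h
  have pos : ker (nodesW false) v (fun _ _ => 0) (cv j T) T = v T (tg j) := by
    rcases h3.eq_or_lt with h1 | h1
    · have e : cv j T = 0 := le_antisymm ((cv_le_c3 j hT h3).trans (c3_top h1).le)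
        (cv_nonneg j hT h3)
      rw [e, kerW_zero, hv.top T _ h1]
    · exact ker_node (isNodesW false) hT h1 (mem_nodesW h h1)
  rcases hσ with rfl | rfl
  · rw [one_mul, one_mul, pos]
  · rw [neg_one_mul, ker_odd (isNodesW false) (fun _ => rfl), pos]
    ring

/-- The linear interpolation between the curves `i` and `i + 1`. -/
noncomputable def segW (v : ℝ → Fin 5 → ℝ) (i : Fin 3) (X T : ℝ) : ℝ :=
  v T (tg i.castSucc) + (v T (tg i.succ) - v T (tg i.castSucc)) *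
    ((X - cv i.castSucc T) / (cv i.succ T - cv i.castSucc T))

/-! ### The kernel between the nodes -/

section

variable {ι : Type*} {w : ι → ℝ}

theorem itp_first {p q : ℝ × ι} {L : List (ℝ × ι)} {u : ℝ} (h : u ≤ q.1) :
    itp w (p :: q :: L) u = w p.2 + (w q.2 - w p.2) * ((u - p.1) / (q.1 - p.1)) := by
  unfold itp
  rw [if_pos h]

theorem itp_skip {p q : ℝ × ι} {L : List (ℝ × ι)} {u : ℝ} (hpq : p.1 < q.1)
    (hc : (q :: L).IsChain (fun p q => p.1 < q.1)) (h : q.1 ≤ u) :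
    itp w (p :: q :: L) u = itp w (q :: L) u := by
  rcases h.eq_or_lt with h1 | h1
  · rw [itp_first h1.ge, ← h1, itp_head w hc, div_self (by linarith)]
    ring
  · conv_lhs => unfold itp
    rw [if_neg h1.not_ge]

theorem itpH_skip {p : ℝ × ι} {L : List (ℝ × ι)} {b t u : ℝ} (hp : 0 < p.1)
    (hc : (p :: L).IsChain (fun p q => p.1 < q.1)) (h : p.1 ≤ u) (h3 : u ^ 2 + t ^ 2 ≤ 3) :
    itpH w b t (p :: L) u = itp w (p :: L) u := by
  unfold itpH
  rw [if_neg h3.not_gt]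
  simp only
  rcases h.eq_or_lt with h1 | h1
  · rw [if_pos h1.ge, ← h1, itp_head w hc, div_self hp.ne', mul_one]
  · rw [if_neg h1.not_ge]

end

theorem castSucc0 : (0 : Fin 3).castSucc = 0 := rfl
theorem castSucc1 : (1 : Fin 3).castSucc = 1 := rfl
theorem castSucc2 : (2 : Fin 3).castSucc = 2 := rfl
theorem succ0 : (0 : Fin 3).succ = 1 := rfl
theorem succ1 : (1 : Fin 3).succ = 2 := rfl
theorem succ2 : (2 : Fin 3).succ = 3 := rfl

theorem kerW_pos (hv : TabW v) {i : Fin 3} {X T : ℝ} (hT : 0 ≤ T) (h3 : T ^ 2 ≤ 3)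
    (h1 : cv i.castSucc T ≤ X) (h2 : X ≤ cv i.succ T) :
    ker (nodesW false) v (fun _ _ => 0) X T = segW v i X T := by
  have hh := h0_lt_one
  have hp := h0_pos
  have hX : 0 ≤ X := (cv_nonneg _ hT h3).trans h1
  have hXc : X ≤ c3 T := h2.trans (cv_le_c3 _ hT h3)
  have hl3 : X ^ 2 + T ^ 2 ≤ 3 := by
    have := c3_sq h3
    nlinarith [c3_nonneg T]
  rcases h3.eq_or_lt with h | h
  · have e : X = 0 := le_antisymm (hXc.trans (c3_top h).le) hX
    unfold segW
    rw [e, kerW_zero, hv.top T _ h, hv.top T _ h]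
    ring
  have eT : |T| = T := abs_of_nonneg hT
  unfold ker itpO
  rw [eT, if_neg hX.not_gt]
  unfold nodesW
  rw [if_neg h.not_ge]
  by_cases hs : T = 0 ∨ T = h0
  · rw [if_pos hs]
    obtain ⟨s1, s2, s3⟩ := special hs
    have e0 : v T 1 = v T 0 := by
      rcases hs with rfl | rfl
      · exact hv.zero
      · exact hv.mid
    have e1 : f1 T = c1 T := by unfold f1; linarith
    have q1 : c1 T < f2 T := by unfold f2; linarith
    have q2 : f2 T < c3 T := by unfold f2; linarith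
    have hX1 : c1 T ≤ X := (c1_le_cv _ hT h3).trans h1
    rw [itpH_skip s1 (by simp [q1, q2]) hX1 hl3]
    unfold segW
    fin_cases i
    · simp only [Fin.zero_eta, castSucc0, succ0, cv_zero, cv_one, e1] at h1 h2 ⊢
      have e2 : X = c1 T := le_antisymm h2 h1
      rw [itp_first (by simp only; linarith)]
      simp [e2]
    · simp only [Fin.mk_one, castSucc1, succ1, cv_one, cv_two, e1, tg_one, tg_two] at h1 h2 ⊢
      rw [itp_first h2]
      simp only [e0]
    · simp only [Fin.reduceFinMk, castSucc2, succ2, cv_two, cv_three, tg_two, tg_three] at h1 h2 ⊢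
      rw [itp_skip q1 (by simp [q2]) h1, itp_first h2]
  · rw [if_neg hs]
    push Not at hs
    obtain ⟨s1, s2, s3⟩ := W_between (lt_of_le_of_ne hT (Ne.symm hs.1)) hs.2 h
    have c10 := c1_nonneg T
    have q1 : c1 T < f1 T := by unfold f1; linarith
    have q2 : f1 T < f2 T := by unfold f1 f2; linarith
    have q3 : f2 T < c3 T := by unfold f2; linarith
    rcases lt_or_ge T 1 with hT1 | hT1
    · rw [if_pos hT1]
      have c1p := c1_pos hT hT1
      have hX1 : c1 T ≤ X := (c1_le_cv _ hT h3).trans h1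
      simp only [List.cons_append, List.nil_append, Bool.false_eq_true, if_false]
      rw [itpH_skip c1p (by simp [q1, q2, q3]) hX1 hl3]
      unfold segW
      fin_cases i
      · simp only [Fin.zero_eta, castSucc0, succ0, cv_zero, cv_one] at h1 h2 ⊢
        rw [itp_first h2]
        rfl
      · simp only [Fin.mk_one, castSucc1, succ1, cv_one, cv_two] at h1 h2 ⊢
        rw [itp_skip q1 (by simp [q2, q3]) h1, itp_first h2]
        rfl
      · simp only [Fin.reduceFinMk, castSucc2, succ2, cv_two, cv_three] at h1 h2 ⊢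
        rw [itp_skip q1 (by simp [q2, q3]) (by simp only; linarith),
          itp_skip q2 (by simp [q3]) h1, itp_first h2]
        rfl
    · rw [if_neg hT1.not_gt]
      simp only [List.nil_append, Bool.false_eq_true, if_false]
      have e0 : c1 T = 0 := c1_zero hT1
      have e1 : v T 0 = 0 := hv.one T hT1
      unfold segW
      fin_cases i
      · simp only [Fin.zero_eta, castSucc0, succ0, cv_zero, cv_one, tg_zero, tg_one] at h1 h2 ⊢
        unfold itpH
        rw [if_neg hl3.not_gt]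
        simp only
        rw [if_pos h2, e0, e1]
        ring
      · simp only [Fin.mk_one, castSucc1, succ1, cv_one, cv_two] at h1 h2 ⊢
        rw [itpH_skip (by simp only; linarith) (by simp [q2, q3]) h1 hl3, itp_first h2]
        rfl
      · simp only [Fin.reduceFinMk, castSucc2, succ2, cv_two, cv_three] at h1 h2 ⊢
        rw [itpH_skip (by simp only; linarith) (by simp [q2, q3]) (by simp only; linarith) hl3,
          itp_skip q2 (by simp [q3]) h1, itp_first h2]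
        rfl

/-- **The value between two nodes.** -/
theorem kerW_seg (hv : TabW v) {σ : ℝ} (hσ : σ = 1 ∨ σ = -1) {i : Fin 3} {X T : ℝ} (hT : 0 ≤ T)
    (h3 : T ^ 2 ≤ 3) (h1 : cv i.castSucc T ≤ σ * X) (h2 : σ * X ≤ cv i.succ T) :
    ker (nodesW false) v (fun _ _ => 0) X T = σ * segW v i (σ * X) T := by
  have key := kerW_pos hv hT h3 h1 h2
  have e : X = σ * (σ * X) := by
    have := sgn_cases hσ
    calc X = σ ^ 2 * X := by rw [this, one_mul]
      _ = σ * (σ * X) := by ring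
  rw [← key]
  rcases hσ with rfl | rfl
  · rw [one_mul, one_mul]
  · rw [neg_one_mul, neg_one_mul, ker_odd (isNodesW false) (fun _ => rfl), neg_neg]

/-- The piece which contains an edge. -/
theorem seg_cases {X T : ℝ} (hT : 0 ≤ T) (h1 : 1 ≤ X ^ 2 + T ^ 2) (h3 : X ^ 2 + T ^ 2 ≤ 3) :
    ∃ σ : ℝ, (σ = 1 ∨ σ = -1) ∧ ∃ i : Fin 3, cv i.castSucc T ≤ σ * X ∧ σ * X ≤ cv i.succ T := by
  have pos : ∀ X : ℝ, 0 ≤ X → 1 ≤ X ^ 2 + T ^ 2 → X ^ 2 + T ^ 2 ≤ 3 →
      ∃ i : Fin 3, cv i.castSucc T ≤ X ∧ X ≤ cv i.succ T := by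
    intro X hX h1 h3
    have hT3 : T ^ 2 ≤ 3 := by nlinarith [sq_nonneg X]
    have g1 : c1 T ≤ X := by
      rcases le_or_gt T 1 with h | h
      · have := c1_sq hT h
        nlinarith [c1_nonneg T]
      · rw [c1_zero h.le]
        exact hX
    have g3 : X ≤ c3 T := by
      have := c3_sq hT3
      nlinarith [c3_nonneg T]
    rcases le_total X (f1 T) with h | h
    · exact ⟨0, by simpa [castSucc0] using g1, by simpa [succ0] using h⟩
    · rcases le_total X (f2 T) with h' | h'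
      · exact ⟨1, by simpa [castSucc1] using h, by simpa [succ1] using h'⟩
      · exact ⟨2, by simpa [castSucc2] using h', by simpa [succ2] using g3⟩
  rcases le_total 0 X with hX | hX
  · obtain ⟨i, h4, h5⟩ := pos X hX h1 h3
    exact ⟨1, Or.inl rfl, i, by rwa [one_mul], by rwa [one_mul]⟩
  · obtain ⟨i, h4, h5⟩ := pos (-X) (by linarith) (by rwa [neg_sq]) (by rwa [neg_sq])
    exact ⟨-1, Or.inr rfl, i, by rwa [neg_one_mul], by rwa [neg_one_mul]⟩

/-! ### The families -/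

/-- Nodes on the sides from the bottom to the middle and from the middle to the top. -/
def FamWA (P : ℝ → ℝ → ℝ → ℝ → Prop) (j k : Fin 4) (σ σ' : ℝ) : Prop :=
  ∀ t t' : ℝ, 0 ≤ t → 0 ≤ t' → dm j t → dm k t' → 0 ≤ σ * cv j t * t' - σ' * cv k t' * t →
    1 ≤ (σ * cv j t + σ' * cv k t') ^ 2 + (t + t') ^ 2 →
    (σ * cv j t + σ' * cv k t') ^ 2 + (t + t') ^ 2 ≤ 3 →
    P (σ * cv j t) (σ * cv j t + σ' * cv k t') t t'

/-- Nodes on the sides from the bottom to the middle and from the bottom to the top. -/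
def FamWB (P : ℝ → ℝ → ℝ → ℝ → Prop) (j k : Fin 4) (σ σ' : ℝ) : Prop :=
  ∀ t t' : ℝ, 0 ≤ t → 0 ≤ t' → dm j t → dm k (t + t') →
    0 ≤ σ * cv j t * (t + t') - σ' * cv k (t + t') * t →
    1 ≤ (σ' * cv k (t + t') - σ * cv j t) ^ 2 + t' ^ 2 →
    (σ' * cv k (t + t') - σ * cv j t) ^ 2 + t' ^ 2 ≤ 3 →
    P (σ * cv j t) (σ' * cv k (t + t')) t t'

/-- Nodes on the sides from the middle to the top and from the bottom to the top. -/
def FamWC (P : ℝ → ℝ → ℝ → ℝ → Prop) (j k : Fin 4) (σ σ' : ℝ) : Prop :=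
  ∀ t t' : ℝ, 0 ≤ t → 0 ≤ t' → dm j t' → dm k (t + t') →
    0 ≤ σ' * cv k (t + t') * t' - σ * cv j t' * (t + t') →
    1 ≤ (σ' * cv k (t + t') - σ * cv j t') ^ 2 + t ^ 2 →
    (σ' * cv k (t + t') - σ * cv j t') ^ 2 + t ^ 2 ≤ 3 →
    P (σ' * cv k (t + t') - σ * cv j t') (σ' * cv k (t + t')) t t'

theorem abs_eq_sgn {X c : ℝ} (h : |X| = c) : (0 ≤ X ∧ X = 1 * c) ∨ (X ≤ 0 ∧ X = -1 * c) := by
  rcases le_total 0 X with h1 | h1
  · exact Or.inl ⟨h1, by rw [← h, abs_of_nonneg h1]; ring⟩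
  · exact Or.inr ⟨h1, by rw [← h, abs_of_nonpos h1]; ring⟩

theorem cv_horizontal {j : Fin 4} : 1 ≤ cv j 0 ∧ cv j 0 < 2 := by
  have h1 := c1_le_cv j le_rfl (by norm_num : (0 : ℝ) ^ 2 ≤ 3)
  have h2 := cv_le_c3 j le_rfl (by norm_num : (0 : ℝ) ^ 2 ≤ 3)
  have h3 := c3_sq (t := 0) (by norm_num)
  rw [c1_zero'] at h1
  exact ⟨h1, by nlinarith [c3_nonneg 0]⟩

/-- Two nodes on the short sides. -/
theorem famWA_signs {P : ℝ → ℝ → ℝ → ℝ → Prop} {j k : Fin 4} (pp : FamWA P j k 1 1)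
    (pm : FamWA P j k 1 (-1)) (mm : FamWA P j k (-1) (-1)) {X12 X23 t t' : ℝ} (ht : 0 ≤ t)
    (ht' : 0 ≤ t') (hj : dm j t) (hk : dm k t') (e1 : |X12| = cv j t) (e2 : |X23| = cv k t')
    (hc : 0 ≤ X12 * t' - X23 * t) (h1 : 1 ≤ (X12 + X23) ^ 2 + (t + t') ^ 2)
    (h3 : (X12 + X23) ^ 2 + (t + t') ^ 2 ≤ 3) : P X12 (X12 + X23) t t' := by
  have use : ∀ σ σ' : ℝ, FamWA P j k σ σ' → X12 = σ * cv j t → X23 = σ' * cv k t' →
      P X12 (X12 + X23) t t' := by
    intro σ σ' h g1 g2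
    rw [g1, g2] at hc h1 h3 ⊢
    exact h t t' ht ht' hj hk hc h1 h3
  have l1 := cv_nonneg j ht (dm_sq ht hj)
  have l2 := cv_nonneg k ht' (dm_sq ht' hk)
  rcases abs_eq_sgn e1 with ⟨s1, g1⟩ | ⟨s1, g1⟩ <;> rcases abs_eq_sgn e2 with ⟨s2, g2⟩ | ⟨s2, g2⟩
  · exact use _ _ pp g1 g2
  · exact use _ _ pm g1 g2
  · -- only degenerate triangles
    have z1 : X12 * t' = 0 := le_antisymm (mul_nonpos_of_nonpos_of_nonneg s1 ht') (by
      nlinarith [mul_nonneg s2 ht])
    have z2 : X23 * t = 0 := le_antisymm (by linarith) (mul_nonneg s2 ht)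
    rcases mul_eq_zero.1 z1 with h | h
    · have : cv j t = 0 := by rw [← e1, h, abs_zero]
      exact use _ _ pp (by rw [h, this]; ring) g2
    · exfalso
      subst h
      obtain ⟨r1, r2⟩ := cv_horizontal (j := k)
      have hX : 0 < X23 := by linarith
      have ht0 : t = 0 := by
        rcases mul_eq_zero.1 z2 with h | h
        · linarith
        · exact h
      subst ht0
      obtain ⟨r3, r4⟩ := cv_horizontal (j := j)
      nlinarith
  · exact use _ _ mm g1 g2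

/-- Two nodes on the sides at the bottom. -/
theorem famWB_signs {P : ℝ → ℝ → ℝ → ℝ → Prop} {j k : Fin 4} (pp : FamWB P j k 1 1)
    (pm : FamWB P j k 1 (-1)) (mm : FamWB P j k (-1) (-1)) {X12 X13 t t' : ℝ} (ht : 0 ≤ t)
    (ht' : 0 ≤ t') (hj : dm j t) (hk : dm k (t + t')) (e1 : |X12| = cv j t)
    (e2 : |X13| = cv k (t + t'))
    (hc : 0 ≤ X12 * (t + t') - X13 * t) (h1 : 1 ≤ (X13 - X12) ^ 2 + t' ^ 2)
    (h3 : (X13 - X12) ^ 2 + t' ^ 2 ≤ 3) : P X12 X13 t t' := by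
  have use : ∀ σ σ' : ℝ, FamWB P j k σ σ' → X12 = σ * cv j t → X13 = σ' * cv k (t + t') →
      P X12 X13 t t' := by
    intro σ σ' h g1 g2
    rw [g1, g2] at hc h1 h3 ⊢
    exact h t t' ht ht' hj hk hc h1 h3
  have hT : 0 ≤ t + t' := by linarith
  have l1 := cv_nonneg j ht (dm_sq ht hj)
  have l2 := cv_nonneg k hT (dm_sq hT hk)
  rcases abs_eq_sgn e1 with ⟨s1, g1⟩ | ⟨s1, g1⟩ <;> rcases abs_eq_sgn e2 with ⟨s2, g2⟩ | ⟨s2, g2⟩
  · exact use _ _ pp g1 g2
  · exact use _ _ pm g1 g2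
  · -- only degenerate triangles
    have z1 : X12 * (t + t') = 0 := le_antisymm (mul_nonpos_of_nonpos_of_nonneg s1 hT) (by
      nlinarith [mul_nonneg s2 ht])
    rcases mul_eq_zero.1 z1 with h | h
    · have : cv j t = 0 := by rw [← e1, h, abs_zero]
      exact use _ _ pp (by rw [h, this]; ring) g2
    · exfalso
      have ht0 : t = 0 := by linarith
      have ht0' : t' = 0 := by linarith
      subst ht0
      subst ht0'
      rw [add_zero] at e2
      obtain ⟨r1, r2⟩ := cv_horizontal (j := k)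
      obtain ⟨r3, r4⟩ := cv_horizontal (j := j)
      rw [abs_of_nonneg s2] at e2
      rw [abs_of_nonpos s1] at e1
      nlinarith
  · exact use _ _ mm g1 g2

/-- Two nodes on the sides at the top. -/
theorem famWC_signs {P : ℝ → ℝ → ℝ → ℝ → Prop} {j k : Fin 4} (pp : FamWC P j k 1 1)
    (mp : FamWC P j k (-1) 1) (mm : FamWC P j k (-1) (-1)) {X12 X13 t t' : ℝ} (ht : 0 ≤ t)
    (ht' : 0 ≤ t') (hj : dm j t') (hk : dm k (t + t')) (e1 : |X13 - X12| = cv j t')
    (e2 : |X13| = cv k (t + t'))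
    (hc : 0 ≤ X12 * (t + t') - X13 * t) (h1 : 1 ≤ X12 ^ 2 + t ^ 2)
    (h3 : X12 ^ 2 + t ^ 2 ≤ 3) : P X12 X13 t t' := by
  have hc' : 0 ≤ X13 * t' - (X13 - X12) * (t + t') := by nlinarith
  have use : ∀ σ σ' : ℝ, FamWC P j k σ σ' → X13 - X12 = σ * cv j t' →
      X13 = σ' * cv k (t + t') → P X12 X13 t t' := by
    intro σ σ' h g1 g2
    have g3 : X12 = σ' * cv k (t + t') - σ * cv j t' := by linarith
    rw [g1] at hc'
    rw [g2] at hc' ⊢
    rw [g3] at h1 h3 ⊢
    exact h t t' ht ht' hj hk hc' h1 h3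
  have hT : 0 ≤ t + t' := by linarith
  have l1 := cv_nonneg j ht' (dm_sq ht' hj)
  have l2 := cv_nonneg k hT (dm_sq hT hk)
  rcases abs_eq_sgn e1 with ⟨s1, g1⟩ | ⟨s1, g1⟩ <;> rcases abs_eq_sgn e2 with ⟨s2, g2⟩ | ⟨s2, g2⟩
  · exact use _ _ pp g1 g2
  · -- only degenerate triangles
    have z1 : (X13 - X12) * (t + t') = 0 := le_antisymm (by
      nlinarith [mul_nonpos_of_nonpos_of_nonneg s2 ht']) (mul_nonneg s1 hT)
    rcases mul_eq_zero.1 z1 with h | h
    · have : cv j t' = 0 := by rw [← e1, h, abs_zero]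
      exact use _ _ mm (by rw [h, this]; ring) g2
    · exfalso
      have ht0 : t = 0 := by linarith
      have ht0' : t' = 0 := by linarith
      subst ht0
      subst ht0'
      rw [add_zero] at e2
      obtain ⟨r1, r2⟩ := cv_horizontal (j := k)
      obtain ⟨r3, r4⟩ := cv_horizontal (j := j)
      rw [abs_of_nonneg s1] at e1
      rw [abs_of_nonpos s2] at e2
      nlinarith
  · exact use _ _ mp g1 g2
  · exact use _ _ mm g1 g2

/-- **The families without symmetry** (near vertex): three positions, three sign patterns. -/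
theorem fams_of {P : ℝ → ℝ → ℝ → ℝ → Prop}
    (A : ∀ j k, FamWA P j k 1 1 ∧ FamWA P j k 1 (-1) ∧ FamWA P j k (-1) (-1))
    (B : ∀ j k, FamWB P j k 1 1 ∧ FamWB P j k 1 (-1) ∧ FamWB P j k (-1) (-1))
    (C : ∀ j k, FamWC P j k 1 1 ∧ FamWC P j k (-1) 1 ∧ FamWC P j k (-1) (-1)) :
    Fams (NodeAt (nodesW false)) P := by
  intro X12 X13 t t' ht ht' hc a1 a2 b1 b2 c1 c2 hN
  have hT : 0 ≤ t + t' := by linarith
  rcases hN with ⟨n1, n2⟩ | ⟨n1, n2⟩ | ⟨n1, n2⟩
  · obtain ⟨j, hj, ej⟩ := nodeAtW' ht a2 n1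
    obtain ⟨k, hk, ek⟩ := nodeAtW' ht' b2 n2
    obtain ⟨u1, u2, u3⟩ := A j k
    have := famWA_signs u1 u2 u3 ht ht' hj hk ej ek (by nlinarith)
      (by rw [show X12 + (X13 - X12) = X13 by ring]; exact c1)
      (by rw [show X12 + (X13 - X12) = X13 by ring]; exact c2)
    rwa [show X12 + (X13 - X12) = X13 by ring] at this
  · obtain ⟨j, hj, ej⟩ := nodeAtW' ht a2 n1
    obtain ⟨k, hk, ek⟩ := nodeAtW' hT c2 n2
    obtain ⟨u1, u2, u3⟩ := B j k
    exact famWB_signs u1 u2 u3 ht ht' hj hk ej ek hc b1 b2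
  · obtain ⟨j, hj, ej⟩ := nodeAtW' ht' b2 n1
    obtain ⟨k, hk, ek⟩ := nodeAtW' hT c2 n2
    obtain ⟨u1, u2, u3⟩ := C j k
    exact famWC_signs u1 u2 u3 ht ht' hj hk ej ek hc a1 a2

/-! ### The mirror symmetry (far vertex and line) -/

theorem FamWA.mirror {P : ℝ → ℝ → ℝ → ℝ → Prop}
    (hP : ∀ X12 X13 t t', P (X12 - X13) (-X13) t' t → P X12 X13 t t') {j k : Fin 4} {σ σ' : ℝ}
    (h : FamWA P k j (-σ') (-σ)) : FamWA P j k σ σ' := by
  intro t t' ht ht' hj hk hc h1 h3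
  apply hP
  have := h t' t ht' ht hk hj (by linarith) (by
    rw [show (-σ' * cv k t' + -σ * cv j t) ^ 2 + (t' + t) ^ 2 =
      (σ * cv j t + σ' * cv k t') ^ 2 + (t + t') ^ 2 by ring]
    exact h1) (by
    rw [show (-σ' * cv k t' + -σ * cv j t) ^ 2 + (t' + t) ^ 2 =
      (σ * cv j t + σ' * cv k t') ^ 2 + (t + t') ^ 2 by ring]
    exact h3)
  rw [show σ * cv j t - (σ * cv j t + σ' * cv k t') = -σ' * cv k t' by ring,
    show -(σ * cv j t + σ' * cv k t') = -σ' * cv k t' + -σ * cv j t by ring]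
  exact this

theorem FamWB.mirror {P : ℝ → ℝ → ℝ → ℝ → Prop}
    (hP : ∀ X12 X13 t t', P (X12 - X13) (-X13) t' t → P X12 X13 t t') {j k : Fin 4} {σ σ' : ℝ}
    (h : FamWB P j k (-σ) (-σ')) : FamWC P j k σ σ' := by
  intro t t' ht ht' hj hk hc h1 h3
  apply hP
  have := h t' t ht' ht hj (by rwa [add_comm]) (by
    rw [add_comm t' t]
    linarith) (by
    rw [add_comm t' t, show (-σ' * cv k (t + t') - -σ * cv j t') ^ 2 + t ^ 2 =
      (σ' * cv k (t + t') - σ * cv j t') ^ 2 + t ^ 2 by ring]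
    exact h1) (by
    rw [add_comm t' t, show (-σ' * cv k (t + t') - -σ * cv j t') ^ 2 + t ^ 2 =
      (σ' * cv k (t + t') - σ * cv j t') ^ 2 + t ^ 2 by ring]
    exact h3)
  rw [add_comm t' t] at this
  rw [show σ' * cv k (t + t') - σ * cv j t' - σ' * cv k (t + t') = -σ * cv j t' by ring,
    show -(σ' * cv k (t + t')) = -σ' * cv k (t + t') by ring]
  exact this

/-- **The families with the mirror symmetry**: `FamWA` for `j ≤ k` and all `FamWB`. -/
theorem fams_of_mirror {P : ℝ → ℝ → ℝ → ℝ → Prop}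
    (hP : ∀ X12 X13 t t', P (X12 - X13) (-X13) t' t → P X12 X13 t t')
    (A : ∀ j k, j ≤ k → FamWA P j k 1 1 ∧ FamWA P j k 1 (-1) ∧ FamWA P j k (-1) (-1))
    (B : ∀ j k, FamWB P j k 1 1 ∧ FamWB P j k 1 (-1) ∧ FamWB P j k (-1) (-1)) :
    Fams (NodeAt (nodesW false)) P := by
  have n1 : -(-1 : ℝ) = 1 := neg_neg 1
  refine fams_of ?_ B ?_
  · intro j k
    rcases le_total j k with h | h
    · exact A j k h
    · obtain ⟨u1, u2, u3⟩ := A k j h
      refine ⟨FamWA.mirror hP u3, FamWA.mirror hP (by rw [n1]; exact u2),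
        FamWA.mirror hP (by rw [n1]; exact u1)⟩
  · intro j k
    obtain ⟨u1, u2, u3⟩ := B j k
    refine ⟨FamWB.mirror hP u3, FamWB.mirror hP (by rw [n1]; exact u2),
      FamWB.mirror hP (by rw [n1]; exact u1)⟩

/-! ### The line form -/

section

open Pool.Agent.Strip051.LC.Line (NF Families)

/-- The families of the line form for the kernel with the nodes `c1 | f1 | f2 | c3`. -/
theorem line_families {θ : ℝ} {v : ℝ → Fin 5 → ℝ}
    (A : ∀ j k, j ≤ k → FamWA (NF θ (ker (nodesW false) v fun _ _ => 0)) j k 1 1 ∧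
      FamWA (NF θ (ker (nodesW false) v fun _ _ => 0)) j k 1 (-1) ∧
      FamWA (NF θ (ker (nodesW false) v fun _ _ => 0)) j k (-1) (-1))
    (B : ∀ j k, FamWB (NF θ (ker (nodesW false) v fun _ _ => 0)) j k 1 1 ∧
      FamWB (NF θ (ker (nodesW false) v fun _ _ => 0)) j k 1 (-1) ∧
      FamWB (NF θ (ker (nodesW false) v fun _ _ => 0)) j k (-1) (-1)) :
    Families θ (ker (nodesW false) v fun _ _ => 0) (NodeAt (nodesW false)) :=
  fams_of_mirror (P := NF θ (ker (nodesW false) v fun _ _ => 0))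
    (fun _ _ _ _ h => h.mirror (ker_odd (isNodesW false) fun _ => rfl)) A B

end

end Pool.Agent.Strip051.LC
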