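import Pool.Agent.Strip051.LC.Exact.FamG

/-! # The exact weight on the node curves: symmetric explicit statements

`N4` has the curves `c1 | f1 | f2 | c3`, `N5` the curves `c1 | f1 | W | f2 | c3`. The statements are
symmetric with respect to horizontal lines: the level term at the far vertex is replaced by minus
its absolute value, at the near vertex by the smaller one of the two mirror values. -/

namespace Pool.Agent.Strip051.LC

open Pool.Agent.StripNear Pool.Agent.StripSquare Pool.Agent.Strip051.Sweep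
open Pool.Agent.Strip051.LC.Line (NG MoN MoW Mo jn tau phi_comm pot)

/-! ### Four curves -/

/-- The curves `c1 | f1 | f2 | c3`. -/
noncomputable def N4 : Cur 3 (Fin 5) where
  nodes := nodesW false
  cv := cv
  tg := tg
  dm := dm
  adm := TabW
  isNodes := isNodesW false
  low j _ hT h3 := c1_le_cv j hT h3
  high j _ hT h3 := cv_le_c3 j hT h3
  dm_sq _ _ hT h := dm_sq hT h
  node _ _ hT h3 h := nodeAtW' hT h3 h
  val v hv j T hT h := by
    have := kerW_node hv (σ := 1) (Or.inl rfl) hT h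
    rwa [one_mul, one_mul] at this
  cover X T hT h3 h1 h2 := by
    rcases le_total X (f1 T) with h | h
    · exact ⟨0, by simpa [castSucc0] using h1, by simpa [succ0] using h⟩
    · rcases le_total X (f2 T) with h' | h'
      · exact ⟨1, by simpa [castSucc1] using h, by simpa [succ1] using h'⟩
      · exact ⟨2, by simpa [castSucc2] using h', by simpa [succ2] using h2⟩
  seg v hv i X T hT h3 h1 h2 := kerW_pos hv hT h3 h1 h2

/-! ### Five curves -/

/-- The node curves. -/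
noncomputable def cv5 : Fin 5 → ℝ → ℝ
  | 0 => c1
  | 1 => f1
  | 2 => Wc
  | 3 => f2
  | 4 => c3

/-- The heights for which the curve is a node. -/
def dm5 : Fin 5 → ℝ → Prop
  | 0, t => t < 1
  | 1, t => 0 < t ∧ t ≠ h0 ∧ t ^ 2 < 3
  | 2, t => 0 < t ∧ t ≠ h0 ∧ t ^ 2 < 3
  | 3, t => t ^ 2 < 3
  | 4, t => t ^ 2 ≤ 3

@[simp] theorem cv5_zero : cv5 0 = c1 := rfl
@[simp] theorem cv5_one : cv5 1 = f1 := rfl
@[simp] theorem cv5_two : cv5 2 = Wc := rfl
@[simp] theorem cv5_three : cv5 3 = f2 := rfl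
@[simp] theorem cv5_four : cv5 4 = c3 := rfl

/-- The conditions on the node values. -/
structure TabW5 (v : ℝ → Fin 5 → ℝ) : Prop where
  one : ∀ T, 1 ≤ T → v T 0 = 0
  zero1 : v 0 1 = v 0 0
  zero2 : v 0 2 = v 0 0
  mid1 : v h0 1 = v h0 0
  mid2 : v h0 2 = v h0 0
  top : ∀ T i, T ^ 2 = 3 → v T i = 0

/-- The order of the curves. -/
theorem order5 {T : ℝ} (hT : 0 ≤ T) (h3 : T ^ 2 ≤ 3) :
    0 ≤ c1 T ∧ c1 T ≤ f1 T ∧ f1 T ≤ Wc T ∧ Wc T ≤ f2 T ∧ f2 T ≤ c3 T := by
  obtain ⟨h1, h2, h4, h5⟩ := order hT h3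
  unfold f1 f2 at *
  exact ⟨h1, h2, by linarith, by linarith, h5⟩

theorem castS0 : (0 : Fin 4).castSucc = 0 := rfl
theorem castS1 : (1 : Fin 4).castSucc = 1 := rfl
theorem castS2 : (2 : Fin 4).castSucc = 2 := rfl
theorem castS3 : (3 : Fin 4).castSucc = 3 := rfl
theorem succS0 : (0 : Fin 4).succ = 1 := rfl
theorem succS1 : (1 : Fin 4).succ = 2 := rfl
theorem succS2 : (2 : Fin 4).succ = 3 := rfl
theorem succS3 : (3 : Fin 4).succ = 4 := rfl

theorem low5 (j : Fin 5) {T : ℝ} (hT : 0 ≤ T) (h3 : T ^ 2 ≤ 3) : c1 T ≤ cv5 j T := by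
  obtain ⟨h1, h2, h4, h5, h6⟩ := order5 hT h3
  fin_cases j <;> simp <;> linarith

theorem high5 (j : Fin 5) {T : ℝ} (hT : 0 ≤ T) (h3 : T ^ 2 ≤ 3) : cv5 j T ≤ c3 T := by
  obtain ⟨h1, h2, h4, h5, h6⟩ := order5 hT h3
  fin_cases j <;> simp <;> linarith

theorem dm5_sq {j : Fin 5} {T : ℝ} (hT : 0 ≤ T) (h : dm5 j T) : T ^ 2 ≤ 3 := by
  fin_cases j <;> simp only [dm5] at h
  · have : T < 1 := h
    nlinarith
  · exact h.2.2.le
  · exact h.2.2.le
  · exact h.le
  · exact h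

theorem mem_nodes5 {j : Fin 5} {T : ℝ} (h : dm5 j T) (h3 : T ^ 2 < 3) :
    (cv5 j T, j) ∈ nodesW true T := by
  unfold nodesW
  rw [if_neg (by linarith)]
  fin_cases j <;> simp only [dm5] at h <;> simp
  · split_ifs <;> simp_all
  · obtain ⟨k1, k2, k3⟩ := h
    rw [if_neg (by
      push Not
      exact ⟨k1.ne', k2⟩)]
    simp
  · obtain ⟨k1, k2, k3⟩ := h
    rw [if_neg (by
      push Not
      exact ⟨k1.ne', k2⟩)]
    simp
  · split_ifs <;> simp
  · split_ifs <;> simp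

/-- An edge at a node. -/
theorem nodeAt5 {X T : ℝ} (hT : 0 ≤ T) (h3 : X ^ 2 + T ^ 2 ≤ 3)
    (h : NodeAt (nodesW true) X T) : ∃ j : Fin 5, dm5 j T ∧ |X| = cv5 j T := by
  have e : |T| = T := abs_of_nonneg hT
  have hT3 : T ^ 2 ≤ 3 := by nlinarith [sq_nonneg X]
  have key := nodeAtW h
  rw [e] at key
  rcases hT3.eq_or_lt with h1 | h1
  · refine ⟨4, h1.le, ?_⟩
    have : X ^ 2 = 0 := by nlinarith [sq_nonneg X]
    have hX : X = 0 := by simpa using this
    simp [hX, c3_top h1]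
  · rcases key with ⟨k1, k2⟩ | ⟨k1, k2, k3⟩ | ⟨-, k1, k2, k3⟩ | k1 | k1
    · exact ⟨0, k2, k1⟩
    · exact ⟨1, ⟨k2, k3, h1⟩, k1⟩
    · exact ⟨2, ⟨k2, k3, h1⟩, k1⟩
    · exact ⟨3, h1, k1⟩
    · exact ⟨4, h1.le, k1⟩

theorem ker_zero (nodes : ℝ → List (ℝ × Fin 5)) (hN : IsNodes nodes) (v : ℝ → Fin 5 → ℝ)
    (T : ℝ) : ker nodes v (fun _ _ => 0) 0 T = 0 := by
  have := ker_odd (v := v) (B := fun _ _ => 0) hN (fun _ => rfl) 0 T
  rw [neg_zero] at this
  linarith

theorem ker5_node {v : ℝ → Fin 5 → ℝ} (hv : TabW5 v) {j : Fin 5} {T : ℝ} (hT : 0 ≤ T)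
    (h : dm5 j T) : ker (nodesW true) v (fun _ _ => 0) (cv5 j T) T = v T j := by
  have h3 := dm5_sq hT h
  rcases h3.eq_or_lt with h1 | h1
  · have e : cv5 j T = 0 := le_antisymm ((high5 j hT h3).trans (c3_top h1).le)
      ((c1_nonneg T).trans (low5 j hT h3))
    rw [e, ker_zero _ (isNodesW true), hv.top T _ h1]
  · exact ker_node (isNodesW true) hT h1 (mem_nodes5 h h1)

theorem ker5_pos {v : ℝ → Fin 5 → ℝ} (hv : TabW5 v) {i : Fin 4} {X T : ℝ} (hT : 0 ≤ T)
    (h3 : T ^ 2 ≤ 3) (h1 : cv5 i.castSucc T ≤ X) (h2 : X ≤ cv5 i.succ T) :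
    ker (nodesW true) v (fun _ _ => 0) X T = v T i.castSucc + (v T i.succ - v T i.castSucc) *
      ((X - cv5 i.castSucc T) / (cv5 i.succ T - cv5 i.castSucc T)) := by
  have hh := h0_lt_one
  have hp := h0_pos
  have hX : 0 ≤ X := ((c1_nonneg T).trans (low5 _ hT h3)).trans h1
  have hXc : X ≤ c3 T := h2.trans (high5 _ hT h3)
  have hl3 : X ^ 2 + T ^ 2 ≤ 3 := by
    have := c3_sq h3
    nlinarith [c3_nonneg T]
  rcases h3.eq_or_lt with h | h
  · have e : X = 0 := le_antisymm (hXc.trans (c3_top h).le) hX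
    rw [e, ker_zero _ (isNodesW true), hv.top T _ h, hv.top T _ h]
    ring
  have eT : |T| = T := abs_of_nonneg hT
  unfold ker itpO
  rw [eT, if_neg hX.not_gt]
  unfold nodesW
  rw [if_neg h.not_ge]
  by_cases hs : T = 0 ∨ T = h0
  · rw [if_pos hs]
    obtain ⟨s1, s2, s3⟩ := special hs
    have e0 : v T 1 = v T 0 ∧ v T 2 = v T 0 := by
      rcases hs with rfl | rfl
      · exact ⟨hv.zero1, hv.zero2⟩
      · exact ⟨hv.mid1, hv.mid2⟩
    have e1 : f1 T = c1 T := by unfold f1; linarith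
    have q1 : c1 T < f2 T := by unfold f2; linarith
    have q2 : f2 T < c3 T := by unfold f2; linarith
    have hX1 : c1 T ≤ X := (low5 _ hT h3).trans h1
    rw [itpH_skip s1 (by simp [q1, q2]) hX1 hl3]
    fin_cases i
    · simp only [Fin.zero_eta, castS0, succS0, cv5_zero, cv5_one, e1] at h1 h2 ⊢
      have e2 : X = c1 T := le_antisymm h2 h1
      rw [itp_first (by simp only; linarith)]
      simp [e2]
    · simp only [Fin.mk_one, castS1, succS1, cv5_one, cv5_two, e1] at h1 h2 ⊢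
      have e2 : X = c1 T := le_antisymm (by linarith) h1
      rw [itp_first (by simp only; linarith)]
      simp [e2, e0.1]
    · simp only [Fin.reduceFinMk, castS2, succS2, cv5_two, cv5_three] at h1 h2 ⊢
      rw [itp_first h2]
      simp only [e0.2, s2]
    · simp only [Fin.reduceFinMk, castS3, succS3, cv5_three, cv5_four] at h1 h2 ⊢
      rw [itp_skip q1 (by simp [q2]) h1, itp_first h2]
  · rw [if_neg hs]
    push Not at hs
    obtain ⟨s1, s2, s3⟩ := W_between (lt_of_le_of_ne hT (Ne.symm hs.1)) hs.2 h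
    have c10 := c1_nonneg T
    have q1 : c1 T < f1 T := by unfold f1; linarith
    have q2 : f1 T < Wc T := by unfold f1; linarith
    have q3 : Wc T < f2 T := by unfold f2; linarith
    have q4 : f2 T < c3 T := by unfold f2; linarith
    rcases lt_or_ge T 1 with hT1 | hT1
    · rw [if_pos hT1]
      have c1p := c1_pos hT hT1
      have hX1 : c1 T ≤ X := (low5 _ hT h3).trans h1
      simp only [List.cons_append, List.nil_append, if_true]
      rw [itpH_skip c1p (by simp [q1, q2, q3, q4]) hX1 hl3]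
      fin_cases i
      · simp only [Fin.zero_eta, castS0, succS0, cv5_zero, cv5_one] at h1 h2 ⊢
        rw [itp_first h2]
      · simp only [Fin.mk_one, castS1, succS1, cv5_one, cv5_two] at h1 h2 ⊢
        rw [itp_skip q1 (by simp [q2, q3, q4]) h1, itp_first h2]
      · simp only [Fin.reduceFinMk, castS2, succS2, cv5_two, cv5_three] at h1 h2 ⊢
        rw [itp_skip q1 (by simp [q2, q3, q4]) (by simp only; linarith),
          itp_skip q2 (by simp [q3, q4]) h1, itp_first h2]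
      · simp only [Fin.reduceFinMk, castS3, succS3, cv5_three, cv5_four] at h1 h2 ⊢
        rw [itp_skip q1 (by simp [q2, q3, q4]) (by simp only; linarith),
          itp_skip q2 (by simp [q3, q4]) (by simp only; linarith),
          itp_skip q3 (by simp [q4]) h1, itp_first h2]
    · rw [if_neg hT1.not_gt]
      simp only [List.nil_append, List.cons_append, if_true]
      have e0 : c1 T = 0 := c1_zero hT1
      have e1 : v T 0 = 0 := hv.one T hT1
      fin_cases i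
      · simp only [Fin.zero_eta, castS0, succS0, cv5_zero, cv5_one] at h1 h2 ⊢
        unfold itpH
        rw [if_neg hl3.not_gt]
        simp only
        rw [if_pos h2, e0, e1]
        ring
      · simp only [Fin.mk_one, castS1, succS1, cv5_one, cv5_two] at h1 h2 ⊢
        rw [itpH_skip (by simp only; linarith) (by simp [q2, q3, q4]) h1 hl3, itp_first h2]
      · simp only [Fin.reduceFinMk, castS2, succS2, cv5_two, cv5_three] at h1 h2 ⊢
        rw [itpH_skip (by simp only; linarith) (by simp [q2, q3, q4]) (by simp only; linarith)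
          hl3, itp_skip q2 (by simp [q3, q4]) h1, itp_first h2]
      · simp only [Fin.reduceFinMk, castS3, succS3, cv5_three, cv5_four] at h1 h2 ⊢
        rw [itpH_skip (by simp only; linarith) (by simp [q2, q3, q4]) (by simp only; linarith)
          hl3, itp_skip q2 (by simp [q3, q4]) (by simp only; linarith),
          itp_skip q3 (by simp [q4]) h1, itp_first h2]

/-- The curves `c1 | f1 | W | f2 | c3`. -/
noncomputable def N5 : Cur 4 (Fin 5) where
  nodes := nodesW true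
  cv := cv5
  tg := id
  dm := dm5
  adm := TabW5
  isNodes := isNodesW true
  low j _ hT h3 := low5 j hT h3
  high j _ hT h3 := high5 j hT h3
  dm_sq _ _ hT h := dm5_sq hT h
  node _ _ hT h3 h := nodeAt5 hT h3 h
  val v hv j T hT h := ker5_node hv hT h
  cover X T hT h3 h1 h2 := by
    rcases le_total X (f1 T) with h | h
    · exact ⟨0, by simpa [castS0] using h1, by simpa [succS0] using h⟩
    · rcases le_total X (Wc T) with h' | h'
      · exact ⟨1, by simpa [castS1] using h, by simpa [succS1] using h'⟩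
      · rcases le_total X (f2 T) with h'' | h''
        · exact ⟨2, by simpa [castS2] using h', by simpa [succS2] using h''⟩
        · exact ⟨3, by simpa [castS3] using h'', by simpa [succS3] using h2⟩
  seg v hv i X T hT h3 h1 h2 := ker5_pos hv hT h3 h1 h2

/-! ### The modulus inequality -/

theorem Mo_mono {κ s ex ex' l1 l2 l3 W1 W2 W3 : ℝ} (h : Mo κ s ex l1 l2 l3 W1 W2 W3)
    (he : ex ≤ ex') : Mo κ s ex' l1 l2 l3 W1 W2 W3 := by
  obtain ⟨γ, h⟩ := h
  exact ⟨γ, h.trans he⟩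

theorem Mo_rev {κ s ex l1 l2 l3 W1 W2 W3 : ℝ} (h : Mo κ s ex l1 l2 l3 W1 W2 W3) :
    Mo κ s ex l2 l1 l3 W3 W2 W1 := by
  obtain ⟨γ, h⟩ := h
  refine ⟨γ, ?_⟩
  rw [phi_comm (W3 - γ) (W2 - γ), phi_comm (W2 - γ) (W1 - γ), phi_comm (W1 - γ) (W3 - γ)]
  have e : l2 * Line.phi (W2 - γ) (W3 - γ) + l1 * Line.phi (W1 - γ) (W2 - γ) +
      l3 * Line.phi (W3 - γ) (W1 - γ) = l1 * Line.phi (W1 - γ) (W2 - γ) + l2 * Line.phi (W2 - γ) (W3 - γ) +
      l3 * Line.phi (W3 - γ) (W1 - γ) := by ring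
  rw [e]
  exact h

theorem MoN_rev {κ s ex l1 l2 A1 A2 A3 : ℝ} (h : MoN κ s ex l2 l1 (-A2) (-A1) (-A3)) :
    MoN κ s ex l1 l2 A1 A2 A3 := by
  unfold MoN at *
  have := Mo_rev h
  rw [show h0 - l2 - l1 = h0 - l1 - l2 by ring, show l2 + l1 = l1 + l2 by ring] at this
  convert this using 1 <;> ring

theorem MoW_rev {κ s ex l1 l2 l3 A1 A2 A3 : ℝ} (h : MoW κ s ex l2 l1 l3 (-A2) (-A1) (-A3)) :
    MoW κ s ex l1 l2 l3 A1 A2 A3 := by
  unfold MoW at *
  have := Mo_rev h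
  unfold pot at *
  convert this using 1 <;> ring

theorem Mo_rot {κ s ex l1 l2 l3 W1 W2 W3 : ℝ} (h : Mo κ s ex l1 l2 l3 W1 W2 W3) :
    Mo κ s ex l2 l3 l1 W2 W3 W1 := by
  obtain ⟨γ, h⟩ := h
  exact ⟨γ, by linarith⟩

theorem MoW_rot {κ s ex l1 l2 l3 A1 A2 A3 : ℝ} (h : MoW κ s ex l1 l2 l3 A1 A2 A3) :
    MoW κ s ex l2 l3 l1 A2 A3 A1 := by
  unfold MoW at *
  exact Mo_rot h

theorem MoW_rev' {κ s ex l1 l2 l3 A1 A2 A3 : ℝ} (h : MoW κ s ex l1 l3 l2 (-A1) (-A3) (-A2)) :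
    MoW κ s ex l1 l2 l3 A1 A2 A3 := by
  have h1 := MoW_rot h
  have h2 := MoW_rev (A1 := A2) (A2 := A3) (A3 := A1) h1
  exact MoW_rot (MoW_rot h2)

theorem NGV.mono {κ s ex ex' t t' : ℝ} {r : ℝ × ℝ × ℝ} (h : NGV κ s ex t t' r)
    (he : ex ≤ ex') : NGV κ s ex' t t' r := by
  rcases h with ⟨a, b, c, d⟩ | ⟨a, b, c, d⟩ | ⟨a, b, c, d, e⟩ | ⟨a, b, c, d, e⟩ | ⟨a, b, c, d, e⟩ |
    ⟨a, b, c, d, e⟩ | ⟨a, b⟩ | ⟨a, b⟩
  exacts [.pp a b c (Mo_mono d he), .nn a b c (Mo_mono d he), .pnp a b c d (Mo_mono e he),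
    .pnn a b c d (Mo_mono e he), .npp a b c d (Mo_mono e he), .npn a b c d (Mo_mono e he),
    .up a (Mo_mono b he), .dn a (Mo_mono b he)]

/-- The reflection in a horizontal line. -/
theorem NGV.mirror {κ s ex t t' a b c : ℝ} (h : NGV κ s ex t' t (-b, -a, -c)) :
    NGV κ s ex t t' (a, b, c) := by
  have e4 : t' + t = t + t' := add_comm _ _
  rcases h with ⟨hj, h1, h2, a⟩ | ⟨hj, h1, h2, a⟩ | ⟨hj, h1, h2, h3, a⟩ | ⟨hj, h1, h2, h3, a⟩ |
    ⟨hj, h1, h2, h3, a⟩ | ⟨hj, h1, h2, h3, a⟩ | ⟨hj, a⟩ | ⟨hj, a⟩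
  all_goals simp only [e4, neg_neg] at hj a
  · refine .pp (by omega) h2 h1 (MoN_rev ?_)
    simpa using a
  · refine .nn (by omega) h2 h1 (MoN_rev ?_)
    simpa using a
  · refine .npp (by omega) h2 h1 (e4 ▸ h3) (MoN_rev ?_)
    simpa using a
  · refine .npn (by omega) h2 h1 (e4 ▸ h3) (MoN_rev ?_)
    simpa using a
  · refine .pnp (by omega) h2 h1 (e4 ▸ h3) (MoN_rev ?_)
    simpa using a
  · refine .pnn (by omega) h2 h1 (e4 ▸ h3) (MoN_rev ?_)
    simpa using a
  · refine .up (by omega) (MoW_rev ?_)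
    simpa using a
  · refine .dn (by omega) (MoW_rev' ?_)
    simpa using a

/-! ### The symmetric statements -/

/-- The symmetric property at the far vertex. -/
def farS {ι : Type} (κ s : ℝ) (vA vX : ℝ → ι → ℝ) (X12 X13 t t' : ℝ)
    (w : (ℝ → ι → ℝ) → ℝ × ℝ × ℝ) : Prop :=
  NGV κ s (exn X12 X13 t t' - |farXV (w vX)|) t t' (w vA)

/-- The symmetric property at the near vertex. -/
def nearS {ι : Type} (N0 : ℕ) (κ s : ℝ) (vB vX : ℝ → ι → ℝ) (X12 X13 t t' : ℝ)
    (w : (ℝ → ι → ℝ) → ℝ × ℝ × ℝ) : Prop :=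
  NGV κ s (exn X12 X13 t t' + min (nearXV N0 s t t' (w vX))
    (nearXV N0 s t' t (-(w vX).2.1, -(w vX).1, -(w vX).2.2))) t t' (w vB)

theorem exn_mirror (X12 X13 t t' : ℝ) : exn (X12 - X13) (-X13) t' t = exn X12 X13 t t' := by
  unfold exn
  ring

section

variable {ι : Type} {κ s : ℝ} {vA vB vX : ℝ → ι → ℝ} {N0 : ℕ}

theorem farS_sym : Cur.Sym (farS κ s vA vX) := by
  intro X12 X13 t t' w h
  unfold farS Cur.flip at h
  have e : farXV (-(w vX).2.1, -(w vX).1, -(w vX).2.2) = -farXV (w vX) := by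
    unfold farXV
    ring
  rw [exn_mirror, e, abs_neg] at h
  exact h.mirror

theorem nearS_sym : Cur.Sym (nearS N0 κ s vB vX) := by
  intro X12 X13 t t' w h
  unfold nearS Cur.flip at h
  simp only [neg_neg] at h
  rw [exn_mirror, min_comm] at h
  exact h.mirror

/-- **The field `far`** from the symmetric explicit statements. -/
theorem far_sym {n : ℕ} (K : Cur n ι) (hA : K.adm vA) (hX : K.adm vX)
    (A : ∀ j k, j ≤ k → K.AllA (farS κ s vA vX) j k)
    (B : ∀ j k, K.AllB (farS κ s vA vX) j k) :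
    Fams (NodeAt K.nodes) (fun X12 X13 t t' =>
      NG κ s (exn X12 X13 t t' + (tab K.nodes vA vB vX).farX X12 X13 t t')
        (tab K.nodes vA vB vX).A X12 X13 t t') := by
  have hV : K.Congr (farS κ s vA vX) := by
    intro X12 X13 t t' w w' h hw
    unfold farS at *
    rwa [← h vA hA, ← h vX hX]
  have key := Cur.fams_sym hV farS_sym A B
  intro X12 X13 t t' a1 a2 a3 a4 a5 a6 a7 a8 a9 a10
  have h : NGV κ s (exn X12 X13 t t' + (tab K.nodes vA vB vX).farX X12 X13 t t') t t'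
      (K.valK X12 X13 t t' vA) := by
    refine NGV.mono (key X12 X13 t t' a1 a2 a3 a4 a5 a6 a7 a8 a9 a10) ?_
    have : (tab K.nodes vA vB vX).farX X12 X13 t t' = farXV (K.valK X12 X13 t t' vX) := rfl
    rw [this]
    linarith [neg_abs_le (farXV (K.valK X12 X13 t t' vX))]
  rcases h with ⟨a, b, c, d⟩ | ⟨a, b, c, d⟩ | ⟨a, b, c, d, e⟩ | ⟨a, b, c, d, e⟩ | ⟨a, b, c, d, e⟩ |
    ⟨a, b, c, d, e⟩ | ⟨a, b⟩ | ⟨a, b⟩
  exacts [.pp a b c d, .nn a b c d, .pnp a b c d e, .pnn a b c d e, .npp a b c d e,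
    .npn a b c d e, .up a b, .dn a b]

/-- **The field `near`** from the symmetric explicit statements. -/
theorem near_sym {n : ℕ} (K : Cur n ι) (hB : K.adm vB) (hX : K.adm vX)
    (A : ∀ j k, j ≤ k → K.AllA (nearS N0 κ s vB vX) j k)
    (B : ∀ j k, K.AllB (nearS N0 κ s vB vX) j k) :
    Fams (NodeAt K.nodes) (fun X12 X13 t t' =>
      NG κ s (exn X12 X13 t t' + (tab K.nodes vA vB vX).nearX N0 s X12 X13 t t')
        (tab K.nodes vA vB vX).B X12 X13 t t') := by
  have hV : K.Congr (nearS N0 κ s vB vX) := by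
    intro X12 X13 t t' w w' h hw
    unfold nearS at *
    rwa [← h vB hB, ← h vX hX]
  have key := Cur.fams_sym hV nearS_sym A B
  intro X12 X13 t t' a1 a2 a3 a4 a5 a6 a7 a8 a9 a10
  have h : NGV κ s (exn X12 X13 t t' + (tab K.nodes vA vB vX).nearX N0 s X12 X13 t t') t t'
      (K.valK X12 X13 t t' vB) := by
    refine NGV.mono (key X12 X13 t t' a1 a2 a3 a4 a5 a6 a7 a8 a9 a10) ?_
    have : (tab K.nodes vA vB vX).nearX N0 s X12 X13 t t' =
        nearXV N0 s t t' (K.valK X12 X13 t t' vX) := rfl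
    rw [this]
    linarith [min_le_left (nearXV N0 s t t' (K.valK X12 X13 t t' vX))
      (nearXV N0 s t' t (-(K.valK X12 X13 t t' vX).2.1, -(K.valK X12 X13 t t' vX).1,
        -(K.valK X12 X13 t t' vX).2.2))]
  rcases h with ⟨a, b, c, d⟩ | ⟨a, b, c, d⟩ | ⟨a, b, c, d, e⟩ | ⟨a, b, c, d, e⟩ | ⟨a, b, c, d, e⟩ |
    ⟨a, b, c, d, e⟩ | ⟨a, b⟩ | ⟨a, b⟩
  exacts [.pp a b c d, .nn a b c d, .pnp a b c d e, .pnn a b c d e, .npp a b c d e,
    .npn a b c d e, .up a b, .dn a b]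

end

end Pool.Agent.Strip051.LC
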