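import Pool.Agent.Strip051.LC.Exact.Hull

/-! # The modified edge function together with the flips

First the edge function is modified at the floor (`star`), then it is extended to the long edges by
flips (`Ext`).  The conditions `StarRows` give the inequality for all small triangles of the strip:
if the centre of the circle lies below the floor then the middle vertex is above the line through
the other two and all pairs are neighbours at the floor. -/

namespace Pool.Agent.Strip051.LC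

open Pool.Agent.StripNear Pool.Agent.StripSquare Pool.Agent.Strip051.Sweep

/-! ### Centres below the floor -/

/-- Two points on a circle with the centre below the floor. -/
theorem low_x_ne {a b o : Pt} {R : ℝ} (ha : 0 ≤ a.2) (hb : 0 ≤ b.2) (hab : 1 ≤ ds a b)
    (h1 : ds a o = R) (h2 : ds b o = R) (ho : o.2 < 0) : a.1 ≠ b.1 := by
  intro he
  have e : (a.2 - o.2) ^ 2 = (b.2 - o.2) ^ 2 := by
    unfold ds at h1 h2
    rw [he] at h1
    linarith
  have e2 : a.2 - o.2 = b.2 - o.2 := by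
    rcases sq_eq_sq_iff_eq_or_eq_neg.1 e with h | h
    · exact h
    · linarith
  have e3 : a.2 = b.2 := by linarith
  unfold ds at hab
  rw [he, e3] at hab
  norm_num at hab

/-- They are neighbours at the floor. -/
theorem low_FF {a b o : Pt} {R : ℝ} (ha : 0 ≤ a.2) (hb : 0 ≤ b.2) (hab : 1 ≤ ds a b)
    (h1 : ds a o = R) (h2 : ds b o = R) (hR : R ≤ 1) (ho : o.2 < 0) (hlt : a.1 < b.1) :
    FF a b := by
  have hD : 0 < b.1 - a.1 := by linarith
  refine ⟨hlt, ha, hb, hab, (a.1 + b.1) / 2 + (b.2 - a.2) * ((a.2 + b.2) / 2) / (b.1 - a.1), ?_, ?_⟩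
  · field_simp
    ring
  · -- the distance of the centre from the midpoint
    have k1 : (b.1 - a.1) * (o.1 - (a.1 + b.1) / 2) = (b.2 - a.2) * ((a.2 + b.2) / 2 - o.2) := by
      unfold ds at h1 h2
      linarith
    set M := (a.2 + b.2) / 2 with hM
    have hM0 : 0 ≤ M := by rw [hM]; linarith
    have e1 : (b.2 - a.2) * M / (b.1 - a.1) = M / (M - o.2) * (o.1 - (a.1 + b.1) / 2) := by
      have hMo : 0 < M - o.2 := by linarith
      field_simp
      linear_combination (-2 * M) * k1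
    have hMo : 0 < M - o.2 := by linarith
    have q1 : M / (M - o.2) ≤ 1 := by
      rw [div_le_one hMo]
      linarith
    have q0 : 0 ≤ M / (M - o.2) := by positivity
    set lam := M / (M - o.2) with hlam
    set x := o.1 - (a.1 + b.1) / 2 with hx
    rw [e1]
    have e2 : (a.1 - ((a.1 + b.1) / 2 + lam * x)) ^ 2 + a.2 ^ 2 =
        (a.1 - b.1) ^ 2 / 4 + (b.1 - a.1) * (lam * x) + (lam * x) ^ 2 + a.2 ^ 2 := by
      ring
    have e3 : (b.1 - a.1) * (lam * x) = (b.2 - a.2) * M := by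
      have : (b.1 - a.1) * (lam * x) = lam * ((b.1 - a.1) * x) := by ring
      rw [this, k1, hlam]
      field_simp
    have e4 : R = (a.1 - b.1) ^ 2 / 4 + (b.2 - a.2) * (M - o.2) + x ^ 2 + (a.2 - o.2) ^ 2 := by
      rw [← k1, ← h1, hx]
      unfold ds
      ring
    rw [e2, e3]
    have e5 : (b.2 - a.2) * M + a.2 ^ 2 = (b.2 - a.2) ^ 2 / 4 + M ^ 2 := by
      rw [hM]
      ring
    have e6 : (b.2 - a.2) * (M - o.2) + (a.2 - o.2) ^ 2 = (b.2 - a.2) ^ 2 / 4 + (M - o.2) ^ 2 := by
      rw [hM]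
      ring
    have l1 : (lam * x) ^ 2 ≤ x ^ 2 := by
      rw [mul_pow]
      have : lam ^ 2 ≤ 1 := by nlinarith
      nlinarith [sq_nonneg x]
    have l2 : M ^ 2 ≤ (M - o.2) ^ 2 := by nlinarith
    linarith

/-- The middle point is above the line through the other two. -/
theorem low_upper {a b c o : Pt} {R : ℝ} (hc : 0 ≤ c.2)
    (hac : 1 ≤ ds a c) (hcb : 1 ≤ ds c b) (hab : 1 ≤ ds a b) (ha : 0 ≤ a.2) (hb : 0 ≤ b.2)
    (h1 : ds a o = R) (h2 : ds b o = R) (h3 : ds c o = R) (ho : o.2 < 0)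
    (k1 : a.1 ≤ c.1) (k2 : c.1 ≤ b.1) (hcr : 0 ≤ cr a c b) : False := by
  have n1 := low_x_ne ha hc hac h1 h3 ho
  have n2 := low_x_ne hc hb hcb h3 h2 ho
  have l1 : a.1 < c.1 := lt_of_le_of_ne k1 n1
  have l2 : c.1 < b.1 := lt_of_le_of_ne k2 n2
  set u := b.1 - c.1 with hu
  set v := c.1 - a.1 with hv
  have hu0 : 0 < u := by rw [hu]; linarith
  have hv0 : 0 < v := by rw [hv]; linarith
  -- the height of the chord
  have g1 : (u + v) * (c.2 - o.2) ≤ u * (a.2 - o.2) + v * (b.2 - o.2) := by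
    have : cr a c b = u * (a.2 - o.2) + v * (b.2 - o.2) - (u + v) * (c.2 - o.2) := by
      rw [hu, hv]
      unfold cr
      ring
    linarith
  have g0 : 0 < (u + v) * (c.2 - o.2) := mul_pos (by linarith) (by linarith)
  have g2 : ((u + v) * (c.2 - o.2)) ^ 2 ≤ (u * (a.2 - o.2) + v * (b.2 - o.2)) ^ 2 :=
    pow_le_pow_left₀ g0.le g1 2
  have g3 : (u + v) * (c.1 - o.1) = u * (a.1 - o.1) + v * (b.1 - o.1) := by
    rw [hu, hv]
    ring
  have g4 : (u + v) ^ 2 * R = ((u + v) * (c.1 - o.1)) ^ 2 + ((u + v) * (c.2 - o.2)) ^ 2 := by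
    rw [← h3]
    unfold ds
    ring
  have g5 : (u * (a.1 - o.1) + v * (b.1 - o.1)) ^ 2 + (u * (a.2 - o.2) + v * (b.2 - o.2)) ^ 2 =
      (u + v) ^ 2 * R - u * v * ds a b := by
    have e1 : (u * (a.1 - o.1) + v * (b.1 - o.1)) ^ 2 + (u * (a.2 - o.2) + v * (b.2 - o.2)) ^ 2 =
        u ^ 2 * ds a o + v ^ 2 * ds b o + u * v * (ds a o + ds b o - ds a b) := by
      unfold ds
      ring
    rw [e1, h1, h2]
    ring
  have g6 : 0 < u * v * ds a b := by positivity
  rw [g3] at g4
  linarith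

/-! ### The circumcentre -/

theorem cel_center {p q r : Pt} (h : Cel p q r) : ∃ (o : Pt) (R : ℝ), Cell p q r o R := by
  have hk : 0 < cr p q r := by
    have h1 := h.rad
    have h2 : 1 ≤ ds p q * ds q r := by nlinarith [h.pq, h.qr]
    have h3 : 1 ≤ ds p q * ds q r * ds p r := by nlinarith [h.pr]
    have h4 : cr p q r ≠ 0 := by
      intro h5
      rw [h5] at h1
      norm_num at h1
      linarith
    exact lt_of_le_of_ne h.cr0 (Ne.symm h4)
  set k := cr p q r with hkd
  have kdef : (q.1 - p.1) * (r.2 - p.2) - (q.2 - p.2) * (r.1 - p.1) = k := by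
    rw [hkd]
    unfold cr
    ring
  set X := (ds p q * (r.2 - p.2) - ds p r * (q.2 - p.2)) / (2 * k) with hX
  set Y := (-(ds p q * (r.1 - p.1)) + ds p r * (q.1 - p.1)) / (2 * k) with hY
  have eX : 2 * k * X = ds p q * (r.2 - p.2) - ds p r * (q.2 - p.2) := by
    rw [hX]
    field_simp
  have eY : 2 * k * Y = -(ds p q * (r.1 - p.1)) + ds p r * (q.1 - p.1) := by
    rw [hY]
    field_simp
  have a1 : 2 * ((q.1 - p.1) * X + (q.2 - p.2) * Y) = ds p q := by
    have : k * (2 * ((q.1 - p.1) * X + (q.2 - p.2) * Y)) = k * ds p q := by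
      rw [← kdef]
      rw [← kdef] at eX eY
      linear_combination (q.1 - p.1) * eX + (q.2 - p.2) * eY
    exact mul_left_cancel₀ hk.ne' this
  have a2 : 2 * ((r.1 - p.1) * X + (r.2 - p.2) * Y) = ds p r := by
    have : k * (2 * ((r.1 - p.1) * X + (r.2 - p.2) * Y)) = k * ds p r := by
      rw [← kdef]
      rw [← kdef] at eX eY
      linear_combination (r.1 - p.1) * eX + (r.2 - p.2) * eY
    exact mul_left_cancel₀ hk.ne' this
  have hpo : ds p (p.1 + X, p.2 + Y) = X ^ 2 + Y ^ 2 := by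
    unfold ds
    ring
  refine ⟨(p.1 + X, p.2 + Y), X ^ 2 + Y ^ 2, h.cr0, h.pq, h.qr, h.pr, hpo, ?_, ?_, ?_⟩
  · have : ds q (p.1 + X, p.2 + Y) = X ^ 2 + Y ^ 2 + ds p q -
        2 * ((q.1 - p.1) * X + (q.2 - p.2) * Y) := by
      unfold ds
      ring
    rw [this, a1]
    ring
  · have : ds r (p.1 + X, p.2 + Y) = X ^ 2 + Y ^ 2 + ds p r -
        2 * ((r.1 - p.1) * X + (r.2 - p.2) * Y) := by
      unfold ds
      ring
    rw [this, a2]
    ring
  · have e1 : 4 * k ^ 2 * (X ^ 2 + Y ^ 2) = ds p q * ds q r * ds p r := by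
      have : 4 * k ^ 2 * (X ^ 2 + Y ^ 2) = (2 * k * X) ^ 2 + (2 * k * Y) ^ 2 := by ring
      rw [this, eX, eY]
      have hqr : ds q r = ds p q + ds p r -
          2 * ((q.1 - p.1) * (r.1 - p.1) + (q.2 - p.2) * (r.2 - p.2)) := by
        unfold ds
        ring
      have hpq : ds p q = (q.1 - p.1) ^ 2 + (q.2 - p.2) ^ 2 := by
        unfold ds
        ring
      have hpr : ds p r = (r.1 - p.1) ^ 2 + (r.2 - p.2) ^ 2 := by
        unfold ds
        ring
      rw [hqr]
      have c1 : (ds p q * (r.2 - p.2) - ds p r * (q.2 - p.2)) ^ 2 +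
          (-(ds p q * (r.1 - p.1)) + ds p r * (q.1 - p.1)) ^ 2 =
          ds p q ^ 2 * ((r.1 - p.1) ^ 2 + (r.2 - p.2) ^ 2) +
          ds p r ^ 2 * ((q.1 - p.1) ^ 2 + (q.2 - p.2) ^ 2) -
          2 * ds p q * ds p r * ((q.1 - p.1) * (r.1 - p.1) + (q.2 - p.2) * (r.2 - p.2)) := by
        ring
      rw [c1, ← hpq, ← hpr]
      ring
    have h1 := h.rad
    rw [← hkd] at h1
    rw [← e1] at h1
    have h2 : 0 < 4 * k ^ 2 := by positivity
    by_contra hcon
    push Not at hcon
    nlinarith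

/-- A small triangle has circumradius at most one. -/
theorem cel_of_small {p q r : Pt} (h0 : 0 ≤ cr p q r) (h1 : 1 ≤ ds p q) (h2 : 1 ≤ ds q r)
    (h3 : 1 ≤ ds p r) (h4 : ds p q ≤ 3) (h5 : ds q r ≤ 3) (h6 : ds p r ≤ 3) : Cel p q r := by
  refine ⟨h0, h1, h2, h3, ?_⟩
  have e : 4 * cr p q r ^ 2 = 2 * (ds p q * ds q r + ds q r * ds p r + ds p r * ds p q) -
      (ds p q ^ 2 + ds q r ^ 2 + ds p r ^ 2) := by
    unfold cr ds
    ring
  rw [e]
  set a := ds p q
  set b := ds q r
  set c := ds p r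
  have a0 : 0 ≤ a - 1 := by linarith
  have a1 : 0 ≤ 3 - a := by linarith
  have b0 : 0 ≤ b - 1 := by linarith
  have b1 : 0 ≤ 3 - b := by linarith
  have c0 : 0 ≤ c - 1 := by linarith
  have c1 : 0 ≤ 3 - c := by linarith
  have f11 : 0 ≤ (c - 1) * (3 - c) + (3 - c) := by positivity
  have f13 : 0 ≤ (c - 1) * (3 - c) + (c - 1) := by positivity
  have f33 : 0 ≤ (c - 1) * (3 - c) + (3 - c) := by positivity
  have f1 : 0 ≤ (b - 1) * (3 - b) + (3 - b) / 2 * ((c - 1) * (3 - c) + (3 - c)) +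
      (b - 1) / 2 * ((c - 1) * (3 - c) + (c - 1)) := by positivity
  have f3 : 0 ≤ (b - 1) * (3 - b) + (3 - b) / 2 * ((c - 1) * (3 - c) + (c - 1)) +
      (b - 1) / 2 * ((c - 1) * (3 - c) + (3 - c)) := by positivity
  have f : 0 ≤ (a - 1) * (3 - a) + (3 - a) / 2 * ((b - 1) * (3 - b) +
      (3 - b) / 2 * ((c - 1) * (3 - c) + (3 - c)) + (b - 1) / 2 * ((c - 1) * (3 - c) + (c - 1))) +
      (a - 1) / 2 * ((b - 1) * (3 - b) + (3 - b) / 2 * ((c - 1) * (3 - c) + (c - 1)) +
      (b - 1) / 2 * ((c - 1) * (3 - c) + (3 - c))) := by positivity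
  nlinarith [f]

/-! ### One triangle -/

/-- The row of one triangle with the centre above the floor. -/
theorem star_row {w : ℝ} {F : Pt → Pt → ℝ} {D : Data} {s μ : ℝ}
    (hanti : ∀ a b, F b a = -F a b) (hR : StarRows D s μ)
    (hW : ∀ a b, wf w F a b = WF D s μ a b)
    (hS : ∀ p q r, F p q + F q r + F r p - 1 / 2 = SF D s μ p q r)
    {p q r o : Pt} {R : ℝ} (hp : 0 ≤ p.2) (hq : 0 ≤ q.2) (hr : 0 ≤ r.2) (ho : 0 ≤ o.2)
    (hc : Cell p q r o R) (hT : 1 / 2 ≤ F p q + F q r + F r p) :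
    1 / 2 ≤ F p q + F q r + F r p + corr w F p q r := by
  classical
  -- `p` is the leftmost vertex
  have left : ∀ p q r, 0 ≤ p.2 → 0 ≤ q.2 → 0 ≤ r.2 → Cell p q r o R → p.1 ≤ q.1 →
      p.1 ≤ r.1 → 1 / 2 ≤ F p q + F q r + F r p →
      1 / 2 ≤ F p q + F q r + F r p + corr w F p q r := by
    intro p q r hp hq hr hc h1 h2 hT
    have hSe := hS p q r
    have wmle : ∀ a b, FF a b → wm w F a b ≤ WF D s μ a b := by
      intro a b h
      rw [wm_of h, ← hW]
      exact min_le_right _ _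
    have wm0 : ∀ a b, wm w F a b ≤ 0 := fun a b => wm_nonpos a b
    have wmeq : ∀ a b, FF a b → wm w F a b = 0 ∨ wm w F a b = WF D s μ a b := by
      intro a b h
      rw [wm_of h, ← hW]
      rcases min_choice 0 (w * (b.1 - a.1) - 1 / 2 - F a b) with h' | h'
      · exact Or.inl h'
      · exact Or.inr h'
    have z1 : ∀ a b : Pt, a.1 ≤ b.1 → wm w F b a = 0 := fun a b h =>
      wm_not (fun h' => by have := h'.lt; linarith)
    rcases le_total q.1 r.1 with h3 | h3
    · -- `q` is below `p r`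
      have e : corr w F p q r = wm w F p q + wm w F q r - wm w F p r := by
        unfold corr
        rw [z1 p q h1, z1 q r h3, z1 p r h2]
        ring
      rw [e]
      have t0 := wm0 p r
      have bonus : ∀ x : ℝ, (0 ≤ x ∨ (FF p r ∧ 0 ≤ x - WF D s μ p r)) → 0 ≤ x - wm w F p r := by
        intro x hx
        rcases hx with hx | ⟨h4, hx⟩
        · linarith
        · have := wmle p r h4
          linarith
      by_cases f1 : FF p q
      · by_cases f2 : FF q r
        · rcases wmeq p q f1 with w1 | w1 <;> rcases wmeq q r f2 with w2 | w2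
          · rw [w1, w2]
            linarith
          · rw [w1, w2]
            have := bonus (SF D s μ p q r + WF D s μ q r) (by
              rcases hR.lowerR p q r o R hc ho hp h1 h3 f2 with h4 | ⟨h4, h5⟩
              · exact Or.inl (h4 μ (Or.inr rfl))
              · exact Or.inr ⟨h4, h5 μ (Or.inr rfl)⟩)
            linarith
          · rw [w1, w2]
            have := bonus (SF D s μ p q r + WF D s μ p q) (by
              rcases hR.lowerL p q r o R hc ho hr h1 h3 f1 with h4 | ⟨h4, h5⟩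
              · exact Or.inl (h4 μ (Or.inr rfl))
              · exact Or.inr ⟨h4, h5 μ (Or.inr rfl)⟩)
            linarith
          · rw [w1, w2]
            have := bonus (SF D s μ p q r + WF D s μ p q + WF D s μ q r) (by
              rcases hR.lower2 p q r o R hc ho h1 h3 f1 f2 with h4 | ⟨h4, h5⟩
              · exact Or.inl (h4 μ (Or.inr rfl))
              · exact Or.inr ⟨h4, h5 μ (Or.inr rfl)⟩)
            linarith
        · rw [wm_not f2]
          rcases wmeq p q f1 with w1 | w1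
          · rw [w1]
            linarith
          · rw [w1]
            have := bonus (SF D s μ p q r + WF D s μ p q) (by
              rcases hR.lowerL p q r o R hc ho hr h1 h3 f1 with h4 | ⟨h4, h5⟩
              · exact Or.inl (h4 μ (Or.inr rfl))
              · exact Or.inr ⟨h4, h5 μ (Or.inr rfl)⟩)
            linarith
      · rw [wm_not f1]
        by_cases f2 : FF q r
        · rcases wmeq q r f2 with w2 | w2
          · rw [w2]
            linarith
          · rw [w2]
            have := bonus (SF D s μ p q r + WF D s μ q r) (by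
              rcases hR.lowerR p q r o R hc ho hp h1 h3 f2 with h4 | ⟨h4, h5⟩
              · exact Or.inl (h4 μ (Or.inr rfl))
              · exact Or.inr ⟨h4, h5 μ (Or.inr rfl)⟩)
            linarith
        · rw [wm_not f2]
          linarith
    · -- `r` is above `p q`
      have e : corr w F p q r = wm w F p q - wm w F r q - wm w F p r := by
        unfold corr
        rw [z1 p q h1, z1 r q h3, z1 p r h2]
        ring
      rw [e]
      have t1 := wm0 r q
      have t2 := wm0 p r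
      by_cases f1 : FF p q
      · by_cases f2 : FF p r ∧ FF r q
        · have := row_auto (w := w) hanti f1 f2.1 f2.2 hT
          rw [e] at this
          exact this
        · rcases wmeq p q f1 with w1 | w1
          · rw [w1]
            linarith
          · rw [w1]
            rcases hR.upper p q r o R hc ho hr h2 h3 f1 f2 with h4 | ⟨h4, h5⟩ | ⟨h4, h5⟩
            · have := h4 μ (Or.inr rfl)
              linarith
            · have := h5 μ (Or.inr rfl)
              have := wmle p r h4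
              linarith
            · have := h5 μ (Or.inr rfl)
              have := wmle r q h4
              linarith
      · rw [wm_not f1]
        linarith
  have rotc : ∀ p q r, corr w F q r p = corr w F p q r := by
    intro p q r
    unfold corr
    ring
  rcases le_total p.1 q.1 with h1 | h1
  · rcases le_total p.1 r.1 with h2 | h2
    · exact left p q r hp hq hr hc h1 h2 hT
    · have := left r p q hr hp hq hc.rot.rot h2 (h2.trans h1) (by linarith)
      rw [← rotc r p q] at this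
      linarith
  · rcases le_total q.1 r.1 with h2 | h2
    · have := left q r p hq hr hp hc.rot h2 h1 (by linarith)
      rw [rotc p q r] at this
      linarith
    · have := left r p q hr hp hq hc.rot.rot (h2.trans h1) h2 (by linarith)
      rw [← rotc r p q] at this
      linarith

/-- The row of one triangle with the centre below the floor. -/
theorem star_row_low {w : ℝ} {F : Pt → Pt → ℝ} (hanti : ∀ a b, F b a = -F a b)
    {p q r o : Pt} {R : ℝ} (hp : 0 ≤ p.2) (hq : 0 ≤ q.2) (hr : 0 ≤ r.2) (ho : o.2 < 0)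
    (hc : Cell p q r o R) (hT : 1 / 2 ≤ F p q + F q r + F r p) :
    1 / 2 ≤ F p q + F q r + F r p + corr w F p q r := by
  have left : ∀ p q r, 0 ≤ p.2 → 0 ≤ q.2 → 0 ≤ r.2 → Cell p q r o R → p.1 ≤ q.1 →
      p.1 ≤ r.1 → 1 / 2 ≤ F p q + F q r + F r p →
      1 / 2 ≤ F p q + F q r + F r p + corr w F p q r := by
    intro p q r hp hq hr hc h1 h2 hT
    rcases le_total q.1 r.1 with h3 | h3
    · exact (low_upper hq hc.pq hc.qr hc.pr hp hr hc.po hc.ro hc.qo ho h1 h3 hc.cr).elim
    · have d1 : 1 ≤ ds r q := by rw [ds_comm]; exact hc.qr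
      have l1 : p.1 < q.1 := lt_of_le_of_ne h1 (low_x_ne hp hq hc.pq hc.po hc.qo ho)
      have l2 : p.1 < r.1 := lt_of_le_of_ne h2 (low_x_ne hp hr hc.pr hc.po hc.ro ho)
      have l3 : r.1 < q.1 := lt_of_le_of_ne h3 (low_x_ne hr hq d1 hc.ro hc.qo ho)
      exact row_auto hanti (low_FF hp hq hc.pq hc.po hc.qo hc.R1 ho l1)
        (low_FF hp hr hc.pr hc.po hc.ro hc.R1 ho l2)
        (low_FF hr hq d1 hc.ro hc.qo hc.R1 ho l3) hT
  have rotc : ∀ p q r, corr w F q r p = corr w F p q r := by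
    intro p q r
    unfold corr
    ring
  rcases le_total p.1 q.1 with h1 | h1
  · rcases le_total p.1 r.1 with h2 | h2
    · exact left p q r hp hq hr hc h1 h2 hT
    · have := left r p q hr hp hq hc.rot.rot h2 (h2.trans h1) (by linarith)
      rw [← rotc r p q] at this
      linarith
  · rcases le_total q.1 r.1 with h2 | h2
    · have := left q r p hq hr hp hc.rot h2 h1 (by linarith)
      rw [rotc p q r] at this
      linarith
    · have := left r p q hr hp hq hc.rot.rot (h2.trans h1) h2 (by linarith)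
      rw [← rotc r p q] at this
      linarith

/-- **The row of every small triangle** with vertices above the floor. -/
theorem star_row_small {w : ℝ} {F : Pt → Pt → ℝ} {D : Data} {s μ : ℝ}
    (hanti : ∀ a b, F b a = -F a b) (hR : StarRows D s μ)
    (hW : ∀ a b, wf w F a b = WF D s μ a b)
    (hS : ∀ p q r, F p q + F q r + F r p - 1 / 2 = SF D s μ p q r)
    {p q r : Pt} (hp : 0 ≤ p.2) (hq : 0 ≤ q.2) (hr : 0 ≤ r.2)
    (hc : Cel p q r) (hT : 1 / 2 ≤ F p q + F q r + F r p) :
    1 / 2 ≤ F p q + F q r + F r p + corr w F p q r := by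
  obtain ⟨o, R, h⟩ := cel_center hc
  rcases le_or_gt 0 o.2 with ho | ho
  · exact star_row hanti hR hW hS hp hq hr ho h hT
  · exact star_row_low hanti hp hq hr ho h hT

/-- The modified sum around a triangle, from its row and the row of its mirror image. -/
theorem star_tri {H w : ℝ} {F : Pt → Pt → ℝ} (hH : 2 < H) (hanti : ∀ a b, F b a = -F a b)
    (hmir : ∀ a b, F (mir H a) (mir H b) = F b a) {p q r : Pt}
    (row : 1 / 2 ≤ F p q + F q r + F r p + corr w F p q r)
    (row' : 1 / 2 ≤ F (mir H r) (mir H q) + F (mir H q) (mir H p) + F (mir H p) (mir H r) +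
      corr w F (mir H r) (mir H q) (mir H p)) :
    1 / 2 ≤ star H w F p q + star H w F q r + star H w F r p := by
  -- the triangle is not at the ceiling
  have main : ∀ p q r : Pt, 1 / 2 ≤ F p q + F q r + F r p + corr w F p q r →
      (¬FF (mir H q) (mir H p) ∧ ¬FF (mir H p) (mir H q)) →
      (¬FF (mir H r) (mir H q) ∧ ¬FF (mir H q) (mir H r)) →
      (¬FF (mir H p) (mir H r) ∧ ¬FF (mir H r) (mir H p)) →
      1 / 2 ≤ star H w F p q + star H w F q r + star H w F r p := by
    intro p q r row n1 n2 n3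
    rw [star_floor hanti n1.1 n1.2, star_floor hanti n2.1 n2.2, star_floor hanti n3.1 n3.2]
    unfold corr at row
    linarith
  by_cases hc : (¬FF (mir H q) (mir H p) ∧ ¬FF (mir H p) (mir H q)) ∧
      (¬FF (mir H r) (mir H q) ∧ ¬FF (mir H q) (mir H r)) ∧
      (¬FF (mir H p) (mir H r) ∧ ¬FF (mir H r) (mir H p))
  · exact main p q r row hc.1 hc.2.1 hc.2.2
  · have hno : ∀ a b : Pt, ¬FF a b ∨ ¬(a = p ∨ a = q ∨ a = r) ∨ ¬(b = p ∨ b = q ∨ b = r) ∨
        a = b := by
      intro a b
      by_contra hcon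
      push Not at hcon
      obtain ⟨h1, h2, h3, h4⟩ := hcon
      apply hc
      have key : ∀ c d : Pt, (c = a ∨ c = b ∨ d = a ∨ d = b) → ¬FF (mir H c) (mir H d) :=
        fun c d hs h => h1.no_top hH h hs
      refine ⟨⟨key _ _ ?_, key _ _ ?_⟩, ⟨key _ _ ?_, key _ _ ?_⟩, ⟨key _ _ ?_, key _ _ ?_⟩⟩ <;>
        rcases h2 with rfl | rfl | rfl <;> rcases h3 with rfl | rfl | rfl <;> tauto
    have nf : ∀ a b : Pt, (a = p ∨ a = q ∨ a = r) → (b = p ∨ b = q ∨ b = r) → ¬FF a b := by
      intro a b h2 h3 h1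
      rcases hno a b with h | h | h | h
      · exact h h1
      · exact h h2
      · exact h h3
      · rw [h] at h1
        exact lt_irrefl _ h1.lt
    have := main (mir H r) (mir H q) (mir H p) row'
      ⟨by rw [mir_mir', mir_mir']; exact nf _ _ (by tauto) (by tauto),
        by rw [mir_mir', mir_mir']; exact nf _ _ (by tauto) (by tauto)⟩
      ⟨by rw [mir_mir', mir_mir']; exact nf _ _ (by tauto) (by tauto),
        by rw [mir_mir', mir_mir']; exact nf _ _ (by tauto) (by tauto)⟩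
      ⟨by rw [mir_mir', mir_mir']; exact nf _ _ (by tauto) (by tauto),
        by rw [mir_mir', mir_mir']; exact nf _ _ (by tauto) (by tauto)⟩
    rw [star_mirror hH hmir, star_mirror hH hmir, star_mirror hH hmir] at this
    linarith

/-! ### The margin -/

/-- `star` is smaller than `F` by at most `ω`. -/
theorem star_ge {H w ω : ℝ} {F : Pt → Pt → ℝ} (hanti : ∀ a b, F b a = -F a b)
    (hmir : ∀ a b, F (mir H a) (mir H b) = F b a) (hω : 0 ≤ ω) {a b : Pt}
    (h1 : FF a b → -ω ≤ wf w F a b)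
    (h2 : FF (mir H b) (mir H a) → -ω ≤ wf w F (mir H b) (mir H a)) :
    F a b - ω ≤ star H w F a b := by
  have e := hanti a b
  unfold star
  split_ifs with c1 c2 c3 c4
  · have := h1 c1
    unfold wf at this
    exact le_min (by linarith) (by linarith)
  · have := min_le_left (F b a) (w * (a.1 - b.1) - 1 / 2)
    linarith
  · have k := h2 c3
    unfold wf at k
    rw [hmir] at k
    have e1 : (mir H a).1 = a.1 := rfl
    have e2 : (mir H b).1 = b.1 := rfl
    rw [e1, e2] at k
    exact le_min (by linarith) (by linarith)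
  · have := min_le_left (F b a) (w * (b.1 - a.1) - 1 / 2)
    linarith
  · linarith

/-- `star` does not change a pair with nonnegative slack. -/
theorem star_eq {H w : ℝ} {F : Pt → Pt → ℝ} (hanti : ∀ a b, F b a = -F a b)
    (hmir : ∀ a b, F (mir H a) (mir H b) = F b a) {a b : Pt}
    (h1 : FF a b → 0 ≤ wf w F a b) (h1' : FF b a → 0 ≤ wf w F b a)
    (h2 : FF (mir H b) (mir H a) → 0 ≤ wf w F (mir H b) (mir H a))
    (h2' : FF (mir H a) (mir H b) → 0 ≤ wf w F (mir H a) (mir H b)) :
    star H w F a b = F a b := by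
  have k1 := star_ge (w := w) hanti hmir le_rfl (fun h => by linarith [h1 h])
    (fun h => by linarith [h2 h])
  have k2 := star_ge (w := w) hanti hmir le_rfl (a := b) (b := a) (fun h => by linarith [h1' h])
    (fun h => by linarith [h2' h])
  rw [star_anti hanti, hanti a b] at k2
  linarith

/-! ### The combination -/

/-- The hypotheses for the modified edge function: `ω` bounds the defect of the floor inequality
for the short pairs. -/
structure ExtStar (H w ω : ℝ) (F : Pt → Pt → ℝ) (δ : Pt → Pt → ℝ) : Prop where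
  height : 2 < H
  anti : ∀ a b, F b a = -F a b
  mirror : ∀ a b, F (mir H a) (mir H b) = F b a
  rows : ∀ p q r, In H p → In H q → In H r → Cel p q r → ds p q ≤ 3 → ds q r ≤ 3 →
    ds p r ≤ 3 → 1 / 2 ≤ F p q + F q r + F r p + corr w F p q r
  ω0 : 0 ≤ ω
  short : ∀ a b, In H a → In H b → FF a b → ds a b ≤ 3 → -ω ≤ wf w F a b
  long : ∀ a b, In H a → In H b → FF a b → 3 < ds a b → δ a b ≤ wf w F a b
  quad : ∀ p q r r', In H p → In H q → In H r → In H r' → Cel p q r → Cel q p r' →
    3 < ds p q → ds q r ≤ 3 → ds p r ≤ 3 → ds q r' ≤ 3 → ds p r' ≤ 3 → 3 < ds r r' →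
    1 + 4 * ω ≤ F p r' + F r' q + F q r + F r p
  one : ∀ p q r, In H p → In H q → In H r → Cel p q r → 3 < ds p q → ds q r ≤ 3 →
    ds p r ≤ 3 → 1 / 2 - δ p q + 2 * ω ≤ F p q + F q r + F r p
  two : ∀ p q r, In H p → In H q → In H r → Cel p q r → 3 < ds p q → ds q r ≤ 3 →
    3 < ds p r → 1 / 2 + δ q p + δ p r + ω ≤ F p q + F q r + F r p
  nonneg : ∀ p q, 0 ≤ δ p q

section

variable {H w ω : ℝ} {F : Pt → Pt → ℝ} {δ : Pt → Pt → ℝ}

theorem ds_mir (H : ℝ) (a b : Pt) : ds (mir H a) (mir H b) = ds a b := by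
  unfold ds mir
  ring

theorem ExtStar.star_short (h : ExtStar H w ω F δ) {a b : Pt} (ha : In H a) (hb : In H b)
    (h3 : ds a b ≤ 3) : F a b - ω ≤ star H w F a b :=
  star_ge h.anti h.mirror h.ω0 (fun hf => h.short a b ha hb hf h3)
    (fun hf => h.short _ _ hb.mir ha.mir hf (by rw [ds_mir, ds_comm]; exact h3))

theorem ExtStar.star_long (h : ExtStar H w ω F δ) {a b : Pt} (ha : In H a) (hb : In H b)
    (h3 : 3 < ds a b) : star H w F a b = F a b := by
  have h3' : 3 < ds b a := by rwa [ds_comm]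
  exact star_eq h.anti h.mirror
    (fun hf => (h.nonneg a b).trans (h.long a b ha hb hf h3))
    (fun hf => (h.nonneg b a).trans (h.long b a hb ha hf h3'))
    (fun hf => (h.nonneg _ _).trans (h.long _ _ hb.mir ha.mir hf (by rw [ds_mir]; exact h3')))
    (fun hf => (h.nonneg _ _).trans (h.long _ _ ha.mir hb.mir hf (by rw [ds_mir]; exact h3)))

/-- **The modified edge function can be extended by flips.** -/
theorem ExtStar.ext (h : ExtStar H w ω F δ) : Ext (In H) (star H w F) δ := by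
  have row : ∀ p q r, In H p → In H q → In H r → Cel p q r → ds p q ≤ 3 → ds q r ≤ 3 →
      ds p r ≤ 3 → 1 / 2 ≤ star H w F p q + star H w F q r + star H w F r p := by
    intro p q r hp hq hr hc k1 k2 k3
    refine star_tri h.height h.anti h.mirror (h.rows p q r hp hq hr hc k1 k2 k3) ?_
    exact h.rows _ _ _ hr.mir hq.mir hp.mir (cel_mir3 hc) (by rw [ds_mir, ds_comm]; exact k2)
      (by rw [ds_mir, ds_comm]; exact k1) (by rw [ds_mir, ds_comm]; exact k3)
  refine ⟨star_anti h.anti, ?_, ?_, ?_, ?_, h.nonneg⟩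
  · intro p q r hp hq hr k0 k1 k2 k3 k4 k5 k6
    exact row p q r hp hq hr (cel_of_small k0 k1 k2 k3 k4 k5 k6) k4 k5 k6
  · intro p q r r' hp hq hr hr' h1 h2 k1 k2 k3 k4 k5 k6
    have e := h.quad p q r r' hp hq hr hr' h1 h2 k1 k2 k3 k4 k5 k6
    have a1 := h.star_short hp hr' k5
    have a2 := h.star_short hr' hq (by rw [ds_comm]; exact k4)
    have a3 := h.star_short hq hr k2
    have a4 := h.star_short hr hp (by rw [ds_comm]; exact k3)
    linarith
  · intro p q r hp hq hr hc k1 k2 k3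
    have e := h.one p q r hp hq hr hc k1 k2 k3
    have a1 := h.star_long hp hq k1
    have a2 := h.star_short hq hr k2
    have a3 := h.star_short hr hp (by rw [ds_comm]; exact k3)
    rw [a1]
    linarith
  · intro p q r hp hq hr hc k1 k2 k3
    have e := h.two p q r hp hq hr hc k1 k2 k3
    have a1 := h.star_long hp hq k1
    have a2 := h.star_short hq hr k2
    have a3 := h.star_long hr hp (by rw [ds_comm]; exact k3)
    rw [a1, a3]
    linarith

/-- **The certificate for the strip** with the modification at the walls and the flips. -/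
theorem ExtStar.symH (h : ExtStar H w ω F δ) : SymH H w (FE (In H) (star H w F)) := by
  refine h.ext.symH (star_mirror h.height h.mirror) ?_ ?_
  · intro p q m k1 hp hq k2 _ k3 k4
    have hff := FF.of_wall k1 hp.1 hq.1 k2 k3 k4
    have e : star H w F q p = -min (F p q) (w * (q.1 - p.1) - 1 / 2) := by
      unfold star
      rw [if_neg hff.not_rev, if_pos hff]
    rw [e]
    have := min_le_right (F p q) (w * (q.1 - p.1) - 1 / 2)
    linarith
  · intro p q m k1 hp hq k2 k3 k4
    have hff := FF.of_wall k1 hp.1 hq.1 (by linarith) k3 k4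
    rw [h.star_long hq hp (by rw [ds_comm]; exact k2), h.anti p q]
    have := h.long p q hp hq hff k2
    unfold wf at this
    linarith

end

/-! ### The edge function of the strip -/

/-- The edge function of the strip with `n + 1` full rows and the rest `s`. -/
noncomputable def FS (D : Data) (n : ℕ) (s : ℝ) : Pt → Pt → ℝ := FQ (n * h0 + s) (D.QS n s)

/-- Half of the exact weight per unit length. -/
noncomputable def wS (n : ℕ) (s : ℝ) : ℝ := mu n s * ((n + 1) * (n + 2)) / 2

section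

variable {D : Data} {n : ℕ} {s : ℝ}

theorem FS_anti (hD : D.Ok) (n : ℕ) (s : ℝ) (a b : Pt) : FS D n s b a = -FS D n s a b := by
  have := hD.QS_anti n s (b.1 - a.1) a.2 b.2
  unfold FS FQ ed
  rw [show a.1 - b.1 = -(b.1 - a.1) by ring, this]
  ring

theorem FS_mir (hD : D.Ok) (n : ℕ) (s : ℝ) (a b : Pt) :
    FS D n s (mir (n * h0 + s) a) (mir (n * h0 + s) b) = FS D n s b a := by
  have h1 := hD.QS_anti n s (b.1 - a.1) a.2 b.2
  have h2 := hD.QS_mirror n s (b.1 - a.1) a.2 b.2
  unfold FS FQ ed mir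
  simp only
  rw [h2, show a.1 - b.1 = -(b.1 - a.1) by ring, h1]
  ring

theorem mu_mul (n : ℕ) {s : ℝ} (hg : 0 < g s) : mu n s * (n + 2 * g s) = 1 := by
  have hn0 : (0 : ℝ) ≤ n := Nat.cast_nonneg n
  unfold mu
  field_simp

theorem ed_QS (n : ℕ) {s : ℝ} (hg : 0 < g s) (a b : Pt) :
    ed (D.QS n s) a b = ed (D.Q (mu n s) (-(1 / 2 - g s * mu n s))) (dn s a) (dn s b) := by
  have e := mu_mul n hg
  unfold ed Data.QS dn
  simp only
  congr 1
  change -(mu n s * (n / 2)) = _
  linear_combination (-(1 / 2 : ℝ)) * e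

/-- The slack of the floor inequality for the edge function of the strip. -/
theorem FS_wf (n : ℕ) {s : ℝ} (hg : 0 < g s) (a b : Pt) :
    wf (wS n s) (FS D n s) a b = WF D s (mu n s) a b := by
  have hh := h0_pos
  have e := mu_mul n hg
  have e2 : wS n s = 1 / 2 - we s - mu n s * wq s + (n * h0 + s) / (2 * h0) := by
    have e3 : ((n : ℝ) * h0 + s) / (2 * h0) = n / 2 + s / (2 * h0) := by
      field_simp
    rw [e3]
    unfold wS we wq
    linear_combination ((n + 3 - 2 * g s) / 2 : ℝ) * e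
  unfold wf WF FS FQ
  rw [ed_QS n hg, e2]
  field_simp
  ring

theorem FS_tri (p q r : Pt) : FS D n s p q + FS D n s q r + FS D n s r p =
    cr p q r / (2 * h0) + fl (D.QS n s) p q r := by
  unfold FS
  rw [FQ_tri]

theorem FS_quad (a b c d : Pt) : FS D n s a b + FS D n s b c + FS D n s c d + FS D n s d a =
    (cr a b c + cr a c d) / (2 * h0) + fl4 (D.QS n s) a b c d := by
  unfold FS
  rw [FQ_quad]

theorem FS_sf (n : ℕ) {s : ℝ} (hg : 0 < g s) (p q r : Pt) :
    FS D n s p q + FS D n s q r + FS D n s r p - 1 / 2 = SF D s (mu n s) p q r := by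
  rw [FS_tri]
  unfold SF fl
  rw [ed_QS n hg, ed_QS n hg, ed_QS n hg]
  ring

theorem wS_eq (n : ℕ) {s : ℝ} (hg : 0 < g s) :
    2 * wS n s * (n + 2 * g s) = (n + 1) * (n + 2) := by
  have e := mu_mul n hg
  unfold wS
  linear_combination ((n : ℝ) + 1) * (n + 2) * e

/-- The edge function is bounded. -/
theorem FS_bdd (hD : D.Ok) (n : ℕ) (s : ℝ) (hs0 : 0 ≤ s) (hg : 0 < g s) :
    ∃ K : ℝ, 0 ≤ K ∧ ∀ a b : Pt, |a.1 - b.1| ≤ 2 → In (n * h0 + s) a → In (n * h0 + s) b →
      |FS D n s a b| ≤ K := by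
  have hh := h0_pos
  have hn0 : (0 : ℝ) ≤ n := Nat.cast_nonneg n
  have hμ0 : 0 < mu n s := by
    unfold mu
    positivity
  have hH : 0 ≤ (n : ℝ) * h0 + s := by positivity
  obtain ⟨K, hK⟩ := hD.bdd ((n : ℝ) * h0 + s + s + 1)
  have hK0 : 0 ≤ K := (abs_nonneg _).trans
    (hK 0 0 0 (by simp) (by simp only [abs_zero]; linarith) (by simp only [abs_zero]; linarith)).1
  refine ⟨(n * h0 + s) / h0 + (K + mu n s * K + mu n s * (n / 2) * K), by positivity, ?_⟩
  intro a b hab ha hb
  obtain ⟨ha0, haH⟩ := ha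
  obtain ⟨hb0, hbH⟩ := hb
  set H := (n : ℝ) * h0 + s with hHd
  unfold FS FQ
  rw [← hHd]
  refine (abs_add_le _ _).trans (add_le_add ?_ ?_)
  · have e1 : |a.2 + b.2 - H| ≤ H := by
      rw [abs_le]
      constructor <;> linarith
    rw [abs_div, abs_neg, abs_mul, abs_of_pos (by linarith : 0 < 2 * h0),
      div_le_div_iff₀ (by linarith) hh, abs_sub_comm]
    have e2 : |a.1 - b.1| * |a.2 + b.2 - H| ≤ 2 * H :=
      mul_le_mul hab e1 (abs_nonneg _) (by norm_num)
    calc |a.1 - b.1| * |a.2 + b.2 - H| * h0 ≤ 2 * H * h0 := mul_le_mul_of_nonneg_right e2 hh.le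
      _ = H * (2 * h0) := by ring
  · unfold ed Data.QS Data.Q
    obtain ⟨b0, b1, b2⟩ := hK (b.1 - a.1) (a.2 - s / 2) (b.2 - s / 2)
      (by rw [abs_sub_comm]; exact hab)
      (by rw [abs_le]; constructor <;> linarith) (by rw [abs_le]; constructor <;> linarith)
    change |D.R0 (b.1 - a.1) (a.2 - s / 2) (b.2 - s / 2) +
      mu n s * D.R1 (b.1 - a.1) (a.2 - s / 2) (b.2 - s / 2) -
      -(mu n s * (n / 2)) * D.R2 (b.1 - a.1) (a.2 - s / 2) (b.2 - s / 2)| ≤ _
    have c1 : |mu n s * D.R1 (b.1 - a.1) (a.2 - s / 2) (b.2 - s / 2)| ≤ mu n s * K := by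
      rw [abs_mul, abs_of_pos hμ0]
      exact mul_le_mul_of_nonneg_left b1 hμ0.le
    have c2 : |-(mu n s * (n / 2)) * D.R2 (b.1 - a.1) (a.2 - s / 2) (b.2 - s / 2)| ≤
        mu n s * (n / 2) * K := by
      rw [abs_mul, abs_neg, abs_of_nonneg (by positivity)]
      exact mul_le_mul_of_nonneg_left b2 (by positivity)
    refine (abs_sub _ _).trans (add_le_add ((abs_add_le _ _).trans (add_le_add b0 c1)) c2)

theorem wS_nonneg (n : ℕ) {s : ℝ} (hg : 0 < g s) : 0 ≤ wS n s := by
  have hn0 : (0 : ℝ) ≤ n := Nat.cast_nonneg n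
  unfold wS mu
  positivity

/-- **The exact count from the flips** (no modification at the floor). -/
theorem countBound_of_ext (hD : D.Ok) (hs0 : 0 ≤ s) (hs1 : s < h0) {δ : Pt → Pt → ℝ} {Δ : ℝ}
    (h : Ext (In (n * h0 + s)) (FS D n s) δ) (hδ : ∀ p q, δ p q ≤ Δ)
    (wall : ∀ p q, In (n * h0 + s) p → In (n * h0 + s) q → FF p q → ds p q ≤ 3 →
      0 ≤ WF D s (mu n s) p q)
    (wallL : ∀ p q, In (n * h0 + s) p → In (n * h0 + s) q → FF p q → 3 < ds p q →
      δ p q ≤ WF D s (mu n s) p q) : CountBound n s := by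
  have hg : 0 < g s := by linarith [g_gt_half hs0 hs1]
  have hsym : SymH (n * h0 + s) (wS n s) (FE (In (n * h0 + s)) (FS D n s)) := by
    refine h.symH (FS_mir hD n s) ?_ ?_
    · intro p q m k1 hp hq k2 k3 k4 k5
      have := wall p q hp hq (FF.of_wall k1 hp.1 hq.1 k2 k4 k5) k3
      rw [← FS_wf n hg] at this
      have e := FS_anti hD n s p q
      unfold wf at this
      linarith
    · intro p q m k1 hp hq k2 k4 k5
      have := wallL p q hp hq (FF.of_wall k1 hp.1 hq.1 (by linarith) k4 k5) k2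
      rw [← FS_wf n hg] at this
      have e := FS_anti hD n s p q
      unfold wf at this
      linarith
  obtain ⟨K, hK0, hK⟩ := FS_bdd hD n s hs0 hg
  have hΔ : 0 ≤ Δ := (h.nonneg (0, 0) (0, 0)).trans (hδ _ _)
  refine hsym.countBound hs0 hs1 (wS_eq n hg) (K := K + Δ) ?_ (by positivity)
  intro a b hab ha0 haH hb0 hbH
  exact h.bdd hδ (hK a b hab ⟨ha0, haH⟩ ⟨hb0, hbH⟩)

/-- **The exact count from the flips and the modification at the floor.** -/
theorem countBound_of_extStar (hD : D.Ok) (hs0 : 0 ≤ s) (hs1 : s < h0) {δ : Pt → Pt → ℝ}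
    {ω Δ : ℝ} (h : ExtStar (n * h0 + s) (wS n s) ω (FS D n s) δ) (hδ : ∀ p q, δ p q ≤ Δ) :
    CountBound n s := by
  have hg : 0 < g s := by linarith [g_gt_half hs0 hs1]
  obtain ⟨K, hK0, hK⟩ := FS_bdd hD n s hs0 hg
  have hΔ : 0 ≤ Δ := (h.nonneg (0, 0) (0, 0)).trans (hδ _ _)
  have hw0 := wS_nonneg n hg
  refine h.symH.countBound hs0 hs1 (wS_eq n hg) (K := K + (2 * wS n s + 1 / 2) + Δ) ?_
    (by positivity)
  intro a b hab ha0 haH hb0 hbH
  have hba : |b.1 - a.1| ≤ 2 := by rwa [abs_sub_comm]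
  have hl : ∀ x : ℝ, |x| ≤ 2 → |wS n s * x - 1 / 2| ≤ K + (2 * wS n s + 1 / 2) := by
    intro x hx
    have h3 : |wS n s * x| ≤ wS n s * 2 := by
      rw [abs_mul, abs_of_nonneg hw0]
      exact mul_le_mul_of_nonneg_left hx hw0
    rw [abs_le] at h3 ⊢
    constructor <;> linarith
  exact h.ext.bdd hδ (star_abs (K := K) (hK a b hab ⟨ha0, haH⟩ ⟨hb0, hbH⟩)
    (hK b a hba ⟨hb0, hbH⟩ ⟨ha0, haH⟩) (hl _ hba) (hl _ hab) (by linarith))

/-- **The hypotheses of `ExtStar` in the form of the certificate.** -/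
theorem extStar_of (hD : D.Ok) {N0 : ℕ} (hn : N0 ≤ n) (hs0 : 0 ≤ s) (hs1 : s < h0)
    (hH2 : 2 < n * h0 + s) (hR : StarRows D s (mu N0 s))
    (small : ∀ p q r, In (n * h0 + s) p → In (n * h0 + s) q → In (n * h0 + s) r →
      0 ≤ cr p q r → 1 ≤ ds p q → 1 ≤ ds q r → 1 ≤ ds p r → ds p q ≤ 3 → ds q r ≤ 3 →
      ds p r ≤ 3 → 1 / 2 ≤ cr p q r / (2 * h0) + fl (D.QS n s) p q r)
    {δ : Pt → Pt → ℝ} {ω : ℝ} (hω : 0 ≤ ω)
    (short : ∀ a b, FF a b → ds a b ≤ 3 → -ω ≤ WF D s 0 a b ∧ -ω ≤ WF D s (mu N0 s) a b)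
    (long : ∀ a b, In (n * h0 + s) a → In (n * h0 + s) b → FF a b → 3 < ds a b →
      δ a b ≤ WF D s (mu n s) a b)
    (quad : ∀ p q r r', In (n * h0 + s) p → In (n * h0 + s) q → In (n * h0 + s) r →
      In (n * h0 + s) r' → Cel p q r → Cel q p r' → 3 < ds p q → ds q r ≤ 3 → ds p r ≤ 3 →
      ds q r' ≤ 3 → ds p r' ≤ 3 → 3 < ds r r' →
      1 + 4 * ω ≤ (cr p r' q + cr p q r) / (2 * h0) + fl4 (D.QS n s) p r' q r)
    (one : ∀ p q r, In (n * h0 + s) p → In (n * h0 + s) q → In (n * h0 + s) r → Cel p q r →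
      3 < ds p q → ds q r ≤ 3 → ds p r ≤ 3 →
      1 / 2 - δ p q + 2 * ω ≤ cr p q r / (2 * h0) + fl (D.QS n s) p q r)
    (two : ∀ p q r, In (n * h0 + s) p → In (n * h0 + s) q → In (n * h0 + s) r → Cel p q r →
      3 < ds p q → ds q r ≤ 3 → 3 < ds p r →
      1 / 2 + δ q p + δ p r + ω ≤ cr p q r / (2 * h0) + fl (D.QS n s) p q r)
    (nonneg : ∀ p q, 0 ≤ δ p q) : ExtStar (n * h0 + s) (wS n s) ω (FS D n s) δ := by
  have hg : 0 < g s := by linarith [g_gt_half hs0 hs1]
  have hn0 : (0 : ℝ) ≤ n := Nat.cast_nonneg n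
  have hN0 : (0 : ℝ) ≤ N0 := Nat.cast_nonneg N0
  have hnN : (N0 : ℝ) ≤ n := by exact_mod_cast hn
  have hμ : 0 < mu n s := by
    unfold mu
    positivity
  have hm : 0 < mu N0 s := by
    unfold mu
    positivity
  have hμm : mu n s ≤ mu N0 s := by
    unfold mu
    apply one_div_le_one_div_of_le (by positivity)
    linarith
  have hR' := hR.mono hμ.le hμm
  refine ⟨hH2, FS_anti hD n s, FS_mir hD n s, ?_, hω, ?_, ?_, ?_, ?_, ?_, nonneg⟩
  · intro p q r hp hq hr hc k1 k2 k3
    refine star_row_small (FS_anti hD n s) hR' (FS_wf n hg) (FS_sf n hg) hp.1 hq.1 hr.1 hc ?_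
    rw [FS_tri]
    exact small p q r hp hq hr hc.cr0 hc.pq hc.qr hc.pr k1 k2 k3
  · intro a b ha hb hf k1
    rw [FS_wf n hg]
    obtain ⟨A, B, hAB⟩ := WF_aff D s a b
    obtain ⟨e0, em⟩ := short a b hf k1
    rw [hAB] at e0 em ⊢
    have := aff_nonneg (A := A + ω) (B := B) hμ.le hμm (by linarith) (by linarith)
    linarith
  · intro a b ha hb hf k1
    rw [FS_wf n hg]
    exact long a b ha hb hf k1
  · intro p q r r' hp hq hr hr' h1 h2 k1 k2 k3 k4 k5 k6
    rw [FS_quad]
    exact quad p q r r' hp hq hr hr' h1 h2 k1 k2 k3 k4 k5 k6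
  · intro p q r hp hq hr hc k1 k2 k3
    rw [FS_tri]
    exact one p q r hp hq hr hc k1 k2 k3
  · intro p q r hp hq hr hc k1 k2 k3
    rw [FS_tri]
    exact two p q r hp hq hr hc k1 k2 k3

end

end Pool.Agent.Strip051.LC
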