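import Pool.Agent.Strip051.LC.Exact.Level
import Pool.Agent.Strip051.LC.Exact.StarFlip

/-! # The certificate with all levels at the near vertex

`FixLev` is `FixTri` with the near families at all levels between `highest - H - a` and
`lowest + a`. -/

namespace Pool.Agent.Strip051.LC

open Pool.Agent.StripNear Pool.Agent.StripSquare Pool.Agent.Strip051.Sweep
open Pool.Agent.Strip051.LC.Line (NG AvC)

/-- The small triangles, at the near vertex with all levels. -/
structure FixLev (T : Tab) (Nd : ℝ → ℝ → Prop) (N0 : ℕ) (a κ s : ℝ) : Prop where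
  two : 2 ≤ N0
  a0 : 0 ≤ a
  κ0 : 0 ≤ κ
  s0 : 0 ≤ s
  s1 : s < h0
  ok : T.Ok
  even : ∀ X t, Nd X t → Nd (-X) t
  pieces : T.Pieces Nd
  far : Fams Nd (fun X12 X13 t t' =>
    NG κ s (exn X12 X13 t t' + T.farX X12 X13 t t') T.A X12 X13 t t')
  near : Fams Nd (fun X12 X13 t t' => ∀ l, t + t' - (N0 * h0 + s) - a ≤ l → l ≤ a →
    NG κ s (exn X12 X13 t t' + T.levX N0 s l X12 X13 t t') T.B X12 X13 t t')
  rhomb : Rhomb (Qc κ s T.A)

section

variable {T : Tab} {Nd : ℝ → ℝ → Prop} {N0 : ℕ} {a κ s : ℝ}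

theorem FixLev.tri (h : FixLev T Nd N0 a κ s) : FixTri T Nd N0 κ s :=
  ⟨h.κ0, h.s0, h.s1, h.ok, h.even, h.pieces, h.far, near_of_level h.a0 h.s0 h.two h.near,
    h.rhomb⟩

theorem highest_dn (s : ℝ) (p q r : Pt) :
    highest (dn s p).2 (dn s q).2 (dn s r).2 = highest p.2 q.2 r.2 - s / 2 := by
  unfold highest dn
  simp only
  rw [max_sub_sub_right, max_sub_sub_right]

theorem lowest_dn (s : ℝ) (p q r : Pt) :
    lowest (dn s p).2 (dn s q).2 (dn s r).2 = lowest p.2 q.2 r.2 - s / 2 := by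
  unfold lowest dn
  simp only
  rw [min_sub_sub_right, min_sub_sub_right]

/-- **Small triangles at the near vertex at the level `L`** (a height above the floor). -/
theorem FixLev.level (h : FixLev T Nd N0 a κ s) {p q r : Pt} (k0 : 0 ≤ cr p q r)
    (k1 : 1 ≤ ds p q) (k2 : 1 ≤ ds q r) (k3 : 1 ≤ ds p r) (k4 : ds p q ≤ 3) (k5 : ds q r ≤ 3)
    (k6 : ds p r ≤ 3) {L : ℝ} (l1 : highest p.2 q.2 r.2 - (N0 * h0 + s) - a ≤ L)
    (l2 : L ≤ lowest p.2 q.2 r.2 + a) :
    1 / 2 ≤ cr p q r / (2 * h0) +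
      fl ((T.full N0 κ s).nr N0 s L) (dn s p) (dn s q) (dn s r) := by
  have e1 : cr (dn s p) (dn s q) (dn s r) = cr p q r := cr_sh (s / 2) p q r
  have e2 : ∀ a b : Pt, ds (dn s a) (dn s b) = ds a b := fun a b => ds_sh (s / 2) a b
  have := near_tri_level h.κ0 h.s0 h.s1 (h.tri.mu_pos N0).ne' h.ok h.even h.pieces h.near
    (dn s p) (dn s q) (dn s r) (by rw [e1]; exact k0)
    (by rw [e2]; exact k1) (by rw [e2]; exact k2) (by rw [e2]; exact k3) (by rw [e2]; exact k4)
    (by rw [e2]; exact k5) (by rw [e2]; exact k6) (L := L - s / 2)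
    (by rw [highest_dn]; linarith) (by rw [lowest_dn]; linarith)
  rw [show s / 2 + (L - s / 2) = L by ring] at this
  have k := (Data.glue_Tr (S := T.data N0 κ s) (L := (T.data N0 κ s).apex)
    (by rw [e2]; exact k4) (by rw [e2]; exact k5) (by rw [e2]; exact k6)).2 this
  unfold Data.Tr at k
  rw [e1] at k
  exact k

/-- The height of a small triangle. -/
theorem highest_le {p q r : Pt} (k4 : ds p q ≤ 3) (k5 : ds q r ≤ 3) (k6 : ds p r ≤ 3) :
    highest p.2 q.2 r.2 ≤ lowest p.2 q.2 r.2 + 2 * h0 := by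
  have hh := h0_pos
  have hq := h0_sq
  have key : ∀ a b : Pt, ds a b ≤ 3 → a.2 ≤ b.2 + 2 * h0 := by
    intro a b h
    unfold ds at h
    by_contra hcon
    push Not at hcon
    nlinarith [sq_nonneg (a.1 - b.1), sq_nonneg (b.1 - a.1)]
  have c1 := key p q k4
  have c2 := key q p (by rw [ds_comm]; exact k4)
  have c3 := key q r k5
  have c4 := key r q (by rw [ds_comm]; exact k5)
  have c5 := key p r k6
  have c6 := key r p (by rw [ds_comm]; exact k6)
  unfold highest lowest
  rcases min_choice p.2 (min q.2 r.2) with h1 | h1 <;> rw [h1]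
  · exact max_le (by linarith) (max_le c2 c6)
  · rcases min_choice q.2 r.2 with h2 | h2 <;> rw [h2]
    · exact max_le c1 (max_le (by linarith) c4)
    · exact max_le c5 (max_le c3 (by linarith))

theorem lowest_mir (H : ℝ) (p q r : Pt) :
    lowest (mir H r).2 (mir H q).2 (mir H p).2 = H - highest p.2 q.2 r.2 := by
  have e : ∀ x : Pt, (mir H x).2 = H - x.2 := fun x => rfl
  have key : ∀ x y : ℝ, min (H - x) (H - y) = H - max x y := by
    intro x y
    rcases le_total x y with h | h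
    · rw [max_eq_right h, min_eq_right (by linarith)]
    · rw [max_eq_left h, min_eq_left (by linarith)]
  unfold lowest highest
  rw [e, e, e, key, key, max_comm q.2 p.2, ← max_assoc, max_comm r.2 p.2, max_assoc,
    max_comm r.2 q.2]

theorem highest_mir (H : ℝ) (p q r : Pt) :
    highest (mir H r).2 (mir H q).2 (mir H p).2 = H - lowest p.2 q.2 r.2 := by
  have := lowest_mir H (mir H r) (mir H q) (mir H p)
  rw [mir_mir, mir_mir, mir_mir] at this
  linarith

/-- **All small triangles which leave the strip by at most `a` are good.** -/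
theorem FixLev.small_out (h : FixLev T Nd N0 a κ s) {n : ℕ} (hn : N0 ≤ n) {p q r : Pt}
    (k0 : 0 ≤ cr p q r) (k1 : 1 ≤ ds p q) (k2 : 1 ≤ ds q r) (k3 : 1 ≤ ds p r)
    (k4 : ds p q ≤ 3) (k5 : ds q r ≤ 3) (k6 : ds p r ≤ 3) (hl : -a ≤ lowest p.2 q.2 r.2)
    (hu : highest p.2 q.2 r.2 ≤ n * h0 + s + a) :
    1 / 2 ≤ cr p q r / (2 * h0) + fl ((T.full N0 κ s).QS n s) p q r := by
  have hh := h0_pos
  have h2 : (2 : ℝ) ≤ N0 := by exact_mod_cast h.two
  have ha := h.a0
  have hs := h.s0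
  set H := (n : ℝ) * h0 + s with hH
  have em : ∀ a b : Pt, ds (mir H a) (mir H b) = ds a b := fun a b => ds_mir H a b
  have ec := cr_mir H p q r
  have hhi := highest_le k4 k5 k6
  have e2 : 2 * h0 ≤ N0 * h0 + s + 2 * a := by nlinarith
  have f1 := h.tri.slackF_small k0 k1 k2 k3 k4 k5 k6
  have k0' : 0 ≤ cr (mir H r) (mir H q) (mir H p) := by rw [ec]; exact k0
  have k1' : 1 ≤ ds (mir H r) (mir H q) := by rw [em, ds_comm]; exact k2
  have k2' : 1 ≤ ds (mir H q) (mir H p) := by rw [em, ds_comm]; exact k1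
  have k3' : 1 ≤ ds (mir H r) (mir H p) := by rw [em, ds_comm]; exact k3
  have k4' : ds (mir H r) (mir H q) ≤ 3 := by rw [em, ds_comm]; exact k5
  have k5' : ds (mir H q) (mir H p) ≤ 3 := by rw [em, ds_comm]; exact k4
  have k6' : ds (mir H r) (mir H p) ≤ 3 := by rw [em, ds_comm]; exact k6
  have f2 := h.tri.slackF_small k0' k1' k2' k3' k4' k5' k6'
  have n1 := h.level k0 k1 k2 k3 k4 k5 k6 (L := lowest p.2 q.2 r.2 + a) (by linarith) le_rfl
  have n2 := h.level k0' k1' k2' k3' k4' k5' k6'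
    (L := lowest (mir H r).2 (mir H q).2 (mir H p).2 + a)
    (by rw [lowest_mir, highest_mir]; linarith) le_rfl
  unfold slackF at f1 f2
  rw [ec] at f2 n2
  have := hull3 h.tri.okD hn h.tri.gpos (A := cr p q r / (2 * h0) - 1 / 2) (δ := 0)
    (L := lowest p.2 q.2 r.2 + a) (L' := lowest (mir H r).2 (mir H q).2 (mir H p).2 + a)
    (by linarith) (by rw [lowest_mir]; linarith) f1 f2 (by linarith) (by linarith)
  rw [mul_zero] at this
  linarith

end

end Pool.Agent.Strip051.LC
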