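import Pool.Agent.Strip051.LC.Exact.Cost

/-! # Zero flux on the long edges

The flux is the one of the tables on the edges of length at most `√3` and zero on the longer
ones. -/

namespace Pool.Agent.Strip051.LC

open Pool.Agent.StripNear Pool.Agent.StripSquare Pool.Agent.Strip051.Sweep

/-- No flux. -/
def zeroData : Data where
  R0 _ _ _ := 0
  R1 _ _ _ := 0
  R2 _ _ _ := 0

theorem zeroData_ok : zeroData.Ok :=
  ⟨fun _ _ _ => neg_zero.symm, fun _ _ _ => neg_zero.symm, fun _ _ _ => neg_zero.symm,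
    fun _ _ _ => rfl, fun _ _ _ => (sub_zero _).symm, fun _ _ _ => rfl,
    fun _ _ _ => neg_zero.symm, fun _ _ _ => neg_zero.symm, fun _ _ _ => rfl,
    fun _ => ⟨0, fun _ _ _ _ _ _ => by simp [zeroData]⟩⟩

/-- The tables with zero flux on the long edges. -/
noncomputable def Tab.flat (T : Tab) (N0 : ℕ) (κ s : ℝ) : Data :=
  (T.data N0 κ s).glue zeroData

theorem Tab.Ok.flat {T : Tab} (h : T.Ok) {N0 : ℕ} {κ s : ℝ} (hκ : 0 ≤ κ) (hs0 : 0 ≤ s)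
    (hs1 : s < h0) : (T.flat N0 κ s).Ok := (h.data hκ hs0 hs1).glue zeroData_ok

theorem Tab.flat_QS_short {T : Tab} {N0 n : ℕ} {κ s X y z : ℝ} (h : X ^ 2 + (z - y) ^ 2 ≤ 3) :
    (T.flat N0 κ s).QS n s X y z = (T.data N0 κ s).QS n s X y z := by
  unfold Data.QS Tab.flat
  exact Data.glue_Q_short (by rw [show z - s / 2 - (y - s / 2) = z - y by ring]; exact h)

theorem Tab.flat_QS_long {T : Tab} {N0 n : ℕ} {κ s X y z : ℝ} (h : ¬ X ^ 2 + (z - y) ^ 2 ≤ 3) :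
    (T.flat N0 κ s).QS n s X y z = 0 := by
  unfold Data.QS Tab.flat
  rw [Data.glue_Q_long (by rw [show z - s / 2 - (y - s / 2) = z - y by ring]; exact h)]
  simp [Data.Q, zeroData]

theorem ds_xz (p q : Pt) : ds p q = (q.1 - p.1) ^ 2 + (q.2 - p.2) ^ 2 := by
  unfold ds
  ring

theorem Tab.flat_short {T : Tab} {N0 n : ℕ} {κ s : ℝ} {p q : Pt} (h : ds p q ≤ 3) :
    ed ((T.flat N0 κ s).QS n s) p q = ed ((T.data N0 κ s).QS n s) p q :=
  Tab.flat_QS_short (by rw [← ds_xz]; exact h)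

theorem Tab.flat_long {T : Tab} {N0 n : ℕ} {κ s : ℝ} {p q : Pt} (h : 3 < ds p q) :
    ed ((T.flat N0 κ s).QS n s) p q = 0 :=
  Tab.flat_QS_long (by rw [← ds_xz]; exact not_le.2 h)

/-- For short edges the two fluxes agree. -/
theorem Tab.flat_full {T : Tab} {N0 n : ℕ} {κ s : ℝ} {p q : Pt} (h : ds p q ≤ 3) :
    ed ((T.flat N0 κ s).QS n s) p q = ed ((T.full N0 κ s).QS n s) p q := by
  rw [Tab.flat_short h]
  unfold ed Data.QS Tab.full
  refine (Data.glue_Q_short ?_).symm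
  rw [ds_xz] at h
  rw [show q.2 - s / 2 - (p.2 - s / 2) = q.2 - p.2 by ring]
  exact h

theorem Tab.flat_fl {T : Tab} {N0 n : ℕ} {κ s : ℝ} {p q r : Pt} (k4 : ds p q ≤ 3)
    (k5 : ds q r ≤ 3) (k6 : ds p r ≤ 3) :
    fl ((T.flat N0 κ s).QS n s) p q r = fl ((T.full N0 κ s).QS n s) p q r := by
  unfold fl
  rw [Tab.flat_full k4, Tab.flat_full k5, Tab.flat_full (by rw [ds_comm]; exact k6)]

/-- **All small triangles which leave the strip by at most `a` are good.** -/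
theorem FixLev.small_flat {T : Tab} {Nd : ℝ → ℝ → Prop} {N0 : ℕ} {a κ s : ℝ}
    (h : FixLev T Nd N0 a κ s) {n : ℕ} (hn : N0 ≤ n) {p q r : Pt}
    (k0 : 0 ≤ cr p q r) (k1 : 1 ≤ ds p q) (k2 : 1 ≤ ds q r) (k3 : 1 ≤ ds p r)
    (k4 : ds p q ≤ 3) (k5 : ds q r ≤ 3) (k6 : ds p r ≤ 3) (hl : -a ≤ lowest p.2 q.2 r.2)
    (hu : highest p.2 q.2 r.2 ≤ n * h0 + s + a) :
    1 / 2 ≤ cr p q r / (2 * h0) + fl ((T.flat N0 κ s).QS n s) p q r := by
  rw [Tab.flat_fl k4 k5 k6]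
  exact h.small_out hn k0 k1 k2 k3 k4 k5 k6 hl hu

/-- **The flux of a short edge of the strip** is bounded by a common majorant of the costs. -/
theorem Tab.flat_major (T : Tab) {N0 n : ℕ} (hn : N0 ≤ n) {κ s : ℝ} (hκ : 0 ≤ κ) (hs0 : 0 ≤ s)
    (hs1 : s < h0) {c : ℝ → ℝ → ℝ}
    (hc : ∀ X t : ℝ, 0 ≤ t → 1 ≤ X ^ 2 + t ^ 2 → X ^ 2 + t ^ 2 ≤ 3 →
      T.costF κ s X t ≤ c X t ∧ T.costN N0 κ s X t ≤ c X t)
    {p q : Pt} (hp : In (n * h0 + s) p) (hq : In (n * h0 + s) q) (h1 : 1 ≤ ds p q)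
    (h3 : ds p q ≤ 3) :
    |ed ((T.flat N0 κ s).QS n s) p q| ≤ c (q.1 - p.1) |q.2 - p.2| := by
  rw [Tab.flat_short h3]
  rw [ds_xz, ← sq_abs (q.2 - p.2)] at h1 h3
  obtain ⟨a1, a2⟩ := hc (q.1 - p.1) |q.2 - p.2| (abs_nonneg _) h1 h3
  refine T.QS_major hn hκ hs0 hs1 a1 a2 hp.1 hq.1 hp.2 hq.2 ?_
  nlinarith [abs_nonneg (q.2 - p.2), sq_nonneg (q.1 - p.1)]

/-- The edge function on a long edge. -/
theorem Tab.flat_FS_long {T : Tab} {N0 n : ℕ} {κ s : ℝ} {p q : Pt} (h : 3 < ds p q) :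
    FS (T.flat N0 κ s) n s p q = FQ (n * h0 + s) (fun _ _ _ => 0) p q := by
  unfold FS FQ
  rw [Tab.flat_long h]
  rfl

end Pool.Agent.Strip051.LC
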