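import Pool.Agent.Strip051.LC.Exact.WinG
import Pool.Agent.Strip051.LC.Exact.FloorT

/-! # The short pairs at the floor with a window of variable size -/

namespace Pool.Agent.Strip051.LC.FG

open Pool.Agent.StripNear Pool.Agent.StripSquare Pool.Agent.Strip051 Pool.Agent.Strip051.Sweep
open Pool.Agent.Strip051.LC
open Pool.Agent.Strip051.LC.Line

/-- **The inequalities at the floor with the exceptional window.** -/
structure WinU (U : ℝ → ℝ → ℝ → ℝ) (Nd : ℝ → ℝ → Prop) (τ η D0 UM TL TH : ℝ) (al be : ℝ → ℝ) :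
    Prop where
  al0 : ∀ T, 0 ≤ al T
  be0 : ∀ T, 0 ≤ be T
  node : ∀ X T y, 0 ≤ y → τ ≤ T → T ≤ 1 → 0 < X → 1 ≤ X ^ 2 + T ^ 2 →
    X ^ 2 + T ^ 2 ≤ 3 → Nd X T → (T ≤ h0 ∨ 1 - Real.sqrt (1 - T ^ 2) ≤ X) →
    1 / 2 ≤ U X y (y + T)
  steep : ∀ T y, 0 ≤ y → h0 ≤ T → T ≤ 1 → 1 / 2 ≤ U (1 - Real.sqrt (1 - T ^ 2)) y (y + T)
  flat : ∀ X T y, η ≤ y → 0 ≤ T → T ≤ τ → 0 < X → 1 ≤ X ^ 2 + T ^ 2 →
    X ^ 2 + T ^ 2 ≤ 3 → Nd X T → 1 / 2 ≤ U X y (y + T)
  left : ∀ X T y, 0 ≤ y → y ≤ η → 0 ≤ T → T ≤ τ → 0 < X → X ≤ D0 →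
    1 ≤ X ^ 2 + T ^ 2 → X ^ 2 + T ^ 2 ≤ 3 → (Nd X T ∨ X = D0) → 1 / 2 ≤ U X y (y + T)
  high : ∀ X T T' y, 0 ≤ y → y ≤ η + τ → 4 / 5 ≤ T → T ≤ 17 / 10 → T ≤ T' →
    T' ≤ T + τ → 0 ≤ X → 1 ≤ X ^ 2 + T' ^ 2 → X ^ 2 + T' ^ 2 ≤ 3 →
    (Nd X T' ∨ X = 0) → 1 / 2 + al T * (X - D0 / 2) ≤ U X y (y + T')
  far : ∀ X T T' y, 0 ≤ y → y ≤ η + τ → TL ≤ T → T ≤ TH → T ≤ T' →
    T' ≤ T + τ → 0 ≤ T' → D0 ≤ X → 1 ≤ X ^ 2 + T' ^ 2 → X ^ 2 + T' ^ 2 ≤ 3 →
    (Nd X T' ∨ X = D0) → 1 + be T * (X - D0) ≤ U X y (y + T')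
  near : ∀ X T T' y, 0 ≤ y → y ≤ η + τ → TL ≤ T → T ≤ TH → T ≤ T' →
    T' ≤ T + τ → 0 ≤ T' → 0 < X → X ≤ UM → 1 ≤ X ^ 2 + T' ^ 2 → X ^ 2 + T' ^ 2 ≤ 3 →
    (Nd X T' ∨ X = UM) → U X y (y + T') ≤ be T * X

section

variable {U : ℝ → ℝ → ℝ → ℝ} {Nd : ℝ → ℝ → Prop} {τ η D0 UM TL TH : ℝ} {al be : ℝ → ℝ}

theorem WinU.pair (h : WinU U Nd τ η D0 UM TL TH al be) (g : Geo τ η D0 UM TL TH) (hU : EdgeU U Nd)
    {a b : Pt} (hf : FF a b) (k : ds a b ≤ 3) :
    1 / 2 ≤ U (b.1 - a.1) a.2 b.2 ∨ E1.WinP τ η D0 a b := by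
  have hτ := g.t1
  by_cases hw : E1.WinP τ η D0 a b
  · exact Or.inr hw
  left
  refine hf.nf (P := fun X y z => 1 / 2 ≤ U X y z) k (fun X y z h => by rwa [hU.comm] at h) ?_
  intro X T y hy hT hT1 h1 h2 h3 eX eT ey
  rcases le_total τ T with ht | ht
  · exact hU.wall hT (fun u u0 u1 u3 un ur => h.node u T y hy ht hT1 u0 u1 u3 un ur)
      (fun ht => h.steep T y hy ht hT1) h1 h2 h3
  · have hX0 : 0 ≤ X := by nlinarith [sq_nonneg X, sq_nonneg T]
    rcases le_total η y with hy1 | hy1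
    · have := hU.lin (X := X) (T := T) (y := y) (σ := 1) (α := 0) (β := -(1 / 2))
        (Or.inr (by linarith)) hX0 hT h1 h3 (fun u u0 u1 u3 un => by
          have := h.flat u T y hy1 hT ht u0 u1 u3 un
          linarith)
      linarith
    · have hXl : X < D0 := by
        by_contra hc
        apply hw
        have h5 : |b.2 - a.2| ≤ τ := by rw [← eT]; exact ht
        rw [abs_le] at h5
        exact ⟨by rw [← eX]; exact not_lt.1 hc, h5.2, by linarith [h5.1], by rw [← ey]; exact hy1⟩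
      have := hU.between (X := X) (X0 := 0) (X1 := D0) (T := T) (y := y) (σ := 1) (α := 0)
        (β := -(1 / 2)) hX0 hXl.le hT h1 h3 (fun u u0 u1 u2 u3 un => by
          have hu0 : 0 < u := by
            rcases u0.eq_or_lt with h9 | h9
            · exfalso
              rw [← h9] at u2
              nlinarith
            · exact h9
          have := h.left u T y hy hy1 hT ht hu0 u1 u2 u3 (by
            rcases un with un | un | un
            · exact Or.inl un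
            · exact absurd un hu0.ne'
            · exact Or.inr un)
          linarith)
      linarith

/-- The inequalities for one vertex from the list. -/
theorem WinU.winV {D : Data} {s μ : ℝ} (h : WinU U Nd τ η D0 UM TL TH al be)
    (g : Geo τ η D0 UM TL TH) (hU : EdgeU U Nd)
    (hW : ∀ a b : Pt, ds a b ≤ 3 → WF D s μ a b + 1 / 2 = U (b.1 - a.1) a.2 b.2)
    (tri : ∀ p q r : Pt, 0 ≤ p.2 → 0 ≤ q.2 → 0 ≤ r.2 → 0 ≤ cr p q r → 1 ≤ ds p q →
      1 ≤ ds q r → 1 ≤ ds p r → ds p q ≤ 3 → ds q r ≤ 3 → ds p r ≤ 3 → p.2 ≤ 3 * h0 →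
      q.2 ≤ 3 * h0 → r.2 ≤ 3 * h0 → 0 ≤ SF D s μ p q r) :
    WinV D s μ τ η D0 UM TL TH al be := by
  have hd := g.d2
  refine ⟨tri, ?_, h.al0, h.be0, ?_, ?_, ?_⟩
  · intro a b hf k
    rcases h.pair g hU hf k with h1 | h1
    · left
      rw [← hW a b k] at h1
      linarith
    · exact Or.inr h1
  · intro T a b ha hb hx k1 k3 hm t1 t2 t3 t4
    have e := hW a b k3
    have key : 1 / 2 + al T * (b.1 - a.1 - D0 / 2) ≤ U (b.1 - a.1) a.2 b.2 := by
      refine pair_nf (P := fun X y z => 1 / 2 + al T * (X - D0 / 2) ≤ U X y z) ha hb k1 k3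
        (fun X y z h => by rwa [hU.comm] at h) ?_
      intro X T' y hy hT h1 h3 eX eT ey
      rw [← eT] at t3 t4
      rw [← ey] at hm
      have hX0 : 0 ≤ X := by rw [eX]; linarith
      have := hU.between (X := X) (X0 := 0) (X1 := 2) (T := T') (y := y) (σ := 1)
        (α := -al T) (β := al T * (D0 / 2) - 1 / 2) hX0 (by nlinarith) hT h1 h3
        (fun u u0 u1 u2 u3 un => by
          have := h.high u T T' y hy hm t1 t2 t3 t4 u0 u2 u3 (by
            rcases un with un | un | un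
            · exact Or.inl un
            · exact Or.inr un
            · exfalso
              rw [un] at u3
              nlinarith)
          linarith)
      linarith
    linarith
  · intro T a b ha hb k1 k3 hm t1 t2 t3 t4 hx
    have e := hW a b k3
    have key : 1 + be T * (b.1 - a.1 - D0) ≤ U (b.1 - a.1) a.2 b.2 := by
      have : D0 ≤ b.1 - a.1 → 1 + be T * (b.1 - a.1 - D0) ≤ U (b.1 - a.1) a.2 b.2 := by
        refine pair_nf (P := fun X y z => D0 ≤ X → 1 + be T * (X - D0) ≤ U X y z) ha hb k1 k3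
          (fun X y z h h' => by have := h h'; rwa [hU.comm] at this) ?_
        intro X T' y hy hT h1 h3 eX eT ey hX
        rw [← eT] at t3 t4
        rw [← ey] at hm
        have := hU.between (X := X) (X0 := D0) (X1 := 2) (T := T') (y := y) (σ := 1)
          (α := -be T) (β := be T * D0 - 1) hX (by nlinarith) hT h1 h3
          (fun u u0 u1 u2 u3 un => by
            have := h.far u T T' y hy hm t1 t2 t3 t4 hT u0 u2 u3 (by
              rcases un with un | un | un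
              · exact Or.inl un
              · exact Or.inr un
              · exfalso
                rw [un] at u3
                nlinarith)
            linarith)
        linarith
      exact this hx
    linarith
  · intro T a b ha hb hx k1 k3 hm t1 t2 t3 t4 hx'
    have e := hW a b k3
    have key : b.1 - a.1 ≤ UM → 0 ≤ b.1 - a.1 →
        U (b.1 - a.1) a.2 b.2 ≤ be T * (b.1 - a.1) := by
      refine pair_nf (P := fun X y z => X ≤ UM → 0 ≤ X → U X y z ≤ be T * X) ha hb k1 k3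
        (fun X y z h h' h'' => by have := h h' h''; rwa [hU.comm] at this) ?_
      intro X T' y hy hT h1 h3 eX eT ey hX hX0
      rw [← eT] at t3 t4
      rw [← ey] at hm
      have := hU.between (X := X) (X0 := 0) (X1 := UM) (T := T') (y := y) (σ := -1)
        (α := be T) (β := 0) hX0 hX hT h1 h3
        (fun u u0 u1 u2 u3 un => by
          rcases u0.eq_or_lt with h9 | h9
          · rw [← h9, hU.zero]
            linarith
          · have := h.near u T T' y hy hm t1 t2 t3 t4 hT h9 u1 u2 u3 (by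
              rcases un with un | un | un
              · exact Or.inl un
              · exact absurd un h9.ne'
              · exact Or.inr un)
            linarith)
      linarith
    rw [e]
    exact key hx' (by linarith)

end

section

variable {T : Tab} {C : ℝ → ℝ → ℝ} {f : ℝ → ℝ} {Nd : ℝ → ℝ → Prop} {N0 : ℕ} {a κ s : ℝ}
  {τ η D0 UM D1 UM1 TL TH : ℝ} {al be al' be' : ℝ → ℝ}

/-- **The rows with two kernels and the window.** -/
theorem rowWin2 (h : FixSm T Nd N0 a κ s) (hN3 : 3 ≤ N0) (g0 : Geo τ η D0 UM TL TH)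
    (g1 : Geo τ η D1 UM1 TL TH)
    (hF : WinU (U0 T (fun _ _ => 0) (fun _ => 0) κ s) Nd τ η D0 UM TL TH al be)
    (hN : WinU (UN T (fun _ _ => 0) (fun _ => 0) N0 κ s) Nd τ η D1 UM1 TL TH al' be') :
    RowOK (T.flat N0 κ s) N0 s := by
  have hz : ∀ X t : ℝ, (fun _ _ : ℝ => (0 : ℝ)) (-X) t = -(fun _ _ : ℝ => (0 : ℝ)) X t :=
    fun X t => by ring
  refine Or.inr (starSmall_of_win h.okD g0 g1
    (hF.winV g0 (edgeU0 h.ok hz (pieces3_zero h.pieces)) (fun p q k => WF_far2 k) ?_)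
    (hN.winV g1 (edgeUN h.ok hz (pieces3_zero h.pieces)) (fun p q k => WF_near2 h.s0 h.s1 k) ?_))
  · intro p q r _ _ _ k0 k1 k2 k3 k4 k5 k6 _ _ _
    exact h.tri0 p q r k0 k1 k2 k3 k4 k5 k6
  · intro p q r hp hq hr k0 k1 k2 k3 k4 k5 k6 l1 l2 l3
    exact h.triN hN3 p q r hp hq hr k0 k1 k2 k3 k4 k5 k6 l1 l2 l3

/-- **The rows with three kernels and the window.** -/
theorem rowWin3 (h : FixDir T C f Nd N0 a κ s) (hN3 : 3 ≤ N0) (g0 : Geo τ η D0 UM TL TH)
    (g1 : Geo τ η D1 UM1 TL TH) (hF : WinU (U0 T C f κ s) Nd τ η D0 UM TL TH al be)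
    (hN : WinU (UN T C f N0 κ s) Nd τ η D1 UM1 TL TH al' be') :
    RowOK (T.flat3 C f N0 κ s) N0 s := by
  refine Or.inr (starSmall_of_win h.okD g0 g1
    (hF.winV g0 (edgeU0 h.ok h.oddC h.pieces) (fun p q k => WF_far3 k) ?_)
    (hN.winV g1 (edgeUN h.ok h.oddC h.pieces) (fun p q k => WF_near3 h.s0 h.s1 k) ?_))
  · intro p q r _ _ _ k0 k1 k2 k3 k4 k5 k6 _ _ _
    exact h.tri0 p q r k0 k1 k2 k3 k4 k5 k6
  · intro p q r hp hq hr k0 k1 k2 k3 k4 k5 k6 l1 l2 l3
    exact h.triN hN3 p q r hp hq hr k0 k1 k2 k3 k4 k5 k6 l1 l2 l3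

end

end Pool.Agent.Strip051.LC.FG
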