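import Pool.Agent.Strip051.LC.Exact.Win
import Pool.Agent.Strip051.LC.Exact.Tent

/-! # The short pairs at the floor

`EdgeU U Nd`: the floor function `U X y z` is piecewise affine in `X`.  `WallU` is the list of
inequalities which make all slacks of short pairs nonnegative, `WinU` is the list with the
exceptional window. -/

namespace Pool.Agent.Strip051.LC

open Pool.Agent.StripNear Pool.Agent.StripSquare Pool.Agent.Strip051.Sweep
open Pool.Agent.Strip051.LC.Line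

/-- The floor function is piecewise affine in the horizontal displacement. -/
structure EdgeU (U : ℝ → ℝ → ℝ → ℝ) (Nd : ℝ → ℝ → Prop) : Prop where
  comm : ∀ X y z, U X z y = U X y z
  zero : ∀ y z, U 0 y z = 0
  pieces : ∀ X T : ℝ, 0 ≤ T → 1 ≤ X ^ 2 + T ^ 2 → X ^ 2 + T ^ 2 ≤ 3 →
    ∃ a b : ℝ, a ≤ X ∧ X ≤ b ∧ Nd a T ∧ Nd b T ∧
      (∀ u, a ≤ u → u ≤ b → 1 ≤ u ^ 2 + T ^ 2 ∧ u ^ 2 + T ^ 2 ≤ 3) ∧
      ∀ y, ∃ α β : ℝ, ∀ u, a ≤ u → u ≤ b → U u y (y + T) = α * u + β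

section

variable {U : ℝ → ℝ → ℝ → ℝ} {Nd : ℝ → ℝ → Prop}

/-- A linear inequality holds for all short pairs if it holds at the nodes. -/
theorem EdgeU.lin (h : EdgeU U Nd) {X T y σ α β : ℝ} (hβ : 0 ≤ β ∨ T < 1) (hX : 0 ≤ X)
    (hT : 0 ≤ T) (h1 : 1 ≤ X ^ 2 + T ^ 2) (h3 : X ^ 2 + T ^ 2 ≤ 3)
    (hn : ∀ u, 0 < u → 1 ≤ u ^ 2 + T ^ 2 → u ^ 2 + T ^ 2 ≤ 3 → Nd u T →
      0 ≤ σ * U u y (y + T) + α * u + β) : 0 ≤ σ * U X y (y + T) + α * X + β := by
  obtain ⟨a, b, a1, a2, a3, a4, a5, a6⟩ := h.pieces X T hT h1 h3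
  obtain ⟨α', β', a7⟩ := a6 y
  have key : ∀ u, a ≤ u → u ≤ b →
      σ * U u y (y + T) + α * u + β = (σ * α' + α) * u + (σ * β' + β) := by
    intro u u1 u2
    rw [a7 u u1 u2]
    ring
  rcases hX.eq_or_lt with h0 | h0
  · have hβ' : 0 ≤ β := by
      rcases hβ with hb | hb
      · exact hb
      · exfalso
        rw [← h0] at h1
        nlinarith
    rw [← h0, h.zero]
    linarith
  · have hb : 0 < b := by linarith
    have hb1 := a5 b (a1.trans a2) le_rfl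
    have hbS := hn b hb hb1.1 hb1.2 a4
    rw [key b (a1.trans a2) le_rfl] at hbS
    rw [key X a1 a2]
    rcases lt_or_ge 0 a with ha | ha
    · have ha1 := a5 a le_rfl (a1.trans a2)
      have haS := hn a ha ha1.1 ha1.2 a3
      rw [key a le_rfl (a1.trans a2)] at haS
      exact affine_nonneg a1 a2 haS hbS
    · have hβ' : 0 ≤ β := by
        rcases hβ with hb | hb
        · exact hb
        · exfalso
          have := (a5 0 ha (h0.le.trans a2)).1
          nlinarith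
      have h00 := key 0 ha hb.le
      rw [h.zero] at h00
      exact affine_nonneg h0.le a2 (by rw [← h00]; linarith) hbS

/-- The inequality `U ≥ 1 / 2` for the pairs which can be at the floor. -/
theorem EdgeU.wall (h : EdgeU U Nd) {X T y : ℝ} (hT : 0 ≤ T)
    (node : ∀ u, 0 < u → 1 ≤ u ^ 2 + T ^ 2 → u ^ 2 + T ^ 2 ≤ 3 → Nd u T →
      (T ≤ h0 ∨ 1 - Real.sqrt (1 - T ^ 2) ≤ u) → 1 / 2 ≤ U u y (y + T))
    (steep : h0 ≤ T → 1 / 2 ≤ U (1 - Real.sqrt (1 - T ^ 2)) y (y + T))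
    (h1 : 1 ≤ X ^ 2 + T ^ 2) (h2 : X ^ 2 + T ^ 2 ≤ 2 * X) (h3 : X ^ 2 + T ^ 2 ≤ 3) :
    1 / 2 ≤ U X y (y + T) := by
  have hX : 1 / 2 ≤ X := by linarith
  have hT1 : T ^ 2 ≤ 1 := by nlinarith [sq_nonneg (X - 1)]
  obtain ⟨a, b, a1, a2, a3, a4, a5, a6⟩ := h.pieces X T hT h1 h3
  obtain ⟨α, β, a7⟩ := a6 y
  have hb0 : 0 < b := by linarith
  have hr := Real.sqrt_nonneg (1 - T ^ 2)
  have hr2 := Real.sq_sqrt (show 0 ≤ 1 - T ^ 2 by linarith)
  set r := Real.sqrt (1 - T ^ 2) with hrd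
  have hlo : 1 - r ≤ X := by
    rcases le_total 1 X with h | h
    · linarith
    · have : (1 - X) ^ 2 ≤ r ^ 2 := by rw [hr2]; nlinarith
      have := abs_le_of_sq_le_sq' this hr
      linarith [this.2]
  have hb1 := a5 b (a1.trans a2) le_rfl
  have hbS := node b hb0 hb1.1 hb1.2 a4 (Or.inr (hlo.trans a2))
  rw [a7 b (a1.trans a2) le_rfl] at hbS
  rw [a7 X a1 a2]
  have fin : ∀ l, a ≤ l → l ≤ X → 1 / 2 ≤ U l y (y + T) → 1 / 2 ≤ α * X + β := by
    intro l l1 l2 l3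
    rw [a7 l l1 (l2.trans a2)] at l3
    have := affine_nonneg (α := α) (β := β - 1 / 2) l2 a2 (by linarith) (by linarith)
    linarith
  have ha1 := a5 a le_rfl (a1.trans a2)
  rcases le_or_gt T h0 with h10 | h10
  · have ha0 : 0 < a := by
      by_contra hneg
      have h11 := a5 0 (not_lt.1 hneg) (by linarith)
      have h12 := h0_sq
      have hp := h0_pos
      nlinarith [h11.1]
    exact fin a le_rfl a1 (node a ha0 ha1.1 ha1.2 a3 (Or.inl h10))
  · rcases le_total a (1 - r) with h11 | h11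
    · exact fin (1 - r) h11 hlo (steep h10.le)
    · rcases lt_or_ge 0 a with h12 | h12
      · exact fin a le_rfl a1 (node a h12 ha1.1 ha1.2 a3 (Or.inr h11))
      · have h13 : 1 ≤ r := by linarith
        have hp := h0_pos
        nlinarith [h0_sq]

/-- A linear inequality holds on an interval if it holds at the nodes in the interval and at its
ends. -/
theorem EdgeU.between (h : EdgeU U Nd) {X X0 X1 T y σ α β : ℝ} (h0 : X0 ≤ X) (h1 : X ≤ X1)
    (hT : 0 ≤ T) (k1 : 1 ≤ X ^ 2 + T ^ 2) (k3 : X ^ 2 + T ^ 2 ≤ 3)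
    (hn : ∀ u, X0 ≤ u → u ≤ X1 → 1 ≤ u ^ 2 + T ^ 2 → u ^ 2 + T ^ 2 ≤ 3 →
      (Nd u T ∨ u = X0 ∨ u = X1) → 0 ≤ σ * U u y (y + T) + α * u + β) :
    0 ≤ σ * U X y (y + T) + α * X + β := by
  obtain ⟨a, b, a1, a2, a3, a4, a5, a6⟩ := h.pieces X T hT k1 k3
  obtain ⟨α', β', a7⟩ := a6 y
  have key : ∀ u, a ≤ u → u ≤ b →
      σ * U u y (y + T) + α * u + β = (σ * α' + α) * u + (σ * β' + β) := by
    intro u u1 u2
    rw [a7 u u1 u2]
    ring
  have left : ∃ l, a ≤ l ∧ l ≤ X ∧ 0 ≤ (σ * α' + α) * l + (σ * β' + β) := by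
    rcases le_total a X0 with h2 | h2
    · have c := a5 X0 h2 (h0.trans a2)
      refine ⟨X0, h2, h0, ?_⟩
      rw [← key X0 h2 (h0.trans a2)]
      exact hn X0 le_rfl (h0.trans h1) c.1 c.2 (Or.inr (Or.inl rfl))
    · have c := a5 a le_rfl (a1.trans a2)
      refine ⟨a, le_rfl, a1, ?_⟩
      rw [← key a le_rfl (a1.trans a2)]
      exact hn a h2 (a1.trans h1) c.1 c.2 (Or.inl a3)
  have right : ∃ l, l ≤ b ∧ X ≤ l ∧ 0 ≤ (σ * α' + α) * l + (σ * β' + β) := by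
    rcases le_total X1 b with h2 | h2
    · have c := a5 X1 (a1.trans h1) h2
      refine ⟨X1, h2, h1, ?_⟩
      rw [← key X1 (a1.trans h1) h2]
      exact hn X1 (h0.trans h1) le_rfl c.1 c.2 (Or.inr (Or.inr rfl))
    · have c := a5 b (a1.trans a2) le_rfl
      refine ⟨b, le_rfl, a2, ?_⟩
      rw [← key b (a1.trans a2) le_rfl]
      exact hn b (h0.trans a2) h2 c.1 c.2 (Or.inl a4)
  obtain ⟨l, l1, l2, l3⟩ := left
  obtain ⟨r, r1, r2, r3⟩ := right
  rw [key X a1 a2]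
  exact affine_nonneg l2 r2 l3 r3

/-- **The inequalities at the floor**, nonnegative slacks. -/
structure WallU (U : ℝ → ℝ → ℝ → ℝ) (Nd : ℝ → ℝ → Prop) : Prop where
  node : ∀ X T y, 0 ≤ y → 0 ≤ T → T ≤ 1 → 0 < X → 1 ≤ X ^ 2 + T ^ 2 → X ^ 2 + T ^ 2 ≤ 3 →
    Nd X T → (T ≤ h0 ∨ 1 - Real.sqrt (1 - T ^ 2) ≤ X) → 1 / 2 ≤ U X y (y + T)
  steep : ∀ T y, 0 ≤ y → h0 ≤ T → T ≤ 1 → 1 / 2 ≤ U (1 - Real.sqrt (1 - T ^ 2)) y (y + T)

/-- A pair at the floor in normal form. -/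
theorem FF.nf {P : ℝ → ℝ → ℝ → Prop} {a b : Pt} (hf : FF a b) (k : ds a b ≤ 3)
    (hP : ∀ X y z, P X z y → P X y z)
    (h : ∀ X T y, 0 ≤ y → 0 ≤ T → T ≤ 1 → 1 ≤ X ^ 2 + T ^ 2 → X ^ 2 + T ^ 2 ≤ 2 * X →
      X ^ 2 + T ^ 2 ≤ 3 → X = b.1 - a.1 → T = |b.2 - a.2| → y = min a.2 b.2 → P X y (y + T)) :
    P (b.1 - a.1) a.2 b.2 := by
  have h1 := hf.sep
  have h2 := hf.two_x
  rw [ds_xz] at h1 k
  rcases le_total a.2 b.2 with h4 | h4
  · have := h (b.1 - a.1) (b.2 - a.2) a.2 hf.p0 (by linarith) (by linarith [hf.right_le, hf.p0])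
      h1 h2 k rfl (abs_of_nonneg (by linarith)).symm (min_eq_left h4).symm
    rwa [show a.2 + (b.2 - a.2) = b.2 by ring] at this
  · have := h (b.1 - a.1) (a.2 - b.2) b.2 hf.q0 (by linarith) (by linarith [hf.left_le, hf.q0])
      (by nlinarith) (by nlinarith) (by nlinarith) rfl (by
        rw [abs_sub_comm]
        exact (abs_of_nonneg (by linarith)).symm) (min_eq_right h4).symm
    rw [show b.2 + (a.2 - b.2) = a.2 by ring] at this
    exact hP _ _ _ this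

theorem WallU.pair (h : WallU U Nd) (hU : EdgeU U Nd) {a b : Pt} (hf : FF a b)
    (k : ds a b ≤ 3) : 1 / 2 ≤ U (b.1 - a.1) a.2 b.2 := by
  refine hf.nf (P := fun X y z => 1 / 2 ≤ U X y z) k (fun X y z h => by rwa [hU.comm] at h) ?_
  intro X T y hy hT hT1 h1 h2 h3 _ _ _
  exact hU.wall hT (fun u u0 u1 u3 un ur => h.node u T y hy hT hT1 u0 u1 u3 un ur)
    (fun ht => h.steep T y hy ht hT1) h1 h2 h3

/-- **The inequalities at the floor with the exceptional window.** -/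
structure WinU (U : ℝ → ℝ → ℝ → ℝ) (Nd : ℝ → ℝ → Prop) (D0 : ℝ) (al be : ℝ → ℝ) : Prop where
  al0 : ∀ T, 0 ≤ al T
  be0 : ∀ T, 0 ≤ be T
  node : ∀ X T y, 0 ≤ y → 3 / 100 ≤ T → T ≤ 1 → 0 < X → 1 ≤ X ^ 2 + T ^ 2 →
    X ^ 2 + T ^ 2 ≤ 3 → Nd X T → (T ≤ h0 ∨ 1 - Real.sqrt (1 - T ^ 2) ≤ X) →
    1 / 2 ≤ U X y (y + T)
  steep : ∀ T y, 0 ≤ y → h0 ≤ T → T ≤ 1 → 1 / 2 ≤ U (1 - Real.sqrt (1 - T ^ 2)) y (y + T)
  flat : ∀ X T y, 3 / 100 ≤ y → 0 ≤ T → T ≤ 3 / 100 → 0 < X → 1 ≤ X ^ 2 + T ^ 2 →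
    X ^ 2 + T ^ 2 ≤ 3 → Nd X T → 1 / 2 ≤ U X y (y + T)
  left : ∀ X T y, 0 ≤ y → y ≤ 3 / 100 → 0 ≤ T → T ≤ 3 / 100 → 0 < X → X ≤ D0 →
    1 ≤ X ^ 2 + T ^ 2 → X ^ 2 + T ^ 2 ≤ 3 → (Nd X T ∨ X = D0) → 1 / 2 ≤ U X y (y + T)
  high : ∀ X T T' y, 0 ≤ y → y ≤ 3 / 50 → 4 / 5 ≤ T → T ≤ 17 / 10 → T ≤ T' →
    T' ≤ T + 3 / 100 → 0 ≤ X → 1 ≤ X ^ 2 + T' ^ 2 → X ^ 2 + T' ^ 2 ≤ 3 →
    (Nd X T' ∨ X = 0) → 1 / 2 + al T * (X - D0 / 2) ≤ U X y (y + T')
  far : ∀ X T T' y, 0 ≤ y → y ≤ 3 / 50 → 22 / 25 ≤ T → T ≤ 67 / 50 → T ≤ T' →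
    T' ≤ T + 3 / 100 → D0 ≤ X → 1 ≤ X ^ 2 + T' ^ 2 → X ^ 2 + T' ^ 2 ≤ 3 →
    (Nd X T' ∨ X = D0) → 1 + be T * (X - D0) ≤ U X y (y + T')
  near : ∀ X T T' y, 0 ≤ y → y ≤ 3 / 50 → 22 / 25 ≤ T → T ≤ 67 / 50 → T ≤ T' →
    T' ≤ T + 3 / 100 → 0 < X → X ≤ 2 / 5 → 1 ≤ X ^ 2 + T' ^ 2 → X ^ 2 + T' ^ 2 ≤ 3 →
    (Nd X T' ∨ X = 2 / 5) → U X y (y + T') ≤ be T * X

/-- A pair in normal form. -/
theorem pair_nf {P : ℝ → ℝ → ℝ → Prop} {a b : Pt} (ha : 0 ≤ a.2) (hb : 0 ≤ b.2)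
    (k1 : 1 ≤ ds a b) (k3 : ds a b ≤ 3) (hP : ∀ X y z, P X z y → P X y z)
    (h : ∀ X T y, 0 ≤ y → 0 ≤ T → 1 ≤ X ^ 2 + T ^ 2 → X ^ 2 + T ^ 2 ≤ 3 → X = b.1 - a.1 →
      T = |b.2 - a.2| → y = min a.2 b.2 → P X y (y + T)) : P (b.1 - a.1) a.2 b.2 := by
  rw [ds_xz] at k1 k3
  rcases le_total a.2 b.2 with h4 | h4
  · have := h (b.1 - a.1) (b.2 - a.2) a.2 ha (by linarith)
      k1 k3 rfl (abs_of_nonneg (by linarith)).symm (min_eq_left h4).symm
    rwa [show a.2 + (b.2 - a.2) = b.2 by ring] at this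
  · have := h (b.1 - a.1) (a.2 - b.2) b.2 hb (by linarith)
      (by nlinarith) (by nlinarith) rfl (by
        rw [abs_sub_comm]
        exact (abs_of_nonneg (by linarith)).symm) (min_eq_right h4).symm
    rw [show b.2 + (a.2 - b.2) = a.2 by ring] at this
    exact hP _ _ _ this

variable {D0 : ℝ} {al be : ℝ → ℝ}

theorem WinU.pair (h : WinU U Nd D0 al be) (hU : EdgeU U Nd)
    {a b : Pt} (hf : FF a b) (k : ds a b ≤ 3) :
    1 / 2 ≤ U (b.1 - a.1) a.2 b.2 ∨ WinP D0 a b := by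
  by_cases hw : WinP D0 a b
  · exact Or.inr hw
  left
  refine hf.nf (P := fun X y z => 1 / 2 ≤ U X y z) k (fun X y z h => by rwa [hU.comm] at h) ?_
  intro X T y hy hT hT1 h1 h2 h3 eX eT ey
  rcases le_total (3 / 100) T with ht | ht
  · exact hU.wall hT (fun u u0 u1 u3 un ur => h.node u T y hy ht hT1 u0 u1 u3 un ur)
      (fun ht => h.steep T y hy ht hT1) h1 h2 h3
  · have hX0 : 0 ≤ X := by linarith
    rcases le_total (3 / 100) y with hy1 | hy1
    · have := hU.lin (X := X) (T := T) (y := y) (σ := 1) (α := 0) (β := -(1 / 2))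
        (Or.inr (by linarith)) hX0 hT h1 h3 (fun u u0 u1 u3 un => by
          have := h.flat u T y hy1 hT ht u0 u1 u3 un
          linarith)
      linarith
    · have hXl : X < D0 := by
        by_contra hc
        apply hw
        have h5 : |b.2 - a.2| ≤ 3 / 100 := by rw [← eT]; exact ht
        rw [abs_le] at h5
        exact ⟨by rw [← eX]; exact not_lt.1 hc, h5.2, by linarith [h5.1], by rw [← ey]; exact hy1⟩
      have := hU.between (X := X) (X0 := 0) (X1 := D0) (T := T) (y := y) (σ := 1) (α := 0)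
        (β := -(1 / 2)) hX0 hXl.le hT h1 h3 (fun u u0 u1 u2 u3 un => by
          have hu0 : 0 < u := by
            rcases u0.eq_or_lt with h9 | h9
            · exfalso
              rw [← h9] at u2
              nlinarith
            · exact h9
          have := h.left u T y hy hy1 hT ht hu0 u1 u2 u3 (by
            rcases un with un | un | un
            · exact Or.inl un
            · exact absurd un hu0.ne'
            · exact Or.inr un)
          linarith)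
      linarith

/-- The inequalities for one vertex from the list. -/
theorem WinU.winV {D : Data} {s μ : ℝ} (h : WinU U Nd D0 al be) (hU : EdgeU U Nd)
    (hW : ∀ a b : Pt, ds a b ≤ 3 → WF D s μ a b + 1 / 2 = U (b.1 - a.1) a.2 b.2)
    (tri : ∀ p q r : Pt, 0 ≤ p.2 → 0 ≤ q.2 → 0 ≤ r.2 → 0 ≤ cr p q r → 1 ≤ ds p q →
      1 ≤ ds q r → 1 ≤ ds p r → ds p q ≤ 3 → ds q r ≤ 3 → ds p r ≤ 3 → p.2 ≤ 3 * h0 →
      q.2 ≤ 3 * h0 → r.2 ≤ 3 * h0 → 0 ≤ SF D s μ p q r) : WinV D s μ D0 al be := by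
  refine ⟨tri, ?_, h.al0, h.be0, ?_, ?_, ?_⟩
  · intro a b hf k
    rcases h.pair hU hf k with h1 | h1
    · left
      rw [← hW a b k] at h1
      linarith
    · exact Or.inr h1
  · intro T a b ha hb hx k1 k3 hm t1 t2 t3 t4
    have e := hW a b k3
    have key : 1 / 2 + al T * (b.1 - a.1 - D0 / 2) ≤ U (b.1 - a.1) a.2 b.2 := by
      refine pair_nf (P := fun X y z => 1 / 2 + al T * (X - D0 / 2) ≤ U X y z) ha hb k1 k3
        (fun X y z h => by rwa [hU.comm] at h) ?_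
      intro X T' y hy hT h1 h3 eX eT ey
      rw [← eT] at t3 t4
      rw [← ey] at hm
      have hX0 : 0 ≤ X := by rw [eX]; linarith
      have := hU.between (X := X) (X0 := 0) (X1 := 2) (T := T') (y := y) (σ := 1)
        (α := -al T) (β := al T * (D0 / 2) - 1 / 2) hX0 (by nlinarith) hT h1 h3
        (fun u u0 u1 u2 u3 un => by
          have := h.high u T T' y hy hm t1 t2 t3 t4 u0 u2 u3 (by
            rcases un with un | un | un
            · exact Or.inl un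
            · exact Or.inr un
            · exfalso
              rw [un] at u3
              nlinarith)
          linarith)
      linarith
    linarith
  · intro T a b ha hb k1 k3 hm t1 t2 t3 t4 hx
    have e := hW a b k3
    have key : 1 + be T * (b.1 - a.1 - D0) ≤ U (b.1 - a.1) a.2 b.2 := by
      have : D0 ≤ b.1 - a.1 → 1 + be T * (b.1 - a.1 - D0) ≤ U (b.1 - a.1) a.2 b.2 := by
        refine pair_nf (P := fun X y z => D0 ≤ X → 1 + be T * (X - D0) ≤ U X y z) ha hb k1 k3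
          (fun X y z h h' => by have := h h'; rwa [hU.comm] at this) ?_
        intro X T' y hy hT h1 h3 eX eT ey hX
        rw [← eT] at t3 t4
        rw [← ey] at hm
        have := hU.between (X := X) (X0 := D0) (X1 := 2) (T := T') (y := y) (σ := 1)
          (α := -be T) (β := be T * D0 - 1) hX (by nlinarith) hT h1 h3
          (fun u u0 u1 u2 u3 un => by
            have := h.far u T T' y hy hm t1 t2 t3 t4 u0 u2 u3 (by
              rcases un with un | un | un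
              · exact Or.inl un
              · exact Or.inr un
              · exfalso
                rw [un] at u3
                nlinarith)
            linarith)
        linarith
      exact this hx
    linarith
  · intro T a b ha hb hx k1 k3 hm t1 t2 t3 t4 hx'
    have e := hW a b k3
    have key : b.1 - a.1 ≤ 2 / 5 → 0 ≤ b.1 - a.1 →
        U (b.1 - a.1) a.2 b.2 ≤ be T * (b.1 - a.1) := by
      refine pair_nf (P := fun X y z => X ≤ 2 / 5 → 0 ≤ X → U X y z ≤ be T * X) ha hb k1 k3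
        (fun X y z h h' h'' => by have := h h' h''; rwa [hU.comm] at this) ?_
      intro X T' y hy hT h1 h3 eX eT ey hX hX0
      rw [← eT] at t3 t4
      rw [← ey] at hm
      have := hU.between (X := X) (X0 := 0) (X1 := 2 / 5) (T := T') (y := y) (σ := -1)
        (α := be T) (β := 0) hX0 hX hT h1 h3
        (fun u u0 u1 u2 u3 un => by
          rcases u0.eq_or_lt with h9 | h9
          · rw [← h9, hU.zero]
            linarith
          · have := h.near u T T' y hy hm t1 t2 t3 t4 h9 u1 u2 u3 (by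
              rcases un with un | un | un
              · exact Or.inl un
              · exact absurd un h9.ne'
              · exact Or.inr un)
            linarith)
      linarith
    rw [e]
    exact key hx' (by linarith)

end

end Pool.Agent.Strip051.LC
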