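import Pool.Agent.Strip051.LC.Exact.Star

/-! # The exact count with the modified edge function

The inequalities at the floor (`FloorAt`) are not needed: they are replaced by inequalities for the
triangles which have a lower edge at the floor. -/

namespace Pool.Agent.Strip051.LC

open Pool.Agent.StripNear Pool.Agent.StripSquare Pool.Agent.Strip051.Sweep

/-- The slack of the inequality at the floor. -/
noncomputable def WF (D : Data) (s μ : ℝ) (a b : Pt) : ℝ :=
  (b.1 - a.1) * (1 / 2 - we s - μ * wq s + (a.2 + b.2) / (2 * h0)) - 1 / 2 -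
    ed (D.Q μ (-(1 / 2 - g s * μ))) (dn s a) (dn s b)

/-- The slack of a triangle with the level of the floor. -/
noncomputable def SF (D : Data) (s μ : ℝ) (p q r : Pt) : ℝ :=
  cr p q r / (2 * h0) - 1 / 2 + fl (D.Q μ (-(1 / 2 - g s * μ))) (dn s p) (dn s q) (dn s r)

/-- The conditions on the triangles which have a lower edge at the floor.  `a`, `b` are the
leftmost and the rightmost vertex, `m` is the largest value of `μ`. -/
structure StarRows (D : Data) (s m : ℝ) : Prop where
  /-- `c` is above `a b` -/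
  upper : ∀ a b c o R, Cell a b c o R → 0 ≤ o.2 → 0 ≤ c.2 → a.1 ≤ c.1 → c.1 ≤ b.1 → FF a b →
    ¬(FF a c ∧ FF c b) →
    (∀ μ, μ = 0 ∨ μ = m → 0 ≤ SF D s μ a b c + WF D s μ a b) ∨
    (FF a c ∧ ∀ μ, μ = 0 ∨ μ = m → 0 ≤ SF D s μ a b c + WF D s μ a b - WF D s μ a c) ∨
    (FF c b ∧ ∀ μ, μ = 0 ∨ μ = m → 0 ≤ SF D s μ a b c + WF D s μ a b - WF D s μ c b)
  /-- `c` is below `a b`, the left lower edge -/
  lowerL : ∀ a c b o R, Cell a c b o R → 0 ≤ o.2 → 0 ≤ b.2 → a.1 ≤ c.1 → c.1 ≤ b.1 → FF a c →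
    (∀ μ, μ = 0 ∨ μ = m → 0 ≤ SF D s μ a c b + WF D s μ a c) ∨
    (FF a b ∧ ∀ μ, μ = 0 ∨ μ = m → 0 ≤ SF D s μ a c b + WF D s μ a c - WF D s μ a b)
  /-- `c` is below `a b`, the right lower edge -/
  lowerR : ∀ a c b o R, Cell a c b o R → 0 ≤ o.2 → 0 ≤ a.2 → a.1 ≤ c.1 → c.1 ≤ b.1 → FF c b →
    (∀ μ, μ = 0 ∨ μ = m → 0 ≤ SF D s μ a c b + WF D s μ c b) ∨
    (FF a b ∧ ∀ μ, μ = 0 ∨ μ = m → 0 ≤ SF D s μ a c b + WF D s μ c b - WF D s μ a b)
  /-- `c` is below `a b`, both lower edges -/
  lower2 : ∀ a c b o R, Cell a c b o R → 0 ≤ o.2 → a.1 ≤ c.1 → c.1 ≤ b.1 → FF a c → FF c b →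
    (∀ μ, μ = 0 ∨ μ = m → 0 ≤ SF D s μ a c b + WF D s μ a c + WF D s μ c b) ∨
    (FF a b ∧ ∀ μ, μ = 0 ∨ μ = m →
      0 ≤ SF D s μ a c b + WF D s μ a c + WF D s μ c b - WF D s μ a b)

theorem WF_aff (D : Data) (s : ℝ) (a b : Pt) : ∃ A B : ℝ, ∀ μ, WF D s μ a b = A + μ * B := by
  refine ⟨WF D s 0 a b, WF D s 1 a b - WF D s 0 a b, fun μ => ?_⟩
  unfold WF ed Data.Q
  ring

theorem SF_aff (D : Data) (s : ℝ) (p q r : Pt) : ∃ A B : ℝ, ∀ μ, SF D s μ p q r = A + μ * B := by
  refine ⟨SF D s 0 p q r, SF D s 1 p q r - SF D s 0 p q r, fun μ => ?_⟩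
  unfold SF fl ed Data.Q
  ring

theorem aff_nonneg {A B m μ : ℝ} (h0 : 0 ≤ μ) (h1 : μ ≤ m) (ha : 0 ≤ A + 0 * B)
    (hb : 0 ≤ A + m * B) : 0 ≤ A + μ * B := by
  rcases le_total 0 B with h | h
  · nlinarith [mul_nonneg h0 h]
  · nlinarith [mul_nonneg_of_nonpos_of_nonpos (sub_nonpos.2 h1) h]

/-- The conditions hold for all smaller `μ`. -/
theorem StarRows.mono {D : Data} {s m : ℝ} (h : StarRows D s m) {μ : ℝ} (h0 : 0 ≤ μ)
    (h1 : μ ≤ m) : StarRows D s μ := by
  have one : ∀ {f : ℝ → ℝ}, (∃ A B : ℝ, ∀ ν, f ν = A + ν * B) →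
      (∀ ν, ν = 0 ∨ ν = m → 0 ≤ f ν) → ∀ ν, ν = 0 ∨ ν = μ → 0 ≤ f ν := by
    intro f hf hm ν hν
    obtain ⟨A, B, hAB⟩ := hf
    rcases hν with rfl | rfl
    · exact hm 0 (Or.inl rfl)
    · rw [hAB]
      have e0 := hm 0 (Or.inl rfl)
      have em := hm m (Or.inr rfl)
      rw [hAB] at e0 em
      exact aff_nonneg h0 h1 e0 em
  have add : ∀ {f f' : ℝ → ℝ}, (∃ A B : ℝ, ∀ ν, f ν = A + ν * B) →
      (∃ A B : ℝ, ∀ ν, f' ν = A + ν * B) → ∃ A B : ℝ, ∀ ν, f ν + f' ν = A + ν * B := by
    intro f f' ⟨A, B, e⟩ ⟨A', B', e'⟩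
    exact ⟨A + A', B + B', fun ν => by rw [e, e']; ring⟩
  have sub : ∀ {f f' : ℝ → ℝ}, (∃ A B : ℝ, ∀ ν, f ν = A + ν * B) →
      (∃ A B : ℝ, ∀ ν, f' ν = A + ν * B) → ∃ A B : ℝ, ∀ ν, f ν - f' ν = A + ν * B := by
    intro f f' ⟨A, B, e⟩ ⟨A', B', e'⟩
    exact ⟨A - A', B - B', fun ν => by rw [e, e']; ring⟩
  refine ⟨?_, ?_, ?_, ?_⟩
  · intro a b c o R k1 k2 k3 k4 k5 k6 k7
    rcases h.upper a b c o R k1 k2 k3 k4 k5 k6 k7 with h2 | ⟨h2, h3⟩ | ⟨h2, h3⟩
    · exact Or.inl (one (add (SF_aff D s a b c) (WF_aff D s a b)) h2)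
    · exact Or.inr (Or.inl ⟨h2, one (sub (add (SF_aff D s a b c) (WF_aff D s a b))
        (WF_aff D s a c)) h3⟩)
    · exact Or.inr (Or.inr ⟨h2, one (sub (add (SF_aff D s a b c) (WF_aff D s a b))
        (WF_aff D s c b)) h3⟩)
  · intro a c b o R k1 k2 k3 k4 k5 k6
    rcases h.lowerL a c b o R k1 k2 k3 k4 k5 k6 with h2 | ⟨h2, h3⟩
    · exact Or.inl (one (add (SF_aff D s a c b) (WF_aff D s a c)) h2)
    · exact Or.inr ⟨h2, one (sub (add (SF_aff D s a c b) (WF_aff D s a c)) (WF_aff D s a b)) h3⟩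
  · intro a c b o R k1 k2 k3 k4 k5 k6
    rcases h.lowerR a c b o R k1 k2 k3 k4 k5 k6 with h2 | ⟨h2, h3⟩
    · exact Or.inl (one (add (SF_aff D s a c b) (WF_aff D s c b)) h2)
    · exact Or.inr ⟨h2, one (sub (add (SF_aff D s a c b) (WF_aff D s c b)) (WF_aff D s a b)) h3⟩
  · intro a c b o R k1 k2 k3 k4 k5 k6
    rcases h.lower2 a c b o R k1 k2 k3 k4 k5 k6 with h2 | ⟨h2, h3⟩
    · exact Or.inl (one (add (add (SF_aff D s a c b) (WF_aff D s a c)) (WF_aff D s c b)) h2)
    · exact Or.inr ⟨h2, one (sub (add (add (SF_aff D s a c b) (WF_aff D s a c))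
        (WF_aff D s c b)) (WF_aff D s a b)) h3⟩

/-- The rows of the modified certificate. -/
theorem star_rows {H w : ℝ} {F : Pt → Pt → ℝ} {D : Data} {s μ : ℝ}
    (hanti : ∀ a b, F b a = -F a b) (hR : StarRows D s μ)
    (hW : ∀ a b, wf w F a b = WF D s μ a b)
    (hS : ∀ p q r, F p q + F q r + F r p - 1 / 2 = SF D s μ p q r)
    (htri : ∀ p q r o R, Cell p q r o R → In H p → In H q → In H r →
      1 / 2 ≤ F p q + F q r + F r p) :
    ∀ p q r o R, In H p → In H q → In H r → In H o → Cell p q r o R →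
      1 / 2 ≤ F p q + F q r + F r p + corr w F p q r := by
  classical
  -- `p` is the leftmost vertex
  have left : ∀ p q r o R, In H p → In H q → In H r → In H o → Cell p q r o R → p.1 ≤ q.1 →
      p.1 ≤ r.1 → 1 / 2 ≤ F p q + F q r + F r p + corr w F p q r := by
    intro p q r o R hp hq hr ho hc h1 h2
    have hT := htri p q r o R hc hp hq hr
    have hSe := hS p q r
    have wmle : ∀ a b, FF a b → wm w F a b ≤ WF D s μ a b := by
      intro a b h
      rw [wm_of h, ← hW]
      exact min_le_right _ _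
    have wm0 : ∀ a b, wm w F a b ≤ 0 := fun a b => wm_nonpos a b
    have wmeq : ∀ a b, FF a b → wm w F a b = 0 ∨ wm w F a b = WF D s μ a b := by
      intro a b h
      rw [wm_of h, ← hW]
      rcases min_choice 0 (w * (b.1 - a.1) - 1 / 2 - F a b) with h' | h'
      · exact Or.inl h'
      · exact Or.inr h'
    have z1 : ∀ a b : Pt, a.1 ≤ b.1 → wm w F b a = 0 := fun a b h =>
      wm_not (fun h' => by have := h'.lt; linarith)
    rcases le_total q.1 r.1 with h3 | h3
    · -- `q` is below `p r`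
      have e : corr w F p q r = wm w F p q + wm w F q r - wm w F p r := by
        unfold corr
        rw [z1 p q h1, z1 q r h3, z1 p r h2]
        ring
      rw [e]
      have t0 := wm0 p r
      have bonus : ∀ x : ℝ, (0 ≤ x ∨ (FF p r ∧ 0 ≤ x - WF D s μ p r)) → 0 ≤ x - wm w F p r := by
        intro x hx
        rcases hx with hx | ⟨h4, hx⟩
        · linarith
        · have := wmle p r h4
          linarith
      by_cases f1 : FF p q
      · by_cases f2 : FF q r
        · rcases wmeq p q f1 with w1 | w1 <;> rcases wmeq q r f2 with w2 | w2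
          · rw [w1, w2]
            linarith
          · rw [w1, w2]
            have := bonus (SF D s μ p q r + WF D s μ q r) (by
              rcases hR.lowerR p q r o R hc ho.1 hp.1 h1 h3 f2 with h4 | ⟨h4, h5⟩
              · exact Or.inl (h4 μ (Or.inr rfl))
              · exact Or.inr ⟨h4, h5 μ (Or.inr rfl)⟩)
            linarith
          · rw [w1, w2]
            have := bonus (SF D s μ p q r + WF D s μ p q) (by
              rcases hR.lowerL p q r o R hc ho.1 hr.1 h1 h3 f1 with h4 | ⟨h4, h5⟩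
              · exact Or.inl (h4 μ (Or.inr rfl))
              · exact Or.inr ⟨h4, h5 μ (Or.inr rfl)⟩)
            linarith
          · rw [w1, w2]
            have := bonus (SF D s μ p q r + WF D s μ p q + WF D s μ q r) (by
              rcases hR.lower2 p q r o R hc ho.1 h1 h3 f1 f2 with h4 | ⟨h4, h5⟩
              · exact Or.inl (h4 μ (Or.inr rfl))
              · exact Or.inr ⟨h4, h5 μ (Or.inr rfl)⟩)
            linarith
        · rw [wm_not f2]
          rcases wmeq p q f1 with w1 | w1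
          · rw [w1]
            linarith
          · rw [w1]
            have := bonus (SF D s μ p q r + WF D s μ p q) (by
              rcases hR.lowerL p q r o R hc ho.1 hr.1 h1 h3 f1 with h4 | ⟨h4, h5⟩
              · exact Or.inl (h4 μ (Or.inr rfl))
              · exact Or.inr ⟨h4, h5 μ (Or.inr rfl)⟩)
            linarith
      · rw [wm_not f1]
        by_cases f2 : FF q r
        · rcases wmeq q r f2 with w2 | w2
          · rw [w2]
            linarith
          · rw [w2]
            have := bonus (SF D s μ p q r + WF D s μ q r) (by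
              rcases hR.lowerR p q r o R hc ho.1 hp.1 h1 h3 f2 with h4 | ⟨h4, h5⟩
              · exact Or.inl (h4 μ (Or.inr rfl))
              · exact Or.inr ⟨h4, h5 μ (Or.inr rfl)⟩)
            linarith
        · rw [wm_not f2]
          linarith
    · -- `r` is above `p q`
      have e : corr w F p q r = wm w F p q - wm w F r q - wm w F p r := by
        unfold corr
        rw [z1 p q h1, z1 r q h3, z1 p r h2]
        ring
      rw [e]
      have t1 := wm0 r q
      have t2 := wm0 p r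
      by_cases f1 : FF p q
      · by_cases f2 : FF p r ∧ FF r q
        · have := row_auto (w := w) hanti f1 f2.1 f2.2 hT
          rw [e] at this
          exact this
        · rcases wmeq p q f1 with w1 | w1
          · rw [w1]
            linarith
          · rw [w1]
            rcases hR.upper p q r o R hc ho.1 hr.1 h2 h3 f1 f2 with h4 | ⟨h4, h5⟩ | ⟨h4, h5⟩
            · have := h4 μ (Or.inr rfl)
              linarith
            · have := h5 μ (Or.inr rfl)
              have := wmle p r h4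
              linarith
            · have := h5 μ (Or.inr rfl)
              have := wmle r q h4
              linarith
      · rw [wm_not f1]
        linarith
  intro p q r o R hp hq hr ho hc
  have rotc : ∀ p q r, corr w F q r p = corr w F p q r := by
    intro p q r
    unfold corr
    ring
  rcases le_total p.1 q.1 with h1 | h1
  · rcases le_total p.1 r.1 with h2 | h2
    · exact left p q r o R hp hq hr ho hc h1 h2
    · have := left r p q o R hr hp hq ho hc.rot.rot h2 (h2.trans h1)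
      rw [← rotc r p q] at this
      linarith
  · rcases le_total q.1 r.1 with h2 | h2
    · have := left q r p o R hq hr hp ho hc.rot h2 h1
      rw [rotc p q r] at this
      linarith
    · have := left r p q o R hr hp hq ho hc.rot.rot (h2.trans h1) h2
      rw [← rotc r p q] at this
      linarith

/-- **The exact count with the modified edge function.** -/
theorem countBound_of_star {D : Data} (hD : D.Ok) {N0 : ℕ} {s : ℝ} (hs0 : 0 ≤ s) (hs1 : s < h0)
    {n : ℕ} (hn : N0 ≤ n) (hH2 : 2 < n * h0 + s) (hR : StarRows D s (1 / (N0 + 2 * g s)))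
    (hV : TriStrip D n s) : CountBound n s := by
  have hh := h0_pos
  have hn0 : (0 : ℝ) ≤ n := Nat.cast_nonneg n
  have hN0 : (0 : ℝ) ≤ N0 := Nat.cast_nonneg N0
  have hnN : (N0 : ℝ) ≤ n := by exact_mod_cast hn
  have hg : 0 < g s := by linarith [g_gt_half hs0 hs1]
  have hh1 : h0 < 1 := by nlinarith [h0_sq]
  set μ := 1 / ((n : ℝ) + 2 * g s) with hμ
  have hμ0 : 0 < μ := by positivity
  have hμ1 : μ * (n + 2 * g s) = 1 := by
    rw [hμ]
    field_simp
  have hμm : μ ≤ 1 / (N0 + 2 * g s) := by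
    rw [hμ]
    apply one_div_le_one_div_of_le (by positivity)
    linarith
  have hR' := hR.mono hμ0.le hμm
  have hH : 0 ≤ (n : ℝ) * h0 + s := by positivity
  set H := (n : ℝ) * h0 + s with hHd
  have hW : 2 * (μ * ((n + 1) * (n + 2)) / 2) * (n + 2 * g s) = ((n : ℝ) + 1) * (n + 2) := by
    linear_combination ((n : ℝ) + 1) * (n + 2) * hμ1
  obtain ⟨K, hK⟩ := hD.bdd (H + 1)
  have hK0 : 0 ≤ K := (abs_nonneg _).trans
    (hK 0 0 0 (by simp) (by simp only [abs_zero]; linarith) (by simp only [abs_zero]; linarith)).1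
  set w := μ * ((n + 1) * (n + 2)) / 2 with hw
  set F := FQ H (D.QS n s) with hF
  have hanti : ∀ a b, F b a = -F a b := by
    intro a b
    have := hD.QS_anti n s (b.1 - a.1) a.2 b.2
    rw [hF]
    unfold FQ ed
    rw [show a.1 - b.1 = -(b.1 - a.1) by ring, this]
    ring
  have hmir : ∀ a b, F (mir H a) (mir H b) = F b a := by
    intro a b
    have h1 := hD.QS_anti n s (b.1 - a.1) a.2 b.2
    have h2 := hD.QS_mirror n s (b.1 - a.1) a.2 b.2
    rw [hF]
    unfold FQ ed mir
    simp only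
    rw [h2, show a.1 - b.1 = -(b.1 - a.1) by ring, h1]
    ring
  have hed : ∀ a b, ed (D.QS n s) a b = ed (D.Q μ (-(1 / 2 - g s * μ))) (dn s a) (dn s b) := by
    intro a b
    unfold ed Data.QS dn
    simp only
    congr 1
    rw [← hμ]
    linear_combination (-(1 / 2 : ℝ)) * hμ1
  have e2 : w = 1 / 2 - we s - μ * wq s + H / (2 * h0) := by
    have e3 : H / (2 * h0) = n / 2 + s / (2 * h0) := by
      rw [hHd]
      field_simp
    rw [e3, hw]
    unfold we wq
    linear_combination ((n + 3 - 2 * g s) / 2 : ℝ) * hμ1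
  have hWF : ∀ a b, wf w F a b = WF D s μ a b := by
    intro a b
    unfold wf WF
    rw [hF]
    unfold FQ
    rw [hed, e2]
    field_simp
    ring
  have hSF : ∀ p q r, F p q + F q r + F r p - 1 / 2 = SF D s μ p q r := by
    intro p q r
    rw [hF, FQ_tri]
    unfold SF fl
    rw [hed, hed, hed]
    ring
  have htri : ∀ p q r o R, Cell p q r o R → In H p → In H q → In H r →
      1 / 2 ≤ F p q + F q r + F r p := by
    intro p q r o R hc hp hq hr
    rw [hF, FQ_tri]
    exact hV p q r o R hc hp hq hr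
  have rows := star_rows (H := H) (w := w) hanti hR' hWF hSF htri
  have hsym : SymH H w (star H w F) := symH_star hH2 hanti hmir (by
    intro p q r o R hp hq hr ho k1 k2 k3 k4 k5 k6 k7 k8
    exact rows p q r o R hp hq hr ho ⟨k1, k2, k3, k4, k5, k6, k7, k8⟩)
  have hKF : ∀ a b : Pt, |a.1 - b.1| ≤ 2 → 0 ≤ a.2 → a.2 ≤ H → 0 ≤ b.2 → b.2 ≤ H →
      |F a b| ≤ H / h0 + (K + μ * K + μ * (n / 2) * K) := by
    intro a b hab ha0 haH hb0 hbH
    rw [hF]
    unfold FQ
    refine (abs_add_le _ _).trans ?_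
    have h1 : |-((b.1 - a.1) * (a.2 + b.2 - H)) / (2 * h0)| ≤ H / h0 := by
      have e1 : |a.2 + b.2 - H| ≤ H := by
        rw [abs_le]
        constructor <;> linarith
      rw [abs_div, abs_neg, abs_mul, abs_of_pos (by linarith : 0 < 2 * h0),
        div_le_div_iff₀ (by linarith) hh, abs_sub_comm]
      have e2 : |a.1 - b.1| * |a.2 + b.2 - H| ≤ 2 * H :=
        mul_le_mul hab e1 (abs_nonneg _) (by norm_num)
      calc |a.1 - b.1| * |a.2 + b.2 - H| * h0 ≤ 2 * H * h0 := mul_le_mul_of_nonneg_right e2 hh.le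
        _ = H * (2 * h0) := by ring
    have h2 : |ed (D.QS n s) a b| ≤ K + μ * K + μ * (n / 2) * K := by
      unfold ed Data.QS Data.Q
      obtain ⟨b0, b1, b2⟩ := hK (b.1 - a.1) (a.2 - s / 2) (b.2 - s / 2)
        (by rw [abs_sub_comm]; exact hab)
        (by rw [abs_le]; constructor <;> linarith) (by rw [abs_le]; constructor <;> linarith)
      rw [← hμ]
      have c1 : |μ * D.R1 (b.1 - a.1) (a.2 - s / 2) (b.2 - s / 2)| ≤ μ * K := by
        rw [abs_mul, abs_of_pos hμ0]
        exact mul_le_mul_of_nonneg_left b1 hμ0.le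
      have c2 : |-(μ * (n / 2)) * D.R2 (b.1 - a.1) (a.2 - s / 2) (b.2 - s / 2)| ≤
          μ * (n / 2) * K := by
        rw [abs_mul, abs_neg, abs_of_nonneg (by positivity)]
        exact mul_le_mul_of_nonneg_left b2 (by positivity)
      refine (abs_sub _ _).trans (add_le_add ((abs_add_le _ _).trans (add_le_add b0 c1)) c2)
    exact add_le_add h1 h2
  set K1 := H / h0 + (K + μ * K + μ * (n / 2) * K) with hK1
  have hK10 : 0 ≤ K1 := by positivity
  have hw0 : 0 ≤ w := by positivity
  refine hsym.countBound hs0 hs1 hW (K := K1 + (2 * w + 1 / 2)) ?_ (by positivity)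
  intro a b hab ha0 haH hb0 hbH
  have hba : |b.1 - a.1| ≤ 2 := by rwa [abs_sub_comm]
  have hl : ∀ x : ℝ, |x| ≤ 2 → |w * x - 1 / 2| ≤ K1 + (2 * w + 1 / 2) := by
    intro x hx
    have h3 : |w * x| ≤ w * 2 := by
      rw [abs_mul, abs_of_nonneg hw0]
      exact mul_le_mul_of_nonneg_left hx hw0
    rw [abs_le] at h3 ⊢
    constructor <;> linarith
  exact star_abs (K := K1) (hKF a b hab ha0 haH hb0 hbH)
    (hKF b a hba hb0 hbH ha0 haH) (hl _ hba) (hl _ hab) (by linarith)

end Pool.Agent.Strip051.LC
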