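import Pool.Agent.Strip051.LC.Edge
import Pool.Agent.Strip051.Main
import Pool.Agent.Strip051.Front

/-! # Certificates which are good in a strip only

`SymH` is `Sym` with all points (and the centre of the circle) in the strip `0 ≤ y ≤ H`.  This is
what is needed for the exact weight, where the edge function contains the height above the floor. -/

namespace Pool.Agent.Strip051.LC

open Pool.Agent.StripNear Pool.Agent.StripSquare Pool.Agent.Strip051.Sweep

/-- A point with its height in `[0, H]`. -/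
def In (H : ℝ) (p : Pt) : Prop := 0 ≤ p.2 ∧ p.2 ≤ H

theorem In.mir {H : ℝ} {p : Pt} (h : In H p) : In H (mir H p) := by
  obtain ⟨h1, h2⟩ := h
  unfold LC.mir
  exact ⟨by simp only; linarith, by simp only; linarith⟩

/-- A symmetric local certificate for the strip. -/
structure SymH (H w : ℝ) (F : Pt → Pt → ℝ) : Prop where
  anti : ∀ a b, F b a = -F a b
  mirror : ∀ a b, F (mir H a) (mir H b) = F b a
  tri : ∀ p q r o R, In H p → In H q → In H r → In H o → 0 ≤ cr p q r → 1 ≤ ds p q →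
    1 ≤ ds q r → 1 ≤ ds p r → ds p o = R → ds q o = R → ds r o = R → R ≤ 1 →
    1 / 2 ≤ F p q + F q r + F r p
  wall : ∀ (p q : Pt) (m : ℝ), p.1 ≤ q.1 → In H p → In H q → 1 ≤ ds p q →
    (p.1 - m) ^ 2 + p.2 ^ 2 = (q.1 - m) ^ 2 + q.2 ^ 2 → (p.1 - m) ^ 2 + p.2 ^ 2 ≤ 1 →
    1 / 2 ≤ w * (q.1 - p.1) + F q p

theorem SymH.cells {H w : ℝ} {F : Pt → Pt → ℝ} (hF : SymH H w F) :
    Cells H F (fun a => w * a.1) (fun a => w * a.1) := by
  have e1 : ∀ (p : Pt) (m z : ℝ), ds p (m, z) = dq p m z := by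
    intro p m z
    unfold ds dq
    simp only
  have e2 : ∀ p q : Pt, ds p q = Pool.Agent.Strip051.Sweep.sq p q := by
    intro p q
    unfold ds Pool.Agent.Strip051.Sweep.sq
    ring
  refine ⟨?_, ?_, ?_, ?_, ?_, ?_⟩
  · intro a b c m z h hm
    have hab := h.hab.le
    have hbc := h.hbc.le
    have ha0 := h.ha0
    have hcH := h.hcH
    have h1 := hF.tri a b c (m, z) (dq b m z) ⟨ha0, by linarith⟩ ⟨by linarith, by linarith⟩
      ⟨by linarith, hcH⟩ ⟨h.hz0, h.hzH⟩ (cr_nonneg_of_Tri h hm) (by rw [e2]; exact h.sab)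
      (by rw [e2]; exact h.sbc) (by rw [e2]; exact h.sac) (by rw [e1]; exact h.eab) (e1 b m z)
      (by rw [e1]; exact h.ebc.symm) h.rad
    have h2 := hF.anti a c
    linarith
  · intro a b c m z h hm
    have hab := h.hab.le
    have hbc := h.hbc.le
    have ha0 := h.ha0
    have hcH := h.hcH
    have h0 := cr_nonpos_of_Tri h hm
    have h1 := hF.tri c b a (m, z) (dq b m z) ⟨by linarith, hcH⟩ ⟨by linarith, by linarith⟩
      ⟨ha0, by linarith⟩ ⟨h.hz0, h.hzH⟩
      (by rw [cr_swap, cr_rot]; linarith) (by rw [e2, ← e2, ds_comm, e2]; exact h.sbc)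
      (by rw [ds_comm, e2]; exact h.sab) (by rw [ds_comm, e2]; exact h.sac)
      (by rw [e1]; exact h.ebc.symm) (e1 b m z) (by rw [e1]; exact h.eab) h.rad
    have h2 := hF.anti a b
    have h3 := hF.anti b c
    linarith
  · intro b a m h hm
    have hY : b.2 ≤ a.2 := h.hab.le
    have hb0 : 0 ≤ b.2 := h.ha0
    have haH := h.hbH
    have he := h.eab
    have hr := h.rad
    unfold dq at he hr
    have hX : a.1 ≤ b.1 := by nlinarith
    have := hF.wall a b m hX ⟨by linarith, haH⟩ ⟨hb0, by linarith⟩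
      (by rw [ds_comm, e2]; exact h.sab) (by nlinarith) (by nlinarith)
    linarith
  · intro b a m h hm
    have hY : b.2 ≤ a.2 := h.hab.le
    have hb0 : 0 ≤ b.2 := h.ha0
    have haH := h.hbH
    have he := h.eab
    have hr := h.rad
    unfold dq at he hr
    have hX : b.1 ≤ a.1 := by nlinarith
    have := hF.wall b a m hX ⟨hb0, by linarith⟩ ⟨by linarith, haH⟩ (by rw [e2]; exact h.sab)
      (by nlinarith) (by nlinarith)
    have h2 := hF.anti a b
    linarith
  · intro a b m h hm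
    have hY : a.2 ≤ b.2 := h.hab.le
    have ha0 := h.ha0
    have hb0 : b.2 ≤ H := h.hbH
    have he := h.eab
    have hr := h.rad
    have hs := h.sab
    rw [← e2] at hs
    unfold dq at he hr
    have hX : a.1 ≤ b.1 := by nlinarith
    have := hF.wall (mir H a) (mir H b) m hX (In.mir ⟨ha0, by linarith⟩)
      (In.mir ⟨by linarith, hb0⟩)
      (by unfold mir ds at *; simp only; linarith)
      (by unfold mir; simp only; nlinarith) (by unfold mir; simp only; nlinarith)
    rw [hF.mirror] at this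
    unfold mir at this
    simp only at this ⊢
    linarith
  · intro a b m h hm
    have hY : a.2 ≤ b.2 := h.hab.le
    have ha0 := h.ha0
    have hb0 : b.2 ≤ H := h.hbH
    have he := h.eab
    have hr := h.rad
    have hs := h.sab
    rw [← e2] at hs
    unfold dq at he hr
    have hX : b.1 ≤ a.1 := by nlinarith
    have := hF.wall (mir H b) (mir H a) m hX (In.mir ⟨by linarith, hb0⟩)
      (In.mir ⟨ha0, by linarith⟩)
      (by unfold mir ds at *; simp only; linarith)
      (by unfold mir; simp only; nlinarith) (by unfold mir; simp only; nlinarith)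
    rw [hF.mirror] at this
    have h2 := hF.anti a b
    unfold mir at this
    simp only at this ⊢
    linarith

/-- The count from a symmetric local certificate for the strip. -/
theorem SymH.count {H w K : ℝ} (hH : 0 ≤ H) {F : Pt → Pt → ℝ} (hF : SymH H w F)
    (hK : ∀ a b : Pt, |a.1 - b.1| ≤ 2 → 0 ≤ a.2 → a.2 ≤ H → 0 ≤ b.2 → b.2 ≤ H → |F a b| ≤ K)
    (hK0 : 0 ≤ K) :
    ∃ C : ℝ, ∀ L : ℝ, 0 ≤ L → ∀ X : Finset Pt, UnitSep X → (∀ p ∈ X, 0 ≤ p.1 ∧ p.1 ≤ L) →
      InStrip H X → (X.card : ℝ) ≤ 2 * w * L + C := by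
  obtain ⟨C, hC⟩ := Sweep.count hH hF.cells hK (w := w) (w' := w)
    (fun a _ _ => by simp only [sub_self, abs_zero]; exact hK0)
    (fun a _ _ => by simp only [sub_self, abs_zero]; exact hK0)
  refine ⟨C, fun L h0 X h1 h2 h3 => ?_⟩
  have := hC L h0 X h1 h2 h3
  linarith

/-- From a certificate with the exact weight to the counting bound. -/
theorem SymH.countBound {n : ℕ} {s w K : ℝ} (hs0 : 0 ≤ s) (hs1 : s < h0) {F : Pt → Pt → ℝ}
    (hw : 2 * w * (n + 2 * g s) = (n + 1) * (n + 2)) (hF : SymH (n * h0 + s) w F)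
    (hK : ∀ a b : Pt, |a.1 - b.1| ≤ 2 → 0 ≤ a.2 → a.2 ≤ n * h0 + s → 0 ≤ b.2 →
      b.2 ≤ n * h0 + s → |F a b| ≤ K) (hK0 : 0 ≤ K) : CountBound n s := by
  have hn0 : (0 : ℝ) ≤ n := Nat.cast_nonneg n
  have hh := h0_pos
  have hg := g_gt_half hs0 hs1
  have h4 : 0 < (n : ℝ) + 2 * g s := by linarith
  have h5 : (0 : ℝ) < (n + 1) * (n + 2) := by positivity
  obtain ⟨C, hC⟩ := hF.count (by positivity) hK hK0
  refine ⟨C * (n + 2 * g s) / ((n + 1) * (n + 2)), ?_⟩
  intro L hL X hX hXH hXL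
  have h6 := hC L hL X hX hXL hXH
  have h7 : (X.card : ℝ) * (n + 2 * g s) ≤ (2 * w * L + C) * (n + 2 * g s) :=
    mul_le_mul_of_nonneg_right h6 h4.le
  have h8 : (2 * w * L + C) * (n + 2 * g s) =
      ((n : ℝ) + 1) * (n + 2) * (L + C * (n + 2 * g s) / ((n + 1) * (n + 2))) := by
    have h9 : ((n : ℝ) + 1) * (n + 2) * (C * (n + 2 * g s) / ((n + 1) * (n + 2))) =
        C * (n + 2 * g s) := mul_div_cancel₀ _ h5.ne'
    linear_combination L * hw - h9
  linarith

end Pool.Agent.Strip051.LC
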