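import Pool.Agent.Strip051.LC.Exact.Bulk
import Pool.Agent.Strip051.LC.Exact.StarCount
import Pool.Agent.Strip051.LC.Flip

/-! # From the vertices to the strip, for closed polygons and with constants

For a closed quadrilateral in the strip with `n + 1` full rows the inequality at the parameters of
the strip follows from the inequalities at the far vertex `(0, -1/2)` and at the near vertex
`(m, -m (N0 / 2 + L / h0))`, for the polygon and for its mirror image; a constant at the near vertex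
is multiplied by `θ = μ / m`. -/

namespace Pool.Agent.Strip051.LC

open Pool.Agent.StripNear Pool.Agent.StripSquare Pool.Agent.Strip051.Sweep

/-- The flux around a quadrilateral. -/
def fl4 (Q : ℝ → ℝ → ℝ → ℝ) (a b c d : Pt) : ℝ := ed Q a b + ed Q b c + ed Q c d + ed Q d a

theorem FQ_quad (H : ℝ) (Q : ℝ → ℝ → ℝ → ℝ) (a b c d : Pt) :
    FQ H Q a b + FQ H Q b c + FQ H Q c d + FQ H Q d a =
      (cr a b c + cr a c d) / (2 * h0) + fl4 Q a b c d := by
  have hh := h0_pos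
  unfold FQ fl4 cr
  field_simp
  ring

theorem Data.Q_fl4 (D : Data) (μ τ : ℝ) (a b c d : Pt) :
    fl4 (D.Q μ τ) a b c d = fl4 D.R0 a b c d + μ * fl4 D.R1 a b c d - τ * fl4 D.R2 a b c d := by
  unfold fl4 ed Data.Q
  ring

theorem ed_self {Q : ℝ → ℝ → ℝ → ℝ} (hQ : ∀ X y z, Q (-X) z y = -Q X y z) (c : Pt) :
    ed Q c c = 0 := by
  have := hQ 0 c.2 c.2
  unfold ed
  rw [sub_self]
  rw [neg_zero] at this
  linarith

theorem ed_rev {Q : ℝ → ℝ → ℝ → ℝ} (hQ : ∀ X y z, Q (-X) z y = -Q X y z) (a b : Pt) :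
    ed Q b a = -ed Q a b := by
  have := hQ (b.1 - a.1) a.2 b.2
  unfold ed
  rw [neg_sub] at this
  exact this

/-- A triangle is a degenerate quadrilateral. -/
theorem fl4_tri {Q : ℝ → ℝ → ℝ → ℝ} (hQ : ∀ X y z, Q (-X) z y = -Q X y z) (a b c : Pt) :
    fl4 Q a b c c = fl Q a b c := by
  unfold fl4 fl
  rw [ed_self hQ]
  ring

/-- Two triangles with a common edge. -/
theorem fl4_add {Q : ℝ → ℝ → ℝ → ℝ} (hQ : ∀ X y z, Q (-X) z y = -Q X y z) (a b c d : Pt) :
    fl4 Q a b c d = fl Q a b c + fl Q a c d := by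
  unfold fl4 fl
  rw [ed_rev hQ a c]
  ring

/-- The flux at the near vertex for the level `L` (a height above the floor). -/
noncomputable def Data.nr (D : Data) (N0 : ℕ) (s L : ℝ) : ℝ → ℝ → ℝ → ℝ :=
  D.Q (mu N0 s) (-(mu N0 s * (N0 / 2 + L / h0)))

/-- The part `k = 0` of the hull. -/
theorem hull_up {D : Data} {N0 n : ℕ} (hn : N0 ≤ n) {s : ℝ} (hg : 0 < g s) {A δ L : ℝ}
    {a b c d : Pt}
    (far : 0 ≤ A + fl4 (D.Q 0 (-(1 / 2))) (dn s a) (dn s b) (dn s c) (dn s d))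
    (near : δ ≤ A + fl4 (D.nr N0 s L) (dn s a) (dn s b) (dn s c) (dn s d)) :
    mu n s / mu N0 s * δ ≤ A + fl4 (D.QS n s) a b c d +
      mu n s * (L / h0) * fl4 D.R2 (dn s a) (dn s b) (dn s c) (dn s d) := by
  have hn0 : (0 : ℝ) ≤ n := Nat.cast_nonneg n
  have hN0 : (0 : ℝ) ≤ N0 := Nat.cast_nonneg N0
  have hnN : (N0 : ℝ) ≤ n := by exact_mod_cast hn
  have e0 : fl4 (D.QS n s) a b c d =
      fl4 (D.Q (mu n s) (-(mu n s * (n / 2)))) (dn s a) (dn s b) (dn s c) (dn s d) := by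
    unfold fl4 ed dn Data.QS mu
    rfl
  unfold Data.nr at near
  rw [Data.Q_fl4] at far near
  rw [e0, Data.Q_fl4]
  set f0 := fl4 D.R0 (dn s a) (dn s b) (dn s c) (dn s d)
  set f1 := fl4 D.R1 (dn s a) (dn s b) (dn s c) (dn s d)
  set f2 := fl4 D.R2 (dn s a) (dn s b) (dn s c) (dn s d)
  have hm : 0 < mu N0 s := by
    unfold mu
    positivity
  have hμ : 0 < mu n s := by
    unfold mu
    positivity
  have hm1 : mu N0 s * (N0 + 2 * g s) = 1 := by
    unfold mu
    field_simp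
  have hμ1 : mu n s * (n + 2 * g s) = 1 := by
    unfold mu
    field_simp
  set m := mu N0 s
  set μ := mu n s
  set θ := μ / m with hθ
  have hθm : θ * m = μ := by
    rw [hθ]
    field_simp
  have hθ0 : 0 ≤ θ := by positivity
  have hθ2 : θ = μ * (N0 + 2 * g s) := by
    have : θ = θ * (m * (N0 + 2 * g s)) := by rw [hm1, mul_one]
    rw [this, ← mul_assoc, hθm]
  have hθ1 : θ ≤ 1 := by
    rw [hθ2, ← hμ1]
    exact mul_le_mul_of_nonneg_left (by linarith) hμ.le
  have k1 := mul_le_mul_of_nonneg_left near hθ0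
  have k2 : 0 ≤ (1 - θ) * (A + (f0 + 0 * f1 - -(1 / 2) * f2)) :=
    mul_nonneg (by linarith) far
  have e3 : (1 - θ) / 2 + μ * (N0 / 2) = μ * (n / 2) := by
    rw [hθ2]
    linear_combination (-(1 / 2) : ℝ) * hμ1
  have e4 : θ * (A + (f0 + m * f1 - -(m * (N0 / 2 + L / h0)) * f2)) +
      (1 - θ) * (A + (f0 + 0 * f1 - -(1 / 2) * f2)) =
      A + (f0 + (θ * m) * f1) + ((1 - θ) / 2 + (θ * m) * (N0 / 2)) * f2 +
        (θ * m) * (L / h0) * f2 := by ring
  rw [hθm, e3] at e4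
  linarith

section Mirror

variable {D : Data} {n : ℕ} {s : ℝ}

theorem ed_QS_mir (hD : D.Ok) (n : ℕ) (s : ℝ) (a b : Pt) :
    ed (D.QS n s) (mir (n * h0 + s) a) (mir (n * h0 + s) b) = ed (D.QS n s) b a := by
  unfold ed mir
  simp only
  rw [hD.QS_mirror]
  have := hD.QS_anti n s (a.1 - b.1) b.2 a.2
  rw [neg_sub] at this
  rw [this, neg_neg]

theorem fl4_QS_mir (hD : D.Ok) (n : ℕ) (s : ℝ) (a b c d : Pt) :
    fl4 (D.QS n s) (mir (n * h0 + s) d) (mir (n * h0 + s) c) (mir (n * h0 + s) b)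
      (mir (n * h0 + s) a) = fl4 (D.QS n s) a b c d := by
  unfold fl4
  rw [ed_QS_mir hD, ed_QS_mir hD, ed_QS_mir hD, ed_QS_mir hD]
  ring

theorem ed_R2_mir (hD : D.Ok) (n : ℕ) (s : ℝ) (a b : Pt) :
    ed D.R2 (dn s (mir (n * h0 + s) a)) (dn s (mir (n * h0 + s) b)) =
      -ed D.R2 (dn s b) (dn s a) := by
  have key : ∀ X y z : ℝ, D.R2 X ((n : ℝ) * h0 + s - y - s / 2) ((n : ℝ) * h0 + s - z - s / 2) =
      D.R2 X (y - s / 2) (z - s / 2) := by
    intro X y z
    rw [show (n : ℝ) * h0 + s - y - s / 2 = -(y - s / 2) + n * h0 by ring,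
      show (n : ℝ) * h0 + s - z - s / 2 = -(z - s / 2) + n * h0 by ring, hD.per2', hD.mir2]
  have e : ed D.R2 (dn s (mir (n * h0 + s) a)) (dn s (mir (n * h0 + s) b)) =
      ed D.R2 (dn s a) (dn s b) := by
    unfold ed dn mir
    simp only
    rw [key]
  rw [e, ed_rev hD.anti2 (dn s b) (dn s a)]

theorem fl4_R2_mir (hD : D.Ok) (n : ℕ) (s : ℝ) (a b c d : Pt) :
    fl4 D.R2 (dn s (mir (n * h0 + s) d)) (dn s (mir (n * h0 + s) c))
      (dn s (mir (n * h0 + s) b)) (dn s (mir (n * h0 + s) a)) =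
      -fl4 D.R2 (dn s a) (dn s b) (dn s c) (dn s d) := by
  unfold fl4
  rw [ed_R2_mir hD, ed_R2_mir hD, ed_R2_mir hD, ed_R2_mir hD]
  ring

/-- **The hull for a closed quadrilateral** (a triangle if `c = d`). -/
theorem hull4 (hD : D.Ok) {N0 : ℕ} (hn : N0 ≤ n) (hg : 0 < g s) {A δ L L' : ℝ}
    (hL : 0 ≤ L) (hL' : 0 ≤ L') {a b c d : Pt}
    (far : 0 ≤ A + fl4 (D.Q 0 (-(1 / 2))) (dn s a) (dn s b) (dn s c) (dn s d))
    (far' : 0 ≤ A + fl4 (D.Q 0 (-(1 / 2))) (dn s (mir (n * h0 + s) d))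
      (dn s (mir (n * h0 + s) c)) (dn s (mir (n * h0 + s) b)) (dn s (mir (n * h0 + s) a)))
    (near : δ ≤ A + fl4 (D.nr N0 s L) (dn s a) (dn s b) (dn s c) (dn s d))
    (near' : δ ≤ A + fl4 (D.nr N0 s L') (dn s (mir (n * h0 + s) d))
      (dn s (mir (n * h0 + s) c)) (dn s (mir (n * h0 + s) b)) (dn s (mir (n * h0 + s) a))) :
    mu n s / mu N0 s * δ ≤ A + fl4 (D.QS n s) a b c d := by
  have hh := h0_pos
  have hn0 : (0 : ℝ) ≤ n := Nat.cast_nonneg n
  have hμ : 0 < mu n s := by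
    unfold mu
    positivity
  have k1 := hull_up hn hg far near
  have k2 := hull_up hn hg far' near'
  rw [fl4_QS_mir hD, fl4_R2_mir hD] at k2
  set C := fl4 D.R2 (dn s a) (dn s b) (dn s c) (dn s d)
  rcases le_total 0 C with h | h
  · have : 0 ≤ mu n s * (L' / h0) * C := by positivity
    linarith
  · have : 0 ≤ mu n s * (L / h0) * (-C) := mul_nonneg (by positivity) (by linarith)
    linarith

/-- **The hull for a triangle.** -/
theorem hull3 (hD : D.Ok) {N0 : ℕ} (hn : N0 ≤ n) (hg : 0 < g s) {A δ L L' : ℝ}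
    (hL : 0 ≤ L) (hL' : 0 ≤ L') {a b c : Pt}
    (far : 0 ≤ A + fl (D.Q 0 (-(1 / 2))) (dn s a) (dn s b) (dn s c))
    (far' : 0 ≤ A + fl (D.Q 0 (-(1 / 2))) (dn s (mir (n * h0 + s) c))
      (dn s (mir (n * h0 + s) b)) (dn s (mir (n * h0 + s) a)))
    (near : δ ≤ A + fl (D.nr N0 s L) (dn s a) (dn s b) (dn s c))
    (near' : δ ≤ A + fl (D.nr N0 s L') (dn s (mir (n * h0 + s) c))
      (dn s (mir (n * h0 + s) b)) (dn s (mir (n * h0 + s) a))) :
    mu n s / mu N0 s * δ ≤ A + fl (D.QS n s) a b c := by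
  have a0 := hD.anti 0 (-(1 / 2))
  have aL : ∀ K X y z, D.nr N0 s K (-X) z y = -D.nr N0 s K X y z := fun K => hD.anti _ _
  have aS := hD.QS_anti n s
  have e : ∀ (Q : ℝ → ℝ → ℝ → ℝ), (∀ X y z, Q (-X) z y = -Q X y z) → ∀ a b c : Pt,
      fl4 Q a a b c = fl Q a b c := by
    intro Q hQ a b c
    unfold fl4 fl
    rw [ed_self hQ]
    ring
  rw [← fl4_tri a0] at far
  rw [← e _ a0] at far'
  rw [← fl4_tri (aL L)] at near
  rw [← e _ (aL L')] at near'
  have := hull4 hD hn hg hL hL' far far' near near'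
  rwa [fl4_tri aS] at this

end Mirror

/-! ### Cells of the strip -/

/-- The lowest height. -/
theorem nearTr_iff {D : Data} {N0 : ℕ} {s : ℝ} {p q r : Pt} :
    NearTr D N0 s (dn s p) (dn s q) (dn s r) ↔
      1 / 2 ≤ cr p q r / (2 * h0) +
        fl (D.nr N0 s (lowest p.2 q.2 r.2)) (dn s p) (dn s q) (dn s r) := by
  have e1 : lowest (dn s p).2 (dn s q).2 (dn s r).2 = lowest p.2 q.2 r.2 - s / 2 := by
    unfold lowest dn
    simp only
    rw [min_sub_sub_right, min_sub_sub_right]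
  have e2 : cr (dn s p) (dn s q) (dn s r) = cr p q r := cr_sh (s / 2) p q r
  unfold NearTr Data.Tr Data.nr mu
  rw [e1, e2, show s / 2 + (lowest p.2 q.2 r.2 - s / 2) = lowest p.2 q.2 r.2 by ring]

theorem lowest_nonneg {y1 y2 y3 : ℝ} (h1 : 0 ≤ y1) (h2 : 0 ≤ y2) (h3 : 0 ≤ y3) :
    0 ≤ lowest y1 y2 y3 := le_min h1 (le_min h2 h3)

/-- The defect of a triangle at the near vertex, with the level of its lowest point. -/
noncomputable def slackN (D : Data) (N0 : ℕ) (s : ℝ) (p q r : Pt) : ℝ :=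
  cr p q r / (2 * h0) - 1 / 2 +
    fl (D.nr N0 s (lowest p.2 q.2 r.2)) (dn s p) (dn s q) (dn s r)

/-- The slack of a triangle at the far vertex. -/
noncomputable def slackF (D : Data) (s : ℝ) (p q r : Pt) : ℝ :=
  cr p q r / (2 * h0) - 1 / 2 + fl (D.Q 0 (-(1 / 2))) (dn s p) (dn s q) (dn s r)

theorem cr_mir (H : ℝ) (p q r : Pt) : cr (mir H r) (mir H q) (mir H p) = cr p q r := by
  unfold cr mir
  ring

/-- The slack of a triangle of the strip, from the vertices. -/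
theorem strip_slack {D : Data} (hD : D.Ok) {N0 n : ℕ} {s : ℝ} (hn : N0 ≤ n) (hg : 0 < g s)
    {p q r : Pt} (hp : In (n * h0 + s) p) (hq : In (n * h0 + s) q) (hr : In (n * h0 + s) r)
    {δ : ℝ} (far : 0 ≤ slackF D s p q r)
    (far' : 0 ≤ slackF D s (mir (n * h0 + s) r) (mir (n * h0 + s) q) (mir (n * h0 + s) p))
    (near : δ ≤ slackN D N0 s p q r)
    (near' : δ ≤ slackN D N0 s (mir (n * h0 + s) r) (mir (n * h0 + s) q)
      (mir (n * h0 + s) p)) :
    mu n s / mu N0 s * δ ≤ cr p q r / (2 * h0) - 1 / 2 + fl (D.QS n s) p q r := by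
  unfold slackF slackN at *
  rw [cr_mir] at far' near'
  exact hull3 hD hn hg (lowest_nonneg hp.1 hq.1 hr.1)
    (lowest_nonneg (In.mir hr).1 (In.mir hq).1 (In.mir hp).1) far far' near near'

section

variable {T : Tab} {Nd : ℝ → ℝ → Prop} {N0 : ℕ} {κ s : ℝ}

theorem cel_dn {s : ℝ} {p q r : Pt} (h : Cel p q r) : Cel (dn s p) (dn s q) (dn s r) := by
  have e1 : cr (dn s p) (dn s q) (dn s r) = cr p q r := cr_sh (s / 2) p q r
  have e2 : ∀ a b : Pt, ds (dn s a) (dn s b) = ds a b := fun a b => ds_sh (s / 2) a b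
  obtain ⟨h0, h1, h2, h3, h4⟩ := h
  refine ⟨by rw [e1]; exact h0, by rw [e2]; exact h1, by rw [e2]; exact h2, by rw [e2]; exact h3,
    ?_⟩
  rw [e1, e2, e2, e2]
  exact h4

theorem FixTri.gpos (h : FixTri T Nd N0 κ s) : 0 < g s := by linarith [g_gt_half h.s0 h.s1]

theorem FixTri.mu_pos (h : FixTri T Nd N0 κ s) (n : ℕ) : 0 < mu n s := by
  have := h.gpos
  have hn : (0 : ℝ) ≤ n := Nat.cast_nonneg n
  unfold mu
  positivity

/-- Every cell is good at the far vertex. -/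
theorem FixTri.slackF_nonneg (h : FixTri T Nd N0 κ s) {p q r : Pt} (hc : Cel p q r) :
    0 ≤ slackF (T.full N0 κ s) s p q r := by
  have := h.cellF (cel_dn (s := s) hc)
  unfold Data.Tr at this
  have e1 : cr (dn s p) (dn s q) (dn s r) = cr p q r := cr_sh (s / 2) p q r
  rw [e1] at this
  unfold slackF
  linarith

/-- The small triangles are good at the near vertex. -/
theorem FixTri.slackN_small (h : FixTri T Nd N0 κ s) {p q r : Pt} (k0 : 0 ≤ cr p q r)
    (k1 : 1 ≤ ds p q) (k2 : 1 ≤ ds q r) (k3 : 1 ≤ ds p r) (k4 : ds p q ≤ 3) (k5 : ds q r ≤ 3)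
    (k6 : ds p r ≤ 3) : 0 ≤ slackN (T.full N0 κ s) N0 s p q r := by
  have e1 : cr (dn s p) (dn s q) (dn s r) = cr p q r := cr_sh (s / 2) p q r
  have e2 : ∀ a b : Pt, ds (dn s a) (dn s b) = ds a b := fun a b => ds_sh (s / 2) a b
  have := nearTr_iff.1 (h.triN (dn s p) (dn s q) (dn s r) (by rw [e1]; exact k0)
    (by rw [e2]; exact k1) (by rw [e2]; exact k2) (by rw [e2]; exact k3) (by rw [e2]; exact k4)
    (by rw [e2]; exact k5) (by rw [e2]; exact k6))
  unfold slackN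
  linarith

theorem FixTri.slackF_small (h : FixTri T Nd N0 κ s) {p q r : Pt} (k0 : 0 ≤ cr p q r)
    (k1 : 1 ≤ ds p q) (k2 : 1 ≤ ds q r) (k3 : 1 ≤ ds p r) (k4 : ds p q ≤ 3) (k5 : ds q r ≤ 3)
    (k6 : ds p r ≤ 3) : 0 ≤ slackF (T.full N0 κ s) s p q r := by
  have e1 : cr (dn s p) (dn s q) (dn s r) = cr p q r := cr_sh (s / 2) p q r
  have e2 : ∀ a b : Pt, ds (dn s a) (dn s b) = ds a b := fun a b => ds_sh (s / 2) a b
  have := h.triF (dn s p) (dn s q) (dn s r) (by rw [e1]; exact k0)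
    (by rw [e2]; exact k1) (by rw [e2]; exact k2) (by rw [e2]; exact k3) (by rw [e2]; exact k4)
    (by rw [e2]; exact k5) (by rw [e2]; exact k6)
  unfold Data.Tr at this
  rw [e1] at this
  unfold slackF
  linarith

/-- **All small triangles of the strip are good.** -/
theorem FixTri.small (h : FixTri T Nd N0 κ s) {n : ℕ} (hn : N0 ≤ n) {p q r : Pt}
    (hp : In (n * h0 + s) p) (hq : In (n * h0 + s) q) (hr : In (n * h0 + s) r)
    (k0 : 0 ≤ cr p q r) (k1 : 1 ≤ ds p q) (k2 : 1 ≤ ds q r) (k3 : 1 ≤ ds p r)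
    (k4 : ds p q ≤ 3) (k5 : ds q r ≤ 3) (k6 : ds p r ≤ 3) :
    1 / 2 ≤ cr p q r / (2 * h0) + fl ((T.full N0 κ s).QS n s) p q r := by
  have em : ∀ a b : Pt, ds (mir (n * h0 + s) a) (mir (n * h0 + s) b) = ds a b := by
    intro a b
    unfold ds mir
    ring
  have ec := cr_mir (n * h0 + s) p q r
  have := strip_slack h.okD hn h.gpos hp hq hr (δ := 0)
    (h.slackF_small k0 k1 k2 k3 k4 k5 k6)
    (h.slackF_small (by rw [ec]; exact k0) (by rw [em, ds_comm]; exact k2)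
      (by rw [em, ds_comm]; exact k1) (by rw [em, ds_comm]; exact k3)
      (by rw [em, ds_comm]; exact k5) (by rw [em, ds_comm]; exact k4)
      (by rw [em, ds_comm]; exact k6))
    (h.slackN_small k0 k1 k2 k3 k4 k5 k6)
    (h.slackN_small (by rw [ec]; exact k0) (by rw [em, ds_comm]; exact k2)
      (by rw [em, ds_comm]; exact k1) (by rw [em, ds_comm]; exact k3)
      (by rw [em, ds_comm]; exact k5) (by rw [em, ds_comm]; exact k4)
      (by rw [em, ds_comm]; exact k6))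
  rw [mul_zero] at this
  linarith

/-- The mirror image of a cell, in the reversed order. -/
theorem cel_mir3 {H : ℝ} {p q r : Pt} (h : Cel p q r) : Cel (mir H r) (mir H q) (mir H p) :=
  (cel_mir (H := H) h).rot.rot

/-- A cell of the strip: the defect is at most `θ` times the defect at the near vertex. -/
theorem FixTri.cell_slack (h : FixTri T Nd N0 κ s) {n : ℕ} (hn : N0 ≤ n) {p q r : Pt}
    (hp : In (n * h0 + s) p) (hq : In (n * h0 + s) q) (hr : In (n * h0 + s) r)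
    (hc : Cel p q r) {δ : ℝ} (near : δ ≤ slackN (T.full N0 κ s) N0 s p q r)
    (near' : δ ≤ slackN (T.full N0 κ s) N0 s (mir (n * h0 + s) r) (mir (n * h0 + s) q)
      (mir (n * h0 + s) p)) :
    1 / 2 + mu n s / mu N0 s * δ ≤
      cr p q r / (2 * h0) + fl ((T.full N0 κ s).QS n s) p q r := by
  have := strip_slack h.okD hn h.gpos hp hq hr (h.slackF_nonneg hc) (h.slackF_nonneg (cel_mir3 hc))
    near near'
  linarith

/-! ### Quadrilaterals with a long diagonal -/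

/-- The slack of a quadrilateral at the near vertex, level `L`. -/
noncomputable def nearQ (D : Data) (N0 : ℕ) (s L : ℝ) (a b c d : Pt) : ℝ :=
  (cr a b c + cr a c d) / (2 * h0) - 1 + fl4 (D.nr N0 s L) (dn s a) (dn s b) (dn s c) (dn s d)

/-- The lowest of four heights. -/
noncomputable def lowest4 (y1 y2 y3 y4 : ℝ) : ℝ := min (min y1 y2) (min y3 y4)

theorem lowest4_nonneg {y1 y2 y3 y4 : ℝ} (h1 : 0 ≤ y1) (h2 : 0 ≤ y2) (h3 : 0 ≤ y3)
    (h4 : 0 ≤ y4) : 0 ≤ lowest4 y1 y2 y3 y4 := le_min (le_min h1 h2) (le_min h3 h4)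

/-- The two cells on a long edge at the far vertex. -/
theorem FixTri.farQ (h : FixTri T Nd N0 κ s) {p q r r' : Pt} (h1 : Cel p q r)
    (h2 : Cel q p r') : 0 ≤ ((cr p r' q + cr p q r) / (2 * h0) - 1) +
      fl4 ((T.full N0 κ s).Q 0 (-(1 / 2))) (dn s p) (dn s r') (dn s q) (dn s r) := by
  have e1 := h.slackF_nonneg h1
  have e2 := h.slackF_nonneg h2
  have ha := h.okD.anti 0 (-(1 / 2))
  unfold slackF at e1 e2
  rw [fl4_add ha]
  have e3 : cr p r' q = cr q p r' := by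
    unfold cr
    ring
  have e4 : fl ((T.full N0 κ s).Q 0 (-(1 / 2))) (dn s p) (dn s r') (dn s q) =
      fl ((T.full N0 κ s).Q 0 (-(1 / 2))) (dn s q) (dn s p) (dn s r') := by
    unfold fl
    ring
  rw [e3, e4, add_div]
  linarith

/-- **A quadrilateral of the strip** which consists of two cells with a common long edge. -/
theorem FixTri.quad_slack (h : FixTri T Nd N0 κ s) {n : ℕ} (hn : N0 ≤ n) {p q r r' : Pt}
    (hp : In (n * h0 + s) p) (hq : In (n * h0 + s) q) (hr : In (n * h0 + s) r)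
    (hr' : In (n * h0 + s) r') (h1 : Cel p q r) (h2 : Cel q p r') {δ : ℝ}
    (near : δ ≤ nearQ (T.full N0 κ s) N0 s (lowest4 p.2 r'.2 q.2 r.2) p r' q r)
    (near' : δ ≤ nearQ (T.full N0 κ s) N0 s
      (lowest4 (mir (n * h0 + s) r).2 (mir (n * h0 + s) q).2 (mir (n * h0 + s) r').2
        (mir (n * h0 + s) p).2) (mir (n * h0 + s) r) (mir (n * h0 + s) q)
        (mir (n * h0 + s) r') (mir (n * h0 + s) p)) :
    1 + mu n s / mu N0 s * δ ≤
      (cr p r' q + cr p q r) / (2 * h0) + fl4 ((T.full N0 κ s).QS n s) p r' q r := by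
  have hD := h.okD
  have ha := hD.anti 0 (-(1 / 2))
  have f1 := h.farQ h1 h2
  have f2 := h.farQ (cel_mir (H := (n : ℝ) * h0 + s) h1) (cel_mir (H := (n : ℝ) * h0 + s) h2)
  have e1 : cr (mir (n * h0 + s) r) (mir (n * h0 + s) q) (mir (n * h0 + s) r') +
      cr (mir (n * h0 + s) r) (mir (n * h0 + s) r') (mir (n * h0 + s) p) =
      cr p r' q + cr p q r := by
    unfold cr mir
    ring
  have e2 : cr (mir (n * h0 + s) q) (mir (n * h0 + s) r') (mir (n * h0 + s) p) +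
      cr (mir (n * h0 + s) q) (mir (n * h0 + s) p) (mir (n * h0 + s) r) =
      cr p r' q + cr p q r := by
    unfold cr mir
    ring
  have e3 : ∀ Q : ℝ → ℝ → ℝ → ℝ, ∀ a b c d : Pt, fl4 Q a b c d = fl4 Q d a b c := by
    intro Q a b c d
    unfold fl4
    ring
  unfold nearQ at near near'
  rw [e1] at near'
  rw [e2, e3] at f2
  have := hull4 hD hn h.gpos (lowest4_nonneg hp.1 hr'.1 hq.1 hr.1)
    (lowest4_nonneg (In.mir hr).1 (In.mir hq).1 (In.mir hr').1 (In.mir hp).1) f1 f2 near near'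
  linarith

/-! ### The floor -/

/-- The slack at the floor is affine in `μ`. -/
theorem WF_theta {D : Data} {N0 n : ℕ} {s : ℝ} (hn : N0 ≤ n) (hg : 0 < g s) {a b : Pt} {δ : ℝ}
    (far : 0 ≤ WF D s 0 a b) (near : δ ≤ WF D s (mu N0 s) a b) :
    mu n s / mu N0 s * δ ≤ WF D s (mu n s) a b := by
  have hn0 : (0 : ℝ) ≤ n := Nat.cast_nonneg n
  have hN0 : (0 : ℝ) ≤ N0 := Nat.cast_nonneg N0
  have hnN : (N0 : ℝ) ≤ n := by exact_mod_cast hn
  have hm : 0 < mu N0 s := by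
    unfold mu
    positivity
  have hμ : 0 < mu n s := by
    unfold mu
    positivity
  have hle : mu n s ≤ mu N0 s := by
    unfold mu
    apply one_div_le_one_div_of_le (by positivity)
    linarith
  obtain ⟨A, B, hAB⟩ := WF_aff D s a b
  rw [hAB] at far near ⊢
  set m := mu N0 s
  set μ := mu n s
  have hθm : μ / m * m = μ := by field_simp
  have hθ1 : μ / m ≤ 1 := by
    rw [div_le_one hm]
    exact hle
  have hθ0 : 0 ≤ μ / m := by positivity
  have k1 := mul_le_mul_of_nonneg_left near hθ0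
  have k2 : 0 ≤ (1 - μ / m) * (A + 0 * B) := mul_nonneg (by linarith) far
  have e : μ / m * (A + m * B) + (1 - μ / m) * (A + 0 * B) = A + (μ / m * m) * B := by ring
  rw [hθm] at e
  linarith

end

end Pool.Agent.Strip051.LC
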