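import Pool.Agent.Strip051.LC.Exact.FamX
import Pool.Agent.Strip051.LC.Exact.Bulk

/-! # The near vertex at all levels

The level term is affine in the level; the families with the level `a` above the lowest vertex and
their mirror images give all levels between `highest - H - a` and `lowest + a`, `H = N0 h0 + s`. -/

namespace Pool.Agent.Strip051.LC

open Pool.Agent.StripNear Pool.Agent.StripSquare Pool.Agent.Strip051.Sweep
open Pool.Agent.Strip051.LC.Line (Qd D mn jn tau mn_shift D_add D_refl D_abs Qd_anti Qd_comm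
  Qd_mirror Qd_abs NG ng_slack Node Two rx D_add_nat cr_rx ds_rx ds_symm)

/-- The level term at the near vertex, the level is `l` above the lowest vertex. -/
noncomputable def levXV (N0 : ℕ) (s l t t' : ℝ) (x : ℝ × ℝ × ℝ) : ℝ :=
  mu N0 s * (((N0 + s / h0) / 2 + l / h0) * (x.1 + x.2.1 - x.2.2) -
    (t * x.1 + (2 * t + t') * x.2.1 - (t + t') * x.2.2) / (2 * h0))

theorem levXV_zero (N0 : ℕ) (s t t' : ℝ) (x : ℝ × ℝ × ℝ) :
    levXV N0 s 0 t t' x = nearXV N0 s t t' x := by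
  unfold levXV nearXV
  ring

/-- The level term of a table. -/
noncomputable def Tab.levX (T : Tab) (N0 : ℕ) (s l X12 X13 t t' : ℝ) : ℝ :=
  levXV N0 s l t t' (T.Xi X12 t, T.Xi (X13 - X12) t', T.Xi X13 (t + t'))

theorem Tab.levX_zero (T : Tab) (N0 : ℕ) (s X12 X13 t t' : ℝ) :
    T.levX N0 s 0 X12 X13 t t' = T.nearX N0 s X12 X13 t t' := by
  unfold Tab.levX Tab.nearX
  rw [levXV_zero]
  rfl

/-- The symmetric property at the near vertex with the level `a`. -/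
def nearL {ι : Type} (a : ℝ) (N0 : ℕ) (κ s : ℝ) (vB vX : ℝ → ι → ℝ) (X12 X13 t t' : ℝ)
    (w : (ℝ → ι → ℝ) → ℝ × ℝ × ℝ) : Prop :=
  NGV κ s (exn X12 X13 t t' + min (levXV N0 s a t t' (w vX))
    (levXV N0 s a t' t (-(w vX).2.1, -(w vX).1, -(w vX).2.2))) t t' (w vB)

/-- The two mirror values bound all levels between them. -/
theorem min_le_levXV {N0 : ℕ} {s a l t t' : ℝ} (h1 : t + t' - (N0 * h0 + s) - a ≤ l)
    (h2 : l ≤ a) (x : ℝ × ℝ × ℝ) :
    min (levXV N0 s a t t' x) (levXV N0 s a t' t (-x.2.1, -x.1, -x.2.2)) ≤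
      levXV N0 s l t t' x := by
  have hh := h0_pos
  have e : levXV N0 s a t' t (-x.2.1, -x.1, -x.2.2) =
      levXV N0 s (t + t' - (N0 * h0 + s) - a) t t' x := by
    unfold levXV
    field_simp
    ring
  rw [e]
  set b := t + t' - (N0 * h0 + s) - a
  -- affine in the level
  have aff : ∀ u, levXV N0 s u t t' x = levXV N0 s 0 t t' x +
      mu N0 s * (x.1 + x.2.1 - x.2.2) / h0 * u := by
    intro u
    unfold levXV
    ring
  rw [aff a, aff b, aff l]
  set c := mu N0 s * (x.1 + x.2.1 - x.2.2) / h0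
  rcases le_total 0 c with hc | hc
  · refine (min_le_right _ _).trans ?_
    nlinarith
  · refine (min_le_left _ _).trans ?_
    nlinarith

theorem nearL_sym {ι : Type} {a : ℝ} {N0 : ℕ} {κ s : ℝ} {vB vX : ℝ → ι → ℝ} :
    Cur.Sym (nearL a N0 κ s vB vX) := by
  intro X12 X13 t t' w h
  unfold nearL Cur.flip at h
  simp only [neg_neg] at h
  rw [exn_mirror, min_comm] at h
  exact h.mirror

/-- **The near families at all levels** from the symmetric explicit statements at the level `a`. -/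
theorem near_level {ι : Type} {a : ℝ} {N0 : ℕ} {κ s : ℝ} {vA vB vX : ℝ → ι → ℝ} {n : ℕ}
    (K : Cur n ι) (hB : K.adm vB) (hX : K.adm vX)
    (A : ∀ j k, j ≤ k → K.AllA (nearL a N0 κ s vB vX) j k)
    (B : ∀ j k, K.AllB (nearL a N0 κ s vB vX) j k) :
    Fams (NodeAt K.nodes) (fun X12 X13 t t' => ∀ l, t + t' - (N0 * h0 + s) - a ≤ l → l ≤ a →
      NG κ s (exn X12 X13 t t' + (tab K.nodes vA vB vX).levX N0 s l X12 X13 t t')
        (tab K.nodes vA vB vX).B X12 X13 t t') := by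
  have hV : K.Congr (nearL a N0 κ s vB vX) := by
    intro X12 X13 t t' w w' h hw
    unfold nearL at *
    rwa [← h vB hB, ← h vX hX]
  have key := Cur.fams_sym hV nearL_sym A B
  intro X12 X13 t t' a1 a2 a3 a4 a5 a6 a7 a8 a9 a10 l hl1 hl2
  have h : NGV κ s (exn X12 X13 t t' + (tab K.nodes vA vB vX).levX N0 s l X12 X13 t t') t t'
      (K.valK X12 X13 t t' vB) := by
    refine NGV.mono (key X12 X13 t t' a1 a2 a3 a4 a5 a6 a7 a8 a9 a10) ?_
    have e : (tab K.nodes vA vB vX).levX N0 s l X12 X13 t t' =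
        levXV N0 s l t t' (K.valK X12 X13 t t' vX) := rfl
    rw [e]
    linarith [min_le_levXV hl1 hl2 (K.valK X12 X13 t t' vX)]
  rcases h with ⟨a, b, c, d⟩ | ⟨a, b, c, d⟩ | ⟨a, b, c, d, e⟩ | ⟨a, b, c, d, e⟩ | ⟨a, b, c, d, e⟩ |
    ⟨a, b, c, d, e⟩ | ⟨a, b⟩ | ⟨a, b⟩
  exacts [.pp a b c d, .nn a b c d, .pnp a b c d e, .pnn a b c d e, .npp a b c d e,
    .npn a b c d e, .up a b, .dn a b]

/-- The families at the level zero (the field `near`) from the families at all levels. -/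
theorem near_of_level {Nd : ℝ → ℝ → Prop} {T : Tab} {a : ℝ} {N0 : ℕ} {κ s : ℝ} (ha : 0 ≤ a)
    (hs0 : 0 ≤ s) (hN0 : 2 ≤ N0)
    (h : Fams Nd (fun X12 X13 t t' => ∀ l, t + t' - (N0 * h0 + s) - a ≤ l → l ≤ a →
      NG κ s (exn X12 X13 t t' + T.levX N0 s l X12 X13 t t') T.B X12 X13 t t')) :
    Fams Nd (fun X12 X13 t t' =>
      NG κ s (exn X12 X13 t t' + T.nearX N0 s X12 X13 t t') T.B X12 X13 t t') := by
  have hh := h0_pos
  have hq := h0_sq'
  intro X12 X13 t t' a1 a2 a3 a4 a5 a6 a7 a8 a9 a10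
  have h2 : (2 : ℝ) ≤ N0 := by exact_mod_cast hN0
  have hT : t + t' ≤ 2 * h0 := by nlinarith [sq_nonneg X13]
  have := h X12 X13 t t' a1 a2 a3 a4 a5 a6 a7 a8 a9 a10 0 (by nlinarith) ha
  rwa [Tab.levX_zero] at this

/-- The greatest height. -/
noncomputable def highest (y1 y2 y3 : ℝ) : ℝ := max y1 (max y2 y3)

theorem highest_rot (y1 y2 y3 : ℝ) : highest y2 y3 y1 = highest y1 y2 y3 := by
  unfold highest
  rw [← max_assoc, max_comm]

/-- **The near vertex at the level `L`**: triangles with short sides; the heights are measured from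
the centre of a cell. -/
theorem near_tri_level {Nd : ℝ → ℝ → Prop} {T : Tab} {a : ℝ} {N0 : ℕ} {κ s : ℝ} (hκ : 0 ≤ κ)
    (hs0 : 0 ≤ s) (hs1 : s < h0) (hm : mu N0 s ≠ 0) (hT : T.Ok)
    (hNd : ∀ X t, Nd X t → Nd (-X) t) (hP : T.Pieces Nd)
    (hF : Fams Nd (fun X12 X13 t t' => ∀ l, t + t' - (N0 * h0 + s) - a ≤ l → l ≤ a →
      NG κ s (exn X12 X13 t t' + T.levX N0 s l X12 X13 t t') T.B X12 X13 t t'))
    (p q r : Pt) (h0c : 0 ≤ cr p q r) (a1 : 1 ≤ ds p q) (a2 : 1 ≤ ds q r) (a3 : 1 ≤ ds p r)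
    (b1 : ds p q ≤ 3) (b2 : ds q r ≤ 3) (b3 : ds p r ≤ 3) {L : ℝ}
    (hL1 : highest p.2 q.2 r.2 - (N0 * h0 + s) - a ≤ L) (hL2 : L ≤ lowest p.2 q.2 r.2 + a) :
    (T.data N0 κ s).Tr (mu N0 s) (-(mu N0 s * (N0 / 2 + (s / 2 + L) / h0))) p q r := by
  have hcomm : ∀ X y z, (T.data N0 κ s).Q (mu N0 s)
      (-(mu N0 s * (N0 / 2 + (s / 2 + L) / h0))) X z y =
      (T.data N0 κ s).Q (mu N0 s) (-(mu N0 s * (N0 / 2 + (s / 2 + L) / h0))) X y z := by
    intro X y z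
    rw [Tab.Q_near _ hm, Tab.Q_near _ hm, Qc_comm, abs_sub_comm, add_comm z y]
  refine bulk_tri_of_corners' (N := Node Nd)
    (Φ := fun a' b' c' => highest a' b' c' - (N0 * h0 + s) - a ≤ L ∧ L ≤ lowest a' b' c' + a)
    (Q := (T.data N0 κ s).Q (mu N0 s) (-(mu N0 s * (N0 / 2 + (s / 2 + L) / h0))))
    (fun a b c h => by rw [lowest_rot, highest_rot]; exact h) ?_ ?_ p q r h0c a1 a2 a3 b1 b2 b3
    ⟨hL1, hL2⟩
  · intro X y z h1 h2
    obtain ⟨a, b, h3, h4, h5, h6, h7, -, ⟨α, β, h8⟩, ⟨γ, δ, h9⟩⟩ := hP X |z - y| (abs_nonneg _)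
      (by rwa [sq_abs]) (by rwa [sq_abs])
    have e : |z + s / 2 - (y + s / 2)| = |z - y| := by
      rw [show z + s / 2 - (y + s / 2) = z - y by ring]
    refine ⟨a, b, h3, h4, h5, h6, ?_, α * mn (D s κ) (min (y + s / 2) (z + s / 2))
      (max (y + s / 2) (z + s / 2) - jn |z - y| * h0) +
        mu N0 s * ((N0 + s / h0) / 2 + (2 * L - (y + z)) / (2 * h0)) * γ,
      β * mn (D s κ) (min (y + s / 2) (z + s / 2))
      (max (y + s / 2) (z + s / 2) - jn |z - y| * h0) +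
        mu N0 s * ((N0 + s / h0) / 2 + (2 * L - (y + z)) / (2 * h0)) * δ, ?_⟩
    · intro u h9 h10
      have := h7 u h9 h10
      rwa [sq_abs] at this
    · intro u k1 k2
      rw [Tab.Q_near _ hm]
      unfold Qc Qd
      rw [e, h8 u k1 k2, h9 u k1 k2]
      ring
  clear a1 a2 a3 b1 b2 b3 h0c hL1 hL2
  intro p q r h0c a1 a2 a3 b1 b2 b3 n1 n2 hlow
  refine nf_all (T := fun p q r => (highest p.2 q.2 r.2 - (N0 * h0 + s) - a ≤ L ∧
      L ≤ lowest p.2 q.2 r.2 + a) →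
    (T.data N0 κ s).Tr (mu N0 s) (-(mu N0 s * (N0 / 2 + (s / 2 + L) / h0))) p q r) (Nd := Nd)
    (fun p q r h hl => (h (by rw [lowest_rot, highest_rot]; exact hl)).rot)
    (fun p q r h hl => Tr_mirror hcomm (h (by
      have e1 : lowest (rx p).2 (rx r).2 (rx q).2 = lowest p.2 q.2 r.2 := by
        unfold rx lowest
        simp only
        rw [min_comm r.2 q.2]
      have e2 : highest (rx p).2 (rx r).2 (rx q).2 = highest p.2 q.2 r.2 := by
        unfold rx highest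
        simp only
        rw [max_comm r.2 q.2]
      rw [e1, e2]
      exact hl))) hNd ?_ h0c a1 a2 a3 b1 b2 b3 (Or.inl ⟨n1, n2⟩) hlow
  intro p q r h1 h2 h0c a1 a2 a3 b1 b2 b3 hN hl
  have hp : lowest p.2 q.2 r.2 = p.2 := by
    unfold lowest
    exact min_eq_left (le_min h1 (h1.trans h2))
  have hr : highest p.2 q.2 r.2 = r.2 := by
    unfold highest
    rw [max_eq_right h2]
    exact max_eq_right (h1.trans h2)
  rw [hp, hr] at hl
  obtain ⟨hn, hle⟩ := nf_base _ hF h1 h2 h0c a1 a2 a3 b1 b2 b3 hN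
  have hn' := hn (L - p.2) (by linarith [hl.1]) (by linarith [hl.2])
  have key := ng_slack hκ hs0 hs1 (by linarith : (0 : ℝ) ≤ q.2 - p.2)
    (by linarith : (0 : ℝ) ≤ r.2 - q.2) (by linarith) hn' (p.2 + s / 2)
  have e12 : |q.2 - p.2| = q.2 - p.2 := abs_of_nonneg (by linarith)
  have e23 : |r.2 - q.2| = r.2 - q.2 := abs_of_nonneg (by linarith)
  have e13 : |p.2 - r.2| = r.2 - p.2 := by rw [abs_sub_comm]; exact abs_of_nonneg (by linarith)
  rw [show p.2 + s / 2 + (q.2 - p.2) = q.2 + s / 2 by ring,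
    show q.2 + s / 2 + (r.2 - q.2) = r.2 + s / 2 by ring,
    show p.2 + s / 2 + (q.2 - p.2 + (r.2 - q.2)) = r.2 + s / 2 by ring,
    show r.1 - p.1 - (q.1 - p.1) = r.1 - q.1 by ring] at key
  unfold Data.Tr fl ed
  rw [Tab.Q_near _ hm, Tab.Q_near _ hm, Tab.Q_near _ hm, e12, e23, e13]
  have o1 : Qc κ s T.B (p.1 - r.1) r.2 p.2 = -Qc κ s T.B (r.1 - p.1) p.2 r.2 := by
    rw [← Qc_anti hT.oddB]
    congr 1
    ring
  have o2 : T.Xi (p.1 - r.1) (r.2 - p.2) = -T.Xi (r.1 - p.1) (r.2 - p.2) := by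
    rw [← hT.oddX]
    congr 1
    ring
  rw [o1, o2]
  unfold exn Tab.levX levXV at key
  have e' : cr p q r = (q.1 - p.1) * (q.2 - p.2 + (r.2 - q.2)) - (r.1 - p.1) * (q.2 - p.2) := by
    unfold cr
    ring
  have o3 : q.2 - p.2 + (r.2 - q.2) = r.2 - p.2 := by ring
  rw [show r.1 - p.1 - (q.1 - p.1) = r.1 - q.1 by ring, o3] at key
  simp only at key
  rw [e', o3]
  unfold Qc
  have k1 : mu N0 s * ((N0 + s / h0) / 2 + (2 * L - (p.2 + q.2)) / (2 * h0)) =
      mu N0 s * ((N0 + s / h0) / 2 + (L - p.2) / h0) - mu N0 s * ((q.2 - p.2) / (2 * h0)) := by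
    ring
  have k2 : mu N0 s * ((N0 + s / h0) / 2 + (2 * L - (q.2 + r.2)) / (2 * h0)) =
      mu N0 s * ((N0 + s / h0) / 2 + (L - p.2) / h0) -
        mu N0 s * ((2 * (q.2 - p.2) + (r.2 - q.2)) / (2 * h0)) := by ring
  have k3 : mu N0 s * ((N0 + s / h0) / 2 + (2 * L - (r.2 + p.2)) / (2 * h0)) =
      mu N0 s * ((N0 + s / h0) / 2 + (L - p.2) / h0) - mu N0 s * ((r.2 - p.2) / (2 * h0)) := by
    ring
  rw [k1, k2, k3]
  refine le_trans (by norm_num : (1 / 2 : ℝ) ≤ 0 + 1 / 2) (le_trans (add_le_add_left key _) ?_)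
  apply le_of_eq
  ring

end Pool.Agent.Strip051.LC
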