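import Pool.Agent.Strip051.LC.Exact.LongStar
import Pool.Agent.Strip051.LC.Exact.Level

/-! # From the small triangles to the count

`SmallD D n a s` says that all small triangles which leave the strip by at most `a` are good.
`longD_of_wall` is the case in which the inequality at the floor holds for all pairs; then the cells
above a long pair at the floor follow from the path through the unit apex below the floor.
`longD_of_star` is the general case. -/

namespace Pool.Agent.Strip051.LC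

open Pool.Agent.StripNear Pool.Agent.StripSquare Pool.Agent.Strip051.Sweep

/-- All small triangles which leave the strip by at most `a` are good. -/
structure SmallD (D : Data) (n : ℕ) (a s : ℝ) : Prop where
  ok : D.Ok
  gpos : 0 < g s
  a0 : 0 ≤ a
  small : ∀ {p q r : Pt}, 0 ≤ cr p q r → 1 ≤ ds p q → 1 ≤ ds q r → 1 ≤ ds p r → ds p q ≤ 3 →
    ds q r ≤ 3 → ds p r ≤ 3 → -a ≤ lowest p.2 q.2 r.2 → highest p.2 q.2 r.2 ≤ n * h0 + s + a →
    1 / 2 ≤ cr p q r / (2 * h0) + fl (D.QS n s) p q r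

theorem SmallD.inside {D : Data} {n : ℕ} {a s : ℝ} (h : SmallD D n a s) {p q r : Pt}
    (hp : In (n * h0 + s) p) (hq : In (n * h0 + s) q) (hr : In (n * h0 + s) r)
    (k0 : 0 ≤ cr p q r) (k1 : 1 ≤ ds p q) (k2 : 1 ≤ ds q r) (k3 : 1 ≤ ds p r)
    (k4 : ds p q ≤ 3) (k5 : ds q r ≤ 3) (k6 : ds p r ≤ 3) :
    1 / 2 ≤ cr p q r / (2 * h0) + fl (D.QS n s) p q r := by
  have ha := h.a0
  refine h.small k0 k1 k2 k3 k4 k5 k6 (le_min ?_ (le_min ?_ ?_)) (max_le ?_ (max_le ?_ ?_))
  · linarith [hp.1]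
  · linarith [hq.1]
  · linarith [hr.1]
  · linarith [hp.2]
  · linarith [hq.2]
  · linarith [hr.2]

/-- The apex is at most `1 / 2` lower or higher than the ends. -/
theorem ap_height {p q : Pt} (h3 : 3 < ds p q) (h4 : ds p q ≤ 4) :
    (p.2 + q.2) / 2 - 1 / 2 ≤ (ap p q).2 ∧ (ap p q).2 ≤ (p.2 + q.2) / 2 + 1 / 2 := by
  have hds : ds p q = (q.1 - p.1) ^ 2 + (q.2 - p.2) ^ 2 := by
    unfold ds
    ring
  rw [hds] at h3 h4
  have h := rr_sq (by linarith) h4
  have e : (ap p q).2 = (p.2 + q.2) / 2 - rr (q.1 - p.1) (q.2 - p.2) * (q.1 - p.1) := rfl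
  set ρ := rr (q.1 - p.1) (q.2 - p.2)
  have h5 : (ρ * (q.1 - p.1)) ^ 2 ≤ (1 / 2) ^ 2 := by
    have e1 : (ρ * (q.1 - p.1)) ^ 2 + (ρ * (q.2 - p.2)) ^ 2 =
        ρ ^ 2 * ((q.1 - p.1) ^ 2 + (q.2 - p.2) ^ 2) := by ring
    have e2 := sq_nonneg (ρ * (q.2 - p.2))
    rw [h] at e1
    linarith
  have h6 := abs_le_of_sq_le_sq' h5 (by norm_num)
  rw [e]
  constructor <;> linarith [h6.1, h6.2]

section

variable {D : Data} {s : ℝ} {n : ℕ}

/-- Without negative slacks at the floor nothing is changed. -/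
theorem corr_zero {w : ℝ} {F : Pt → Pt → ℝ} {p q r : Pt}
    (h : ∀ a b, (a = p ∨ a = q ∨ a = r) → (b = p ∨ b = q ∨ b = r) → FF a b →
      0 ≤ wf w F a b) : corr w F p q r = 0 := by
  have key : ∀ a b, (a = p ∨ a = q ∨ a = r) → (b = p ∨ b = q ∨ b = r) → wm w F a b = 0 := by
    intro a b ha hb
    by_cases hf : FF a b
    · rw [wm_of hf]
      have := h a b ha hb hf
      unfold wf at this
      exact min_eq_left this
    · exact wm_not hf
  unfold corr
  rw [key p q (by tauto) (by tauto), key q p (by tauto) (by tauto), key q r (by tauto) (by tauto),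
    key r q (by tauto) (by tauto), key r p (by tauto) (by tauto), key p r (by tauto) (by tauto)]
  ring

/-- **The case of nonnegative slacks at the floor.** -/
theorem longD_of_wall {a : ℝ} (h : SmallD D n a s) (ha : 1 / 2 ≤ a) (hH : 2 < n * h0 + s)
    (wall : ∀ p q, In (n * h0 + s) p → In (n * h0 + s) q → FF p q → ds p q ≤ 3 →
      0 ≤ WF D s (mu n s) p q)
    (wallL : ∀ p q, In (n * h0 + s) p → In (n * h0 + s) q → FF p q → 3 < ds p q →
      0 ≤ WF D s (mu n s) p q)
    (Wb : ∀ p q, In (n * h0 + s) p → In (n * h0 + s) q → FF p q → 3 < ds p q → ds p q ≤ 4 →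
      FS D n s p (ap p q) + FS D n s (ap p q) q ≤
        wS n s * (q.1 - p.1))
    (tall : ∀ p q r, In (n * h0 + s) p → In (n * h0 + s) q → In (n * h0 + s) r → Cel p q r →
      3 < ds p q → ds q r ≤ 3 → ds p r ≤ 3 → 3 < ds (ap p q) r →
      1 / 2 ≤ FS D n s p q + FS D n s q r +
        FS D n s r p)
    (quad : ∀ p q r r', In (n * h0 + s) p → In (n * h0 + s) q → In (n * h0 + s) r →
      In (n * h0 + s) r' → Cel p q r → Cel q p r' → 3 < ds p q → ds q r ≤ 3 → ds p r ≤ 3 →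
      ds q r' ≤ 3 → ds p r' ≤ 3 → 3 < ds r r' → 1 ≤ FS D n s p r' +
        FS D n s r' q + FS D n s q r + FS D n s r p)
    (two00 : ∀ p q r, In (n * h0 + s) p → In (n * h0 + s) q → In (n * h0 + s) r → Cel p q r →
      3 < ds p q → ds q r ≤ 3 → 3 < ds p r → 1 / 2 ≤ FS D n s p q +
        FS D n s q r + FS D n s r p)
    (two10 : ∀ p q r, In (n * h0 + s) p → In (n * h0 + s) q → In (n * h0 + s) r → Cel p q r →
      3 < ds p q → ds q r ≤ 3 → 3 < ds p r → In (n * h0 + s) (ap q p) →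
      0 ≤ FS D n s p (ap q p) + FS D n s (ap q p) q +
        FS D n s q r + FS D n s r p)
    (two01 : ∀ p q r, In (n * h0 + s) p → In (n * h0 + s) q → In (n * h0 + s) r → Cel p q r →
      3 < ds p q → ds q r ≤ 3 → 3 < ds p r → In (n * h0 + s) (ap p r) →
      0 ≤ FS D n s p q + FS D n s q r +
        (FS D n s r (ap p r) + FS D n s (ap p r) p))
    (two11 : ∀ p q r, In (n * h0 + s) p → In (n * h0 + s) q → In (n * h0 + s) r → Cel p q r →
      3 < ds p q → ds q r ≤ 3 → 3 < ds p r → In (n * h0 + s) (ap q p) →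
      In (n * h0 + s) (ap p r) →
      0 ≤ 1 / 2 + FS D n s p (ap q p) + FS D n s (ap q p) q +
        FS D n s q r +
        (FS D n s r (ap p r) + FS D n s (ap p r) p)) :
    LongS (n * h0 + s) (wS n s) 0 (FS D n s) := by
  have hg := h.gpos
  have hD := h.ok
  have hh := h0_pos
  have hwf : ∀ a b, In (n * h0 + s) a → In (n * h0 + s) b → FF a b →
      0 ≤ wf (wS n s) (FS D n s) a b := by
    intro a b ha hb hf
    rw [FS_wf n hg]
    rcases le_or_gt (ds a b) 3 with c | c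
    · exact wall a b ha hb hf c
    · exact wallL a b ha hb hf c
  have hwm : ∀ a b, In (n * h0 + s) a → In (n * h0 + s) b →
      wm (wS n s) (FS D n s) a b = 0 := by
    intro a b ha hb
    by_cases hf : FF a b
    · rw [wm_of hf]
      have := hwf a b ha hb hf
      unfold wf at this
      exact min_eq_left this
    · exact wm_not hf
  have hlow : ∀ x y z : ℝ, -a ≤ x → -a ≤ y → -a ≤ z → -a ≤ lowest x y z := fun x y z h1 h2 h3 =>
    le_min h1 (le_min h2 h3)
  have hhigh : ∀ x y z M : ℝ, x ≤ M → y ≤ M → z ≤ M → highest x y z ≤ M := fun x y z M h1 h2 h3 =>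
    max_le h1 (max_le h2 h3)
  refine ⟨hH, FS_anti hD n s, FS_mir hD n s, ?_, ?_, le_rfl, ?_, ?_, ?_, ?_, ?_, ?_, ?_, ?_⟩
  · intro p q r hp hq hr hc k1 k2 k3
    rw [corr_zero, add_zero, FS_tri]
    · exact h.inside hp hq hr hc.cr0 hc.pq hc.qr hc.pr k1 k2 k3
    · intro a b ha hb hf
      refine hwf a b ?_ ?_ hf
      · rcases ha with rfl | rfl | rfl <;> assumption
      · rcases hb with rfl | rfl | rfl <;> assumption
  · intro p q r hp hq hr hf hc k1 k2 k3
    rw [hwm q r hq hr, hwm r q hr hq, hwm r p hr hp, hwm p r hp hr]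
    have k4 := hc.le_four
    obtain ⟨b, b1, b2, b3, g1, g2⟩ := hc.step k1
    have hb : b = ap p q := ap_eq b1 b2 (by linarith) k4 b3
    rcases le_or_gt (ds b r) 3 with c | c
    · obtain ⟨y1, y2⟩ := ap_height k1 k4
      rw [← hb] at y1 y2
      have hb1 : -a ≤ b.2 := by linarith [hp.1, hq.1]
      have hb2 : b.2 ≤ n * h0 + s + a := by linarith [hp.2, hq.2]
      have e1 := h.small g1.cr0 g1.pq g1.qr g1.pr (by rw [b1]; norm_num) c k3
        (hlow _ _ _ (by linarith [hp.1]) hb1 (by linarith [hr.1]))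
        (hhigh _ _ _ _ (by linarith [hp.2]) hb2 (by linarith [hr.2]))
      have e2 := h.small g2.cr0 g2.pq g2.qr g2.pr (by rw [ds_comm, b2]; norm_num) k2 c
        (hlow _ _ _ hb1 (by linarith [hq.1]) (by linarith [hr.1]))
        (hhigh _ _ _ _ hb2 (by linarith [hq.2]) (by linarith [hr.2]))
      rw [← FS_tri] at e1 e2
      have e3 := Wb p q hp hq hf k1 k4
      rw [← hb] at e3
      have e4 := FS_anti hD n s b r
      linarith
    · have e1 := tall p q r hp hq hr hc k1 k2 k3 (by rw [← hb]; exact c)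
      have e2 := hwf p q hp hq hf
      unfold wf at e2
      linarith
  · intro p q hp hq hf k
    have := hwf p q hp hq hf
    linarith
  · intro p q hp hq hf k
    exact hwf p q hp hq hf
  · intro p q r hp hq hr _ hc k1 k2 k3 k4
    rw [ls_zero, ls_zero]
    have := tall p q r hp hq hr hc k1 k2 k3 k4
    linarith
  · intro p q r r' hp hq hr hr' _ h1 h2 k1 k2 k3 k4 k5 k6
    rw [ls_zero, ls_zero, ls_zero, ls_zero]
    have := quad p q r r' hp hq hr hr' h1 h2 k1 k2 k3 k4 k5 k6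
    linarith
  · intro p q r hp hq hr hc k1 k2 k3
    rw [ls_zero]
    have := two00 p q r hp hq hr hc k1 k2 k3
    linarith
  · intro p q r hp hq hr hc k1 k2 k3 _ hi
    have := two10 p q r hp hq hr hc k1 k2 k3 hi
    unfold iv
    rw [ls_zero, ls_zero, ls_zero]
    linarith
  · intro p q r hp hq hr hc k1 k2 k3 _ hi
    have := two01 p q r hp hq hr hc k1 k2 k3 hi
    unfold iv
    rw [ls_zero, ls_zero, ls_zero]
    linarith
  · intro p q r hp hq hr hc k1 k2 k3 _ _ hi hj
    have := two11 p q r hp hq hr hc k1 k2 k3 hi hj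
    unfold iv
    rw [ls_zero, ls_zero, ls_zero, ls_zero, ls_zero]
    linarith

/-- **The general case**, with the modification at the floor. -/
theorem longD_of_star {a : ℝ} {N0 : ℕ} (h : SmallD D n a s) (hn : N0 ≤ n)
    (hH : 2 < n * h0 + s)
    (hR : StarRows D s (mu N0 s)) {ω : ℝ} (hω : 0 ≤ ω)
    (low : ∀ a b, FF a b → ds a b ≤ 3 → -ω ≤ WF D s 0 a b ∧
      -ω ≤ WF D s (mu N0 s) a b)
    (lowL : ∀ a b, FF a b → 3 < ds a b → 0 ≤ WF D s 0 a b ∧
      0 ≤ WF D s (mu N0 s) a b)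
    (tall : ∀ p q r, In (n * h0 + s) p → In (n * h0 + s) q → In (n * h0 + s) r → Cel p q r →
      3 < ds p q → ds q r ≤ 3 → ds p r ≤ 3 → 3 < ds (ap p q) r →
      1 / 2 + 2 * ω ≤ FS D n s p q + FS D n s q r +
        FS D n s r p)
    (quad : ∀ p q r r', In (n * h0 + s) p → In (n * h0 + s) q → In (n * h0 + s) r →
      In (n * h0 + s) r' → Cel p q r → Cel q p r' → 3 < ds p q → ds q r ≤ 3 → ds p r ≤ 3 →
      ds q r' ≤ 3 → ds p r' ≤ 3 → 3 < ds r r' → 1 + 4 * ω ≤ FS D n s p r' +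
        FS D n s r' q + FS D n s q r + FS D n s r p)
    (two00 : ∀ p q r, In (n * h0 + s) p → In (n * h0 + s) q → In (n * h0 + s) r → Cel p q r →
      3 < ds p q → ds q r ≤ 3 → 3 < ds p r → 1 / 2 + ls (n * h0 + s) ω q r ≤
        FS D n s p q + FS D n s q r + FS D n s r p)
    (two10 : ∀ p q r, In (n * h0 + s) p → In (n * h0 + s) q → In (n * h0 + s) r → Cel p q r →
      3 < ds p q → ds q r ≤ 3 → 3 < ds p r → ¬Wp (n * h0 + s) p q → In (n * h0 + s) (ap q p) →
      1 / 2 + ls (n * h0 + s) ω q r ≤ iv (n * h0 + s) ω (FS D n s) p q +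
        FS D n s q r + FS D n s r p)
    (two01 : ∀ p q r, In (n * h0 + s) p → In (n * h0 + s) q → In (n * h0 + s) r → Cel p q r →
      3 < ds p q → ds q r ≤ 3 → 3 < ds p r → ¬Wp (n * h0 + s) r p → In (n * h0 + s) (ap p r) →
      1 / 2 + ls (n * h0 + s) ω q r ≤ FS D n s p q + FS D n s q r +
        iv (n * h0 + s) ω (FS D n s) r p)
    (two11 : ∀ p q r, In (n * h0 + s) p → In (n * h0 + s) q → In (n * h0 + s) r → Cel p q r →
      3 < ds p q → ds q r ≤ 3 → 3 < ds p r → ¬Wp (n * h0 + s) p q → ¬Wp (n * h0 + s) r p →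
      In (n * h0 + s) (ap q p) → In (n * h0 + s) (ap p r) →
      1 / 2 + ls (n * h0 + s) ω q r ≤ iv (n * h0 + s) ω (FS D n s) p q +
        FS D n s q r + iv (n * h0 + s) ω (FS D n s) r p) :
    LongS (n * h0 + s) (wS n s) ω (FS D n s) := by
  have hg := h.gpos
  have hD := h.ok
  have hh := h0_pos
  have hnN : (N0 : ℝ) ≤ n := by exact_mod_cast hn
  have hN0 : (0 : ℝ) ≤ N0 := Nat.cast_nonneg N0
  have hn0 : (0 : ℝ) ≤ n := Nat.cast_nonneg n
  have hμ : 0 < mu n s := by
    unfold mu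
    positivity
  have hμm : mu n s ≤ mu N0 s := by
    unfold mu
    apply one_div_le_one_div_of_le (by positivity)
    linarith
  have hR' := hR.mono hμ.le hμm
  have aff : ∀ x a b, x ≤ WF D s 0 a b → x ≤ WF D s (mu N0 s) a b →
      x ≤ WF D s (mu n s) a b := by
    intro x a b e0 em
    obtain ⟨A, B, hAB⟩ := WF_aff D s a b
    rw [hAB] at e0 em ⊢
    have := aff_nonneg (A := A - x) (B := B) hμ.le hμm (by linarith) (by linarith)
    linarith
  have l1 : ∀ a b : Pt, ls (n * h0 + s) ω a b ≤ ω := fun a b => ls_le hω a b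
  refine ⟨hH, FS_anti hD n s, FS_mir hD n s, ?_, ?_, hω, ?_, ?_, ?_, ?_, two00, two10, two01,
    two11⟩
  · intro p q r hp hq hr hc k1 k2 k3
    refine star_row_small (FS_anti hD n s) hR' (FS_wf n hg) (FS_sf n hg) hp.1 hq.1 hr.1 hc ?_
    rw [FS_tri]
    exact h.inside hp hq hr hc.cr0 hc.pq hc.qr hc.pr k1 k2 k3
  · intro p q r hp hq hr hf hc _ _ _
    exact over_row hR' (FS_wf n hg) (FS_sf n hg) (FS_anti hD n s) hr.1 hf hc
  · intro a b ha hb hf k
    rw [FS_wf n hg]
    exact aff _ a b (low a b hf k).1 (low a b hf k).2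
  · intro a b ha hb hf k
    rw [FS_wf n hg]
    exact aff _ a b (lowL a b hf k).1 (lowL a b hf k).2
  · intro p q r hp hq hr _ hc k1 k2 k3 k4
    have := tall p q r hp hq hr hc k1 k2 k3 k4
    linarith [l1 q r, l1 r p]
  · intro p q r r' hp hq hr hr' _ h1 h2 k1 k2 k3 k4 k5 k6
    have := quad p q r r' hp hq hr hr' h1 h2 k1 k2 k3 k4 k5 k6
    linarith [l1 p r', l1 r' q, l1 q r, l1 r p]

end

end Pool.Agent.Strip051.LC
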