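import Pool.Agent.Strip051.LC.Exact.ExtLong

/-! # The edge function with the walls and the flips

On the short edges the edge function is `star F`, on the long pairs at the walls it is the wall and
on the other long pairs it is `F`. -/

namespace Pool.Agent.Strip051.LC

open Pool.Agent.StripNear Pool.Agent.StripSquare Pool.Agent.Strip051.Sweep

open Classical in
/-- The value of a long pair. -/
noncomputable def lg (H w : ℝ) (F : Pt → Pt → ℝ) (a b : Pt) : ℝ :=
  if FF a b then w * (b.1 - a.1) - 1 / 2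
  else if FF b a then -(w * (a.1 - b.1) - 1 / 2)
  else if FF (mir H b) (mir H a) then w * (a.1 - b.1) - 1 / 2
  else if FF (mir H a) (mir H b) then -(w * (b.1 - a.1) - 1 / 2)
  else F a b

/-- The edge function. -/
noncomputable def Gst (H w : ℝ) (F : Pt → Pt → ℝ) (a b : Pt) : ℝ :=
  if ds a b ≤ 3 then star H w F a b else lg H w F a b

section

variable {H w : ℝ} {F : Pt → Pt → ℝ}

theorem lg_anti (hanti : ∀ a b, F b a = -F a b) (a b : Pt) :
    lg H w F b a = -lg H w F a b := by
  unfold lg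
  by_cases h1 : FF a b
  · rw [if_neg h1.not_rev, if_pos h1, if_pos h1]
  · by_cases h2 : FF b a
    · rw [if_pos h2, if_neg h1, if_pos h2, neg_neg]
    · rw [if_neg h2, if_neg h1, if_neg h1, if_neg h2]
      by_cases h3 : FF (mir H a) (mir H b)
      · rw [if_pos h3, if_neg h3.not_rev, if_pos h3, neg_neg]
      · rw [if_neg h3]
        by_cases h4 : FF (mir H b) (mir H a)
        · rw [if_pos h4, if_pos h4]
        · rw [if_neg h4, if_neg h4, if_neg h3]
          exact hanti a b

theorem lg_mirror (hH : 2 < H) (hmir : ∀ a b, F (mir H a) (mir H b) = F b a) (a b : Pt) :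
    lg H w F (mir H a) (mir H b) = lg H w F b a := by
  have e1 : (mir H a).1 = a.1 := rfl
  have e2 : (mir H b).1 = b.1 := rfl
  unfold lg
  rw [mir_mir', mir_mir', hmir, e1, e2]
  by_cases h1 : FF b a
  · have n1 : ¬FF (mir H a) (mir H b) := fun h => h1.no_top hH h (by tauto)
    have n2 : ¬FF (mir H b) (mir H a) := fun h => h1.no_top hH h (by tauto)
    rw [if_neg n1, if_neg n2, if_pos h1, if_pos h1]
  · by_cases h2 : FF a b
    · have n1 : ¬FF (mir H a) (mir H b) := fun h => h2.no_top hH h (by tauto)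
      have n2 : ¬FF (mir H b) (mir H a) := fun h => h2.no_top hH h (by tauto)
      rw [if_neg n1, if_neg n2, if_neg h1, if_pos h2, if_neg h1, if_pos h2]
    · by_cases h3 : FF (mir H a) (mir H b)
      · rw [if_pos h3, if_neg h1, if_neg h2, if_pos h3]
      · by_cases h4 : FF (mir H b) (mir H a)
        · rw [if_neg h3, if_pos h4, if_neg h1, if_neg h2, if_neg h3, if_pos h4]
        · rw [if_neg h3, if_neg h4, if_neg h1, if_neg h2, if_neg h1, if_neg h2, if_neg h3,
            if_neg h4]

theorem lg_abs {K K' : ℝ} {a b : Pt} (h1 : |F a b| ≤ K)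
    (h3 : |w * (b.1 - a.1) - 1 / 2| ≤ K') (h4 : |w * (a.1 - b.1) - 1 / 2| ≤ K') (hK : K ≤ K') :
    |lg H w F a b| ≤ K' := by
  unfold lg
  split_ifs
  · exact h3
  · rwa [abs_neg]
  · exact h4
  · rwa [abs_neg]
  · exact h1.trans hK

theorem lg_free {a b : Pt} (h : ¬Wp H a b) : lg H w F a b = F a b := by
  unfold Wp at h
  push Not at h
  obtain ⟨h1, h2, h3, h4⟩ := h
  unfold lg
  rw [if_neg h1, if_neg h2, if_neg h3, if_neg h4]

theorem Gst_anti (hanti : ∀ a b, F b a = -F a b) (a b : Pt) : Gst H w F b a = -Gst H w F a b := by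
  unfold Gst
  rw [ds_comm b a, star_anti hanti a b, lg_anti hanti a b]
  split_ifs <;> rfl

theorem Gst_mirror (hH : 2 < H) (hmir : ∀ a b, F (mir H a) (mir H b) = F b a) (a b : Pt) :
    Gst H w F (mir H a) (mir H b) = Gst H w F b a := by
  unfold Gst
  rw [ds_mir, star_mirror hH hmir, lg_mirror hH hmir, ds_comm a b]

theorem Gst_short {a b : Pt} (h : ds a b ≤ 3) : Gst H w F a b = star H w F a b := if_pos h

theorem Gst_long {a b : Pt} (h : 3 < ds a b) : Gst H w F a b = lg H w F a b := if_neg (not_le.2 h)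

theorem Gst_abs {K K' : ℝ} {a b : Pt} (h1 : |F a b| ≤ K) (h2 : |F b a| ≤ K)
    (h3 : |w * (b.1 - a.1) - 1 / 2| ≤ K') (h4 : |w * (a.1 - b.1) - 1 / 2| ≤ K') (hK : K ≤ K') :
    |Gst H w F a b| ≤ K' := by
  unfold Gst
  split_ifs
  · exact star_abs h1 h2 h3 h4 hK
  · exact lg_abs h1 h3 h4 hK

open Classical in
/-- The loss of a short edge. -/
noncomputable def ls (H ω : ℝ) (a b : Pt) : ℝ := if Wf H a b then ω else 0

theorem ls_le {ω : ℝ} (hω : 0 ≤ ω) (a b : Pt) : ls H ω a b ≤ ω := by
  unfold ls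
  split_ifs
  · exact le_rfl
  · exact hω

theorem ls_nonneg {ω : ℝ} (hω : 0 ≤ ω) (a b : Pt) : 0 ≤ ls H ω a b := by
  unfold ls
  split_ifs
  · exact hω
  · exact le_rfl

theorem ls_zero (a b : Pt) : ls H 0 a b = 0 := by
  unfold ls
  split_ifs <;> rfl

/-- `star` is smaller than `F` at most on the edges at a wall. -/
theorem star_ls {ω : ℝ} (hanti : ∀ a b, F b a = -F a b)
    (hmir : ∀ a b, F (mir H a) (mir H b) = F b a) (hω : 0 ≤ ω) {a b : Pt}
    (h1 : FF a b → -ω ≤ wf w F a b)
    (h2 : FF (mir H b) (mir H a) → -ω ≤ wf w F (mir H b) (mir H a)) :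
    F a b - ls H ω a b ≤ star H w F a b := by
  unfold ls
  split_ifs with c
  · exact star_ge hanti hmir hω h1 h2
  · unfold Wf at c
    push Not at c
    rw [sub_zero]
    have := star_ge (H := H) (w := w) hanti hmir le_rfl (a := a) (b := b)
      (fun h => absurd h c.1) (fun h => absurd h c.2)
    rwa [sub_zero] at this

/-- The path through the apex on the left of `p q`. -/
noncomputable def iv (H ω : ℝ) (F : Pt → Pt → ℝ) (p q : Pt) : ℝ :=
  1 / 2 + (F p (ap q p) - ls H ω p (ap q p)) + (F (ap q p) q - ls H ω (ap q p) q)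

/-- The hypotheses for the edge function `F` of the strip. -/
structure LongS (H w ω : ℝ) (F : Pt → Pt → ℝ) : Prop where
  height : 2 < H
  anti : ∀ a b, F b a = -F a b
  mirror : ∀ a b, F (mir H a) (mir H b) = F b a
  rows : ∀ p q r, In H p → In H q → In H r → Cel p q r → ds p q ≤ 3 → ds q r ≤ 3 →
    ds p r ≤ 3 → 1 / 2 ≤ F p q + F q r + F r p + corr w F p q r
  above : ∀ p q r, In H p → In H q → In H r → FF p q → Cel p q r → 3 < ds p q → ds q r ≤ 3 →
    ds p r ≤ 3 → 1 ≤ w * (q.1 - p.1) + (F q r + wm w F q r - wm w F r q) +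
      (F r p + wm w F r p - wm w F p r)
  ω0 : 0 ≤ ω
  low : ∀ a b, In H a → In H b → FF a b → ds a b ≤ 3 → -ω ≤ wf w F a b
  lowL : ∀ a b, In H a → In H b → FF a b → 3 < ds a b → 0 ≤ wf w F a b
  tall : ∀ p q r, In H p → In H q → In H r → ¬Wp H p q → Cel p q r → 3 < ds p q → ds q r ≤ 3 →
    ds p r ≤ 3 → 3 < ds (ap p q) r → 1 / 2 + ls H ω q r + ls H ω r p ≤ F p q + F q r + F r p
  quad : ∀ p q r r', In H p → In H q → In H r → In H r' → ¬Wp H p q → Cel p q r →
    Cel q p r' → 3 < ds p q → ds q r ≤ 3 → ds p r ≤ 3 → ds q r' ≤ 3 → ds p r' ≤ 3 →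
    3 < ds r r' → 1 + ls H ω p r' + ls H ω r' q + ls H ω q r + ls H ω r p ≤
      F p r' + F r' q + F q r + F r p
  two00 : ∀ p q r, In H p → In H q → In H r → Cel p q r → 3 < ds p q → ds q r ≤ 3 →
    3 < ds p r → 1 / 2 + ls H ω q r ≤ F p q + F q r + F r p
  two10 : ∀ p q r, In H p → In H q → In H r → Cel p q r → 3 < ds p q → ds q r ≤ 3 →
    3 < ds p r → ¬Wp H p q → In H (ap q p) → 1 / 2 + ls H ω q r ≤ iv H ω F p q + F q r + F r p
  two01 : ∀ p q r, In H p → In H q → In H r → Cel p q r → 3 < ds p q → ds q r ≤ 3 →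
    3 < ds p r → ¬Wp H r p → In H (ap p r) → 1 / 2 + ls H ω q r ≤ F p q + F q r + iv H ω F r p
  two11 : ∀ p q r, In H p → In H q → In H r → Cel p q r → 3 < ds p q → ds q r ≤ 3 →
    3 < ds p r → ¬Wp H p q → ¬Wp H r p → In H (ap q p) → In H (ap p r) →
    1 / 2 + ls H ω q r ≤ iv H ω F p q + F q r + iv H ω F r p

section

variable {ω : ℝ}

theorem LongS.short_ge (h : LongS H w ω F) {a b : Pt} (ha : In H a) (hb : In H b)
    (h3 : ds a b ≤ 3) : F a b - ls H ω a b ≤ Gst H w F a b := by
  rw [Gst_short h3]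
  exact star_ls h.anti h.mirror h.ω0 (fun hf => h.low a b ha hb hf h3)
    (fun hf => h.low _ _ hb.mir ha.mir hf (by rw [ds_mir, ds_comm]; exact h3))

/-- The value of a long pair with the strip on its left. -/
theorem LongS.long_ge (h : LongS H w ω F) {a b : Pt} (ha : In H a) (hb : In H b)
    (h3 : 3 < ds a b) (hw : Wp H a b → Wf H a b) : F a b ≤ Gst H w F a b := by
  rw [Gst_long h3]
  by_cases hW : Wp H a b
  · rcases hw hW with f | f
    · have := h.lowL a b ha hb f h3
      unfold wf at this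
      unfold lg
      rw [if_pos f]
      linarith
    · have := h.lowL _ _ hb.mir ha.mir f (by rw [ds_mir, ds_comm]; exact h3)
      unfold wf at this
      rw [h.mirror] at this
      have e1 : (mir H a).1 = a.1 := rfl
      have e2 : (mir H b).1 = b.1 := rfl
      rw [e1, e2] at this
      have n1 : ¬FF a b := fun h' => h'.no_top h.height f (by tauto)
      have n2 : ¬FF b a := fun h' => h'.no_top h.height f (by tauto)
      unfold lg
      rw [if_neg n1, if_neg n2, if_pos f]
      linarith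
  · rw [lg_free hW]

/-- The value of a long side of a cell with two long sides. -/
theorem LongS.ev_cases (h : LongS H w ω F) {a b : Pt} (ha : In H a) (hb : In H b)
    (h3 : 3 < ds a b) (h4 : ds a b ≤ 4) (hw : Wp H a b → Wf H a b) :
    F a b ≤ ev H (Gst H w F) a b ∨ (¬Wp H a b ∧ In H (ap b a) ∧
      iv H ω F a b ≤ ev H (Gst H w F) a b) := by
  by_cases hW : Wp H a b
  · left
    rw [ev_wall hW]
    exact h.long_ge ha hb h3 hw
  · have hG := Gst_anti (H := H) (w := w) h.anti
    obtain ⟨b1, b2⟩ := ap_ds (p := b) (q := a) (by rw [ds_comm]; linarith)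
      (by rw [ds_comm]; exact h4)
    have hI : In H (ap b a) := ap_in hb ha b1 b2 (by rw [ds_comm]; exact h3)
      (fun h' => hW h'.symm)
    rw [ev_free hG ha hb h3 h4 hW]
    rcases min_choice (Gst H w F a b) (1 / 2 + Gst H w F a (ap b a) + Gst H w F (ap b a) b) with
      c | c
    · left
      rw [c]
      exact h.long_ge ha hb h3 hw
    · right
      refine ⟨hW, hI, ?_⟩
      rw [c]
      have e1 := h.short_ge ha hI (by rw [b2]; norm_num)
      have e2 := h.short_ge hI hb (by rw [ds_comm, b1]; norm_num)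
      unfold iv
      linarith

/-- **The certificate for the strip.** -/
theorem LongS.ext (h : LongS H w ω F) : ExtLong H w (Gst H w F) := by
  have row : ∀ p q r, In H p → In H q → In H r → Cel p q r → ds p q ≤ 3 → ds q r ≤ 3 →
      ds p r ≤ 3 → 1 / 2 ≤ star H w F p q + star H w F q r + star H w F r p := by
    intro p q r hp hq hr hc k1 k2 k3
    refine star_tri h.height h.anti h.mirror (h.rows p q r hp hq hr hc k1 k2 k3) ?_
    exact h.rows _ _ _ hr.mir hq.mir hp.mir (cel_mir3 hc) (by rw [ds_mir, ds_comm]; exact k2)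
      (by rw [ds_mir, ds_comm]; exact k1) (by rw [ds_mir, ds_comm]; exact k3)
  refine ⟨Gst_anti h.anti, Gst_mirror h.height h.mirror, ?_, ?_, ?_, ?_, ?_, ?_, ?_⟩
  · intro p q r hp hq hr hc k1 k2 k3
    rw [Gst_short k1, Gst_short k2, Gst_short (by rw [ds_comm]; exact k3)]
    exact row p q r hp hq hr hc k1 k2 k3
  · intro p q hp hq hf k
    rw [Gst_short k]
    unfold star
    rw [if_pos hf]
    exact min_le_right _ _
  · intro p q hp hq hf k
    rw [Gst_long k]
    unfold lg
    rw [if_pos hf]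
  · intro p q r hp hq hr hf hc k1 k2 k3
    have k3' : ds r p ≤ 3 := by rwa [ds_comm]
    have e := h.above p q r hp hq hr hf hc k1 k2 k3
    have n1 := fun hf' => hf.no_top (c := r) (d := q) h.height hf'
      (Or.inr (Or.inr (Or.inr rfl)))
    have n2 := fun hf' => hf.no_top (c := q) (d := r) h.height hf'
      (Or.inr (Or.inl rfl))
    have n3 := fun hf' => hf.no_top (c := p) (d := r) h.height hf' (Or.inl rfl)
    have n4 := fun hf' => hf.no_top (c := r) (d := p) h.height hf'
      (Or.inr (Or.inr (Or.inl rfl)))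
    rw [Gst_short k2, Gst_short k3', star_floor (w := w) h.anti (a := q) (b := r) n1 n2,
      star_floor (w := w) h.anti (a := r) (b := p) n3 n4]
    linarith
  · intro p q r hp hq hr hw hc k1 k2 k3 k4
    have k3' : ds r p ≤ 3 := by rwa [ds_comm]
    have e := h.tall p q r hp hq hr hw hc k1 k2 k3 k4
    have e1 := h.long_ge hp hq k1 (fun h' => absurd h' hw)
    have e2 := h.short_ge hq hr k2
    have e3 := h.short_ge hr hp k3'
    linarith
  · intro p q r r' hp hq hr hr' hw h1 h2 k1 k2 k3 k4 k5 k6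
    have e := h.quad p q r r' hp hq hr hr' hw h1 h2 k1 k2 k3 k4 k5 k6
    have e1 := h.short_ge hp hr' k5
    have e2 := h.short_ge hr' hq (by rw [ds_comm]; exact k4)
    have e3 := h.short_ge hq hr k2
    have e4 := h.short_ge hr hp (by rw [ds_comm]; exact k3)
    linarith
  · intro p q r hp hq hr hc k1 k2 k3 w1 w2
    have k3' : 3 < ds r p := by rwa [ds_comm]
    have l1 := hc.le_four
    have l2 := hc.rot.rot.le_four
    have e0 := h.short_ge hq hr k2
    rcases h.ev_cases hp hq k1 l1 w1 with c1 | ⟨c1, i1, c2⟩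
    · rcases h.ev_cases hr hp k3' l2 w2 with d1 | ⟨d1, j1, d2⟩
      · have := h.two00 p q r hp hq hr hc k1 k2 k3
        linarith
      · have := h.two01 p q r hp hq hr hc k1 k2 k3 d1 j1
        linarith
    · rcases h.ev_cases hr hp k3' l2 w2 with d1 | ⟨d1, j1, d2⟩
      · have := h.two10 p q r hp hq hr hc k1 k2 k3 c1 i1
        linarith
      · have := h.two11 p q r hp hq hr hc k1 k2 k3 c1 d1 i1 j1
        linarith

end

end

/-! ### The strip -/

section

variable {D : Data} {s : ℝ} {n : ℕ}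

/-- **The exact count.** -/
theorem countBound_of_longS (hD : D.Ok) (hs0 : 0 ≤ s) (hs1 : s < h0) {ω : ℝ}
    (h : LongS (n * h0 + s) (wS n s) ω (FS D n s)) : CountBound n s := by
  have hg : 0 < g s := by linarith [g_gt_half hs0 hs1]
  obtain ⟨K, hK0, hK⟩ := FS_bdd hD n s hs0 hg
  have hw0 := wS_nonneg n hg
  have hGK : ∀ a b : Pt, |a.1 - b.1| ≤ 2 → In (n * h0 + s) a → In (n * h0 + s) b →
      |Gst (n * h0 + s) (wS n s) (FS D n s) a b| ≤ K + (2 * wS n s + 1 / 2) := by
    intro a b hab ha hb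
    have hba : |b.1 - a.1| ≤ 2 := by rwa [abs_sub_comm]
    have hl : ∀ x : ℝ, |x| ≤ 2 → |wS n s * x - 1 / 2| ≤ K + (2 * wS n s + 1 / 2) := by
      intro x hx
      have h3 : |wS n s * x| ≤ wS n s * 2 := by
        rw [abs_mul, abs_of_nonneg hw0]
        exact mul_le_mul_of_nonneg_left hx hw0
      rw [abs_le] at h3 ⊢
      constructor <;> linarith
    exact Gst_abs (K := K) (hK a b hab ha hb) (hK b a hba hb ha) (hl _ hba) (hl _ hab)
      (by linarith)
  have hB0 : 0 ≤ K + (2 * wS n s + 1 / 2) := by positivity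
  refine h.ext.symH.countBound hs0 hs1 (wS_eq n hg)
    (K := K + (2 * wS n s + 1 / 2) + 3 * (K + (2 * wS n s + 1 / 2))) ?_ (by positivity)
  intro a b hab ha0 haH hb0 hbH
  exact h.ext.ext.bdd (fun p q => dl_le hB0 hGK p q) (hGK a b hab ⟨ha0, haH⟩ ⟨hb0, hbH⟩)

end

end Pool.Agent.Strip051.LC
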