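import Pool.Agent.Strip051.LC.Exact.Vertex

/-! # The exact weight: from the vertices to the density -/

namespace Pool.Agent.Strip051.LC

open Pool.Agent.StripNear Pool.Agent.StripSquare Pool.Agent.Strip051.Sweep
open Pool.Agent.StripTwo (rowNumber molnar)

/-- the vertical translation -/
noncomputable def sh (t : ℝ) (p : Pt) : Pt := (p.1, p.2 - t)

theorem ds_sh (t : ℝ) (p q : Pt) : ds (sh t p) (sh t q) = ds p q := by
  unfold ds sh
  ring

theorem cr_sh (t : ℝ) (p q r : Pt) : cr (sh t p) (sh t q) (sh t r) = cr p q r := by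
  unfold cr sh
  ring

theorem Cell.sh {p q r o : Pt} {R : ℝ} (h : Cell p q r o R) (t : ℝ) :
    Cell (sh t p) (sh t q) (sh t r) (sh t o) R := by
  obtain ⟨h1, h2, h3, h4, h5, h6, h7, h8⟩ := h
  exact ⟨by rw [cr_sh]; exact h1, by rw [ds_sh]; exact h2, by rw [ds_sh]; exact h3,
    by rw [ds_sh]; exact h4, by rw [ds_sh]; exact h5, by rw [ds_sh]; exact h6,
    by rw [ds_sh]; exact h7, h8⟩

/-- the vertical translation by `k` rows -/
noncomputable def up (k : ℕ) (p : Pt) : Pt := (p.1, p.2 + k * h0)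

theorem sh_up (k : ℕ) (p : Pt) : sh (k * h0) (up k p) = p := by
  unfold sh up
  simp

theorem up_sh (k : ℕ) (p : Pt) : up k (sh (k * h0) p) = p := by
  unfold sh up
  simp

theorem ds_up (k : ℕ) (p q : Pt) : ds (up k p) (up k q) = ds p q := by
  unfold ds up
  ring

theorem cr_up (k : ℕ) (p q r : Pt) : cr (up k p) (up k q) (up k r) = cr p q r := by
  unfold cr up
  ring

theorem Cell.up {p q r o : Pt} {R : ℝ} (h : Cell p q r o R) (k : ℕ) :
    Cell (up k p) (up k q) (up k r) (up k o) R := by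
  obtain ⟨h1, h2, h3, h4, h5, h6, h7, h8⟩ := h
  exact ⟨by rw [cr_up]; exact h1, by rw [ds_up]; exact h2, by rw [ds_up]; exact h3,
    by rw [ds_up]; exact h4, by rw [ds_up]; exact h5, by rw [ds_up]; exact h6,
    by rw [ds_up]; exact h7, h8⟩

/-- A translation by `k` rows changes the flux of a triangle by a multiple of `R2`. -/
theorem Data.Ok.fl_up {D : Data} (hD : D.Ok) (n k : ℕ) (s : ℝ) (p q r : Pt) :
    fl (D.QS n s) (up k p) (up k q) (up k r) =
      fl (D.QS n s) p q r - 1 / (n + 2 * g s) * k * fl D.R2 (dn s p) (dn s q) (dn s r) := by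
  have key : ∀ X y z : ℝ, D.QS n s X (y + k * h0) (z + k * h0) =
      D.QS n s X y z - 1 / (n + 2 * g s) * k * D.R2 X (y - s / 2) (z - s / 2) := by
    intro X y z
    unfold Data.QS
    rw [show y + k * h0 - s / 2 = y - s / 2 + k * h0 by ring,
      show z + k * h0 - s / 2 = z - s / 2 + k * h0 by ring, hD.shift]
    unfold Data.Q
    ring
  unfold fl ed up dn
  simp only
  rw [key, key, key]
  ring

theorem Data.Ok.fl2_up {D : Data} (hD : D.Ok) (k : ℕ) (s : ℝ) (p q r : Pt) :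
    fl D.R2 (dn s (up k p)) (dn s (up k q)) (dn s (up k r)) =
      fl D.R2 (dn s p) (dn s q) (dn s r) := by
  have key : ∀ X y z : ℝ, D.R2 X (y + k * h0 - s / 2) (z + k * h0 - s / 2) =
      D.R2 X (y - s / 2) (z - s / 2) := by
    intro X y z
    rw [show y + k * h0 - s / 2 = y - s / 2 + k * h0 by ring,
      show z + k * h0 - s / 2 = z - s / 2 + k * h0 by ring, hD.per2']
  unfold fl ed up dn
  simp only
  rw [key, key, key]

theorem fl_QS (D : Data) (n : ℕ) (s : ℝ) (p q r : Pt) :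
    fl (D.QS n s) p q r = fl (D.Q (1 / (n + 2 * g s)) (-(1 / (n + 2 * g s) * (n / 2))))
      (dn s p) (dn s q) (dn s r) := by
  unfold fl ed dn Data.QS
  rfl

/-- All cells of the strip are good. -/
def TriStrip (D : Data) (n : ℕ) (s : ℝ) : Prop :=
  ∀ p q r o R, Cell p q r o R → In (n * h0 + s) p → In (n * h0 + s) q → In (n * h0 + s) r →
    1 / 2 ≤ cr p q r / (2 * h0) + fl (D.QS n s) p q r

/-- The reduction to one inequality near the floor: `hbase` is the inequality for a triangle with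
the level of its lowest point moved to the floor. -/
theorem triStrip_of {D : Data} (hD : D.Ok) {n : ℕ} {s : ℝ} (hg : 0 < g s)
    (hbase : ∀ p q r o R, Cell p q r o R → p.2 ≤ q.2 → p.2 ≤ r.2 → 0 ≤ p.2 →
      ∃ t, 0 ≤ t ∧ 1 / 2 ≤ cr p q r / (2 * h0) + fl (D.QS n s) p q r +
        1 / (n + 2 * g s) * t * fl D.R2 (dn s p) (dn s q) (dn s r)) : TriStrip D n s := by
  have hh := h0_pos
  have hn0 : (0 : ℝ) ≤ n := Nat.cast_nonneg n
  set H := (n : ℝ) * h0 + s with hH
  set μ := 1 / ((n : ℝ) + 2 * g s) with hμ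
  have hμ0 : 0 < μ := by positivity
  have hm : ∀ a b : Pt, ed (D.QS n s) (mir H a) (mir H b) = ed (D.QS n s) b a := by
    intro a b
    unfold ed mir
    simp only
    rw [hH, hD.QS_mirror]
    have := hD.QS_anti n s (a.1 - b.1) b.2 a.2
    rw [neg_sub] at this
    rw [this, neg_neg]
  have hfl : ∀ p q r : Pt, fl (D.QS n s) (mir H r) (mir H q) (mir H p) =
      fl (D.QS n s) p q r := by
    intro p q r
    unfold fl
    rw [hm, hm, hm]
    ring
  have hcr : ∀ p q r : Pt, cr (mir H r) (mir H q) (mir H p) = cr p q r := by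
    intro p q r
    unfold cr mir
    ring
  have hds : ∀ a b : Pt, ds (mir H a) (mir H b) = ds a b := by
    intro a b
    unfold ds mir
    ring
  have hmc : ∀ p q r o R, Cell p q r o R → Cell (mir H r) (mir H q) (mir H p) (mir H o) R := by
    intro p q r o R hc
    obtain ⟨h1, h2, h3, h4, h5, h6, h7, h8⟩ := hc
    exact ⟨by rw [hcr]; exact h1, by rw [hds, ds_comm]; exact h3,
      by rw [hds, ds_comm]; exact h2, by rw [hds, ds_comm]; exact h4, by rw [hds]; exact h7,
      by rw [hds]; exact h6, by rw [hds]; exact h5, h8⟩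
  have hfl2 : ∀ p q r : Pt, fl D.R2 (dn s (mir H r)) (dn s (mir H q)) (dn s (mir H p)) =
      -fl D.R2 (dn s p) (dn s q) (dn s r) := by
    intro p q r
    have key : ∀ X y z : ℝ, D.R2 X (H - y - s / 2) (H - z - s / 2) =
        D.R2 X (y - s / 2) (z - s / 2) := by
      intro X y z
      rw [show H - y - s / 2 = -(y - s / 2) + n * h0 by rw [hH]; ring,
        show H - z - s / 2 = -(z - s / 2) + n * h0 by rw [hH]; ring, hD.per2', hD.mir2]
    unfold fl ed dn mir
    simp only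
    rw [key, key, key]
    have a1 := hD.anti2 (q.1 - p.1) (p.2 - s / 2) (q.2 - s / 2)
    have a2 := hD.anti2 (r.1 - q.1) (q.2 - s / 2) (r.2 - s / 2)
    have a3 := hD.anti2 (p.1 - r.1) (r.2 - s / 2) (p.2 - s / 2)
    rw [neg_sub] at a1 a2 a3
    rw [a1, a2, a3]
    ring
  have tri' : ∀ p q r o R, Cell p q r o R → In H p → In H q → In H r → p.2 ≤ q.2 → p.2 ≤ r.2 →
      1 / 2 ≤ cr p q r / (2 * h0) + fl (D.QS n s) p q r := by
    intro p q r o R hc hp hq hr hpq hpr
    obtain ⟨t, t0, d1⟩ := hbase p q r o R hc hpq hpr hp.1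
    set C := fl D.R2 (dn s p) (dn s q) (dn s r) with hC
    have d2 : ∃ t', 0 ≤ t' ∧
        1 / 2 ≤ cr p q r / (2 * h0) + fl (D.QS n s) p q r - μ * t' * C := by
      have e1 : ∀ x : Pt, (mir H x).2 = H - x.2 := fun x => rfl
      have hc' := hmc _ _ _ _ _ hc
      rcases le_total q.2 r.2 with h | h
      · obtain ⟨t', t0', d⟩ := hbase _ _ _ _ _ hc' (by rw [e1, e1]; linarith)
          (by rw [e1, e1]; linarith) (by rw [e1]; linarith [hr.2])
        rw [hfl, hcr, hfl2, ← hC] at d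
        exact ⟨t', t0', by linarith⟩
      · obtain ⟨t', t0', d⟩ := hbase _ _ _ _ _ hc'.rot (by rw [e1, e1]; linarith)
          (by rw [e1, e1]; linarith) (by rw [e1]; linarith [hq.2])
        rw [fl_rot (D.QS n s) (mir H r) (mir H q) (mir H p), cr_rot (mir H r) (mir H q) (mir H p),
          fl_rot D.R2 (dn s (mir H r)) (dn s (mir H q)) (dn s (mir H p)), hfl, hcr, hfl2, ← hC] at d
        exact ⟨t', t0', by linarith⟩
    obtain ⟨t', t0', d2⟩ := d2
    rcases le_total 0 C with h | h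
    · have : 0 ≤ μ * t' * C := by positivity
      linarith
    · have : 0 ≤ μ * t * (-C) := mul_nonneg (by positivity) (by linarith)
      linarith
  intro p q r o R hc hp hq hr
  rcases le_total p.2 q.2 with a | a
  · rcases le_total p.2 r.2 with b | b
    · exact tri' p q r o R hc hp hq hr a b
    · have := tri' r p q o R hc.rot.rot hr hp hq b (b.trans a)
      rw [cr_rot r p q, fl_rot _ r p q]
      exact this
  · rcases le_total q.2 r.2 with b | b
    · have := tri' q r p o R hc.rot hq hr hp b a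
      rw [cr_rot, fl_rot] at this
      exact this
    · have := tri' r p q o R hc.rot.rot hr hp hq (b.trans a) b
      rw [cr_rot r p q, fl_rot _ r p q]
      exact this

/-- The triangle inequality near the floor. -/
theorem Verts.base {D : Data} {N0 : ℕ} {s : ℝ} (hV : Verts D N0 s) {n : ℕ} (hn : N0 ≤ n)
    (hg : 0 < g s) {p q r o : Pt} {R : ℝ} (hc : Cell p q r o R) (hpq : p.2 ≤ q.2)
    (hpr : p.2 ≤ r.2) (hp0 : 0 ≤ p.2) (hp1 : p.2 ≤ h0) :
    1 / 2 ≤ cr p q r / (2 * h0) + fl (D.QS n s) p q r := by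
  have hn0 : (0 : ℝ) ≤ n := Nat.cast_nonneg n
  have hN0 : (0 : ℝ) ≤ N0 := Nat.cast_nonneg N0
  have hnN : (N0 : ℝ) ≤ n := by exact_mod_cast hn
  have hc' : Cell (dn s p) (dn s q) (dn s r) (dn s o) R := hc.sh (s / 2)
  have e1 : (dn s p).2 = p.2 - s / 2 := rfl
  have e2 : (dn s q).2 = q.2 - s / 2 := rfl
  have e3 : (dn s r).2 = r.2 - s / 2 := rfl
  have f1 := hV.far _ _ _ _ _ hc' (by linarith) (by linarith) (by linarith) (by linarith)
  have f2 := hV.near _ _ _ _ _ hc' (by linarith) (by linarith) (by linarith) (by linarith)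
  unfold Data.Tr at f1 f2
  rw [Data.Q_fl] at f1 f2
  have ecr : cr (dn s p) (dn s q) (dn s r) = cr p q r := cr_sh (s / 2) p q r
  rw [ecr] at f1 f2
  rw [fl_QS, Data.Q_fl]
  set μ := 1 / ((n : ℝ) + 2 * g s) with hμ
  have hμ0 : 0 < μ := by positivity
  have hμ1 : μ * (n + 2 * g s) = 1 := by
    rw [hμ]
    field_simp
  have key := hull (A := cr p q r / (2 * h0) - 1 / 2 + fl D.R0 (dn s p) (dn s q) (dn s r))
    (B := fl D.R1 (dn s p) (dn s q) (dn s r)) (C := fl D.R2 (dn s p) (dn s q) (dn s r))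
    (by positivity) hμ0.le hμ1 hnN (by linarith) (by linarith)
  linarith

/-- All cells, from the vertices. -/
theorem Verts.triStrip {D : Data} {N0 : ℕ} {s : ℝ} (hV : Verts D N0 s) (hD : D.Ok) {n : ℕ}
    (hn : N0 ≤ n) (hg : 0 < g s) : TriStrip D n s := by
  have hh := h0_pos
  apply triStrip_of hD hg
  intro p q r o R hc hpq hpr hp0
  obtain ⟨j, j1, j2⟩ : ∃ j : ℕ, (j : ℝ) * h0 ≤ p.2 ∧ p.2 ≤ j * h0 + h0 := by
    refine ⟨⌊p.2 / h0⌋₊, ?_, ?_⟩
    · have := Nat.floor_le (div_nonneg hp0 hh.le)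
      rwa [le_div_iff₀ hh] at this
    · have := (Nat.lt_floor_add_one (p.2 / h0)).le
      rw [div_le_iff₀ hh] at this
      linarith
  refine ⟨j, Nat.cast_nonneg j, ?_⟩
  have hc' := hc.sh (j * h0)
  have e1 : (sh (j * h0) p).2 = p.2 - j * h0 := rfl
  have e2 : (sh (j * h0) q).2 = q.2 - j * h0 := rfl
  have e3 : (sh (j * h0) r).2 = r.2 - j * h0 := rfl
  have h1 := hV.base hn hg hc' (by linarith) (by linarith) (by linarith) (by linarith)
  have h2 := hD.fl_up n j s (sh (j * h0) p) (sh (j * h0) q) (sh (j * h0) r)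
  have h3 := hD.fl2_up j s (sh (j * h0) p) (sh (j * h0) q) (sh (j * h0) r)
  rw [up_sh, up_sh, up_sh] at h2 h3
  rw [← h3] at h2
  rw [cr_sh] at h1
  linarith

/-- The inequalities for triangles without a condition on the phase: `p` is the lowest point, its
level is moved to the floor. -/
structure Free (D : Data) (N0 : ℕ) (s : ℝ) : Prop where
  far : ∀ p q r o R, Cell p q r o R → p.2 ≤ q.2 → p.2 ≤ r.2 → D.Tr 0 (-(1 / 2)) p q r
  near : ∀ p q r o R, Cell p q r o R → p.2 ≤ q.2 → p.2 ≤ r.2 →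
    D.Tr (1 / (N0 + 2 * g s)) (-(1 / (N0 + 2 * g s) * (N0 / 2 + (s / 2 + p.2) / h0))) p q r

/-- All cells, from the phase-free vertices. -/
theorem Free.triStrip {D : Data} {N0 : ℕ} {s : ℝ} (hV : Free D N0 s) (hD : D.Ok) {n : ℕ}
    (hn : N0 ≤ n) (hg : 0 < g s) : TriStrip D n s := by
  have hh := h0_pos
  have hn0 : (0 : ℝ) ≤ n := Nat.cast_nonneg n
  have hN0 : (0 : ℝ) ≤ N0 := Nat.cast_nonneg N0
  have hnN : (N0 : ℝ) ≤ n := by exact_mod_cast hn
  apply triStrip_of hD hg
  intro p q r o R hc hpq hpr hp0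
  refine ⟨p.2 / h0, div_nonneg hp0 hh.le, ?_⟩
  have hc' : Cell (dn s p) (dn s q) (dn s r) (dn s o) R := hc.sh (s / 2)
  have e1 : (dn s p).2 = p.2 - s / 2 := rfl
  have e2 : (dn s q).2 = q.2 - s / 2 := rfl
  have e3 : (dn s r).2 = r.2 - s / 2 := rfl
  have f1 := hV.far _ _ _ _ _ hc' (by linarith) (by linarith)
  have f2 := hV.near _ _ _ _ _ hc' (by linarith) (by linarith)
  unfold Data.Tr at f1 f2
  rw [Data.Q_fl] at f1 f2
  have ecr : cr (dn s p) (dn s q) (dn s r) = cr p q r := cr_sh (s / 2) p q r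
  rw [ecr] at f1 f2
  rw [fl_QS, Data.Q_fl]
  set μ := 1 / ((n : ℝ) + 2 * g s) with hμ
  have hμ0 : 0 < μ := by positivity
  have hμ1 : μ * (n + 2 * g s) = 1 := by
    rw [hμ]
    field_simp
  have e4 : s / 2 + (dn s p).2 = p.2 := by
    rw [e1]
    ring
  rw [e4] at f2
  set C := fl D.R2 (dn s p) (dn s q) (dn s r) with hC
  have key := hull (A := cr p q r / (2 * h0) - 1 / 2 + fl D.R0 (dn s p) (dn s q) (dn s r))
    (B := fl D.R1 (dn s p) (dn s q) (dn s r) + p.2 / h0 * C) (C := C)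
    (by positivity) hμ0.le hμ1 hnN (by linarith) (by linarith)
  linarith

/-- The inequality at the floor for one strip. -/
theorem floor_affine {D : Data} {s μ μ0 : ℝ} (h1 : FloorAt D s 0) (h2 : FloorAt D s μ0)
    (hμ0 : 0 ≤ μ) (hμ : μ ≤ μ0) : FloorAt D s μ := by
  intro p q m k1 k2 k3 k4 k5 k6
  have a1 := h1 p q m k1 k2 k3 k4 k5 k6
  have a2 := h2 p q m k1 k2 k3 k4 k5 k6
  unfold ed Data.Q dn at *
  simp only at *
  rcases hμ0.eq_or_lt with rfl | hpos
  · exact a1
  · have hp : 0 < μ0 := lt_of_lt_of_le hpos hμ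
    set X := q.1 - p.1
    set r0 := D.R0 X (p.2 - s / 2) (q.2 - s / 2)
    set r1 := D.R1 X (p.2 - s / 2) (q.2 - s / 2)
    set r2 := D.R2 X (p.2 - s / 2) (q.2 - s / 2)
    set V := (p.2 + q.2) / (2 * h0)
    have b1 : 0 ≤ (μ0 - μ) * (X * (1 / 2 - we s - 0 * wq s + V) -
        (r0 + 0 * r1 - -(1 / 2 - g s * 0) * r2) - 1 / 2) :=
      mul_nonneg (by linarith) (by linarith)
    have b2 : 0 ≤ μ * (X * (1 / 2 - we s - μ0 * wq s + V) -
        (r0 + μ0 * r1 - -(1 / 2 - g s * μ0) * r2) - 1 / 2) :=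
      mul_nonneg hμ0 (by linarith)
    have b3 : 0 ≤ μ0 * (X * (1 / 2 - we s - μ * wq s + V) -
        (r0 + μ * r1 - -(1 / 2 - g s * μ) * r2) - 1 / 2) := by
      have e : μ0 * (X * (1 / 2 - we s - μ * wq s + V) -
          (r0 + μ * r1 - -(1 / 2 - g s * μ) * r2) - 1 / 2) =
          (μ0 - μ) * (X * (1 / 2 - we s - 0 * wq s + V) -
          (r0 + 0 * r1 - -(1 / 2 - g s * 0) * r2) - 1 / 2) +
          μ * (X * (1 / 2 - we s - μ0 * wq s + V) -
          (r0 + μ0 * r1 - -(1 / 2 - g s * μ0) * r2) - 1 / 2) := by ring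
      rw [e]
      exact add_nonneg b1 b2
    have b4 := nonneg_of_mul_nonneg_right b3 hp
    linarith

/-- **The exact count**, one strip. -/
theorem countBound_of_tri {D : Data} (hD : D.Ok) {N0 : ℕ} {s : ℝ} (hs0 : 0 ≤ s) (hs1 : s < h0)
    (hf1 : FloorAt D s 0) (hf2 : FloorAt D s (1 / (N0 + 2 * g s))) {n : ℕ} (hn : N0 ≤ n)
    (hV : TriStrip D n s) : CountBound n s := by
  have hh := h0_pos
  have hn0 : (0 : ℝ) ≤ n := Nat.cast_nonneg n
  have hN0 : (0 : ℝ) ≤ N0 := Nat.cast_nonneg N0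
  have hnN : (N0 : ℝ) ≤ n := by exact_mod_cast hn
  have hg : 0 < g s := by linarith [g_gt_half hs0 hs1]
  have hh1 : h0 < 1 := by nlinarith [h0_sq]
  set μ := 1 / ((n : ℝ) + 2 * g s) with hμ
  have hμ0 : 0 < μ := by positivity
  have hμ1 : μ * (n + 2 * g s) = 1 := by
    rw [hμ]
    field_simp
  have hf : FloorAt D s μ := floor_affine hf1 hf2 hμ0.le (by
    rw [hμ]
    apply one_div_le_one_div_of_le (by positivity)
    linarith)
  have hH : 0 ≤ (n : ℝ) * h0 + s := by positivity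
  set H := (n : ℝ) * h0 + s with hHd
  have hW : 2 * (μ * ((n + 1) * (n + 2)) / 2) * (n + 2 * g s) = ((n : ℝ) + 1) * (n + 2) := by
    linear_combination ((n : ℝ) + 1) * (n + 2) * hμ1
  obtain ⟨K, hK⟩ := hD.bdd (H + 1)
  have hK0 : 0 ≤ K := (abs_nonneg _).trans
    (hK 0 0 0 (by simp) (by simp only [abs_zero]; linarith) (by simp only [abs_zero]; linarith)).1
  have hs : SymH H (μ * ((n + 1) * (n + 2)) / 2) (FQ H (D.QS n s)) := by
    refine ⟨?_, ?_, ?_, ?_⟩
    · intro a b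
      have := hD.QS_anti n s (b.1 - a.1) a.2 b.2
      unfold FQ ed
      rw [show a.1 - b.1 = -(b.1 - a.1) by ring, this]
      ring
    · intro a b
      have h1 := hD.QS_anti n s (b.1 - a.1) a.2 b.2
      have h2 := hD.QS_mirror n s (b.1 - a.1) a.2 b.2
      unfold FQ ed mir
      simp only
      rw [h2, show a.1 - b.1 = -(b.1 - a.1) by ring, h1]
      ring
    · intro p q r o R hp hq hr ho k1 k2 k3 k4 k5 k6 k7 k8
      rw [FQ_tri]
      exact hV p q r o R ⟨k1, k2, k3, k4, k5, k6, k7, k8⟩ hp hq hr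
    · intro p q m k1 k2 k3 k4 k5 k6
      have h1 := hf p q m k1 k2.1 k3.1 k4 k5 k6
      have h2 := hD.QS_anti n s (q.1 - p.1) p.2 q.2
      have h3 : ed (D.QS n s) p q = ed (D.Q μ (-(1 / 2 - g s * μ))) (dn s p) (dn s q) := by
        unfold ed Data.QS dn
        simp only
        congr 1
        rw [← hμ]
        linear_combination (-(1 / 2 : ℝ)) * hμ1
      have h4 : μ * ((n + 1) * (n + 2)) / 2 * (q.1 - p.1) + FQ H (D.QS n s) q p =
          (q.1 - p.1) * (1 / 2 - we s - μ * wq s + (p.2 + q.2) / (2 * h0)) -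
            ed (D.QS n s) p q := by
        have e1 : ed (D.QS n s) q p = -ed (D.QS n s) p q := by
          unfold ed
          rw [show p.1 - q.1 = -(q.1 - p.1) by ring, h2]
        unfold FQ
        rw [e1]
        have e2 : μ * ((n + 1) * (n + 2)) / 2 =
            1 / 2 - we s - μ * wq s + H / (2 * h0) := by
          have e3 : H / (2 * h0) = n / 2 + s / (2 * h0) := by
            rw [hHd]
            field_simp
          rw [e3]
          unfold we wq
          linear_combination ((n + 3 - 2 * g s) / 2 : ℝ) * hμ1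
        rw [e2]
        field_simp
        ring
      rw [h4, h3]
      exact h1
  refine hs.countBound hs0 hs1 hW (K := H / h0 + (K + μ * K + μ * (n / 2) * K)) ?_ (by positivity)
  intro a b hab ha0 haH hb0 hbH
  unfold FQ
  refine (abs_add_le _ _).trans ?_
  have h1 : |-((b.1 - a.1) * (a.2 + b.2 - H)) / (2 * h0)| ≤ H / h0 := by
    have e1 : |a.2 + b.2 - H| ≤ H := by
      rw [abs_le]
      constructor <;> linarith
    rw [abs_div, abs_neg, abs_mul, abs_of_pos (by linarith : 0 < 2 * h0),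
      div_le_div_iff₀ (by linarith) hh, abs_sub_comm]
    have e2 : |a.1 - b.1| * |a.2 + b.2 - H| ≤ 2 * H :=
      mul_le_mul hab e1 (abs_nonneg _) (by norm_num)
    calc |a.1 - b.1| * |a.2 + b.2 - H| * h0 ≤ 2 * H * h0 := mul_le_mul_of_nonneg_right e2 hh.le
      _ = H * (2 * h0) := by ring
  have h2 : |ed (D.QS n s) a b| ≤ K + μ * K + μ * (n / 2) * K := by
    unfold ed Data.QS Data.Q
    obtain ⟨b0, b1, b2⟩ := hK (b.1 - a.1) (a.2 - s / 2) (b.2 - s / 2)
      (by rw [abs_sub_comm]; exact hab)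
      (by rw [abs_le]; constructor <;> linarith) (by rw [abs_le]; constructor <;> linarith)
    rw [← hμ]
    have c1 : |μ * D.R1 (b.1 - a.1) (a.2 - s / 2) (b.2 - s / 2)| ≤ μ * K := by
      rw [abs_mul, abs_of_pos hμ0]
      exact mul_le_mul_of_nonneg_left b1 hμ0.le
    have c2 : |-(μ * (n / 2)) * D.R2 (b.1 - a.1) (a.2 - s / 2) (b.2 - s / 2)| ≤
        μ * (n / 2) * K := by
      rw [abs_mul, abs_neg, abs_of_nonneg (by positivity)]
      exact mul_le_mul_of_nonneg_left b2 (by positivity)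
    refine (abs_sub _ _).trans (add_le_add ((abs_add_le _ _).trans (add_le_add b0 c1)) c2)
  linarith

/-- **The exact density**: all strips with at least `N0 + 1` full rows and rest at most `sm`; the
certificate may depend on the rest. -/
theorem le_molnar_of_verts {N0 : ℕ} {sm : ℝ} (D : ℝ → Data)
    (hF : ∀ s, 0 ≤ s → s ≤ sm → s < h0 → (D s).Ok ∧ (Verts (D s) N0 s ∨ Free (D s) N0 s) ∧
      FloorAt (D s) s 0 ∧ FloorAt (D s) s (1 / (N0 + 2 * g s)))
    {w : ℝ} (hw : 2 ≤ w) (hN : N0 ≤ rowNumber w) (hr : rest w ≤ sm) {C : Set E2}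
    (hC : IsStripPacking w C) {O : E2} {d : ℝ} (hd : HasDensity w C O d) : d ≤ molnar w := by
  obtain ⟨r0, r1, -⟩ := rest_spec hw
  apply le_molnar_of_count hw _ hC hd
  have hg : 0 < g (rest w) := by linarith [g_gt_half r0 r1]
  obtain ⟨f0, f1, f2, f3⟩ := hF _ r0 hr r1
  apply countBound_of_tri f0 r0 r1 f2 f3 hN
  rcases f1 with f1 | f1
  · exact f1.triStrip f0 hN hg
  · exact f1.triStrip f0 hN hg

/-- The vertices for all `s ≤ sm` at once, when the certificate does not depend on `s`. -/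
theorem verts_of_three {D : Data} {N0 : ℕ} {sm cm : ℝ} (hcm : 0 < cm)
    (h0' : ∀ p q r o R, Cell p q r o R → p.2 ≤ q.2 → p.2 ≤ r.2 → -(sm / 2) ≤ p.2 → p.2 ≤ h0 →
      D.Tr 0 (-(1 / 2)) p q r)
    (h1 : ∀ p q r o R, Cell p q r o R → p.2 ≤ q.2 → p.2 ≤ r.2 → -(sm / 2) ≤ p.2 → p.2 ≤ h0 →
      D.Tr (1 / (N0 + 2 * cm)) (-(1 / (N0 + 2 * cm) * (N0 / 2))) p q r)
    (h2 : ∀ p q r o R, Cell p q r o R → p.2 ≤ q.2 → p.2 ≤ r.2 → -(sm / 2) ≤ p.2 → p.2 ≤ h0 →
      D.Tr (1 / (N0 + 2)) (-(1 / (N0 + 2) * (N0 / 2))) p q r)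
    {s : ℝ} (hs0 : 0 ≤ s) (hs1 : s ≤ sm) (hc1 : cm ≤ g s) : Verts D N0 s := by
  have hN0 : (0 : ℝ) ≤ N0 := Nat.cast_nonneg N0
  refine ⟨fun p q r o R hc a b c d => h0' p q r o R hc a b (by linarith) (by linarith), ?_⟩
  intro p q r o R hc a b c d
  have k1 := h1 p q r o R hc a b (by linarith) (by linarith)
  have k2 := h2 p q r o R hc a b (by linarith) (by linarith)
  have hg1 : g s ≤ 1 := g_le_one s
  have hg0 : 0 < g s := by linarith
  unfold Data.Tr at *
  rw [Data.Q_fl] at *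
  set A := cr p q r / (2 * h0) - 1 / 2 + fl D.R0 p q r with hA
  set B := fl D.R1 p q r + N0 / 2 * fl D.R2 p q r with hB
  have a1 : 0 ≤ A + 1 / (N0 + 2 * cm) * B := by
    rw [hA, hB]
    linarith
  have a2 : 0 ≤ A + 1 / (N0 + 2) * B := by
    rw [hA, hB]
    linarith
  have a3 : 0 ≤ A + 1 / (N0 + 2 * g s) * B := by
    rcases le_total 0 B with h | h
    · have : 1 / ((N0 : ℝ) + 2) * B ≤ 1 / (N0 + 2 * g s) * B := by
        apply mul_le_mul_of_nonneg_right _ h
        apply one_div_le_one_div_of_le (by positivity)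
        linarith
      linarith
    · have : 1 / ((N0 : ℝ) + 2 * cm) * B ≤ 1 / (N0 + 2 * g s) * B := by
        apply mul_le_mul_of_nonpos_right _ h
        apply one_div_le_one_div_of_le (by positivity)
        linarith
      linarith
  rw [hA, hB] at a3
  linarith

end Pool.Agent.Strip051.LC
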