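import Pool.Agent.Strip051.LC.Line.Wire
import Pool.Agent.Strip051.LC.Exact.Classes

/-! # The modulus inequality with a free multiplier

The flux of a triangle for the two-slope density with fixed cell width `s` and amplitude factor `κ`,
for all phases. -/

namespace Pool.Agent.Strip051.LC.Line

open Pool.Agent.StripNear Pool.Agent.StripSquare Pool.Agent.Strip051.Sweep

/-- The inequality without phase; `W1 W2 W3` are the values of the potential at the three nodes,
`l1 l2 l3` the lengths of the arcs. -/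
def Mo (κ s ex l1 l2 l3 W1 W2 W3 : ℝ) : Prop :=
  ∃ γ : ℝ, κ * (l1 * phi (W1 - γ) (W2 - γ) + l2 * phi (W2 - γ) (W3 - γ) +
    l3 * phi (W3 - γ) (W1 - γ) + γ * s) ≤ ex

/-- The potential at the three nodes when the three short arcs cover the circle. -/
def MoW (κ s ex l1 l2 l3 A1 A2 A3 : ℝ) : Prop :=
  Mo κ s ex l1 l2 l3 (pot h0 A1 A2 A3 l1 l2 l3) (pot h0 A2 A3 A1 l2 l3 l1)
    (pot h0 A3 A1 A2 l3 l1 l2)

/-- The potential at the three nodes when the longest short arc is the union of the others. -/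
def MoN (κ s ex l1 l2 A1 A2 A3 : ℝ) : Prop :=
  Mo κ s ex l1 l2 (h0 - l1 - l2)
    ((A1 * (h0 - l1) + A2 * (h0 - 2 * l1 - l2) - A3 * (h0 - l1 - l2)) / (2 * h0))
    ((-A1 * (h0 - l1) + A2 * (h0 - l2) + A3 * (l1 - l2) / (l1 + l2) * (h0 - l1 - l2)) / (2 * h0))
    ((-A1 * (h0 - l1 - 2 * l2) - A2 * (h0 - l2) + A3 * (h0 - l1 - l2)) / (2 * h0))

/-- The three short arcs cover the circle. -/
theorem wrapG {κ s ex : ℝ} (hκ : 0 ≤ κ) (hs0 : 0 ≤ s) (hs1 : s < h0) {a l1 l2 l3 A1 A2 A3 : ℝ}
    (h1 : 0 ≤ l1) (h2 : 0 ≤ l2) (h3 : 0 ≤ l3) (hl : l1 + l2 + l3 = h0)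
    (hS : MoW κ s ex l1 l2 l3 A1 A2 A3) :
    A1 * mn (D s κ) a (a + l1) + A2 * mn (D s κ) (a + l1) (a + l1 + l2) +
      A3 * mn (D s κ) (a + l1 + l2) (a + h0) ≤ ex := by
  have hp := h0_pos
  obtain ⟨γ, hγ⟩ := hS
  have key := flux_two (κ := κ) hp hs0 hs1 hκ
    (a := a) (b := a + l1) (c := a + l1 + l2) (by linarith) (by linarith) (by linarith)
    A1 A2 A3 γ
  have e1 : a + l1 - a = l1 := by ring
  have e2 : a + l1 + l2 - (a + l1) = l2 := by ring
  have e3 : a + h0 - (a + l1 + l2) = l3 := by linarith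
  rw [e1, e2, e3] at key
  exact le_trans key hγ

/-- The longest short arc is the union of the two other ones. -/
theorem nonwrapG {κ s ex : ℝ} (hκ : 0 ≤ κ) (hs0 : 0 ≤ s) (hs1 : s < h0) {a l1 l2 A1 A2 A3 : ℝ}
    (h1 : 0 ≤ l1) (h2 : 0 ≤ l2) (hl : l1 + l2 ≤ h0)
    (hS : MoN κ s ex l1 l2 A1 A2 A3) :
    A1 * mn (D s κ) a (a + l1) + A2 * mn (D s κ) (a + l1) (a + l1 + l2) -
      A3 * mn (D s κ) a (a + l1 + l2) ≤ ex := by
  have hp := h0_pos
  set f := D s κ with hf
  rcases eq_or_lt_of_le (add_nonneg h1 h2) with h3 | h3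
  · -- all three heights are congruent
    have z1 : l1 = 0 := by linarith
    have z2 : l2 = 0 := by linarith
    subst z1
    subst z2
    simp only [add_zero, mn_self]
    have hw := wrapG (a := a) (l1 := 0) (l2 := 0) (l3 := h0) (A1 := A1 + A2 - A3) (A2 := 0)
      (A3 := 0) (ex := ex) hκ hs0 hs1 le_rfl le_rfl hp.le (by ring) (by
        obtain ⟨γ, hγ⟩ := hS
        refine ⟨γ, ?_⟩
        unfold pot
        have e1 : ((A1 + A2 - A3) * (0 + h0) - 0 * (0 + 0) + 0 * (h0 - 0)) / (2 * h0) =
            (A1 * (h0 - 0) + A2 * (h0 - 2 * 0 - 0) - A3 * (h0 - 0 - 0)) / (2 * h0) := by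
          ring
        have e2 : (0 * (0 + 0) - 0 * (h0 + 0) + (A1 + A2 - A3) * (0 - h0)) / (2 * h0) =
            (-A1 * (h0 - 0 - 2 * 0) - A2 * (h0 - 0) + A3 * (h0 - 0 - 0)) / (2 * h0) := by
          ring
        rw [e1, e2]
        simp only [zero_mul, zero_add] at hγ ⊢
        simpa using hγ)
    rw [← hf] at hw
    simp only [add_zero, mn_self, zero_mul] at hw
    linarith
  · -- the complement of the longest arc
    have e0 : (l1 + l2) * mn f a (a + l1 + l2) = -((h0 - l1 - l2) * mn f (a + l1 + l2) (a + h0)) := by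
      have i1 := mul_mn f a (a + l1 + l2)
      have i2 := mul_mn f (a + l1 + l2) (a + h0)
      have hI : ∀ x y : ℝ, IntervalIntegrable f MeasureTheory.volume x y :=
        fun x y => D_integrable κ hs0 x y
      have i3 := intervalIntegral.integral_add_adjacent_intervals
        (hI a (a + l1 + l2)) (hI (a + l1 + l2) (a + h0))
      have i4 : ∫ x in a..(a + h0), f x = 0 := D_integral κ hs0 hs1 a
      rw [show a + l1 + l2 - a = l1 + l2 by ring] at i1
      rw [show a + h0 - (a + l1 + l2) = h0 - l1 - l2 by ring] at i2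
      linarith
    have hw := wrapG (a := a) (l1 := l1) (l2 := l2) (l3 := h0 - l1 - l2) (A1 := A1) (A2 := A2)
      (A3 := A3 / (l1 + l2) * (h0 - l1 - l2)) (ex := ex) hκ hs0 hs1 h1 h2 (by linarith)
      (by ring) (by
        have e1 : pot h0 A1 A2 (A3 / (l1 + l2) * (h0 - l1 - l2)) l1 l2 (h0 - l1 - l2) =
            (A1 * (h0 - l1) + A2 * (h0 - 2 * l1 - l2) - A3 * (h0 - l1 - l2)) / (2 * h0) := by
          unfold pot
          field_simp
          ring
        have e2 : pot h0 A2 (A3 / (l1 + l2) * (h0 - l1 - l2)) A1 l2 (h0 - l1 - l2) l1 =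
            (-A1 * (h0 - l1) + A2 * (h0 - l2) +
              A3 * (l1 - l2) / (l1 + l2) * (h0 - l1 - l2)) / (2 * h0) := by
          unfold pot
          field_simp
          ring
        have e3 : pot h0 (A3 / (l1 + l2) * (h0 - l1 - l2)) A1 A2 (h0 - l1 - l2) l1 l2 =
            (-A1 * (h0 - l1 - 2 * l2) - A2 * (h0 - l2) + A3 * (h0 - l1 - l2)) / (2 * h0) := by
          unfold pot
          field_simp
          ring
        unfold MoW
        rw [e1, e2, e3]
        exact hS)
    have e5 : A3 * mn f a (a + l1 + l2) = -(A3 / (l1 + l2) * (h0 - l1 - l2) *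
        mn f (a + l1 + l2) (a + h0)) := by
      have : A3 * mn f a (a + l1 + l2) = A3 / (l1 + l2) * ((l1 + l2) * mn f a (a + l1 + l2)) := by
        field_simp
      rw [this, e0]
      ring
    rw [e5]
    linarith

/-- The modulus inequality for a triangle in normal form; `ex` is the excess plus the part of the
flux which does not depend on the phase. -/
inductive NG (κ s ex : ℝ) (R : ℝ → ℝ → ℝ) (X12 X13 t t' : ℝ) : Prop
  | pp (hj : jn (t + t') = jn t + jn t') (h1 : 0 ≤ tau t) (h2 : 0 ≤ tau t')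
      (h : MoN κ s ex (tau t) (tau t') (-R X12 t) (-R (X13 - X12) t') (-R X13 (t + t')))
  | nn (hj : jn (t + t') = jn t + jn t') (h1 : tau t ≤ 0) (h2 : tau t' ≤ 0)
      (h : MoN κ s ex (-tau t') (-tau t) (-R (X13 - X12) t') (-R X12 t) (-R X13 (t + t')))
  | pnp (hj : jn (t + t') = jn t + jn t') (h1 : 0 ≤ tau t) (h2 : tau t' ≤ 0)
      (h3 : 0 ≤ tau (t + t'))
      (h : MoN κ s ex (tau (t + t')) (-tau t') (R X13 (t + t')) (-R (X13 - X12) t') (R X12 t))
  | pnn (hj : jn (t + t') = jn t + jn t') (h1 : 0 ≤ tau t) (h2 : tau t' ≤ 0)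
      (h3 : tau (t + t') ≤ 0)
      (h : MoN κ s ex (-tau (t + t')) (tau t) (R X13 (t + t')) (-R X12 t) (R (X13 - X12) t'))
  | npp (hj : jn (t + t') = jn t + jn t') (h1 : tau t ≤ 0) (h2 : 0 ≤ tau t')
      (h3 : 0 ≤ tau (t + t'))
      (h : MoN κ s ex (-tau t) (tau (t + t')) (-R X12 t) (R X13 (t + t')) (R (X13 - X12) t'))
  | npn (hj : jn (t + t') = jn t + jn t') (h1 : tau t ≤ 0) (h2 : 0 ≤ tau t')
      (h3 : tau (t + t') ≤ 0)
      (h : MoN κ s ex (tau t') (-tau (t + t')) (-R (X13 - X12) t') (R X13 (t + t')) (R X12 t))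
  | up (hj : jn (t + t') = jn t + jn t' + 1)
      (h : MoW κ s ex (tau t) (tau t') (-tau (t + t')) (-R X12 t) (-R (X13 - X12) t')
        (R X13 (t + t')))
  | dn (hj : jn (t + t') + 1 = jn t + jn t')
      (h : MoW κ s ex (tau (t + t')) (-tau t') (-tau t) (R X13 (t + t')) (-R (X13 - X12) t')
        (-R X12 t))

/-- The inequality for a triangle in normal form. -/
theorem ng_slack {κ s ex : ℝ} (hκ : 0 ≤ κ) (hs0 : 0 ≤ s) (hs1 : s < h0) {R : ℝ → ℝ → ℝ}
    {X12 X13 t t' : ℝ} (ht : 0 ≤ t) (ht' : 0 ≤ t') (hT : t + t' ≤ 2 * h0)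
    (hN : NG κ s ex R X12 X13 t t') (y : ℝ) :
    0 ≤ ex + (Qd R (D s κ) X12 y (y + t) + Qd R (D s κ) (X13 - X12) (y + t) (y + t + t') -
        Qd R (D s κ) X13 y (y + (t + t'))) := by
  have hp := h0_pos
  set f := D s κ with hf
  have hshift : ∀ (k : ℕ) (a b : ℝ), mn f (a + k * h0) (b + k * h0) = mn f a b := fun k a b =>
    mn_shift (fun x => D_add_nat s κ x k) a b
  rw [Qd_up R f X12 ht, Qd_up R f (X13 - X12) ht', Qd_up R f X13 (by linarith)]
  have e2 : mn f (y + t) (y + t + tau t') = mn f (y + tau t) (y + tau t + tau t') := by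
    rw [← hshift (jn t) (y + tau t)]
    unfold tau
    congr 1 <;> ring
  rw [e2]
  obtain ⟨u1, u2⟩ := tau_bd ht (by linarith)
  obtain ⟨v1, v2⟩ := tau_bd ht' (by linarith)
  obtain ⟨w1, w2⟩ := tau_bd (T := t + t') (by linarith) hT
  have hsum : tau t + tau t' - tau (t + t') =
      ((jn (t + t') : ℝ) - jn t - jn t') * h0 := by
    unfold tau
    ring
  have hw5 : jn (t + t') = jn t + jn t' → tau (t + t') = tau t + tau t' := by
    intro hm
    have h4 : (jn (t + t') : ℝ) = jn t + jn t' := by exact_mod_cast hm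
    have : (jn (t + t') : ℝ) - jn t - jn t' = 0 := by linarith
    rw [this, zero_mul] at hsum
    linarith
  obtain ⟨hm, hu0, hv0, n⟩ | ⟨hm, hu0, hv0, n⟩ | ⟨hm, hu0, hv0, hw0, n⟩ | ⟨hm, hu0, hv0, hw0, n⟩ |
    ⟨hm, hu0, hv0, hw0, n⟩ | ⟨hm, hu0, hv0, hw0, n⟩ | ⟨hm1, n⟩ | ⟨hm1, n⟩ := hN
  all_goals
    set R1 := R X12 t with hR1
    set R2 := R (X13 - X12) t' with hR2
    set R3 := R X13 (t + t') with hR3
    set u := tau t with hu
    set v := tau t' with hv
    set w := tau (t + t') with hw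
  · have h5 := hw5 hm
    have key := nonwrapG (a := y) hκ hs0 hs1 (l1 := u) (l2 := v) hu0 hv0 (by linarith) n
    rw [← hf] at key
    rw [h5, ← add_assoc]
    linarith
  · have h5 := hw5 hm
    have key := nonwrapG (a := y + w) hκ hs0 hs1 (l1 := -v) (l2 := -u) (by linarith)
      (by linarith) (by linarith) n
    rw [← hf] at key
    have i1 : mn f (y + w) (y + w + -v) = mn f (y + u) (y + u + v) := by
      rw [mn_symm, h5]
      congr 1 <;> ring
    have i2 : mn f (y + w + -v) (y + w + -v + -u) = mn f y (y + u) := by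
      rw [mn_symm, h5]
      congr 1 <;> ring
    have i3 : mn f (y + w) (y + w + -v + -u) = mn f y (y + w) := by
      rw [mn_symm, h5]
      congr 1
      ring
    rw [i1, i2, i3] at key
    linarith
  · have h5 := hw5 hm
    have key := nonwrapG (a := y) hκ hs0 hs1 (l1 := w) (l2 := -v) hw0 (by linarith)
      (by linarith) n
    rw [← hf] at key
    have i2 : mn f (y + u) (y + u + v) = mn f (y + w) (y + w + -v) := by
      rw [mn_symm, h5]
      congr 1 <;> ring
    have i3 : mn f y (y + u) = mn f y (y + w + -v) := by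
      rw [h5]
      congr 1
      ring
    rw [i2, i3]
    linarith
  · have h5 := hw5 hm
    have key := nonwrapG (a := y + w) hκ hs0 hs1 (l1 := -w) (l2 := u) (by linarith) hu0
      (by linarith) n
    rw [← hf] at key
    have i1 : mn f (y + w) (y + w + -w) = mn f y (y + w) := by
      rw [mn_symm]
      congr 1
      ring
    have i2 : mn f (y + w + -w) (y + w + -w + u) = mn f y (y + u) := by
      congr 1 <;> ring
    have i3 : mn f (y + w) (y + w + -w + u) = mn f (y + u) (y + u + v) := by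
      rw [mn_symm, h5]
      congr 1 <;> ring
    rw [i1, i2, i3] at key
    linarith
  · have h5 := hw5 hm
    have key := nonwrapG (a := y + u) hκ hs0 hs1 (l1 := -u) (l2 := w) (by linarith) hw0
      (by linarith) n
    rw [← hf] at key
    have i1 : mn f (y + u) (y + u + -u) = mn f y (y + u) := by
      rw [mn_symm]
      congr 1
      ring
    have i2 : mn f (y + u + -u) (y + u + -u + w) = mn f y (y + w) := by
      congr 1 <;> ring
    have i3 : mn f (y + u) (y + u + -u + w) = mn f (y + u) (y + u + v) := by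
      rw [h5]
      congr 1
      ring
    rw [i1, i2, i3] at key
    linarith
  · have h5 := hw5 hm
    have key := nonwrapG (a := y + u) hκ hs0 hs1 (l1 := v) (l2 := -w) hv0 (by linarith)
      (by linarith) n
    rw [← hf] at key
    have i2 : mn f (y + u + v) (y + u + v + -w) = mn f y (y + w) := by
      rw [mn_symm, h5]
      congr 1 <;> ring
    have i3 : mn f (y + u) (y + u + v + -w) = mn f y (y + u) := by
      rw [mn_symm, h5]
      congr 1
      ring
    rw [i2, i3] at key
    linarith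
  · -- the wrap upwards
    have h4 : (jn (t + t') : ℝ) = jn t + jn t' + 1 := by exact_mod_cast hm1
    have h5 : u + v - w = h0 := by
      rw [hsum]
      have : (jn (t + t') : ℝ) - jn t - jn t' = 1 := by linarith
      rw [this]
      ring
    have key := wrapG (a := y) hκ hs0 hs1 (l1 := u) (l2 := v) (l3 := -w) (by linarith)
      (by linarith) (by linarith) (by linarith) n
    rw [← hf] at key
    have i3 : mn f y (y + w) = mn f (y + u + v) (y + h0) := by
      rw [← hshift 1 y, mn_symm]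
      push_cast
      congr 1 <;> linarith
    rw [i3]
    linarith
  · -- the wrap downwards
    have h4 : (jn (t + t') : ℝ) + 1 = jn t + jn t' := by exact_mod_cast hm1
    have h5 : u + v - w = -h0 := by
      rw [hsum]
      have : (jn (t + t') : ℝ) - jn t - jn t' = -1 := by linarith
      rw [this]
      ring
    have key := wrapG (a := y) hκ hs0 hs1 (l1 := w) (l2 := -v) (l3 := -u) (by linarith)
      (by linarith) (by linarith) (by linarith) n
    rw [← hf] at key
    have i2 : mn f (y + u) (y + u + v) = mn f (y + w) (y + w + -v) := by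
      rw [← hshift 1 (y + u), mn_symm]
      push_cast
      congr 1 <;> linarith
    have i3 : mn f y (y + u) = mn f (y + w + -v) (y + h0) := by
      rw [← hshift 1 y, mn_symm]
      push_cast
      congr 1 <;> linarith
    rw [i2, i3]
    linarith

end Pool.Agent.Strip051.LC.Line
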