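import Pool.Agent.Strip051.LC.Exact.MolMo

/-! # The triangles near a tight triangle

A tight triangle has a unit edge of height `s` and a unit edge of height `h0`.  In the family `A`
the edge of height about `h0` is the side middle-top, in the family `B` it is the side
bottom-top; `b` is its height minus `h0`, `ρ` is minus the value of the kernel on it, and the values
of the kernel on the two other sides are written with the pole factor `tau`. -/

namespace Pool.Agent.Strip051.LC

open Pool.Agent.StripNear Pool.Agent.StripSquare Pool.Agent.Strip051.Sweep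
open Pool.Agent.Strip051.LC.Line (Mo MoN MoW jn tau pot)

/-- The inequality with a steep arc of length `l2`; `p` is the difference between the top and the
middle, `r` the difference between the top and the bottom.  Only one of the two inequalities is
needed, according to the position of the level. -/
structure Steep (κ s ex l1 l2 l3 p r : ℝ) : Prop where
  p0 : 0 < p
  pr : p < r
  N : s * r ≤ l1 * r + l2 * p →
    κ * s * (((h0 - l2) * p + (h0 - l1) * r) * (l1 * r + l2 * p) - h0 * s * (p * r)) ≤
      2 * h0 * ex * (l1 * r + l2 * p)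
  M : l1 * r + l2 * p ≤ s * r →
    κ * (h0 - s) * (((h0 - l2) * (r - p) + (h0 - l3) * r) * (l3 * r + l2 * (r - p)) -
      h0 * (h0 - s) * ((r - p) * r)) ≤ 2 * h0 * ex * (l3 * r + l2 * (r - p))

variable {κ s ex l1 l2 l3 p r W1 W2 W3 t b k1 k3 ρ : ℝ}

theorem Steep.mo (h : Steep κ s ex l1 l2 l3 p r) (hs : 0 < s) (hs1 : s < h0)
    (hl : l1 + l2 + l3 = h0)
    (hz : l1 * (W1 + W2) + l2 * (W2 + W3) + l3 * (W3 + W1) = 0) (e1 : W2 - W1 = p)
    (e2 : W2 - W3 = r) : Mo κ s ex l1 l2 l3 W1 W2 W3 := by
  obtain ⟨h1, h2, h3, h4⟩ := h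
  have e3 : W1 - W3 = r - p := by linarith
  refine Mo.steep hs hs1 hl hz (by linarith) (by linarith) ?_ ?_
  · rw [e1, e2]
    exact h3
  · rw [e1, e2, e3]
    exact h4

/-- The three arcs in the order middle, top, bottom. -/
theorem Steep.mo' (h : Steep κ s ex l1 l2 l3 p r) (hs : 0 < s) (hs1 : s < h0)
    (hl : l1 + l2 + l3 = h0)
    (hz : l1 * (W1 + W2) + l2 * (W2 + W3) + l3 * (W3 + W1) = 0) (e1 : W2 - W1 = p)
    (e2 : W2 - W3 = r) : Mo κ s ex l2 l3 l1 W2 W3 W1 := (h.mo hs hs1 hl hz e1 e2).rot

/-- The three arcs in the order bottom, top, middle. -/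
theorem Steep.moB (h : Steep κ s ex l1 l2 l3 p r) (hs : 0 < s) (hs1 : s < h0)
    (hl : l1 + l2 + l3 = h0)
    (hz : l2 * (W1 + W2) + l1 * (W2 + W3) + l3 * (W3 + W1) = 0) (e1 : W2 - W3 = p)
    (e2 : W2 - W1 = r) : Mo κ s ex l2 l1 l3 W1 W2 W3 :=
  (h.mo (W1 := W3) (W2 := W2) (W3 := W1) hs hs1 hl (by linarith) e1 e2).refl

/-- The three arcs in the order top, middle, bottom. -/
theorem Steep.moC (h : Steep κ s ex l1 l2 l3 p r) (hs : 0 < s) (hs1 : s < h0)
    (hl : l1 + l2 + l3 = h0)
    (hz : l1 * (W1 + W2) + l3 * (W2 + W3) + l2 * (W3 + W1) = 0) (e1 : W1 - W2 = p)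
    (e2 : W1 - W3 = r) : Mo κ s ex l1 l3 l2 W1 W2 W3 :=
  (h.mo (W1 := W2) (W2 := W1) (W3 := W3) hs hs1 hl (by linarith) e1 e2).refl.rot

/-- The three arcs in the order middle, bottom, top. -/
theorem Steep.moD (h : Steep κ s ex l1 l2 l3 p r) (hs : 0 < s) (hs1 : s < h0)
    (hl : l1 + l2 + l3 = h0)
    (hz : l3 * (W1 + W2) + l2 * (W2 + W3) + l1 * (W3 + W1) = 0) (e1 : W3 - W1 = p)
    (e2 : W3 - W2 = r) : Mo κ s ex l3 l2 l1 W1 W2 W3 :=
  (h.mo (W1 := W1) (W2 := W3) (W3 := W2) hs hs1 hl (by linarith) e1 e2).refl.rot.rot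

theorem jn_lo {T : ℝ} (h : T < h0 / 2) : jn T = 0 := by
  unfold jn
  rw [if_pos h]

theorem jn_mid {T : ℝ} (h : h0 / 2 ≤ T) (h' : T < 3 * h0 / 2) : jn T = 1 := by
  unfold jn
  rw [if_neg (by linarith), if_pos h']

theorem jn_hi {T : ℝ} (h : 3 * h0 / 2 ≤ T) : jn T = 2 := by
  have hp := h0_pos
  unfold jn
  rw [if_neg (by linarith), if_neg (by linarith)]

theorem tau_lo {T : ℝ} (h : T < h0 / 2) : tau T = T := by
  unfold tau
  rw [jn_lo h]
  simp

theorem tau_mid {T : ℝ} (h : h0 / 2 ≤ T) (h' : T < 3 * h0 / 2) : tau T = T - h0 := by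
  unfold tau
  rw [jn_mid h h']
  simp

theorem tau_hi {T : ℝ} (h : 3 * h0 / 2 ≤ T) : tau T = T - 2 * h0 := by
  unfold tau
  rw [jn_hi h]
  norm_num

/-- **Family `A`, the edge of height about `h0` is at least `h0` high.** -/
theorem ngvA_nonneg (hs : 0 < s) (hs1 : s < h0) (ht : 0 < t) (hb : 0 ≤ b) (hb1 : b < h0 / 2)
    (htb : t + b < h0)
    (hS : Steep κ s ex t b (h0 - t - b)
      (t * (ρ + (h0 - t) * k1 - (h0 - t - b) * k3) / h0)
      (ρ + b * (t * k1 - ρ + (h0 - t - b) * k3) / h0)) :
    NGV κ s ex t (h0 + b) (k1 * tau t, -ρ, k3 * tau (t + (h0 + b))) := by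
  have hp := h0_pos
  have j2 : jn (h0 + b) = 1 := jn_mid (by linarith) (by linarith)
  have t2 : tau (h0 + b) = b := by
    rw [tau_mid (by linarith) (by linarith)]
    ring
  rcases lt_or_ge t (h0 / 2) with h1 | h1
  · have j1 : jn t = 0 := jn_lo h1
    have t1 : tau t = t := tau_lo h1
    rcases lt_or_ge (t + b) (h0 / 2) with h3 | h3
    · have j3 : jn (t + (h0 + b)) = 1 := jn_mid (by linarith) (by linarith)
      have t3 : tau (t + (h0 + b)) = t + b := by
        rw [tau_mid (by linarith) (by linarith)]
        ring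
      rw [t1, t3]
      refine .pp (by rw [j1, j2, j3]) (by rw [t1]; exact ht.le) (by rw [t2]; exact hb) ?_
      rw [t1, t2]
      unfold MoN
      simp only
      have htb0 : t + b ≠ 0 := by linarith
      refine hS.mo hs hs1 (by ring) ?_ ?_ ?_
      · field_simp
        ring
      · field_simp
        ring
      · field_simp
        ring
    · have j3 : jn (t + (h0 + b)) = 2 := jn_hi (by linarith)
      have t3 : tau (t + (h0 + b)) = t + b - h0 := by
        rw [tau_hi (by linarith)]
        ring
      rw [t1, t3]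
      refine .up (by rw [j1, j2, j3]) ?_
      rw [t1, t2, t3]
      unfold MoW
      simp only
      have := hS.mo (W1 := pot h0 (-(k1 * t)) ρ (k3 * (t + b - h0)) t b (h0 - t - b))
        (W2 := pot h0 ρ (k3 * (t + b - h0)) (-(k1 * t)) b (h0 - t - b) t)
        (W3 := pot h0 (k3 * (t + b - h0)) (-(k1 * t)) ρ (h0 - t - b) t b) hs hs1 (by ring)
        (by unfold pot; field_simp; ring) (by unfold pot; field_simp; ring)
        (by unfold pot; field_simp; ring)
      rw [neg_neg, show -(t + b - h0) = h0 - t - b by ring]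
      exact this
  · have j1 : jn t = 1 := jn_mid h1 (by linarith)
    have t1 : tau t = t - h0 := tau_mid h1 (by linarith)
    have j3 : jn (t + (h0 + b)) = 2 := jn_hi (by linarith)
    have t3 : tau (t + (h0 + b)) = t + b - h0 := by
      rw [tau_hi (by linarith)]
      ring
    rw [t1, t3]
    refine .npn (by rw [j1, j2, j3]) (by rw [t1]; linarith) (by rw [t2]; exact hb)
      (by rw [t3]; linarith) ?_
    rw [t2, t3]
    unfold MoN
    simp only
    have e0 : b + -(t + b - h0) ≠ 0 := by
      have : b + -(t + b - h0) = h0 - t := by ring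
      rw [this]
      linarith
    have := hS.mo (W1 := (ρ * -1 * (h0 - b - 2 * -(t + b - h0)) -
        (k3 * (t + b - h0)) * (h0 - -(t + b - h0)) + (k1 * (t - h0)) *
          (h0 - b - -(t + b - h0))) / (2 * h0))
      (W2 := (ρ * (h0 - b) + (k3 * (t + b - h0)) * (h0 - 2 * b - -(t + b - h0)) -
        (k1 * (t - h0)) * (h0 - b - -(t + b - h0))) / (2 * h0))
      (W3 := (-ρ * (h0 - b) + (k3 * (t + b - h0)) * (h0 - -(t + b - h0)) +
        (k1 * (t - h0)) * (b - -(t + b - h0)) / (b + -(t + b - h0)) *
          (h0 - b - -(t + b - h0))) / (2 * h0)) hs hs1 (by ring)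
      (by field_simp; ring) (by field_simp; ring) (by field_simp; ring)
    have k := this.rot
    convert k using 1 <;> ring

/-- **Family `A`, the edge of height about `h0` is less than `h0` high.** -/
theorem ngvA_neg (hs : 0 < s) (hs1 : s < h0) (ht1 : t < h0) (hb : b < 0)
    (hb1 : -(h0 / 2) ≤ b) (htb : 0 < t + b)
    (hS : Steep κ s ex (t + b) (-b) (h0 - t)
      ((t + b) * (ρ + (h0 - t) * k1 - (h0 - t - b) * k3) / h0)
      (ρ + b * ((h0 - t) * k1 + (t + b) * k3 + ρ) / h0)) :
    NGV κ s ex t (h0 + b) (k1 * tau t, -ρ, k3 * tau (t + (h0 + b))) := by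
  have hp := h0_pos
  have j2 : jn (h0 + b) = 1 := jn_mid (by linarith) (by linarith)
  have t2 : tau (h0 + b) = b := by
    rw [tau_mid (by linarith) (by linarith)]
    ring
  rcases lt_or_ge t (h0 / 2) with h1 | h1
  · have j1 : jn t = 0 := jn_lo h1
    have t1 : tau t = t := tau_lo h1
    have j3 : jn (t + (h0 + b)) = 1 := jn_mid (by linarith) (by linarith)
    have t3 : tau (t + (h0 + b)) = t + b := by
      rw [tau_mid (by linarith) (by linarith)]
      ring
    have hS' : Steep κ s ex (t + b) (-b) (h0 - (t + b) - -b)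
      ((t + b) * (ρ + (h0 - t) * k1 - (h0 - t - b) * k3) / h0)
      (ρ + b * ((h0 - t) * k1 + (t + b) * k3 + ρ) / h0) := by
      convert hS using 1
      ring
    rw [t1, t3]
    refine .pnp (by rw [j1, j2, j3]) (by rw [t1]; linarith) (by rw [t2]; exact hb.le)
      (by rw [t3]; exact htb.le) ?_
    rw [t3, t2]
    unfold MoN
    simp only
    have e0 : t + b + -b ≠ 0 := by
      have : t + b + -b = t := by ring
      rw [this]
      linarith
    refine hS'.mo hs hs1 (by ring) ?_ ?_ ?_
    · field_simp
      ring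
    · field_simp
      ring
    · field_simp
      ring
  · have j1 : jn t = 1 := jn_mid h1 (by linarith)
    have t1 : tau t = t - h0 := tau_mid h1 (by linarith)
    rcases lt_or_ge (t + b) (h0 / 2) with h3 | h3
    · have j3 : jn (t + (h0 + b)) = 1 := jn_mid (by linarith) (by linarith)
      have t3 : tau (t + (h0 + b)) = t + b := by
        rw [tau_mid (by linarith) (by linarith)]
        ring
      rw [t1, t3]
      refine .dn (by rw [j1, j2, j3]) ?_
      rw [t1, t2, t3]
      unfold MoW
      simp only
      rw [show -(t - h0) = h0 - t by ring]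
      refine hS.mo hs hs1 (by ring) ?_ ?_ ?_
      · unfold pot
        field_simp
        ring
      · unfold pot
        field_simp
        ring
      · unfold pot
        field_simp
        ring
    · have j3 : jn (t + (h0 + b)) = 2 := jn_hi (by linarith)
      have t3 : tau (t + (h0 + b)) = t + b - h0 := by
        rw [tau_hi (by linarith)]
        ring
      have hS' : Steep κ s ex (h0 - -b - -(t - h0)) (-b) (-(t - h0))
        ((t + b) * (ρ + (h0 - t) * k1 - (h0 - t - b) * k3) / h0)
        (ρ + b * ((h0 - t) * k1 + (t + b) * k3 + ρ) / h0) := by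
        convert hS using 1 <;> ring
      rw [t1, t3]
      refine .nn (by rw [j1, j2, j3]) (by rw [t1]; linarith) (by rw [t2]; exact hb.le) ?_
      rw [t1, t2]
      unfold MoN
      simp only
      have e0 : -b + -(t - h0) ≠ 0 := by
        have : 0 < -b + -(t - h0) := by linarith
        exact this.ne'
      refine hS'.mo' hs hs1 (by ring) ?_ ?_ ?_
      · field_simp
        ring
      · field_simp
        ring
      · field_simp
        ring

/-- **Family `B`, the edge of height about `h0` is at least `h0` high.** -/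
theorem ngvB_nonneg (hs : 0 < s) (hs1 : s < h0) (ht1 : t < h0) (hb : 0 ≤ b) (hb1 : b < h0 / 2)
    (htb : b < t)
    (hS : Steep κ s ex (t - b) b (h0 - t)
      ((t - b) * (ρ - (h0 - t) * k1 + (h0 - t + b) * k3) / h0)
      (ρ + b * ((h0 - t) * k1 + (t - b) * k3 - ρ) / h0)) :
    NGV κ s ex t (h0 + b - t) (k1 * tau t, k3 * tau (h0 + b - t), -ρ) := by
  have hp := h0_pos
  have e3 : t + (h0 + b - t) = h0 + b := by ring
  have j3 : jn (t + (h0 + b - t)) = 1 := by
    rw [e3]
    exact jn_mid (by linarith) (by linarith)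
  have t3 : tau (t + (h0 + b - t)) = b := by
    rw [e3, tau_mid (by linarith) (by linarith)]
    ring
  rcases lt_or_ge t (h0 / 2) with h1 | h1
  · have j1 : jn t = 0 := jn_lo h1
    have t1 : tau t = t := tau_lo h1
    have j2 : jn (h0 + b - t) = 1 := jn_mid (by linarith) (by linarith)
    have t2 : tau (h0 + b - t) = b - t := by
      rw [tau_mid (by linarith) (by linarith)]
      ring
    have hS' : Steep κ s ex (-(b - t)) b (h0 - b - -(b - t))
      ((t - b) * (ρ - (h0 - t) * k1 + (h0 - t + b) * k3) / h0)
      (ρ + b * ((h0 - t) * k1 + (t - b) * k3 - ρ) / h0) := by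
      convert hS using 1 <;> ring
    rw [t1, t2]
    refine .pnp (by rw [j1, j2, j3]) (by rw [t1]; linarith) (by rw [t2]; linarith)
      (by rw [t3]; exact hb) ?_
    rw [t3, t2]
    unfold MoN
    simp only
    have e0 : b + -(b - t) ≠ 0 := by
      have : b + -(b - t) = t := by ring
      rw [this]
      linarith
    refine hS'.moB hs hs1 (by ring) ?_ ?_ ?_
    · field_simp
      ring
    · field_simp
      ring
    · field_simp
      ring
  · have j1 : jn t = 1 := jn_mid h1 (by linarith)
    have t1 : tau t = t - h0 := tau_mid h1 (by linarith)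
    rcases le_or_gt (t - b) (h0 / 2) with h2 | h2
    · have j2 : jn (h0 + b - t) = 1 := jn_mid (by linarith) (by linarith)
      have t2 : tau (h0 + b - t) = b - t := by
        rw [tau_mid (by linarith) (by linarith)]
        ring
      have hS' : Steep κ s ex (-(b - t)) b (-(t - h0))
        ((t - b) * (ρ - (h0 - t) * k1 + (h0 - t + b) * k3) / h0)
        (ρ + b * ((h0 - t) * k1 + (t - b) * k3 - ρ) / h0) := by
        convert hS using 1 <;> ring
      rw [t1, t2]
      refine .dn (by rw [j1, j2, j3]) ?_
      rw [t1, t2, t3]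
      unfold MoW
      simp only
      refine hS'.moB hs hs1 (by ring) ?_ ?_ ?_
      · unfold pot
        field_simp
        ring
      · unfold pot
        field_simp
        ring
      · unfold pot
        field_simp
        ring
    · have j2 : jn (h0 + b - t) = 0 := jn_lo (by linarith)
      have t2 : tau (h0 + b - t) = h0 + b - t := tau_lo (by linarith)
      have hS' : Steep κ s ex (h0 - -(t - h0) - b) b (-(t - h0))
        ((t - b) * (ρ - (h0 - t) * k1 + (h0 - t + b) * k3) / h0)
        (ρ + b * ((h0 - t) * k1 + (t - b) * k3 - ρ) / h0) := by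
        convert hS using 1 <;> ring
      rw [t1, t2]
      refine .npp (by rw [j1, j2, j3]) (by rw [t1]; linarith) (by rw [t2]; linarith)
        (by rw [t3]; exact hb) ?_
      rw [t1, t3]
      unfold MoN
      simp only
      have e0 : -(t - h0) + b ≠ 0 := by
        have : 0 < -(t - h0) + b := by linarith
        exact this.ne'
      refine hS'.moD hs hs1 (by ring) ?_ ?_ ?_
      · field_simp
        ring
      · field_simp
        ring
      · field_simp
        ring

/-- **Family `B`, the edge of height about `h0` is less than `h0` high.** -/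
theorem ngvB_neg (hs : 0 < s) (hs1 : s < h0) (ht : 0 < t) (hb : b < 0) (hb1 : -(h0 / 2) ≤ b)
    (htb : t < h0 + b)
    (hS : Steep κ s ex t (-b) (h0 - t + b)
      (t * (ρ - (h0 - t) * k1 + (h0 - t + b) * k3) / h0)
      (ρ + b * (t * k1 + (h0 - t + b) * k3 + ρ) / h0)) :
    NGV κ s ex t (h0 + b - t) (k1 * tau t, k3 * tau (h0 + b - t), -ρ) := by
  have hp := h0_pos
  have e3 : t + (h0 + b - t) = h0 + b := by ring
  have j3 : jn (t + (h0 + b - t)) = 1 := by
    rw [e3]
    exact jn_mid (by linarith) (by linarith)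
  have t3 : tau (t + (h0 + b - t)) = b := by
    rw [e3, tau_mid (by linarith) (by linarith)]
    ring
  rcases lt_or_ge t (h0 / 2) with h1 | h1
  · have j1 : jn t = 0 := jn_lo h1
    have t1 : tau t = t := tau_lo h1
    rcases le_or_gt (t - b) (h0 / 2) with h2 | h2
    · have j2 : jn (h0 + b - t) = 1 := jn_mid (by linarith) (by linarith)
      have t2 : tau (h0 + b - t) = b - t := by
        rw [tau_mid (by linarith) (by linarith)]
        ring
      have hS' : Steep κ s ex t (-b) (h0 - -b - t)
        (t * (ρ - (h0 - t) * k1 + (h0 - t + b) * k3) / h0)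
        (ρ + b * (t * k1 + (h0 - t + b) * k3 + ρ) / h0) := by
        convert hS using 1
        ring
      rw [t1, t2]
      refine .pnn (by rw [j1, j2, j3]) (by rw [t1]; exact ht.le) (by rw [t2]; linarith)
        (by rw [t3]; exact hb.le) ?_
      rw [t1, t3]
      unfold MoN
      simp only
      have e0 : -b + t ≠ 0 := by
        have : 0 < -b + t := by linarith
        exact this.ne'
      refine hS'.moB hs hs1 (by ring) ?_ ?_ ?_
      · field_simp
        ring
      · field_simp
        ring
      · field_simp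
        ring
    · have j2 : jn (h0 + b - t) = 0 := jn_lo (by linarith)
      have t2 : tau (h0 + b - t) = h0 + b - t := tau_lo (by linarith)
      have hS' : Steep κ s ex t (-b) (h0 + b - t)
        (t * (ρ - (h0 - t) * k1 + (h0 - t + b) * k3) / h0)
        (ρ + b * (t * k1 + (h0 - t + b) * k3 + ρ) / h0) := by
        convert hS using 1
        ring
      rw [t1, t2]
      refine .up (by rw [j1, j2, j3]) ?_
      rw [t1, t2, t3]
      unfold MoW
      simp only
      refine hS'.moC hs hs1 (by ring) ?_ ?_ ?_
      · unfold pot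
        field_simp
        ring
      · unfold pot
        field_simp
        ring
      · unfold pot
        field_simp
        ring
  · have j1 : jn t = 1 := jn_mid h1 (by linarith)
    have t1 : tau t = t - h0 := tau_mid h1 (by linarith)
    have j2 : jn (h0 + b - t) = 0 := jn_lo (by linarith)
    have t2 : tau (h0 + b - t) = h0 + b - t := tau_lo (by linarith)
    have hS' : Steep κ s ex (h0 - (h0 + b - t) - -b) (-b) (h0 + b - t)
      (t * (ρ - (h0 - t) * k1 + (h0 - t + b) * k3) / h0)
      (ρ + b * (t * k1 + (h0 - t + b) * k3 + ρ) / h0) := by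
      convert hS using 1 <;> ring
    rw [t1, t2]
    refine .npn (by rw [j1, j2, j3]) (by rw [t1]; linarith) (by rw [t2]; linarith)
      (by rw [t3]; exact hb.le) ?_
    rw [t2, t3]
    unfold MoN
    simp only
    have e0 : h0 + b - t + -b ≠ 0 := by
      have : h0 + b - t + -b = h0 - t := by ring
      rw [this]
      linarith
    refine hS'.moD hs hs1 (by ring) ?_ ?_ ?_
    · field_simp
      ring
    · field_simp
      ring
    · field_simp
      ring

end Pool.Agent.Strip051.LC
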