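import Pool.Agent.Strip051.LC.Exact.Mol

/-! # The triangles near a tight triangle, normalised

All lengths are divided by `h0`: `x` is the height of the strip, `y` the height of the short edge,
`β` the third height minus one.  The two inequalities of `Steep` are split into their value at
`β = 0` (the hypotheses `J1`, `J2`) and the first divided difference in `β` (the polynomials
`molN`, `molM`). -/

namespace Pool.Agent.Strip051.LC

open Pool.Agent.StripNear Pool.Agent.StripSquare Pool.Agent.Strip051.Sweep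
open Pool.Agent.Strip051.LC.Line (Mo MoN MoW jn tau pot)

/-- The two inequalities in normalised coordinates. -/
structure SteepN (x e ex l1 l2 l3 p r : ℝ) : Prop where
  p0 : 0 < p
  pr : p < r
  N : x * r ≤ l1 * r + l2 * p →
    e * (((1 - l2) * p + (1 - l1) * r) * (l1 * r + l2 * p) - x * (p * r)) ≤
      (1 - x) * ex * (l1 * r + l2 * p)
  M : l1 * r + l2 * p ≤ x * r →
    e * (((1 - l2) * (r - p) + (1 - l3) * r) * (l3 * r + l2 * (r - p)) -
    (1 - x) * ((r - p) * r)) ≤ x * ex * (l3 * r + l2 * (r - p))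

variable {κ x e ex l1 l2 l3 p r y β : ℝ}

theorem SteepN.steep (h : SteepN x e ex l1 l2 l3 p r) (hx0 : 0 < x) (hx1 : x < 1)
    (hκ : κ * h0 * (x * (1 - x)) = 2 * e) :
    Steep κ (h0 * x) ex (h0 * l1) (h0 * l2) (h0 * l3) p r := by
  have hp := h0_pos
  obtain ⟨h1, h2, h3, h4⟩ := h
  have hy : 0 < 1 - x := by linarith
  refine ⟨h1, h2, fun hw => ?_, fun hw => ?_⟩
  · replace h3 := h3 (le_of_mul_le_mul_left (by linarith) hp)
    have e1 : κ * (h0 * x) * (1 - x) = 2 * e := by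
      rw [← hκ]
      ring
    refine le_of_mul_le_mul_left ?_ hy
    calc (1 - x) * (κ * (h0 * x) * (((h0 - h0 * l2) * p + (h0 - h0 * l1) * r) *
          (h0 * l1 * r + h0 * l2 * p) - h0 * (h0 * x) * (p * r)))
        = κ * (h0 * x) * (1 - x) * h0 ^ 2 * (((1 - l2) * p + (1 - l1) * r) *
          (l1 * r + l2 * p) - x * (p * r)) := by ring
      _ = 2 * h0 ^ 2 * (e * (((1 - l2) * p + (1 - l1) * r) * (l1 * r + l2 * p) -
          x * (p * r))) := by
          rw [e1]
          ring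
      _ ≤ 2 * h0 ^ 2 * ((1 - x) * ex * (l1 * r + l2 * p)) :=
          mul_le_mul_of_nonneg_left h3 (by positivity)
      _ = (1 - x) * (2 * h0 * ex * (h0 * l1 * r + h0 * l2 * p)) := by ring
  · replace h4 := h4 (le_of_mul_le_mul_left (by linarith) hp)
    have e1 : κ * (h0 - h0 * x) * x = 2 * e / h0 * h0 := by
      rw [div_mul_cancel₀ _ hp.ne', ← hκ]
      ring
    rw [div_mul_cancel₀ _ hp.ne'] at e1
    refine le_of_mul_le_mul_left ?_ hx0
    calc x * (κ * (h0 - h0 * x) * (((h0 - h0 * l2) * (r - p) + (h0 - h0 * l3) * r) *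
          (h0 * l3 * r + h0 * l2 * (r - p)) - h0 * (h0 - h0 * x) * ((r - p) * r)))
        = κ * (h0 - h0 * x) * x * h0 ^ 2 * (((1 - l2) * (r - p) + (1 - l3) * r) *
          (l3 * r + l2 * (r - p)) - (1 - x) * ((r - p) * r)) := by ring
      _ = 2 * h0 ^ 2 * (e * (((1 - l2) * (r - p) + (1 - l3) * r) * (l3 * r + l2 * (r - p)) -
          (1 - x) * ((r - p) * r))) := by
          rw [e1]
          ring
      _ ≤ 2 * h0 ^ 2 * (x * ex * (l3 * r + l2 * (r - p))) :=
          mul_le_mul_of_nonneg_left h4 (by positivity)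
      _ = x * (2 * h0 * ex * (h0 * l3 * r + h0 * l2 * (r - p))) := by ring

/-- The first divided difference of the inequality `N`; the inequality `M` has the same form. -/
def mol (x e β D0 D1 G0 G1 P0 P1 R0 R1 E0 E1 : ℝ) : ℝ :=
  (1 - x) * (E1 * (D0 + β * D1) + E0 * D1) -
    e * (G1 * (D0 + β * D1) + G0 * D1 - x * (P1 * (R0 + β * R1) + P0 * R1))

theorem mol_eq (x e β D0 D1 G0 G1 P0 P1 R0 R1 E0 E1 : ℝ) :
    (1 - x) * (E0 + β * E1) * (D0 + β * D1) -
        e * ((G0 + β * G1) * (D0 + β * D1) - x * ((P0 + β * P1) * (R0 + β * R1))) =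
      ((1 - x) * E0 * D0 - e * (G0 * D0 - x * (P0 * R0))) +
        β * mol x e β D0 D1 G0 G1 P0 P1 R0 R1 E0 E1 := by
  unfold mol
  ring

section

variable {K1 K30 K31 ρ0 ρ1 E0 E1 k1 k3 : ℝ}

/-- **Family `A`, above.** -/
theorem ngvA_nonneg_jet (hx0 : 0 < x) (hx1 : x < 1) (hκ : κ * h0 * (x * (1 - x)) = 2 * e)
    (hβ : 0 ≤ β) (hβ1 : β < 1 / 2) (hyβ : y + β < 1) (hy0 : 0 < y)
    (h1 : h0 * k1 = K1) (h3 : h0 * k3 = K30 + β * K31) {K3 ρ P R Q P0 P1 R1 Q1 : ℝ}
    (eK : K3 = K30 + β * K31) (eρ : ρ = ρ0 + β * ρ1)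
    (eP : P = ρ + (1 - y) * K1 - (1 - y - β) * K3)
    (eR1 : R1 = ρ1 + y * K1 - ρ + (1 - y - β) * K3)
    (eR : R = ρ0 + β * R1) (eQ : Q = R - y * P)
    (eP0 : P0 = ρ0 + (1 - y) * (K1 - K30)) (eP1 : P1 = ρ1 + K3 - (1 - y) * K31)
    (eQ1 : Q1 = R1 - y * P1) (hP : 0 < P) (hQ : 0 < Q)
    (hN : x * R ≤ y * (R + β * P) → 0 ≤ ρ0 * ((1 - x) * (E0 - e * ρ0) - e * ((y - x) * (1 - y) * (K1 - K30))) +
      β * mol x e β ρ0 (R1 + P) (y * P0 + (1 - y) * ρ0)
        (y * (P1 - P) + (1 - y) * R1) P0 P1 ρ0 R1 E0 E1)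
    (hM : y * (R + β * P) ≤ x * R → 0 ≤ (1 - y) * ρ0 * (x * (E0 - e * ρ0) - e * ((y - x) * y * (K1 - K30))) +
      β * mol (1 - x) e β ((1 - y) * ρ0) ((1 - y) * R1 - y * P) (ρ0 - y * P0 + y * ρ0)
        (y * P + Q1 + y * R1) (ρ0 - y * P0) Q1 ρ0 R1 E0 E1) :
    NGV κ (h0 * x) (E0 + β * E1) (h0 * y) (h0 + h0 * β)
      (k1 * tau (h0 * y), -(ρ0 + β * ρ1), k3 * tau (h0 * y + (h0 + h0 * β))) := by
  have hp := h0_pos
  have e2 : P = P0 + β * P1 := by
    rw [eP, eP0, eP1, eρ, eK]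
    ring
  have hp0 : 0 < y * P := mul_pos hy0 hP
  have f1 : h0 * x < h0 := by nlinarith only [mul_pos hp (sub_pos.2 hx1)]
  have f2 : h0 * β < h0 / 2 := by nlinarith only [mul_pos hp (sub_pos.2 hβ1)]
  have f3 : h0 * y + h0 * β < h0 := by nlinarith only [mul_pos hp (sub_pos.2 hyβ)]
  have hw : y * R + β * (y * P) = y * (R + β * P) := by ring
  have key : SteepN x e (E0 + β * E1) y β (1 - y - β) (y * P) R := by
    refine ⟨hp0, by linarith only [hQ, eQ], fun hc => ?_, fun hc => ?_⟩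
    · replace hN := hN (by rw [← hw]; exact hc)
      have n1 := mol_eq x e β ρ0 (R1 + P) (y * P0 + (1 - y) * ρ0)
        (y * (P1 - P) + (1 - y) * R1) P0 P1 ρ0 R1 E0 E1
      have hN0 : (1 - x) * E0 * ρ0 - e * ((y * P0 + (1 - y) * ρ0) * ρ0 - x * (P0 * ρ0)) =
          ρ0 * ((1 - x) * (E0 - e * ρ0) - e * ((y - x) * (1 - y) * (K1 - K30))) := by
        rw [eP0]
        ring
      rw [hN0] at n1
      rw [← n1] at hN
      have d1 : ρ0 + β * (R1 + P) = R + β * P := by
        rw [eR]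
        ring
      have d2 : y * P0 + (1 - y) * ρ0 + β * (y * (P1 - P) + (1 - y) * R1) =
          (1 - β) * (y * P) + (1 - y) * R := by
        have f1 : y * P0 = y * P - β * (y * P1) := by
          rw [e2]
          ring
        have f2 : (1 - y) * ρ0 = (1 - y) * R - β * ((1 - y) * R1) := by
          rw [eR]
          ring
        rw [f1, f2]
        ring
      rw [d1, d2, ← e2, ← eR] at hN
      have n4 := mul_nonneg (le_of_lt (hy0)) hN
      have n5 : y * ((1 - x) * (E0 + β * E1) * (R + β * P) -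
          e * (((1 - β) * (y * P) + (1 - y) * R) * (R + β * P) -
            x * (P * R))) =
          (1 - x) * (E0 + β * E1) * (y * R + β * (y * P)) -
            e * (((1 - β) * (y * P) + (1 - y) * R) *
              (y * R + β * (y * P)) - x * (y * P * R)) := by
        ring
      rw [n5] at n4
      linarith only [n4]
    · replace hM := hM (by rw [← hw]; exact hc)
      have m1 := mol_eq (1 - x) e β ((1 - y) * ρ0) ((1 - y) * R1 - y * P)
        (ρ0 - y * P0 + y * ρ0) (y * P + Q1 + y * R1) (ρ0 - y * P0) Q1 ρ0 R1 E0 E1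
      have hM0 : (1 - (1 - x)) * E0 * ((1 - y) * ρ0) -
          e * ((ρ0 - y * P0 + y * ρ0) * ((1 - y) * ρ0) - (1 - x) * ((ρ0 - y * P0) * ρ0)) =
          (1 - y) * ρ0 * (x * (E0 - e * ρ0) - e * ((y - x) * y * (K1 - K30))) := by
        rw [eP0]
        ring
      rw [hM0] at m1
      rw [← m1] at hM
      have q1 : ρ0 - y * P0 + β * Q1 = Q := by
        have f1 : y * P0 = y * P - β * (y * P1) := by
          rw [e2]
          ring
        have f2 : ρ0 = R - β * R1 := by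
          rw [eR]
          ring
        rw [f1, eQ1, eQ]
        rw [f2]
        ring
      have q2 : (1 - y) * ρ0 + β * ((1 - y) * R1 - y * P) = (1 - y - β) * R + β * Q := by
        have f2 : ρ0 = R - β * R1 := by
          rw [eR]
          ring
        rw [f2, eQ]
        ring
      have q3 : ρ0 - y * P0 + y * ρ0 + β * (y * P + Q1 + y * R1) =
          (1 - β) * Q + (1 - (1 - y - β)) * R := by
        have f2 : y * ρ0 = y * R - β * (y * R1) := by
          rw [eR]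
          ring
        have f3 : ρ0 - y * P0 = Q - β * Q1 := by
          rw [← q1]
          ring
        rw [f3, f2, eQ]
        ring
      rw [q1, q2, q3, ← eR, eQ] at hM
      linarith only [hM]
  have hS := key.steep hx0 hx1 hκ
  refine ngvA_nonneg (mul_pos hp hx0) (f1) (mul_pos hp hy0) (mul_nonneg hp.le hβ) f2 f3 ?_
  have a1 : h0 * y = h0 * y := by ring
  have a2 : h0 * β = h0 * β := by ring
  have a3 : h0 - h0 * y - h0 * β = h0 * (1 - y - β) := by ring
  have a4 : h0 * y * (ρ0 + β * ρ1 + (h0 - h0 * y) * k1 - (h0 - h0 * y - h0 * β) * k3) / h0 =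
      y * P := by
    rw [eP, eρ, eK, ← h3, ← h1, div_eq_iff hp.ne']
    ring
  have a5 : ρ0 + β * ρ1 + h0 * β * (h0 * y * k1 - (ρ0 + β * ρ1) + (h0 - h0 * y - h0 * β) * k3) / h0 =
      R := by
    rw [eR, eR1, eρ, eK, ← h3, ← h1]
    field_simp
    try ring
  rw [a4, a5, a1, a2, a3]
  exact hS

/-- **Family `A`, below.** -/
theorem ngvA_neg_jet (hx0 : 0 < x) (hx1 : x < 1) (hκ : κ * h0 * (x * (1 - x)) = 2 * e)
    (hβ : β < 0) (hβ1 : -(1 / 2) ≤ β) (hyβ : 0 < y + β) (hy1 : y < 1)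
    (h1 : h0 * k1 = K1) (h3 : h0 * k3 = K30 + β * K31) {K3 ρ P R Q P0 P1 R1 Q1 : ℝ}
    (eK : K3 = K30 + β * K31) (eρ : ρ = ρ0 + β * ρ1)
    (eP : P = ρ + (1 - y) * K1 - (1 - y - β) * K3)
    (eR1 : R1 = ρ1 + (1 - y) * K1 + (y + β) * K3 + ρ)
    (eR : R = ρ0 + β * R1) (eQ : Q = R - (y + β) * P)
    (eP0 : P0 = ρ0 + (1 - y) * (K1 - K30)) (eP1 : P1 = ρ1 + K3 - (1 - y) * K31)
    (eQ1 : Q1 = R1 - y * P1 - P) (hP : 0 < P) (hQ : 0 < Q)
    (hN : x * R ≤ (y + β) * (R - β * P) → 0 ≤ ρ0 * ((1 - x) * (E0 - e * ρ0) - e * ((y - x) * (1 - y) * (K1 - K30))) +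
      β * mol x e β ρ0 (R1 - P) (y * P0 + (1 - y) * ρ0)
        (y * P1 + (1 + y + β) * P + (1 - y) * R1 - R) P0 P1 ρ0 R1 E0 E1)
    (hM : (y + β) * (R - β * P) ≤ x * R → 0 ≤ (1 - y) * ρ0 * (x * (E0 - e * ρ0) - e * ((y - x) * y * (K1 - K30))) +
      β * mol (1 - x) e β ((1 - y) * ρ0) ((1 - y) * R1 - Q) (ρ0 - y * P0 + y * ρ0)
        (Q1 + Q + y * R1) (ρ0 - y * P0) Q1 ρ0 R1 E0 E1) :
    NGV κ (h0 * x) (E0 + β * E1) (h0 * y) (h0 + h0 * β)
      (k1 * tau (h0 * y), -(ρ0 + β * ρ1), k3 * tau (h0 * y + (h0 + h0 * β))) := by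
  have hp := h0_pos
  have e2 : P = P0 + β * P1 := by
    rw [eP, eP0, eP1, eρ, eK]
    ring
  have hp0 : 0 < (y + β) * P := mul_pos hyβ hP
  have f1 : h0 * x < h0 := by nlinarith only [mul_pos hp (sub_pos.2 hx1)]
  have f2 : h0 * y < h0 := by nlinarith only [mul_pos hp (sub_pos.2 hy1)]
  have f3 : h0 * β < 0 := mul_neg_of_pos_of_neg hp hβ
  have f4 : -(h0 / 2) ≤ h0 * β := by nlinarith only [mul_nonneg hp.le (sub_nonneg.2 hβ1)]
  have f5 : 0 < h0 * y + h0 * β := by nlinarith only [mul_pos hp hyβ]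
  have hw : (y + β) * R + (-β) * ((y + β) * P) = (y + β) * (R - β * P) := by ring
  have key : SteepN x e (E0 + β * E1) (y + β) (-β) (1 - y) ((y + β) * P) R := by
    refine ⟨hp0, by linarith only [hQ, eQ], fun hc => ?_, fun hc => ?_⟩
    · replace hN := hN (by rw [← hw]; exact hc)
      have n1 := mol_eq x e β ρ0 (R1 - P) (y * P0 + (1 - y) * ρ0)
        (y * P1 + (1 + y + β) * P + (1 - y) * R1 - R) P0 P1 ρ0 R1 E0 E1
      have hN0 : (1 - x) * E0 * ρ0 - e * ((y * P0 + (1 - y) * ρ0) * ρ0 - x * (P0 * ρ0)) =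
          ρ0 * ((1 - x) * (E0 - e * ρ0) - e * ((y - x) * (1 - y) * (K1 - K30))) := by
        rw [eP0]
        ring
      rw [hN0] at n1
      rw [← n1] at hN
      have d1 : ρ0 + β * (R1 - P) = R - β * P := by
        rw [eR]
        ring
      have d2 : y * P0 + (1 - y) * ρ0 + β * (y * P1 + (1 + y + β) * P + (1 - y) * R1 - R) =
          (1 - (-β)) * ((y + β) * P) + (1 - (y + β)) * R := by
        have f1 : y * P0 = y * P - β * (y * P1) := by
          rw [e2]
          ring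
        have f2 : (1 - y) * ρ0 = (1 - y) * R - β * ((1 - y) * R1) := by
          rw [eR]
          ring
        rw [f1, f2]
        ring
      rw [d1, d2, ← e2, ← eR] at hN
      have n4 := mul_nonneg (le_of_lt (hyβ)) hN
      have n5 : (y + β) * ((1 - x) * (E0 + β * E1) * (R - β * P) -
          e * (((1 - (-β)) * ((y + β) * P) + (1 - (y + β)) * R) * (R - β * P) -
            x * (P * R))) =
          (1 - x) * (E0 + β * E1) * ((y + β) * R + (-β) * ((y + β) * P)) -
            e * (((1 - (-β)) * ((y + β) * P) + (1 - (y + β)) * R) *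
              ((y + β) * R + (-β) * ((y + β) * P)) - x * ((y + β) * P * R)) := by
        ring
      rw [n5] at n4
      linarith only [n4]
    · replace hM := hM (by rw [← hw]; exact hc)
      have m1 := mol_eq (1 - x) e β ((1 - y) * ρ0) ((1 - y) * R1 - Q)
        (ρ0 - y * P0 + y * ρ0) (Q1 + Q + y * R1) (ρ0 - y * P0) Q1 ρ0 R1 E0 E1
      have hM0 : (1 - (1 - x)) * E0 * ((1 - y) * ρ0) -
          e * ((ρ0 - y * P0 + y * ρ0) * ((1 - y) * ρ0) - (1 - x) * ((ρ0 - y * P0) * ρ0)) =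
          (1 - y) * ρ0 * (x * (E0 - e * ρ0) - e * ((y - x) * y * (K1 - K30))) := by
        rw [eP0]
        ring
      rw [hM0] at m1
      rw [← m1] at hM
      have q1 : ρ0 - y * P0 + β * Q1 = Q := by
        have f1 : y * P0 = y * P - β * (y * P1) := by
          rw [e2]
          ring
        have f2 : ρ0 = R - β * R1 := by
          rw [eR]
          ring
        rw [f1, eQ1, eQ]
        rw [f2]
        ring
      have q2 : (1 - y) * ρ0 + β * ((1 - y) * R1 - Q) = (1 - y) * R + (-β) * Q := by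
        have f2 : ρ0 = R - β * R1 := by
          rw [eR]
          ring
        rw [f2, eQ]
        ring
      have q3 : ρ0 - y * P0 + y * ρ0 + β * (Q1 + Q + y * R1) =
          (1 - (-β)) * Q + (1 - (1 - y)) * R := by
        have f2 : y * ρ0 = y * R - β * (y * R1) := by
          rw [eR]
          ring
        have f3 : ρ0 - y * P0 = Q - β * Q1 := by
          rw [← q1]
          ring
        rw [f3, f2, eQ]
        ring
      rw [q1, q2, q3, ← eR, eQ] at hM
      linarith only [hM]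
  have hS := key.steep hx0 hx1 hκ
  refine ngvA_neg (mul_pos hp hx0) f1 f2 f3 f4 f5 ?_
  have a1 : h0 * y + h0 * β = h0 * (y + β) := by ring
  have a2 : -(h0 * β) = h0 * (-β) := by ring
  have a3 : h0 - h0 * y = h0 * (1 - y) := by ring
  have a4 : (h0 * y + h0 * β) * (ρ0 + β * ρ1 + (h0 - h0 * y) * k1 - (h0 - h0 * y - h0 * β) * k3) / h0 =
      (y + β) * P := by
    rw [eP, eρ, eK, ← h3, ← h1, div_eq_iff hp.ne']
    ring
  have a5 : ρ0 + β * ρ1 + h0 * β * ((h0 - h0 * y) * k1 + (h0 * y + h0 * β) * k3 + (ρ0 + β * ρ1)) / h0 =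
      R := by
    rw [eR, eR1, eρ, eK, ← h3, ← h1]
    field_simp
    try ring
  rw [a4, a5, a1, a2, a3]
  exact hS

/-- **Family `B`, above.** -/
theorem ngvB_nonneg_jet (hx0 : 0 < x) (hx1 : x < 1) (hκ : κ * h0 * (x * (1 - x)) = 2 * e)
    (hβ : 0 ≤ β) (hβ1 : β < 1 / 2) (hyβ : 0 < y - β) (hy1 : y < 1)
    (h1 : h0 * k1 = K1) (h3 : h0 * k3 = K30 + β * K31) {K3 ρ P R Q P0 P1 R1 Q1 : ℝ}
    (eK : K3 = K30 + β * K31) (eρ : ρ = ρ0 + β * ρ1)
    (eP : P = ρ - (1 - y) * K1 + (1 - y + β) * K3)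
    (eR1 : R1 = ρ1 + (1 - y) * K1 + (y - β) * K3 - ρ)
    (eR : R = ρ0 + β * R1) (eQ : Q = R - (y - β) * P)
    (eP0 : P0 = ρ0 + (1 - y) * (K30 - K1)) (eP1 : P1 = ρ1 + (1 - y) * K31 + K3)
    (eQ1 : Q1 = R1 - y * P1 + P) (hP : 0 < P) (hQ : 0 < Q)
    (hN : x * R ≤ (y - β) * (R + β * P) → 0 ≤ ρ0 * ((1 - x) * (E0 - e * ρ0) - e * ((y - x) * (1 - y) * (K30 - K1))) +
      β * mol x e β ρ0 (R1 + P) (y * P0 + (1 - y) * ρ0)
        (y * P1 - (1 + y - β) * P + (1 - y) * R1 + R) P0 P1 ρ0 R1 E0 E1)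
    (hM : (y - β) * (R + β * P) ≤ x * R → 0 ≤ (1 - y) * ρ0 * (x * (E0 - e * ρ0) - e * ((y - x) * y * (K30 - K1))) +
      β * mol (1 - x) e β ((1 - y) * ρ0) ((1 - y) * R1 + Q) (ρ0 - y * P0 + y * ρ0)
        (Q1 - Q + y * R1) (ρ0 - y * P0) Q1 ρ0 R1 E0 E1) :
    NGV κ (h0 * x) (E0 + β * E1) (h0 * y) (h0 + h0 * β - h0 * y)
      (k1 * tau (h0 * y), k3 * tau (h0 + h0 * β - h0 * y), -(ρ0 + β * ρ1)) := by
  have hp := h0_pos
  have e2 : P = P0 + β * P1 := by
    rw [eP, eP0, eP1, eρ, eK]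
    ring
  have hp0 : 0 < (y - β) * P := mul_pos hyβ hP
  have f1 : h0 * x < h0 := by nlinarith only [mul_pos hp (sub_pos.2 hx1)]
  have f2 : h0 * y < h0 := by nlinarith only [mul_pos hp (sub_pos.2 hy1)]
  have f3 : h0 * β < h0 / 2 := by nlinarith only [mul_pos hp (sub_pos.2 hβ1)]
  have f4 : h0 * β < h0 * y := by nlinarith only [mul_pos hp hyβ]
  have hw : (y - β) * R + β * ((y - β) * P) = (y - β) * (R + β * P) := by ring
  have key : SteepN x e (E0 + β * E1) (y - β) β (1 - y) ((y - β) * P) R := by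
    refine ⟨hp0, by linarith only [hQ, eQ], fun hc => ?_, fun hc => ?_⟩
    · replace hN := hN (by rw [← hw]; exact hc)
      have n1 := mol_eq x e β ρ0 (R1 + P) (y * P0 + (1 - y) * ρ0)
        (y * P1 - (1 + y - β) * P + (1 - y) * R1 + R) P0 P1 ρ0 R1 E0 E1
      have hN0 : (1 - x) * E0 * ρ0 - e * ((y * P0 + (1 - y) * ρ0) * ρ0 - x * (P0 * ρ0)) =
          ρ0 * ((1 - x) * (E0 - e * ρ0) - e * ((y - x) * (1 - y) * (K30 - K1))) := by
        rw [eP0]
        ring
      rw [hN0] at n1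
      rw [← n1] at hN
      have d1 : ρ0 + β * (R1 + P) = R + β * P := by
        rw [eR]
        ring
      have d2 : y * P0 + (1 - y) * ρ0 + β * (y * P1 - (1 + y - β) * P + (1 - y) * R1 + R) =
          (1 - β) * ((y - β) * P) + (1 - (y - β)) * R := by
        have f1 : y * P0 = y * P - β * (y * P1) := by
          rw [e2]
          ring
        have f2 : (1 - y) * ρ0 = (1 - y) * R - β * ((1 - y) * R1) := by
          rw [eR]
          ring
        rw [f1, f2]
        ring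
      rw [d1, d2, ← e2, ← eR] at hN
      have n4 := mul_nonneg (le_of_lt (hyβ)) hN
      have n5 : (y - β) * ((1 - x) * (E0 + β * E1) * (R + β * P) -
          e * (((1 - β) * ((y - β) * P) + (1 - (y - β)) * R) * (R + β * P) -
            x * (P * R))) =
          (1 - x) * (E0 + β * E1) * ((y - β) * R + β * ((y - β) * P)) -
            e * (((1 - β) * ((y - β) * P) + (1 - (y - β)) * R) *
              ((y - β) * R + β * ((y - β) * P)) - x * ((y - β) * P * R)) := by
        ring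
      rw [n5] at n4
      linarith only [n4]
    · replace hM := hM (by rw [← hw]; exact hc)
      have m1 := mol_eq (1 - x) e β ((1 - y) * ρ0) ((1 - y) * R1 + Q)
        (ρ0 - y * P0 + y * ρ0) (Q1 - Q + y * R1) (ρ0 - y * P0) Q1 ρ0 R1 E0 E1
      have hM0 : (1 - (1 - x)) * E0 * ((1 - y) * ρ0) -
          e * ((ρ0 - y * P0 + y * ρ0) * ((1 - y) * ρ0) - (1 - x) * ((ρ0 - y * P0) * ρ0)) =
          (1 - y) * ρ0 * (x * (E0 - e * ρ0) - e * ((y - x) * y * (K30 - K1))) := by
        rw [eP0]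
        ring
      rw [hM0] at m1
      rw [← m1] at hM
      have q1 : ρ0 - y * P0 + β * Q1 = Q := by
        have f1 : y * P0 = y * P - β * (y * P1) := by
          rw [e2]
          ring
        have f2 : ρ0 = R - β * R1 := by
          rw [eR]
          ring
        rw [f1, eQ1, eQ]
        rw [f2]
        ring
      have q2 : (1 - y) * ρ0 + β * ((1 - y) * R1 + Q) = (1 - y) * R + β * Q := by
        have f2 : ρ0 = R - β * R1 := by
          rw [eR]
          ring
        rw [f2, eQ]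
        ring
      have q3 : ρ0 - y * P0 + y * ρ0 + β * (Q1 - Q + y * R1) =
          (1 - β) * Q + (1 - (1 - y)) * R := by
        have f2 : y * ρ0 = y * R - β * (y * R1) := by
          rw [eR]
          ring
        have f3 : ρ0 - y * P0 = Q - β * Q1 := by
          rw [← q1]
          ring
        rw [f3, f2, eQ]
        ring
      rw [q1, q2, q3, ← eR, eQ] at hM
      linarith only [hM]
  have hS := key.steep hx0 hx1 hκ
  refine ngvB_nonneg (mul_pos hp hx0) f1 f2 (mul_nonneg hp.le hβ) f3 f4 ?_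
  have a1 : h0 * y - h0 * β = h0 * (y - β) := by ring
  have a2 : h0 * β = h0 * β := by ring
  have a3 : h0 - h0 * y = h0 * (1 - y) := by ring
  have a4 : (h0 * y - h0 * β) * (ρ0 + β * ρ1 - (h0 - h0 * y) * k1 + (h0 - h0 * y + h0 * β) * k3) / h0 =
      (y - β) * P := by
    rw [eP, eρ, eK, ← h3, ← h1, div_eq_iff hp.ne']
    ring
  have a5 : ρ0 + β * ρ1 + h0 * β * ((h0 - h0 * y) * k1 + (h0 * y - h0 * β) * k3 - (ρ0 + β * ρ1)) / h0 =
      R := by
    rw [eR, eR1, eρ, eK, ← h3, ← h1]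
    field_simp
    try ring
  rw [a4, a5, a1, a2, a3]
  exact hS

/-- **Family `B`, below.** -/
theorem ngvB_neg_jet (hx0 : 0 < x) (hx1 : x < 1) (hκ : κ * h0 * (x * (1 - x)) = 2 * e)
    (hβ : β < 0) (hβ1 : -(1 / 2) ≤ β) (hyβ : y < 1 + β) (hy0 : 0 < y)
    (h1 : h0 * k1 = K1) (h3 : h0 * k3 = K30 + β * K31) {K3 ρ P R Q P0 P1 R1 Q1 : ℝ}
    (eK : K3 = K30 + β * K31) (eρ : ρ = ρ0 + β * ρ1)
    (eP : P = ρ - (1 - y) * K1 + (1 - y + β) * K3)
    (eR1 : R1 = ρ1 + y * K1 + (1 - y + β) * K3 + ρ)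
    (eR : R = ρ0 + β * R1) (eQ : Q = R - y * P)
    (eP0 : P0 = ρ0 + (1 - y) * (K30 - K1)) (eP1 : P1 = ρ1 + (1 - y) * K31 + K3)
    (eQ1 : Q1 = R1 - y * P1) (hP : 0 < P) (hQ : 0 < Q)
    (hN : x * R ≤ y * (R - β * P) → 0 ≤ ρ0 * ((1 - x) * (E0 - e * ρ0) - e * ((y - x) * (1 - y) * (K30 - K1))) +
      β * mol x e β ρ0 (R1 - P) (y * P0 + (1 - y) * ρ0)
        (y * (P1 + P) + (1 - y) * R1) P0 P1 ρ0 R1 E0 E1)
    (hM : y * (R - β * P) ≤ x * R → 0 ≤ (1 - y) * ρ0 * (x * (E0 - e * ρ0) - e * ((y - x) * y * (K30 - K1))) +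
      β * mol (1 - x) e β ((1 - y) * ρ0) ((1 - y) * R1 + R - Q) (ρ0 - y * P0 + y * ρ0)
        (Q1 + Q + y * R1 - R) (ρ0 - y * P0) Q1 ρ0 R1 E0 E1) :
    NGV κ (h0 * x) (E0 + β * E1) (h0 * y) (h0 + h0 * β - h0 * y)
      (k1 * tau (h0 * y), k3 * tau (h0 + h0 * β - h0 * y), -(ρ0 + β * ρ1)) := by
  have hp := h0_pos
  have e2 : P = P0 + β * P1 := by
    rw [eP, eP0, eP1, eρ, eK]
    ring
  have hp0 : 0 < y * P := mul_pos hy0 hP
  have f1 : h0 * x < h0 := by nlinarith only [mul_pos hp (sub_pos.2 hx1)]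
  have f3 : h0 * β < 0 := mul_neg_of_pos_of_neg hp hβ
  have f4 : -(h0 / 2) ≤ h0 * β := by nlinarith only [mul_nonneg hp.le (sub_nonneg.2 hβ1)]
  have f5 : h0 * y < h0 + h0 * β := by nlinarith only [mul_pos hp (sub_pos.2 hyβ)]
  have hw : y * R + (-β) * (y * P) = y * (R - β * P) := by ring
  have key : SteepN x e (E0 + β * E1) y (-β) (1 - y + β) (y * P) R := by
    refine ⟨hp0, by linarith only [hQ, eQ], fun hc => ?_, fun hc => ?_⟩
    · replace hN := hN (by rw [← hw]; exact hc)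
      have n1 := mol_eq x e β ρ0 (R1 - P) (y * P0 + (1 - y) * ρ0)
        (y * (P1 + P) + (1 - y) * R1) P0 P1 ρ0 R1 E0 E1
      have hN0 : (1 - x) * E0 * ρ0 - e * ((y * P0 + (1 - y) * ρ0) * ρ0 - x * (P0 * ρ0)) =
          ρ0 * ((1 - x) * (E0 - e * ρ0) - e * ((y - x) * (1 - y) * (K30 - K1))) := by
        rw [eP0]
        ring
      rw [hN0] at n1
      rw [← n1] at hN
      have d1 : ρ0 + β * (R1 - P) = R - β * P := by
        rw [eR]
        ring
      have d2 : y * P0 + (1 - y) * ρ0 + β * (y * (P1 + P) + (1 - y) * R1) =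
          (1 - (-β)) * (y * P) + (1 - y) * R := by
        have f1 : y * P0 = y * P - β * (y * P1) := by
          rw [e2]
          ring
        have f2 : (1 - y) * ρ0 = (1 - y) * R - β * ((1 - y) * R1) := by
          rw [eR]
          ring
        rw [f1, f2]
        ring
      rw [d1, d2, ← e2, ← eR] at hN
      have n4 := mul_nonneg (le_of_lt (hy0)) hN
      have n5 : y * ((1 - x) * (E0 + β * E1) * (R - β * P) -
          e * (((1 - (-β)) * (y * P) + (1 - y) * R) * (R - β * P) -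
            x * (P * R))) =
          (1 - x) * (E0 + β * E1) * (y * R + (-β) * (y * P)) -
            e * (((1 - (-β)) * (y * P) + (1 - y) * R) *
              (y * R + (-β) * (y * P)) - x * (y * P * R)) := by
        ring
      rw [n5] at n4
      linarith only [n4]
    · replace hM := hM (by rw [← hw]; exact hc)
      have m1 := mol_eq (1 - x) e β ((1 - y) * ρ0) ((1 - y) * R1 + R - Q)
        (ρ0 - y * P0 + y * ρ0) (Q1 + Q + y * R1 - R) (ρ0 - y * P0) Q1 ρ0 R1 E0 E1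
      have hM0 : (1 - (1 - x)) * E0 * ((1 - y) * ρ0) -
          e * ((ρ0 - y * P0 + y * ρ0) * ((1 - y) * ρ0) - (1 - x) * ((ρ0 - y * P0) * ρ0)) =
          (1 - y) * ρ0 * (x * (E0 - e * ρ0) - e * ((y - x) * y * (K30 - K1))) := by
        rw [eP0]
        ring
      rw [hM0] at m1
      rw [← m1] at hM
      have q1 : ρ0 - y * P0 + β * Q1 = Q := by
        have f1 : y * P0 = y * P - β * (y * P1) := by
          rw [e2]
          ring
        have f2 : ρ0 = R - β * R1 := by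
          rw [eR]
          ring
        rw [f1, eQ1, eQ]
        rw [f2]
        ring
      have q2 : (1 - y) * ρ0 + β * ((1 - y) * R1 + R - Q) = (1 - y + β) * R + (-β) * Q := by
        have f2 : ρ0 = R - β * R1 := by
          rw [eR]
          ring
        rw [f2, eQ]
        ring
      have q3 : ρ0 - y * P0 + y * ρ0 + β * (Q1 + Q + y * R1 - R) =
          (1 - (-β)) * Q + (1 - (1 - y + β)) * R := by
        have f2 : y * ρ0 = y * R - β * (y * R1) := by
          rw [eR]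
          ring
        have f3 : ρ0 - y * P0 = Q - β * Q1 := by
          rw [← q1]
          ring
        rw [f3, f2, eQ]
        ring
      rw [q1, q2, q3, ← eR, eQ] at hM
      linarith only [hM]
  have hS := key.steep hx0 hx1 hκ
  refine ngvB_neg (mul_pos hp hx0) f1 (mul_pos hp hy0) f3 f4 f5 ?_
  have a1 : h0 * y = h0 * y := by ring
  have a2 : -(h0 * β) = h0 * (-β) := by ring
  have a3 : h0 - h0 * y + h0 * β = h0 * (1 - y + β) := by ring
  have a4 : h0 * y * (ρ0 + β * ρ1 - (h0 - h0 * y) * k1 + (h0 - h0 * y + h0 * β) * k3) / h0 =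
      y * P := by
    rw [eP, eρ, eK, ← h3, ← h1, div_eq_iff hp.ne']
    ring
  have a5 : ρ0 + β * ρ1 + h0 * β * (h0 * y * k1 + (h0 - h0 * y + h0 * β) * k3 + (ρ0 + β * ρ1)) / h0 =
      R := by
    rw [eR, eR1, eρ, eK, ← h3, ← h1]
    field_simp
    try ring
  rw [a4, a5, a1, a2, a3]
  exact hS

end

end Pool.Agent.Strip051.LC
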