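import Pool.Agent.Strip051.LC.Exact.MolD
import Pool.Agent.Strip051.LC.Exact.Mol3

/-! # The charts of the tight triangles from tests

The two inequalities are replaced by tests: a quantity of the wrong sign, a positive divided
difference, or a positive total. -/

namespace Pool.Agent.Strip051.LC

open Pool.Agent.StripNear Pool.Agent.StripSquare Pool.Agent.Strip051.Sweep
open Pool.Agent.Strip051.LC.Line (Mo MoN MoW jn tau pot)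

variable {κ x e y β J J1 J2 A1 A2 N1 M1 K10 K11 K1 K30 K31 K3 ρ0 ρ1 ρ E0 E1 P R Q P0 P1 R1 Q1 u τ1 τ3 wd : ℝ}

theorem test_pos {r0 : ℝ} (hJ : J = u ^ 2 * A1) (hA : 0 ≤ A1) (hr : 0 ≤ r0) (hβ : 0 ≤ β)
    (hw : 0 ≤ wd) (h : 0 < -wd ∨ 0 < N1 ∨ 0 < u ^ 2 * (A1 * r0) + β * N1) :
    0 ≤ r0 * J + β * N1 := by
  rw [hJ]
  rcases h with h | h | h
  · linarith
  · have h1 : 0 ≤ r0 * (u ^ 2 * A1) := mul_nonneg hr (mul_nonneg (sq_nonneg u) hA)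
    have h2 : 0 ≤ β * N1 := mul_nonneg hβ h.le
    linarith
  · linarith

theorem test_neg {r0 : ℝ} (hJ : J = u ^ 2 * A1) (hA : 0 ≤ A1) (hr : 0 ≤ r0) (hβ : β ≤ 0)
    (hw : 0 ≤ wd) (h : 0 < -wd ∨ 0 < -N1 ∨ 0 < u ^ 2 * (A1 * r0) + β * N1) :
    0 ≤ r0 * J + β * N1 := by
  rw [hJ]
  rcases h with h | h | h
  · linarith
  · have h1 : 0 ≤ r0 * (u ^ 2 * A1) := mul_nonneg hr (mul_nonneg (sq_nonneg u) hA)
    have h2 : 0 ≤ β * N1 := mul_nonneg_of_nonpos_of_nonpos hβ (by linarith)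
    linarith
  · linarith

theorem chA_nonneg (hx0 : 0 < x) (hx1 : x < 1) (hκ : κ * h0 * (x * (1 - x)) = 2 * e)
    (hβ : 0 ≤ β) (hβ1 : β < 1 / 2) (hyβ : y + β < 1) (hy0 : 0 < y) (hy1 : y < 1)
    (eK : K3 = K30 + β * K31) (eK1 : K1 = K10 + β * K11) (eρ : ρ = ρ0 + β * ρ1)
    (eP : P = ρ + (1 - y) * K1 - (1 - y - β) * K3)
    (eR1 : R1 = ρ1 + y * K1 - ρ + (1 - y - β) * K3)
    (eR : R = ρ0 + β * R1) (eQ : Q = R - y * P)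
    (eP0 : P0 = ρ0 + (1 - y) * (K10 - K30)) (eP1 : P1 = ρ1 + K3 - (1 - y) * K31 + (1 - y) * K11)
    (eQ1 : Q1 = R1 - y * P1) (hP : 0 < P) (hQ : 0 < Q)
    (eN : N1 = mol x e β ρ0 (R1 + P) (y * P0 + (1 - y) * ρ0)
      (y * (P1 - P) + (1 - y) * R1) P0 P1 ρ0 R1 E0 E1)
    (eM : M1 = mol (1 - x) e β ((1 - y) * ρ0) ((1 - y) * R1 - y * P) (ρ0 - y * P0 + y * ρ0)
      (y * P + Q1 + y * R1) (ρ0 - y * P0) Q1 ρ0 R1 E0 E1)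
    (eJ : (1 - x) * (E0 - e * ρ0) - e * ((y - x) * (1 - y) * (K10 - K30)) = u ^ 2 * A1 ∧
      x * (E0 - e * ρ0) - e * ((y - x) * y * (K10 - K30)) = u ^ 2 * A2)
    (hA1 : 0 ≤ A1) (hA2 : 0 ≤ A2) (hr : 0 ≤ ρ0) (ew : wd = y * (R + β * P) - x * R)
    (tN : 0 < -wd ∨ 0 < N1 ∨ 0 < u ^ 2 * (A1 * ρ0) + β * N1)
    (tM : 0 < wd ∨ 0 < M1 ∨ 0 < u ^ 2 * (A2 * ((1 - y) * ρ0)) + β * M1)
    (t1 : tau (h0 * y) = h0 * τ1) (t3 : tau (h0 * y + (h0 + h0 * β)) = h0 * τ3) :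
    NGV κ (h0 * x) (E0 + β * E1) (h0 * y) (h0 + h0 * β) (K1 * τ1, -ρ, K3 * τ3) := by
  have hp := h0_pos
  have hh : h0 ≠ 0 := hp.ne'
  have k := ngvA_nonneg_jet2 (κ := κ) (x := x) (e := e) (y := y) (β := β) (K1 := K1) (K30 := K30)
    (K10 := K10) (K11 := K11) (K31 := K31) (ρ0 := ρ0) (ρ1 := ρ1) (E0 := E0) (E1 := E1) (k1 := K1 / h0) (k3 := K3 / h0)
    hx0 hx1 hκ hβ hβ1 hyβ hy0 (mul_div_cancel₀ _ hh) (by rw [mul_div_cancel₀ _ hh, eK]) eK eK1 eρ eP eR1 eR eQ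
    eP0 eP1 eQ1 hP hQ
    (fun hw => by
      rw [← eN]
      exact test_pos eJ.1 hA1 hr hβ (by rw [ew]; linarith) tN)
    (fun hw => by
      rw [← eM]
      exact test_pos (wd := -wd) eJ.2 hA2 (mul_nonneg (by linarith) hr) hβ (by rw [ew]; linarith)
        (by rwa [neg_neg]))
  rw [t1, t3, ← eρ] at k
  have e1 : K1 / h0 * (h0 * τ1) = K1 * τ1 := by field_simp
  have e3 : K3 / h0 * (h0 * τ3) = K3 * τ3 := by field_simp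
  rw [e1, e3] at k
  exact k

theorem chA_neg (hx0 : 0 < x) (hx1 : x < 1) (hκ : κ * h0 * (x * (1 - x)) = 2 * e)
    (hβ : β < 0) (hβ1 : -(1 / 2) ≤ β) (hyβ : 0 < y + β) (hy1 : y < 1)
    (eK : K3 = K30 + β * K31) (eK1 : K1 = K10 + β * K11) (eρ : ρ = ρ0 + β * ρ1)
    (eP : P = ρ + (1 - y) * K1 - (1 - y - β) * K3)
    (eR1 : R1 = ρ1 + (1 - y) * K1 + (y + β) * K3 + ρ)
    (eR : R = ρ0 + β * R1) (eQ : Q = R - (y + β) * P)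
    (eP0 : P0 = ρ0 + (1 - y) * (K10 - K30)) (eP1 : P1 = ρ1 + K3 - (1 - y) * K31 + (1 - y) * K11)
    (eQ1 : Q1 = R1 - y * P1 - P) (hP : 0 < P) (hQ : 0 < Q)
    (eN : N1 = mol x e β ρ0 (R1 - P) (y * P0 + (1 - y) * ρ0)
      (y * P1 + (1 + y + β) * P + (1 - y) * R1 - R) P0 P1 ρ0 R1 E0 E1)
    (eM : M1 = mol (1 - x) e β ((1 - y) * ρ0) ((1 - y) * R1 - Q) (ρ0 - y * P0 + y * ρ0)
      (Q1 + Q + y * R1) (ρ0 - y * P0) Q1 ρ0 R1 E0 E1)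
    (eJ : (1 - x) * (E0 - e * ρ0) - e * ((y - x) * (1 - y) * (K10 - K30)) = u ^ 2 * A1 ∧
      x * (E0 - e * ρ0) - e * ((y - x) * y * (K10 - K30)) = u ^ 2 * A2)
    (hA1 : 0 ≤ A1) (hA2 : 0 ≤ A2) (hr : 0 ≤ ρ0) (ew : wd = (y + β) * (R - β * P) - x * R)
    (tN : 0 < -wd ∨ 0 < -N1 ∨ 0 < u ^ 2 * (A1 * ρ0) + β * N1)
    (tM : 0 < wd ∨ 0 < -M1 ∨ 0 < u ^ 2 * (A2 * ((1 - y) * ρ0)) + β * M1)
    (t1 : tau (h0 * y) = h0 * τ1) (t3 : tau (h0 * y + (h0 + h0 * β)) = h0 * τ3) :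
    NGV κ (h0 * x) (E0 + β * E1) (h0 * y) (h0 + h0 * β) (K1 * τ1, -ρ, K3 * τ3) := by
  have hp := h0_pos
  have hh : h0 ≠ 0 := hp.ne'
  have k := ngvA_neg_jet2 (κ := κ) (x := x) (e := e) (y := y) (β := β) (K1 := K1) (K30 := K30)
    (K10 := K10) (K11 := K11) (K31 := K31) (ρ0 := ρ0) (ρ1 := ρ1) (E0 := E0) (E1 := E1) (k1 := K1 / h0) (k3 := K3 / h0)
    hx0 hx1 hκ hβ hβ1 hyβ hy1 (mul_div_cancel₀ _ hh) (by rw [mul_div_cancel₀ _ hh, eK]) eK eK1 eρ eP eR1 eR eQ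
    eP0 eP1 eQ1 hP hQ
    (fun hw => by
      rw [← eN]
      exact test_neg eJ.1 hA1 hr hβ.le (by rw [ew]; linarith) tN)
    (fun hw => by
      rw [← eM]
      exact test_neg (wd := -wd) eJ.2 hA2 (mul_nonneg (by linarith) hr) hβ.le (by rw [ew]; linarith)
        (by rwa [neg_neg]))
  rw [t1, t3, ← eρ] at k
  have e1 : K1 / h0 * (h0 * τ1) = K1 * τ1 := by field_simp
  have e3 : K3 / h0 * (h0 * τ3) = K3 * τ3 := by field_simp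
  rw [e1, e3] at k
  exact k

theorem chB_nonneg (hx0 : 0 < x) (hx1 : x < 1) (hκ : κ * h0 * (x * (1 - x)) = 2 * e)
    (hβ : 0 ≤ β) (hβ1 : β < 1 / 2) (hyβ : 0 < y - β) (hy1 : y < 1)
    (eK : K3 = K30 + β * K31) (eK1 : K1 = K10 + β * K11) (eρ : ρ = ρ0 + β * ρ1)
    (eP : P = ρ - (1 - y) * K1 + (1 - y + β) * K3)
    (eR1 : R1 = ρ1 + (1 - y) * K1 + (y - β) * K3 - ρ)
    (eR : R = ρ0 + β * R1) (eQ : Q = R - (y - β) * P)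
    (eP0 : P0 = ρ0 + (1 - y) * (K30 - K10)) (eP1 : P1 = ρ1 + (1 - y) * K31 + K3 - (1 - y) * K11)
    (eQ1 : Q1 = R1 - y * P1 + P) (hP : 0 < P) (hQ : 0 < Q)
    (eN : N1 = mol x e β ρ0 (R1 + P) (y * P0 + (1 - y) * ρ0)
      (y * P1 - (1 + y - β) * P + (1 - y) * R1 + R) P0 P1 ρ0 R1 E0 E1)
    (eM : M1 = mol (1 - x) e β ((1 - y) * ρ0) ((1 - y) * R1 + Q) (ρ0 - y * P0 + y * ρ0)
      (Q1 - Q + y * R1) (ρ0 - y * P0) Q1 ρ0 R1 E0 E1)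
    (eJ : (1 - x) * (E0 - e * ρ0) - e * ((y - x) * (1 - y) * (K30 - K10)) = u ^ 2 * A1 ∧
      x * (E0 - e * ρ0) - e * ((y - x) * y * (K30 - K10)) = u ^ 2 * A2)
    (hA1 : 0 ≤ A1) (hA2 : 0 ≤ A2) (hr : 0 ≤ ρ0) (ew : wd = (y - β) * (R + β * P) - x * R)
    (tN : 0 < -wd ∨ 0 < N1 ∨ 0 < u ^ 2 * (A1 * ρ0) + β * N1)
    (tM : 0 < wd ∨ 0 < M1 ∨ 0 < u ^ 2 * (A2 * ((1 - y) * ρ0)) + β * M1)
    (t1 : tau (h0 * y) = h0 * τ1) (t3 : tau (h0 + h0 * β - h0 * y) = h0 * τ3) :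
    NGV κ (h0 * x) (E0 + β * E1) (h0 * y) (h0 + h0 * β - h0 * y) (K1 * τ1, K3 * τ3, -ρ) := by
  have hp := h0_pos
  have hh : h0 ≠ 0 := hp.ne'
  have k := ngvB_nonneg_jet2 (κ := κ) (x := x) (e := e) (y := y) (β := β) (K1 := K1) (K30 := K30)
    (K10 := K10) (K11 := K11) (K31 := K31) (ρ0 := ρ0) (ρ1 := ρ1) (E0 := E0) (E1 := E1) (k1 := K1 / h0) (k3 := K3 / h0)
    hx0 hx1 hκ hβ hβ1 hyβ hy1 (mul_div_cancel₀ _ hh) (by rw [mul_div_cancel₀ _ hh, eK]) eK eK1 eρ eP eR1 eR eQ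
    eP0 eP1 eQ1 hP hQ
    (fun hw => by
      rw [← eN]
      exact test_pos eJ.1 hA1 hr hβ (by rw [ew]; linarith) tN)
    (fun hw => by
      rw [← eM]
      exact test_pos (wd := -wd) eJ.2 hA2 (mul_nonneg (by linarith) hr) hβ (by rw [ew]; linarith)
        (by rwa [neg_neg]))
  rw [t1, t3, ← eρ] at k
  have e1 : K1 / h0 * (h0 * τ1) = K1 * τ1 := by field_simp
  have e3 : K3 / h0 * (h0 * τ3) = K3 * τ3 := by field_simp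
  rw [e1, e3] at k
  exact k

theorem chB_neg (hx0 : 0 < x) (hx1 : x < 1) (hκ : κ * h0 * (x * (1 - x)) = 2 * e)
    (hβ : β < 0) (hβ1 : -(1 / 2) ≤ β) (hyβ : y < 1 + β) (hy0 : 0 < y) (hy1 : y < 1)
    (eK : K3 = K30 + β * K31) (eK1 : K1 = K10 + β * K11) (eρ : ρ = ρ0 + β * ρ1)
    (eP : P = ρ - (1 - y) * K1 + (1 - y + β) * K3)
    (eR1 : R1 = ρ1 + y * K1 + (1 - y + β) * K3 + ρ)
    (eR : R = ρ0 + β * R1) (eQ : Q = R - y * P)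
    (eP0 : P0 = ρ0 + (1 - y) * (K30 - K10)) (eP1 : P1 = ρ1 + (1 - y) * K31 + K3 - (1 - y) * K11)
    (eQ1 : Q1 = R1 - y * P1) (hP : 0 < P) (hQ : 0 < Q)
    (eN : N1 = mol x e β ρ0 (R1 - P) (y * P0 + (1 - y) * ρ0)
      (y * (P1 + P) + (1 - y) * R1) P0 P1 ρ0 R1 E0 E1)
    (eM : M1 = mol (1 - x) e β ((1 - y) * ρ0) ((1 - y) * R1 + R - Q) (ρ0 - y * P0 + y * ρ0)
      (Q1 + Q + y * R1 - R) (ρ0 - y * P0) Q1 ρ0 R1 E0 E1)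
    (eJ : (1 - x) * (E0 - e * ρ0) - e * ((y - x) * (1 - y) * (K30 - K10)) = u ^ 2 * A1 ∧
      x * (E0 - e * ρ0) - e * ((y - x) * y * (K30 - K10)) = u ^ 2 * A2)
    (hA1 : 0 ≤ A1) (hA2 : 0 ≤ A2) (hr : 0 ≤ ρ0) (ew : wd = y * (R - β * P) - x * R)
    (tN : 0 < -wd ∨ 0 < -N1 ∨ 0 < u ^ 2 * (A1 * ρ0) + β * N1)
    (tM : 0 < wd ∨ 0 < -M1 ∨ 0 < u ^ 2 * (A2 * ((1 - y) * ρ0)) + β * M1)
    (t1 : tau (h0 * y) = h0 * τ1) (t3 : tau (h0 + h0 * β - h0 * y) = h0 * τ3) :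
    NGV κ (h0 * x) (E0 + β * E1) (h0 * y) (h0 + h0 * β - h0 * y) (K1 * τ1, K3 * τ3, -ρ) := by
  have hp := h0_pos
  have hh : h0 ≠ 0 := hp.ne'
  have k := ngvB_neg_jet2 (κ := κ) (x := x) (e := e) (y := y) (β := β) (K1 := K1) (K30 := K30)
    (K10 := K10) (K11 := K11) (K31 := K31) (ρ0 := ρ0) (ρ1 := ρ1) (E0 := E0) (E1 := E1) (k1 := K1 / h0) (k3 := K3 / h0)
    hx0 hx1 hκ hβ hβ1 hyβ hy0 (mul_div_cancel₀ _ hh) (by rw [mul_div_cancel₀ _ hh, eK]) eK eK1 eρ eP eR1 eR eQ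
    eP0 eP1 eQ1 hP hQ
    (fun hw => by
      rw [← eN]
      exact test_neg eJ.1 hA1 hr hβ.le (by rw [ew]; linarith) tN)
    (fun hw => by
      rw [← eM]
      exact test_neg (wd := -wd) eJ.2 hA2 (mul_nonneg (by linarith) hr) hβ.le (by rw [ew]; linarith)
        (by rwa [neg_neg]))
  rw [t1, t3, ← eρ] at k
  have e1 : K1 / h0 * (h0 * τ1) = K1 * τ1 := by field_simp
  have e3 : K3 / h0 * (h0 * τ3) = K3 * τ3 := by field_simp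
  rw [e1, e3] at k
  exact k

end Pool.Agent.Strip051.LC
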