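import Pool.Agent.Strip051.LC.Exact.MolK
import Pool.Agent.Strip051.LC.Exact.Mol2

/-! # The tight triangles: functions of the tables and domains

`MolR` lists the functions of the tables which enter the charts; the third side lies in one fixed
quarter. -/

namespace Pool.Agent.Strip051.LC

/-- The functions of the tables: the curves left and right of the steep curve, the signed distance
of the third height from the next integer and its inverse, the three tables on the left curve, the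
correction of the kernel and its difference quotient, the slopes of the level table at the two ends,
the second kernel at the steep unit edge below and above height one, the two constants of the tent.
-/
structure MolR where
  (c0 c1 ta it h1 h2 : ℝ → ℝ)
  (B X D kc tL tR sb sc : ℝ → ℝ → ℝ)
  (kd : ℝ → ℝ → ℝ → ℝ)

/-- The domain of the charts of the family `A`. -/
structure DomA (u b x : ℝ) : Prop where
  x0 : 0 < x
  x1 : x < 1
  y0 : 0 < x + u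
  y1 : x + u < 1
  p0 : 0 < x + u + b
  p1 : x + u + b < 1
  b0 : -(1 / 8) ≤ b
  b1 : b ≤ 1 / 8

/-- The domain of the charts of the family `B`. -/
structure DomB (u b x : ℝ) : Prop where
  x0 : 0 < x
  x1 : x < 1
  y0 : 0 < x + u
  y1 : x + u < 1
  p0 : 0 < x + u - b
  p1 : x + u - b < 1
  b0 : -(1 / 8) ≤ b
  b1 : b ≤ 1 / 8

variable {y : ℝ}

theorem cn_sq (h0 : 0 < y) (h1 : y < 1) : √(1 - 3 / 4 * y ^ 2) ^ 2 = 1 - 3 / 4 * y ^ 2 :=
  Real.sq_sqrt (by nlinarith)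

theorem cn_pos (h0 : 0 < y) (h1 : y < 1) : 0 < √(1 - 3 / 4 * y ^ 2) :=
  Real.sqrt_pos.2 (by nlinarith)

theorem cn_e (h0 : 0 < y) (h1 : y < 1) : 0 < y * (1 / 2) + √(1 - 3 / 4 * y ^ 2) - 1 := by
  have h2 := cn_sq h0 h1
  have h3 := cn_pos h0 h1
  by_contra h
  have h4 : √(1 - 3 / 4 * y ^ 2) ≤ 1 - y * (1 / 2) := by linarith
  nlinarith

theorem cw_sq {b : ℝ} (h0 : -(1 / 8) ≤ b) (h1 : b ≤ 1 / 8) :
    √(1 - 3 / 4 * (1 + b) ^ 2) ^ 2 = 1 - 3 / 4 * (1 + b) ^ 2 :=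
  Real.sq_sqrt (by nlinarith)

/-- **The value at height one** with all terms: the difference of the two sides of the
inequalities is `u ^ 2` times a function without zeros. -/
theorem mol_val {x y cx cy e ey μ m δ r0 E0 Δ a b k F1 F2 A1 A2 G D Rx Ry lam ν : ℝ}
    (hx0 : 0 < x) (hx1 : x < 1) (hy0 : 0 < y) (hy1 : y < 1)
    (hcx : 0 < cx) (hcy : 0 < cy) (h1 : cx ^ 2 = 1 - 3 / 4 * x ^ 2)
    (h2 : cy ^ 2 = 1 - 3 / 4 * y ^ 2) (ha : a = mA x cx) (hb : b = mA y cy)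
    (he : e = x / 2 + cx - 1) (hey : ey = y / 2 + cy - 1)
    (hRx : Rx = 3 / 4 * x + 3 / 2 * (1 - cx)) (hRy : Ry = 3 / 4 * y + 3 / 2 * (1 - cy))
    (hG : G = (1 / 2 - 3 / 4 * (y / cy)) / ey) (hD : D = 3 / 4 + 9 / 8 * (y / cy))
    (hm : m = 1 + μ * Rx) (hF1 : F1 = mF1 a b m μ δ) (hF2 : F2 = mF2 a b m μ δ)
    (hk : k = e * ey * ((3 + a ^ 2) * (3 + b ^ 2)) / ((3 - b ^ 2) * (3 - a * b) ^ 2))
    (hA1 : A1 = k * F1 / (64 * (a * b ^ 2)) - (1 - x) * lam)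
    (hA2 : A2 = k * F2 / (32 * ((1 - b) ^ 2 * (1 - a))) - x * lam)
    (hρ : r0 = m / 2 - ν)
    (hE0 : E0 = (ey * (1 + μ * Ry) - 2 * μ * (ey * δ) * (y - x)) / 2 - (y - x) ^ 2 * lam - e * ν)
    (hΔ : Δ = (m * G + μ * (D - 2 * δ)) / 2) :
    (1 - x) * (E0 - e * r0) - e * ((y - x) * (1 - y) * Δ) = (y - x) ^ 2 * A1 ∧
      x * (E0 - e * r0) - e * ((y - x) * y * Δ) = (y - x) ^ 2 * A2 := by
  obtain ⟨p0, p1, a1, a2, a3, -, -⟩ := mol_par' hx0 hx1 hcx h1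
  obtain ⟨q0, q1, b1, b2, b3, b4, b5⟩ := mol_par' hy0 hy1 hcy h2
  rw [← ha] at p0 p1 a1 a2 a3
  rw [← hb] at q0 q1 b1 b2 b3 b4 b5
  have k1 := mol_K1 (μ := μ) (δ := δ) p0 p1 q0 q1
  have k2 := mol_K2 (μ := μ) (δ := δ) p0 p1 q0 q1
  rw [a1, a2, a3, b1, b2, b3, b4, b5, ← he, ← hRx, ← hRy, ← hey, ← hG, ← hD, ← hm, ← hF1] at k1
  rw [a1, a2, a3, b1, b2, b3, b4, b5, ← he, ← hRx, ← hRy, ← hey, ← hG, ← hD, ← hm, ← hF2] at k2
  have h3 : 3 - b ^ 2 ≠ 0 := by nlinarith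
  have h4 : 3 + a ^ 2 ≠ 0 := by positivity
  have h5 : 3 + b ^ 2 ≠ 0 := by positivity
  have h6 : 3 - a * b ≠ 0 := by nlinarith
  have h7 : 1 - a ≠ 0 := by linarith
  have h8 : 1 - b ≠ 0 := by linarith
  have h9 : a ≠ 0 := p0.ne'
  have h10 : b ≠ 0 := q0.ne'
  have hyx : y - x = 4 * (b - a) * (3 - a * b) / ((3 + a ^ 2) * (3 + b ^ 2)) := by
    rw [← a1, ← b1]
    unfold mY
    field_simp
    ring
  obtain ⟨T, hT⟩ : ∃ T, T = 3 - a * b := ⟨_, rfl⟩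
  obtain ⟨P, hP⟩ : ∃ P, P = 3 + a ^ 2 := ⟨_, rfl⟩
  obtain ⟨Q, hQ⟩ : ∃ Q, Q = 3 + b ^ 2 := ⟨_, rfl⟩
  obtain ⟨R, hR⟩ : ∃ R, R = 3 - b ^ 2 := ⟨_, rfl⟩
  rw [← hT, ← hP, ← hQ] at hyx
  rw [← hP, ← hQ, ← hR, ← hT] at hk
  rw [← hP, ← hQ, ← hR] at k1 k2
  rw [← hT] at h6
  rw [← hR] at h3
  rw [← hP] at h4
  rw [← hQ] at h5
  have s1 : e * ey * (b - a) ^ 2 * F1 / (4 * a * b ^ 2 * R * P * Q) =
      (y - x) ^ 2 * (k * F1 / (64 * (a * b ^ 2))) := by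
    rw [hyx, hk]
    field_simp
    ring
  have s2 : e * ey * (b - a) ^ 2 * F2 /
      (2 * (1 - b) ^ 2 * (1 - a) * R * P * Q) =
      (y - x) ^ 2 * (k * F2 / (32 * ((1 - b) ^ 2 * (1 - a)))) := by
    rw [hyx, hk]
    field_simp
    ring
  rw [s1] at k1
  rw [s2] at k2
  rw [hA1, hA2, hρ, hE0, hΔ]
  constructor
  · linear_combination k1
  · linear_combination k2

end Pool.Agent.Strip051.LC
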