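import Mathlib.Analysis.SpecialFunctions.Sqrt
import Mathlib.Tactic.FieldSimp
import Mathlib.Tactic.Linarith
import Mathlib.Tactic.Positivity

/-! # The tight triangles: the value at height one

Normalised coordinates: `y` is the height divided by `h0`, `c ^ 2 = 1 - 3 / 4 y ^ 2`, `e = y / 2 +
c - 1`.  The two inequalities hold for all heights, because `(1 - y) / e` and `y / e` are convex
functions of the height.  With `μ = 0` this is the far vertex. -/

namespace Pool.Agent.Strip051.LC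

/-- The height, the excess, its logarithmic derivative, the ratio `q / e` and its derivative as
functions of the parameter. -/
noncomputable def mY (a : ℝ) : ℝ := 4 * a / (3 + a ^ 2)

noncomputable def mE (a : ℝ) : ℝ := 2 * a * (1 - a) / (3 + a ^ 2)

noncomputable def mG (a : ℝ) : ℝ :=
  (3 - 6 * a - a ^ 2) * (3 + a ^ 2) / (4 * a * (1 - a) * (3 - a ^ 2))

noncomputable def mR (a : ℝ) : ℝ := 3 * a * (1 + a) / (3 + a ^ 2)

noncomputable def mD (a : ℝ) : ℝ := 3 * (3 + 6 * a - a ^ 2) / (4 * (3 - a ^ 2))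

variable {a b μ : ℝ}

theorem mol_j1 (ha : 0 < a) (ha1 : a < 1) (hb : 0 < b) (hb1 : b < 1) :
    (1 - mY a) * (mE b - mE a) - (mY b - mY a) * (1 - mY b) * (mE a * mG b) =
      mE a * mE b * (9 * (b - a) ^ 2 * (3 - b ^ 2 - 2 * a * b) /
        (2 * a * b ^ 2 * (3 - b ^ 2) * (3 + a ^ 2))) := by
  have h1 : 1 - a ≠ 0 := by linarith
  have h2 : 1 - b ≠ 0 := by linarith
  have h3 : 3 - b ^ 2 ≠ 0 := by nlinarith
  have h4 : 3 + a ^ 2 ≠ 0 := by positivity
  have h5 : 3 + b ^ 2 ≠ 0 := by positivity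
  unfold mY mE mG
  field_simp
  ring

theorem mol_j2 (ha : 0 < a) (ha1 : a < 1) (hb : 0 < b) (hb1 : b < 1) :
    mY a * (mE b - mE a) - (mY b - mY a) * mY b * (mE a * mG b) =
      mE a * mE b * (2 * (b - a) ^ 2 * (9 + 6 * b + 3 * a - a * b ^ 2 - 3 * b ^ 2 - 6 * a * b) /
        ((1 - b) ^ 2 * (1 - a) * (3 - b ^ 2) * (3 + a ^ 2))) := by
  have h1 : 1 - a ≠ 0 := by linarith
  have h2 : 1 - b ≠ 0 := by linarith
  have h3 : 3 - b ^ 2 ≠ 0 := by nlinarith
  have h4 : 3 + a ^ 2 ≠ 0 := by positivity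
  have h5 : 3 + b ^ 2 ≠ 0 := by positivity
  unfold mY mE mG
  field_simp
  ring

theorem mol_b1 (ha : 0 < a) (ha1 : a < 1) (hb : 0 < b) (hb1 : b < 1) :
    (1 - mY a) * mE b * (mR b - mR a) - (mY b - mY a) * (1 - mY b) * (mE a * mD b) =
      mE a * mE b * (3 * (b - a) ^ 2 *
        (27 + 27 * b - 9 * b ^ 2 - 9 * b ^ 3 - 18 * a * b ^ 2 + 6 * a * b ^ 3) /
        (2 * a * b * (3 - b ^ 2) * (3 + a ^ 2) * (3 + b ^ 2))) := by
  have h1 : 1 - a ≠ 0 := by linarith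
  have h2 : 1 - b ≠ 0 := by linarith
  have h3 : 3 - b ^ 2 ≠ 0 := by nlinarith
  have h4 : 3 + a ^ 2 ≠ 0 := by positivity
  have h5 : 3 + b ^ 2 ≠ 0 := by positivity
  unfold mY mE mR mD
  field_simp
  ring

theorem mol_b2 (ha : 0 < a) (ha1 : a < 1) (hb : 0 < b) (hb1 : b < 1) :
    mY a * mE b * (mR b - mR a) - (mY b - mY a) * mY b * (mE a * mD b) =
      -(mE a * mE b * (6 * (b - a) ^ 2 *
        (18 + 9 * b - 3 * a * b - 3 * b ^ 3 - 6 * a * b ^ 2 + a * b ^ 3) /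
        ((1 - a) * (1 - b) * (3 - b ^ 2) * (3 + a ^ 2) * (3 + b ^ 2)))) := by
  have h1 : 1 - a ≠ 0 := by linarith
  have h2 : 1 - b ≠ 0 := by linarith
  have h3 : 3 - b ^ 2 ≠ 0 := by nlinarith
  have h4 : 3 + a ^ 2 ≠ 0 := by positivity
  have h5 : 3 + b ^ 2 ≠ 0 := by positivity
  unfold mY mE mR mD
  field_simp
  ring

theorem mE_pos (ha : 0 < a) (ha1 : a < 1) : 0 < mE a := by
  have : 0 < 1 - a := by linarith
  unfold mE
  positivity

/-- **The first inequality**, both vertices. -/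
theorem mol_J1 (ha : 0 < a) (ha1 : a < 1) (hb : 0 < b) (hb1 : b < 1) (hμ : 0 ≤ μ) :
    mE a * ((mY b - mY a) * (1 - mY b) * (((1 + μ * mR a) * mG b + μ * mD b) / 2)) ≤
      (1 - mY a) * (mE b * (1 + μ * mR b) / 2 - mE a * ((1 + μ * mR a) / 2)) := by
  have e1 := mol_j1 ha ha1 hb hb1
  have e2 := mol_b1 ha ha1 hb hb1
  have p1 := mE_pos ha ha1
  have p2 := mE_pos hb hb1
  have h3 : 0 < 3 - b ^ 2 := by nlinarith
  have h4 : 0 ≤ 3 - b ^ 2 - 2 * a * b := by nlinarith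
  have h5 : 0 ≤ 27 + 27 * b - 9 * b ^ 2 - 9 * b ^ 3 - 18 * a * b ^ 2 + 6 * a * b ^ 3 := by
    have k1 : b ^ 2 ≤ b := by nlinarith
    have k2 : b ^ 3 ≤ b := by nlinarith
    have k3 : a * b ^ 2 ≤ b ^ 2 := by nlinarith [sq_nonneg b]
    have k4 : 0 ≤ a * b ^ 3 := by positivity
    linarith
  have h6 : 0 ≤ mR a := by
    unfold mR
    positivity
  have k1 : 0 ≤ (1 - mY a) * (mE b - mE a) - (mY b - mY a) * (1 - mY b) * (mE a * mG b) := by
    rw [e1]
    positivity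
  have k2 : 0 ≤ (1 - mY a) * mE b * (mR b - mR a) -
      (mY b - mY a) * (1 - mY b) * (mE a * mD b) := by
    rw [e2]
    positivity
  have k3 : 0 ≤ (1 + μ * mR a) * ((1 - mY a) * (mE b - mE a) -
      (mY b - mY a) * (1 - mY b) * (mE a * mG b)) := mul_nonneg (by positivity) k1
  have k4 := mul_nonneg hμ k2
  nlinarith only [k3, k4]

/-- **The second inequality**, both vertices. -/
theorem mol_J2 (ha : 0 < a) (ha1 : a < 1) (hb : 0 < b) (hb1 : b < 1) (hμ : 0 ≤ μ)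
    (hμ1 : μ ≤ 1 / 4) :
    mE a * ((mY b - mY a) * mY b * (((1 + μ * mR a) * mG b + μ * mD b) / 2)) ≤
      mY a * (mE b * (1 + μ * mR b) / 2 - mE a * ((1 + μ * mR a) / 2)) := by
  have e1 := mol_j2 ha ha1 hb hb1
  have e2 := mol_b2 ha ha1 hb hb1
  have p1 := mE_pos ha ha1
  have p2 := mE_pos hb hb1
  have h1 : 0 < 1 - a := by linarith
  have h2 : 0 < 1 - b := by linarith
  have h3 : 0 < 3 - b ^ 2 := by nlinarith
  have h6 : 0 ≤ mR a := by
    unfold mR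
    positivity
  set A := 9 + 6 * b + 3 * a - a * b ^ 2 - 3 * b ^ 2 - 6 * a * b with hA
  set B := 18 + 9 * b - 3 * a * b - 3 * b ^ 3 - 6 * a * b ^ 2 + a * b ^ 3 with hB
  have hab : a * b ≤ b := by nlinarith
  have hab0 : 0 ≤ a * b := by positivity
  have hb2 : b ^ 2 ≤ b := by nlinarith
  have hab2 : a * b ^ 2 ≤ a * b := by nlinarith
  have hA1 : 8 ≤ A := by
    rw [hA]
    nlinarith [mul_pos h1 h2]
  have hB1 : B ≤ 18 + 9 * b := by
    have : a * b ^ 3 ≤ 6 * a * b ^ 2 := by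
      have : 0 ≤ a * b ^ 2 := by positivity
      nlinarith
    have : 0 ≤ b ^ 3 := by positivity
    rw [hB]
    nlinarith
  have hC : 0 ≤ (1 + μ * mR a) * (2 * A * (3 + b ^ 2)) - 6 * μ * B * (1 - b) := by
    have k0 : 0 ≤ μ * mR a := by positivity
    have k1 : 48 ≤ 2 * A * (3 + b ^ 2) := by nlinarith [sq_nonneg b]
    have k3 : 6 * μ * B ≤ 6 * μ * (18 + 9 * b) :=
      mul_le_mul_of_nonneg_left hB1 (by positivity)
    have k4 : 6 * μ * (18 + 9 * b) ≤ 6 * (1 / 4) * (18 + 9 * b) :=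
      mul_le_mul_of_nonneg_right (by linarith) (by positivity)
    have k5 : 6 * μ * B * (1 - b) ≤ 6 * (1 / 4) * (18 + 9 * b) * (1 - b) :=
      mul_le_mul_of_nonneg_right (k3.trans k4) h2.le
    have k6 : 6 * (1 / 4) * (18 + 9 * b) * (1 - b) ≤ 27 := by nlinarith
    have k7 : 0 ≤ μ * mR a * (2 * A * (3 + b ^ 2)) := by
      have : 0 ≤ A := by linarith
      positivity
    nlinarith only [k1, k5, k6, k7]
  have key : (1 + μ * mR a) * (mY a * (mE b - mE a) - (mY b - mY a) * mY b * (mE a * mG b)) +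
      μ * (mY a * mE b * (mR b - mR a) - (mY b - mY a) * mY b * (mE a * mD b)) =
      mE a * mE b * (b - a) ^ 2 *
        ((1 + μ * mR a) * (2 * A * (3 + b ^ 2)) - 6 * μ * B * (1 - b)) /
          ((1 - a) * (1 - b) ^ 2 * (3 - b ^ 2) * (3 + a ^ 2) * (3 + b ^ 2)) := by
    rw [e1, e2]
    have := h1.ne'
    have := h2.ne'
    have := h3.ne'
    field_simp
    ring
  have k8 : 0 ≤ (1 + μ * mR a) * (mY a * (mE b - mE a) -
      (mY b - mY a) * mY b * (mE a * mG b)) +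
      μ * (mY a * mE b * (mR b - mR a) - (mY b - mY a) * mY b * (mE a * mD b)) := by
    rw [key]
    positivity
  nlinarith only [k8]

/-! ### In terms of the height -/

variable {x y c cx cy : ℝ}

theorem mol_par (hy0 : 0 < y) (hy1 : y < 1) (hc : 0 < c) (h : c ^ 2 = 1 - 3 / 4 * y ^ 2) :
    ∃ a, 0 < a ∧ a < 1 ∧ mY a = y ∧ mE a = y / 2 + c - 1 ∧
      mR a = 3 / 4 * y + 3 / 2 * (1 - c) ∧
      mG a = (1 / 2 - 3 / 4 * (y / c)) / (y / 2 + c - 1) ∧ mD a = 3 / 4 + 9 / 8 * (y / c) := by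
  have hc1 : 1 / 2 < c := by nlinarith
  have hc2 : c < 1 := by nlinarith
  have h1 : 0 < 1 + c := by linarith
  have ey : y ^ 2 = 4 / 3 * (1 - c) * (1 + c) := by linear_combination (4 / 3) * h
  obtain ⟨a, hadef⟩ : ∃ a, a = 3 * y / (2 * (1 + c)) := ⟨_, rfl⟩
  have ha : 0 < a := by
    rw [hadef]
    positivity
  have ea : a * (1 + c) = 3 / 2 * y := by
    rw [hadef]
    field_simp
  have ea2 : a ^ 2 * (1 + c) = 3 * (1 - c) := by
    have : a ^ 2 * (1 + c) ^ 2 = 3 * (1 - c) * (1 + c) := by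
      linear_combination (a * (1 + c) + 3 / 2 * y) * ea + 9 / 4 * ey
    have h2 : (a ^ 2 * (1 + c) - 3 * (1 - c)) * (1 + c) = 0 := by linear_combination this
    rcases mul_eq_zero.1 h2 with h3 | h3
    · linarith
    · exact absurd h3 h1.ne'
  have ha1 : a < 1 := by
    by_contra hcon
    have : 1 ≤ a ^ 2 := by nlinarith
    nlinarith
  have k1 : (3 + a ^ 2) * (1 + c) = 6 := by linear_combination ea2
  have k2 : (3 - a ^ 2) * (1 + c) = 6 * c := by linear_combination -ea2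
  have k3 : 0 < 3 + a ^ 2 := by positivity
  have k4 : 0 < 3 - a ^ 2 := by nlinarith
  have k5 : y / c * (3 - a ^ 2) = 4 * a := by
    rw [div_mul_eq_mul_div, div_eq_iff hc.ne']
    have h2 : (y * (3 - a ^ 2) - 4 * a * c) * (1 + c) = 0 := by
      linear_combination y * k2 - 4 * c * ea
    rcases mul_eq_zero.1 h2 with h3 | h3
    · linarith
    · exact absurd h3 h1.ne'
  have e1 : mY a = y := by
    unfold mY
    rw [div_eq_iff k3.ne']
    have h2 : (4 * a - y * (3 + a ^ 2)) * (1 + c) = 0 := by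
      linear_combination 4 * ea - y * k1
    rcases mul_eq_zero.1 h2 with h3 | h3
    · linarith
    · exact absurd h3 h1.ne'
  have e2 : mE a = y / 2 + c - 1 := by
    unfold mE
    rw [div_eq_iff k3.ne']
    have h2 : (2 * a * (1 - a) - (y / 2 + c - 1) * (3 + a ^ 2)) * (1 + c) = 0 := by
      linear_combination 2 * ea - 2 * ea2 - (y / 2 + c - 1) * k1
    rcases mul_eq_zero.1 h2 with h3 | h3
    · linarith
    · exact absurd h3 h1.ne'
  have e4 : mR a = 3 / 4 * y + 3 / 2 * (1 - c) := by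
    unfold mR
    rw [div_eq_iff k3.ne']
    have h2 : (3 * a * (1 + a) - (3 / 4 * y + 3 / 2 * (1 - c)) * (3 + a ^ 2)) * (1 + c) = 0 := by
      linear_combination 3 * ea + 3 * ea2 - (3 / 4 * y + 3 / 2 * (1 - c)) * k1
    rcases mul_eq_zero.1 h2 with h3 | h3
    · linarith
    · exact absurd h3 h1.ne'
  refine ⟨a, ha, ha1, e1, e2, e4, ?_, ?_⟩
  · have e5 : mG a = ((3 - 6 * a - a ^ 2) / (2 * (3 - a ^ 2))) / mE a := by
      unfold mG mE
      have : 1 - a ≠ 0 := by linarith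
      field_simp
      ring
    rw [e5, e2]
    congr 1
    rw [div_eq_iff (by positivity)]
    linear_combination (3 / 2 : ℝ) * k5
  · unfold mD
    rw [div_eq_iff (by positivity)]
    linear_combination (-9 / 2 : ℝ) * k5

/-- **The value at height one**: both inequalities, both vertices. -/
theorem mol_J {e ρ0 E0 Δ Rx Ry G D : ℝ} (hx0 : 0 < x) (hx1 : x < 1) (hy0 : 0 < y) (hy1 : y < 1)
    (hcx : 0 < cx) (hcy : 0 < cy) (h1 : cx ^ 2 = 1 - 3 / 4 * x ^ 2)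
    (h2 : cy ^ 2 = 1 - 3 / 4 * y ^ 2) (hμ : 0 ≤ μ) (hμ1 : μ ≤ 1 / 4)
    (he : e = x / 2 + cx - 1) (hRx : Rx = 3 / 4 * x + 3 / 2 * (1 - cx))
    (hRy : Ry = 3 / 4 * y + 3 / 2 * (1 - cy))
    (hG : G = (1 / 2 - 3 / 4 * (y / cy)) / (y / 2 + cy - 1)) (hD : D = 3 / 4 + 9 / 8 * (y / cy))
    (hρ : ρ0 = (1 + μ * Rx) / 2) (hE0 : E0 = (y / 2 + cy - 1) * (1 + μ * Ry) / 2)
    (hΔ : Δ = ((1 + μ * Rx) * G + μ * D) / 2) :
    0 ≤ (1 - x) * (E0 - e * ρ0) - e * ((y - x) * (1 - y) * Δ) ∧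
      0 ≤ x * (E0 - e * ρ0) - e * ((y - x) * y * Δ) := by
  obtain ⟨a, ha, ha1, a1, a2, a3, -, -⟩ := mol_par hx0 hx1 hcx h1
  obtain ⟨b, hb, hb1, b1, b2, b3, b4, b5⟩ := mol_par hy0 hy1 hcy h2
  have k1 := mol_J1 (μ := μ) ha ha1 hb hb1 hμ
  have k2 := mol_J2 ha ha1 hb hb1 hμ hμ1
  rw [a1, a2, a3, b1, b2, b3, b4, b5, ← he, ← hRx, ← hRy, ← hG, ← hD, ← hρ, ← hE0, ← hΔ] at k1 k2
  exact ⟨by linarith, by linarith⟩

end Pool.Agent.Strip051.LC
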