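import Pool.Agent.Strip051.LC.Exact.MolJ

/-! # The tight triangles: the value at height one with a correction of the kernel

`δ` is the correction of the logarithmic derivative (times `h0`), `η` a loss which is quadratic in
the difference of the heights.  The two inequalities are reduced to the positivity of two
polynomials in the half angles. -/

namespace Pool.Agent.Strip051.LC

variable {a b μ δ : ℝ}

/-- The half angle. -/
noncomputable def mA (y c : ℝ) : ℝ := 3 / 2 * (y / (1 + c))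

/-- The polynomial of the first inequality. -/
def mF1 (a b m μ δ : ℝ) : ℝ :=
  m * (9 * (3 - b ^ 2 - 2 * a * b) * (3 + b ^ 2)) +
    μ * (3 * b * (27 + 27 * b - 9 * b ^ 2 - 9 * b ^ 3 - 18 * a * b ^ 2 + 6 * a * b ^ 3 -
      8 * δ * ((3 - a * b) * (3 - b ^ 2))))

/-- The polynomial of the second inequality. -/
def mF2 (a b m μ δ : ℝ) : ℝ :=
  m * (2 * (9 + 6 * b + 3 * a - a * b ^ 2 - 3 * b ^ 2 - 6 * a * b) * (3 + b ^ 2)) -
    μ * ((1 - b) * (6 * (18 + 9 * b - 3 * a * b - 3 * b ^ 3 - 6 * a * b ^ 2 + a * b ^ 3) -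
      16 * δ * ((3 - a * b) * (3 - b ^ 2))))

theorem mol_K1 (ha : 0 < a) (ha1 : a < 1) (hb : 0 < b) (hb1 : b < 1) :
    (1 - mY a) * ((mE b * (1 + μ * mR b) - 2 * μ * (mE b * δ) * (mY b - mY a)) / 2 -
        mE a * ((1 + μ * mR a) / 2)) -
      mE a * ((mY b - mY a) * (1 - mY b) * (((1 + μ * mR a) * mG b + μ * (mD b - 2 * δ)) / 2)) =
      mE a * mE b * (b - a) ^ 2 * mF1 a b (1 + μ * mR a) μ δ /
        (4 * a * b ^ 2 * (3 - b ^ 2) * (3 + a ^ 2) * (3 + b ^ 2)) := by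
  have h1 : 1 - a ≠ 0 := by linarith
  have h2 : 1 - b ≠ 0 := by linarith
  have h3 : 3 - b ^ 2 ≠ 0 := by nlinarith
  have h4 : 3 + a ^ 2 ≠ 0 := by positivity
  have h5 : 3 + b ^ 2 ≠ 0 := by positivity
  unfold mF1 mY mE mG mR mD
  field_simp
  ring

theorem mol_K2 (ha : 0 < a) (ha1 : a < 1) (hb : 0 < b) (hb1 : b < 1) :
    mY a * ((mE b * (1 + μ * mR b) - 2 * μ * (mE b * δ) * (mY b - mY a)) / 2 -
        mE a * ((1 + μ * mR a) / 2)) -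
      mE a * ((mY b - mY a) * mY b * (((1 + μ * mR a) * mG b + μ * (mD b - 2 * δ)) / 2)) =
      mE a * mE b * (b - a) ^ 2 * mF2 a b (1 + μ * mR a) μ δ /
        (2 * (1 - b) ^ 2 * (1 - a) * (3 - b ^ 2) * (3 + a ^ 2) * (3 + b ^ 2)) := by
  have h1 : 1 - a ≠ 0 := by linarith
  have h2 : 1 - b ≠ 0 := by linarith
  have h3 : 3 - b ^ 2 ≠ 0 := by nlinarith
  have h4 : 3 + a ^ 2 ≠ 0 := by positivity
  have h5 : 3 + b ^ 2 ≠ 0 := by positivity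
  unfold mF2 mY mE mG mR mD
  field_simp
  ring

theorem mF1_nonneg {m : ℝ} (ha : 0 < a) (ha1 : a < 1) (hb : 0 < b) (hb1 : b < 1) (hm : 1 ≤ m)
    (hμ : 0 ≤ μ) (hμ1 : μ ≤ 1 / 4) (hδ : δ ≤ 1 / 2) : 0 ≤ mF1 a b m μ δ := by
  have hab : a * b ≤ b := by nlinarith
  have hab0 : 0 < a * b := by positivity
  have hb2 : b ^ 2 ≤ b := by nlinarith
  have t1 : (1 - b) * (3 + b) ≤ 3 - b ^ 2 - 2 * a * b := by nlinarith
  have t2 : 0 ≤ (1 - b) * (3 + b) := mul_nonneg (by linarith) (by linarith)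
  have t3 : 27 * ((1 - b) * (3 + b)) ≤ 9 * (3 - b ^ 2 - 2 * a * b) * (3 + b ^ 2) := by
    nlinarith [sq_nonneg b, mul_nonneg t2 (sq_nonneg b)]
  have t4 : 27 * ((1 - b) * (3 + b)) ≤ m * (9 * (3 - b ^ 2 - 2 * a * b) * (3 + b ^ 2)) := by
    nlinarith
  have t5 : 0 ≤ (3 - a * b) * (3 - b ^ 2) := mul_nonneg (by linarith) (by linarith)
  have t6 : δ * ((3 - a * b) * (3 - b ^ 2)) ≤ 1 / 2 * ((3 - a * b) * (3 - b ^ 2)) :=
    mul_le_mul_of_nonneg_right hδ t5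
  have t7 : -9 + 27 * b + 3 * b ^ 2 - 9 * b ^ 3 + a * b * (12 - 18 * b + 2 * b ^ 2) ≤
      27 + 27 * b - 9 * b ^ 2 - 9 * b ^ 3 - 18 * a * b ^ 2 + 6 * a * b ^ 3 -
      8 * δ * ((3 - a * b) * (3 - b ^ 2)) := by nlinarith
  have t8 : -(9 - 17 * b) ≤
      -9 + 27 * b + 3 * b ^ 2 - 9 * b ^ 3 + a * b * (12 - 18 * b + 2 * b ^ 2) := by
    rcases le_total 0 (12 - 18 * b + 2 * b ^ 2) with h | h
    · have : 0 ≤ a * b * (12 - 18 * b + 2 * b ^ 2) := mul_nonneg hab0.le h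
      nlinarith [sq_nonneg b, mul_nonneg hb.le (sub_nonneg.2 hb1.le),
        mul_nonneg (mul_nonneg hb.le hb.le) (sub_nonneg.2 hb1.le)]
    · have : b * (12 - 18 * b + 2 * b ^ 2) ≤ a * b * (12 - 18 * b + 2 * b ^ 2) := by
        have := mul_le_mul_of_nonpos_right hab h
        linarith
      nlinarith [sq_nonneg b, mul_nonneg hb.le (sub_nonneg.2 hb1.le),
        mul_nonneg (mul_nonneg hb.le hb.le) (sub_nonneg.2 hb1.le)]
  set Z := 27 + 27 * b - 9 * b ^ 2 - 9 * b ^ 3 - 18 * a * b ^ 2 + 6 * a * b ^ 3 -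
      8 * δ * ((3 - a * b) * (3 - b ^ 2)) with hZ
  have t9 : -(9 - 17 * b) ≤ Z := t8.trans t7
  have hmb : 0 ≤ μ * (3 * b) := by positivity
  have t10 : μ * (3 * b) * -(9 - 17 * b) ≤ μ * (3 * b) * Z :=
    mul_le_mul_of_nonneg_left t9 hmb
  have t11 : -(27 * ((1 - b) * (3 + b))) ≤ μ * (3 * b) * -(9 - 17 * b) := by
    rcases le_total 0 (9 - 17 * b) with h | h
    · have : μ * (3 * b) * (9 - 17 * b) ≤ 1 / 4 * (3 * b) * (9 - 17 * b) :=
        mul_le_mul_of_nonneg_right (by nlinarith) (by linarith)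
      nlinarith
    · have : 0 ≤ μ * (3 * b) * (17 * b - 9) := mul_nonneg hmb (by linarith)
      nlinarith
  unfold mF1
  rw [← hZ]
  nlinarith

theorem mF2_nonneg {m : ℝ} (ha : 0 < a) (ha1 : a < 1) (hb : 0 < b) (hb1 : b < 1) (hm : 1 ≤ m)
    (hμ : 0 ≤ μ) (hμ1 : μ ≤ 1 / 4) (hδ : -(1 / 2) ≤ δ) : 0 ≤ mF2 a b m μ δ := by
  have h1 : 0 < 1 - a := by linarith
  have h2 : 0 < 1 - b := by linarith
  have hab : a * b ≤ b := by nlinarith
  have hab0 : 0 ≤ a * b := by positivity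
  have hb2 : b ^ 2 ≤ b := by nlinarith
  have hab2 : a * b ^ 2 ≤ a * b := by nlinarith
  set A := 9 + 6 * b + 3 * a - a * b ^ 2 - 3 * b ^ 2 - 6 * a * b with hA
  set B := 18 + 9 * b - 3 * a * b - 3 * b ^ 3 - 6 * a * b ^ 2 + a * b ^ 3 with hB
  have hA1 : 8 ≤ A := by
    rw [hA]
    nlinarith [mul_pos h1 h2]
  have hB1 : B ≤ 18 + 9 * b := by
    have : a * b ^ 3 ≤ 6 * a * b ^ 2 := by
      have : 0 ≤ a * b ^ 2 := by positivity
      nlinarith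
    have : 0 ≤ b ^ 3 := by positivity
    rw [hB]
    nlinarith
  have k1 : 48 ≤ 2 * A * (3 + b ^ 2) := by nlinarith [sq_nonneg b]
  have k1' : 48 ≤ m * (2 * A * (3 + b ^ 2)) := by nlinarith
  have t5 : 0 ≤ (3 - a * b) * (3 - b ^ 2) := mul_nonneg (by linarith) (by linarith)
  have t5' : (3 - a * b) * (3 - b ^ 2) ≤ 9 := by nlinarith [sq_nonneg b]
  have t6 : -(9 / 2) ≤ δ * ((3 - a * b) * (3 - b ^ 2)) := by
    have := mul_le_mul_of_nonneg_right hδ t5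
    linarith
  have k2 : (1 - b) * (6 * B - 16 * δ * ((3 - a * b) * (3 - b ^ 2))) ≤
      (1 - b) * (6 * (18 + 9 * b) + 72) :=
    mul_le_mul_of_nonneg_left (by linarith) h2.le
  have k3 : (1 - b) * (6 * (18 + 9 * b) + 72) ≤ 180 := by nlinarith
  have k4 : μ * ((1 - b) * (6 * B - 16 * δ * ((3 - a * b) * (3 - b ^ 2)))) ≤ μ * 180 :=
    mul_le_mul_of_nonneg_left (k2.trans k3) hμ
  unfold mF2
  rw [← hA, ← hB]
  linarith

variable {x y c cx cy : ℝ}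

/-- The half angle of a height. -/
theorem mol_par' (hy0 : 0 < y) (hy1 : y < 1) (hc : 0 < c) (h : c ^ 2 = 1 - 3 / 4 * y ^ 2) :
    0 < mA y c ∧ mA y c < 1 ∧ mY (mA y c) = y ∧ mE (mA y c) = y / 2 + c - 1 ∧
      mR (mA y c) = 3 / 4 * y + 3 / 2 * (1 - c) ∧
      mG (mA y c) = (1 / 2 - 3 / 4 * (y / c)) / (y / 2 + c - 1) ∧
      mD (mA y c) = 3 / 4 + 9 / 8 * (y / c) := by
  obtain ⟨a, ha, ha1, e1, e2, e3, e4, e5⟩ := mol_par hy0 hy1 hc h
  have key : mA y c = a := by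
    have h3 : 0 < 3 + a ^ 2 := by positivity
    have k1 : y * (3 + a ^ 2) = 4 * a := by
      rw [← e1]
      unfold mY
      field_simp
    have k2 : (y / 2 + c - 1) * (3 + a ^ 2) = 2 * a * (1 - a) := by
      rw [← e2]
      unfold mE
      field_simp
    have k3 : (1 + c) * (3 + a ^ 2) = 6 := by nlinarith
    have k4 : 1 + c ≠ 0 := by linarith
    unfold mA
    rw [div_eq_iff_mul_eq k4 |>.2 ?_]
    swap
    · exact (2 / 3 * a)
    · ring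
    · have : (2 / 3 * a * (1 + c) - y) * (3 + a ^ 2) = 0 := by linear_combination 2 / 3 * a * k3 - k1
      rcases mul_eq_zero.1 this with h | h
      · linarith
      · exact absurd h h3.ne'
  rw [key]
  exact ⟨ha, ha1, e1, e2, e3, e4, e5⟩

/-- **The value at height one with the correction**: both inequalities, both vertices. -/
theorem mol_Jd {e ρ0 E0 Δ Rx Ry G D : ℝ} (hx0 : 0 < x) (hx1 : x < 1) (hy0 : 0 < y) (hy1 : y < 1)
    (hcx : 0 < cx) (hcy : 0 < cy) (h1 : cx ^ 2 = 1 - 3 / 4 * x ^ 2)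
    (h2 : cy ^ 2 = 1 - 3 / 4 * y ^ 2) (hμ : 0 ≤ μ) (hμ1 : μ ≤ 1 / 4) (hδ : |δ| ≤ 1 / 2)
    (he : e = x / 2 + cx - 1) (hRx : Rx = 3 / 4 * x + 3 / 2 * (1 - cx))
    (hRy : Ry = 3 / 4 * y + 3 / 2 * (1 - cy))
    (hG : G = (1 / 2 - 3 / 4 * (y / cy)) / (y / 2 + cy - 1)) (hD : D = 3 / 4 + 9 / 8 * (y / cy))
    (hρ : ρ0 = (1 + μ * Rx) / 2)
    (hE0 : E0 = ((y / 2 + cy - 1) * (1 + μ * Ry) - 2 * μ * ((y / 2 + cy - 1) * δ) * (y - x)) / 2)
    (hΔ : Δ = ((1 + μ * Rx) * G + μ * (D - 2 * δ)) / 2) :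
    0 ≤ (1 - x) * (E0 - e * ρ0) - e * ((y - x) * (1 - y) * Δ) ∧
      0 ≤ x * (E0 - e * ρ0) - e * ((y - x) * y * Δ) := by
  obtain ⟨ha, ha1, a1, a2, a3, -, -⟩ := mol_par' hx0 hx1 hcx h1
  obtain ⟨hb, hb1, b1, b2, b3, b4, b5⟩ := mol_par' hy0 hy1 hcy h2
  have k1 := mol_K1 (μ := μ) (δ := δ) ha ha1 hb hb1
  have k2 := mol_K2 (μ := μ) (δ := δ) ha ha1 hb hb1
  have p1 := mE_pos ha ha1
  have p2 := mE_pos hb hb1
  have hm : 1 ≤ 1 + μ * mR (mA x cx) := by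
    have : 0 ≤ mR (mA x cx) := by
      unfold mR
      positivity
    nlinarith [mul_nonneg hμ this]
  have f1 := mF1_nonneg ha ha1 hb hb1 hm hμ hμ1 (abs_le.1 hδ).2
  have f2 := mF2_nonneg ha ha1 hb hb1 hm hμ hμ1 (abs_le.1 hδ).1
  have q1 : 0 < 1 - mA x cx := by linarith
  have q2 : 0 < 1 - mA y cy := by linarith
  have q3 : 0 < 3 - mA y cy ^ 2 := by nlinarith
  have l1 : 0 ≤ mE (mA x cx) * mE (mA y cy) * (mA y cy - mA x cx) ^ 2 *
      mF1 (mA x cx) (mA y cy) (1 + μ * mR (mA x cx)) μ δ /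
      (4 * mA x cx * mA y cy ^ 2 * (3 - mA y cy ^ 2) * (3 + mA x cx ^ 2) * (3 + mA y cy ^ 2)) := by
    positivity
  have l2 : 0 ≤ mE (mA x cx) * mE (mA y cy) * (mA y cy - mA x cx) ^ 2 *
      mF2 (mA x cx) (mA y cy) (1 + μ * mR (mA x cx)) μ δ /
      (2 * (1 - mA y cy) ^ 2 * (1 - mA x cx) * (3 - mA y cy ^ 2) * (3 + mA x cx ^ 2) *
        (3 + mA y cy ^ 2)) := by
    positivity
  rw [← k1, a1, a2, a3, b1, b2, b3, b4, b5, ← he, ← hRx, ← hRy, ← hG, ← hD, ← hρ, ← hE0,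
    ← hΔ] at l1
  rw [← k2, a1, a2, a3, b1, b2, b3, b4, b5, ← he, ← hRx, ← hRy, ← hG, ← hD, ← hρ, ← hE0,
    ← hΔ] at l2
  exact ⟨l1, l2⟩

end Pool.Agent.Strip051.LC
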