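import Pool.Agent.Strip051.LC.Exact.FamV

/-! # The modulus inequality near a tight triangle

Near a tight triangle two of the three nodes nearly coincide; the potential falls steeply between
them and rises on the two other arcs.  The best multiplier is then a rational function. -/

namespace Pool.Agent.Strip051.LC.Line

open Pool.Agent.StripNear Pool.Agent.StripSquare Pool.Agent.Strip051.Sweep

variable {κ s ex l1 l2 l3 W1 W2 W3 : ℝ}

theorem Mo.rot (h : Mo κ s ex l1 l2 l3 W1 W2 W3) : Mo κ s ex l2 l3 l1 W2 W3 W1 := by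
  obtain ⟨γ, hγ⟩ := h
  refine ⟨γ, ?_⟩
  linarith

theorem Mo.refl (h : Mo κ s ex l1 l2 l3 W1 W2 W3) : Mo κ s ex l2 l1 l3 W3 W2 W1 := by
  obtain ⟨γ, hγ⟩ := h
  refine ⟨γ, ?_⟩
  rw [phi_comm (W3 - γ) (W2 - γ), phi_comm (W2 - γ) (W1 - γ), phi_comm (W1 - γ) (W3 - γ)]
  linarith

/-- The level cuts the two arcs at the top. -/
theorem Mo.top (hs : 0 < s) (hl : l1 + l2 + l3 = h0)
    (hz : l1 * (W1 + W2) + l2 * (W2 + W3) + l3 * (W3 + W1) = 0) (h12 : W1 < W2) (h31 : W3 < W1)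
    (hw : s * (W2 - W3) ≤ l1 * (W2 - W3) + l2 * (W2 - W1))
    (hN : κ * s * (((h0 - l2) * (W2 - W1) + (h0 - l1) * (W2 - W3)) *
      (l1 * (W2 - W3) + l2 * (W2 - W1)) - h0 * s * ((W2 - W1) * (W2 - W3))) ≤
      2 * h0 * ex * (l1 * (W2 - W3) + l2 * (W2 - W1))) :
    Mo κ s ex l1 l2 l3 W1 W2 W3 := by
  have hp := h0_pos
  obtain ⟨p, ep⟩ : ∃ p, p = W2 - W1 := ⟨_, rfl⟩
  obtain ⟨r, er⟩ : ∃ r, r = W2 - W3 := ⟨_, rfl⟩
  rw [← ep, ← er] at hw hN
  have p0 : 0 < p := by linarith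
  have r0 : p < r := by linarith
  obtain ⟨D, hD⟩ : ∃ D, D = l1 * r + l2 * p := ⟨_, rfl⟩
  rw [← hD] at hw hN
  have hr0 : 0 < r := by linarith
  have D0 : 0 < D := lt_of_lt_of_le (mul_pos hs hr0) hw
  have e1 : W1 = W2 - p := by linarith
  have e3 : W3 = W2 - r := by linarith
  have eW : 2 * h0 * W2 = (h0 - l2) * p + (h0 - l1) * r := by
    rw [e1, e3] at hz
    rw [← hl]
    linarith
  obtain ⟨δ, hδ⟩ : ∃ δ, δ = s * (p * r) / D := ⟨_, rfl⟩
  have eδ : δ * D = s * (p * r) := by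
    rw [hδ]
    field_simp
  have δ0 : 0 ≤ δ := by
    rw [hδ]
    positivity
  have δp : δ ≤ p := by
    rw [hδ, div_le_iff₀ D0]
    nlinarith
  refine ⟨W2 - δ, ?_⟩
  have f1 : phi (W1 - (W2 - δ)) (W2 - (W2 - δ)) = δ ^ 2 / (2 * p) := by
    rw [phi_neg_pos (by linarith) (by linarith)]
    congr 2
    · ring
    · linarith
  have f2 : phi (W2 - (W2 - δ)) (W3 - (W2 - δ)) = δ ^ 2 / (2 * r) := by
    rw [phi_pos_neg (by linarith) (by linarith)]
    congr 2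
    · ring
    · linarith
  have f3 : phi (W3 - (W2 - δ)) (W1 - (W2 - δ)) = 0 :=
    phi_nonpos_nonpos (by linarith) (by linarith)
  rw [f1, f2, f3]
  have g1 : l1 * (δ ^ 2 / (2 * p)) + l2 * (δ ^ 2 / (2 * r)) = s * δ / 2 := by
    have : l1 * (δ ^ 2 / (2 * p)) + l2 * (δ ^ 2 / (2 * r)) = δ * (δ * D) / (2 * (p * r)) := by
      rw [hD]
      field_simp
    rw [this, eδ]
    field_simp
  have g2 : κ * (l1 * (δ ^ 2 / (2 * p)) + l2 * (δ ^ 2 / (2 * r)) + l3 * 0 + (W2 - δ) * s) =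
      κ * s * (W2 - δ / 2) := by
    rw [g1]
    ring
  rw [g2]
  have g3 : κ * s * (W2 - δ / 2) * (2 * h0 * D) ≤ ex * (2 * h0 * D) := by
    have : κ * s * (W2 - δ / 2) * (2 * h0 * D) =
        κ * s * ((2 * h0 * W2) * D - h0 * (δ * D)) := by ring
    rw [this, eW, eδ]
    linarith
  exact le_of_mul_le_mul_right g3 (by positivity)

/-- The level cuts the two arcs at the bottom. -/
theorem Mo.bot (hs : s < h0) (hl : l1 + l2 + l3 = h0)
    (hz : l1 * (W1 + W2) + l2 * (W2 + W3) + l3 * (W3 + W1) = 0) (h12 : W1 < W2) (h31 : W3 < W1)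
    (hw : l1 * (W2 - W3) + l2 * (W2 - W1) ≤ s * (W2 - W3))
    (hN : κ * (h0 - s) * (((h0 - l2) * (W1 - W3) + (h0 - l3) * (W2 - W3)) *
      (l3 * (W2 - W3) + l2 * (W1 - W3)) - h0 * (h0 - s) * ((W1 - W3) * (W2 - W3))) ≤
      2 * h0 * ex * (l3 * (W2 - W3) + l2 * (W1 - W3))) :
    Mo κ s ex l1 l2 l3 W1 W2 W3 := by
  have hp := h0_pos
  obtain ⟨q, eq⟩ : ∃ q, q = W1 - W3 := ⟨_, rfl⟩
  obtain ⟨r, er⟩ : ∃ r, r = W2 - W3 := ⟨_, rfl⟩
  rw [← er] at hw
  rw [← eq, ← er] at hN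
  have q0 : 0 < q := by linarith
  have r0 : q < r := by linarith
  obtain ⟨D, hD⟩ : ∃ D, D = l3 * r + l2 * q := ⟨_, rfl⟩
  rw [← hD] at hN
  have hr0 : 0 < r := by linarith
  have hs' : 0 < h0 - s := by linarith
  have hw' : (h0 - s) * r ≤ D := by
    have : W2 - W1 = r - q := by linarith
    rw [this] at hw
    rw [hD, ← hl]
    linarith
  have D0 : 0 < D := lt_of_lt_of_le (mul_pos hs' hr0) hw'
  have e1 : W1 = W3 + q := by linarith
  have e3 : W2 = W3 + r := by linarith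
  have eW : -(2 * h0 * W3) = (h0 - l2) * q + (h0 - l3) * r := by
    rw [e1, e3] at hz
    rw [← hl]
    linarith
  obtain ⟨δ, hδ⟩ : ∃ δ, δ = (h0 - s) * (q * r) / D := ⟨_, rfl⟩
  have eδ : δ * D = (h0 - s) * (q * r) := by
    rw [hδ]
    field_simp
  have δ0 : 0 ≤ δ := by
    rw [hδ]
    positivity
  have δq : δ ≤ q := by
    rw [hδ, div_le_iff₀ D0]
    nlinarith
  refine ⟨W3 + δ, ?_⟩
  have f1 : phi (W1 - (W3 + δ)) (W2 - (W3 + δ)) = (q + r) / 2 - δ := by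
    rw [phi_nonneg_nonneg (by linarith) (by linarith)]
    linarith
  have f2 : phi (W2 - (W3 + δ)) (W3 - (W3 + δ)) = (r - δ) ^ 2 / (2 * r) := by
    rw [phi_pos_neg (by linarith) (by linarith)]
    congr 2
    · linarith
    · linarith
  have f3 : phi (W3 - (W3 + δ)) (W1 - (W3 + δ)) = (q - δ) ^ 2 / (2 * q) := by
    rw [phi_neg_pos (by linarith) (by linarith)]
    congr 2
    · linarith
    · linarith
  rw [f1, f2, f3]
  have g1 : l1 * ((q + r) / 2 - δ) + l2 * ((r - δ) ^ 2 / (2 * r)) +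
      l3 * ((q - δ) ^ 2 / (2 * q)) + (W3 + δ) * s = (h0 - s) * (-W3 - δ / 2) := by
    have a1 : (r - δ) ^ 2 / (2 * r) = r / 2 - δ + δ ^ 2 / (2 * r) := by
      field_simp
      ring
    have a2 : (q - δ) ^ 2 / (2 * q) = q / 2 - δ + δ ^ 2 / (2 * q) := by
      field_simp
      ring
    have a3 : l2 * (δ ^ 2 / (2 * r)) + l3 * (δ ^ 2 / (2 * q)) = (h0 - s) * δ / 2 := by
      have : l2 * (δ ^ 2 / (2 * r)) + l3 * (δ ^ 2 / (2 * q)) = δ * (δ * D) / (2 * (q * r)) := by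
        rw [hD]
        field_simp
        ring
      rw [this, eδ]
      field_simp
    rw [a1, a2]
    have a4 : l1 = h0 - l2 - l3 := by linarith
    linear_combination a3 - (1 / 2) * eW + ((q + r) / 2 - δ) * a4
  rw [g1]
  have g3 : κ * ((h0 - s) * (-W3 - δ / 2)) * (2 * h0 * D) ≤ ex * (2 * h0 * D) := by
    have : κ * ((h0 - s) * (-W3 - δ / 2)) * (2 * h0 * D) =
        κ * (h0 - s) * ((-(2 * h0 * W3)) * D - h0 * (δ * D)) := by ring
    rw [this, eW, eδ]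
    linarith
  exact le_of_mul_le_mul_right g3 (by positivity)

/-- **The modulus inequality with a steep arc**: `W1` is the value in the middle, `W2` the top,
`W3` the bottom, the arc between top and bottom is `l2`. -/
theorem Mo.steep (hs : 0 < s) (hs1 : s < h0) (hl : l1 + l2 + l3 = h0)
    (hz : l1 * (W1 + W2) + l2 * (W2 + W3) + l3 * (W3 + W1) = 0) (h12 : W1 < W2) (h31 : W3 < W1)
    (hN : s * (W2 - W3) ≤ l1 * (W2 - W3) + l2 * (W2 - W1) →
      κ * s * (((h0 - l2) * (W2 - W1) + (h0 - l1) * (W2 - W3)) *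
      (l1 * (W2 - W3) + l2 * (W2 - W1)) - h0 * s * ((W2 - W1) * (W2 - W3))) ≤
      2 * h0 * ex * (l1 * (W2 - W3) + l2 * (W2 - W1)))
    (hM : l1 * (W2 - W3) + l2 * (W2 - W1) ≤ s * (W2 - W3) →
      κ * (h0 - s) * (((h0 - l2) * (W1 - W3) + (h0 - l3) * (W2 - W3)) *
      (l3 * (W2 - W3) + l2 * (W1 - W3)) - h0 * (h0 - s) * ((W1 - W3) * (W2 - W3))) ≤
      2 * h0 * ex * (l3 * (W2 - W3) + l2 * (W1 - W3))) :
    Mo κ s ex l1 l2 l3 W1 W2 W3 := by
  rcases le_total (s * (W2 - W3)) (l1 * (W2 - W3) + l2 * (W2 - W1)) with h | h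
  · exact Mo.top hs hl hz h12 h31 h (hN h)
  · exact Mo.bot hs1 hl hz h12 h31 h (hM h)

end Pool.Agent.Strip051.LC.Line
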