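import Pool.Agent.Strip051.LC.Exact.MolD

/-! # The tight triangles: straight line programs of the charts (generated)

The data of the tables at a point enter through the structure `MolP`. -/

set_option linter.unusedVariables false

namespace Pool.Agent.Strip051.LC.MolN

open Pool.Agent.Strip051.LC

/-- The values of the tables at a point: correction of the kernel on the tight edge and its
difference quotient, correction at the steep edge, level slope and second kernel at the steep edge,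
slopes of the kernel, the level and the second kernel on the third side to the right or left of the
steep curve, inverse signed distance of the third height from the next integer, the two constants
of the tent. -/
structure MolP where
  (dy d1 ws rs xk k2 p1 q1 l1 m1 sK sX sD it k1 k52 : ℝ)

/-- the difference of the third height from one is small -/
structure DomW (b : ℝ) : Prop where
  b0 : -(1 / 8) ≤ b
  b1 : b ≤ 1 / 8

theorem wA {u b x : ℝ} (h : DomA u b x) : DomW b := ⟨h.b0, h.b1⟩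

theorem wB {u b x : ℝ} (h : DomB u b x) : DomW b := ⟨h.b0, h.b1⟩

noncomputable def n3 (T : MolP) (u b x : ℝ) : ℝ := x + u

noncomputable def n8 (T : MolP) (u b x : ℝ) : ℝ := √(1 - 3 / 4 * (x ^ 2))

noncomputable def n12 (T : MolP) (u b x : ℝ) : ℝ := √(1 - 3 / 4 * ((n3 T u b x) ^ 2))

noncomputable def n15 (T : MolP) (u b x : ℝ) : ℝ := 1 / 2 * (x) + n8 T u b x - 1

noncomputable def n16 (T : MolP) (u b x : ℝ) : ℝ := 1 + b

noncomputable def n20 (T : MolP) (u b x : ℝ) : ℝ := √(1 - 3 / 4 * ((n16 T u b x) ^ 2))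

noncomputable def n30 (T : MolP) (u b x : ℝ) : ℝ := n3 T u b x + b

noncomputable def n34 (T : MolP) (u b x : ℝ) : ℝ := √(1 - 3 / 4 * ((n30 T u b x) ^ 2))

noncomputable def n41 (T : MolP) (u b x : ℝ) : ℝ := (3 / 4 * (2 * (n3 T u b x) + b)) * ((n12 T u b x + n34 T u b x)⁻¹)

noncomputable def n49 (T : MolP) (u b x : ℝ) : ℝ := 1 / 2 + (b) * (T.ws)

noncomputable def n50 (T : MolP) (u b x : ℝ) : ℝ := (n34 T u b x)⁻¹

noncomputable def n51 (T : MolP) (u b x : ℝ) : ℝ := (n12 T u b x)⁻¹

noncomputable def n52 (T : MolP) (u b x : ℝ) : ℝ := (n3 T u b x) * (n51 T u b x)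

noncomputable def n56 (T : MolP) (u b x : ℝ) : ℝ := (1 + (n52 T u b x) * (n41 T u b x)) * (n50 T u b x)

noncomputable def n57 (T : MolP) (u b x : ℝ) : ℝ := (n30 T u b x) * (n50 T u b x)

noncomputable def n60 (T : MolP) (u b x : ℝ) : ℝ := 1 / 2 * (n3 T u b x) + n12 T u b x

noncomputable def n61 (T : MolP) (u b x : ℝ) : ℝ := 1 / 2 - n41 T u b x

noncomputable def n62 (T : MolP) (u b x : ℝ) : ℝ := 1 / 2 * (n30 T u b x) + n34 T u b x

noncomputable def n64 (T : MolP) (u b x : ℝ) : ℝ := n60 T u b x - 1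

noncomputable def n65 (T : MolP) (u b x : ℝ) : ℝ := n62 T u b x - 1

noncomputable def n69 (T : MolP) (u b x : ℝ) : ℝ := 1 / 2 - 3 / 4 * (n52 T u b x)

noncomputable def n71 (T : MolP) (u b x : ℝ) : ℝ := 1 / 2 - 3 / 4 * (n57 T u b x)

noncomputable def n72 (T : MolP) (u b x : ℝ) : ℝ := (n65 T u b x)⁻¹

noncomputable def n73 (T : MolP) (u b x : ℝ) : ℝ := (n64 T u b x)⁻¹

noncomputable def n74 (T : MolP) (u b x : ℝ) : ℝ := (n69 T u b x) * (n73 T u b x)

noncomputable def n77 (T : MolP) (u b x : ℝ) : ℝ := (-(3 / 4 * (n56 T u b x)) - (n74 T u b x) * (n61 T u b x)) * (n72 T u b x)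

noncomputable def n78 (T : MolP) (u b x : ℝ) : ℝ := (n71 T u b x) * (n72 T u b x)

noncomputable def n79 (T : MolP) (u b x : ℝ) : ℝ := n12 T u b x - 1 / 2

noncomputable def n80 (T : MolP) (u b x : ℝ) : ℝ := n34 T u b x - 1 / 2

noncomputable def n84 (T : MolP) (u b x : ℝ) : ℝ := T.dy + (b) * (T.d1)

noncomputable def n85 (T : MolP) (u b x : ℝ) : ℝ := (n79 T u b x) * (n74 T u b x)

noncomputable def n89 (T : MolP) (u b x : ℝ) : ℝ := (n79 T u b x) * (n77 T u b x) - (n41 T u b x) * (n78 T u b x)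

noncomputable def n90 (T : MolP) (u b x : ℝ) : ℝ := (n80 T u b x) * (n78 T u b x)

noncomputable def n92 (T : MolP) (u b x : ℝ) : ℝ := n85 T u b x + T.dy

noncomputable def n93 (T : MolP) (u b x : ℝ) : ℝ := n89 T u b x + T.d1

noncomputable def n94 (T : MolP) (u b x : ℝ) : ℝ := n90 T u b x + n84 T u b x

noncomputable def n95 (T : MolP) (u b x : ℝ) : ℝ := (n12 T u b x) * (n74 T u b x) + T.dy

noncomputable def n98 (T : MolP) (u b x : ℝ) : ℝ := T.p1 - (T.ws - n41 T u b x)

noncomputable def n100 (T : MolP) (u b x : ℝ) : ℝ := n95 T u b x + (b) * (T.q1)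

noncomputable def n102 (T : MolP) (u b x : ℝ) : ℝ := 1 - n12 T u b x

noncomputable def n103 (T : MolP) (u b x : ℝ) : ℝ := 1 - n34 T u b x

noncomputable def n108 (T : MolP) (u b x : ℝ) : ℝ := 2 * (n12 T u b x) - 1

noncomputable def n109 (T : MolP) (u b x : ℝ) : ℝ := 2 * (n34 T u b x) - 1

noncomputable def n110 (T : MolP) (u b x : ℝ) : ℝ := (n102 T u b x) * (n108 T u b x)

noncomputable def n114 (T : MolP) (u b x : ℝ) : ℝ := (n41 T u b x) * (n109 T u b x) - (n102 T u b x) * (2 * (n41 T u b x))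

noncomputable def n115 (T : MolP) (u b x : ℝ) : ℝ := (n103 T u b x) * (n109 T u b x)

noncomputable def n116 (T : MolP) (u b x : ℝ) : ℝ := n30 T u b x - x

noncomputable def n117 (T : MolP) (u b x : ℝ) : ℝ := (n64 T u b x) * (T.dy)

noncomputable def n119 (T : MolP) (u b x : ℝ) : ℝ := (n64 T u b x) * (T.d1)

noncomputable def n120 (T : MolP) (u b x : ℝ) : ℝ := (n61 T u b x) * (n84 T u b x) + n119 T u b x

noncomputable def n121 (T : MolP) (u b x : ℝ) : ℝ := (n65 T u b x) * (n84 T u b x)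

noncomputable def n122 (T : MolP) (u b x : ℝ) : ℝ := (n117 T u b x) * (u)

noncomputable def n124 (T : MolP) (u b x : ℝ) : ℝ := (n120 T u b x) * (n116 T u b x) + n117 T u b x

noncomputable def n125 (T : MolP) (u b x : ℝ) : ℝ := (n121 T u b x) * (n116 T u b x)

noncomputable def n129 (T : MolP) (u b x : ℝ) : ℝ := n110 T u b x - 2 * (n122 T u b x)

noncomputable def n130 (T : MolP) (u b x : ℝ) : ℝ := n114 T u b x - 2 * (n124 T u b x)

noncomputable def n131 (T : MolP) (u b x : ℝ) : ℝ := n115 T u b x - 2 * (n125 T u b x)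

noncomputable def n136 (T : MolP) (u b x : ℝ) : ℝ := (T.it) * ((T.sK) * (n98 T u b x))

noncomputable def n137 (T : MolP) (u b x : ℝ) : ℝ := n93 T u b x + n136 T u b x

noncomputable def n139 (T : MolP) (u b x : ℝ) : ℝ := n94 T u b x + (b) * (n136 T u b x)

noncomputable def n142 (T : MolP) (u b x : ℝ) : ℝ := 1 / 2 + (b) * (T.rs)

noncomputable def n144 (T : MolP) (u b x : ℝ) : ℝ := (b) * (T.xk)

noncomputable def n145 (T : MolP) (u b x : ℝ) : ℝ := (T.sX) * (n98 T u b x)

noncomputable def n146 (T : MolP) (u b x : ℝ) : ℝ := n130 T u b x + n145 T u b x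

noncomputable def n148 (T : MolP) (u b x : ℝ) : ℝ := n131 T u b x + (b) * (n145 T u b x)

noncomputable def n150 (T : MolP) (u b x : ℝ) : ℝ := n129 T u b x + (b) * (T.l1)

noncomputable def n153 (T : MolP) (u b x : ℝ) : ℝ := T.l1 - T.xk

noncomputable def n154 (T : MolP) (u b x : ℝ) : ℝ := n150 T u b x - n144 T u b x

noncomputable def n155 (T : MolP) (u b x : ℝ) : ℝ := n153 T u b x - n146 T u b x

noncomputable def n156 (T : MolP) (u b x : ℝ) : ℝ := n154 T u b x - n148 T u b x

noncomputable def n157 (T : MolP) (u b x : ℝ) : ℝ := (b) * (n155 T u b x)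

noncomputable def n160 (T : MolP) (u b x : ℝ) : ℝ := 1 / 2 * (n12 T u b x + 1 / 2 * (n3 T u b x)) - 1 / 2

noncomputable def n168 (T : MolP) (u b x : ℝ) : ℝ := 1 / 2 * (n12 T u b x + (T.p1) * (n16 T u b x) + (T.ws) * (n3 T u b x)) - 1 / 2 * (|n155 T u b x|)

noncomputable def n169 (T : MolP) (u b x : ℝ) : ℝ := 1 - n3 T u b x

noncomputable def n170 (T : MolP) (u b x : ℝ) : ℝ := (n169 T u b x) * (n100 T u b x)

noncomputable def n172 (T : MolP) (u b x : ℝ) : ℝ := n169 T u b x - b

noncomputable def n173 (T : MolP) (u b x : ℝ) : ℝ := (n172 T u b x) * (n139 T u b x)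

noncomputable def n174 (T : MolP) (u b x : ℝ) : ℝ := n142 T u b x + n170 T u b x - n173 T u b x

noncomputable def n177 (T : MolP) (u b x : ℝ) : ℝ := 1 / 2 + (n169 T u b x) * (n95 T u b x - n92 T u b x)

noncomputable def n181 (T : MolP) (u b x : ℝ) : ℝ := (n169 T u b x) * (T.q1)

noncomputable def n182 (T : MolP) (u b x : ℝ) : ℝ := T.rs + n139 T u b x - (n169 T u b x) * (n137 T u b x) + n181 T u b x

noncomputable def n184 (T : MolP) (u b x : ℝ) : ℝ := T.rs + (n3 T u b x) * (n100 T u b x)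

noncomputable def n186 (T : MolP) (u b x : ℝ) : ℝ := n184 T u b x - n142 T u b x + n173 T u b x

noncomputable def n188 (T : MolP) (u b x : ℝ) : ℝ := 1 / 2 + (b) * (n186 T u b x)

noncomputable def n189 (T : MolP) (u b x : ℝ) : ℝ := n186 T u b x + n174 T u b x

noncomputable def n192 (T : MolP) (u b x : ℝ) : ℝ := (n169 T u b x) * (n186 T u b x)

noncomputable def n194 (T : MolP) (u b x : ℝ) : ℝ := (n3 T u b x) * (n182 T u b x)

noncomputable def n195 (T : MolP) (u b x : ℝ) : ℝ := n186 T u b x - n194 T u b x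

noncomputable def n196 (T : MolP) (u b x : ℝ) : ℝ := (n3 T u b x) * (n174 T u b x)

noncomputable def n197 (T : MolP) (u b x : ℝ) : ℝ := n192 T u b x - n196 T u b x

noncomputable def n201 (T : MolP) (u b x : ℝ) : ℝ := n188 T u b x - n196 T u b x

noncomputable def n202 (T : MolP) (u b x : ℝ) : ℝ := (n3 T u b x) * (n177 T u b x)

noncomputable def n204 (T : MolP) (u b x : ℝ) : ℝ := n202 T u b x + 1 / 2 * (n169 T u b x)

noncomputable def n205 (T : MolP) (u b x : ℝ) : ℝ := 1 - x

noncomputable def n207 (T : MolP) (u b x : ℝ) : ℝ := 1 / 2 + (b) * (n189 T u b x)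

noncomputable def n221 (T : MolP) (u b x : ℝ) : ℝ := (n205 T u b x) * ((n168 T u b x) * (n207 T u b x) + (n160 T u b x) * (n189 T u b x)) - (n15 T u b x) * (((n3 T u b x) * (n182 T u b x - n174 T u b x) + n192 T u b x) * (n207 T u b x) + (n204 T u b x) * (n189 T u b x) - (x) * ((n182 T u b x) * (n188 T u b x) + (n177 T u b x) * (n186 T u b x)))

noncomputable def n222 (T : MolP) (u b x : ℝ) : ℝ := 1 / 2 - n202 T u b x

noncomputable def n223 (T : MolP) (u b x : ℝ) : ℝ := n222 T u b x + 1 / 2 * (n3 T u b x)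

noncomputable def n224 (T : MolP) (u b x : ℝ) : ℝ := 1 - n205 T u b x

noncomputable def n226 (T : MolP) (u b x : ℝ) : ℝ := 1 / 2 * (n169 T u b x) + (b) * (n197 T u b x)

noncomputable def n240 (T : MolP) (u b x : ℝ) : ℝ := (n224 T u b x) * ((n168 T u b x) * (n226 T u b x) + (n160 T u b x) * (n197 T u b x)) - (n15 T u b x) * ((n196 T u b x + n195 T u b x + (n3 T u b x) * (n186 T u b x)) * (n226 T u b x) + (n223 T u b x) * (n197 T u b x) - (n205 T u b x) * ((n195 T u b x) * (n188 T u b x) + (n222 T u b x) * (n186 T u b x)))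

noncomputable def n244 (T : MolP) (u b x : ℝ) : ℝ := (3 / 2 * (x)) * ((1 + n8 T u b x)⁻¹)

noncomputable def n248 (T : MolP) (u b x : ℝ) : ℝ := (3 / 2 * (n3 T u b x)) * ((1 + n12 T u b x)⁻¹)

noncomputable def n250 (T : MolP) (u b x : ℝ) : ℝ := (n248 T u b x) ^ 2

noncomputable def n251 (T : MolP) (u b x : ℝ) : ℝ := (n244 T u b x) * (n248 T u b x)

noncomputable def n255 (T : MolP) (u b x : ℝ) : ℝ := 3 + n250 T u b x

noncomputable def n258 (T : MolP) (u b x : ℝ) : ℝ := 3 - n250 T u b x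

noncomputable def n259 (T : MolP) (u b x : ℝ) : ℝ := 3 - n251 T u b x

noncomputable def n263 (T : MolP) (u b x : ℝ) : ℝ := (((n15 T u b x) * (n64 T u b x)) * ((3 + (n244 T u b x) ^ 2) * (n255 T u b x))) * (((n258 T u b x) * ((n259 T u b x) ^ 2))⁻¹)

noncomputable def n267 (T : MolP) (u b x : ℝ) : ℝ := (9 * (n258 T u b x - 2 * (n251 T u b x))) * (n255 T u b x)

noncomputable def n273 (T : MolP) (u b x : ℝ) : ℝ := (n251 T u b x) * (n248 T u b x)

noncomputable def n280 (T : MolP) (u b x : ℝ) : ℝ := (2 * (9 + 6 * (n248 T u b x) + 3 * (n244 T u b x) - n273 T u b x - 3 * (n250 T u b x) - 6 * (n251 T u b x))) * (n255 T u b x)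

noncomputable def n283 (T : MolP) (u b x : ℝ) : ℝ := (64 * (n273 T u b x))⁻¹

noncomputable def n284 (T : MolP) (u b x : ℝ) : ℝ := ((n263 T u b x) * (n267 T u b x)) * (n283 T u b x)

noncomputable def n286 (T : MolP) (u b x : ℝ) : ℝ := 1 - n248 T u b x

noncomputable def n291 (T : MolP) (u b x : ℝ) : ℝ := ((32 * ((n286 T u b x) ^ 2)) * (1 - n244 T u b x))⁻¹

noncomputable def n292 (T : MolP) (u b x : ℝ) : ℝ := ((n263 T u b x) * (n280 T u b x)) * (n291 T u b x)

noncomputable def n293 (T : MolP) (u b x : ℝ) : ℝ := (b) * (n174 T u b x)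

noncomputable def n297 (T : MolP) (u b x : ℝ) : ℝ := (n3 T u b x) * (n188 T u b x + n293 T u b x) - (x) * (n188 T u b x)

noncomputable def n298 (T : MolP) (u b x : ℝ) : ℝ := u ^ 2

noncomputable def n300 (T : MolP) (u b x : ℝ) : ℝ := (n298 T u b x) * (1 / 2 * (n284 T u b x))

noncomputable def n302 (T : MolP) (u b x : ℝ) : ℝ := n300 T u b x + (b) * (n221 T u b x)

noncomputable def n304 (T : MolP) (u b x : ℝ) : ℝ := (n298 T u b x) * ((n292 T u b x) * (1 / 2 * (n169 T u b x)))

noncomputable def n306 (T : MolP) (u b x : ℝ) : ℝ := n304 T u b x + (b) * (n240 T u b x)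

noncomputable def n307 (T : MolP) (u b x : ℝ) : ℝ := 1 / 2 * (n12 T u b x + (T.p1) * (n16 T u b x) + (T.ws) * (n3 T u b x)) + 1 / 2 * (|n155 T u b x|)

noncomputable def n308 (T : MolP) (u b x : ℝ) : ℝ := T.rs + n170 T u b x

noncomputable def n311 (T : MolP) (u b x : ℝ) : ℝ := n308 T u b x + (n30 T u b x) * (n139 T u b x) + n142 T u b x

noncomputable def n313 (T : MolP) (u b x : ℝ) : ℝ := 1 / 2 + (b) * (n311 T u b x)

noncomputable def n314 (T : MolP) (u b x : ℝ) : ℝ := n311 T u b x - n174 T u b x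

noncomputable def n315 (T : MolP) (u b x : ℝ) : ℝ := 1 + n3 T u b x

noncomputable def n316 (T : MolP) (u b x : ℝ) : ℝ := n315 T u b x + b

noncomputable def n319 (T : MolP) (u b x : ℝ) : ℝ := (n169 T u b x) * (n311 T u b x)

noncomputable def n323 (T : MolP) (u b x : ℝ) : ℝ := n311 T u b x - n194 T u b x - n174 T u b x

noncomputable def n325 (T : MolP) (u b x : ℝ) : ℝ := n313 T u b x - (n30 T u b x) * (n174 T u b x)

noncomputable def n326 (T : MolP) (u b x : ℝ) : ℝ := n319 T u b x - n325 T u b x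

noncomputable def n331 (T : MolP) (u b x : ℝ) : ℝ := 1 / 2 + (b) * (n314 T u b x)

noncomputable def n345 (T : MolP) (u b x : ℝ) : ℝ := (n205 T u b x) * ((n307 T u b x) * (n331 T u b x) + (n160 T u b x) * (n314 T u b x)) - (n15 T u b x) * ((n194 T u b x + (n316 T u b x) * (n174 T u b x) + n319 T u b x - n313 T u b x) * (n331 T u b x) + (n204 T u b x) * (n314 T u b x) - (x) * ((n182 T u b x) * (n313 T u b x) + (n177 T u b x) * (n311 T u b x)))

noncomputable def n347 (T : MolP) (u b x : ℝ) : ℝ := 1 / 2 * (n169 T u b x) + (b) * (n326 T u b x)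

noncomputable def n361 (T : MolP) (u b x : ℝ) : ℝ := (n224 T u b x) * ((n307 T u b x) * (n347 T u b x) + (n160 T u b x) * (n326 T u b x)) - (n15 T u b x) * ((n323 T u b x + n325 T u b x + (n3 T u b x) * (n311 T u b x)) * (n347 T u b x) + (n223 T u b x) * (n326 T u b x) - (n205 T u b x) * ((n323 T u b x) * (n313 T u b x) + (n222 T u b x) * (n311 T u b x)))

noncomputable def n365 (T : MolP) (u b x : ℝ) : ℝ := (n30 T u b x) * (n313 T u b x - n293 T u b x) - (x) * (n313 T u b x)

noncomputable def n369 (T : MolP) (u b x : ℝ) : ℝ := n300 T u b x + (b) * (n345 T u b x)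

noncomputable def n371 (T : MolP) (u b x : ℝ) : ℝ := n304 T u b x + (b) * (n361 T u b x)

noncomputable def n372 (T : MolP) (u b x : ℝ) : ℝ := n3 T u b x - b

noncomputable def n376 (T : MolP) (u b x : ℝ) : ℝ := √(1 - 3 / 4 * ((n372 T u b x) ^ 2))

noncomputable def n381 (T : MolP) (u b x : ℝ) : ℝ := (3 / 4 * (2 * (n3 T u b x) - b)) * ((n12 T u b x + n376 T u b x)⁻¹)

noncomputable def n383 (T : MolP) (u b x : ℝ) : ℝ := (n376 T u b x)⁻¹

noncomputable def n386 (T : MolP) (u b x : ℝ) : ℝ := (-(1) - (n52 T u b x) * (n381 T u b x)) * (n383 T u b x)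

noncomputable def n387 (T : MolP) (u b x : ℝ) : ℝ := (n372 T u b x) * (n383 T u b x)

noncomputable def n390 (T : MolP) (u b x : ℝ) : ℝ := n381 T u b x - 1 / 2

noncomputable def n391 (T : MolP) (u b x : ℝ) : ℝ := 1 / 2 * (n372 T u b x) + n376 T u b x

noncomputable def n392 (T : MolP) (u b x : ℝ) : ℝ := n391 T u b x - 1

noncomputable def n396 (T : MolP) (u b x : ℝ) : ℝ := 1 / 2 - 3 / 4 * (n387 T u b x)

noncomputable def n397 (T : MolP) (u b x : ℝ) : ℝ := (n392 T u b x)⁻¹

noncomputable def n400 (T : MolP) (u b x : ℝ) : ℝ := (-(3 / 4 * (n386 T u b x)) - (n74 T u b x) * (n390 T u b x)) * (n397 T u b x)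

noncomputable def n401 (T : MolP) (u b x : ℝ) : ℝ := (n396 T u b x) * (n397 T u b x)

noncomputable def n402 (T : MolP) (u b x : ℝ) : ℝ := n12 T u b x + 1 / 2

noncomputable def n403 (T : MolP) (u b x : ℝ) : ℝ := n376 T u b x + 1 / 2

noncomputable def n404 (T : MolP) (u b x : ℝ) : ℝ := (n402 T u b x) * (n74 T u b x)

noncomputable def n407 (T : MolP) (u b x : ℝ) : ℝ := (n381 T u b x) * (n401 T u b x) + (n402 T u b x) * (n400 T u b x)

noncomputable def n408 (T : MolP) (u b x : ℝ) : ℝ := (n403 T u b x) * (n401 T u b x)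

noncomputable def n409 (T : MolP) (u b x : ℝ) : ℝ := n404 T u b x + T.dy

noncomputable def n410 (T : MolP) (u b x : ℝ) : ℝ := n407 T u b x + T.d1

noncomputable def n411 (T : MolP) (u b x : ℝ) : ℝ := n408 T u b x + n84 T u b x

noncomputable def n413 (T : MolP) (u b x : ℝ) : ℝ := T.p1 + (T.ws - n381 T u b x)

noncomputable def n416 (T : MolP) (u b x : ℝ) : ℝ := 1 - n376 T u b x

noncomputable def n419 (T : MolP) (u b x : ℝ) : ℝ := 2 * (n376 T u b x) - 1

noncomputable def n423 (T : MolP) (u b x : ℝ) : ℝ := (n102 T u b x) * (2 * (n381 T u b x)) - (n381 T u b x) * (n419 T u b x)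

noncomputable def n424 (T : MolP) (u b x : ℝ) : ℝ := (n416 T u b x) * (n419 T u b x)

noncomputable def n425 (T : MolP) (u b x : ℝ) : ℝ := n372 T u b x - x

noncomputable def n427 (T : MolP) (u b x : ℝ) : ℝ := (n390 T u b x) * (n84 T u b x) + n119 T u b x

noncomputable def n428 (T : MolP) (u b x : ℝ) : ℝ := (n392 T u b x) * (n84 T u b x)

noncomputable def n431 (T : MolP) (u b x : ℝ) : ℝ := (n427 T u b x) * (n425 T u b x) - n117 T u b x

noncomputable def n432 (T : MolP) (u b x : ℝ) : ℝ := (n428 T u b x) * (n425 T u b x)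

noncomputable def n435 (T : MolP) (u b x : ℝ) : ℝ := n423 T u b x - 2 * (n431 T u b x)

noncomputable def n436 (T : MolP) (u b x : ℝ) : ℝ := n424 T u b x - 2 * (n432 T u b x)

noncomputable def n438 (T : MolP) (u b x : ℝ) : ℝ := (T.it) * ((T.sK) * (n413 T u b x))

noncomputable def n440 (T : MolP) (u b x : ℝ) : ℝ := n410 T u b x - n438 T u b x

noncomputable def n443 (T : MolP) (u b x : ℝ) : ℝ := n411 T u b x - (b) * (n438 T u b x)

noncomputable def n444 (T : MolP) (u b x : ℝ) : ℝ := (T.sX) * (n413 T u b x)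

noncomputable def n445 (T : MolP) (u b x : ℝ) : ℝ := n435 T u b x + n444 T u b x

noncomputable def n447 (T : MolP) (u b x : ℝ) : ℝ := n436 T u b x + (b) * (n444 T u b x)

noncomputable def n451 (T : MolP) (u b x : ℝ) : ℝ := T.l1 - n445 T u b x

noncomputable def n452 (T : MolP) (u b x : ℝ) : ℝ := n150 T u b x - n447 T u b x

noncomputable def n453 (T : MolP) (u b x : ℝ) : ℝ := n451 T u b x + T.xk

noncomputable def n454 (T : MolP) (u b x : ℝ) : ℝ := n452 T u b x + n144 T u b x

noncomputable def n455 (T : MolP) (u b x : ℝ) : ℝ := (b) * (n453 T u b x)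

noncomputable def n458 (T : MolP) (u b x : ℝ) : ℝ := 1 / 2 * (n12 T u b x + (T.p1) * (n16 T u b x) + (T.ws) * (n3 T u b x)) - 1 / 2 * (|n453 T u b x|)

noncomputable def n460 (T : MolP) (u b x : ℝ) : ℝ := n169 T u b x + b

noncomputable def n461 (T : MolP) (u b x : ℝ) : ℝ := (n460 T u b x) * (n443 T u b x)

noncomputable def n462 (T : MolP) (u b x : ℝ) : ℝ := n142 T u b x - n170 T u b x + n461 T u b x

noncomputable def n465 (T : MolP) (u b x : ℝ) : ℝ := 1 / 2 + (n169 T u b x) * (n409 T u b x - n95 T u b x)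

noncomputable def n469 (T : MolP) (u b x : ℝ) : ℝ := T.rs + (n169 T u b x) * (n440 T u b x) + n443 T u b x - n181 T u b x

noncomputable def n472 (T : MolP) (u b x : ℝ) : ℝ := n308 T u b x + (n372 T u b x) * (n443 T u b x) - n142 T u b x

noncomputable def n474 (T : MolP) (u b x : ℝ) : ℝ := 1 / 2 + (b) * (n472 T u b x)

noncomputable def n475 (T : MolP) (u b x : ℝ) : ℝ := n472 T u b x + n462 T u b x

noncomputable def n476 (T : MolP) (u b x : ℝ) : ℝ := (n3 T u b x) * (n469 T u b x)

noncomputable def n477 (T : MolP) (u b x : ℝ) : ℝ := n315 T u b x - b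

noncomputable def n480 (T : MolP) (u b x : ℝ) : ℝ := (n169 T u b x) * (n472 T u b x)

noncomputable def n484 (T : MolP) (u b x : ℝ) : ℝ := n472 T u b x - n476 T u b x + n462 T u b x

noncomputable def n486 (T : MolP) (u b x : ℝ) : ℝ := n474 T u b x - (n372 T u b x) * (n462 T u b x)

noncomputable def n487 (T : MolP) (u b x : ℝ) : ℝ := n480 T u b x + n486 T u b x

noncomputable def n491 (T : MolP) (u b x : ℝ) : ℝ := (n3 T u b x) * (n465 T u b x)

noncomputable def n492 (T : MolP) (u b x : ℝ) : ℝ := n491 T u b x + 1 / 2 * (n169 T u b x)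

noncomputable def n494 (T : MolP) (u b x : ℝ) : ℝ := 1 / 2 + (b) * (n475 T u b x)

noncomputable def n508 (T : MolP) (u b x : ℝ) : ℝ := (n205 T u b x) * ((n458 T u b x) * (n494 T u b x) + (n160 T u b x) * (n475 T u b x)) - (n15 T u b x) * ((n476 T u b x - (n477 T u b x) * (n462 T u b x) + n480 T u b x + n474 T u b x) * (n494 T u b x) + (n492 T u b x) * (n475 T u b x) - (x) * ((n469 T u b x) * (n474 T u b x) + (n465 T u b x) * (n472 T u b x)))

noncomputable def n509 (T : MolP) (u b x : ℝ) : ℝ := 1 / 2 - n491 T u b x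

noncomputable def n510 (T : MolP) (u b x : ℝ) : ℝ := n509 T u b x + 1 / 2 * (n3 T u b x)

noncomputable def n512 (T : MolP) (u b x : ℝ) : ℝ := 1 / 2 * (n169 T u b x) + (b) * (n487 T u b x)

noncomputable def n526 (T : MolP) (u b x : ℝ) : ℝ := (n224 T u b x) * ((n458 T u b x) * (n512 T u b x) + (n160 T u b x) * (n487 T u b x)) - (n15 T u b x) * ((n484 T u b x - n486 T u b x + (n3 T u b x) * (n472 T u b x)) * (n512 T u b x) + (n510 T u b x) * (n487 T u b x) - (n205 T u b x) * ((n484 T u b x) * (n474 T u b x) + (n509 T u b x) * (n472 T u b x)))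

noncomputable def n527 (T : MolP) (u b x : ℝ) : ℝ := (b) * (n462 T u b x)

noncomputable def n531 (T : MolP) (u b x : ℝ) : ℝ := (n372 T u b x) * (n474 T u b x + n527 T u b x) - (x) * (n474 T u b x)

noncomputable def n533 (T : MolP) (u b x : ℝ) : ℝ := n300 T u b x + (b) * (n508 T u b x)

noncomputable def n535 (T : MolP) (u b x : ℝ) : ℝ := n304 T u b x + (b) * (n526 T u b x)

noncomputable def n536 (T : MolP) (u b x : ℝ) : ℝ := 1 / 2 * (n12 T u b x + (T.p1) * (n16 T u b x) + (T.ws) * (n3 T u b x)) + 1 / 2 * (|n453 T u b x|)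

noncomputable def n538 (T : MolP) (u b x : ℝ) : ℝ := n184 T u b x + n461 T u b x + n142 T u b x

noncomputable def n540 (T : MolP) (u b x : ℝ) : ℝ := 1 / 2 + (b) * (n538 T u b x)

noncomputable def n541 (T : MolP) (u b x : ℝ) : ℝ := n538 T u b x - n462 T u b x

noncomputable def n544 (T : MolP) (u b x : ℝ) : ℝ := (n169 T u b x) * (n538 T u b x)

noncomputable def n546 (T : MolP) (u b x : ℝ) : ℝ := n538 T u b x - n476 T u b x

noncomputable def n548 (T : MolP) (u b x : ℝ) : ℝ := n540 T u b x - (n3 T u b x) * (n462 T u b x)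

noncomputable def n550 (T : MolP) (u b x : ℝ) : ℝ := n544 T u b x + n540 T u b x - n548 T u b x

noncomputable def n556 (T : MolP) (u b x : ℝ) : ℝ := 1 / 2 + (b) * (n541 T u b x)

noncomputable def n570 (T : MolP) (u b x : ℝ) : ℝ := (n205 T u b x) * ((n536 T u b x) * (n556 T u b x) + (n160 T u b x) * (n541 T u b x)) - (n15 T u b x) * (((n3 T u b x) * (n469 T u b x + n462 T u b x) + n544 T u b x) * (n556 T u b x) + (n492 T u b x) * (n541 T u b x) - (x) * ((n469 T u b x) * (n540 T u b x) + (n465 T u b x) * (n538 T u b x)))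

noncomputable def n572 (T : MolP) (u b x : ℝ) : ℝ := 1 / 2 * (n169 T u b x) + (b) * (n550 T u b x)

noncomputable def n586 (T : MolP) (u b x : ℝ) : ℝ := (n224 T u b x) * ((n536 T u b x) * (n572 T u b x) + (n160 T u b x) * (n550 T u b x)) - (n15 T u b x) * ((n546 T u b x + n548 T u b x + (n3 T u b x) * (n538 T u b x) - n540 T u b x) * (n572 T u b x) + (n510 T u b x) * (n550 T u b x) - (n205 T u b x) * ((n546 T u b x) * (n540 T u b x) + (n509 T u b x) * (n538 T u b x)))

noncomputable def n590 (T : MolP) (u b x : ℝ) : ℝ := (n3 T u b x) * (n540 T u b x - n527 T u b x) - (x) * (n540 T u b x)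

noncomputable def n594 (T : MolP) (u b x : ℝ) : ℝ := n300 T u b x + (b) * (n570 T u b x)

noncomputable def n596 (T : MolP) (u b x : ℝ) : ℝ := n304 T u b x + (b) * (n586 T u b x)

noncomputable def n599 (T : MolP) (u b x : ℝ) : ℝ := (2 * (n8 T u b x) + 3)⁻¹

noncomputable def n601 (T : MolP) (u b x : ℝ) : ℝ := 1 / 2 * (x) + 3 / 2

noncomputable def n602 (T : MolP) (u b x : ℝ) : ℝ := n16 T u b x + n3 T u b x

noncomputable def n603 (T : MolP) (u b x : ℝ) : ℝ := 2 * (n3 T u b x) + 1

noncomputable def n604 (T : MolP) (u b x : ℝ) : ℝ := 2 * (n3 T u b x) + n16 T u b x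

noncomputable def n606 (T : MolP) (u b x : ℝ) : ℝ := 2 + n3 T u b x

noncomputable def n607 (T : MolP) (u b x : ℝ) : ℝ := 2 * (n16 T u b x) + n3 T u b x

noncomputable def n608 (T : MolP) (u b x : ℝ) : ℝ := (n3 T u b x) * (n129 T u b x)

noncomputable def n609 (T : MolP) (u b x : ℝ) : ℝ := (n3 T u b x) * (T.l1)

noncomputable def n610 (T : MolP) (u b x : ℝ) : ℝ := (n3 T u b x) * (n150 T u b x)

noncomputable def n613 (T : MolP) (u b x : ℝ) : ℝ := -(n144 T u b x) - (n603 T u b x) * (T.xk)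

noncomputable def n614 (T : MolP) (u b x : ℝ) : ℝ := (n604 T u b x) * (n144 T u b x)

noncomputable def n616 (T : MolP) (u b x : ℝ) : ℝ := n609 T u b x + n613 T u b x

noncomputable def n617 (T : MolP) (u b x : ℝ) : ℝ := n610 T u b x - n614 T u b x

noncomputable def n618 (T : MolP) (u b x : ℝ) : ℝ := (n315 T u b x) * (n129 T u b x)

noncomputable def n620 (T : MolP) (u b x : ℝ) : ℝ := n148 T u b x + (n315 T u b x) * (n146 T u b x)

noncomputable def n621 (T : MolP) (u b x : ℝ) : ℝ := (n602 T u b x) * (n148 T u b x)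

noncomputable def n622 (T : MolP) (u b x : ℝ) : ℝ := n608 T u b x - n618 T u b x

noncomputable def n623 (T : MolP) (u b x : ℝ) : ℝ := n616 T u b x - n620 T u b x

noncomputable def n624 (T : MolP) (u b x : ℝ) : ℝ := n617 T u b x - n621 T u b x

noncomputable def n628 (T : MolP) (u b x : ℝ) : ℝ := -(n144 T u b x) - T.xk

noncomputable def n629 (T : MolP) (u b x : ℝ) : ℝ := (n16 T u b x) * (n144 T u b x)

noncomputable def n631 (T : MolP) (u b x : ℝ) : ℝ := (n606 T u b x) * (n129 T u b x)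

noncomputable def n634 (T : MolP) (u b x : ℝ) : ℝ := 2 * (n150 T u b x) + (n606 T u b x) * (T.l1)

noncomputable def n635 (T : MolP) (u b x : ℝ) : ℝ := (n607 T u b x) * (n150 T u b x)

noncomputable def n636 (T : MolP) (u b x : ℝ) : ℝ := n628 T u b x + n634 T u b x

noncomputable def n637 (T : MolP) (u b x : ℝ) : ℝ := n635 T u b x - n629 T u b x

noncomputable def n638 (T : MolP) (u b x : ℝ) : ℝ := n631 T u b x - n618 T u b x

noncomputable def n639 (T : MolP) (u b x : ℝ) : ℝ := n636 T u b x - n620 T u b x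

noncomputable def n640 (T : MolP) (u b x : ℝ) : ℝ := n637 T u b x - n621 T u b x

noncomputable def n644 (T : MolP) (u b x : ℝ) : ℝ := (n155 T u b x) * (n601 T u b x)

noncomputable def n645 (T : MolP) (u b x : ℝ) : ℝ := (n157 T u b x) * (n601 T u b x)

noncomputable def n647 (T : MolP) (u b x : ℝ) : ℝ := n644 T u b x - 1 / 2 * (n623 T u b x)

noncomputable def n648 (T : MolP) (u b x : ℝ) : ℝ := n645 T u b x - 1 / 2 * (n624 T u b x)

noncomputable def n649 (T : MolP) (u b x : ℝ) : ℝ := 1 / 2 * (n639 T u b x) - n644 T u b x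

noncomputable def n650 (T : MolP) (u b x : ℝ) : ℝ := 1 / 2 * (n640 T u b x) - n645 T u b x

noncomputable def n651 (T : MolP) (u b x : ℝ) : ℝ := min (n647 T u b x) (n649 T u b x)

noncomputable def n654 (T : MolP) (u b x : ℝ) : ℝ := n160 T u b x + (n599 T u b x) * (1 / 2 * (n129 T u b x))

noncomputable def n656 (T : MolP) (u b x : ℝ) : ℝ := 1 / 2 * (n12 T u b x + (T.p1) * (n16 T u b x) + (T.ws) * (n3 T u b x)) + (n599 T u b x) * (n651 T u b x)

noncomputable def n660 (T : MolP) (u b x : ℝ) : ℝ := 3 / 4 * (x) + 3 / 2 * (1 - n8 T u b x)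

noncomputable def n662 (T : MolP) (u b x : ℝ) : ℝ := 1 + (n599 T u b x) * (n660 T u b x)

noncomputable def n669 (T : MolP) (u b x : ℝ) : ℝ := 3 / 4 * (n3 T u b x) + 3 / 2 * (n102 T u b x)

noncomputable def n670 (T : MolP) (u b x : ℝ) : ℝ := 3 / 4 + 3 / 2 * (n41 T u b x)

noncomputable def n671 (T : MolP) (u b x : ℝ) : ℝ := 3 / 4 * (n30 T u b x) + 3 / 2 * (n103 T u b x)

noncomputable def n675 (T : MolP) (u b x : ℝ) : ℝ := 9 / 8 * (n52 T u b x) + 3 / 4

noncomputable def n676 (T : MolP) (u b x : ℝ) : ℝ := 9 / 8 * (n57 T u b x) + 3 / 4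

noncomputable def n677 (T : MolP) (u b x : ℝ) : ℝ := (n12 T u b x) * (n675 T u b x)

noncomputable def n681 (T : MolP) (u b x : ℝ) : ℝ := (n12 T u b x) * (9 / 8 * (n56 T u b x)) - (n41 T u b x) * (n676 T u b x)

noncomputable def n682 (T : MolP) (u b x : ℝ) : ℝ := (n34 T u b x) * (n676 T u b x)

noncomputable def n683 (T : MolP) (u b x : ℝ) : ℝ := 3 / 4 * (n52 T u b x) + 1 / 2

noncomputable def n684 (T : MolP) (u b x : ℝ) : ℝ := 3 / 4 * (n57 T u b x) + 1 / 2

noncomputable def n685 (T : MolP) (u b x : ℝ) : ℝ := (n669 T u b x) * (n683 T u b x)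

noncomputable def n688 (T : MolP) (u b x : ℝ) : ℝ := (n670 T u b x) * (n684 T u b x) + (n669 T u b x) * (3 / 4 * (n56 T u b x))

noncomputable def n689 (T : MolP) (u b x : ℝ) : ℝ := (n671 T u b x) * (n684 T u b x)

noncomputable def n690 (T : MolP) (u b x : ℝ) : ℝ := n677 T u b x + n685 T u b x

noncomputable def n691 (T : MolP) (u b x : ℝ) : ℝ := n681 T u b x + n688 T u b x

noncomputable def n692 (T : MolP) (u b x : ℝ) : ℝ := n682 T u b x + n689 T u b x

noncomputable def n696 (T : MolP) (u b x : ℝ) : ℝ := n690 T u b x - 1 / 2 * (n675 T u b x)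

noncomputable def n697 (T : MolP) (u b x : ℝ) : ℝ := n691 T u b x - 9 / 16 * (n56 T u b x)

noncomputable def n698 (T : MolP) (u b x : ℝ) : ℝ := n692 T u b x - 1 / 2 * (n676 T u b x)

noncomputable def n699 (T : MolP) (u b x : ℝ) : ℝ := n669 T u b x + 2 * (n12 T u b x)

noncomputable def n700 (T : MolP) (u b x : ℝ) : ℝ := n670 T u b x - 2 * (n41 T u b x)

noncomputable def n701 (T : MolP) (u b x : ℝ) : ℝ := n671 T u b x + 2 * (n34 T u b x)

noncomputable def n703 (T : MolP) (u b x : ℝ) : ℝ := n690 T u b x - (n699 T u b x) * (T.dy)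

noncomputable def n704 (T : MolP) (u b x : ℝ) : ℝ := n699 T u b x - 1

noncomputable def n705 (T : MolP) (u b x : ℝ) : ℝ := n701 T u b x - 1

noncomputable def n706 (T : MolP) (u b x : ℝ) : ℝ := (n704 T u b x) * (T.dy)

noncomputable def n709 (T : MolP) (u b x : ℝ) : ℝ := (n700 T u b x) * (n84 T u b x) + (n704 T u b x) * (T.d1)

noncomputable def n710 (T : MolP) (u b x : ℝ) : ℝ := (n705 T u b x) * (n84 T u b x)

noncomputable def n711 (T : MolP) (u b x : ℝ) : ℝ := n696 T u b x - n706 T u b x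

noncomputable def n712 (T : MolP) (u b x : ℝ) : ℝ := n697 T u b x - n709 T u b x

noncomputable def n713 (T : MolP) (u b x : ℝ) : ℝ := n698 T u b x - n710 T u b x

noncomputable def n716 (T : MolP) (u b x : ℝ) : ℝ := n703 T u b x + (b) * (T.m1)

noncomputable def n718 (T : MolP) (u b x : ℝ) : ℝ := (T.it) * ((T.sD) * (n98 T u b x))

noncomputable def n719 (T : MolP) (u b x : ℝ) : ℝ := n712 T u b x + n718 T u b x

noncomputable def n721 (T : MolP) (u b x : ℝ) : ℝ := n713 T u b x + (b) * (n718 T u b x)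

noncomputable def n722 (T : MolP) (u b x : ℝ) : ℝ := (n95 T u b x) * (n662 T u b x)

noncomputable def n723 (T : MolP) (u b x : ℝ) : ℝ := (T.q1) * (n662 T u b x)

noncomputable def n724 (T : MolP) (u b x : ℝ) : ℝ := (n100 T u b x) * (n662 T u b x)

noncomputable def n725 (T : MolP) (u b x : ℝ) : ℝ := (n703 T u b x) * (n599 T u b x)

noncomputable def n726 (T : MolP) (u b x : ℝ) : ℝ := (T.m1) * (n599 T u b x)

noncomputable def n727 (T : MolP) (u b x : ℝ) : ℝ := (n716 T u b x) * (n599 T u b x)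

noncomputable def n728 (T : MolP) (u b x : ℝ) : ℝ := n722 T u b x + n725 T u b x

noncomputable def n729 (T : MolP) (u b x : ℝ) : ℝ := n723 T u b x + n726 T u b x

noncomputable def n730 (T : MolP) (u b x : ℝ) : ℝ := n724 T u b x + n727 T u b x

noncomputable def n731 (T : MolP) (u b x : ℝ) : ℝ := (n92 T u b x) * (n662 T u b x)

noncomputable def n732 (T : MolP) (u b x : ℝ) : ℝ := (n137 T u b x) * (n662 T u b x)

noncomputable def n733 (T : MolP) (u b x : ℝ) : ℝ := (n139 T u b x) * (n662 T u b x)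

noncomputable def n734 (T : MolP) (u b x : ℝ) : ℝ := (n711 T u b x) * (n599 T u b x)

noncomputable def n735 (T : MolP) (u b x : ℝ) : ℝ := (n719 T u b x) * (n599 T u b x)

noncomputable def n736 (T : MolP) (u b x : ℝ) : ℝ := (n721 T u b x) * (n599 T u b x)

noncomputable def n737 (T : MolP) (u b x : ℝ) : ℝ := n731 T u b x + n734 T u b x

noncomputable def n738 (T : MolP) (u b x : ℝ) : ℝ := n732 T u b x + n735 T u b x

noncomputable def n739 (T : MolP) (u b x : ℝ) : ℝ := n733 T u b x + n736 T u b x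

noncomputable def n741 (T : MolP) (u b x : ℝ) : ℝ := (b) * (T.k2)

noncomputable def n743 (T : MolP) (u b x : ℝ) : ℝ := (T.rs) * (n662 T u b x)

noncomputable def n744 (T : MolP) (u b x : ℝ) : ℝ := (n142 T u b x) * (n662 T u b x)

noncomputable def n745 (T : MolP) (u b x : ℝ) : ℝ := (T.k2) * (n599 T u b x)

noncomputable def n746 (T : MolP) (u b x : ℝ) : ℝ := (n741 T u b x) * (n599 T u b x)

noncomputable def n747 (T : MolP) (u b x : ℝ) : ℝ := n743 T u b x + n745 T u b x

noncomputable def n748 (T : MolP) (u b x : ℝ) : ℝ := n744 T u b x + n746 T u b x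

noncomputable def n749 (T : MolP) (u b x : ℝ) : ℝ := (n169 T u b x) * (n730 T u b x)

noncomputable def n751 (T : MolP) (u b x : ℝ) : ℝ := (n172 T u b x) * (n739 T u b x)

noncomputable def n752 (T : MolP) (u b x : ℝ) : ℝ := n748 T u b x + n749 T u b x - n751 T u b x

noncomputable def n754 (T : MolP) (u b x : ℝ) : ℝ := (n169 T u b x) * (n728 T u b x - n737 T u b x)

noncomputable def n755 (T : MolP) (u b x : ℝ) : ℝ := 1 / 2 * (n662 T u b x) + n754 T u b x

noncomputable def n757 (T : MolP) (u b x : ℝ) : ℝ := (n169 T u b x) * (n738 T u b x)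

noncomputable def n759 (T : MolP) (u b x : ℝ) : ℝ := (n169 T u b x) * (n729 T u b x)

noncomputable def n760 (T : MolP) (u b x : ℝ) : ℝ := n747 T u b x + n739 T u b x - n757 T u b x + n759 T u b x

noncomputable def n761 (T : MolP) (u b x : ℝ) : ℝ := (n3 T u b x) * (n730 T u b x)

noncomputable def n762 (T : MolP) (u b x : ℝ) : ℝ := n747 T u b x + n761 T u b x

noncomputable def n764 (T : MolP) (u b x : ℝ) : ℝ := n762 T u b x - n748 T u b x + n751 T u b x

noncomputable def n766 (T : MolP) (u b x : ℝ) : ℝ := 1 / 2 * (n662 T u b x) + (b) * (n764 T u b x)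

noncomputable def n767 (T : MolP) (u b x : ℝ) : ℝ := n764 T u b x + n752 T u b x

noncomputable def n770 (T : MolP) (u b x : ℝ) : ℝ := (n169 T u b x) * (n764 T u b x)

noncomputable def n772 (T : MolP) (u b x : ℝ) : ℝ := (n3 T u b x) * (n760 T u b x)

noncomputable def n773 (T : MolP) (u b x : ℝ) : ℝ := n764 T u b x - n772 T u b x

noncomputable def n774 (T : MolP) (u b x : ℝ) : ℝ := (n3 T u b x) * (n752 T u b x)

noncomputable def n775 (T : MolP) (u b x : ℝ) : ℝ := n770 T u b x - n774 T u b x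

noncomputable def n779 (T : MolP) (u b x : ℝ) : ℝ := n766 T u b x - n774 T u b x

noncomputable def n780 (T : MolP) (u b x : ℝ) : ℝ := (n3 T u b x) * (n755 T u b x)

noncomputable def n781 (T : MolP) (u b x : ℝ) : ℝ := (n169 T u b x) * (1 / 2 * (n662 T u b x))

noncomputable def n782 (T : MolP) (u b x : ℝ) : ℝ := n780 T u b x + n781 T u b x

noncomputable def n784 (T : MolP) (u b x : ℝ) : ℝ := 1 / 2 * (n662 T u b x) + (b) * (n767 T u b x)

noncomputable def n798 (T : MolP) (u b x : ℝ) : ℝ := (n205 T u b x) * ((n656 T u b x) * (n784 T u b x) + (n654 T u b x) * (n767 T u b x)) - (n15 T u b x) * (((n3 T u b x) * (n760 T u b x - n752 T u b x) + n770 T u b x) * (n784 T u b x) + (n782 T u b x) * (n767 T u b x) - (x) * ((n760 T u b x) * (n766 T u b x) + (n755 T u b x) * (n764 T u b x)))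

noncomputable def n799 (T : MolP) (u b x : ℝ) : ℝ := 1 / 2 * (n662 T u b x) - n780 T u b x

noncomputable def n800 (T : MolP) (u b x : ℝ) : ℝ := (n3 T u b x) * (1 / 2 * (n662 T u b x))

noncomputable def n801 (T : MolP) (u b x : ℝ) : ℝ := n799 T u b x + n800 T u b x

noncomputable def n803 (T : MolP) (u b x : ℝ) : ℝ := n781 T u b x + (b) * (n775 T u b x)

noncomputable def n817 (T : MolP) (u b x : ℝ) : ℝ := (n224 T u b x) * ((n656 T u b x) * (n803 T u b x) + (n654 T u b x) * (n775 T u b x)) - (n15 T u b x) * ((n774 T u b x + n773 T u b x + (n3 T u b x) * (n764 T u b x)) * (n803 T u b x) + (n801 T u b x) * (n775 T u b x) - (n205 T u b x) * ((n773 T u b x) * (n766 T u b x) + (n799 T u b x) * (n764 T u b x)))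

noncomputable def n833 (T : MolP) (u b x : ℝ) : ℝ := (n259 T u b x) * (n258 T u b x)

noncomputable def n838 (T : MolP) (u b x : ℝ) : ℝ := (n662 T u b x) * (n267 T u b x) + (n599 T u b x) * ((3 * (n248 T u b x)) * (27 + 27 * (n248 T u b x) - 9 * (n250 T u b x) - (9 * (n250 T u b x)) * (n248 T u b x) - (18 * (n251 T u b x)) * (n248 T u b x) + (6 * (n251 T u b x)) * (n250 T u b x) - (8 * (T.dy)) * (n833 T u b x)))

noncomputable def n857 (T : MolP) (u b x : ℝ) : ℝ := (n662 T u b x) * (n280 T u b x) - (n599 T u b x) * ((n286 T u b x) * (6 * (18 + 9 * (n248 T u b x) - 3 * (n251 T u b x) - (3 * (n250 T u b x)) * (n248 T u b x) - (6 * (n251 T u b x)) * (n248 T u b x) + (n251 T u b x) * (n250 T u b x)) - (16 * (T.dy)) * (n833 T u b x)))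

noncomputable def n859 (T : MolP) (u b x : ℝ) : ℝ := ((n263 T u b x) * (n838 T u b x)) * (n283 T u b x)

noncomputable def n861 (T : MolP) (u b x : ℝ) : ℝ := ((n263 T u b x) * (n857 T u b x)) * (n291 T u b x)

noncomputable def n862 (T : MolP) (u b x : ℝ) : ℝ := (b) * (n752 T u b x)

noncomputable def n866 (T : MolP) (u b x : ℝ) : ℝ := (n3 T u b x) * (n766 T u b x + n862 T u b x) - (x) * (n766 T u b x)

noncomputable def n868 (T : MolP) (u b x : ℝ) : ℝ := (n298 T u b x) * ((n859 T u b x) * (1 / 2 * (n662 T u b x)))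

noncomputable def n870 (T : MolP) (u b x : ℝ) : ℝ := n868 T u b x + (b) * (n798 T u b x)

noncomputable def n872 (T : MolP) (u b x : ℝ) : ℝ := (n298 T u b x) * ((n861 T u b x) * (n781 T u b x))

noncomputable def n874 (T : MolP) (u b x : ℝ) : ℝ := n872 T u b x + (b) * (n817 T u b x)

noncomputable def n875 (T : MolP) (u b x : ℝ) : ℝ := max (n647 T u b x) (n649 T u b x)

noncomputable def n877 (T : MolP) (u b x : ℝ) : ℝ := 1 / 2 * (n12 T u b x + (T.p1) * (n16 T u b x) + (T.ws) * (n3 T u b x)) + (n599 T u b x) * (n875 T u b x)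

noncomputable def n878 (T : MolP) (u b x : ℝ) : ℝ := n747 T u b x + n749 T u b x

noncomputable def n879 (T : MolP) (u b x : ℝ) : ℝ := (n30 T u b x) * (n739 T u b x)

noncomputable def n881 (T : MolP) (u b x : ℝ) : ℝ := n878 T u b x + n879 T u b x + n748 T u b x

noncomputable def n883 (T : MolP) (u b x : ℝ) : ℝ := 1 / 2 * (n662 T u b x) + (b) * (n881 T u b x)

noncomputable def n884 (T : MolP) (u b x : ℝ) : ℝ := n881 T u b x - n752 T u b x

noncomputable def n887 (T : MolP) (u b x : ℝ) : ℝ := (n169 T u b x) * (n881 T u b x)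

noncomputable def n891 (T : MolP) (u b x : ℝ) : ℝ := n881 T u b x - n772 T u b x - n752 T u b x

noncomputable def n893 (T : MolP) (u b x : ℝ) : ℝ := n883 T u b x - (n30 T u b x) * (n752 T u b x)

noncomputable def n894 (T : MolP) (u b x : ℝ) : ℝ := n887 T u b x - n893 T u b x

noncomputable def n899 (T : MolP) (u b x : ℝ) : ℝ := 1 / 2 * (n662 T u b x) + (b) * (n884 T u b x)

noncomputable def n913 (T : MolP) (u b x : ℝ) : ℝ := (n205 T u b x) * ((n877 T u b x) * (n899 T u b x) + (n654 T u b x) * (n884 T u b x)) - (n15 T u b x) * ((n772 T u b x + (n316 T u b x) * (n752 T u b x) + n887 T u b x - n883 T u b x) * (n899 T u b x) + (n782 T u b x) * (n884 T u b x) - (x) * ((n760 T u b x) * (n883 T u b x) + (n755 T u b x) * (n881 T u b x)))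

noncomputable def n915 (T : MolP) (u b x : ℝ) : ℝ := n781 T u b x + (b) * (n894 T u b x)

noncomputable def n929 (T : MolP) (u b x : ℝ) : ℝ := (n224 T u b x) * ((n877 T u b x) * (n915 T u b x) + (n654 T u b x) * (n894 T u b x)) - (n15 T u b x) * ((n891 T u b x + n893 T u b x + (n3 T u b x) * (n881 T u b x)) * (n915 T u b x) + (n801 T u b x) * (n894 T u b x) - (n205 T u b x) * ((n891 T u b x) * (n883 T u b x) + (n799 T u b x) * (n881 T u b x)))

noncomputable def n933 (T : MolP) (u b x : ℝ) : ℝ := (n30 T u b x) * (n883 T u b x - n862 T u b x) - (x) * (n883 T u b x)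

noncomputable def n937 (T : MolP) (u b x : ℝ) : ℝ := n868 T u b x + (b) * (n913 T u b x)

noncomputable def n939 (T : MolP) (u b x : ℝ) : ℝ := n872 T u b x + (b) * (n929 T u b x)

noncomputable def n940 (T : MolP) (u b x : ℝ) : ℝ := n16 T u b x - n3 T u b x

noncomputable def n941 (T : MolP) (u b x : ℝ) : ℝ := 2 * (n3 T u b x) + n169 T u b x

noncomputable def n942 (T : MolP) (u b x : ℝ) : ℝ := 2 * (n3 T u b x) + n940 T u b x

noncomputable def n945 (T : MolP) (u b x : ℝ) : ℝ := 2 * (n169 T u b x) + n3 T u b x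

noncomputable def n946 (T : MolP) (u b x : ℝ) : ℝ := 2 * (n940 T u b x) + n3 T u b x

noncomputable def n947 (T : MolP) (u b x : ℝ) : ℝ := (n941 T u b x) * (n129 T u b x)

noncomputable def n951 (T : MolP) (u b x : ℝ) : ℝ := -(n447 T u b x) - (n941 T u b x) * (n445 T u b x)

noncomputable def n952 (T : MolP) (u b x : ℝ) : ℝ := (n942 T u b x) * (n447 T u b x)

noncomputable def n954 (T : MolP) (u b x : ℝ) : ℝ := n608 T u b x - n947 T u b x

noncomputable def n955 (T : MolP) (u b x : ℝ) : ℝ := n609 T u b x + n951 T u b x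

noncomputable def n956 (T : MolP) (u b x : ℝ) : ℝ := n610 T u b x - n952 T u b x

noncomputable def n957 (T : MolP) (u b x : ℝ) : ℝ := n955 T u b x - n628 T u b x

noncomputable def n958 (T : MolP) (u b x : ℝ) : ℝ := n956 T u b x + n629 T u b x

noncomputable def n962 (T : MolP) (u b x : ℝ) : ℝ := (n169 T u b x) * (n129 T u b x)

noncomputable def n966 (T : MolP) (u b x : ℝ) : ℝ := -(n447 T u b x) - (n169 T u b x) * (n445 T u b x)

noncomputable def n967 (T : MolP) (u b x : ℝ) : ℝ := (n940 T u b x) * (n447 T u b x)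

noncomputable def n969 (T : MolP) (u b x : ℝ) : ℝ := (n945 T u b x) * (n129 T u b x)

noncomputable def n971 (T : MolP) (u b x : ℝ) : ℝ := 2 * (n150 T u b x) + (n945 T u b x) * (T.l1)

noncomputable def n972 (T : MolP) (u b x : ℝ) : ℝ := (n946 T u b x) * (n150 T u b x)

noncomputable def n973 (T : MolP) (u b x : ℝ) : ℝ := n969 T u b x - n962 T u b x

noncomputable def n974 (T : MolP) (u b x : ℝ) : ℝ := n966 T u b x + n971 T u b x

noncomputable def n975 (T : MolP) (u b x : ℝ) : ℝ := n972 T u b x - n967 T u b x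

noncomputable def n976 (T : MolP) (u b x : ℝ) : ℝ := n974 T u b x - n628 T u b x

noncomputable def n977 (T : MolP) (u b x : ℝ) : ℝ := n975 T u b x + n629 T u b x

noncomputable def n981 (T : MolP) (u b x : ℝ) : ℝ := (n453 T u b x) * (n601 T u b x)

noncomputable def n982 (T : MolP) (u b x : ℝ) : ℝ := (n455 T u b x) * (n601 T u b x)

noncomputable def n984 (T : MolP) (u b x : ℝ) : ℝ := n981 T u b x - 1 / 2 * (n957 T u b x)

noncomputable def n985 (T : MolP) (u b x : ℝ) : ℝ := n982 T u b x - 1 / 2 * (n958 T u b x)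

noncomputable def n986 (T : MolP) (u b x : ℝ) : ℝ := 1 / 2 * (n976 T u b x) - n981 T u b x

noncomputable def n987 (T : MolP) (u b x : ℝ) : ℝ := 1 / 2 * (n977 T u b x) - n982 T u b x

noncomputable def n988 (T : MolP) (u b x : ℝ) : ℝ := min (n984 T u b x) (n986 T u b x)

noncomputable def n990 (T : MolP) (u b x : ℝ) : ℝ := 1 / 2 * (n12 T u b x + (T.p1) * (n16 T u b x) + (T.ws) * (n3 T u b x)) + (n599 T u b x) * (n988 T u b x)

noncomputable def n996 (T : MolP) (u b x : ℝ) : ℝ := -(3 / 4) - 3 / 2 * (n381 T u b x)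

noncomputable def n997 (T : MolP) (u b x : ℝ) : ℝ := 3 / 4 * (n372 T u b x) + 3 / 2 * (n416 T u b x)

noncomputable def n1000 (T : MolP) (u b x : ℝ) : ℝ := 9 / 8 * (n387 T u b x) + 3 / 4

noncomputable def n1003 (T : MolP) (u b x : ℝ) : ℝ := (n381 T u b x) * (n1000 T u b x) + (n12 T u b x) * (9 / 8 * (n386 T u b x))

noncomputable def n1004 (T : MolP) (u b x : ℝ) : ℝ := (n376 T u b x) * (n1000 T u b x)

noncomputable def n1005 (T : MolP) (u b x : ℝ) : ℝ := 3 / 4 * (n387 T u b x) + 1 / 2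

noncomputable def n1008 (T : MolP) (u b x : ℝ) : ℝ := (n996 T u b x) * (n1005 T u b x) + (n669 T u b x) * (3 / 4 * (n386 T u b x))

noncomputable def n1009 (T : MolP) (u b x : ℝ) : ℝ := (n997 T u b x) * (n1005 T u b x)

noncomputable def n1010 (T : MolP) (u b x : ℝ) : ℝ := n1003 T u b x + n1008 T u b x

noncomputable def n1011 (T : MolP) (u b x : ℝ) : ℝ := n1004 T u b x + n1009 T u b x

noncomputable def n1014 (T : MolP) (u b x : ℝ) : ℝ := n690 T u b x + 1 / 2 * (n675 T u b x)

noncomputable def n1015 (T : MolP) (u b x : ℝ) : ℝ := n1010 T u b x + 9 / 16 * (n386 T u b x)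

noncomputable def n1016 (T : MolP) (u b x : ℝ) : ℝ := n1011 T u b x + 1 / 2 * (n1000 T u b x)

noncomputable def n1017 (T : MolP) (u b x : ℝ) : ℝ := n996 T u b x + 2 * (n381 T u b x)

noncomputable def n1018 (T : MolP) (u b x : ℝ) : ℝ := n997 T u b x + 2 * (n376 T u b x)

noncomputable def n1019 (T : MolP) (u b x : ℝ) : ℝ := n699 T u b x + 1

noncomputable def n1020 (T : MolP) (u b x : ℝ) : ℝ := n1018 T u b x + 1

noncomputable def n1021 (T : MolP) (u b x : ℝ) : ℝ := (n1019 T u b x) * (T.dy)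

noncomputable def n1024 (T : MolP) (u b x : ℝ) : ℝ := (n1017 T u b x) * (n84 T u b x) + (n1019 T u b x) * (T.d1)

noncomputable def n1025 (T : MolP) (u b x : ℝ) : ℝ := (n1020 T u b x) * (n84 T u b x)

noncomputable def n1026 (T : MolP) (u b x : ℝ) : ℝ := n1014 T u b x - n1021 T u b x

noncomputable def n1027 (T : MolP) (u b x : ℝ) : ℝ := n1015 T u b x - n1024 T u b x

noncomputable def n1028 (T : MolP) (u b x : ℝ) : ℝ := n1016 T u b x - n1025 T u b x

noncomputable def n1030 (T : MolP) (u b x : ℝ) : ℝ := (T.it) * ((T.sD) * (n413 T u b x))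

noncomputable def n1032 (T : MolP) (u b x : ℝ) : ℝ := n1027 T u b x - n1030 T u b x

noncomputable def n1035 (T : MolP) (u b x : ℝ) : ℝ := n1028 T u b x - (b) * (n1030 T u b x)

noncomputable def n1036 (T : MolP) (u b x : ℝ) : ℝ := (n409 T u b x) * (n662 T u b x)

noncomputable def n1037 (T : MolP) (u b x : ℝ) : ℝ := (n440 T u b x) * (n662 T u b x)

noncomputable def n1038 (T : MolP) (u b x : ℝ) : ℝ := (n443 T u b x) * (n662 T u b x)

noncomputable def n1039 (T : MolP) (u b x : ℝ) : ℝ := (n1026 T u b x) * (n599 T u b x)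

noncomputable def n1040 (T : MolP) (u b x : ℝ) : ℝ := (n1032 T u b x) * (n599 T u b x)

noncomputable def n1041 (T : MolP) (u b x : ℝ) : ℝ := (n1035 T u b x) * (n599 T u b x)

noncomputable def n1042 (T : MolP) (u b x : ℝ) : ℝ := n1036 T u b x + n1039 T u b x

noncomputable def n1043 (T : MolP) (u b x : ℝ) : ℝ := n1037 T u b x + n1040 T u b x

noncomputable def n1044 (T : MolP) (u b x : ℝ) : ℝ := n1038 T u b x + n1041 T u b x

noncomputable def n1046 (T : MolP) (u b x : ℝ) : ℝ := (n460 T u b x) * (n1044 T u b x)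

noncomputable def n1047 (T : MolP) (u b x : ℝ) : ℝ := n748 T u b x - n749 T u b x + n1046 T u b x

noncomputable def n1049 (T : MolP) (u b x : ℝ) : ℝ := (n169 T u b x) * (n1042 T u b x - n728 T u b x)

noncomputable def n1050 (T : MolP) (u b x : ℝ) : ℝ := 1 / 2 * (n662 T u b x) + n1049 T u b x

noncomputable def n1051 (T : MolP) (u b x : ℝ) : ℝ := (n169 T u b x) * (n1043 T u b x)

noncomputable def n1054 (T : MolP) (u b x : ℝ) : ℝ := n747 T u b x + n1051 T u b x + n1044 T u b x - n759 T u b x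

noncomputable def n1055 (T : MolP) (u b x : ℝ) : ℝ := (n372 T u b x) * (n1044 T u b x)

noncomputable def n1057 (T : MolP) (u b x : ℝ) : ℝ := n878 T u b x + n1055 T u b x - n748 T u b x

noncomputable def n1059 (T : MolP) (u b x : ℝ) : ℝ := 1 / 2 * (n662 T u b x) + (b) * (n1057 T u b x)

noncomputable def n1060 (T : MolP) (u b x : ℝ) : ℝ := n1057 T u b x + n1047 T u b x

noncomputable def n1061 (T : MolP) (u b x : ℝ) : ℝ := (n3 T u b x) * (n1054 T u b x)

noncomputable def n1064 (T : MolP) (u b x : ℝ) : ℝ := (n169 T u b x) * (n1057 T u b x)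

noncomputable def n1068 (T : MolP) (u b x : ℝ) : ℝ := n1057 T u b x - n1061 T u b x + n1047 T u b x

noncomputable def n1070 (T : MolP) (u b x : ℝ) : ℝ := n1059 T u b x - (n372 T u b x) * (n1047 T u b x)

noncomputable def n1071 (T : MolP) (u b x : ℝ) : ℝ := n1064 T u b x + n1070 T u b x

noncomputable def n1075 (T : MolP) (u b x : ℝ) : ℝ := (n3 T u b x) * (n1050 T u b x)

noncomputable def n1076 (T : MolP) (u b x : ℝ) : ℝ := n1075 T u b x + n781 T u b x

noncomputable def n1078 (T : MolP) (u b x : ℝ) : ℝ := 1 / 2 * (n662 T u b x) + (b) * (n1060 T u b x)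

noncomputable def n1092 (T : MolP) (u b x : ℝ) : ℝ := (n205 T u b x) * ((n990 T u b x) * (n1078 T u b x) + (n654 T u b x) * (n1060 T u b x)) - (n15 T u b x) * ((n1061 T u b x - (n477 T u b x) * (n1047 T u b x) + n1064 T u b x + n1059 T u b x) * (n1078 T u b x) + (n1076 T u b x) * (n1060 T u b x) - (x) * ((n1054 T u b x) * (n1059 T u b x) + (n1050 T u b x) * (n1057 T u b x)))

noncomputable def n1093 (T : MolP) (u b x : ℝ) : ℝ := 1 / 2 * (n662 T u b x) - n1075 T u b x

noncomputable def n1094 (T : MolP) (u b x : ℝ) : ℝ := n1093 T u b x + n800 T u b x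

noncomputable def n1096 (T : MolP) (u b x : ℝ) : ℝ := n781 T u b x + (b) * (n1071 T u b x)

noncomputable def n1110 (T : MolP) (u b x : ℝ) : ℝ := (n224 T u b x) * ((n990 T u b x) * (n1096 T u b x) + (n654 T u b x) * (n1071 T u b x)) - (n15 T u b x) * ((n1068 T u b x - n1070 T u b x + (n3 T u b x) * (n1057 T u b x)) * (n1096 T u b x) + (n1094 T u b x) * (n1071 T u b x) - (n205 T u b x) * ((n1068 T u b x) * (n1059 T u b x) + (n1093 T u b x) * (n1057 T u b x)))

noncomputable def n1111 (T : MolP) (u b x : ℝ) : ℝ := (b) * (n1047 T u b x)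

noncomputable def n1115 (T : MolP) (u b x : ℝ) : ℝ := (n372 T u b x) * (n1059 T u b x + n1111 T u b x) - (x) * (n1059 T u b x)

noncomputable def n1117 (T : MolP) (u b x : ℝ) : ℝ := n868 T u b x + (b) * (n1092 T u b x)

noncomputable def n1119 (T : MolP) (u b x : ℝ) : ℝ := n872 T u b x + (b) * (n1110 T u b x)

noncomputable def n1120 (T : MolP) (u b x : ℝ) : ℝ := max (n984 T u b x) (n986 T u b x)

noncomputable def n1122 (T : MolP) (u b x : ℝ) : ℝ := 1 / 2 * (n12 T u b x + (T.p1) * (n16 T u b x) + (T.ws) * (n3 T u b x)) + (n599 T u b x) * (n1120 T u b x)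

noncomputable def n1124 (T : MolP) (u b x : ℝ) : ℝ := n762 T u b x + n1046 T u b x + n748 T u b x

noncomputable def n1126 (T : MolP) (u b x : ℝ) : ℝ := 1 / 2 * (n662 T u b x) + (b) * (n1124 T u b x)

noncomputable def n1127 (T : MolP) (u b x : ℝ) : ℝ := n1124 T u b x - n1047 T u b x

noncomputable def n1130 (T : MolP) (u b x : ℝ) : ℝ := (n169 T u b x) * (n1124 T u b x)

noncomputable def n1132 (T : MolP) (u b x : ℝ) : ℝ := n1124 T u b x - n1061 T u b x

noncomputable def n1134 (T : MolP) (u b x : ℝ) : ℝ := n1126 T u b x - (n3 T u b x) * (n1047 T u b x)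

noncomputable def n1136 (T : MolP) (u b x : ℝ) : ℝ := n1130 T u b x + n1126 T u b x - n1134 T u b x

noncomputable def n1142 (T : MolP) (u b x : ℝ) : ℝ := 1 / 2 * (n662 T u b x) + (b) * (n1127 T u b x)

noncomputable def n1156 (T : MolP) (u b x : ℝ) : ℝ := (n205 T u b x) * ((n1122 T u b x) * (n1142 T u b x) + (n654 T u b x) * (n1127 T u b x)) - (n15 T u b x) * (((n3 T u b x) * (n1054 T u b x + n1047 T u b x) + n1130 T u b x) * (n1142 T u b x) + (n1076 T u b x) * (n1127 T u b x) - (x) * ((n1054 T u b x) * (n1126 T u b x) + (n1050 T u b x) * (n1124 T u b x)))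

noncomputable def n1158 (T : MolP) (u b x : ℝ) : ℝ := n781 T u b x + (b) * (n1136 T u b x)

noncomputable def n1172 (T : MolP) (u b x : ℝ) : ℝ := (n224 T u b x) * ((n1122 T u b x) * (n1158 T u b x) + (n654 T u b x) * (n1136 T u b x)) - (n15 T u b x) * ((n1132 T u b x + n1134 T u b x + (n3 T u b x) * (n1124 T u b x) - n1126 T u b x) * (n1158 T u b x) + (n1094 T u b x) * (n1136 T u b x) - (n205 T u b x) * ((n1132 T u b x) * (n1126 T u b x) + (n1093 T u b x) * (n1124 T u b x)))

noncomputable def n1176 (T : MolP) (u b x : ℝ) : ℝ := (n3 T u b x) * (n1126 T u b x - n1111 T u b x) - (x) * (n1126 T u b x)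

noncomputable def n1180 (T : MolP) (u b x : ℝ) : ℝ := n868 T u b x + (b) * (n1156 T u b x)

noncomputable def n1182 (T : MolP) (u b x : ℝ) : ℝ := n872 T u b x + (b) * (n1172 T u b x)

noncomputable def n1185 (T : MolP) (u b x : ℝ) : ℝ := 1 / 2 * (n675 T u b x) - T.dy

noncomputable def n1186 (T : MolP) (u b x : ℝ) : ℝ := T.m1 - n719 T u b x

noncomputable def n1187 (T : MolP) (u b x : ℝ) : ℝ := n716 T u b x - n721 T u b x

noncomputable def n1189 (T : MolP) (u b x : ℝ) : ℝ := |T.k2 + n721 T u b x|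

noncomputable def n1192 (T : MolP) (u b x : ℝ) : ℝ := (((n599 T u b x) * (n1185 T u b x)) * (T.k52)) * (x)

noncomputable def n1195 (T : MolP) (u b x : ℝ) : ℝ := (((n599 T u b x) * (n1186 T u b x)) * (T.k52)) * (x)

noncomputable def n1197 (T : MolP) (u b x : ℝ) : ℝ := ((n599 T u b x) * (n1189 T u b x)) * (T.k1)

noncomputable def n1198 (T : MolP) (u b x : ℝ) : ℝ := n1195 T u b x + n1197 T u b x

noncomputable def n1202 (T : MolP) (u b x : ℝ) : ℝ := (((n15 T u b x) * (n599 T u b x)) * (T.k1)) * ((x)⁻¹)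

noncomputable def n1203 (T : MolP) (u b x : ℝ) : ℝ := (n1202 T u b x) * (n1185 T u b x)

noncomputable def n1204 (T : MolP) (u b x : ℝ) : ℝ := (n298 T u b x) * (n1203 T u b x)

noncomputable def n1206 (T : MolP) (u b x : ℝ) : ℝ := (n298 T u b x) * ((n1202 T u b x) * (n1186 T u b x))

noncomputable def n1209 (T : MolP) (u b x : ℝ) : ℝ := n654 T u b x - n1204 T u b x - (n15 T u b x) * (n1192 T u b x)

noncomputable def n1212 (T : MolP) (u b x : ℝ) : ℝ := n656 T u b x - n1206 T u b x - (n15 T u b x) * (n1198 T u b x)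

noncomputable def n1214 (T : MolP) (u b x : ℝ) : ℝ := n1192 T u b x + (b) * (n1198 T u b x)

noncomputable def n1215 (T : MolP) (u b x : ℝ) : ℝ := 1 / 2 * (n662 T u b x) - n1192 T u b x

noncomputable def n1216 (T : MolP) (u b x : ℝ) : ℝ := n747 T u b x - n1198 T u b x

noncomputable def n1217 (T : MolP) (u b x : ℝ) : ℝ := n748 T u b x - n1214 T u b x

noncomputable def n1219 (T : MolP) (u b x : ℝ) : ℝ := n1217 T u b x + n749 T u b x - n751 T u b x

noncomputable def n1220 (T : MolP) (u b x : ℝ) : ℝ := n1215 T u b x + n754 T u b x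

noncomputable def n1223 (T : MolP) (u b x : ℝ) : ℝ := n1216 T u b x + n739 T u b x - n757 T u b x + n759 T u b x

noncomputable def n1226 (T : MolP) (u b x : ℝ) : ℝ := n1216 T u b x + n761 T u b x - n1217 T u b x + n751 T u b x

noncomputable def n1228 (T : MolP) (u b x : ℝ) : ℝ := n1215 T u b x + (b) * (n1226 T u b x)

noncomputable def n1229 (T : MolP) (u b x : ℝ) : ℝ := n1226 T u b x + n1219 T u b x

noncomputable def n1232 (T : MolP) (u b x : ℝ) : ℝ := (n169 T u b x) * (n1226 T u b x)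

noncomputable def n1235 (T : MolP) (u b x : ℝ) : ℝ := n1226 T u b x - (n3 T u b x) * (n1223 T u b x)

noncomputable def n1236 (T : MolP) (u b x : ℝ) : ℝ := (n3 T u b x) * (n1219 T u b x)

noncomputable def n1237 (T : MolP) (u b x : ℝ) : ℝ := n1232 T u b x - n1236 T u b x

noncomputable def n1241 (T : MolP) (u b x : ℝ) : ℝ := n1228 T u b x - n1236 T u b x

noncomputable def n1242 (T : MolP) (u b x : ℝ) : ℝ := (n3 T u b x) * (n1220 T u b x)

noncomputable def n1243 (T : MolP) (u b x : ℝ) : ℝ := (n169 T u b x) * (n1215 T u b x)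

noncomputable def n1244 (T : MolP) (u b x : ℝ) : ℝ := n1242 T u b x + n1243 T u b x

noncomputable def n1246 (T : MolP) (u b x : ℝ) : ℝ := n1215 T u b x + (b) * (n1229 T u b x)

noncomputable def n1260 (T : MolP) (u b x : ℝ) : ℝ := (n205 T u b x) * ((n1212 T u b x) * (n1246 T u b x) + (n1209 T u b x) * (n1229 T u b x)) - (n15 T u b x) * (((n3 T u b x) * (n1223 T u b x - n1219 T u b x) + n1232 T u b x) * (n1246 T u b x) + (n1244 T u b x) * (n1229 T u b x) - (x) * ((n1223 T u b x) * (n1228 T u b x) + (n1220 T u b x) * (n1226 T u b x)))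

noncomputable def n1261 (T : MolP) (u b x : ℝ) : ℝ := n1215 T u b x - n1242 T u b x

noncomputable def n1262 (T : MolP) (u b x : ℝ) : ℝ := (n3 T u b x) * (n1215 T u b x)

noncomputable def n1263 (T : MolP) (u b x : ℝ) : ℝ := n1261 T u b x + n1262 T u b x

noncomputable def n1265 (T : MolP) (u b x : ℝ) : ℝ := n1243 T u b x + (b) * (n1237 T u b x)

noncomputable def n1279 (T : MolP) (u b x : ℝ) : ℝ := (n224 T u b x) * ((n1212 T u b x) * (n1265 T u b x) + (n1209 T u b x) * (n1237 T u b x)) - (n15 T u b x) * ((n1236 T u b x + n1235 T u b x + (n3 T u b x) * (n1226 T u b x)) * (n1265 T u b x) + (n1263 T u b x) * (n1237 T u b x) - (n205 T u b x) * ((n1235 T u b x) * (n1228 T u b x) + (n1261 T u b x) * (n1226 T u b x)))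

noncomputable def n1281 (T : MolP) (u b x : ℝ) : ℝ := n859 T u b x - (n205 T u b x) * (n1203 T u b x)

noncomputable def n1283 (T : MolP) (u b x : ℝ) : ℝ := n861 T u b x - (x) * (n1203 T u b x)

noncomputable def n1288 (T : MolP) (u b x : ℝ) : ℝ := (n3 T u b x) * (n1228 T u b x + (b) * (n1219 T u b x)) - (x) * (n1228 T u b x)

noncomputable def n1290 (T : MolP) (u b x : ℝ) : ℝ := (n298 T u b x) * ((n1281 T u b x) * (n1215 T u b x))

noncomputable def n1292 (T : MolP) (u b x : ℝ) : ℝ := n1290 T u b x + (b) * (n1260 T u b x)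

noncomputable def n1294 (T : MolP) (u b x : ℝ) : ℝ := (n298 T u b x) * ((n1283 T u b x) * (n1243 T u b x))

noncomputable def n1296 (T : MolP) (u b x : ℝ) : ℝ := n1294 T u b x + (b) * (n1279 T u b x)

noncomputable def n1298 (T : MolP) (u b x : ℝ) : ℝ := n1195 T u b x - n1197 T u b x

noncomputable def n1301 (T : MolP) (u b x : ℝ) : ℝ := n877 T u b x - n1206 T u b x - (n15 T u b x) * (n1298 T u b x)

noncomputable def n1303 (T : MolP) (u b x : ℝ) : ℝ := n1192 T u b x + (b) * (n1298 T u b x)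

noncomputable def n1304 (T : MolP) (u b x : ℝ) : ℝ := n747 T u b x - n1298 T u b x

noncomputable def n1305 (T : MolP) (u b x : ℝ) : ℝ := n748 T u b x - n1303 T u b x

noncomputable def n1307 (T : MolP) (u b x : ℝ) : ℝ := n1305 T u b x + n749 T u b x - n751 T u b x

noncomputable def n1310 (T : MolP) (u b x : ℝ) : ℝ := n1304 T u b x + n739 T u b x - n757 T u b x + n759 T u b x

noncomputable def n1313 (T : MolP) (u b x : ℝ) : ℝ := n1304 T u b x + n749 T u b x + n879 T u b x + n1305 T u b x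

noncomputable def n1315 (T : MolP) (u b x : ℝ) : ℝ := n1215 T u b x + (b) * (n1313 T u b x)

noncomputable def n1316 (T : MolP) (u b x : ℝ) : ℝ := n1313 T u b x - n1307 T u b x

noncomputable def n1317 (T : MolP) (u b x : ℝ) : ℝ := (n3 T u b x) * (n1310 T u b x)

noncomputable def n1320 (T : MolP) (u b x : ℝ) : ℝ := (n169 T u b x) * (n1313 T u b x)

noncomputable def n1324 (T : MolP) (u b x : ℝ) : ℝ := n1313 T u b x - n1317 T u b x - n1307 T u b x

noncomputable def n1326 (T : MolP) (u b x : ℝ) : ℝ := n1315 T u b x - (n30 T u b x) * (n1307 T u b x)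

noncomputable def n1327 (T : MolP) (u b x : ℝ) : ℝ := n1320 T u b x - n1326 T u b x

noncomputable def n1332 (T : MolP) (u b x : ℝ) : ℝ := n1215 T u b x + (b) * (n1316 T u b x)

noncomputable def n1346 (T : MolP) (u b x : ℝ) : ℝ := (n205 T u b x) * ((n1301 T u b x) * (n1332 T u b x) + (n1209 T u b x) * (n1316 T u b x)) - (n15 T u b x) * ((n1317 T u b x + (n316 T u b x) * (n1307 T u b x) + n1320 T u b x - n1315 T u b x) * (n1332 T u b x) + (n1244 T u b x) * (n1316 T u b x) - (x) * ((n1310 T u b x) * (n1315 T u b x) + (n1220 T u b x) * (n1313 T u b x)))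

noncomputable def n1348 (T : MolP) (u b x : ℝ) : ℝ := n1243 T u b x + (b) * (n1327 T u b x)

noncomputable def n1362 (T : MolP) (u b x : ℝ) : ℝ := (n224 T u b x) * ((n1301 T u b x) * (n1348 T u b x) + (n1209 T u b x) * (n1327 T u b x)) - (n15 T u b x) * ((n1324 T u b x + n1326 T u b x + (n3 T u b x) * (n1313 T u b x)) * (n1348 T u b x) + (n1263 T u b x) * (n1327 T u b x) - (n205 T u b x) * ((n1324 T u b x) * (n1315 T u b x) + (n1261 T u b x) * (n1313 T u b x)))

noncomputable def n1367 (T : MolP) (u b x : ℝ) : ℝ := (n30 T u b x) * (n1315 T u b x - (b) * (n1307 T u b x)) - (x) * (n1315 T u b x)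

noncomputable def n1371 (T : MolP) (u b x : ℝ) : ℝ := n1290 T u b x + (b) * (n1346 T u b x)

noncomputable def n1373 (T : MolP) (u b x : ℝ) : ℝ := n1294 T u b x + (b) * (n1362 T u b x)

noncomputable def n1374 (T : MolP) (u b x : ℝ) : ℝ := n1032 T u b x - T.m1

noncomputable def n1375 (T : MolP) (u b x : ℝ) : ℝ := n1035 T u b x - n716 T u b x

noncomputable def n1377 (T : MolP) (u b x : ℝ) : ℝ := |T.k2 + n1035 T u b x|

noncomputable def n1380 (T : MolP) (u b x : ℝ) : ℝ := (((n599 T u b x) * (n1374 T u b x)) * (T.k52)) * (x)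

noncomputable def n1382 (T : MolP) (u b x : ℝ) : ℝ := ((n599 T u b x) * (n1377 T u b x)) * (T.k1)

noncomputable def n1383 (T : MolP) (u b x : ℝ) : ℝ := n1380 T u b x + n1382 T u b x

noncomputable def n1385 (T : MolP) (u b x : ℝ) : ℝ := (n298 T u b x) * ((n1202 T u b x) * (n1374 T u b x))

noncomputable def n1388 (T : MolP) (u b x : ℝ) : ℝ := n990 T u b x - n1385 T u b x - (n15 T u b x) * (n1383 T u b x)

noncomputable def n1390 (T : MolP) (u b x : ℝ) : ℝ := n1192 T u b x + (b) * (n1383 T u b x)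

noncomputable def n1391 (T : MolP) (u b x : ℝ) : ℝ := n747 T u b x - n1383 T u b x

noncomputable def n1392 (T : MolP) (u b x : ℝ) : ℝ := n748 T u b x - n1390 T u b x

noncomputable def n1394 (T : MolP) (u b x : ℝ) : ℝ := n1392 T u b x - n749 T u b x + n1046 T u b x

noncomputable def n1395 (T : MolP) (u b x : ℝ) : ℝ := n1215 T u b x + n1049 T u b x

noncomputable def n1398 (T : MolP) (u b x : ℝ) : ℝ := n1391 T u b x + n1051 T u b x + n1044 T u b x - n759 T u b x

noncomputable def n1401 (T : MolP) (u b x : ℝ) : ℝ := n1391 T u b x + n749 T u b x + n1055 T u b x - n1392 T u b x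

noncomputable def n1403 (T : MolP) (u b x : ℝ) : ℝ := n1215 T u b x + (b) * (n1401 T u b x)

noncomputable def n1404 (T : MolP) (u b x : ℝ) : ℝ := n1401 T u b x + n1394 T u b x

noncomputable def n1405 (T : MolP) (u b x : ℝ) : ℝ := (n3 T u b x) * (n1398 T u b x)

noncomputable def n1408 (T : MolP) (u b x : ℝ) : ℝ := (n169 T u b x) * (n1401 T u b x)

noncomputable def n1412 (T : MolP) (u b x : ℝ) : ℝ := n1401 T u b x - n1405 T u b x + n1394 T u b x

noncomputable def n1414 (T : MolP) (u b x : ℝ) : ℝ := n1403 T u b x - (n372 T u b x) * (n1394 T u b x)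

noncomputable def n1415 (T : MolP) (u b x : ℝ) : ℝ := n1408 T u b x + n1414 T u b x

noncomputable def n1419 (T : MolP) (u b x : ℝ) : ℝ := (n3 T u b x) * (n1395 T u b x)

noncomputable def n1420 (T : MolP) (u b x : ℝ) : ℝ := n1419 T u b x + n1243 T u b x

noncomputable def n1422 (T : MolP) (u b x : ℝ) : ℝ := n1215 T u b x + (b) * (n1404 T u b x)

noncomputable def n1436 (T : MolP) (u b x : ℝ) : ℝ := (n205 T u b x) * ((n1388 T u b x) * (n1422 T u b x) + (n1209 T u b x) * (n1404 T u b x)) - (n15 T u b x) * ((n1405 T u b x - (n477 T u b x) * (n1394 T u b x) + n1408 T u b x + n1403 T u b x) * (n1422 T u b x) + (n1420 T u b x) * (n1404 T u b x) - (x) * ((n1398 T u b x) * (n1403 T u b x) + (n1395 T u b x) * (n1401 T u b x)))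

noncomputable def n1437 (T : MolP) (u b x : ℝ) : ℝ := n1215 T u b x - n1419 T u b x

noncomputable def n1438 (T : MolP) (u b x : ℝ) : ℝ := n1437 T u b x + n1262 T u b x

noncomputable def n1440 (T : MolP) (u b x : ℝ) : ℝ := n1243 T u b x + (b) * (n1415 T u b x)

noncomputable def n1454 (T : MolP) (u b x : ℝ) : ℝ := (n224 T u b x) * ((n1388 T u b x) * (n1440 T u b x) + (n1209 T u b x) * (n1415 T u b x)) - (n15 T u b x) * ((n1412 T u b x - n1414 T u b x + (n3 T u b x) * (n1401 T u b x)) * (n1440 T u b x) + (n1438 T u b x) * (n1415 T u b x) - (n205 T u b x) * ((n1412 T u b x) * (n1403 T u b x) + (n1437 T u b x) * (n1401 T u b x)))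

noncomputable def n1459 (T : MolP) (u b x : ℝ) : ℝ := (n372 T u b x) * (n1403 T u b x + (b) * (n1394 T u b x)) - (x) * (n1403 T u b x)

noncomputable def n1461 (T : MolP) (u b x : ℝ) : ℝ := n1290 T u b x + (b) * (n1436 T u b x)

noncomputable def n1463 (T : MolP) (u b x : ℝ) : ℝ := n1294 T u b x + (b) * (n1454 T u b x)

noncomputable def n1465 (T : MolP) (u b x : ℝ) : ℝ := n1380 T u b x - n1382 T u b x

noncomputable def n1468 (T : MolP) (u b x : ℝ) : ℝ := n1122 T u b x - n1385 T u b x - (n15 T u b x) * (n1465 T u b x)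

noncomputable def n1470 (T : MolP) (u b x : ℝ) : ℝ := n1192 T u b x + (b) * (n1465 T u b x)

noncomputable def n1471 (T : MolP) (u b x : ℝ) : ℝ := n747 T u b x - n1465 T u b x

noncomputable def n1472 (T : MolP) (u b x : ℝ) : ℝ := n748 T u b x - n1470 T u b x

noncomputable def n1474 (T : MolP) (u b x : ℝ) : ℝ := n1472 T u b x - n749 T u b x + n1046 T u b x

noncomputable def n1477 (T : MolP) (u b x : ℝ) : ℝ := n1471 T u b x + n1051 T u b x + n1044 T u b x - n759 T u b x

noncomputable def n1480 (T : MolP) (u b x : ℝ) : ℝ := n1471 T u b x + n761 T u b x + n1046 T u b x + n1472 T u b x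

noncomputable def n1482 (T : MolP) (u b x : ℝ) : ℝ := n1215 T u b x + (b) * (n1480 T u b x)

noncomputable def n1483 (T : MolP) (u b x : ℝ) : ℝ := n1480 T u b x - n1474 T u b x

noncomputable def n1486 (T : MolP) (u b x : ℝ) : ℝ := (n169 T u b x) * (n1480 T u b x)

noncomputable def n1489 (T : MolP) (u b x : ℝ) : ℝ := n1480 T u b x - (n3 T u b x) * (n1477 T u b x)

noncomputable def n1491 (T : MolP) (u b x : ℝ) : ℝ := n1482 T u b x - (n3 T u b x) * (n1474 T u b x)

noncomputable def n1493 (T : MolP) (u b x : ℝ) : ℝ := n1486 T u b x + n1482 T u b x - n1491 T u b x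

noncomputable def n1499 (T : MolP) (u b x : ℝ) : ℝ := n1215 T u b x + (b) * (n1483 T u b x)

noncomputable def n1513 (T : MolP) (u b x : ℝ) : ℝ := (n205 T u b x) * ((n1468 T u b x) * (n1499 T u b x) + (n1209 T u b x) * (n1483 T u b x)) - (n15 T u b x) * (((n3 T u b x) * (n1477 T u b x + n1474 T u b x) + n1486 T u b x) * (n1499 T u b x) + (n1420 T u b x) * (n1483 T u b x) - (x) * ((n1477 T u b x) * (n1482 T u b x) + (n1395 T u b x) * (n1480 T u b x)))

noncomputable def n1515 (T : MolP) (u b x : ℝ) : ℝ := n1243 T u b x + (b) * (n1493 T u b x)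

noncomputable def n1529 (T : MolP) (u b x : ℝ) : ℝ := (n224 T u b x) * ((n1468 T u b x) * (n1515 T u b x) + (n1209 T u b x) * (n1493 T u b x)) - (n15 T u b x) * ((n1489 T u b x + n1491 T u b x + (n3 T u b x) * (n1480 T u b x) - n1482 T u b x) * (n1515 T u b x) + (n1438 T u b x) * (n1493 T u b x) - (n205 T u b x) * ((n1489 T u b x) * (n1482 T u b x) + (n1437 T u b x) * (n1480 T u b x)))

noncomputable def n1534 (T : MolP) (u b x : ℝ) : ℝ := (n3 T u b x) * (n1482 T u b x - (b) * (n1474 T u b x)) - (x) * (n1482 T u b x)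

noncomputable def n1538 (T : MolP) (u b x : ℝ) : ℝ := n1290 T u b x + (b) * (n1513 T u b x)

noncomputable def n1540 (T : MolP) (u b x : ℝ) : ℝ := n1294 T u b x + (b) * (n1529 T u b x)

end Pool.Agent.Strip051.LC.MolN
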