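import Pool.Agent.Strip051.LC.Exact.MolN1

/-! # The tight triangles: divided differences of the straight line programs (generated) -/

set_option linter.unusedVariables false

namespace Pool.Agent.Strip051.LC.MolN

open Pool.Agent.Strip051.LC

theorem ne_e {y : ℝ} (h0 : 0 < y) (h1 : y < 1) : 1 / 2 * y + √(1 - 3 / 4 * y ^ 2) - 1 ≠ 0 := by
  have := cn_e h0 h1
  apply ne_of_gt
  linarith

theorem J0 (T : MolP) {u b x : ℝ} :
    n142 T u b x = 1 / 2 + b * (T.rs) := by
  simp only [n142]
  all_goals ring

theorem J1 (T : MolP) {u b x : ℝ} (h : DomA u b x) :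
    n34 T u b x = n12 T u b x + b * (-(n41 T u b x)) := by
  have hcy : (n12 T u b x) ^ 2 = 1 - 3 / 4 * (n3 T u b x) ^ 2 := cn_sq (y := n3 T u b x) h.y0 h.y1
  have hcp : (n34 T u b x) ^ 2 = 1 - 3 / 4 * (n30 T u b x) ^ 2 := cn_sq (y := n30 T u b x) h.p0 h.p1
  have p1 : 0 < n12 T u b x := cn_pos (y := n3 T u b x) h.y0 h.y1
  have p2 : 0 < n34 T u b x := cn_pos (y := n30 T u b x) h.p0 h.p1
  have e : (n12 T u b x + n34 T u b x) * (n12 T u b x + n34 T u b x)⁻¹ = 1 := mul_inv_cancel₀ (by positivity)
  have ey : n30 T u b x = n3 T u b x + b := by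
    simp only [n30]
    try ring
  rw [ey] at hcp
  simp only [n41]
  linear_combination (-(n34 T u b x - n12 T u b x)) * e + (n12 T u b x + n34 T u b x)⁻¹ * hcp - (n12 T u b x + n34 T u b x)⁻¹ * hcy

theorem J2 (T : MolP) {u b x : ℝ} :
    1 / 2 = 1 / 2 + b * (0) := by
  ring

theorem J3 (T : MolP) {u b x : ℝ} (h : DomA u b x) :
    n80 T u b x = n79 T u b x + b * (-(n41 T u b x)) := by
  have j1 := J1 T (u := u) (b := b) (x := x) h
  have j2 := J2 T (u := u) (b := b) (x := x)
  simp only [n80, n79]
  all_goals linear_combination j1 - j2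

theorem J4 (T : MolP) {u b x : ℝ} :
    n30 T u b x = n3 T u b x + b * (1) := by
  simp only [n30, n3]
  ring

theorem J5 (T : MolP) {u b x : ℝ} (h : DomA u b x) :
    n57 T u b x = n52 T u b x + b * (n56 T u b x) := by
  have j1 := J4 T (u := u) (b := b) (x := x)
  have j2 := J1 T (u := u) (b := b) (x := x) h
  have z0 : n12 T u b x ≠ 0 := (cn_pos (y := n3 T u b x) h.y0 h.y1).ne'
  have z1 : n34 T u b x ≠ 0 := (cn_pos (y := n30 T u b x) h.p0 h.p1).ne'
  have q : (n52 T u b x) * (n12 T u b x) = n3 T u b x := by
    have i0 : (n51 T u b x) * (n12 T u b x) = 1 := inv_mul_cancel₀ z0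
    simp only [n52]
    linear_combination (n3 T u b x) * i0
  have i1 : (n50 T u b x) * (n34 T u b x) = 1 := inv_mul_cancel₀ z1
  simp only [n57, n56]
  linear_combination (n50 T u b x) * j1 - (n52 T u b x) * (n50 T u b x) * j2 - (n50 T u b x) * q + (n52 T u b x) * i1

theorem J6 (T : MolP) {u b x : ℝ} (h : DomA u b x) :
    3 / 4 * (n57 T u b x) = 3 / 4 * (n52 T u b x) + b * (3 / 4 * (n56 T u b x)) := by
  have j1 := J5 T (u := u) (b := b) (x := x) h
  all_goals linear_combination (3 / 4) * j1

theorem J7 (T : MolP) {u b x : ℝ} (h : DomA u b x) :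
    n71 T u b x = n69 T u b x + b * (-(3 / 4 * (n56 T u b x))) := by
  have j1 := J2 T (u := u) (b := b) (x := x)
  have j2 := J6 T (u := u) (b := b) (x := x) h
  simp only [n71, n69]
  all_goals linear_combination j1 - j2

theorem J8 (T : MolP) {u b x : ℝ} :
    1 / 2 * (n30 T u b x) = 1 / 2 * (n3 T u b x) + b * (1 / 2) := by
  have j1 := J4 T (u := u) (b := b) (x := x)
  all_goals linear_combination (1 / 2) * j1

theorem J9 (T : MolP) {u b x : ℝ} (h : DomA u b x) :
    n62 T u b x = n60 T u b x + b * (n61 T u b x) := by
  have j1 := J8 T (u := u) (b := b) (x := x)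
  have j2 := J1 T (u := u) (b := b) (x := x) h
  simp only [n62, n61, n60]
  all_goals linear_combination j1 + j2

theorem J10 (T : MolP) {u b x : ℝ} :
    1 = 1 + b * (0) := by
  ring

theorem J11 (T : MolP) {u b x : ℝ} (h : DomA u b x) :
    n65 T u b x = n64 T u b x + b * (n61 T u b x) := by
  have j1 := J9 T (u := u) (b := b) (x := x) h
  have j2 := J10 T (u := u) (b := b) (x := x)
  simp only [n65, n64]
  all_goals linear_combination j1 - j2

theorem J12 (T : MolP) {u b x : ℝ} (h : DomA u b x) :
    n78 T u b x = n74 T u b x + b * (n77 T u b x) := by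
  have j1 := J7 T (u := u) (b := b) (x := x) h
  have j2 := J11 T (u := u) (b := b) (x := x) h
  have z0 : n64 T u b x ≠ 0 := ne_e (y := n3 T u b x) h.y0 h.y1
  have z1 : n65 T u b x ≠ 0 := ne_e (y := n30 T u b x) h.p0 h.p1
  have q : (n74 T u b x) * (n64 T u b x) = n69 T u b x := by
    have i0 : (n73 T u b x) * (n64 T u b x) = 1 := inv_mul_cancel₀ z0
    simp only [n74]
    linear_combination (n69 T u b x) * i0
  have i1 : (n72 T u b x) * (n65 T u b x) = 1 := inv_mul_cancel₀ z1
  simp only [n78, n77]
  linear_combination (n72 T u b x) * j1 - (n74 T u b x) * (n72 T u b x) * j2 - (n72 T u b x) * q + (n74 T u b x) * i1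

theorem J13 (T : MolP) {u b x : ℝ} (h : DomA u b x) :
    n90 T u b x = n85 T u b x + b * (n89 T u b x) := by
  have j1 := J3 T (u := u) (b := b) (x := x) h
  have j2 := J12 T (u := u) (b := b) (x := x) h
  simp only [n90, n89, n85]
  all_goals linear_combination (n78 T u b x) * j1 + (n79 T u b x) * j2

theorem J14 (T : MolP) {u b x : ℝ} :
    n84 T u b x = T.dy + b * (T.d1) := by
  simp only [n84]
  all_goals ring

theorem J15 (T : MolP) {u b x : ℝ} (h : DomA u b x) :
    n94 T u b x = n92 T u b x + b * (n93 T u b x) := by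
  have j1 := J13 T (u := u) (b := b) (x := x) h
  have j2 := J14 T (u := u) (b := b) (x := x)
  simp only [n94, n93, n92]
  all_goals linear_combination j1 + j2

theorem J16 (T : MolP) {u b x : ℝ} (h : DomA u b x) :
    n139 T u b x = n92 T u b x + b * (n137 T u b x) := by
  have j1 := J15 T (u := u) (b := b) (x := x) h
  simp only [n139, n137]
  all_goals linear_combination j1

theorem J17 (T : MolP) {u b x : ℝ} :
    n100 T u b x = n95 T u b x + b * (T.q1) := by
  simp only [n100]
  all_goals ring

theorem J18 (T : MolP) {u b x : ℝ} (h : DomA u b x) :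
    n103 T u b x = n102 T u b x + b * (n41 T u b x) := by
  have j1 := J10 T (u := u) (b := b) (x := x)
  have j2 := J1 T (u := u) (b := b) (x := x) h
  simp only [n103, n102]
  all_goals linear_combination j1 - j2

theorem J19 (T : MolP) {u b x : ℝ} (h : DomA u b x) :
    2 * (n34 T u b x) = 2 * (n12 T u b x) + b * (-(2 * (n41 T u b x))) := by
  have j1 := J1 T (u := u) (b := b) (x := x) h
  all_goals linear_combination 2 * j1

theorem J20 (T : MolP) {u b x : ℝ} (h : DomA u b x) :
    n109 T u b x = n108 T u b x + b * (-(2 * (n41 T u b x))) := by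
  have j1 := J19 T (u := u) (b := b) (x := x) h
  have j2 := J10 T (u := u) (b := b) (x := x)
  simp only [n109, n108]
  all_goals linear_combination j1 - j2

theorem J21 (T : MolP) {u b x : ℝ} (h : DomA u b x) :
    n115 T u b x = n110 T u b x + b * (n114 T u b x) := by
  have j1 := J18 T (u := u) (b := b) (x := x) h
  have j2 := J20 T (u := u) (b := b) (x := x) h
  simp only [n115, n114, n110]
  all_goals linear_combination (n109 T u b x) * j1 + (n102 T u b x) * j2

theorem J22 (T : MolP) {u b x : ℝ} (h : DomA u b x) :
    n121 T u b x = n117 T u b x + b * (n120 T u b x) := by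
  have j1 := J11 T (u := u) (b := b) (x := x) h
  have j2 := J14 T (u := u) (b := b) (x := x)
  simp only [n121, n120, n119, n117]
  all_goals linear_combination (n84 T u b x) * j1 + (n64 T u b x) * j2

theorem J23 (T : MolP) {u b x : ℝ} :
    n116 T u b x = u + b * (1) := by
  simp only [n116, n30, n3]
  ring

theorem J24 (T : MolP) {u b x : ℝ} (h : DomA u b x) :
    n125 T u b x = n122 T u b x + b * (n124 T u b x) := by
  have j1 := J22 T (u := u) (b := b) (x := x) h
  have j2 := J23 T (u := u) (b := b) (x := x)
  simp only [n125, n124, n122]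
  all_goals linear_combination (n116 T u b x) * j1 + (n117 T u b x) * j2

theorem J25 (T : MolP) {u b x : ℝ} (h : DomA u b x) :
    2 * (n125 T u b x) = 2 * (n122 T u b x) + b * (2 * (n124 T u b x)) := by
  have j1 := J24 T (u := u) (b := b) (x := x) h
  all_goals linear_combination 2 * j1

theorem J26 (T : MolP) {u b x : ℝ} (h : DomA u b x) :
    n131 T u b x = n129 T u b x + b * (n130 T u b x) := by
  have j1 := J21 T (u := u) (b := b) (x := x) h
  have j2 := J25 T (u := u) (b := b) (x := x) h
  simp only [n131, n130, n129]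
  all_goals linear_combination j1 - j2

theorem J27 (T : MolP) {u b x : ℝ} (h : DomA u b x) :
    n148 T u b x = n129 T u b x + b * (n146 T u b x) := by
  have j1 := J26 T (u := u) (b := b) (x := x) h
  simp only [n148, n146]
  all_goals linear_combination j1

theorem J28 (T : MolP) {u b x : ℝ} (h : DomW b) :
    n20 T u b x = 1 / 2 + b * (-((3 / 4 * (2 + b)) * ((n20 T u b x + 1 / 2)⁻¹))) := by
  have hw : (n20 T u b x) ^ 2 = 1 - 3 / 4 * (1 + b) ^ 2 := by
    simp only [n20, n16]
    exact cw_sq h.b0 h.b1
  have hp : 0 ≤ (n20 T u b x) := by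
    simp only [n20]
    exact Real.sqrt_nonneg _
  have e : ((n20 T u b x) + 1 / 2) * ((n20 T u b x) + 1 / 2)⁻¹ = 1 := mul_inv_cancel₀ (by positivity)
  linear_combination (-((n20 T u b x) - 1 / 2)) * e + ((n20 T u b x) + 1 / 2)⁻¹ * hw

theorem J29 (T : MolP) {u b x : ℝ} :
    n16 T u b x = 1 + b * (1) := by
  simp only [n16]
  ring

theorem J30 (T : MolP) {u b x : ℝ} :
    n150 T u b x = n129 T u b x + b * (T.l1) := by
  simp only [n150]
  all_goals ring

theorem J31 (T : MolP) {u b x : ℝ} :
    n144 T u b x = 0 + b * (T.xk) := by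
  simp only [n144]
  all_goals ring

theorem J32 (T : MolP) {u b x : ℝ} :
    -(n144 T u b x) = 0 + b * (-(T.xk)) := by
  have j1 := J31 T (u := u) (b := b) (x := x)
  all_goals linear_combination -j1

theorem J33 (T : MolP) {u b x : ℝ} :
    n154 T u b x = n129 T u b x + b * (n153 T u b x) := by
  have j1 := J30 T (u := u) (b := b) (x := x)
  have j2 := J32 T (u := u) (b := b) (x := x)
  simp only [n154, n153]
  all_goals linear_combination j1 + j2

theorem J34 (T : MolP) {u b x : ℝ} (h : DomA u b x) :
    n156 T u b x = 0 + b * (n155 T u b x) := by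
  have j1 := J33 T (u := u) (b := b) (x := x)
  have j2 := J27 T (u := u) (b := b) (x := x) h
  simp only [n156, n155]
  all_goals linear_combination j1 - j2

theorem J35 (T : MolP) {u b x : ℝ} :
    n49 T u b x = 1 / 2 + b * (T.ws) := by
  simp only [n49]
  all_goals ring

theorem J36 (T : MolP) {u b x : ℝ} (h : DomB u b x) :
    n376 T u b x = n12 T u b x + b * (n381 T u b x) := by
  have hcy : (n12 T u b x) ^ 2 = 1 - 3 / 4 * (n3 T u b x) ^ 2 := cn_sq (y := n3 T u b x) h.y0 h.y1
  have hcp : (n376 T u b x) ^ 2 = 1 - 3 / 4 * (n372 T u b x) ^ 2 := cn_sq (y := n372 T u b x) h.p0 h.p1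
  have p1 : 0 < n12 T u b x := cn_pos (y := n3 T u b x) h.y0 h.y1
  have p2 : 0 < n376 T u b x := cn_pos (y := n372 T u b x) h.p0 h.p1
  have e : (n12 T u b x + n376 T u b x) * (n12 T u b x + n376 T u b x)⁻¹ = 1 := mul_inv_cancel₀ (by positivity)
  have ey : n372 T u b x = n3 T u b x - b := by
    simp only [n372]
    try ring
  rw [ey] at hcp
  simp only [n381]
  linear_combination (-(n376 T u b x - n12 T u b x)) * e + (n12 T u b x + n376 T u b x)⁻¹ * hcp - (n12 T u b x + n376 T u b x)⁻¹ * hcy

theorem J37 (T : MolP) {u b x : ℝ} (h : DomB u b x) :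
    n403 T u b x = n402 T u b x + b * (n381 T u b x) := by
  have j1 := J36 T (u := u) (b := b) (x := x) h
  have j2 := J2 T (u := u) (b := b) (x := x)
  simp only [n403, n402]
  all_goals linear_combination j1 + j2

theorem J38 (T : MolP) {u b x : ℝ} :
    n372 T u b x = n3 T u b x + b * (-(1)) := by
  simp only [n372, n3]
  ring

theorem J39 (T : MolP) {u b x : ℝ} (h : DomB u b x) :
    n387 T u b x = n52 T u b x + b * (n386 T u b x) := by
  have j1 := J38 T (u := u) (b := b) (x := x)
  have j2 := J36 T (u := u) (b := b) (x := x) h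
  have z0 : n12 T u b x ≠ 0 := (cn_pos (y := n3 T u b x) h.y0 h.y1).ne'
  have z1 : n376 T u b x ≠ 0 := (cn_pos (y := n372 T u b x) h.p0 h.p1).ne'
  have q : (n52 T u b x) * (n12 T u b x) = n3 T u b x := by
    have i0 : (n51 T u b x) * (n12 T u b x) = 1 := inv_mul_cancel₀ z0
    simp only [n52]
    linear_combination (n3 T u b x) * i0
  have i1 : (n383 T u b x) * (n376 T u b x) = 1 := inv_mul_cancel₀ z1
  simp only [n387, n386]
  linear_combination (n383 T u b x) * j1 - (n52 T u b x) * (n383 T u b x) * j2 - (n383 T u b x) * q + (n52 T u b x) * i1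

theorem J40 (T : MolP) {u b x : ℝ} (h : DomB u b x) :
    3 / 4 * (n387 T u b x) = 3 / 4 * (n52 T u b x) + b * (3 / 4 * (n386 T u b x)) := by
  have j1 := J39 T (u := u) (b := b) (x := x) h
  all_goals linear_combination (3 / 4) * j1

theorem J41 (T : MolP) {u b x : ℝ} (h : DomB u b x) :
    n396 T u b x = n69 T u b x + b * (-(3 / 4 * (n386 T u b x))) := by
  have j1 := J2 T (u := u) (b := b) (x := x)
  have j2 := J40 T (u := u) (b := b) (x := x) h
  simp only [n396, n69]
  all_goals linear_combination j1 - j2

theorem J42 (T : MolP) {u b x : ℝ} :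
    1 / 2 * (n372 T u b x) = 1 / 2 * (n3 T u b x) + b * (-(1 / 2)) := by
  have j1 := J38 T (u := u) (b := b) (x := x)
  all_goals linear_combination (1 / 2) * j1

theorem J43 (T : MolP) {u b x : ℝ} (h : DomB u b x) :
    n391 T u b x = n60 T u b x + b * (n390 T u b x) := by
  have j1 := J42 T (u := u) (b := b) (x := x)
  have j2 := J36 T (u := u) (b := b) (x := x) h
  simp only [n391, n390, n60]
  all_goals linear_combination j1 + j2

theorem J44 (T : MolP) {u b x : ℝ} (h : DomB u b x) :
    n392 T u b x = n64 T u b x + b * (n390 T u b x) := by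
  have j1 := J43 T (u := u) (b := b) (x := x) h
  have j2 := J10 T (u := u) (b := b) (x := x)
  simp only [n392, n64]
  all_goals linear_combination j1 - j2

theorem J45 (T : MolP) {u b x : ℝ} (h : DomB u b x) :
    n401 T u b x = n74 T u b x + b * (n400 T u b x) := by
  have j1 := J41 T (u := u) (b := b) (x := x) h
  have j2 := J44 T (u := u) (b := b) (x := x) h
  have z0 : n64 T u b x ≠ 0 := ne_e (y := n3 T u b x) h.y0 h.y1
  have z1 : n392 T u b x ≠ 0 := ne_e (y := n372 T u b x) h.p0 h.p1
  have q : (n74 T u b x) * (n64 T u b x) = n69 T u b x := by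
    have i0 : (n73 T u b x) * (n64 T u b x) = 1 := inv_mul_cancel₀ z0
    simp only [n74]
    linear_combination (n69 T u b x) * i0
  have i1 : (n397 T u b x) * (n392 T u b x) = 1 := inv_mul_cancel₀ z1
  simp only [n401, n400]
  linear_combination (n397 T u b x) * j1 - (n74 T u b x) * (n397 T u b x) * j2 - (n397 T u b x) * q + (n74 T u b x) * i1

theorem J46 (T : MolP) {u b x : ℝ} (h : DomB u b x) :
    n408 T u b x = n404 T u b x + b * (n407 T u b x) := by
  have j1 := J37 T (u := u) (b := b) (x := x) h
  have j2 := J45 T (u := u) (b := b) (x := x) h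
  simp only [n408, n407, n404]
  all_goals linear_combination (n401 T u b x) * j1 + (n402 T u b x) * j2

theorem J47 (T : MolP) {u b x : ℝ} (h : DomB u b x) :
    n411 T u b x = n409 T u b x + b * (n410 T u b x) := by
  have j1 := J46 T (u := u) (b := b) (x := x) h
  have j2 := J14 T (u := u) (b := b) (x := x)
  simp only [n411, n410, n409]
  all_goals linear_combination j1 + j2

theorem J48 (T : MolP) {u b x : ℝ} (h : DomB u b x) :
    n443 T u b x = n409 T u b x + b * (n440 T u b x) := by
  have j1 := J47 T (u := u) (b := b) (x := x) h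
  simp only [n443, n440]
  all_goals linear_combination j1

theorem J49 (T : MolP) {u b x : ℝ} (h : DomB u b x) :
    n416 T u b x = n102 T u b x + b * (-(n381 T u b x)) := by
  have j1 := J10 T (u := u) (b := b) (x := x)
  have j2 := J36 T (u := u) (b := b) (x := x) h
  simp only [n416, n102]
  all_goals linear_combination j1 - j2

theorem J50 (T : MolP) {u b x : ℝ} (h : DomB u b x) :
    2 * (n376 T u b x) = 2 * (n12 T u b x) + b * (2 * (n381 T u b x)) := by
  have j1 := J36 T (u := u) (b := b) (x := x) h
  all_goals linear_combination 2 * j1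

theorem J51 (T : MolP) {u b x : ℝ} (h : DomB u b x) :
    n419 T u b x = n108 T u b x + b * (2 * (n381 T u b x)) := by
  have j1 := J50 T (u := u) (b := b) (x := x) h
  have j2 := J10 T (u := u) (b := b) (x := x)
  simp only [n419, n108]
  all_goals linear_combination j1 - j2

theorem J52 (T : MolP) {u b x : ℝ} (h : DomB u b x) :
    n424 T u b x = n110 T u b x + b * (n423 T u b x) := by
  have j1 := J49 T (u := u) (b := b) (x := x) h
  have j2 := J51 T (u := u) (b := b) (x := x) h
  simp only [n424, n423, n110]
  all_goals linear_combination (n419 T u b x) * j1 + (n102 T u b x) * j2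

theorem J53 (T : MolP) {u b x : ℝ} (h : DomB u b x) :
    n428 T u b x = n117 T u b x + b * (n427 T u b x) := by
  have j1 := J44 T (u := u) (b := b) (x := x) h
  have j2 := J14 T (u := u) (b := b) (x := x)
  simp only [n428, n427, n119, n117]
  all_goals linear_combination (n84 T u b x) * j1 + (n64 T u b x) * j2

theorem J54 (T : MolP) {u b x : ℝ} :
    n425 T u b x = u + b * (-(1)) := by
  simp only [n425, n372, n3]
  ring

theorem J55 (T : MolP) {u b x : ℝ} (h : DomB u b x) :
    n432 T u b x = n122 T u b x + b * (n431 T u b x) := by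
  have j1 := J53 T (u := u) (b := b) (x := x) h
  have j2 := J54 T (u := u) (b := b) (x := x)
  simp only [n432, n431, n122]
  all_goals linear_combination (n425 T u b x) * j1 + (n117 T u b x) * j2

theorem J56 (T : MolP) {u b x : ℝ} (h : DomB u b x) :
    2 * (n432 T u b x) = 2 * (n122 T u b x) + b * (2 * (n431 T u b x)) := by
  have j1 := J55 T (u := u) (b := b) (x := x) h
  all_goals linear_combination 2 * j1

theorem J57 (T : MolP) {u b x : ℝ} (h : DomB u b x) :
    n436 T u b x = n129 T u b x + b * (n435 T u b x) := by
  have j1 := J52 T (u := u) (b := b) (x := x) h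
  have j2 := J56 T (u := u) (b := b) (x := x) h
  simp only [n436, n435, n129]
  all_goals linear_combination j1 - j2

theorem J58 (T : MolP) {u b x : ℝ} (h : DomB u b x) :
    n447 T u b x = n129 T u b x + b * (n445 T u b x) := by
  have j1 := J57 T (u := u) (b := b) (x := x) h
  simp only [n447, n445]
  all_goals linear_combination j1

theorem J59 (T : MolP) {u b x : ℝ} (h : DomB u b x) :
    -(n447 T u b x) = -(n129 T u b x) + b * (-(n445 T u b x)) := by
  have j1 := J58 T (u := u) (b := b) (x := x) h
  all_goals linear_combination -j1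

theorem J60 (T : MolP) {u b x : ℝ} (h : DomB u b x) :
    n452 T u b x = 0 + b * (n451 T u b x) := by
  have j1 := J30 T (u := u) (b := b) (x := x)
  have j2 := J59 T (u := u) (b := b) (x := x) h
  simp only [n452, n451]
  all_goals linear_combination j1 + j2

theorem J61 (T : MolP) {u b x : ℝ} (h : DomB u b x) :
    n454 T u b x = 0 + b * (n453 T u b x) := by
  have j1 := J60 T (u := u) (b := b) (x := x) h
  have j2 := J32 T (u := u) (b := b) (x := x)
  simp only [n454, n453]
  all_goals linear_combination j1 - j2

theorem J62 (T : MolP) {u b x : ℝ} :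
    n744 T u b x = 1 / 2 * (n662 T u b x) + b * (n743 T u b x) := by
  have j1 := J0 T (u := u) (b := b) (x := x)
  simp only [n744, n743]
  all_goals linear_combination (n662 T u b x) * j1

theorem J63 (T : MolP) {u b x : ℝ} :
    n741 T u b x = 0 + b * (T.k2) := by
  simp only [n741]
  all_goals ring

theorem J64 (T : MolP) {u b x : ℝ} :
    n746 T u b x = 0 + b * (n745 T u b x) := by
  have j1 := J63 T (u := u) (b := b) (x := x)
  simp only [n746, n745]
  all_goals linear_combination (n599 T u b x) * j1

theorem J65 (T : MolP) {u b x : ℝ} :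
    n748 T u b x = 1 / 2 * (n662 T u b x) + b * (n747 T u b x) := by
  have j1 := J62 T (u := u) (b := b) (x := x)
  have j2 := J64 T (u := u) (b := b) (x := x)
  simp only [n748, n747]
  all_goals linear_combination j1 + j2

theorem J66 (T : MolP) {u b x : ℝ} (h : DomA u b x) :
    n733 T u b x = n731 T u b x + b * (n732 T u b x) := by
  have j1 := J16 T (u := u) (b := b) (x := x) h
  simp only [n733, n732, n731]
  all_goals linear_combination (n662 T u b x) * j1

theorem J67 (T : MolP) {u b x : ℝ} (h : DomA u b x) :
    9 / 8 * (n57 T u b x) = 9 / 8 * (n52 T u b x) + b * (9 / 8 * (n56 T u b x)) := by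
  have j1 := J5 T (u := u) (b := b) (x := x) h
  all_goals linear_combination (9 / 8) * j1

theorem J68 (T : MolP) {u b x : ℝ} :
    3 / 4 = 3 / 4 + b * (0) := by
  ring

theorem J69 (T : MolP) {u b x : ℝ} (h : DomA u b x) :
    n676 T u b x = n675 T u b x + b * (9 / 8 * (n56 T u b x)) := by
  have j1 := J67 T (u := u) (b := b) (x := x) h
  have j2 := J68 T (u := u) (b := b) (x := x)
  simp only [n676, n675]
  all_goals linear_combination j1 + j2

theorem J70 (T : MolP) {u b x : ℝ} (h : DomA u b x) :
    n682 T u b x = n677 T u b x + b * (n681 T u b x) := by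
  have j1 := J1 T (u := u) (b := b) (x := x) h
  have j2 := J69 T (u := u) (b := b) (x := x) h
  simp only [n682, n681, n677]
  all_goals linear_combination (n676 T u b x) * j1 + (n12 T u b x) * j2

theorem J71 (T : MolP) {u b x : ℝ} :
    3 / 4 * (n30 T u b x) = 3 / 4 * (n3 T u b x) + b * (3 / 4) := by
  have j1 := J4 T (u := u) (b := b) (x := x)
  all_goals linear_combination (3 / 4) * j1

theorem J72 (T : MolP) {u b x : ℝ} (h : DomA u b x) :
    3 / 2 * (n103 T u b x) = 3 / 2 * (n102 T u b x) + b * (3 / 2 * (n41 T u b x)) := by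
  have j1 := J18 T (u := u) (b := b) (x := x) h
  all_goals linear_combination (3 / 2) * j1

theorem J73 (T : MolP) {u b x : ℝ} (h : DomA u b x) :
    n671 T u b x = n669 T u b x + b * (n670 T u b x) := by
  have j1 := J71 T (u := u) (b := b) (x := x)
  have j2 := J72 T (u := u) (b := b) (x := x) h
  simp only [n671, n670, n669]
  all_goals linear_combination j1 + j2

theorem J74 (T : MolP) {u b x : ℝ} (h : DomA u b x) :
    n684 T u b x = n683 T u b x + b * (3 / 4 * (n56 T u b x)) := by
  have j1 := J6 T (u := u) (b := b) (x := x) h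
  have j2 := J2 T (u := u) (b := b) (x := x)
  simp only [n684, n683]
  all_goals linear_combination j1 + j2

theorem J75 (T : MolP) {u b x : ℝ} (h : DomA u b x) :
    n689 T u b x = n685 T u b x + b * (n688 T u b x) := by
  have j1 := J73 T (u := u) (b := b) (x := x) h
  have j2 := J74 T (u := u) (b := b) (x := x) h
  simp only [n689, n688, n685]
  all_goals linear_combination (n684 T u b x) * j1 + (n669 T u b x) * j2

theorem J76 (T : MolP) {u b x : ℝ} (h : DomA u b x) :
    n692 T u b x = n690 T u b x + b * (n691 T u b x) := by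
  have j1 := J70 T (u := u) (b := b) (x := x) h
  have j2 := J75 T (u := u) (b := b) (x := x) h
  simp only [n692, n691, n690]
  all_goals linear_combination j1 + j2

theorem J77 (T : MolP) {u b x : ℝ} (h : DomA u b x) :
    1 / 2 * (n676 T u b x) = 1 / 2 * (n675 T u b x) + b * (9 / 16 * (n56 T u b x)) := by
  have j1 := J69 T (u := u) (b := b) (x := x) h
  all_goals linear_combination (1 / 2) * j1

theorem J78 (T : MolP) {u b x : ℝ} (h : DomA u b x) :
    n698 T u b x = n696 T u b x + b * (n697 T u b x) := by
  have j1 := J76 T (u := u) (b := b) (x := x) h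
  have j2 := J77 T (u := u) (b := b) (x := x) h
  simp only [n698, n697, n696]
  all_goals linear_combination j1 - j2

theorem J79 (T : MolP) {u b x : ℝ} (h : DomA u b x) :
    n701 T u b x = n699 T u b x + b * (n700 T u b x) := by
  have j1 := J73 T (u := u) (b := b) (x := x) h
  have j2 := J19 T (u := u) (b := b) (x := x) h
  simp only [n701, n700, n699]
  all_goals linear_combination j1 + j2

theorem J80 (T : MolP) {u b x : ℝ} (h : DomA u b x) :
    n705 T u b x = n704 T u b x + b * (n700 T u b x) := by
  have j1 := J79 T (u := u) (b := b) (x := x) h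
  have j2 := J10 T (u := u) (b := b) (x := x)
  simp only [n705, n704]
  all_goals linear_combination j1 - j2

theorem J81 (T : MolP) {u b x : ℝ} (h : DomA u b x) :
    n710 T u b x = n706 T u b x + b * (n709 T u b x) := by
  have j1 := J80 T (u := u) (b := b) (x := x) h
  have j2 := J14 T (u := u) (b := b) (x := x)
  simp only [n710, n709, n706]
  all_goals linear_combination (n84 T u b x) * j1 + (n704 T u b x) * j2

theorem J82 (T : MolP) {u b x : ℝ} (h : DomA u b x) :
    n713 T u b x = n711 T u b x + b * (n712 T u b x) := by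
  have j1 := J78 T (u := u) (b := b) (x := x) h
  have j2 := J81 T (u := u) (b := b) (x := x) h
  simp only [n713, n712, n711]
  all_goals linear_combination j1 - j2

theorem J83 (T : MolP) {u b x : ℝ} (h : DomA u b x) :
    n721 T u b x = n711 T u b x + b * (n719 T u b x) := by
  have j1 := J82 T (u := u) (b := b) (x := x) h
  simp only [n721, n719]
  all_goals linear_combination j1

theorem J84 (T : MolP) {u b x : ℝ} (h : DomA u b x) :
    n736 T u b x = n734 T u b x + b * (n735 T u b x) := by
  have j1 := J83 T (u := u) (b := b) (x := x) h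
  simp only [n736, n735, n734]
  all_goals linear_combination (n599 T u b x) * j1

theorem J85 (T : MolP) {u b x : ℝ} (h : DomA u b x) :
    n739 T u b x = n737 T u b x + b * (n738 T u b x) := by
  have j1 := J66 T (u := u) (b := b) (x := x) h
  have j2 := J84 T (u := u) (b := b) (x := x) h
  simp only [n739, n738, n737]
  all_goals linear_combination j1 + j2

theorem J86 (T : MolP) {u b x : ℝ} :
    n724 T u b x = n722 T u b x + b * (n723 T u b x) := by
  have j1 := J17 T (u := u) (b := b) (x := x)
  simp only [n724, n723, n722]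
  all_goals linear_combination (n662 T u b x) * j1

theorem J87 (T : MolP) {u b x : ℝ} :
    n716 T u b x = n703 T u b x + b * (T.m1) := by
  simp only [n716]
  all_goals ring

theorem J88 (T : MolP) {u b x : ℝ} :
    n727 T u b x = n725 T u b x + b * (n726 T u b x) := by
  have j1 := J87 T (u := u) (b := b) (x := x)
  simp only [n727, n726, n725]
  all_goals linear_combination (n599 T u b x) * j1

theorem J89 (T : MolP) {u b x : ℝ} :
    n730 T u b x = n728 T u b x + b * (n729 T u b x) := by
  have j1 := J86 T (u := u) (b := b) (x := x)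
  have j2 := J88 T (u := u) (b := b) (x := x)
  simp only [n730, n729, n728]
  all_goals linear_combination j1 + j2

theorem J90 (T : MolP) {u b x : ℝ} :
    n3 T u b x = n3 T u b x + b * (0) := by
  ring

theorem J91 (T : MolP) {u b x : ℝ} :
    n610 T u b x = n608 T u b x + b * (n609 T u b x) := by
  have j1 := J90 T (u := u) (b := b) (x := x)
  have j2 := J30 T (u := u) (b := b) (x := x)
  simp only [n610, n609, n608]
  all_goals linear_combination (n150 T u b x) * j1 + (n3 T u b x) * j2

theorem J92 (T : MolP) {u b x : ℝ} :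
    2 * (n3 T u b x) = 2 * (n3 T u b x) + b * (0) := by
  have j1 := J90 T (u := u) (b := b) (x := x)
  all_goals linear_combination 2 * j1

theorem J93 (T : MolP) {u b x : ℝ} :
    n604 T u b x = n603 T u b x + b * (1) := by
  have j1 := J92 T (u := u) (b := b) (x := x)
  have j2 := J29 T (u := u) (b := b) (x := x)
  simp only [n604, n603]
  all_goals linear_combination j1 + j2

theorem J94 (T : MolP) {u b x : ℝ} :
    -(n614 T u b x) = 0 + b * (n613 T u b x) := by
  have j1 := J93 T (u := u) (b := b) (x := x)
  have j2 := J32 T (u := u) (b := b) (x := x)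
  simp only [n614, n613]
  all_goals linear_combination (-(n144 T u b x)) * j1 + (n603 T u b x) * j2

theorem J95 (T : MolP) {u b x : ℝ} :
    n617 T u b x = n608 T u b x + b * (n616 T u b x) := by
  have j1 := J91 T (u := u) (b := b) (x := x)
  have j2 := J94 T (u := u) (b := b) (x := x)
  simp only [n617, n616]
  all_goals linear_combination j1 + j2

theorem J96 (T : MolP) {u b x : ℝ} :
    n602 T u b x = n315 T u b x + b * (1) := by
  simp only [n602, n315, n16]
  all_goals ring

theorem J97 (T : MolP) {u b x : ℝ} (h : DomA u b x) :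
    n621 T u b x = n618 T u b x + b * (n620 T u b x) := by
  have j1 := J96 T (u := u) (b := b) (x := x)
  have j2 := J27 T (u := u) (b := b) (x := x) h
  simp only [n621, n620, n618]
  all_goals linear_combination (n148 T u b x) * j1 + (n315 T u b x) * j2

theorem J98 (T : MolP) {u b x : ℝ} (h : DomA u b x) :
    n624 T u b x = n622 T u b x + b * (n623 T u b x) := by
  have j1 := J95 T (u := u) (b := b) (x := x)
  have j2 := J97 T (u := u) (b := b) (x := x) h
  simp only [n624, n623, n622]
  all_goals linear_combination j1 - j2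

theorem J99 (T : MolP) {u b x : ℝ} (h : DomA u b x) :
    1 / 2 * (n624 T u b x) = 1 / 2 * (n622 T u b x) + b * (1 / 2 * (n623 T u b x)) := by
  have j1 := J98 T (u := u) (b := b) (x := x) h
  all_goals linear_combination (1 / 2) * j1

theorem J100 (T : MolP) {u b x : ℝ} :
    -(n629 T u b x) = 0 + b * (n628 T u b x) := by
  have j1 := J29 T (u := u) (b := b) (x := x)
  have j2 := J32 T (u := u) (b := b) (x := x)
  simp only [n629, n628]
  all_goals linear_combination (-(n144 T u b x)) * j1 + 1 * j2

theorem J101 (T : MolP) {u b x : ℝ} :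
    2 * (n16 T u b x) = 2 + b * (2) := by
  have j1 := J29 T (u := u) (b := b) (x := x)
  all_goals linear_combination 2 * j1

theorem J102 (T : MolP) {u b x : ℝ} :
    n607 T u b x = n606 T u b x + b * (2) := by
  have j1 := J101 T (u := u) (b := b) (x := x)
  have j2 := J90 T (u := u) (b := b) (x := x)
  simp only [n607, n606]
  all_goals linear_combination j1 + j2

theorem J103 (T : MolP) {u b x : ℝ} :
    n635 T u b x = n631 T u b x + b * (n634 T u b x) := by
  have j1 := J102 T (u := u) (b := b) (x := x)
  have j2 := J30 T (u := u) (b := b) (x := x)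
  simp only [n635, n634, n631]
  all_goals linear_combination (n150 T u b x) * j1 + (n606 T u b x) * j2

theorem J104 (T : MolP) {u b x : ℝ} :
    n637 T u b x = n631 T u b x + b * (n636 T u b x) := by
  have j1 := J100 T (u := u) (b := b) (x := x)
  have j2 := J103 T (u := u) (b := b) (x := x)
  simp only [n637, n636]
  all_goals linear_combination j1 + j2

theorem J105 (T : MolP) {u b x : ℝ} (h : DomA u b x) :
    n640 T u b x = n638 T u b x + b * (n639 T u b x) := by
  have j1 := J104 T (u := u) (b := b) (x := x)
  have j2 := J97 T (u := u) (b := b) (x := x) h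
  simp only [n640, n639, n638]
  all_goals linear_combination j1 - j2

theorem J106 (T : MolP) {u b x : ℝ} (h : DomA u b x) :
    1 / 2 * (n640 T u b x) = 1 / 2 * (n638 T u b x) + b * (1 / 2 * (n639 T u b x)) := by
  have j1 := J105 T (u := u) (b := b) (x := x) h
  all_goals linear_combination (1 / 2) * j1

theorem J107 (T : MolP) {u b x : ℝ} :
    n157 T u b x = 0 + b * (n155 T u b x) := by
  simp only [n157]
  all_goals ring

theorem J108 (T : MolP) {u b x : ℝ} :
    n645 T u b x = 0 + b * (n644 T u b x) := by
  have j1 := J107 T (u := u) (b := b) (x := x)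
  simp only [n645, n644]
  all_goals linear_combination (n601 T u b x) * j1

theorem J109 (T : MolP) {u b x : ℝ} (h : DomA u b x) :
    n648 T u b x = -(1 / 2 * (n622 T u b x)) + b * (n647 T u b x) := by
  have j1 := J108 T (u := u) (b := b) (x := x)
  have j2 := J99 T (u := u) (b := b) (x := x) h
  simp only [n648, n647]
  all_goals linear_combination j1 - j2

theorem J110 (T : MolP) {u b x : ℝ} (h : DomA u b x) :
    n650 T u b x = 1 / 2 * (n638 T u b x) + b * (n649 T u b x) := by
  have j1 := J106 T (u := u) (b := b) (x := x) h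
  have j2 := J108 T (u := u) (b := b) (x := x)
  simp only [n650, n649]
  all_goals linear_combination j1 - j2

theorem J111 (T : MolP) {u b x : ℝ} (h : DomB u b x) :
    n1038 T u b x = n1036 T u b x + b * (n1037 T u b x) := by
  have j1 := J48 T (u := u) (b := b) (x := x) h
  simp only [n1038, n1037, n1036]
  all_goals linear_combination (n662 T u b x) * j1

theorem J112 (T : MolP) {u b x : ℝ} (h : DomB u b x) :
    9 / 8 * (n387 T u b x) = 9 / 8 * (n52 T u b x) + b * (9 / 8 * (n386 T u b x)) := by
  have j1 := J39 T (u := u) (b := b) (x := x) h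
  all_goals linear_combination (9 / 8) * j1

theorem J113 (T : MolP) {u b x : ℝ} (h : DomB u b x) :
    n1000 T u b x = n675 T u b x + b * (9 / 8 * (n386 T u b x)) := by
  have j1 := J112 T (u := u) (b := b) (x := x) h
  have j2 := J68 T (u := u) (b := b) (x := x)
  simp only [n1000, n675]
  all_goals linear_combination j1 + j2

theorem J114 (T : MolP) {u b x : ℝ} (h : DomB u b x) :
    n1004 T u b x = n677 T u b x + b * (n1003 T u b x) := by
  have j1 := J36 T (u := u) (b := b) (x := x) h
  have j2 := J113 T (u := u) (b := b) (x := x) h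
  simp only [n1004, n1003, n677]
  all_goals linear_combination (n1000 T u b x) * j1 + (n12 T u b x) * j2

theorem J115 (T : MolP) {u b x : ℝ} :
    3 / 4 * (n372 T u b x) = 3 / 4 * (n3 T u b x) + b * (-(3 / 4)) := by
  have j1 := J38 T (u := u) (b := b) (x := x)
  all_goals linear_combination (3 / 4) * j1

theorem J116 (T : MolP) {u b x : ℝ} (h : DomB u b x) :
    3 / 2 * (n416 T u b x) = 3 / 2 * (n102 T u b x) + b * (-(3 / 2 * (n381 T u b x))) := by
  have j1 := J49 T (u := u) (b := b) (x := x) h
  all_goals linear_combination (3 / 2) * j1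

theorem J117 (T : MolP) {u b x : ℝ} (h : DomB u b x) :
    n997 T u b x = n669 T u b x + b * (n996 T u b x) := by
  have j1 := J115 T (u := u) (b := b) (x := x)
  have j2 := J116 T (u := u) (b := b) (x := x) h
  simp only [n997, n996, n669]
  all_goals linear_combination j1 + j2

theorem J118 (T : MolP) {u b x : ℝ} (h : DomB u b x) :
    n1005 T u b x = n683 T u b x + b * (3 / 4 * (n386 T u b x)) := by
  have j1 := J40 T (u := u) (b := b) (x := x) h
  have j2 := J2 T (u := u) (b := b) (x := x)
  simp only [n1005, n683]
  all_goals linear_combination j1 + j2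

theorem J119 (T : MolP) {u b x : ℝ} (h : DomB u b x) :
    n1009 T u b x = n685 T u b x + b * (n1008 T u b x) := by
  have j1 := J117 T (u := u) (b := b) (x := x) h
  have j2 := J118 T (u := u) (b := b) (x := x) h
  simp only [n1009, n1008, n685]
  all_goals linear_combination (n1005 T u b x) * j1 + (n669 T u b x) * j2

theorem J120 (T : MolP) {u b x : ℝ} (h : DomB u b x) :
    n1011 T u b x = n690 T u b x + b * (n1010 T u b x) := by
  have j1 := J114 T (u := u) (b := b) (x := x) h
  have j2 := J119 T (u := u) (b := b) (x := x) h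
  simp only [n1011, n1010, n690]
  all_goals linear_combination j1 + j2

theorem J121 (T : MolP) {u b x : ℝ} (h : DomB u b x) :
    1 / 2 * (n1000 T u b x) = 1 / 2 * (n675 T u b x) + b * (9 / 16 * (n386 T u b x)) := by
  have j1 := J113 T (u := u) (b := b) (x := x) h
  all_goals linear_combination (1 / 2) * j1

theorem J122 (T : MolP) {u b x : ℝ} (h : DomB u b x) :
    n1016 T u b x = n1014 T u b x + b * (n1015 T u b x) := by
  have j1 := J120 T (u := u) (b := b) (x := x) h
  have j2 := J121 T (u := u) (b := b) (x := x) h
  simp only [n1016, n1015, n1014]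
  all_goals linear_combination j1 + j2

theorem J123 (T : MolP) {u b x : ℝ} (h : DomB u b x) :
    n1018 T u b x = n699 T u b x + b * (n1017 T u b x) := by
  have j1 := J117 T (u := u) (b := b) (x := x) h
  have j2 := J50 T (u := u) (b := b) (x := x) h
  simp only [n1018, n1017, n699]
  all_goals linear_combination j1 + j2

theorem J124 (T : MolP) {u b x : ℝ} (h : DomB u b x) :
    n1020 T u b x = n1019 T u b x + b * (n1017 T u b x) := by
  have j1 := J123 T (u := u) (b := b) (x := x) h
  have j2 := J10 T (u := u) (b := b) (x := x)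
  simp only [n1020, n1019]
  all_goals linear_combination j1 + j2

theorem J125 (T : MolP) {u b x : ℝ} (h : DomB u b x) :
    n1025 T u b x = n1021 T u b x + b * (n1024 T u b x) := by
  have j1 := J124 T (u := u) (b := b) (x := x) h
  have j2 := J14 T (u := u) (b := b) (x := x)
  simp only [n1025, n1024, n1021]
  all_goals linear_combination (n84 T u b x) * j1 + (n1019 T u b x) * j2

theorem J126 (T : MolP) {u b x : ℝ} (h : DomB u b x) :
    n1028 T u b x = n1026 T u b x + b * (n1027 T u b x) := by
  have j1 := J122 T (u := u) (b := b) (x := x) h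
  have j2 := J125 T (u := u) (b := b) (x := x) h
  simp only [n1028, n1027, n1026]
  all_goals linear_combination j1 - j2

theorem J127 (T : MolP) {u b x : ℝ} (h : DomB u b x) :
    n1035 T u b x = n1026 T u b x + b * (n1032 T u b x) := by
  have j1 := J126 T (u := u) (b := b) (x := x) h
  simp only [n1035, n1032]
  all_goals linear_combination j1

theorem J128 (T : MolP) {u b x : ℝ} (h : DomB u b x) :
    n1041 T u b x = n1039 T u b x + b * (n1040 T u b x) := by
  have j1 := J127 T (u := u) (b := b) (x := x) h
  simp only [n1041, n1040, n1039]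
  all_goals linear_combination (n599 T u b x) * j1

theorem J129 (T : MolP) {u b x : ℝ} (h : DomB u b x) :
    n1044 T u b x = n1042 T u b x + b * (n1043 T u b x) := by
  have j1 := J111 T (u := u) (b := b) (x := x) h
  have j2 := J128 T (u := u) (b := b) (x := x) h
  simp only [n1044, n1043, n1042]
  all_goals linear_combination j1 + j2

theorem J130 (T : MolP) {u b x : ℝ} :
    n940 T u b x = n169 T u b x + b * (1) := by
  simp only [n940, n169, n16]
  all_goals ring

theorem J131 (T : MolP) {u b x : ℝ} :
    n942 T u b x = n941 T u b x + b * (1) := by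
  have j1 := J92 T (u := u) (b := b) (x := x)
  have j2 := J130 T (u := u) (b := b) (x := x)
  simp only [n942, n941]
  all_goals linear_combination j1 + j2

theorem J132 (T : MolP) {u b x : ℝ} (h : DomB u b x) :
    -(n952 T u b x) = -(n947 T u b x) + b * (n951 T u b x) := by
  have j1 := J131 T (u := u) (b := b) (x := x)
  have j2 := J59 T (u := u) (b := b) (x := x) h
  simp only [n952, n951, n947]
  all_goals linear_combination (-(n447 T u b x)) * j1 + (n941 T u b x) * j2

theorem J133 (T : MolP) {u b x : ℝ} (h : DomB u b x) :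
    n956 T u b x = n954 T u b x + b * (n955 T u b x) := by
  have j1 := J91 T (u := u) (b := b) (x := x)
  have j2 := J132 T (u := u) (b := b) (x := x) h
  simp only [n956, n955, n954]
  all_goals linear_combination j1 + j2

theorem J134 (T : MolP) {u b x : ℝ} (h : DomB u b x) :
    n958 T u b x = n954 T u b x + b * (n957 T u b x) := by
  have j1 := J133 T (u := u) (b := b) (x := x) h
  have j2 := J100 T (u := u) (b := b) (x := x)
  simp only [n958, n957]
  all_goals linear_combination j1 - j2

theorem J135 (T : MolP) {u b x : ℝ} (h : DomB u b x) :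
    1 / 2 * (n958 T u b x) = 1 / 2 * (n954 T u b x) + b * (1 / 2 * (n957 T u b x)) := by
  have j1 := J134 T (u := u) (b := b) (x := x) h
  all_goals linear_combination (1 / 2) * j1

theorem J136 (T : MolP) {u b x : ℝ} (h : DomB u b x) :
    -(n967 T u b x) = -(n962 T u b x) + b * (n966 T u b x) := by
  have j1 := J130 T (u := u) (b := b) (x := x)
  have j2 := J59 T (u := u) (b := b) (x := x) h
  simp only [n967, n966, n962]
  all_goals linear_combination (-(n447 T u b x)) * j1 + (n169 T u b x) * j2

theorem J137 (T : MolP) {u b x : ℝ} :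
    2 * (n940 T u b x) = 2 * (n169 T u b x) + b * (2) := by
  have j1 := J130 T (u := u) (b := b) (x := x)
  all_goals linear_combination 2 * j1

theorem J138 (T : MolP) {u b x : ℝ} :
    n946 T u b x = n945 T u b x + b * (2) := by
  have j1 := J137 T (u := u) (b := b) (x := x)
  have j2 := J90 T (u := u) (b := b) (x := x)
  simp only [n946, n945]
  all_goals linear_combination j1 + j2

theorem J139 (T : MolP) {u b x : ℝ} :
    n972 T u b x = n969 T u b x + b * (n971 T u b x) := by
  have j1 := J138 T (u := u) (b := b) (x := x)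
  have j2 := J30 T (u := u) (b := b) (x := x)
  simp only [n972, n971, n969]
  all_goals linear_combination (n150 T u b x) * j1 + (n945 T u b x) * j2

theorem J140 (T : MolP) {u b x : ℝ} (h : DomB u b x) :
    n975 T u b x = n973 T u b x + b * (n974 T u b x) := by
  have j1 := J136 T (u := u) (b := b) (x := x) h
  have j2 := J139 T (u := u) (b := b) (x := x)
  simp only [n975, n974, n973]
  all_goals linear_combination j1 + j2

theorem J141 (T : MolP) {u b x : ℝ} (h : DomB u b x) :
    n977 T u b x = n973 T u b x + b * (n976 T u b x) := by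
  have j1 := J140 T (u := u) (b := b) (x := x) h
  have j2 := J100 T (u := u) (b := b) (x := x)
  simp only [n977, n976]
  all_goals linear_combination j1 - j2

theorem J142 (T : MolP) {u b x : ℝ} (h : DomB u b x) :
    1 / 2 * (n977 T u b x) = 1 / 2 * (n973 T u b x) + b * (1 / 2 * (n976 T u b x)) := by
  have j1 := J141 T (u := u) (b := b) (x := x) h
  all_goals linear_combination (1 / 2) * j1

theorem J143 (T : MolP) {u b x : ℝ} :
    n455 T u b x = 0 + b * (n453 T u b x) := by
  simp only [n455]
  all_goals ring

theorem J144 (T : MolP) {u b x : ℝ} :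
    n982 T u b x = 0 + b * (n981 T u b x) := by
  have j1 := J143 T (u := u) (b := b) (x := x)
  simp only [n982, n981]
  all_goals linear_combination (n601 T u b x) * j1

theorem J145 (T : MolP) {u b x : ℝ} (h : DomB u b x) :
    n985 T u b x = -(1 / 2 * (n954 T u b x)) + b * (n984 T u b x) := by
  have j1 := J144 T (u := u) (b := b) (x := x)
  have j2 := J135 T (u := u) (b := b) (x := x) h
  simp only [n985, n984]
  all_goals linear_combination j1 - j2

theorem J146 (T : MolP) {u b x : ℝ} (h : DomB u b x) :
    n987 T u b x = 1 / 2 * (n973 T u b x) + b * (n986 T u b x) := by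
  have j1 := J142 T (u := u) (b := b) (x := x) h
  have j2 := J144 T (u := u) (b := b) (x := x)
  simp only [n987, n986]
  all_goals linear_combination j1 - j2

theorem J147 (T : MolP) {u b x : ℝ} :
    n1214 T u b x = n1192 T u b x + b * (n1198 T u b x) := by
  simp only [n1214]
  all_goals ring

theorem J148 (T : MolP) {u b x : ℝ} :
    n1217 T u b x = n1215 T u b x + b * (n1216 T u b x) := by
  have j1 := J65 T (u := u) (b := b) (x := x)
  have j2 := J147 T (u := u) (b := b) (x := x)
  simp only [n1217, n1216, n1215]
  all_goals linear_combination j1 - j2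

theorem J149 (T : MolP) {u b x : ℝ} :
    n1303 T u b x = n1192 T u b x + b * (n1298 T u b x) := by
  simp only [n1303]
  all_goals ring

theorem J150 (T : MolP) {u b x : ℝ} :
    n1305 T u b x = n1215 T u b x + b * (n1304 T u b x) := by
  have j1 := J65 T (u := u) (b := b) (x := x)
  have j2 := J149 T (u := u) (b := b) (x := x)
  simp only [n1305, n1304, n1215]
  all_goals linear_combination j1 - j2

theorem J151 (T : MolP) {u b x : ℝ} :
    n1390 T u b x = n1192 T u b x + b * (n1383 T u b x) := by
  simp only [n1390]
  all_goals ring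

theorem J152 (T : MolP) {u b x : ℝ} :
    n1392 T u b x = n1215 T u b x + b * (n1391 T u b x) := by
  have j1 := J65 T (u := u) (b := b) (x := x)
  have j2 := J151 T (u := u) (b := b) (x := x)
  simp only [n1392, n1391, n1215]
  all_goals linear_combination j1 - j2

theorem J153 (T : MolP) {u b x : ℝ} :
    n1470 T u b x = n1192 T u b x + b * (n1465 T u b x) := by
  simp only [n1470]
  all_goals ring

theorem J154 (T : MolP) {u b x : ℝ} :
    n1472 T u b x = n1215 T u b x + b * (n1471 T u b x) := by
  have j1 := J65 T (u := u) (b := b) (x := x)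
  have j2 := J153 T (u := u) (b := b) (x := x)
  simp only [n1472, n1471, n1215]
  all_goals linear_combination j1 - j2

end Pool.Agent.Strip051.LC.MolN
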