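import Pool.Agent.Strip051.LC.Exact.MolC

/-! # The second order terms of the tight triangles are nonnegative -/

namespace Pool.Agent.Strip051.LC

variable {x y cx cy e ey m μ δ a b k F1 F2 A1 A2 : ℝ}

theorem mol_mu_le (hx0 : 0 < x) (hx1 : x < 1) (hcx : 0 < cx) (h1 : cx ^ 2 = 1 - 3 / 4 * x ^ 2) :
    1 / 2 < cx := by
  by_contra h
  push Not at h
  nlinarith

theorem mol_A1_nonneg (hx0 : 0 < x) (hx1 : x < 1) (hy0 : 0 < y) (hy1 : y < 1) (hcx : 0 < cx)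
    (hcy : 0 < cy) (h1 : cx ^ 2 = 1 - 3 / 4 * x ^ 2) (h2 : cy ^ 2 = 1 - 3 / 4 * y ^ 2)
    (ha : a = mA x cx) (hb : b = mA y cy) (hm : 1 ≤ m) (hμ : 0 ≤ μ) (hμ1 : μ ≤ 1 / 4)
    (hδ : δ ≤ 1 / 2) (he : 0 ≤ e) (hey : 0 ≤ ey) (hF : F1 = mF1 a b m μ δ)
    (hk : k = e * ey * ((3 + a ^ 2) * (3 + b ^ 2)) / ((3 - b ^ 2) * (3 - a * b) ^ 2))
    (hA : A1 = k * F1 / (64 * (a * b ^ 2))) : 0 ≤ A1 := by
  obtain ⟨p0, p1, -⟩ := mol_par' hx0 hx1 hcx h1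
  obtain ⟨q0, q1, -⟩ := mol_par' hy0 hy1 hcy h2
  rw [← ha] at p0 p1
  rw [← hb] at q0 q1
  have h3 : 0 < 3 - b ^ 2 := by nlinarith
  have h6 := mF1_nonneg (m := m) (μ := μ) (δ := δ) p0 p1 q0 q1 hm hμ hμ1 hδ
  rw [hA, hk, hF]
  positivity

theorem mol_A2_nonneg (hx0 : 0 < x) (hx1 : x < 1) (hy0 : 0 < y) (hy1 : y < 1) (hcx : 0 < cx)
    (hcy : 0 < cy) (h1 : cx ^ 2 = 1 - 3 / 4 * x ^ 2) (h2 : cy ^ 2 = 1 - 3 / 4 * y ^ 2)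
    (ha : a = mA x cx) (hb : b = mA y cy) (hm : 1 ≤ m) (hμ : 0 ≤ μ) (hμ1 : μ ≤ 1 / 4)
    (hδ : -(1 / 2) ≤ δ) (he : 0 ≤ e) (hey : 0 ≤ ey) (hF : F2 = mF2 a b m μ δ)
    (hk : k = e * ey * ((3 + a ^ 2) * (3 + b ^ 2)) / ((3 - b ^ 2) * (3 - a * b) ^ 2))
    (hA : A2 = k * F2 / (32 * ((1 - b) ^ 2 * (1 - a)))) : 0 ≤ A2 := by
  obtain ⟨p0, p1, -⟩ := mol_par' hx0 hx1 hcx h1
  obtain ⟨q0, q1, -⟩ := mol_par' hy0 hy1 hcy h2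
  rw [← ha] at p0 p1
  rw [← hb] at q0 q1
  have h3 : 0 < 3 - b ^ 2 := by nlinarith
  have h7 : 0 < 1 - a := by linarith
  have h8 : 0 < 1 - b := by linarith
  have h6 := mF2_nonneg (m := m) (μ := μ) (δ := δ) p0 p1 q0 q1 hm hμ hμ1 hδ
  rw [hA, hk, hF]
  positivity

end Pool.Agent.Strip051.LC
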