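import Pool.Agent.Strip051.LC.Exact.MolN2
import Pool.Agent.Strip051.LC.Exact.MolV

/-! # The tight triangles: second order terms (generated) -/

set_option linter.unusedVariables false

namespace Pool.Agent.Strip051.LC.MolN

open Pool.Agent.Strip051.LC

theorem val0A (T : MolP) {u b x : ℝ} (h : DomA u b x) :
    (1 - x) * ((n160 T u b x) - (n15 T u b x) * (1 / 2)) - (n15 T u b x) * (((n3 T u b x) - x) * (1 - (n3 T u b x)) * ((n95 T u b x) - (n92 T u b x))) = u ^ 2 * (n284 T u b x) ∧
      x * ((n160 T u b x) - (n15 T u b x) * (1 / 2)) - (n15 T u b x) * (((n3 T u b x) - x) * (n3 T u b x) * ((n95 T u b x) - (n92 T u b x))) = u ^ 2 * (n292 T u b x) := by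
  have hy : (n3 T u b x) - x = u := by
    simp only [n3]
    ring
  have hcx : (n8 T u b x) ^ 2 = 1 - 3 / 4 * x ^ 2 := cn_sq h.x0 h.x1
  have hcy : (n12 T u b x) ^ 2 = 1 - 3 / 4 * (n3 T u b x) ^ 2 := cn_sq (y := n3 T u b x) h.y0 h.y1
  have pcx : 0 < (n8 T u b x) := cn_pos h.x0 h.x1
  have pcy : 0 < (n12 T u b x) := cn_pos (y := n3 T u b x) h.y0 h.y1
  have key := mol_val (x := x) (y := n3 T u b x) (cx := n8 T u b x) (cy := n12 T u b x) (e := n15 T u b x) (ey := n64 T u b x)
    (μ := 0) (m := 1) (δ := 0) (r0 := 1 / 2) (E0 := n160 T u b x) (Δ := (n95 T u b x) - (n92 T u b x)) (a := n244 T u b x) (b := n248 T u b x)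
    (k := n263 T u b x) (F1 := n267 T u b x) (F2 := n280 T u b x) (A1 := n284 T u b x) (A2 := n292 T u b x) (G := n74 T u b x)
    (D := (3 / 4 + 9 / 8 * (n3 T u b x / n12 T u b x))) (Rx := 3 / 4 * x + 3 / 2 * (1 - n8 T u b x))
    (Ry := 3 / 4 * n3 T u b x + 3 / 2 * (1 - n12 T u b x)) (lam := 0) (ν := 0) h.x0 h.x1 h.y0 h.y1 pcx pcy
    hcx hcy ?_ ?_ ?_ ?_ rfl rfl ?_ rfl ?_ ?_ ?_ ?_ ?_ ?_ ?_ ?_ ?_
  · exact ⟨key.1.trans (by rw [hy]), key.2.trans (by rw [hy])⟩
  · simp only [n244]
    unfold mA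
    ring
  · simp only [n248]
    unfold mA
    ring
  · simp only [n15]
    all_goals ring
  · simp only [n64, n60]
    all_goals ring
  · simp only [n74, n73, n69, n52, n51]
    all_goals ring
  · all_goals ring
  · simp only [n267, n258, n255, n251, n250]
    unfold mF1
    ring
  · simp only [n280, n273, n255, n251, n250]
    unfold mF2
    ring
  · simp only [n263, n259, n258, n255, n251, n250]
    all_goals ring
  · simp only [n284, n283, n273, n251]
    all_goals ring
  · simp only [n292, n291, n286]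
    all_goals ring
  · all_goals ring
  · simp only [n160, n64, n60]
    all_goals ring
  · simp only [n95, n92, n85, n79]
    all_goals ring

theorem val0B (T : MolP) {u b x : ℝ} (h : DomB u b x) :
    (1 - x) * ((n160 T u b x) - (n15 T u b x) * (1 / 2)) - (n15 T u b x) * (((n3 T u b x) - x) * (1 - (n3 T u b x)) * ((n409 T u b x) - (n95 T u b x))) = u ^ 2 * (n284 T u b x) ∧
      x * ((n160 T u b x) - (n15 T u b x) * (1 / 2)) - (n15 T u b x) * (((n3 T u b x) - x) * (n3 T u b x) * ((n409 T u b x) - (n95 T u b x))) = u ^ 2 * (n292 T u b x) := by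
  have hy : (n3 T u b x) - x = u := by
    simp only [n3]
    ring
  have hcx : (n8 T u b x) ^ 2 = 1 - 3 / 4 * x ^ 2 := cn_sq h.x0 h.x1
  have hcy : (n12 T u b x) ^ 2 = 1 - 3 / 4 * (n3 T u b x) ^ 2 := cn_sq (y := n3 T u b x) h.y0 h.y1
  have pcx : 0 < (n8 T u b x) := cn_pos h.x0 h.x1
  have pcy : 0 < (n12 T u b x) := cn_pos (y := n3 T u b x) h.y0 h.y1
  have key := mol_val (x := x) (y := n3 T u b x) (cx := n8 T u b x) (cy := n12 T u b x) (e := n15 T u b x) (ey := n64 T u b x)
    (μ := 0) (m := 1) (δ := 0) (r0 := 1 / 2) (E0 := n160 T u b x) (Δ := (n409 T u b x) - (n95 T u b x)) (a := n244 T u b x) (b := n248 T u b x)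
    (k := n263 T u b x) (F1 := n267 T u b x) (F2 := n280 T u b x) (A1 := n284 T u b x) (A2 := n292 T u b x) (G := n74 T u b x)
    (D := (3 / 4 + 9 / 8 * (n3 T u b x / n12 T u b x))) (Rx := 3 / 4 * x + 3 / 2 * (1 - n8 T u b x))
    (Ry := 3 / 4 * n3 T u b x + 3 / 2 * (1 - n12 T u b x)) (lam := 0) (ν := 0) h.x0 h.x1 h.y0 h.y1 pcx pcy
    hcx hcy ?_ ?_ ?_ ?_ rfl rfl ?_ rfl ?_ ?_ ?_ ?_ ?_ ?_ ?_ ?_ ?_
  · exact ⟨key.1.trans (by rw [hy]), key.2.trans (by rw [hy])⟩
  · simp only [n244]
    unfold mA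
    ring
  · simp only [n248]
    unfold mA
    ring
  · simp only [n15]
    all_goals ring
  · simp only [n64, n60]
    all_goals ring
  · simp only [n74, n73, n69, n52, n51]
    all_goals ring
  · all_goals ring
  · simp only [n267, n258, n255, n251, n250]
    unfold mF1
    ring
  · simp only [n280, n273, n255, n251, n250]
    unfold mF2
    ring
  · simp only [n263, n259, n258, n255, n251, n250]
    all_goals ring
  · simp only [n284, n283, n273, n251]
    all_goals ring
  · simp only [n292, n291, n286]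
    all_goals ring
  · all_goals ring
  · simp only [n160, n64, n60]
    all_goals ring
  · simp only [n409, n404, n402, n95]
    all_goals ring

theorem val1A (T : MolP) {u b x : ℝ} (h : DomA u b x) :
    (1 - x) * ((n654 T u b x) - (n15 T u b x) * (1 / 2 * (n662 T u b x))) - (n15 T u b x) * (((n3 T u b x) - x) * (1 - (n3 T u b x)) * ((n728 T u b x) - (n737 T u b x))) = u ^ 2 * (n859 T u b x) ∧
      x * ((n654 T u b x) - (n15 T u b x) * (1 / 2 * (n662 T u b x))) - (n15 T u b x) * (((n3 T u b x) - x) * (n3 T u b x) * ((n728 T u b x) - (n737 T u b x))) = u ^ 2 * (n861 T u b x) := by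
  have hy : (n3 T u b x) - x = u := by
    simp only [n3]
    ring
  have hcx : (n8 T u b x) ^ 2 = 1 - 3 / 4 * x ^ 2 := cn_sq h.x0 h.x1
  have hcy : (n12 T u b x) ^ 2 = 1 - 3 / 4 * (n3 T u b x) ^ 2 := cn_sq (y := n3 T u b x) h.y0 h.y1
  have pcx : 0 < (n8 T u b x) := cn_pos h.x0 h.x1
  have pcy : 0 < (n12 T u b x) := cn_pos (y := n3 T u b x) h.y0 h.y1
  have key := mol_val (x := x) (y := n3 T u b x) (cx := n8 T u b x) (cy := n12 T u b x) (e := n15 T u b x) (ey := n64 T u b x)
    (μ := n599 T u b x) (m := n662 T u b x) (δ := T.dy) (r0 := 1 / 2 * (n662 T u b x)) (E0 := n654 T u b x) (Δ := (n728 T u b x) - (n737 T u b x)) (a := n244 T u b x) (b := n248 T u b x)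
    (k := n263 T u b x) (F1 := n838 T u b x) (F2 := n857 T u b x) (A1 := n859 T u b x) (A2 := n861 T u b x) (G := n74 T u b x)
    (D := (3 / 4 + 9 / 8 * (n3 T u b x / n12 T u b x))) (Rx := 3 / 4 * x + 3 / 2 * (1 - n8 T u b x))
    (Ry := 3 / 4 * n3 T u b x + 3 / 2 * (1 - n12 T u b x)) (lam := 0) (ν := 0) h.x0 h.x1 h.y0 h.y1 pcx pcy
    hcx hcy ?_ ?_ ?_ ?_ rfl rfl ?_ rfl ?_ ?_ ?_ ?_ ?_ ?_ ?_ ?_ ?_
  · exact ⟨key.1.trans (by rw [hy]), key.2.trans (by rw [hy])⟩
  · simp only [n244]
    unfold mA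
    ring
  · simp only [n248]
    unfold mA
    ring
  · simp only [n15]
    all_goals ring
  · simp only [n64, n60]
    all_goals ring
  · simp only [n74, n73, n69, n52, n51]
    all_goals ring
  · simp only [n662, n660]
    all_goals ring
  · simp only [n838, n833, n267, n259, n258, n255, n251, n250]
    unfold mF1
    ring
  · simp only [n857, n833, n286, n280, n273, n259, n258, n255, n251, n250]
    unfold mF2
    ring
  · simp only [n263, n259, n258, n255, n251, n250]
    all_goals ring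
  · simp only [n859, n283, n273, n251]
    all_goals ring
  · simp only [n861, n291, n286]
    all_goals ring
  · all_goals ring
  · rw [hy]
    simp only [n654, n160, n129, n122, n117, n110, n108, n102, n64, n60]
    linear_combination -(1 / 4) * (n599 T u b x) * hcy
  · simp only [n737, n734, n731, n728, n725, n722, n711, n706, n704, n703, n699, n696, n690, n685, n683, n677, n675, n669, n102, n95, n92, n85, n79, n52, n51]
    all_goals ring

theorem val1B (T : MolP) {u b x : ℝ} (h : DomB u b x) :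
    (1 - x) * ((n654 T u b x) - (n15 T u b x) * (1 / 2 * (n662 T u b x))) - (n15 T u b x) * (((n3 T u b x) - x) * (1 - (n3 T u b x)) * ((n1042 T u b x) - (n728 T u b x))) = u ^ 2 * (n859 T u b x) ∧
      x * ((n654 T u b x) - (n15 T u b x) * (1 / 2 * (n662 T u b x))) - (n15 T u b x) * (((n3 T u b x) - x) * (n3 T u b x) * ((n1042 T u b x) - (n728 T u b x))) = u ^ 2 * (n861 T u b x) := by
  have hy : (n3 T u b x) - x = u := by
    simp only [n3]
    ring
  have hcx : (n8 T u b x) ^ 2 = 1 - 3 / 4 * x ^ 2 := cn_sq h.x0 h.x1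
  have hcy : (n12 T u b x) ^ 2 = 1 - 3 / 4 * (n3 T u b x) ^ 2 := cn_sq (y := n3 T u b x) h.y0 h.y1
  have pcx : 0 < (n8 T u b x) := cn_pos h.x0 h.x1
  have pcy : 0 < (n12 T u b x) := cn_pos (y := n3 T u b x) h.y0 h.y1
  have key := mol_val (x := x) (y := n3 T u b x) (cx := n8 T u b x) (cy := n12 T u b x) (e := n15 T u b x) (ey := n64 T u b x)
    (μ := n599 T u b x) (m := n662 T u b x) (δ := T.dy) (r0 := 1 / 2 * (n662 T u b x)) (E0 := n654 T u b x) (Δ := (n1042 T u b x) - (n728 T u b x)) (a := n244 T u b x) (b := n248 T u b x)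
    (k := n263 T u b x) (F1 := n838 T u b x) (F2 := n857 T u b x) (A1 := n859 T u b x) (A2 := n861 T u b x) (G := n74 T u b x)
    (D := (3 / 4 + 9 / 8 * (n3 T u b x / n12 T u b x))) (Rx := 3 / 4 * x + 3 / 2 * (1 - n8 T u b x))
    (Ry := 3 / 4 * n3 T u b x + 3 / 2 * (1 - n12 T u b x)) (lam := 0) (ν := 0) h.x0 h.x1 h.y0 h.y1 pcx pcy
    hcx hcy ?_ ?_ ?_ ?_ rfl rfl ?_ rfl ?_ ?_ ?_ ?_ ?_ ?_ ?_ ?_ ?_
  · exact ⟨key.1.trans (by rw [hy]), key.2.trans (by rw [hy])⟩
  · simp only [n244]
    unfold mA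
    ring
  · simp only [n248]
    unfold mA
    ring
  · simp only [n15]
    all_goals ring
  · simp only [n64, n60]
    all_goals ring
  · simp only [n74, n73, n69, n52, n51]
    all_goals ring
  · simp only [n662, n660]
    all_goals ring
  · simp only [n838, n833, n267, n259, n258, n255, n251, n250]
    unfold mF1
    ring
  · simp only [n857, n833, n286, n280, n273, n259, n258, n255, n251, n250]
    unfold mF2
    ring
  · simp only [n263, n259, n258, n255, n251, n250]
    all_goals ring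
  · simp only [n859, n283, n273, n251]
    all_goals ring
  · simp only [n861, n291, n286]
    all_goals ring
  · all_goals ring
  · rw [hy]
    simp only [n654, n160, n129, n122, n117, n110, n108, n102, n64, n60]
    linear_combination -(1 / 4) * (n599 T u b x) * hcy
  · simp only [n1042, n1039, n1036, n1026, n1021, n1019, n1014, n728, n725, n722, n703, n699, n690, n685, n683, n677, n675, n669, n409, n404, n402, n102, n95, n52, n51]
    all_goals ring

theorem val2A (T : MolP) {u b x : ℝ} (h : DomA u b x) :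
    (1 - x) * ((n1209 T u b x) - (n15 T u b x) * (n1215 T u b x)) - (n15 T u b x) * (((n3 T u b x) - x) * (1 - (n3 T u b x)) * ((n728 T u b x) - (n737 T u b x))) = u ^ 2 * (n1281 T u b x) ∧
      x * ((n1209 T u b x) - (n15 T u b x) * (n1215 T u b x)) - (n15 T u b x) * (((n3 T u b x) - x) * (n3 T u b x) * ((n728 T u b x) - (n737 T u b x))) = u ^ 2 * (n1283 T u b x) := by
  have hy : (n3 T u b x) - x = u := by
    simp only [n3]
    ring
  have hcx : (n8 T u b x) ^ 2 = 1 - 3 / 4 * x ^ 2 := cn_sq h.x0 h.x1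
  have hcy : (n12 T u b x) ^ 2 = 1 - 3 / 4 * (n3 T u b x) ^ 2 := cn_sq (y := n3 T u b x) h.y0 h.y1
  have pcx : 0 < (n8 T u b x) := cn_pos h.x0 h.x1
  have pcy : 0 < (n12 T u b x) := cn_pos (y := n3 T u b x) h.y0 h.y1
  have key := mol_val (x := x) (y := n3 T u b x) (cx := n8 T u b x) (cy := n12 T u b x) (e := n15 T u b x) (ey := n64 T u b x)
    (μ := n599 T u b x) (m := n662 T u b x) (δ := T.dy) (r0 := n1215 T u b x) (E0 := n1209 T u b x) (Δ := (n728 T u b x) - (n737 T u b x)) (a := n244 T u b x) (b := n248 T u b x)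
    (k := n263 T u b x) (F1 := n838 T u b x) (F2 := n857 T u b x) (A1 := n1281 T u b x) (A2 := n1283 T u b x) (G := n74 T u b x)
    (D := (3 / 4 + 9 / 8 * (n3 T u b x / n12 T u b x))) (Rx := 3 / 4 * x + 3 / 2 * (1 - n8 T u b x))
    (Ry := 3 / 4 * n3 T u b x + 3 / 2 * (1 - n12 T u b x)) (lam := n1203 T u b x) (ν := n1192 T u b x) h.x0 h.x1 h.y0 h.y1 pcx pcy
    hcx hcy ?_ ?_ ?_ ?_ rfl rfl ?_ rfl ?_ ?_ ?_ ?_ ?_ ?_ ?_ ?_ ?_
  · exact ⟨key.1.trans (by rw [hy]), key.2.trans (by rw [hy])⟩
  · simp only [n244]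
    unfold mA
    ring
  · simp only [n248]
    unfold mA
    ring
  · simp only [n15]
    all_goals ring
  · simp only [n64, n60]
    all_goals ring
  · simp only [n74, n73, n69, n52, n51]
    all_goals ring
  · simp only [n662, n660]
    all_goals ring
  · simp only [n838, n833, n267, n259, n258, n255, n251, n250]
    unfold mF1
    ring
  · simp only [n857, n833, n286, n280, n273, n259, n258, n255, n251, n250]
    unfold mF2
    ring
  · simp only [n263, n259, n258, n255, n251, n250]
    all_goals ring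
  · simp only [n1281, n859, n283, n273, n251, n205]
    all_goals ring
  · simp only [n1283, n861, n291, n286]
    all_goals ring
  · simp only [n1215]
    all_goals ring
  · rw [hy]
    simp only [n1209, n1204, n654, n298, n160, n129, n122, n117, n110, n108, n102, n64, n60]
    linear_combination -(1 / 4) * (n599 T u b x) * hcy
  · simp only [n737, n734, n731, n728, n725, n722, n711, n706, n704, n703, n699, n696, n690, n685, n683, n677, n675, n669, n102, n95, n92, n85, n79, n52, n51]
    all_goals ring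

theorem val2B (T : MolP) {u b x : ℝ} (h : DomB u b x) :
    (1 - x) * ((n1209 T u b x) - (n15 T u b x) * (n1215 T u b x)) - (n15 T u b x) * (((n3 T u b x) - x) * (1 - (n3 T u b x)) * ((n1042 T u b x) - (n728 T u b x))) = u ^ 2 * (n1281 T u b x) ∧
      x * ((n1209 T u b x) - (n15 T u b x) * (n1215 T u b x)) - (n15 T u b x) * (((n3 T u b x) - x) * (n3 T u b x) * ((n1042 T u b x) - (n728 T u b x))) = u ^ 2 * (n1283 T u b x) := by
  have hy : (n3 T u b x) - x = u := by
    simp only [n3]
    ring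
  have hcx : (n8 T u b x) ^ 2 = 1 - 3 / 4 * x ^ 2 := cn_sq h.x0 h.x1
  have hcy : (n12 T u b x) ^ 2 = 1 - 3 / 4 * (n3 T u b x) ^ 2 := cn_sq (y := n3 T u b x) h.y0 h.y1
  have pcx : 0 < (n8 T u b x) := cn_pos h.x0 h.x1
  have pcy : 0 < (n12 T u b x) := cn_pos (y := n3 T u b x) h.y0 h.y1
  have key := mol_val (x := x) (y := n3 T u b x) (cx := n8 T u b x) (cy := n12 T u b x) (e := n15 T u b x) (ey := n64 T u b x)
    (μ := n599 T u b x) (m := n662 T u b x) (δ := T.dy) (r0 := n1215 T u b x) (E0 := n1209 T u b x) (Δ := (n1042 T u b x) - (n728 T u b x)) (a := n244 T u b x) (b := n248 T u b x)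
    (k := n263 T u b x) (F1 := n838 T u b x) (F2 := n857 T u b x) (A1 := n1281 T u b x) (A2 := n1283 T u b x) (G := n74 T u b x)
    (D := (3 / 4 + 9 / 8 * (n3 T u b x / n12 T u b x))) (Rx := 3 / 4 * x + 3 / 2 * (1 - n8 T u b x))
    (Ry := 3 / 4 * n3 T u b x + 3 / 2 * (1 - n12 T u b x)) (lam := n1203 T u b x) (ν := n1192 T u b x) h.x0 h.x1 h.y0 h.y1 pcx pcy
    hcx hcy ?_ ?_ ?_ ?_ rfl rfl ?_ rfl ?_ ?_ ?_ ?_ ?_ ?_ ?_ ?_ ?_
  · exact ⟨key.1.trans (by rw [hy]), key.2.trans (by rw [hy])⟩
  · simp only [n244]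
    unfold mA
    ring
  · simp only [n248]
    unfold mA
    ring
  · simp only [n15]
    all_goals ring
  · simp only [n64, n60]
    all_goals ring
  · simp only [n74, n73, n69, n52, n51]
    all_goals ring
  · simp only [n662, n660]
    all_goals ring
  · simp only [n838, n833, n267, n259, n258, n255, n251, n250]
    unfold mF1
    ring
  · simp only [n857, n833, n286, n280, n273, n259, n258, n255, n251, n250]
    unfold mF2
    ring
  · simp only [n263, n259, n258, n255, n251, n250]
    all_goals ring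
  · simp only [n1281, n859, n283, n273, n251, n205]
    all_goals ring
  · simp only [n1283, n861, n291, n286]
    all_goals ring
  · simp only [n1215]
    all_goals ring
  · rw [hy]
    simp only [n1209, n1204, n654, n298, n160, n129, n122, n117, n110, n108, n102, n64, n60]
    linear_combination -(1 / 4) * (n599 T u b x) * hcy
  · simp only [n1042, n1039, n1036, n1026, n1021, n1019, n1014, n728, n725, n722, n703, n699, n690, n685, n683, n677, n675, n669, n409, n404, n402, n102, n95, n52, n51]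
    all_goals ring

end Pool.Agent.Strip051.LC.MolN
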