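import Pool.Agent.Strip051.LC.Exact.MolN3

/-! # The tight triangles: the charts (generated) -/

set_option linter.unusedVariables false

namespace Pool.Agent.Strip051.LC.MolN

open Pool.Agent.StripNear Pool.Agent.StripSquare Pool.Agent.Strip051.Sweep
open Pool.Agent.Strip051.LC
open Pool.Agent.Strip051.LC.Line (tau)

theorem nn0A1 (T : MolP) {u b x : ℝ} (h : DomA u b x) : 0 ≤ n284 T u b x := by
  have hcx : (n8 T u b x) ^ 2 = 1 - 3 / 4 * x ^ 2 := cn_sq h.x0 h.x1
  have hcy : (n12 T u b x) ^ 2 = 1 - 3 / 4 * (n3 T u b x) ^ 2 := cn_sq (y := n3 T u b x) h.y0 h.y1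
  have pcx : 0 < (n8 T u b x) := cn_pos h.x0 h.x1
  have pcy : 0 < (n12 T u b x) := cn_pos (y := n3 T u b x) h.y0 h.y1
  have pe : 0 ≤ (n15 T u b x) := by
    have := (cn_e h.x0 h.x1).le
    refine this.trans (le_of_eq ?_)
    simp only [n15, n8]
    all_goals ring
  have pey : 0 ≤ (n64 T u b x) := by
    have := (cn_e (y := n3 T u b x) h.y0 h.y1).le
    refine this.trans (le_of_eq ?_)
    simp only [n64, n60, n12]
    all_goals ring
  refine mol_A1_nonneg (x := x) (y := n3 T u b x) (cx := n8 T u b x) (cy := n12 T u b x) (e := n15 T u b x) (ey := n64 T u b x)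
    (μ := 0) (m := 1) (δ := 0) (a := n244 T u b x) (b := n248 T u b x) (k := n263 T u b x) (F1 := n267 T u b x) (A1 := n284 T u b x) h.x0 h.x1
    h.y0 h.y1 pcx pcy hcx hcy ?_ ?_ le_rfl le_rfl (by norm_num) (by norm_num) pe pey ?_ ?_ ?_
  · simp only [n244]
    unfold mA
    ring
  · simp only [n248]
    unfold mA
    ring
  · simp only [n267, n258, n255, n251, n250]
    unfold mF1
    ring
  · simp only [n263, n259, n258, n255, n251, n250]
    all_goals ring
  · simp only [n284, n283, n273, n251]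
    all_goals ring

theorem nn0A2 (T : MolP) {u b x : ℝ} (h : DomA u b x) : 0 ≤ n292 T u b x := by
  have hcx : (n8 T u b x) ^ 2 = 1 - 3 / 4 * x ^ 2 := cn_sq h.x0 h.x1
  have hcy : (n12 T u b x) ^ 2 = 1 - 3 / 4 * (n3 T u b x) ^ 2 := cn_sq (y := n3 T u b x) h.y0 h.y1
  have pcx : 0 < (n8 T u b x) := cn_pos h.x0 h.x1
  have pcy : 0 < (n12 T u b x) := cn_pos (y := n3 T u b x) h.y0 h.y1
  have pe : 0 ≤ (n15 T u b x) := by
    have := (cn_e h.x0 h.x1).le
    refine this.trans (le_of_eq ?_)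
    simp only [n15, n8]
    all_goals ring
  have pey : 0 ≤ (n64 T u b x) := by
    have := (cn_e (y := n3 T u b x) h.y0 h.y1).le
    refine this.trans (le_of_eq ?_)
    simp only [n64, n60, n12]
    all_goals ring
  refine mol_A2_nonneg (x := x) (y := n3 T u b x) (cx := n8 T u b x) (cy := n12 T u b x) (e := n15 T u b x) (ey := n64 T u b x)
    (μ := 0) (m := 1) (δ := 0) (a := n244 T u b x) (b := n248 T u b x) (k := n263 T u b x) (F2 := n280 T u b x) (A2 := n292 T u b x) h.x0 h.x1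
    h.y0 h.y1 pcx pcy hcx hcy ?_ ?_ le_rfl le_rfl (by norm_num) (by norm_num) pe pey ?_ ?_ ?_
  · simp only [n244]
    unfold mA
    ring
  · simp only [n248]
    unfold mA
    ring
  · simp only [n280, n273, n255, n251, n250]
    unfold mF2
    ring
  · simp only [n263, n259, n258, n255, n251, n250]
    all_goals ring
  · simp only [n292, n291, n286]
    all_goals ring

theorem nn0B1 (T : MolP) {u b x : ℝ} (h : DomB u b x) : 0 ≤ n284 T u b x := by
  have hcx : (n8 T u b x) ^ 2 = 1 - 3 / 4 * x ^ 2 := cn_sq h.x0 h.x1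
  have hcy : (n12 T u b x) ^ 2 = 1 - 3 / 4 * (n3 T u b x) ^ 2 := cn_sq (y := n3 T u b x) h.y0 h.y1
  have pcx : 0 < (n8 T u b x) := cn_pos h.x0 h.x1
  have pcy : 0 < (n12 T u b x) := cn_pos (y := n3 T u b x) h.y0 h.y1
  have pe : 0 ≤ (n15 T u b x) := by
    have := (cn_e h.x0 h.x1).le
    refine this.trans (le_of_eq ?_)
    simp only [n15, n8]
    all_goals ring
  have pey : 0 ≤ (n64 T u b x) := by
    have := (cn_e (y := n3 T u b x) h.y0 h.y1).le
    refine this.trans (le_of_eq ?_)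
    simp only [n64, n60, n12]
    all_goals ring
  refine mol_A1_nonneg (x := x) (y := n3 T u b x) (cx := n8 T u b x) (cy := n12 T u b x) (e := n15 T u b x) (ey := n64 T u b x)
    (μ := 0) (m := 1) (δ := 0) (a := n244 T u b x) (b := n248 T u b x) (k := n263 T u b x) (F1 := n267 T u b x) (A1 := n284 T u b x) h.x0 h.x1
    h.y0 h.y1 pcx pcy hcx hcy ?_ ?_ le_rfl le_rfl (by norm_num) (by norm_num) pe pey ?_ ?_ ?_
  · simp only [n244]
    unfold mA
    ring
  · simp only [n248]
    unfold mA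
    ring
  · simp only [n267, n258, n255, n251, n250]
    unfold mF1
    ring
  · simp only [n263, n259, n258, n255, n251, n250]
    all_goals ring
  · simp only [n284, n283, n273, n251]
    all_goals ring

theorem nn0B2 (T : MolP) {u b x : ℝ} (h : DomB u b x) : 0 ≤ n292 T u b x := by
  have hcx : (n8 T u b x) ^ 2 = 1 - 3 / 4 * x ^ 2 := cn_sq h.x0 h.x1
  have hcy : (n12 T u b x) ^ 2 = 1 - 3 / 4 * (n3 T u b x) ^ 2 := cn_sq (y := n3 T u b x) h.y0 h.y1
  have pcx : 0 < (n8 T u b x) := cn_pos h.x0 h.x1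
  have pcy : 0 < (n12 T u b x) := cn_pos (y := n3 T u b x) h.y0 h.y1
  have pe : 0 ≤ (n15 T u b x) := by
    have := (cn_e h.x0 h.x1).le
    refine this.trans (le_of_eq ?_)
    simp only [n15, n8]
    all_goals ring
  have pey : 0 ≤ (n64 T u b x) := by
    have := (cn_e (y := n3 T u b x) h.y0 h.y1).le
    refine this.trans (le_of_eq ?_)
    simp only [n64, n60, n12]
    all_goals ring
  refine mol_A2_nonneg (x := x) (y := n3 T u b x) (cx := n8 T u b x) (cy := n12 T u b x) (e := n15 T u b x) (ey := n64 T u b x)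
    (μ := 0) (m := 1) (δ := 0) (a := n244 T u b x) (b := n248 T u b x) (k := n263 T u b x) (F2 := n280 T u b x) (A2 := n292 T u b x) h.x0 h.x1
    h.y0 h.y1 pcx pcy hcx hcy ?_ ?_ le_rfl le_rfl (by norm_num) (by norm_num) pe pey ?_ ?_ ?_
  · simp only [n244]
    unfold mA
    ring
  · simp only [n248]
    unfold mA
    ring
  · simp only [n280, n273, n255, n251, n250]
    unfold mF2
    ring
  · simp only [n263, n259, n258, n255, n251, n250]
    all_goals ring
  · simp only [n292, n291, n286]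
    all_goals ring

theorem nn1A1 (T : MolP) {u b x : ℝ} (h : DomA u b x) (hd : |T.dy| ≤ 1 / 2) : 0 ≤ n859 T u b x := by
  have hcx : (n8 T u b x) ^ 2 = 1 - 3 / 4 * x ^ 2 := cn_sq h.x0 h.x1
  have hcy : (n12 T u b x) ^ 2 = 1 - 3 / 4 * (n3 T u b x) ^ 2 := cn_sq (y := n3 T u b x) h.y0 h.y1
  have pcx : 0 < (n8 T u b x) := cn_pos h.x0 h.x1
  have pcy : 0 < (n12 T u b x) := cn_pos (y := n3 T u b x) h.y0 h.y1
  have hmu : 0 ≤ (n599 T u b x) := by
    simp only [n599]
    positivity
  have hmu1 : (n599 T u b x) ≤ 1 / 4 := by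
    have := mol_mu_le h.x0 h.x1 pcx hcx
    simp only [n599]
    rw [inv_le_comm₀ (by linarith) (by norm_num)]
    linarith
  have hm : 1 ≤ (n662 T u b x) := by
    have hc1 : (n8 T u b x) ≤ 1 := by nlinarith [sq_nonneg x]
    have hx := h.x0
    have h3 : 0 ≤ (n599 T u b x) * (3 / 4 * x + 3 / 2 * (1 - (n8 T u b x))) := mul_nonneg hmu (by linarith)
    have h4 : (n662 T u b x) = 1 + (n599 T u b x) * (3 / 4 * x + 3 / 2 * (1 - (n8 T u b x))) := by
      simp only [n662, n660]
      all_goals ring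
    rw [h4]
    linarith
  have pe : 0 ≤ (n15 T u b x) := by
    have := (cn_e h.x0 h.x1).le
    refine this.trans (le_of_eq ?_)
    simp only [n15, n8]
    all_goals ring
  have pey : 0 ≤ (n64 T u b x) := by
    have := (cn_e (y := n3 T u b x) h.y0 h.y1).le
    refine this.trans (le_of_eq ?_)
    simp only [n64, n60, n12]
    all_goals ring
  refine mol_A1_nonneg (x := x) (y := n3 T u b x) (cx := n8 T u b x) (cy := n12 T u b x) (e := n15 T u b x) (ey := n64 T u b x)
    (μ := n599 T u b x) (m := n662 T u b x) (δ := T.dy) (a := n244 T u b x) (b := n248 T u b x) (k := n263 T u b x) (F1 := n838 T u b x) (A1 := n859 T u b x) h.x0 h.x1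
    h.y0 h.y1 pcx pcy hcx hcy ?_ ?_ hm hmu hmu1 (abs_le.1 hd).2 pe pey ?_ ?_ ?_
  · simp only [n244]
    unfold mA
    ring
  · simp only [n248]
    unfold mA
    ring
  · simp only [n838, n833, n267, n259, n258, n255, n251, n250]
    unfold mF1
    ring
  · simp only [n263, n259, n258, n255, n251, n250]
    all_goals ring
  · simp only [n859, n283, n273, n251]
    all_goals ring

theorem nn1A2 (T : MolP) {u b x : ℝ} (h : DomA u b x) (hd : |T.dy| ≤ 1 / 2) : 0 ≤ n861 T u b x := by
  have hcx : (n8 T u b x) ^ 2 = 1 - 3 / 4 * x ^ 2 := cn_sq h.x0 h.x1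
  have hcy : (n12 T u b x) ^ 2 = 1 - 3 / 4 * (n3 T u b x) ^ 2 := cn_sq (y := n3 T u b x) h.y0 h.y1
  have pcx : 0 < (n8 T u b x) := cn_pos h.x0 h.x1
  have pcy : 0 < (n12 T u b x) := cn_pos (y := n3 T u b x) h.y0 h.y1
  have hmu : 0 ≤ (n599 T u b x) := by
    simp only [n599]
    positivity
  have hmu1 : (n599 T u b x) ≤ 1 / 4 := by
    have := mol_mu_le h.x0 h.x1 pcx hcx
    simp only [n599]
    rw [inv_le_comm₀ (by linarith) (by norm_num)]
    linarith
  have hm : 1 ≤ (n662 T u b x) := by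
    have hc1 : (n8 T u b x) ≤ 1 := by nlinarith [sq_nonneg x]
    have hx := h.x0
    have h3 : 0 ≤ (n599 T u b x) * (3 / 4 * x + 3 / 2 * (1 - (n8 T u b x))) := mul_nonneg hmu (by linarith)
    have h4 : (n662 T u b x) = 1 + (n599 T u b x) * (3 / 4 * x + 3 / 2 * (1 - (n8 T u b x))) := by
      simp only [n662, n660]
      all_goals ring
    rw [h4]
    linarith
  have pe : 0 ≤ (n15 T u b x) := by
    have := (cn_e h.x0 h.x1).le
    refine this.trans (le_of_eq ?_)
    simp only [n15, n8]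
    all_goals ring
  have pey : 0 ≤ (n64 T u b x) := by
    have := (cn_e (y := n3 T u b x) h.y0 h.y1).le
    refine this.trans (le_of_eq ?_)
    simp only [n64, n60, n12]
    all_goals ring
  refine mol_A2_nonneg (x := x) (y := n3 T u b x) (cx := n8 T u b x) (cy := n12 T u b x) (e := n15 T u b x) (ey := n64 T u b x)
    (μ := n599 T u b x) (m := n662 T u b x) (δ := T.dy) (a := n244 T u b x) (b := n248 T u b x) (k := n263 T u b x) (F2 := n857 T u b x) (A2 := n861 T u b x) h.x0 h.x1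
    h.y0 h.y1 pcx pcy hcx hcy ?_ ?_ hm hmu hmu1 (abs_le.1 hd).1 pe pey ?_ ?_ ?_
  · simp only [n244]
    unfold mA
    ring
  · simp only [n248]
    unfold mA
    ring
  · simp only [n857, n833, n286, n280, n273, n259, n258, n255, n251, n250]
    unfold mF2
    ring
  · simp only [n263, n259, n258, n255, n251, n250]
    all_goals ring
  · simp only [n861, n291, n286]
    all_goals ring

theorem nn1B1 (T : MolP) {u b x : ℝ} (h : DomB u b x) (hd : |T.dy| ≤ 1 / 2) : 0 ≤ n859 T u b x := by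
  have hcx : (n8 T u b x) ^ 2 = 1 - 3 / 4 * x ^ 2 := cn_sq h.x0 h.x1
  have hcy : (n12 T u b x) ^ 2 = 1 - 3 / 4 * (n3 T u b x) ^ 2 := cn_sq (y := n3 T u b x) h.y0 h.y1
  have pcx : 0 < (n8 T u b x) := cn_pos h.x0 h.x1
  have pcy : 0 < (n12 T u b x) := cn_pos (y := n3 T u b x) h.y0 h.y1
  have hmu : 0 ≤ (n599 T u b x) := by
    simp only [n599]
    positivity
  have hmu1 : (n599 T u b x) ≤ 1 / 4 := by
    have := mol_mu_le h.x0 h.x1 pcx hcx
    simp only [n599]
    rw [inv_le_comm₀ (by linarith) (by norm_num)]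
    linarith
  have hm : 1 ≤ (n662 T u b x) := by
    have hc1 : (n8 T u b x) ≤ 1 := by nlinarith [sq_nonneg x]
    have hx := h.x0
    have h3 : 0 ≤ (n599 T u b x) * (3 / 4 * x + 3 / 2 * (1 - (n8 T u b x))) := mul_nonneg hmu (by linarith)
    have h4 : (n662 T u b x) = 1 + (n599 T u b x) * (3 / 4 * x + 3 / 2 * (1 - (n8 T u b x))) := by
      simp only [n662, n660]
      all_goals ring
    rw [h4]
    linarith
  have pe : 0 ≤ (n15 T u b x) := by
    have := (cn_e h.x0 h.x1).le
    refine this.trans (le_of_eq ?_)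
    simp only [n15, n8]
    all_goals ring
  have pey : 0 ≤ (n64 T u b x) := by
    have := (cn_e (y := n3 T u b x) h.y0 h.y1).le
    refine this.trans (le_of_eq ?_)
    simp only [n64, n60, n12]
    all_goals ring
  refine mol_A1_nonneg (x := x) (y := n3 T u b x) (cx := n8 T u b x) (cy := n12 T u b x) (e := n15 T u b x) (ey := n64 T u b x)
    (μ := n599 T u b x) (m := n662 T u b x) (δ := T.dy) (a := n244 T u b x) (b := n248 T u b x) (k := n263 T u b x) (F1 := n838 T u b x) (A1 := n859 T u b x) h.x0 h.x1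
    h.y0 h.y1 pcx pcy hcx hcy ?_ ?_ hm hmu hmu1 (abs_le.1 hd).2 pe pey ?_ ?_ ?_
  · simp only [n244]
    unfold mA
    ring
  · simp only [n248]
    unfold mA
    ring
  · simp only [n838, n833, n267, n259, n258, n255, n251, n250]
    unfold mF1
    ring
  · simp only [n263, n259, n258, n255, n251, n250]
    all_goals ring
  · simp only [n859, n283, n273, n251]
    all_goals ring

theorem nn1B2 (T : MolP) {u b x : ℝ} (h : DomB u b x) (hd : |T.dy| ≤ 1 / 2) : 0 ≤ n861 T u b x := by
  have hcx : (n8 T u b x) ^ 2 = 1 - 3 / 4 * x ^ 2 := cn_sq h.x0 h.x1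
  have hcy : (n12 T u b x) ^ 2 = 1 - 3 / 4 * (n3 T u b x) ^ 2 := cn_sq (y := n3 T u b x) h.y0 h.y1
  have pcx : 0 < (n8 T u b x) := cn_pos h.x0 h.x1
  have pcy : 0 < (n12 T u b x) := cn_pos (y := n3 T u b x) h.y0 h.y1
  have hmu : 0 ≤ (n599 T u b x) := by
    simp only [n599]
    positivity
  have hmu1 : (n599 T u b x) ≤ 1 / 4 := by
    have := mol_mu_le h.x0 h.x1 pcx hcx
    simp only [n599]
    rw [inv_le_comm₀ (by linarith) (by norm_num)]
    linarith
  have hm : 1 ≤ (n662 T u b x) := by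
    have hc1 : (n8 T u b x) ≤ 1 := by nlinarith [sq_nonneg x]
    have hx := h.x0
    have h3 : 0 ≤ (n599 T u b x) * (3 / 4 * x + 3 / 2 * (1 - (n8 T u b x))) := mul_nonneg hmu (by linarith)
    have h4 : (n662 T u b x) = 1 + (n599 T u b x) * (3 / 4 * x + 3 / 2 * (1 - (n8 T u b x))) := by
      simp only [n662, n660]
      all_goals ring
    rw [h4]
    linarith
  have pe : 0 ≤ (n15 T u b x) := by
    have := (cn_e h.x0 h.x1).le
    refine this.trans (le_of_eq ?_)
    simp only [n15, n8]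
    all_goals ring
  have pey : 0 ≤ (n64 T u b x) := by
    have := (cn_e (y := n3 T u b x) h.y0 h.y1).le
    refine this.trans (le_of_eq ?_)
    simp only [n64, n60, n12]
    all_goals ring
  refine mol_A2_nonneg (x := x) (y := n3 T u b x) (cx := n8 T u b x) (cy := n12 T u b x) (e := n15 T u b x) (ey := n64 T u b x)
    (μ := n599 T u b x) (m := n662 T u b x) (δ := T.dy) (a := n244 T u b x) (b := n248 T u b x) (k := n263 T u b x) (F2 := n857 T u b x) (A2 := n861 T u b x) h.x0 h.x1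
    h.y0 h.y1 pcx pcy hcx hcy ?_ ?_ hm hmu hmu1 (abs_le.1 hd).1 pe pey ?_ ?_ ?_
  · simp only [n244]
    unfold mA
    ring
  · simp only [n248]
    unfold mA
    ring
  · simp only [n857, n833, n286, n280, n273, n259, n258, n255, n251, n250]
    unfold mF2
    ring
  · simp only [n263, n259, n258, n255, n251, n250]
    all_goals ring
  · simp only [n861, n291, n286]
    all_goals ring

theorem ch0Ap (T : MolP) {u b x κ τ1 τ3 : ℝ} (h : DomA u b x) (hb : 0 ≤ b)
    (hκ : κ * h0 * (x * (1 - x)) = 2 * (n15 T u b x)) (hP : 0 < n174 T u b x) (hQ : 0 < n201 T u b x)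
    (tN : 0 < -(n297 T u b x) ∨ 0 < n221 T u b x ∨ 0 < n302 T u b x) (tM : 0 < n297 T u b x ∨ 0 < n240 T u b x ∨ 0 < n306 T u b x)
    (t1 : tau (h0 * (n3 T u b x)) = h0 * τ1) (t3 : tau (h0 * (n3 T u b x) + (h0 + h0 * b)) = h0 * τ3) :
    NGV κ (h0 * x) ((n160 T u b x) + b * (n168 T u b x)) (h0 * (n3 T u b x)) (h0 + h0 * b)
      ((n100 T u b x) * τ1, -(n142 T u b x), (n139 T u b x) * τ3) := by
  have eNT : n302 T u b x = u ^ 2 * ((n284 T u b x) * (1 / 2)) + b * (n221 T u b x) := by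
    simp only [n302, n300, n298]
    all_goals ring
  have eMT : n306 T u b x = u ^ 2 * ((n292 T u b x) * ((1 - (n3 T u b x)) * (1 / 2))) + b * (n240 T u b x) := by
    simp only [n306, n304, n298, n169]
    all_goals ring
  rw [eNT] at tN
  rw [eMT] at tM
  have hr : (0 : ℝ) ≤ (1 / 2) := by
    norm_num
  refine chA_nonneg (κ := κ) (x := x) (e := n15 T u b x) (y := n3 T u b x) (β := b) (K1 := n100 T u b x) (K10 := n95 T u b x) (K11 := T.q1)
    (K30 := n92 T u b x) (K31 := n137 T u b x) (K3 := n139 T u b x) (ρ0 := 1 / 2) (ρ1 := T.rs) (ρ := n142 T u b x) (E0 := n160 T u b x) (E1 := n168 T u b x) (P := n174 T u b x)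
    (R := n188 T u b x) (Q := n201 T u b x) (P0 := n177 T u b x) (P1 := n182 T u b x) (R1 := n186 T u b x) (Q1 := n195 T u b x) (A1 := n284 T u b x) (A2 := n292 T u b x)
    (N1 := n221 T u b x) (M1 := n240 T u b x) (u := u) (wd := n297 T u b x) (τ1 := τ1) (τ3 := τ3) h.x0 h.x1 hκ hb (by linarith [h.b1]) h.p1 h.y0 h.y1
    (J16 T (u := u) (b := b) (x := x) h) (J17 T (u := u) (b := b) (x := x))
    (J0 T (u := u) (b := b) (x := x)) ?_ ?_ ?_ ?_ ?_ ?_ ?_ hP hQ ?_ ?_ (val0A T h) (nn0A1 T h) (nn0A2 T h) hr ?_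
    tN tM t1 t3
  · simp only [n174, n173, n172, n170, n169]
    all_goals ring
  · simp only [n186, n184, n173, n172, n169]
    all_goals ring
  · simp only [n188]
    all_goals ring
  · simp only [n201, n196]
    all_goals ring
  · simp only [n177, n169]
    all_goals ring
  · simp only [n182, n181, n169]
    all_goals ring
  · simp only [n195, n194]
    all_goals ring
  · simp only [n221, n207, n205, n204, n202, n192, n189, n188, n169]
    unfold mol
    ring
  · simp only [n240, n226, n224, n223, n222, n205, n202, n197, n196, n192, n188, n169]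
    unfold mol
    ring
  · simp only [n297, n293]
    all_goals ring

theorem ch0Am (T : MolP) {u b x κ τ1 τ3 : ℝ} (h : DomA u b x) (hb : b < 0)
    (hκ : κ * h0 * (x * (1 - x)) = 2 * (n15 T u b x)) (hP : 0 < n174 T u b x) (hQ : 0 < n325 T u b x)
    (tN : 0 < -(n365 T u b x) ∨ 0 < -(n345 T u b x) ∨ 0 < n369 T u b x) (tM : 0 < n365 T u b x ∨ 0 < -(n361 T u b x) ∨ 0 < n371 T u b x)
    (t1 : tau (h0 * (n3 T u b x)) = h0 * τ1) (t3 : tau (h0 * (n3 T u b x) + (h0 + h0 * b)) = h0 * τ3) :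
    NGV κ (h0 * x) ((n160 T u b x) + b * (n307 T u b x)) (h0 * (n3 T u b x)) (h0 + h0 * b)
      ((n100 T u b x) * τ1, -(n142 T u b x), (n139 T u b x) * τ3) := by
  have eNT : n369 T u b x = u ^ 2 * ((n284 T u b x) * (1 / 2)) + b * (n345 T u b x) := by
    simp only [n369, n300, n298]
    all_goals ring
  have eMT : n371 T u b x = u ^ 2 * ((n292 T u b x) * ((1 - (n3 T u b x)) * (1 / 2))) + b * (n361 T u b x) := by
    simp only [n371, n304, n298, n169]
    all_goals ring
  rw [eNT] at tN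
  rw [eMT] at tM
  have hr : (0 : ℝ) ≤ (1 / 2) := by
    norm_num
  refine chA_neg (κ := κ) (x := x) (e := n15 T u b x) (y := n3 T u b x) (β := b) (K1 := n100 T u b x) (K10 := n95 T u b x) (K11 := T.q1)
    (K30 := n92 T u b x) (K31 := n137 T u b x) (K3 := n139 T u b x) (ρ0 := 1 / 2) (ρ1 := T.rs) (ρ := n142 T u b x) (E0 := n160 T u b x) (E1 := n307 T u b x) (P := n174 T u b x)
    (R := n313 T u b x) (Q := n325 T u b x) (P0 := n177 T u b x) (P1 := n182 T u b x) (R1 := n311 T u b x) (Q1 := n323 T u b x) (A1 := n284 T u b x) (A2 := n292 T u b x)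
    (N1 := n345 T u b x) (M1 := n361 T u b x) (u := u) (wd := n365 T u b x) (τ1 := τ1) (τ3 := τ3) h.x0 h.x1 hκ hb (by linarith [h.b0]) h.p0 h.y1
    (J16 T (u := u) (b := b) (x := x) h) (J17 T (u := u) (b := b) (x := x))
    (J0 T (u := u) (b := b) (x := x)) ?_ ?_ ?_ ?_ ?_ ?_ ?_ hP hQ ?_ ?_ (val0A T h) (nn0A1 T h) (nn0A2 T h) hr ?_
    tN tM t1 t3
  · simp only [n174, n173, n172, n170, n169]
    all_goals ring
  · simp only [n311, n308, n170, n169, n30]
    all_goals ring
  · simp only [n313]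
    all_goals ring
  · simp only [n325, n30]
    all_goals ring
  · simp only [n177, n169]
    all_goals ring
  · simp only [n182, n181, n169]
    all_goals ring
  · simp only [n323, n194]
    all_goals ring
  · simp only [n345, n331, n319, n316, n315, n314, n313, n205, n204, n202, n194, n169]
    unfold mol
    ring
  · simp only [n361, n347, n326, n319, n313, n224, n223, n222, n205, n202, n169]
    unfold mol
    ring
  · simp only [n365, n293, n30]
    all_goals ring

theorem ch0Bp (T : MolP) {u b x κ τ1 τ3 : ℝ} (h : DomB u b x) (hb : 0 ≤ b)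
    (hκ : κ * h0 * (x * (1 - x)) = 2 * (n15 T u b x)) (hP : 0 < n462 T u b x) (hQ : 0 < n486 T u b x)
    (tN : 0 < -(n531 T u b x) ∨ 0 < n508 T u b x ∨ 0 < n533 T u b x) (tM : 0 < n531 T u b x ∨ 0 < n526 T u b x ∨ 0 < n535 T u b x)
    (t1 : tau (h0 * (n3 T u b x)) = h0 * τ1) (t3 : tau (h0 + h0 * b - h0 * (n3 T u b x)) = h0 * τ3) :
    NGV κ (h0 * x) ((n160 T u b x) + b * (n458 T u b x)) (h0 * (n3 T u b x)) (h0 + h0 * b - h0 * (n3 T u b x))
      ((n100 T u b x) * τ1, (n443 T u b x) * τ3, -(n142 T u b x)) := by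
  have eNT : n533 T u b x = u ^ 2 * ((n284 T u b x) * (1 / 2)) + b * (n508 T u b x) := by
    simp only [n533, n300, n298]
    all_goals ring
  have eMT : n535 T u b x = u ^ 2 * ((n292 T u b x) * ((1 - (n3 T u b x)) * (1 / 2))) + b * (n526 T u b x) := by
    simp only [n535, n304, n298, n169]
    all_goals ring
  rw [eNT] at tN
  rw [eMT] at tM
  have hr : (0 : ℝ) ≤ (1 / 2) := by
    norm_num
  refine chB_nonneg (κ := κ) (x := x) (e := n15 T u b x) (y := n3 T u b x) (β := b) (K1 := n100 T u b x) (K10 := n95 T u b x) (K11 := T.q1)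
    (K30 := n409 T u b x) (K31 := n440 T u b x) (K3 := n443 T u b x) (ρ0 := 1 / 2) (ρ1 := T.rs) (ρ := n142 T u b x) (E0 := n160 T u b x) (E1 := n458 T u b x) (P := n462 T u b x)
    (R := n474 T u b x) (Q := n486 T u b x) (P0 := n465 T u b x) (P1 := n469 T u b x) (R1 := n472 T u b x) (Q1 := n484 T u b x) (A1 := n284 T u b x) (A2 := n292 T u b x)
    (N1 := n508 T u b x) (M1 := n526 T u b x) (u := u) (wd := n531 T u b x) (τ1 := τ1) (τ3 := τ3) h.x0 h.x1 hκ hb (by linarith [h.b1]) h.p0 h.y1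
    (J48 T (u := u) (b := b) (x := x) h) (J17 T (u := u) (b := b) (x := x))
    (J0 T (u := u) (b := b) (x := x)) ?_ ?_ ?_ ?_ ?_ ?_ ?_ hP hQ ?_ ?_ (val0B T h) (nn0B1 T h) (nn0B2 T h) hr ?_
    tN tM t1 t3
  · simp only [n462, n461, n460, n170, n169]
    all_goals ring
  · simp only [n472, n372, n308, n170, n169]
    all_goals ring
  · simp only [n474]
    all_goals ring
  · simp only [n486, n372]
    all_goals ring
  · simp only [n465, n169]
    all_goals ring
  · simp only [n469, n181, n169]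
    all_goals ring
  · simp only [n484, n476]
    all_goals ring
  · simp only [n508, n494, n492, n491, n480, n477, n476, n475, n474, n315, n205, n169]
    unfold mol
    ring
  · simp only [n526, n512, n510, n509, n491, n487, n480, n474, n224, n205, n169]
    unfold mol
    ring
  · simp only [n531, n527, n372]
    all_goals ring

theorem ch0Bm (T : MolP) {u b x κ τ1 τ3 : ℝ} (h : DomB u b x) (hb : b < 0)
    (hκ : κ * h0 * (x * (1 - x)) = 2 * (n15 T u b x)) (hP : 0 < n462 T u b x) (hQ : 0 < n548 T u b x)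
    (tN : 0 < -(n590 T u b x) ∨ 0 < -(n570 T u b x) ∨ 0 < n594 T u b x) (tM : 0 < n590 T u b x ∨ 0 < -(n586 T u b x) ∨ 0 < n596 T u b x)
    (t1 : tau (h0 * (n3 T u b x)) = h0 * τ1) (t3 : tau (h0 + h0 * b - h0 * (n3 T u b x)) = h0 * τ3) :
    NGV κ (h0 * x) ((n160 T u b x) + b * (n536 T u b x)) (h0 * (n3 T u b x)) (h0 + h0 * b - h0 * (n3 T u b x))
      ((n100 T u b x) * τ1, (n443 T u b x) * τ3, -(n142 T u b x)) := by
  have eNT : n594 T u b x = u ^ 2 * ((n284 T u b x) * (1 / 2)) + b * (n570 T u b x) := by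
    simp only [n594, n300, n298]
    all_goals ring
  have eMT : n596 T u b x = u ^ 2 * ((n292 T u b x) * ((1 - (n3 T u b x)) * (1 / 2))) + b * (n586 T u b x) := by
    simp only [n596, n304, n298, n169]
    all_goals ring
  rw [eNT] at tN
  rw [eMT] at tM
  have hyb : n3 T u b x < 1 + b := by
    have := h.p1
    simp only [n3]
    linarith
  have hr : (0 : ℝ) ≤ (1 / 2) := by
    norm_num
  refine chB_neg (κ := κ) (x := x) (e := n15 T u b x) (y := n3 T u b x) (β := b) (K1 := n100 T u b x) (K10 := n95 T u b x) (K11 := T.q1)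
    (K30 := n409 T u b x) (K31 := n440 T u b x) (K3 := n443 T u b x) (ρ0 := 1 / 2) (ρ1 := T.rs) (ρ := n142 T u b x) (E0 := n160 T u b x) (E1 := n536 T u b x) (P := n462 T u b x)
    (R := n540 T u b x) (Q := n548 T u b x) (P0 := n465 T u b x) (P1 := n469 T u b x) (R1 := n538 T u b x) (Q1 := n546 T u b x) (A1 := n284 T u b x) (A2 := n292 T u b x)
    (N1 := n570 T u b x) (M1 := n586 T u b x) (u := u) (wd := n590 T u b x) (τ1 := τ1) (τ3 := τ3) h.x0 h.x1 hκ hb (by linarith [h.b0]) hyb h.y0 h.y1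
    (J48 T (u := u) (b := b) (x := x) h) (J17 T (u := u) (b := b) (x := x))
    (J0 T (u := u) (b := b) (x := x)) ?_ ?_ ?_ ?_ ?_ ?_ ?_ hP hQ ?_ ?_ (val0B T h) (nn0B1 T h) (nn0B2 T h) hr ?_
    tN tM t1 t3
  · simp only [n462, n461, n460, n170, n169]
    all_goals ring
  · simp only [n538, n461, n460, n184, n169]
    all_goals ring
  · simp only [n540]
    all_goals ring
  · simp only [n548]
    all_goals ring
  · simp only [n465, n169]
    all_goals ring
  · simp only [n469, n181, n169]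
    all_goals ring
  · simp only [n546, n476]
    all_goals ring
  · simp only [n570, n556, n544, n541, n540, n492, n491, n205, n169]
    unfold mol
    ring
  · simp only [n586, n572, n550, n544, n540, n510, n509, n491, n224, n205, n169]
    unfold mol
    ring
  · simp only [n590, n527]
    all_goals ring

theorem ch1Ap (T : MolP) {u b x κ τ1 τ3 : ℝ} (h : DomA u b x) (hb : 0 ≤ b)
    (hκ : κ * h0 * (x * (1 - x)) = 2 * (n15 T u b x)) (hd : |T.dy| ≤ 1 / 2) (hP : 0 < n752 T u b x) (hQ : 0 < n779 T u b x)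
    (tN : 0 < -(n866 T u b x) ∨ 0 < n798 T u b x ∨ 0 < n870 T u b x) (tM : 0 < n866 T u b x ∨ 0 < n817 T u b x ∨ 0 < n874 T u b x)
    (t1 : tau (h0 * (n3 T u b x)) = h0 * τ1) (t3 : tau (h0 * (n3 T u b x) + (h0 + h0 * b)) = h0 * τ3) :
    NGV κ (h0 * x) ((n654 T u b x) + b * (n656 T u b x)) (h0 * (n3 T u b x)) (h0 + h0 * b)
      ((n730 T u b x) * τ1, -(n748 T u b x), (n739 T u b x) * τ3) := by
  have eNT : n870 T u b x = u ^ 2 * ((n859 T u b x) * (1 / 2 * (n662 T u b x))) + b * (n798 T u b x) := by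
    simp only [n870, n868, n298]
    all_goals ring
  have eMT : n874 T u b x = u ^ 2 * ((n861 T u b x) * ((1 - (n3 T u b x)) * (1 / 2 * (n662 T u b x)))) + b * (n817 T u b x) := by
    simp only [n874, n872, n781, n298, n169]
    all_goals ring
  rw [eNT] at tN
  rw [eMT] at tM
  have hr : 0 ≤ (1 / 2 * (n662 T u b x)) := by
    have pcx : 0 < (n8 T u b x) := cn_pos h.x0 h.x1
    have hcx : (n8 T u b x) ^ 2 = 1 - 3 / 4 * x ^ 2 := cn_sq h.x0 h.x1
    have hc1 : (n8 T u b x) ≤ 1 := by nlinarith [sq_nonneg x]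
    have hmu : 0 ≤ (n599 T u b x) := by
      simp only [n599]
      positivity
    have hx := h.x0
    have h3 : 0 ≤ (n599 T u b x) * (3 / 4 * x + 3 / 2 * (1 - (n8 T u b x))) := mul_nonneg hmu (by linarith)
    have h4 : (1 / 2 * (n662 T u b x)) = 1 / 2 * (1 + (n599 T u b x) * (3 / 4 * x + 3 / 2 * (1 - (n8 T u b x)))) := by
      simp only [n662, n660]
      all_goals ring
    rw [h4]
    linarith
  refine chA_nonneg (κ := κ) (x := x) (e := n15 T u b x) (y := n3 T u b x) (β := b) (K1 := n730 T u b x) (K10 := n728 T u b x) (K11 := n729 T u b x)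
    (K30 := n737 T u b x) (K31 := n738 T u b x) (K3 := n739 T u b x) (ρ0 := 1 / 2 * (n662 T u b x)) (ρ1 := n747 T u b x) (ρ := n748 T u b x) (E0 := n654 T u b x) (E1 := n656 T u b x) (P := n752 T u b x)
    (R := n766 T u b x) (Q := n779 T u b x) (P0 := n755 T u b x) (P1 := n760 T u b x) (R1 := n764 T u b x) (Q1 := n773 T u b x) (A1 := n859 T u b x) (A2 := n861 T u b x)
    (N1 := n798 T u b x) (M1 := n817 T u b x) (u := u) (wd := n866 T u b x) (τ1 := τ1) (τ3 := τ3) h.x0 h.x1 hκ hb (by linarith [h.b1]) h.p1 h.y0 h.y1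
    (J85 T (u := u) (b := b) (x := x) h) (J89 T (u := u) (b := b) (x := x))
    (J65 T (u := u) (b := b) (x := x)) ?_ ?_ ?_ ?_ ?_ ?_ ?_ hP hQ ?_ ?_ (val1A T h) (nn1A1 T h hd) (nn1A2 T h hd) hr ?_
    tN tM t1 t3
  · simp only [n752, n751, n749, n172, n169]
    all_goals ring
  · simp only [n764, n762, n761, n751, n172, n169]
    all_goals ring
  · simp only [n766]
    all_goals ring
  · simp only [n779, n774]
    all_goals ring
  · simp only [n755, n754, n169]
    all_goals ring
  · simp only [n760, n759, n757, n169]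
    all_goals ring
  · simp only [n773, n772]
    all_goals ring
  · simp only [n798, n784, n782, n781, n780, n770, n767, n766, n205, n169]
    unfold mol
    ring
  · simp only [n817, n803, n801, n800, n799, n781, n780, n775, n774, n770, n766, n224, n205, n169]
    unfold mol
    ring
  · simp only [n866, n862]
    all_goals ring

theorem ch1Am (T : MolP) {u b x κ τ1 τ3 : ℝ} (h : DomA u b x) (hb : b < 0)
    (hκ : κ * h0 * (x * (1 - x)) = 2 * (n15 T u b x)) (hd : |T.dy| ≤ 1 / 2) (hP : 0 < n752 T u b x) (hQ : 0 < n893 T u b x)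
    (tN : 0 < -(n933 T u b x) ∨ 0 < -(n913 T u b x) ∨ 0 < n937 T u b x) (tM : 0 < n933 T u b x ∨ 0 < -(n929 T u b x) ∨ 0 < n939 T u b x)
    (t1 : tau (h0 * (n3 T u b x)) = h0 * τ1) (t3 : tau (h0 * (n3 T u b x) + (h0 + h0 * b)) = h0 * τ3) :
    NGV κ (h0 * x) ((n654 T u b x) + b * (n877 T u b x)) (h0 * (n3 T u b x)) (h0 + h0 * b)
      ((n730 T u b x) * τ1, -(n748 T u b x), (n739 T u b x) * τ3) := by
  have eNT : n937 T u b x = u ^ 2 * ((n859 T u b x) * (1 / 2 * (n662 T u b x))) + b * (n913 T u b x) := by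
    simp only [n937, n868, n298]
    all_goals ring
  have eMT : n939 T u b x = u ^ 2 * ((n861 T u b x) * ((1 - (n3 T u b x)) * (1 / 2 * (n662 T u b x)))) + b * (n929 T u b x) := by
    simp only [n939, n872, n781, n298, n169]
    all_goals ring
  rw [eNT] at tN
  rw [eMT] at tM
  have hr : 0 ≤ (1 / 2 * (n662 T u b x)) := by
    have pcx : 0 < (n8 T u b x) := cn_pos h.x0 h.x1
    have hcx : (n8 T u b x) ^ 2 = 1 - 3 / 4 * x ^ 2 := cn_sq h.x0 h.x1
    have hc1 : (n8 T u b x) ≤ 1 := by nlinarith [sq_nonneg x]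
    have hmu : 0 ≤ (n599 T u b x) := by
      simp only [n599]
      positivity
    have hx := h.x0
    have h3 : 0 ≤ (n599 T u b x) * (3 / 4 * x + 3 / 2 * (1 - (n8 T u b x))) := mul_nonneg hmu (by linarith)
    have h4 : (1 / 2 * (n662 T u b x)) = 1 / 2 * (1 + (n599 T u b x) * (3 / 4 * x + 3 / 2 * (1 - (n8 T u b x)))) := by
      simp only [n662, n660]
      all_goals ring
    rw [h4]
    linarith
  refine chA_neg (κ := κ) (x := x) (e := n15 T u b x) (y := n3 T u b x) (β := b) (K1 := n730 T u b x) (K10 := n728 T u b x) (K11 := n729 T u b x)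
    (K30 := n737 T u b x) (K31 := n738 T u b x) (K3 := n739 T u b x) (ρ0 := 1 / 2 * (n662 T u b x)) (ρ1 := n747 T u b x) (ρ := n748 T u b x) (E0 := n654 T u b x) (E1 := n877 T u b x) (P := n752 T u b x)
    (R := n883 T u b x) (Q := n893 T u b x) (P0 := n755 T u b x) (P1 := n760 T u b x) (R1 := n881 T u b x) (Q1 := n891 T u b x) (A1 := n859 T u b x) (A2 := n861 T u b x)
    (N1 := n913 T u b x) (M1 := n929 T u b x) (u := u) (wd := n933 T u b x) (τ1 := τ1) (τ3 := τ3) h.x0 h.x1 hκ hb (by linarith [h.b0]) h.p0 h.y1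
    (J85 T (u := u) (b := b) (x := x) h) (J89 T (u := u) (b := b) (x := x))
    (J65 T (u := u) (b := b) (x := x)) ?_ ?_ ?_ ?_ ?_ ?_ ?_ hP hQ ?_ ?_ (val1A T h) (nn1A1 T h hd) (nn1A2 T h hd) hr ?_
    tN tM t1 t3
  · simp only [n752, n751, n749, n172, n169]
    all_goals ring
  · simp only [n881, n879, n878, n749, n169, n30]
    all_goals ring
  · simp only [n883]
    all_goals ring
  · simp only [n893, n30]
    all_goals ring
  · simp only [n755, n754, n169]
    all_goals ring
  · simp only [n760, n759, n757, n169]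
    all_goals ring
  · simp only [n891, n772]
    all_goals ring
  · simp only [n913, n899, n887, n884, n883, n782, n781, n780, n772, n316, n315, n205, n169]
    unfold mol
    ring
  · simp only [n929, n915, n894, n887, n883, n801, n800, n799, n781, n780, n224, n205, n169]
    unfold mol
    ring
  · simp only [n933, n862, n30]
    all_goals ring

theorem ch1Bp (T : MolP) {u b x κ τ1 τ3 : ℝ} (h : DomB u b x) (hb : 0 ≤ b)
    (hκ : κ * h0 * (x * (1 - x)) = 2 * (n15 T u b x)) (hd : |T.dy| ≤ 1 / 2) (hP : 0 < n1047 T u b x) (hQ : 0 < n1070 T u b x)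
    (tN : 0 < -(n1115 T u b x) ∨ 0 < n1092 T u b x ∨ 0 < n1117 T u b x) (tM : 0 < n1115 T u b x ∨ 0 < n1110 T u b x ∨ 0 < n1119 T u b x)
    (t1 : tau (h0 * (n3 T u b x)) = h0 * τ1) (t3 : tau (h0 + h0 * b - h0 * (n3 T u b x)) = h0 * τ3) :
    NGV κ (h0 * x) ((n654 T u b x) + b * (n990 T u b x)) (h0 * (n3 T u b x)) (h0 + h0 * b - h0 * (n3 T u b x))
      ((n730 T u b x) * τ1, (n1044 T u b x) * τ3, -(n748 T u b x)) := by
  have eNT : n1117 T u b x = u ^ 2 * ((n859 T u b x) * (1 / 2 * (n662 T u b x))) + b * (n1092 T u b x) := by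
    simp only [n1117, n868, n298]
    all_goals ring
  have eMT : n1119 T u b x = u ^ 2 * ((n861 T u b x) * ((1 - (n3 T u b x)) * (1 / 2 * (n662 T u b x)))) + b * (n1110 T u b x) := by
    simp only [n1119, n872, n781, n298, n169]
    all_goals ring
  rw [eNT] at tN
  rw [eMT] at tM
  have hr : 0 ≤ (1 / 2 * (n662 T u b x)) := by
    have pcx : 0 < (n8 T u b x) := cn_pos h.x0 h.x1
    have hcx : (n8 T u b x) ^ 2 = 1 - 3 / 4 * x ^ 2 := cn_sq h.x0 h.x1
    have hc1 : (n8 T u b x) ≤ 1 := by nlinarith [sq_nonneg x]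
    have hmu : 0 ≤ (n599 T u b x) := by
      simp only [n599]
      positivity
    have hx := h.x0
    have h3 : 0 ≤ (n599 T u b x) * (3 / 4 * x + 3 / 2 * (1 - (n8 T u b x))) := mul_nonneg hmu (by linarith)
    have h4 : (1 / 2 * (n662 T u b x)) = 1 / 2 * (1 + (n599 T u b x) * (3 / 4 * x + 3 / 2 * (1 - (n8 T u b x)))) := by
      simp only [n662, n660]
      all_goals ring
    rw [h4]
    linarith
  refine chB_nonneg (κ := κ) (x := x) (e := n15 T u b x) (y := n3 T u b x) (β := b) (K1 := n730 T u b x) (K10 := n728 T u b x) (K11 := n729 T u b x)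
    (K30 := n1042 T u b x) (K31 := n1043 T u b x) (K3 := n1044 T u b x) (ρ0 := 1 / 2 * (n662 T u b x)) (ρ1 := n747 T u b x) (ρ := n748 T u b x) (E0 := n654 T u b x) (E1 := n990 T u b x) (P := n1047 T u b x)
    (R := n1059 T u b x) (Q := n1070 T u b x) (P0 := n1050 T u b x) (P1 := n1054 T u b x) (R1 := n1057 T u b x) (Q1 := n1068 T u b x) (A1 := n859 T u b x) (A2 := n861 T u b x)
    (N1 := n1092 T u b x) (M1 := n1110 T u b x) (u := u) (wd := n1115 T u b x) (τ1 := τ1) (τ3 := τ3) h.x0 h.x1 hκ hb (by linarith [h.b1]) h.p0 h.y1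
    (J129 T (u := u) (b := b) (x := x) h) (J89 T (u := u) (b := b) (x := x))
    (J65 T (u := u) (b := b) (x := x)) ?_ ?_ ?_ ?_ ?_ ?_ ?_ hP hQ ?_ ?_ (val1B T h) (nn1B1 T h hd) (nn1B2 T h hd) hr ?_
    tN tM t1 t3
  · simp only [n1047, n1046, n749, n460, n169]
    all_goals ring
  · simp only [n1057, n1055, n878, n749, n372, n169]
    all_goals ring
  · simp only [n1059]
    all_goals ring
  · simp only [n1070, n372]
    all_goals ring
  · simp only [n1050, n1049, n169]
    all_goals ring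
  · simp only [n1054, n1051, n759, n169]
    all_goals ring
  · simp only [n1068, n1061]
    all_goals ring
  · simp only [n1092, n1078, n1076, n1075, n1064, n1061, n1060, n1059, n781, n477, n315, n205, n169]
    unfold mol
    ring
  · simp only [n1110, n1096, n1094, n1093, n1075, n1071, n1064, n1059, n800, n781, n224, n205, n169]
    unfold mol
    ring
  · simp only [n1115, n1111, n372]
    all_goals ring

theorem ch1Bm (T : MolP) {u b x κ τ1 τ3 : ℝ} (h : DomB u b x) (hb : b < 0)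
    (hκ : κ * h0 * (x * (1 - x)) = 2 * (n15 T u b x)) (hd : |T.dy| ≤ 1 / 2) (hP : 0 < n1047 T u b x) (hQ : 0 < n1134 T u b x)
    (tN : 0 < -(n1176 T u b x) ∨ 0 < -(n1156 T u b x) ∨ 0 < n1180 T u b x) (tM : 0 < n1176 T u b x ∨ 0 < -(n1172 T u b x) ∨ 0 < n1182 T u b x)
    (t1 : tau (h0 * (n3 T u b x)) = h0 * τ1) (t3 : tau (h0 + h0 * b - h0 * (n3 T u b x)) = h0 * τ3) :
    NGV κ (h0 * x) ((n654 T u b x) + b * (n1122 T u b x)) (h0 * (n3 T u b x)) (h0 + h0 * b - h0 * (n3 T u b x))
      ((n730 T u b x) * τ1, (n1044 T u b x) * τ3, -(n748 T u b x)) := by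
  have eNT : n1180 T u b x = u ^ 2 * ((n859 T u b x) * (1 / 2 * (n662 T u b x))) + b * (n1156 T u b x) := by
    simp only [n1180, n868, n298]
    all_goals ring
  have eMT : n1182 T u b x = u ^ 2 * ((n861 T u b x) * ((1 - (n3 T u b x)) * (1 / 2 * (n662 T u b x)))) + b * (n1172 T u b x) := by
    simp only [n1182, n872, n781, n298, n169]
    all_goals ring
  rw [eNT] at tN
  rw [eMT] at tM
  have hyb : n3 T u b x < 1 + b := by
    have := h.p1
    simp only [n3]
    linarith
  have hr : 0 ≤ (1 / 2 * (n662 T u b x)) := by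
    have pcx : 0 < (n8 T u b x) := cn_pos h.x0 h.x1
    have hcx : (n8 T u b x) ^ 2 = 1 - 3 / 4 * x ^ 2 := cn_sq h.x0 h.x1
    have hc1 : (n8 T u b x) ≤ 1 := by nlinarith [sq_nonneg x]
    have hmu : 0 ≤ (n599 T u b x) := by
      simp only [n599]
      positivity
    have hx := h.x0
    have h3 : 0 ≤ (n599 T u b x) * (3 / 4 * x + 3 / 2 * (1 - (n8 T u b x))) := mul_nonneg hmu (by linarith)
    have h4 : (1 / 2 * (n662 T u b x)) = 1 / 2 * (1 + (n599 T u b x) * (3 / 4 * x + 3 / 2 * (1 - (n8 T u b x)))) := by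
      simp only [n662, n660]
      all_goals ring
    rw [h4]
    linarith
  refine chB_neg (κ := κ) (x := x) (e := n15 T u b x) (y := n3 T u b x) (β := b) (K1 := n730 T u b x) (K10 := n728 T u b x) (K11 := n729 T u b x)
    (K30 := n1042 T u b x) (K31 := n1043 T u b x) (K3 := n1044 T u b x) (ρ0 := 1 / 2 * (n662 T u b x)) (ρ1 := n747 T u b x) (ρ := n748 T u b x) (E0 := n654 T u b x) (E1 := n1122 T u b x) (P := n1047 T u b x)
    (R := n1126 T u b x) (Q := n1134 T u b x) (P0 := n1050 T u b x) (P1 := n1054 T u b x) (R1 := n1124 T u b x) (Q1 := n1132 T u b x) (A1 := n859 T u b x) (A2 := n861 T u b x)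
    (N1 := n1156 T u b x) (M1 := n1172 T u b x) (u := u) (wd := n1176 T u b x) (τ1 := τ1) (τ3 := τ3) h.x0 h.x1 hκ hb (by linarith [h.b0]) hyb h.y0 h.y1
    (J129 T (u := u) (b := b) (x := x) h) (J89 T (u := u) (b := b) (x := x))
    (J65 T (u := u) (b := b) (x := x)) ?_ ?_ ?_ ?_ ?_ ?_ ?_ hP hQ ?_ ?_ (val1B T h) (nn1B1 T h hd) (nn1B2 T h hd) hr ?_
    tN tM t1 t3
  · simp only [n1047, n1046, n749, n460, n169]
    all_goals ring
  · simp only [n1124, n1046, n762, n761, n460, n169]
    all_goals ring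
  · simp only [n1126]
    all_goals ring
  · simp only [n1134]
    all_goals ring
  · simp only [n1050, n1049, n169]
    all_goals ring
  · simp only [n1054, n1051, n759, n169]
    all_goals ring
  · simp only [n1132, n1061]
    all_goals ring
  · simp only [n1156, n1142, n1130, n1127, n1126, n1076, n1075, n781, n205, n169]
    unfold mol
    ring
  · simp only [n1172, n1158, n1136, n1130, n1126, n1094, n1093, n1075, n800, n781, n224, n205, n169]
    unfold mol
    ring
  · simp only [n1176, n1111]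
    all_goals ring

theorem ch2Ap (T : MolP) {u b x κ τ1 τ3 : ℝ} (h : DomA u b x) (hb : 0 ≤ b)
    (hκ : κ * h0 * (x * (1 - x)) = 2 * (n15 T u b x)) (hA1 : 0 ≤ n1281 T u b x) (hA2 : 0 ≤ n1283 T u b x) (hr : 0 ≤ n1215 T u b x)
    (hP : 0 < n1219 T u b x) (hQ : 0 < n1241 T u b x)
    (tN : 0 < -(n1288 T u b x) ∨ 0 < n1260 T u b x ∨ 0 < n1292 T u b x) (tM : 0 < n1288 T u b x ∨ 0 < n1279 T u b x ∨ 0 < n1296 T u b x)
    (t1 : tau (h0 * (n3 T u b x)) = h0 * τ1) (t3 : tau (h0 * (n3 T u b x) + (h0 + h0 * b)) = h0 * τ3) :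
    NGV κ (h0 * x) ((n1209 T u b x) + b * (n1212 T u b x)) (h0 * (n3 T u b x)) (h0 + h0 * b)
      ((n730 T u b x) * τ1, -(n1217 T u b x), (n739 T u b x) * τ3) := by
  have eNT : n1292 T u b x = u ^ 2 * ((n1281 T u b x) * (n1215 T u b x)) + b * (n1260 T u b x) := by
    simp only [n1292, n1290, n298]
    all_goals ring
  have eMT : n1296 T u b x = u ^ 2 * ((n1283 T u b x) * ((1 - (n3 T u b x)) * (n1215 T u b x))) + b * (n1279 T u b x) := by
    simp only [n1296, n1294, n1243, n298, n169]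
    all_goals ring
  rw [eNT] at tN
  rw [eMT] at tM
  refine chA_nonneg (κ := κ) (x := x) (e := n15 T u b x) (y := n3 T u b x) (β := b) (K1 := n730 T u b x) (K10 := n728 T u b x) (K11 := n729 T u b x)
    (K30 := n737 T u b x) (K31 := n738 T u b x) (K3 := n739 T u b x) (ρ0 := n1215 T u b x) (ρ1 := n1216 T u b x) (ρ := n1217 T u b x) (E0 := n1209 T u b x) (E1 := n1212 T u b x) (P := n1219 T u b x)
    (R := n1228 T u b x) (Q := n1241 T u b x) (P0 := n1220 T u b x) (P1 := n1223 T u b x) (R1 := n1226 T u b x) (Q1 := n1235 T u b x) (A1 := n1281 T u b x) (A2 := n1283 T u b x)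
    (N1 := n1260 T u b x) (M1 := n1279 T u b x) (u := u) (wd := n1288 T u b x) (τ1 := τ1) (τ3 := τ3) h.x0 h.x1 hκ hb (by linarith [h.b1]) h.p1 h.y0 h.y1
    (J85 T (u := u) (b := b) (x := x) h) (J89 T (u := u) (b := b) (x := x))
    (J148 T (u := u) (b := b) (x := x)) ?_ ?_ ?_ ?_ ?_ ?_ ?_ hP hQ ?_ ?_ (val2A T h) hA1 hA2 hr ?_
    tN tM t1 t3
  · simp only [n1219, n751, n749, n172, n169]
    all_goals ring
  · simp only [n1226, n761, n751, n172, n169]
    all_goals ring
  · simp only [n1228]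
    all_goals ring
  · simp only [n1241, n1236]
    all_goals ring
  · simp only [n1220, n754, n169]
    all_goals ring
  · simp only [n1223, n759, n757, n169]
    all_goals ring
  · simp only [n1235]
    all_goals ring
  · simp only [n1260, n1246, n1244, n1243, n1242, n1232, n1229, n1228, n205, n169]
    unfold mol
    ring
  · simp only [n1279, n1265, n1263, n1262, n1261, n1243, n1242, n1237, n1236, n1232, n1228, n224, n205, n169]
    unfold mol
    ring
  · simp only [n1288]
    all_goals ring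

theorem ch2Am (T : MolP) {u b x κ τ1 τ3 : ℝ} (h : DomA u b x) (hb : b < 0)
    (hκ : κ * h0 * (x * (1 - x)) = 2 * (n15 T u b x)) (hA1 : 0 ≤ n1281 T u b x) (hA2 : 0 ≤ n1283 T u b x) (hr : 0 ≤ n1215 T u b x)
    (hP : 0 < n1307 T u b x) (hQ : 0 < n1326 T u b x)
    (tN : 0 < -(n1367 T u b x) ∨ 0 < -(n1346 T u b x) ∨ 0 < n1371 T u b x) (tM : 0 < n1367 T u b x ∨ 0 < -(n1362 T u b x) ∨ 0 < n1373 T u b x)
    (t1 : tau (h0 * (n3 T u b x)) = h0 * τ1) (t3 : tau (h0 * (n3 T u b x) + (h0 + h0 * b)) = h0 * τ3) :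
    NGV κ (h0 * x) ((n1209 T u b x) + b * (n1301 T u b x)) (h0 * (n3 T u b x)) (h0 + h0 * b)
      ((n730 T u b x) * τ1, -(n1305 T u b x), (n739 T u b x) * τ3) := by
  have eNT : n1371 T u b x = u ^ 2 * ((n1281 T u b x) * (n1215 T u b x)) + b * (n1346 T u b x) := by
    simp only [n1371, n1290, n298]
    all_goals ring
  have eMT : n1373 T u b x = u ^ 2 * ((n1283 T u b x) * ((1 - (n3 T u b x)) * (n1215 T u b x))) + b * (n1362 T u b x) := by
    simp only [n1373, n1294, n1243, n298, n169]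
    all_goals ring
  rw [eNT] at tN
  rw [eMT] at tM
  refine chA_neg (κ := κ) (x := x) (e := n15 T u b x) (y := n3 T u b x) (β := b) (K1 := n730 T u b x) (K10 := n728 T u b x) (K11 := n729 T u b x)
    (K30 := n737 T u b x) (K31 := n738 T u b x) (K3 := n739 T u b x) (ρ0 := n1215 T u b x) (ρ1 := n1304 T u b x) (ρ := n1305 T u b x) (E0 := n1209 T u b x) (E1 := n1301 T u b x) (P := n1307 T u b x)
    (R := n1315 T u b x) (Q := n1326 T u b x) (P0 := n1220 T u b x) (P1 := n1310 T u b x) (R1 := n1313 T u b x) (Q1 := n1324 T u b x) (A1 := n1281 T u b x) (A2 := n1283 T u b x)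
    (N1 := n1346 T u b x) (M1 := n1362 T u b x) (u := u) (wd := n1367 T u b x) (τ1 := τ1) (τ3 := τ3) h.x0 h.x1 hκ hb (by linarith [h.b0]) h.p0 h.y1
    (J85 T (u := u) (b := b) (x := x) h) (J89 T (u := u) (b := b) (x := x))
    (J150 T (u := u) (b := b) (x := x)) ?_ ?_ ?_ ?_ ?_ ?_ ?_ hP hQ ?_ ?_ (val2A T h) hA1 hA2 hr ?_
    tN tM t1 t3
  · simp only [n1307, n751, n749, n172, n169]
    all_goals ring
  · simp only [n1313, n879, n749, n169, n30]
    all_goals ring
  · simp only [n1315]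
    all_goals ring
  · simp only [n1326, n30]
    all_goals ring
  · simp only [n1220, n754, n169]
    all_goals ring
  · simp only [n1310, n759, n757, n169]
    all_goals ring
  · simp only [n1324, n1317]
    all_goals ring
  · simp only [n1346, n1332, n1320, n1317, n1316, n1315, n1244, n1243, n1242, n316, n315, n205, n169]
    unfold mol
    ring
  · simp only [n1362, n1348, n1327, n1320, n1315, n1263, n1262, n1261, n1243, n1242, n224, n205, n169]
    unfold mol
    ring
  · simp only [n1367, n30]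
    all_goals ring

theorem ch2Bp (T : MolP) {u b x κ τ1 τ3 : ℝ} (h : DomB u b x) (hb : 0 ≤ b)
    (hκ : κ * h0 * (x * (1 - x)) = 2 * (n15 T u b x)) (hA1 : 0 ≤ n1281 T u b x) (hA2 : 0 ≤ n1283 T u b x) (hr : 0 ≤ n1215 T u b x)
    (hP : 0 < n1394 T u b x) (hQ : 0 < n1414 T u b x)
    (tN : 0 < -(n1459 T u b x) ∨ 0 < n1436 T u b x ∨ 0 < n1461 T u b x) (tM : 0 < n1459 T u b x ∨ 0 < n1454 T u b x ∨ 0 < n1463 T u b x)
    (t1 : tau (h0 * (n3 T u b x)) = h0 * τ1) (t3 : tau (h0 + h0 * b - h0 * (n3 T u b x)) = h0 * τ3) :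
    NGV κ (h0 * x) ((n1209 T u b x) + b * (n1388 T u b x)) (h0 * (n3 T u b x)) (h0 + h0 * b - h0 * (n3 T u b x))
      ((n730 T u b x) * τ1, (n1044 T u b x) * τ3, -(n1392 T u b x)) := by
  have eNT : n1461 T u b x = u ^ 2 * ((n1281 T u b x) * (n1215 T u b x)) + b * (n1436 T u b x) := by
    simp only [n1461, n1290, n298]
    all_goals ring
  have eMT : n1463 T u b x = u ^ 2 * ((n1283 T u b x) * ((1 - (n3 T u b x)) * (n1215 T u b x))) + b * (n1454 T u b x) := by
    simp only [n1463, n1294, n1243, n298, n169]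
    all_goals ring
  rw [eNT] at tN
  rw [eMT] at tM
  refine chB_nonneg (κ := κ) (x := x) (e := n15 T u b x) (y := n3 T u b x) (β := b) (K1 := n730 T u b x) (K10 := n728 T u b x) (K11 := n729 T u b x)
    (K30 := n1042 T u b x) (K31 := n1043 T u b x) (K3 := n1044 T u b x) (ρ0 := n1215 T u b x) (ρ1 := n1391 T u b x) (ρ := n1392 T u b x) (E0 := n1209 T u b x) (E1 := n1388 T u b x) (P := n1394 T u b x)
    (R := n1403 T u b x) (Q := n1414 T u b x) (P0 := n1395 T u b x) (P1 := n1398 T u b x) (R1 := n1401 T u b x) (Q1 := n1412 T u b x) (A1 := n1281 T u b x) (A2 := n1283 T u b x)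
    (N1 := n1436 T u b x) (M1 := n1454 T u b x) (u := u) (wd := n1459 T u b x) (τ1 := τ1) (τ3 := τ3) h.x0 h.x1 hκ hb (by linarith [h.b1]) h.p0 h.y1
    (J129 T (u := u) (b := b) (x := x) h) (J89 T (u := u) (b := b) (x := x))
    (J152 T (u := u) (b := b) (x := x)) ?_ ?_ ?_ ?_ ?_ ?_ ?_ hP hQ ?_ ?_ (val2B T h) hA1 hA2 hr ?_
    tN tM t1 t3
  · simp only [n1394, n1046, n749, n460, n169]
    all_goals ring
  · simp only [n1401, n1055, n749, n372, n169]
    all_goals ring
  · simp only [n1403]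
    all_goals ring
  · simp only [n1414, n372]
    all_goals ring
  · simp only [n1395, n1049, n169]
    all_goals ring
  · simp only [n1398, n1051, n759, n169]
    all_goals ring
  · simp only [n1412, n1405]
    all_goals ring
  · simp only [n1436, n1422, n1420, n1419, n1408, n1405, n1404, n1403, n1243, n477, n315, n205, n169]
    unfold mol
    ring
  · simp only [n1454, n1440, n1438, n1437, n1419, n1415, n1408, n1403, n1262, n1243, n224, n205, n169]
    unfold mol
    ring
  · simp only [n1459, n372]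
    all_goals ring

theorem ch2Bm (T : MolP) {u b x κ τ1 τ3 : ℝ} (h : DomB u b x) (hb : b < 0)
    (hκ : κ * h0 * (x * (1 - x)) = 2 * (n15 T u b x)) (hA1 : 0 ≤ n1281 T u b x) (hA2 : 0 ≤ n1283 T u b x) (hr : 0 ≤ n1215 T u b x)
    (hP : 0 < n1474 T u b x) (hQ : 0 < n1491 T u b x)
    (tN : 0 < -(n1534 T u b x) ∨ 0 < -(n1513 T u b x) ∨ 0 < n1538 T u b x) (tM : 0 < n1534 T u b x ∨ 0 < -(n1529 T u b x) ∨ 0 < n1540 T u b x)
    (t1 : tau (h0 * (n3 T u b x)) = h0 * τ1) (t3 : tau (h0 + h0 * b - h0 * (n3 T u b x)) = h0 * τ3) :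
    NGV κ (h0 * x) ((n1209 T u b x) + b * (n1468 T u b x)) (h0 * (n3 T u b x)) (h0 + h0 * b - h0 * (n3 T u b x))
      ((n730 T u b x) * τ1, (n1044 T u b x) * τ3, -(n1472 T u b x)) := by
  have eNT : n1538 T u b x = u ^ 2 * ((n1281 T u b x) * (n1215 T u b x)) + b * (n1513 T u b x) := by
    simp only [n1538, n1290, n298]
    all_goals ring
  have eMT : n1540 T u b x = u ^ 2 * ((n1283 T u b x) * ((1 - (n3 T u b x)) * (n1215 T u b x))) + b * (n1529 T u b x) := by
    simp only [n1540, n1294, n1243, n298, n169]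
    all_goals ring
  rw [eNT] at tN
  rw [eMT] at tM
  have hyb : n3 T u b x < 1 + b := by
    have := h.p1
    simp only [n3]
    linarith
  refine chB_neg (κ := κ) (x := x) (e := n15 T u b x) (y := n3 T u b x) (β := b) (K1 := n730 T u b x) (K10 := n728 T u b x) (K11 := n729 T u b x)
    (K30 := n1042 T u b x) (K31 := n1043 T u b x) (K3 := n1044 T u b x) (ρ0 := n1215 T u b x) (ρ1 := n1471 T u b x) (ρ := n1472 T u b x) (E0 := n1209 T u b x) (E1 := n1468 T u b x) (P := n1474 T u b x)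
    (R := n1482 T u b x) (Q := n1491 T u b x) (P0 := n1395 T u b x) (P1 := n1477 T u b x) (R1 := n1480 T u b x) (Q1 := n1489 T u b x) (A1 := n1281 T u b x) (A2 := n1283 T u b x)
    (N1 := n1513 T u b x) (M1 := n1529 T u b x) (u := u) (wd := n1534 T u b x) (τ1 := τ1) (τ3 := τ3) h.x0 h.x1 hκ hb (by linarith [h.b0]) hyb h.y0 h.y1
    (J129 T (u := u) (b := b) (x := x) h) (J89 T (u := u) (b := b) (x := x))
    (J154 T (u := u) (b := b) (x := x)) ?_ ?_ ?_ ?_ ?_ ?_ ?_ hP hQ ?_ ?_ (val2B T h) hA1 hA2 hr ?_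
    tN tM t1 t3
  · simp only [n1474, n1046, n749, n460, n169]
    all_goals ring
  · simp only [n1480, n1046, n761, n460, n169]
    all_goals ring
  · simp only [n1482]
    all_goals ring
  · simp only [n1491]
    all_goals ring
  · simp only [n1395, n1049, n169]
    all_goals ring
  · simp only [n1477, n1051, n759, n169]
    all_goals ring
  · simp only [n1489]
    all_goals ring
  · simp only [n1513, n1499, n1486, n1483, n1482, n1420, n1419, n1243, n205, n169]
    unfold mol
    ring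
  · simp only [n1529, n1515, n1493, n1486, n1482, n1438, n1437, n1419, n1262, n1243, n224, n205, n169]
    unfold mol
    ring
  · simp only [n1534]
    all_goals ring

end Pool.Agent.Strip051.LC.MolN
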