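import Pool.Agent.Strip051.LC.Exact.MolN1

/-! # The tight triangles: the two quantities in the arrangement of the boxes (generated) -/

set_option linter.unusedVariables false

namespace Pool.Agent.Strip051.LC.MolN

open Pool.Agent.Strip051.LC

theorem imN0Ap (T : MolP) {u b x : ℝ} :
    (n205 T u b x) * ((n168 T u b x) * (n188 T u b x + n293 T u b x) + (n160 T u b x) * (n189 T u b x)) - (n15 T u b x) * ((n182 T u b x) * ((u) * (n188 T u b x) + (b) * (n196 T u b x)) + (n197 T u b x) * (n188 T u b x + n293 T u b x) + (n177 T u b x) * ((u) * (n186 T u b x) + n196 T u b x) + (1 / 2 * (n169 T u b x)) * (n189 T u b x)) =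
      n221 T u b x := by
  simp only [n293, n221, n207, n205, n204, n202, n197, n196, n192, n189, n188, n169, n3]
  all_goals ring

theorem imM0Ap (T : MolP) {u b x : ℝ} :
    (x) * ((n168 T u b x) * ((n169 T u b x) * (n188 T u b x) - (b) * (n196 T u b x)) + (n160 T u b x) * (n197 T u b x)) - (n15 T u b x) * ((n196 T u b x + (n3 T u b x) * (n186 T u b x)) * ((n169 T u b x) * (n188 T u b x) - (b) * (n196 T u b x)) - (n195 T u b x) * ((u) * (n188 T u b x) + (b) * (n196 T u b x)) - (n222 T u b x) * ((u) * (n186 T u b x) + n196 T u b x) + (1 / 2 * (n3 T u b x)) * (n197 T u b x)) =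
      n240 T u b x := by
  simp only [n240, n226, n224, n223, n222, n205, n202, n197, n196, n192, n188, n169, n3]
  all_goals ring

theorem imW0Ap (T : MolP) {u b x : ℝ} :
    (u) * (n188 T u b x) + (b) * (n196 T u b x) =
      n297 T u b x := by
  simp only [n297, n293, n196, n188, n3]
  all_goals ring

theorem imN0Am (T : MolP) {u b x : ℝ} :
    (n205 T u b x) * ((n307 T u b x) * (n313 T u b x - n293 T u b x) + (n160 T u b x) * (n314 T u b x)) - (n15 T u b x) * ((n182 T u b x) * ((u) * (n313 T u b x) - (b) * (n196 T u b x)) + ((1 + n30 T u b x) * (n174 T u b x) + n319 T u b x - n313 T u b x) * (n313 T u b x - n293 T u b x) + (n177 T u b x) * ((u) * (n311 T u b x) - n196 T u b x) + (1 / 2 * (n169 T u b x)) * (n314 T u b x)) =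
      n345 T u b x := by
  simp only [n345, n331, n319, n316, n315, n314, n313, n293, n205, n204, n202, n196, n194, n169, n30, n3]
  all_goals ring

theorem imM0Am (T : MolP) {u b x : ℝ} :
    (x) * ((n307 T u b x) * ((n169 T u b x) * (n313 T u b x) - (b) * (n325 T u b x)) + (n160 T u b x) * (n326 T u b x)) - (n15 T u b x) * ((n325 T u b x + (n3 T u b x) * (n311 T u b x)) * ((n169 T u b x) * (n313 T u b x) - (b) * (n325 T u b x)) - (n323 T u b x) * ((u) * (n313 T u b x) + (b) * (n325 T u b x)) - (n222 T u b x) * ((u) * (n311 T u b x) + n325 T u b x) + (1 / 2 * (n3 T u b x)) * (n326 T u b x)) =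
      n361 T u b x := by
  simp only [n361, n347, n326, n325, n319, n313, n224, n223, n222, n205, n202, n169, n30, n3]
  all_goals ring

theorem imW0Am (T : MolP) {u b x : ℝ} :
    (u) * (n313 T u b x) - (b) * (n196 T u b x) + (b) * (n313 T u b x - n293 T u b x) =
      n365 T u b x := by
  simp only [n365, n313, n293, n196, n30, n3]
  all_goals ring

theorem imN0Bp (T : MolP) {u b x : ℝ} :
    (n205 T u b x) * ((n458 T u b x) * (n474 T u b x + n527 T u b x) + (n160 T u b x) * (n475 T u b x)) - (n15 T u b x) * ((n469 T u b x) * ((u) * (n474 T u b x) + (b) * ((n3 T u b x) * (n462 T u b x))) + (n480 T u b x + n474 T u b x - (1 + n372 T u b x) * (n462 T u b x)) * (n474 T u b x + n527 T u b x) + (n465 T u b x) * ((u) * (n472 T u b x) + (n3 T u b x) * (n462 T u b x)) + (1 / 2 * (n169 T u b x)) * (n475 T u b x)) =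
      n508 T u b x := by
  simp only [n527, n508, n494, n492, n491, n480, n477, n476, n475, n474, n372, n315, n205, n169, n3]
  all_goals ring

theorem imM0Bp (T : MolP) {u b x : ℝ} :
    (x) * ((n458 T u b x) * ((n169 T u b x) * (n474 T u b x) + (b) * (n486 T u b x)) + (n160 T u b x) * (n487 T u b x)) - (n15 T u b x) * (((n3 T u b x) * (n472 T u b x) - n486 T u b x) * ((n169 T u b x) * (n474 T u b x) + (b) * (n486 T u b x)) - (n484 T u b x) * ((u) * (n474 T u b x) - (b) * (n486 T u b x)) - (n509 T u b x) * ((u) * (n472 T u b x) - n486 T u b x) + (1 / 2 * (n3 T u b x)) * (n487 T u b x)) =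
      n526 T u b x := by
  simp only [n526, n512, n510, n509, n491, n487, n486, n480, n474, n372, n224, n205, n169, n3]
  all_goals ring

theorem imW0Bp (T : MolP) {u b x : ℝ} :
    (u) * (n474 T u b x) + (b) * ((n3 T u b x) * (n462 T u b x)) - (b) * (n474 T u b x + n527 T u b x) =
      n531 T u b x := by
  simp only [n531, n527, n474, n372, n3]
  all_goals ring

theorem imN0Bm (T : MolP) {u b x : ℝ} :
    (n205 T u b x) * ((n536 T u b x) * (n540 T u b x - n527 T u b x) + (n160 T u b x) * (n541 T u b x)) - (n15 T u b x) * ((n469 T u b x) * ((u) * (n540 T u b x) - (b) * ((n3 T u b x) * (n462 T u b x))) + ((n3 T u b x) * (n462 T u b x) + n544 T u b x) * (n540 T u b x - n527 T u b x) + (n465 T u b x) * ((u) * (n538 T u b x) - (n3 T u b x) * (n462 T u b x)) + (1 / 2 * (n169 T u b x)) * (n541 T u b x)) =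
      n570 T u b x := by
  simp only [n570, n556, n544, n541, n540, n527, n492, n491, n205, n169, n3]
  all_goals ring

theorem imM0Bm (T : MolP) {u b x : ℝ} :
    (x) * ((n536 T u b x) * ((n169 T u b x) * (n540 T u b x) - (b) * (n548 T u b x - n540 T u b x)) + (n160 T u b x) * (n544 T u b x - (n548 T u b x - n540 T u b x))) - (n15 T u b x) * ((n548 T u b x + (n3 T u b x) * (n538 T u b x) - n540 T u b x) * ((n169 T u b x) * (n540 T u b x) - (b) * (n548 T u b x - n540 T u b x)) - (n546 T u b x) * ((u) * (n540 T u b x) + (b) * (n548 T u b x - n540 T u b x)) - (n509 T u b x) * ((u) * (n538 T u b x) + (n548 T u b x - n540 T u b x)) + (1 / 2 * (n3 T u b x)) * (n544 T u b x - (n548 T u b x - n540 T u b x))) =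
      n586 T u b x := by
  simp only [n586, n572, n550, n548, n544, n540, n510, n509, n491, n224, n205, n169, n3]
  all_goals ring

theorem imW0Bm (T : MolP) {u b x : ℝ} :
    (u) * (n540 T u b x) - (b) * ((n3 T u b x) * (n462 T u b x)) =
      n590 T u b x := by
  simp only [n590, n540, n527, n3]
  all_goals ring

theorem imN1Ap (T : MolP) {u b x : ℝ} :
    (n205 T u b x) * ((n656 T u b x) * (n766 T u b x + n862 T u b x) + (n654 T u b x) * (n767 T u b x)) - (n15 T u b x) * ((n760 T u b x) * ((u) * (n766 T u b x) + (b) * (n774 T u b x)) + (n775 T u b x) * (n766 T u b x + n862 T u b x) + (n755 T u b x) * ((u) * (n764 T u b x) + n774 T u b x) + (n781 T u b x) * (n767 T u b x)) =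
      n798 T u b x := by
  simp only [n862, n798, n784, n782, n781, n780, n775, n774, n770, n767, n766, n205, n169, n3]
  all_goals ring

theorem imM1Ap (T : MolP) {u b x : ℝ} :
    (x) * ((n656 T u b x) * ((n169 T u b x) * (n766 T u b x) - (b) * (n774 T u b x)) + (n654 T u b x) * (n775 T u b x)) - (n15 T u b x) * ((n774 T u b x + (n3 T u b x) * (n764 T u b x)) * ((n169 T u b x) * (n766 T u b x) - (b) * (n774 T u b x)) - (n773 T u b x) * ((u) * (n766 T u b x) + (b) * (n774 T u b x)) - (n799 T u b x) * ((u) * (n764 T u b x) + n774 T u b x) + (n800 T u b x) * (n775 T u b x)) =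
      n817 T u b x := by
  simp only [n817, n803, n801, n800, n799, n781, n780, n775, n774, n770, n766, n224, n205, n169, n3]
  all_goals ring

theorem imW1Ap (T : MolP) {u b x : ℝ} :
    (u) * (n766 T u b x) + (b) * (n774 T u b x) =
      n866 T u b x := by
  simp only [n866, n862, n774, n766, n3]
  all_goals ring

theorem imN1Am (T : MolP) {u b x : ℝ} :
    (n205 T u b x) * ((n877 T u b x) * (n883 T u b x - n862 T u b x) + (n654 T u b x) * (n884 T u b x)) - (n15 T u b x) * ((n760 T u b x) * ((u) * (n883 T u b x) - (b) * (n774 T u b x)) + ((1 + n30 T u b x) * (n752 T u b x) + n887 T u b x - n883 T u b x) * (n883 T u b x - n862 T u b x) + (n755 T u b x) * ((u) * (n881 T u b x) - n774 T u b x) + (n781 T u b x) * (n884 T u b x)) =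
      n913 T u b x := by
  simp only [n913, n899, n887, n884, n883, n862, n782, n781, n780, n774, n772, n316, n315, n205, n169, n30, n3]
  all_goals ring

theorem imM1Am (T : MolP) {u b x : ℝ} :
    (x) * ((n877 T u b x) * ((n169 T u b x) * (n883 T u b x) - (b) * (n893 T u b x)) + (n654 T u b x) * (n894 T u b x)) - (n15 T u b x) * ((n893 T u b x + (n3 T u b x) * (n881 T u b x)) * ((n169 T u b x) * (n883 T u b x) - (b) * (n893 T u b x)) - (n891 T u b x) * ((u) * (n883 T u b x) + (b) * (n893 T u b x)) - (n799 T u b x) * ((u) * (n881 T u b x) + n893 T u b x) + (n800 T u b x) * (n894 T u b x)) =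
      n929 T u b x := by
  simp only [n929, n915, n894, n893, n887, n883, n801, n800, n799, n781, n780, n224, n205, n169, n30, n3]
  all_goals ring

theorem imW1Am (T : MolP) {u b x : ℝ} :
    (u) * (n883 T u b x) - (b) * (n774 T u b x) + (b) * (n883 T u b x - n862 T u b x) =
      n933 T u b x := by
  simp only [n933, n883, n862, n774, n30, n3]
  all_goals ring

theorem imN1Bp (T : MolP) {u b x : ℝ} :
    (n205 T u b x) * ((n990 T u b x) * (n1059 T u b x + n1111 T u b x) + (n654 T u b x) * (n1060 T u b x)) - (n15 T u b x) * ((n1054 T u b x) * ((u) * (n1059 T u b x) + (b) * ((n3 T u b x) * (n1047 T u b x))) + (n1064 T u b x + n1059 T u b x - (1 + n372 T u b x) * (n1047 T u b x)) * (n1059 T u b x + n1111 T u b x) + (n1050 T u b x) * ((u) * (n1057 T u b x) + (n3 T u b x) * (n1047 T u b x)) + (n781 T u b x) * (n1060 T u b x)) =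
      n1092 T u b x := by
  simp only [n1111, n1092, n1078, n1076, n1075, n1064, n1061, n1060, n1059, n781, n477, n372, n315, n205, n169, n3]
  all_goals ring

theorem imM1Bp (T : MolP) {u b x : ℝ} :
    (x) * ((n990 T u b x) * ((n169 T u b x) * (n1059 T u b x) + (b) * (n1070 T u b x)) + (n654 T u b x) * (n1071 T u b x)) - (n15 T u b x) * (((n3 T u b x) * (n1057 T u b x) - n1070 T u b x) * ((n169 T u b x) * (n1059 T u b x) + (b) * (n1070 T u b x)) - (n1068 T u b x) * ((u) * (n1059 T u b x) - (b) * (n1070 T u b x)) - (n1093 T u b x) * ((u) * (n1057 T u b x) - n1070 T u b x) + (n800 T u b x) * (n1071 T u b x)) =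
      n1110 T u b x := by
  simp only [n1110, n1096, n1094, n1093, n1075, n1071, n1070, n1064, n1059, n800, n781, n372, n224, n205, n169, n3]
  all_goals ring

theorem imW1Bp (T : MolP) {u b x : ℝ} :
    (u) * (n1059 T u b x) + (b) * ((n3 T u b x) * (n1047 T u b x)) - (b) * (n1059 T u b x + n1111 T u b x) =
      n1115 T u b x := by
  simp only [n1115, n1111, n1059, n372, n3]
  all_goals ring

theorem imN1Bm (T : MolP) {u b x : ℝ} :
    (n205 T u b x) * ((n1122 T u b x) * (n1126 T u b x - n1111 T u b x) + (n654 T u b x) * (n1127 T u b x)) - (n15 T u b x) * ((n1054 T u b x) * ((u) * (n1126 T u b x) - (b) * ((n3 T u b x) * (n1047 T u b x))) + ((n3 T u b x) * (n1047 T u b x) + n1130 T u b x) * (n1126 T u b x - n1111 T u b x) + (n1050 T u b x) * ((u) * (n1124 T u b x) - (n3 T u b x) * (n1047 T u b x)) + (n781 T u b x) * (n1127 T u b x)) =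
      n1156 T u b x := by
  simp only [n1156, n1142, n1130, n1127, n1126, n1111, n1076, n1075, n781, n205, n169, n3]
  all_goals ring

theorem imM1Bm (T : MolP) {u b x : ℝ} :
    (x) * ((n1122 T u b x) * ((n169 T u b x) * (n1126 T u b x) - (b) * (n1134 T u b x - n1126 T u b x)) + (n654 T u b x) * (n1130 T u b x - (n1134 T u b x - n1126 T u b x))) - (n15 T u b x) * ((n1134 T u b x + (n3 T u b x) * (n1124 T u b x) - n1126 T u b x) * ((n169 T u b x) * (n1126 T u b x) - (b) * (n1134 T u b x - n1126 T u b x)) - (n1132 T u b x) * ((u) * (n1126 T u b x) + (b) * (n1134 T u b x - n1126 T u b x)) - (n1093 T u b x) * ((u) * (n1124 T u b x) + (n1134 T u b x - n1126 T u b x)) + (n800 T u b x) * (n1130 T u b x - (n1134 T u b x - n1126 T u b x))) =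
      n1172 T u b x := by
  simp only [n1172, n1158, n1136, n1134, n1130, n1126, n1094, n1093, n1075, n800, n781, n224, n205, n169, n3]
  all_goals ring

theorem imW1Bm (T : MolP) {u b x : ℝ} :
    (u) * (n1126 T u b x) - (b) * ((n3 T u b x) * (n1047 T u b x)) =
      n1176 T u b x := by
  simp only [n1176, n1126, n1111, n3]
  all_goals ring

theorem imN2Ap (T : MolP) {u b x : ℝ} :
    (n205 T u b x) * ((n1212 T u b x) * (n1228 T u b x + (b) * (n1219 T u b x)) + (n1209 T u b x) * (n1229 T u b x)) - (n15 T u b x) * ((n1223 T u b x) * ((u) * (n1228 T u b x) + (b) * (n1236 T u b x)) + (n1237 T u b x) * (n1228 T u b x + (b) * (n1219 T u b x)) + (n1220 T u b x) * ((u) * (n1226 T u b x) + n1236 T u b x) + (n1243 T u b x) * (n1229 T u b x)) =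
      n1260 T u b x := by
  simp only [n1260, n1246, n1244, n1243, n1242, n1237, n1236, n1232, n1229, n1228, n205, n169, n3]
  all_goals ring

theorem imM2Ap (T : MolP) {u b x : ℝ} :
    (x) * ((n1212 T u b x) * ((n169 T u b x) * (n1228 T u b x) - (b) * (n1236 T u b x)) + (n1209 T u b x) * (n1237 T u b x)) - (n15 T u b x) * ((n1236 T u b x + (n3 T u b x) * (n1226 T u b x)) * ((n169 T u b x) * (n1228 T u b x) - (b) * (n1236 T u b x)) - (n1235 T u b x) * ((u) * (n1228 T u b x) + (b) * (n1236 T u b x)) - (n1261 T u b x) * ((u) * (n1226 T u b x) + n1236 T u b x) + (n1262 T u b x) * (n1237 T u b x)) =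
      n1279 T u b x := by
  simp only [n1279, n1265, n1263, n1262, n1261, n1243, n1242, n1237, n1236, n1232, n1228, n224, n205, n169, n3]
  all_goals ring

theorem imW2Ap (T : MolP) {u b x : ℝ} :
    (u) * (n1228 T u b x) + (b) * (n1236 T u b x) =
      n1288 T u b x := by
  simp only [n1288, n1236, n1228, n3]
  all_goals ring

theorem imN2Am (T : MolP) {u b x : ℝ} :
    (n205 T u b x) * ((n1301 T u b x) * (n1315 T u b x - (b) * (n1307 T u b x)) + (n1209 T u b x) * (n1316 T u b x)) - (n15 T u b x) * ((n1310 T u b x) * ((u) * (n1315 T u b x) - (b) * ((n3 T u b x) * (n1307 T u b x))) + ((1 + n30 T u b x) * (n1307 T u b x) + n1320 T u b x - n1315 T u b x) * (n1315 T u b x - (b) * (n1307 T u b x)) + (n1220 T u b x) * ((u) * (n1313 T u b x) - (n3 T u b x) * (n1307 T u b x)) + (n1243 T u b x) * (n1316 T u b x)) =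
      n1346 T u b x := by
  simp only [n1346, n1332, n1320, n1317, n1316, n1315, n1244, n1243, n1242, n316, n315, n205, n169, n30, n3]
  all_goals ring

theorem imM2Am (T : MolP) {u b x : ℝ} :
    (x) * ((n1301 T u b x) * ((n169 T u b x) * (n1315 T u b x) - (b) * (n1326 T u b x)) + (n1209 T u b x) * (n1327 T u b x)) - (n15 T u b x) * ((n1326 T u b x + (n3 T u b x) * (n1313 T u b x)) * ((n169 T u b x) * (n1315 T u b x) - (b) * (n1326 T u b x)) - (n1324 T u b x) * ((u) * (n1315 T u b x) + (b) * (n1326 T u b x)) - (n1261 T u b x) * ((u) * (n1313 T u b x) + n1326 T u b x) + (n1262 T u b x) * (n1327 T u b x)) =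
      n1362 T u b x := by
  simp only [n1362, n1348, n1327, n1326, n1320, n1315, n1263, n1262, n1261, n1243, n1242, n224, n205, n169, n30, n3]
  all_goals ring

theorem imW2Am (T : MolP) {u b x : ℝ} :
    (u) * (n1315 T u b x) - (b) * ((n3 T u b x) * (n1307 T u b x)) + (b) * (n1315 T u b x - (b) * (n1307 T u b x)) =
      n1367 T u b x := by
  simp only [n1367, n1315, n30, n3]
  all_goals ring

theorem imN2Bp (T : MolP) {u b x : ℝ} :
    (n205 T u b x) * ((n1388 T u b x) * (n1403 T u b x + (b) * (n1394 T u b x)) + (n1209 T u b x) * (n1404 T u b x)) - (n15 T u b x) * ((n1398 T u b x) * ((u) * (n1403 T u b x) + (b) * ((n3 T u b x) * (n1394 T u b x))) + (n1408 T u b x + n1403 T u b x - (1 + n372 T u b x) * (n1394 T u b x)) * (n1403 T u b x + (b) * (n1394 T u b x)) + (n1395 T u b x) * ((u) * (n1401 T u b x) + (n3 T u b x) * (n1394 T u b x)) + (n1243 T u b x) * (n1404 T u b x)) =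
      n1436 T u b x := by
  simp only [n1436, n1422, n1420, n1419, n1408, n1405, n1404, n1403, n1243, n477, n372, n315, n205, n169, n3]
  all_goals ring

theorem imM2Bp (T : MolP) {u b x : ℝ} :
    (x) * ((n1388 T u b x) * ((n169 T u b x) * (n1403 T u b x) + (b) * (n1414 T u b x)) + (n1209 T u b x) * (n1415 T u b x)) - (n15 T u b x) * (((n3 T u b x) * (n1401 T u b x) - n1414 T u b x) * ((n169 T u b x) * (n1403 T u b x) + (b) * (n1414 T u b x)) - (n1412 T u b x) * ((u) * (n1403 T u b x) - (b) * (n1414 T u b x)) - (n1437 T u b x) * ((u) * (n1401 T u b x) - n1414 T u b x) + (n1262 T u b x) * (n1415 T u b x)) =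
      n1454 T u b x := by
  simp only [n1454, n1440, n1438, n1437, n1419, n1415, n1414, n1408, n1403, n1262, n1243, n372, n224, n205, n169, n3]
  all_goals ring

theorem imW2Bp (T : MolP) {u b x : ℝ} :
    (u) * (n1403 T u b x) + (b) * ((n3 T u b x) * (n1394 T u b x)) - (b) * (n1403 T u b x + (b) * (n1394 T u b x)) =
      n1459 T u b x := by
  simp only [n1459, n1403, n372, n3]
  all_goals ring

theorem imN2Bm (T : MolP) {u b x : ℝ} :
    (n205 T u b x) * ((n1468 T u b x) * (n1482 T u b x - (b) * (n1474 T u b x)) + (n1209 T u b x) * (n1483 T u b x)) - (n15 T u b x) * ((n1477 T u b x) * ((u) * (n1482 T u b x) - (b) * ((n3 T u b x) * (n1474 T u b x))) + ((n3 T u b x) * (n1474 T u b x) + n1486 T u b x) * (n1482 T u b x - (b) * (n1474 T u b x)) + (n1395 T u b x) * ((u) * (n1480 T u b x) - (n3 T u b x) * (n1474 T u b x)) + (n1243 T u b x) * (n1483 T u b x)) =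
      n1513 T u b x := by
  simp only [n1513, n1499, n1486, n1483, n1482, n1420, n1419, n1243, n205, n169, n3]
  all_goals ring

theorem imM2Bm (T : MolP) {u b x : ℝ} :
    (x) * ((n1468 T u b x) * ((n169 T u b x) * (n1482 T u b x) - (b) * (n1491 T u b x - n1482 T u b x)) + (n1209 T u b x) * (n1486 T u b x - (n1491 T u b x - n1482 T u b x))) - (n15 T u b x) * ((n1491 T u b x + (n3 T u b x) * (n1480 T u b x) - n1482 T u b x) * ((n169 T u b x) * (n1482 T u b x) - (b) * (n1491 T u b x - n1482 T u b x)) - (n1489 T u b x) * ((u) * (n1482 T u b x) + (b) * (n1491 T u b x - n1482 T u b x)) - (n1437 T u b x) * ((u) * (n1480 T u b x) + (n1491 T u b x - n1482 T u b x)) + (n1262 T u b x) * (n1486 T u b x - (n1491 T u b x - n1482 T u b x))) =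
      n1529 T u b x := by
  simp only [n1529, n1515, n1493, n1491, n1486, n1482, n1438, n1437, n1419, n1262, n1243, n224, n205, n169, n3]
  all_goals ring

theorem imW2Bm (T : MolP) {u b x : ℝ} :
    (u) * (n1482 T u b x) - (b) * ((n3 T u b x) * (n1474 T u b x)) =
      n1534 T u b x := by
  simp only [n1534, n1482, n3]
  all_goals ring

end Pool.Agent.Strip051.LC.MolN
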