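import Pool.Agent.Strip051.LC.Exact.MolN4

/-! # The tight triangles: charts with a negative difference of the third kernel, definitions
(generated) -/

set_option linter.unusedVariables false

namespace Pool.Agent.Strip051.LC.MolN

open Pool.Agent.Strip051.LC

noncomputable def n2132 (T : MolP) (u b x : ℝ) : ℝ := T.dy - 1 / 2 * (n675 T u b x)

noncomputable def n2133 (T : MolP) (u b x : ℝ) : ℝ := n719 T u b x - T.m1

noncomputable def n2134 (T : MolP) (u b x : ℝ) : ℝ := n721 T u b x - n716 T u b x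

noncomputable def n2137 (T : MolP) (u b x : ℝ) : ℝ := (((n599 T u b x) * (n2132 T u b x)) * (T.k52)) * (x)

noncomputable def n2140 (T : MolP) (u b x : ℝ) : ℝ := (((n599 T u b x) * (n2133 T u b x)) * (T.k52)) * (x)

noncomputable def n2141 (T : MolP) (u b x : ℝ) : ℝ := n2140 T u b x + n1197 T u b x

noncomputable def n2143 (T : MolP) (u b x : ℝ) : ℝ := (((n15 T u b x) * (n599 T u b x)) * (T.k1)) * ((n205 T u b x)⁻¹)

noncomputable def n2144 (T : MolP) (u b x : ℝ) : ℝ := (n2143 T u b x) * (n2132 T u b x)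

noncomputable def n2145 (T : MolP) (u b x : ℝ) : ℝ := (n298 T u b x) * (n2144 T u b x)

noncomputable def n2147 (T : MolP) (u b x : ℝ) : ℝ := (n298 T u b x) * ((n2143 T u b x) * (n2133 T u b x))

noncomputable def n2150 (T : MolP) (u b x : ℝ) : ℝ := n654 T u b x - n2145 T u b x - (n15 T u b x) * (n2137 T u b x)

noncomputable def n2153 (T : MolP) (u b x : ℝ) : ℝ := n656 T u b x - n2147 T u b x - (n15 T u b x) * (n2141 T u b x)

noncomputable def n2155 (T : MolP) (u b x : ℝ) : ℝ := n2137 T u b x + (b) * (n2141 T u b x)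

noncomputable def n2156 (T : MolP) (u b x : ℝ) : ℝ := 1 / 2 * (n662 T u b x) - n2137 T u b x

noncomputable def n2157 (T : MolP) (u b x : ℝ) : ℝ := n747 T u b x - n2141 T u b x

noncomputable def n2158 (T : MolP) (u b x : ℝ) : ℝ := n748 T u b x - n2155 T u b x

noncomputable def n2160 (T : MolP) (u b x : ℝ) : ℝ := n2158 T u b x + n749 T u b x - n751 T u b x

noncomputable def n2161 (T : MolP) (u b x : ℝ) : ℝ := n2156 T u b x + n754 T u b x

noncomputable def n2164 (T : MolP) (u b x : ℝ) : ℝ := n2157 T u b x + n739 T u b x - n757 T u b x + n759 T u b x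

noncomputable def n2167 (T : MolP) (u b x : ℝ) : ℝ := n2157 T u b x + n761 T u b x - n2158 T u b x + n751 T u b x

noncomputable def n2169 (T : MolP) (u b x : ℝ) : ℝ := n2156 T u b x + (b) * (n2167 T u b x)

noncomputable def n2170 (T : MolP) (u b x : ℝ) : ℝ := n2167 T u b x + n2160 T u b x

noncomputable def n2173 (T : MolP) (u b x : ℝ) : ℝ := (n169 T u b x) * (n2167 T u b x)

noncomputable def n2176 (T : MolP) (u b x : ℝ) : ℝ := n2167 T u b x - (n3 T u b x) * (n2164 T u b x)

noncomputable def n2177 (T : MolP) (u b x : ℝ) : ℝ := (n3 T u b x) * (n2160 T u b x)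

noncomputable def n2178 (T : MolP) (u b x : ℝ) : ℝ := n2173 T u b x - n2177 T u b x

noncomputable def n2182 (T : MolP) (u b x : ℝ) : ℝ := n2169 T u b x - n2177 T u b x

noncomputable def n2183 (T : MolP) (u b x : ℝ) : ℝ := (n3 T u b x) * (n2161 T u b x)

noncomputable def n2184 (T : MolP) (u b x : ℝ) : ℝ := (n169 T u b x) * (n2156 T u b x)

noncomputable def n2185 (T : MolP) (u b x : ℝ) : ℝ := n2183 T u b x + n2184 T u b x

noncomputable def n2187 (T : MolP) (u b x : ℝ) : ℝ := n2156 T u b x + (b) * (n2170 T u b x)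

noncomputable def n2201 (T : MolP) (u b x : ℝ) : ℝ := (n205 T u b x) * ((n2153 T u b x) * (n2187 T u b x) + (n2150 T u b x) * (n2170 T u b x)) - (n15 T u b x) * (((n3 T u b x) * (n2164 T u b x - n2160 T u b x) + n2173 T u b x) * (n2187 T u b x) + (n2185 T u b x) * (n2170 T u b x) - (x) * ((n2164 T u b x) * (n2169 T u b x) + (n2161 T u b x) * (n2167 T u b x)))

noncomputable def n2202 (T : MolP) (u b x : ℝ) : ℝ := n2156 T u b x - n2183 T u b x

noncomputable def n2203 (T : MolP) (u b x : ℝ) : ℝ := (n3 T u b x) * (n2156 T u b x)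

noncomputable def n2204 (T : MolP) (u b x : ℝ) : ℝ := n2202 T u b x + n2203 T u b x

noncomputable def n2206 (T : MolP) (u b x : ℝ) : ℝ := n2184 T u b x + (b) * (n2178 T u b x)

noncomputable def n2220 (T : MolP) (u b x : ℝ) : ℝ := (n224 T u b x) * ((n2153 T u b x) * (n2206 T u b x) + (n2150 T u b x) * (n2178 T u b x)) - (n15 T u b x) * ((n2177 T u b x + n2176 T u b x + (n3 T u b x) * (n2167 T u b x)) * (n2206 T u b x) + (n2204 T u b x) * (n2178 T u b x) - (n205 T u b x) * ((n2176 T u b x) * (n2169 T u b x) + (n2202 T u b x) * (n2167 T u b x)))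

noncomputable def n2222 (T : MolP) (u b x : ℝ) : ℝ := n859 T u b x - (n205 T u b x) * (n2144 T u b x)

noncomputable def n2224 (T : MolP) (u b x : ℝ) : ℝ := n861 T u b x - (x) * (n2144 T u b x)

noncomputable def n2229 (T : MolP) (u b x : ℝ) : ℝ := (n3 T u b x) * (n2169 T u b x + (b) * (n2160 T u b x)) - (x) * (n2169 T u b x)

noncomputable def n2231 (T : MolP) (u b x : ℝ) : ℝ := (n298 T u b x) * ((n2222 T u b x) * (n2156 T u b x))

noncomputable def n2233 (T : MolP) (u b x : ℝ) : ℝ := n2231 T u b x + (b) * (n2201 T u b x)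

noncomputable def n2235 (T : MolP) (u b x : ℝ) : ℝ := (n298 T u b x) * ((n2224 T u b x) * (n2184 T u b x))

noncomputable def n2237 (T : MolP) (u b x : ℝ) : ℝ := n2235 T u b x + (b) * (n2220 T u b x)

noncomputable def n2238 (T : MolP) (u b x : ℝ) : ℝ := n2140 T u b x - n1197 T u b x

noncomputable def n2241 (T : MolP) (u b x : ℝ) : ℝ := n877 T u b x - n2147 T u b x - (n15 T u b x) * (n2238 T u b x)

noncomputable def n2243 (T : MolP) (u b x : ℝ) : ℝ := n2137 T u b x + (b) * (n2238 T u b x)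

noncomputable def n2244 (T : MolP) (u b x : ℝ) : ℝ := n747 T u b x - n2238 T u b x

noncomputable def n2245 (T : MolP) (u b x : ℝ) : ℝ := n748 T u b x - n2243 T u b x

noncomputable def n2247 (T : MolP) (u b x : ℝ) : ℝ := n2245 T u b x + n749 T u b x - n751 T u b x

noncomputable def n2250 (T : MolP) (u b x : ℝ) : ℝ := n2244 T u b x + n739 T u b x - n757 T u b x + n759 T u b x

noncomputable def n2253 (T : MolP) (u b x : ℝ) : ℝ := n2244 T u b x + n749 T u b x + n879 T u b x + n2245 T u b x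

noncomputable def n2255 (T : MolP) (u b x : ℝ) : ℝ := n2156 T u b x + (b) * (n2253 T u b x)

noncomputable def n2256 (T : MolP) (u b x : ℝ) : ℝ := n2253 T u b x - n2247 T u b x

noncomputable def n2257 (T : MolP) (u b x : ℝ) : ℝ := (n3 T u b x) * (n2250 T u b x)

noncomputable def n2260 (T : MolP) (u b x : ℝ) : ℝ := (n169 T u b x) * (n2253 T u b x)

noncomputable def n2264 (T : MolP) (u b x : ℝ) : ℝ := n2253 T u b x - n2257 T u b x - n2247 T u b x

noncomputable def n2266 (T : MolP) (u b x : ℝ) : ℝ := n2255 T u b x - (n30 T u b x) * (n2247 T u b x)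

noncomputable def n2267 (T : MolP) (u b x : ℝ) : ℝ := n2260 T u b x - n2266 T u b x

noncomputable def n2272 (T : MolP) (u b x : ℝ) : ℝ := n2156 T u b x + (b) * (n2256 T u b x)

noncomputable def n2286 (T : MolP) (u b x : ℝ) : ℝ := (n205 T u b x) * ((n2241 T u b x) * (n2272 T u b x) + (n2150 T u b x) * (n2256 T u b x)) - (n15 T u b x) * ((n2257 T u b x + (n316 T u b x) * (n2247 T u b x) + n2260 T u b x - n2255 T u b x) * (n2272 T u b x) + (n2185 T u b x) * (n2256 T u b x) - (x) * ((n2250 T u b x) * (n2255 T u b x) + (n2161 T u b x) * (n2253 T u b x)))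

noncomputable def n2288 (T : MolP) (u b x : ℝ) : ℝ := n2184 T u b x + (b) * (n2267 T u b x)

noncomputable def n2302 (T : MolP) (u b x : ℝ) : ℝ := (n224 T u b x) * ((n2241 T u b x) * (n2288 T u b x) + (n2150 T u b x) * (n2267 T u b x)) - (n15 T u b x) * ((n2264 T u b x + n2266 T u b x + (n3 T u b x) * (n2253 T u b x)) * (n2288 T u b x) + (n2204 T u b x) * (n2267 T u b x) - (n205 T u b x) * ((n2264 T u b x) * (n2255 T u b x) + (n2202 T u b x) * (n2253 T u b x)))

noncomputable def n2307 (T : MolP) (u b x : ℝ) : ℝ := (n30 T u b x) * (n2255 T u b x - (b) * (n2247 T u b x)) - (x) * (n2255 T u b x)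

noncomputable def n2311 (T : MolP) (u b x : ℝ) : ℝ := n2231 T u b x + (b) * (n2286 T u b x)

noncomputable def n2313 (T : MolP) (u b x : ℝ) : ℝ := n2235 T u b x + (b) * (n2302 T u b x)

noncomputable def n2314 (T : MolP) (u b x : ℝ) : ℝ := T.m1 - n1032 T u b x

noncomputable def n2315 (T : MolP) (u b x : ℝ) : ℝ := n716 T u b x - n1035 T u b x

noncomputable def n2318 (T : MolP) (u b x : ℝ) : ℝ := (((n599 T u b x) * (n2314 T u b x)) * (T.k52)) * (x)

noncomputable def n2319 (T : MolP) (u b x : ℝ) : ℝ := n2318 T u b x + n1382 T u b x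

noncomputable def n2321 (T : MolP) (u b x : ℝ) : ℝ := (n298 T u b x) * ((n2143 T u b x) * (n2314 T u b x))

noncomputable def n2324 (T : MolP) (u b x : ℝ) : ℝ := n990 T u b x - n2321 T u b x - (n15 T u b x) * (n2319 T u b x)

noncomputable def n2326 (T : MolP) (u b x : ℝ) : ℝ := n2137 T u b x + (b) * (n2319 T u b x)

noncomputable def n2327 (T : MolP) (u b x : ℝ) : ℝ := n747 T u b x - n2319 T u b x

noncomputable def n2328 (T : MolP) (u b x : ℝ) : ℝ := n748 T u b x - n2326 T u b x

noncomputable def n2330 (T : MolP) (u b x : ℝ) : ℝ := n2328 T u b x - n749 T u b x + n1046 T u b x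

noncomputable def n2331 (T : MolP) (u b x : ℝ) : ℝ := n2156 T u b x + n1049 T u b x

noncomputable def n2334 (T : MolP) (u b x : ℝ) : ℝ := n2327 T u b x + n1051 T u b x + n1044 T u b x - n759 T u b x

noncomputable def n2337 (T : MolP) (u b x : ℝ) : ℝ := n2327 T u b x + n749 T u b x + n1055 T u b x - n2328 T u b x

noncomputable def n2339 (T : MolP) (u b x : ℝ) : ℝ := n2156 T u b x + (b) * (n2337 T u b x)

noncomputable def n2340 (T : MolP) (u b x : ℝ) : ℝ := n2337 T u b x + n2330 T u b x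

noncomputable def n2341 (T : MolP) (u b x : ℝ) : ℝ := (n3 T u b x) * (n2334 T u b x)

noncomputable def n2344 (T : MolP) (u b x : ℝ) : ℝ := (n169 T u b x) * (n2337 T u b x)

noncomputable def n2348 (T : MolP) (u b x : ℝ) : ℝ := n2337 T u b x - n2341 T u b x + n2330 T u b x

noncomputable def n2350 (T : MolP) (u b x : ℝ) : ℝ := n2339 T u b x - (n372 T u b x) * (n2330 T u b x)

noncomputable def n2351 (T : MolP) (u b x : ℝ) : ℝ := n2344 T u b x + n2350 T u b x

noncomputable def n2355 (T : MolP) (u b x : ℝ) : ℝ := (n3 T u b x) * (n2331 T u b x)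

noncomputable def n2356 (T : MolP) (u b x : ℝ) : ℝ := n2355 T u b x + n2184 T u b x

noncomputable def n2358 (T : MolP) (u b x : ℝ) : ℝ := n2156 T u b x + (b) * (n2340 T u b x)

noncomputable def n2372 (T : MolP) (u b x : ℝ) : ℝ := (n205 T u b x) * ((n2324 T u b x) * (n2358 T u b x) + (n2150 T u b x) * (n2340 T u b x)) - (n15 T u b x) * ((n2341 T u b x - (n477 T u b x) * (n2330 T u b x) + n2344 T u b x + n2339 T u b x) * (n2358 T u b x) + (n2356 T u b x) * (n2340 T u b x) - (x) * ((n2334 T u b x) * (n2339 T u b x) + (n2331 T u b x) * (n2337 T u b x)))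

noncomputable def n2373 (T : MolP) (u b x : ℝ) : ℝ := n2156 T u b x - n2355 T u b x

noncomputable def n2374 (T : MolP) (u b x : ℝ) : ℝ := n2373 T u b x + n2203 T u b x

noncomputable def n2376 (T : MolP) (u b x : ℝ) : ℝ := n2184 T u b x + (b) * (n2351 T u b x)

noncomputable def n2390 (T : MolP) (u b x : ℝ) : ℝ := (n224 T u b x) * ((n2324 T u b x) * (n2376 T u b x) + (n2150 T u b x) * (n2351 T u b x)) - (n15 T u b x) * ((n2348 T u b x - n2350 T u b x + (n3 T u b x) * (n2337 T u b x)) * (n2376 T u b x) + (n2374 T u b x) * (n2351 T u b x) - (n205 T u b x) * ((n2348 T u b x) * (n2339 T u b x) + (n2373 T u b x) * (n2337 T u b x)))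

noncomputable def n2395 (T : MolP) (u b x : ℝ) : ℝ := (n372 T u b x) * (n2339 T u b x + (b) * (n2330 T u b x)) - (x) * (n2339 T u b x)

noncomputable def n2397 (T : MolP) (u b x : ℝ) : ℝ := n2231 T u b x + (b) * (n2372 T u b x)

noncomputable def n2399 (T : MolP) (u b x : ℝ) : ℝ := n2235 T u b x + (b) * (n2390 T u b x)

noncomputable def n2400 (T : MolP) (u b x : ℝ) : ℝ := n2318 T u b x - n1382 T u b x

noncomputable def n2403 (T : MolP) (u b x : ℝ) : ℝ := n1122 T u b x - n2321 T u b x - (n15 T u b x) * (n2400 T u b x)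

noncomputable def n2405 (T : MolP) (u b x : ℝ) : ℝ := n2137 T u b x + (b) * (n2400 T u b x)

noncomputable def n2406 (T : MolP) (u b x : ℝ) : ℝ := n747 T u b x - n2400 T u b x

noncomputable def n2407 (T : MolP) (u b x : ℝ) : ℝ := n748 T u b x - n2405 T u b x

noncomputable def n2409 (T : MolP) (u b x : ℝ) : ℝ := n2407 T u b x - n749 T u b x + n1046 T u b x

noncomputable def n2412 (T : MolP) (u b x : ℝ) : ℝ := n2406 T u b x + n1051 T u b x + n1044 T u b x - n759 T u b x

noncomputable def n2415 (T : MolP) (u b x : ℝ) : ℝ := n2406 T u b x + n761 T u b x + n1046 T u b x + n2407 T u b x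

noncomputable def n2417 (T : MolP) (u b x : ℝ) : ℝ := n2156 T u b x + (b) * (n2415 T u b x)

noncomputable def n2418 (T : MolP) (u b x : ℝ) : ℝ := n2415 T u b x - n2409 T u b x

noncomputable def n2421 (T : MolP) (u b x : ℝ) : ℝ := (n169 T u b x) * (n2415 T u b x)

noncomputable def n2424 (T : MolP) (u b x : ℝ) : ℝ := n2415 T u b x - (n3 T u b x) * (n2412 T u b x)

noncomputable def n2426 (T : MolP) (u b x : ℝ) : ℝ := n2417 T u b x - (n3 T u b x) * (n2409 T u b x)

noncomputable def n2428 (T : MolP) (u b x : ℝ) : ℝ := n2421 T u b x + n2417 T u b x - n2426 T u b x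

noncomputable def n2434 (T : MolP) (u b x : ℝ) : ℝ := n2156 T u b x + (b) * (n2418 T u b x)

noncomputable def n2448 (T : MolP) (u b x : ℝ) : ℝ := (n205 T u b x) * ((n2403 T u b x) * (n2434 T u b x) + (n2150 T u b x) * (n2418 T u b x)) - (n15 T u b x) * (((n3 T u b x) * (n2412 T u b x + n2409 T u b x) + n2421 T u b x) * (n2434 T u b x) + (n2356 T u b x) * (n2418 T u b x) - (x) * ((n2412 T u b x) * (n2417 T u b x) + (n2331 T u b x) * (n2415 T u b x)))

noncomputable def n2450 (T : MolP) (u b x : ℝ) : ℝ := n2184 T u b x + (b) * (n2428 T u b x)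

noncomputable def n2464 (T : MolP) (u b x : ℝ) : ℝ := (n224 T u b x) * ((n2403 T u b x) * (n2450 T u b x) + (n2150 T u b x) * (n2428 T u b x)) - (n15 T u b x) * ((n2424 T u b x + n2426 T u b x + (n3 T u b x) * (n2415 T u b x) - n2417 T u b x) * (n2450 T u b x) + (n2374 T u b x) * (n2428 T u b x) - (n205 T u b x) * ((n2424 T u b x) * (n2417 T u b x) + (n2373 T u b x) * (n2415 T u b x)))

noncomputable def n2469 (T : MolP) (u b x : ℝ) : ℝ := (n3 T u b x) * (n2417 T u b x - (b) * (n2409 T u b x)) - (x) * (n2417 T u b x)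

noncomputable def n2473 (T : MolP) (u b x : ℝ) : ℝ := n2231 T u b x + (b) * (n2448 T u b x)

noncomputable def n2475 (T : MolP) (u b x : ℝ) : ℝ := n2235 T u b x + (b) * (n2464 T u b x)

end Pool.Agent.Strip051.LC.MolN
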