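import Pool.Agent.Strip051.LC.Exact.MolN6

/-! # The tight triangles: charts with a negative difference of the third kernel (generated) -/

set_option linter.unusedVariables false

namespace Pool.Agent.Strip051.LC.MolN

open Pool.Agent.StripNear Pool.Agent.StripSquare Pool.Agent.Strip051.Sweep
open Pool.Agent.Strip051.LC
open Pool.Agent.Strip051.LC.Line (tau)

theorem J155 (T : MolP) {u b x : ℝ} :
    n2155 T u b x = n2137 T u b x + b * (n2141 T u b x) := by
  simp only [n2155]
  all_goals ring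

theorem J156 (T : MolP) {u b x : ℝ} :
    n2158 T u b x = n2156 T u b x + b * (n2157 T u b x) := by
  have j1 := J65 T (u := u) (b := b) (x := x)
  have j2 := J155 T (u := u) (b := b) (x := x)
  simp only [n2158, n2157, n2156]
  all_goals linear_combination j1 - j2

theorem J157 (T : MolP) {u b x : ℝ} :
    n2243 T u b x = n2137 T u b x + b * (n2238 T u b x) := by
  simp only [n2243]
  all_goals ring

theorem J158 (T : MolP) {u b x : ℝ} :
    n2245 T u b x = n2156 T u b x + b * (n2244 T u b x) := by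
  have j1 := J65 T (u := u) (b := b) (x := x)
  have j2 := J157 T (u := u) (b := b) (x := x)
  simp only [n2245, n2244, n2156]
  all_goals linear_combination j1 - j2

theorem J159 (T : MolP) {u b x : ℝ} :
    n2326 T u b x = n2137 T u b x + b * (n2319 T u b x) := by
  simp only [n2326]
  all_goals ring

theorem J160 (T : MolP) {u b x : ℝ} :
    n2328 T u b x = n2156 T u b x + b * (n2327 T u b x) := by
  have j1 := J65 T (u := u) (b := b) (x := x)
  have j2 := J159 T (u := u) (b := b) (x := x)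
  simp only [n2328, n2327, n2156]
  all_goals linear_combination j1 - j2

theorem J161 (T : MolP) {u b x : ℝ} :
    n2405 T u b x = n2137 T u b x + b * (n2400 T u b x) := by
  simp only [n2405]
  all_goals ring

theorem J162 (T : MolP) {u b x : ℝ} :
    n2407 T u b x = n2156 T u b x + b * (n2406 T u b x) := by
  have j1 := J65 T (u := u) (b := b) (x := x)
  have j2 := J161 T (u := u) (b := b) (x := x)
  simp only [n2407, n2406, n2156]
  all_goals linear_combination j1 - j2

theorem val3A (T : MolP) {u b x : ℝ} (h : DomA u b x) :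
    (1 - x) * ((n2150 T u b x) - (n15 T u b x) * (n2156 T u b x)) - (n15 T u b x) * (((n3 T u b x) - x) * (1 - (n3 T u b x)) * ((n728 T u b x) - (n737 T u b x))) = u ^ 2 * (n2222 T u b x) ∧
      x * ((n2150 T u b x) - (n15 T u b x) * (n2156 T u b x)) - (n15 T u b x) * (((n3 T u b x) - x) * (n3 T u b x) * ((n728 T u b x) - (n737 T u b x))) = u ^ 2 * (n2224 T u b x) := by
  have hy : (n3 T u b x) - x = u := by
    simp only [n3]
    ring
  have hcx : (n8 T u b x) ^ 2 = 1 - 3 / 4 * x ^ 2 := cn_sq h.x0 h.x1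
  have hcy : (n12 T u b x) ^ 2 = 1 - 3 / 4 * (n3 T u b x) ^ 2 := cn_sq (y := n3 T u b x) h.y0 h.y1
  have pcx : 0 < (n8 T u b x) := cn_pos h.x0 h.x1
  have pcy : 0 < (n12 T u b x) := cn_pos (y := n3 T u b x) h.y0 h.y1
  have key := mol_val (x := x) (y := n3 T u b x) (cx := n8 T u b x) (cy := n12 T u b x) (e := n15 T u b x) (ey := n64 T u b x)
    (μ := n599 T u b x) (m := n662 T u b x) (δ := T.dy) (r0 := n2156 T u b x) (E0 := n2150 T u b x) (Δ := (n728 T u b x) - (n737 T u b x)) (a := n244 T u b x) (b := n248 T u b x)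
    (k := n263 T u b x) (F1 := n838 T u b x) (F2 := n857 T u b x) (A1 := n2222 T u b x) (A2 := n2224 T u b x) (G := n74 T u b x)
    (D := (3 / 4 + 9 / 8 * (n3 T u b x / n12 T u b x))) (Rx := 3 / 4 * x + 3 / 2 * (1 - n8 T u b x))
    (Ry := 3 / 4 * n3 T u b x + 3 / 2 * (1 - n12 T u b x)) (lam := n2144 T u b x) (ν := n2137 T u b x) h.x0 h.x1 h.y0 h.y1 pcx pcy
    hcx hcy ?_ ?_ ?_ ?_ rfl rfl ?_ rfl ?_ ?_ ?_ ?_ ?_ ?_ ?_ ?_ ?_
  · exact ⟨key.1.trans (by rw [hy]), key.2.trans (by rw [hy])⟩
  · simp only [n244]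
    unfold mA
    ring
  · simp only [n248]
    unfold mA
    ring
  · simp only [n15]
    all_goals ring
  · simp only [n64, n60]
    all_goals ring
  · simp only [n74, n73, n69, n52, n51]
    all_goals ring
  · simp only [n662, n660]
    all_goals ring
  · simp only [n838, n833, n267, n259, n258, n255, n251, n250]
    unfold mF1
    ring
  · simp only [n857, n833, n286, n280, n273, n259, n258, n255, n251, n250]
    unfold mF2
    ring
  · simp only [n263, n259, n258, n255, n251, n250]
    all_goals ring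
  · simp only [n2222, n859, n283, n273, n251, n205]
    all_goals ring
  · simp only [n2224, n861, n291, n286]
    all_goals ring
  · simp only [n2156]
    all_goals ring
  · rw [hy]
    simp only [n2150, n2145, n654, n298, n160, n129, n122, n117, n110, n108, n102, n64, n60]
    linear_combination -(1 / 4) * (n599 T u b x) * hcy
  · simp only [n737, n734, n731, n728, n725, n722, n711, n706, n704, n703, n699, n696, n690, n685, n683, n677, n675, n669, n102, n95, n92, n85, n79, n52, n51]
    all_goals ring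

theorem val3B (T : MolP) {u b x : ℝ} (h : DomB u b x) :
    (1 - x) * ((n2150 T u b x) - (n15 T u b x) * (n2156 T u b x)) - (n15 T u b x) * (((n3 T u b x) - x) * (1 - (n3 T u b x)) * ((n1042 T u b x) - (n728 T u b x))) = u ^ 2 * (n2222 T u b x) ∧
      x * ((n2150 T u b x) - (n15 T u b x) * (n2156 T u b x)) - (n15 T u b x) * (((n3 T u b x) - x) * (n3 T u b x) * ((n1042 T u b x) - (n728 T u b x))) = u ^ 2 * (n2224 T u b x) := by
  have hy : (n3 T u b x) - x = u := by
    simp only [n3]
    ring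
  have hcx : (n8 T u b x) ^ 2 = 1 - 3 / 4 * x ^ 2 := cn_sq h.x0 h.x1
  have hcy : (n12 T u b x) ^ 2 = 1 - 3 / 4 * (n3 T u b x) ^ 2 := cn_sq (y := n3 T u b x) h.y0 h.y1
  have pcx : 0 < (n8 T u b x) := cn_pos h.x0 h.x1
  have pcy : 0 < (n12 T u b x) := cn_pos (y := n3 T u b x) h.y0 h.y1
  have key := mol_val (x := x) (y := n3 T u b x) (cx := n8 T u b x) (cy := n12 T u b x) (e := n15 T u b x) (ey := n64 T u b x)
    (μ := n599 T u b x) (m := n662 T u b x) (δ := T.dy) (r0 := n2156 T u b x) (E0 := n2150 T u b x) (Δ := (n1042 T u b x) - (n728 T u b x)) (a := n244 T u b x) (b := n248 T u b x)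
    (k := n263 T u b x) (F1 := n838 T u b x) (F2 := n857 T u b x) (A1 := n2222 T u b x) (A2 := n2224 T u b x) (G := n74 T u b x)
    (D := (3 / 4 + 9 / 8 * (n3 T u b x / n12 T u b x))) (Rx := 3 / 4 * x + 3 / 2 * (1 - n8 T u b x))
    (Ry := 3 / 4 * n3 T u b x + 3 / 2 * (1 - n12 T u b x)) (lam := n2144 T u b x) (ν := n2137 T u b x) h.x0 h.x1 h.y0 h.y1 pcx pcy
    hcx hcy ?_ ?_ ?_ ?_ rfl rfl ?_ rfl ?_ ?_ ?_ ?_ ?_ ?_ ?_ ?_ ?_
  · exact ⟨key.1.trans (by rw [hy]), key.2.trans (by rw [hy])⟩
  · simp only [n244]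
    unfold mA
    ring
  · simp only [n248]
    unfold mA
    ring
  · simp only [n15]
    all_goals ring
  · simp only [n64, n60]
    all_goals ring
  · simp only [n74, n73, n69, n52, n51]
    all_goals ring
  · simp only [n662, n660]
    all_goals ring
  · simp only [n838, n833, n267, n259, n258, n255, n251, n250]
    unfold mF1
    ring
  · simp only [n857, n833, n286, n280, n273, n259, n258, n255, n251, n250]
    unfold mF2
    ring
  · simp only [n263, n259, n258, n255, n251, n250]
    all_goals ring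
  · simp only [n2222, n859, n283, n273, n251, n205]
    all_goals ring
  · simp only [n2224, n861, n291, n286]
    all_goals ring
  · simp only [n2156]
    all_goals ring
  · rw [hy]
    simp only [n2150, n2145, n654, n298, n160, n129, n122, n117, n110, n108, n102, n64, n60]
    linear_combination -(1 / 4) * (n599 T u b x) * hcy
  · simp only [n1042, n1039, n1036, n1026, n1021, n1019, n1014, n728, n725, n722, n703, n699, n690, n685, n683, n677, n675, n669, n409, n404, n402, n102, n95, n52, n51]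
    all_goals ring

theorem ch3Ap (T : MolP) {u b x κ τ1 τ3 : ℝ} (h : DomA u b x) (hb : 0 ≤ b)
    (hκ : κ * h0 * (x * (1 - x)) = 2 * (n15 T u b x)) (hA1 : 0 ≤ n2222 T u b x) (hA2 : 0 ≤ n2224 T u b x) (hr : 0 ≤ n2156 T u b x)
    (hP : 0 < n2160 T u b x) (hQ : 0 < n2182 T u b x)
    (tN : 0 < -(n2229 T u b x) ∨ 0 < n2201 T u b x ∨ 0 < n2233 T u b x) (tM : 0 < n2229 T u b x ∨ 0 < n2220 T u b x ∨ 0 < n2237 T u b x)
    (t1 : tau (h0 * (n3 T u b x)) = h0 * τ1) (t3 : tau (h0 * (n3 T u b x) + (h0 + h0 * b)) = h0 * τ3) :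
    NGV κ (h0 * x) ((n2150 T u b x) + b * (n2153 T u b x)) (h0 * (n3 T u b x)) (h0 + h0 * b)
      ((n730 T u b x) * τ1, -(n2158 T u b x), (n739 T u b x) * τ3) := by
  have eNT : n2233 T u b x = u ^ 2 * ((n2222 T u b x) * (n2156 T u b x)) + b * (n2201 T u b x) := by
    simp only [n2233, n2231, n298]
    all_goals ring
  have eMT : n2237 T u b x = u ^ 2 * ((n2224 T u b x) * ((1 - (n3 T u b x)) * (n2156 T u b x))) + b * (n2220 T u b x) := by
    simp only [n2237, n2235, n2184, n298, n169]
    all_goals ring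
  rw [eNT] at tN
  rw [eMT] at tM
  refine chA_nonneg (κ := κ) (x := x) (e := n15 T u b x) (y := n3 T u b x) (β := b) (K1 := n730 T u b x) (K10 := n728 T u b x) (K11 := n729 T u b x)
    (K30 := n737 T u b x) (K31 := n738 T u b x) (K3 := n739 T u b x) (ρ0 := n2156 T u b x) (ρ1 := n2157 T u b x) (ρ := n2158 T u b x) (E0 := n2150 T u b x) (E1 := n2153 T u b x) (P := n2160 T u b x)
    (R := n2169 T u b x) (Q := n2182 T u b x) (P0 := n2161 T u b x) (P1 := n2164 T u b x) (R1 := n2167 T u b x) (Q1 := n2176 T u b x) (A1 := n2222 T u b x) (A2 := n2224 T u b x)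
    (N1 := n2201 T u b x) (M1 := n2220 T u b x) (u := u) (wd := n2229 T u b x) (τ1 := τ1) (τ3 := τ3) h.x0 h.x1 hκ hb (by linarith [h.b1]) h.p1 h.y0 h.y1
    (J85 T (u := u) (b := b) (x := x) h) (J89 T (u := u) (b := b) (x := x))
    (J156 T (u := u) (b := b) (x := x)) ?_ ?_ ?_ ?_ ?_ ?_ ?_ hP hQ ?_ ?_ (val3A T h) hA1 hA2 hr ?_
    tN tM t1 t3
  · simp only [n2160, n751, n749, n172, n169]
    all_goals ring
  · simp only [n2167, n761, n751, n172, n169]
    all_goals ring
  · simp only [n2169]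
    all_goals ring
  · simp only [n2182, n2177]
    all_goals ring
  · simp only [n2161, n754, n169]
    all_goals ring
  · simp only [n2164, n759, n757, n169]
    all_goals ring
  · simp only [n2176]
    all_goals ring
  · simp only [n2201, n2187, n2185, n2184, n2183, n2173, n2170, n2169, n205, n169]
    unfold mol
    ring
  · simp only [n2220, n2206, n2204, n2203, n2202, n2184, n2183, n2178, n2177, n2173, n2169, n224, n205, n169]
    unfold mol
    ring
  · simp only [n2229]
    all_goals ring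

theorem ch3Am (T : MolP) {u b x κ τ1 τ3 : ℝ} (h : DomA u b x) (hb : b < 0)
    (hκ : κ * h0 * (x * (1 - x)) = 2 * (n15 T u b x)) (hA1 : 0 ≤ n2222 T u b x) (hA2 : 0 ≤ n2224 T u b x) (hr : 0 ≤ n2156 T u b x)
    (hP : 0 < n2247 T u b x) (hQ : 0 < n2266 T u b x)
    (tN : 0 < -(n2307 T u b x) ∨ 0 < -(n2286 T u b x) ∨ 0 < n2311 T u b x) (tM : 0 < n2307 T u b x ∨ 0 < -(n2302 T u b x) ∨ 0 < n2313 T u b x)
    (t1 : tau (h0 * (n3 T u b x)) = h0 * τ1) (t3 : tau (h0 * (n3 T u b x) + (h0 + h0 * b)) = h0 * τ3) :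
    NGV κ (h0 * x) ((n2150 T u b x) + b * (n2241 T u b x)) (h0 * (n3 T u b x)) (h0 + h0 * b)
      ((n730 T u b x) * τ1, -(n2245 T u b x), (n739 T u b x) * τ3) := by
  have eNT : n2311 T u b x = u ^ 2 * ((n2222 T u b x) * (n2156 T u b x)) + b * (n2286 T u b x) := by
    simp only [n2311, n2231, n298]
    all_goals ring
  have eMT : n2313 T u b x = u ^ 2 * ((n2224 T u b x) * ((1 - (n3 T u b x)) * (n2156 T u b x))) + b * (n2302 T u b x) := by
    simp only [n2313, n2235, n2184, n298, n169]
    all_goals ring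
  rw [eNT] at tN
  rw [eMT] at tM
  refine chA_neg (κ := κ) (x := x) (e := n15 T u b x) (y := n3 T u b x) (β := b) (K1 := n730 T u b x) (K10 := n728 T u b x) (K11 := n729 T u b x)
    (K30 := n737 T u b x) (K31 := n738 T u b x) (K3 := n739 T u b x) (ρ0 := n2156 T u b x) (ρ1 := n2244 T u b x) (ρ := n2245 T u b x) (E0 := n2150 T u b x) (E1 := n2241 T u b x) (P := n2247 T u b x)
    (R := n2255 T u b x) (Q := n2266 T u b x) (P0 := n2161 T u b x) (P1 := n2250 T u b x) (R1 := n2253 T u b x) (Q1 := n2264 T u b x) (A1 := n2222 T u b x) (A2 := n2224 T u b x)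
    (N1 := n2286 T u b x) (M1 := n2302 T u b x) (u := u) (wd := n2307 T u b x) (τ1 := τ1) (τ3 := τ3) h.x0 h.x1 hκ hb (by linarith [h.b0]) h.p0 h.y1
    (J85 T (u := u) (b := b) (x := x) h) (J89 T (u := u) (b := b) (x := x))
    (J158 T (u := u) (b := b) (x := x)) ?_ ?_ ?_ ?_ ?_ ?_ ?_ hP hQ ?_ ?_ (val3A T h) hA1 hA2 hr ?_
    tN tM t1 t3
  · simp only [n2247, n751, n749, n172, n169]
    all_goals ring
  · simp only [n2253, n879, n749, n169, n30]
    all_goals ring
  · simp only [n2255]
    all_goals ring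
  · simp only [n2266, n30]
    all_goals ring
  · simp only [n2161, n754, n169]
    all_goals ring
  · simp only [n2250, n759, n757, n169]
    all_goals ring
  · simp only [n2264, n2257]
    all_goals ring
  · simp only [n2286, n2272, n2260, n2257, n2256, n2255, n2185, n2184, n2183, n316, n315, n205, n169]
    unfold mol
    ring
  · simp only [n2302, n2288, n2267, n2260, n2255, n2204, n2203, n2202, n2184, n2183, n224, n205, n169]
    unfold mol
    ring
  · simp only [n2307, n30]
    all_goals ring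

theorem ch3Bp (T : MolP) {u b x κ τ1 τ3 : ℝ} (h : DomB u b x) (hb : 0 ≤ b)
    (hκ : κ * h0 * (x * (1 - x)) = 2 * (n15 T u b x)) (hA1 : 0 ≤ n2222 T u b x) (hA2 : 0 ≤ n2224 T u b x) (hr : 0 ≤ n2156 T u b x)
    (hP : 0 < n2330 T u b x) (hQ : 0 < n2350 T u b x)
    (tN : 0 < -(n2395 T u b x) ∨ 0 < n2372 T u b x ∨ 0 < n2397 T u b x) (tM : 0 < n2395 T u b x ∨ 0 < n2390 T u b x ∨ 0 < n2399 T u b x)
    (t1 : tau (h0 * (n3 T u b x)) = h0 * τ1) (t3 : tau (h0 + h0 * b - h0 * (n3 T u b x)) = h0 * τ3) :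
    NGV κ (h0 * x) ((n2150 T u b x) + b * (n2324 T u b x)) (h0 * (n3 T u b x)) (h0 + h0 * b - h0 * (n3 T u b x))
      ((n730 T u b x) * τ1, (n1044 T u b x) * τ3, -(n2328 T u b x)) := by
  have eNT : n2397 T u b x = u ^ 2 * ((n2222 T u b x) * (n2156 T u b x)) + b * (n2372 T u b x) := by
    simp only [n2397, n2231, n298]
    all_goals ring
  have eMT : n2399 T u b x = u ^ 2 * ((n2224 T u b x) * ((1 - (n3 T u b x)) * (n2156 T u b x))) + b * (n2390 T u b x) := by
    simp only [n2399, n2235, n2184, n298, n169]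
    all_goals ring
  rw [eNT] at tN
  rw [eMT] at tM
  refine chB_nonneg (κ := κ) (x := x) (e := n15 T u b x) (y := n3 T u b x) (β := b) (K1 := n730 T u b x) (K10 := n728 T u b x) (K11 := n729 T u b x)
    (K30 := n1042 T u b x) (K31 := n1043 T u b x) (K3 := n1044 T u b x) (ρ0 := n2156 T u b x) (ρ1 := n2327 T u b x) (ρ := n2328 T u b x) (E0 := n2150 T u b x) (E1 := n2324 T u b x) (P := n2330 T u b x)
    (R := n2339 T u b x) (Q := n2350 T u b x) (P0 := n2331 T u b x) (P1 := n2334 T u b x) (R1 := n2337 T u b x) (Q1 := n2348 T u b x) (A1 := n2222 T u b x) (A2 := n2224 T u b x)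
    (N1 := n2372 T u b x) (M1 := n2390 T u b x) (u := u) (wd := n2395 T u b x) (τ1 := τ1) (τ3 := τ3) h.x0 h.x1 hκ hb (by linarith [h.b1]) h.p0 h.y1
    (J129 T (u := u) (b := b) (x := x) h) (J89 T (u := u) (b := b) (x := x))
    (J160 T (u := u) (b := b) (x := x)) ?_ ?_ ?_ ?_ ?_ ?_ ?_ hP hQ ?_ ?_ (val3B T h) hA1 hA2 hr ?_
    tN tM t1 t3
  · simp only [n2330, n1046, n749, n460, n169]
    all_goals ring
  · simp only [n2337, n1055, n749, n372, n169]
    all_goals ring
  · simp only [n2339]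
    all_goals ring
  · simp only [n2350, n372]
    all_goals ring
  · simp only [n2331, n1049, n169]
    all_goals ring
  · simp only [n2334, n1051, n759, n169]
    all_goals ring
  · simp only [n2348, n2341]
    all_goals ring
  · simp only [n2372, n2358, n2356, n2355, n2344, n2341, n2340, n2339, n2184, n477, n315, n205, n169]
    unfold mol
    ring
  · simp only [n2390, n2376, n2374, n2373, n2355, n2351, n2344, n2339, n2203, n2184, n224, n205, n169]
    unfold mol
    ring
  · simp only [n2395, n372]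
    all_goals ring

theorem ch3Bm (T : MolP) {u b x κ τ1 τ3 : ℝ} (h : DomB u b x) (hb : b < 0)
    (hκ : κ * h0 * (x * (1 - x)) = 2 * (n15 T u b x)) (hA1 : 0 ≤ n2222 T u b x) (hA2 : 0 ≤ n2224 T u b x) (hr : 0 ≤ n2156 T u b x)
    (hP : 0 < n2409 T u b x) (hQ : 0 < n2426 T u b x)
    (tN : 0 < -(n2469 T u b x) ∨ 0 < -(n2448 T u b x) ∨ 0 < n2473 T u b x) (tM : 0 < n2469 T u b x ∨ 0 < -(n2464 T u b x) ∨ 0 < n2475 T u b x)
    (t1 : tau (h0 * (n3 T u b x)) = h0 * τ1) (t3 : tau (h0 + h0 * b - h0 * (n3 T u b x)) = h0 * τ3) :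
    NGV κ (h0 * x) ((n2150 T u b x) + b * (n2403 T u b x)) (h0 * (n3 T u b x)) (h0 + h0 * b - h0 * (n3 T u b x))
      ((n730 T u b x) * τ1, (n1044 T u b x) * τ3, -(n2407 T u b x)) := by
  have eNT : n2473 T u b x = u ^ 2 * ((n2222 T u b x) * (n2156 T u b x)) + b * (n2448 T u b x) := by
    simp only [n2473, n2231, n298]
    all_goals ring
  have eMT : n2475 T u b x = u ^ 2 * ((n2224 T u b x) * ((1 - (n3 T u b x)) * (n2156 T u b x))) + b * (n2464 T u b x) := by
    simp only [n2475, n2235, n2184, n298, n169]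
    all_goals ring
  rw [eNT] at tN
  rw [eMT] at tM
  have hyb : n3 T u b x < 1 + b := by
    have := h.p1
    simp only [n3]
    linarith
  refine chB_neg (κ := κ) (x := x) (e := n15 T u b x) (y := n3 T u b x) (β := b) (K1 := n730 T u b x) (K10 := n728 T u b x) (K11 := n729 T u b x)
    (K30 := n1042 T u b x) (K31 := n1043 T u b x) (K3 := n1044 T u b x) (ρ0 := n2156 T u b x) (ρ1 := n2406 T u b x) (ρ := n2407 T u b x) (E0 := n2150 T u b x) (E1 := n2403 T u b x) (P := n2409 T u b x)
    (R := n2417 T u b x) (Q := n2426 T u b x) (P0 := n2331 T u b x) (P1 := n2412 T u b x) (R1 := n2415 T u b x) (Q1 := n2424 T u b x) (A1 := n2222 T u b x) (A2 := n2224 T u b x)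
    (N1 := n2448 T u b x) (M1 := n2464 T u b x) (u := u) (wd := n2469 T u b x) (τ1 := τ1) (τ3 := τ3) h.x0 h.x1 hκ hb (by linarith [h.b0]) hyb h.y0 h.y1
    (J129 T (u := u) (b := b) (x := x) h) (J89 T (u := u) (b := b) (x := x))
    (J162 T (u := u) (b := b) (x := x)) ?_ ?_ ?_ ?_ ?_ ?_ ?_ hP hQ ?_ ?_ (val3B T h) hA1 hA2 hr ?_
    tN tM t1 t3
  · simp only [n2409, n1046, n749, n460, n169]
    all_goals ring
  · simp only [n2415, n1046, n761, n460, n169]
    all_goals ring
  · simp only [n2417]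
    all_goals ring
  · simp only [n2426]
    all_goals ring
  · simp only [n2331, n1049, n169]
    all_goals ring
  · simp only [n2412, n1051, n759, n169]
    all_goals ring
  · simp only [n2424]
    all_goals ring
  · simp only [n2448, n2434, n2421, n2418, n2417, n2356, n2355, n2184, n205, n169]
    unfold mol
    ring
  · simp only [n2464, n2450, n2428, n2421, n2417, n2374, n2373, n2355, n2203, n2184, n224, n205, n169]
    unfold mol
    ring
  · simp only [n2469]
    all_goals ring

end Pool.Agent.Strip051.LC.MolN
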