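import Pool.Agent.Strip051.LC.Exact.MolN7

/-! # The tight triangles: the two quantities in the arrangement of the boxes, negative difference
(generated) -/

set_option linter.unusedVariables false

namespace Pool.Agent.Strip051.LC.MolN

open Pool.Agent.Strip051.LC

theorem imN3Ap (T : MolP) {u b x : ℝ} :
    (n205 T u b x) * ((n2153 T u b x) * (n2169 T u b x + (b) * (n2160 T u b x)) + (n2150 T u b x) * (n2170 T u b x)) - (n15 T u b x) * ((n2164 T u b x) * ((u) * (n2169 T u b x) + (b) * (n2177 T u b x)) + (n2178 T u b x) * (n2169 T u b x + (b) * (n2160 T u b x)) + (n2161 T u b x) * ((u) * (n2167 T u b x) + n2177 T u b x) + (n2184 T u b x) * (n2170 T u b x)) =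
      n2201 T u b x := by
  simp only [n2201, n2187, n2185, n2184, n2183, n2178, n2177, n2173, n2170, n2169, n205, n169, n3]
  all_goals ring

theorem imM3Ap (T : MolP) {u b x : ℝ} :
    (x) * ((n2153 T u b x) * ((n169 T u b x) * (n2169 T u b x) - (b) * (n2177 T u b x)) + (n2150 T u b x) * (n2178 T u b x)) - (n15 T u b x) * ((n2177 T u b x + (n3 T u b x) * (n2167 T u b x)) * ((n169 T u b x) * (n2169 T u b x) - (b) * (n2177 T u b x)) - (n2176 T u b x) * ((u) * (n2169 T u b x) + (b) * (n2177 T u b x)) - (n2202 T u b x) * ((u) * (n2167 T u b x) + n2177 T u b x) + (n2203 T u b x) * (n2178 T u b x)) =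
      n2220 T u b x := by
  simp only [n2220, n2206, n2204, n2203, n2202, n2184, n2183, n2178, n2177, n2173, n2169, n224, n205, n169, n3]
  all_goals ring

theorem imW3Ap (T : MolP) {u b x : ℝ} :
    (u) * (n2169 T u b x) + (b) * (n2177 T u b x) =
      n2229 T u b x := by
  simp only [n2229, n2177, n2169, n3]
  all_goals ring

theorem imN3Am (T : MolP) {u b x : ℝ} :
    (n205 T u b x) * ((n2241 T u b x) * (n2255 T u b x - (b) * (n2247 T u b x)) + (n2150 T u b x) * (n2256 T u b x)) - (n15 T u b x) * ((n2250 T u b x) * ((u) * (n2255 T u b x) - (b) * ((n3 T u b x) * (n2247 T u b x))) + ((1 + n30 T u b x) * (n2247 T u b x) + n2260 T u b x - n2255 T u b x) * (n2255 T u b x - (b) * (n2247 T u b x)) + (n2161 T u b x) * ((u) * (n2253 T u b x) - (n3 T u b x) * (n2247 T u b x)) + (n2184 T u b x) * (n2256 T u b x)) =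
      n2286 T u b x := by
  simp only [n2286, n2272, n2260, n2257, n2256, n2255, n2185, n2184, n2183, n316, n315, n205, n169, n30, n3]
  all_goals ring

theorem imM3Am (T : MolP) {u b x : ℝ} :
    (x) * ((n2241 T u b x) * ((n169 T u b x) * (n2255 T u b x) - (b) * (n2266 T u b x)) + (n2150 T u b x) * (n2267 T u b x)) - (n15 T u b x) * ((n2266 T u b x + (n3 T u b x) * (n2253 T u b x)) * ((n169 T u b x) * (n2255 T u b x) - (b) * (n2266 T u b x)) - (n2264 T u b x) * ((u) * (n2255 T u b x) + (b) * (n2266 T u b x)) - (n2202 T u b x) * ((u) * (n2253 T u b x) + n2266 T u b x) + (n2203 T u b x) * (n2267 T u b x)) =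
      n2302 T u b x := by
  simp only [n2302, n2288, n2267, n2266, n2260, n2255, n2204, n2203, n2202, n2184, n2183, n224, n205, n169, n30, n3]
  all_goals ring

theorem imW3Am (T : MolP) {u b x : ℝ} :
    (u) * (n2255 T u b x) - (b) * ((n3 T u b x) * (n2247 T u b x)) + (b) * (n2255 T u b x - (b) * (n2247 T u b x)) =
      n2307 T u b x := by
  simp only [n2307, n2255, n30, n3]
  all_goals ring

theorem imN3Bp (T : MolP) {u b x : ℝ} :
    (n205 T u b x) * ((n2324 T u b x) * (n2339 T u b x + (b) * (n2330 T u b x)) + (n2150 T u b x) * (n2340 T u b x)) - (n15 T u b x) * ((n2334 T u b x) * ((u) * (n2339 T u b x) + (b) * ((n3 T u b x) * (n2330 T u b x))) + (n2344 T u b x + n2339 T u b x - (1 + n372 T u b x) * (n2330 T u b x)) * (n2339 T u b x + (b) * (n2330 T u b x)) + (n2331 T u b x) * ((u) * (n2337 T u b x) + (n3 T u b x) * (n2330 T u b x)) + (n2184 T u b x) * (n2340 T u b x)) =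
      n2372 T u b x := by
  simp only [n2372, n2358, n2356, n2355, n2344, n2341, n2340, n2339, n2184, n477, n372, n315, n205, n169, n3]
  all_goals ring

theorem imM3Bp (T : MolP) {u b x : ℝ} :
    (x) * ((n2324 T u b x) * ((n169 T u b x) * (n2339 T u b x) + (b) * (n2350 T u b x)) + (n2150 T u b x) * (n2351 T u b x)) - (n15 T u b x) * (((n3 T u b x) * (n2337 T u b x) - n2350 T u b x) * ((n169 T u b x) * (n2339 T u b x) + (b) * (n2350 T u b x)) - (n2348 T u b x) * ((u) * (n2339 T u b x) - (b) * (n2350 T u b x)) - (n2373 T u b x) * ((u) * (n2337 T u b x) - n2350 T u b x) + (n2203 T u b x) * (n2351 T u b x)) =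
      n2390 T u b x := by
  simp only [n2390, n2376, n2374, n2373, n2355, n2351, n2350, n2344, n2339, n2203, n2184, n372, n224, n205, n169, n3]
  all_goals ring

theorem imW3Bp (T : MolP) {u b x : ℝ} :
    (u) * (n2339 T u b x) + (b) * ((n3 T u b x) * (n2330 T u b x)) - (b) * (n2339 T u b x + (b) * (n2330 T u b x)) =
      n2395 T u b x := by
  simp only [n2395, n2339, n372, n3]
  all_goals ring

theorem imN3Bm (T : MolP) {u b x : ℝ} :
    (n205 T u b x) * ((n2403 T u b x) * (n2417 T u b x - (b) * (n2409 T u b x)) + (n2150 T u b x) * (n2418 T u b x)) - (n15 T u b x) * ((n2412 T u b x) * ((u) * (n2417 T u b x) - (b) * ((n3 T u b x) * (n2409 T u b x))) + ((n3 T u b x) * (n2409 T u b x) + n2421 T u b x) * (n2417 T u b x - (b) * (n2409 T u b x)) + (n2331 T u b x) * ((u) * (n2415 T u b x) - (n3 T u b x) * (n2409 T u b x)) + (n2184 T u b x) * (n2418 T u b x)) =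
      n2448 T u b x := by
  simp only [n2448, n2434, n2421, n2418, n2417, n2356, n2355, n2184, n205, n169, n3]
  all_goals ring

theorem imM3Bm (T : MolP) {u b x : ℝ} :
    (x) * ((n2403 T u b x) * ((n169 T u b x) * (n2417 T u b x) - (b) * (n2426 T u b x - n2417 T u b x)) + (n2150 T u b x) * (n2421 T u b x - (n2426 T u b x - n2417 T u b x))) - (n15 T u b x) * ((n2426 T u b x + (n3 T u b x) * (n2415 T u b x) - n2417 T u b x) * ((n169 T u b x) * (n2417 T u b x) - (b) * (n2426 T u b x - n2417 T u b x)) - (n2424 T u b x) * ((u) * (n2417 T u b x) + (b) * (n2426 T u b x - n2417 T u b x)) - (n2373 T u b x) * ((u) * (n2415 T u b x) + (n2426 T u b x - n2417 T u b x)) + (n2203 T u b x) * (n2421 T u b x - (n2426 T u b x - n2417 T u b x))) =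
      n2464 T u b x := by
  simp only [n2464, n2450, n2428, n2426, n2421, n2417, n2374, n2373, n2355, n2203, n2184, n224, n205, n169, n3]
  all_goals ring

theorem imW3Bm (T : MolP) {u b x : ℝ} :
    (u) * (n2417 T u b x) - (b) * ((n3 T u b x) * (n2409 T u b x)) =
      n2469 T u b x := by
  simp only [n2469, n2417, n3]
  all_goals ring

end Pool.Agent.Strip051.LC.MolN
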