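import Pool.Agent.Strip051.LC.Exact.Mol

/-! # The triangles near a tight triangle, without an order of the two smaller values

The potential is largest at one node; the two other nodes may have any order.  Three inequalities:
the level cuts the two arcs at the top, or the two arcs at the lowest node. -/

namespace Pool.Agent.Strip051.LC

open Pool.Agent.StripNear Pool.Agent.StripSquare Pool.Agent.Strip051.Sweep
open Pool.Agent.Strip051.LC.Line (Mo MoN MoW jn tau pot phi_comm phi_neg_pos phi_pos_neg
  phi_nonneg_nonneg phi_nonpos_nonpos)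

variable {κ s ex l1 l2 l3 p r W1 W2 W3 t b k1 k3 ρ : ℝ}

/-- The level cuts the two arcs at the top. -/
theorem Mo.topG (hs : 0 < s) (hl : l1 + l2 + l3 = h0)
    (hz : l1 * (W1 + W2) + l2 * (W2 + W3) + l3 * (W3 + W1) = 0) (h12 : W1 < W2) (h31 : W3 < W2)
    (hw : s * (W2 - W3) ≤ l1 * (W2 - W3) + l2 * (W2 - W1))
    (hv : s * (W2 - W1) ≤ l1 * (W2 - W3) + l2 * (W2 - W1))
    (hN : κ * s * (((h0 - l2) * (W2 - W1) + (h0 - l1) * (W2 - W3)) *
      (l1 * (W2 - W3) + l2 * (W2 - W1)) - h0 * s * ((W2 - W1) * (W2 - W3))) ≤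
      2 * h0 * ex * (l1 * (W2 - W3) + l2 * (W2 - W1))) :
    Mo κ s ex l1 l2 l3 W1 W2 W3 := by
  have hp := h0_pos
  obtain ⟨p, ep⟩ : ∃ p, p = W2 - W1 := ⟨_, rfl⟩
  obtain ⟨r, er⟩ : ∃ r, r = W2 - W3 := ⟨_, rfl⟩
  rw [← ep, ← er] at hw hN hv
  have p0 : 0 < p := by linarith
  have hr0 : 0 < r := by linarith
  obtain ⟨D, hD⟩ : ∃ D, D = l1 * r + l2 * p := ⟨_, rfl⟩
  rw [← hD] at hw hN hv
  have D0 : 0 < D := lt_of_lt_of_le (mul_pos hs hr0) hw
  have e1 : W1 = W2 - p := by linarith
  have e3 : W3 = W2 - r := by linarith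
  have eW : 2 * h0 * W2 = (h0 - l2) * p + (h0 - l1) * r := by
    rw [e1, e3] at hz
    rw [← hl]
    linarith
  obtain ⟨δ, hδ⟩ : ∃ δ, δ = s * (p * r) / D := ⟨_, rfl⟩
  have eδ : δ * D = s * (p * r) := by
    rw [hδ]
    field_simp
  have δ0 : 0 ≤ δ := by
    rw [hδ]
    positivity
  have δp : δ ≤ p := by
    rw [hδ, div_le_iff₀ D0]
    nlinarith
  have δr : δ ≤ r := by
    rw [hδ, div_le_iff₀ D0]
    nlinarith
  refine ⟨W2 - δ, ?_⟩
  have f1 : Line.phi (W1 - (W2 - δ)) (W2 - (W2 - δ)) = δ ^ 2 / (2 * p) := by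
    rw [phi_neg_pos (by linarith) (by linarith)]
    congr 2
    · ring
    · linarith
  have f2 : Line.phi (W2 - (W2 - δ)) (W3 - (W2 - δ)) = δ ^ 2 / (2 * r) := by
    rw [phi_pos_neg (by linarith) (by linarith)]
    congr 2
    · ring
    · linarith
  have f3 : Line.phi (W3 - (W2 - δ)) (W1 - (W2 - δ)) = 0 :=
    phi_nonpos_nonpos (by linarith) (by linarith)
  rw [f1, f2, f3]
  have g1 : l1 * (δ ^ 2 / (2 * p)) + l2 * (δ ^ 2 / (2 * r)) = s * δ / 2 := by
    have : l1 * (δ ^ 2 / (2 * p)) + l2 * (δ ^ 2 / (2 * r)) = δ * (δ * D) / (2 * (p * r)) := by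
      rw [hD]
      field_simp
    rw [this, eδ]
    field_simp
  have g2 : κ * (l1 * (δ ^ 2 / (2 * p)) + l2 * (δ ^ 2 / (2 * r)) + l3 * 0 + (W2 - δ) * s) =
      κ * s * (W2 - δ / 2) := by
    rw [g1]
    ring
  rw [g2]
  have g3 : κ * s * (W2 - δ / 2) * (2 * h0 * D) ≤ ex * (2 * h0 * D) := by
    have : κ * s * (W2 - δ / 2) * (2 * h0 * D) =
        κ * s * ((2 * h0 * W2) * D - h0 * (δ * D)) := by ring
    rw [this, eW, eδ]
    linarith
  exact le_of_mul_le_mul_right g3 (by positivity)

/-- The two smaller values are equal. -/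
theorem Mo.botE (hs : s < h0) (hl : l1 + l2 + l3 = h0)
    (hz : l1 * (W1 + W2) + l2 * (W2 + W3) + l3 * (W3 + W1) = 0) (h12 : W1 < W2) (h31 : W3 = W1)
    (hw : l1 * (W2 - W3) + l2 * (W2 - W1) ≤ s * (W2 - W3))
    (hN : κ * (h0 - s) * (((h0 - l2) * (W1 - W3) + (h0 - l3) * (W2 - W3)) *
      (l3 * (W2 - W3) + l2 * (W1 - W3)) - h0 * (h0 - s) * ((W1 - W3) * (W2 - W3))) ≤
      2 * h0 * ex * (l3 * (W2 - W3) + l2 * (W1 - W3))) :
    Mo κ s ex l1 l2 l3 W1 W2 W3 := by
  subst h31
  have hp := h0_pos
  obtain ⟨r, er⟩ : ∃ r, r = W2 - W3 := ⟨_, rfl⟩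
  have r0 : 0 < r := by linarith
  rw [← er] at hw hN
  have e2 : W2 = W3 + r := by linarith
  have l30 : 0 < l3 := by
    have : (h0 - s) * r ≤ l3 * r := by
      rw [← hl]
      linarith
    have := le_of_mul_le_mul_right this r0
    linarith
  have eW : -(2 * h0 * W3) = (h0 - l3) * r := by
    rw [e2] at hz
    rw [← hl]
    linarith
  refine ⟨W3, ?_⟩
  rw [sub_self, phi_nonneg_nonneg le_rfl (by linarith), phi_nonneg_nonneg (by linarith) le_rfl,
    phi_nonneg_nonneg le_rfl le_rfl]
  have h2 : κ * (h0 - s) * ((h0 - l3) * r) * (l3 * r) ≤ 2 * h0 * ex * (l3 * r) := by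
    rw [sub_self] at hN
    linarith
  have h3 := le_of_mul_le_mul_right h2 (by positivity)
  rw [← eW] at h3
  have h4 : κ * (h0 - s) * -W3 ≤ ex := by
    have : κ * (h0 - s) * -W3 * (2 * h0) ≤ ex * (2 * h0) := by linarith
    exact le_of_mul_le_mul_right this (by positivity)
  have h5 : l1 * ((0 + (W2 - W3)) / 2) + l2 * ((W2 - W3 + 0) / 2) + l3 * ((0 + 0) / 2) + W3 * s =
      (h0 - s) * -W3 := by
    have a4 : l1 = h0 - l2 - l3 := by linarith
    rw [a4, ← er]
    linear_combination -(1 / 2) * eW
  rw [h5]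
  linarith

/-- The inequality with two arcs `l1`, `l2` at the top; `p` is the difference between the top and
the first node, `r` the difference between the top and the third node. -/
structure StG (κ s ex l1 l2 l3 p r : ℝ) : Prop where
  p0 : 0 < p
  r0 : 0 < r
  N : s * r ≤ l1 * r + l2 * p → s * p ≤ l1 * r + l2 * p →
    κ * s * (((h0 - l2) * p + (h0 - l1) * r) * (l1 * r + l2 * p) - h0 * s * (p * r)) ≤
      2 * h0 * ex * (l1 * r + l2 * p)
  M : p ≤ r → l1 * r + l2 * p ≤ s * r →
    κ * (h0 - s) * (((h0 - l2) * (r - p) + (h0 - l3) * r) * (l3 * r + l2 * (r - p)) -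
      h0 * (h0 - s) * ((r - p) * r)) ≤ 2 * h0 * ex * (l3 * r + l2 * (r - p))
  M' : r ≤ p → l1 * r + l2 * p ≤ s * p →
    κ * (h0 - s) * (((h0 - l1) * (p - r) + (h0 - l3) * p) * (l3 * p + l1 * (p - r)) -
      h0 * (h0 - s) * ((p - r) * p)) ≤ 2 * h0 * ex * (l3 * p + l1 * (p - r))

theorem StG.mo (h : StG κ s ex l1 l2 l3 p r) (hs : 0 < s) (hs1 : s < h0)
    (hl : l1 + l2 + l3 = h0)
    (hz : l1 * (W1 + W2) + l2 * (W2 + W3) + l3 * (W3 + W1) = 0) (e1 : W2 - W1 = p)
    (e2 : W2 - W3 = r) : Mo κ s ex l1 l2 l3 W1 W2 W3 := by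
  obtain ⟨h1, h2, h3, h4, h5⟩ := h
  have e3 : W1 - W3 = r - p := by linarith
  have e4 : W3 - W1 = p - r := by linarith
  rcases le_total p r with hpr | hpr
  · have hsr : s * p ≤ s * r := mul_le_mul_of_nonneg_left hpr hs.le
    rcases le_total (s * r) (l1 * r + l2 * p) with h | h
    · refine Mo.topG hs hl hz (by linarith) (by linarith) ?_ ?_ ?_
      · rw [e1, e2]
        exact h
      · rw [e1, e2]
        linarith
      · rw [e1, e2]
        exact h3 h (by linarith)
    · have k := h4 hpr h
      rcases hpr.lt_or_eq with hlt | heq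
      · refine Mo.bot hs1 hl hz (by linarith) (by linarith) ?_ ?_
        · rw [e1, e2]
          exact h
        · rw [e2, e3]
          exact k
      · refine Mo.botE hs1 hl hz (by linarith) (by linarith) ?_ ?_
        · rw [e1, e2]
          exact h
        · rw [e2, e3]
          exact k
  · have hsr : s * r ≤ s * p := mul_le_mul_of_nonneg_left hpr hs.le
    have hl' : l2 + l1 + l3 = h0 := by linarith
    have hz' : l2 * (W3 + W2) + l1 * (W2 + W1) + l3 * (W1 + W3) = 0 := by linarith
    rcases le_total (s * p) (l1 * r + l2 * p) with h | h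
    · refine Mo.topG hs hl hz (by linarith) (by linarith) ?_ ?_ ?_
      · rw [e1, e2]
        linarith
      · rw [e1, e2]
        exact h
      · rw [e1, e2]
        exact h3 (by linarith) h
    · have k := h5 hpr h
      rcases hpr.lt_or_eq with hlt | heq
      · refine (Mo.bot hs1 hl' hz' (by linarith) (by linarith) ?_ ?_).refl
        · rw [e1, e2]
          linarith
        · rw [e1, e4]
          exact k
      · refine (Mo.botE hs1 hl' hz' (by linarith) (by linarith) ?_ ?_).refl
        · rw [e1, e2]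
          linarith
        · rw [e1, e4]
          exact k

/-- The three arcs in the order middle, top, bottom. -/
theorem StG.mo' (h : StG κ s ex l1 l2 l3 p r) (hs : 0 < s) (hs1 : s < h0)
    (hl : l1 + l2 + l3 = h0)
    (hz : l1 * (W1 + W2) + l2 * (W2 + W3) + l3 * (W3 + W1) = 0) (e1 : W2 - W1 = p)
    (e2 : W2 - W3 = r) : Mo κ s ex l2 l3 l1 W2 W3 W1 := (h.mo hs hs1 hl hz e1 e2).rot

/-- The three arcs in the order bottom, top, middle. -/
theorem StG.moB (h : StG κ s ex l1 l2 l3 p r) (hs : 0 < s) (hs1 : s < h0)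
    (hl : l1 + l2 + l3 = h0)
    (hz : l2 * (W1 + W2) + l1 * (W2 + W3) + l3 * (W3 + W1) = 0) (e1 : W2 - W3 = p)
    (e2 : W2 - W1 = r) : Mo κ s ex l2 l1 l3 W1 W2 W3 :=
  (h.mo (W1 := W3) (W2 := W2) (W3 := W1) hs hs1 hl (by linarith) e1 e2).refl

/-- The three arcs in the order top, middle, bottom. -/
theorem StG.moC (h : StG κ s ex l1 l2 l3 p r) (hs : 0 < s) (hs1 : s < h0)
    (hl : l1 + l2 + l3 = h0)
    (hz : l1 * (W1 + W2) + l3 * (W2 + W3) + l2 * (W3 + W1) = 0) (e1 : W1 - W2 = p)
    (e2 : W1 - W3 = r) : Mo κ s ex l1 l3 l2 W1 W2 W3 :=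
  (h.mo (W1 := W2) (W2 := W1) (W3 := W3) hs hs1 hl (by linarith) e1 e2).refl.rot

/-- The three arcs in the order middle, bottom, top. -/
theorem StG.moD (h : StG κ s ex l1 l2 l3 p r) (hs : 0 < s) (hs1 : s < h0)
    (hl : l1 + l2 + l3 = h0)
    (hz : l3 * (W1 + W2) + l2 * (W2 + W3) + l1 * (W3 + W1) = 0) (e1 : W3 - W1 = p)
    (e2 : W3 - W2 = r) : Mo κ s ex l3 l2 l1 W1 W2 W3 :=
  (h.mo (W1 := W1) (W2 := W3) (W3 := W2) hs hs1 hl (by linarith) e1 e2).refl.rot.rot

/-- **Family `A`, the edge of height about `h0` is at least `h0` high.** -/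
theorem gngvA_nonneg (hs : 0 < s) (hs1 : s < h0) (ht : 0 < t) (hb : 0 ≤ b) (hb1 : b < h0 / 2)
    (htb : t + b < h0)
    (hS : StG κ s ex t b (h0 - t - b)
      (t * (ρ + (h0 - t) * k1 - (h0 - t - b) * k3) / h0)
      (ρ + b * (t * k1 - ρ + (h0 - t - b) * k3) / h0)) :
    NGV κ s ex t (h0 + b) (k1 * tau t, -ρ, k3 * tau (t + (h0 + b))) := by
  have hp := h0_pos
  have j2 : jn (h0 + b) = 1 := jn_mid (by linarith) (by linarith)
  have t2 : tau (h0 + b) = b := by
    rw [tau_mid (by linarith) (by linarith)]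
    ring
  rcases lt_or_ge t (h0 / 2) with h1 | h1
  · have j1 : jn t = 0 := jn_lo h1
    have t1 : tau t = t := tau_lo h1
    rcases lt_or_ge (t + b) (h0 / 2) with h3 | h3
    · have j3 : jn (t + (h0 + b)) = 1 := jn_mid (by linarith) (by linarith)
      have t3 : tau (t + (h0 + b)) = t + b := by
        rw [tau_mid (by linarith) (by linarith)]
        ring
      rw [t1, t3]
      refine .pp (by rw [j1, j2, j3]) (by rw [t1]; exact ht.le) (by rw [t2]; exact hb) ?_
      rw [t1, t2]
      unfold MoN
      simp only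
      have htb0 : t + b ≠ 0 := by linarith
      refine hS.mo hs hs1 (by ring) ?_ ?_ ?_
      · field_simp
        ring
      · field_simp
        ring
      · field_simp
        ring
    · have j3 : jn (t + (h0 + b)) = 2 := jn_hi (by linarith)
      have t3 : tau (t + (h0 + b)) = t + b - h0 := by
        rw [tau_hi (by linarith)]
        ring
      rw [t1, t3]
      refine .up (by rw [j1, j2, j3]) ?_
      rw [t1, t2, t3]
      unfold MoW
      simp only
      have := hS.mo (W1 := pot h0 (-(k1 * t)) ρ (k3 * (t + b - h0)) t b (h0 - t - b))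
        (W2 := pot h0 ρ (k3 * (t + b - h0)) (-(k1 * t)) b (h0 - t - b) t)
        (W3 := pot h0 (k3 * (t + b - h0)) (-(k1 * t)) ρ (h0 - t - b) t b) hs hs1 (by ring)
        (by unfold pot; field_simp; ring) (by unfold pot; field_simp; ring)
        (by unfold pot; field_simp; ring)
      rw [neg_neg, show -(t + b - h0) = h0 - t - b by ring]
      exact this
  · have j1 : jn t = 1 := jn_mid h1 (by linarith)
    have t1 : tau t = t - h0 := tau_mid h1 (by linarith)
    have j3 : jn (t + (h0 + b)) = 2 := jn_hi (by linarith)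
    have t3 : tau (t + (h0 + b)) = t + b - h0 := by
      rw [tau_hi (by linarith)]
      ring
    rw [t1, t3]
    refine .npn (by rw [j1, j2, j3]) (by rw [t1]; linarith) (by rw [t2]; exact hb)
      (by rw [t3]; linarith) ?_
    rw [t2, t3]
    unfold MoN
    simp only
    have e0 : b + -(t + b - h0) ≠ 0 := by
      have : b + -(t + b - h0) = h0 - t := by ring
      rw [this]
      linarith
    have := hS.mo (W1 := (ρ * -1 * (h0 - b - 2 * -(t + b - h0)) -
        (k3 * (t + b - h0)) * (h0 - -(t + b - h0)) + (k1 * (t - h0)) *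
          (h0 - b - -(t + b - h0))) / (2 * h0))
      (W2 := (ρ * (h0 - b) + (k3 * (t + b - h0)) * (h0 - 2 * b - -(t + b - h0)) -
        (k1 * (t - h0)) * (h0 - b - -(t + b - h0))) / (2 * h0))
      (W3 := (-ρ * (h0 - b) + (k3 * (t + b - h0)) * (h0 - -(t + b - h0)) +
        (k1 * (t - h0)) * (b - -(t + b - h0)) / (b + -(t + b - h0)) *
          (h0 - b - -(t + b - h0))) / (2 * h0)) hs hs1 (by ring)
      (by field_simp; ring) (by field_simp; ring) (by field_simp; ring)
    have k := this.rot
    convert k using 1 <;> ring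

/-- **Family `A`, the edge of height about `h0` is less than `h0` high.** -/
theorem gngvA_neg (hs : 0 < s) (hs1 : s < h0) (ht1 : t < h0) (hb : b < 0)
    (hb1 : -(h0 / 2) ≤ b) (htb : 0 < t + b)
    (hS : StG κ s ex (t + b) (-b) (h0 - t)
      ((t + b) * (ρ + (h0 - t) * k1 - (h0 - t - b) * k3) / h0)
      (ρ + b * ((h0 - t) * k1 + (t + b) * k3 + ρ) / h0)) :
    NGV κ s ex t (h0 + b) (k1 * tau t, -ρ, k3 * tau (t + (h0 + b))) := by
  have hp := h0_pos
  have j2 : jn (h0 + b) = 1 := jn_mid (by linarith) (by linarith)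
  have t2 : tau (h0 + b) = b := by
    rw [tau_mid (by linarith) (by linarith)]
    ring
  rcases lt_or_ge t (h0 / 2) with h1 | h1
  · have j1 : jn t = 0 := jn_lo h1
    have t1 : tau t = t := tau_lo h1
    have j3 : jn (t + (h0 + b)) = 1 := jn_mid (by linarith) (by linarith)
    have t3 : tau (t + (h0 + b)) = t + b := by
      rw [tau_mid (by linarith) (by linarith)]
      ring
    have hS' : StG κ s ex (t + b) (-b) (h0 - (t + b) - -b)
      ((t + b) * (ρ + (h0 - t) * k1 - (h0 - t - b) * k3) / h0)
      (ρ + b * ((h0 - t) * k1 + (t + b) * k3 + ρ) / h0) := by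
      convert hS using 1
      ring
    rw [t1, t3]
    refine .pnp (by rw [j1, j2, j3]) (by rw [t1]; linarith) (by rw [t2]; exact hb.le)
      (by rw [t3]; exact htb.le) ?_
    rw [t3, t2]
    unfold MoN
    simp only
    have e0 : t + b + -b ≠ 0 := by
      have : t + b + -b = t := by ring
      rw [this]
      linarith
    refine hS'.mo hs hs1 (by ring) ?_ ?_ ?_
    · field_simp
      ring
    · field_simp
      ring
    · field_simp
      ring
  · have j1 : jn t = 1 := jn_mid h1 (by linarith)
    have t1 : tau t = t - h0 := tau_mid h1 (by linarith)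
    rcases lt_or_ge (t + b) (h0 / 2) with h3 | h3
    · have j3 : jn (t + (h0 + b)) = 1 := jn_mid (by linarith) (by linarith)
      have t3 : tau (t + (h0 + b)) = t + b := by
        rw [tau_mid (by linarith) (by linarith)]
        ring
      rw [t1, t3]
      refine .dn (by rw [j1, j2, j3]) ?_
      rw [t1, t2, t3]
      unfold MoW
      simp only
      rw [show -(t - h0) = h0 - t by ring]
      refine hS.mo hs hs1 (by ring) ?_ ?_ ?_
      · unfold pot
        field_simp
        ring
      · unfold pot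
        field_simp
        ring
      · unfold pot
        field_simp
        ring
    · have j3 : jn (t + (h0 + b)) = 2 := jn_hi (by linarith)
      have t3 : tau (t + (h0 + b)) = t + b - h0 := by
        rw [tau_hi (by linarith)]
        ring
      have hS' : StG κ s ex (h0 - -b - -(t - h0)) (-b) (-(t - h0))
        ((t + b) * (ρ + (h0 - t) * k1 - (h0 - t - b) * k3) / h0)
        (ρ + b * ((h0 - t) * k1 + (t + b) * k3 + ρ) / h0) := by
        convert hS using 1 <;> ring
      rw [t1, t3]
      refine .nn (by rw [j1, j2, j3]) (by rw [t1]; linarith) (by rw [t2]; exact hb.le) ?_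
      rw [t1, t2]
      unfold MoN
      simp only
      have e0 : -b + -(t - h0) ≠ 0 := by
        have : 0 < -b + -(t - h0) := by linarith
        exact this.ne'
      refine hS'.mo' hs hs1 (by ring) ?_ ?_ ?_
      · field_simp
        ring
      · field_simp
        ring
      · field_simp
        ring

/-- **Family `B`, the edge of height about `h0` is at least `h0` high.** -/
theorem gngvB_nonneg (hs : 0 < s) (hs1 : s < h0) (ht1 : t < h0) (hb : 0 ≤ b) (hb1 : b < h0 / 2)
    (htb : b < t)
    (hS : StG κ s ex (t - b) b (h0 - t)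
      ((t - b) * (ρ - (h0 - t) * k1 + (h0 - t + b) * k3) / h0)
      (ρ + b * ((h0 - t) * k1 + (t - b) * k3 - ρ) / h0)) :
    NGV κ s ex t (h0 + b - t) (k1 * tau t, k3 * tau (h0 + b - t), -ρ) := by
  have hp := h0_pos
  have e3 : t + (h0 + b - t) = h0 + b := by ring
  have j3 : jn (t + (h0 + b - t)) = 1 := by
    rw [e3]
    exact jn_mid (by linarith) (by linarith)
  have t3 : tau (t + (h0 + b - t)) = b := by
    rw [e3, tau_mid (by linarith) (by linarith)]
    ring
  rcases lt_or_ge t (h0 / 2) with h1 | h1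
  · have j1 : jn t = 0 := jn_lo h1
    have t1 : tau t = t := tau_lo h1
    have j2 : jn (h0 + b - t) = 1 := jn_mid (by linarith) (by linarith)
    have t2 : tau (h0 + b - t) = b - t := by
      rw [tau_mid (by linarith) (by linarith)]
      ring
    have hS' : StG κ s ex (-(b - t)) b (h0 - b - -(b - t))
      ((t - b) * (ρ - (h0 - t) * k1 + (h0 - t + b) * k3) / h0)
      (ρ + b * ((h0 - t) * k1 + (t - b) * k3 - ρ) / h0) := by
      convert hS using 1 <;> ring
    rw [t1, t2]
    refine .pnp (by rw [j1, j2, j3]) (by rw [t1]; linarith) (by rw [t2]; linarith)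
      (by rw [t3]; exact hb) ?_
    rw [t3, t2]
    unfold MoN
    simp only
    have e0 : b + -(b - t) ≠ 0 := by
      have : b + -(b - t) = t := by ring
      rw [this]
      linarith
    refine hS'.moB hs hs1 (by ring) ?_ ?_ ?_
    · field_simp
      ring
    · field_simp
      ring
    · field_simp
      ring
  · have j1 : jn t = 1 := jn_mid h1 (by linarith)
    have t1 : tau t = t - h0 := tau_mid h1 (by linarith)
    rcases le_or_gt (t - b) (h0 / 2) with h2 | h2
    · have j2 : jn (h0 + b - t) = 1 := jn_mid (by linarith) (by linarith)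
      have t2 : tau (h0 + b - t) = b - t := by
        rw [tau_mid (by linarith) (by linarith)]
        ring
      have hS' : StG κ s ex (-(b - t)) b (-(t - h0))
        ((t - b) * (ρ - (h0 - t) * k1 + (h0 - t + b) * k3) / h0)
        (ρ + b * ((h0 - t) * k1 + (t - b) * k3 - ρ) / h0) := by
        convert hS using 1 <;> ring
      rw [t1, t2]
      refine .dn (by rw [j1, j2, j3]) ?_
      rw [t1, t2, t3]
      unfold MoW
      simp only
      refine hS'.moB hs hs1 (by ring) ?_ ?_ ?_
      · unfold pot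
        field_simp
        ring
      · unfold pot
        field_simp
        ring
      · unfold pot
        field_simp
        ring
    · have j2 : jn (h0 + b - t) = 0 := jn_lo (by linarith)
      have t2 : tau (h0 + b - t) = h0 + b - t := tau_lo (by linarith)
      have hS' : StG κ s ex (h0 - -(t - h0) - b) b (-(t - h0))
        ((t - b) * (ρ - (h0 - t) * k1 + (h0 - t + b) * k3) / h0)
        (ρ + b * ((h0 - t) * k1 + (t - b) * k3 - ρ) / h0) := by
        convert hS using 1 <;> ring
      rw [t1, t2]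
      refine .npp (by rw [j1, j2, j3]) (by rw [t1]; linarith) (by rw [t2]; linarith)
        (by rw [t3]; exact hb) ?_
      rw [t1, t3]
      unfold MoN
      simp only
      have e0 : -(t - h0) + b ≠ 0 := by
        have : 0 < -(t - h0) + b := by linarith
        exact this.ne'
      refine hS'.moD hs hs1 (by ring) ?_ ?_ ?_
      · field_simp
        ring
      · field_simp
        ring
      · field_simp
        ring

/-- **Family `B`, the edge of height about `h0` is less than `h0` high.** -/
theorem gngvB_neg (hs : 0 < s) (hs1 : s < h0) (ht : 0 < t) (hb : b < 0) (hb1 : -(h0 / 2) ≤ b)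
    (htb : t < h0 + b)
    (hS : StG κ s ex t (-b) (h0 - t + b)
      (t * (ρ - (h0 - t) * k1 + (h0 - t + b) * k3) / h0)
      (ρ + b * (t * k1 + (h0 - t + b) * k3 + ρ) / h0)) :
    NGV κ s ex t (h0 + b - t) (k1 * tau t, k3 * tau (h0 + b - t), -ρ) := by
  have hp := h0_pos
  have e3 : t + (h0 + b - t) = h0 + b := by ring
  have j3 : jn (t + (h0 + b - t)) = 1 := by
    rw [e3]
    exact jn_mid (by linarith) (by linarith)
  have t3 : tau (t + (h0 + b - t)) = b := by
    rw [e3, tau_mid (by linarith) (by linarith)]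
    ring
  rcases lt_or_ge t (h0 / 2) with h1 | h1
  · have j1 : jn t = 0 := jn_lo h1
    have t1 : tau t = t := tau_lo h1
    rcases le_or_gt (t - b) (h0 / 2) with h2 | h2
    · have j2 : jn (h0 + b - t) = 1 := jn_mid (by linarith) (by linarith)
      have t2 : tau (h0 + b - t) = b - t := by
        rw [tau_mid (by linarith) (by linarith)]
        ring
      have hS' : StG κ s ex t (-b) (h0 - -b - t)
        (t * (ρ - (h0 - t) * k1 + (h0 - t + b) * k3) / h0)
        (ρ + b * (t * k1 + (h0 - t + b) * k3 + ρ) / h0) := by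
        convert hS using 1
        ring
      rw [t1, t2]
      refine .pnn (by rw [j1, j2, j3]) (by rw [t1]; exact ht.le) (by rw [t2]; linarith)
        (by rw [t3]; exact hb.le) ?_
      rw [t1, t3]
      unfold MoN
      simp only
      have e0 : -b + t ≠ 0 := by
        have : 0 < -b + t := by linarith
        exact this.ne'
      refine hS'.moB hs hs1 (by ring) ?_ ?_ ?_
      · field_simp
        ring
      · field_simp
        ring
      · field_simp
        ring
    · have j2 : jn (h0 + b - t) = 0 := jn_lo (by linarith)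
      have t2 : tau (h0 + b - t) = h0 + b - t := tau_lo (by linarith)
      have hS' : StG κ s ex t (-b) (h0 + b - t)
        (t * (ρ - (h0 - t) * k1 + (h0 - t + b) * k3) / h0)
        (ρ + b * (t * k1 + (h0 - t + b) * k3 + ρ) / h0) := by
        convert hS using 1
        ring
      rw [t1, t2]
      refine .up (by rw [j1, j2, j3]) ?_
      rw [t1, t2, t3]
      unfold MoW
      simp only
      refine hS'.moC hs hs1 (by ring) ?_ ?_ ?_
      · unfold pot
        field_simp
        ring
      · unfold pot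
        field_simp
        ring
      · unfold pot
        field_simp
        ring
  · have j1 : jn t = 1 := jn_mid h1 (by linarith)
    have t1 : tau t = t - h0 := tau_mid h1 (by linarith)
    have j2 : jn (h0 + b - t) = 0 := jn_lo (by linarith)
    have t2 : tau (h0 + b - t) = h0 + b - t := tau_lo (by linarith)
    have hS' : StG κ s ex (h0 - (h0 + b - t) - -b) (-b) (h0 + b - t)
      (t * (ρ - (h0 - t) * k1 + (h0 - t + b) * k3) / h0)
      (ρ + b * (t * k1 + (h0 - t + b) * k3 + ρ) / h0) := by
      convert hS using 1 <;> ring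
    rw [t1, t2]
    refine .npn (by rw [j1, j2, j3]) (by rw [t1]; linarith) (by rw [t2]; linarith)
      (by rw [t3]; exact hb.le) ?_
    rw [t2, t3]
    unfold MoN
    simp only
    have e0 : h0 + b - t + -b ≠ 0 := by
      have : h0 + b - t + -b = h0 - t := by ring
      rw [this]
      linarith
    refine hS'.moD hs hs1 (by ring) ?_ ?_ ?_
    · field_simp
      ring
    · field_simp
      ring
    · field_simp
      ring

end Pool.Agent.Strip051.LC
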