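import Pool.Agent.Strip051.LC.Exact.MolR0

/-! # The triangles near a tight triangle, normalised, without division by the short height

`t` is the value of the potential against the top, `a` and `R` are the differences between the top
and the two other nodes, `ε` is the modulus divided by the height. -/

namespace Pool.Agent.Strip051.LC

open Pool.Agent.StripNear Pool.Agent.StripSquare Pool.Agent.Strip051.Sweep
open Pool.Agent.Strip051.LC.Line (Mo MoN MoW jn tau pot)

variable {κ x e ε E t a R Y l3 β : ℝ}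

/-- The three inequalities in normalised coordinates. -/
structure StE (x ε E t a R : ℝ) : Prop where
  p0 : 0 < a
  r0 : 0 < R
  N : x * R ≤ t → x * a ≤ t → 0 ≤ (1 - x) * (E - ε * t) * t + ε * ((t - x * R) * (t - x * a))
  M : a ≤ R → t ≤ x * R → 0 ≤ (E - ε * t) * (R - t) + ε * ((R - a) * (t - x * R))
  M' : R ≤ a → t ≤ x * a → 0 ≤ (E - ε * t) * (a - t) + ε * ((a - R) * (t - x * a))

theorem StE.stG (h : StE x ε E t a R) (hx0 : 0 < x) (hx1 : x < 1)
    (hκ : κ * h0 * (x * (1 - x)) = 2 * (x * ε)) (ht : t = Y * R + β * a) (hl : Y + β + l3 = 1) :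
    StG κ (h0 * x) E (h0 * Y) (h0 * β) (h0 * l3) a R := by
  have hp := h0_pos
  obtain ⟨h1, h2, h3, h4, h5⟩ := h
  have hy : 0 < 1 - x := by linarith
  have eκ : κ * h0 * (1 - x) = 2 * ε := by
    have : x * (κ * h0 * (1 - x)) = x * (2 * ε) := by linarith
    exact mul_left_cancel₀ hx0.ne' this
  have e3 : l3 = 1 - Y - β := by linarith
  have eD : h0 * Y * R + h0 * β * a = h0 * t := by
    rw [ht]
    ring
  refine ⟨h1, h2, fun hw hv => ?_, fun hq hw => ?_, fun hq hw => ?_⟩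
  · rw [eD] at hw hv ⊢
    replace h3 := h3 (le_of_mul_le_mul_left (by linarith) hp)
      (le_of_mul_le_mul_left (by linarith) hp)
    have e1 : κ * (h0 * x) * (1 - x) = 2 * (x * ε) := by
      linear_combination x * eκ
    refine le_of_mul_le_mul_left ?_ hy
    have k1 : (h0 - h0 * β) * a + (h0 - h0 * Y) * R = h0 * (a + R - t) := by
      rw [ht]
      ring
    rw [k1]
    calc (1 - x) * (κ * (h0 * x) * (h0 * (a + R - t) * (h0 * t) - h0 * (h0 * x) * (a * R)))
        = κ * (h0 * x) * (1 - x) * h0 ^ 2 * ((a + R - t) * t - x * (a * R)) := by ring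
      _ = 2 * h0 ^ 2 * (x * ε * ((a + R - t) * t - x * (a * R))) := by
          rw [e1]
          ring
      _ ≤ 2 * h0 ^ 2 * ((1 - x) * E * t) :=
          mul_le_mul_of_nonneg_left (by linarith) (by positivity)
      _ = (1 - x) * (2 * h0 * E * (h0 * t)) := by ring
  · rw [eD] at hw
    replace h4 := h4 hq (le_of_mul_le_mul_left (by linarith) hp)
    have e1 : κ * (h0 - h0 * x) = 2 * ε := by
      linear_combination eκ
    have k1 : h0 * l3 * R + h0 * β * (R - a) = h0 * (R - t) := by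
      rw [ht, e3]
      ring
    have k2 : (h0 - h0 * β) * (R - a) + (h0 - h0 * l3) * R = h0 * (R - a + t) := by
      rw [ht, e3]
      ring
    rw [k1, k2, e1]
    calc 2 * ε * (h0 * (R - a + t) * (h0 * (R - t)) - h0 * (h0 - h0 * x) * ((R - a) * R))
        = 2 * h0 ^ 2 * (ε * ((R - a + t) * (R - t) - (1 - x) * ((R - a) * R))) := by ring
      _ ≤ 2 * h0 ^ 2 * (E * (R - t)) :=
          mul_le_mul_of_nonneg_left (by linarith) (by positivity)
      _ = 2 * h0 * E * (h0 * (R - t)) := by ring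
  · rw [eD] at hw
    replace h5 := h5 hq (le_of_mul_le_mul_left (by linarith) hp)
    have e1 : κ * (h0 - h0 * x) = 2 * ε := by
      linear_combination eκ
    have k1 : h0 * l3 * a + h0 * Y * (a - R) = h0 * (a - t) := by
      rw [ht, e3]
      ring
    have k2 : (h0 - h0 * Y) * (a - R) + (h0 - h0 * l3) * a = h0 * (a - R + t) := by
      rw [ht, e3]
      ring
    rw [k1, k2, e1]
    calc 2 * ε * (h0 * (a - R + t) * (h0 * (a - t)) - h0 * (h0 - h0 * x) * ((a - R) * a))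
        = 2 * h0 ^ 2 * (ε * ((a - R + t) * (a - t) - (1 - x) * ((a - R) * a))) := by ring
      _ ≤ 2 * h0 ^ 2 * (E * (a - t)) :=
          mul_le_mul_of_nonneg_left (by linarith) (by positivity)
      _ = 2 * h0 * E * (h0 * (a - t)) := by ring

/-- **The three inequalities from tests.**  `β` is the difference of the two short heights
`y - θ β` and `Z = y + (1 - θ) β`, `K` and `O` are the values on the edges of these heights. -/
theorem StE.of_tests {y u θ r0 r1 ρ K O k Z S0 S1 S E0 E1 t1 q w w1 w2 q1 σ σ1 F F0 F1 N1 M1 M2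
    A1 A2 : ℝ} (hβ : 0 ≤ β) (hy : y = x + u) (hZ : Z = y + (1 - θ) * β) (hZ1 : Z < 1)
    (hk : k * Z = O) (hρ : ρ = r0 + β * r1) (hS : S = ρ - (K - O)) (hS' : S = S0 + β * S1)
    (hE : E = y * E0 + β * E1) (ht1 : t1 = (y - θ * β) * r1 - θ * r0 + K)
    (ht : t = y * r0 + β * t1) (ha : a = (y - θ * β) * S + (K - O) + β * k)
    (hq : q = (1 - Z) * S) (hR : R = a + q) (hσ1 : σ1 = r1 + k) (hσ : σ = r0 + β * σ1)
    (hw1 : w1 = (1 - x) * t1 - x * ((1 - Z) * σ1 - (1 - θ) * r0)) (hw : w = u * r0 + β * w1)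
    (hq1 : q1 = (1 - Z) * S1 - (1 - θ) * S0) (hF0 : F0 = y * (E0 - ε * r0))
    (hF1 : F1 = E1 - ε * t1) (hF : F = F0 + β * F1)
    (hN1 : N1 = ε * (w1 * (w + x * q) + u * r0 * (w1 + x * q1)) + (1 - x) * (F1 * t + F0 * t1))
    (hM1 : M1 = ε * (S1 * w + S0 * w1) + F1 * σ + F0 * σ1)
    (hw2 : w2 = w + x * q) (hM2 : M2 = F * (σ - S) - ε * (S * w2))
    (hJ1 : ε * ((u * r0) * (u * r0 + x * ((1 - y) * S0))) + (1 - x) * (y * (E0 - ε * r0) * (y * r0)) =
      u ^ 2 * (A1 * r0))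
    (hJ2 : ε * (S0 * (u * r0)) + y * (E0 - ε * r0) * r0 = u ^ 2 * (A2 * r0))
    (hA1 : 0 ≤ A1) (hA2 : 0 ≤ A2) (hr : 0 ≤ r0) (a0 : 0 < a) (R0 : 0 < R)
    (tN : 0 < -w ∨ 0 < -w2 ∨ 0 < N1 ∨ 0 < u ^ 2 * (A1 * r0) + β * N1)
    (tM : 0 < -S ∨ 0 < w ∨ 0 < M1 ∨ 0 < u ^ 2 * (A2 * r0) + β * M1)
    (tG : 0 < S ∨ 0 < w2 ∨ 0 < M2) : StE x ε E t a R := by
  have z1 : 0 < 1 - Z := by linarith
  have eq0 : q = (1 - y) * S0 + β * q1 := by
    rw [hq, hq1, hS', hZ]
    ring
  have eRt : R - t = (1 - Z) * σ := by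
    have e1 : (1 - Z) * k = k - O := by linear_combination -hk
    have e2 : (1 - Z) * σ = (1 - Z) * (r0 + β * r1) + β * (k - O) := by
      rw [hσ, hσ1]
      linear_combination β * e1
    rw [e2, hR, ha, hq, ht, ht1, hS, hρ, hZ]
    ring
  have ew : w = t - x * R := by
    have e1 : w = (1 - x) * t - x * (R - t) := by
      rw [eRt, hw, hw1, ht, hσ, hZ, hy]
      ring
    rw [e1]
    ring
  have ewa : t - x * a = w2 := by
    rw [hw2, ew, hR]
    ring
  have eF : E - ε * t = F := by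
    rw [hF, hF0, hF1, hE, ht]
    ring
  have hN : (1 - x) * F * t + ε * (w * w2) = u ^ 2 * (A1 * r0) + β * N1 := by
    rw [← hJ1, hN1, hw2]
    have e1 : (1 - x) * F * t + ε * (w * (w + x * q)) =
        (1 - x) * (F0 + β * F1) * (y * r0 + β * t1) +
        ε * ((u * r0 + β * w1) * (u * r0 + β * w1 + x * ((1 - y) * S0 + β * q1))) := by
      rw [← hF, ← ht, ← hw, ← eq0]
    rw [e1, ← hF0, ht, hw, eq0]
    ring
  have hM : F * σ + ε * (S * w) = u ^ 2 * (A2 * r0) + β * M1 := by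
    rw [← hJ2, hM1, ← hF0]
    have e1 : F * σ + ε * (S * w) =
        (F0 + β * F1) * (r0 + β * σ1) + ε * ((S0 + β * S1) * (u * r0 + β * w1)) := by
      rw [← hF, ← hσ, ← hw, ← hS']
    rw [e1, hσ, hw]
    ring
  have hN0 : 0 ≤ u ^ 2 * (A1 * r0) := mul_nonneg (sq_nonneg u) (mul_nonneg hA1 hr)
  have hM0 : 0 ≤ u ^ 2 * (A2 * r0) := mul_nonneg (sq_nonneg u) (mul_nonneg hA2 hr)
  refine ⟨a0, R0, fun h1 h2 => ?_, fun h1 h2 => ?_, fun h1 h2 => ?_⟩
  · rw [eF, ← ew, ewa, hN]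
    rcases tN with h | h | h | h
    · linarith
    · linarith
    · have := mul_nonneg hβ h.le
      linarith
    · linarith
  · rw [eF, ← ew, eRt]
    have hRa : R - a = (1 - Z) * S := by linarith
    have key : 0 ≤ F * σ + ε * (S * w) := by
      rw [hM]
      rcases tM with h | h | h | h
      · have h3 : 0 ≤ (1 - Z) * S := by linarith
        have h4 : (1 - Z) * S < 0 := mul_neg_of_pos_of_neg z1 (by linarith)
        linarith
      · linarith
      · have := mul_nonneg hβ h.le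
        linarith
      · linarith
    have := mul_nonneg z1.le key
    rw [hRa]
    linarith
  · rw [eF, ewa]
    have hRa : a - R = -((1 - Z) * S) := by linarith
    have hat : a - t = (1 - Z) * (σ - S) := by linarith
    have key : 0 ≤ M2 := by
      rcases tG with h | h | h
      · have h3 : (1 - Z) * S ≤ 0 := by linarith
        have h4 : 0 < (1 - Z) * S := mul_pos z1 h
        linarith
      · linarith
      · exact h.le
    have := mul_nonneg z1.le key
    rw [hM2] at this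
    rw [hRa, hat]
    linarith

variable {y b K1 K3 ρ τ1 τ3 : ℝ}

/-- **Family `A`, above.** -/
theorem StE.ngvA_nonneg (hS : StE x ε E t a R) (hx0 : 0 < x) (hx1 : x < 1)
    (hκ : κ * h0 * (x * (1 - x)) = 2 * (x * ε)) (hb : 0 ≤ b) (hb1 : b < 1 / 2) (hyb : y + b < 1)
    (hy0 : 0 < y) (ht : t = y * ρ + b * (y * K1))
    (ha : a = y * (ρ - (y * K1 - (y + b) * K3)) + (y * K1 - (y + b) * K3) + b * K3)
    (hR : R = ρ - b * (ρ - (y * K1 - (y + b) * K3)) + b * K3)
    (t1 : tau (h0 * y) = h0 * τ1) (t3 : tau (h0 * y + (h0 + h0 * b)) = h0 * τ3) :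
    NGV κ (h0 * x) E (h0 * y) (h0 + h0 * b) (K1 * τ1, -ρ, K3 * τ3) := by
  have hp := h0_pos
  have hh : h0 ≠ 0 := hp.ne'
  have f1 : h0 * x < h0 := by nlinarith only [mul_pos hp (sub_pos.2 hx1)]
  have f2 : h0 * b < h0 / 2 := by nlinarith only [mul_pos hp (sub_pos.2 hb1)]
  have f3 : h0 * y + h0 * b < h0 := by nlinarith only [mul_pos hp (sub_pos.2 hyb)]
  have g := hS.stG (Y := y) (β := b) (l3 := 1 - y - b) hx0 hx1 hκ (by rw [ht, ha, hR]; ring)
    (by ring)
  have k := gngvA_nonneg (κ := κ) (ex := E) (ρ := ρ) (k1 := K1 / h0) (k3 := K3 / h0)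
    (mul_pos hp hx0) f1 (mul_pos hp hy0) (mul_nonneg hp.le hb) f2 f3 (by
      convert g using 1
      · ring
      · rw [ha]
        field_simp
        ring
      · rw [hR]
        field_simp
        ring)
  rw [t1, t3] at k
  have e1 : K1 / h0 * (h0 * τ1) = K1 * τ1 := by field_simp
  have e3 : K3 / h0 * (h0 * τ3) = K3 * τ3 := by field_simp
  rw [e1, e3] at k
  exact k

/-- **Family `A`, below.** -/
theorem StE.ngvA_neg (hS : StE x ε E t a R) (hx0 : 0 < x) (hx1 : x < 1)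
    (hκ : κ * h0 * (x * (1 - x)) = 2 * (x * ε)) (hb : b < 0) (hb1 : -(1 / 2) ≤ b)
    (hyb : 0 < y + b) (hy1 : y < 1) (ht : t = (y + b) * ρ + b * ((y + b) * K3))
    (ha : a = (y + b) * (ρ - (y * K1 - (y + b) * K3)) + (y * K1 - (y + b) * K3) + b * K1)
    (hR : R = ρ + b * (ρ - (y * K1 - (y + b) * K3)) + b * K1)
    (t1 : tau (h0 * y) = h0 * τ1) (t3 : tau (h0 * y + (h0 + h0 * b)) = h0 * τ3) :
    NGV κ (h0 * x) E (h0 * y) (h0 + h0 * b) (K1 * τ1, -ρ, K3 * τ3) := by
  have hp := h0_pos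
  have hh : h0 ≠ 0 := hp.ne'
  have f1 : h0 * x < h0 := by nlinarith only [mul_pos hp (sub_pos.2 hx1)]
  have f2 : -(h0 / 2) ≤ h0 * b := by nlinarith only [mul_nonneg hp.le (sub_nonneg.2 hb1)]
  have f3 : h0 * y < h0 := by nlinarith only [mul_pos hp (sub_pos.2 hy1)]
  have f4 : 0 < h0 * y + h0 * b := by nlinarith only [mul_pos hp hyb]
  have g := hS.stG (Y := y + b) (β := -b) (l3 := 1 - y) hx0 hx1 hκ (by rw [ht, ha, hR]; ring)
    (by ring)
  have k := gngvA_neg (κ := κ) (ex := E) (ρ := ρ) (k1 := K1 / h0) (k3 := K3 / h0)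
    (mul_pos hp hx0) f1 f3 (mul_neg_of_pos_of_neg hp hb) f2 f4 (by
      convert g using 1
      · ring
      · ring
      · ring
      · rw [ha]
        field_simp
        ring
      · rw [hR]
        field_simp
        ring)
  rw [t1, t3] at k
  have e1 : K1 / h0 * (h0 * τ1) = K1 * τ1 := by field_simp
  have e3 : K3 / h0 * (h0 * τ3) = K3 * τ3 := by field_simp
  rw [e1, e3] at k
  exact k

/-- **Family `B`, above.** -/
theorem StE.ngvB_nonneg (hS : StE x ε E t a R) (hx0 : 0 < x) (hx1 : x < 1)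
    (hκ : κ * h0 * (x * (1 - x)) = 2 * (x * ε)) (hb : 0 ≤ b) (hb1 : b < 1 / 2)
    (hyb : 0 < y - b) (hy1 : y < 1) (ht : t = (y - b) * ρ + b * ((y - b) * K3))
    (ha : a = (y - b) * (ρ - ((y - b) * K3 - y * K1)) + ((y - b) * K3 - y * K1) + b * K1)
    (hR : R = ρ - b * (ρ - ((y - b) * K3 - y * K1)) + b * K1)
    (t1 : tau (h0 * y) = h0 * τ1) (t3 : tau (h0 + h0 * b - h0 * y) = h0 * τ3) :
    NGV κ (h0 * x) E (h0 * y) (h0 + h0 * b - h0 * y) (K1 * τ1, K3 * τ3, -ρ) := by
  have hp := h0_pos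
  have hh : h0 ≠ 0 := hp.ne'
  have f1 : h0 * x < h0 := by nlinarith only [mul_pos hp (sub_pos.2 hx1)]
  have f2 : h0 * b < h0 / 2 := by nlinarith only [mul_pos hp (sub_pos.2 hb1)]
  have f3 : h0 * y < h0 := by nlinarith only [mul_pos hp (sub_pos.2 hy1)]
  have f4 : h0 * b < h0 * y := by nlinarith only [mul_pos hp hyb]
  have g := hS.stG (Y := y - b) (β := b) (l3 := 1 - y) hx0 hx1 hκ (by rw [ht, ha, hR]; ring)
    (by ring)
  have k := gngvB_nonneg (κ := κ) (ex := E) (ρ := ρ) (k1 := K1 / h0) (k3 := K3 / h0)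
    (mul_pos hp hx0) f1 f3 (mul_nonneg hp.le hb) f2 f4 (by
      convert g using 1
      · ring
      · ring
      · rw [ha]
        field_simp
        ring
      · rw [hR]
        field_simp
        ring)
  rw [t1, t3] at k
  have e1 : K1 / h0 * (h0 * τ1) = K1 * τ1 := by field_simp
  have e3 : K3 / h0 * (h0 * τ3) = K3 * τ3 := by field_simp
  rw [e1, e3] at k
  exact k

/-- **Family `B`, below.** -/
theorem StE.ngvB_neg (hS : StE x ε E t a R) (hx0 : 0 < x) (hx1 : x < 1)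
    (hκ : κ * h0 * (x * (1 - x)) = 2 * (x * ε)) (hb : b < 0) (hb1 : -(1 / 2) ≤ b)
    (hyb : y < 1 + b) (hy0 : 0 < y) (ht : t = y * ρ + b * (y * K1))
    (ha : a = y * (ρ - ((y - b) * K3 - y * K1)) + ((y - b) * K3 - y * K1) + b * K3)
    (hR : R = ρ + b * (ρ - ((y - b) * K3 - y * K1)) + b * K3)
    (t1 : tau (h0 * y) = h0 * τ1) (t3 : tau (h0 + h0 * b - h0 * y) = h0 * τ3) :
    NGV κ (h0 * x) E (h0 * y) (h0 + h0 * b - h0 * y) (K1 * τ1, K3 * τ3, -ρ) := by
  have hp := h0_pos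
  have hh : h0 ≠ 0 := hp.ne'
  have f1 : h0 * x < h0 := by nlinarith only [mul_pos hp (sub_pos.2 hx1)]
  have f2 : -(h0 / 2) ≤ h0 * b := by nlinarith only [mul_nonneg hp.le (sub_nonneg.2 hb1)]
  have f4 : h0 * y < h0 + h0 * b := by nlinarith only [mul_pos hp (sub_pos.2 hyb)]
  have g := hS.stG (Y := y) (β := -b) (l3 := 1 - y + b) hx0 hx1 hκ (by rw [ht, ha, hR]; ring)
    (by ring)
  have k := gngvB_neg (κ := κ) (ex := E) (ρ := ρ) (k1 := K1 / h0) (k3 := K3 / h0)
    (mul_pos hp hx0) f1 (mul_pos hp hy0) (mul_neg_of_pos_of_neg hp hb) f2 f4 (by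
      convert g using 1
      · ring
      · ring
      · rw [ha]
        field_simp
        ring
      · rw [hR]
        field_simp
        ring)
  rw [t1, t3] at k
  have e1 : K1 / h0 * (h0 * τ1) = K1 * τ1 := by field_simp
  have e3 : K3 / h0 * (h0 * τ3) = K3 * τ3 := by field_simp
  rw [e1, e3] at k
  exact k

end Pool.Agent.Strip051.LC
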