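import Pool.Agent.Strip051.LC.Exact.MolR1
import Pool.Agent.Strip051.LC.Exact.MolN4

/-! # The tight triangles without division by the short height: the functions (generated) -/

set_option linter.unusedVariables false

namespace Pool.Agent.Strip051.LC.MolN

open Pool.Agent.StripNear Pool.Agent.StripSquare Pool.Agent.Strip051.Sweep
open Pool.Agent.Strip051.LC

noncomputable def r2133 (T : MolP) (u b x : ℝ) : ℝ := (1 + n34 T u b x)⁻¹

noncomputable def r2134 (T : MolP) (u b x : ℝ) : ℝ := (n3 T u b x) * ((1 + n12 T u b x)⁻¹)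

noncomputable def r2138 (T : MolP) (u b x : ℝ) : ℝ := 1 / 2 - 3 / 4 * ((x) * ((1 + n8 T u b x)⁻¹))

noncomputable def r2140 (T : MolP) (u b x : ℝ) : ℝ := 1 / 2 - 3 / 4 * (r2134 T u b x)

noncomputable def r2142 (T : MolP) (u b x : ℝ) : ℝ := 1 / 2 - 3 / 4 * ((n30 T u b x) * (r2133 T u b x))

noncomputable def r2150 (T : MolP) (u b x : ℝ) : ℝ := (r2142 T u b x)⁻¹

noncomputable def r2151 (T : MolP) (u b x : ℝ) : ℝ := (n69 T u b x) * ((r2140 T u b x)⁻¹)

noncomputable def r2152 (T : MolP) (u b x : ℝ) : ℝ := (n71 T u b x) * (r2150 T u b x)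

noncomputable def r2156 (T : MolP) (u b x : ℝ) : ℝ := ((r2151 T u b x) * (3 / 4 * ((1 + (r2134 T u b x) * (n41 T u b x)) * (r2133 T u b x))) - 3 / 4 * (n56 T u b x)) * (r2150 T u b x)

noncomputable def r2159 (T : MolP) (u b x : ℝ) : ℝ := (n12 T u b x) * (r2151 T u b x) + (n3 T u b x) * (T.dy)

noncomputable def r2166 (T : MolP) (u b x : ℝ) : ℝ := (n80 T u b x) * (r2152 T u b x) + (n30 T u b x) * (n84 T u b x) + (b) * ((T.sK) * (n98 T u b x))

noncomputable def r2174 (T : MolP) (u b x : ℝ) : ℝ := (n79 T u b x) * (r2156 T u b x) - (n41 T u b x) * (r2152 T u b x) + (T.dy + (n30 T u b x) * (T.d1)) + (T.sK) * (n98 T u b x)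

noncomputable def r2178 (T : MolP) (u b x : ℝ) : ℝ := r2159 T u b x + (b) * (T.q1)

noncomputable def r2179 (T : MolP) (u b x : ℝ) : ℝ := (n30 T u b x)⁻¹

noncomputable def r2180 (T : MolP) (u b x : ℝ) : ℝ := (r2166 T u b x) * (r2179 T u b x)

noncomputable def r2181 (T : MolP) (u b x : ℝ) : ℝ := r2178 T u b x - r2166 T u b x

noncomputable def r2182 (T : MolP) (u b x : ℝ) : ℝ := T.q1 - r2174 T u b x

noncomputable def r2183 (T : MolP) (u b x : ℝ) : ℝ := n142 T u b x - r2181 T u b x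

noncomputable def r2184 (T : MolP) (u b x : ℝ) : ℝ := T.rs - r2182 T u b x

noncomputable def r2185 (T : MolP) (u b x : ℝ) : ℝ := 1 / 2 - 1 / 2 * (r2151 T u b x)

noncomputable def r2186 (T : MolP) (u b x : ℝ) : ℝ := (b) * (r2180 T u b x)

noncomputable def r2189 (T : MolP) (u b x : ℝ) : ℝ := (n3 T u b x) * (n142 T u b x) + (b) * (r2178 T u b x)

noncomputable def r2190 (T : MolP) (u b x : ℝ) : ℝ := (n3 T u b x) * (T.rs)

noncomputable def r2191 (T : MolP) (u b x : ℝ) : ℝ := r2190 T u b x + r2178 T u b x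

noncomputable def r2194 (T : MolP) (u b x : ℝ) : ℝ := (n3 T u b x) * (r2183 T u b x) + r2181 T u b x + r2186 T u b x

noncomputable def r2198 (T : MolP) (u b x : ℝ) : ℝ := 1 - n30 T u b x

noncomputable def r2199 (T : MolP) (u b x : ℝ) : ℝ := (r2198 T u b x) * (r2183 T u b x)

noncomputable def r2201 (T : MolP) (u b x : ℝ) : ℝ := (r2198 T u b x) * (r2184 T u b x) - r2185 T u b x

noncomputable def r2202 (T : MolP) (u b x : ℝ) : ℝ := r2194 T u b x + r2199 T u b x

noncomputable def r2207 (T : MolP) (u b x : ℝ) : ℝ := n142 T u b x + r2186 T u b x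

noncomputable def r2208 (T : MolP) (u b x : ℝ) : ℝ := T.rs + r2180 T u b x

noncomputable def r2211 (T : MolP) (u b x : ℝ) : ℝ := (r2198 T u b x) * (r2208 T u b x) - 1 / 2

noncomputable def r2213 (T : MolP) (u b x : ℝ) : ℝ := (n205 T u b x) * (r2191 T u b x)

noncomputable def r2215 (T : MolP) (u b x : ℝ) : ℝ := r2213 T u b x - (x) * (r2211 T u b x)

noncomputable def r2217 (T : MolP) (u b x : ℝ) : ℝ := 1 / 2 * (u) + (b) * (r2215 T u b x)

noncomputable def r2219 (T : MolP) (u b x : ℝ) : ℝ := 1 / 2 * (r2140 T u b x) - 1 / 2 * (r2138 T u b x)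

noncomputable def r2220 (T : MolP) (u b x : ℝ) : ℝ := (n3 T u b x) * (r2219 T u b x)

noncomputable def r2221 (T : MolP) (u b x : ℝ) : ℝ := (r2138 T u b x) * (r2191 T u b x)

noncomputable def r2222 (T : MolP) (u b x : ℝ) : ℝ := n168 T u b x - r2221 T u b x

noncomputable def r2224 (T : MolP) (u b x : ℝ) : ℝ := r2220 T u b x + (b) * (r2222 T u b x)

noncomputable def r2226 (T : MolP) (u b x : ℝ) : ℝ := r2217 T u b x + (x) * (r2199 T u b x)

noncomputable def r2234 (T : MolP) (u b x : ℝ) : ℝ := (r2220 T u b x) * (r2191 T u b x)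

noncomputable def r2237 (T : MolP) (u b x : ℝ) : ℝ := (r2138 T u b x) * ((r2215 T u b x) * (r2226 T u b x) + (1 / 2 * (u)) * (r2215 T u b x + (x) * (r2201 T u b x))) + (n205 T u b x) * ((r2222 T u b x) * (r2189 T u b x) + r2234 T u b x)

noncomputable def r2238 (T : MolP) (u b x : ℝ) : ℝ := (n3 T u b x) * (r2179 T u b x)

noncomputable def r2239 (T : MolP) (u b x : ℝ) : ℝ := (r2238 T u b x) * (r2166 T u b x)

noncomputable def r2248 (T : MolP) (u b x : ℝ) : ℝ := (r2138 T u b x) * ((r2184 T u b x) * (r2217 T u b x) + (r2185 T u b x) * (r2215 T u b x)) + (r2222 T u b x) * (r2207 T u b x) + (r2219 T u b x) * (r2190 T u b x + r2239 T u b x)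

noncomputable def r2251 (T : MolP) (u b x : ℝ) : ℝ := (((3 + (n244 T u b x) ^ 2) * (n255 T u b x)) * (((n258 T u b x) * ((n259 T u b x) ^ 2))⁻¹)) * ((r2138 T u b x) * (r2140 T u b x))

noncomputable def r2256 (T : MolP) (u b x : ℝ) : ℝ := (1 / 216 * ((r2251 T u b x) * ((1 + n8 T u b x) * ((1 + n12 T u b x) ^ 2)))) * (n267 T u b x)

noncomputable def r2257 (T : MolP) (u b x : ℝ) : ℝ := (r2251 T u b x) * (n3 T u b x)

noncomputable def r2259 (T : MolP) (u b x : ℝ) : ℝ := ((r2257 T u b x) * (n280 T u b x)) * (n291 T u b x)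

noncomputable def r2261 (T : MolP) (u b x : ℝ) : ℝ := (n298 T u b x) * (1 / 2 * (r2256 T u b x))

noncomputable def r2263 (T : MolP) (u b x : ℝ) : ℝ := r2261 T u b x + (b) * (r2237 T u b x)

noncomputable def r2265 (T : MolP) (u b x : ℝ) : ℝ := (n298 T u b x) * (1 / 2 * (r2259 T u b x))

noncomputable def r2267 (T : MolP) (u b x : ℝ) : ℝ := r2265 T u b x + (b) * (r2248 T u b x)

noncomputable def r2272 (T : MolP) (u b x : ℝ) : ℝ := (r2224 T u b x) * (r2207 T u b x - r2183 T u b x) - (r2138 T u b x) * ((r2183 T u b x) * (r2226 T u b x))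

noncomputable def r2276 (T : MolP) (u b x : ℝ) : ℝ := (n3 T u b x)⁻¹

noncomputable def r2277 (T : MolP) (u b x : ℝ) : ℝ := (r2178 T u b x) * (r2276 T u b x)

noncomputable def r2278 (T : MolP) (u b x : ℝ) : ℝ := (b) * (r2277 T u b x)

noncomputable def r2281 (T : MolP) (u b x : ℝ) : ℝ := (n30 T u b x) * (n142 T u b x) + (b) * (r2166 T u b x)

noncomputable def r2284 (T : MolP) (u b x : ℝ) : ℝ := (n30 T u b x) * (T.rs) + r2166 T u b x + 1 / 2

noncomputable def r2287 (T : MolP) (u b x : ℝ) : ℝ := (n30 T u b x) * (r2183 T u b x) + r2181 T u b x + r2278 T u b x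

noncomputable def r2292 (T : MolP) (u b x : ℝ) : ℝ := (n169 T u b x) * (r2183 T u b x)

noncomputable def r2293 (T : MolP) (u b x : ℝ) : ℝ := (n169 T u b x) * (r2184 T u b x)

noncomputable def r2294 (T : MolP) (u b x : ℝ) : ℝ := r2287 T u b x + r2292 T u b x

noncomputable def r2299 (T : MolP) (u b x : ℝ) : ℝ := n142 T u b x + r2278 T u b x

noncomputable def r2300 (T : MolP) (u b x : ℝ) : ℝ := T.rs + r2277 T u b x

noncomputable def r2302 (T : MolP) (u b x : ℝ) : ℝ := (n169 T u b x) * (r2300 T u b x)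

noncomputable def r2304 (T : MolP) (u b x : ℝ) : ℝ := (x) * (r2302 T u b x)

noncomputable def r2305 (T : MolP) (u b x : ℝ) : ℝ := (n205 T u b x) * (r2284 T u b x) - r2304 T u b x

noncomputable def r2307 (T : MolP) (u b x : ℝ) : ℝ := 1 / 2 * (u) + (b) * (r2305 T u b x)

noncomputable def r2309 (T : MolP) (u b x : ℝ) : ℝ := n307 T u b x - (r2138 T u b x) * (r2284 T u b x)

noncomputable def r2311 (T : MolP) (u b x : ℝ) : ℝ := r2220 T u b x + (b) * (r2309 T u b x)

noncomputable def r2313 (T : MolP) (u b x : ℝ) : ℝ := r2307 T u b x + (x) * (r2292 T u b x)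

noncomputable def r2324 (T : MolP) (u b x : ℝ) : ℝ := (r2138 T u b x) * ((r2305 T u b x) * (r2313 T u b x) + (1 / 2 * (u)) * (r2305 T u b x + (x) * (r2293 T u b x))) + (n205 T u b x) * ((r2309 T u b x) * (r2281 T u b x) + (r2220 T u b x) * (r2284 T u b x))

noncomputable def r2331 (T : MolP) (u b x : ℝ) : ℝ := (r2219 T u b x) * (r2191 T u b x)

noncomputable def r2332 (T : MolP) (u b x : ℝ) : ℝ := (r2138 T u b x) * ((r2184 T u b x) * (r2307 T u b x) + (r2185 T u b x) * (r2305 T u b x)) + (r2309 T u b x) * (r2299 T u b x) + r2331 T u b x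

noncomputable def r2334 (T : MolP) (u b x : ℝ) : ℝ := r2261 T u b x + (b) * (r2324 T u b x)

noncomputable def r2336 (T : MolP) (u b x : ℝ) : ℝ := r2265 T u b x + (b) * (r2332 T u b x)

noncomputable def r2343 (T : MolP) (u b x : ℝ) : ℝ := (r2311 T u b x) * (r2299 T u b x - r2183 T u b x) - (r2138 T u b x) * ((r2183 T u b x) * (r2313 T u b x))

noncomputable def r2347 (T : MolP) (u b x : ℝ) : ℝ := (1 + n376 T u b x)⁻¹

noncomputable def r2350 (T : MolP) (u b x : ℝ) : ℝ := 1 / 2 - 3 / 4 * ((n372 T u b x) * (r2347 T u b x))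

noncomputable def r2355 (T : MolP) (u b x : ℝ) : ℝ := (r2350 T u b x)⁻¹

noncomputable def r2356 (T : MolP) (u b x : ℝ) : ℝ := (n396 T u b x) * (r2355 T u b x)

noncomputable def r2359 (T : MolP) (u b x : ℝ) : ℝ := (-(3 / 4 * (n386 T u b x)) - (r2151 T u b x) * (3 / 4 * ((1 + (r2134 T u b x) * (n381 T u b x)) * (r2347 T u b x)))) * (r2355 T u b x)

noncomputable def r2366 (T : MolP) (u b x : ℝ) : ℝ := (n403 T u b x) * (r2356 T u b x) + (n372 T u b x) * (n84 T u b x) + (b) * ((T.sK) * (n413 T u b x))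

noncomputable def r2373 (T : MolP) (u b x : ℝ) : ℝ := (n402 T u b x) * (r2359 T u b x) + (n381 T u b x) * (r2356 T u b x) + ((n372 T u b x) * (T.d1) - T.dy) + (T.sK) * (n413 T u b x)

noncomputable def r2374 (T : MolP) (u b x : ℝ) : ℝ := r2366 T u b x - r2178 T u b x

noncomputable def r2375 (T : MolP) (u b x : ℝ) : ℝ := r2373 T u b x - T.q1

noncomputable def r2376 (T : MolP) (u b x : ℝ) : ℝ := n142 T u b x - r2374 T u b x

noncomputable def r2377 (T : MolP) (u b x : ℝ) : ℝ := T.rs - r2375 T u b x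

noncomputable def r2380 (T : MolP) (u b x : ℝ) : ℝ := (n372 T u b x) * (n142 T u b x) + (b) * (r2366 T u b x)

noncomputable def r2383 (T : MolP) (u b x : ℝ) : ℝ := (n372 T u b x) * (T.rs) + r2366 T u b x - 1 / 2

noncomputable def r2386 (T : MolP) (u b x : ℝ) : ℝ := (n372 T u b x) * (r2376 T u b x) + r2374 T u b x + r2278 T u b x

noncomputable def r2391 (T : MolP) (u b x : ℝ) : ℝ := (n169 T u b x) * (r2376 T u b x)

noncomputable def r2392 (T : MolP) (u b x : ℝ) : ℝ := (n169 T u b x) * (r2377 T u b x)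

noncomputable def r2393 (T : MolP) (u b x : ℝ) : ℝ := r2386 T u b x + r2391 T u b x

noncomputable def r2399 (T : MolP) (u b x : ℝ) : ℝ := (n205 T u b x) * (r2383 T u b x) - r2304 T u b x

noncomputable def r2401 (T : MolP) (u b x : ℝ) : ℝ := 1 / 2 * (u) + (b) * (r2399 T u b x)

noncomputable def r2403 (T : MolP) (u b x : ℝ) : ℝ := n458 T u b x - (r2138 T u b x) * (r2383 T u b x)

noncomputable def r2405 (T : MolP) (u b x : ℝ) : ℝ := r2220 T u b x + (b) * (r2403 T u b x)

noncomputable def r2407 (T : MolP) (u b x : ℝ) : ℝ := r2401 T u b x + (x) * (r2391 T u b x)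

noncomputable def r2418 (T : MolP) (u b x : ℝ) : ℝ := (r2138 T u b x) * ((r2399 T u b x) * (r2407 T u b x) + (1 / 2 * (u)) * (r2399 T u b x + (x) * (r2392 T u b x))) + (n205 T u b x) * ((r2403 T u b x) * (r2380 T u b x) + (r2220 T u b x) * (r2383 T u b x))

noncomputable def r2425 (T : MolP) (u b x : ℝ) : ℝ := (r2138 T u b x) * ((r2377 T u b x) * (r2401 T u b x) + (r2185 T u b x) * (r2399 T u b x)) + (r2403 T u b x) * (r2299 T u b x) + r2331 T u b x

noncomputable def r2427 (T : MolP) (u b x : ℝ) : ℝ := r2261 T u b x + (b) * (r2418 T u b x)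

noncomputable def r2429 (T : MolP) (u b x : ℝ) : ℝ := r2265 T u b x + (b) * (r2425 T u b x)

noncomputable def r2434 (T : MolP) (u b x : ℝ) : ℝ := (r2405 T u b x) * (r2299 T u b x - r2376 T u b x) - (r2138 T u b x) * ((r2376 T u b x) * (r2407 T u b x))

noncomputable def r2438 (T : MolP) (u b x : ℝ) : ℝ := (n372 T u b x)⁻¹

noncomputable def r2439 (T : MolP) (u b x : ℝ) : ℝ := (r2366 T u b x) * (r2438 T u b x)

noncomputable def r2440 (T : MolP) (u b x : ℝ) : ℝ := (b) * (r2439 T u b x)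

noncomputable def r2443 (T : MolP) (u b x : ℝ) : ℝ := (n3 T u b x) * (r2376 T u b x) + r2374 T u b x + r2440 T u b x

noncomputable def r2447 (T : MolP) (u b x : ℝ) : ℝ := (1 - n372 T u b x) * (r2376 T u b x)

noncomputable def r2449 (T : MolP) (u b x : ℝ) : ℝ := (1 - n372 T u b x) * (r2377 T u b x) + r2185 T u b x

noncomputable def r2450 (T : MolP) (u b x : ℝ) : ℝ := r2443 T u b x + r2447 T u b x

noncomputable def r2455 (T : MolP) (u b x : ℝ) : ℝ := n142 T u b x + r2440 T u b x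

noncomputable def r2456 (T : MolP) (u b x : ℝ) : ℝ := T.rs + r2439 T u b x

noncomputable def r2459 (T : MolP) (u b x : ℝ) : ℝ := (1 - n372 T u b x) * (r2456 T u b x) + 1 / 2

noncomputable def r2461 (T : MolP) (u b x : ℝ) : ℝ := r2213 T u b x - (x) * (r2459 T u b x)

noncomputable def r2463 (T : MolP) (u b x : ℝ) : ℝ := 1 / 2 * (u) + (b) * (r2461 T u b x)

noncomputable def r2464 (T : MolP) (u b x : ℝ) : ℝ := n536 T u b x - r2221 T u b x

noncomputable def r2466 (T : MolP) (u b x : ℝ) : ℝ := r2220 T u b x + (b) * (r2464 T u b x)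

noncomputable def r2468 (T : MolP) (u b x : ℝ) : ℝ := r2463 T u b x + (x) * (r2447 T u b x)

noncomputable def r2478 (T : MolP) (u b x : ℝ) : ℝ := (r2138 T u b x) * ((r2461 T u b x) * (r2468 T u b x) + (1 / 2 * (u)) * (r2461 T u b x + (x) * (r2449 T u b x))) + (n205 T u b x) * ((r2464 T u b x) * (r2189 T u b x) + r2234 T u b x)

noncomputable def r2479 (T : MolP) (u b x : ℝ) : ℝ := (n3 T u b x) * (r2438 T u b x)

noncomputable def r2480 (T : MolP) (u b x : ℝ) : ℝ := (r2479 T u b x) * (r2366 T u b x)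

noncomputable def r2489 (T : MolP) (u b x : ℝ) : ℝ := (r2138 T u b x) * ((r2377 T u b x) * (r2463 T u b x) + (r2185 T u b x) * (r2461 T u b x)) + (r2464 T u b x) * (r2455 T u b x) + (r2219 T u b x) * (r2190 T u b x + r2480 T u b x)

noncomputable def r2491 (T : MolP) (u b x : ℝ) : ℝ := r2261 T u b x + (b) * (r2478 T u b x)

noncomputable def r2493 (T : MolP) (u b x : ℝ) : ℝ := r2265 T u b x + (b) * (r2489 T u b x)

noncomputable def r2500 (T : MolP) (u b x : ℝ) : ℝ := (r2466 T u b x) * (r2455 T u b x - r2376 T u b x) - (r2138 T u b x) * ((r2376 T u b x) * (r2468 T u b x))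

noncomputable def r2506 (T : MolP) (u b x : ℝ) : ℝ := (n662 T u b x) * (r2159 T u b x) + (n599 T u b x) * ((n3 T u b x) * (n703 T u b x))

noncomputable def r2516 (T : MolP) (u b x : ℝ) : ℝ := (n662 T u b x) * (r2166 T u b x) + (n599 T u b x) * ((n30 T u b x) * (n713 T u b x) + (b) * ((T.sD) * (n98 T u b x)))

noncomputable def r2522 (T : MolP) (u b x : ℝ) : ℝ := (n662 T u b x) * (r2174 T u b x) + (n599 T u b x) * (n711 T u b x + (n30 T u b x) * (n712 T u b x) + (T.sD) * (n98 T u b x))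

noncomputable def r2525 (T : MolP) (u b x : ℝ) : ℝ := (n662 T u b x) * (T.q1) + (n599 T u b x) * (T.m1)

noncomputable def r2529 (T : MolP) (u b x : ℝ) : ℝ := (n662 T u b x) * (1 / 2 * (r2151 T u b x)) + (n599 T u b x) * ((n3 T u b x) * (n1185 T u b x))

noncomputable def r2537 (T : MolP) (u b x : ℝ) : ℝ := 1 / 2 * (r2140 T u b x) + 1 / 2 * ((n599 T u b x) * ((3 / 4 * (r2134 T u b x)) * (n108 T u b x) - 2 * ((r2140 T u b x) * ((T.dy) * (u)))))

noncomputable def r2540 (T : MolP) (u b x : ℝ) : ℝ := r2506 T u b x + (b) * (r2525 T u b x)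

noncomputable def r2541 (T : MolP) (u b x : ℝ) : ℝ := (r2516 T u b x) * (r2179 T u b x)

noncomputable def r2542 (T : MolP) (u b x : ℝ) : ℝ := r2540 T u b x - r2516 T u b x

noncomputable def r2543 (T : MolP) (u b x : ℝ) : ℝ := r2525 T u b x - r2522 T u b x

noncomputable def r2544 (T : MolP) (u b x : ℝ) : ℝ := n748 T u b x - r2542 T u b x

noncomputable def r2545 (T : MolP) (u b x : ℝ) : ℝ := n747 T u b x - r2543 T u b x

noncomputable def r2546 (T : MolP) (u b x : ℝ) : ℝ := 1 / 2 * (n662 T u b x) - r2529 T u b x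

noncomputable def r2547 (T : MolP) (u b x : ℝ) : ℝ := (b) * (r2541 T u b x)

noncomputable def r2550 (T : MolP) (u b x : ℝ) : ℝ := (n3 T u b x) * (n748 T u b x) + (b) * (r2540 T u b x)

noncomputable def r2551 (T : MolP) (u b x : ℝ) : ℝ := (n3 T u b x) * (n747 T u b x)

noncomputable def r2552 (T : MolP) (u b x : ℝ) : ℝ := r2551 T u b x + r2540 T u b x

noncomputable def r2555 (T : MolP) (u b x : ℝ) : ℝ := (n3 T u b x) * (r2544 T u b x) + r2542 T u b x + r2547 T u b x

noncomputable def r2559 (T : MolP) (u b x : ℝ) : ℝ := (r2198 T u b x) * (r2544 T u b x)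

noncomputable def r2561 (T : MolP) (u b x : ℝ) : ℝ := (r2198 T u b x) * (r2545 T u b x) - r2546 T u b x

noncomputable def r2562 (T : MolP) (u b x : ℝ) : ℝ := r2555 T u b x + r2559 T u b x

noncomputable def r2567 (T : MolP) (u b x : ℝ) : ℝ := n748 T u b x + r2547 T u b x

noncomputable def r2568 (T : MolP) (u b x : ℝ) : ℝ := n747 T u b x + r2541 T u b x

noncomputable def r2571 (T : MolP) (u b x : ℝ) : ℝ := (r2198 T u b x) * (r2568 T u b x) - 1 / 2 * (n662 T u b x)

noncomputable def r2572 (T : MolP) (u b x : ℝ) : ℝ := (u) * (1 / 2 * (n662 T u b x))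

noncomputable def r2573 (T : MolP) (u b x : ℝ) : ℝ := (n205 T u b x) * (r2552 T u b x)

noncomputable def r2575 (T : MolP) (u b x : ℝ) : ℝ := r2573 T u b x - (x) * (r2571 T u b x)

noncomputable def r2577 (T : MolP) (u b x : ℝ) : ℝ := r2572 T u b x + (b) * (r2575 T u b x)

noncomputable def r2579 (T : MolP) (u b x : ℝ) : ℝ := r2537 T u b x - (r2138 T u b x) * (1 / 2 * (n662 T u b x))

noncomputable def r2580 (T : MolP) (u b x : ℝ) : ℝ := (n3 T u b x) * (r2579 T u b x)

noncomputable def r2581 (T : MolP) (u b x : ℝ) : ℝ := (r2138 T u b x) * (r2552 T u b x)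

noncomputable def r2582 (T : MolP) (u b x : ℝ) : ℝ := n656 T u b x - r2581 T u b x

noncomputable def r2584 (T : MolP) (u b x : ℝ) : ℝ := r2580 T u b x + (b) * (r2582 T u b x)

noncomputable def r2586 (T : MolP) (u b x : ℝ) : ℝ := r2577 T u b x + (x) * (r2559 T u b x)

noncomputable def r2594 (T : MolP) (u b x : ℝ) : ℝ := (r2580 T u b x) * (r2552 T u b x)

noncomputable def r2597 (T : MolP) (u b x : ℝ) : ℝ := (r2138 T u b x) * ((r2575 T u b x) * (r2586 T u b x) + (r2572 T u b x) * (r2575 T u b x + (x) * (r2561 T u b x))) + (n205 T u b x) * ((r2582 T u b x) * (r2550 T u b x) + r2594 T u b x)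

noncomputable def r2598 (T : MolP) (u b x : ℝ) : ℝ := (r2238 T u b x) * (r2516 T u b x)

noncomputable def r2607 (T : MolP) (u b x : ℝ) : ℝ := (r2138 T u b x) * ((r2545 T u b x) * (r2577 T u b x) + (r2546 T u b x) * (r2575 T u b x)) + (r2582 T u b x) * (r2567 T u b x) + (r2579 T u b x) * (r2551 T u b x + r2598 T u b x)

noncomputable def r2608 (T : MolP) (u b x : ℝ) : ℝ := (1 / 216 * ((r2251 T u b x) * ((1 + n8 T u b x) * ((1 + n12 T u b x) ^ 2)))) * (n838 T u b x)

noncomputable def r2610 (T : MolP) (u b x : ℝ) : ℝ := ((r2257 T u b x) * (n857 T u b x)) * (n291 T u b x)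

noncomputable def r2612 (T : MolP) (u b x : ℝ) : ℝ := (n298 T u b x) * ((r2608 T u b x) * (1 / 2 * (n662 T u b x)))

noncomputable def r2614 (T : MolP) (u b x : ℝ) : ℝ := r2612 T u b x + (b) * (r2597 T u b x)

noncomputable def r2616 (T : MolP) (u b x : ℝ) : ℝ := (n298 T u b x) * ((r2610 T u b x) * (1 / 2 * (n662 T u b x)))

noncomputable def r2618 (T : MolP) (u b x : ℝ) : ℝ := r2616 T u b x + (b) * (r2607 T u b x)

noncomputable def r2623 (T : MolP) (u b x : ℝ) : ℝ := (r2584 T u b x) * (r2567 T u b x - r2544 T u b x) - (r2138 T u b x) * ((r2544 T u b x) * (r2586 T u b x))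

noncomputable def r2627 (T : MolP) (u b x : ℝ) : ℝ := (r2540 T u b x) * (r2276 T u b x)

noncomputable def r2628 (T : MolP) (u b x : ℝ) : ℝ := (b) * (r2627 T u b x)

noncomputable def r2631 (T : MolP) (u b x : ℝ) : ℝ := (n30 T u b x) * (n748 T u b x) + (b) * (r2516 T u b x)

noncomputable def r2634 (T : MolP) (u b x : ℝ) : ℝ := (n30 T u b x) * (n747 T u b x) + r2516 T u b x + 1 / 2 * (n662 T u b x)

noncomputable def r2637 (T : MolP) (u b x : ℝ) : ℝ := (n30 T u b x) * (r2544 T u b x) + r2542 T u b x + r2628 T u b x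

noncomputable def r2642 (T : MolP) (u b x : ℝ) : ℝ := (n169 T u b x) * (r2544 T u b x)

noncomputable def r2643 (T : MolP) (u b x : ℝ) : ℝ := (n169 T u b x) * (r2545 T u b x)

noncomputable def r2644 (T : MolP) (u b x : ℝ) : ℝ := r2637 T u b x + r2642 T u b x

noncomputable def r2649 (T : MolP) (u b x : ℝ) : ℝ := n748 T u b x + r2628 T u b x

noncomputable def r2650 (T : MolP) (u b x : ℝ) : ℝ := n747 T u b x + r2627 T u b x

noncomputable def r2652 (T : MolP) (u b x : ℝ) : ℝ := (n169 T u b x) * (r2650 T u b x)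

noncomputable def r2654 (T : MolP) (u b x : ℝ) : ℝ := (x) * (r2652 T u b x)

noncomputable def r2655 (T : MolP) (u b x : ℝ) : ℝ := (n205 T u b x) * (r2634 T u b x) - r2654 T u b x

noncomputable def r2657 (T : MolP) (u b x : ℝ) : ℝ := r2572 T u b x + (b) * (r2655 T u b x)

noncomputable def r2659 (T : MolP) (u b x : ℝ) : ℝ := n877 T u b x - (r2138 T u b x) * (r2634 T u b x)

noncomputable def r2661 (T : MolP) (u b x : ℝ) : ℝ := r2580 T u b x + (b) * (r2659 T u b x)

noncomputable def r2663 (T : MolP) (u b x : ℝ) : ℝ := r2657 T u b x + (x) * (r2642 T u b x)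

noncomputable def r2674 (T : MolP) (u b x : ℝ) : ℝ := (r2138 T u b x) * ((r2655 T u b x) * (r2663 T u b x) + (r2572 T u b x) * (r2655 T u b x + (x) * (r2643 T u b x))) + (n205 T u b x) * ((r2659 T u b x) * (r2631 T u b x) + (r2580 T u b x) * (r2634 T u b x))

noncomputable def r2681 (T : MolP) (u b x : ℝ) : ℝ := (r2579 T u b x) * (r2552 T u b x)

noncomputable def r2682 (T : MolP) (u b x : ℝ) : ℝ := (r2138 T u b x) * ((r2545 T u b x) * (r2657 T u b x) + (r2546 T u b x) * (r2655 T u b x)) + (r2659 T u b x) * (r2649 T u b x) + r2681 T u b x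

noncomputable def r2684 (T : MolP) (u b x : ℝ) : ℝ := r2612 T u b x + (b) * (r2674 T u b x)

noncomputable def r2686 (T : MolP) (u b x : ℝ) : ℝ := r2616 T u b x + (b) * (r2682 T u b x)

noncomputable def r2693 (T : MolP) (u b x : ℝ) : ℝ := (r2661 T u b x) * (r2649 T u b x - r2544 T u b x) - (r2138 T u b x) * ((r2544 T u b x) * (r2663 T u b x))

noncomputable def r2705 (T : MolP) (u b x : ℝ) : ℝ := (n662 T u b x) * (r2366 T u b x) + (n599 T u b x) * ((n372 T u b x) * (n1028 T u b x) + (b) * ((T.sD) * (n413 T u b x)))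

noncomputable def r2711 (T : MolP) (u b x : ℝ) : ℝ := (n662 T u b x) * (r2373 T u b x) + (n599 T u b x) * ((n372 T u b x) * (n1027 T u b x) - n1026 T u b x + (T.sD) * (n413 T u b x))

noncomputable def r2712 (T : MolP) (u b x : ℝ) : ℝ := r2705 T u b x - r2540 T u b x

noncomputable def r2713 (T : MolP) (u b x : ℝ) : ℝ := r2711 T u b x - r2525 T u b x

noncomputable def r2714 (T : MolP) (u b x : ℝ) : ℝ := n748 T u b x - r2712 T u b x

noncomputable def r2715 (T : MolP) (u b x : ℝ) : ℝ := n747 T u b x - r2713 T u b x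

noncomputable def r2718 (T : MolP) (u b x : ℝ) : ℝ := (n372 T u b x) * (n748 T u b x) + (b) * (r2705 T u b x)

noncomputable def r2721 (T : MolP) (u b x : ℝ) : ℝ := (n372 T u b x) * (n747 T u b x) + r2705 T u b x - 1 / 2 * (n662 T u b x)

noncomputable def r2724 (T : MolP) (u b x : ℝ) : ℝ := (n372 T u b x) * (r2714 T u b x) + r2712 T u b x + r2628 T u b x

noncomputable def r2729 (T : MolP) (u b x : ℝ) : ℝ := (n169 T u b x) * (r2714 T u b x)

noncomputable def r2730 (T : MolP) (u b x : ℝ) : ℝ := (n169 T u b x) * (r2715 T u b x)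

noncomputable def r2731 (T : MolP) (u b x : ℝ) : ℝ := r2724 T u b x + r2729 T u b x

noncomputable def r2737 (T : MolP) (u b x : ℝ) : ℝ := (n205 T u b x) * (r2721 T u b x) - r2654 T u b x

noncomputable def r2739 (T : MolP) (u b x : ℝ) : ℝ := r2572 T u b x + (b) * (r2737 T u b x)

noncomputable def r2741 (T : MolP) (u b x : ℝ) : ℝ := n990 T u b x - (r2138 T u b x) * (r2721 T u b x)

noncomputable def r2743 (T : MolP) (u b x : ℝ) : ℝ := r2580 T u b x + (b) * (r2741 T u b x)

noncomputable def r2745 (T : MolP) (u b x : ℝ) : ℝ := r2739 T u b x + (x) * (r2729 T u b x)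

noncomputable def r2756 (T : MolP) (u b x : ℝ) : ℝ := (r2138 T u b x) * ((r2737 T u b x) * (r2745 T u b x) + (r2572 T u b x) * (r2737 T u b x + (x) * (r2730 T u b x))) + (n205 T u b x) * ((r2741 T u b x) * (r2718 T u b x) + (r2580 T u b x) * (r2721 T u b x))

noncomputable def r2763 (T : MolP) (u b x : ℝ) : ℝ := (r2138 T u b x) * ((r2715 T u b x) * (r2739 T u b x) + (r2546 T u b x) * (r2737 T u b x)) + (r2741 T u b x) * (r2649 T u b x) + r2681 T u b x

noncomputable def r2765 (T : MolP) (u b x : ℝ) : ℝ := r2612 T u b x + (b) * (r2756 T u b x)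

noncomputable def r2767 (T : MolP) (u b x : ℝ) : ℝ := r2616 T u b x + (b) * (r2763 T u b x)

noncomputable def r2772 (T : MolP) (u b x : ℝ) : ℝ := (r2743 T u b x) * (r2649 T u b x - r2714 T u b x) - (r2138 T u b x) * ((r2714 T u b x) * (r2745 T u b x))

noncomputable def r2776 (T : MolP) (u b x : ℝ) : ℝ := (r2705 T u b x) * (r2438 T u b x)

noncomputable def r2777 (T : MolP) (u b x : ℝ) : ℝ := (b) * (r2776 T u b x)

noncomputable def r2780 (T : MolP) (u b x : ℝ) : ℝ := (n3 T u b x) * (r2714 T u b x) + r2712 T u b x + r2777 T u b x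

noncomputable def r2784 (T : MolP) (u b x : ℝ) : ℝ := (1 - n372 T u b x) * (r2714 T u b x)

noncomputable def r2786 (T : MolP) (u b x : ℝ) : ℝ := (1 - n372 T u b x) * (r2715 T u b x) + r2546 T u b x

noncomputable def r2787 (T : MolP) (u b x : ℝ) : ℝ := r2780 T u b x + r2784 T u b x

noncomputable def r2792 (T : MolP) (u b x : ℝ) : ℝ := n748 T u b x + r2777 T u b x

noncomputable def r2793 (T : MolP) (u b x : ℝ) : ℝ := n747 T u b x + r2776 T u b x

noncomputable def r2796 (T : MolP) (u b x : ℝ) : ℝ := (1 - n372 T u b x) * (r2793 T u b x) + 1 / 2 * (n662 T u b x)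

noncomputable def r2798 (T : MolP) (u b x : ℝ) : ℝ := r2573 T u b x - (x) * (r2796 T u b x)

noncomputable def r2800 (T : MolP) (u b x : ℝ) : ℝ := r2572 T u b x + (b) * (r2798 T u b x)

noncomputable def r2801 (T : MolP) (u b x : ℝ) : ℝ := n1122 T u b x - r2581 T u b x

noncomputable def r2803 (T : MolP) (u b x : ℝ) : ℝ := r2580 T u b x + (b) * (r2801 T u b x)

noncomputable def r2805 (T : MolP) (u b x : ℝ) : ℝ := r2800 T u b x + (x) * (r2784 T u b x)

noncomputable def r2815 (T : MolP) (u b x : ℝ) : ℝ := (r2138 T u b x) * ((r2798 T u b x) * (r2805 T u b x) + (r2572 T u b x) * (r2798 T u b x + (x) * (r2786 T u b x))) + (n205 T u b x) * ((r2801 T u b x) * (r2550 T u b x) + r2594 T u b x)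

noncomputable def r2816 (T : MolP) (u b x : ℝ) : ℝ := (r2479 T u b x) * (r2705 T u b x)

noncomputable def r2825 (T : MolP) (u b x : ℝ) : ℝ := (r2138 T u b x) * ((r2715 T u b x) * (r2800 T u b x) + (r2546 T u b x) * (r2798 T u b x)) + (r2801 T u b x) * (r2792 T u b x) + (r2579 T u b x) * (r2551 T u b x + r2816 T u b x)

noncomputable def r2827 (T : MolP) (u b x : ℝ) : ℝ := r2612 T u b x + (b) * (r2815 T u b x)

noncomputable def r2829 (T : MolP) (u b x : ℝ) : ℝ := r2616 T u b x + (b) * (r2825 T u b x)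

noncomputable def r2836 (T : MolP) (u b x : ℝ) : ℝ := (r2803 T u b x) * (r2792 T u b x - r2714 T u b x) - (r2138 T u b x) * ((r2714 T u b x) * (r2805 T u b x))

end Pool.Agent.Strip051.LC.MolN
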