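import Pool.Agent.Strip051.LC.Exact.MolR2

/-! # The tight triangles without division by the short height: relations (generated) -/

set_option linter.unusedVariables false

namespace Pool.Agent.Strip051.LC.MolN

open Pool.Agent.StripNear Pool.Agent.StripSquare Pool.Agent.Strip051.Sweep
open Pool.Agent.Strip051.LC

theorem rEE {y c : ℝ} (h : c ^ 2 = 1 - 3 / 4 * y ^ 2) (hc : 0 < c) :
    1 / 2 * y + c - 1 = y * (1 / 2 - 3 / 4 * (y * (1 + c)⁻¹)) := by
  have h1 : 1 + c ≠ 0 := by linarith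
  field_simp
  linear_combination 8 * h

theorem rEd {y z b cy cp dc : ℝ} {s : ℝ} (hz : z = y + s * b) (hc : cp = cy + b * dc)
    (h1 : 1 + cy ≠ 0) (h2 : 1 + cp ≠ 0) :
    1 / 2 - 3 / 4 * (z * (1 + cp)⁻¹) = 1 / 2 - 3 / 4 * (y * (1 + cy)⁻¹) +
      b * (-(3 / 4 * ((s - y * (1 + cy)⁻¹ * dc) * (1 + cp)⁻¹))) := by
  subst hz
  have h2' : 1 + (cy + b * dc) ≠ 0 := by
    rw [← hc]
    exact h2
  rw [hc]
  field_simp
  ring

theorem rgd {N0 N1 N e0 e1 e b : ℝ} (hN : N = N0 + b * N1) (he : e = e0 + b * e1)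
    (h0 : e0 ≠ 0) (h1 : e ≠ 0) :
    N * e⁻¹ = N0 * e0⁻¹ + b * ((N1 - N0 * e0⁻¹ * e1) * e⁻¹) := by
  have h2 : N = N0 * e0⁻¹ * e + b * (N1 - N0 * e0⁻¹ * e1) := by
    have : N0 = N0 * e0⁻¹ * e0 := by
      rw [mul_assoc, inv_mul_cancel₀ h0, mul_one]
    rw [hN, he]
    linear_combination this
  calc N * e⁻¹ = (N0 * e0⁻¹ * e + b * (N1 - N0 * e0⁻¹ * e1)) * e⁻¹ := by rw [← h2]
    _ = N0 * e0⁻¹ * (e * e⁻¹) + b * ((N1 - N0 * e0⁻¹ * e1) * e⁻¹) := by ring
    _ = _ := by rw [mul_inv_cancel₀ h1, mul_one]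

theorem rgy {N e E y : ℝ} (hE : E = y * e) (h : E ≠ 0) : N * e⁻¹ = y * (N * E⁻¹) := by
  have hy : y ≠ 0 := fun h0 => h (by rw [hE, h0, zero_mul])
  have he : e ≠ 0 := fun h0 => h (by rw [hE, h0, mul_zero])
  rw [hE]
  field_simp

theorem mol_rA1 {x y cx cy a b k kq e ey εx εy F1 A1 A1r : ℝ} (hx : 0 < x) (hy : 0 < y)
    (hcx : 0 < cx) (hcy : 0 < cy) (ha : a = mA x cx) (hb : b = mA y cy) (he : e = x * εx)
    (hey : ey = y * εy)
    (hk : k = e * ey * ((3 + a ^ 2) * (3 + b ^ 2)) * ((3 - b ^ 2) * (3 - a * b) ^ 2)⁻¹)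
    (hkq : kq = (3 + a ^ 2) * (3 + b ^ 2) * ((3 - b ^ 2) * (3 - a * b) ^ 2)⁻¹ * (εx * εy))
    (hA : A1 = k * F1 / (64 * (a * b ^ 2)))
    (hr : A1r = kq * ((1 + cx) * (1 + cy) ^ 2) * (8 / 1728) * F1) : A1r = y * A1 := by
  have h1 : 0 < 1 + cx := by linarith
  have h2 : 0 < 1 + cy := by linarith
  have ea : x = 2 / 3 * (a * (1 + cx)) := by
    rw [ha]
    unfold mA
    field_simp
  have eb : y = 2 / 3 * (b * (1 + cy)) := by
    rw [hb]
    unfold mA
    field_simp
  have a0 : a ≠ 0 := by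
    rintro rfl
    rw [zero_mul, mul_zero] at ea
    exact hx.ne' ea
  have b0 : b ≠ 0 := by
    rintro rfl
    rw [zero_mul, mul_zero] at eb
    exact hy.ne' eb
  obtain ⟨D, hD⟩ : ∃ D, D = ((3 - b ^ 2) * (3 - a * b) ^ 2)⁻¹ := ⟨_, rfl⟩
  rw [← hD] at hk hkq
  have key : y * (x * y) = 8 / 27 * ((1 + cx) * (1 + cy) ^ 2) * (a * b ^ 2) := by
    rw [ea, eb]
    ring
  have h3 : a * b ^ 2 * (a * b ^ 2)⁻¹ = 1 := mul_inv_cancel₀ (by positivity)
  have hA' : A1 = k * F1 * (1 / 64) * (a * b ^ 2)⁻¹ := by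
    rw [hA, div_eq_mul_inv, mul_inv]
    ring
  rw [hr, hkq, hA', hk, he, hey]
  linear_combination (-(1 / 64) * (εx * εy * ((3 + a ^ 2) * (3 + b ^ 2)) * D * F1) *
    (a * b ^ 2)⁻¹) * key - (8 / 1728) * ((3 + a ^ 2) * (3 + b ^ 2) * D * (εx * εy) *
    ((1 + cx) * (1 + cy) ^ 2) * F1) * h3

theorem mol_rA2 {x y a b k kq e ey εx εy F2 A2 A2r : ℝ} (h1 : 0 < 1 - b) (he : e = x * εx)
    (hey : ey = y * εy)
    (hk : k = e * ey * ((3 + a ^ 2) * (3 + b ^ 2)) * ((3 - b ^ 2) * (3 - a * b) ^ 2)⁻¹)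
    (hkq : kq = (3 + a ^ 2) * (3 + b ^ 2) * ((3 - b ^ 2) * (3 - a * b) ^ 2)⁻¹ * (εx * εy))
    (hA : A2 = k * F2 / (32 * ((1 - b) ^ 2 * (1 - a))))
    (hr : A2r = kq * y * F2 * (32 * ((1 - b) * (1 - b)) * (1 - a))⁻¹) : x * A2r = A2 := by
  rw [hr, hkq, hA, hk, he, hey, div_eq_mul_inv,
    show 32 * ((1 - b) * (1 - b)) * (1 - a) = 32 * ((1 - b) ^ 2 * (1 - a)) by ring]
  ring

theorem mol_rJ1 {x y u ex E0 E0h e r0 Δ gam S0 A1 A1r : ℝ} (hy : y = x + u) (he : e = x * ex)
    (hE : E0 = y * E0h) (hg : gam = y * Δ) (hS : S0 = r0 - gam) (hA : A1r = y * A1)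
    (v : (1 - x) * (E0 - e * r0) - e * ((y - x) * (1 - y) * Δ) = u ^ 2 * A1) :
    ex * ((u * r0) * (u * r0 + x * ((1 - y) * S0))) + (1 - x) * (y * (E0h - ex * r0) * (y * r0)) =
      u ^ 2 * (A1r * r0) := by
  subst hE he hS hg hA
  have hu : u = y - x := by linarith
  subst hu
  linear_combination (y * r0) * v

theorem mol_rJ2 {x y u ex E0 E0h e r0 Δ gam S0 A2 A2r : ℝ} (hx : 0 < x) (hy : y = x + u)
    (he : e = x * ex) (hE : E0 = y * E0h) (hg : gam = y * Δ) (hS : S0 = r0 - gam)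
    (hA : x * A2r = A2)
    (v : x * (E0 - e * r0) - e * ((y - x) * y * Δ) = u ^ 2 * A2) :
    ex * (S0 * (u * r0)) + y * (E0h - ex * r0) * r0 = u ^ 2 * (A2r * r0) := by
  subst hE he hS hg
  have hu : u = y - x := by linarith
  subst hu
  refine mul_left_cancel₀ hx.ne' ?_
  rw [← hA] at v
  linear_combination r0 * v

theorem rex (T : MolP) {u b x : ℝ} (h0 : 0 < x) (h1 : x < 1) : n15 T u b x = x * (r2138 T u b x) := by
  have e := rEE (cn_sq h0 h1) (cn_pos h0 h1)
  simp only [r2138, n15, n8]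
  exact e

theorem rey (T : MolP) {u b x : ℝ} (h0 : 0 < n3 T u b x) (h1 : n3 T u b x < 1) : n64 T u b x = n3 T u b x * (r2140 T u b x) := by
  have e := rEE (cn_sq h0 h1) (cn_pos h0 h1)
  simp only [r2140, r2134, n64, n60, n12]
  exact e

theorem rezA (T : MolP) {u b x : ℝ} (h : DomA u b x) : n65 T u b x = n30 T u b x * (r2142 T u b x) := by
  have e := rEE (cn_sq (y := n30 T u b x) h.p0 h.p1) (cn_pos (y := n30 T u b x) h.p0 h.p1)
  simp only [r2142, r2133, n65, n62, n34] at e ⊢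
  exact e

theorem rnA (T : MolP) {u b x : ℝ} (h : DomA u b x) : n64 T u b x ≠ 0 ∧ n65 T u b x ≠ 0 ∧ r2140 T u b x ≠ 0 ∧ r2142 T u b x ≠ 0 := by
  have a1 : n64 T u b x ≠ 0 := by
    have := ne_e (y := n3 T u b x) h.y0 h.y1
    simp only [n64, n60, n12]
    exact this
  have a2 : n65 T u b x ≠ 0 := by
    have := ne_e (y := n30 T u b x) h.p0 h.p1
    simp only [n65, n62, n34]
    exact this
  refine ⟨a1, a2, fun h3 => a1 ?_, fun h3 => a2 ?_⟩
  · rw [rey T h.y0 h.y1, h3, mul_zero]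
  · rw [rezA T h, h3, mul_zero]

theorem rg0A (T : MolP) {u b x : ℝ} (h : DomA u b x) : r2151 T u b x = n3 T u b x * (n74 T u b x) := by
  have e := rgy (N := 1 / 2 - 3 / 4 * (n52 T u b x)) (rey T h.y0 h.y1) (rnA T h).1
  have e1 : r2151 T u b x = (1 / 2 - 3 / 4 * (n52 T u b x)) * (r2140 T u b x)⁻¹ := by
    simp only [r2151, n69]
    all_goals ring
  have e2 : n74 T u b x = (1 / 2 - 3 / 4 * (n52 T u b x)) * (n64 T u b x)⁻¹ := by
    simp only [n74, n73, n69]
    all_goals ring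
  rw [e1, e, ← e2]

theorem rgzA (T : MolP) {u b x : ℝ} (h : DomA u b x) : r2152 T u b x = n30 T u b x * (n78 T u b x) := by
  have e := rgy (N := 1 / 2 - 3 / 4 * (n57 T u b x)) (rezA T h) (rnA T h).2.1
  have e1 : r2152 T u b x = (1 / 2 - 3 / 4 * (n57 T u b x)) * (r2142 T u b x)⁻¹ := by
    simp only [r2152, r2150, n71]
    all_goals ring
  have e2 : n78 T u b x = (1 / 2 - 3 / 4 * (n57 T u b x)) * (n65 T u b x)⁻¹ := by
    simp only [n78, n72, n71]
    all_goals ring
  rw [e1, e, ← e2]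

theorem rgeA (T : MolP) {u b x : ℝ} (h : DomA u b x) : r2142 T u b x = r2140 T u b x + b * (-(3 / 4 * ((1 + (r2134 T u b x) * (n41 T u b x)) * (r2133 T u b x)))) := by
  have pc : 0 < n12 T u b x := cn_pos (y := n3 T u b x) h.y0 h.y1
  have pp : 0 < n34 T u b x := cn_pos (y := n30 T u b x) h.p0 h.p1
  have hz : n30 T u b x = n3 T u b x + (1) * b := by
    simp only [n30]
    ring
  have e := rEd hz (J1 T (u := u) (b := b) (x := x) h) (by linarith) (by linarith)
  have e1 : r2142 T u b x = 1 / 2 - 3 / 4 * (n30 T u b x * (1 + n34 T u b x)⁻¹) := by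
    simp only [r2142, r2133]
    all_goals ring
  have e2 : r2140 T u b x = 1 / 2 - 3 / 4 * (n3 T u b x * (1 + n12 T u b x)⁻¹) := by
    simp only [r2140, r2134]
    all_goals ring
  have e3 : -(3 / 4 * ((1 + (r2134 T u b x) * (n41 T u b x)) * (r2133 T u b x))) = -(3 / 4 * (((1) - n3 T u b x * (1 + n12 T u b x)⁻¹ * (-(n41 T u b x))) * (1 + n34 T u b x)⁻¹)) := by
    simp only [r2134, r2133]
    all_goals ring
  rw [e1, e2, e3]
  exact e

theorem rg1A (T : MolP) {u b x : ℝ} (h : DomA u b x) : r2152 T u b x = r2151 T u b x + b * (r2156 T u b x) := by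
  have hN : 1 / 2 - 3 / 4 * (n57 T u b x) = 1 / 2 - 3 / 4 * (n52 T u b x) + b * (-(3 / 4 * (n56 T u b x))) := by
    linear_combination -(3 / 4) * (J5 T (u := u) (b := b) (x := x) h)
  have e := rgd hN (rgeA T h) (rnA T h).2.2.1 (rnA T h).2.2.2
  have e1 : r2152 T u b x = (1 / 2 - 3 / 4 * (n57 T u b x)) * (r2142 T u b x)⁻¹ := by
    simp only [r2152, r2150, n71]
    all_goals ring
  have e2 : r2151 T u b x = (1 / 2 - 3 / 4 * (n52 T u b x)) * (r2140 T u b x)⁻¹ := by
    simp only [r2151, n69]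
    all_goals ring
  have e3 : r2156 T u b x = (-(3 / 4 * (n56 T u b x)) - r2151 T u b x * (-(3 / 4 * ((1 + (r2134 T u b x) * (n41 T u b x)) * (r2133 T u b x))))) * (r2142 T u b x)⁻¹ := by
    simp only [r2156, r2150]
    all_goals ring
  rw [e3, e1, e2]
  exact e

theorem rk10fA (T : MolP) {u b x : ℝ} (h : DomA u b x) : r2159 T u b x = n3 T u b x * (n95 T u b x) := by
  have e := rg0A T h
  simp only [r2159, n95]
  linear_combination (n12 T u b x) * e

theorem rk30fA (T : MolP) {u b x : ℝ} (h : DomA u b x) : (n79 T u b x) * (r2151 T u b x) + (n3 T u b x) * (T.dy) = n3 T u b x * (n92 T u b x) := by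
  have e := rg0A T h
  simp only [n92, n85, n79]
  linear_combination (n12 T u b x - 1 / 2) * e

theorem rk3fA (T : MolP) {u b x : ℝ} (h : DomA u b x) (hi : T.it * (n30 T u b x) = 1) : r2166 T u b x = n30 T u b x * (n139 T u b x) := by
  have e := rgzA T h
  simp only [r2166, n139, n136, n94, n90, n84, n80]
  linear_combination (n34 T u b x - 1 / 2) * e - (b * (T.sK * (n98 T u b x))) * hi

theorem rL31fA (T : MolP) {u b x : ℝ} (h : DomA u b x) : r2166 T u b x = (n79 T u b x) * (r2151 T u b x) + (n3 T u b x) * (T.dy) + b * (r2174 T u b x) := by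
  have e := rg1A T h
  have e' := J1 T (u := u) (b := b) (x := x) h
  simp only [r2174, r2166, n84, n80, n79, n41, n30] at e' ⊢
  linear_combination (n12 T u b x - 1 / 2) * e + (r2152 T u b x) * e'

theorem rgmfA (T : MolP) {u b x : ℝ} : 1 / 2 * (r2151 T u b x) = (r2159 T u b x) - ((n79 T u b x) * (r2151 T u b x) + (n3 T u b x) * (T.dy)) := by
  simp only [r2159, n79]
  all_goals ring

theorem rE0fA (T : MolP) {u b x : ℝ} (h : DomA u b x) : n160 T u b x = n3 T u b x * (1 / 2 * (r2140 T u b x)) := by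
  have e := rey T (u := u) (b := b) (x := x) h.y0 h.y1
  simp only [n160, n64, n60] at e ⊢
  linear_combination (1 / 2) * e

theorem rk10nA (T : MolP) {u b x : ℝ} (h : DomA u b x) : r2506 T u b x = n3 T u b x * (n728 T u b x) := by
  have e := rk10fA T h
  simp only [r2506, n728, n725, n722]
  linear_combination (n662 T u b x) * e

theorem rk30nA (T : MolP) {u b x : ℝ} (h : DomA u b x) : (n662 T u b x) * ((n79 T u b x) * (r2151 T u b x) + (n3 T u b x) * (T.dy)) + (n599 T u b x) * ((n3 T u b x) * (n711 T u b x)) = n3 T u b x * (n737 T u b x) := by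
  have e := rk30fA T h
  simp only [n737, n734, n731]
  linear_combination (n662 T u b x) * e

theorem rk3nA (T : MolP) {u b x : ℝ} (h : DomA u b x) (hi : T.it * (n30 T u b x) = 1) : r2516 T u b x = n30 T u b x * (n739 T u b x) := by
  have e := rk3fA T h hi
  simp only [r2516, n739, n736, n733, n721, n718]
  linear_combination (n662 T u b x) * e - (b * (T.sD * (n98 T u b x)) * (n599 T u b x)) * hi

theorem rL31nA (T : MolP) {u b x : ℝ} (h : DomA u b x) : r2516 T u b x = (n662 T u b x) * ((n79 T u b x) * (r2151 T u b x) + (n3 T u b x) * (T.dy)) + (n599 T u b x) * ((n3 T u b x) * (n711 T u b x)) + b * (r2522 T u b x) := by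
  have e := rL31fA T h
  have e' := J82 T (u := u) (b := b) (x := x) h
  have hz : n30 T u b x = n3 T u b x + (1) * b := by
    simp only [n30]
    ring
  simp only [r2522, r2516] at e' ⊢
  linear_combination (n662 T u b x) * e + ((n599 T u b x) * (n30 T u b x)) * e' + ((n599 T u b x) * (n711 T u b x)) * hz

theorem rgmnA (T : MolP) {u b x : ℝ} : r2529 T u b x = (r2506 T u b x) - ((n662 T u b x) * ((n79 T u b x) * (r2151 T u b x) + (n3 T u b x) * (T.dy)) + (n599 T u b x) * ((n3 T u b x) * (n711 T u b x))) := by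
  have e := rgmfA T (u := u) (b := b) (x := x)
  simp only [r2529, r2506, n1185, n711, n706, n704, n703, n699, n696, n690, n685, n683, n677, n675, n669, n102, n52, n51]
  linear_combination (n662 T u b x) * e

theorem rE0nA (T : MolP) {u b x : ℝ} (h : DomA u b x) : n654 T u b x = n3 T u b x * (r2537 T u b x) := by
  have e := rey T (u := u) (b := b) (x := x) h.y0 h.y1
  have e0 := rE0fA T h
  have pc : 0 < n12 T u b x := cn_pos (y := n3 T u b x) h.y0 h.y1
  have hc : (n12 T u b x) ^ 2 = 1 - 3 / 4 * (n3 T u b x) ^ 2 := cn_sq (y := n3 T u b x) h.y0 h.y1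
  have h1 : 1 - n12 T u b x = 3 / 4 * ((n3 T u b x) * ((n3 T u b x) * (1 + n12 T u b x)⁻¹)) := by
    have : 1 + n12 T u b x ≠ 0 := by linarith
    field_simp
    linear_combination -4 * hc
  simp only [r2537, r2134, n654, n129, n122, n117, n110, n108, n102] at e0 ⊢
  linear_combination e0 + (1 / 2 * (n599 T u b x) * (2 * (n12 T u b x) - 1)) * h1 - ((n599 T u b x) * (T.dy * u)) * e

theorem rezB (T : MolP) {u b x : ℝ} (h : DomB u b x) : n392 T u b x = n372 T u b x * (r2350 T u b x) := by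
  have e := rEE (cn_sq (y := n372 T u b x) h.p0 h.p1) (cn_pos (y := n372 T u b x) h.p0 h.p1)
  simp only [r2350, r2347, n392, n391, n376] at e ⊢
  exact e

theorem rnB (T : MolP) {u b x : ℝ} (h : DomB u b x) : n64 T u b x ≠ 0 ∧ n392 T u b x ≠ 0 ∧ r2140 T u b x ≠ 0 ∧ r2350 T u b x ≠ 0 := by
  have a1 : n64 T u b x ≠ 0 := by
    have := ne_e (y := n3 T u b x) h.y0 h.y1
    simp only [n64, n60, n12]
    exact this
  have a2 : n392 T u b x ≠ 0 := by
    have := ne_e (y := n372 T u b x) h.p0 h.p1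
    simp only [n392, n391, n376]
    exact this
  refine ⟨a1, a2, fun h3 => a1 ?_, fun h3 => a2 ?_⟩
  · rw [rey T h.y0 h.y1, h3, mul_zero]
  · rw [rezB T h, h3, mul_zero]

theorem rg0B (T : MolP) {u b x : ℝ} (h : DomB u b x) : r2151 T u b x = n3 T u b x * (n74 T u b x) := by
  have e := rgy (N := 1 / 2 - 3 / 4 * (n52 T u b x)) (rey T h.y0 h.y1) (rnB T h).1
  have e1 : r2151 T u b x = (1 / 2 - 3 / 4 * (n52 T u b x)) * (r2140 T u b x)⁻¹ := by
    simp only [r2151, n69]
    all_goals ring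
  have e2 : n74 T u b x = (1 / 2 - 3 / 4 * (n52 T u b x)) * (n64 T u b x)⁻¹ := by
    simp only [n74, n73, n69]
    all_goals ring
  rw [e1, e, ← e2]

theorem rgzB (T : MolP) {u b x : ℝ} (h : DomB u b x) : r2356 T u b x = n372 T u b x * (n401 T u b x) := by
  have e := rgy (N := 1 / 2 - 3 / 4 * (n387 T u b x)) (rezB T h) (rnB T h).2.1
  have e1 : r2356 T u b x = (1 / 2 - 3 / 4 * (n387 T u b x)) * (r2350 T u b x)⁻¹ := by
    simp only [r2356, r2355, n396]
    all_goals ring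
  have e2 : n401 T u b x = (1 / 2 - 3 / 4 * (n387 T u b x)) * (n392 T u b x)⁻¹ := by
    simp only [n401, n397, n396]
    all_goals ring
  rw [e1, e, ← e2]

theorem rgeB (T : MolP) {u b x : ℝ} (h : DomB u b x) : r2350 T u b x = r2140 T u b x + b * (3 / 4 * ((1 + (r2134 T u b x) * (n381 T u b x)) * (r2347 T u b x))) := by
  have pc : 0 < n12 T u b x := cn_pos (y := n3 T u b x) h.y0 h.y1
  have pp : 0 < n376 T u b x := cn_pos (y := n372 T u b x) h.p0 h.p1
  have hz : n372 T u b x = n3 T u b x + (-1) * b := by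
    simp only [n372]
    ring
  have e := rEd hz (J36 T (u := u) (b := b) (x := x) h) (by linarith) (by linarith)
  have e1 : r2350 T u b x = 1 / 2 - 3 / 4 * (n372 T u b x * (1 + n376 T u b x)⁻¹) := by
    simp only [r2350, r2347]
    all_goals ring
  have e2 : r2140 T u b x = 1 / 2 - 3 / 4 * (n3 T u b x * (1 + n12 T u b x)⁻¹) := by
    simp only [r2140, r2134]
    all_goals ring
  have e3 : 3 / 4 * ((1 + (r2134 T u b x) * (n381 T u b x)) * (r2347 T u b x)) = -(3 / 4 * (((-1) - n3 T u b x * (1 + n12 T u b x)⁻¹ * (n381 T u b x)) * (1 + n376 T u b x)⁻¹)) := by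
    simp only [r2347, r2134]
    all_goals ring
  rw [e1, e2, e3]
  exact e

theorem rg1B (T : MolP) {u b x : ℝ} (h : DomB u b x) : r2356 T u b x = r2151 T u b x + b * (r2359 T u b x) := by
  have hN : 1 / 2 - 3 / 4 * (n387 T u b x) = 1 / 2 - 3 / 4 * (n52 T u b x) + b * (-(3 / 4 * (n386 T u b x))) := by
    linear_combination -(3 / 4) * (J39 T (u := u) (b := b) (x := x) h)
  have e := rgd hN (rgeB T h) (rnB T h).2.2.1 (rnB T h).2.2.2
  have e1 : r2356 T u b x = (1 / 2 - 3 / 4 * (n387 T u b x)) * (r2350 T u b x)⁻¹ := by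
    simp only [r2356, r2355, n396]
    all_goals ring
  have e2 : r2151 T u b x = (1 / 2 - 3 / 4 * (n52 T u b x)) * (r2140 T u b x)⁻¹ := by
    simp only [r2151, n69]
    all_goals ring
  have e3 : r2359 T u b x = (-(3 / 4 * (n386 T u b x)) - r2151 T u b x * (3 / 4 * ((1 + (r2134 T u b x) * (n381 T u b x)) * (r2347 T u b x)))) * (r2350 T u b x)⁻¹ := by
    simp only [r2359, r2355]
    all_goals ring
  rw [e3, e1, e2]
  exact e

theorem rk10fB (T : MolP) {u b x : ℝ} (h : DomB u b x) : r2159 T u b x = n3 T u b x * (n95 T u b x) := by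
  have e := rg0B T h
  simp only [r2159, n95]
  linear_combination (n12 T u b x) * e

theorem rk30fB (T : MolP) {u b x : ℝ} (h : DomB u b x) : (n402 T u b x) * (r2151 T u b x) + (n3 T u b x) * (T.dy) = n3 T u b x * (n409 T u b x) := by
  have e := rg0B T h
  simp only [n409, n404, n402]
  linear_combination (n12 T u b x + 1 / 2) * e

theorem rk3fB (T : MolP) {u b x : ℝ} (h : DomB u b x) (hi : T.it * (n372 T u b x) = -1) : r2366 T u b x = n372 T u b x * (n443 T u b x) := by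
  have e := rgzB T h
  simp only [r2366, n443, n438, n411, n408, n403, n84]
  linear_combination (n376 T u b x + 1 / 2) * e + (b * (T.sK * (n413 T u b x))) * hi

theorem rL31fB (T : MolP) {u b x : ℝ} (h : DomB u b x) : r2366 T u b x = (n402 T u b x) * (r2151 T u b x) + (n3 T u b x) * (T.dy) + b * (r2373 T u b x) := by
  have e := rg1B T h
  have e' := J36 T (u := u) (b := b) (x := x) h
  simp only [r2373, r2366, n403, n402, n381, n372, n84] at e' ⊢
  linear_combination (n12 T u b x + 1 / 2) * e + (r2356 T u b x) * e'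

theorem rgmfB (T : MolP) {u b x : ℝ} : 1 / 2 * (r2151 T u b x) = ((n402 T u b x) * (r2151 T u b x) + (n3 T u b x) * (T.dy)) - (r2159 T u b x) := by
  simp only [r2159, n402]
  all_goals ring

theorem rE0fB (T : MolP) {u b x : ℝ} (h : DomB u b x) : n160 T u b x = n3 T u b x * (1 / 2 * (r2140 T u b x)) := by
  have e := rey T (u := u) (b := b) (x := x) h.y0 h.y1
  simp only [n160, n64, n60] at e ⊢
  linear_combination (1 / 2) * e

theorem rk10nB (T : MolP) {u b x : ℝ} (h : DomB u b x) : r2506 T u b x = n3 T u b x * (n728 T u b x) := by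
  have e := rk10fB T h
  simp only [r2506, n728, n725, n722]
  linear_combination (n662 T u b x) * e

theorem rk30nB (T : MolP) {u b x : ℝ} (h : DomB u b x) : (n662 T u b x) * ((n402 T u b x) * (r2151 T u b x) + (n3 T u b x) * (T.dy)) + (n599 T u b x) * ((n3 T u b x) * (n1026 T u b x)) = n3 T u b x * (n1042 T u b x) := by
  have e := rk30fB T h
  simp only [n1042, n1039, n1036]
  linear_combination (n662 T u b x) * e

theorem rk3nB (T : MolP) {u b x : ℝ} (h : DomB u b x) (hi : T.it * (n372 T u b x) = -1) : r2705 T u b x = n372 T u b x * (n1044 T u b x) := by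
  have e := rk3fB T h hi
  simp only [r2705, n1044, n1041, n1038, n1035, n1030]
  linear_combination (n662 T u b x) * e + (b * (T.sD * (n413 T u b x)) * (n599 T u b x)) * hi

theorem rL31nB (T : MolP) {u b x : ℝ} (h : DomB u b x) : r2705 T u b x = (n662 T u b x) * ((n402 T u b x) * (r2151 T u b x) + (n3 T u b x) * (T.dy)) + (n599 T u b x) * ((n3 T u b x) * (n1026 T u b x)) + b * (r2711 T u b x) := by
  have e := rL31fB T h
  have e' := J126 T (u := u) (b := b) (x := x) h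
  have hz : n372 T u b x = n3 T u b x + (-1) * b := by
    simp only [n372]
    ring
  simp only [r2711, r2705] at e' ⊢
  linear_combination (n662 T u b x) * e + ((n599 T u b x) * (n372 T u b x)) * e' + ((n599 T u b x) * (n1026 T u b x)) * hz

theorem rgmnB (T : MolP) {u b x : ℝ} : r2529 T u b x = ((n662 T u b x) * ((n402 T u b x) * (r2151 T u b x) + (n3 T u b x) * (T.dy)) + (n599 T u b x) * ((n3 T u b x) * (n1026 T u b x))) - (r2506 T u b x) := by
  have e := rgmfB T (u := u) (b := b) (x := x)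
  simp only [r2529, r2506, n1185, n1026, n1021, n1019, n1014, n703, n699, n690, n685, n683, n677, n675, n669, n102, n52, n51]
  linear_combination (n662 T u b x) * e

theorem rE0nB (T : MolP) {u b x : ℝ} (h : DomB u b x) : n654 T u b x = n3 T u b x * (r2537 T u b x) := by
  have e := rey T (u := u) (b := b) (x := x) h.y0 h.y1
  have e0 := rE0fB T h
  have pc : 0 < n12 T u b x := cn_pos (y := n3 T u b x) h.y0 h.y1
  have hc : (n12 T u b x) ^ 2 = 1 - 3 / 4 * (n3 T u b x) ^ 2 := cn_sq (y := n3 T u b x) h.y0 h.y1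
  have h1 : 1 - n12 T u b x = 3 / 4 * ((n3 T u b x) * ((n3 T u b x) * (1 + n12 T u b x)⁻¹)) := by
    have : 1 + n12 T u b x ≠ 0 := by linarith
    field_simp
    linear_combination -4 * hc
  simp only [r2537, r2134, n654, n129, n122, n117, n110, n108, n102] at e0 ⊢
  linear_combination e0 + (1 / 2 * (n599 T u b x) * (2 * (n12 T u b x) - 1)) * h1 - ((n599 T u b x) * (T.dy * u)) * e

theorem rA0A (T : MolP) {u b x : ℝ} (h : DomA u b x) : r2256 T u b x = n3 T u b x * (n284 T u b x) ∧ x * (r2259 T u b x) = n292 T u b x := by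
  have pcx : 0 < (n8 T u b x) := cn_pos h.x0 h.x1
  have pcy : 0 < (n12 T u b x) := cn_pos (y := n3 T u b x) h.y0 h.y1
  have ha : n244 T u b x = mA x (n8 T u b x) := by
    simp only [n244]
    unfold mA
    ring
  have hb : n248 T u b x = mA (n3 T u b x) (n12 T u b x) := by
    simp only [n248]
    unfold mA
    ring
  have hcy : (n12 T u b x) ^ 2 = 1 - 3 / 4 * (n3 T u b x) ^ 2 := cn_sq (y := n3 T u b x) h.y0 h.y1
  obtain ⟨q0, q1, -⟩ := mol_par' (y := n3 T u b x) h.y0 h.y1 pcy hcy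
  rw [← hb] at q0 q1
  have hk : n263 T u b x = (n15 T u b x) * (n64 T u b x) * ((3 + (n244 T u b x) ^ 2) * (3 + (n248 T u b x) ^ 2)) * ((3 - (n248 T u b x) ^ 2) * (3 - (n244 T u b x) * (n248 T u b x)) ^ 2)⁻¹ := by
    simp only [n263, n259, n258, n255, n251, n250]
    all_goals ring
  have hkq : r2251 T u b x = (3 + (n244 T u b x) ^ 2) * (3 + (n248 T u b x) ^ 2) * ((3 - (n248 T u b x) ^ 2) * (3 - (n244 T u b x) * (n248 T u b x)) ^ 2)⁻¹ * ((r2138 T u b x) * (r2140 T u b x)) := by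
    simp only [r2251, n259, n258, n255, n251, n250]
    all_goals ring
  refine ⟨mol_rA1 (F1 := n267 T u b x) h.x0 h.y0 pcx pcy ha hb (rex T (u := u) (b := b) h.x0 h.x1) (rey T h.y0 h.y1) hk hkq ?_ ?_,
    mol_rA2 (F2 := n280 T u b x) (by linarith) (rex T (u := u) (b := b) h.x0 h.x1) (rey T h.y0 h.y1) hk hkq ?_ ?_⟩
  · simp only [n284, n283, n273, n251]
    all_goals ring
  · simp only [r2256]
    all_goals ring
  · simp only [n292, n291, n286]
    all_goals ring
  · simp only [r2259, r2257, n291, n286]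
    all_goals ring

theorem rJ0A (T : MolP) {u b x : ℝ} (h : DomA u b x) :
    (r2138 T u b x) * ((u * (1 / 2)) * (u * (1 / 2) + x * ((1 - (n3 T u b x)) * (r2185 T u b x)))) +
      (1 - x) * ((n3 T u b x) * ((1 / 2 * (r2140 T u b x)) - (r2138 T u b x) * (1 / 2)) * ((n3 T u b x) * (1 / 2))) = u ^ 2 * ((r2256 T u b x) * (1 / 2)) ∧
    (r2138 T u b x) * ((r2185 T u b x) * (u * (1 / 2))) + (n3 T u b x) * ((1 / 2 * (r2140 T u b x)) - (r2138 T u b x) * (1 / 2)) * (1 / 2) = u ^ 2 * ((r2259 T u b x) * (1 / 2)) := by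
  have hy : n3 T u b x = x + u := by simp only [n3]
  have he := rex T (u := u) (b := b) h.x0 h.x1
  have hE := rE0fA T h
  have g1 := rk10fA T h
  have g3 := rk30fA T h
  have gm := rgmfA T (u := u) (b := b) (x := x)
  rw [g1, g3, ← mul_sub] at gm
  have hS : (r2185 T u b x) = 1 / 2 - (1 / 2 * (r2151 T u b x)) := by
    simp only [r2185]
  exact ⟨mol_rJ1 hy he hE gm hS (rA0A T h).1 (val0A T h).1,
    mol_rJ2 h.x0 hy he hE gm hS (rA0A T h).2 (val0A T h).2⟩

theorem rA0B (T : MolP) {u b x : ℝ} (h : DomB u b x) : r2256 T u b x = n3 T u b x * (n284 T u b x) ∧ x * (r2259 T u b x) = n292 T u b x := by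
  have pcx : 0 < (n8 T u b x) := cn_pos h.x0 h.x1
  have pcy : 0 < (n12 T u b x) := cn_pos (y := n3 T u b x) h.y0 h.y1
  have ha : n244 T u b x = mA x (n8 T u b x) := by
    simp only [n244]
    unfold mA
    ring
  have hb : n248 T u b x = mA (n3 T u b x) (n12 T u b x) := by
    simp only [n248]
    unfold mA
    ring
  have hcy : (n12 T u b x) ^ 2 = 1 - 3 / 4 * (n3 T u b x) ^ 2 := cn_sq (y := n3 T u b x) h.y0 h.y1
  obtain ⟨q0, q1, -⟩ := mol_par' (y := n3 T u b x) h.y0 h.y1 pcy hcy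
  rw [← hb] at q0 q1
  have hk : n263 T u b x = (n15 T u b x) * (n64 T u b x) * ((3 + (n244 T u b x) ^ 2) * (3 + (n248 T u b x) ^ 2)) * ((3 - (n248 T u b x) ^ 2) * (3 - (n244 T u b x) * (n248 T u b x)) ^ 2)⁻¹ := by
    simp only [n263, n259, n258, n255, n251, n250]
    all_goals ring
  have hkq : r2251 T u b x = (3 + (n244 T u b x) ^ 2) * (3 + (n248 T u b x) ^ 2) * ((3 - (n248 T u b x) ^ 2) * (3 - (n244 T u b x) * (n248 T u b x)) ^ 2)⁻¹ * ((r2138 T u b x) * (r2140 T u b x)) := by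
    simp only [r2251, n259, n258, n255, n251, n250]
    all_goals ring
  refine ⟨mol_rA1 (F1 := n267 T u b x) h.x0 h.y0 pcx pcy ha hb (rex T (u := u) (b := b) h.x0 h.x1) (rey T h.y0 h.y1) hk hkq ?_ ?_,
    mol_rA2 (F2 := n280 T u b x) (by linarith) (rex T (u := u) (b := b) h.x0 h.x1) (rey T h.y0 h.y1) hk hkq ?_ ?_⟩
  · simp only [n284, n283, n273, n251]
    all_goals ring
  · simp only [r2256]
    all_goals ring
  · simp only [n292, n291, n286]
    all_goals ring
  · simp only [r2259, r2257, n291, n286]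
    all_goals ring

theorem rJ0B (T : MolP) {u b x : ℝ} (h : DomB u b x) :
    (r2138 T u b x) * ((u * (1 / 2)) * (u * (1 / 2) + x * ((1 - (n3 T u b x)) * (r2185 T u b x)))) +
      (1 - x) * ((n3 T u b x) * ((1 / 2 * (r2140 T u b x)) - (r2138 T u b x) * (1 / 2)) * ((n3 T u b x) * (1 / 2))) = u ^ 2 * ((r2256 T u b x) * (1 / 2)) ∧
    (r2138 T u b x) * ((r2185 T u b x) * (u * (1 / 2))) + (n3 T u b x) * ((1 / 2 * (r2140 T u b x)) - (r2138 T u b x) * (1 / 2)) * (1 / 2) = u ^ 2 * ((r2259 T u b x) * (1 / 2)) := by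
  have hy : n3 T u b x = x + u := by simp only [n3]
  have he := rex T (u := u) (b := b) h.x0 h.x1
  have hE := rE0fB T h
  have g1 := rk10fB T h
  have g3 := rk30fB T h
  have gm := rgmfB T (u := u) (b := b) (x := x)
  rw [g1, g3, ← mul_sub] at gm
  have hS : (r2185 T u b x) = 1 / 2 - (1 / 2 * (r2151 T u b x)) := by
    simp only [r2185]
  exact ⟨mol_rJ1 hy he hE gm hS (rA0B T h).1 (val0B T h).1,
    mol_rJ2 h.x0 hy he hE gm hS (rA0B T h).2 (val0B T h).2⟩

theorem rA1A (T : MolP) {u b x : ℝ} (h : DomA u b x) : r2608 T u b x = n3 T u b x * (n859 T u b x) ∧ x * (r2610 T u b x) = n861 T u b x := by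
  have pcx : 0 < (n8 T u b x) := cn_pos h.x0 h.x1
  have pcy : 0 < (n12 T u b x) := cn_pos (y := n3 T u b x) h.y0 h.y1
  have ha : n244 T u b x = mA x (n8 T u b x) := by
    simp only [n244]
    unfold mA
    ring
  have hb : n248 T u b x = mA (n3 T u b x) (n12 T u b x) := by
    simp only [n248]
    unfold mA
    ring
  have hcy : (n12 T u b x) ^ 2 = 1 - 3 / 4 * (n3 T u b x) ^ 2 := cn_sq (y := n3 T u b x) h.y0 h.y1
  obtain ⟨q0, q1, -⟩ := mol_par' (y := n3 T u b x) h.y0 h.y1 pcy hcy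
  rw [← hb] at q0 q1
  have hk : n263 T u b x = (n15 T u b x) * (n64 T u b x) * ((3 + (n244 T u b x) ^ 2) * (3 + (n248 T u b x) ^ 2)) * ((3 - (n248 T u b x) ^ 2) * (3 - (n244 T u b x) * (n248 T u b x)) ^ 2)⁻¹ := by
    simp only [n263, n259, n258, n255, n251, n250]
    all_goals ring
  have hkq : r2251 T u b x = (3 + (n244 T u b x) ^ 2) * (3 + (n248 T u b x) ^ 2) * ((3 - (n248 T u b x) ^ 2) * (3 - (n244 T u b x) * (n248 T u b x)) ^ 2)⁻¹ * ((r2138 T u b x) * (r2140 T u b x)) := by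
    simp only [r2251, n259, n258, n255, n251, n250]
    all_goals ring
  refine ⟨mol_rA1 (F1 := n838 T u b x) h.x0 h.y0 pcx pcy ha hb (rex T (u := u) (b := b) h.x0 h.x1) (rey T h.y0 h.y1) hk hkq ?_ ?_,
    mol_rA2 (F2 := n857 T u b x) (by linarith) (rex T (u := u) (b := b) h.x0 h.x1) (rey T h.y0 h.y1) hk hkq ?_ ?_⟩
  · simp only [n859, n283, n273, n251]
    all_goals ring
  · simp only [r2608]
    all_goals ring
  · simp only [n861, n291, n286]
    all_goals ring
  · simp only [r2610, r2257, n291, n286]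
    all_goals ring

theorem rJ1A (T : MolP) {u b x : ℝ} (h : DomA u b x) :
    (r2138 T u b x) * ((u * (1 / 2 * (n662 T u b x))) * (u * (1 / 2 * (n662 T u b x)) + x * ((1 - (n3 T u b x)) * (r2546 T u b x)))) +
      (1 - x) * ((n3 T u b x) * ((r2537 T u b x) - (r2138 T u b x) * (1 / 2 * (n662 T u b x))) * ((n3 T u b x) * (1 / 2 * (n662 T u b x)))) = u ^ 2 * ((r2608 T u b x) * (1 / 2 * (n662 T u b x))) ∧
    (r2138 T u b x) * ((r2546 T u b x) * (u * (1 / 2 * (n662 T u b x)))) + (n3 T u b x) * ((r2537 T u b x) - (r2138 T u b x) * (1 / 2 * (n662 T u b x))) * (1 / 2 * (n662 T u b x)) = u ^ 2 * ((r2610 T u b x) * (1 / 2 * (n662 T u b x))) := by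
  have hy : n3 T u b x = x + u := by simp only [n3]
  have he := rex T (u := u) (b := b) h.x0 h.x1
  have hE := rE0nA T h
  have g1 := rk10nA T h
  have g3 := rk30nA T h
  have gm := rgmnA T (u := u) (b := b) (x := x)
  rw [g1, g3, ← mul_sub] at gm
  have hS : (r2546 T u b x) = 1 / 2 * (n662 T u b x) - (r2529 T u b x) := by
    simp only [r2546]
  exact ⟨mol_rJ1 hy he hE gm hS (rA1A T h).1 (val1A T h).1,
    mol_rJ2 h.x0 hy he hE gm hS (rA1A T h).2 (val1A T h).2⟩

theorem rA1B (T : MolP) {u b x : ℝ} (h : DomB u b x) : r2608 T u b x = n3 T u b x * (n859 T u b x) ∧ x * (r2610 T u b x) = n861 T u b x := by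
  have pcx : 0 < (n8 T u b x) := cn_pos h.x0 h.x1
  have pcy : 0 < (n12 T u b x) := cn_pos (y := n3 T u b x) h.y0 h.y1
  have ha : n244 T u b x = mA x (n8 T u b x) := by
    simp only [n244]
    unfold mA
    ring
  have hb : n248 T u b x = mA (n3 T u b x) (n12 T u b x) := by
    simp only [n248]
    unfold mA
    ring
  have hcy : (n12 T u b x) ^ 2 = 1 - 3 / 4 * (n3 T u b x) ^ 2 := cn_sq (y := n3 T u b x) h.y0 h.y1
  obtain ⟨q0, q1, -⟩ := mol_par' (y := n3 T u b x) h.y0 h.y1 pcy hcy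
  rw [← hb] at q0 q1
  have hk : n263 T u b x = (n15 T u b x) * (n64 T u b x) * ((3 + (n244 T u b x) ^ 2) * (3 + (n248 T u b x) ^ 2)) * ((3 - (n248 T u b x) ^ 2) * (3 - (n244 T u b x) * (n248 T u b x)) ^ 2)⁻¹ := by
    simp only [n263, n259, n258, n255, n251, n250]
    all_goals ring
  have hkq : r2251 T u b x = (3 + (n244 T u b x) ^ 2) * (3 + (n248 T u b x) ^ 2) * ((3 - (n248 T u b x) ^ 2) * (3 - (n244 T u b x) * (n248 T u b x)) ^ 2)⁻¹ * ((r2138 T u b x) * (r2140 T u b x)) := by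
    simp only [r2251, n259, n258, n255, n251, n250]
    all_goals ring
  refine ⟨mol_rA1 (F1 := n838 T u b x) h.x0 h.y0 pcx pcy ha hb (rex T (u := u) (b := b) h.x0 h.x1) (rey T h.y0 h.y1) hk hkq ?_ ?_,
    mol_rA2 (F2 := n857 T u b x) (by linarith) (rex T (u := u) (b := b) h.x0 h.x1) (rey T h.y0 h.y1) hk hkq ?_ ?_⟩
  · simp only [n859, n283, n273, n251]
    all_goals ring
  · simp only [r2608]
    all_goals ring
  · simp only [n861, n291, n286]
    all_goals ring
  · simp only [r2610, r2257, n291, n286]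
    all_goals ring

theorem rJ1B (T : MolP) {u b x : ℝ} (h : DomB u b x) :
    (r2138 T u b x) * ((u * (1 / 2 * (n662 T u b x))) * (u * (1 / 2 * (n662 T u b x)) + x * ((1 - (n3 T u b x)) * (r2546 T u b x)))) +
      (1 - x) * ((n3 T u b x) * ((r2537 T u b x) - (r2138 T u b x) * (1 / 2 * (n662 T u b x))) * ((n3 T u b x) * (1 / 2 * (n662 T u b x)))) = u ^ 2 * ((r2608 T u b x) * (1 / 2 * (n662 T u b x))) ∧
    (r2138 T u b x) * ((r2546 T u b x) * (u * (1 / 2 * (n662 T u b x)))) + (n3 T u b x) * ((r2537 T u b x) - (r2138 T u b x) * (1 / 2 * (n662 T u b x))) * (1 / 2 * (n662 T u b x)) = u ^ 2 * ((r2610 T u b x) * (1 / 2 * (n662 T u b x))) := by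
  have hy : n3 T u b x = x + u := by simp only [n3]
  have he := rex T (u := u) (b := b) h.x0 h.x1
  have hE := rE0nB T h
  have g1 := rk10nB T h
  have g3 := rk30nB T h
  have gm := rgmnB T (u := u) (b := b) (x := x)
  rw [g1, g3, ← mul_sub] at gm
  have hS : (r2546 T u b x) = 1 / 2 * (n662 T u b x) - (r2529 T u b x) := by
    simp only [r2546]
  exact ⟨mol_rJ1 hy he hE gm hS (rA1B T h).1 (val1B T h).1,
    mol_rJ2 h.x0 hy he hE gm hS (rA1B T h).2 (val1B T h).2⟩

end Pool.Agent.Strip051.LC.MolN
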