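import Pool.Agent.Strip051.LC.Exact.MolR3

/-! # The tight triangles without division by the short height: the charts (generated) -/

set_option linter.unusedVariables false

namespace Pool.Agent.Strip051.LC.MolN

open Pool.Agent.StripNear Pool.Agent.StripSquare Pool.Agent.Strip051.Sweep
open Pool.Agent.Strip051.LC
open Pool.Agent.Strip051.LC.Line (tau)

/-- The atoms with the true slopes on the short edge. -/
noncomputable def un (T : MolP) (y : ℝ) : MolP := { T with q1 := T.q1 / y, m1 := T.m1 / y }

theorem rr0_nonneg (T : MolP) {u b x : ℝ} (h0 : 0 < x) (h1 : x < 1) : 0 ≤ 1 / 2 * (n662 T u b x) := by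
  have pcx : 0 < (n8 T u b x) := cn_pos h0 h1
  have hcx : (n8 T u b x) ^ 2 = 1 - 3 / 4 * x ^ 2 := cn_sq h0 h1
  have hc1 : (n8 T u b x) ≤ 1 := by nlinarith [sq_nonneg x]
  have hmu : 0 ≤ (n599 T u b x) := by
    simp only [n599]
    positivity
  have h3 : 0 ≤ (n599 T u b x) * (3 / 4 * x + 3 / 2 * (1 - (n8 T u b x))) := mul_nonneg hmu (by linarith)
  have h4 : (1 / 2 * (n662 T u b x)) = 1 / 2 * (1 + (n599 T u b x) * (3 / 4 * x + 3 / 2 * (1 - (n8 T u b x)))) := by
    simp only [n662, n660]
    all_goals ring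
  rw [h4]
  linarith

theorem rh0Ap (T : MolP) {u b x κ τ1 τ3 : ℝ} (h : DomA u b x) (hb : 0 ≤ b)
    (hi : T.it * (n30 T u b x) = 1) (hκ : κ * h0 * (x * (1 - x)) = 2 * (n15 T u b x)) (ha : 0 < r2194 T u b x) (hR : 0 < r2202 T u b x)
    (tN : 0 < -(r2217 T u b x) ∨ 0 < -(r2226 T u b x) ∨ 0 < r2237 T u b x ∨ 0 < r2263 T u b x)
    (tM : 0 < -(r2183 T u b x) ∨ 0 < r2217 T u b x ∨ 0 < r2248 T u b x ∨ 0 < r2267 T u b x)
    (tG : 0 < r2183 T u b x ∨ 0 < r2226 T u b x ∨ 0 < r2272 T u b x)
    (t1 : tau (h0 * (n3 T u b x)) = h0 * τ1) (t3 : tau (h0 * (n3 T u b x) + (h0 + h0 * b)) = h0 * τ3) :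
    NGV κ (h0 * x) (n160 T u b x + b * (n168 T u b x)) (h0 * (n3 T u b x)) (h0 + h0 * b) ((n95 T u b x + b * (T.q1 / n3 T u b x)) * τ1, -(n142 T u b x), (n139 T u b x) * τ3) := by
  have hy0 : 0 < n3 T u b x := h.y0
  have hy1 : n3 T u b x < 1 := h.y1
  have hz0 : 0 < n30 T u b x := by
    have := h.p0
    simp only [n30, n3]
    linarith
  have hz1 : n30 T u b x < 1 := by
    have := h.p1
    simp only [n30, n3]
    linarith
  have hyx : n3 T u b x = x + u := by simp only [n3]
  have hzy : n30 T u b x = n3 T u b x + (1) * b := by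
    simp only [n30]
    all_goals ring
  have hex := rex T (u := u) (b := b) h.x0 h.x1
  have hk3 := rk3fA T h hi
  have hL := rL31fA T h
  have hg := rgmfA T (u := u) (b := b) (x := x)
  have hk10 := rk10fA T h
  have hE0 := rE0fA T h
  have hJ := rJ0A T h
  have hk1 : r2178 T u b x = (n3 T u b x) * (n95 T u b x + b * (T.q1 / n3 T u b x)) := by
    have e1 : (n3 T u b x) * (T.q1 / (n3 T u b x)) = T.q1 := mul_div_cancel₀ _ hy0.ne'
    have e2 : (n3 T u b x) * (T.m1 / (n3 T u b x)) = T.m1 := mul_div_cancel₀ _ hy0.ne'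
    simp only [r2178]
    linear_combination hk10 - b * e1
  have hrv : n142 T u b x = 1 / 2 + b * (T.rs) := by
    simp only [n142]
    all_goals ring
  have eNT : r2263 T u b x = u ^ 2 * ((r2256 T u b x) * (1 / 2)) + (b) * (r2237 T u b x) := by
    simp only [r2263, r2261, n298]
    all_goals ring
  have eMT : r2267 T u b x = u ^ 2 * ((r2259 T u b x) * (1 / 2)) + (b) * (r2248 T u b x) := by
    simp only [r2267, r2265, n298]
    all_goals ring
  rw [eNT] at tN
  rw [eMT] at tM
  have hA1 : 0 ≤ (r2256 T u b x) := by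
    rw [(rA0A T h).1]
    exact mul_nonneg hy0.le (nn0A1 T h)
  have hA2 : 0 ≤ (r2259 T u b x) := by
    have e := (rA0A T h).2
    have e2 := nn0A2 T h
    rw [← e] at e2
    exact nonneg_of_mul_nonneg_right e2 h.x0
  have hr : 0 ≤ (1 / 2 : ℝ) := by
    norm_num
  have hKo : (r2180 T u b x) * (n30 T u b x) = r2166 T u b x := by
    have e : (n30 T u b x) * (n30 T u b x)⁻¹ = 1 := mul_inv_cancel₀ (hz0).ne'
    simp only [r2180, r2179]
    linear_combination (r2166 T u b x) * e
  have hS : StE x (r2138 T u b x) (n160 T u b x + b * (n168 T u b x)) (r2189 T u b x) (r2194 T u b x) (r2202 T u b x) := by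
    refine StE.of_tests (β := b) (y := n3 T u b x) (u := u) (θ := 0) (r0 := 1 / 2) (r1 := T.rs) (ρ := n142 T u b x)
      (K := r2178 T u b x) (O := r2166 T u b x) (k := r2180 T u b x) (Z := n30 T u b x) (S0 := r2185 T u b x) (S1 := r2184 T u b x) (S := r2183 T u b x) (E0 := 1 / 2 * (r2140 T u b x)) (E1 := n168 T u b x)
      (t1 := r2191 T u b x) (q := r2199 T u b x) (w := r2217 T u b x) (w1 := r2215 T u b x) (w2 := r2226 T u b x) (q1 := r2201 T u b x) (σ := r2207 T u b x) (σ1 := r2208 T u b x) (F := r2224 T u b x)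
      (F0 := r2220 T u b x) (F1 := r2222 T u b x) (N1 := r2237 T u b x) (M1 := r2248 T u b x) (M2 := r2272 T u b x) (A1 := r2256 T u b x) (A2 := r2259 T u b x)
      (by linarith) hyx ?_ (by first | exact hz1 | exact hy1) ?_ ?_ ?_ ?_ ?_ ?_ ?_ ?_ ?_ ?_ ?_ ?_ ?_ ?_ ?_ ?_ ?_ ?_ ?_ ?_ ?_ ?_
      hJ.1 hJ.2 hA1 hA2 hr ha hR tN tM tG
    · linear_combination hzy
    · linear_combination (1) * hKo
    · linear_combination hrv
    · simp only [r2183, r2181]
      all_goals ring
    · have e1 : r2178 T u b x = r2159 T u b x + b * (T.q1) := by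
        simp only [r2178]
        all_goals ring
      simp only [r2185, r2184, r2183, r2182, r2181]
      rw [hg, hrv, e1, hL]
      all_goals ring
    · rw [hE0]
      all_goals ring
    · simp only [r2191, r2190]
      all_goals ring
    · simp only [r2191, r2190, r2189]
      rw [hrv]
      all_goals ring
    · simp only [r2194, r2186, r2181]
      all_goals ring
    · simp only [r2199, r2198]
      all_goals ring
    · simp only [r2202]
    · simp only [r2208]
      all_goals ring
    · simp only [r2208, r2207, r2186]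
      rw [hrv]
      all_goals ring
    · simp only [r2215, r2213, r2211, r2198, n205]
      all_goals ring
    · simp only [r2217]
      all_goals ring
    · simp only [r2201, r2198]
      all_goals ring
    · simp only [r2220, r2219]
      all_goals ring
    · simp only [r2222, r2221]
      all_goals ring
    · simp only [r2224]
      all_goals ring
    · simp only [r2237, r2234, r2226, n205]
      all_goals ring
    · simp only [r2248, r2239, r2238, r2220, r2208, r2190, r2180]
      all_goals ring
    · simp only [r2226]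
      all_goals ring
    · simp only [r2272]
      all_goals ring
  have hz3 : r2166 T u b x = (n3 T u b x + b) * (n139 T u b x) := by
    rw [hk3, hzy]
    all_goals ring
  refine hS.ngvA_nonneg (K1 := n95 T u b x + b * (T.q1 / n3 T u b x)) (K3 := n139 T u b x) (ρ := n142 T u b x) (y := n3 T u b x) h.x0 h.x1 (by rw [← hex]; exact hκ) hb (by linarith [h.b1]) (by linarith [hz1]) hy0 ?_ ?_ ?_ t1 t3
  · rw [← hk1]
    simp only [r2189]
    all_goals ring
  · have eo : r2180 T u b x = n139 T u b x := by
      have := hKo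
      rw [hk3] at this
      exact mul_right_cancel₀ hz0.ne' (by linear_combination this)
    rw [← hk1, ← hz3, ← eo]
    simp only [r2194, r2186, r2183, r2181]
    all_goals ring
  · have eo : r2180 T u b x = n139 T u b x := by
      have := hKo
      rw [hk3] at this
      exact mul_right_cancel₀ hz0.ne' (by linear_combination this)
    rw [← hk1, ← hz3, ← eo]
    simp only [r2202, r2199, r2198, r2194, r2186, r2183, r2181]
    rw [hzy]
    all_goals ring

theorem rh0Am (T : MolP) {u b x κ τ1 τ3 : ℝ} (h : DomA u b x) (hb : b < 0)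
    (hi : T.it * (n30 T u b x) = 1) (hκ : κ * h0 * (x * (1 - x)) = 2 * (n15 T u b x)) (ha : 0 < r2287 T u b x) (hR : 0 < r2294 T u b x)
    (tN : 0 < -(r2307 T u b x) ∨ 0 < -(r2313 T u b x) ∨ 0 < -(r2324 T u b x) ∨ 0 < r2334 T u b x)
    (tM : 0 < -(r2183 T u b x) ∨ 0 < r2307 T u b x ∨ 0 < -(r2332 T u b x) ∨ 0 < r2336 T u b x)
    (tG : 0 < r2183 T u b x ∨ 0 < r2313 T u b x ∨ 0 < r2343 T u b x)
    (t1 : tau (h0 * (n3 T u b x)) = h0 * τ1) (t3 : tau (h0 * (n3 T u b x) + (h0 + h0 * b)) = h0 * τ3) :
    NGV κ (h0 * x) (n160 T u b x + b * (n307 T u b x)) (h0 * (n3 T u b x)) (h0 + h0 * b) ((n95 T u b x + b * (T.q1 / n3 T u b x)) * τ1, -(n142 T u b x), (n139 T u b x) * τ3) := by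
  have hy0 : 0 < n3 T u b x := h.y0
  have hy1 : n3 T u b x < 1 := h.y1
  have hz0 : 0 < n30 T u b x := by
    have := h.p0
    simp only [n30, n3]
    linarith
  have hz1 : n30 T u b x < 1 := by
    have := h.p1
    simp only [n30, n3]
    linarith
  have hyx : n3 T u b x = x + u := by simp only [n3]
  have hzy : n30 T u b x = n3 T u b x + (1) * b := by
    simp only [n30]
    all_goals ring
  have hex := rex T (u := u) (b := b) h.x0 h.x1
  have hk3 := rk3fA T h hi
  have hL := rL31fA T h
  have hg := rgmfA T (u := u) (b := b) (x := x)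
  have hk10 := rk10fA T h
  have hE0 := rE0fA T h
  have hJ := rJ0A T h
  have hk1 : r2178 T u b x = (n3 T u b x) * (n95 T u b x + b * (T.q1 / n3 T u b x)) := by
    have e1 : (n3 T u b x) * (T.q1 / (n3 T u b x)) = T.q1 := mul_div_cancel₀ _ hy0.ne'
    have e2 : (n3 T u b x) * (T.m1 / (n3 T u b x)) = T.m1 := mul_div_cancel₀ _ hy0.ne'
    simp only [r2178]
    linear_combination hk10 - b * e1
  have hrv : n142 T u b x = 1 / 2 + b * (T.rs) := by
    simp only [n142]
    all_goals ring
  have eNT : r2334 T u b x = u ^ 2 * ((r2256 T u b x) * (1 / 2)) + (-b) * (-(r2324 T u b x)) := by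
    simp only [r2334, r2261, n298]
    all_goals ring
  have eMT : r2336 T u b x = u ^ 2 * ((r2259 T u b x) * (1 / 2)) + (-b) * (-(r2332 T u b x)) := by
    simp only [r2336, r2265, n298]
    all_goals ring
  rw [eNT] at tN
  rw [eMT] at tM
  have hA1 : 0 ≤ (r2256 T u b x) := by
    rw [(rA0A T h).1]
    exact mul_nonneg hy0.le (nn0A1 T h)
  have hA2 : 0 ≤ (r2259 T u b x) := by
    have e := (rA0A T h).2
    have e2 := nn0A2 T h
    rw [← e] at e2
    exact nonneg_of_mul_nonneg_right e2 h.x0
  have hr : 0 ≤ (1 / 2 : ℝ) := by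
    norm_num
  have hKo : (r2277 T u b x) * (n3 T u b x) = r2178 T u b x := by
    have e : (n3 T u b x) * (n3 T u b x)⁻¹ = 1 := mul_inv_cancel₀ (hy0).ne'
    simp only [r2277, r2276]
    linear_combination (r2178 T u b x) * e
  have hS : StE x (r2138 T u b x) (n160 T u b x + b * (n307 T u b x)) (r2281 T u b x) (r2287 T u b x) (r2294 T u b x) := by
    refine StE.of_tests (β := -b) (y := n3 T u b x) (u := u) (θ := 1) (r0 := 1 / 2) (r1 := -(T.rs)) (ρ := n142 T u b x)
      (K := -(r2166 T u b x)) (O := -(r2178 T u b x)) (k := -(r2277 T u b x)) (Z := n3 T u b x) (S0 := r2185 T u b x) (S1 := -(r2184 T u b x)) (S := r2183 T u b x) (E0 := 1 / 2 * (r2140 T u b x)) (E1 := -(n307 T u b x))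
      (t1 := -(r2284 T u b x)) (q := r2292 T u b x) (w := r2307 T u b x) (w1 := -(r2305 T u b x)) (w2 := r2313 T u b x) (q1 := -(r2293 T u b x)) (σ := r2299 T u b x) (σ1 := -(r2300 T u b x)) (F := r2311 T u b x)
      (F0 := r2220 T u b x) (F1 := -(r2309 T u b x)) (N1 := -(r2324 T u b x)) (M1 := -(r2332 T u b x)) (M2 := r2343 T u b x) (A1 := r2256 T u b x) (A2 := r2259 T u b x)
      (by linarith) hyx ?_ (by first | exact hz1 | exact hy1) ?_ ?_ ?_ ?_ ?_ ?_ ?_ ?_ ?_ ?_ ?_ ?_ ?_ ?_ ?_ ?_ ?_ ?_ ?_ ?_ ?_ ?_
      hJ.1 hJ.2 hA1 hA2 hr ha hR tN tM tG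
    · ring
    · linear_combination (-1) * hKo
    · linear_combination hrv
    · simp only [r2183, r2181]
      all_goals ring
    · have e1 : r2178 T u b x = r2159 T u b x + b * (T.q1) := by
        simp only [r2178]
        all_goals ring
      simp only [r2185, r2184, r2183, r2182, r2181]
      rw [hg, hrv, e1, hL]
      all_goals ring
    · rw [hE0]
      all_goals ring
    · simp only [r2284]
      rw [hzy]
      all_goals ring
    · simp only [r2284, r2281]
      rw [hrv]
      rw [hzy]
      all_goals ring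
    · simp only [r2287, r2278, r2181]
      rw [hzy]
      all_goals ring
    · simp only [r2292, n169]
      all_goals ring
    · simp only [r2294]
    · simp only [r2300]
      all_goals ring
    · simp only [r2300, r2299, r2278]
      rw [hrv]
      all_goals ring
    · simp only [r2305, r2304, r2302, n205, n169]
      all_goals ring
    · simp only [r2307]
      all_goals ring
    · simp only [r2293, n169]
      all_goals ring
    · simp only [r2220, r2219]
      all_goals ring
    · simp only [r2309]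
      all_goals ring
    · simp only [r2311]
      all_goals ring
    · simp only [r2324, r2313, n205]
      all_goals ring
    · simp only [r2332, r2331, r2300, r2220, r2191, r2190]
      linear_combination (1 * (r2219 T u b x)) * hKo
    · simp only [r2313]
      all_goals ring
    · simp only [r2343]
      all_goals ring
  have hz3 : r2166 T u b x = (n3 T u b x + b) * (n139 T u b x) := by
    rw [hk3, hzy]
    all_goals ring
  refine hS.ngvA_neg (K1 := n95 T u b x + b * (T.q1 / n3 T u b x)) (K3 := n139 T u b x) (ρ := n142 T u b x) (y := n3 T u b x) h.x0 h.x1 (by rw [← hex]; exact hκ) hb (by linarith [h.b0]) (by linarith [hz0]) hy1 ?_ ?_ ?_ t1 t3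
  · rw [← hz3]
    simp only [r2281]
    rw [hzy]
    all_goals ring
  · have eo : r2277 T u b x = n95 T u b x + b * (T.q1 / n3 T u b x) := by
      have := hKo
      rw [hk1] at this
      exact mul_right_cancel₀ hy0.ne' (by linear_combination this)
    rw [← hk1, ← hz3, ← eo]
    simp only [r2287, r2278, r2183, r2181]
    rw [hzy]
    all_goals ring
  · have eo : r2277 T u b x = n95 T u b x + b * (T.q1 / n3 T u b x) := by
      have := hKo
      rw [hk1] at this
      exact mul_right_cancel₀ hy0.ne' (by linear_combination this)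
    rw [← hk1, ← hz3, ← eo]
    simp only [r2294, r2292, r2287, r2278, r2183, r2181, n169]
    rw [hzy]
    all_goals ring

theorem rh0Bp (T : MolP) {u b x κ τ1 τ3 : ℝ} (h : DomB u b x) (hb : 0 ≤ b)
    (hi : T.it * (n372 T u b x) = -1) (hκ : κ * h0 * (x * (1 - x)) = 2 * (n15 T u b x)) (ha : 0 < r2386 T u b x) (hR : 0 < r2393 T u b x)
    (tN : 0 < -(r2401 T u b x) ∨ 0 < -(r2407 T u b x) ∨ 0 < r2418 T u b x ∨ 0 < r2427 T u b x)
    (tM : 0 < -(r2376 T u b x) ∨ 0 < r2401 T u b x ∨ 0 < r2425 T u b x ∨ 0 < r2429 T u b x)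
    (tG : 0 < r2376 T u b x ∨ 0 < r2407 T u b x ∨ 0 < r2434 T u b x)
    (t1 : tau (h0 * (n3 T u b x)) = h0 * τ1) (t3 : tau (h0 + h0 * b - h0 * (n3 T u b x)) = h0 * τ3) :
    NGV κ (h0 * x) (n160 T u b x + b * (n458 T u b x)) (h0 * (n3 T u b x)) (h0 + h0 * b - h0 * (n3 T u b x)) ((n95 T u b x + b * (T.q1 / n3 T u b x)) * τ1, (n443 T u b x) * τ3, -(n142 T u b x)) := by
  have hy0 : 0 < n3 T u b x := h.y0
  have hy1 : n3 T u b x < 1 := h.y1
  have hz0 : 0 < n372 T u b x := by
    have := h.p0
    simp only [n372, n3]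
    linarith
  have hz1 : n372 T u b x < 1 := by
    have := h.p1
    simp only [n372, n3]
    linarith
  have hyx : n3 T u b x = x + u := by simp only [n3]
  have hzy : n372 T u b x = n3 T u b x + (-1) * b := by
    simp only [n372]
    all_goals ring
  have hex := rex T (u := u) (b := b) h.x0 h.x1
  have hk3 := rk3fB T h hi
  have hL := rL31fB T h
  have hg := rgmfB T (u := u) (b := b) (x := x)
  have hk10 := rk10fB T h
  have hE0 := rE0fB T h
  have hJ := rJ0B T h
  have hk1 : r2178 T u b x = (n3 T u b x) * (n95 T u b x + b * (T.q1 / n3 T u b x)) := by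
    have e1 : (n3 T u b x) * (T.q1 / (n3 T u b x)) = T.q1 := mul_div_cancel₀ _ hy0.ne'
    have e2 : (n3 T u b x) * (T.m1 / (n3 T u b x)) = T.m1 := mul_div_cancel₀ _ hy0.ne'
    simp only [r2178]
    linear_combination hk10 - b * e1
  have hrv : n142 T u b x = 1 / 2 + b * (T.rs) := by
    simp only [n142]
    all_goals ring
  have eNT : r2427 T u b x = u ^ 2 * ((r2256 T u b x) * (1 / 2)) + (b) * (r2418 T u b x) := by
    simp only [r2427, r2261, n298]
    all_goals ring
  have eMT : r2429 T u b x = u ^ 2 * ((r2259 T u b x) * (1 / 2)) + (b) * (r2425 T u b x) := by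
    simp only [r2429, r2265, n298]
    all_goals ring
  rw [eNT] at tN
  rw [eMT] at tM
  have hA1 : 0 ≤ (r2256 T u b x) := by
    rw [(rA0B T h).1]
    exact mul_nonneg hy0.le (nn0B1 T h)
  have hA2 : 0 ≤ (r2259 T u b x) := by
    have e := (rA0B T h).2
    have e2 := nn0B2 T h
    rw [← e] at e2
    exact nonneg_of_mul_nonneg_right e2 h.x0
  have hr : 0 ≤ (1 / 2 : ℝ) := by
    norm_num
  have hKo : (r2277 T u b x) * (n3 T u b x) = r2178 T u b x := by
    have e : (n3 T u b x) * (n3 T u b x)⁻¹ = 1 := mul_inv_cancel₀ (hy0).ne'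
    simp only [r2277, r2276]
    linear_combination (r2178 T u b x) * e
  have hS : StE x (r2138 T u b x) (n160 T u b x + b * (n458 T u b x)) (r2380 T u b x) (r2386 T u b x) (r2393 T u b x) := by
    refine StE.of_tests (β := b) (y := n3 T u b x) (u := u) (θ := 1) (r0 := 1 / 2) (r1 := T.rs) (ρ := n142 T u b x)
      (K := r2366 T u b x) (O := r2178 T u b x) (k := r2277 T u b x) (Z := n3 T u b x) (S0 := r2185 T u b x) (S1 := r2377 T u b x) (S := r2376 T u b x) (E0 := 1 / 2 * (r2140 T u b x)) (E1 := n458 T u b x)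
      (t1 := r2383 T u b x) (q := r2391 T u b x) (w := r2401 T u b x) (w1 := r2399 T u b x) (w2 := r2407 T u b x) (q1 := r2392 T u b x) (σ := r2299 T u b x) (σ1 := r2300 T u b x) (F := r2405 T u b x)
      (F0 := r2220 T u b x) (F1 := r2403 T u b x) (N1 := r2418 T u b x) (M1 := r2425 T u b x) (M2 := r2434 T u b x) (A1 := r2256 T u b x) (A2 := r2259 T u b x)
      (by linarith) hyx ?_ (by first | exact hz1 | exact hy1) ?_ ?_ ?_ ?_ ?_ ?_ ?_ ?_ ?_ ?_ ?_ ?_ ?_ ?_ ?_ ?_ ?_ ?_ ?_ ?_ ?_ ?_
      hJ.1 hJ.2 hA1 hA2 hr ha hR tN tM tG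
    · ring
    · linear_combination (1) * hKo
    · linear_combination hrv
    · simp only [r2376, r2374]
      all_goals ring
    · have e1 : r2178 T u b x = r2159 T u b x + b * (T.q1) := by
        simp only [r2178]
        all_goals ring
      simp only [r2377, r2376, r2375, r2374, r2185]
      rw [hg, hrv, e1, hL]
      all_goals ring
    · rw [hE0]
      all_goals ring
    · simp only [r2383]
      rw [hzy]
      all_goals ring
    · simp only [r2383, r2380]
      rw [hrv]
      rw [hzy]
      all_goals ring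
    · simp only [r2386, r2374, r2278]
      rw [hzy]
      all_goals ring
    · simp only [r2391, n169]
      all_goals ring
    · simp only [r2393]
    · simp only [r2300]
      all_goals ring
    · simp only [r2300, r2299, r2278]
      rw [hrv]
      all_goals ring
    · simp only [r2399, r2304, r2302, n205, n169]
      all_goals ring
    · simp only [r2401]
      all_goals ring
    · simp only [r2392, n169]
      all_goals ring
    · simp only [r2220, r2219]
      all_goals ring
    · simp only [r2403]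
      all_goals ring
    · simp only [r2405]
      all_goals ring
    · simp only [r2418, r2407, n205]
      all_goals ring
    · simp only [r2425, r2331, r2300, r2220, r2191, r2190]
      linear_combination (-1 * (r2219 T u b x)) * hKo
    · simp only [r2407]
      all_goals ring
    · simp only [r2434]
      all_goals ring
  have hz3 : r2366 T u b x = (n3 T u b x - b) * (n443 T u b x) := by
    rw [hk3, hzy]
    all_goals ring
  refine hS.ngvB_nonneg (K1 := n95 T u b x + b * (T.q1 / n3 T u b x)) (K3 := n443 T u b x) (ρ := n142 T u b x) (y := n3 T u b x) h.x0 h.x1 (by rw [← hex]; exact hκ) hb (by linarith [h.b1]) (by linarith [hz0]) hy1 ?_ ?_ ?_ t1 t3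
  · rw [← hz3]
    simp only [r2380]
    rw [hzy]
    all_goals ring
  · have eo : r2277 T u b x = n95 T u b x + b * (T.q1 / n3 T u b x) := by
      have := hKo
      rw [hk1] at this
      exact mul_right_cancel₀ hy0.ne' (by linear_combination this)
    rw [← hk1, ← hz3, ← eo]
    simp only [r2386, r2376, r2374, r2278]
    rw [hzy]
    all_goals ring
  · have eo : r2277 T u b x = n95 T u b x + b * (T.q1 / n3 T u b x) := by
      have := hKo
      rw [hk1] at this
      exact mul_right_cancel₀ hy0.ne' (by linear_combination this)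
    rw [← hk1, ← hz3, ← eo]
    simp only [r2393, r2391, r2386, r2376, r2374, r2278, n169]
    rw [hzy]
    all_goals ring

theorem rh0Bm (T : MolP) {u b x κ τ1 τ3 : ℝ} (h : DomB u b x) (hb : b < 0)
    (hi : T.it * (n372 T u b x) = -1) (hκ : κ * h0 * (x * (1 - x)) = 2 * (n15 T u b x)) (ha : 0 < r2443 T u b x) (hR : 0 < r2450 T u b x)
    (tN : 0 < -(r2463 T u b x) ∨ 0 < -(r2468 T u b x) ∨ 0 < -(r2478 T u b x) ∨ 0 < r2491 T u b x)
    (tM : 0 < -(r2376 T u b x) ∨ 0 < r2463 T u b x ∨ 0 < -(r2489 T u b x) ∨ 0 < r2493 T u b x)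
    (tG : 0 < r2376 T u b x ∨ 0 < r2468 T u b x ∨ 0 < r2500 T u b x)
    (t1 : tau (h0 * (n3 T u b x)) = h0 * τ1) (t3 : tau (h0 + h0 * b - h0 * (n3 T u b x)) = h0 * τ3) :
    NGV κ (h0 * x) (n160 T u b x + b * (n536 T u b x)) (h0 * (n3 T u b x)) (h0 + h0 * b - h0 * (n3 T u b x)) ((n95 T u b x + b * (T.q1 / n3 T u b x)) * τ1, (n443 T u b x) * τ3, -(n142 T u b x)) := by
  have hy0 : 0 < n3 T u b x := h.y0
  have hy1 : n3 T u b x < 1 := h.y1
  have hz0 : 0 < n372 T u b x := by
    have := h.p0
    simp only [n372, n3]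
    linarith
  have hz1 : n372 T u b x < 1 := by
    have := h.p1
    simp only [n372, n3]
    linarith
  have hyx : n3 T u b x = x + u := by simp only [n3]
  have hzy : n372 T u b x = n3 T u b x + (-1) * b := by
    simp only [n372]
    all_goals ring
  have hex := rex T (u := u) (b := b) h.x0 h.x1
  have hk3 := rk3fB T h hi
  have hL := rL31fB T h
  have hg := rgmfB T (u := u) (b := b) (x := x)
  have hk10 := rk10fB T h
  have hE0 := rE0fB T h
  have hJ := rJ0B T h
  have hk1 : r2178 T u b x = (n3 T u b x) * (n95 T u b x + b * (T.q1 / n3 T u b x)) := by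
    have e1 : (n3 T u b x) * (T.q1 / (n3 T u b x)) = T.q1 := mul_div_cancel₀ _ hy0.ne'
    have e2 : (n3 T u b x) * (T.m1 / (n3 T u b x)) = T.m1 := mul_div_cancel₀ _ hy0.ne'
    simp only [r2178]
    linear_combination hk10 - b * e1
  have hrv : n142 T u b x = 1 / 2 + b * (T.rs) := by
    simp only [n142]
    all_goals ring
  have eNT : r2491 T u b x = u ^ 2 * ((r2256 T u b x) * (1 / 2)) + (-b) * (-(r2478 T u b x)) := by
    simp only [r2491, r2261, n298]
    all_goals ring
  have eMT : r2493 T u b x = u ^ 2 * ((r2259 T u b x) * (1 / 2)) + (-b) * (-(r2489 T u b x)) := by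
    simp only [r2493, r2265, n298]
    all_goals ring
  rw [eNT] at tN
  rw [eMT] at tM
  have hA1 : 0 ≤ (r2256 T u b x) := by
    rw [(rA0B T h).1]
    exact mul_nonneg hy0.le (nn0B1 T h)
  have hA2 : 0 ≤ (r2259 T u b x) := by
    have e := (rA0B T h).2
    have e2 := nn0B2 T h
    rw [← e] at e2
    exact nonneg_of_mul_nonneg_right e2 h.x0
  have hr : 0 ≤ (1 / 2 : ℝ) := by
    norm_num
  have hKo : (r2439 T u b x) * (n372 T u b x) = r2366 T u b x := by
    have e : (n372 T u b x) * (n372 T u b x)⁻¹ = 1 := mul_inv_cancel₀ (hz0).ne'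
    simp only [r2439, r2438]
    linear_combination (r2366 T u b x) * e
  have hS : StE x (r2138 T u b x) (n160 T u b x + b * (n536 T u b x)) (r2189 T u b x) (r2443 T u b x) (r2450 T u b x) := by
    refine StE.of_tests (β := -b) (y := n3 T u b x) (u := u) (θ := 0) (r0 := 1 / 2) (r1 := -(T.rs)) (ρ := n142 T u b x)
      (K := -(r2178 T u b x)) (O := -(r2366 T u b x)) (k := -(r2439 T u b x)) (Z := n372 T u b x) (S0 := r2185 T u b x) (S1 := -(r2377 T u b x)) (S := r2376 T u b x) (E0 := 1 / 2 * (r2140 T u b x)) (E1 := -(n536 T u b x))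
      (t1 := -(r2191 T u b x)) (q := r2447 T u b x) (w := r2463 T u b x) (w1 := -(r2461 T u b x)) (w2 := r2468 T u b x) (q1 := -(r2449 T u b x)) (σ := r2455 T u b x) (σ1 := -(r2456 T u b x)) (F := r2466 T u b x)
      (F0 := r2220 T u b x) (F1 := -(r2464 T u b x)) (N1 := -(r2478 T u b x)) (M1 := -(r2489 T u b x)) (M2 := r2500 T u b x) (A1 := r2256 T u b x) (A2 := r2259 T u b x)
      (by linarith) hyx ?_ (by first | exact hz1 | exact hy1) ?_ ?_ ?_ ?_ ?_ ?_ ?_ ?_ ?_ ?_ ?_ ?_ ?_ ?_ ?_ ?_ ?_ ?_ ?_ ?_ ?_ ?_
      hJ.1 hJ.2 hA1 hA2 hr ha hR tN tM tG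
    · linear_combination hzy
    · linear_combination (-1) * hKo
    · linear_combination hrv
    · simp only [r2376, r2374]
      all_goals ring
    · have e1 : r2178 T u b x = r2159 T u b x + b * (T.q1) := by
        simp only [r2178]
        all_goals ring
      simp only [r2377, r2376, r2375, r2374, r2185]
      rw [hg, hrv, e1, hL]
      all_goals ring
    · rw [hE0]
      all_goals ring
    · simp only [r2191, r2190]
      all_goals ring
    · simp only [r2191, r2190, r2189]
      rw [hrv]
      all_goals ring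
    · simp only [r2443, r2440, r2374]
      all_goals ring
    · simp only [r2447]
      all_goals ring
    · simp only [r2450]
    · simp only [r2456]
      all_goals ring
    · simp only [r2456, r2455, r2440]
      rw [hrv]
      all_goals ring
    · simp only [r2461, r2459, r2213, n205]
      all_goals ring
    · simp only [r2463]
      all_goals ring
    · simp only [r2449]
      all_goals ring
    · simp only [r2220, r2219]
      all_goals ring
    · simp only [r2464, r2221]
      all_goals ring
    · simp only [r2466]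
      all_goals ring
    · simp only [r2478, r2468, r2234, n205]
      all_goals ring
    · simp only [r2489, r2480, r2479, r2456, r2439, r2220, r2190]
      all_goals ring
    · simp only [r2468]
      all_goals ring
    · simp only [r2500]
      all_goals ring
  have hz3 : r2366 T u b x = (n3 T u b x - b) * (n443 T u b x) := by
    rw [hk3, hzy]
    all_goals ring
  refine hS.ngvB_neg (K1 := n95 T u b x + b * (T.q1 / n3 T u b x)) (K3 := n443 T u b x) (ρ := n142 T u b x) (y := n3 T u b x) h.x0 h.x1 (by rw [← hex]; exact hκ) hb (by linarith [h.b0]) (by linarith [hz1]) hy0 ?_ ?_ ?_ t1 t3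
  · rw [← hk1]
    simp only [r2189]
    all_goals ring
  · have eo : r2439 T u b x = n443 T u b x := by
      have := hKo
      rw [hk3] at this
      exact mul_right_cancel₀ hz0.ne' (by linear_combination this)
    rw [← hk1, ← hz3, ← eo]
    simp only [r2443, r2440, r2376, r2374]
    all_goals ring
  · have eo : r2439 T u b x = n443 T u b x := by
      have := hKo
      rw [hk3] at this
      exact mul_right_cancel₀ hz0.ne' (by linear_combination this)
    rw [← hk1, ← hz3, ← eo]
    simp only [r2450, r2447, r2443, r2440, r2376, r2374]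
    rw [hzy]
    all_goals ring

theorem rh1Ap (T : MolP) {u b x κ τ1 τ3 : ℝ} (h : DomA u b x) (hb : 0 ≤ b) (hd : |T.dy| ≤ 1 / 2)
    (hi : T.it * (n30 T u b x) = 1) (hκ : κ * h0 * (x * (1 - x)) = 2 * (n15 T u b x)) (ha : 0 < r2555 T u b x) (hR : 0 < r2562 T u b x)
    (tN : 0 < -(r2577 T u b x) ∨ 0 < -(r2586 T u b x) ∨ 0 < r2597 T u b x ∨ 0 < r2614 T u b x)
    (tM : 0 < -(r2544 T u b x) ∨ 0 < r2577 T u b x ∨ 0 < r2607 T u b x ∨ 0 < r2618 T u b x)
    (tG : 0 < r2544 T u b x ∨ 0 < r2586 T u b x ∨ 0 < r2623 T u b x)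
    (t1 : tau (h0 * (n3 T u b x)) = h0 * τ1) (t3 : tau (h0 * (n3 T u b x) + (h0 + h0 * b)) = h0 * τ3) :
    NGV κ (h0 * x) (n654 T u b x + b * (n656 T u b x)) (h0 * (n3 T u b x)) (h0 + h0 * b) ((n728 T u b x + b * (T.q1 / n3 T u b x * (n662 T u b x) + T.m1 / n3 T u b x * (n599 T u b x))) * τ1, -(n748 T u b x), (n739 T u b x) * τ3) := by
  have hy0 : 0 < n3 T u b x := h.y0
  have hy1 : n3 T u b x < 1 := h.y1
  have hz0 : 0 < n30 T u b x := by
    have := h.p0
    simp only [n30, n3]
    linarith
  have hz1 : n30 T u b x < 1 := by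
    have := h.p1
    simp only [n30, n3]
    linarith
  have hyx : n3 T u b x = x + u := by simp only [n3]
  have hzy : n30 T u b x = n3 T u b x + (1) * b := by
    simp only [n30]
    all_goals ring
  have hex := rex T (u := u) (b := b) h.x0 h.x1
  have hk3 := rk3nA T h hi
  have hL := rL31nA T h
  have hg := rgmnA T (u := u) (b := b) (x := x)
  have hk10 := rk10nA T h
  have hE0 := rE0nA T h
  have hJ := rJ1A T h
  have hk1 : r2540 T u b x = (n3 T u b x) * (n728 T u b x + b * (T.q1 / n3 T u b x * (n662 T u b x) + T.m1 / n3 T u b x * (n599 T u b x))) := by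
    have e1 : (n3 T u b x) * (T.q1 / (n3 T u b x)) = T.q1 := mul_div_cancel₀ _ hy0.ne'
    have e2 : (n3 T u b x) * (T.m1 / (n3 T u b x)) = T.m1 := mul_div_cancel₀ _ hy0.ne'
    simp only [r2540, r2525]
    linear_combination hk10 - (b * (n662 T u b x)) * e1 - (b * (n599 T u b x)) * e2
  have hrv : n748 T u b x = 1 / 2 * (n662 T u b x) + b * (n747 T u b x) := by
    simp only [n748, n747, n746, n745, n744, n743, n741, n142]
    all_goals ring
  have eNT : r2614 T u b x = u ^ 2 * ((r2608 T u b x) * (1 / 2 * (n662 T u b x))) + (b) * (r2597 T u b x) := by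
    simp only [r2614, r2612, n298]
    all_goals ring
  have eMT : r2618 T u b x = u ^ 2 * ((r2610 T u b x) * (1 / 2 * (n662 T u b x))) + (b) * (r2607 T u b x) := by
    simp only [r2618, r2616, n298]
    all_goals ring
  rw [eNT] at tN
  rw [eMT] at tM
  have hA1 : 0 ≤ (r2608 T u b x) := by
    rw [(rA1A T h).1]
    exact mul_nonneg hy0.le (nn1A1 T h hd)
  have hA2 : 0 ≤ (r2610 T u b x) := by
    have e := (rA1A T h).2
    have e2 := nn1A2 T h hd
    rw [← e] at e2
    exact nonneg_of_mul_nonneg_right e2 h.x0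
  have hr : 0 ≤ (1 / 2 * (n662 T u b x) : ℝ) := by
    exact rr0_nonneg T h.x0 h.x1
  have hKo : (r2541 T u b x) * (n30 T u b x) = r2516 T u b x := by
    have e : (n30 T u b x) * (n30 T u b x)⁻¹ = 1 := mul_inv_cancel₀ (hz0).ne'
    simp only [r2541, r2179]
    linear_combination (r2516 T u b x) * e
  have hS : StE x (r2138 T u b x) (n654 T u b x + b * (n656 T u b x)) (r2550 T u b x) (r2555 T u b x) (r2562 T u b x) := by
    refine StE.of_tests (β := b) (y := n3 T u b x) (u := u) (θ := 0) (r0 := 1 / 2 * (n662 T u b x)) (r1 := n747 T u b x) (ρ := n748 T u b x)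
      (K := r2540 T u b x) (O := r2516 T u b x) (k := r2541 T u b x) (Z := n30 T u b x) (S0 := r2546 T u b x) (S1 := r2545 T u b x) (S := r2544 T u b x) (E0 := r2537 T u b x) (E1 := n656 T u b x)
      (t1 := r2552 T u b x) (q := r2559 T u b x) (w := r2577 T u b x) (w1 := r2575 T u b x) (w2 := r2586 T u b x) (q1 := r2561 T u b x) (σ := r2567 T u b x) (σ1 := r2568 T u b x) (F := r2584 T u b x)
      (F0 := r2580 T u b x) (F1 := r2582 T u b x) (N1 := r2597 T u b x) (M1 := r2607 T u b x) (M2 := r2623 T u b x) (A1 := r2608 T u b x) (A2 := r2610 T u b x)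
      (by linarith) hyx ?_ (by first | exact hz1 | exact hy1) ?_ ?_ ?_ ?_ ?_ ?_ ?_ ?_ ?_ ?_ ?_ ?_ ?_ ?_ ?_ ?_ ?_ ?_ ?_ ?_ ?_ ?_
      hJ.1 hJ.2 hA1 hA2 hr ha hR tN tM tG
    · linear_combination hzy
    · linear_combination (1) * hKo
    · linear_combination hrv
    · simp only [r2544, r2542]
      all_goals ring
    · have e1 : r2540 T u b x = r2506 T u b x + b * (r2525 T u b x) := by
        simp only [r2540]
        all_goals ring
      simp only [r2546, r2545, r2544, r2543, r2542]
      rw [hg, hrv, e1, hL]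
      all_goals ring
    · rw [hE0]
      all_goals ring
    · simp only [r2552, r2551]
      all_goals ring
    · simp only [r2552, r2551, r2550]
      rw [hrv]
      all_goals ring
    · simp only [r2555, r2547, r2542]
      all_goals ring
    · simp only [r2559, r2198]
      all_goals ring
    · simp only [r2562]
    · simp only [r2568]
      all_goals ring
    · simp only [r2568, r2567, r2547]
      rw [hrv]
      all_goals ring
    · simp only [r2575, r2573, r2571, r2198, n205]
      all_goals ring
    · simp only [r2577, r2572]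
      all_goals ring
    · simp only [r2561, r2198]
      all_goals ring
    · simp only [r2580, r2579]
      all_goals ring
    · simp only [r2582, r2581]
      all_goals ring
    · simp only [r2584]
      all_goals ring
    · simp only [r2597, r2594, r2586, r2572, n205]
      all_goals ring
    · simp only [r2607, r2598, r2580, r2568, r2551, r2541, r2238]
      all_goals ring
    · simp only [r2586]
      all_goals ring
    · simp only [r2623]
      all_goals ring
  have hz3 : r2516 T u b x = (n3 T u b x + b) * (n739 T u b x) := by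
    rw [hk3, hzy]
    all_goals ring
  refine hS.ngvA_nonneg (K1 := n728 T u b x + b * (T.q1 / n3 T u b x * (n662 T u b x) + T.m1 / n3 T u b x * (n599 T u b x))) (K3 := n739 T u b x) (ρ := n748 T u b x) (y := n3 T u b x) h.x0 h.x1 (by rw [← hex]; exact hκ) hb (by linarith [h.b1]) (by linarith [hz1]) hy0 ?_ ?_ ?_ t1 t3
  · rw [← hk1]
    simp only [r2550]
    all_goals ring
  · have eo : r2541 T u b x = n739 T u b x := by
      have := hKo
      rw [hk3] at this
      exact mul_right_cancel₀ hz0.ne' (by linear_combination this)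
    rw [← hk1, ← hz3, ← eo]
    simp only [r2555, r2547, r2544, r2542]
    all_goals ring
  · have eo : r2541 T u b x = n739 T u b x := by
      have := hKo
      rw [hk3] at this
      exact mul_right_cancel₀ hz0.ne' (by linear_combination this)
    rw [← hk1, ← hz3, ← eo]
    simp only [r2562, r2559, r2555, r2547, r2544, r2542, r2198]
    rw [hzy]
    all_goals ring

theorem rh1Am (T : MolP) {u b x κ τ1 τ3 : ℝ} (h : DomA u b x) (hb : b < 0) (hd : |T.dy| ≤ 1 / 2)
    (hi : T.it * (n30 T u b x) = 1) (hκ : κ * h0 * (x * (1 - x)) = 2 * (n15 T u b x)) (ha : 0 < r2637 T u b x) (hR : 0 < r2644 T u b x)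
    (tN : 0 < -(r2657 T u b x) ∨ 0 < -(r2663 T u b x) ∨ 0 < -(r2674 T u b x) ∨ 0 < r2684 T u b x)
    (tM : 0 < -(r2544 T u b x) ∨ 0 < r2657 T u b x ∨ 0 < -(r2682 T u b x) ∨ 0 < r2686 T u b x)
    (tG : 0 < r2544 T u b x ∨ 0 < r2663 T u b x ∨ 0 < r2693 T u b x)
    (t1 : tau (h0 * (n3 T u b x)) = h0 * τ1) (t3 : tau (h0 * (n3 T u b x) + (h0 + h0 * b)) = h0 * τ3) :
    NGV κ (h0 * x) (n654 T u b x + b * (n877 T u b x)) (h0 * (n3 T u b x)) (h0 + h0 * b) ((n728 T u b x + b * (T.q1 / n3 T u b x * (n662 T u b x) + T.m1 / n3 T u b x * (n599 T u b x))) * τ1, -(n748 T u b x), (n739 T u b x) * τ3) := by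
  have hy0 : 0 < n3 T u b x := h.y0
  have hy1 : n3 T u b x < 1 := h.y1
  have hz0 : 0 < n30 T u b x := by
    have := h.p0
    simp only [n30, n3]
    linarith
  have hz1 : n30 T u b x < 1 := by
    have := h.p1
    simp only [n30, n3]
    linarith
  have hyx : n3 T u b x = x + u := by simp only [n3]
  have hzy : n30 T u b x = n3 T u b x + (1) * b := by
    simp only [n30]
    all_goals ring
  have hex := rex T (u := u) (b := b) h.x0 h.x1
  have hk3 := rk3nA T h hi
  have hL := rL31nA T h
  have hg := rgmnA T (u := u) (b := b) (x := x)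
  have hk10 := rk10nA T h
  have hE0 := rE0nA T h
  have hJ := rJ1A T h
  have hk1 : r2540 T u b x = (n3 T u b x) * (n728 T u b x + b * (T.q1 / n3 T u b x * (n662 T u b x) + T.m1 / n3 T u b x * (n599 T u b x))) := by
    have e1 : (n3 T u b x) * (T.q1 / (n3 T u b x)) = T.q1 := mul_div_cancel₀ _ hy0.ne'
    have e2 : (n3 T u b x) * (T.m1 / (n3 T u b x)) = T.m1 := mul_div_cancel₀ _ hy0.ne'
    simp only [r2540, r2525]
    linear_combination hk10 - (b * (n662 T u b x)) * e1 - (b * (n599 T u b x)) * e2
  have hrv : n748 T u b x = 1 / 2 * (n662 T u b x) + b * (n747 T u b x) := by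
    simp only [n748, n747, n746, n745, n744, n743, n741, n142]
    all_goals ring
  have eNT : r2684 T u b x = u ^ 2 * ((r2608 T u b x) * (1 / 2 * (n662 T u b x))) + (-b) * (-(r2674 T u b x)) := by
    simp only [r2684, r2612, n298]
    all_goals ring
  have eMT : r2686 T u b x = u ^ 2 * ((r2610 T u b x) * (1 / 2 * (n662 T u b x))) + (-b) * (-(r2682 T u b x)) := by
    simp only [r2686, r2616, n298]
    all_goals ring
  rw [eNT] at tN
  rw [eMT] at tM
  have hA1 : 0 ≤ (r2608 T u b x) := by
    rw [(rA1A T h).1]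
    exact mul_nonneg hy0.le (nn1A1 T h hd)
  have hA2 : 0 ≤ (r2610 T u b x) := by
    have e := (rA1A T h).2
    have e2 := nn1A2 T h hd
    rw [← e] at e2
    exact nonneg_of_mul_nonneg_right e2 h.x0
  have hr : 0 ≤ (1 / 2 * (n662 T u b x) : ℝ) := by
    exact rr0_nonneg T h.x0 h.x1
  have hKo : (r2627 T u b x) * (n3 T u b x) = r2540 T u b x := by
    have e : (n3 T u b x) * (n3 T u b x)⁻¹ = 1 := mul_inv_cancel₀ (hy0).ne'
    simp only [r2627, r2276]
    linear_combination (r2540 T u b x) * e
  have hS : StE x (r2138 T u b x) (n654 T u b x + b * (n877 T u b x)) (r2631 T u b x) (r2637 T u b x) (r2644 T u b x) := by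
    refine StE.of_tests (β := -b) (y := n3 T u b x) (u := u) (θ := 1) (r0 := 1 / 2 * (n662 T u b x)) (r1 := -(n747 T u b x)) (ρ := n748 T u b x)
      (K := -(r2516 T u b x)) (O := -(r2540 T u b x)) (k := -(r2627 T u b x)) (Z := n3 T u b x) (S0 := r2546 T u b x) (S1 := -(r2545 T u b x)) (S := r2544 T u b x) (E0 := r2537 T u b x) (E1 := -(n877 T u b x))
      (t1 := -(r2634 T u b x)) (q := r2642 T u b x) (w := r2657 T u b x) (w1 := -(r2655 T u b x)) (w2 := r2663 T u b x) (q1 := -(r2643 T u b x)) (σ := r2649 T u b x) (σ1 := -(r2650 T u b x)) (F := r2661 T u b x)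
      (F0 := r2580 T u b x) (F1 := -(r2659 T u b x)) (N1 := -(r2674 T u b x)) (M1 := -(r2682 T u b x)) (M2 := r2693 T u b x) (A1 := r2608 T u b x) (A2 := r2610 T u b x)
      (by linarith) hyx ?_ (by first | exact hz1 | exact hy1) ?_ ?_ ?_ ?_ ?_ ?_ ?_ ?_ ?_ ?_ ?_ ?_ ?_ ?_ ?_ ?_ ?_ ?_ ?_ ?_ ?_ ?_
      hJ.1 hJ.2 hA1 hA2 hr ha hR tN tM tG
    · ring
    · linear_combination (-1) * hKo
    · linear_combination hrv
    · simp only [r2544, r2542]
      all_goals ring
    · have e1 : r2540 T u b x = r2506 T u b x + b * (r2525 T u b x) := by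
        simp only [r2540]
        all_goals ring
      simp only [r2546, r2545, r2544, r2543, r2542]
      rw [hg, hrv, e1, hL]
      all_goals ring
    · rw [hE0]
      all_goals ring
    · simp only [r2634]
      rw [hzy]
      all_goals ring
    · simp only [r2634, r2631]
      rw [hrv]
      rw [hzy]
      all_goals ring
    · simp only [r2637, r2628, r2542]
      rw [hzy]
      all_goals ring
    · simp only [r2642, n169]
      all_goals ring
    · simp only [r2644]
    · simp only [r2650]
      all_goals ring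
    · simp only [r2650, r2649, r2628]
      rw [hrv]
      all_goals ring
    · simp only [r2655, r2654, r2652, n205, n169]
      all_goals ring
    · simp only [r2657, r2572]
      all_goals ring
    · simp only [r2643, n169]
      all_goals ring
    · simp only [r2580, r2579]
      all_goals ring
    · simp only [r2659]
      all_goals ring
    · simp only [r2661]
      all_goals ring
    · simp only [r2674, r2663, r2572, n205]
      all_goals ring
    · simp only [r2682, r2681, r2650, r2580, r2552, r2551]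
      linear_combination (1 * (r2579 T u b x)) * hKo
    · simp only [r2663]
      all_goals ring
    · simp only [r2693]
      all_goals ring
  have hz3 : r2516 T u b x = (n3 T u b x + b) * (n739 T u b x) := by
    rw [hk3, hzy]
    all_goals ring
  refine hS.ngvA_neg (K1 := n728 T u b x + b * (T.q1 / n3 T u b x * (n662 T u b x) + T.m1 / n3 T u b x * (n599 T u b x))) (K3 := n739 T u b x) (ρ := n748 T u b x) (y := n3 T u b x) h.x0 h.x1 (by rw [← hex]; exact hκ) hb (by linarith [h.b0]) (by linarith [hz0]) hy1 ?_ ?_ ?_ t1 t3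
  · rw [← hz3]
    simp only [r2631]
    rw [hzy]
    all_goals ring
  · have eo : r2627 T u b x = n728 T u b x + b * (T.q1 / n3 T u b x * (n662 T u b x) + T.m1 / n3 T u b x * (n599 T u b x)) := by
      have := hKo
      rw [hk1] at this
      exact mul_right_cancel₀ hy0.ne' (by linear_combination this)
    rw [← hk1, ← hz3, ← eo]
    simp only [r2637, r2628, r2544, r2542]
    rw [hzy]
    all_goals ring
  · have eo : r2627 T u b x = n728 T u b x + b * (T.q1 / n3 T u b x * (n662 T u b x) + T.m1 / n3 T u b x * (n599 T u b x)) := by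
      have := hKo
      rw [hk1] at this
      exact mul_right_cancel₀ hy0.ne' (by linear_combination this)
    rw [← hk1, ← hz3, ← eo]
    simp only [r2644, r2642, r2637, r2628, r2544, r2542, n169]
    rw [hzy]
    all_goals ring

theorem rh1Bp (T : MolP) {u b x κ τ1 τ3 : ℝ} (h : DomB u b x) (hb : 0 ≤ b) (hd : |T.dy| ≤ 1 / 2)
    (hi : T.it * (n372 T u b x) = -1) (hκ : κ * h0 * (x * (1 - x)) = 2 * (n15 T u b x)) (ha : 0 < r2724 T u b x) (hR : 0 < r2731 T u b x)
    (tN : 0 < -(r2739 T u b x) ∨ 0 < -(r2745 T u b x) ∨ 0 < r2756 T u b x ∨ 0 < r2765 T u b x)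
    (tM : 0 < -(r2714 T u b x) ∨ 0 < r2739 T u b x ∨ 0 < r2763 T u b x ∨ 0 < r2767 T u b x)
    (tG : 0 < r2714 T u b x ∨ 0 < r2745 T u b x ∨ 0 < r2772 T u b x)
    (t1 : tau (h0 * (n3 T u b x)) = h0 * τ1) (t3 : tau (h0 + h0 * b - h0 * (n3 T u b x)) = h0 * τ3) :
    NGV κ (h0 * x) (n654 T u b x + b * (n990 T u b x)) (h0 * (n3 T u b x)) (h0 + h0 * b - h0 * (n3 T u b x)) ((n728 T u b x + b * (T.q1 / n3 T u b x * (n662 T u b x) + T.m1 / n3 T u b x * (n599 T u b x))) * τ1, (n1044 T u b x) * τ3, -(n748 T u b x)) := by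
  have hy0 : 0 < n3 T u b x := h.y0
  have hy1 : n3 T u b x < 1 := h.y1
  have hz0 : 0 < n372 T u b x := by
    have := h.p0
    simp only [n372, n3]
    linarith
  have hz1 : n372 T u b x < 1 := by
    have := h.p1
    simp only [n372, n3]
    linarith
  have hyx : n3 T u b x = x + u := by simp only [n3]
  have hzy : n372 T u b x = n3 T u b x + (-1) * b := by
    simp only [n372]
    all_goals ring
  have hex := rex T (u := u) (b := b) h.x0 h.x1
  have hk3 := rk3nB T h hi
  have hL := rL31nB T h
  have hg := rgmnB T (u := u) (b := b) (x := x)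
  have hk10 := rk10nB T h
  have hE0 := rE0nB T h
  have hJ := rJ1B T h
  have hk1 : r2540 T u b x = (n3 T u b x) * (n728 T u b x + b * (T.q1 / n3 T u b x * (n662 T u b x) + T.m1 / n3 T u b x * (n599 T u b x))) := by
    have e1 : (n3 T u b x) * (T.q1 / (n3 T u b x)) = T.q1 := mul_div_cancel₀ _ hy0.ne'
    have e2 : (n3 T u b x) * (T.m1 / (n3 T u b x)) = T.m1 := mul_div_cancel₀ _ hy0.ne'
    simp only [r2540, r2525]
    linear_combination hk10 - (b * (n662 T u b x)) * e1 - (b * (n599 T u b x)) * e2
  have hrv : n748 T u b x = 1 / 2 * (n662 T u b x) + b * (n747 T u b x) := by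
    simp only [n748, n747, n746, n745, n744, n743, n741, n142]
    all_goals ring
  have eNT : r2765 T u b x = u ^ 2 * ((r2608 T u b x) * (1 / 2 * (n662 T u b x))) + (b) * (r2756 T u b x) := by
    simp only [r2765, r2612, n298]
    all_goals ring
  have eMT : r2767 T u b x = u ^ 2 * ((r2610 T u b x) * (1 / 2 * (n662 T u b x))) + (b) * (r2763 T u b x) := by
    simp only [r2767, r2616, n298]
    all_goals ring
  rw [eNT] at tN
  rw [eMT] at tM
  have hA1 : 0 ≤ (r2608 T u b x) := by
    rw [(rA1B T h).1]
    exact mul_nonneg hy0.le (nn1B1 T h hd)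
  have hA2 : 0 ≤ (r2610 T u b x) := by
    have e := (rA1B T h).2
    have e2 := nn1B2 T h hd
    rw [← e] at e2
    exact nonneg_of_mul_nonneg_right e2 h.x0
  have hr : 0 ≤ (1 / 2 * (n662 T u b x) : ℝ) := by
    exact rr0_nonneg T h.x0 h.x1
  have hKo : (r2627 T u b x) * (n3 T u b x) = r2540 T u b x := by
    have e : (n3 T u b x) * (n3 T u b x)⁻¹ = 1 := mul_inv_cancel₀ (hy0).ne'
    simp only [r2627, r2276]
    linear_combination (r2540 T u b x) * e
  have hS : StE x (r2138 T u b x) (n654 T u b x + b * (n990 T u b x)) (r2718 T u b x) (r2724 T u b x) (r2731 T u b x) := by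
    refine StE.of_tests (β := b) (y := n3 T u b x) (u := u) (θ := 1) (r0 := 1 / 2 * (n662 T u b x)) (r1 := n747 T u b x) (ρ := n748 T u b x)
      (K := r2705 T u b x) (O := r2540 T u b x) (k := r2627 T u b x) (Z := n3 T u b x) (S0 := r2546 T u b x) (S1 := r2715 T u b x) (S := r2714 T u b x) (E0 := r2537 T u b x) (E1 := n990 T u b x)
      (t1 := r2721 T u b x) (q := r2729 T u b x) (w := r2739 T u b x) (w1 := r2737 T u b x) (w2 := r2745 T u b x) (q1 := r2730 T u b x) (σ := r2649 T u b x) (σ1 := r2650 T u b x) (F := r2743 T u b x)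
      (F0 := r2580 T u b x) (F1 := r2741 T u b x) (N1 := r2756 T u b x) (M1 := r2763 T u b x) (M2 := r2772 T u b x) (A1 := r2608 T u b x) (A2 := r2610 T u b x)
      (by linarith) hyx ?_ (by first | exact hz1 | exact hy1) ?_ ?_ ?_ ?_ ?_ ?_ ?_ ?_ ?_ ?_ ?_ ?_ ?_ ?_ ?_ ?_ ?_ ?_ ?_ ?_ ?_ ?_
      hJ.1 hJ.2 hA1 hA2 hr ha hR tN tM tG
    · ring
    · linear_combination (1) * hKo
    · linear_combination hrv
    · simp only [r2714, r2712]
      all_goals ring
    · have e1 : r2540 T u b x = r2506 T u b x + b * (r2525 T u b x) := by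
        simp only [r2540]
        all_goals ring
      simp only [r2715, r2714, r2713, r2712, r2546]
      rw [hg, hrv, e1, hL]
      all_goals ring
    · rw [hE0]
      all_goals ring
    · simp only [r2721]
      rw [hzy]
      all_goals ring
    · simp only [r2721, r2718]
      rw [hrv]
      rw [hzy]
      all_goals ring
    · simp only [r2724, r2712, r2628]
      rw [hzy]
      all_goals ring
    · simp only [r2729, n169]
      all_goals ring
    · simp only [r2731]
    · simp only [r2650]
      all_goals ring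
    · simp only [r2650, r2649, r2628]
      rw [hrv]
      all_goals ring
    · simp only [r2737, r2654, r2652, n205, n169]
      all_goals ring
    · simp only [r2739, r2572]
      all_goals ring
    · simp only [r2730, n169]
      all_goals ring
    · simp only [r2580, r2579]
      all_goals ring
    · simp only [r2741]
      all_goals ring
    · simp only [r2743]
      all_goals ring
    · simp only [r2756, r2745, r2572, n205]
      all_goals ring
    · simp only [r2763, r2681, r2650, r2580, r2552, r2551]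
      linear_combination (-1 * (r2579 T u b x)) * hKo
    · simp only [r2745]
      all_goals ring
    · simp only [r2772]
      all_goals ring
  have hz3 : r2705 T u b x = (n3 T u b x - b) * (n1044 T u b x) := by
    rw [hk3, hzy]
    all_goals ring
  refine hS.ngvB_nonneg (K1 := n728 T u b x + b * (T.q1 / n3 T u b x * (n662 T u b x) + T.m1 / n3 T u b x * (n599 T u b x))) (K3 := n1044 T u b x) (ρ := n748 T u b x) (y := n3 T u b x) h.x0 h.x1 (by rw [← hex]; exact hκ) hb (by linarith [h.b1]) (by linarith [hz0]) hy1 ?_ ?_ ?_ t1 t3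
  · rw [← hz3]
    simp only [r2718]
    rw [hzy]
    all_goals ring
  · have eo : r2627 T u b x = n728 T u b x + b * (T.q1 / n3 T u b x * (n662 T u b x) + T.m1 / n3 T u b x * (n599 T u b x)) := by
      have := hKo
      rw [hk1] at this
      exact mul_right_cancel₀ hy0.ne' (by linear_combination this)
    rw [← hk1, ← hz3, ← eo]
    simp only [r2724, r2714, r2712, r2628]
    rw [hzy]
    all_goals ring
  · have eo : r2627 T u b x = n728 T u b x + b * (T.q1 / n3 T u b x * (n662 T u b x) + T.m1 / n3 T u b x * (n599 T u b x)) := by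
      have := hKo
      rw [hk1] at this
      exact mul_right_cancel₀ hy0.ne' (by linear_combination this)
    rw [← hk1, ← hz3, ← eo]
    simp only [r2731, r2729, r2724, r2714, r2712, r2628, n169]
    rw [hzy]
    all_goals ring

theorem rh1Bm (T : MolP) {u b x κ τ1 τ3 : ℝ} (h : DomB u b x) (hb : b < 0) (hd : |T.dy| ≤ 1 / 2)
    (hi : T.it * (n372 T u b x) = -1) (hκ : κ * h0 * (x * (1 - x)) = 2 * (n15 T u b x)) (ha : 0 < r2780 T u b x) (hR : 0 < r2787 T u b x)
    (tN : 0 < -(r2800 T u b x) ∨ 0 < -(r2805 T u b x) ∨ 0 < -(r2815 T u b x) ∨ 0 < r2827 T u b x)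
    (tM : 0 < -(r2714 T u b x) ∨ 0 < r2800 T u b x ∨ 0 < -(r2825 T u b x) ∨ 0 < r2829 T u b x)
    (tG : 0 < r2714 T u b x ∨ 0 < r2805 T u b x ∨ 0 < r2836 T u b x)
    (t1 : tau (h0 * (n3 T u b x)) = h0 * τ1) (t3 : tau (h0 + h0 * b - h0 * (n3 T u b x)) = h0 * τ3) :
    NGV κ (h0 * x) (n654 T u b x + b * (n1122 T u b x)) (h0 * (n3 T u b x)) (h0 + h0 * b - h0 * (n3 T u b x)) ((n728 T u b x + b * (T.q1 / n3 T u b x * (n662 T u b x) + T.m1 / n3 T u b x * (n599 T u b x))) * τ1, (n1044 T u b x) * τ3, -(n748 T u b x)) := by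
  have hy0 : 0 < n3 T u b x := h.y0
  have hy1 : n3 T u b x < 1 := h.y1
  have hz0 : 0 < n372 T u b x := by
    have := h.p0
    simp only [n372, n3]
    linarith
  have hz1 : n372 T u b x < 1 := by
    have := h.p1
    simp only [n372, n3]
    linarith
  have hyx : n3 T u b x = x + u := by simp only [n3]
  have hzy : n372 T u b x = n3 T u b x + (-1) * b := by
    simp only [n372]
    all_goals ring
  have hex := rex T (u := u) (b := b) h.x0 h.x1
  have hk3 := rk3nB T h hi
  have hL := rL31nB T h
  have hg := rgmnB T (u := u) (b := b) (x := x)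
  have hk10 := rk10nB T h
  have hE0 := rE0nB T h
  have hJ := rJ1B T h
  have hk1 : r2540 T u b x = (n3 T u b x) * (n728 T u b x + b * (T.q1 / n3 T u b x * (n662 T u b x) + T.m1 / n3 T u b x * (n599 T u b x))) := by
    have e1 : (n3 T u b x) * (T.q1 / (n3 T u b x)) = T.q1 := mul_div_cancel₀ _ hy0.ne'
    have e2 : (n3 T u b x) * (T.m1 / (n3 T u b x)) = T.m1 := mul_div_cancel₀ _ hy0.ne'
    simp only [r2540, r2525]
    linear_combination hk10 - (b * (n662 T u b x)) * e1 - (b * (n599 T u b x)) * e2
  have hrv : n748 T u b x = 1 / 2 * (n662 T u b x) + b * (n747 T u b x) := by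
    simp only [n748, n747, n746, n745, n744, n743, n741, n142]
    all_goals ring
  have eNT : r2827 T u b x = u ^ 2 * ((r2608 T u b x) * (1 / 2 * (n662 T u b x))) + (-b) * (-(r2815 T u b x)) := by
    simp only [r2827, r2612, n298]
    all_goals ring
  have eMT : r2829 T u b x = u ^ 2 * ((r2610 T u b x) * (1 / 2 * (n662 T u b x))) + (-b) * (-(r2825 T u b x)) := by
    simp only [r2829, r2616, n298]
    all_goals ring
  rw [eNT] at tN
  rw [eMT] at tM
  have hA1 : 0 ≤ (r2608 T u b x) := by
    rw [(rA1B T h).1]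
    exact mul_nonneg hy0.le (nn1B1 T h hd)
  have hA2 : 0 ≤ (r2610 T u b x) := by
    have e := (rA1B T h).2
    have e2 := nn1B2 T h hd
    rw [← e] at e2
    exact nonneg_of_mul_nonneg_right e2 h.x0
  have hr : 0 ≤ (1 / 2 * (n662 T u b x) : ℝ) := by
    exact rr0_nonneg T h.x0 h.x1
  have hKo : (r2776 T u b x) * (n372 T u b x) = r2705 T u b x := by
    have e : (n372 T u b x) * (n372 T u b x)⁻¹ = 1 := mul_inv_cancel₀ (hz0).ne'
    simp only [r2776, r2438]
    linear_combination (r2705 T u b x) * e
  have hS : StE x (r2138 T u b x) (n654 T u b x + b * (n1122 T u b x)) (r2550 T u b x) (r2780 T u b x) (r2787 T u b x) := by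
    refine StE.of_tests (β := -b) (y := n3 T u b x) (u := u) (θ := 0) (r0 := 1 / 2 * (n662 T u b x)) (r1 := -(n747 T u b x)) (ρ := n748 T u b x)
      (K := -(r2540 T u b x)) (O := -(r2705 T u b x)) (k := -(r2776 T u b x)) (Z := n372 T u b x) (S0 := r2546 T u b x) (S1 := -(r2715 T u b x)) (S := r2714 T u b x) (E0 := r2537 T u b x) (E1 := -(n1122 T u b x))
      (t1 := -(r2552 T u b x)) (q := r2784 T u b x) (w := r2800 T u b x) (w1 := -(r2798 T u b x)) (w2 := r2805 T u b x) (q1 := -(r2786 T u b x)) (σ := r2792 T u b x) (σ1 := -(r2793 T u b x)) (F := r2803 T u b x)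
      (F0 := r2580 T u b x) (F1 := -(r2801 T u b x)) (N1 := -(r2815 T u b x)) (M1 := -(r2825 T u b x)) (M2 := r2836 T u b x) (A1 := r2608 T u b x) (A2 := r2610 T u b x)
      (by linarith) hyx ?_ (by first | exact hz1 | exact hy1) ?_ ?_ ?_ ?_ ?_ ?_ ?_ ?_ ?_ ?_ ?_ ?_ ?_ ?_ ?_ ?_ ?_ ?_ ?_ ?_ ?_ ?_
      hJ.1 hJ.2 hA1 hA2 hr ha hR tN tM tG
    · linear_combination hzy
    · linear_combination (-1) * hKo
    · linear_combination hrv
    · simp only [r2714, r2712]
      all_goals ring
    · have e1 : r2540 T u b x = r2506 T u b x + b * (r2525 T u b x) := by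
        simp only [r2540]
        all_goals ring
      simp only [r2715, r2714, r2713, r2712, r2546]
      rw [hg, hrv, e1, hL]
      all_goals ring
    · rw [hE0]
      all_goals ring
    · simp only [r2552, r2551]
      all_goals ring
    · simp only [r2552, r2551, r2550]
      rw [hrv]
      all_goals ring
    · simp only [r2780, r2777, r2712]
      all_goals ring
    · simp only [r2784]
      all_goals ring
    · simp only [r2787]
    · simp only [r2793]
      all_goals ring
    · simp only [r2793, r2792, r2777]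
      rw [hrv]
      all_goals ring
    · simp only [r2798, r2796, r2573, n205]
      all_goals ring
    · simp only [r2800, r2572]
      all_goals ring
    · simp only [r2786]
      all_goals ring
    · simp only [r2580, r2579]
      all_goals ring
    · simp only [r2801, r2581]
      all_goals ring
    · simp only [r2803]
      all_goals ring
    · simp only [r2815, r2805, r2594, r2572, n205]
      all_goals ring
    · simp only [r2825, r2816, r2793, r2776, r2580, r2551, r2479]
      all_goals ring
    · simp only [r2805]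
      all_goals ring
    · simp only [r2836]
      all_goals ring
  have hz3 : r2705 T u b x = (n3 T u b x - b) * (n1044 T u b x) := by
    rw [hk3, hzy]
    all_goals ring
  refine hS.ngvB_neg (K1 := n728 T u b x + b * (T.q1 / n3 T u b x * (n662 T u b x) + T.m1 / n3 T u b x * (n599 T u b x))) (K3 := n1044 T u b x) (ρ := n748 T u b x) (y := n3 T u b x) h.x0 h.x1 (by rw [← hex]; exact hκ) hb (by linarith [h.b0]) (by linarith [hz1]) hy0 ?_ ?_ ?_ t1 t3
  · rw [← hk1]
    simp only [r2550]
    all_goals ring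
  · have eo : r2776 T u b x = n1044 T u b x := by
      have := hKo
      rw [hk3] at this
      exact mul_right_cancel₀ hz0.ne' (by linear_combination this)
    rw [← hk1, ← hz3, ← eo]
    simp only [r2780, r2777, r2714, r2712]
    all_goals ring
  · have eo : r2776 T u b x = n1044 T u b x := by
      have := hKo
      rw [hk3] at this
      exact mul_right_cancel₀ hz0.ne' (by linear_combination this)
    rw [← hk1, ← hz3, ← eo]
    simp only [r2787, r2784, r2780, r2777, r2714, r2712]
    rw [hzy]
    all_goals ring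

end Pool.Agent.Strip051.LC.MolN
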