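import Pool.Agent.Strip051.LC.Exact.MolU2

/-! # The near vertex at the tight triangles: the other sign

An upper bound for the integral of the difference of the densities over the short edge. -/

namespace Pool.Agent.Strip051.LC

open Pool.Agent.StripNear Pool.Agent.StripSquare Pool.Agent.Strip051.Sweep
open Pool.Agent.Strip051.LC.Line (D D_refl D_add D_low D_high D_abs D_add_int D_add_nat
  Dd_continuous mn jn tau)

section

variable {s th : ℝ}

theorem tnt_nn {x : ℝ} (hs0 : 0 < s) (hs1 : s < h0) (ht : 0 < th) (ht1 : th ≤ 1)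
    (h : 0 ≤ Dh s x) : 0 ≤ tnt s th x := by
  rw [tnt_eq hs0 hs1 ht]
  have hc : 0 ≤ 1 / th - 1 := by
    rw [sub_nonneg, le_div_iff₀ ht]
    linarith
  have hu : 0 ≤ Dh s x / th := div_nonneg h ht.le
  have m : max 0 (-(Dh s x / th) - (1 / th - 1)) = 0 := max_eq_left (by linarith)
  unfold sft
  rw [m]
  have := le_max_left (0 : ℝ) (Dh s x / th - (1 / th - 1))
  linarith

theorem gd_mid {x : ℝ} (hs0 : 0 < s) (hs1 : s < h0) (ht : 0 < th) (ht1 : th ≤ 1)
    (h : Dh s x ≤ 0) : gd s th x ≤ -Dh s x := by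
  have h1 : 0 ≤ Dh s (s - x) := by
    rw [Dh_refl hs0 hs1]
    linarith
  have h2 := tnt_nn hs0 hs1 ht ht1 h1
  rw [(tnt_denOk ht ht1 hs0 hs1).mir] at h2
  unfold gd
  linarith

/-- The integral of a function below a ramp and below a falling line. -/
theorem ramp {F : ℝ → ℝ} {m w : ℝ} (hm : 0 < m) (ht : 0 < th) (ht1 : th ≤ 1)
    (hI : ∀ a b, IntervalIntegrable F MeasureTheory.volume a b)
    (h1 : ∀ x, 0 ≤ x → x ≤ m / 2 → F x ≤ (1 / th - 1) * (2 * x / m))
    (h2 : ∀ x, 0 ≤ x → x ≤ m / 2 → F x ≤ 1 - 2 * x / m)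
    (h3 : ∀ x, m / 2 ≤ x → x ≤ m → F x ≤ 0) (h0w : 0 ≤ w) :
    (w ≤ m / 2 → ∫ x in (0 : ℝ)..w, F x ≤ (1 / th - 1) * (w ^ 2 / m)) ∧
      (th * m / 2 ≤ w → w ≤ m / 2 → ∫ x in (0 : ℝ)..w, F x ≤ w - w ^ 2 / m - th * m / 4) ∧
      (w ≤ m → ∫ x in (0 : ℝ)..w, F x ≤ (1 - th) * m / 4) := by
  have A1 : ∀ w, 0 ≤ w → w ≤ m / 2 →
      ∫ x in (0 : ℝ)..w, F x ≤ (1 / th - 1) * (w ^ 2 / m) := by
    intro w h0w hw
    have g := intervalIntegral.integral_mono_on (a := 0) (b := w) h0w (hI _ _)
      (Continuous.intervalIntegrable (by fun_prop :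
        Continuous fun x : ℝ => 0 + (1 / th - 1) * (2 / m) * x) _ _)
      fun x hx => by
        have := h1 x hx.1 (by linarith [hx.2])
        have e : (1 / th - 1) * (2 * x / m) = 0 + (1 / th - 1) * (2 / m) * x := by ring
        rw [← e]
        exact this
    rw [lin_int] at g
    refine g.trans (le_of_eq ?_)
    ring
  have A2 : ∀ w, th * m / 2 ≤ w → w ≤ m / 2 →
      ∫ x in (0 : ℝ)..w, F x ≤ w - w ^ 2 / m - th * m / 4 := by
    intro w hw hw'
    have h0 : 0 ≤ th * m / 2 := by positivity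
    have k1 := A1 (th * m / 2) h0 (by linarith)
    have g := intervalIntegral.integral_mono_on (a := th * m / 2) (b := w) hw (hI _ _)
      (Continuous.intervalIntegrable (by fun_prop :
        Continuous fun x : ℝ => 1 + -(2 / m) * x) _ _)
      fun x hx => by
        have := h2 x (by linarith [hx.1]) (by linarith [hx.2])
        have e : 1 - 2 * x / m = 1 + -(2 / m) * x := by ring
        rw [← e]
        exact this
    rw [lin_int] at g
    have e := intervalIntegral.integral_add_adjacent_intervals (hI 0 (th * m / 2))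
      (hI (th * m / 2) w)
    have e1 : (1 / th - 1) * ((th * m / 2) ^ 2 / m) = (1 - th) * th * m / 4 := by
      field_simp
      ring
    have e2 : (w - th * m / 2) * 1 + -(2 / m) * ((w ^ 2 - (th * m / 2) ^ 2) / 2) =
        w - w ^ 2 / m - th * m / 2 + th ^ 2 * m / 4 := by
      field_simp
      ring
    rw [e1] at k1
    rw [e2] at g
    nlinarith only [k1, g, e]
  have A3 : ∀ w, 0 ≤ w → w ≤ m / 2 → ∫ x in (0 : ℝ)..w, F x ≤ (1 - th) * m / 4 := by
    intro w h0w hw
    rcases le_total (th * m / 2) w with h | h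
    · refine (A2 w h hw).trans ?_
      have : w - w ^ 2 / m ≤ m / 4 := by
        rw [sub_le_iff_le_add, ← sub_le_iff_le_add', le_div_iff₀ hm]
        nlinarith [sq_nonneg (w - m / 2)]
      linarith
    · refine (A1 w h0w hw).trans ?_
      have k : w ^ 2 / m ≤ (th * m / 2) ^ 2 / m := by
        refine div_le_div_of_nonneg_right ?_ hm.le
        nlinarith
      have hc : 0 ≤ 1 / th - 1 := by
        rw [sub_nonneg, le_div_iff₀ ht]
        linarith
      have e1 : (1 / th - 1) * ((th * m / 2) ^ 2 / m) = (1 - th) * th * m / 4 := by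
        field_simp
        ring
      have k2 := mul_le_mul_of_nonneg_left k hc
      rw [e1] at k2
      have k3 : (1 - th) * th * m / 4 ≤ (1 - th) * m / 4 := by
        have : 0 ≤ (1 - th) * m := mul_nonneg (by linarith) hm.le
        nlinarith
      linarith
  refine ⟨A1 w h0w, A2 w, fun hw => ?_⟩
  rcases le_total w (m / 2) with h | h
  · exact A3 w h0w h
  · have e := intervalIntegral.integral_add_adjacent_intervals (hI 0 (m / 2)) (hI (m / 2) w)
    have k := A3 (m / 2) (by linarith) le_rfl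
    have g := intervalIntegral.integral_mono_on (a := m / 2) (b := w) (g := fun _ => (0 : ℝ)) h
      (hI _ _) (by simp) fun x hx => h3 x hx.1 (by linarith [hx.2])
    rw [intervalIntegral.integral_zero] at g
    linarith

/-- The primitive from zero on the first cell. -/
theorem upA {w : ℝ} (hs0 : 0 < s) (hs1 : s < h0) (ht : 0 < th) (ht1 : th ≤ 1) (h0w : 0 ≤ w) :
    (w ≤ s / 2 → ∫ x in (0 : ℝ)..w, gd s th x ≤ (1 / th - 1) * (w ^ 2 / s)) ∧
      (th * s / 2 ≤ w → w ≤ s / 2 →
        ∫ x in (0 : ℝ)..w, gd s th x ≤ w - w ^ 2 / s - th * s / 4) ∧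
      (w ≤ s → ∫ x in (0 : ℝ)..w, gd s th x ≤ (1 - th) * s / 4) := by
  refine ramp hs0 ht ht1 (gd_int hs0 hs1 ht ht1) ?_ ?_ ?_ h0w
  · intro x hx hx'
    have := (gd_neg hs0 hs1 ht ht1 (Dh_half' hs0 hs1 hx hx')).2.1
    rw [Dh_low hs0 hs1 hx (by linarith)] at this
    refine this.trans (le_of_eq ?_)
    ring
  · intro x hx hx'
    have := gd_mid hs0 hs1 ht ht1 (Dh_half' hs0 hs1 hx hx')
    rw [Dh_low hs0 hs1 hx (by linarith)] at this
    linarith
  · intro x hx hx'
    exact (gd_pos hs0 hs1 ht ht1 (Dh_half hs0 hs1 hx hx')).1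

/-- The integral up to zero on the second cell. -/
theorem upB {a : ℝ} (hs0 : 0 < s) (hs1 : s < h0) (ht : 0 < th) (ht1 : th ≤ 1) (h0a : 0 ≤ a) :
    (a ≤ (h0 - s) / 2 →
      ∫ x in (-a)..(0 : ℝ), gd s th x ≤ (1 / th - 1) * (a ^ 2 / (h0 - s))) ∧
      (th * (h0 - s) / 2 ≤ a → a ≤ (h0 - s) / 2 →
        ∫ x in (-a)..(0 : ℝ), gd s th x ≤ a - a ^ 2 / (h0 - s) - th * (h0 - s) / 4) ∧
      (a ≤ h0 - s → ∫ x in (-a)..(0 : ℝ), gd s th x ≤ (1 - th) * (h0 - s) / 4) := by
  have h1 : 0 < h0 - s := by linarith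
  have e : ∀ a : ℝ, ∫ x in (-a)..(0 : ℝ), gd s th x = ∫ x in (0 : ℝ)..a, gd s th (-x) := by
    intro a
    have := intervalIntegral.integral_comp_neg (a := 0) (b := a) fun x => gd s th x
    rw [this, neg_zero]
  rw [e]
  have hD : ∀ x, 0 ≤ x → x ≤ h0 - s → Dh s (-x) = 2 * x / (h0 - s) - 1 := by
    intro x hx hx'
    rw [← Dh_add, Dh_high hs0 hs1 (by linarith) (by linarith)]
    field_simp
    ring
  refine ramp h1 ht ht1 (fun a b =>
    ((gd_cont hs0 hs1 ht ht1).comp continuous_neg).intervalIntegrable a b) ?_ ?_ ?_ h0a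
  · intro x hx hx'
    have h2 : Dh s (-x) ≤ 0 := by
      rw [hD x hx (by linarith), sub_nonpos, div_le_iff₀ h1]
      linarith
    have := (gd_neg hs0 hs1 ht ht1 h2).2.1
    rw [hD x hx (by linarith)] at this
    refine this.trans (le_of_eq ?_)
    ring
  · intro x hx hx'
    have h2 : Dh s (-x) ≤ 0 := by
      rw [hD x hx (by linarith), sub_nonpos, div_le_iff₀ h1]
      linarith
    have := gd_mid hs0 hs1 ht ht1 h2
    rw [hD x hx (by linarith)] at this
    linarith
  · intro x hx hx'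
    have h2 : 0 ≤ Dh s (-x) := by
      rw [hD x (by linarith) hx', sub_nonneg, le_div_iff₀ h1]
      linarith
    exact (gd_pos hs0 hs1 ht ht1 h2).1

/-- The integral up to zero from an arbitrary point of the period. -/
theorem upP {a : ℝ} (hs0 : 0 < s) (hs1 : s < h0) (ht : 0 < th) (ht1 : th ≤ 1) (ha : -s ≤ a)
    (ha' : a ≤ h0) : ∫ x in (-a)..(0 : ℝ), gd s th x ≤ (1 - th) * (h0 - s) / 4 := by
  have hI := gd_int hs0 hs1 ht ht1
  have h1 : 0 < h0 - s := by linarith
  have h2 : 0 ≤ (1 - th) * (h0 - s) / 4 := by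
    have := mul_nonneg (by linarith : 0 ≤ 1 - th) h1.le
    linarith
  rcases le_total a 0 with h | h
  · rw [intervalIntegral.integral_symm]
    have := gdA hs0 hs1 ht ht1 (w := -a) (by linarith) (by linarith)
    linarith
  · rcases le_total a (h0 - s) with h3 | h3
    · exact (upB hs0 hs1 ht ht1 h).2.2 h3
    · have e := intervalIntegral.integral_add_adjacent_intervals (hI (-a) 0) (hI 0 (h0 - a))
      have p := gd_period hs0 hs1 ht ht1 (-a)
      rw [show -a + h0 = h0 - a by ring] at p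
      have := gdA hs0 hs1 ht ht1 (w := h0 - a) (by linarith) (by linarith)
      linarith

/-- The numerical inequality. -/
theorem upNum {r L w P Q G : ℝ} (hs0 : 0 < s) (hr : 0 < r) (hrs : r ≤ s) (ht : 0 < th)
    (ht1 : th ≤ 1) (hL0 : (1 - th) * (4 * th * s + r) ≤ 4 * th * s * L)
    (hL1 : (1 - th) * (th * s + r) ≤ 2 * th * s * L) (hG : 0 ≤ G) (h0w : 0 ≤ w)
    (p1 : P ≤ G + (1 - th) * w) (p2 : P ≤ (1 - th) * r / 4)
    (q1 : w ≤ s / 2 → Q ≤ (1 / th - 1) * (w ^ 2 / s))
    (q2 : th * s / 2 ≤ w → w ≤ s / 2 → Q ≤ w - w ^ 2 / s - th * s / 4)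
    (q3 : Q ≤ (1 - th) * s / 4) : P + Q ≤ G + L * w := by
  have t1 : 0 ≤ 1 - th := by linarith
  have hts : 0 < th * s := by positivity
  have hL : 1 - th ≤ L := by
    have : (1 - th) * (4 * (th * s)) ≤ L * (4 * (th * s)) := by nlinarith [mul_nonneg t1 hr.le]
    exact le_of_mul_le_mul_right this (by positivity)
  have sq : (1 / th - 1) * (w ^ 2 / s) * (4 * (th * s)) = 4 * (1 - th) * w ^ 2 := by
    field_simp
  rcases le_total w (s / 2) with h | h
  · rcases le_total (th * s / 2) w with h2 | h2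
    · have a := q2 h2 h
      have b : w ^ 2 / s * s = w ^ 2 := by field_simp
      have c : 0 ≤ (w - th * s / 2) * (w + th * s / 2 - (1 - L) * s) := by
        refine mul_nonneg (by linarith) ?_
        nlinarith
      have d : (P + Q) * (4 * s) ≤ (G + L * w) * (4 * s) := by nlinarith
      exact le_of_mul_le_mul_right d (by positivity)
    · have a := q1 h
      rcases le_total w (r / 4) with h3 | h3
      · have c : (1 - th) * w * (4 * w) ≤ (1 - th) * w * r :=
          mul_le_mul_of_nonneg_left (by linarith) (mul_nonneg t1 h0w)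
        have d := mul_le_mul_of_nonneg_right hL0 h0w
        have e : Q * (4 * (th * s)) ≤ 4 * (1 - th) * w ^ 2 := by
          rw [← sq]
          exact mul_le_mul_of_nonneg_right a (by positivity)
        have f : P * (4 * (th * s)) ≤ (G + (1 - th) * w) * (4 * (th * s)) :=
          mul_le_mul_of_nonneg_right p1 (by positivity)
        have g : (P + Q) * (4 * (th * s)) ≤ (G + L * w) * (4 * (th * s)) := by nlinarith
        exact le_of_mul_le_mul_right g (by positivity)
      · have c : 0 ≤ (1 - th) * ((w - r / 4) * (th * s / 2 - w)) :=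
          mul_nonneg t1 (mul_nonneg (by linarith) (by linarith))
        have c2 : 0 ≤ (1 - th) * (th * s) * (4 * w - r) :=
          mul_nonneg (mul_nonneg t1 hts.le) (by linarith)
        have d := mul_le_mul_of_nonneg_right hL0 h0w
        have e : Q * (4 * (th * s)) ≤ 4 * (1 - th) * w ^ 2 := by
          rw [← sq]
          exact mul_le_mul_of_nonneg_right a (by positivity)
        have f : P * (4 * (th * s)) ≤ (1 - th) * r / 4 * (4 * (th * s)) :=
          mul_le_mul_of_nonneg_right p2 (by positivity)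
        have f2 : 0 ≤ G * (4 * (th * s)) := by positivity
        have g : (P + Q) * (4 * (th * s)) ≤ (G + L * w) * (4 * (th * s)) := by nlinarith
        exact le_of_mul_le_mul_right g (by positivity)
  · have a : (1 - th) * (r + s) ≤ (1 - th) * (2 * s) := mul_le_mul_of_nonneg_left (by linarith) t1
    have b : (1 - th) * (s / 2) ≤ L * w := by
      calc (1 - th) * (s / 2) ≤ (1 - th) * w := mul_le_mul_of_nonneg_left h t1
        _ ≤ L * w := mul_le_mul_of_nonneg_right hL h0w
    linarith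

/-- **The short edge from above**, phases before the tight one. -/
theorem upV {w α L G : ℝ} (hs0 : 0 < s) (hs1 : s < h0) (hs2 : h0 / 2 ≤ s) (ht : 0 < th)
    (ht1 : th ≤ 1) (hL0 : (1 - th) * (4 * th * s + (h0 - s)) ≤ 4 * th * s * L)
    (hL1 : (1 - th) * (th * s + (h0 - s)) ≤ 2 * th * s * L) (hG0 : 0 ≤ G)
    (hG : 0 ≤ α → ∫ x in (-α)..(0 : ℝ), gd s th x ≤ G) (h0w : 0 ≤ w) (hw : w ≤ s)
    (hα : α ≤ h0 - s) (hα' : -s ≤ α) :
    ∫ x in (-w - α)..(s - w), gd s th x ≤ G + L * w ∧
      ∫ x in (-w - α)..(s - w), gd s th x ≤ (1 - th) * h0 / 4 := by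
  have hI := gd_int hs0 hs1 ht ht1
  have t1 : 0 ≤ 1 - th := by linarith
  have e1 := intervalIntegral.integral_add_adjacent_intervals (hI (-w - α) 0) (hI 0 (s - w))
  have e2 := intervalIntegral.integral_add_adjacent_intervals (hI 0 (s - w)) (hI (s - w) s)
  rw [gd_cell hs0 hs1 ht ht1] at e2
  have e3 := gd_mirror hs0 hs1 ht ht1 0 w
  rw [sub_zero] at e3
  obtain ⟨q1, q2, q3⟩ := upA (th := th) hs0 hs1 ht ht1 h0w
  have q3' := q3 hw
  have p2 := upP (a := w + α) hs0 hs1 ht ht1 (by linarith) (by linarith)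
  rw [show -(w + α) = -w - α by ring] at p2
  have p1 : ∫ x in (-w - α)..(0 : ℝ), gd s th x ≤ G + (1 - th) * w := by
    rcases le_total 0 α with h | h
    · have e4 := intervalIntegral.integral_add_adjacent_intervals (hI (-w - α) (-α)) (hI (-α) 0)
      have b := (gd_bd hs0 hs1 ht ht1 (a := -w - α) (b := -α) (by linarith)).2
      rw [show -α - (-w - α) = w by ring] at b
      have := hG h
      linarith
    · rcases le_total (w + α) 0 with h2 | h2
      · have a := gdA hs0 hs1 ht ht1 (w := -w - α) (by linarith) (by linarith)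
        rw [intervalIntegral.integral_symm]
        have := mul_nonneg t1 h0w
        linarith
      · have b := (gd_bd hs0 hs1 ht ht1 (a := -w - α) (b := 0) (by linarith)).2
        have : (1 - th) * (0 - (-w - α)) ≤ (1 - th) * w :=
          mul_le_mul_of_nonneg_left (by linarith) t1
        linarith
  have key := upNum (G := G) (L := L) (r := h0 - s) hs0 (by linarith) (by linarith) ht ht1 hL0 hL1
    hG0 h0w p1 p2 q1 q2 q3'
  constructor
  · linarith
  · have : (1 - th) * (h0 - s) / 4 + (1 - th) * s / 4 = (1 - th) * h0 / 4 := by ring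
    linarith

/-- **The short edge from above**, phases beyond the tight one. -/
theorem upU {v α G : ℝ} (hs0 : 0 < s) (hs1 : s < h0) (hs2 : h0 / 2 ≤ s) (ht : 0 < th)
    (ht1 : th ≤ 1) (hG0 : 0 ≤ G)
    (hG : ∀ a, 0 ≤ a → a ≤ α → ∫ x in (-a)..(0 : ℝ), gd s th x ≤ G) (h0v : 0 ≤ v)
    (hv : v ≤ h0 - s) (hα' : h0 - s - α ≤ s) :
    ∫ x in (v - α)..(s + v), gd s th x ≤ G := by
  have hI := gd_int hs0 hs1 ht ht1
  have e2 := intervalIntegral.integral_add_adjacent_intervals (hI (v - α) s) (hI s (s + v))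
  have b := gdB hs0 hs1 ht ht1 (w := s + v) (by linarith) (by linarith)
  rcases le_total v α with h | h
  · have e1 := intervalIntegral.integral_add_adjacent_intervals (hI (v - α) 0) (hI 0 s)
    rw [gd_cell hs0 hs1 ht ht1] at e1
    have := hG (α - v) (by linarith) (by linarith)
    rw [neg_sub] at this
    linarith
  · have e1 := intervalIntegral.integral_add_adjacent_intervals (hI 0 (v - α)) (hI (v - α) s)
    rw [gd_cell hs0 hs1 ht ht1] at e1
    have := gdA hs0 hs1 ht ht1 (w := v - α) (by linarith) (by linarith)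
    linarith

/-- The gap before the tight phase, the steep edge shifted up. -/
theorem gapN1 {w β l : ℝ} (hs0 : 0 < s) (hs1 : s < h0) (h0w : 0 ≤ w) (hw : w ≤ s)
    (hb : 0 ≤ β) (hβ : β ≤ h0 - s) (hl0 : 0 ≤ l) (hl : h0 ≤ l ^ 2 * s) :
    2 * w / s ≤ (1 + l) * ∫ u in (0 : ℝ)..1, (1 - Dh s (s + -w + u * β)) := by
  have hp := h0_pos
  have h1 : 0 < h0 - s := by linarith
  have hI := gapI s (-w) β hs0 hs1
  obtain ⟨y, hy⟩ : ∃ y, y = Real.sqrt (s / h0) := ⟨_, rfl⟩
  have y0 : 0 < y := by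
    rw [hy]
    exact Real.sqrt_pos.2 (by positivity)
  have y2 : y ^ 2 * h0 = s := by
    rw [hy, Real.sq_sqrt (by positivity)]
    field_simp
  have y1 : y < 1 := by
    by_contra hc
    push Not at hc
    nlinarith [mul_le_mul_of_nonneg_right hc y0.le]
  have yl : 1 ≤ l * y := by
    by_contra hc
    push Not at hc
    have h3 : l * y * (l * y) < 1 := by
      have : 0 ≤ l * y := by positivity
      nlinarith
    have h4 : l ^ 2 * s = l * y * (l * y) * h0 := by
      rw [← y2]
      ring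
    nlinarith
  have pt : ∀ u : ℝ, 0 ≤ u → u ≤ 1 →
      2 * w / s + -(2 * β / s) * u ≤ 1 - Dh s (s + -w + u * β) ∧
      -(2 * w / (h0 - s)) + 2 * β / (h0 - s) * u ≤ 1 - Dh s (s + -w + u * β) := by
    intro u hu hu'
    have u1 : 0 ≤ u * β := mul_nonneg hu hb
    have u2 : u * β ≤ β := by nlinarith
    rcases le_total 0 (-w + u * β) with h | h
    · rw [add_assoc, gapW hs0 hs1 h (by linarith)]
      constructor
      · have a1 : 0 ≤ 2 * (-w + u * β) / (h0 - s) := by positivity
        have a2 : 0 ≤ 2 * (-w + u * β) / s := by positivity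
        have a3 : 2 * w / s + -(2 * β / s) * u = -(2 * (-w + u * β) / s) := by ring
        linarith
      · exact le_of_eq (by ring)
    · rw [add_assoc, gapV hs0 hs1 h (by linarith)]
      constructor
      · exact le_of_eq (by ring)
      · have a1 : 2 * (-w + u * β) / (h0 - s) ≤ 0 :=
          div_nonpos_of_nonpos_of_nonneg (by linarith) h1.le
        have a2 : 2 * (-w + u * β) / s ≤ 0 :=
          div_nonpos_of_nonpos_of_nonneg (by linarith) hs0.le
        have a3 : -(2 * w / (h0 - s)) + 2 * β / (h0 - s) * u =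
            2 * (-w + u * β) / (h0 - s) := by ring
        linarith
  have e := intervalIntegral.integral_add_adjacent_intervals (hI 0 y) (hI y 1)
  have m1 := intervalIntegral.integral_mono_on (a := 0) (b := y) y0.le
    (Continuous.intervalIntegrable (by fun_prop :
      Continuous fun u : ℝ => 2 * w / s + -(2 * β / s) * u) _ _) (hI _ _)
    fun u hu => (pt u hu.1 (by linarith [hu.2])).1
  have m2 := intervalIntegral.integral_mono_on (a := y) (b := 1) y1.le
    (Continuous.intervalIntegrable (by fun_prop :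
      Continuous fun u : ℝ => -(2 * w / (h0 - s)) + 2 * β / (h0 - s) * u) _ _) (hI _ _)
    fun u hu => (pt u (by linarith [hu.1]) hu.2).2
  rw [lin_int] at m1 m2
  have key : 2 * w / s * (y / (1 + y)) =
      (y - 0) * (2 * w / s) + -(2 * β / s) * ((y ^ 2 - 0 ^ 2) / 2) +
        ((1 - y) * -(2 * w / (h0 - s)) + 2 * β / (h0 - s) * ((1 ^ 2 - y ^ 2) / 2)) := by
    have h5 : h0 - s = (1 - y) * (1 + y) * h0 := by
      rw [← y2]
      ring
    have h6 : (0 : ℝ) < 1 - y := by linarith
    rw [h5, ← y2]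
    field_simp
    ring
  have k1 : 2 * w / s * (y / (1 + y)) ≤ ∫ u in (0 : ℝ)..1, (1 - Dh s (s + -w + u * β)) := by
    rw [key]
    linarith
  have k2 : 1 ≤ (1 + l) * (y / (1 + y)) := by
    rw [← mul_div_assoc, le_div_iff₀ (by linarith)]
    nlinarith
  have k3 : 0 ≤ 2 * w / s := by positivity
  calc 2 * w / s = 2 * w / s * 1 := by ring
    _ ≤ 2 * w / s * ((1 + l) * (y / (1 + y))) := mul_le_mul_of_nonneg_left k2 k3
    _ = (1 + l) * (2 * w / s * (y / (1 + y))) := by ring
    _ ≤ _ := mul_le_mul_of_nonneg_left k1 (by linarith)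

/-- The gap before the tight phase, the steep edge shifted down. -/
theorem gapN2 {w β : ℝ} (hs0 : 0 < s) (hs1 : s < h0) (h0w : 0 ≤ w) (hw : w ≤ s)
    (hb : β ≤ 0) (hβ : -β ≤ h0 - s) (hβ2 : -β ≤ s / 2) :
    (w ≤ s / 2 → 2 * w / s ≤ ∫ u in (0 : ℝ)..1, (1 - Dh s (s + -w + u * β))) ∧
      (s / 2 ≤ w → 1 ≤ ∫ u in (0 : ℝ)..1, (1 - Dh s (s + -w + u * β))) := by
  have h1 : 0 < h0 - s := by linarith
  constructor
  · intro h
    have m := intervalIntegral.integral_mono_on (a := 0) (b := 1) (f := fun _ => 2 * w / s)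
      zero_le_one (by simp) (gapI s (-w) β hs0 hs1 _ _) fun u hu => by
        have u1 : u * β ≤ 0 := mul_nonpos_of_nonneg_of_nonpos hu.1 hb
        have u2 : β ≤ u * β := by nlinarith [hu.2]
        rw [add_assoc, gapV hs0 hs1 (by linarith) (by linarith), ← neg_div]
        exact div_le_div_of_nonneg_right (by linarith) hs0.le
    rw [intervalIntegral.integral_const, sub_zero, one_smul] at m
    exact m
  · intro h
    rcases lt_or_eq_of_le hb with h2 | h2
    · rcases gap3b (v := -w) hs0 hs1 (by linarith) (by linarith) h2 with k | k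
      · exact k
      · have k2 : 0 < -β := by linarith
        by_contra hc
        push Not at hc
        have : (∫ u in (0 : ℝ)..1, (1 - Dh s (s + -w + u * β))) * -β < 1 * -β :=
          mul_lt_mul_of_pos_right hc k2
        linarith
    · have k := gap3a (v := -w) (β := β) hs0 hs1 (by linarith) (by linarith) h2.ge
        (by rw [h2]; linarith)
      rw [h2] at k ⊢
      rw [zero_div, sub_zero] at k
      exact k

/-- **The integral over the short edge from above**, all phases. -/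
theorem gd_up {t α β b G C L l : ℝ} (hs0 : 0 < s) (hs1 : s < h0) (hs2 : h0 / 2 ≤ s)
    (ht : 0 < th) (ht1 : th ≤ 1) (et : t = s + α) (hα : α ≤ h0 - s) (hα' : h0 - s - α ≤ s)
    (hβ : |β| ≤ h0 - s) (hβ2 : |β| ≤ s / 2)
    (hL0 : (1 - th) * (4 * th * s + (h0 - s)) ≤ 4 * th * s * L)
    (hL1 : (1 - th) * (th * s + (h0 - s)) ≤ 2 * th * s * L) (hG0 : 0 ≤ G)
    (hG : ∀ a, 0 ≤ a → a ≤ α → ∫ x in (-a)..(0 : ℝ), gd s th x ≤ G) (hl0 : 0 ≤ l)
    (hl : h0 ≤ l ^ 2 * s) (hC : L * s / 2 ≤ C) (hC' : 0 < β → L * s / 2 * (1 + l) ≤ C) :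
    ∫ x in (b - t)..b, gd s th x ≤ G + C * ∫ u in (0 : ℝ)..1, (1 - Dh s (b + u * β)) := by
  have hp := h0_pos
  have hr : 0 < h0 - s := by linarith
  have t1 : 0 ≤ 1 - th := by linarith
  have hL : 1 - th ≤ L := by
    have h4 : 0 < th * s := by positivity
    have : (1 - th) * (4 * (th * s)) ≤ L * (4 * (th * s)) := by nlinarith [mul_nonneg t1 hr.le]
    exact le_of_mul_le_mul_right this (by positivity)
  have L0 : 0 ≤ L := by linarith
  have C0 : 0 ≤ C := le_trans (by positivity) hC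
  obtain ⟨n, v, hv, hv1, hv2⟩ : ∃ (n : ℤ) (v : ℝ), v = b - s - n * h0 ∧ -s ≤ v ∧ v ≤ h0 - s := by
    refine ⟨⌊b / h0⌋, _, rfl, ?_, ?_⟩
    · have := Int.floor_le (b / h0)
      rw [le_div_iff₀ hp] at this
      linarith
    · have := Int.lt_floor_add_one (b / h0)
      rw [div_lt_iff₀ hp] at this
      linarith
  have e1 : ∫ x in (b - t)..b, gd s th x = ∫ x in (v - α)..(s + v), gd s th x := by
    rw [← gd_shift hs0 hs1 ht ht1 (v - α) (s + v) n]
    congr 1
    · rw [hv, et]
      ring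
    · rw [hv]
      ring
  have e2 : ∫ u in (0 : ℝ)..1, (1 - Dh s (b + u * β)) =
      ∫ u in (0 : ℝ)..1, (1 - Dh s (s + v + u * β)) := by
    refine intervalIntegral.integral_congr fun u _ => ?_
    have hper : Function.Periodic (Dh s) h0 := Dh_add
    change 1 - Dh s (b + u * β) = 1 - Dh s (s + v + u * β)
    rw [← hper.int_mul n (s + v + u * β)]
    congr 2
    rw [hv]
    ring
  rw [e1, e2]
  obtain ⟨V, hV⟩ : ∃ V, V = ∫ u in (0 : ℝ)..1, (1 - Dh s (s + v + u * β)) := ⟨_, rfl⟩
  have V0 : 0 ≤ V := by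
    rw [hV]
    exact intervalIntegral.integral_nonneg zero_le_one fun u _ => gapP hs0 hs1 _
  rw [← hV]
  rcases le_total 0 v with h | h
  · have := upU (v := v) (α := α) hs0 hs1 hs2 ht ht1 hG0 hG h hv2 hα'
    have := mul_nonneg C0 V0
    linarith
  · obtain ⟨w, hw⟩ : ∃ w, w = -v := ⟨_, rfl⟩
    have hw0 : 0 ≤ w := by linarith
    have hws : w ≤ s := by linarith
    have hwv : v = -w := by linarith
    obtain ⟨k1, k2⟩ := upV (w := w) (α := α) (L := L) (G := G) hs0 hs1 hs2 ht ht1 hL0 hL1 hG0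
      (fun h => hG α h le_rfl) hw0 hws hα (by linarith)
    rw [hwv] at hV ⊢
    rw [show s + -w = s - w by ring] at *
    rcases le_or_gt β 0 with hb | hb
    · rw [abs_of_nonpos hb] at hβ hβ2
      obtain ⟨g1, g2⟩ := gapN2 (w := w) (β := β) hs0 hs1 hw0 hws hb hβ hβ2
      rw [show s + -w = s - w by ring, ← hV] at g1 g2
      rcases le_total w (s / 2) with h3 | h3
      · have g := g1 h3
        rw [div_le_iff₀ hs0] at g
        have : L * w ≤ C * V := by
          calc L * w = L * (2 * w) / 2 := by ring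
            _ ≤ L * (V * s) / 2 := by
              have := mul_le_mul_of_nonneg_left g L0
              linarith
            _ = L * s / 2 * V := by ring
            _ ≤ C * V := mul_le_mul_of_nonneg_right hC V0
        linarith
      · have g := g2 h3
        have a : (1 - th) * h0 / 4 ≤ L * s / 2 := by
          have a1 : (1 - th) * (h0 / 2) ≤ L * s :=
            le_trans (mul_le_mul_of_nonneg_left hs2 t1) (mul_le_mul_of_nonneg_right hL hs0.le)
          linarith
        have : C * 1 ≤ C * V := mul_le_mul_of_nonneg_left g C0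
        linarith
    · rw [abs_of_pos hb] at hβ hβ2
      have g := gapN1 (w := w) (β := β) (l := l) hs0 hs1 hw0 hws hb.le hβ hl0 hl
      rw [show s + -w = s - w by ring, ← hV, div_le_iff₀ hs0] at g
      have : L * w ≤ C * V := by
        calc L * w = L * (2 * w) / 2 := by ring
          _ ≤ L * ((1 + l) * V * s) / 2 := by
            have := mul_le_mul_of_nonneg_left g L0
            linarith
          _ = L * s / 2 * (1 + l) * V := by ring
          _ ≤ C * V := mul_le_mul_of_nonneg_right (hC' hb) V0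
      linarith

/-- The quadratic lower bound for the value at the tight phase, short edge slightly too long. -/
theorem gain_sq (hs0 : 0 < s) (hs1 : s < h0) (ht : 0 < th) (ht1 : th ≤ 1) {a : ℝ} (ha : 0 ≤ a)
    (ha' : a ≤ th * (h0 - s) / 2) : (1 / th - 1) * (a ^ 2 / (h0 - s)) ≤
      ∫ x in (-a)..(0 : ℝ), gd s th x := by
  have hI := gd_int hs0 hs1 ht ht1
  have h1 : 0 < h0 - s := by linarith
  have h2 : th * (h0 - s) ≤ h0 - s := by
    have := mul_le_mul_of_nonneg_right ht1 h1.le
    linarith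
  have hD : ∀ x, -((h0 - s) / 2) ≤ x → x ≤ 0 → Dh s x = -1 + -(2 / (h0 - s)) * x := by
    intro x hx hx'
    rw [← Dh_add, Dh_high hs0 hs1 (by linarith) (by linarith)]
    field_simp
    ring
  have pt : ∀ x, -(th * (h0 - s) / 2) ≤ x → x ≤ 0 →
      0 + -((1 / th - 1) * (2 / (h0 - s))) * x ≤ gd s th x := by
    intro x hx hx'
    have hx2 : 0 ≤ -x := by linarith
    have d0 : 0 ≤ 2 / (h0 - s) * -x := by positivity
    have d1 : 2 / (h0 - s) * -x ≤ 1 := by
      rw [div_mul_eq_mul_div, div_le_one h1]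
      linarith
    have d2 : 0 ≤ 1 + 2 / (th * (h0 - s)) * x := by
      have : 2 / (th * (h0 - s)) * -(th * (h0 - s) / 2) ≤ 2 / (th * (h0 - s)) * x :=
        mul_le_mul_of_nonneg_left hx (by positivity)
      have e : 2 / (th * (h0 - s)) * -(th * (h0 - s) / 2) = -1 := by
        field_simp
      linarith
    unfold gd
    rw [tnt_eq hs0 hs1 ht, hD x (by linarith) hx']
    have k : (-1 + -(2 / (h0 - s)) * x) / th ≤ 0 :=
      div_nonpos_of_nonpos_of_nonneg (by linarith) ht.le
    have hc : 0 ≤ 1 / th - 1 := by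
      rw [sub_nonneg, le_div_iff₀ ht]
      linarith
    have e : -((-1 + -(2 / (h0 - s)) * x) / th) - (1 / th - 1) =
        1 + 2 / (th * (h0 - s)) * x := by
      field_simp
      ring
    have m0 : max 0 ((-1 + -(2 / (h0 - s)) * x) / th - (1 / th - 1)) = 0 :=
      max_eq_left (by linarith)
    unfold sft
    rw [m0, e, max_eq_right d2]
    refine le_of_eq ?_
    field_simp
    ring
  have g := intervalIntegral.integral_mono_on (a := -a) (b := 0) (by linarith)
    (Continuous.intervalIntegrable (by fun_prop : Continuous fun x : ℝ =>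
      0 + -((1 / th - 1) * (2 / (h0 - s))) * x) _ _) (hI _ _)
    fun x hx => pt x (by linarith [hx.1]) hx.2
  rw [lin_int] at g
  refine le_trans (le_of_eq ?_) g
  field_simp
  ring

/-- **The near vertex, family `A`, the other sign**, with an arbitrary bound `g + C * gap` of the
short edge. -/
theorem near_dirA3 {κ e E μ X η ν β t t' g C : ℝ} {r c : ℝ × ℝ × ℝ} (hs0 : 0 < s) (hs1 : s < h0)
    (ht : 0 < th) (ht1 : th ≤ 1) (hκ : 0 ≤ κ)
    (he : κ * (s * (h0 - s)) = 2 * h0 * e) (he0 : 0 < e) (hμ : 0 ≤ μ)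
    (et' : t' = h0 + β) (hβ : |β| < h0 / 2)
    (h0t : 0 ≤ t) (hT : t + t' ≤ 2 * h0) (hδ : c.1 ≤ c.2.2)
    (hS : ∀ b, ∫ x in (b - t)..b, gd s th x ≤
      g + C * (∫ u in (0 : ℝ)..1, (1 - Dh s (b + u * β))))
    (hη : μ * (c.2.2 - c.1) * g ≤ η)
    (hν : μ * (|c.2.1 - c.2.2| * ((1 / th - 1) * |β|) + (c.2.2 - c.1) * C) ≤ e * ν)
    (h : NGV κ s (X - η - e * ν) t t' ((cpl E (μ / e) r c t t').1,
      (cpl E (μ / e) r c t t').2.1 + ν, (cpl E (μ / e) r c t t').2.2)) (y : ℝ) :
    0 ≤ X + E * kf κ s r t t' y + μ * pf (tnt s th) c t t' y := by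
  have hp := h0_pos
  obtain ⟨b1, b2⟩ := abs_lt.1 hβ
  have jt : tau t' = β := by
    unfold tau
    rw [show jn t' = 1 by
      unfold jn
      rw [if_neg (by linarith), if_pos (by linarith)], et']
    push_cast
    ring
  have key := NGV.dir h hκ hs0.le hs1 h0t (by linarith) hT y
  have e0 := kf_cpl (μ := μ) hs0 hs1 ht ht1 he he0 (E := E) r c t t' y
  have e1 : kf κ s ((cpl E (μ / e) r c t t').1, (cpl E (μ / e) r c t t').2.1 + ν,
      (cpl E (μ / e) r c t t').2.2) t t' y =
      kf κ s (cpl E (μ / e) r c t t') t t' y + ν * mn (D s κ) (y + t) (y + t + tau t') := by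
    unfold kf
    simp only
    ring
  have e2 := mn_Dh (κ := κ) (b := y + t) (β := β) hs0 hs1 he
  rw [e1, jt] at key
  obtain ⟨V, hV⟩ : ∃ V, V = ∫ u in (0 : ℝ)..1, (1 - Dh s (y + t + u * β)) := ⟨_, rfl⟩
  rw [← hV] at e2
  have V0 : 0 ≤ V := by
    rw [hV]
    refine intervalIntegral.integral_nonneg zero_le_one fun u _ => ?_
    have := abs_le.1 (Dh_abs hs0 hs1 (y + t + u * β))
    linarith [this.2]
  have g1 := hS (y + t)
  rw [← hV, add_sub_cancel_right] at g1
  have g2 := gd_steep (b := y + t) (β := β) hs0 hs1 ht ht1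
  rw [← hV] at g2
  have g3 : ∫ x in (y + t)..(y + (t + t')), gd s th x = ∫ x in (y + t)..(y + t + β), gd s th x := by
    have := int_nat (gd_cont hs0 hs1 ht ht1) (gd_period hs0 hs1 ht ht1) (y + t) (y + t + β) 1
    rw [← this]
    congr 1
    rw [et']
    push_cast
    ring
  rw [add_assoc, e0, pf_A (gd_cont hs0 hs1 ht ht1), g3]
  have d0 : 0 ≤ c.2.2 - c.1 := by linarith
  have k1 : -(μ * (c.2.2 - c.1) * g) - μ * (c.2.2 - c.1) * (C * V) ≤
      μ * ((c.1 - c.2.2) * ∫ x in y..(y + t), gd s th x) := by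
    have := mul_le_mul_of_nonneg_left g1 (mul_nonneg hμ d0)
    linarith
  have k2 : -(μ * (|c.2.1 - c.2.2| * ((1 / th - 1) * |β| * V))) ≤
      μ * ((c.2.1 - c.2.2) * ∫ x in (y + t)..(y + t + β), gd s th x) := by
    rw [← mul_neg]
    refine mul_le_mul_of_nonneg_left ?_ hμ
    rw [neg_le]
    refine (neg_le_abs _).trans ?_
    rw [abs_mul]
    exact mul_le_mul_of_nonneg_left g2 (abs_nonneg _)
  have k3 := mul_le_mul_of_nonneg_right hν V0
  have e3 : mn (D s κ) (y + t) (y + t + β) = e - e * V := by linarith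
  rw [e3] at key
  nlinarith only [key, k1, k2, k3, hη]

/-- **The near vertex, family `B`, the other sign**, with an arbitrary bound `g + C * gap` of the
short edge. -/
theorem near_dirB3 {κ e E μ X η ν β t t' g C : ℝ} {r c : ℝ × ℝ × ℝ} (hs0 : 0 < s) (hs1 : s < h0)
    (ht : 0 < th) (ht1 : th ≤ 1) (hκ : 0 ≤ κ)
    (he : κ * (s * (h0 - s)) = 2 * h0 * e) (he0 : 0 < e) (hμ : 0 ≤ μ)
    (et' : t + t' = h0 + β) (hβ : |β| < h0 / 2)
    (h0t : 0 ≤ t) (h0t' : 0 ≤ t') (hδ : c.2.1 ≤ c.1)
    (hS : ∀ b, ∫ x in (b - t)..b, gd s th x ≤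
      g + C * (∫ u in (0 : ℝ)..1, (1 - Dh s (b + u * -β))))
    (hη : μ * (c.1 - c.2.1) * g ≤ η)
    (hν : μ * (|c.2.1 - c.2.2| * ((1 / th - 1) * |β|) + (c.1 - c.2.1) * C) ≤ e * ν)
    (h : NGV κ s (X - η - e * ν) t t' ((cpl E (μ / e) r c t t').1,
      (cpl E (μ / e) r c t t').2.1, (cpl E (μ / e) r c t t').2.2 + ν)) (y : ℝ) :
    0 ≤ X + E * kf κ s r t t' y + μ * pf (tnt s th) c t t' y := by
  have hp := h0_pos
  obtain ⟨b1, b2⟩ := abs_lt.1 hβ
  have jt : tau (t + t') = β := by
    unfold tau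
    rw [show jn (t + t') = 1 by
      unfold jn
      rw [if_neg (by linarith), if_pos (by linarith)], et']
    push_cast
    ring
  have key := NGV.dir h hκ hs0.le hs1 h0t h0t' (by linarith) y
  have e0 := kf_cpl (μ := μ) hs0 hs1 ht ht1 he he0 (E := E) r c t t' y
  have e1 : kf κ s ((cpl E (μ / e) r c t t').1, (cpl E (μ / e) r c t t').2.1,
      (cpl E (μ / e) r c t t').2.2 + ν) t t' y =
      kf κ s (cpl E (μ / e) r c t t') t t' y - ν * mn (D s κ) y (y + tau (t + t')) := by
    unfold kf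
    simp only
    ring
  rw [e1, jt] at key
  have hm : mn (D s κ) y (y + β) = -mn (D s κ) (s - y) (s - y + -β) := by
    have h1 := Line.mn_mirror (f := D s κ) (fun z => D_refl κ hs0.le hs1 z) y (y + β)
    rw [show s - y + -β = s - (y + β) by ring, h1, neg_neg]
  have e2 := mn_Dh (κ := κ) (b := s - y) (β := -β) hs0 hs1 he
  obtain ⟨V, hV⟩ : ∃ V, V = ∫ u in (0 : ℝ)..1, (1 - Dh s (s - y + u * -β)) := ⟨_, rfl⟩
  rw [← hV] at e2
  have V0 : 0 ≤ V := by
    rw [hV]
    refine intervalIntegral.integral_nonneg zero_le_one fun u _ => ?_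
    have := abs_le.1 (Dh_abs hs0 hs1 (s - y + u * -β))
    linarith [this.2]
  have g1 := hS (s - y)
  have g1' : ∫ x in (s - y - t)..(s - y), gd s th x = -∫ x in y..(y + t), gd s th x := by
    rw [← gd_mirror hs0 hs1 ht ht1]
    congr 1
    ring
  rw [← hV, g1'] at g1
  have g2 := gd_steep (b := s - y) (β := -β) hs0 hs1 ht ht1
  rw [← hV, abs_neg] at g2
  have g2' : |∫ x in (s - y)..(s - y + -β), gd s th x| = |∫ x in y..(y + β), gd s th x| := by
    rw [intervalIntegral.integral_symm, abs_neg,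
      show s - y + -β = s - (y + β) by ring, gd_mirror hs0 hs1 ht ht1, abs_neg]
  rw [g2'] at g2
  have g3 : ∫ x in y..(y + (t + t')), gd s th x = ∫ x in y..(y + β), gd s th x := by
    have := int_nat (gd_cont hs0 hs1 ht ht1) (gd_period hs0 hs1 ht ht1) y (y + β) 1
    rw [← this]
    congr 1
    rw [et']
    push_cast
    ring
  rw [add_assoc, e0, pf_B (gd_cont hs0 hs1 ht ht1), g3]
  have d0 : 0 ≤ c.1 - c.2.1 := by linarith
  have k1 : -(μ * (c.1 - c.2.1) * g) - μ * (c.1 - c.2.1) * (C * V) ≤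
      μ * ((c.1 - c.2.1) * ∫ x in y..(y + t), gd s th x) := by
    have := mul_le_mul_of_nonneg_left g1 (mul_nonneg hμ d0)
    linarith
  have k2 : -(μ * (|c.2.1 - c.2.2| * ((1 / th - 1) * |β| * V))) ≤
      μ * ((c.2.1 - c.2.2) * ∫ x in y..(y + β), gd s th x) := by
    rw [← mul_neg]
    refine mul_le_mul_of_nonneg_left ?_ hμ
    rw [neg_le]
    refine (neg_le_abs _).trans ?_
    rw [abs_mul]
    exact mul_le_mul_of_nonneg_left g2 (abs_nonneg _)
  have k3 := mul_le_mul_of_nonneg_right hν V0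
  have e3 : mn (D s κ) y (y + β) = -(e - e * V) := by
    rw [hm]
    linarith
  rw [e3] at key
  nlinarith only [key, k1, k2, k3, hη]

end

end Pool.Agent.Strip051.LC
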