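import Pool.Agent.Strip051.LC.Exact.MolN4
import Pool.Agent.Strip051.LC.Exact.MolN5

/-! # The tight triangles: the near vertex, free coefficient of the short edge (generated)

The definitions and theorems of `MolN1` .. `MolN5` which depend on the coefficient of the square of
the displacement; here it is a parameter `q` of its own. -/

set_option linter.unusedVariables false

namespace Pool.Agent.Strip051.LC.MolN

open Pool.Agent.StripNear Pool.Agent.StripSquare Pool.Agent.Strip051.Sweep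
open Pool.Agent.Strip051.LC
open Pool.Agent.Strip051.LC.Line (tau)

noncomputable def z1202 (T : MolP) (q u b x : ℝ) : ℝ := (((n15 T u b x) * (n599 T u b x)) * (q)) * ((x)⁻¹)

noncomputable def z1203 (T : MolP) (q u b x : ℝ) : ℝ := (z1202 T q u b x) * (n1185 T u b x)

noncomputable def z1204 (T : MolP) (q u b x : ℝ) : ℝ := (n298 T u b x) * (z1203 T q u b x)

noncomputable def z1206 (T : MolP) (q u b x : ℝ) : ℝ := (n298 T u b x) * ((z1202 T q u b x) * (n1186 T u b x))

noncomputable def z1209 (T : MolP) (q u b x : ℝ) : ℝ := n654 T u b x - z1204 T q u b x - (n15 T u b x) * (n1192 T u b x)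

noncomputable def z1212 (T : MolP) (q u b x : ℝ) : ℝ := n656 T u b x - z1206 T q u b x - (n15 T u b x) * (n1198 T u b x)

noncomputable def z1260 (T : MolP) (q u b x : ℝ) : ℝ := (n205 T u b x) * ((z1212 T q u b x) * (n1246 T u b x) + (z1209 T q u b x) * (n1229 T u b x)) - (n15 T u b x) * (((n3 T u b x) * (n1223 T u b x - n1219 T u b x) + n1232 T u b x) * (n1246 T u b x) + (n1244 T u b x) * (n1229 T u b x) - (x) * ((n1223 T u b x) * (n1228 T u b x) + (n1220 T u b x) * (n1226 T u b x)))

noncomputable def z1279 (T : MolP) (q u b x : ℝ) : ℝ := (n224 T u b x) * ((z1212 T q u b x) * (n1265 T u b x) + (z1209 T q u b x) * (n1237 T u b x)) - (n15 T u b x) * ((n1236 T u b x + n1235 T u b x + (n3 T u b x) * (n1226 T u b x)) * (n1265 T u b x) + (n1263 T u b x) * (n1237 T u b x) - (n205 T u b x) * ((n1235 T u b x) * (n1228 T u b x) + (n1261 T u b x) * (n1226 T u b x)))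

noncomputable def z1281 (T : MolP) (q u b x : ℝ) : ℝ := n859 T u b x - (n205 T u b x) * (z1203 T q u b x)

noncomputable def z1283 (T : MolP) (q u b x : ℝ) : ℝ := n861 T u b x - (x) * (z1203 T q u b x)

noncomputable def z1290 (T : MolP) (q u b x : ℝ) : ℝ := (n298 T u b x) * ((z1281 T q u b x) * (n1215 T u b x))

noncomputable def z1292 (T : MolP) (q u b x : ℝ) : ℝ := z1290 T q u b x + (b) * (z1260 T q u b x)

noncomputable def z1294 (T : MolP) (q u b x : ℝ) : ℝ := (n298 T u b x) * ((z1283 T q u b x) * (n1243 T u b x))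

noncomputable def z1296 (T : MolP) (q u b x : ℝ) : ℝ := z1294 T q u b x + (b) * (z1279 T q u b x)

noncomputable def z1301 (T : MolP) (q u b x : ℝ) : ℝ := n877 T u b x - z1206 T q u b x - (n15 T u b x) * (n1298 T u b x)

noncomputable def z1346 (T : MolP) (q u b x : ℝ) : ℝ := (n205 T u b x) * ((z1301 T q u b x) * (n1332 T u b x) + (z1209 T q u b x) * (n1316 T u b x)) - (n15 T u b x) * ((n1317 T u b x + (n316 T u b x) * (n1307 T u b x) + n1320 T u b x - n1315 T u b x) * (n1332 T u b x) + (n1244 T u b x) * (n1316 T u b x) - (x) * ((n1310 T u b x) * (n1315 T u b x) + (n1220 T u b x) * (n1313 T u b x)))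

noncomputable def z1362 (T : MolP) (q u b x : ℝ) : ℝ := (n224 T u b x) * ((z1301 T q u b x) * (n1348 T u b x) + (z1209 T q u b x) * (n1327 T u b x)) - (n15 T u b x) * ((n1324 T u b x + n1326 T u b x + (n3 T u b x) * (n1313 T u b x)) * (n1348 T u b x) + (n1263 T u b x) * (n1327 T u b x) - (n205 T u b x) * ((n1324 T u b x) * (n1315 T u b x) + (n1261 T u b x) * (n1313 T u b x)))

noncomputable def z1371 (T : MolP) (q u b x : ℝ) : ℝ := z1290 T q u b x + (b) * (z1346 T q u b x)

noncomputable def z1373 (T : MolP) (q u b x : ℝ) : ℝ := z1294 T q u b x + (b) * (z1362 T q u b x)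

noncomputable def z1385 (T : MolP) (q u b x : ℝ) : ℝ := (n298 T u b x) * ((z1202 T q u b x) * (n1374 T u b x))

noncomputable def z1388 (T : MolP) (q u b x : ℝ) : ℝ := n990 T u b x - z1385 T q u b x - (n15 T u b x) * (n1383 T u b x)

noncomputable def z1436 (T : MolP) (q u b x : ℝ) : ℝ := (n205 T u b x) * ((z1388 T q u b x) * (n1422 T u b x) + (z1209 T q u b x) * (n1404 T u b x)) - (n15 T u b x) * ((n1405 T u b x - (n477 T u b x) * (n1394 T u b x) + n1408 T u b x + n1403 T u b x) * (n1422 T u b x) + (n1420 T u b x) * (n1404 T u b x) - (x) * ((n1398 T u b x) * (n1403 T u b x) + (n1395 T u b x) * (n1401 T u b x)))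

noncomputable def z1454 (T : MolP) (q u b x : ℝ) : ℝ := (n224 T u b x) * ((z1388 T q u b x) * (n1440 T u b x) + (z1209 T q u b x) * (n1415 T u b x)) - (n15 T u b x) * ((n1412 T u b x - n1414 T u b x + (n3 T u b x) * (n1401 T u b x)) * (n1440 T u b x) + (n1438 T u b x) * (n1415 T u b x) - (n205 T u b x) * ((n1412 T u b x) * (n1403 T u b x) + (n1437 T u b x) * (n1401 T u b x)))

noncomputable def z1461 (T : MolP) (q u b x : ℝ) : ℝ := z1290 T q u b x + (b) * (z1436 T q u b x)

noncomputable def z1463 (T : MolP) (q u b x : ℝ) : ℝ := z1294 T q u b x + (b) * (z1454 T q u b x)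

noncomputable def z1468 (T : MolP) (q u b x : ℝ) : ℝ := n1122 T u b x - z1385 T q u b x - (n15 T u b x) * (n1465 T u b x)

noncomputable def z1513 (T : MolP) (q u b x : ℝ) : ℝ := (n205 T u b x) * ((z1468 T q u b x) * (n1499 T u b x) + (z1209 T q u b x) * (n1483 T u b x)) - (n15 T u b x) * (((n3 T u b x) * (n1477 T u b x + n1474 T u b x) + n1486 T u b x) * (n1499 T u b x) + (n1420 T u b x) * (n1483 T u b x) - (x) * ((n1477 T u b x) * (n1482 T u b x) + (n1395 T u b x) * (n1480 T u b x)))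

noncomputable def z1529 (T : MolP) (q u b x : ℝ) : ℝ := (n224 T u b x) * ((z1468 T q u b x) * (n1515 T u b x) + (z1209 T q u b x) * (n1493 T u b x)) - (n15 T u b x) * ((n1489 T u b x + n1491 T u b x + (n3 T u b x) * (n1480 T u b x) - n1482 T u b x) * (n1515 T u b x) + (n1438 T u b x) * (n1493 T u b x) - (n205 T u b x) * ((n1489 T u b x) * (n1482 T u b x) + (n1437 T u b x) * (n1480 T u b x)))

noncomputable def z1538 (T : MolP) (q u b x : ℝ) : ℝ := z1290 T q u b x + (b) * (z1513 T q u b x)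

noncomputable def z1540 (T : MolP) (q u b x : ℝ) : ℝ := z1294 T q u b x + (b) * (z1529 T q u b x)

theorem valzA (T : MolP) (q : ℝ) {u b x : ℝ} (h : DomA u b x) :
    (1 - x) * ((z1209 T q u b x) - (n15 T u b x) * (n1215 T u b x)) - (n15 T u b x) * (((n3 T u b x) - x) * (1 - (n3 T u b x)) * ((n728 T u b x) - (n737 T u b x))) = u ^ 2 * (z1281 T q u b x) ∧
      x * ((z1209 T q u b x) - (n15 T u b x) * (n1215 T u b x)) - (n15 T u b x) * (((n3 T u b x) - x) * (n3 T u b x) * ((n728 T u b x) - (n737 T u b x))) = u ^ 2 * (z1283 T q u b x) := by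
  have hy : (n3 T u b x) - x = u := by
    simp only [n3]
    ring
  have hcx : (n8 T u b x) ^ 2 = 1 - 3 / 4 * x ^ 2 := cn_sq h.x0 h.x1
  have hcy : (n12 T u b x) ^ 2 = 1 - 3 / 4 * (n3 T u b x) ^ 2 := cn_sq (y := n3 T u b x) h.y0 h.y1
  have pcx : 0 < (n8 T u b x) := cn_pos h.x0 h.x1
  have pcy : 0 < (n12 T u b x) := cn_pos (y := n3 T u b x) h.y0 h.y1
  have key := mol_val (x := x) (y := n3 T u b x) (cx := n8 T u b x) (cy := n12 T u b x) (e := n15 T u b x) (ey := n64 T u b x)
    (μ := n599 T u b x) (m := n662 T u b x) (δ := T.dy) (r0 := n1215 T u b x) (E0 := z1209 T q u b x) (Δ := (n728 T u b x) - (n737 T u b x)) (a := n244 T u b x) (b := n248 T u b x)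
    (k := n263 T u b x) (F1 := n838 T u b x) (F2 := n857 T u b x) (A1 := z1281 T q u b x) (A2 := z1283 T q u b x) (G := n74 T u b x)
    (D := (3 / 4 + 9 / 8 * (n3 T u b x / n12 T u b x))) (Rx := 3 / 4 * x + 3 / 2 * (1 - n8 T u b x))
    (Ry := 3 / 4 * n3 T u b x + 3 / 2 * (1 - n12 T u b x)) (lam := z1203 T q u b x) (ν := n1192 T u b x) h.x0 h.x1 h.y0 h.y1 pcx pcy
    hcx hcy ?_ ?_ ?_ ?_ rfl rfl ?_ rfl ?_ ?_ ?_ ?_ ?_ ?_ ?_ ?_ ?_
  · exact ⟨key.1.trans (by rw [hy]), key.2.trans (by rw [hy])⟩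
  · simp only [n244]
    unfold mA
    ring
  · simp only [n248]
    unfold mA
    ring
  · simp only [n15]
    all_goals ring
  · simp only [n64, n60]
    all_goals ring
  · simp only [n74, n73, n69, n52, n51]
    all_goals ring
  · simp only [n662, n660]
    all_goals ring
  · simp only [n838, n833, n267, n259, n258, n255, n251, n250]
    unfold mF1
    ring
  · simp only [n857, n833, n286, n280, n273, n259, n258, n255, n251, n250]
    unfold mF2
    ring
  · simp only [n263, n259, n258, n255, n251, n250]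
    all_goals ring
  · simp only [z1281, n859, n283, n273, n251, n205]
    all_goals ring
  · simp only [z1283, n861, n291, n286]
    all_goals ring
  · simp only [n1215]
    all_goals ring
  · rw [hy]
    simp only [z1209, z1204, n654, n298, n160, n129, n122, n117, n110, n108, n102, n64, n60]
    linear_combination -(1 / 4) * (n599 T u b x) * hcy
  · simp only [n737, n734, n731, n728, n725, n722, n711, n706, n704, n703, n699, n696, n690, n685, n683, n677, n675, n669, n102, n95, n92, n85, n79, n52, n51]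
    all_goals ring

theorem valzB (T : MolP) (q : ℝ) {u b x : ℝ} (h : DomB u b x) :
    (1 - x) * ((z1209 T q u b x) - (n15 T u b x) * (n1215 T u b x)) - (n15 T u b x) * (((n3 T u b x) - x) * (1 - (n3 T u b x)) * ((n1042 T u b x) - (n728 T u b x))) = u ^ 2 * (z1281 T q u b x) ∧
      x * ((z1209 T q u b x) - (n15 T u b x) * (n1215 T u b x)) - (n15 T u b x) * (((n3 T u b x) - x) * (n3 T u b x) * ((n1042 T u b x) - (n728 T u b x))) = u ^ 2 * (z1283 T q u b x) := by
  have hy : (n3 T u b x) - x = u := by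
    simp only [n3]
    ring
  have hcx : (n8 T u b x) ^ 2 = 1 - 3 / 4 * x ^ 2 := cn_sq h.x0 h.x1
  have hcy : (n12 T u b x) ^ 2 = 1 - 3 / 4 * (n3 T u b x) ^ 2 := cn_sq (y := n3 T u b x) h.y0 h.y1
  have pcx : 0 < (n8 T u b x) := cn_pos h.x0 h.x1
  have pcy : 0 < (n12 T u b x) := cn_pos (y := n3 T u b x) h.y0 h.y1
  have key := mol_val (x := x) (y := n3 T u b x) (cx := n8 T u b x) (cy := n12 T u b x) (e := n15 T u b x) (ey := n64 T u b x)
    (μ := n599 T u b x) (m := n662 T u b x) (δ := T.dy) (r0 := n1215 T u b x) (E0 := z1209 T q u b x) (Δ := (n1042 T u b x) - (n728 T u b x)) (a := n244 T u b x) (b := n248 T u b x)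
    (k := n263 T u b x) (F1 := n838 T u b x) (F2 := n857 T u b x) (A1 := z1281 T q u b x) (A2 := z1283 T q u b x) (G := n74 T u b x)
    (D := (3 / 4 + 9 / 8 * (n3 T u b x / n12 T u b x))) (Rx := 3 / 4 * x + 3 / 2 * (1 - n8 T u b x))
    (Ry := 3 / 4 * n3 T u b x + 3 / 2 * (1 - n12 T u b x)) (lam := z1203 T q u b x) (ν := n1192 T u b x) h.x0 h.x1 h.y0 h.y1 pcx pcy
    hcx hcy ?_ ?_ ?_ ?_ rfl rfl ?_ rfl ?_ ?_ ?_ ?_ ?_ ?_ ?_ ?_ ?_
  · exact ⟨key.1.trans (by rw [hy]), key.2.trans (by rw [hy])⟩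
  · simp only [n244]
    unfold mA
    ring
  · simp only [n248]
    unfold mA
    ring
  · simp only [n15]
    all_goals ring
  · simp only [n64, n60]
    all_goals ring
  · simp only [n74, n73, n69, n52, n51]
    all_goals ring
  · simp only [n662, n660]
    all_goals ring
  · simp only [n838, n833, n267, n259, n258, n255, n251, n250]
    unfold mF1
    ring
  · simp only [n857, n833, n286, n280, n273, n259, n258, n255, n251, n250]
    unfold mF2
    ring
  · simp only [n263, n259, n258, n255, n251, n250]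
    all_goals ring
  · simp only [z1281, n859, n283, n273, n251, n205]
    all_goals ring
  · simp only [z1283, n861, n291, n286]
    all_goals ring
  · simp only [n1215]
    all_goals ring
  · rw [hy]
    simp only [z1209, z1204, n654, n298, n160, n129, n122, n117, n110, n108, n102, n64, n60]
    linear_combination -(1 / 4) * (n599 T u b x) * hcy
  · simp only [n1042, n1039, n1036, n1026, n1021, n1019, n1014, n728, n725, n722, n703, n699, n690, n685, n683, n677, n675, n669, n409, n404, n402, n102, n95, n52, n51]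
    all_goals ring

theorem chzAp (T : MolP) (q : ℝ) {u b x κ τ1 τ3 : ℝ} (h : DomA u b x) (hb : 0 ≤ b)
    (hκ : κ * h0 * (x * (1 - x)) = 2 * (n15 T u b x)) (hA1 : 0 ≤ z1281 T q u b x) (hA2 : 0 ≤ z1283 T q u b x) (hr : 0 ≤ n1215 T u b x)
    (hP : 0 < n1219 T u b x) (hQ : 0 < n1241 T u b x)
    (tN : 0 < -(n1288 T u b x) ∨ 0 < z1260 T q u b x ∨ 0 < z1292 T q u b x) (tM : 0 < n1288 T u b x ∨ 0 < z1279 T q u b x ∨ 0 < z1296 T q u b x)
    (t1 : tau (h0 * (n3 T u b x)) = h0 * τ1) (t3 : tau (h0 * (n3 T u b x) + (h0 + h0 * b)) = h0 * τ3) :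
    NGV κ (h0 * x) ((z1209 T q u b x) + b * (z1212 T q u b x)) (h0 * (n3 T u b x)) (h0 + h0 * b)
      ((n730 T u b x) * τ1, -(n1217 T u b x), (n739 T u b x) * τ3) := by
  have eNT : z1292 T q u b x = u ^ 2 * ((z1281 T q u b x) * (n1215 T u b x)) + b * (z1260 T q u b x) := by
    simp only [z1292, z1290, n298]
    all_goals ring
  have eMT : z1296 T q u b x = u ^ 2 * ((z1283 T q u b x) * ((1 - (n3 T u b x)) * (n1215 T u b x))) + b * (z1279 T q u b x) := by
    simp only [z1296, z1294, n1243, n298, n169]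
    all_goals ring
  rw [eNT] at tN
  rw [eMT] at tM
  refine chA_nonneg (κ := κ) (x := x) (e := n15 T u b x) (y := n3 T u b x) (β := b) (K1 := n730 T u b x) (K10 := n728 T u b x) (K11 := n729 T u b x)
    (K30 := n737 T u b x) (K31 := n738 T u b x) (K3 := n739 T u b x) (ρ0 := n1215 T u b x) (ρ1 := n1216 T u b x) (ρ := n1217 T u b x) (E0 := z1209 T q u b x) (E1 := z1212 T q u b x) (P := n1219 T u b x)
    (R := n1228 T u b x) (Q := n1241 T u b x) (P0 := n1220 T u b x) (P1 := n1223 T u b x) (R1 := n1226 T u b x) (Q1 := n1235 T u b x) (A1 := z1281 T q u b x) (A2 := z1283 T q u b x)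
    (N1 := z1260 T q u b x) (M1 := z1279 T q u b x) (u := u) (wd := n1288 T u b x) (τ1 := τ1) (τ3 := τ3) h.x0 h.x1 hκ hb (by linarith [h.b1]) h.p1 h.y0 h.y1
    (J85 T (u := u) (b := b) (x := x) h) (J89 T (u := u) (b := b) (x := x))
    (J148 T (u := u) (b := b) (x := x)) ?_ ?_ ?_ ?_ ?_ ?_ ?_ hP hQ ?_ ?_ (valzA T q h) hA1 hA2 hr ?_
    tN tM t1 t3
  · simp only [n1219, n751, n749, n172, n169]
    all_goals ring
  · simp only [n1226, n761, n751, n172, n169]
    all_goals ring
  · simp only [n1228]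
    all_goals ring
  · simp only [n1241, n1236]
    all_goals ring
  · simp only [n1220, n754, n169]
    all_goals ring
  · simp only [n1223, n759, n757, n169]
    all_goals ring
  · simp only [n1235]
    all_goals ring
  · simp only [z1260, n1246, n1244, n1243, n1242, n1232, n1229, n1228, n205, n169]
    unfold mol
    ring
  · simp only [z1279, n1265, n1263, n1262, n1261, n1243, n1242, n1237, n1236, n1232, n1228, n224, n205, n169]
    unfold mol
    ring
  · simp only [n1288]
    all_goals ring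

theorem chzAm (T : MolP) (q : ℝ) {u b x κ τ1 τ3 : ℝ} (h : DomA u b x) (hb : b < 0)
    (hκ : κ * h0 * (x * (1 - x)) = 2 * (n15 T u b x)) (hA1 : 0 ≤ z1281 T q u b x) (hA2 : 0 ≤ z1283 T q u b x) (hr : 0 ≤ n1215 T u b x)
    (hP : 0 < n1307 T u b x) (hQ : 0 < n1326 T u b x)
    (tN : 0 < -(n1367 T u b x) ∨ 0 < -(z1346 T q u b x) ∨ 0 < z1371 T q u b x) (tM : 0 < n1367 T u b x ∨ 0 < -(z1362 T q u b x) ∨ 0 < z1373 T q u b x)
    (t1 : tau (h0 * (n3 T u b x)) = h0 * τ1) (t3 : tau (h0 * (n3 T u b x) + (h0 + h0 * b)) = h0 * τ3) :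
    NGV κ (h0 * x) ((z1209 T q u b x) + b * (z1301 T q u b x)) (h0 * (n3 T u b x)) (h0 + h0 * b)
      ((n730 T u b x) * τ1, -(n1305 T u b x), (n739 T u b x) * τ3) := by
  have eNT : z1371 T q u b x = u ^ 2 * ((z1281 T q u b x) * (n1215 T u b x)) + b * (z1346 T q u b x) := by
    simp only [z1371, z1290, n298]
    all_goals ring
  have eMT : z1373 T q u b x = u ^ 2 * ((z1283 T q u b x) * ((1 - (n3 T u b x)) * (n1215 T u b x))) + b * (z1362 T q u b x) := by
    simp only [z1373, z1294, n1243, n298, n169]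
    all_goals ring
  rw [eNT] at tN
  rw [eMT] at tM
  refine chA_neg (κ := κ) (x := x) (e := n15 T u b x) (y := n3 T u b x) (β := b) (K1 := n730 T u b x) (K10 := n728 T u b x) (K11 := n729 T u b x)
    (K30 := n737 T u b x) (K31 := n738 T u b x) (K3 := n739 T u b x) (ρ0 := n1215 T u b x) (ρ1 := n1304 T u b x) (ρ := n1305 T u b x) (E0 := z1209 T q u b x) (E1 := z1301 T q u b x) (P := n1307 T u b x)
    (R := n1315 T u b x) (Q := n1326 T u b x) (P0 := n1220 T u b x) (P1 := n1310 T u b x) (R1 := n1313 T u b x) (Q1 := n1324 T u b x) (A1 := z1281 T q u b x) (A2 := z1283 T q u b x)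
    (N1 := z1346 T q u b x) (M1 := z1362 T q u b x) (u := u) (wd := n1367 T u b x) (τ1 := τ1) (τ3 := τ3) h.x0 h.x1 hκ hb (by linarith [h.b0]) h.p0 h.y1
    (J85 T (u := u) (b := b) (x := x) h) (J89 T (u := u) (b := b) (x := x))
    (J150 T (u := u) (b := b) (x := x)) ?_ ?_ ?_ ?_ ?_ ?_ ?_ hP hQ ?_ ?_ (valzA T q h) hA1 hA2 hr ?_
    tN tM t1 t3
  · simp only [n1307, n751, n749, n172, n169]
    all_goals ring
  · simp only [n1313, n879, n749, n169, n30]
    all_goals ring
  · simp only [n1315]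
    all_goals ring
  · simp only [n1326, n30]
    all_goals ring
  · simp only [n1220, n754, n169]
    all_goals ring
  · simp only [n1310, n759, n757, n169]
    all_goals ring
  · simp only [n1324, n1317]
    all_goals ring
  · simp only [z1346, n1332, n1320, n1317, n1316, n1315, n1244, n1243, n1242, n316, n315, n205, n169]
    unfold mol
    ring
  · simp only [z1362, n1348, n1327, n1320, n1315, n1263, n1262, n1261, n1243, n1242, n224, n205, n169]
    unfold mol
    ring
  · simp only [n1367, n30]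
    all_goals ring

theorem chzBp (T : MolP) (q : ℝ) {u b x κ τ1 τ3 : ℝ} (h : DomB u b x) (hb : 0 ≤ b)
    (hκ : κ * h0 * (x * (1 - x)) = 2 * (n15 T u b x)) (hA1 : 0 ≤ z1281 T q u b x) (hA2 : 0 ≤ z1283 T q u b x) (hr : 0 ≤ n1215 T u b x)
    (hP : 0 < n1394 T u b x) (hQ : 0 < n1414 T u b x)
    (tN : 0 < -(n1459 T u b x) ∨ 0 < z1436 T q u b x ∨ 0 < z1461 T q u b x) (tM : 0 < n1459 T u b x ∨ 0 < z1454 T q u b x ∨ 0 < z1463 T q u b x)
    (t1 : tau (h0 * (n3 T u b x)) = h0 * τ1) (t3 : tau (h0 + h0 * b - h0 * (n3 T u b x)) = h0 * τ3) :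
    NGV κ (h0 * x) ((z1209 T q u b x) + b * (z1388 T q u b x)) (h0 * (n3 T u b x)) (h0 + h0 * b - h0 * (n3 T u b x))
      ((n730 T u b x) * τ1, (n1044 T u b x) * τ3, -(n1392 T u b x)) := by
  have eNT : z1461 T q u b x = u ^ 2 * ((z1281 T q u b x) * (n1215 T u b x)) + b * (z1436 T q u b x) := by
    simp only [z1461, z1290, n298]
    all_goals ring
  have eMT : z1463 T q u b x = u ^ 2 * ((z1283 T q u b x) * ((1 - (n3 T u b x)) * (n1215 T u b x))) + b * (z1454 T q u b x) := by
    simp only [z1463, z1294, n1243, n298, n169]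
    all_goals ring
  rw [eNT] at tN
  rw [eMT] at tM
  refine chB_nonneg (κ := κ) (x := x) (e := n15 T u b x) (y := n3 T u b x) (β := b) (K1 := n730 T u b x) (K10 := n728 T u b x) (K11 := n729 T u b x)
    (K30 := n1042 T u b x) (K31 := n1043 T u b x) (K3 := n1044 T u b x) (ρ0 := n1215 T u b x) (ρ1 := n1391 T u b x) (ρ := n1392 T u b x) (E0 := z1209 T q u b x) (E1 := z1388 T q u b x) (P := n1394 T u b x)
    (R := n1403 T u b x) (Q := n1414 T u b x) (P0 := n1395 T u b x) (P1 := n1398 T u b x) (R1 := n1401 T u b x) (Q1 := n1412 T u b x) (A1 := z1281 T q u b x) (A2 := z1283 T q u b x)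
    (N1 := z1436 T q u b x) (M1 := z1454 T q u b x) (u := u) (wd := n1459 T u b x) (τ1 := τ1) (τ3 := τ3) h.x0 h.x1 hκ hb (by linarith [h.b1]) h.p0 h.y1
    (J129 T (u := u) (b := b) (x := x) h) (J89 T (u := u) (b := b) (x := x))
    (J152 T (u := u) (b := b) (x := x)) ?_ ?_ ?_ ?_ ?_ ?_ ?_ hP hQ ?_ ?_ (valzB T q h) hA1 hA2 hr ?_
    tN tM t1 t3
  · simp only [n1394, n1046, n749, n460, n169]
    all_goals ring
  · simp only [n1401, n1055, n749, n372, n169]
    all_goals ring
  · simp only [n1403]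
    all_goals ring
  · simp only [n1414, n372]
    all_goals ring
  · simp only [n1395, n1049, n169]
    all_goals ring
  · simp only [n1398, n1051, n759, n169]
    all_goals ring
  · simp only [n1412, n1405]
    all_goals ring
  · simp only [z1436, n1422, n1420, n1419, n1408, n1405, n1404, n1403, n1243, n477, n315, n205, n169]
    unfold mol
    ring
  · simp only [z1454, n1440, n1438, n1437, n1419, n1415, n1408, n1403, n1262, n1243, n224, n205, n169]
    unfold mol
    ring
  · simp only [n1459, n372]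
    all_goals ring

theorem chzBm (T : MolP) (q : ℝ) {u b x κ τ1 τ3 : ℝ} (h : DomB u b x) (hb : b < 0)
    (hκ : κ * h0 * (x * (1 - x)) = 2 * (n15 T u b x)) (hA1 : 0 ≤ z1281 T q u b x) (hA2 : 0 ≤ z1283 T q u b x) (hr : 0 ≤ n1215 T u b x)
    (hP : 0 < n1474 T u b x) (hQ : 0 < n1491 T u b x)
    (tN : 0 < -(n1534 T u b x) ∨ 0 < -(z1513 T q u b x) ∨ 0 < z1538 T q u b x) (tM : 0 < n1534 T u b x ∨ 0 < -(z1529 T q u b x) ∨ 0 < z1540 T q u b x)
    (t1 : tau (h0 * (n3 T u b x)) = h0 * τ1) (t3 : tau (h0 + h0 * b - h0 * (n3 T u b x)) = h0 * τ3) :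
    NGV κ (h0 * x) ((z1209 T q u b x) + b * (z1468 T q u b x)) (h0 * (n3 T u b x)) (h0 + h0 * b - h0 * (n3 T u b x))
      ((n730 T u b x) * τ1, (n1044 T u b x) * τ3, -(n1472 T u b x)) := by
  have eNT : z1538 T q u b x = u ^ 2 * ((z1281 T q u b x) * (n1215 T u b x)) + b * (z1513 T q u b x) := by
    simp only [z1538, z1290, n298]
    all_goals ring
  have eMT : z1540 T q u b x = u ^ 2 * ((z1283 T q u b x) * ((1 - (n3 T u b x)) * (n1215 T u b x))) + b * (z1529 T q u b x) := by
    simp only [z1540, z1294, n1243, n298, n169]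
    all_goals ring
  rw [eNT] at tN
  rw [eMT] at tM
  have hyb : n3 T u b x < 1 + b := by
    have := h.p1
    simp only [n3]
    linarith
  refine chB_neg (κ := κ) (x := x) (e := n15 T u b x) (y := n3 T u b x) (β := b) (K1 := n730 T u b x) (K10 := n728 T u b x) (K11 := n729 T u b x)
    (K30 := n1042 T u b x) (K31 := n1043 T u b x) (K3 := n1044 T u b x) (ρ0 := n1215 T u b x) (ρ1 := n1471 T u b x) (ρ := n1472 T u b x) (E0 := z1209 T q u b x) (E1 := z1468 T q u b x) (P := n1474 T u b x)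
    (R := n1482 T u b x) (Q := n1491 T u b x) (P0 := n1395 T u b x) (P1 := n1477 T u b x) (R1 := n1480 T u b x) (Q1 := n1489 T u b x) (A1 := z1281 T q u b x) (A2 := z1283 T q u b x)
    (N1 := z1513 T q u b x) (M1 := z1529 T q u b x) (u := u) (wd := n1534 T u b x) (τ1 := τ1) (τ3 := τ3) h.x0 h.x1 hκ hb (by linarith [h.b0]) hyb h.y0 h.y1
    (J129 T (u := u) (b := b) (x := x) h) (J89 T (u := u) (b := b) (x := x))
    (J154 T (u := u) (b := b) (x := x)) ?_ ?_ ?_ ?_ ?_ ?_ ?_ hP hQ ?_ ?_ (valzB T q h) hA1 hA2 hr ?_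
    tN tM t1 t3
  · simp only [n1474, n1046, n749, n460, n169]
    all_goals ring
  · simp only [n1480, n1046, n761, n460, n169]
    all_goals ring
  · simp only [n1482]
    all_goals ring
  · simp only [n1491]
    all_goals ring
  · simp only [n1395, n1049, n169]
    all_goals ring
  · simp only [n1477, n1051, n759, n169]
    all_goals ring
  · simp only [n1489]
    all_goals ring
  · simp only [z1513, n1499, n1486, n1483, n1482, n1420, n1419, n1243, n205, n169]
    unfold mol
    ring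
  · simp only [z1529, n1515, n1493, n1486, n1482, n1438, n1437, n1419, n1262, n1243, n224, n205, n169]
    unfold mol
    ring
  · simp only [n1534]
    all_goals ring

theorem imzN2Ap (T : MolP) (q : ℝ) {u b x : ℝ} :
    (n205 T u b x) * ((z1212 T q u b x) * (n1228 T u b x + (b) * (n1219 T u b x)) + (z1209 T q u b x) * (n1229 T u b x)) - (n15 T u b x) * ((n1223 T u b x) * ((u) * (n1228 T u b x) + (b) * (n1236 T u b x)) + (n1237 T u b x) * (n1228 T u b x + (b) * (n1219 T u b x)) + (n1220 T u b x) * ((u) * (n1226 T u b x) + n1236 T u b x) + (n1243 T u b x) * (n1229 T u b x)) =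
      z1260 T q u b x := by
  simp only [z1260, n1246, n1244, n1243, n1242, n1237, n1236, n1232, n1229, n1228, n205, n169, n3]
  all_goals ring

theorem imzM2Ap (T : MolP) (q : ℝ) {u b x : ℝ} :
    (x) * ((z1212 T q u b x) * ((n169 T u b x) * (n1228 T u b x) - (b) * (n1236 T u b x)) + (z1209 T q u b x) * (n1237 T u b x)) - (n15 T u b x) * ((n1236 T u b x + (n3 T u b x) * (n1226 T u b x)) * ((n169 T u b x) * (n1228 T u b x) - (b) * (n1236 T u b x)) - (n1235 T u b x) * ((u) * (n1228 T u b x) + (b) * (n1236 T u b x)) - (n1261 T u b x) * ((u) * (n1226 T u b x) + n1236 T u b x) + (n1262 T u b x) * (n1237 T u b x)) =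
      z1279 T q u b x := by
  simp only [z1279, n1265, n1263, n1262, n1261, n1243, n1242, n1237, n1236, n1232, n1228, n224, n205, n169, n3]
  all_goals ring

theorem imzN2Am (T : MolP) (q : ℝ) {u b x : ℝ} :
    (n205 T u b x) * ((z1301 T q u b x) * (n1315 T u b x - (b) * (n1307 T u b x)) + (z1209 T q u b x) * (n1316 T u b x)) - (n15 T u b x) * ((n1310 T u b x) * ((u) * (n1315 T u b x) - (b) * ((n3 T u b x) * (n1307 T u b x))) + ((1 + n30 T u b x) * (n1307 T u b x) + n1320 T u b x - n1315 T u b x) * (n1315 T u b x - (b) * (n1307 T u b x)) + (n1220 T u b x) * ((u) * (n1313 T u b x) - (n3 T u b x) * (n1307 T u b x)) + (n1243 T u b x) * (n1316 T u b x)) =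
      z1346 T q u b x := by
  simp only [z1346, n1332, n1320, n1317, n1316, n1315, n1244, n1243, n1242, n316, n315, n205, n169, n30, n3]
  all_goals ring

theorem imzM2Am (T : MolP) (q : ℝ) {u b x : ℝ} :
    (x) * ((z1301 T q u b x) * ((n169 T u b x) * (n1315 T u b x) - (b) * (n1326 T u b x)) + (z1209 T q u b x) * (n1327 T u b x)) - (n15 T u b x) * ((n1326 T u b x + (n3 T u b x) * (n1313 T u b x)) * ((n169 T u b x) * (n1315 T u b x) - (b) * (n1326 T u b x)) - (n1324 T u b x) * ((u) * (n1315 T u b x) + (b) * (n1326 T u b x)) - (n1261 T u b x) * ((u) * (n1313 T u b x) + n1326 T u b x) + (n1262 T u b x) * (n1327 T u b x)) =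
      z1362 T q u b x := by
  simp only [z1362, n1348, n1327, n1326, n1320, n1315, n1263, n1262, n1261, n1243, n1242, n224, n205, n169, n30, n3]
  all_goals ring

theorem imzN2Bp (T : MolP) (q : ℝ) {u b x : ℝ} :
    (n205 T u b x) * ((z1388 T q u b x) * (n1403 T u b x + (b) * (n1394 T u b x)) + (z1209 T q u b x) * (n1404 T u b x)) - (n15 T u b x) * ((n1398 T u b x) * ((u) * (n1403 T u b x) + (b) * ((n3 T u b x) * (n1394 T u b x))) + (n1408 T u b x + n1403 T u b x - (1 + n372 T u b x) * (n1394 T u b x)) * (n1403 T u b x + (b) * (n1394 T u b x)) + (n1395 T u b x) * ((u) * (n1401 T u b x) + (n3 T u b x) * (n1394 T u b x)) + (n1243 T u b x) * (n1404 T u b x)) =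
      z1436 T q u b x := by
  simp only [z1436, n1422, n1420, n1419, n1408, n1405, n1404, n1403, n1243, n477, n372, n315, n205, n169, n3]
  all_goals ring

theorem imzM2Bp (T : MolP) (q : ℝ) {u b x : ℝ} :
    (x) * ((z1388 T q u b x) * ((n169 T u b x) * (n1403 T u b x) + (b) * (n1414 T u b x)) + (z1209 T q u b x) * (n1415 T u b x)) - (n15 T u b x) * (((n3 T u b x) * (n1401 T u b x) - n1414 T u b x) * ((n169 T u b x) * (n1403 T u b x) + (b) * (n1414 T u b x)) - (n1412 T u b x) * ((u) * (n1403 T u b x) - (b) * (n1414 T u b x)) - (n1437 T u b x) * ((u) * (n1401 T u b x) - n1414 T u b x) + (n1262 T u b x) * (n1415 T u b x)) =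
      z1454 T q u b x := by
  simp only [z1454, n1440, n1438, n1437, n1419, n1415, n1414, n1408, n1403, n1262, n1243, n372, n224, n205, n169, n3]
  all_goals ring

theorem imzN2Bm (T : MolP) (q : ℝ) {u b x : ℝ} :
    (n205 T u b x) * ((z1468 T q u b x) * (n1482 T u b x - (b) * (n1474 T u b x)) + (z1209 T q u b x) * (n1483 T u b x)) - (n15 T u b x) * ((n1477 T u b x) * ((u) * (n1482 T u b x) - (b) * ((n3 T u b x) * (n1474 T u b x))) + ((n3 T u b x) * (n1474 T u b x) + n1486 T u b x) * (n1482 T u b x - (b) * (n1474 T u b x)) + (n1395 T u b x) * ((u) * (n1480 T u b x) - (n3 T u b x) * (n1474 T u b x)) + (n1243 T u b x) * (n1483 T u b x)) =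
      z1513 T q u b x := by
  simp only [z1513, n1499, n1486, n1483, n1482, n1420, n1419, n1243, n205, n169, n3]
  all_goals ring

theorem imzM2Bm (T : MolP) (q : ℝ) {u b x : ℝ} :
    (x) * ((z1468 T q u b x) * ((n169 T u b x) * (n1482 T u b x) - (b) * (n1491 T u b x - n1482 T u b x)) + (z1209 T q u b x) * (n1486 T u b x - (n1491 T u b x - n1482 T u b x))) - (n15 T u b x) * ((n1491 T u b x + (n3 T u b x) * (n1480 T u b x) - n1482 T u b x) * ((n169 T u b x) * (n1482 T u b x) - (b) * (n1491 T u b x - n1482 T u b x)) - (n1489 T u b x) * ((u) * (n1482 T u b x) + (b) * (n1491 T u b x - n1482 T u b x)) - (n1437 T u b x) * ((u) * (n1480 T u b x) + (n1491 T u b x - n1482 T u b x)) + (n1262 T u b x) * (n1486 T u b x - (n1491 T u b x - n1482 T u b x))) =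
      z1529 T q u b x := by
  simp only [z1529, n1515, n1493, n1491, n1486, n1482, n1438, n1437, n1419, n1262, n1243, n224, n205, n169, n3]
  all_goals ring

end Pool.Agent.Strip051.LC.MolN
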