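import Pool.Agent.Strip051.LC.Exact.MolN4
import Pool.Agent.Strip051.LC.Exact.MolN5

/-! # The near charts for a displacement which is not positive: weaker test of the square (generated) -/

set_option linter.unusedVariables false

namespace Pool.Agent.Strip051.LC

open Pool.Agent.StripNear Pool.Agent.StripSquare Pool.Agent.Strip051.Sweep
open Pool.Agent.Strip051.LC.Line (Mo MoN MoW jn tau pot)

variable {κ x e y β J J1 J2 A1 A2 N1 M1 K10 K11 K1 K30 K31 K3 ρ0 ρ1 ρ E0 E1 P R Q P0 P1 R1 Q1 u τ1 τ3 wd : ℝ}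

/-- The total when the coefficient of the square is allowed to be slightly negative and the
displacement is not positive. -/
theorem test_sm {c R Y P r0 β u A1 N1 wd : ℝ} (hc : 0 < A1 + c) (hc0 : 0 ≤ c) (hu : u ≤ 0)
    (hr : 0 < r0) (hβ : 0 ≤ β) (hR : 0 < R) (ew : wd = u * R + β * (Y * P)) (hw : 0 ≤ wd)
    (h : 0 < -wd ∨ 0 < N1 * R + u * (c * (Y * P * r0)) ∨ 0 < u ^ 2 * (A1 * r0) + β * N1) :
    0 ≤ r0 * (u ^ 2 * A1) + β * N1 := by
  rcases h with h | h | h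
  · linarith
  · have h1 : 0 ≤ R * (r0 * (u ^ 2 * A1) + β * N1) := by
      have a1 : 0 ≤ r0 * (-u) * (u * R + β * (Y * P)) * c :=
        mul_nonneg (mul_nonneg (mul_nonneg hr.le (by linarith)) (by rw [← ew]; exact hw)) hc0
      have a2 : 0 ≤ β * (N1 * R + u * (c * (Y * P * r0))) := mul_nonneg hβ h.le
      have a3 : 0 ≤ R * (r0 * u ^ 2) * (A1 + c) := by positivity
      nlinarith only [a1, a2, a3]
    exact nonneg_of_mul_nonneg_right h1 hR
  · linarith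

theorem chA_nonneg_w (hx0 : 0 < x) (hx1 : x < 1) (hκ : κ * h0 * (x * (1 - x)) = 2 * e)
    (hβ : 0 ≤ β) (hβ1 : β < 1 / 2) (hyβ : y + β < 1) (hy0 : 0 < y) (hy1 : y < 1)
    (eK : K3 = K30 + β * K31) (eK1 : K1 = K10 + β * K11) (eρ : ρ = ρ0 + β * ρ1)
    (eP : P = ρ + (1 - y) * K1 - (1 - y - β) * K3)
    (eR1 : R1 = ρ1 + y * K1 - ρ + (1 - y - β) * K3)
    (eR : R = ρ0 + β * R1) (eQ : Q = R - y * P)
    (eP0 : P0 = ρ0 + (1 - y) * (K10 - K30)) (eP1 : P1 = ρ1 + K3 - (1 - y) * K31 + (1 - y) * K11)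
    (eQ1 : Q1 = R1 - y * P1) (hP : 0 < P) (hQ : 0 < Q)
    (eN : N1 = mol x e β ρ0 (R1 + P) (y * P0 + (1 - y) * ρ0)
      (y * (P1 - P) + (1 - y) * R1) P0 P1 ρ0 R1 E0 E1)
    (eM : M1 = mol (1 - x) e β ((1 - y) * ρ0) ((1 - y) * R1 - y * P) (ρ0 - y * P0 + y * ρ0)
      (y * P + Q1 + y * R1) (ρ0 - y * P0) Q1 ρ0 R1 E0 E1)
    (eJ : (1 - x) * (E0 - e * ρ0) - e * ((y - x) * (1 - y) * (K10 - K30)) = u ^ 2 * A1 ∧
      x * (E0 - e * ρ0) - e * ((y - x) * y * (K10 - K30)) = u ^ 2 * A2)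
    (hA2 : 0 ≤ A2) (hr : 0 ≤ ρ0) (ew : wd = y * (R + β * P) - x * R)
    (hN : 0 ≤ wd → 0 ≤ ρ0 * (u ^ 2 * A1) + β * N1)
    (tM : 0 < wd ∨ 0 < M1 ∨ 0 < u ^ 2 * (A2 * ((1 - y) * ρ0)) + β * M1)
    (t1 : tau (h0 * y) = h0 * τ1) (t3 : tau (h0 * y + (h0 + h0 * β)) = h0 * τ3) :
    NGV κ (h0 * x) (E0 + β * E1) (h0 * y) (h0 + h0 * β) (K1 * τ1, -ρ, K3 * τ3) := by
  have hp := h0_pos
  have hh : h0 ≠ 0 := hp.ne'
  have k := ngvA_nonneg_jet2 (κ := κ) (x := x) (e := e) (y := y) (β := β) (K1 := K1) (K30 := K30)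
    (K10 := K10) (K11 := K11) (K31 := K31) (ρ0 := ρ0) (ρ1 := ρ1) (E0 := E0) (E1 := E1) (k1 := K1 / h0) (k3 := K3 / h0)
    hx0 hx1 hκ hβ hβ1 hyβ hy0 (mul_div_cancel₀ _ hh) (by rw [mul_div_cancel₀ _ hh, eK]) eK eK1 eρ eP eR1 eR eQ
    eP0 eP1 eQ1 hP hQ
    (fun hw => by
      rw [← eN]
      rw [eJ.1]
      exact hN (by rw [ew]; linarith))
    (fun hw => by
      rw [← eM]
      exact test_pos (wd := -wd) eJ.2 hA2 (mul_nonneg (by linarith) hr) hβ (by rw [ew]; linarith)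
        (by rwa [neg_neg]))
  rw [t1, t3, ← eρ] at k
  have e1 : K1 / h0 * (h0 * τ1) = K1 * τ1 := by field_simp
  have e3 : K3 / h0 * (h0 * τ3) = K3 * τ3 := by field_simp
  rw [e1, e3] at k
  exact k

theorem chA_neg_w (hx0 : 0 < x) (hx1 : x < 1) (hκ : κ * h0 * (x * (1 - x)) = 2 * e)
    (hβ : β < 0) (hβ1 : -(1 / 2) ≤ β) (hyβ : 0 < y + β) (hy1 : y < 1)
    (eK : K3 = K30 + β * K31) (eK1 : K1 = K10 + β * K11) (eρ : ρ = ρ0 + β * ρ1)
    (eP : P = ρ + (1 - y) * K1 - (1 - y - β) * K3)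
    (eR1 : R1 = ρ1 + (1 - y) * K1 + (y + β) * K3 + ρ)
    (eR : R = ρ0 + β * R1) (eQ : Q = R - (y + β) * P)
    (eP0 : P0 = ρ0 + (1 - y) * (K10 - K30)) (eP1 : P1 = ρ1 + K3 - (1 - y) * K31 + (1 - y) * K11)
    (eQ1 : Q1 = R1 - y * P1 - P) (hP : 0 < P) (hQ : 0 < Q)
    (eN : N1 = mol x e β ρ0 (R1 - P) (y * P0 + (1 - y) * ρ0)
      (y * P1 + (1 + y + β) * P + (1 - y) * R1 - R) P0 P1 ρ0 R1 E0 E1)
    (eM : M1 = mol (1 - x) e β ((1 - y) * ρ0) ((1 - y) * R1 - Q) (ρ0 - y * P0 + y * ρ0)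
      (Q1 + Q + y * R1) (ρ0 - y * P0) Q1 ρ0 R1 E0 E1)
    (eJ : (1 - x) * (E0 - e * ρ0) - e * ((y - x) * (1 - y) * (K10 - K30)) = u ^ 2 * A1 ∧
      x * (E0 - e * ρ0) - e * ((y - x) * y * (K10 - K30)) = u ^ 2 * A2)
    (hA2 : 0 ≤ A2) (hr : 0 ≤ ρ0) (ew : wd = (y + β) * (R - β * P) - x * R)
    (hN : 0 ≤ wd → 0 ≤ ρ0 * (u ^ 2 * A1) + β * N1)
    (tM : 0 < wd ∨ 0 < -M1 ∨ 0 < u ^ 2 * (A2 * ((1 - y) * ρ0)) + β * M1)
    (t1 : tau (h0 * y) = h0 * τ1) (t3 : tau (h0 * y + (h0 + h0 * β)) = h0 * τ3) :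
    NGV κ (h0 * x) (E0 + β * E1) (h0 * y) (h0 + h0 * β) (K1 * τ1, -ρ, K3 * τ3) := by
  have hp := h0_pos
  have hh : h0 ≠ 0 := hp.ne'
  have k := ngvA_neg_jet2 (κ := κ) (x := x) (e := e) (y := y) (β := β) (K1 := K1) (K30 := K30)
    (K10 := K10) (K11 := K11) (K31 := K31) (ρ0 := ρ0) (ρ1 := ρ1) (E0 := E0) (E1 := E1) (k1 := K1 / h0) (k3 := K3 / h0)
    hx0 hx1 hκ hβ hβ1 hyβ hy1 (mul_div_cancel₀ _ hh) (by rw [mul_div_cancel₀ _ hh, eK]) eK eK1 eρ eP eR1 eR eQ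
    eP0 eP1 eQ1 hP hQ
    (fun hw => by
      rw [← eN]
      rw [eJ.1]
      exact hN (by rw [ew]; linarith))
    (fun hw => by
      rw [← eM]
      exact test_neg (wd := -wd) eJ.2 hA2 (mul_nonneg (by linarith) hr) hβ.le (by rw [ew]; linarith)
        (by rwa [neg_neg]))
  rw [t1, t3, ← eρ] at k
  have e1 : K1 / h0 * (h0 * τ1) = K1 * τ1 := by field_simp
  have e3 : K3 / h0 * (h0 * τ3) = K3 * τ3 := by field_simp
  rw [e1, e3] at k
  exact k

theorem chB_nonneg_w (hx0 : 0 < x) (hx1 : x < 1) (hκ : κ * h0 * (x * (1 - x)) = 2 * e)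
    (hβ : 0 ≤ β) (hβ1 : β < 1 / 2) (hyβ : 0 < y - β) (hy1 : y < 1)
    (eK : K3 = K30 + β * K31) (eK1 : K1 = K10 + β * K11) (eρ : ρ = ρ0 + β * ρ1)
    (eP : P = ρ - (1 - y) * K1 + (1 - y + β) * K3)
    (eR1 : R1 = ρ1 + (1 - y) * K1 + (y - β) * K3 - ρ)
    (eR : R = ρ0 + β * R1) (eQ : Q = R - (y - β) * P)
    (eP0 : P0 = ρ0 + (1 - y) * (K30 - K10)) (eP1 : P1 = ρ1 + (1 - y) * K31 + K3 - (1 - y) * K11)
    (eQ1 : Q1 = R1 - y * P1 + P) (hP : 0 < P) (hQ : 0 < Q)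
    (eN : N1 = mol x e β ρ0 (R1 + P) (y * P0 + (1 - y) * ρ0)
      (y * P1 - (1 + y - β) * P + (1 - y) * R1 + R) P0 P1 ρ0 R1 E0 E1)
    (eM : M1 = mol (1 - x) e β ((1 - y) * ρ0) ((1 - y) * R1 + Q) (ρ0 - y * P0 + y * ρ0)
      (Q1 - Q + y * R1) (ρ0 - y * P0) Q1 ρ0 R1 E0 E1)
    (eJ : (1 - x) * (E0 - e * ρ0) - e * ((y - x) * (1 - y) * (K30 - K10)) = u ^ 2 * A1 ∧
      x * (E0 - e * ρ0) - e * ((y - x) * y * (K30 - K10)) = u ^ 2 * A2)
    (hA2 : 0 ≤ A2) (hr : 0 ≤ ρ0) (ew : wd = (y - β) * (R + β * P) - x * R)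
    (hN : 0 ≤ wd → 0 ≤ ρ0 * (u ^ 2 * A1) + β * N1)
    (tM : 0 < wd ∨ 0 < M1 ∨ 0 < u ^ 2 * (A2 * ((1 - y) * ρ0)) + β * M1)
    (t1 : tau (h0 * y) = h0 * τ1) (t3 : tau (h0 + h0 * β - h0 * y) = h0 * τ3) :
    NGV κ (h0 * x) (E0 + β * E1) (h0 * y) (h0 + h0 * β - h0 * y) (K1 * τ1, K3 * τ3, -ρ) := by
  have hp := h0_pos
  have hh : h0 ≠ 0 := hp.ne'
  have k := ngvB_nonneg_jet2 (κ := κ) (x := x) (e := e) (y := y) (β := β) (K1 := K1) (K30 := K30)
    (K10 := K10) (K11 := K11) (K31 := K31) (ρ0 := ρ0) (ρ1 := ρ1) (E0 := E0) (E1 := E1) (k1 := K1 / h0) (k3 := K3 / h0)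
    hx0 hx1 hκ hβ hβ1 hyβ hy1 (mul_div_cancel₀ _ hh) (by rw [mul_div_cancel₀ _ hh, eK]) eK eK1 eρ eP eR1 eR eQ
    eP0 eP1 eQ1 hP hQ
    (fun hw => by
      rw [← eN]
      rw [eJ.1]
      exact hN (by rw [ew]; linarith))
    (fun hw => by
      rw [← eM]
      exact test_pos (wd := -wd) eJ.2 hA2 (mul_nonneg (by linarith) hr) hβ (by rw [ew]; linarith)
        (by rwa [neg_neg]))
  rw [t1, t3, ← eρ] at k
  have e1 : K1 / h0 * (h0 * τ1) = K1 * τ1 := by field_simp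
  have e3 : K3 / h0 * (h0 * τ3) = K3 * τ3 := by field_simp
  rw [e1, e3] at k
  exact k

theorem chB_neg_w (hx0 : 0 < x) (hx1 : x < 1) (hκ : κ * h0 * (x * (1 - x)) = 2 * e)
    (hβ : β < 0) (hβ1 : -(1 / 2) ≤ β) (hyβ : y < 1 + β) (hy0 : 0 < y) (hy1 : y < 1)
    (eK : K3 = K30 + β * K31) (eK1 : K1 = K10 + β * K11) (eρ : ρ = ρ0 + β * ρ1)
    (eP : P = ρ - (1 - y) * K1 + (1 - y + β) * K3)
    (eR1 : R1 = ρ1 + y * K1 + (1 - y + β) * K3 + ρ)
    (eR : R = ρ0 + β * R1) (eQ : Q = R - y * P)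
    (eP0 : P0 = ρ0 + (1 - y) * (K30 - K10)) (eP1 : P1 = ρ1 + (1 - y) * K31 + K3 - (1 - y) * K11)
    (eQ1 : Q1 = R1 - y * P1) (hP : 0 < P) (hQ : 0 < Q)
    (eN : N1 = mol x e β ρ0 (R1 - P) (y * P0 + (1 - y) * ρ0)
      (y * (P1 + P) + (1 - y) * R1) P0 P1 ρ0 R1 E0 E1)
    (eM : M1 = mol (1 - x) e β ((1 - y) * ρ0) ((1 - y) * R1 + R - Q) (ρ0 - y * P0 + y * ρ0)
      (Q1 + Q + y * R1 - R) (ρ0 - y * P0) Q1 ρ0 R1 E0 E1)
    (eJ : (1 - x) * (E0 - e * ρ0) - e * ((y - x) * (1 - y) * (K30 - K10)) = u ^ 2 * A1 ∧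
      x * (E0 - e * ρ0) - e * ((y - x) * y * (K30 - K10)) = u ^ 2 * A2)
    (hA2 : 0 ≤ A2) (hr : 0 ≤ ρ0) (ew : wd = y * (R - β * P) - x * R)
    (hN : 0 ≤ wd → 0 ≤ ρ0 * (u ^ 2 * A1) + β * N1)
    (tM : 0 < wd ∨ 0 < -M1 ∨ 0 < u ^ 2 * (A2 * ((1 - y) * ρ0)) + β * M1)
    (t1 : tau (h0 * y) = h0 * τ1) (t3 : tau (h0 + h0 * β - h0 * y) = h0 * τ3) :
    NGV κ (h0 * x) (E0 + β * E1) (h0 * y) (h0 + h0 * β - h0 * y) (K1 * τ1, K3 * τ3, -ρ) := by
  have hp := h0_pos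
  have hh : h0 ≠ 0 := hp.ne'
  have k := ngvB_neg_jet2 (κ := κ) (x := x) (e := e) (y := y) (β := β) (K1 := K1) (K30 := K30)
    (K10 := K10) (K11 := K11) (K31 := K31) (ρ0 := ρ0) (ρ1 := ρ1) (E0 := E0) (E1 := E1) (k1 := K1 / h0) (k3 := K3 / h0)
    hx0 hx1 hκ hβ hβ1 hyβ hy0 (mul_div_cancel₀ _ hh) (by rw [mul_div_cancel₀ _ hh, eK]) eK eK1 eρ eP eR1 eR eQ
    eP0 eP1 eQ1 hP hQ
    (fun hw => by
      rw [← eN]
      rw [eJ.1]
      exact hN (by rw [ew]; linarith))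
    (fun hw => by
      rw [← eM]
      exact test_neg (wd := -wd) eJ.2 hA2 (mul_nonneg (by linarith) hr) hβ.le (by rw [ew]; linarith)
        (by rwa [neg_neg]))
  rw [t1, t3, ← eρ] at k
  have e1 : K1 / h0 * (h0 * τ1) = K1 * τ1 := by field_simp
  have e3 : K3 / h0 * (h0 * τ3) = K3 * τ3 := by field_simp
  rw [e1, e3] at k
  exact k

end Pool.Agent.Strip051.LC

namespace Pool.Agent.Strip051.LC.MolN

open Pool.Agent.StripNear Pool.Agent.StripSquare Pool.Agent.Strip051.Sweep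
open Pool.Agent.Strip051.LC
open Pool.Agent.Strip051.LC.Line (tau)

theorem chyAp (T : MolP) {u b x κ τ1 τ3 : ℝ} (h : DomA u b x) (hb : 0 ≤ b)
    (hκ : κ * h0 * (x * (1 - x)) = 2 * (n15 T u b x)) (hA2 : 0 ≤ n1283 T u b x) (hr : 0 ≤ n1215 T u b x)
    (hP : 0 < n1219 T u b x) (hQ : 0 < n1241 T u b x)
    (hN : 0 ≤ n1288 T u b x → 0 ≤ n1215 T u b x * (u ^ 2 * n1281 T u b x) + b * n1260 T u b x) (tM : 0 < n1288 T u b x ∨ 0 < n1279 T u b x ∨ 0 < n1296 T u b x)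
    (t1 : tau (h0 * (n3 T u b x)) = h0 * τ1) (t3 : tau (h0 * (n3 T u b x) + (h0 + h0 * b)) = h0 * τ3) :
    NGV κ (h0 * x) ((n1209 T u b x) + b * (n1212 T u b x)) (h0 * (n3 T u b x)) (h0 + h0 * b)
      ((n730 T u b x) * τ1, -(n1217 T u b x), (n739 T u b x) * τ3) := by
  have eMT : n1296 T u b x = u ^ 2 * ((n1283 T u b x) * ((1 - (n3 T u b x)) * (n1215 T u b x))) + b * (n1279 T u b x) := by
    simp only [n1296, n1294, n1243, n298, n169]
    all_goals ring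
  rw [eMT] at tM
  refine chA_nonneg_w (κ := κ) (x := x) (e := n15 T u b x) (y := n3 T u b x) (β := b) (K1 := n730 T u b x) (K10 := n728 T u b x) (K11 := n729 T u b x)
    (K30 := n737 T u b x) (K31 := n738 T u b x) (K3 := n739 T u b x) (ρ0 := n1215 T u b x) (ρ1 := n1216 T u b x) (ρ := n1217 T u b x) (E0 := n1209 T u b x) (E1 := n1212 T u b x) (P := n1219 T u b x)
    (R := n1228 T u b x) (Q := n1241 T u b x) (P0 := n1220 T u b x) (P1 := n1223 T u b x) (R1 := n1226 T u b x) (Q1 := n1235 T u b x) (A1 := n1281 T u b x) (A2 := n1283 T u b x)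
    (N1 := n1260 T u b x) (M1 := n1279 T u b x) (u := u) (wd := n1288 T u b x) (τ1 := τ1) (τ3 := τ3) h.x0 h.x1 hκ hb (by linarith [h.b1]) h.p1 h.y0 h.y1
    (J85 T (u := u) (b := b) (x := x) h) (J89 T (u := u) (b := b) (x := x))
    (J148 T (u := u) (b := b) (x := x)) ?_ ?_ ?_ ?_ ?_ ?_ ?_ hP hQ ?_ ?_ (val2A T h) hA2 hr ?_
    hN tM t1 t3
  · simp only [n1219, n751, n749, n172, n169]
    all_goals ring
  · simp only [n1226, n761, n751, n172, n169]
    all_goals ring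
  · simp only [n1228]
    all_goals ring
  · simp only [n1241, n1236]
    all_goals ring
  · simp only [n1220, n754, n169]
    all_goals ring
  · simp only [n1223, n759, n757, n169]
    all_goals ring
  · simp only [n1235]
    all_goals ring
  · simp only [n1260, n1246, n1244, n1243, n1242, n1232, n1229, n1228, n205, n169]
    unfold mol
    ring
  · simp only [n1279, n1265, n1263, n1262, n1261, n1243, n1242, n1237, n1236, n1232, n1228, n224, n205, n169]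
    unfold mol
    ring
  · simp only [n1288]
    all_goals ring

theorem chyAm (T : MolP) {u b x κ τ1 τ3 : ℝ} (h : DomA u b x) (hb : b < 0)
    (hκ : κ * h0 * (x * (1 - x)) = 2 * (n15 T u b x)) (hA2 : 0 ≤ n1283 T u b x) (hr : 0 ≤ n1215 T u b x)
    (hP : 0 < n1307 T u b x) (hQ : 0 < n1326 T u b x)
    (hN : 0 ≤ n1367 T u b x → 0 ≤ n1215 T u b x * (u ^ 2 * n1281 T u b x) + b * n1346 T u b x) (tM : 0 < n1367 T u b x ∨ 0 < -(n1362 T u b x) ∨ 0 < n1373 T u b x)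
    (t1 : tau (h0 * (n3 T u b x)) = h0 * τ1) (t3 : tau (h0 * (n3 T u b x) + (h0 + h0 * b)) = h0 * τ3) :
    NGV κ (h0 * x) ((n1209 T u b x) + b * (n1301 T u b x)) (h0 * (n3 T u b x)) (h0 + h0 * b)
      ((n730 T u b x) * τ1, -(n1305 T u b x), (n739 T u b x) * τ3) := by
  have eMT : n1373 T u b x = u ^ 2 * ((n1283 T u b x) * ((1 - (n3 T u b x)) * (n1215 T u b x))) + b * (n1362 T u b x) := by
    simp only [n1373, n1294, n1243, n298, n169]
    all_goals ring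
  rw [eMT] at tM
  refine chA_neg_w (κ := κ) (x := x) (e := n15 T u b x) (y := n3 T u b x) (β := b) (K1 := n730 T u b x) (K10 := n728 T u b x) (K11 := n729 T u b x)
    (K30 := n737 T u b x) (K31 := n738 T u b x) (K3 := n739 T u b x) (ρ0 := n1215 T u b x) (ρ1 := n1304 T u b x) (ρ := n1305 T u b x) (E0 := n1209 T u b x) (E1 := n1301 T u b x) (P := n1307 T u b x)
    (R := n1315 T u b x) (Q := n1326 T u b x) (P0 := n1220 T u b x) (P1 := n1310 T u b x) (R1 := n1313 T u b x) (Q1 := n1324 T u b x) (A1 := n1281 T u b x) (A2 := n1283 T u b x)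
    (N1 := n1346 T u b x) (M1 := n1362 T u b x) (u := u) (wd := n1367 T u b x) (τ1 := τ1) (τ3 := τ3) h.x0 h.x1 hκ hb (by linarith [h.b0]) h.p0 h.y1
    (J85 T (u := u) (b := b) (x := x) h) (J89 T (u := u) (b := b) (x := x))
    (J150 T (u := u) (b := b) (x := x)) ?_ ?_ ?_ ?_ ?_ ?_ ?_ hP hQ ?_ ?_ (val2A T h) hA2 hr ?_
    hN tM t1 t3
  · simp only [n1307, n751, n749, n172, n169]
    all_goals ring
  · simp only [n1313, n879, n749, n169, n30]
    all_goals ring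
  · simp only [n1315]
    all_goals ring
  · simp only [n1326, n30]
    all_goals ring
  · simp only [n1220, n754, n169]
    all_goals ring
  · simp only [n1310, n759, n757, n169]
    all_goals ring
  · simp only [n1324, n1317]
    all_goals ring
  · simp only [n1346, n1332, n1320, n1317, n1316, n1315, n1244, n1243, n1242, n316, n315, n205, n169]
    unfold mol
    ring
  · simp only [n1362, n1348, n1327, n1320, n1315, n1263, n1262, n1261, n1243, n1242, n224, n205, n169]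
    unfold mol
    ring
  · simp only [n1367, n30]
    all_goals ring

theorem chyBp (T : MolP) {u b x κ τ1 τ3 : ℝ} (h : DomB u b x) (hb : 0 ≤ b)
    (hκ : κ * h0 * (x * (1 - x)) = 2 * (n15 T u b x)) (hA2 : 0 ≤ n1283 T u b x) (hr : 0 ≤ n1215 T u b x)
    (hP : 0 < n1394 T u b x) (hQ : 0 < n1414 T u b x)
    (hN : 0 ≤ n1459 T u b x → 0 ≤ n1215 T u b x * (u ^ 2 * n1281 T u b x) + b * n1436 T u b x) (tM : 0 < n1459 T u b x ∨ 0 < n1454 T u b x ∨ 0 < n1463 T u b x)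
    (t1 : tau (h0 * (n3 T u b x)) = h0 * τ1) (t3 : tau (h0 + h0 * b - h0 * (n3 T u b x)) = h0 * τ3) :
    NGV κ (h0 * x) ((n1209 T u b x) + b * (n1388 T u b x)) (h0 * (n3 T u b x)) (h0 + h0 * b - h0 * (n3 T u b x))
      ((n730 T u b x) * τ1, (n1044 T u b x) * τ3, -(n1392 T u b x)) := by
  have eMT : n1463 T u b x = u ^ 2 * ((n1283 T u b x) * ((1 - (n3 T u b x)) * (n1215 T u b x))) + b * (n1454 T u b x) := by
    simp only [n1463, n1294, n1243, n298, n169]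
    all_goals ring
  rw [eMT] at tM
  refine chB_nonneg_w (κ := κ) (x := x) (e := n15 T u b x) (y := n3 T u b x) (β := b) (K1 := n730 T u b x) (K10 := n728 T u b x) (K11 := n729 T u b x)
    (K30 := n1042 T u b x) (K31 := n1043 T u b x) (K3 := n1044 T u b x) (ρ0 := n1215 T u b x) (ρ1 := n1391 T u b x) (ρ := n1392 T u b x) (E0 := n1209 T u b x) (E1 := n1388 T u b x) (P := n1394 T u b x)
    (R := n1403 T u b x) (Q := n1414 T u b x) (P0 := n1395 T u b x) (P1 := n1398 T u b x) (R1 := n1401 T u b x) (Q1 := n1412 T u b x) (A1 := n1281 T u b x) (A2 := n1283 T u b x)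
    (N1 := n1436 T u b x) (M1 := n1454 T u b x) (u := u) (wd := n1459 T u b x) (τ1 := τ1) (τ3 := τ3) h.x0 h.x1 hκ hb (by linarith [h.b1]) h.p0 h.y1
    (J129 T (u := u) (b := b) (x := x) h) (J89 T (u := u) (b := b) (x := x))
    (J152 T (u := u) (b := b) (x := x)) ?_ ?_ ?_ ?_ ?_ ?_ ?_ hP hQ ?_ ?_ (val2B T h) hA2 hr ?_
    hN tM t1 t3
  · simp only [n1394, n1046, n749, n460, n169]
    all_goals ring
  · simp only [n1401, n1055, n749, n372, n169]
    all_goals ring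
  · simp only [n1403]
    all_goals ring
  · simp only [n1414, n372]
    all_goals ring
  · simp only [n1395, n1049, n169]
    all_goals ring
  · simp only [n1398, n1051, n759, n169]
    all_goals ring
  · simp only [n1412, n1405]
    all_goals ring
  · simp only [n1436, n1422, n1420, n1419, n1408, n1405, n1404, n1403, n1243, n477, n315, n205, n169]
    unfold mol
    ring
  · simp only [n1454, n1440, n1438, n1437, n1419, n1415, n1408, n1403, n1262, n1243, n224, n205, n169]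
    unfold mol
    ring
  · simp only [n1459, n372]
    all_goals ring

theorem chyBm (T : MolP) {u b x κ τ1 τ3 : ℝ} (h : DomB u b x) (hb : b < 0)
    (hκ : κ * h0 * (x * (1 - x)) = 2 * (n15 T u b x)) (hA2 : 0 ≤ n1283 T u b x) (hr : 0 ≤ n1215 T u b x)
    (hP : 0 < n1474 T u b x) (hQ : 0 < n1491 T u b x)
    (hN : 0 ≤ n1534 T u b x → 0 ≤ n1215 T u b x * (u ^ 2 * n1281 T u b x) + b * n1513 T u b x) (tM : 0 < n1534 T u b x ∨ 0 < -(n1529 T u b x) ∨ 0 < n1540 T u b x)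
    (t1 : tau (h0 * (n3 T u b x)) = h0 * τ1) (t3 : tau (h0 + h0 * b - h0 * (n3 T u b x)) = h0 * τ3) :
    NGV κ (h0 * x) ((n1209 T u b x) + b * (n1468 T u b x)) (h0 * (n3 T u b x)) (h0 + h0 * b - h0 * (n3 T u b x))
      ((n730 T u b x) * τ1, (n1044 T u b x) * τ3, -(n1472 T u b x)) := by
  have eMT : n1540 T u b x = u ^ 2 * ((n1283 T u b x) * ((1 - (n3 T u b x)) * (n1215 T u b x))) + b * (n1529 T u b x) := by
    simp only [n1540, n1294, n1243, n298, n169]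
    all_goals ring
  rw [eMT] at tM
  have hyb : n3 T u b x < 1 + b := by
    have := h.p1
    simp only [n3]
    linarith
  refine chB_neg_w (κ := κ) (x := x) (e := n15 T u b x) (y := n3 T u b x) (β := b) (K1 := n730 T u b x) (K10 := n728 T u b x) (K11 := n729 T u b x)
    (K30 := n1042 T u b x) (K31 := n1043 T u b x) (K3 := n1044 T u b x) (ρ0 := n1215 T u b x) (ρ1 := n1471 T u b x) (ρ := n1472 T u b x) (E0 := n1209 T u b x) (E1 := n1468 T u b x) (P := n1474 T u b x)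
    (R := n1482 T u b x) (Q := n1491 T u b x) (P0 := n1395 T u b x) (P1 := n1477 T u b x) (R1 := n1480 T u b x) (Q1 := n1489 T u b x) (A1 := n1281 T u b x) (A2 := n1283 T u b x)
    (N1 := n1513 T u b x) (M1 := n1529 T u b x) (u := u) (wd := n1534 T u b x) (τ1 := τ1) (τ3 := τ3) h.x0 h.x1 hκ hb (by linarith [h.b0]) hyb h.y0 h.y1
    (J129 T (u := u) (b := b) (x := x) h) (J89 T (u := u) (b := b) (x := x))
    (J154 T (u := u) (b := b) (x := x)) ?_ ?_ ?_ ?_ ?_ ?_ ?_ hP hQ ?_ ?_ (val2B T h) hA2 hr ?_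
    hN tM t1 t3
  · simp only [n1474, n1046, n749, n460, n169]
    all_goals ring
  · simp only [n1480, n1046, n761, n460, n169]
    all_goals ring
  · simp only [n1482]
    all_goals ring
  · simp only [n1491]
    all_goals ring
  · simp only [n1395, n1049, n169]
    all_goals ring
  · simp only [n1477, n1051, n759, n169]
    all_goals ring
  · simp only [n1489]
    all_goals ring
  · simp only [n1513, n1499, n1486, n1483, n1482, n1420, n1419, n1243, n205, n169]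
    unfold mol
    ring
  · simp only [n1529, n1515, n1493, n1486, n1482, n1438, n1437, n1419, n1262, n1243, n224, n205, n169]
    unfold mol
    ring
  · simp only [n1534]
    all_goals ring

theorem totyAp (T : MolP) {u b x c : ℝ} (h : DomA u b x) (hb : 0 ≤ b) (hu : u ≤ 0)
    (hc0 : 0 ≤ c) (hc : 0 < n1281 T u b x + c) (hr : 0 < n1215 T u b x) (hP : 0 < n1219 T u b x) (hQ : 0 < n1241 T u b x)
    (tN : 0 < -(n1288 T u b x) ∨ 0 < (n1260 T u b x) * n1228 T u b x + u * (c * (n3 T u b x * n1219 T u b x * n1215 T u b x)) ∨ 0 < n1292 T u b x) :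
    0 ≤ n1288 T u b x →
    0 ≤ n1215 T u b x * (u ^ 2 * n1281 T u b x) + b * n1260 T u b x := by
  intro hw
  have eQ : n1241 T u b x = n1228 T u b x - (x + u) * n1219 T u b x := by
    simp only [n1241, n1236, n3]
  have eW : n1288 T u b x = u * n1228 T u b x + b * (n3 T u b x * n1219 T u b x) := by
    simp only [n1288, n3]
    all_goals ring
  have eT : n1292 T u b x = u ^ 2 * (n1281 T u b x * n1215 T u b x) + b * n1260 T u b x := by
    simp only [n1292, n1290, n298]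
    all_goals ring
  have hR : 0 < n1228 T u b x := by
    have := mul_pos h.y0 hP
    linarith
  rw [eT] at tN
  exact test_sm hc hc0 hu hr hb hR eW hw tN

theorem totyAm (T : MolP) {u b x : ℝ} (h : DomA u b x) (hb : b < 0) (hu : u ≤ 0)
    (hP : 0 < n1307 T u b x) (hQ : 0 < n1326 T u b x) :
    0 ≤ n1367 T u b x →
    0 ≤ n1215 T u b x * (u ^ 2 * n1281 T u b x) + b * n1346 T u b x := by
  intro hw
  have eQ : n1326 T u b x = n1315 T u b x - (x + u + b) * n1307 T u b x := by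
    simp only [n1326, n30, n3]
  have eW : n1367 T u b x = u * n1315 T u b x + b * n1326 T u b x := by
    rw [eQ]
    simp only [n1367, n30, n3]
    all_goals ring
  have hR : 0 < n1315 T u b x := by
    have := mul_pos h.p0 hP
    linarith
  have h1 : u * n1315 T u b x ≤ 0 := mul_nonpos_of_nonpos_of_nonneg hu hR.le
  have h2 : b * n1326 T u b x < 0 := mul_neg_of_neg_of_pos hb hQ
  linarith

theorem totyBp (T : MolP) {u b x : ℝ} (h : DomB u b x) (hb : 0 ≤ b) (hu : u ≤ 0)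
    (hP : 0 < n1394 T u b x) (hQ : 0 < n1414 T u b x) :
    0 ≤ n1459 T u b x →
    0 ≤ n1215 T u b x * (u ^ 2 * n1281 T u b x) + b * n1436 T u b x := by
  intro hw
  have eQ : n1414 T u b x = n1403 T u b x - (x + u - b) * n1394 T u b x := by
    simp only [n1414, n372, n3]
  have eW : n1459 T u b x = u * n1403 T u b x - b * n1414 T u b x := by
    rw [eQ]
    simp only [n1459, n372, n3]
    all_goals ring
  have hR : 0 < n1403 T u b x := by
    have := mul_pos h.p0 hP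
    linarith
  have h1 : u * n1403 T u b x ≤ 0 := mul_nonpos_of_nonpos_of_nonneg hu hR.le
  have h2 : 0 ≤ b * n1414 T u b x := mul_nonneg hb hQ.le
  have h3 : b * n1414 T u b x = 0 := by linarith
  have h4 : u * n1403 T u b x = 0 := by linarith
  have hb0 : b = 0 := by
    rcases mul_eq_zero.1 h3 with h5 | h5
    · exact h5
    · exact absurd h5 hQ.ne'
  have hu0 : u = 0 := by
    rcases mul_eq_zero.1 h4 with h5 | h5
    · exact h5
    · exact absurd h5 hR.ne'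
  rw [hb0, hu0]
  simp

theorem totyBm (T : MolP) {u b x c : ℝ} (h : DomB u b x) (hb : b < 0) (hu : u ≤ 0)
    (hc0 : 0 ≤ c) (hc : 0 < n1281 T u b x + c) (hr : 0 < n1215 T u b x) (hP : 0 < n1474 T u b x) (hQ : 0 < n1491 T u b x)
    (tN : 0 < -(n1534 T u b x) ∨ 0 < -(n1513 T u b x) * n1482 T u b x + u * (c * (n3 T u b x * n1474 T u b x * n1215 T u b x)) ∨ 0 < n1538 T u b x) :
    0 ≤ n1534 T u b x →
    0 ≤ n1215 T u b x * (u ^ 2 * n1281 T u b x) + b * n1513 T u b x := by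
  intro hw
  have eQ : n1491 T u b x = n1482 T u b x - (x + u) * n1474 T u b x := by
    simp only [n1491, n3]
  have eW : n1534 T u b x = u * n1482 T u b x + -b * (n3 T u b x * n1474 T u b x) := by
    simp only [n1534, n3]
    all_goals ring
  have eT : n1538 T u b x = u ^ 2 * (n1281 T u b x * n1215 T u b x) + b * n1513 T u b x := by
    simp only [n1538, n1290, n298]
    all_goals ring
  have hR : 0 < n1482 T u b x := by
    have := mul_pos h.y0 hP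
    linarith
  have k := test_sm (N1 := -(n1513 T u b x)) (β := -b) hc hc0 hu hr (by linarith) hR eW hw (by
    rcases tN with h1 | h1 | h1
    · exact Or.inl h1
    · exact Or.inr (Or.inl h1)
    · refine Or.inr (Or.inr ?_)
      rw [eT] at h1
      linarith)
  linarith

end Pool.Agent.Strip051.LC.MolN
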