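import Pool.Agent.Strip051.LC.Nodes

/-! # The node curves of the exact weight

`W` is the curve of the tight diagonals, `f1` and `f2` are the middle curves (in the horizontal
direction) between `W` and the circles of radius `1` and `√3`. -/

namespace Pool.Agent.Strip051.LC

open Pool.Agent.StripNear Pool.Agent.Strip051.Sweep

/-- the circle of radius one, zero for `1 ≤ t` -/
noncomputable def c1 (t : ℝ) : ℝ := √(1 - t ^ 2)

/-- the circle of radius `√3` -/
noncomputable def c3 (t : ℝ) : ℝ := √(3 - t ^ 2)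

/-- the curve of the tight diagonals -/
noncomputable def Wc (t : ℝ) : ℝ :=
  if t < h0 then √(1 - (t - h0) ^ 2) + 1 / 2 else √(1 - (t - h0) ^ 2) - 1 / 2

/-- the curve between the circle of radius one and `W` -/
noncomputable def f1 (t : ℝ) : ℝ := (c1 t + Wc t) / 2

/-- the curve between `W` and the circle of radius `√3` -/
noncomputable def f2 (t : ℝ) : ℝ := (Wc t + c3 t) / 2

theorem h0_sq' : h0 ^ 2 = 3 / 4 := by
  unfold h0
  rw [div_pow, Real.sq_sqrt (by norm_num)]
  norm_num

theorem c1_zero {t : ℝ} (ht : 1 ≤ t) : c1 t = 0 := by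
  unfold c1
  exact Real.sqrt_eq_zero_of_nonpos (by nlinarith)

theorem c1_nonneg (t : ℝ) : 0 ≤ c1 t := Real.sqrt_nonneg _

theorem c3_nonneg (t : ℝ) : 0 ≤ c3 t := Real.sqrt_nonneg _

theorem c1_sq {t : ℝ} (h0 : 0 ≤ t) (h1 : t ≤ 1) : c1 t ^ 2 + t ^ 2 = 1 := by
  unfold c1
  rw [Real.sq_sqrt (by nlinarith)]
  ring

theorem c3_sq {t : ℝ} (h : t ^ 2 ≤ 3) : c3 t ^ 2 + t ^ 2 = 3 := by
  unfold c3
  rw [Real.sq_sqrt (by linarith)]
  ring

theorem c1_pos {t : ℝ} (h0 : 0 ≤ t) (h1 : t < 1) : 0 < c1 t :=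
  Real.sqrt_pos.2 (by nlinarith)

theorem c3_pos {t : ℝ} (h : t ^ 2 < 3) : 0 < c3 t := Real.sqrt_pos.2 (by linarith)

/-- Between the two circles: `c1 t < W t < c3 t`. -/
theorem W_between {t : ℝ} (h0t : 0 < t) (hne : t ≠ h0) (h3 : t ^ 2 < 3) :
    0 < Wc t ∧ c1 t < Wc t ∧ Wc t < c3 t := by
  have hh := h0_pos
  have hq := h0_sq'
  have ht2 : t < 2 * h0 := by nlinarith
  have hs : 0 ≤ 1 - (t - h0) ^ 2 := by nlinarith
  have hsq := Real.sq_sqrt hs
  have hr : 1 / 2 < √(1 - (t - h0) ^ 2) := by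
    apply Real.lt_sqrt_of_sq_lt
    nlinarith
  -- twice `h0` is the square root of three
  rcases lt_or_gt_of_ne hne with h | h
  · have e : Wc t = √(1 - (t - h0) ^ 2) + 1 / 2 := if_pos h
    set r := √(1 - (t - h0) ^ 2) with hrdef
    have hr1 : r ≤ 1 := by nlinarith
    have key : Wc t ^ 2 + t ^ 2 = Wc t + 2 * h0 * t := by
      rw [e]
      nlinarith
    have w0 : 0 < Wc t := by rw [e]; linarith
    refine ⟨w0, ?_, ?_⟩
    · unfold c1
      rw [Real.sqrt_lt' w0]
      have : 1 < Wc t := by rw [e]; linarith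
      nlinarith
    · unfold c3
      apply Real.lt_sqrt_of_sq_lt
      have : Wc t ≤ 3 / 2 := by rw [e]; linarith
      nlinarith
  · have e : Wc t = √(1 - (t - h0) ^ 2) - 1 / 2 := if_neg (by linarith)
    set r := √(1 - (t - h0) ^ 2) with hrdef
    have hr1 : r < 1 := by nlinarith
    have key : Wc t ^ 2 + t ^ 2 = 2 * h0 * t - Wc t := by
      rw [e]
      nlinarith
    have w0 : 0 < Wc t := by rw [e]; linarith
    refine ⟨w0, ?_, ?_⟩
    · unfold c1
      rw [Real.sqrt_lt' w0]
      have : Wc t < 1 / 2 := by rw [e]; linarith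
      nlinarith
    · unfold c3
      apply Real.lt_sqrt_of_sq_lt
      nlinarith

theorem W_zero : Wc 0 = 1 := by
  unfold Wc
  rw [if_pos h0_pos, zero_sub, neg_sq, h0_sq', show (1 : ℝ) - 3 / 4 = (1 / 2) ^ 2 by norm_num,
    Real.sqrt_sq (by norm_num)]
  norm_num

theorem W_h0 : Wc h0 = 1 / 2 := by
  unfold Wc
  rw [if_neg (lt_irrefl _), sub_self]
  norm_num

theorem c1_h0 : c1 h0 = 1 / 2 := by
  unfold c1
  rw [h0_sq', show (1 : ℝ) - 3 / 4 = (1 / 2) ^ 2 by norm_num, Real.sqrt_sq (by norm_num)]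

theorem c3_h0 : c3 h0 = 3 / 2 := by
  unfold c3
  rw [h0_sq', show (3 : ℝ) - 3 / 4 = (3 / 2) ^ 2 by norm_num, Real.sqrt_sq (by norm_num)]

theorem c1_zero' : c1 0 = 1 := by
  unfold c1
  norm_num

/-- At the heights `0` and `h0`: `c1 < f2 < c3`. -/
theorem special {t : ℝ} (h : t = 0 ∨ t = h0) : 0 < c1 t ∧ c1 t = Wc t ∧ Wc t < c3 t := by
  rcases h with rfl | rfl
  · refine ⟨by rw [c1_zero']; norm_num, by rw [c1_zero', W_zero], ?_⟩
    rw [W_zero]
    unfold c3
    apply Real.lt_sqrt_of_sq_lt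
    norm_num
  · refine ⟨by rw [c1_h0]; norm_num, by rw [c1_h0, W_h0], ?_⟩
    rw [W_h0, c3_h0]
    norm_num

/-- The list of the nodes; with `W` as a node if `b`.  Tags: `0` circle of radius one, `1` the curve
`f1`, `2` the curve `W`, `3` the curve `f2`, `4` circle of radius `√3`. -/
noncomputable def nodesW (b : Bool) (t : ℝ) : List (ℝ × Fin 5) :=
  open Classical in
  if 3 ≤ t ^ 2 then [(c3 t, 4)]
  else if t = 0 ∨ t = h0 then [(c1 t, 0), (f2 t, 3), (c3 t, 4)]
  else (if t < 1 then [(c1 t, (0 : Fin 5))] else []) ++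
    ((f1 t, 1) :: ((if b then [(Wc t, (2 : Fin 5))] else []) ++ [(f2 t, 3), (c3 t, 4)]))

theorem nodesW_mem {b : Bool} {t : ℝ} {p : ℝ × Fin 5} (ht : 0 ≤ t) (h3 : t ^ 2 ≤ 3)
    (hp : p ∈ nodesW b t) : 0 ≤ p.1 ∧ c1 t ≤ p.1 ∧ p.1 ≤ c3 t ∧ (p.1 = 0 → t ^ 2 = 3) := by
  unfold nodesW at hp
  rcases h3.eq_or_lt with h | h
  · rw [if_pos h.ge, List.mem_singleton] at hp
    subst hp
    simp only
    refine ⟨c3_nonneg t, ?_, le_rfl, fun _ => h⟩
    rw [c1_zero (by nlinarith)]
    exact c3_nonneg t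
  rw [if_neg (by linarith)] at hp
  by_cases hs : t = 0 ∨ t = h0
  · rw [if_pos hs] at hp
    obtain ⟨s1, s2, s3⟩ := special hs
    simp only [List.mem_cons, List.not_mem_nil, or_false] at hp
    rcases hp with rfl | rfl | rfl
    · simp only
      exact ⟨s1.le, le_rfl, by linarith, fun hh => absurd hh s1.ne'⟩
    · unfold f2
      simp only
      exact ⟨by linarith, by linarith, by linarith, fun hh => by linarith⟩
    · simp only
      exact ⟨by linarith, by linarith, le_rfl, fun hh => by linarith⟩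
  · rw [if_neg hs] at hp
    push Not at hs
    obtain ⟨s1, s2, s3⟩ := W_between (lt_of_le_of_ne ht (Ne.symm hs.1)) hs.2 h
    have c10 := c1_nonneg t
    have hp' : (t < 1 ∧ p = (c1 t, 0)) ∨ p = (f1 t, 1) ∨ p = (Wc t, 2) ∨ p = (f2 t, 3) ∨
        p = (c3 t, 4) := by
      simp only [List.mem_append, List.mem_cons, List.not_mem_nil, or_false] at hp
      rcases hp with hp | hp | hp | hp | hp
      · split_ifs at hp with h1
        · exact Or.inl ⟨h1, List.mem_singleton.1 hp⟩
        · simp at hp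
      · exact Or.inr (Or.inl hp)
      · split_ifs at hp with h1
        · exact Or.inr (Or.inr (Or.inl (List.mem_singleton.1 hp)))
        · simp at hp
      · exact Or.inr (Or.inr (Or.inr (Or.inl hp)))
      · exact Or.inr (Or.inr (Or.inr (Or.inr hp)))
    rcases hp' with ⟨h1, rfl⟩ | rfl | rfl | rfl | rfl
    · simp only
      exact ⟨c10, le_rfl, by linarith, fun hh => absurd hh (c1_pos ht h1).ne'⟩
    · unfold f1
      simp only
      exact ⟨by linarith, by linarith, by linarith, fun hh => by linarith⟩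
    · simp only
      exact ⟨s1.le, s2.le, s3.le, fun hh => absurd hh s1.ne'⟩
    · unfold f2
      simp only
      exact ⟨by linarith, by linarith, by linarith, fun hh => by linarith⟩
    · simp only
      exact ⟨by linarith, by linarith, le_rfl, fun hh => by linarith⟩

theorem isNodesW (b : Bool) : IsNodes (nodesW b) := by
  have hh := h0_pos
  refine ⟨?_, ?_, ?_, ?_, ?_, ?_⟩
  · intro t ht h3
    unfold nodesW
    rcases h3.eq_or_lt with h | h
    · rw [if_pos h.ge]
      simp
    rw [if_neg (by linarith)]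
    by_cases hs : t = 0 ∨ t = h0
    · rw [if_pos hs]
      obtain ⟨s1, s2, s3⟩ := special hs
      have e1 : c1 t < f2 t := by unfold f2; linarith
      have e2 : f2 t < c3 t := by unfold f2; linarith
      simp [e1, e2]
    · rw [if_neg hs]
      push Not at hs
      obtain ⟨s1, s2, s3⟩ := W_between (lt_of_le_of_ne ht (Ne.symm hs.1)) hs.2 h
      have e1 : c1 t < f1 t := by unfold f1; linarith
      have e2 : f1 t < Wc t := by unfold f1; linarith
      have e3 : Wc t < f2 t := by unfold f2; linarith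
      have e4 : f2 t < c3 t := by unfold f2; linarith
      have e5 : f1 t < f2 t := by linarith
      cases b <;> split_ifs <;> simp_all
  · intro t ht h3 p hp
    exact (nodesW_mem ht h3 hp).1
  · intro t ht h3 p hp
    obtain ⟨h1, h2, h4, -⟩ := nodesW_mem ht h3 hp
    constructor
    · rcases le_or_gt t 1 with h | h
      · have := c1_sq ht h
        nlinarith [c1_nonneg t]
      · nlinarith [sq_nonneg p.1]
    · have := c3_sq h3
      nlinarith [c3_nonneg t]
  · intro t ht h3
    refine ⟨(c3 t, 4), ?_, c3_sq h3⟩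
    unfold nodesW
    split_ifs <;> simp
  · intro t ht h1
    refine ⟨(c1 t, 0), ?_, c1_sq ht h1.le⟩
    unfold nodesW
    rw [if_neg (by nlinarith)]
    split_ifs <;> simp
  · intro t ht h3 p hp
    exact (nodesW_mem ht h3 hp).2.2.2

/-- An edge at one of the nodes: its abscissa is one of the curves. -/
theorem nodeAtW {b : Bool} {X Y : ℝ} (h : NodeAt (nodesW b) X Y) :
    (|X| = c1 |Y| ∧ |Y| < 1) ∨ (|X| = f1 |Y| ∧ 0 < |Y| ∧ |Y| ≠ h0) ∨
      (b = true ∧ |X| = Wc |Y| ∧ 0 < |Y| ∧ |Y| ≠ h0) ∨ |X| = f2 |Y| ∨ |X| = c3 |Y| := by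
  have hh := h0_pos
  have hq := h0_sq'
  obtain ⟨p, hp, hp'⟩ := h
  rw [hp']
  unfold nodesW at hp
  have hY := abs_nonneg Y
  by_cases h3 : 3 ≤ |Y| ^ 2
  · rw [if_pos h3, List.mem_singleton] at hp
    subst hp
    tauto
  rw [if_neg h3] at hp
  by_cases hs : |Y| = 0 ∨ |Y| = h0
  · rw [if_pos hs] at hp
    simp only [List.mem_cons, List.not_mem_nil, or_false] at hp
    have h1 : |Y| < 1 := by
      rcases hs with h | h <;> rw [h] <;> nlinarith
    rcases hp with rfl | rfl | rfl
    · exact Or.inl ⟨rfl, h1⟩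
    · tauto
    · tauto
  · rw [if_neg hs] at hp
    push Not at hs
    have hpos : 0 < |Y| := lt_of_le_of_ne hY (Ne.symm hs.1)
    simp only [List.mem_append, List.mem_cons, List.not_mem_nil, or_false] at hp
    rcases hp with hp | hp | hp | hp | hp
    · split_ifs at hp with h1
      · rw [List.mem_singleton] at hp
        subst hp
        exact Or.inl ⟨rfl, h1⟩
      · simp at hp
    · subst hp
      exact Or.inr (Or.inl ⟨rfl, hpos, hs.2⟩)
    · split_ifs at hp with h1
      · rw [List.mem_singleton] at hp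
        subst hp
        exact Or.inr (Or.inr (Or.inl ⟨h1, rfl, hpos, hs.2⟩))
      · simp at hp
    · subst hp
      tauto
    · subst hp
      tauto

end Pool.Agent.Strip051.LC
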