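import Pool.Agent.Strip051.LC.Exact.Assemble

/-! # The lattice widths

For the rest `0` Molnar's bound follows from the exact counts for small positive rests. -/

namespace Pool.Agent.Strip051.LC

open Pool.Agent.StripNear Pool.Agent.StripSquare Pool.Agent.Strip051 Pool.Agent.Strip051.Sweep
open Pool.Agent.StripTwo (rowNumber molnar)
open Filter Topology

/-- The constant of Molnar's bound is continuous at the rest `0`. -/
theorem tendsto_const (n : ℕ) : Tendsto (fun s : ℝ => Real.pi * (((n : ℝ) + 1) * (n + 2) /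
    (n + 2 * g s))) (𝓝[>] 0) (𝓝 (Real.pi * (((n : ℝ) + 1) * (n + 2) / (n + 2 * 1)))) := by
  have h1 : Tendsto (fun s : ℝ => g s) (𝓝[>] 0) (𝓝 1) := by
    have : ContinuousAt (fun s : ℝ => g s) 0 := by
      unfold g
      fun_prop
    have h := this.tendsto
    have e : g 0 = 1 := by
      unfold g
      norm_num
    rw [e] at h
    exact h.mono_left nhdsWithin_le_nhds
  have hn : (0 : ℝ) ≤ n := Nat.cast_nonneg n
  refine Tendsto.const_mul _ (Tendsto.div tendsto_const_nhds ?_ (by positivity))
  exact tendsto_const_nhds.add (h1.const_mul 2)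

/-- **Molnar's bound at the lattice widths** from the exact counts for small positive rests. -/
theorem molnar_of_right {w : ℝ} (hw : 2 ≤ w) (hr : rest w = 0) {ε : ℝ} (hε : 0 < ε)
    (h : ∀ s, 0 < s → s < ε → CountBound (rowNumber w) s) {C : Set E2}
    (hC : IsStripPacking w C) {O : E2} {d : ℝ} (hd : HasDensity w C O d) : d ≤ molnar w := by
  obtain ⟨-, -, hH⟩ := rest_spec hw
  set n := rowNumber w with hn
  have hn0 : (0 : ℝ) ≤ n := Nat.cast_nonneg n
  rw [hr, add_zero] at hH
  have hw0 : 0 < w := by linarith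
  -- the bound for one positive rest
  have key : ∀ s, 0 < s → s < ε → s < h0 →
      d * (2 * w) ≤ Real.pi * (((n : ℝ) + 1) * (n + 2) / (n + 2 * g s)) := by
    intro s s0 s1 s2
    obtain ⟨C0, hC0⟩ := h s s0 s1
    have hg := g_gt_half s0.le s2
    have h4 : 0 < (n : ℝ) + 2 * g s := by linarith
    have h1 := Pool.Agent.StripNear.density_le (w := w)
      (m := ((n : ℝ) + 1) * (n + 2) / (n + 2 * g s))
      (C0 := ((n : ℝ) + 1) * (n + 2) / (n + 2 * g s) * C0) hw
      (fun L hL0 X hX hL hXH => by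
        rw [hH] at hXH
        have hX' : InStrip (n * h0 + s) X := fun p hp =>
          ⟨(hXH p hp).1, by linarith [(hXH p hp).2]⟩
        have h5 := hC0 L hL0 X hX hX' hL
        rw [← mul_add, div_mul_eq_mul_div, le_div_iff₀ h4]
        exact h5) hC hd
    rwa [le_div_iff₀ (by positivity)] at h1
  have hlim := ge_of_tendsto (tendsto_const n) (b := d * (2 * w)) (by
    have h1 : ∀ᶠ s : ℝ in 𝓝[>] 0, s < min ε h0 :=
      nhdsWithin_le_nhds (Iio_mem_nhds (lt_min hε h0_pos))
    filter_upwards [h1, self_mem_nhdsWithin] with s hs hs0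
    exact key s hs0 (hs.trans_le (min_le_left _ _)) (hs.trans_le (min_le_right _ _)))
  have e : molnar w = Real.pi * (((n : ℝ) + 1) * (n + 2) / (n + 2 * 1)) / (2 * w) := by
    unfold molnar
    rw [← hn]
    have e1 : w - 2 - Real.sqrt 3 * n = 0 := by
      have : h0 = Real.sqrt 3 / 2 := rfl
      rw [this] at hH
      linarith
    rw [e1]
    have e2 : Real.sqrt (4 - 0 ^ 2) = 2 := by
      rw [show (4 : ℝ) - 0 ^ 2 = 2 ^ 2 by norm_num]
      exact Real.sqrt_sq (by norm_num)
    rw [e2]
    field_simp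
  rw [e, le_div_iff₀ (by positivity)]
  exact hlim

/-- **Molnar's bound** for all widths at least `2 + 2 √3`, from the exact counts for `n = 2` and
for all positive rests for `n ≥ 3`. -/
theorem molnar_from_pos (h2 : ∀ s, 0 ≤ s → s < h0 → CountBound 2 s)
    (h3 : ∀ s, 0 < s → s < h0 → Good s) {w : ℝ} (hw : 2 + 2 * Real.sqrt 3 ≤ w) {C : Set E2}
    (hC : IsStripPacking w C) {O : E2} {d : ℝ} (hd : HasDensity w C O d) : d ≤ molnar w := by
  have k3 : 0 < Real.sqrt 3 := Real.sqrt_pos.2 (by norm_num)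
  have hw2 : 2 ≤ w := by linarith
  obtain ⟨r0, r1, -⟩ := rest_spec hw2
  have hr : 2 ≤ rowNumber w := by
    unfold rowNumber
    refine Nat.le_floor ?_
    rw [le_div_iff₀ k3]
    push_cast
    linarith
  rcases hr.eq_or_lt with h | h
  · refine le_molnar_of_count hw2 ?_ hC hd
    rw [← h]
    exact h2 _ r0 r1
  · rcases r0.eq_or_lt with h0' | h0'
    · exact molnar_of_right hw2 h0'.symm h0_pos (fun s s0 s1 => h3 s s0 s1 _ h) hC hd
    · exact le_molnar_of_count hw2 (h3 _ h0' r1 _ h) hC hd

end Pool.Agent.Strip051.LC
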