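import Pool.Agent.Strip051.LC.Exact.Main

/-! # The modified edge function near the walls

If the inequality at the floor fails for some pairs, the edge function `F` is replaced by the
minimum of `F` and the line which makes the inequality true, for all pairs which can be neighbours
at the floor (`FF`), and symmetrically at the ceiling.  The triangle inequality has then to be
checked with the corrections `wm` for the triangles at the floor. -/

namespace Pool.Agent.Strip051.LC

open Pool.Agent.StripNear Pool.Agent.StripSquare Pool.Agent.Strip051.Sweep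

/-- `p`, `q` can be neighbours at the floor, `p` on the left. -/
structure FF (p q : Pt) : Prop where
  lt : p.1 < q.1
  p0 : 0 ≤ p.2
  q0 : 0 ≤ q.2
  sep : 1 ≤ ds p q
  circ : ∃ m : ℝ, (p.1 - m) ^ 2 + p.2 ^ 2 = (q.1 - m) ^ 2 + q.2 ^ 2 ∧
    (p.1 - m) ^ 2 + p.2 ^ 2 ≤ 1

theorem FF.left_le {p q : Pt} (h : FF p q) : p.2 ≤ 1 := by
  obtain ⟨m, h1, h2⟩ := h.circ
  nlinarith [sq_nonneg (p.1 - m)]

theorem FF.right_le {p q : Pt} (h : FF p q) : q.2 ≤ 1 := by
  obtain ⟨m, h1, h2⟩ := h.circ
  nlinarith [sq_nonneg (q.1 - m)]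

theorem FF.not_rev {p q : Pt} (h : FF p q) : ¬FF q p := fun h' => by
  have h1 := h.lt
  have h2 := h'.lt
  linarith

/-- A pair which occurs in the inequality at the floor. -/
theorem FF.of_wall {p q : Pt} {m : ℝ} (h1 : p.1 ≤ q.1) (h2 : 0 ≤ p.2) (h3 : 0 ≤ q.2)
    (h4 : 1 ≤ ds p q) (h5 : (p.1 - m) ^ 2 + p.2 ^ 2 = (q.1 - m) ^ 2 + q.2 ^ 2)
    (h6 : (p.1 - m) ^ 2 + p.2 ^ 2 ≤ 1) : FF p q := by
  refine ⟨lt_of_le_of_ne h1 ?_, h2, h3, h4, m, h5, h6⟩
  intro he
  rw [he] at h5
  have h7 : p.2 ^ 2 = q.2 ^ 2 := by linarith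
  have h8 : p.2 = q.2 := by
    rcases sq_eq_sq_iff_eq_or_eq_neg.1 h7 with h | h
    · exact h
    · linarith
  unfold ds at h4
  rw [he, h8] at h4
  simp only [sub_self, ne_eq, OfNat.ofNat_ne_zero, not_false_eq_true, zero_pow, add_zero] at h4
  linarith

section

open Classical

variable {H w : ℝ} {F : Pt → Pt → ℝ}

/-- The modified edge function. -/
noncomputable def star (H w : ℝ) (F : Pt → Pt → ℝ) (a b : Pt) : ℝ :=
  if FF a b then min (F a b) (w * (b.1 - a.1) - 1 / 2)
  else if FF b a then -min (F b a) (w * (a.1 - b.1) - 1 / 2)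
  else if FF (mir H b) (mir H a) then min (F a b) (w * (a.1 - b.1) - 1 / 2)
  else if FF (mir H a) (mir H b) then -min (F b a) (w * (b.1 - a.1) - 1 / 2)
  else F a b

/-- The (negative) correction on a pair at the floor. -/
noncomputable def wm (w : ℝ) (F : Pt → Pt → ℝ) (a b : Pt) : ℝ :=
  if FF a b then min 0 (w * (b.1 - a.1) - 1 / 2 - F a b) else 0

theorem wm_nonpos (a b : Pt) : wm w F a b ≤ 0 := by
  unfold wm
  split_ifs
  · exact min_le_left _ _
  · exact le_rfl

theorem wm_of {a b : Pt} (h : FF a b) :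
    wm w F a b = min 0 (w * (b.1 - a.1) - 1 / 2 - F a b) := if_pos h

theorem wm_not {a b : Pt} (h : ¬FF a b) : wm w F a b = 0 := if_neg h

theorem mir_mir' (H : ℝ) (p : Pt) : mir H (mir H p) = p := by
  unfold mir
  simp

/-- Away from the ceiling. -/
theorem star_floor (hanti : ∀ a b, F b a = -F a b) {a b : Pt} (h1 : ¬FF (mir H b) (mir H a))
    (h2 : ¬FF (mir H a) (mir H b)) : star H w F a b = F a b + wm w F a b - wm w F b a := by
  unfold star
  split_ifs with h3 h4
  · rw [wm_of h3, wm_not h3.not_rev]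
    rcases le_total (F a b) (w * (b.1 - a.1) - 1 / 2) with h | h
    · rw [min_eq_left h, min_eq_left (by linarith)]
      ring
    · rw [min_eq_right h, min_eq_right (by linarith)]
      ring
  · rw [wm_of h4, wm_not h3]
    have := hanti a b
    rcases le_total (F b a) (w * (a.1 - b.1) - 1 / 2) with h | h
    · rw [min_eq_left h, min_eq_left (by linarith)]
      linarith
    · rw [min_eq_right h, min_eq_right (by linarith)]
      linarith
  · rw [wm_not h3, wm_not h4]
    ring

theorem star_anti (hanti : ∀ a b, F b a = -F a b) (a b : Pt) :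
    star H w F b a = -star H w F a b := by
  unfold star
  by_cases h1 : FF a b
  · rw [if_neg h1.not_rev, if_pos h1, if_pos h1]
  · by_cases h2 : FF b a
    · rw [if_pos h2, if_neg h1, if_pos h2, neg_neg]
    · rw [if_neg h2, if_neg h1, if_neg h1, if_neg h2]
      by_cases h3 : FF (mir H a) (mir H b)
      · rw [if_pos h3, if_neg h3.not_rev, if_pos h3, neg_neg]
      · rw [if_neg h3]
        by_cases h4 : FF (mir H b) (mir H a)
        · rw [if_pos h4, if_pos h4]
        · rw [if_neg h4, if_neg h4, if_neg h3]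
          exact hanti a b

/-- A pair cannot be at the floor and at the ceiling. -/
theorem FF.no_top (hH : 2 < H) {a b c d : Pt} (h : FF a b) (h' : FF (mir H c) (mir H d))
    (hs : c = a ∨ c = b ∨ d = a ∨ d = b) : False := by
  have h1 := h.left_le
  have h2 := h.right_le
  have h3 := h'.left_le
  have h4 := h'.right_le
  unfold mir at h3 h4
  simp only at h3 h4
  rcases hs with rfl | rfl | rfl | rfl <;> linarith

theorem star_mirror (hH : 2 < H) (hmir : ∀ a b, F (mir H a) (mir H b) = F b a) (a b : Pt) :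
    star H w F (mir H a) (mir H b) = star H w F b a := by
  have e1 : (mir H a).1 = a.1 := rfl
  have e2 : (mir H b).1 = b.1 := rfl
  unfold star
  rw [mir_mir', mir_mir', hmir, hmir, e1, e2]
  by_cases h1 : FF b a
  · have n1 : ¬FF (mir H a) (mir H b) := fun h => h1.no_top hH h (by tauto)
    have n2 : ¬FF (mir H b) (mir H a) := fun h => h1.no_top hH h (by tauto)
    rw [if_neg n1, if_neg n2, if_pos h1, if_pos h1]
  · by_cases h2 : FF a b
    · have n1 : ¬FF (mir H a) (mir H b) := fun h => h2.no_top hH h (by tauto)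
      have n2 : ¬FF (mir H b) (mir H a) := fun h => h2.no_top hH h (by tauto)
      rw [if_neg n1, if_neg n2, if_neg h1, if_pos h2, if_neg h1, if_pos h2]
    · by_cases h3 : FF (mir H a) (mir H b)
      · rw [if_pos h3, if_neg h1, if_neg h2, if_pos h3]
      · by_cases h4 : FF (mir H b) (mir H a)
        · rw [if_neg h3, if_pos h4, if_neg h1, if_neg h2, if_neg h3, if_pos h4]
        · rw [if_neg h3, if_neg h4, if_neg h1, if_neg h2, if_neg h1, if_neg h2, if_neg h3,
            if_neg h4]

/-- The corrected sum around a triangle. -/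
noncomputable def corr (w : ℝ) (F : Pt → Pt → ℝ) (p q r : Pt) : ℝ :=
  (wm w F p q - wm w F q p) + (wm w F q r - wm w F r q) + (wm w F r p - wm w F p r)

/-- **The modified certificate.** -/
theorem symH_star (hH : 2 < H) (hanti : ∀ a b, F b a = -F a b)
    (hmir : ∀ a b, F (mir H a) (mir H b) = F b a)
    (rows : ∀ p q r o R, In H p → In H q → In H r → In H o → 0 ≤ cr p q r → 1 ≤ ds p q →
      1 ≤ ds q r → 1 ≤ ds p r → ds p o = R → ds q o = R → ds r o = R → R ≤ 1 →
      1 / 2 ≤ F p q + F q r + F r p + corr w F p q r) : SymH H w (star H w F) := by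
  refine ⟨star_anti hanti, star_mirror hH hmir, ?_, ?_⟩
  · intro p q r o R hp hq hr ho k0 k1 k2 k3 k4 k5 k6 k7
    -- the triangle is not at the ceiling
    have main : ∀ p q r o : Pt, In H p → In H q → In H r → In H o → 0 ≤ cr p q r → 1 ≤ ds p q →
        1 ≤ ds q r → 1 ≤ ds p r → ds p o = R → ds q o = R → ds r o = R →
        (¬FF (mir H q) (mir H p) ∧ ¬FF (mir H p) (mir H q)) →
        (¬FF (mir H r) (mir H q) ∧ ¬FF (mir H q) (mir H r)) →
        (¬FF (mir H p) (mir H r) ∧ ¬FF (mir H r) (mir H p)) →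
        1 / 2 ≤ star H w F p q + star H w F q r + star H w F r p := by
      intro p q r o hp hq hr ho k0 k1 k2 k3 k4 k5 k6 n1 n2 n3
      rw [star_floor hanti n1.1 n1.2, star_floor hanti n2.1 n2.2, star_floor hanti n3.1 n3.2]
      have := rows p q r o R hp hq hr ho k0 k1 k2 k3 k4 k5 k6 k7
      unfold corr at this
      linarith
    by_cases hc : (¬FF (mir H q) (mir H p) ∧ ¬FF (mir H p) (mir H q)) ∧
        (¬FF (mir H r) (mir H q) ∧ ¬FF (mir H q) (mir H r)) ∧
        (¬FF (mir H p) (mir H r) ∧ ¬FF (mir H r) (mir H p))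
    · exact main p q r o hp hq hr ho k0 k1 k2 k3 k4 k5 k6 hc.1 hc.2.1 hc.2.2
    · -- the mirror image
      have hds : ∀ a b : Pt, ds (mir H a) (mir H b) = ds a b := by
        intro a b
        unfold ds mir
        ring
      have hcr : cr (mir H r) (mir H q) (mir H p) = cr p q r := by
        unfold cr mir
        ring
      have hno : ∀ a b : Pt, ¬FF a b ∨ ¬(a = p ∨ a = q ∨ a = r) ∨ ¬(b = p ∨ b = q ∨ b = r) ∨
          a = b := by
        intro a b
        by_contra hcon
        push Not at hcon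
        obtain ⟨h1, h2, h3, h4⟩ := hcon
        apply hc
        have key : ∀ c d : Pt, (c = a ∨ c = b ∨ d = a ∨ d = b) → ¬FF (mir H c) (mir H d) :=
          fun c d hs h => h1.no_top hH h hs
        refine ⟨⟨key _ _ ?_, key _ _ ?_⟩, ⟨key _ _ ?_, key _ _ ?_⟩, ⟨key _ _ ?_, key _ _ ?_⟩⟩ <;>
          rcases h2 with rfl | rfl | rfl <;> rcases h3 with rfl | rfl | rfl <;> tauto
      have nf : ∀ a b : Pt, (a = p ∨ a = q ∨ a = r) → (b = p ∨ b = q ∨ b = r) → ¬FF a b := by
        intro a b h2 h3 h1
        rcases hno a b with h | h | h | h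
        · exact h h1
        · exact h h2
        · exact h h3
        · rw [h] at h1
          exact lt_irrefl _ h1.lt
      have := main (mir H r) (mir H q) (mir H p) (mir H o) hr.mir hq.mir hp.mir ho.mir
        (by rw [hcr]; exact k0) (by rw [hds, ds_comm]; exact k2) (by rw [hds, ds_comm]; exact k1)
        (by rw [hds, ds_comm]; exact k3) (by rw [hds]; exact k6) (by rw [hds]; exact k5)
        (by rw [hds]; exact k4)
        ⟨by rw [mir_mir', mir_mir']; exact nf _ _ (by tauto) (by tauto),
          by rw [mir_mir', mir_mir']; exact nf _ _ (by tauto) (by tauto)⟩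
        ⟨by rw [mir_mir', mir_mir']; exact nf _ _ (by tauto) (by tauto),
          by rw [mir_mir', mir_mir']; exact nf _ _ (by tauto) (by tauto)⟩
        ⟨by rw [mir_mir', mir_mir']; exact nf _ _ (by tauto) (by tauto),
          by rw [mir_mir', mir_mir']; exact nf _ _ (by tauto) (by tauto)⟩
      rw [star_mirror hH hmir, star_mirror hH hmir, star_mirror hH hmir] at this
      linarith
  · intro p q m k1 k2 k3 k4 k5 k6
    have hff := FF.of_wall k1 k2.1 k3.1 k4 k5 k6
    have e : star H w F q p = -min (F p q) (w * (q.1 - p.1) - 1 / 2) := by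
      unfold star
      rw [if_neg hff.not_rev, if_pos hff]
    rw [e]
    have := min_le_right (F p q) (w * (q.1 - p.1) - 1 / 2)
    linarith

theorem star_abs {K K' : ℝ} {a b : Pt} (h1 : |F a b| ≤ K) (h2 : |F b a| ≤ K)
    (h3 : |w * (b.1 - a.1) - 1 / 2| ≤ K') (h4 : |w * (a.1 - b.1) - 1 / 2| ≤ K') (hK : K ≤ K') :
    |star H w F a b| ≤ K' := by
  have key : ∀ x y : ℝ, |x| ≤ K → |y| ≤ K' → |min x y| ≤ K' := by
    intro x y hx hy
    rcases min_choice x y with h | h <;> rw [h]
    · exact hx.trans hK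
    · exact hy
  unfold star
  split_ifs
  · exact key _ _ h1 h3
  · rw [abs_neg]
    exact key _ _ h2 h4
  · exact key _ _ h1 h4
  · rw [abs_neg]
    exact key _ _ h2 h3
  · exact h1.trans hK

/-! ### The corrected rows -/

/-- The floor slack of a pair. -/
noncomputable def wf (w : ℝ) (F : Pt → Pt → ℝ) (a b : Pt) : ℝ := w * (b.1 - a.1) - 1 / 2 - F a b

/-- The identity for a triangle with one lower edge. -/
theorem wf_split (hanti : ∀ a b, F b a = -F a b) (a b c : Pt) :
    wf w F a b + (F a b + F b c + F c a - 1 / 2) = wf w F a c + wf w F c b := by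
  have h1 := hanti a c
  have h2 := hanti c b
  unfold wf
  linarith

/-- One lower edge `a b`: both upper edges at the floor. -/
theorem row_auto (hanti : ∀ a b, F b a = -F a b) {a b c : Pt} (hab : FF a b) (hac : FF a c)
    (hcb : FF c b) (hS : 1 / 2 ≤ F a b + F b c + F c a) :
    1 / 2 ≤ F a b + F b c + F c a + corr w F a b c := by
  have key := wf_split (w := w) hanti a b c
  unfold corr
  rw [wm_not hab.not_rev, wm_of hab, wm_not hcb.not_rev, wm_of hcb, wm_not hac.not_rev,
    wm_of hac]
  unfold wf at key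
  set x := w * (b.1 - a.1) - 1 / 2 - F a b
  set y := w * (c.1 - a.1) - 1 / 2 - F a c
  set z := w * (b.1 - c.1) - 1 / 2 - F c b
  have y1 := min_le_right 0 y
  have y2 := min_le_left 0 y
  have z1 := min_le_right 0 z
  have z2 := min_le_left 0 z
  rcases le_total 0 x with h | h
  · rw [min_eq_left h]
    linarith
  · rw [min_eq_right h]
    linarith

end

end Pool.Agent.Strip051.LC
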