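import Pool.Agent.Strip051.LC.Exact.LongMain
import Pool.Agent.Strip051.LC.Line.WallRed

/-! # The conditions at the floor from inequalities for one pair

`U X y z` is the floor function of one vertex: the slack of a pair at the floor is `U - 1 / 2`.  For
a triangle `a b c` with the lower edge `a b` the sum of the slacks of the triangle and of `a b` is
`U (a c) + U (c b) - 1`, for `c` below `a b` the sum of the slacks of the triangle and of the lower
edge `a c` is `U (a b) - U (c b) - 1`.  So the conditions `StarSmall` follow from inequalities for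
one pair.  The slack of a pair at the floor may be negative in a small window: long and almost
horizontal pairs close to the floor. -/

namespace Pool.Agent.Strip051.LC

open Pool.Agent.StripNear Pool.Agent.StripSquare Pool.Agent.Strip051.Sweep
open Pool.Agent.Strip051.LC.Line

/-- The parameters of the window: the pairs with a horizontal displacement greater than `d`, heights
which differ by less than `τ` and the smaller height less than `η`. -/
structure Win where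
  τ : ℝ
  η : ℝ
  d : ℝ
  /-- the largest displacement of the steep edge in an obtuse triangle -/
  um : ℝ
  /-- the heights of the steep edge in an obtuse triangle -/
  TL : ℝ
  TU : ℝ
  /-- the largest height -/
  Tm : ℝ

structure Win.Ok (W : Win) : Prop where
  t0 : 0 < W.τ
  t1 : W.τ ≤ 1 / 10
  e0 : 0 ≤ W.η
  e1 : W.η ≤ 1 / 10
  d1 : 1 ≤ W.d
  um0 : 0 ≤ W.um
  um1 : 2 + 2 * W.τ * W.TU ≤ W.d ^ 2 + 2 * W.d * W.um
  TL0 : W.τ ≤ W.TL
  TL1 : W.TL ^ 2 + W.um ^ 2 ≤ 1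
  TU0 : W.τ ≤ W.TU
  TU1 : 3 ≤ W.d ^ 2 + (W.TU - W.τ) ^ 2
  Tm0 : 1 + W.τ ≤ W.Tm
  Tm1 : 3 ≤ W.d ^ 2 / 4 + (W.Tm - W.τ) ^ 2

/-- The inequalities for one pair, for the floor function `U` of one vertex. -/
structure StarPt (U : ℝ → ℝ → ℝ → ℝ) (W : Win) : Prop where
  comm : ∀ X y z, U X z y = U X y z
  /-- `U` grows with the height -/
  up : ∀ X T y e, 0 ≤ X → 0 ≤ T → T ≤ W.Tm → 1 ≤ X ^ 2 + T ^ 2 → X ^ 2 + T ^ 2 ≤ 3 → 0 ≤ y →
    0 ≤ e → U X y (y + T) ≤ U X (y + e) (y + e + T)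
  /-- the pairs which are not almost horizontal -/
  wall : ∀ X T, 0 ≤ X → W.τ ≤ T → 1 ≤ X ^ 2 + T ^ 2 → X ^ 2 + T ^ 2 ≤ 3 →
    X ^ 2 + T ^ 2 ≤ 2 * X → 1 / 2 ≤ U X 0 T
  /-- the almost horizontal pairs with a small displacement -/
  flat : ∀ X T, 0 ≤ X → X ≤ W.d → 0 ≤ T → T ≤ W.τ → 1 ≤ X ^ 2 + T ^ 2 → X ^ 2 + T ^ 2 ≤ 3 →
    1 / 2 ≤ U X 0 T
  /-- the other almost horizontal pairs at the height `η` -/
  high : ∀ X T, W.d ≤ X → 0 ≤ T → T ≤ W.τ → X ^ 2 + T ^ 2 ≤ 3 → 1 / 2 ≤ U X W.η (W.η + T)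
  /-- the steep pairs above an edge of the window -/
  upper : ∀ T, h0 - W.τ ≤ T → T ≤ W.Tm - W.τ → ∃ α, 0 ≤ α ∧ ∀ T', T ≤ T' → T' ≤ T + W.τ →
    ∀ u, 0 ≤ u → 1 ≤ u ^ 2 + T' ^ 2 → u ^ 2 + T' ^ 2 ≤ 3 →
      1 / 2 + α * (u - W.d / 2) ≤ U u 0 T'
  /-- the pairs of an obtuse triangle above an edge of the window -/
  lower : ∀ T, W.TL ≤ T → T ≤ W.TU → ∃ β, 0 ≤ β ∧
    (∀ T', T - W.τ ≤ T' → T' ≤ T + W.τ → ∀ u, W.d ≤ u → u ^ 2 + T' ^ 2 ≤ 3 →
      1 + β * (u - W.d) ≤ U u 0 T') ∧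
    ∀ u y, 0 ≤ u → u ≤ W.um → 1 ≤ u ^ 2 + T ^ 2 → 0 ≤ y → y ≤ W.η + W.τ →
      U u y (y + T) ≤ β * u

section

variable {U : ℝ → ℝ → ℝ → ℝ} {W : Win}

theorem StarPt.floor (h : StarPt U W) {X T y : ℝ} (hX : 0 ≤ X) (hT : 0 ≤ T) (hT' : T ≤ W.Tm)
    (h1 : 1 ≤ X ^ 2 + T ^ 2) (h3 : X ^ 2 + T ^ 2 ≤ 3) (hy : 0 ≤ y) : U X 0 T ≤ U X y (y + T) := by
  have := h.up X T 0 y hX hT hT' h1 h3 le_rfl hy
  rwa [zero_add, zero_add] at this

/-- The pairs outside the window. -/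
theorem StarPt.pair (h : StarPt U W) (hW : W.Ok) {X y z : ℝ} (hX : 0 ≤ X) (hy : 0 ≤ y)
    (hz : 0 ≤ z) (h1 : 1 ≤ X ^ 2 + |z - y| ^ 2) (h3 : X ^ 2 + |z - y| ^ 2 ≤ 3)
    (h2 : X ^ 2 + |z - y| ^ 2 ≤ 2 * X)
    (hn : ¬(W.d < X ∧ |z - y| < W.τ ∧ min y z < W.η)) : 1 / 2 ≤ U X y z := by
  have t0 := hW.t0
  have e0 := hW.e0
  have d1 := hW.d1
  have tm := hW.Tm0
  have main : ∀ y T : ℝ, 0 ≤ y → 0 ≤ T → 1 ≤ X ^ 2 + T ^ 2 → X ^ 2 + T ^ 2 ≤ 3 →
      X ^ 2 + T ^ 2 ≤ 2 * X → ¬(W.d < X ∧ T < W.τ ∧ y < W.η) → 1 / 2 ≤ U X y (y + T) := by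
    intro y T hy hT h1 h3 h2 hn
    have hT1 : T ≤ 1 := by nlinarith [sq_nonneg (X - 1)]
    have hTm : T ≤ W.Tm := by linarith
    have fl := h.floor hX hT hTm h1 h3 hy
    rcases le_or_gt W.τ T with c1 | c1
    · exact (h.wall X T hX c1 h1 h3 h2).trans fl
    rcases le_or_gt X W.d with c2 | c2
    · exact (h.flat X T hX c2 hT c1.le h1 h3).trans fl
    rcases le_or_gt W.η y with c3 | c3
    · have k1 := h.high X T c2.le hT c1.le h3
      have k2 := h.up X T W.η (y - W.η) hX hT hTm h1 h3 e0 (by linarith)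
      rw [show W.η + (y - W.η) = y by ring] at k2
      exact k1.trans k2
    · exact absurd ⟨c2, c1, c3⟩ hn
  rcases le_total y z with c | c
  · have e : |z - y| = z - y := abs_of_nonneg (by linarith)
    rw [e, min_eq_left c] at hn
    rw [e] at h1 h3 h2
    have := main y (z - y) hy (by linarith) h1 h3 h2 hn
    rwa [show y + (z - y) = z by ring] at this
  · have e : |z - y| = y - z := by rw [abs_sub_comm]; exact abs_of_nonneg (by linarith)
    rw [e, min_eq_right c] at hn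
    rw [e] at h1 h3 h2
    have := main z (y - z) hz (by linarith) h1 h3 h2 hn
    rw [show z + (y - z) = y by ring, h.comm] at this
    exact this

theorem sc_half {u T : ℝ} (a1 : 0 ≤ u) (a2 : 0 ≤ T) (a3 : T ≤ h0) (a4 : 1 ≤ u ^ 2 + T ^ 2) :
    1 / 2 ≤ u := by
  have hh2 := h0_sq
  have b1 : T ^ 2 ≤ h0 ^ 2 := pow_le_pow_left₀ a2 a3 2
  by_contra k
  have k := not_le.1 k
  have : u ^ 2 < (1 / 2) ^ 2 := pow_lt_pow_left₀ k a1 (by norm_num)
  linarith

theorem sc_low {u v T : ℝ} (a1 : 1 / 2 ≤ u) (a3 : 0 ≤ T) (a4 : T ≤ h0) (a5 : 1 / 2 ≤ v)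
    (a6 : (u + v) ^ 2 ≤ 3) : u ^ 2 + T ^ 2 ≤ 2 * u := by
  have hh2 := h0_sq
  have b1 : T ^ 2 ≤ h0 ^ 2 := pow_le_pow_left₀ a3 a4 2
  have b3 : u + v ≤ 7 / 4 := by
    by_contra k
    have k := not_le.1 k
    have : (7 / 4 : ℝ) ^ 2 < (u + v) ^ 2 := pow_lt_pow_left₀ k (by norm_num) (by norm_num)
    linarith
  have b4 : u ≤ 5 / 4 := by linarith
  nlinarith [mul_nonneg (sub_nonneg.2 a1) (sub_nonneg.2 b4)]

theorem sc_big {u T d v : ℝ} (k0 : 0 ≤ d) (k1 : d / 2 ≤ u) (k3 : u ^ 2 + T ^ 2 ≤ 3)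
    (k4 : 3 ≤ d ^ 2 / 4 + v ^ 2) (k5 : 0 ≤ v) : T ≤ v := by
  by_contra hlt
  have hlt := not_le.1 hlt
  have b1 : v ^ 2 < T ^ 2 := pow_lt_pow_left₀ hlt k5 (by norm_num)
  have b2 : (d / 2) ^ 2 ≤ u ^ 2 := pow_le_pow_left₀ (by linarith) k1 2
  have : (d / 2) ^ 2 = d ^ 2 / 4 := by ring
  linarith

/-- The two edges above an edge of the window. -/
theorem StarPt.up_row (h : StarPt U W) (hW : W.Ok) {u1 u2 ya yb z : ℝ} (hu1 : 0 ≤ u1)
    (hu2 : 0 ≤ u2) (ha : 0 ≤ ya) (hb : 0 ≤ yb) (hd : W.d < u1 + u2) (hs : (u1 + u2) ^ 2 ≤ 3)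
    (hab : |yb - ya| < W.τ) (p1 : 1 ≤ u1 ^ 2 + (z - ya) ^ 2) (p3 : u1 ^ 2 + (z - ya) ^ 2 ≤ 3)
    (q1 : 1 ≤ u2 ^ 2 + (z - yb) ^ 2) (q3 : u2 ^ 2 + (z - yb) ^ 2 ≤ 3)
    (ta : 1 / 2 - W.τ ≤ z - ya) (tb : 1 / 2 - W.τ ≤ z - yb) : 1 ≤ U u1 ya z + U u2 yb z := by
  have hh := h0_pos
  have hh2 := h0_sq
  have t0 := hW.t0
  have t1 := hW.t1
  have d1 := hW.d1
  have tm0 := hW.Tm0
  have tm1 := hW.Tm1
  rw [abs_lt] at hab
  set T1 := z - ya with hT1
  set T2 := z - yb with hT2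
  have hT10 : 0 ≤ T1 := by linarith
  have hT20 : 0 ≤ T2 := by linarith
  have ez1 : z = ya + T1 := by rw [hT1]; ring
  have ez2 : z = yb + T2 := by rw [hT2]; ring
  have hl : h0 < 1 := by nlinarith
  -- the larger displacement
  have big : ∀ u T : ℝ, W.d / 2 ≤ u → u ^ 2 + T ^ 2 ≤ 3 → T ≤ W.Tm - W.τ :=
    fun u T k1 k3 => sc_big (by linarith) k1 k3 tm1 (by linarith)
  have fl1 : T1 ≤ W.Tm → U u1 0 T1 ≤ U u1 ya z := by
    intro k
    rw [ez1]
    exact h.floor hu1 hT10 k p1 p3 ha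
  have fl2 : T2 ≤ W.Tm → U u2 0 T2 ≤ U u2 yb z := by
    intro k
    rw [ez2]
    exact h.floor hu2 hT20 k q1 q3 hb
  have hmin : min T1 T2 ≤ W.Tm - W.τ := by
    rcases le_or_gt (W.d / 2) u1 with k | k
    · exact (min_le_left _ _).trans (big u1 T1 k p3)
    · exact (min_le_right _ _).trans (big u2 T2 (by linarith) q3)
  have hmm : max T1 T2 ≤ min T1 T2 + W.τ := by
    rcases le_total T1 T2 with k | k
    · rw [max_eq_right k, min_eq_left k]
      linarith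
    · rw [max_eq_left k, min_eq_right k]
      linarith
  have m1 : T1 ≤ W.Tm := by linarith [le_max_left T1 T2]
  have m2 : T2 ≤ W.Tm := by linarith [le_max_right T1 T2]
  have f1 := fl1 m1
  have f2 := fl2 m2
  rcases le_or_gt (max T1 T2) h0 with c | c
  · -- the apex is low: both edges are pairs at the floor
    have k1 : T1 ≤ h0 := (le_max_left _ _).trans c
    have k2 : T2 ≤ h0 := (le_max_right _ _).trans c
    have w1 := sc_half hu1 hT10 k1 p1
    have w2 := sc_half hu2 hT20 k2 q1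
    have g1 := h.wall u1 T1 hu1 (by linarith) p1 p3 (sc_low w1 hT10 k1 w2 hs)
    have g2 := h.wall u2 T2 hu2 (by linarith) q1 q3
      (sc_low w2 hT20 k2 w1 (by rwa [add_comm]))
    linarith
  · obtain ⟨α, hα, key⟩ := h.upper (min T1 T2) (by linarith) hmin
    have g1 := key T1 (min_le_left _ _) ((le_max_left _ _).trans hmm) u1 hu1 p1 p3
    have g2 := key T2 (min_le_right _ _) ((le_max_right _ _).trans hmm) u2 hu2 q1 q3
    have : 0 ≤ α * (u1 + u2 - W.d) := mul_nonneg hα (by linarith)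
    nlinarith

/-- The two upper edges of an obtuse triangle with the lower edge in the window. -/
theorem StarPt.low_row (h : StarPt U W) (hW : W.Ok) {u1 u2 ya yc z : ℝ} (hu2 : 0 ≤ u2)
    (ha : 0 ≤ ya) (hc : 0 ≤ yc) (hz : 0 ≤ z) (hd : W.d < u1 - u2) (hac : |yc - ya| < W.τ)
    (hm : min ya yc < W.η) (p3 : u1 ^ 2 + (z - ya) ^ 2 ≤ 3) (q1 : 1 ≤ u2 ^ 2 + (z - yc) ^ 2) :
    1 ≤ U u1 ya z - U u2 yc z := by
  have hh := h0_pos
  have t0 := hW.t0
  have t1 := hW.t1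
  have e1 := hW.e1
  have d1 := hW.d1
  have um0 := hW.um0
  have um1 := hW.um1
  have TL0 := hW.TL0
  have TL1 := hW.TL1
  have TU0 := hW.TU0
  have TU1 := hW.TU1
  have tm0 := hW.Tm0
  have tm1 := hW.Tm1
  rw [abs_lt] at hac
  have hyc : yc ≤ W.η + W.τ := by
    rcases le_total ya yc with k | k
    · rw [min_eq_left k] at hm
      linarith
    · rw [min_eq_right k] at hm
      linarith
  set T1 := z - ya with hT1
  set T2 := z - yc with hT2
  have e21 : -W.τ < T2 - T1 := by rw [hT1, hT2]; linarith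
  have e12 : T2 - T1 < W.τ := by rw [hT1, hT2]; linarith
  have u1d : W.d ≤ u1 := by linarith
  have u2s : u2 ≤ 3 / 4 := by
    by_contra k
    have k := not_le.1 k
    nlinarith [sq_nonneg T1]
  have T2p : 0 < T2 := by
    by_contra k
    have k := not_lt.1 k
    have k1 : -T2 ≤ 1 / 5 := by rw [hT2]; linarith
    nlinarith
  have T2q : 1 / 2 ≤ T2 := by nlinarith
  have T1p : 0 < T1 := by linarith
  have T1u : T1 ≤ W.TU - W.τ := by
    by_contra k
    have k := not_le.1 k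
    nlinarith
  have T2u : T2 ≤ W.TU := by linarith
  have u2m : u2 ≤ W.um := by
    by_contra k
    have k := not_le.1 k
    have k1 : (W.d + u2) ^ 2 ≤ u1 ^ 2 := pow_le_pow_left₀ (by linarith) (by linarith) 2
    have k2 : T2 ^ 2 - T1 ^ 2 ≤ W.τ * (2 * W.TU) := by
      have : T2 ^ 2 - T1 ^ 2 = (T2 - T1) * (T2 + T1) := by ring
      rw [this]
      rcases le_total 0 (T2 - T1) with k3 | k3
      · exact mul_le_mul e12.le (by linarith) (by linarith) t0.le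
      · have : (T2 - T1) * (T2 + T1) ≤ 0 := mul_nonpos_of_nonpos_of_nonneg k3 (by linarith)
        have : 0 ≤ W.τ * (2 * W.TU) := mul_nonneg t0.le (by linarith)
        linarith
    nlinarith
  have T2l : W.TL ≤ T2 := by
    by_contra k
    have k := not_le.1 k
    nlinarith
  obtain ⟨β, hβ, k1, k2⟩ := h.lower T2 T2l T2u
  have a1 := k1 T1 (by linarith) (by linarith) u1 u1d p3
  have a2 := k2 u2 yc hu2 u2m q1 hc hyc
  have T1m : T1 ≤ W.Tm - W.τ :=
    sc_big (by linarith) (by linarith : W.d / 2 ≤ u1) p3 tm1 (by linarith)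
  have p1 : 1 ≤ u1 ^ 2 + T1 ^ 2 := by
    have : (1 : ℝ) ^ 2 ≤ u1 ^ 2 := pow_le_pow_left₀ (by norm_num) (by linarith) 2
    have := sq_nonneg T1
    linarith
  have a3 := h.floor (y := ya) (by linarith : 0 ≤ u1) T1p.le (by linarith) p1 p3 ha
  rw [show yc + T2 = z by rw [hT2]; ring] at a2
  rw [show ya + T1 = z by rw [hT1]; ring] at a3
  have : 0 ≤ β * (u1 - u2 - W.d) := mul_nonneg hβ (by linarith)
  nlinarith

end

/-! ### Geometry -/

/-- The lower end of a pair at the floor is at most at the height `h0`. -/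
theorem FF.min_le {a b : Pt} (h : FF a b) : min a.2 b.2 ≤ h0 := by
  have hh := h0_pos
  have hh2 := h0_sq
  by_contra k
  have k := not_le.1 k
  obtain ⟨ka, kb⟩ := lt_min_iff.1 k
  obtain ⟨m, e1, e2⟩ := h.circ
  have hs := h.sep
  unfold ds at hs
  set x := a.1 - m with hx
  set y := b.1 - m with hy
  have ex : b.1 - a.1 = y - x := by rw [hx, hy]; ring
  rw [ex] at hs
  have a1 : 3 / 4 < a.2 ^ 2 := by nlinarith
  have b1 : 3 / 4 < b.2 ^ 2 := by nlinarith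
  have ab : 3 / 4 < a.2 * b.2 := by nlinarith
  have xx : x ^ 2 < 1 / 4 := by linarith
  have yy : y ^ 2 < 1 / 4 := by linarith
  nlinarith [sq_nonneg (x + y)]

theorem FF.third_le {a b c : Pt} (h : FF a b) (h1 : ds a c ≤ 3) (h2 : ds b c ≤ 3) :
    c.2 ≤ 3 * h0 := by
  have hh := h0_pos
  have hh2 := h0_sq
  have key : ∀ p : Pt, ds p c ≤ 3 → p.2 ≤ h0 → c.2 ≤ 3 * h0 := by
    intro p k1 k2
    unfold ds at k1
    by_contra k3
    have k3 := not_le.1 k3
    nlinarith [sq_nonneg (p.1 - c.1)]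
  rcases min_le_iff.1 h.min_le with k | k
  · exact key a h1 k
  · exact key b h2 k

theorem FF.left_top {a b : Pt} (h : FF a b) : a.2 ≤ 3 * h0 := by
  have := h.left_le
  have := h0_pos
  nlinarith [h0_sq]

theorem FF.right_top {a b : Pt} (h : FF a b) : b.2 ≤ 3 * h0 := by
  have := h.right_le
  have := h0_pos
  nlinarith [h0_sq]

/-- The height of a triangle with circumradius at most one. -/
theorem cell_height {a b c o : Pt} {R : ℝ} (h : Cell a b c o R) (h1 : a.1 ≤ b.1) :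
    (b.1 - a.1) / 2 ≤ cr a b c := by
  have hc : Cel a b c := Cel.of_center h.cr h.pq h.qr h.pr h.po h.qo h.ro h.R1
  have h2 := hc.four_cr
  have h3 := h.cr
  unfold ds at h2
  by_contra k
  have k := not_le.1 k
  nlinarith [sq_nonneg (a.2 - b.2)]

theorem sc_tall {X X1 δ T τ : ℝ} (hX : 0 < X) (h1 : 0 ≤ X1) (h2 : X1 ≤ X) (hδ : |δ| < τ)
    (hk : X / 2 ≤ X * T - δ * X1) : 1 / 2 - τ ≤ T := by
  rw [abs_lt] at hδ
  have a1 : -(τ * X) ≤ δ * X1 := by nlinarith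
  have a2 : X * (1 / 2 - τ) ≤ X * T := by linarith
  exact le_of_mul_le_mul_left a2 hX

/-! ### The theorem -/

section

variable {D : Data} {s m : ℝ}

/-- The flux of an edge in the opposite direction. -/
theorem WF_flux (hD : D.Ok) (s μ : ℝ) (a b : Pt) :
    ed (D.Q μ (-(1 / 2 - g s * μ))) (dn s b) (dn s a) =
      -ed (D.Q μ (-(1 / 2 - g s * μ))) (dn s a) (dn s b) := by
  unfold ed dn
  have := hD.anti μ (-(1 / 2 - g s * μ)) (b.1 - a.1) (a.2 - s / 2) (b.2 - s / 2)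
  simp only
  rw [← this]
  congr 1
  ring

/-- `c` is above `a b`. -/
theorem SF_up (hD : D.Ok) (s μ : ℝ) (a b c : Pt) :
    SF D s μ a b c + WF D s μ a b = WF D s μ a c + WF D s μ c b := by
  have e1 := WF_flux hD s μ b c
  have e2 := WF_flux hD s μ c a
  have hp := h0_pos
  unfold SF WF fl
  rw [e1, e2]
  unfold cr
  field_simp
  ring

/-- `c` is below `a b`, the left lower edge. -/
theorem SF_lowL (hD : D.Ok) (s μ : ℝ) (a c b : Pt) :
    SF D s μ a c b + WF D s μ a c = WF D s μ a b - WF D s μ c b - 1 := by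
  have e1 := WF_flux hD s μ a b
  have hp := h0_pos
  unfold SF WF fl
  rw [e1]
  unfold cr
  field_simp
  ring

/-- `c` is below `a b`, the right lower edge. -/
theorem SF_lowR (hD : D.Ok) (s μ : ℝ) (a c b : Pt) :
    SF D s μ a c b + WF D s μ c b = WF D s μ a b - WF D s μ a c - 1 := by
  have := SF_lowL hD s μ a c b
  linarith

/-- **The conditions `StarSmall` from inequalities for one pair.**  The triangles are only needed up
to the height `3 h0`. -/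
theorem starSmall_of_pt (hD : D.Ok) {W : Win} (hW : W.Ok) {U : ℝ → ℝ → ℝ → ℝ → ℝ}
    (hU : ∀ μ, μ = 0 ∨ μ = m → ∀ a b : Pt, ds a b ≤ 3 →
      WF D s μ a b = U μ (b.1 - a.1) a.2 b.2 - 1 / 2)
    (hP : ∀ μ, μ = 0 ∨ μ = m → StarPt (U μ) W)
    (hS : ∀ μ, μ = 0 ∨ μ = m → ∀ p q r, 0 ≤ p.2 → 0 ≤ q.2 → 0 ≤ r.2 → p.2 ≤ 3 * h0 →
      q.2 ≤ 3 * h0 → r.2 ≤ 3 * h0 → 0 ≤ cr p q r → 1 ≤ ds p q → 1 ≤ ds q r → 1 ≤ ds p r →
      ds p q ≤ 3 → ds q r ≤ 3 → ds p r ≤ 3 → 0 ≤ SF D s μ p q r) :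
    StarSmall D s m := by
  have t0 := hW.t0
  have t1 := hW.t1
  have d1 := hW.d1
  -- a pair outside the window
  have out : ∀ μ, μ = 0 ∨ μ = m → ∀ a b : Pt, FF a b → ds a b ≤ 3 →
      ¬(W.d < b.1 - a.1 ∧ |b.2 - a.2| < W.τ ∧ min a.2 b.2 < W.η) → 0 ≤ WF D s μ a b := by
    intro μ hμ a b h k hn
    obtain ⟨c, e1, e2⟩ := h.circ
    obtain ⟨g1, g2, g3⟩ := floor_geo h.lt.le h.p0 h.q0 h.sep e1 e2
    have g4 : (b.1 - a.1) ^ 2 + |b.2 - a.2| ^ 2 ≤ 3 := by
      rw [sq_abs]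
      unfold ds at k
      exact k
    have := (hP μ hμ).pair hW g1 h.p0 h.q0 g2 g4 g3 hn
    rw [hU μ hμ a b k]
    linarith
  have sq_le : ∀ a b : Pt, ds a b ≤ 3 → (b.1 - a.1) ^ 2 ≤ 3 := by
    intro a b k
    unfold ds at k
    linarith [sq_nonneg (b.2 - a.2)]
  -- the left lower edge
  have low : ∀ μ, μ = 0 ∨ μ = m → ∀ a c b : Pt, 1 ≤ ds c b → 0 ≤ b.2 → c.1 ≤ b.1 →
      FF a c → ds a c ≤ 3 → ds c b ≤ 3 → ds a b ≤ 3 → 0 ≤ SF D s μ a c b →
      0 ≤ SF D s μ a c b + WF D s μ a c := by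
    intro μ hμ a c b q1 k3 h2 k6 k7 k8 k9 S
    by_cases hn : W.d < c.1 - a.1 ∧ |c.2 - a.2| < W.τ ∧ min a.2 c.2 < W.η
    · rw [SF_lowL hD, hU μ hμ a b k9, hU μ hμ c b k8]
      obtain ⟨n1, n2, n3⟩ := hn
      have key := (hP μ hμ).low_row hW (u1 := b.1 - a.1) (u2 := b.1 - c.1) (ya := a.2)
        (yc := c.2) (z := b.2) (by linarith) k6.p0 k6.q0 k3 (by linarith) n2 n3
        (by unfold ds at k9; linarith) (by unfold ds at q1; linarith)
      linarith
    · have := out μ hμ a c k6 k7 hn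
      linarith
  -- the right lower edge
  have low' : ∀ μ, μ = 0 ∨ μ = m → ∀ a c b : Pt, 1 ≤ ds a c → 0 ≤ a.2 → a.1 ≤ c.1 →
      FF c b → ds a c ≤ 3 → ds c b ≤ 3 → ds a b ≤ 3 → 0 ≤ SF D s μ a c b →
      0 ≤ SF D s μ a c b + WF D s μ c b := by
    intro μ hμ a c b q1 k3 h2 k6 k7 k8 k9 S
    by_cases hn : W.d < b.1 - c.1 ∧ |b.2 - c.2| < W.τ ∧ min c.2 b.2 < W.η
    · rw [SF_lowR hD, hU μ hμ a b k9, hU μ hμ a c k7]
      obtain ⟨n1, n2, n3⟩ := hn
      have key := (hP μ hμ).low_row hW (u1 := b.1 - a.1) (u2 := c.1 - a.1) (ya := b.2)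
        (yc := c.2) (z := a.2) (by linarith) k6.q0 k6.p0 k3 (by linarith)
        (by rw [abs_sub_comm]; exact n2) (by rw [min_comm]; exact n3)
        (by unfold ds at k9; nlinarith) (by unfold ds at q1; nlinarith)
      rw [(hP μ hμ).comm (b.1 - a.1) a.2 b.2, (hP μ hμ).comm (c.1 - a.1) a.2 c.2] at key
      linarith
    · have := out μ hμ c b k6 k8 hn
      linarith
  refine ⟨?_, ?_, ?_, ?_⟩
  · intro a b c o R k1 _ k3 h1 h2 k6 _ k8 k9 k10
    refine Or.inl fun μ hμ => ?_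
    have top := k6.third_le k10 k9
    have S := hS μ hμ a b c k6.p0 k6.q0 k3 k6.left_top k6.right_top top k1.cr k1.pq k1.qr k1.pr
      k8 k9 k10
    by_cases hn : W.d < b.1 - a.1 ∧ |b.2 - a.2| < W.τ ∧ min a.2 b.2 < W.η
    · rw [SF_up hD]
      have k9' : ds c b ≤ 3 := by rwa [ds_comm]
      rw [hU μ hμ a c k10, hU μ hμ c b k9', (hP μ hμ).comm (b.1 - c.1) b.2 c.2]
      have hgt := cell_height k1 k6.lt.le
      obtain ⟨n1, n2, -⟩ := hn
      have X0 : 0 < b.1 - a.1 := by linarith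
      have ta := sc_tall (T := c.2 - a.2) X0 (by linarith : 0 ≤ c.1 - a.1)
        (by linarith : c.1 - a.1 ≤ b.1 - a.1) n2 (by
          have : cr a b c = (b.1 - a.1) * (c.2 - a.2) - (b.2 - a.2) * (c.1 - a.1) := rfl
          linarith)
      have tb := sc_tall (T := c.2 - b.2) (δ := -(b.2 - a.2)) X0 (by linarith : 0 ≤ b.1 - c.1)
        (by linarith : b.1 - c.1 ≤ b.1 - a.1) (by rwa [abs_neg]) (by
          have : cr a b c = (b.1 - a.1) * (c.2 - b.2) - -(b.2 - a.2) * (b.1 - c.1) := by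
            unfold cr
            ring
          linarith)
      have p1 := k1.pr
      have q1 := k1.qr
      have e12 : c.1 - a.1 + (b.1 - c.1) = b.1 - a.1 := by ring
      have key := (hP μ hμ).up_row hW (u1 := c.1 - a.1) (u2 := b.1 - c.1) (ya := a.2)
        (yb := b.2) (z := c.2) (by linarith) (by linarith) k6.p0 k6.q0 (by rw [e12]; exact n1)
        (by rw [e12]; exact sq_le a b k8) n2 (by unfold ds at p1; linarith)
        (by unfold ds at k10; linarith) (by unfold ds at q1; nlinarith)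
        (by unfold ds at k9; nlinarith) ta tb
      linarith
    · have := out μ hμ a b k6 k8 hn
      linarith
  · intro a c b o R k1 _ k3 h1 h2 k6 k7 k8 k9
    refine Or.inl fun μ hμ => ?_
    have top := k6.third_le k9 k8
    have S := hS μ hμ a c b k6.p0 k6.q0 k3 k6.left_top k6.right_top top k1.cr k1.pq k1.qr k1.pr
      k7 k8 k9
    exact low μ hμ a c b k1.qr k3 h2 k6 k7 k8 k9 S
  · intro a c b o R k1 _ k3 h1 h2 k6 k7 k8 k9
    refine Or.inl fun μ hμ => ?_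
    have top := k6.third_le (c := a) (by rwa [ds_comm]) (by rwa [ds_comm])
    have S := hS μ hμ a c b k3 k6.p0 k6.q0 top k6.left_top k6.right_top k1.cr k1.pq k1.qr k1.pr
      k7 k8 k9
    exact low' μ hμ a c b k1.pq k3 h1 k6 k7 k8 k9 S
  · intro a c b o R k1 _ h1 h2 k6 k6' k7 k8 k9
    refine Or.inl fun μ hμ => ?_
    have S := hS μ hμ a c b k6.p0 k6.q0 k6'.q0 k6.left_top k6.right_top k6'.right_top k1.cr
      k1.pq k1.qr k1.pr k7 k8 k9
    by_cases hn : W.d < c.1 - a.1 ∧ |c.2 - a.2| < W.τ ∧ min a.2 c.2 < W.η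
    · have r := low μ hμ a c b k1.qr k6'.q0 h2 k6 k7 k8 k9 S
      have := out μ hμ c b k6' k8 (by
        rintro ⟨n1, -, -⟩
        have := sq_le a b k9
        have : 2 < b.1 - a.1 := by linarith [hn.1]
        nlinarith)
      linarith
    · have r := low' μ hμ a c b k1.pq k6.p0 h1 k6' k7 k8 k9 S
      have := out μ hμ a c k6 k7 hn
      linarith

end

end Pool.Agent.Strip051.LC
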