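import Pool.Agent.Strip051.LC.Exact.StarFlip

/-! # The modified edge function and the flips, without inequalities for long pairs at the floor

The inequality at the floor for a long pair `p q` which has been changed by the flips passes to the
cell `p q r` above it: the value on `p q` cancels and only the inequality of `StarRows` for this
cell is left.  So the long pairs at the floor need no inequality of their own. -/

namespace Pool.Agent.Strip051.LC

open Pool.Agent.StripNear Pool.Agent.StripSquare Pool.Agent.Strip051.Sweep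

/-- The inequality at the floor passes to the cell above. -/
theorem over_row {w : ℝ} {F : Pt → Pt → ℝ} {D : Data} {s μ : ℝ} (hR : StarRows D s μ)
    (hW : ∀ a b, wf w F a b = WF D s μ a b)
    (hS : ∀ p q r, F p q + F q r + F r p - 1 / 2 = SF D s μ p q r)
    (hanti : ∀ a b, F b a = -F a b) {p q r : Pt} (hr : 0 ≤ r.2) (hff : FF p q)
    (hc : Cel p q r) :
    1 ≤ w * (q.1 - p.1) + (F q r + wm w F q r - wm w F r q) +
      (F r p + wm w F r p - wm w F p r) := by
  have hp := hff.p0
  have hq := hff.q0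
  have hlt := hff.lt
  obtain ⟨o, R, hC⟩ := cel_center hc
  have hSe := hS p q r
  have hWe := hW p q
  have wm0 : ∀ a b, wm w F a b ≤ 0 := fun a b => wm_nonpos a b
  have wmle : ∀ a b, FF a b → wm w F a b ≤ WF D s μ a b := by
    intro a b h
    rw [wm_of h, ← hW]
    exact min_le_right _ _
  have wmeq : ∀ a b, FF a b → wm w F a b = 0 ∨ wm w F a b = WF D s μ a b := by
    intro a b h
    rw [wm_of h, ← hW]
    rcases min_choice 0 (w * (b.1 - a.1) - 1 / 2 - F a b) with h' | h'
    · exact Or.inl h'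
    · exact Or.inr h'
  have z1 : ∀ a b : Pt, a.1 ≤ b.1 → wm w F b a = 0 := fun a b h =>
    wm_not (fun h' => by have := h'.lt; linarith)
  have e0 : w * (q.1 - p.1) = WF D s μ p q + 1 / 2 + F p q := by
    rw [← hWe]
    unfold wf
    ring
  rw [e0]
  rcases le_or_gt r.1 q.1 with c1 | c1
  · rcases le_or_gt p.1 r.1 with c2 | c2
    · -- `r` is above `p q`
      rw [z1 r q c1, z1 p r c2]
      have auto : FF p r → FF r q → 1 ≤ WF D s μ p q + 1 / 2 + F p q +
          (F q r + 0 - wm w F r q) + (F r p + 0 - wm w F p r) := by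
        intro f1 f2
        have w1 := wmle p r f1
        have w2 := wmle r q f2
        rw [← hW] at w1 w2 ⊢
        unfold wf at *
        have a1 := hanti q r
        have a2 := hanti p r
        linarith
      rcases le_or_gt 0 o.2 with ho | ho
      · by_cases f : FF p r ∧ FF r q
        · exact auto f.1 f.2
        · have t1 := wm0 r q
          have t2 := wm0 p r
          rcases hR.upper p q r o R hC ho hr c2 c1 hff f with h4 | ⟨h4, h5⟩ | ⟨h4, h5⟩
          · have := h4 μ (Or.inr rfl)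
            linarith
          · have := h5 μ (Or.inr rfl)
            have := wmle p r h4
            linarith
          · have := h5 μ (Or.inr rfl)
            have := wmle r q h4
            linarith
      · have d1 : 1 ≤ ds r q := by rw [ds_comm]; exact hC.qr
        have l2 : p.1 < r.1 := lt_of_le_of_ne c2 (low_x_ne hp hr hC.pr hC.po hC.ro ho)
        have l3 : r.1 < q.1 := lt_of_le_of_ne c1 (low_x_ne hr hq d1 hC.ro hC.qo ho)
        exact auto (low_FF hp hr hC.pr hC.po hC.ro hC.R1 ho l2)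
          (low_FF hr hq d1 hC.ro hC.qo hC.R1 ho l3)
    · -- `p` is the middle vertex
      rw [z1 r q c1, z1 r p c2.le]
      have ho : 0 ≤ o.2 := by
        by_contra hneg
        have hrp : 1 ≤ ds r p := by rw [ds_comm]; exact hC.pr
        have hrq : 1 ≤ ds r q := by rw [ds_comm]; exact hC.qr
        exact low_upper hp hrp hC.pq hrq hr hq hC.ro hC.qo hC.po (not_le.1 hneg) c2.le hlt.le
          hC.rot.rot.cr
      have hC' := hC.rot.rot
      have hS' := hS r p q
      have t1 := wm0 r q
      have bonus : ∀ x : ℝ, (0 ≤ x ∨ (FF r q ∧ 0 ≤ x - WF D s μ r q)) → 0 ≤ x - wm w F r q := by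
        intro x hx
        rcases hx with hx | ⟨h4, hx⟩
        · linarith
        · have := wmle r q h4
          linarith
      have one : 0 ≤ SF D s μ r p q + WF D s μ p q - wm w F r q := by
        refine bonus _ ?_
        rcases hR.lowerR r p q o R hC' ho hr c2.le hlt.le hff with h4 | ⟨h4, h5⟩
        · exact Or.inl (h4 μ (Or.inr rfl))
        · exact Or.inr ⟨h4, h5 μ (Or.inr rfl)⟩
      by_cases f : FF r p
      · rcases wmeq r p f with w1 | w1
        · rw [w1]
          linarith
        · have two : 0 ≤ SF D s μ r p q + WF D s μ r p + WF D s μ p q - wm w F r q := by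
            refine bonus _ ?_
            rcases hR.lower2 r p q o R hC' ho c2.le hlt.le f hff with h4 | ⟨h4, h5⟩
            · exact Or.inl (h4 μ (Or.inr rfl))
            · exact Or.inr ⟨h4, h5 μ (Or.inr rfl)⟩
          rw [w1]
          linarith
      · rw [wm_not f]
        linarith
  · -- `q` is the middle vertex
    rw [z1 q r c1.le, z1 p r (hlt.le.trans c1.le)]
    have ho : 0 ≤ o.2 := by
      by_contra hneg
      exact low_upper hq hC.pq hC.qr hC.pr hp hr hC.po hC.ro hC.qo (not_le.1 hneg) hlt.le c1.le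
        hC.cr
    have bonus : ∀ x : ℝ, (0 ≤ x ∨ (FF p r ∧ 0 ≤ x - WF D s μ p r)) → 0 ≤ x - wm w F p r := by
      intro x hx
      have t1 := wm0 p r
      rcases hx with hx | ⟨h4, hx⟩
      · linarith
      · have := wmle p r h4
        linarith
    have one : 0 ≤ SF D s μ p q r + WF D s μ p q - wm w F p r := by
      refine bonus _ ?_
      rcases hR.lowerL p q r o R hC ho hr hlt.le c1.le hff with h4 | ⟨h4, h5⟩
      · exact Or.inl (h4 μ (Or.inr rfl))
      · exact Or.inr ⟨h4, h5 μ (Or.inr rfl)⟩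
    by_cases f : FF q r
    · rcases wmeq q r f with w1 | w1
      · rw [w1]
        linarith
      · have two : 0 ≤ SF D s μ p q r + WF D s μ p q + WF D s μ q r - wm w F p r := by
          refine bonus _ ?_
          rcases hR.lower2 p q r o R hC ho hlt.le c1.le hff f with h4 | ⟨h4, h5⟩
          · exact Or.inl (h4 μ (Or.inr rfl))
          · exact Or.inr ⟨h4, h5 μ (Or.inr rfl)⟩
        rw [w1]
        linarith
    · rw [wm_not f]
      linarith

/-- The hypotheses for the modified edge function with flips: `ω` bounds the defect of the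
inequality at the floor for all pairs, short and long. -/
structure ExtStar2 (H w ω : ℝ) (F : Pt → Pt → ℝ) (δ : Pt → Pt → ℝ) : Prop where
  height : 2 < H
  anti : ∀ a b, F b a = -F a b
  mirror : ∀ a b, F (mir H a) (mir H b) = F b a
  rows : ∀ p q r, In H p → In H q → In H r → Cel p q r → ds p q ≤ 3 → ds q r ≤ 3 →
    ds p r ≤ 3 → 1 / 2 ≤ F p q + F q r + F r p + corr w F p q r
  above : ∀ p q r, In H p → In H q → In H r → FF p q → Cel p q r →
    1 ≤ w * (q.1 - p.1) + (F q r + wm w F q r - wm w F r q) +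
      (F r p + wm w F r p - wm w F p r)
  ω0 : 0 ≤ ω
  low : ∀ a b, In H a → In H b → FF a b → -ω ≤ wf w F a b
  quad : ∀ p q r r', In H p → In H q → In H r → In H r' → Cel p q r → Cel q p r' →
    3 < ds p q → ds q r ≤ 3 → ds p r ≤ 3 → ds q r' ≤ 3 → ds p r' ≤ 3 → 3 < ds r r' →
    1 + 4 * ω ≤ F p r' + F r' q + F q r + F r p
  one : ∀ p q r, In H p → In H q → In H r → Cel p q r → 3 < ds p q → ds q r ≤ 3 →
    ds p r ≤ 3 → 1 / 2 - δ p q + 3 * ω ≤ F p q + F q r + F r p
  two : ∀ p q r, In H p → In H q → In H r → Cel p q r → 3 < ds p q → ds q r ≤ 3 →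
    3 < ds p r → 1 / 2 + δ q p + δ p r + 3 * ω ≤ F p q + F q r + F r p
  nonneg : ∀ p q, 0 ≤ δ p q

section

variable {H w ω : ℝ} {F : Pt → Pt → ℝ} {δ : Pt → Pt → ℝ}

theorem ExtStar2.ge (h : ExtStar2 H w ω F δ) {a b : Pt} (ha : In H a) (hb : In H b) :
    F a b - ω ≤ star H w F a b :=
  star_ge h.anti h.mirror h.ω0 (fun hf => h.low a b ha hb hf)
    (fun hf => h.low _ _ hb.mir ha.mir hf)

/-- **The modified edge function can be extended by flips.** -/
theorem ExtStar2.ext (h : ExtStar2 H w ω F δ) : Ext (In H) (star H w F) δ := by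
  have row : ∀ p q r, In H p → In H q → In H r → Cel p q r → ds p q ≤ 3 → ds q r ≤ 3 →
      ds p r ≤ 3 → 1 / 2 ≤ star H w F p q + star H w F q r + star H w F r p := by
    intro p q r hp hq hr hc k1 k2 k3
    refine star_tri h.height h.anti h.mirror (h.rows p q r hp hq hr hc k1 k2 k3) ?_
    exact h.rows _ _ _ hr.mir hq.mir hp.mir (cel_mir3 hc) (by rw [ds_mir, ds_comm]; exact k2)
      (by rw [ds_mir, ds_comm]; exact k1) (by rw [ds_mir, ds_comm]; exact k3)
  refine ⟨star_anti h.anti, ?_, ?_, ?_, ?_, h.nonneg⟩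
  · intro p q r hp hq hr k0 k1 k2 k3 k4 k5 k6
    exact row p q r hp hq hr (cel_of_small k0 k1 k2 k3 k4 k5 k6) k4 k5 k6
  · intro p q r r' hp hq hr hr' h1 h2 k1 k2 k3 k4 k5 k6
    have e := h.quad p q r r' hp hq hr hr' h1 h2 k1 k2 k3 k4 k5 k6
    have a1 := h.ge hp hr'
    have a2 := h.ge hr' hq
    have a3 := h.ge hq hr
    have a4 := h.ge hr hp
    linarith
  · intro p q r hp hq hr hc k1 k2 k3
    have e := h.one p q r hp hq hr hc k1 k2 k3
    have a1 := h.ge hp hq
    have a2 := h.ge hq hr
    have a3 := h.ge hr hp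
    linarith
  · intro p q r hp hq hr hc k1 k2 k3
    have e := h.two p q r hp hq hr hc k1 k2 k3
    have a1 := h.ge hp hq
    have a2 := h.ge hq hr
    have a3 := h.ge hr hp
    linarith

/-- **The certificate for the strip** with the modification at the walls and the flips. -/
theorem ExtStar2.symH (h : ExtStar2 H w ω F δ) : SymH H w (FE (In H) (star H w F)) := by
  have hE := h.ext
  have hM := star_mirror (w := w) h.height h.mirror
  refine ⟨FE_anti hE.anti, FE_mir hM, ?_, ?_⟩
  · intro p q r o R hp hq hr _ h0 h1 h2 h3 h4 h5 h6 h7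
    exact hE.good hp hq hr (Cel.of_center h0 h1 h2 h3 h4 h5 h6 h7)
  · intro p q m k1 hp hq k2 k3 k4
    have hff := FF.of_wall k1 hp.1 hq.1 k2 k3 k4
    have eG : star H w F p q = min (F p q) (w * (q.1 - p.1) - 1 / 2) := by
      unfold star
      rw [if_pos hff]
    have hG : star H w F p q ≤ w * (q.1 - p.1) - 1 / 2 := by
      rw [eG]
      exact min_le_right _ _
    have hG' : star H w F q p = -star H w F p q := star_anti h.anti p q
    rcases le_or_gt (ds p q) 3 with c | c
    · rw [FE_short (by rw [ds_comm]; exact c), hG']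
      linarith
    · have c' : 3 < ds q p := by rwa [ds_comm]
      rw [FE_long hq hp c', hG']
      have d0 := hE.dfc_nonneg hq hp c'
      have d1 : dfc (In H) (star H w F) p q ≤ w * (q.1 - p.1) - 1 / 2 - star H w F p q := by
        refine csSup_le ⟨0, defs_zero p q⟩ ?_
        rintro x (rfl | ⟨r, hr, hc, l1, l2, rfl⟩)
        · linarith
        · have ov := h.above p q r hp hq hr hff hc
          have n1 := fun hf => hff.no_top (c := r) (d := q) h.height hf
            (Or.inr (Or.inr (Or.inr rfl)))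
          have n2 := fun hf => hff.no_top (c := q) (d := r) h.height hf
            (Or.inr (Or.inl rfl))
          have n3 := fun hf => hff.no_top (c := p) (d := r) h.height hf (Or.inl rfl)
          have n4 := fun hf => hff.no_top (c := r) (d := p) h.height hf
            (Or.inr (Or.inr (Or.inl rfl)))
          have s1 := star_floor (w := w) h.anti (a := q) (b := r) n1 n2
          have s2 := star_floor (w := w) h.anti (a := r) (b := p) n3 n4
          rw [s1, s2]
          linarith
      linarith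

end

/-! ### The strip -/

section

variable {D : Data} {s : ℝ} {n : ℕ}

/-- **The exact count from the flips and the modification at the floor.** -/
theorem countBound_of_extStar2 (hD : D.Ok) (hs0 : 0 ≤ s) (hs1 : s < h0) {δ : Pt → Pt → ℝ}
    {ω Δ : ℝ} (h : ExtStar2 (n * h0 + s) (wS n s) ω (FS D n s) δ) (hδ : ∀ p q, δ p q ≤ Δ) :
    CountBound n s := by
  have hg : 0 < g s := by linarith [g_gt_half hs0 hs1]
  obtain ⟨K, hK0, hK⟩ := FS_bdd hD n s hs0 hg
  have hΔ : 0 ≤ Δ := (h.nonneg (0, 0) (0, 0)).trans (hδ _ _)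
  have hw0 := wS_nonneg n hg
  refine h.symH.countBound hs0 hs1 (wS_eq n hg) (K := K + (2 * wS n s + 1 / 2) + Δ) ?_
    (by positivity)
  intro a b hab ha0 haH hb0 hbH
  have hba : |b.1 - a.1| ≤ 2 := by rwa [abs_sub_comm]
  have hl : ∀ x : ℝ, |x| ≤ 2 → |wS n s * x - 1 / 2| ≤ K + (2 * wS n s + 1 / 2) := by
    intro x hx
    have h3 : |wS n s * x| ≤ wS n s * 2 := by
      rw [abs_mul, abs_of_nonneg hw0]
      exact mul_le_mul_of_nonneg_left hx hw0
    rw [abs_le] at h3 ⊢
    constructor <;> linarith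
  exact h.ext.bdd hδ (star_abs (K := K) (hK a b hab ⟨ha0, haH⟩ ⟨hb0, hbH⟩)
    (hK b a hba ⟨hb0, hbH⟩ ⟨ha0, haH⟩) (hl _ hba) (hl _ hab) (by linarith))

/-- **The hypotheses of `ExtStar2` in the form of the certificate.** -/
theorem extStar2_of (hD : D.Ok) {N0 : ℕ} (hn : N0 ≤ n) (hs0 : 0 ≤ s) (hs1 : s < h0)
    (hH2 : 2 < n * h0 + s) (hR : StarRows D s (mu N0 s))
    (small : ∀ p q r, In (n * h0 + s) p → In (n * h0 + s) q → In (n * h0 + s) r →
      0 ≤ cr p q r → 1 ≤ ds p q → 1 ≤ ds q r → 1 ≤ ds p r → ds p q ≤ 3 → ds q r ≤ 3 →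
      ds p r ≤ 3 → 1 / 2 ≤ cr p q r / (2 * h0) + fl (D.QS n s) p q r)
    {δ : Pt → Pt → ℝ} {ω : ℝ} (hω : 0 ≤ ω)
    (low : ∀ a b, FF a b → -ω ≤ WF D s 0 a b ∧ -ω ≤ WF D s (mu N0 s) a b)
    (quad : ∀ p q r r', In (n * h0 + s) p → In (n * h0 + s) q → In (n * h0 + s) r →
      In (n * h0 + s) r' → Cel p q r → Cel q p r' → 3 < ds p q → ds q r ≤ 3 → ds p r ≤ 3 →
      ds q r' ≤ 3 → ds p r' ≤ 3 → 3 < ds r r' →
      1 + 4 * ω ≤ (cr p r' q + cr p q r) / (2 * h0) + fl4 (D.QS n s) p r' q r)
    (one : ∀ p q r, In (n * h0 + s) p → In (n * h0 + s) q → In (n * h0 + s) r → Cel p q r →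
      3 < ds p q → ds q r ≤ 3 → ds p r ≤ 3 →
      1 / 2 - δ p q + 3 * ω ≤ cr p q r / (2 * h0) + fl (D.QS n s) p q r)
    (two : ∀ p q r, In (n * h0 + s) p → In (n * h0 + s) q → In (n * h0 + s) r → Cel p q r →
      3 < ds p q → ds q r ≤ 3 → 3 < ds p r →
      1 / 2 + δ q p + δ p r + 3 * ω ≤ cr p q r / (2 * h0) + fl (D.QS n s) p q r)
    (nonneg : ∀ p q, 0 ≤ δ p q) : ExtStar2 (n * h0 + s) (wS n s) ω (FS D n s) δ := by
  have hg : 0 < g s := by linarith [g_gt_half hs0 hs1]
  have hn0 : (0 : ℝ) ≤ n := Nat.cast_nonneg n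
  have hN0 : (0 : ℝ) ≤ N0 := Nat.cast_nonneg N0
  have hnN : (N0 : ℝ) ≤ n := by exact_mod_cast hn
  have hμ : 0 < mu n s := by
    unfold mu
    positivity
  have hm : 0 < mu N0 s := by
    unfold mu
    positivity
  have hμm : mu n s ≤ mu N0 s := by
    unfold mu
    apply one_div_le_one_div_of_le (by positivity)
    linarith
  have hR' := hR.mono hμ.le hμm
  refine ⟨hH2, FS_anti hD n s, FS_mir hD n s, ?_, ?_, hω, ?_, ?_, ?_, ?_, nonneg⟩
  · intro p q r hp hq hr hc k1 k2 k3
    refine star_row_small (FS_anti hD n s) hR' (FS_wf n hg) (FS_sf n hg) hp.1 hq.1 hr.1 hc ?_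
    rw [FS_tri]
    exact small p q r hp hq hr hc.cr0 hc.pq hc.qr hc.pr k1 k2 k3
  · intro p q r hp hq hr hff hc
    exact over_row hR' (FS_wf n hg) (FS_sf n hg) (FS_anti hD n s) hr.1 hff hc
  · intro a b ha hb hf
    rw [FS_wf n hg]
    obtain ⟨A, B, hAB⟩ := WF_aff D s a b
    obtain ⟨e0, em⟩ := low a b hf
    rw [hAB] at e0 em ⊢
    have := aff_nonneg (A := A + ω) (B := B) hμ.le hμm (by linarith) (by linarith)
    linarith
  · intro p q r r' hp hq hr hr' h1 h2 k1 k2 k3 k4 k5 k6
    rw [FS_quad]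
    exact quad p q r r' hp hq hr hr' h1 h2 k1 k2 k3 k4 k5 k6
  · intro p q r hp hq hr hc k1 k2 k3
    rw [FS_tri]
    exact one p q r hp hq hr hc k1 k2 k3
  · intro p q r hp hq hr hc k1 k2 k3
    rw [FS_tri]
    exact two p q r hp hq hr hc k1 k2 k3

end

end Pool.Agent.Strip051.LC
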