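import Mathlib

/-! # Unit pairs at the floor, two-slope density

Half angles: `t = √3 tan (θ / 2)`, `z = √3 tan (φ / 2)`, `k = 1 / √3`.  The height of the neighbour
is `k * fU t` and the rest is `k * fU z`; `fC` is the cosine, `fE` is `e`, `fQ` is `q`,
`fκ t / k` is `κ = e' / e` and `k * fK t` is the second kernel on the unit circle. -/

namespace Pool.Agent.Strip051.LC.Exact

noncomputable def fa (t : ℝ) : ℝ := 1 + t ^ 2 / 3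
noncomputable def fC (t : ℝ) : ℝ := (1 - t ^ 2 / 3) / fa t
noncomputable def fU (t : ℝ) : ℝ := 2 * t / fa t
noncomputable def fE (t : ℝ) : ℝ := 2 / 3 * t * (1 - t) / fa t
noncomputable def fG (t : ℝ) : ℝ := t * (1 + t) / fa t
noncomputable def fQ (t : ℝ) : ℝ := fE t * fG t
noncomputable def fκ (t : ℝ) : ℝ := (1 - 2 * t - t ^ 2 / 3) / (2 * t * (1 - t))
noncomputable def fK (t : ℝ) : ℝ :=
  3 / 2 * (1 + 2 * t - t ^ 2 / 3) / fa t + fG t * (1 + 2 * t / (1 - t ^ 2 / 3))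

/-- The slack of a unit pair at the floor; `V` is `-√3` times the value of the unit two-slope
primitive. -/
noncomputable def fW (t z μ V : ℝ) : ℝ :=
  fC t * (fE t - fE z) + fκ t * fE z * V +
    μ * (-(fC t * fQ z) + fQ t * (fC z - (fU z - fU t) / 3) + V * (fκ t * fQ z + fK t * fE z / 3))

set_option maxHeartbeats 4000000 in
theorem fW_low_eq {t z μ : ℝ} (ht : 0 < t) (hz : 0 < z) (h1 : t ≤ 52 / 125) :
    fW t z μ (fU t * (fU z - fU t) / fU z) =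
      t * (z - t) ^ 2 * ((fa z - 4 * μ) * ((2 / 3) + (2 / 9) * z + (4 / 9) * t + (-4 / 9) * t * z + (-2 / 9) * t ^ 2 + (-2 / 27) * t ^ 2 * z) * fa t * (1 - t ^ 2 / 3) +
        μ * ((4 / 3) + (14 / 9) * z + (4 / 9) * z ^ 2 + (2 / 9) * z ^ 3 + (14 / 9) * t + (-10 / 9) * t * z + (-2 / 27) * t * z ^ 2 + (-10 / 27) * t * z ^ 3 + (-2 / 9) * t ^ 2 + (-4 / 27) * t ^ 2 * z + (-2 / 27) * t ^ 2 * z ^ 2 + (4 / 81) * t ^ 2 * z ^ 3 + (8 / 9) * t ^ 3 + (-8 / 27) * t ^ 3 * z + (8 / 27) * t ^ 3 * z ^ 2 + (-8 / 81) * t ^ 3 * z ^ 3 + (-4 / 27) * t ^ 4 + (-10 / 27) * t ^ 4 * z + (-4 / 81) * t ^ 4 * z ^ 2 + (-22 / 243) * t ^ 4 * z ^ 3 + (-22 / 81) * t ^ 5 + (2 / 81) * t ^ 5 * z + (-2 / 81) * t ^ 5 * z ^ 2 + (2 / 243) * t ^ 5 * z ^ 3 + (2 / 81) * t ^ 6 + (20 / 243) * t ^ 6 * z + (2 / 243) * t ^ 6 * z ^ 2 + (4 / 243) * t ^ 6 * z ^ 3)) / (fa t ^ 3 * fa z ^ 2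 * (1 - t) * (1 - t ^ 2 / 3)) := by
  have hA : (1 + t ^ 2 / 3) ≠ 0 := by positivity
  have hB : (1 + z ^ 2 / 3) ≠ 0 := by positivity
  have hT : (1 - t) ≠ 0 := by linarith
  have hO : (1 - t ^ 2 / 3) ≠ 0 := by nlinarith
  have hO' : (3 - t ^ 2) ≠ 0 := by nlinarith
  have ht' := ht.ne'
  have hz' := hz.ne'
  unfold fW fQ fK fκ fG fE fC fU fa
  field_simp
  ring

theorem QA_pos {t z : ℝ} (ht : 0 ≤ t) (hz : 0 ≤ z) (h1 : t ≤ 52 / 125) (h2 : z ≤ 52 / 125) :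
    0 ≤ (2 / 3) + (2 / 9) * z + (4 / 9) * t + (-4 / 9) * t * z + (-2 / 9) * t ^ 2 + (-2 / 27) * t ^ 2 * z := by
  have m01 : 0 ≤ t ^ 0 * z ^ 1 := by positivity
  have m10 : 0 ≤ t ^ 1 * z ^ 0 := by positivity
  have m11 : t ^ 1 * z ^ 1 ≤ (52 / 125) ^ 1 * (52 / 125) ^ 1 :=
    mul_le_mul (pow_le_pow_left₀ ht h1 1) (pow_le_pow_left₀ hz h2 1) (by positivity) (by positivity)
  have m20 : t ^ 2 * z ^ 0 ≤ (52 / 125) ^ 2 * (52 / 125) ^ 0 :=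
    mul_le_mul (pow_le_pow_left₀ ht h1 2) (pow_le_pow_left₀ hz h2 0) (by positivity) (by positivity)
  have m21 : t ^ 2 * z ^ 1 ≤ (52 / 125) ^ 2 * (52 / 125) ^ 1 :=
    mul_le_mul (pow_le_pow_left₀ ht h1 2) (pow_le_pow_left₀ hz h2 1) (by positivity) (by positivity)
  norm_num at m01 m10 m11 m20 m21
  linarith

theorem Tt_pos {t z : ℝ} (ht : 0 ≤ t) (hz : 0 ≤ z) (h1 : t ≤ 52 / 125) (h2 : z ≤ 52 / 125) :
    0 ≤ (4 / 3) + (14 / 9) * z + (4 / 9) * z ^ 2 + (2 / 9) * z ^ 3 + (14 / 9) * t + (-10 / 9) * t * z + (-2 / 27) * t * z ^ 2 + (-10 / 27) * t * z ^ 3 + (-2 / 9) * t ^ 2 + (-4 / 27) * t ^ 2 * z + (-2 / 27) * t ^ 2 * z ^ 2 + (4 / 81) * t ^ 2 * z ^ 3 + (8 / 9) * t ^ 3 + (-8 / 27) * t ^ 3 * z + (8 / 27) * t ^ 3 * z ^ 2 + (-8 / 81) * t ^ 3 * z ^ 3 + (-4 / 27) * t ^ 4 + (-10 / 27) * t ^ 4 * z + (-4 / 81) * t ^ 4 * z ^ 2 + (-22 / 243) * t ^ 4 *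 z ^ 3 + (-22 / 81) * t ^ 5 + (2 / 81) * t ^ 5 * z + (-2 / 81) * t ^ 5 * z ^ 2 + (2 / 243) * t ^ 5 * z ^ 3 + (2 / 81) * t ^ 6 + (20 / 243) * t ^ 6 * z + (2 / 243) * t ^ 6 * z ^ 2 + (4 / 243) * t ^ 6 * z ^ 3 := by
  have m01 : 0 ≤ t ^ 0 * z ^ 1 := by positivity
  have m02 : 0 ≤ t ^ 0 * z ^ 2 := by positivity
  have m03 : 0 ≤ t ^ 0 * z ^ 3 := by positivity
  have m10 : 0 ≤ t ^ 1 * z ^ 0 := by positivity
  have m11 : t ^ 1 * z ^ 1 ≤ (52 / 125) ^ 1 * (52 / 125) ^ 1 :=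
    mul_le_mul (pow_le_pow_left₀ ht h1 1) (pow_le_pow_left₀ hz h2 1) (by positivity) (by positivity)
  have m12 : t ^ 1 * z ^ 2 ≤ (52 / 125) ^ 1 * (52 / 125) ^ 2 :=
    mul_le_mul (pow_le_pow_left₀ ht h1 1) (pow_le_pow_left₀ hz h2 2) (by positivity) (by positivity)
  have m13 : t ^ 1 * z ^ 3 ≤ (52 / 125) ^ 1 * (52 / 125) ^ 3 :=
    mul_le_mul (pow_le_pow_left₀ ht h1 1) (pow_le_pow_left₀ hz h2 3) (by positivity) (by positivity)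
  have m20 : t ^ 2 * z ^ 0 ≤ (52 / 125) ^ 2 * (52 / 125) ^ 0 :=
    mul_le_mul (pow_le_pow_left₀ ht h1 2) (pow_le_pow_left₀ hz h2 0) (by positivity) (by positivity)
  have m21 : t ^ 2 * z ^ 1 ≤ (52 / 125) ^ 2 * (52 / 125) ^ 1 :=
    mul_le_mul (pow_le_pow_left₀ ht h1 2) (pow_le_pow_left₀ hz h2 1) (by positivity) (by positivity)
  have m22 : t ^ 2 * z ^ 2 ≤ (52 / 125) ^ 2 * (52 / 125) ^ 2 :=
    mul_le_mul (pow_le_pow_left₀ ht h1 2) (pow_le_pow_left₀ hz h2 2) (by positivity) (by positivity)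
  have m23 : 0 ≤ t ^ 2 * z ^ 3 := by positivity
  have m30 : 0 ≤ t ^ 3 * z ^ 0 := by positivity
  have m31 : t ^ 3 * z ^ 1 ≤ (52 / 125) ^ 3 * (52 / 125) ^ 1 :=
    mul_le_mul (pow_le_pow_left₀ ht h1 3) (pow_le_pow_left₀ hz h2 1) (by positivity) (by positivity)
  have m32 : 0 ≤ t ^ 3 * z ^ 2 := by positivity
  have m33 : t ^ 3 * z ^ 3 ≤ (52 / 125) ^ 3 * (52 / 125) ^ 3 :=
    mul_le_mul (pow_le_pow_left₀ ht h1 3) (pow_le_pow_left₀ hz h2 3) (by positivity) (by positivity)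
  have m40 : t ^ 4 * z ^ 0 ≤ (52 / 125) ^ 4 * (52 / 125) ^ 0 :=
    mul_le_mul (pow_le_pow_left₀ ht h1 4) (pow_le_pow_left₀ hz h2 0) (by positivity) (by positivity)
  have m41 : t ^ 4 * z ^ 1 ≤ (52 / 125) ^ 4 * (52 / 125) ^ 1 :=
    mul_le_mul (pow_le_pow_left₀ ht h1 4) (pow_le_pow_left₀ hz h2 1) (by positivity) (by positivity)
  have m42 : t ^ 4 * z ^ 2 ≤ (52 / 125) ^ 4 * (52 / 125) ^ 2 :=
    mul_le_mul (pow_le_pow_left₀ ht h1 4) (pow_le_pow_left₀ hz h2 2) (by positivity) (by positivity)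
  have m43 : t ^ 4 * z ^ 3 ≤ (52 / 125) ^ 4 * (52 / 125) ^ 3 :=
    mul_le_mul (pow_le_pow_left₀ ht h1 4) (pow_le_pow_left₀ hz h2 3) (by positivity) (by positivity)
  have m50 : t ^ 5 * z ^ 0 ≤ (52 / 125) ^ 5 * (52 / 125) ^ 0 :=
    mul_le_mul (pow_le_pow_left₀ ht h1 5) (pow_le_pow_left₀ hz h2 0) (by positivity) (by positivity)
  have m51 : 0 ≤ t ^ 5 * z ^ 1 := by positivity
  have m52 : t ^ 5 * z ^ 2 ≤ (52 / 125) ^ 5 * (52 / 125) ^ 2 :=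
    mul_le_mul (pow_le_pow_left₀ ht h1 5) (pow_le_pow_left₀ hz h2 2) (by positivity) (by positivity)
  have m53 : 0 ≤ t ^ 5 * z ^ 3 := by positivity
  have m60 : 0 ≤ t ^ 6 * z ^ 0 := by positivity
  have m61 : 0 ≤ t ^ 6 * z ^ 1 := by positivity
  have m62 : 0 ≤ t ^ 6 * z ^ 2 := by positivity
  have m63 : 0 ≤ t ^ 6 * z ^ 3 := by positivity
  norm_num at m01 m02 m03 m10 m11 m12 m13 m20 m21 m22 m23 m30 m31 m32 m33 m40 m41 m42 m43 m50 m51 m52 m53 m60 m61 m62 m63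
  linarith

theorem fa_pos (t : ℝ) : 0 < fa t := by unfold fa; positivity

/-- The neighbour is below the first row of the other phase. -/
theorem fW_low {t z μ : ℝ} (ht : 0 < t) (htz : t ≤ z) (hz : z ≤ 52 / 125) (hμ : 0 ≤ μ)
    (hμ' : 4 * μ ≤ fa z) : 0 ≤ fW t z μ (fU t * (fU z - fU t) / fU z) := by
  have hz0 : 0 < z := ht.trans_le htz
  have h1 : t ≤ 52 / 125 := htz.trans hz
  rw [fW_low_eq ht hz0 h1]
  have a1 := QA_pos ht.le hz0.le h1 hz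
  have a2 := Tt_pos ht.le hz0.le h1 hz
  have a3 : 0 ≤ 1 - t ^ 2 / 3 := by nlinarith
  have a4 : 0 ≤ 1 - t := by linarith
  have a5 := fa_pos t
  have a6 := fa_pos z
  have a7 : 0 ≤ fa z - 4 * μ := by linarith
  apply div_nonneg
  · apply mul_nonneg (mul_nonneg ht.le (sq_nonneg _))
    exact add_nonneg (mul_nonneg (mul_nonneg (mul_nonneg a7 a1) a5.le) a3) (mul_nonneg hμ a2)
  · positivity

theorem QB_ge {t z : ℝ} (ht : 0 ≤ t) (hz : 0 ≤ z) (hzt : z ≤ t) (h1 : t ≤ 52 / 125)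
    (h2 : z ≤ 52 / 125) :
    -(5 / 6 * t) ≤ (2 / 3) * z + (-2 / 3) * z ^ 3 + (2 / 3) * t + (-2) * t * z + (-2 / 9) * t * z ^ 2 + (10 / 9) * t * z ^ 3 + (4 / 9) * t * z ^ 4 + (-2 / 9) * t ^ 2 + (-10 / 9) * t ^ 2 * z + (46 / 27) * t ^ 2 * z ^ 2 + (2 / 9) * t ^ 2 * z ^ 3 + (-16 / 27) * t ^ 2 * z ^ 4 + (-10 / 9) * t ^ 3 + (22 / 27) * t ^ 3 * z + (14 / 27) * t ^ 3 * z ^ 2 + (-26 / 81) * t ^ 3 * z ^ 3 + (8 / 81) * t ^ 3 * z ^ 4 + (2 / 27) * t ^ 4 + (34 / 27) * t ^ 4 * z + (-14 / 27) * t ^ 4 * z ^ 2 + (34 / 81) * t ^ 4 * z ^ 3 + (-44 / 243) * t ^ 4 * z ^ 4 + (14 / 27) * t ^ 5 + (50 / 81) * t ^ 5 * z + (2 / 81) * t ^ 5 * z ^ 2 + (2 / 243) * t ^ 5 * z ^ 3 + (-28 / 243) * t ^ 5 * z ^ 4 + (2 / 9) * t ^ 6 + (-2 / 27) * t ^ 6 * z + (-94 / 243) * t ^ 6 * z ^ 2 + (-22 / 243) * t ^ 6 * z ^ 3 + (-16 / 729) * t ^ 6 * z ^ 4 + (-2 / 27) * t ^ 7 + (-2 / 9)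 * t ^ 7 * z + (-14 / 243) * t ^ 7 * z ^ 2 + (-2 / 243) * t ^ 7 * z ^ 3 + (8 / 729) * t ^ 7 * z ^ 4 + (-2 / 27) * t ^ 8 + (4 / 81) * t ^ 8 * z + (-2 / 243) * t ^ 8 * z ^ 2 + (20 / 729) * t ^ 8 * z ^ 3 + (4 / 729) * t ^ 8 * z ^ 4 := by
  have n01 : 0 ≤ t ^ 0 * z ^ 1 := by positivity
  have n03 : t ^ 0 * z ^ 3 ≤ t * ((52 / 125) ^ 2) := by
    calc t ^ 0 * z ^ 3 = z * z ^ 2 := by ring
      _ ≤ _ := mul_le_mul hzt (pow_le_pow_left₀ hz h2 2) (by positivity) ht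
  have n10 : 0 ≤ t ^ 1 * z ^ 0 := by positivity
  have n11 : t ^ 1 * z ^ 1 ≤ t * ((52 / 125) ^ 0 * (52 / 125) ^ 1) := by
    calc t ^ 1 * z ^ 1 = t * (t ^ 0 * z ^ 1) := by ring
      _ ≤ _ := mul_le_mul_of_nonneg_left (mul_le_mul (pow_le_pow_left₀ ht h1 0)
        (pow_le_pow_left₀ hz h2 1) (by positivity) (by positivity)) ht
  have n12 : t ^ 1 * z ^ 2 ≤ t * ((52 / 125) ^ 0 * (52 / 125) ^ 2) := by
    calc t ^ 1 * z ^ 2 = t * (t ^ 0 * z ^ 2) := by ring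
      _ ≤ _ := mul_le_mul_of_nonneg_left (mul_le_mul (pow_le_pow_left₀ ht h1 0)
        (pow_le_pow_left₀ hz h2 2) (by positivity) (by positivity)) ht
  have n13 : 0 ≤ t ^ 1 * z ^ 3 := by positivity
  have n14 : 0 ≤ t ^ 1 * z ^ 4 := by positivity
  have n20 : t ^ 2 * z ^ 0 ≤ t * ((52 / 125) ^ 1 * (52 / 125) ^ 0) := by
    calc t ^ 2 * z ^ 0 = t * (t ^ 1 * z ^ 0) := by ring
      _ ≤ _ := mul_le_mul_of_nonneg_left (mul_le_mul (pow_le_pow_left₀ ht h1 1)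
        (pow_le_pow_left₀ hz h2 0) (by positivity) (by positivity)) ht
  have n21 : t ^ 2 * z ^ 1 ≤ t * ((52 / 125) ^ 1 * (52 / 125) ^ 1) := by
    calc t ^ 2 * z ^ 1 = t * (t ^ 1 * z ^ 1) := by ring
      _ ≤ _ := mul_le_mul_of_nonneg_left (mul_le_mul (pow_le_pow_left₀ ht h1 1)
        (pow_le_pow_left₀ hz h2 1) (by positivity) (by positivity)) ht
  have n22 : 0 ≤ t ^ 2 * z ^ 2 := by positivity
  have n23 : 0 ≤ t ^ 2 * z ^ 3 := by positivity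
  have n24 : t ^ 2 * z ^ 4 ≤ t * ((52 / 125) ^ 1 * (52 / 125) ^ 4) := by
    calc t ^ 2 * z ^ 4 = t * (t ^ 1 * z ^ 4) := by ring
      _ ≤ _ := mul_le_mul_of_nonneg_left (mul_le_mul (pow_le_pow_left₀ ht h1 1)
        (pow_le_pow_left₀ hz h2 4) (by positivity) (by positivity)) ht
  have n30 : t ^ 3 * z ^ 0 ≤ t * ((52 / 125) ^ 2 * (52 / 125) ^ 0) := by
    calc t ^ 3 * z ^ 0 = t * (t ^ 2 * z ^ 0) := by ring
      _ ≤ _ := mul_le_mul_of_nonneg_left (mul_le_mul (pow_le_pow_left₀ ht h1 2)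
        (pow_le_pow_left₀ hz h2 0) (by positivity) (by positivity)) ht
  have n31 : 0 ≤ t ^ 3 * z ^ 1 := by positivity
  have n32 : 0 ≤ t ^ 3 * z ^ 2 := by positivity
  have n33 : t ^ 3 * z ^ 3 ≤ t * ((52 / 125) ^ 2 * (52 / 125) ^ 3) := by
    calc t ^ 3 * z ^ 3 = t * (t ^ 2 * z ^ 3) := by ring
      _ ≤ _ := mul_le_mul_of_nonneg_left (mul_le_mul (pow_le_pow_left₀ ht h1 2)
        (pow_le_pow_left₀ hz h2 3) (by positivity) (by positivity)) ht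
  have n34 : 0 ≤ t ^ 3 * z ^ 4 := by positivity
  have n40 : 0 ≤ t ^ 4 * z ^ 0 := by positivity
  have n41 : 0 ≤ t ^ 4 * z ^ 1 := by positivity
  have n42 : t ^ 4 * z ^ 2 ≤ t * ((52 / 125) ^ 3 * (52 / 125) ^ 2) := by
    calc t ^ 4 * z ^ 2 = t * (t ^ 3 * z ^ 2) := by ring
      _ ≤ _ := mul_le_mul_of_nonneg_left (mul_le_mul (pow_le_pow_left₀ ht h1 3)
        (pow_le_pow_left₀ hz h2 2) (by positivity) (by positivity)) ht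
  have n43 : 0 ≤ t ^ 4 * z ^ 3 := by positivity
  have n44 : t ^ 4 * z ^ 4 ≤ t * ((52 / 125) ^ 3 * (52 / 125) ^ 4) := by
    calc t ^ 4 * z ^ 4 = t * (t ^ 3 * z ^ 4) := by ring
      _ ≤ _ := mul_le_mul_of_nonneg_left (mul_le_mul (pow_le_pow_left₀ ht h1 3)
        (pow_le_pow_left₀ hz h2 4) (by positivity) (by positivity)) ht
  have n50 : 0 ≤ t ^ 5 * z ^ 0 := by positivity
  have n51 : 0 ≤ t ^ 5 * z ^ 1 := by positivity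
  have n52 : 0 ≤ t ^ 5 * z ^ 2 := by positivity
  have n53 : 0 ≤ t ^ 5 * z ^ 3 := by positivity
  have n54 : t ^ 5 * z ^ 4 ≤ t * ((52 / 125) ^ 4 * (52 / 125) ^ 4) := by
    calc t ^ 5 * z ^ 4 = t * (t ^ 4 * z ^ 4) := by ring
      _ ≤ _ := mul_le_mul_of_nonneg_left (mul_le_mul (pow_le_pow_left₀ ht h1 4)
        (pow_le_pow_left₀ hz h2 4) (by positivity) (by positivity)) ht
  have n60 : 0 ≤ t ^ 6 * z ^ 0 := by positivity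
  have n61 : t ^ 6 * z ^ 1 ≤ t * ((52 / 125) ^ 5 * (52 / 125) ^ 1) := by
    calc t ^ 6 * z ^ 1 = t * (t ^ 5 * z ^ 1) := by ring
      _ ≤ _ := mul_le_mul_of_nonneg_left (mul_le_mul (pow_le_pow_left₀ ht h1 5)
        (pow_le_pow_left₀ hz h2 1) (by positivity) (by positivity)) ht
  have n62 : t ^ 6 * z ^ 2 ≤ t * ((52 / 125) ^ 5 * (52 / 125) ^ 2) := by
    calc t ^ 6 * z ^ 2 = t * (t ^ 5 * z ^ 2) := by ring
      _ ≤ _ := mul_le_mul_of_nonneg_left (mul_le_mul (pow_le_pow_left₀ ht h1 5)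
        (pow_le_pow_left₀ hz h2 2) (by positivity) (by positivity)) ht
  have n63 : t ^ 6 * z ^ 3 ≤ t * ((52 / 125) ^ 5 * (52 / 125) ^ 3) := by
    calc t ^ 6 * z ^ 3 = t * (t ^ 5 * z ^ 3) := by ring
      _ ≤ _ := mul_le_mul_of_nonneg_left (mul_le_mul (pow_le_pow_left₀ ht h1 5)
        (pow_le_pow_left₀ hz h2 3) (by positivity) (by positivity)) ht
  have n64 : t ^ 6 * z ^ 4 ≤ t * ((52 / 125) ^ 5 * (52 / 125) ^ 4) := by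
    calc t ^ 6 * z ^ 4 = t * (t ^ 5 * z ^ 4) := by ring
      _ ≤ _ := mul_le_mul_of_nonneg_left (mul_le_mul (pow_le_pow_left₀ ht h1 5)
        (pow_le_pow_left₀ hz h2 4) (by positivity) (by positivity)) ht
  have n70 : t ^ 7 * z ^ 0 ≤ t * ((52 / 125) ^ 6 * (52 / 125) ^ 0) := by
    calc t ^ 7 * z ^ 0 = t * (t ^ 6 * z ^ 0) := by ring
      _ ≤ _ := mul_le_mul_of_nonneg_left (mul_le_mul (pow_le_pow_left₀ ht h1 6)
        (pow_le_pow_left₀ hz h2 0) (by positivity) (by positivity)) ht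
  have n71 : t ^ 7 * z ^ 1 ≤ t * ((52 / 125) ^ 6 * (52 / 125) ^ 1) := by
    calc t ^ 7 * z ^ 1 = t * (t ^ 6 * z ^ 1) := by ring
      _ ≤ _ := mul_le_mul_of_nonneg_left (mul_le_mul (pow_le_pow_left₀ ht h1 6)
        (pow_le_pow_left₀ hz h2 1) (by positivity) (by positivity)) ht
  have n72 : t ^ 7 * z ^ 2 ≤ t * ((52 / 125) ^ 6 * (52 / 125) ^ 2) := by
    calc t ^ 7 * z ^ 2 = t * (t ^ 6 * z ^ 2) := by ring
      _ ≤ _ := mul_le_mul_of_nonneg_left (mul_le_mul (pow_le_pow_left₀ ht h1 6)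
        (pow_le_pow_left₀ hz h2 2) (by positivity) (by positivity)) ht
  have n73 : t ^ 7 * z ^ 3 ≤ t * ((52 / 125) ^ 6 * (52 / 125) ^ 3) := by
    calc t ^ 7 * z ^ 3 = t * (t ^ 6 * z ^ 3) := by ring
      _ ≤ _ := mul_le_mul_of_nonneg_left (mul_le_mul (pow_le_pow_left₀ ht h1 6)
        (pow_le_pow_left₀ hz h2 3) (by positivity) (by positivity)) ht
  have n74 : 0 ≤ t ^ 7 * z ^ 4 := by positivity
  have n80 : t ^ 8 * z ^ 0 ≤ t * ((52 / 125) ^ 7 * (52 / 125) ^ 0) := by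
    calc t ^ 8 * z ^ 0 = t * (t ^ 7 * z ^ 0) := by ring
      _ ≤ _ := mul_le_mul_of_nonneg_left (mul_le_mul (pow_le_pow_left₀ ht h1 7)
        (pow_le_pow_left₀ hz h2 0) (by positivity) (by positivity)) ht
  have n81 : 0 ≤ t ^ 8 * z ^ 1 := by positivity
  have n82 : t ^ 8 * z ^ 2 ≤ t * ((52 / 125) ^ 7 * (52 / 125) ^ 2) := by
    calc t ^ 8 * z ^ 2 = t * (t ^ 7 * z ^ 2) := by ring
      _ ≤ _ := mul_le_mul_of_nonneg_left (mul_le_mul (pow_le_pow_left₀ ht h1 7)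
        (pow_le_pow_left₀ hz h2 2) (by positivity) (by positivity)) ht
  have n83 : 0 ≤ t ^ 8 * z ^ 3 := by positivity
  have n84 : 0 ≤ t ^ 8 * z ^ 4 := by positivity
  norm_num at n01 n03 n10 n11 n12 n13 n14 n20 n21 n22 n23 n24 n30 n31 n32 n33 n34 n40 n41 n42 n43 n44 n50 n51 n52 n53 n54 n60 n61 n62 n63 n64 n70 n71 n72 n73 n74 n80 n81 n82 n83 n84
  linarith

set_option maxHeartbeats 4000000 in
theorem fW_high_eq {t z μ : ℝ} (ht : 0 < t) (hz : 0 < z) (h1 : t ≤ 52 / 125) :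
    fW t z μ (fU z - fU t) =
      (z - t) ^ 2 * (fa t * fa z * (1 - t ^ 2 / 3) * (2 / 3 * t * fa t * fa z * (1 - t) +
        2 / 3 * (1 - 2 * t - t ^ 2 / 3) * (1 - t * z / 3) * (1 - t - z - t * z / 3)) +
        μ * ((2 / 3) * z + (-2 / 3) * z ^ 3 + (2 / 3) * t + (-2) * t * z + (-2 / 9) * t * z ^ 2 + (10 / 9) * t * z ^ 3 + (4 / 9) * t * z ^ 4 + (-2 / 9) * t ^ 2 + (-10 / 9) * t ^ 2 * z + (46 / 27) * t ^ 2 * z ^ 2 + (2 / 9) * t ^ 2 * z ^ 3 + (-16 / 27) * t ^ 2 * z ^ 4 + (-10 / 9) * t ^ 3 + (22 / 27) * t ^ 3 * z + (14 / 27) * t ^ 3 * z ^ 2 + (-26 / 81) * t ^ 3 * z ^ 3 + (8 / 81) * t ^ 3 * z ^ 4 + (2 / 27) * t ^ 4 + (34 / 27) * t ^ 4 * z + (-14 / 27) * t ^ 4 * z ^ 2 + (34 / 81) * t ^ 4 * z ^ 3 + (-44 / 243) * t ^ 4 * z ^ 4 + (14 / 27) * t ^ 5 + (50 / 81) * t ^ 5 * z + (2 / 81) * t ^ 5 * z ^ 2 + (2 / 243) * t ^ 5 * z ^ 3 + (-28 / 243) * t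 ^ 5 * z ^ 4 + (2 / 9) * t ^ 6 + (-2 / 27) * t ^ 6 * z + (-94 / 243) * t ^ 6 * z ^ 2 + (-22 / 243) * t ^ 6 * z ^ 3 + (-16 / 729) * t ^ 6 * z ^ 4 + (-2 / 27) * t ^ 7 + (-2 / 9) * t ^ 7 * z + (-14 / 243) * t ^ 7 * z ^ 2 + (-2 / 243) * t ^ 7 * z ^ 3 + (8 / 729) * t ^ 7 * z ^ 4 + (-2 / 27) * t ^ 8 + (4 / 81) * t ^ 8 * z + (-2 / 243) * t ^ 8 * z ^ 2 + (20 / 729) * t ^ 8 * z ^ 3 + (4 / 729) * t ^ 8 * z ^ 4)) / (t * fa t ^ 3 * fa z ^ 3 * (1 - t) * (1 - t ^ 2 / 3)) := by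
  have hA : (1 + t ^ 2 / 3) ≠ 0 := by positivity
  have hB : (1 + z ^ 2 / 3) ≠ 0 := by positivity
  have hT : (1 - t) ≠ 0 := by linarith
  have hO : (1 - t ^ 2 / 3) ≠ 0 := by nlinarith
  have hO' : (3 - t ^ 2) ≠ 0 := by nlinarith
  have ht' := ht.ne'
  have hz' := hz.ne'
  unfold fW fQ fK fκ fG fE fC fU fa
  field_simp
  ring

/-- The neighbour is above the first row of the other phase. -/
theorem fW_high {t z μ ρ : ℝ} (hz0 : 0 < z) (hzt : z ≤ t) (h1 : t ≤ 52 / 125) (hμ : 0 ≤ μ)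
    (hμ' : 4 * μ ≤ fa z) (hρ : ρ ≤ 1) : 0 ≤ fW t z μ (-(ρ * (fU t - fU z))) := by
  have ht : 0 < t := hz0.trans_le hzt
  have h2 : z ≤ 52 / 125 := hzt.trans h1
  have a3 : 0 < 1 - t ^ 2 / 3 := by nlinarith
  have a4 : 0 < 1 - t := by linarith
  have a4' : 0 < 1 - z := by linarith
  have a5 := fa_pos t
  have a6 := fa_pos z
  have a8 : 0 ≤ 1 - 2 * t - t ^ 2 / 3 := by nlinarith
  have hU : fU z ≤ fU t := by
    unfold fU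
    rw [div_le_div_iff₀ a6 a5]
    unfold fa
    nlinarith [mul_nonneg ht.le hz0.le, mul_nonneg (sub_nonneg.2 hzt) (sub_nonneg.2 hzt),
      mul_nonneg (sub_nonneg.2 hzt) (by nlinarith : 0 ≤ 1 - t * z / 3)]
  have hc : 0 ≤ fκ t * fE z + μ * (fκ t * fQ z + fK t * fE z / 3) := by
    have b1 : 0 ≤ fκ t := by unfold fκ; positivity
    have b2 : 0 ≤ fE z := by unfold fE; positivity
    have b3 : 0 ≤ fG t := by unfold fG; positivity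
    have b4 : 0 ≤ fQ z := by unfold fQ fG; positivity
    have b5 : 0 ≤ fK t := by
      unfold fK
      have : 0 ≤ 1 + 2 * t - t ^ 2 / 3 := by nlinarith
      positivity
    positivity
  have hmono : fW t z μ (fU z - fU t) ≤ fW t z μ (-(ρ * (fU t - fU z))) := by
    have : fW t z μ (-(ρ * (fU t - fU z))) - fW t z μ (fU z - fU t) =
        (fκ t * fE z + μ * (fκ t * fQ z + fK t * fE z / 3)) * ((1 - ρ) * (fU t - fU z)) := by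
      unfold fW
      ring
    have h3 : 0 ≤ (fκ t * fE z + μ * (fκ t * fQ z + fK t * fE z / 3)) *
        ((1 - ρ) * (fU t - fU z)) :=
      mul_nonneg hc (mul_nonneg (by linarith) (by linarith))
    linarith
  refine le_trans ?_ hmono
  rw [fW_high_eq ht hz0 h1]
  have hq := QB_ge ht.le hz0.le hzt h1 h2
  apply div_nonneg
  · apply mul_nonneg (sq_nonneg _)
    have c1 : 1 ≤ fa t := by unfold fa; nlinarith [sq_nonneg t]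
    have c2 : 1 ≤ fa z := by unfold fa; nlinarith [sq_nonneg z]
    have c3 : μ ≤ 53 / 200 := by
      have : fa z ≤ 53 / 50 := by unfold fa; nlinarith
      linarith
    have c4 : μ * (-(5 / 6 * t)) ≤ μ * ((2 / 3) * z + (-2 / 3) * z ^ 3 + (2 / 3) * t + (-2) * t * z + (-2 / 9) * t * z ^ 2 + (10 / 9) * t * z ^ 3 + (4 / 9) * t * z ^ 4 + (-2 / 9) * t ^ 2 + (-10 / 9) * t ^ 2 * z + (46 / 27) * t ^ 2 * z ^ 2 + (2 / 9) * t ^ 2 * z ^ 3 + (-16 / 27) * t ^ 2 * z ^ 4 + (-10 / 9) * t ^ 3 + (22 / 27) * t ^ 3 * z + (14 / 27) * t ^ 3 * z ^ 2 + (-26 / 81) * t ^ 3 * z ^ 3 + (8 / 81) * t ^ 3 * z ^ 4 + (2 / 27) * t ^ 4 + (34 / 27) * t ^ 4 * z + (-14 / 27) * t ^ 4 * z ^ 2 + (34 / 81) * t ^ 4 * z ^ 3 + (-44 / 243) * t ^ 4 * z ^ 4 + (14 / 27) * t ^ 5 + (50 / 81) * t ^ 5 * z + (2 / 81) * t ^ 5 * z ^ 2 + (2 / 243) * t ^ 5 * z ^ 3 + (-28 / 243) * t ^ 5 * z ^ 4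 + (2 / 9) * t ^ 6 + (-2 / 27) * t ^ 6 * z + (-94 / 243) * t ^ 6 * z ^ 2 + (-22 / 243) * t ^ 6 * z ^ 3 + (-16 / 729) * t ^ 6 * z ^ 4 + (-2 / 27) * t ^ 7 + (-2 / 9) * t ^ 7 * z + (-14 / 243) * t ^ 7 * z ^ 2 + (-2 / 243) * t ^ 7 * z ^ 3 + (8 / 729) * t ^ 7 * z ^ 4 + (-2 / 27) * t ^ 8 + (4 / 81) * t ^ 8 * z + (-2 / 243) * t ^ 8 * z ^ 2 + (20 / 729) * t ^ 8 * z ^ 3 + (4 / 729) * t ^ 8 * z ^ 4) := mul_le_mul_of_nonneg_left hq hμ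
    have c5 : 0 ≤ (1 - t * z / 3) * (1 - t - z - t * z / 3) :=
      mul_nonneg (by nlinarith) (by nlinarith)
    have c6 : 0 ≤ fa t * fa z * (1 - t ^ 2 / 3) * (2 / 3 * (1 - 2 * t - t ^ 2 / 3) *
        (1 - t * z / 3) * (1 - t - z - t * z / 3)) := by
      have : 0 ≤ 2 / 3 * (1 - 2 * t - t ^ 2 / 3) * ((1 - t * z / 3) * (1 - t - z - t * z / 3)) := by
        positivity
      have e : 2 / 3 * (1 - 2 * t - t ^ 2 / 3) * (1 - t * z / 3) * (1 - t - z - t * z / 3) =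
        2 / 3 * (1 - 2 * t - t ^ 2 / 3) * ((1 - t * z / 3) * (1 - t - z - t * z / 3)) := by ring
      rw [e]
      positivity
    have c7 : (11 / 30) * t ≤ 2 / 3 * t * (1 - t) * (1 - t ^ 2 / 3) := by
      have : 11 / 20 ≤ (1 - t) * (1 - t ^ 2 / 3) := by nlinarith [sq_nonneg t]
      nlinarith
    have c8 : (11 / 30) * t ≤ fa t * fa z * (1 - t ^ 2 / 3) * (2 / 3 * t * fa t * fa z * (1 - t)) := by
      have d1 : 1 ≤ (fa t * fa z) ^ 2 := by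
        have : 1 ≤ fa t * fa z := by nlinarith
        nlinarith
      have e : fa t * fa z * (1 - t ^ 2 / 3) * (2 / 3 * t * fa t * fa z * (1 - t)) =
        (fa t * fa z) ^ 2 * (2 / 3 * t * (1 - t) * (1 - t ^ 2 / 3)) := by ring
      rw [e]
      have d2 : 0 ≤ 2 / 3 * t * (1 - t) * (1 - t ^ 2 / 3) := by positivity
      nlinarith
    have c9 : μ * (5 / 6 * t) ≤ 53 / 200 * (5 / 6 * t) :=
      mul_le_mul_of_nonneg_right c3 (by positivity)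
    nlinarith
  · positivity

end Pool.Agent.Strip051.LC.Exact
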