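import Pool.Agent.Strip051.LC.Exact.LongMain

/-! # The conditions at the floor with an exceptional window

If the slacks at the floor are nonnegative except for the almost horizontal pairs on the floor
(`WinP`), then `StarSmall` follows from inequalities for single pairs: an apex in the middle which
is low sees both ends as neighbours at the floor, a high apex is treated by lower bounds of the
slacks of the two upper edges. -/

namespace Pool.Agent.Strip051.LC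

open Pool.Agent.StripNear Pool.Agent.StripSquare Pool.Agent.Strip051.Sweep

section

variable {D : Data}

theorem edQ_anti (hD : D.Ok) (s μ τ : ℝ) (a b : Pt) :
    ed (D.Q μ τ) (dn s b) (dn s a) = -ed (D.Q μ τ) (dn s a) (dn s b) := by
  unfold ed
  rw [← hD.anti]
  congr 1
  unfold dn
  ring

theorem WF_anti (hD : D.Ok) (s μ : ℝ) (a b : Pt) : WF D s μ b a = -WF D s μ a b - 1 := by
  unfold WF
  rw [edQ_anti hD]
  ring

/-- The path over the third vertex. -/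
theorem SF_path (hD : D.Ok) (s μ : ℝ) (a b c : Pt) :
    SF D s μ a b c + WF D s μ a b = WF D s μ a c + WF D s μ c b := by
  have hh := h0_pos
  unfold SF WF fl cr
  rw [edQ_anti hD s μ _ c b, edQ_anti hD s μ _ a c]
  field_simp
  ring

theorem SF_rot (s μ : ℝ) (a b c : Pt) : SF D s μ b c a = SF D s μ a b c := by
  unfold SF fl cr
  ring

end

/-! ### Geometry -/

theorem FF.low {p q : Pt} (h : FF p q) : p.2 ≤ h0 ∨ q.2 ≤ h0 := by
  by_contra hc
  push Not at hc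
  obtain ⟨h1, h2⟩ := hc
  obtain ⟨m, e1, e2⟩ := h.circ
  have hs := h.sep
  have hh := h0_pos
  have hq := h0_sq
  have hq' : h0 ^ 2 = 3 / 4 := by nlinarith
  unfold ds at hs
  have k1 : 3 / 4 < p.2 * q.2 := by nlinarith
  have k2 : (p.1 - m) ^ 2 ≤ 1 / 4 := by nlinarith
  have k3 : (q.1 - m) ^ 2 ≤ 1 / 4 := by nlinarith
  have k4 : 0 ≤ ((p.1 - m) + (q.1 - m)) ^ 2 := sq_nonneg _
  nlinarith

/-- All vertices of a small triangle with an edge at the floor are low. -/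
theorem FF.tri_low {a b c : Pt} (h : FF a b) (k1 : ds a c ≤ 3) (k2 : ds b c ≤ 3) :
    a.2 ≤ 3 * h0 ∧ b.2 ≤ 3 * h0 ∧ c.2 ≤ 3 * h0 := by
  have hh := h0_pos
  have hq' : h0 ^ 2 = 3 / 4 := by nlinarith [h0_sq]
  have h45 : (4 : ℝ) / 5 < h0 := by nlinarith
  have e1 := h.left_le
  have e2 := h.right_le
  refine ⟨by linarith, by linarith, ?_⟩
  have key : ∀ x : Pt, x.2 ≤ h0 → ds x c ≤ 3 → c.2 ≤ 3 * h0 := by
    intro x hx hd
    have e3 : (c.2 - x.2) ^ 2 ≤ (2 * h0) ^ 2 := by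
      unfold ds at hd
      nlinarith [sq_nonneg (c.1 - x.1)]
    have := abs_le_of_sq_le_sq' e3 (by linarith)
    linarith [this.2]
  rcases h.low with h3 | h3
  · exact key a h3 k1
  · exact key b h3 k2

/-- The left end is low: the pair is a pair at the floor. -/
theorem FF_lowL {p r : Pt} (h1 : 557 / 1000 ≤ r.1 - p.1) (h2 : r.1 - p.1 ≤ 118 / 100)
    (hd : 1 ≤ ds p r) (hp : 0 ≤ p.2) (hp' : p.2 ≤ 3 / 50) (hr : 0 ≤ r.2)
    (hr' : r.2 - p.2 ≤ 83 / 100) : FF p r := by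
  set X := r.1 - p.1 with hX
  have hXp : 0 < X := by linarith
  set c := (X ^ 2 + r.2 ^ 2 - p.2 ^ 2) / (2 * X) with hc
  have hcX : c * (2 * X) = X ^ 2 + r.2 ^ 2 - p.2 ^ 2 := by
    rw [hc]
    field_simp
  have e1 : r.2 ^ 2 - p.2 ^ 2 ≤ 7885 / 10000 := by
    rcases le_total r.2 p.2 with h | h
    · nlinarith
    · nlinarith
  have e2 : X ^ 2 + r.2 ^ 2 - p.2 ^ 2 ≤ 1996 / 1000 * X := by nlinarith
  have c0 : 0 ≤ c := by
    rw [hc]
    apply div_nonneg _ (by linarith)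
    nlinarith [sq_nonneg r.2]
  have c1 : c ≤ 998 / 1000 := by
    have : c * (2 * X) ≤ 998 / 1000 * (2 * X) := by
      rw [hcX]
      linarith
    exact le_of_mul_le_mul_right this (by linarith)
  refine ⟨by linarith, hp, hr, hd, p.1 + c, ?_, ?_⟩
  · have e3 : r.1 - (p.1 + c) = X - c := by
      rw [hX]
      ring
    rw [e3]
    nlinarith
  · have e3 : (p.1 - (p.1 + c)) ^ 2 = c ^ 2 := by ring
    rw [e3]
    nlinarith

/-- The right end is low: the pair is a pair at the floor. -/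
theorem FF_lowR {r q : Pt} (h1 : 557 / 1000 ≤ q.1 - r.1) (h2 : q.1 - r.1 ≤ 118 / 100)
    (hd : 1 ≤ ds r q) (hq : 0 ≤ q.2) (hq' : q.2 ≤ 3 / 50) (hr : 0 ≤ r.2)
    (hr' : r.2 - q.2 ≤ 83 / 100) : FF r q := by
  have h := FF_lowL (p := (-q.1, q.2)) (r := (-r.1, r.2)) (by
      simpa [sub_eq_add_neg, add_comm] using h1)
    (by simpa [sub_eq_add_neg, add_comm] using h2) (by
      have : ds (-q.1, q.2) (-r.1, r.2) = ds r q := by
        unfold ds
        ring
      rw [this]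
      exact hd) hq hq' hr hr'
  obtain ⟨m, e1, e2⟩ := h.circ
  simp only at e1 e2
  refine ⟨by linarith, hr, hq, hd, -m, ?_, ?_⟩
  · have a1 : (r.1 - -m) ^ 2 = (-r.1 - m) ^ 2 := by ring
    have a2 : (q.1 - -m) ^ 2 = (-q.1 - m) ^ 2 := by ring
    rw [a1, a2]
    linarith
  · have a1 : (r.1 - -m) ^ 2 = (-r.1 - m) ^ 2 := by ring
    rw [a1]
    linarith

/-- The exceptional window: almost horizontal pairs on the floor. -/
structure WinP (D0 : ℝ) (a b : Pt) : Prop where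
  x : D0 ≤ b.1 - a.1
  d1 : b.2 - a.2 ≤ 3 / 100
  d2 : a.2 - b.2 ≤ 3 / 100
  y : min a.2 b.2 ≤ 3 / 100

theorem WinP.left {D0 : ℝ} {a b : Pt} (h : WinP D0 a b) : a.2 ≤ 3 / 50 := by
  have h1 := h.d2
  rcases min_le_iff.1 h.y with h2 | h2 <;> linarith

theorem WinP.right {D0 : ℝ} {a b : Pt} (h : WinP D0 a b) : b.2 ≤ 3 / 50 := by
  have h1 := h.d1
  rcases min_le_iff.1 h.y with h2 | h2 <;> linarith

/-- The inequalities for one vertex.  The constants `al T`, `be T` are used for the two upper edges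
of a triangle, their vertical displacements are between `T` and `T + 3 / 100`. -/
structure WinV (D : Data) (s μ D0 : ℝ) (al be : ℝ → ℝ) : Prop where
  tri : ∀ p q r : Pt, 0 ≤ p.2 → 0 ≤ q.2 → 0 ≤ r.2 → 0 ≤ cr p q r → 1 ≤ ds p q → 1 ≤ ds q r →
    1 ≤ ds p r → ds p q ≤ 3 → ds q r ≤ 3 → ds p r ≤ 3 → p.2 ≤ 3 * h0 → q.2 ≤ 3 * h0 →
    r.2 ≤ 3 * h0 → 0 ≤ SF D s μ p q r
  pair : ∀ a b, FF a b → ds a b ≤ 3 → 0 ≤ WF D s μ a b ∨ WinP D0 a b
  al0 : ∀ T, 0 ≤ al T
  be0 : ∀ T, 0 ≤ be T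
  high : ∀ T (a b : Pt), 0 ≤ a.2 → 0 ≤ b.2 → a.1 ≤ b.1 → 1 ≤ ds a b → ds a b ≤ 3 →
    min a.2 b.2 ≤ 3 / 50 → 4 / 5 ≤ T → T ≤ 17 / 10 → T ≤ |b.2 - a.2| →
    |b.2 - a.2| ≤ T + 3 / 100 → al T * (b.1 - a.1 - D0 / 2) ≤ WF D s μ a b
  far : ∀ T (a b : Pt), 0 ≤ a.2 → 0 ≤ b.2 → 1 ≤ ds a b → ds a b ≤ 3 →
    min a.2 b.2 ≤ 3 / 50 → 22 / 25 ≤ T → T ≤ 67 / 50 → T ≤ |b.2 - a.2| →
    |b.2 - a.2| ≤ T + 3 / 100 → D0 ≤ b.1 - a.1 →
    1 / 2 + be T * (b.1 - a.1 - D0) ≤ WF D s μ a b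
  near : ∀ T (a b : Pt), 0 ≤ a.2 → 0 ≤ b.2 → a.1 ≤ b.1 → 1 ≤ ds a b → ds a b ≤ 3 →
    min a.2 b.2 ≤ 3 / 50 → 22 / 25 ≤ T → T ≤ 67 / 50 → T ≤ |b.2 - a.2| →
    |b.2 - a.2| ≤ T + 3 / 100 → b.1 - a.1 ≤ 2 / 5 →
    WF D s μ a b + 1 / 2 ≤ be T * (b.1 - a.1)

section

variable {D : Data} {s μ D0 : ℝ} {al be : ℝ → ℝ}

/-- The apex is in the middle. -/
theorem WinV.mid (h : WinV D s μ D0 al be) (hD0 : 11 / 10 ≤ D0) {p q r : Pt}
    (hw : WinP D0 p q) (hp : 0 ≤ p.2) (hq : 0 ≤ q.2) (hr : 0 ≤ r.2) (h1 : p.1 ≤ r.1)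
    (h2 : r.1 ≤ q.1) (k1 : 1 ≤ ds p r) (k2 : 1 ≤ ds r q) (k3 : ds p r ≤ 3) (k4 : ds r q ≤ 3)
    (k5 : ds p q ≤ 3) : (FF p r ∧ FF r q) ∨ 0 ≤ WF D s μ p r + WF D s μ r q := by
  have hpl := hw.left
  have hql := hw.right
  have hx := hw.x
  have d1 := hw.d1
  have d2 := hw.d2
  by_cases hc : 4 / 5 ≤ r.2 - p.2 ∧ 4 / 5 ≤ r.2 - q.2
  · right
    have a1 : |r.2 - p.2| = r.2 - p.2 := abs_of_nonneg (by linarith)
    have a2 : |q.2 - r.2| = r.2 - q.2 := by
      rw [abs_sub_comm]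
      exact abs_of_nonneg (by linarith)
    have hup : r.2 - p.2 ≤ 17 / 10 ∧ r.2 - q.2 ≤ 17 / 10 := by
      rcases le_total (11 / 20) (r.1 - p.1) with h3 | h3
      · have : r.2 - p.2 ≤ 165 / 100 := by
          by_contra h4
          push Not at h4
          unfold ds at k3
          nlinarith
        constructor <;> linarith
      · have : r.2 - q.2 ≤ 165 / 100 := by
          by_contra h4
          push Not at h4
          unfold ds at k4
          nlinarith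
        constructor <;> linarith
    set T := min (r.2 - p.2) (r.2 - q.2) with hT
    have t0 : 4 / 5 ≤ T := le_min hc.1 hc.2
    have t1 : T ≤ r.2 - p.2 := min_le_left _ _
    have t2 : T ≤ r.2 - q.2 := min_le_right _ _
    have t3 : r.2 - p.2 ≤ T + 3 / 100 := by
      rcases min_choice (r.2 - p.2) (r.2 - q.2) with h3 | h3 <;> rw [hT, h3] <;> linarith
    have t4 : r.2 - q.2 ≤ T + 3 / 100 := by
      rcases min_choice (r.2 - p.2) (r.2 - q.2) with h3 | h3 <;> rw [hT, h3] <;> linarith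
    have e1 := h.high T p r hp hr h1 k1 k3 ((min_le_left _ _).trans hpl) t0
      (t1.trans hup.1) (by rw [a1]; exact t1) (by rw [a1]; exact t3)
    have e2 := h.high T r q hr hq h2 k2 k4 ((min_le_right _ _).trans hql) t0
      (t1.trans hup.1) (by rw [a2]; exact t2) (by rw [a2]; exact t4)
    have e3 : 0 ≤ al T * (q.1 - p.1 - D0) := mul_nonneg (h.al0 T) (by linarith)
    have e4 : al T * (r.1 - p.1 - D0 / 2) + al T * (q.1 - r.1 - D0 / 2) =
        al T * (q.1 - p.1 - D0) := by ring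
    linarith
  · left
    have hz : r.2 - p.2 ≤ 83 / 100 ∧ r.2 - q.2 ≤ 83 / 100 := by
      by_contra hcc
      apply hc
      constructor
      · by_contra h3
        push Not at h3
        exact hcc ⟨by linarith, by linarith⟩
      · by_contra h3
        push Not at h3
        exact hcc ⟨by linarith, by linarith⟩
    have low : ∀ x : Pt, 0 ≤ x.2 → x.2 ≤ 3 / 50 → r.2 - x.2 ≤ 83 / 100 →
        (r.2 - x.2) ^ 2 ≤ 6889 / 10000 := by
      intro x hx0 hx1 hx2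
      rcases le_total r.2 x.2 with h | h
      · nlinarith
      · nlinarith
    have t1 := low p hp hpl hz.1
    have t2 := low q hq hql hz.2
    have x1 : 5575 / 10000 ≤ r.1 - p.1 := by
      by_contra h3
      push Not at h3
      unfold ds at k1
      nlinarith
    have x2 : 5575 / 10000 ≤ q.1 - r.1 := by
      by_contra h3
      push Not at h3
      unfold ds at k2
      nlinarith
    have x3 : q.1 - p.1 ≤ 1733 / 1000 := by
      by_contra h3
      push Not at h3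
      unfold ds at k5
      nlinarith [sq_nonneg (q.2 - p.2)]
    exact ⟨FF_lowL (by linarith) (by linarith) k1 hp hpl hr hz.1,
      FF_lowR (by linarith) (by linarith) k2 hq hql hr hz.2⟩

/-- The apex is beyond an end: `X`, `T1` belong to the long edge, `d`, `T2` to the short one. -/
theorem out_geo {X d T1 T2 : ℝ} (hX : 11 / 10 ≤ X) (hd : 0 ≤ d) (h1 : -(3 / 50) ≤ T2)
    (h2 : T2 - 3 / 100 ≤ T1) (h2' : T1 ≤ T2 + 3 / 100) (h3 : (X + d) ^ 2 + T1 ^ 2 ≤ 3)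
    (h4 : 1 ≤ d ^ 2 + T2 ^ 2) :
    22 / 25 ≤ T1 ∧ 22 / 25 ≤ T2 ∧ T1 ≤ 67 / 50 ∧ d ≤ 2 / 5 := by
  have s1 : d ≤ 633 / 1000 := by
    by_contra h
    push Not at h
    nlinarith [sq_nonneg T1]
  have s2 : 77 / 100 ≤ T2 := by
    by_contra h
    push Not at h
    nlinarith
  have s3 : 74 / 100 ≤ T1 := by linarith
  have s4 : d ≤ 467 / 1000 := by
    by_contra h
    push Not at h
    nlinarith
  have s5 : 884 / 1000 ≤ T2 := by
    by_contra h
    push Not at h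
    nlinarith
  have s6 : 854 / 1000 ≤ T1 := by linarith
  have s7 : d ≤ 408 / 1000 := by
    by_contra h
    push Not at h
    nlinarith
  have s8 : 912 / 1000 ≤ T2 := by
    by_contra h
    push Not at h
    nlinarith
  have s9 : 882 / 1000 ≤ T1 := by linarith
  have s10 : d ≤ 2 / 5 := by
    by_contra h
    push Not at h
    nlinarith
  have s11 : T1 ≤ 67 / 50 := by
    by_contra h
    push Not at h
    nlinarith
  exact ⟨by linarith, by linarith, s11, s10⟩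

theorem WinV.right (h : WinV D s μ D0 al be) (hD0 : 11 / 10 ≤ D0) (hD : D.Ok)
    {p q r : Pt} (hw : WinP D0 p q) (hp : 0 ≤ p.2) (hq : 0 ≤ q.2) (hr : 0 ≤ r.2) (h2 : q.1 ≤ r.1)
    (k1 : 1 ≤ ds p r) (k2 : 1 ≤ ds q r) (k3 : ds p r ≤ 3) (k4 : ds q r ≤ 3) :
    0 ≤ WF D s μ p r + WF D s μ r q := by
  have hx := hw.x
  have d1 := hw.d1
  have d2 := hw.d2
  obtain ⟨g1, g2, g3, g4⟩ := out_geo (X := q.1 - p.1) (d := r.1 - q.1) (T1 := r.2 - p.2)
    (T2 := r.2 - q.2) (by linarith) (by linarith) (by linarith [hw.right]) (by linarith)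
    (by linarith) (by
      unfold ds at k3
      rw [show q.1 - p.1 + (r.1 - q.1) = r.1 - p.1 by ring]
      exact k3) k2
  have a1 : |r.2 - p.2| = r.2 - p.2 := abs_of_nonneg (by linarith)
  have a2 : |r.2 - q.2| = r.2 - q.2 := abs_of_nonneg (by linarith)
  set T := min (r.2 - p.2) (r.2 - q.2) with hT
  have t0 : 22 / 25 ≤ T := le_min g1 g2
  have t1 : T ≤ r.2 - p.2 := min_le_left _ _
  have t2 : T ≤ r.2 - q.2 := min_le_right _ _
  have t3 : r.2 - p.2 ≤ T + 3 / 100 := by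
    rcases min_choice (r.2 - p.2) (r.2 - q.2) with h3 | h3 <;> rw [hT, h3] <;> linarith
  have t4 : r.2 - q.2 ≤ T + 3 / 100 := by
    rcases min_choice (r.2 - p.2) (r.2 - q.2) with h3 | h3 <;> rw [hT, h3] <;> linarith
  have e1 := h.far T p r hp hr k1 k3 ((min_le_left _ _).trans hw.left) t0 (t1.trans g3)
    (by rw [a1]; exact t1) (by rw [a1]; exact t3) (by linarith)
  have e2 := h.near T q r hq hr h2 k2 k4 ((min_le_left _ _).trans hw.right) t0 (t1.trans g3)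
    (by rw [a2]; exact t2) (by rw [a2]; exact t4) g4
  have e3 : 0 ≤ be T * (q.1 - p.1 - D0) := mul_nonneg (h.be0 T) (by linarith)
  have e4 : be T * (r.1 - p.1 - D0) - be T * (r.1 - q.1) = be T * (q.1 - p.1 - D0) := by ring
  rw [WF_anti hD s μ q r]
  linarith

theorem WinV.left (h : WinV D s μ D0 al be) (hD0 : 11 / 10 ≤ D0) (hD : D.Ok)
    {p q r : Pt} (hw : WinP D0 p q) (hp : 0 ≤ p.2) (hq : 0 ≤ q.2) (hr : 0 ≤ r.2) (h2 : r.1 ≤ p.1)
    (k1 : 1 ≤ ds r p) (k2 : 1 ≤ ds r q) (k3 : ds r p ≤ 3) (k4 : ds r q ≤ 3) :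
    0 ≤ WF D s μ p r + WF D s μ r q := by
  have hx := hw.x
  have d1 := hw.d1
  have d2 := hw.d2
  obtain ⟨g1, g2, g3, g4⟩ := out_geo (X := q.1 - p.1) (d := p.1 - r.1) (T1 := r.2 - q.2)
    (T2 := r.2 - p.2) (by linarith) (by linarith) (by linarith [hw.left]) (by linarith)
    (by linarith) (by
      unfold ds at k4
      rw [show q.1 - p.1 + (p.1 - r.1) = q.1 - r.1 by ring]
      rw [show (r.2 - q.2) ^ 2 = (q.2 - r.2) ^ 2 by ring]
      exact k4) (by
      unfold ds at k1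
      rw [show (r.2 - p.2) ^ 2 = (p.2 - r.2) ^ 2 by ring]
      exact k1)
  have a1 : |q.2 - r.2| = r.2 - q.2 := by
    rw [abs_sub_comm]
    exact abs_of_nonneg (by linarith)
  have a2 : |p.2 - r.2| = r.2 - p.2 := by
    rw [abs_sub_comm]
    exact abs_of_nonneg (by linarith)
  set T := min (r.2 - q.2) (r.2 - p.2) with hT
  have t0 : 22 / 25 ≤ T := le_min g1 g2
  have t1 : T ≤ r.2 - q.2 := min_le_left _ _
  have t2 : T ≤ r.2 - p.2 := min_le_right _ _
  have t3 : r.2 - q.2 ≤ T + 3 / 100 := by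
    rcases min_choice (r.2 - q.2) (r.2 - p.2) with h3 | h3 <;> rw [hT, h3] <;> linarith
  have t4 : r.2 - p.2 ≤ T + 3 / 100 := by
    rcases min_choice (r.2 - q.2) (r.2 - p.2) with h3 | h3 <;> rw [hT, h3] <;> linarith
  have e1 := h.far T r q hr hq k2 k4 ((min_le_right _ _).trans hw.right) t0 (t1.trans g3)
    (by rw [a1]; exact t1) (by rw [a1]; exact t3) (by linarith)
  have e2 := h.near T r p hr hp h2 k1 k3 ((min_le_right _ _).trans hw.left) t0 (t1.trans g3)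
    (by rw [a2]; exact t2) (by rw [a2]; exact t4) g4
  have e3 : 0 ≤ be T * (q.1 - p.1 - D0) := mul_nonneg (h.be0 T) (by linarith)
  have e4 : be T * (q.1 - r.1 - D0) - be T * (p.1 - r.1) = be T * (q.1 - p.1 - D0) := by ring
  rw [WF_anti hD s μ r p]
  linarith

/-- **The conditions for the small triangles with an exceptional window.** -/
theorem starSmall_of_win {m D1 : ℝ} {al' be' : ℝ → ℝ} (hD : D.Ok) (hD0 : 11 / 10 ≤ D0)
    (hD1 : 11 / 10 ≤ D1) (h0' : WinV D s 0 D0 al be) (hm : WinV D s m D1 al' be') :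
    StarSmall D s m := by
  -- the four statements for one vertex
  have row : ∀ {μ D0 : ℝ} {al be : ℝ → ℝ}, 11 / 10 ≤ D0 → WinV D s μ D0 al be →
      (∀ a b c o R, Cell a b c o R → 0 ≤ c.2 → a.1 ≤ c.1 → c.1 ≤ b.1 → FF a b →
        ¬(FF a c ∧ FF c b) → ds a b ≤ 3 → ds b c ≤ 3 → ds a c ≤ 3 →
        0 ≤ SF D s μ a b c + WF D s μ a b) ∧
      (∀ a c b o R, Cell a c b o R → 0 ≤ b.2 → c.1 ≤ b.1 → FF a c → ds a c ≤ 3 → ds c b ≤ 3 →
        ds a b ≤ 3 → 0 ≤ SF D s μ a c b + WF D s μ a c) ∧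
      (∀ a c b o R, Cell a c b o R → 0 ≤ a.2 → a.1 ≤ c.1 → FF c b → ds a c ≤ 3 → ds c b ≤ 3 →
        ds a b ≤ 3 → 0 ≤ SF D s μ a c b + WF D s μ c b) := by
    intro μ D0 al be hD0 h
    refine ⟨?_, ?_, ?_⟩
    · intro a b c o R k hc0 h1 h2 hf hn k8 k9 k10
      obtain ⟨u1, u2, u3⟩ := hf.tri_low k10 k9
      have hS := h.tri a b c hf.p0 hf.q0 hc0 k.cr k.pq k.qr k.pr k8 k9 k10 u1 u2 u3
      rcases h.pair a b hf k8 with hw | hw
      · linarith
      · rw [SF_path hD]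
        have k2 : 1 ≤ ds c b := by rw [ds_comm]; exact k.qr
        have k4 : ds c b ≤ 3 := by rw [ds_comm]; exact k9
        rcases h.mid hD0 hw hf.p0 hf.q0 hc0 h1 h2 k.pr k2 k10 k4 k8 with h3 | h3
        · exact absurd h3 hn
        · exact h3
    · intro a c b o R k hb0 h2 hf k7 k8 k9
      obtain ⟨u1, u2, u3⟩ := hf.tri_low k9 k8
      have hS := h.tri a c b hf.p0 hf.q0 hb0 k.cr k.pq k.qr k.pr k7 k8 k9 u1 u2 u3
      rcases h.pair a c hf k7 with hw | hw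
      · linarith
      · rw [SF_path hD]
        exact h.right hD0 hD hw hf.p0 hf.q0 hb0 h2 k.pr k.qr k9 k8
    · intro a c b o R k ha0 h1 hf k7 k8 k9
      have k7' : ds c a ≤ 3 := by rw [ds_comm]; exact k7
      have k9' : ds b a ≤ 3 := by rw [ds_comm]; exact k9
      obtain ⟨u1, u2, u3⟩ := hf.tri_low k7' k9'
      have hS := h.tri a c b ha0 hf.p0 hf.q0 k.cr k.pq k.qr k.pr k7 k8 k9 u3 u1 u2
      rcases h.pair c b hf k8 with hw | hw
      · linarith
      · rw [← SF_rot, SF_path hD]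
        exact h.left hD0 hD hw hf.p0 hf.q0 ha0 h1 k.pq k.pr k7 k9
  have two : ∀ {μ D0 : ℝ} {al be : ℝ → ℝ}, 11 / 10 ≤ D0 → WinV D s μ D0 al be →
      ∀ a c b o R, Cell a c b o R → a.1 ≤ c.1 → c.1 ≤ b.1 → FF a c → FF c b →
      ds a c ≤ 3 → ds c b ≤ 3 → ds a b ≤ 3 →
      0 ≤ SF D s μ a c b + WF D s μ a c + WF D s μ c b := by
    intro μ D0 al be hD0 h a c b o R k h1 h2 f1 f2 k7 k8 k9
    obtain ⟨-, rL, rR⟩ := row hD0 h
    have eL := rL a c b o R k f2.q0 h2 f1 k7 k8 k9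
    have eR := rR a c b o R k f1.p0 h1 f2 k7 k8 k9
    rcases h.pair a c f1 k7 with w1 | w1
    · linarith
    · rcases h.pair c b f2 k8 with w2 | w2
      · linarith
      · exfalso
        have x1 := w1.x
        have x2 := w2.x
        unfold ds at k9
        nlinarith [sq_nonneg (b.2 - a.2)]
  obtain ⟨a1, a2, a3⟩ := row hD0 h0'
  obtain ⟨b1, b2, b3⟩ := row hD1 hm
  refine ⟨?_, ?_, ?_, ?_⟩
  · intro a b c o R k _ hc0 h1 h2 hf hn k8 k9 k10
    refine Or.inl fun μ hμ => ?_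
    rcases hμ with rfl | rfl
    · exact a1 a b c o R k hc0 h1 h2 hf hn k8 k9 k10
    · exact b1 a b c o R k hc0 h1 h2 hf hn k8 k9 k10
  · intro a c b o R k _ hb0 _ h2 hf k7 k8 k9
    refine Or.inl fun μ hμ => ?_
    rcases hμ with rfl | rfl
    · exact a2 a c b o R k hb0 h2 hf k7 k8 k9
    · exact b2 a c b o R k hb0 h2 hf k7 k8 k9
  · intro a c b o R k _ ha0 h1 _ hf k7 k8 k9
    refine Or.inl fun μ hμ => ?_
    rcases hμ with rfl | rfl
    · exact a3 a c b o R k ha0 h1 hf k7 k8 k9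
    · exact b3 a c b o R k ha0 h1 hf k7 k8 k9
  · intro a c b o R k _ h1 h2 f1 f2 k7 k8 k9
    refine Or.inl fun μ hμ => ?_
    rcases hμ with rfl | rfl
    · exact two hD0 h0' a c b o R k h1 h2 f1 f2 k7 k8 k9
    · exact two hD1 hm a c b o R k h1 h2 f1 f2 k7 k8 k9

end

end Pool.Agent.Strip051.LC
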